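import Mathlib

/-!
A Tauberian theorem of Wiener and Ikehara for bounded coefficients (Fejer kernel).
-/

set_option autoImplicit false

namespace Pool.Agent.Lib.MP_3e612f_nt.SA

open MeasureTheory Filter Topology Complex

/-- the Fejer kernel -/
noncomputable def t7_K (v : ℝ) : ℝ := if v = 0 then 1 else 2 * (1 - Real.cos v) / v ^ 2

theorem t7_K_nonneg (v : ℝ) : 0 ≤ t7_K v := by
  unfold t7_K
  split_ifs with h
  · exact zero_le_one
  · have h1 := Real.cos_le_one v
    have h2 : 0 < v ^ 2 := by positivity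
    apply div_nonneg _ h2.le
    linarith

theorem t7_K_le (v : ℝ) : t7_K v ≤ 8 * (1 + v ^ 2)⁻¹ := by
  unfold t7_K
  have h3 : 0 < 1 + v ^ 2 := by positivity
  split_ifs with h
  · rw [h]; norm_num
  · have h1 := Real.one_sub_sq_div_two_le_cos (x := v)
    have h2 : 0 < v ^ 2 := by positivity
    have h4 := Real.neg_one_le_cos v
    rw [← div_eq_mul_inv, div_le_div_iff₀ h2 h3]
    nlinarith [mul_le_mul_of_nonneg_right h1 h2.le]

theorem t7_K_measurable : Measurable t7_K := by
  unfold t7_K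
  refine Measurable.ite (measurableSet_singleton 0) measurable_const ?_
  fun_prop

theorem t7_K_integrable : Integrable t7_K := by
  refine Integrable.mono' (integrable_inv_one_add_sq.const_mul 8)
    t7_K_measurable.aestronglyMeasurable ?_
  filter_upwards with v
  rw [Real.norm_of_nonneg (t7_K_nonneg v)]
  exact t7_K_le v

theorem t7_K_integral_pos : 0 < ∫ v, t7_K v := by
  rw [integral_pos_iff_support_of_nonneg t7_K_nonneg t7_K_integrable]
  have h1 : Set.Ioo (0 : ℝ) 1 ⊆ Function.support t7_K := by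
    intro v hv
    rw [Function.mem_support]
    unfold t7_K
    rw [if_neg (ne_of_gt hv.1)]
    have h2 : Real.cos v < 1 := by
      have h4 := Real.cos_lt_cos_of_nonneg_of_le_pi_div_two le_rfl
        (by linarith [Real.pi_gt_three, hv.2]) hv.1
      rwa [Real.cos_zero] at h4
    have h3 : 0 < v ^ 2 := by
      have := hv.1
      positivity
    have : 0 < 2 * (1 - Real.cos v) / v ^ 2 := div_pos (by linarith) h3
    exact ne_of_gt this
  calc (0 : ENNReal) < volume (Set.Ioo (0 : ℝ) 1) := by simp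
    _ ≤ volume (Function.support t7_K) := measure_mono h1

theorem t7_cos (v : ℝ) : ∫ t in (0 : ℝ)..1, 2 * ((1 - t) * Real.cos (t * v)) = t7_K v := by
  unfold t7_K
  split_ifs with h
  · subst h
    have h1 : ∀ t ∈ Set.uIcc (0 : ℝ) 1, HasDerivAt (fun t : ℝ => 2 * t - t ^ 2)
        (2 * ((1 - t) * Real.cos (t * 0))) t := by
      intro t _
      have h2 : HasDerivAt (fun t : ℝ => 2 * t - t ^ 2) (2 * 1 - (2 : ℕ) * t ^ (2 - 1)) t :=
        ((hasDerivAt_id t).const_mul 2).sub (hasDerivAt_pow 2 t)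
      convert h2 using 1
      simp
      ring
    rw [intervalIntegral.integral_eq_sub_of_hasDerivAt h1]
    · norm_num
    · apply Continuous.intervalIntegrable
      fun_prop
  · have h1 : ∀ t ∈ Set.uIcc (0 : ℝ) 1, HasDerivAt
        (fun t : ℝ => 2 * ((1 - t) * (Real.sin (t * v) / v) - Real.cos (t * v) / v ^ 2))
        (2 * ((1 - t) * Real.cos (t * v))) t := by
      intro t _
      have h2 : HasDerivAt (fun t : ℝ => t * v) v t := by
        simpa using (hasDerivAt_id t).mul_const v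
      have h3 : HasDerivAt (fun t : ℝ => Real.sin (t * v) / v)
          (Real.cos (t * v) * v / v) t := (h2.sin).div_const v
      have h4 : HasDerivAt (fun t : ℝ => Real.cos (t * v) / v ^ 2)
          (-Real.sin (t * v) * v / v ^ 2) t := (h2.cos).div_const _
      have h5 : HasDerivAt (fun t : ℝ => 1 - t) (-1) t := by
        simpa using (hasDerivAt_id t).const_sub 1
      have h6 := ((h5.mul h3).sub h4).const_mul 2
      have h9 : 2 * ((1 - t) * Real.cos (t * v)) = 2 * (-1 * (Real.sin (t * v) / v) +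
          (1 - t) * (Real.cos (t * v) * v / v) - -Real.sin (t * v) * v / v ^ 2) := by
        field_simp
        ring
      rw [h9]
      exact h6
    rw [intervalIntegral.integral_eq_sub_of_hasDerivAt h1]
    · simp
      ring
    · apply Continuous.intervalIntegrable
      fun_prop

theorem t7_K_eq (v : ℝ) :
    ∫ t in (-1 : ℝ)..1, ((1 - |t| : ℝ) : ℂ) * Complex.exp (I * t * v) = t7_K v := by
  have hc : ∀ a b : ℝ, IntervalIntegrable
      (fun t : ℝ => ((1 - |t| : ℝ) : ℂ) * Complex.exp (I * t * v)) volume a b := by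
    intro a b
    apply Continuous.intervalIntegrable
    fun_prop
  have h1 : ∫ t in (-1 : ℝ)..0, ((1 - |t| : ℝ) : ℂ) * Complex.exp (I * t * v) =
      ∫ t in (0 : ℝ)..1, ((1 - |t| : ℝ) : ℂ) * Complex.exp (-(I * t * v)) := by
    have h2 := intervalIntegral.integral_comp_neg (a := 0) (b := 1)
      (fun t : ℝ => ((1 - |t| : ℝ) : ℂ) * Complex.exp (I * t * v))
    rw [neg_zero] at h2
    rw [← h2]
    congr 1
    ext t
    simp
  rw [← intervalIntegral.integral_add_adjacent_intervals (hc (-1) 0) (hc 0 1), h1,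
    ← intervalIntegral.integral_add, ← t7_cos v, ← intervalIntegral.integral_ofReal]
  · apply intervalIntegral.integral_congr
    intro t ht
    rw [Set.uIcc_of_le zero_le_one] at ht
    simp only
    rw [abs_of_nonneg ht.1]
    push_cast
    have h3 := Complex.two_cos (t * v)
    rw [show I * (t : ℂ) * v = (t * v) * I by ring, ← neg_mul]
    linear_combination (1 - (t : ℂ)) * (-h3)
  · apply Continuous.intervalIntegrable
    fun_prop
  · exact hc 0 1

/-- a uniform bound for a continuous function on a rectangle of the right half plane -/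
theorem t7_bound {H : ℂ → ℂ} (hH : ContinuousOn H {s | 0 ≤ s.re}) (L : ℝ) :
    ∃ C : ℝ, ∀ σ t : ℝ, 0 ≤ σ → σ ≤ 1 → -1 ≤ t → t ≤ 1 → ‖H (σ + I * (L * t))‖ ≤ C := by
  have hK : IsCompact (Set.Icc (0 : ℝ) 1 ×ˢ Set.Icc (-1 : ℝ) 1) :=
    isCompact_Icc.prod isCompact_Icc
  have hc : ContinuousOn (fun p : ℝ × ℝ => H ((p.1 : ℂ) + I * (L * p.2)))
      (Set.Icc (0 : ℝ) 1 ×ˢ Set.Icc (-1 : ℝ) 1) := by
    apply hH.comp (f := fun p : ℝ × ℝ => (p.1 : ℂ) + I * (L * p.2))
    · fun_prop
    · rintro ⟨σ, t⟩ h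
      simp only [Set.mem_prod, Set.mem_Icc] at h
      have := h.1.1
      simpa using this
  obtain ⟨C, hC⟩ := hK.exists_bound_of_continuousOn hc
  refine ⟨C, fun σ t h1 h2 h3 h4 => hC (σ, t) ⟨⟨h1, h2⟩, ⟨h3, h4⟩⟩⟩

/-- the identity for positive `σ` -/
theorem t7_fubini {h : ℝ → ℂ} (hm : Measurable h) (h1 : ∀ u, ‖h u‖ ≤ 1) (H : ℂ → ℂ)
    (hHh : ∀ s : ℂ, 0 < s.re → ∫ u in Set.Ioi (0 : ℝ), h u * Complex.exp (-(s * u)) = H s)
    (L U σ : ℝ) (hσ : 0 < σ) :
    ∫ u in Set.Ioi (0 : ℝ), h u * Complex.exp (-(σ * u)) * t7_K (L * (U - u)) =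
      ∫ t in (-1 : ℝ)..1, ((1 - |t| : ℝ) : ℂ) * Complex.exp (I * t * (L * U)) *
        H (σ + I * (L * t)) := by
  have e1 : ∀ u : ℝ, h u * Complex.exp (-(σ * u)) * t7_K (L * (U - u)) =
      ∫ t in (-1 : ℝ)..1, h u * Complex.exp (-(σ * u)) * (((1 - |t| : ℝ) : ℂ) *
        Complex.exp (I * t * (L * (U - u) : ℝ))) := by
    intro u
    rw [← t7_K_eq, intervalIntegral.integral_const_mul]
  have e2 : ∀ t : ℝ, ((1 - |t| : ℝ) : ℂ) * Complex.exp (I * t * (L * U)) *
      H (σ + I * (L * t)) = ∫ u in Set.Ioi (0 : ℝ), h u * Complex.exp (-(σ * u)) *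
        (((1 - |t| : ℝ) : ℂ) * Complex.exp (I * t * (L * (U - u) : ℝ))) := by
    intro t
    rw [← hHh (σ + I * (L * t)) (by simpa using hσ), ← integral_const_mul]
    congr 1
    ext u
    have e3 : Complex.exp (I * t * (L * U)) * Complex.exp (-((σ + I * (L * t)) * u)) =
        Complex.exp (-(σ * u)) * Complex.exp (I * t * (L * (U - u) : ℝ)) := by
      rw [← Complex.exp_add, ← Complex.exp_add]
      congr 1
      push_cast
      ring
    linear_combination ((1 - |t| : ℝ) : ℂ) * h u * e3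
  simp_rw [e1, e2]
  symm
  apply intervalIntegral_integral_swap
  have hb : Integrable (fun z : ℝ × ℝ => (1 : ℝ) * Real.exp (-(σ * z.2)))
      ((volume.restrict (Set.uIoc (-1 : ℝ) 1)).prod (volume.restrict (Set.Ioi (0 : ℝ)))) := by
    apply Integrable.mul_prod (f := fun _ : ℝ => (1 : ℝ)) (g := fun u : ℝ => Real.exp (-(σ * u)))
    · have : IsFiniteMeasure (volume.restrict (Set.uIoc (-1 : ℝ) 1)) := by
        rw [Set.uIoc_of_le (by norm_num)]
        infer_instance
      apply integrable_const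
    · have := exp_neg_integrableOn_Ioi 0 hσ
      simpa [neg_mul, IntegrableOn] using this
  have hmeas : Measurable (Function.uncurry fun (t : ℝ) (u : ℝ) => h u * Complex.exp (-(σ * u)) *
      (((1 - |t| : ℝ) : ℂ) * Complex.exp (I * t * (L * (U - u) : ℝ)))) := by
    unfold Function.uncurry
    fun_prop
  refine Integrable.mono' hb hmeas.aestronglyMeasurable ?_
  have hae : ∀ᵐ z : ℝ × ℝ ∂((volume.restrict (Set.uIoc (-1 : ℝ) 1)).prod
      (volume.restrict (Set.Ioi (0 : ℝ)))), z ∈ Set.uIoc (-1 : ℝ) 1 ×ˢ Set.Ioi (0 : ℝ) := by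
    rw [Measure.prod_restrict]
    exact ae_restrict_mem (measurableSet_uIoc.prod measurableSet_Ioi)
  filter_upwards [hae] with z hz
  obtain ⟨t, u⟩ := z
  simp only [Set.mem_prod] at hz
  have hz1 := hz.1
  rw [Set.uIoc_of_le (by norm_num)] at hz1
  have ht : |t| ≤ 1 := abs_le.2 ⟨hz1.1.le, hz1.2⟩
  simp only [Function.uncurry]
  rw [norm_mul, norm_mul, norm_mul]
  have n1 : ‖Complex.exp (-((σ : ℂ) * u))‖ = Real.exp (-(σ * u)) := by
    rw [Complex.norm_exp]
    congr 1
    simp
  have n2 : ‖Complex.exp (I * t * (L * (U - u) : ℝ))‖ = 1 := by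
    rw [Complex.norm_exp]
    simp
  have n3 : ‖((1 - |t| : ℝ) : ℂ)‖ ≤ 1 := by
    rw [Complex.norm_real, Real.norm_of_nonneg (by linarith)]
    have := abs_nonneg t
    linarith
  rw [n1, n2, mul_one]
  have n4 := h1 u
  have n5 := Real.exp_pos (-(σ * u))
  have n6 := norm_nonneg (h u)
  have n7 := norm_nonneg ((1 - |t| : ℝ) : ℂ)
  calc ‖h u‖ * Real.exp (-(σ * u)) * ‖((1 - |t| : ℝ) : ℂ)‖
      ≤ 1 * Real.exp (-(σ * u)) * 1 := by gcongr
    _ = 1 * Real.exp (-(σ * u)) := by ring

/-- the identity at the boundary -/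
theorem t7_boundary {h : ℝ → ℂ} (hm : Measurable h) (h1 : ∀ u, ‖h u‖ ≤ 1) (H : ℂ → ℂ)
    (hH : ContinuousOn H {s | 0 ≤ s.re})
    (hHh : ∀ s : ℂ, 0 < s.re → ∫ u in Set.Ioi (0 : ℝ), h u * Complex.exp (-(s * u)) = H s)
    (L U : ℝ) (hL : 0 < L) :
    ∫ u in Set.Ioi (0 : ℝ), h u * t7_K (L * (U - u)) =
      ∫ t in (-1 : ℝ)..1, ((1 - |t| : ℝ) : ℂ) * Complex.exp (I * t * (L * U)) *
        H (I * (L * t)) := by
  have hσ0 : Tendsto (fun n : ℕ => 1 / ((n : ℝ) + 1)) atTop (𝓝 0) :=
    tendsto_one_div_add_atTop_nhds_zero_nat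
  have hσp : ∀ n : ℕ, 0 < 1 / ((n : ℝ) + 1) := fun n => by positivity
  have hσ1 : ∀ n : ℕ, 1 / ((n : ℝ) + 1) ≤ 1 := fun n => by
    rw [div_le_one (by positivity)]
    have : (0 : ℝ) ≤ n := by positivity
    linarith
  have hKi : Integrable (fun u : ℝ => t7_K (L * (U - u))) := by
    have h2 : Integrable (fun u : ℝ => t7_K (L * u)) := t7_K_integrable.comp_mul_left' hL.ne'
    exact h2.comp_sub_left U
  have lim1 : Tendsto (fun n : ℕ => ∫ u in Set.Ioi (0 : ℝ), h u *
      Complex.exp (-(((1 / ((n : ℝ) + 1) : ℝ) : ℂ) * u)) * t7_K (L * (U - u))) atTop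
      (𝓝 (∫ u in Set.Ioi (0 : ℝ), h u * t7_K (L * (U - u)))) := by
    apply tendsto_integral_of_dominated_convergence (fun u : ℝ => t7_K (L * (U - u)))
    · intro n
      apply Measurable.aestronglyMeasurable
      have := t7_K_measurable
      fun_prop
    · exact hKi.integrableOn
    · intro n
      filter_upwards [ae_restrict_mem measurableSet_Ioi] with u hu
      have hu' : 0 < u := hu
      rw [norm_mul, norm_mul, Complex.norm_real, Real.norm_of_nonneg (t7_K_nonneg _)]
      have n1 : ‖Complex.exp (-(((1 / ((n : ℝ) + 1) : ℝ) : ℂ) * u))‖ ≤ 1 := by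
        rw [← Complex.ofReal_mul, ← Complex.ofReal_neg, ← Complex.ofReal_exp, Complex.norm_real,
          Real.norm_of_nonneg (Real.exp_pos _).le, Real.exp_le_one_iff, neg_nonpos]
        have := hσp n
        positivity
      have n2 := h1 u
      have n3 := t7_K_nonneg (L * (U - u))
      calc ‖h u‖ * ‖Complex.exp (-(((1 / ((n : ℝ) + 1) : ℝ) : ℂ) * u))‖ * t7_K (L * (U - u))
          ≤ 1 * 1 * t7_K (L * (U - u)) := by gcongr
        _ = t7_K (L * (U - u)) := by ring
    · filter_upwards with u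
      have n1 : Tendsto (fun n : ℕ => Complex.exp (-(((1 / ((n : ℝ) + 1) : ℝ) : ℂ) * u))) atTop
          (𝓝 1) := by
        have n2 : Tendsto (fun n : ℕ => (-(((1 / ((n : ℝ) + 1) : ℝ) : ℂ) * u))) atTop
            (𝓝 (-(((0 : ℝ) : ℂ) * u))) := by
          apply Tendsto.neg
          apply Tendsto.mul_const
          exact (Complex.continuous_ofReal.tendsto 0).comp hσ0
        have n3 := (Complex.continuous_exp.tendsto _).comp n2
        simpa [Function.comp_def] using n3
      have n4 := (n1.const_mul (h u)).mul_const (t7_K (L * (U - u)) : ℂ)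
      simpa using n4
  obtain ⟨C, hC⟩ := t7_bound hH L
  have lim2 : Tendsto (fun n : ℕ => ∫ t in (-1 : ℝ)..1, ((1 - |t| : ℝ) : ℂ) *
      Complex.exp (I * t * (L * U)) * H (((1 / ((n : ℝ) + 1) : ℝ) : ℂ) + I * (L * t))) atTop
      (𝓝 (∫ t in (-1 : ℝ)..1, ((1 - |t| : ℝ) : ℂ) * Complex.exp (I * t * (L * U)) *
        H (I * (L * t)))) := by
    have hcont : ∀ σ : ℝ, 0 ≤ σ → Continuous (fun t : ℝ => H ((σ : ℂ) + I * (L * t))) := by
      intro σ hσ
      rw [← continuousOn_univ]
      apply hH.comp (f := fun t : ℝ => (σ : ℂ) + I * (L * t))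
      · fun_prop
      · intro t _
        simpa using hσ
    apply intervalIntegral.tendsto_integral_filter_of_dominated_convergence (fun _ => C)
    · filter_upwards with n
      apply Continuous.aestronglyMeasurable
      exact Continuous.mul (by fun_prop) (hcont _ (hσp n).le)
    · filter_upwards with n
      filter_upwards with t ht
      rw [Set.uIoc_of_le (by norm_num)] at ht
      have h2 := hC (1 / ((n : ℝ) + 1)) t (hσp n).le (hσ1 n) ht.1.le ht.2
      rw [norm_mul, norm_mul]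
      have n2 : ‖Complex.exp (I * t * (L * U))‖ = 1 := by
        rw [Complex.norm_exp]
        simp
      have ht' : |t| ≤ 1 := abs_le.2 ⟨ht.1.le, ht.2⟩
      have n3 : ‖((1 - |t| : ℝ) : ℂ)‖ ≤ 1 := by
        rw [Complex.norm_real, Real.norm_of_nonneg (by linarith)]
        have := abs_nonneg t
        linarith
      rw [n2, mul_one]
      have n4 := norm_nonneg (H (((1 / ((n : ℝ) + 1) : ℝ) : ℂ) + I * (L * t)))
      calc ‖((1 - |t| : ℝ) : ℂ)‖ * ‖H (((1 / ((n : ℝ) + 1) : ℝ) : ℂ) + I * (L * t))‖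
          ≤ 1 * ‖H (((1 / ((n : ℝ) + 1) : ℝ) : ℂ) + I * (L * t))‖ := by gcongr
        _ ≤ C := by rw [one_mul]; exact h2
    · simp
    · filter_upwards with t _
      apply Tendsto.const_mul
      have h3 : ContinuousWithinAt H {s | 0 ≤ s.re} (I * (L * t)) := by
        apply hH
        simp
      apply h3.tendsto.comp
      rw [tendsto_nhdsWithin_iff]
      constructor
      · have h4 : Tendsto (fun n : ℕ => ((1 / ((n : ℝ) + 1) : ℝ) : ℂ) + I * (L * t)) atTop
            (𝓝 (((0 : ℝ) : ℂ) + I * (L * t))) := by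
          apply Tendsto.add_const
          exact (Complex.continuous_ofReal.tendsto 0).comp hσ0
        simpa using h4
      · filter_upwards with n
        have h5 : (I * ((L : ℂ) * t)).re = 0 := by simp
        have h6 : 0 ≤ (((1 / ((n : ℝ) + 1) : ℝ) : ℂ) + I * (L * t)).re := by
          rw [Complex.add_re, Complex.ofReal_re, h5, add_zero]
          exact (hσp n).le
        exact h6
  refine tendsto_nhds_unique lim1 (lim2.congr fun n => ?_)
  rw [t7_fubini hm h1 H hHh L U _ (hσp n)]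

/-- Riemann-Lebesgue on the boundary -/
theorem t7_RL (H : ℂ → ℂ) (L : ℝ) (hL : 0 < L) :
    Tendsto (fun U : ℝ => ∫ t in (-1 : ℝ)..1, ((1 - |t| : ℝ) : ℂ) *
      Complex.exp (I * t * (L * U)) * H (I * (L * t))) atTop (𝓝 0) := by
  have h1 := Real.tendsto_integral_exp_smul_cocompact
    (Set.indicator (Set.Ioc (-1 : ℝ) 1) fun t : ℝ => ((1 - |t| : ℝ) : ℂ) * H (I * (L * t)))
  have h2 : Tendsto (fun U : ℝ => -(L * U) / (2 * Real.pi)) atTop (cocompact ℝ) := by
    have h3 : Tendsto (fun U : ℝ => -(L * U) / (2 * Real.pi)) atTop atBot := by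
      apply Tendsto.atBot_div_const (by positivity)
      apply Tendsto.comp tendsto_neg_atTop_atBot
      exact Tendsto.const_mul_atTop hL tendsto_id
    exact h3.mono_right atBot_le_cocompact
  refine (h1.comp h2).congr fun U => ?_
  simp only [Function.comp]
  rw [intervalIntegral.integral_of_le (by norm_num), ← integral_indicator measurableSet_Ioc]
  congr 1
  ext t
  by_cases ht : t ∈ Set.Ioc (-1 : ℝ) 1
  · rw [Set.indicator_of_mem ht, Set.indicator_of_mem ht, Circle.smul_def, Real.fourierChar_apply,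
      smul_eq_mul]
    have h4 : ((2 * Real.pi * -(t * (-(L * U) / (2 * Real.pi))) : ℝ) : ℂ) * I =
        I * t * (L * U) := by
      have h5 : (2 * Real.pi * -(t * (-(L * U) / (2 * Real.pi)))) = t * (L * U) := by
        have := Real.pi_pos
        field_simp
      rw [h5]
      push_cast
      ring
    rw [h4]
    ring
  · rw [Set.indicator_of_notMem ht, Set.indicator_of_notMem ht, smul_zero]

/-- the mass of the kernel far from the origin -/
theorem t7_D :
    Tendsto (fun n : ℕ => ∫ w : ℝ, min 2 (2 * |w| / ((n : ℝ) + 1)) * t7_K w) atTop (𝓝 0) := by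
  have h0 : (0 : ℝ) = ∫ w : ℝ, (0 : ℝ) := by simp
  rw [h0]
  apply tendsto_integral_of_dominated_convergence (fun w : ℝ => 2 * t7_K w)
  · intro n
    apply Measurable.aestronglyMeasurable
    have := t7_K_measurable
    fun_prop
  · exact t7_K_integrable.const_mul 2
  · intro n
    filter_upwards with w
    have h1 := t7_K_nonneg w
    have h2 : 0 ≤ min 2 (2 * |w| / ((n : ℝ) + 1)) := le_min (by norm_num) (by positivity)
    rw [Real.norm_of_nonneg (mul_nonneg h2 h1)]
    exact mul_le_mul_of_nonneg_right (min_le_left _ _) h1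
  · filter_upwards with w
    have h3 : Tendsto (fun n : ℕ => 2 * |w| * (1 / ((n : ℝ) + 1))) atTop (𝓝 (2 * |w| * 0)) :=
      tendsto_one_div_add_atTop_nhds_zero_nat.const_mul _
    have h4 : Tendsto (fun n : ℕ => min 2 (2 * |w| / ((n : ℝ) + 1))) atTop (𝓝 (min 2 0)) := by
      apply Tendsto.min tendsto_const_nhds
      rw [mul_zero] at h3
      refine h3.congr fun n => ?_
      ring
    have h5 := h4.mul_const (t7_K w)
    have h6 : min (2 : ℝ) 0 = 0 := min_eq_right (by norm_num)
    rw [h6, zero_mul] at h5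
    exact h5

theorem t7_slow {h : ℝ → ℂ} (hm : Measurable h) (h1 : ∀ u, ‖h u‖ ≤ 1)
    (hosc : ∀ U v : ℝ, 0 ≤ U → v < U → ‖h U - h (U - v)‖ ≤ 2 * |v| + Real.exp (-U))
    (hlim : ∀ L : ℝ, 0 < L →
      Tendsto (fun U : ℝ => ∫ u in Set.Ioi (0 : ℝ), h u * t7_K (L * (U - u))) atTop (𝓝 0)) :
    Tendsto h atTop (𝓝 0) := by
  set c : ℝ := ∫ v, t7_K v with hc
  have hcp : 0 < c := t7_K_integral_pos
  set g : ℝ → ℂ := Set.indicator (Set.Ioi (0 : ℝ)) h with hg
  have hgm : Measurable g := hm.indicator measurableSet_Ioi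
  have hg1 : ∀ u, ‖g u‖ ≤ 1 := by
    intro u
    by_cases hu : u ∈ Set.Ioi (0 : ℝ)
    · rw [hg, Set.indicator_of_mem hu]; exact h1 u
    · rw [hg, Set.indicator_of_notMem hu]; simp
  have key : ∀ n : ℕ, ∀ U : ℝ, 1 ≤ U → c * ‖h U‖ ≤
      ((n : ℝ) + 1) * ‖∫ u in Set.Ioi (0 : ℝ), h u * t7_K (((n : ℝ) + 1) * (U - u))‖ +
        (∫ w : ℝ, min 2 (2 * |w| / ((n : ℝ) + 1)) * t7_K w) + c * Real.exp (-U) := by
    intro n U hU
    have hLp : 0 < (n : ℝ) + 1 := by positivity
    set L : ℝ := (n : ℝ) + 1 with hL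
    have e1 : ∫ u in Set.Ioi (0 : ℝ), h u * t7_K (L * (U - u)) =
        (L : ℂ)⁻¹ * ∫ w : ℝ, g (U - w / L) * t7_K w := by
      have e2 : ∫ u in Set.Ioi (0 : ℝ), h u * t7_K (L * (U - u)) =
          ∫ u : ℝ, g u * t7_K (L * (U - u)) := by
        rw [← integral_indicator measurableSet_Ioi]
        congr 1
        ext u
        by_cases hu : u ∈ Set.Ioi (0 : ℝ)
        · rw [Set.indicator_of_mem hu, hg, Set.indicator_of_mem hu]
        · rw [Set.indicator_of_notMem hu, hg, Set.indicator_of_notMem hu, zero_mul]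
      have e3 : ∫ u : ℝ, g u * t7_K (L * (U - u)) = ∫ v : ℝ, g (U - v) * t7_K (L * v) := by
        rw [← integral_sub_left_eq_self _ volume U]
        congr 1
        ext v
        rw [sub_sub_cancel]
      have e4 : ∫ v : ℝ, g (U - v) * t7_K (L * v) =
          |L⁻¹| • ∫ w : ℝ, g (U - w / L) * t7_K w := by
        rw [← Measure.integral_comp_mul_left (fun w : ℝ => g (U - w / L) * t7_K w) L]
        congr 1
        ext v
        rw [mul_div_cancel_left₀ _ hLp.ne']
      rw [e2, e3, e4, abs_of_pos (by positivity), Complex.real_smul, Complex.ofReal_inv]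
    have hi1 : Integrable (fun w : ℝ => g (U - w / L) * (t7_K w : ℂ)) := by
      refine Integrable.mono' t7_K_integrable ?_ ?_
      · apply Measurable.aestronglyMeasurable
        have := t7_K_measurable
        fun_prop
      · filter_upwards with w
        rw [norm_mul, Complex.norm_real, Real.norm_of_nonneg (t7_K_nonneg w)]
        calc ‖g (U - w / L)‖ * t7_K w ≤ 1 * t7_K w :=
              mul_le_mul_of_nonneg_right (hg1 _) (t7_K_nonneg w)
          _ = t7_K w := one_mul _
    have hi2 : Integrable (fun w : ℝ => h U * (t7_K w : ℂ)) :=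
      t7_K_integrable.ofReal.const_mul _
    have hi3 : Integrable (fun w : ℝ => min 2 (2 * |w| / L) * t7_K w) := by
      refine Integrable.mono' (t7_K_integrable.const_mul 2) ?_ ?_
      · apply Measurable.aestronglyMeasurable
        have := t7_K_measurable
        fun_prop
      · filter_upwards with w
        have h1 := t7_K_nonneg w
        have h2 : 0 ≤ min 2 (2 * |w| / L) := le_min (by norm_num) (by positivity)
        rw [Real.norm_of_nonneg (mul_nonneg h2 h1)]
        exact mul_le_mul_of_nonneg_right (min_le_left _ _) h1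
    have e5 : ∫ w : ℝ, h U * (t7_K w : ℂ) = c * h U := by
      rw [integral_const_mul, integral_complex_ofReal, ← hc, mul_comm]
    have e6 : (c : ℂ) * h U = (∫ w : ℝ, g (U - w / L) * t7_K w) +
        ∫ w : ℝ, (h U * (t7_K w : ℂ) - g (U - w / L) * t7_K w) := by
      rw [integral_sub hi2 hi1, e5]
      ring
    have e7 : ‖∫ w : ℝ, (h U * (t7_K w : ℂ) - g (U - w / L) * t7_K w)‖ ≤
        ∫ w : ℝ, (min 2 (2 * |w| / L) * t7_K w + Real.exp (-U) * t7_K w) := by
      apply norm_integral_le_of_norm_le (hi3.add (t7_K_integrable.const_mul _))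
      filter_upwards with w
      rw [← sub_mul, norm_mul, Complex.norm_real, Real.norm_of_nonneg (t7_K_nonneg w)]
      change _ ≤ min 2 (2 * |w| / L) * t7_K w + Real.exp (-U) * t7_K w
      rw [← add_mul]
      apply mul_le_mul_of_nonneg_right _ (t7_K_nonneg w)
      have hU1 := h1 U
      have hE := Real.exp_pos (-U)
      have habs : |w / L| = |w| / L := by rw [abs_div, abs_of_pos hLp]
      by_cases hw : w / L < U
      · have hu : U - w / L ∈ Set.Ioi (0 : ℝ) := by
          rw [Set.mem_Ioi]; linarith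
        rw [hg, Set.indicator_of_mem hu]
        have b1 := hosc U (w / L) (by linarith) hw
        have b2 : ‖h U - h (U - w / L)‖ ≤ 2 := by
          have := norm_sub_le (h U) (h (U - w / L))
          have := h1 (U - w / L)
          linarith
        rw [habs] at b1
        rcases le_total (2 : ℝ) (2 * |w| / L) with b3 | b3
        · rw [min_eq_left b3]; linarith
        · rw [min_eq_right b3]
          have : 2 * |w| / L = 2 * (|w| / L) := by ring
          linarith
      · have hu : U - w / L ∉ Set.Ioi (0 : ℝ) := by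
          rw [Set.mem_Ioi]; linarith
        rw [hg, Set.indicator_of_notMem hu, sub_zero]
        have b1 : 1 ≤ |w| / L := by
          rw [← habs]
          exact le_trans (by linarith) (le_abs_self _)
        have b2 : (2 : ℝ) ≤ 2 * |w| / L := by
          have : 2 * |w| / L = 2 * (|w| / L) := by ring
          linarith
        rw [min_eq_left b2]
        linarith
    have e8 : ∫ w : ℝ, (min 2 (2 * |w| / L) * t7_K w + Real.exp (-U) * t7_K w) =
        (∫ w : ℝ, min 2 (2 * |w| / L) * t7_K w) + c * Real.exp (-U) := by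
      rw [integral_add hi3 (t7_K_integrable.const_mul _), integral_const_mul, ← hc, mul_comm c]
    have e9 : ‖∫ w : ℝ, g (U - w / L) * (t7_K w : ℂ)‖ =
        L * ‖∫ u in Set.Ioi (0 : ℝ), h u * t7_K (L * (U - u))‖ := by
      rw [e1, norm_mul, norm_inv, Complex.norm_real, Real.norm_of_nonneg hLp.le,
        mul_inv_cancel_left₀ hLp.ne']
    have e10 : c * ‖h U‖ = ‖(c : ℂ) * h U‖ := by
      rw [norm_mul, Complex.norm_real, Real.norm_of_nonneg hcp.le]
    rw [e10, e6]
    refine (norm_add_le _ _).trans ?_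
    rw [e9]
    rw [e8] at e7
    linarith
  rw [Metric.tendsto_atTop]
  intro ε hε
  have hD := Metric.tendsto_atTop.1 t7_D (c * ε / 3) (by positivity)
  obtain ⟨n, hn⟩ := hD
  have hn1 := hn n le_rfl
  rw [Real.dist_eq, sub_zero] at hn1
  have hn2 := (abs_lt.1 hn1).2
  have hLp : 0 < (n : ℝ) + 1 := by positivity
  have h2 := Metric.tendsto_atTop.1 (hlim ((n : ℝ) + 1) hLp) (c * ε / 3 / ((n : ℝ) + 1))
    (by positivity)
  obtain ⟨U1, hU1⟩ := h2
  have h3 : Tendsto (fun U : ℝ => Real.exp (-U)) atTop (𝓝 0) := Real.tendsto_exp_neg_atTop_nhds_zero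
  obtain ⟨U2, hU2⟩ := Metric.tendsto_atTop.1 h3 (ε / 3) (by positivity)
  refine ⟨max 1 (max U1 U2), fun U hU => ?_⟩
  have k1 : 1 ≤ U := le_trans (le_max_left _ _) hU
  have k2 : U1 ≤ U := le_trans (le_trans (le_max_left _ _) (le_max_right _ _)) hU
  have k3 : U2 ≤ U := le_trans (le_trans (le_max_right _ _) (le_max_right _ _)) hU
  have m1 := key n U k1
  have m2 := hU1 U k2
  have m3 := hU2 U k3
  rw [dist_zero_right] at m2
  rw [Real.dist_eq, sub_zero] at m3
  have m4 := (abs_lt.1 m3).2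
  have m5 : ((n : ℝ) + 1) * ‖∫ u in Set.Ioi (0 : ℝ), h u * t7_K (((n : ℝ) + 1) * (U - u))‖ <
      c * ε / 3 := by
    rw [lt_div_iff₀ hLp] at m2
    linarith
  have m6 : c * Real.exp (-U) < c * (ε / 3) := mul_lt_mul_of_pos_left m4 hcp
  rw [dist_zero_right]
  have m7 : c * ‖h U‖ < c * ε := by linarith
  exact lt_of_mul_lt_mul_left m7 hcp.le

theorem t7_sum_diff {f : ℕ → ℂ} (hf : ∀ n, ‖f n‖ ≤ 1) {a b : ℕ} (hab : a ≤ b) :
    ‖∑ k ∈ Finset.Icc 1 b, f k - ∑ k ∈ Finset.Icc 1 a, f k‖ ≤ (b : ℝ) - a := by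
  induction b, hab using Nat.le_induction with
  | base => simp
  | succ b hab ih =>
    rw [Finset.sum_Icc_succ_top (by omega), add_sub_right_comm]
    refine (norm_add_le _ _).trans ?_
    have := hf (b + 1)
    push_cast
    linarith

theorem t7_sum_le {f : ℕ → ℂ} (hf : ∀ n, ‖f n‖ ≤ 1) (b : ℕ) :
    ‖∑ k ∈ Finset.Icc 1 b, f k‖ ≤ (b : ℝ) := by
  have := t7_sum_diff hf (Nat.zero_le b)
  simpa using this

/-- the normalised sum in the exponential variable -/
noncomputable def t7_h (f : ℕ → ℂ) (u : ℝ) : ℂ :=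
  (Real.exp (-u) : ℂ) * ∑ k ∈ Finset.Icc 1 ⌊Real.exp u⌋₊, f k

theorem t7_h_measurable (f : ℕ → ℂ) : Measurable (t7_h f) := by
  unfold t7_h
  apply Measurable.mul
  · fun_prop
  · exact (measurable_from_nat (f := fun n => ∑ k ∈ Finset.Icc 1 n, f k)).comp
      (Nat.measurable_floor.comp Real.measurable_exp)

theorem t7_h_le {f : ℕ → ℂ} (hf : ∀ n, ‖f n‖ ≤ 1) (u : ℝ) : ‖t7_h f u‖ ≤ 1 := by
  unfold t7_h
  rw [norm_mul, Complex.norm_real, Real.norm_of_nonneg (Real.exp_pos _).le]
  have h1 := t7_sum_le hf ⌊Real.exp u⌋₊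
  have h2 := Nat.floor_le (Real.exp_pos u).le
  calc Real.exp (-u) * ‖∑ k ∈ Finset.Icc 1 ⌊Real.exp u⌋₊, f k‖
      ≤ Real.exp (-u) * Real.exp u :=
        mul_le_mul_of_nonneg_left (h1.trans h2) (Real.exp_pos _).le
    _ = 1 := by rw [← Real.exp_add]; simp

theorem t7_osc {f : ℕ → ℂ} (hf : ∀ n, ‖f n‖ ≤ 1) {x y : ℝ} (hxy : x ≤ y) :
    ‖t7_h f y - t7_h f x‖ ≤ 2 * (y - x) + Real.exp (-y) := by
  unfold t7_h
  set a := ⌊Real.exp x⌋₊ with ha
  set b := ⌊Real.exp y⌋₊ with hb
  have hexy : Real.exp x ≤ Real.exp y := Real.exp_le_exp.2 hxy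
  have hab : a ≤ b := Nat.floor_le_floor hexy
  have h1 := t7_sum_diff hf hab
  have h2 := t7_sum_le hf a
  have h3 := Nat.floor_le (Real.exp_pos x).le
  have h4 := Nat.floor_le (Real.exp_pos y).le
  have h5 := Nat.lt_floor_add_one (Real.exp x)
  rw [← ha] at h3 h5
  rw [← hb] at h4
  have e1 : (Real.exp (-y) : ℂ) * ∑ k ∈ Finset.Icc 1 b, f k -
      (Real.exp (-x) : ℂ) * ∑ k ∈ Finset.Icc 1 a, f k =
      (Real.exp (-y) : ℂ) * (∑ k ∈ Finset.Icc 1 b, f k - ∑ k ∈ Finset.Icc 1 a, f k) +
      ((Real.exp (-y) - Real.exp (-x) : ℝ) : ℂ) * ∑ k ∈ Finset.Icc 1 a, f k := by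
    push_cast
    ring
  rw [e1]
  refine (norm_add_le _ _).trans ?_
  have hle : Real.exp (-y) ≤ Real.exp (-x) := Real.exp_le_exp.2 (by linarith)
  rw [norm_mul, norm_mul, Complex.norm_real, Complex.norm_real,
    Real.norm_of_nonneg (Real.exp_pos _).le, Real.norm_of_nonpos (by linarith)]
  have p1 : Real.exp (-y) * Real.exp y = 1 := by rw [← Real.exp_add]; simp
  have p2 : Real.exp (-x) * Real.exp x = 1 := by rw [← Real.exp_add]; simp
  have p3 : Real.exp (-y) * Real.exp x = Real.exp (-(y - x)) := by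
    rw [← Real.exp_add]; congr 1; ring
  have p4 : 1 - (y - x) ≤ Real.exp (-(y - x)) := by
    have := Real.add_one_le_exp (-(y - x))
    linarith
  have q1 : Real.exp (-y) * ‖∑ k ∈ Finset.Icc 1 b, f k - ∑ k ∈ Finset.Icc 1 a, f k‖ ≤
      Real.exp (-y) * (Real.exp y - Real.exp x + 1) := by
    apply mul_le_mul_of_nonneg_left _ (Real.exp_pos _).le
    linarith
  have q2 : -(Real.exp (-y) - Real.exp (-x)) * ‖∑ k ∈ Finset.Icc 1 a, f k‖ ≤
      -(Real.exp (-y) - Real.exp (-x)) * Real.exp x := by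
    apply mul_le_mul_of_nonneg_left _ (by linarith)
    linarith
  nlinarith

theorem t7_laplace {f : ℕ → ℂ} (hf : ∀ n, ‖f n‖ ≤ 1) {s : ℂ} (hs : 0 < s.re) :
    ∫ u in Set.Ioi (0 : ℝ), t7_h f u * Complex.exp (-(s * u)) = LSeries f (s + 1) / (s + 1) := by
  have hs1 : s + 1 ≠ 0 := by
    intro h
    have := congrArg Complex.re h
    simp at this
    linarith
  have h1 : LSeries f (s + 1) = (s + 1) * ∫ t in Set.Ioi (1 : ℝ),
      (∑ k ∈ Finset.Icc 1 ⌊t⌋₊, f k) * (t : ℂ) ^ (-(s + 1 + 1)) := by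
    apply LSeries_eq_mul_integral' f zero_le_one (by simpa using hs)
    refine Asymptotics.IsBigO.of_bound 1 ?_
    filter_upwards with n
    rw [Real.rpow_one, one_mul, Real.norm_of_nonneg (Finset.sum_nonneg fun _ _ => norm_nonneg _),
      Real.norm_of_nonneg (by positivity)]
    calc ∑ k ∈ Finset.Icc 1 n, ‖f k‖ ≤ ∑ k ∈ Finset.Icc 1 n, (1 : ℝ) :=
          Finset.sum_le_sum fun k _ => hf k
      _ = n := by simp
  rw [h1, mul_div_cancel_left₀ _ hs1]
  have h2 : Real.exp '' Set.Ioi (0 : ℝ) = Set.Ioi 1 := by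
    ext t
    constructor
    · rintro ⟨u, hu, rfl⟩
      exact Real.one_lt_exp_iff.2 hu
    · intro ht
      have ht' : (1 : ℝ) < t := ht
      exact ⟨Real.log t, Real.log_pos ht', Real.exp_log (by linarith)⟩
  rw [← h2, integral_image_eq_integral_abs_deriv_smul measurableSet_Ioi
    (fun x _ => (Real.hasDerivAt_exp x).hasDerivWithinAt) Real.exp_injective.injOn]
  congr 1
  ext u
  rw [abs_of_pos (Real.exp_pos u), Complex.real_smul]
  unfold t7_h
  have h3 : ((Real.exp u : ℝ) : ℂ) ^ (-(s + 1 + 1)) = Complex.exp (-(s + 1 + 1) * u) := by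
    rw [Complex.cpow_def_of_ne_zero (by exact_mod_cast (Real.exp_pos u).ne'),
      ← Complex.ofReal_log (Real.exp_pos u).le, Real.log_exp, mul_comm]
  rw [h3]
  have h4 : (Real.exp (-u) : ℂ) * Complex.exp (-(s * u)) =
      (Real.exp u : ℂ) * Complex.exp (-(s + 1 + 1) * u) := by
    rw [Complex.ofReal_exp, Complex.ofReal_exp, ← Complex.exp_add, ← Complex.exp_add]
    congr 1
    push_cast
    ring
  linear_combination (∑ k ∈ Finset.Icc 1 ⌊Real.exp u⌋₊, f k) * h4

/-- **Wiener-Ikehara for bounded coefficients.** -/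
theorem tauber {f : ℕ → ℂ} (hf : ∀ n, ‖f n‖ ≤ 1) (G : ℂ → ℂ)
    (hG : ContinuousOn G {s | 1 ≤ s.re}) (hGf : ∀ s : ℂ, 1 < s.re → LSeries f s = G s) :
    Tendsto (fun N : ℕ => (∑ n ∈ Finset.Icc 1 N, f n) / N) atTop (𝓝 0) := by
  set H : ℂ → ℂ := fun s => G (s + 1) / (s + 1) with hHdef
  have hH : ContinuousOn H {s | 0 ≤ s.re} := by
    apply ContinuousOn.div
    · apply hG.comp (f := fun s : ℂ => s + 1)
      · fun_prop
      · intro s hs
        have hs' : 0 ≤ s.re := hs
        have : 1 ≤ (s + 1).re := by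
          rw [Complex.add_re, Complex.one_re]
          linarith
        exact this
    · fun_prop
    · intro s hs h
      have hs' : 0 ≤ s.re := hs
      have := congrArg Complex.re h
      rw [Complex.add_re, Complex.one_re, Complex.zero_re] at this
      linarith
  have hHh : ∀ s : ℂ, 0 < s.re →
      ∫ u in Set.Ioi (0 : ℝ), t7_h f u * Complex.exp (-(s * u)) = H s := by
    intro s hs
    rw [t7_laplace hf hs, hGf (s + 1) (by simpa using hs)]
  have h1 : Tendsto (t7_h f) atTop (𝓝 0) := by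
    apply t7_slow (t7_h_measurable f) (t7_h_le hf)
    · intro U v hU hv
      rcases le_total 0 v with h2 | h2
      · have h3 := t7_osc hf (show U - v ≤ U by linarith)
        rw [abs_of_nonneg h2]
        rw [sub_sub_cancel] at h3
        exact h3
      · have h3 := t7_osc hf (show U ≤ U - v by linarith)
        rw [norm_sub_rev, abs_of_nonpos h2]
        have h4 : Real.exp (-(U - v)) ≤ Real.exp (-U) := Real.exp_le_exp.2 (by linarith)
        linarith
    · intro L hL
      refine (t7_RL H L hL).congr fun U => ?_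
      rw [t7_boundary (t7_h_measurable f) (t7_h_le hf) H hH hHh L U hL]
  have h2 : Tendsto (fun N : ℕ => t7_h f (Real.log N)) atTop (𝓝 0) :=
    h1.comp (Real.tendsto_log_atTop.comp tendsto_natCast_atTop_atTop)
  refine h2.congr' ?_
  filter_upwards [eventually_gt_atTop 0] with N hN
  have hN' : (0 : ℝ) < N := by exact_mod_cast hN
  unfold t7_h
  rw [Real.exp_neg, Real.exp_log hN', Nat.floor_natCast]
  push_cast
  ring

end Pool.Agent.Lib.MP_3e612f_nt.SA
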