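import Pool.Agent.Lib.MP_3e612f_nt.MuPNTCore
import Pool.Agent.Lib.MP_3e612f_nt.Tauber

/-!
The prime number theorem for the Möbius function in residue classes.
-/

set_option autoImplicit false

namespace Pool.Agent.Lib.MP_3e612f_nt.SA

open Filter Topology

theorem mu_ap (Q a : ℕ) (hQ : 1 ≤ Q) :
    Tendsto (fun N : ℕ => (∑ n ∈ Finset.Icc 1 N, (if n % Q = a then mu n else 0)) / N)
      atTop (𝓝 0) :=
  mu_ap_of_tauber (fun _ hf G hG hGf => tauber hf G hG hGf) Q a hQ

end Pool.Agent.Lib.MP_3e612f_nt.SA
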