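import Pool.Agent.Lib.MP_3e612f_nt.Expansion

/-!
Real numbers with subexponentially many blocks of digits in base `q`, and the sequences
`exp (2 π i q ^ n α)`.
-/

set_option autoImplicit false

namespace Pool.Agent.Lib.MP_3e612f_nt

open Filter Topology Set Dynamics

/-- for every `δ > 0` there is a length `L` such that at most `exp (δ L)` different blocks of length
`L` occur in the expansion of `α` in base `q` (after the point) -/
def LowBlocks (q : ℕ) (α : ℝ) : Prop :=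
  ∀ δ > 0, ∃ L : ℕ, 1 ≤ L ∧
    ((range fun n : ℕ => ⌊(q : ℝ) ^ L * Int.fract ((q : ℝ) ^ n * α)⌋).ncard : ℝ) ≤ Real.exp (δ * L)

variable {q : ℕ}

theorem blocks_finite (hq : 2 ≤ q) (α : ℝ) (L : ℕ) :
    (range fun n : ℕ => ⌊(q : ℝ) ^ L * Int.fract ((q : ℝ) ^ n * α)⌋).Finite := by
  refine (Set.finite_Ico (0 : ℤ) ((q : ℤ) ^ L)).subset ?_
  rintro _ ⟨n, rfl⟩
  have hq0 : (0 : ℝ) < (q : ℝ) ^ L := by positivity
  constructor
  · exact Int.floor_nonneg.mpr (mul_nonneg hq0.le (Int.fract_nonneg _))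
  · rw [Int.floor_lt]
    push_cast
    nlinarith [Int.fract_lt_one ((q : ℝ) ^ n * α)]

theorem expn_fract (_hq : 2 ≤ q) (α : ℝ) :
    Expn q (fun n => Int.fract ((q : ℝ) ^ n * α))
      (fun n => ⌊(q : ℝ) * Int.fract ((q : ℝ) ^ n * α)⌋) where
  nonneg n := Int.fract_nonneg _
  lt_one n := Int.fract_lt_one _
  step n := by
    have h1 : Int.fract ((q : ℝ) ^ (n + 1) * α) = Int.fract (q * Int.fract ((q : ℝ) ^ n * α)) := by
      rw [Int.fract_eq_fract]
      refine ⟨q * ⌊(q : ℝ) ^ n * α⌋, ?_⟩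
      push_cast
      rw [Int.fract]
      ring
    rw [h1]
    exact (Int.floor_add_fract _).symm

/-- few blocks give few aligned blocks of the sequence of digits -/
theorem LowBlocks.lowC (hq : 2 ≤ q) {α : ℝ} (h : LowBlocks q α) :
    LowC fun n => ⌊(q : ℝ) * Int.fract ((q : ℝ) ^ n * α)⌋ := by
  classical
  intro δ hδ
  obtain ⟨L, hL, hc⟩ := h δ hδ
  set S := range fun n : ℕ => ⌊(q : ℝ) ^ L * Int.fract ((q : ℝ) ^ n * α)⌋ with hS
  have hfin : S.Finite := blocks_finite hq α L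
  have hmem : ∀ n : ℕ, ⌊(q : ℝ) ^ L * Int.fract ((q : ℝ) ^ n * α)⌋ ∈ hfin.toFinset := by
    intro n
    rw [Set.Finite.mem_toFinset]
    exact ⟨n, rfl⟩
  rw [Set.ncard_eq_toFinset_card S hfin] at hc
  refine ⟨L, hL, hfin.toFinset.card, ?_, fun m => hfin.toFinset.equivFin ⟨_, hmem (m * L)⟩, ?_⟩
  · have h0 : 0 < hfin.toFinset.card := Finset.card_pos.mpr ⟨_, hmem 0⟩
    calc Real.log hfin.toFinset.card ≤ Real.log (Real.exp (δ * L)) :=
          Real.log_le_log (by exact_mod_cast h0) hc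
      _ = δ * L := Real.log_exp _
  · intro m m' hmm i hi
    have h1 := hfin.toFinset.equivFin.injective hmm
    simp only [Subtype.mk.injEq] at h1
    exact (expn_fract hq α).digits_of_floor hq L _ _ h1 i hi

/-- the orbit closure of a number with few blocks has entropy zero -/
theorem LowBlocks.entropy (hq : 2 ≤ q) {α : ℝ} (h : LowBlocks q α) :
    coverEntropy (fun y : UnitAddCircle => q • y)
      (closure (range fun n : ℕ => (((q : ℝ) ^ n * α : ℝ) : UnitAddCircle))) = 0 ∧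
    MapsTo (fun y : UnitAddCircle => q • y)
      (closure (range fun n : ℕ => (((q : ℝ) ^ n * α : ℝ) : UnitAddCircle)))
      (closure (range fun n : ℕ => (((q : ℝ) ^ n * α : ℝ) : UnitAddCircle))) := by
  have h1 := (expn_fract hq α).zeroCov hq (h.lowC hq) 1
  have e : (fun n : ℕ => ((((1 : ℤ) : ℝ) * Int.fract ((q : ℝ) ^ n * α) : ℝ) : UnitAddCircle)) =
      fun n : ℕ => (((q : ℝ) ^ n * α : ℝ) : UnitAddCircle) := by
    funext n
    have h2 : ((q : ℝ) ^ n * α : ℝ) = (⌊(q : ℝ) ^ n * α⌋ : ℝ) + Int.fract ((q : ℝ) ^ n * α) :=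
      (Int.floor_add_fract _).symm
    conv_rhs => rw [h2, AddCircle.coe_add, circle_intCast, zero_add]
    simp
  rw [e] at h1
  have hm : MapsTo (fun y : UnitAddCircle => q • y)
      (closure (range fun n : ℕ => (((q : ℝ) ^ n * α : ℝ) : UnitAddCircle)))
      (closure (range fun n : ℕ => (((q : ℝ) ^ n * α : ℝ) : UnitAddCircle))) := by
    refine MapsTo.closure ?_ (continuous_const_smul q)
    rintro _ ⟨n, rfl⟩
    refine ⟨n + 1, ?_⟩
    dsimp only
    rw [← AddCircle.coe_nsmul]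
    congr 1
    rw [nsmul_eq_mul]
    ring
  exact ⟨le_antisymm (coverEntropy_le_zero hm h1)
    (coverEntropy_nonneg _ ⟨_, subset_closure ⟨0, rfl⟩⟩), hm⟩

/-- integer multiples of a number with few blocks have few blocks -/
theorem Expn.lowBlocks {x : ℕ → ℝ} {d : ℕ → ℤ} (h : Expn q x d) (hq : 2 ≤ q) (hd : LowC d)
    (k : ℤ) : LowBlocks q (k * x 0) := by
  classical
  intro δ hδ
  obtain ⟨n0, hn0⟩ := exists_nat_ge (Real.log (2 * |(k : ℝ)| + 3) / (δ / 2))
  obtain ⟨L, hL0, hL, M, hM, c, hc⟩ := (hd.extZ 0).windows_ge 0 n0 (show 0 < δ / 2 by linarith)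
  have hMpos : 0 < M := Fin.pos (c 0)
  have hq0 : (0 : ℝ) < (q : ℝ) ^ L := by positivity
  have hq1 : (0 : ℤ) < (q : ℤ) ^ L := by positivity
  have hrep : ∀ j : Fin M, ∃ r : ℕ, ∀ m : ℕ, c m = j → c r = j := by
    intro j
    by_cases hj : ∃ m : ℕ, c m = j
    · obtain ⟨m, hm⟩ := hj
      exact ⟨m, fun _ _ => hm⟩
    · exact ⟨0, fun m hm => absurd ⟨m, hm⟩ hj⟩
  choose rep hrep using hrep
  set G : Fin M × Fin (2 * k.natAbs + 3) → ℤ := fun p =>
    (⌊(q : ℝ) ^ L * (k * x (rep p.1))⌋ - (k.natAbs + 1 : ℤ) + (p.2 : ℕ)) % (q : ℤ) ^ L with hG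
  have hsub : (range fun n : ℕ => ⌊(q : ℝ) ^ L * Int.fract ((q : ℝ) ^ n * (k * x 0))⌋) ⊆
      range G := by
    rintro _ ⟨n, rfl⟩
    dsimp only
    set r := rep (c n) with hr
    have hcr : c (n : ℤ) = c (r : ℤ) := (hrep (c n) n rfl).symm
    have hdig : ∀ i : ℕ, i < L → d (n + i) = d (r + i) := by
      intro i hi
      have := hc n r hcr i (by simp) (by simpa using hi)
      rw [← Nat.cast_add, ← Nat.cast_add, extZ_natCast, extZ_natCast] at this
      exact this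
    have hcl := h.close hq L n r hdig
    -- the fractional part
    obtain ⟨m, hm⟩ := h.exists_int n
    have h1 : Int.fract ((q : ℝ) ^ n * (k * x 0)) = Int.fract (k * x n) := by
      rw [Int.fract_eq_fract]
      refine ⟨k * m, ?_⟩
      push_cast
      linear_combination (k : ℝ) * hm
    rw [h1]
    set u := ⌊(q : ℝ) ^ L * (k * x n)⌋ with hu
    set v := ⌊(q : ℝ) ^ L * (k * x r)⌋ with hv
    have h2 : ⌊(q : ℝ) ^ L * Int.fract (k * x n)⌋ = u - (q : ℤ) ^ L * ⌊(k : ℝ) * x n⌋ := by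
      rw [Int.fract, mul_sub]
      have : (q : ℝ) ^ L * (⌊(k : ℝ) * x n⌋ : ℝ) = (((q : ℤ) ^ L * ⌊(k : ℝ) * x n⌋ : ℤ) : ℝ) := by
        push_cast; ring
      rw [this, Int.floor_sub_intCast]
    have h3 : 0 ≤ ⌊(q : ℝ) ^ L * Int.fract (k * x n)⌋ :=
      Int.floor_nonneg.mpr (mul_nonneg hq0.le (Int.fract_nonneg _))
    have h4 : ⌊(q : ℝ) ^ L * Int.fract (k * x n)⌋ < (q : ℤ) ^ L := by
      rw [Int.floor_lt]
      push_cast
      nlinarith [Int.fract_lt_one ((k : ℝ) * x n)]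
    have h5 : ⌊(q : ℝ) ^ L * Int.fract (k * x n)⌋ = u % (q : ℤ) ^ L := by
      rw [h2] at h3 h4 ⊢
      rw [← Int.emod_eq_of_lt h3 h4]
      simp
    -- `u` and `v` are close
    have h6 : |(q : ℝ) ^ L * (k * x n) - (q : ℝ) ^ L * (k * x r)| ≤ |(k : ℝ)| := by
      have e : (q : ℝ) ^ L * (k * x n) - (q : ℝ) ^ L * (k * x r) =
          k * ((q : ℝ) ^ L * (x n - x r)) := by ring
      have e1 : (q : ℝ) ^ L * (1 / (q : ℝ)) ^ L = 1 := by
        rw [← mul_pow]
        have : (q : ℝ) * (1 / q) = 1 := by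
          have : (q : ℝ) ≠ 0 := by positivity
          field_simp
        rw [this, one_pow]
      have e2 : (q : ℝ) ^ L * |x n - x r| ≤ 1 := by
        calc (q : ℝ) ^ L * |x n - x r| ≤ (q : ℝ) ^ L * (1 / (q : ℝ)) ^ L :=
              mul_le_mul_of_nonneg_left hcl hq0.le
          _ = 1 := e1
      rw [e, abs_mul, abs_mul, abs_of_pos hq0]
      calc |(k : ℝ)| * ((q : ℝ) ^ L * |x n - x r|) ≤ |(k : ℝ)| * 1 :=
            mul_le_mul_of_nonneg_left e2 (abs_nonneg _)
        _ = |(k : ℝ)| := mul_one _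
    have h7 := abs_le.mp h6
    have f1 := Int.floor_le ((q : ℝ) ^ L * (k * x n))
    have f2 := Int.lt_floor_add_one ((q : ℝ) ^ L * (k * x n))
    have f3 := Int.floor_le ((q : ℝ) ^ L * (k * x r))
    have f4 := Int.lt_floor_add_one ((q : ℝ) ^ L * (k * x r))
    rw [← hu] at f1 f2
    rw [← hv] at f3 f4
    have g1 : u < v + k.natAbs + 1 := by
      have : (u : ℝ) < ((v + k.natAbs + 1 : ℤ) : ℝ) := by
        push_cast
        linarith [h7.1, h7.2]
      exact_mod_cast this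
    have g2 : v < u + k.natAbs + 1 := by
      have : (v : ℝ) < ((u + k.natAbs + 1 : ℤ) : ℝ) := by
        push_cast
        linarith [h7.1, h7.2]
      exact_mod_cast this
    refine ⟨(c n, ⟨(u - v + (k.natAbs + 1 : ℤ)).toNat, by omega⟩), ?_⟩
    rw [h5]
    show (v - (k.natAbs + 1 : ℤ) + ((u - v + (k.natAbs + 1 : ℤ)).toNat : ℤ)) % (q : ℤ) ^ L = _
    congr 1
    omega
  refine ⟨L, hL, ?_⟩
  have hcard : (range fun n : ℕ => ⌊(q : ℝ) ^ L * Int.fract ((q : ℝ) ^ n * (k * x 0))⌋).ncard ≤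
      M * (2 * k.natAbs + 3) := by
    refine (Set.ncard_le_ncard hsub (Set.finite_range G)).trans ?_
    rw [← Set.image_univ]
    refine (Set.ncard_image_le Set.finite_univ).trans ?_
    rw [Set.ncard_univ]
    simp
  have hM2 : (M : ℝ) ≤ Real.exp (δ / 2 * L) := by
    rw [← Real.log_le_iff_le_exp (by exact_mod_cast hMpos)]
    exact hM
  have hk2 : (2 * |(k : ℝ)| + 3) ≤ Real.exp (δ / 2 * L) := by
    rw [← Real.log_le_iff_le_exp (by positivity)]
    rw [div_le_iff₀ (by linarith)] at hn0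
    have : (n0 : ℝ) ≤ L := by exact_mod_cast hL0
    nlinarith
  calc ((range fun n : ℕ => ⌊(q : ℝ) ^ L * Int.fract ((q : ℝ) ^ n * (k * x 0))⌋).ncard : ℝ) ≤
        ((M * (2 * k.natAbs + 3) : ℕ) : ℝ) := by exact_mod_cast hcard
    _ = M * (2 * |(k : ℝ)| + 3) := by
        push_cast
        rw [Nat.cast_natAbs, Int.cast_abs]
    _ ≤ Real.exp (δ / 2 * L) * Real.exp (δ / 2 * L) :=
        mul_le_mul hM2 hk2 (by positivity) (by positivity)
    _ = Real.exp (δ * L) := by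
        rw [← Real.exp_add]
        congr 1
        ring

end Pool.Agent.Lib.MP_3e612f_nt
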