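import Pool.Agent.Lib.MP_3e612f_nt.QDefs

/-!
Basic facts about averages over `n < q ^ k` and covariances.
-/

set_option autoImplicit false

namespace Pool.Agent.Lib.MP_3e612f_nt.QA

open Filter Topology

theorem qpow_pos {q : ℕ} (hq : 2 ≤ q) (k : ℕ) : 0 < q ^ k := by positivity

theorem qpow_posR {q : ℕ} (hq : 2 ≤ q) (k : ℕ) : (0 : ℝ) < (q : ℝ) ^ k := by
  have : (0 : ℝ) < q := by
    have : 0 < q := by omega
    exact_mod_cast this
  positivity

theorem av_zero (q : ℕ) (u : ℕ → ℝ) : av q 0 u = u 0 := by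
  unfold av
  simp

theorem av_add (q k : ℕ) (u v : ℕ → ℝ) : av q k (fun n => u n + v n) = av q k u + av q k v := by
  unfold av
  rw [Finset.sum_add_distrib, add_div]

theorem av_sub (q k : ℕ) (u v : ℕ → ℝ) : av q k (fun n => u n - v n) = av q k u - av q k v := by
  unfold av
  rw [Finset.sum_sub_distrib, sub_div]

theorem av_neg (q k : ℕ) (u : ℕ → ℝ) : av q k (fun n => - u n) = - av q k u := by
  unfold av
  rw [Finset.sum_neg_distrib, neg_div]

theorem av_const_mul (q k : ℕ) (c : ℝ) (u : ℕ → ℝ) :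
    av q k (fun n => c * u n) = c * av q k u := by
  unfold av
  rw [← Finset.mul_sum, mul_div_assoc]

theorem av_mul_const (q k : ℕ) (c : ℝ) (u : ℕ → ℝ) :
    av q k (fun n => u n * c) = av q k u * c := by
  unfold av
  rw [← Finset.sum_mul, div_mul_eq_mul_div]

theorem av_div (q k : ℕ) (u : ℕ → ℝ) (a : ℝ) : av q k (fun x => u x / a) = av q k u / a := by
  unfold av
  rw [← Finset.sum_div, div_right_comm]

theorem av_const {q : ℕ} (hq : 2 ≤ q) (k : ℕ) (c : ℝ) : av q k (fun _ => c) = c := by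
  have := qpow_posR hq k
  unfold av
  rw [Finset.sum_const, Finset.card_range, nsmul_eq_mul]
  push_cast
  field_simp

theorem av_finset_sum {ι : Type*} (s : Finset ι) (q k : ℕ) (G : ι → ℕ → ℝ) :
    av q k (fun x => ∑ i ∈ s, G i x) = ∑ i ∈ s, av q k (G i) := by
  unfold av
  rw [Finset.sum_comm, Finset.sum_div]

theorem av_congr {q k : ℕ} {u v : ℕ → ℝ} (h : ∀ n < q ^ k, u n = v n) :
    av q k u = av q k v := by
  unfold av
  congr 1
  exact Finset.sum_congr rfl fun n hn => h n (Finset.mem_range.mp hn)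

theorem av_mono {q k : ℕ} {u v : ℕ → ℝ} (h : ∀ n < q ^ k, u n ≤ v n) :
    av q k u ≤ av q k v := by
  unfold av
  exact div_le_div_of_nonneg_right (Finset.sum_le_sum fun n hn => h n (Finset.mem_range.mp hn))
    (by positivity)

theorem av_nonneg {q k : ℕ} {u : ℕ → ℝ} (h : ∀ n < q ^ k, 0 ≤ u n) : 0 ≤ av q k u := by
  unfold av
  exact div_nonneg (Finset.sum_nonneg fun n hn => h n (Finset.mem_range.mp hn)) (by positivity)

theorem abs_av_le_av (q k : ℕ) (u : ℕ → ℝ) : |av q k u| ≤ av q k fun n => |u n| := by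
  unfold av
  rw [abs_div, abs_of_nonneg (by positivity : (0 : ℝ) ≤ (q : ℝ) ^ k)]
  exact div_le_div_of_nonneg_right (Finset.abs_sum_le_sum_abs _ _) (by positivity)

theorem abs_av_le {q : ℕ} (hq : 2 ≤ q) {k : ℕ} {u : ℕ → ℝ} {C : ℝ} (h : ∀ n < q ^ k, |u n| ≤ C) :
    |av q k u| ≤ C := by
  refine (abs_av_le_av q k u).trans ?_
  calc av q k (fun n => |u n|) ≤ av q k (fun _ => C) := av_mono h
    _ = C := av_const hq k C

theorem av_le {q : ℕ} (hq : 2 ≤ q) {k : ℕ} {u : ℕ → ℝ} {C : ℝ} (h : ∀ n < q ^ k, u n ≤ C) :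
    av q k u ≤ C := by
  calc av q k u ≤ av q k (fun _ => C) := av_mono h
    _ = C := av_const hq k C

theorem av_close {q : ℕ} (hq : 2 ≤ q) {k : ℕ} {u v : ℕ → ℝ} {B : ℝ}
    (h : ∀ n < q ^ k, |u n - v n| ≤ B) : |av q k u - av q k v| ≤ B := by
  rw [← av_sub]
  exact abs_av_le hq h

theorem sum_range_mul_add (a b : ℕ) (u : ℕ → ℝ) :
    ∑ x ∈ Finset.range (a * b), u x =
      ∑ i ∈ Finset.range a, ∑ m ∈ Finset.range b, u (a * m + i) := by
  rw [Finset.sum_comm]
  induction b with
  | zero => simp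
  | succ b ih =>
    rw [Nat.mul_succ, Finset.sum_range_add, ih, Finset.sum_range_succ]

/-- the lower `a` digits and the upper `l` digits -/
theorem av_split (q a l : ℕ) (u : ℕ → ℝ) : av q (a + l) u = av q a (cnd q l a u) := by
  unfold av cnd av
  rw [pow_add, sum_range_mul_add, ← Finset.sum_div, div_div, pow_add, mul_comm ((q : ℝ) ^ a)]

theorem av_swap (q k l : ℕ) (u : ℕ → ℕ → ℝ) :
    av q k (fun i => av q l (fun j => u i j)) = av q l (fun j => av q k (fun i => u i j)) := by
  unfold av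
  rw [← Finset.sum_div, ← Finset.sum_div, Finset.sum_comm, div_right_comm]

theorem av_perm {q P : ℕ} (hq : 2 ≤ q) (hP : P.Coprime q) (c k : ℕ) (u : ℕ → ℝ) :
    av q k (fun n => u ((P * n + c) % q ^ k)) = av q k u := by
  unfold av
  congr 1
  have hpos := qpow_pos hq k
  have hinj : Set.InjOn (fun n => (P * n + c) % q ^ k) (Finset.range (q ^ k)) := by
    intro x hx y hy hxy
    simp only [Finset.coe_range, Set.mem_Iio] at hx hy
    have h1 : P * x + c ≡ P * y + c [MOD q ^ k] := hxy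
    have h2 : P * x ≡ P * y [MOD q ^ k] := Nat.ModEq.add_right_cancel' c h1
    have h3 : x ≡ y [MOD q ^ k] := by
      refine Nat.ModEq.cancel_left_of_coprime ?_ h2
      exact Nat.Coprime.symm (Nat.Coprime.pow_right k hP)
    have h4 : x % q ^ k = y % q ^ k := h3
    rwa [Nat.mod_eq_of_lt hx, Nat.mod_eq_of_lt hy] at h4
  have himg : (Finset.range (q ^ k)).image (fun n => (P * n + c) % q ^ k) =
      Finset.range (q ^ k) := by
    apply Finset.eq_of_subset_of_card_le
    · intro x hx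
      simp only [Finset.mem_image, Finset.mem_range] at hx ⊢
      obtain ⟨y, -, rfl⟩ := hx
      exact Nat.mod_lt _ hpos
    · rw [Finset.card_image_of_injOn hinj]
  conv_rhs => rw [← himg, Finset.sum_image hinj]

/-- Cauchy-Schwarz -/
theorem av_cs (q k : ℕ) (u v : ℕ → ℝ) :
    |av q k (fun n => u n * v n)| ≤
      Real.sqrt (av q k fun n => u n ^ 2) * Real.sqrt (av q k fun n => v n ^ 2) := by
  have h := Finset.sum_mul_sq_le_sq_mul_sq (Finset.range (q ^ k)) u v
  have hq : (0 : ℝ) ≤ (q : ℝ) ^ k := by positivity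
  rw [← Real.sqrt_mul (by unfold av; positivity), ← Real.sqrt_sq_eq_abs]
  refine Real.sqrt_le_sqrt ?_
  unfold av
  rw [div_pow, div_mul_div_comm, ← sq ((q : ℝ) ^ k)]
  exact div_le_div_of_nonneg_right h (by positivity)

theorem av_sq_le (q : ℕ) (hq : 2 ≤ q) (k : ℕ) (u : ℕ → ℝ) :
    (av q k u) ^ 2 ≤ av q k fun n => u n ^ 2 := by
  have h := av_cs q k u (fun _ => 1)
  simp only [mul_one, one_pow] at h
  rw [av_const hq, Real.sqrt_one, mul_one] at h
  have h0 : 0 ≤ av q k fun n => u n ^ 2 := av_nonneg fun n _ => sq_nonneg _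
  rw [← sq_abs, ← Real.sq_sqrt h0]
  exact pow_le_pow_left₀ (abs_nonneg _) h 2

theorem cov_eq {q : ℕ} (hq : 2 ≤ q) (k : ℕ) (u v : ℕ → ℝ) :
    cov q k u v = av q k (fun n => (u n - av q k u) * (v n - av q k v)) := by
  unfold cov
  have e : (fun n => (u n - av q k u) * (v n - av q k v)) = fun n =>
      u n * v n - av q k v * u n - av q k u * v n + av q k u * av q k v := by
    funext n
    ring
  rw [e, av_add, av_sub, av_sub, av_const_mul, av_const_mul, av_const hq]
  ring

theorem cov_self_nonneg {q : ℕ} (hq : 2 ≤ q) (k : ℕ) (u : ℕ → ℝ) : 0 ≤ cov q k u u := by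
  rw [cov_eq hq]
  exact av_nonneg fun n _ => mul_self_nonneg _

theorem cov_self_le {q : ℕ} (k : ℕ) (u : ℕ → ℝ) : cov q k u u ≤ av q k fun n => u n ^ 2 := by
  unfold cov
  have h1 : 0 ≤ av q k u * av q k u := mul_self_nonneg _
  have e : (fun n => u n * u n) = fun n => u n ^ 2 := by
    funext n
    ring
  rw [e]
  linarith

theorem cov_comm (q k : ℕ) (u v : ℕ → ℝ) : cov q k u v = cov q k v u := by
  unfold cov
  have e : (fun n => u n * v n) = fun n => v n * u n := by
    funext n
    ring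
  rw [e, mul_comm (av q k u)]

theorem cov_add_left (q k : ℕ) (u u' v : ℕ → ℝ) :
    cov q k (fun n => u n + u' n) v = cov q k u v + cov q k u' v := by
  unfold cov
  have e : (fun n => (u n + u' n) * v n) = fun n => u n * v n + u' n * v n := by
    funext n
    ring
  rw [e, av_add, av_add]
  ring

theorem cov_add_right (q k : ℕ) (u v v' : ℕ → ℝ) :
    cov q k u (fun n => v n + v' n) = cov q k u v + cov q k u v' := by
  rw [cov_comm, cov_add_left, cov_comm q k v, cov_comm q k v']

theorem cov_const_mul_left (q k : ℕ) (c : ℝ) (u v : ℕ → ℝ) :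
    cov q k (fun n => c * u n) v = c * cov q k u v := by
  unfold cov
  have e : (fun n => c * u n * v n) = fun n => c * (u n * v n) := by
    funext n
    ring
  rw [e, av_const_mul, av_const_mul]
  ring

theorem cov_const_left {q : ℕ} (hq : 2 ≤ q) (k : ℕ) (c : ℝ) (v : ℕ → ℝ) :
    cov q k (fun _ => c) v = 0 := by
  unfold cov
  rw [av_const_mul, av_const hq]
  ring

/-- Cauchy-Schwarz for covariances -/
theorem cov_cs {q : ℕ} (hq : 2 ≤ q) (k : ℕ) (u v : ℕ → ℝ) :
    |cov q k u v| ≤ Real.sqrt (cov q k u u) * Real.sqrt (cov q k v v) := by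
  rw [cov_eq hq k u v, cov_eq hq k u u, cov_eq hq k v v]
  have h := av_cs q k (fun n => u n - av q k u) (fun n => v n - av q k v)
  have e1 : (fun n => (u n - av q k u) ^ 2) = fun n => (u n - av q k u) * (u n - av q k u) := by
    funext n
    ring
  have e2 : (fun n => (v n - av q k v) ^ 2) = fun n => (v n - av q k v) * (v n - av q k v) := by
    funext n
    ring
  rw [e1, e2] at h
  exact h

/-- conditional averages of functions of a multiple -/
theorem cnd_mul {q P : ℕ} (hq : 2 ≤ q) (hP : P.Coprime q) (a l : ℕ) (u : ℕ → ℝ) (s : ℕ) :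
    cnd q l a (fun n => u (P * n % q ^ (a + l))) s = cnd q l a u (P * s % q ^ a) := by
  unfold cnd
  have hpos := qpow_pos hq a
  have e : ∀ y, P * (q ^ a * y + s) % q ^ (a + l) =
      q ^ a * ((P * y + P * s / q ^ a) % q ^ l) + P * s % q ^ a := by
    intro y
    have h1 : P * (q ^ a * y + s) = q ^ a * (P * y + P * s / q ^ a) + P * s % q ^ a := by
      have := Nat.div_add_mod (P * s) (q ^ a)
      calc P * (q ^ a * y + s) = q ^ a * (P * y) + P * s := by ring
        _ = q ^ a * (P * y) + (q ^ a * (P * s / q ^ a) + P * s % q ^ a) := by rw [this]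
        _ = _ := by ring
    rw [h1, pow_add, Nat.mod_mul, Nat.mul_add_mod, Nat.mod_mod,
      Nat.mul_add_div hpos, Nat.div_eq_of_lt (Nat.mod_lt _ hpos), add_zero, add_comm]
  simp only [e]
  exact av_perm hq hP _ l (fun y => u (q ^ a * y + P * s % q ^ a))

end Pool.Agent.Lib.MP_3e612f_nt.QA
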