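import Pool.Agent.Lib.MP_3e612f_nt.CDefs
import Pool.Agent.Lib.MP_3e612f_nt.QBase

/-!
From averages over blocks to ordinary averages.
-/

set_option autoImplicit false

namespace Pool.Agent.Lib.MP_3e612f_nt.CA

open Filter Topology QA

/-- one block -/
theorem t18_block {M : ℕ} {q : ℕ} (hq : 2 ≤ q) {u : ℕ → ℝ} {E : ℝ} {k y : ℕ}
    (hE : ∀ i < M, |av q k (fun n => u (M * (q ^ k * y + n) + i))| ≤ E) :
    |∑ n ∈ Finset.range (M * q ^ k * (y + 1)), u n| ≤
      |∑ n ∈ Finset.range (M * q ^ k * y), u n| + E * ((M * q ^ k : ℕ) : ℝ) := by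
  have hqkR := qpow_posR hq k
  set L : ℕ := M * q ^ k with hL
  have hLcast : (L : ℝ) = M * (q : ℝ) ^ k := by rw [hL]; push_cast; ring
  have e1 : (∑ n ∈ Finset.range (L * (y + 1)), u n) =
      (∑ n ∈ Finset.range (L * y), u n) + ∑ r ∈ Finset.range L, u (L * y + r) := by
    rw [Nat.mul_succ, Finset.sum_range_add]
  have e2 : ∑ r ∈ Finset.range L, u (L * y + r) =
      (q : ℝ) ^ k * ∑ i ∈ Finset.range M, av q k (fun n => u (M * (q ^ k * y + n) + i)) := by
    rw [hL, sum_range_mul_add, Finset.mul_sum]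
    refine Finset.sum_congr rfl fun i _ => ?_
    unfold av
    rw [mul_div_cancel₀ _ hqkR.ne']
    refine Finset.sum_congr rfl fun n _ => ?_
    congr 1
    ring
  have h1 : |∑ r ∈ Finset.range L, u (L * y + r)| ≤ E * L := by
    rw [e2, abs_mul, abs_of_pos hqkR, hLcast]
    have : |∑ i ∈ Finset.range M, av q k (fun n => u (M * (q ^ k * y + n) + i))| ≤ M * E := by
      refine (Finset.abs_sum_le_sum_abs _ _).trans ?_
      calc ∑ i ∈ Finset.range M, |av q k (fun n => u (M * (q ^ k * y + n) + i))|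
          ≤ ∑ i ∈ Finset.range M, E :=
            Finset.sum_le_sum fun i hi => hE i (Finset.mem_range.mp hi)
        _ = M * E := by rw [Finset.sum_const, Finset.card_range, nsmul_eq_mul]
    calc (q : ℝ) ^ k * |∑ i ∈ Finset.range M, av q k (fun n => u (M * (q ^ k * y + n) + i))|
        ≤ (q : ℝ) ^ k * (M * E) := mul_le_mul_of_nonneg_left this hqkR.le
      _ = E * (M * (q : ℝ) ^ k) := by ring
  rw [e1]
  exact (abs_add_le _ _).trans (by linarith)

theorem t18_triv {u : ℕ → ℝ} {A : ℝ} (hu : ∀ n, |u n| ≤ A) (X r : ℕ) :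
    |∑ n ∈ Finset.range (X + r), u n| ≤ |∑ n ∈ Finset.range X, u n| + A * r := by
  rw [Finset.sum_range_add]
  refine (abs_add_le _ _).trans ?_
  have : |∑ n ∈ Finset.range r, u (X + n)| ≤ A * r := by
    refine (Finset.abs_sum_le_sum_abs _ _).trans ?_
    calc ∑ n ∈ Finset.range r, |u (X + n)| ≤ ∑ n ∈ Finset.range r, A :=
          Finset.sum_le_sum fun n _ => hu _
      _ = A * r := by rw [Finset.sum_const, Finset.card_range, nsmul_eq_mul]; ring
  linarith

theorem block_ces {q M : ℕ} (hq : 2 ≤ q) (hM : 1 ≤ M) {u : ℕ → ℝ} {A : ℝ} (hu : ∀ n, |u n| ≤ A)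
    {η : ℝ} (hη : 0 ≤ η)
    (h : ∀ t : ℕ, ∀ ε : ℝ, 0 < ε → ∀ᶠ k : ℕ in atTop, ∀ y : ℕ, q ^ t ≤ y → y < q ^ (t + 1) →
      ∀ i < M, |av q k (fun n => u (M * (q ^ k * y + n) + i))| ≤ η + ε) {ε : ℝ} (hε : 0 < ε) :
    ∀ᶠ N : ℕ in atTop, |CesAvg u N| ≤ η + ε := by
  have hA : 0 ≤ A := (abs_nonneg _).trans (hu 0)
  have hqR : (2 : ℝ) ≤ q := by exact_mod_cast hq
  -- choose `t`
  obtain ⟨t, ht⟩ : ∃ t : ℕ, A / (q : ℝ) ^ t ≤ ε / 4 := by
    have h1 : Tendsto (fun t : ℕ => A / (q : ℝ) ^ t) atTop (𝓝 0) := by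
      have := (tendsto_inv_atTop_zero.comp
        (tendsto_pow_atTop_atTop_of_one_lt (by linarith : (1 : ℝ) < q))).const_mul A
      rw [mul_zero] at this
      refine this.congr fun t => ?_
      simp only [Function.comp_apply]
      rw [div_eq_mul_inv]
    have h2 : ∀ᶠ t : ℕ in atTop, A / (q : ℝ) ^ t < ε / 4 :=
      h1.eventually (gt_mem_nhds (by positivity))
    obtain ⟨t, ht⟩ := h2.exists
    exact ⟨t, ht.le⟩
  set E : ℝ := η + ε / 4 with hE
  have hE0 : 0 ≤ E := by positivity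
  obtain ⟨k₀, hk₀⟩ := eventually_atTop.mp (h t (ε / 4) (by positivity))
  set S : ℕ → ℝ := fun x => ∑ n ∈ Finset.range x, u n with hS
  set C : ℝ := |S (M * q ^ k₀ * q ^ t)| with hC
  have hC0 : 0 ≤ C := abs_nonneg _
  have hle : q ^ t ≤ q ^ (t + 1) := Nat.pow_le_pow_right (by omega) (by omega)
  have hind : ∀ j : ℕ, ∀ y : ℕ, q ^ t ≤ y → y ≤ q ^ (t + 1) →
      |S (M * q ^ (k₀ + j) * y)| ≤ C + E * ((M * q ^ (k₀ + j) * y : ℕ) : ℝ) := by
    -- one level
    have hlev : ∀ k : ℕ, k₀ ≤ k →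
        |S (M * q ^ k * q ^ t)| ≤ C + E * ((M * q ^ k * q ^ t : ℕ) : ℝ) →
        ∀ y : ℕ, q ^ t ≤ y → y ≤ q ^ (t + 1) →
        |S (M * q ^ k * y)| ≤ C + E * ((M * q ^ k * y : ℕ) : ℝ) := by
      intro k hk hbase y hy
      induction y, hy using Nat.le_induction with
      | base => intro _; exact hbase
      | succ y hy ih =>
        intro hy2
        have h1 := ih (by omega)
        have h2 := t18_block hq (hk₀ k hk y hy (by omega))
        have h3 : |S (M * q ^ k * (y + 1))| ≤ |S (M * q ^ k * y)| + E * ((M * q ^ k : ℕ) : ℝ) := h2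
        refine h3.trans ?_
        push_cast at h1 ⊢
        nlinarith
    intro j
    induction j with
    | zero =>
      refine hlev k₀ le_rfl ?_
      have : 0 ≤ E * ((M * q ^ k₀ * q ^ t : ℕ) : ℝ) := by positivity
      linarith
    | succ j ih =>
      refine hlev (k₀ + (j + 1)) (by omega) ?_
      have h1 := ih (q ^ (t + 1)) hle le_rfl
      have h2 : M * q ^ (k₀ + j) * q ^ (t + 1) = M * q ^ (k₀ + (j + 1)) * q ^ t := by ring
      rw [h2] at h1
      exact h1
  -- the total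
  have hmain : ∀ N : ℕ, M * q ^ (k₀ + t) ≤ N →
      |S N| ≤ C + E * N + A / (q : ℝ) ^ t * N := by
    intro N hN
    have hdivpos : N / M ≠ 0 := by
      have : M ≤ N := by
        have : M * 1 ≤ M * q ^ (k₀ + t) := Nat.mul_le_mul_left M (qpow_pos hq _)
        omega
      exact (Nat.div_pos this hM).ne'
    set j := Nat.log q (N / M) with hj
    have hj1 : q ^ j ≤ N / M := Nat.pow_log_le_self q hdivpos
    have hj2 : N / M < q ^ (j + 1) := Nat.lt_pow_succ_log_self (by omega) _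
    have hj3 : M * q ^ j ≤ N := by
      calc M * q ^ j ≤ M * (N / M) := Nat.mul_le_mul_left M hj1
        _ ≤ N := Nat.mul_div_le _ _
    have hj4 : N < M * q ^ (j + 1) := by
      rw [mul_comm]
      exact (Nat.div_lt_iff_lt_mul hM).mp hj2
    have hj5 : k₀ + t ≤ j := by
      by_contra hcon
      push Not at hcon
      have h1 : q ^ (j + 1) ≤ q ^ (k₀ + t) := Nat.pow_le_pow_right (by omega) hcon
      have h2 := Nat.mul_le_mul_left M h1
      omega
    obtain ⟨l, hl⟩ : ∃ l, j = k₀ + l + t := ⟨j - (k₀ + t), by omega⟩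
    set L : ℕ := M * q ^ (k₀ + l) with hL
    have hLpos : 0 < L := Nat.mul_pos hM (qpow_pos hq _)
    have hL1 : L * q ^ t ≤ N := by
      have : L * q ^ t = M * q ^ j := by rw [hL, hl]; ring
      omega
    have hL2 : N < L * q ^ (t + 1) := by
      have : L * q ^ (t + 1) = M * q ^ (j + 1) := by rw [hL, hl]; ring
      omega
    have hy1 : q ^ t ≤ N / L := by
      rw [Nat.le_div_iff_mul_le hLpos, mul_comm]
      exact hL1
    have hy2 : N / L ≤ q ^ (t + 1) := by
      refine le_of_lt ?_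
      rw [Nat.div_lt_iff_lt_mul hLpos, mul_comm]
      exact hL2
    have h1 := hind l (N / L) hy1 hy2
    have h2 := t18_triv hu (L * (N / L)) (N % L)
    rw [Nat.div_add_mod] at h2
    have h3 : ((N % L : ℕ) : ℝ) ≤ N / (q : ℝ) ^ t := by
      rw [le_div_iff₀ (by positivity)]
      have h4 : (N % L) * q ^ t ≤ N :=
        (Nat.mul_le_mul_right _ (Nat.mod_lt N hLpos).le).trans hL1
      exact_mod_cast h4
    have h4 : ((L * (N / L) : ℕ) : ℝ) ≤ N := by exact_mod_cast Nat.mul_div_le N L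
    have h5 : A * ((N % L : ℕ) : ℝ) ≤ A * (N / (q : ℝ) ^ t) := mul_le_mul_of_nonneg_left h3 hA
    have h6 : E * ((L * (N / L) : ℕ) : ℝ) ≤ E * N := mul_le_mul_of_nonneg_left h4 hE0
    have h7 : A * (N / (q : ℝ) ^ t) = A / (q : ℝ) ^ t * N := by ring
    have h8 : |S N| ≤ |S (L * (N / L))| + A * ((N % L : ℕ) : ℝ) := h2
    have h9 : |S (L * (N / L))| ≤ C + E * ((L * (N / L) : ℕ) : ℝ) := h1
    linarith
  -- conclusion
  have hlim : Tendsto (fun N : ℕ => (C + 2 * A + E) / (N : ℝ)) atTop (𝓝 0) :=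
    Tendsto.div_atTop tendsto_const_nhds tendsto_natCast_atTop_atTop
  have hlim' : ∀ᶠ N : ℕ in atTop, (C + 2 * A + E) / (N : ℝ) < ε / 4 :=
    hlim.eventually (gt_mem_nhds (by positivity))
  have hlim2 : Tendsto (fun N : ℕ => (A / (q : ℝ) ^ t) / (N : ℝ)) atTop (𝓝 0) :=
    Tendsto.div_atTop tendsto_const_nhds tendsto_natCast_atTop_atTop
  have hlim2' : ∀ᶠ N : ℕ in atTop, (A / (q : ℝ) ^ t) / (N : ℝ) < ε / 4 :=
    hlim2.eventually (gt_mem_nhds (by positivity))
  filter_upwards [hlim', hlim2', eventually_ge_atTop 1,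
    eventually_ge_atTop (M * q ^ (k₀ + t))] with N h1 h1' h2 h3
  have h4 := hmain (N + 1) (by omega)
  have hNR : (1 : ℝ) ≤ N := by exact_mod_cast h2
  have e1 : ∑ n ∈ Finset.Icc 1 N, u n = S (N + 1) - u 0 := by
    rw [hS]
    simp only
    rw [Finset.range_eq_Ico, Finset.sum_eq_sum_Ico_succ_bot (Nat.succ_pos N)]
    rw [add_sub_cancel_left]
    rfl
  have h5 : |∑ n ∈ Finset.Icc 1 N, u n| ≤
      C + E * (N + 1) + A / (q : ℝ) ^ t * (N + 1) + A := by
    rw [e1]
    have h6 := hu 0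
    have h7 : |S (N + 1) - u 0| ≤ |S (N + 1)| + |u 0| := abs_sub _ _
    push_cast at h4
    linarith
  unfold CesAvg
  rw [abs_div, abs_of_pos (by linarith : (0 : ℝ) < N), div_le_iff₀ (by linarith)]
  have h8 : C + 2 * A + E < ε / 4 * N := by rwa [div_lt_iff₀ (by linarith)] at h1
  have h9 : A / (q : ℝ) ^ t < ε / 4 * N := by rwa [div_lt_iff₀ (by linarith)] at h1'
  have h10 : A / (q : ℝ) ^ t * N ≤ ε / 4 * N := mul_le_mul_of_nonneg_right ht (by linarith)
  have h11 : E * N = η * N + ε / 4 * N := by rw [hE]; ring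
  nlinarith

end Pool.Agent.Lib.MP_3e612f_nt.CA
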