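import Pool.Agent.Lib.MP_3e612f_nt.Incr

/-!
Definitions for the orthogonality of the Möbius function to functions of quasi-additive functions.
-/

set_option autoImplicit false

namespace Pool.Agent.Lib.MP_3e612f_nt.QA

open Filter Topology

/-- the average over `n < q ^ k` -/
noncomputable def av (q k : ℕ) (u : ℕ → ℝ) : ℝ := (∑ n ∈ Finset.range (q ^ k), u n) / q ^ k

/-- the covariance over `n < q ^ k` -/
noncomputable def cov (q k : ℕ) (u v : ℕ → ℝ) : ℝ :=
  av q k (fun n => u n * v n) - av q k u * av q k v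

/-- real-valued `q`-quasi-additive functions of logarithmic growth -/
structure QR (q m : ℕ) (F : ℕ → ℝ) (C : ℝ) : Prop where
  nonneg : 0 ≤ C
  gap : ∀ a y s : ℕ, s < q ^ a → F (q ^ (a + m) * y + s) = F y + F s
  growth : ∀ a s : ℕ, s < q ^ a → |F s| ≤ C * (a + 1)

/-- vector-valued `q`-quasi-additive functions of logarithmic growth -/
structure QV (q m : ℕ) {d : ℕ} (e : ℕ → Fin d → ℤ) (C : ℝ) : Prop where
  nonneg : 0 ≤ C
  gap : ∀ a y s : ℕ, s < q ^ a → e (q ^ (a + m) * y + s) = e y + e s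
  growth : ∀ a s : ℕ, s < q ^ a → ∀ i, |(e s i : ℝ)| ≤ C * (a + 1)

/-- linear functionals of `e` -/
noncomputable def lin {d : ℕ} (a : Fin d → ℝ) (e : ℕ → Fin d → ℤ) (n : ℕ) : ℝ :=
  ∑ i, a i * (e n i : ℝ)

/-- the defect of additivity of `F` -/
def dfc (F : ℕ → ℝ) (q a y s : ℕ) : ℝ := F (q ^ a * y + s) - F y - F s

/-- functions on the lattice bounded by `1` which vary slowly at scale `1 / δ` -/
def Slow {d : ℕ} (δ : ℝ) (G : (Fin d → ℤ) → ℝ) : Prop :=
  (∀ x, |G x| ≤ 1) ∧ (∀ x i, |G (x + Pi.single i 1) - G x| ≤ δ) ∧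
    ∀ x i j, |G (x + Pi.single i 1 + Pi.single j 1) - G (x + Pi.single i 1) -
      G (x + Pi.single j 1) + G x| ≤ δ ^ 2

/-- the average of `F (e (p-side), e (r-side))` over a `q`-adic block -/
noncomputable def Phi {H : Type*} (q P R : ℕ) (e : ℕ → H) (h k y c d z z' : ℕ)
    (F : H → H → ℝ) : ℝ :=
  av q k (fun n => F (e (q ^ h * (P * (q ^ k * y + n) + c) + z))
    (e (q ^ h * (R * (q ^ k * y + n) + d) + z')))

/-- the joint law of the two sides is nearly invariant under the shift by `(v, v')` -/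
def Good {H : Type*} [AddCommGroup H] (q P R : ℕ) (e : ℕ → H) (v v' : H) : Prop :=
  ∃ C : ℝ, 0 ≤ C ∧ ∀ h k y c d z z' : ℕ, c ≤ P → d ≤ R → z < q ^ h → z' < q ^ h →
    ∀ F : H → H → ℝ, (∀ x x', |F x x'| ≤ 1) →
      |Phi q P R e h k y c d z z' F - Phi q P R e h k y c d z z' (fun x x' => F (x + v) (x' + v'))| ≤
        C / Real.sqrt (k + 1)

/-- the subgroup generated by the defects of additivity -/
def Lam {H : Type*} [AddCommGroup H] (e : ℕ → H) : AddSubgroup H :=
  AddSubgroup.closure {w | ∃ a b : ℕ, w = e (a + b) - e a - e b}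

/-- the average over the top `l` digits, given the lower `a` digits `s` -/
noncomputable def cnd (q l a : ℕ) (u : ℕ → ℝ) (s : ℕ) : ℝ := av q l (fun y => u (q ^ a * y + s))

end Pool.Agent.Lib.MP_3e612f_nt.QA
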