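import Pool.Agent.Lib.MP_3e612f_nt.Incr
import Pool.Agent.Lib.MP_3e612f_nt.QDefs

/-!
Ordinary averages.
-/

set_option autoImplicit false

namespace Pool.Agent.Lib.MP_3e612f_nt.CA

open Filter Topology

/-- the average `(1 / N) ∑_{n ≤ N} u n` -/
noncomputable def CesAvg (u : ℕ → ℝ) (N : ℕ) : ℝ := (∑ n ∈ Finset.Icc 1 N, u n) / N

theorem CesAvg_add (u v : ℕ → ℝ) (N : ℕ) :
    CesAvg (fun n => u n + v n) N = CesAvg u N + CesAvg v N := by
  unfold CesAvg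
  rw [← add_div, ← Finset.sum_add_distrib]

theorem CesAvg_sub (u v : ℕ → ℝ) (N : ℕ) :
    CesAvg (fun n => u n - v n) N = CesAvg u N - CesAvg v N := by
  unfold CesAvg
  rw [← sub_div, ← Finset.sum_sub_distrib]

theorem CesAvg_const_mul (c : ℝ) (u : ℕ → ℝ) (N : ℕ) :
    CesAvg (fun n => c * u n) N = c * CesAvg u N := by
  unfold CesAvg
  rw [← Finset.mul_sum, mul_div_assoc]

theorem CesAvg_neg (u : ℕ → ℝ) (N : ℕ) : CesAvg (fun n => - u n) N = - CesAvg u N := by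
  have := CesAvg_const_mul (-1) u N
  simpa using this

theorem CesAvg_congr {u v : ℕ → ℝ} {N : ℕ} (h : ∀ n, 1 ≤ n → n ≤ N → u n = v n) :
    CesAvg u N = CesAvg v N := by
  unfold CesAvg
  congr 1
  refine Finset.sum_congr rfl fun n hn => ?_
  rw [Finset.mem_Icc] at hn
  exact h n hn.1 hn.2

theorem CesAvg_mono {u v : ℕ → ℝ} {N : ℕ} (h : ∀ n, 1 ≤ n → u n ≤ v n) :
    CesAvg u N ≤ CesAvg v N := by
  unfold CesAvg
  refine div_le_div_of_nonneg_right (Finset.sum_le_sum fun n hn => ?_) (Nat.cast_nonneg N)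
  rw [Finset.mem_Icc] at hn
  exact h n hn.1

theorem CesAvg_abs (u : ℕ → ℝ) (N : ℕ) : |CesAvg u N| ≤ CesAvg (fun n => |u n|) N := by
  rw [abs_le]
  constructor
  · rw [← CesAvg_neg]
    exact CesAvg_mono fun n _ => neg_abs_le (u n)
  · exact CesAvg_mono fun n _ => le_abs_self (u n)

theorem CesAvg_finset_sum {ι : Type*} (s : Finset ι) (u : ι → ℕ → ℝ) (N : ℕ) :
    CesAvg (fun n => ∑ i ∈ s, u i n) N = ∑ i ∈ s, CesAvg (u i) N := by
  unfold CesAvg
  rw [Finset.sum_comm, Finset.sum_div]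

theorem tendsto_finset {ι : Type*} (s : Finset ι) (u : ι → ℕ → ℝ)
    (h : ∀ i ∈ s, Tendsto (CesAvg (u i)) atTop (𝓝 0)) :
    Tendsto (CesAvg fun n => ∑ i ∈ s, u i n) atTop (𝓝 0) := by
  have h1 : Tendsto (fun N => ∑ i ∈ s, CesAvg (u i) N) atTop (𝓝 (∑ i ∈ s, 0)) :=
    tendsto_finsetSum _ fun i hi => h i hi
  rw [Finset.sum_const_zero] at h1
  exact h1.congr fun N => (CesAvg_finset_sum s u N).symm

end Pool.Agent.Lib.MP_3e612f_nt.CA
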