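import Mathlib

/-!
Weyl sums over `q`-adic windows, uniformly in the lower terms of the phase polynomial.
-/

set_option autoImplicit false

namespace Pool.Agent.Lib.MP_3e612f_nt.SA

open Filter Topology Polynomial

/-- the exponential with period one -/
noncomputable def ex (t : ℝ) : ℂ := Complex.exp (2 * Real.pi * t * Complex.I)

theorem ex_add (s t : ℝ) : ex (s + t) = ex s * ex t := by
  unfold ex
  rw [← Complex.exp_add]
  congr 1
  push_cast
  ring

theorem norm_ex (t : ℝ) : ‖ex t‖ = 1 := by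
  unfold ex
  have : (2 * (Real.pi : ℂ) * (t : ℂ) * Complex.I) = ((2 * Real.pi * t : ℝ) : ℂ) * Complex.I := by
    push_cast; ring
  rw [this, Complex.norm_exp_ofReal_mul_I]

theorem conj_ex (t : ℝ) : (starRingEnd ℂ) (ex t) = ex (-t) := by
  unfold ex
  rw [← Complex.exp_conj]
  congr 1
  simp only [map_mul, Complex.conj_ofReal, Complex.conj_I, map_ofNat]
  push_cast
  ring

theorem ex_zero : ex 0 = 1 := by simp [ex]

theorem ex_ne_one {κ : ℝ} (hκ : Irrational κ) : ex κ ≠ 1 := by
  intro h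
  unfold ex at h
  rw [Complex.exp_eq_one_iff] at h
  obtain ⟨n, hn⟩ := h
  have h1 : (2 * (Real.pi : ℂ) * Complex.I) ≠ 0 := by
    simp [Real.pi_ne_zero, Complex.I_ne_zero]
  have h2 : (κ : ℂ) = (n : ℂ) := by
    apply mul_left_cancel₀ h1
    linear_combination hn
  have h3 : κ = (n : ℝ) := by exact_mod_cast h2
  exact hκ.ne_int n h3

theorem ex_mul_nat (κ : ℝ) (n : ℕ) : ex (κ * n) = ex κ ^ n := by
  unfold ex
  rw [← Complex.exp_nat_mul]
  congr 1
  push_cast
  ring

theorem poly_diff {D : ℕ} (hD : 2 ≤ D) {p : Polynomial ℝ} (hp : p.natDegree = D) {a w w' : ℝ}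
    (ha : a ≠ 0) (hne : w ≠ w') :
    (p.comp (C a * X + C w) - p.comp (C a * X + C w')).natDegree = D - 1 ∧
    (p.comp (C a * X + C w) - p.comp (C a * X + C w')).leadingCoeff =
      p.leadingCoeff * (D * a ^ (D - 1) * (w - w')) := by
  have key : ∀ v : ℝ, ∀ n : ℕ, (p.comp (C a * X + C v)).coeff n =
      (hasseDeriv n p).eval v * a ^ n := by
    intro v n
    have h1 : p.comp (C a * X + C v) = (taylor v p).comp (C a * X) := by
      rw [taylor_apply, comp_assoc]
      simp
    rw [h1, comp_C_mul_X_coeff, taylor_coeff]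
  have hp0 : p.leadingCoeff ≠ 0 := by
    rw [leadingCoeff_ne_zero]
    rintro rfl
    simp at hp
    omega
  have hlc : p.leadingCoeff = p.coeff D := by rw [leadingCoeff, hp]
  have hD1 : ∀ v : ℝ, (hasseDeriv (D - 1) p).eval v = p.coeff (D - 1) + D * p.coeff D * v := by
    intro v
    have hdeg : (hasseDeriv (D - 1) p).natDegree < 2 := by
      have := natDegree_hasseDeriv_le p (D - 1)
      omega
    rw [eval_eq_sum_range' hdeg, Finset.sum_range_succ, Finset.sum_range_one]
    simp only [hasseDeriv_coeff]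
    have e1 : 1 + (D - 1) = D := by omega
    have e2 : D.choose (D - 1) = D := by
      rw [← Nat.choose_symm_of_eq_add (show D = 1 + (D - 1) by omega), Nat.choose_one_right]
    rw [e1, e2]
    simp
  have hDD : ∀ v : ℝ, (hasseDeriv D p).eval v = p.coeff D := by
    intro v
    have hdeg : (hasseDeriv D p).natDegree < 1 := by
      have := natDegree_hasseDeriv_le p D
      omega
    rw [eval_eq_sum_range' hdeg, Finset.sum_range_one]
    simp [hasseDeriv_coeff]
  have hc : (p.comp (C a * X + C w) - p.comp (C a * X + C w')).coeff (D - 1) =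
      p.leadingCoeff * (D * a ^ (D - 1) * (w - w')) := by
    rw [coeff_sub, key, key, hD1, hD1, hlc]
    ring
  have hle : (p.comp (C a * X + C w) - p.comp (C a * X + C w')).natDegree ≤ D - 1 := by
    rw [natDegree_le_iff_coeff_eq_zero]
    intro N hN
    rw [coeff_sub, key, key]
    rcases Nat.lt_or_ge D N with h | h
    · rw [hasseDeriv_eq_zero_of_lt_natDegree p N (by omega)]
      simp
    · have : N = D := by omega
      subst this
      rw [hDD, hDD, sub_self]
  have hne0 : (p.comp (C a * X + C w) - p.comp (C a * X + C w')).coeff (D - 1) ≠ 0 := by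
    rw [hc]
    refine mul_ne_zero hp0 (mul_ne_zero (mul_ne_zero ?_ (pow_ne_zero _ ha)) (sub_ne_zero.mpr hne))
    exact_mod_cast (by omega : D ≠ 0)
  have hnd := natDegree_eq_of_le_of_coeff_ne_zero hle hne0
  exact ⟨hnd, by rw [leadingCoeff, hnd, hc]⟩

/-- The square of a finite exponential sum. -/
private theorem sq_sum {ι : Type*} (s : Finset ι) (a : ι → ℝ) :
    ((‖∑ i ∈ s, ex (a i)‖ ^ 2 : ℝ) : ℂ) = ∑ i ∈ s, ∑ j ∈ s, ex (a i - a j) := by
  rw [← Complex.normSq_eq_norm_sq, ← Complex.mul_conj, map_sum, Finset.sum_mul_sum]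
  refine Finset.sum_congr rfl fun i _ => Finset.sum_congr rfl fun j _ => ?_
  rw [conj_ex, ← ex_add, sub_eq_add_neg]

private theorem split_sum (f : ℕ → ℂ) (K W : ℕ) : ∑ n ∈ Finset.range (K * W), f n =
    ∑ x ∈ Finset.range K, ∑ w ∈ Finset.range W, f (W * x + w) := by
  induction K with
  | zero => simp
  | succ K ih =>
    rw [Nat.succ_mul, Finset.sum_range_add, ih, Finset.sum_range_succ]
    congr 1
    refine Finset.sum_congr rfl fun w _ => ?_
    rw [mul_comm K W]

theorem weyl_q {q : ℕ} (hq : 2 ≤ q) {D : ℕ} (hD : 1 ≤ D) {κ : ℝ} (hκ : Irrational κ) {ε : ℝ}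
    (hε : 0 < ε) : ∀ᶠ k : ℕ in atTop, ∀ p : Polynomial ℝ, p.natDegree = D →
      p.leadingCoeff = κ → ‖∑ x ∈ Finset.range (q ^ k), ex (p.eval (x : ℝ))‖ ≤ ε * q ^ k := by
  have hq1 : (1 : ℝ) < q := by exact_mod_cast hq
  induction D, hD using Nat.le_induction generalizing κ ε with
  | base =>
    have hne : ex κ - 1 ≠ 0 := sub_ne_zero.mpr (ex_ne_one hκ)
    have hpos : 0 < ‖ex κ - 1‖ := norm_pos_iff.mpr hne
    have hev : ∀ᶠ k : ℕ in atTop, 2 / ‖ex κ - 1‖ / ε ≤ (q : ℝ) ^ k :=
      (tendsto_pow_atTop_atTop_of_one_lt hq1).eventually_ge_atTop _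
    filter_upwards [hev] with k hk p hp hl
    have hpe : ∀ x : ℕ, ex (p.eval (x : ℝ)) = ex κ ^ x * ex (p.coeff 0) := by
      intro x
      rw [← ex_mul_nat, ← ex_add]
      congr 1
      rw [eval_eq_sum_range' (n := 2) (by omega), Finset.sum_range_succ, Finset.sum_range_one]
      have : p.coeff 1 = κ := by rw [← hl, leadingCoeff, hp]
      rw [this]
      ring
    simp only [hpe]
    rw [← Finset.sum_mul, norm_mul, norm_ex, mul_one, geom_sum_eq (ex_ne_one hκ), norm_div]
    have h1 : ‖ex κ ^ (q ^ k) - 1‖ ≤ 2 := by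
      calc ‖ex κ ^ (q ^ k) - 1‖ ≤ ‖ex κ ^ (q ^ k)‖ + ‖(1 : ℂ)‖ := norm_sub_le _ _
        _ = 2 := by rw [norm_pow, norm_ex]; norm_num
    calc ‖ex κ ^ (q ^ k) - 1‖ / ‖ex κ - 1‖ ≤ 2 / ‖ex κ - 1‖ := by gcongr
      _ = ε * (2 / ‖ex κ - 1‖ / ε) := by field_simp
      _ ≤ ε * q ^ k := by gcongr
  | succ D hD ih =>
    -- choose the window
    obtain ⟨l, hl⟩ : ∃ l : ℕ, 2 / ε ^ 2 ≤ (q : ℝ) ^ l :=
      ((tendsto_pow_atTop_atTop_of_one_lt hq1).eventually_ge_atTop (2 / ε ^ 2)).exists
    set W : ℕ := q ^ l with hW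
    have hWpos : 0 < W := pow_pos (by omega) _
    have hWR : (0 : ℝ) < W := by exact_mod_cast hWpos
    have hW2 : 1 / (W : ℝ) ≤ ε ^ 2 / 2 := by
      have : 2 / ε ^ 2 ≤ (W : ℝ) := by rw [hW]; exact_mod_cast hl
      rw [div_le_iff₀ (by positivity)] at this
      rw [div_le_iff₀ hWR]
      nlinarith
    have hpair : ∀ᶠ k : ℕ in atTop, ∀ w ∈ Finset.range W, ∀ w' ∈ Finset.range W, w ≠ w' →
        ∀ p : Polynomial ℝ, p.natDegree = D →
          p.leadingCoeff = κ * ((D + 1 : ℕ) * (W : ℝ) ^ D * ((w : ℝ) - w')) →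
          ‖∑ x ∈ Finset.range (q ^ k), ex (p.eval (x : ℝ))‖ ≤ ε ^ 2 / 2 * q ^ k := by
      rw [Filter.eventually_all_finset]
      intro w _
      rw [Filter.eventually_all_finset]
      intro w' _
      by_cases hww : w = w'
      · exact Filter.Eventually.of_forall fun k h => absurd hww h
      · have hirr : Irrational (κ * ((D + 1 : ℕ) * (W : ℝ) ^ D * ((w : ℝ) - w'))) := by
          have hz : (((D + 1 : ℕ) : ℤ) * (W : ℤ) ^ D * ((w : ℤ) - w')) ≠ 0 := by
            refine mul_ne_zero (mul_ne_zero ?_ (pow_ne_zero _ ?_)) ?_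
            · exact_mod_cast Nat.succ_ne_zero D
            · exact_mod_cast hWpos.ne'
            · rw [sub_ne_zero]; exact_mod_cast hww
          have := hκ.mul_intCast hz
          push_cast at this ⊢
          exact this
        filter_upwards [ih hirr (show 0 < ε ^ 2 / 2 by positivity)] with k hk _
        exact hk
    have hpair' := (tendsto_sub_atTop_nat l).eventually hpair
    filter_upwards [hpair', eventually_ge_atTop l] with k hk hkl p hp hlc
    set K : ℕ := q ^ (k - l) with hK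
    have hKR : (0 : ℝ) < K := by
      have : 0 < K := pow_pos (by omega) _
      exact_mod_cast this
    have hqk : q ^ k = W * K := by
      rw [hW, hK, ← pow_add]; congr 1; omega
    have hqkR : (q : ℝ) ^ k = W * K := by exact_mod_cast hqk
    -- split
    have hsplit : ∑ n ∈ Finset.range (q ^ k), ex (p.eval (n : ℝ)) =
        ∑ x ∈ Finset.range K, ∑ w ∈ Finset.range W,
          ex ((p.comp (C (W : ℝ) * X + C (w : ℝ))).eval (x : ℝ)) := by
      rw [hqk, mul_comm W K, split_sum]
      refine Finset.sum_congr rfl fun x _ => Finset.sum_congr rfl fun w _ => ?_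
      congr 1
      rw [eval_comp]
      simp
    rw [hsplit, hqkR]
    set A : ℕ → ℕ → ℝ := fun x w => (p.comp (C (W : ℝ) * X + C (w : ℝ))).eval (x : ℝ) with hA
    have hcs : ‖∑ x ∈ Finset.range K, ∑ w ∈ Finset.range W, ex (A x w)‖ ^ 2 ≤
        K * ∑ x ∈ Finset.range K, ‖∑ w ∈ Finset.range W, ex (A x w)‖ ^ 2 := by
      have h1 : ‖∑ x ∈ Finset.range K, ∑ w ∈ Finset.range W, ex (A x w)‖ ≤
          ∑ x ∈ Finset.range K, ‖∑ w ∈ Finset.range W, ex (A x w)‖ := norm_sum_le _ _
      have h2 := sq_sum_le_card_mul_sum_sq (s := Finset.range K)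
        (f := fun x => ‖∑ w ∈ Finset.range W, ex (A x w)‖)
      rw [Finset.card_range] at h2
      exact (pow_le_pow_left₀ (norm_nonneg _) h1 2).trans h2
    have hexp : ((∑ x ∈ Finset.range K, ‖∑ w ∈ Finset.range W, ex (A x w)‖ ^ 2 : ℝ) : ℂ) =
        ∑ w ∈ Finset.range W, ∑ w' ∈ Finset.range W, ∑ x ∈ Finset.range K,
          ex (A x w - A x w') := by
      push_cast
      have : ∀ x ∈ Finset.range K, ((‖∑ w ∈ Finset.range W, ex (A x w)‖ : ℂ)) ^ 2 =
          ∑ w ∈ Finset.range W, ∑ w' ∈ Finset.range W, ex (A x w - A x w') := by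
        intro x _
        have := sq_sum (Finset.range W) (A x)
        push_cast at this
        exact this
      rw [Finset.sum_congr rfl this, Finset.sum_comm]
      refine Finset.sum_congr rfl fun w _ => ?_
      rw [Finset.sum_comm]
    have hbound : ∑ x ∈ Finset.range K, ‖∑ w ∈ Finset.range W, ex (A x w)‖ ^ 2 ≤
        ∑ w ∈ Finset.range W, ∑ w' ∈ Finset.range W,
          ((if w = w' then (K : ℝ) else 0) + ε ^ 2 / 2 * K) := by
      have h0 : (0 : ℝ) ≤ ∑ x ∈ Finset.range K, ‖∑ w ∈ Finset.range W, ex (A x w)‖ ^ 2 :=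
        Finset.sum_nonneg fun _ _ => by positivity
      have h1 : ∑ x ∈ Finset.range K, ‖∑ w ∈ Finset.range W, ex (A x w)‖ ^ 2 =
          ‖((∑ x ∈ Finset.range K, ‖∑ w ∈ Finset.range W, ex (A x w)‖ ^ 2 : ℝ) : ℂ)‖ := by
        rw [Complex.norm_real, Real.norm_of_nonneg h0]
      rw [h1, hexp]
      refine (norm_sum_le _ _).trans (Finset.sum_le_sum fun w hw => ?_)
      refine (norm_sum_le _ _).trans (Finset.sum_le_sum fun w' hw' => ?_)
      by_cases hww : w = w'
      · subst hww
        simp only [sub_self, ex_zero, if_true, Finset.sum_const, Finset.card_range]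
        have : (0 : ℝ) ≤ ε ^ 2 / 2 * K := by positivity
        simp
        linarith
      · rw [if_neg hww, zero_add]
        have hdiff := poly_diff (show 2 ≤ D + 1 by omega) hp hWR.ne'
          (show (w : ℝ) ≠ w' by exact_mod_cast hww)
        have h3 := hk w hw w' hw' hww _ (by rw [hdiff.1]; rfl)
          (by rw [hdiff.2, hlc]; rfl)
        have h4 : (q : ℝ) ^ (k - l) = K := by rw [hK]; push_cast; rfl
        rw [h4] at h3
        refine le_trans (le_of_eq ?_) h3
        congr 1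
        refine Finset.sum_congr rfl fun x _ => ?_
        rw [hA, eval_sub]
    have hsum : ∑ w ∈ Finset.range W, ∑ w' ∈ Finset.range W,
          ((if w = w' then (K : ℝ) else 0) + ε ^ 2 / 2 * K) = W * K + W * (W * (ε ^ 2 / 2 * K)) := by
      simp only [Finset.sum_add_distrib, Finset.sum_const, Finset.card_range, nsmul_eq_mul,
        Finset.sum_ite_eq, Finset.mem_range]
      congr 1
      rw [Finset.sum_congr rfl (g := fun _ => (K : ℝ))
        (fun w hw => by rw [if_pos (Finset.mem_range.mp hw)])]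
      simp
    rw [hsum] at hbound
    have hfin : ‖∑ x ∈ Finset.range K, ∑ w ∈ Finset.range W, ex (A x w)‖ ^ 2 ≤
        (ε * (W * K)) ^ 2 := by
      refine hcs.trans ((mul_le_mul_of_nonneg_left hbound hKR.le).trans ?_)
      have h5 : (1 : ℝ) ≤ ε ^ 2 / 2 * W := by
        rw [div_le_iff₀ hWR] at hW2
        linarith
      have h6 : (K : ℝ) ^ 2 * W * 1 ≤ (K : ℝ) ^ 2 * W * (ε ^ 2 / 2 * W) :=
        mul_le_mul_of_nonneg_left h5 (by positivity)
      nlinarith
    exact (pow_le_pow_iff_left₀ (norm_nonneg _) (by positivity) two_ne_zero).mp hfin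

end Pool.Agent.Lib.MP_3e612f_nt.SA
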