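import Pool.Agent.Lib.MP_3e612f_nt.STwist
import Pool.Agent.Lib.MP_3e612f_nt.PWeyl

/-!
Polynomial phases with an irrational leading coefficient, monoid-valued functions.
-/

set_option autoImplicit false

namespace Pool.Agent.Lib.MP_3e612f_nt.SA

open Filter Topology QA Polynomial

/-- averages with several special words -/
theorem t14_avg {q W : ℕ} (hq : 2 ≤ q) {T : ℕ → ℝ} {S : Finset ℕ}
    (hS : S ⊆ Finset.range (q ^ W)) {B s : ℝ} (hT : ∀ v < q ^ W, v ∉ S → |T v| ≤ B)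
    (h2 : |∑ v ∈ S, T v| ≤ s) :
    |av q W T| ≤ (1 - (S.card : ℝ) / (q : ℝ) ^ W) * B + s / (q : ℝ) ^ W := by
  have hpos := qpow_posR hq W
  have hsum : ∑ v ∈ Finset.range (q ^ W), T v
      = ∑ v ∈ S, T v + ∑ v ∈ Finset.range (q ^ W) \ S, T v := by
    rw [add_comm, Finset.sum_sdiff hS]
  have hcard : ((Finset.range (q ^ W) \ S).card : ℝ) = (q : ℝ) ^ W - S.card := by
    rw [Finset.card_sdiff_of_subset hS, Nat.cast_sub (Finset.card_le_card hS),
      Finset.card_range]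
    push_cast
    rfl
  have hrest : |∑ v ∈ Finset.range (q ^ W) \ S, T v| ≤ ((q : ℝ) ^ W - S.card) * B := by
    calc |∑ v ∈ Finset.range (q ^ W) \ S, T v|
        ≤ ∑ v ∈ Finset.range (q ^ W) \ S, |T v| := Finset.abs_sum_le_sum_abs _ _
      _ ≤ ∑ v ∈ Finset.range (q ^ W) \ S, B := Finset.sum_le_sum fun v hv => by
          rw [Finset.mem_sdiff, Finset.mem_range] at hv
          exact hT v hv.1 hv.2
      _ = ((q : ℝ) ^ W - S.card) * B := by
          rw [Finset.sum_const, nsmul_eq_mul, hcard]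
  have htot : |∑ v ∈ Finset.range (q ^ W), T v| ≤ s + ((q : ℝ) ^ W - S.card) * B := by
    rw [hsum]
    exact (abs_add_le _ _).trans (add_le_add h2 hrest)
  unfold av
  rw [abs_div, abs_of_pos hpos, div_le_iff₀ hpos]
  refine htot.trans (le_of_eq ?_)
  field_simp
  ring

theorem t14_ex_re (t : ℝ) : (ex t).re = Real.cos (2 * Real.pi * t) := by
  unfold ex
  have h : (2 * (Real.pi : ℂ) * (t : ℂ) * Complex.I) = ((2 * Real.pi * t : ℝ) : ℂ) * Complex.I := by
    push_cast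
    ring
  rw [h, Complex.exp_ofReal_mul_I_re]

/-- the second moment of several phases -/
theorem t14_moment {q k : ℕ} (hq : 2 ≤ q) {J : ℕ} {f : ℕ → ℕ → ℝ} {δ : ℝ} (hδ : 0 ≤ δ)
    (h : ∀ i < J, ∀ j < J, i ≠ j →
      ‖∑ x ∈ Finset.range (q ^ k), ex (f i x - f j x)‖ ≤ δ * q ^ k)
    {F : ℕ → ℝ} (hF : ∀ x, |F x| ≤ 1) :
    |av q k (fun n => (∑ j ∈ Finset.range J, Real.cos (2 * Real.pi * f j n)) * F n)| ≤
      Real.sqrt (J + (J : ℝ) ^ 2 * δ) := by
  have hpos := qpow_posR hq k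
  refine Real.abs_le_sqrt ?_
  refine (av_sq_le q hq k _).trans ?_
  have h1 : ∀ n : ℕ, ((∑ j ∈ Finset.range J, Real.cos (2 * Real.pi * f j n)) * F n) ^ 2 ≤
      ∑ i ∈ Finset.range J, ∑ j ∈ Finset.range J, Real.cos (2 * Real.pi * (f i n - f j n)) := by
    intro n
    have e1 : ∑ i ∈ Finset.range J, ∑ j ∈ Finset.range J,
        Real.cos (2 * Real.pi * (f i n - f j n))
        = (∑ j ∈ Finset.range J, Real.cos (2 * Real.pi * f j n)) ^ 2
          + (∑ j ∈ Finset.range J, Real.sin (2 * Real.pi * f j n)) ^ 2 := by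
      rw [sq, sq, Finset.sum_mul_sum, Finset.sum_mul_sum, ← Finset.sum_add_distrib]
      refine Finset.sum_congr rfl fun i _ => ?_
      rw [← Finset.sum_add_distrib]
      refine Finset.sum_congr rfl fun j _ => ?_
      rw [mul_sub, Real.cos_sub]
    have e2 : F n ^ 2 ≤ 1 := by
      rw [← sq_abs]
      exact pow_le_one₀ (abs_nonneg _) (hF n)
    rw [e1, mul_pow]
    have e3 := sq_nonneg (∑ j ∈ Finset.range J, Real.cos (2 * Real.pi * f j n))
    have e4 := sq_nonneg (∑ j ∈ Finset.range J, Real.sin (2 * Real.pi * f j n))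
    nlinarith
  refine (av_mono fun n _ => h1 n).trans ?_
  rw [av_finset_sum]
  have h2 : ∀ i ∈ Finset.range J, av q k (fun n => ∑ j ∈ Finset.range J,
      Real.cos (2 * Real.pi * (f i n - f j n))) ≤ 1 + J * δ := by
    intro i hi
    rw [av_finset_sum]
    have h3 : ∀ j ∈ Finset.range J, av q k (fun n => Real.cos (2 * Real.pi * (f i n - f j n)))
        ≤ (if i = j then 1 else 0) + δ := by
      intro j hj
      rw [Finset.mem_range] at hi hj
      by_cases hij : i = j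
      · rw [if_pos hij]
        have : av q k (fun n => Real.cos (2 * Real.pi * (f i n - f j n))) ≤ 1 :=
          av_le hq fun n _ => Real.cos_le_one _
        linarith
      · rw [if_neg hij, zero_add]
        have h4 := h i hi j hj hij
        have h5 : (∑ x ∈ Finset.range (q ^ k), Real.cos (2 * Real.pi * (f i x - f j x)))
            = (∑ x ∈ Finset.range (q ^ k), ex (f i x - f j x)).re := by
          rw [Complex.re_sum]
          exact Finset.sum_congr rfl fun x _ => (t14_ex_re _).symm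
        unfold av
        rw [h5, div_le_iff₀ hpos]
        exact (Complex.re_le_norm _).trans h4
    refine (Finset.sum_le_sum h3).trans (le_of_eq ?_)
    rw [Finset.sum_add_distrib, Finset.sum_ite_eq, if_pos hi, Finset.sum_const,
      Finset.card_range, nsmul_eq_mul]
  refine (Finset.sum_le_sum h2).trans (le_of_eq ?_)
  rw [Finset.sum_const, Finset.card_range, nsmul_eq_mul]
  ring

/-- uniform bound for the averages with polynomial phases -/
def t14_Bd {G : Type*} (q P R : ℕ) (γ : ℕ → G) (k D : ℕ) (κ B : ℝ) : Prop :=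
  ∀ h y c d z z' : ℕ, c ≤ P → d ≤ R → z < q ^ h → z' < q ^ h →
    ∀ F : G → G → ℝ, (∀ x x', |F x x'| ≤ 1) → ∀ p : Polynomial ℝ, p.natDegree = D →
      p.leadingCoeff = κ →
      |av q k (fun n => Real.cos (2 * Real.pi * p.eval (n : ℝ)) *
        F (γ (q ^ h * (P * (q ^ k * y + n) + c) + z))
          (γ (q ^ h * (R * (q ^ k * y + n) + d) + z')))| ≤ B

/-- one window -/
theorem t14_step {G : Type*} [Monoid G] {q m : ℕ} (hq : 2 ≤ q) {γ : ℕ → G}
    (hγ : ∀ a y s : ℕ, s < q ^ a → γ (q ^ (a + m) * y + s) = γ y * γ s) {P R b W k J D : ℕ}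
    (hbP : P + 1 ≤ q ^ b) (hbR : R + 1 ≤ q ^ b)
    (hWP : P * q ^ (m + (b + J)) + P + 1 ≤ q ^ W) (hWR : R * q ^ (m + (b + J)) + R + 1 ≤ q ^ W)
    (hW : b + J < W) {κ B δ : ℝ} (hδ : 0 ≤ δ)
    (hk : t14_Bd q P R γ k D (κ * ((q : ℝ) ^ (W + m)) ^ D) B)
    (hs : ∀ p : Polynomial ℝ, p.natDegree = D → p.leadingCoeff = κ → ∀ i < J, ∀ j < J, i ≠ j →
      ‖∑ x ∈ Finset.range (q ^ k), ex (p.eval ((q : ℝ) ^ (W + m) * x + (q : ℝ) ^ (m + (b + i)))
        - p.eval ((q : ℝ) ^ (W + m) * x + (q : ℝ) ^ (m + (b + j))))‖ ≤ δ * q ^ k) :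
    t14_Bd q P R γ (W + m + k) D κ ((1 - (J : ℝ) / (q : ℝ) ^ (W + m)) * B +
      Real.sqrt (J + (J : ℝ) ^ 2 * δ) / (q : ℝ) ^ (W + m)) := by
  intro h y c d z z' hc hd hz hz' F hF p hpD hpκ
  rw [av_split]
  have hq1 : 1 ≤ q := by omega
  have hQpos := qpow_posR hq (W + m)
  -- the value at a special word
  set F' : G → G → ℝ := fun x x' =>
    F (x * (γ P * γ (q ^ h * c + z))) (x' * (γ R * γ (q ^ h * d + z'))) with hF'
  have hword : ∀ j < J,
      cnd q k (W + m) (fun n => Real.cos (2 * Real.pi * p.eval (n : ℝ)) *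
        F (γ (q ^ h * (P * (q ^ (W + m + k) * y + n) + c) + z))
          (γ (q ^ h * (R * (q ^ (W + m + k) * y + n) + d) + z'))) (q ^ (m + (b + j)))
      = av q k (fun n => Real.cos (2 * Real.pi *
          p.eval ((q : ℝ) ^ (W + m) * n + (q : ℝ) ^ (m + (b + j)))) *
          F' (γ (P * (q ^ k * y + n))) (γ (R * (q ^ k * y + n)))) := by
    intro j hj
    have hjJ : q ^ (m + (b + j)) ≤ q ^ (m + (b + J)) := Nat.pow_le_pow_right hq1 (by omega)
    have hPj := Nat.mul_le_mul_left P hjJ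
    have hRj := Nat.mul_le_mul_left R hjJ
    have hbj : q ^ b ≤ q ^ (b + j) := Nat.pow_le_pow_right hq1 (by omega)
    unfold cnd
    refine av_congr fun n _ => ?_
    beta_reduce
    rw [t11_word hq hγ hc hz (by omega) (by omega), t11_word hq hγ hd hz' (by omega) (by omega)]
    simp only [hF']
    push_cast
    rfl
  set S : Finset ℕ := (Finset.range J).image fun j => q ^ (m + (b + j)) with hS
  have hinj : Set.InjOn (fun j => q ^ (m + (b + j))) (Finset.range J : Finset ℕ) := by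
    intro x _ x' _ hxx
    have := Nat.pow_right_injective hq hxx
    omega
  have hcard : S.card = J := by
    rw [hS, Finset.card_image_of_injOn hinj, Finset.card_range]
  have hSsub : S ⊆ Finset.range (q ^ (W + m)) := by
    intro v hv
    rw [hS, Finset.mem_image] at hv
    obtain ⟨j, hj, rfl⟩ := hv
    rw [Finset.mem_range] at hj ⊢
    exact Nat.pow_lt_pow_right (by omega) (by omega)
  rw [← hcard]
  refine t14_avg hq hSsub ?_ ?_
  · intro w hw _
    unfold cnd
    have hlin : (C ((q : ℝ) ^ (W + m)) * X + C (w : ℝ)).natDegree = 1 :=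
      natDegree_linear hQpos.ne'
    have h1 := hk (h + (W + m)) y ((P * w + c) / q ^ (W + m)) ((R * w + d) / q ^ (W + m))
      (q ^ h * ((P * w + c) % q ^ (W + m)) + z) (q ^ h * ((R * w + d) % q ^ (W + m)) + z')
      (q15_div hw hc) (q15_div hw hd) (q15_mod hq hz) (q15_mod hq hz') F hF
      (p.comp (C ((q : ℝ) ^ (W + m)) * X + C (w : ℝ)))
      (by rw [natDegree_comp, hlin, mul_one, hpD])
      (by rw [leadingCoeff_comp (by rw [hlin]; norm_num), leadingCoeff_linear hQpos.ne', hpκ,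
        hpD])
    refine le_of_eq_of_le ?_ h1
    congr 1
    refine av_congr fun n _ => ?_
    beta_reduce
    rw [q15_nat, q15_nat]
    congr 2
    simp only [eval_comp, eval_add, eval_mul, eval_C, eval_X]
    push_cast
    rfl
  · rw [hS, Finset.sum_image hinj, Finset.sum_congr rfl fun j hj =>
      hword j (Finset.mem_range.1 hj), ← av_finset_sum, hcard]
    have e1 := t14_moment (k := k) hq (J := J)
      (f := fun j n => p.eval ((q : ℝ) ^ (W + m) * n + (q : ℝ) ^ (m + (b + j)))) hδ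
      (fun i hi j hj hij => hs p hpD hpκ i hi j hj hij)
      (F := fun n => F' (γ (P * (q ^ k * y + n))) (γ (R * (q ^ k * y + n))))
      (fun x => hF _ _)
    refine le_of_eq_of_le ?_ e1
    congr 1
    refine av_congr fun n _ => ?_
    rw [Finset.sum_mul]

/-- the special words, all large `k` -/
theorem t14_special {q m : ℕ} (hq : 2 ≤ q) {b W J D : ℕ} (hD : 2 ≤ D) {κ : ℝ}
    (hκ : Irrational κ) {δ : ℝ} (hδ : 0 < δ) :
    ∀ᶠ k : ℕ in atTop, ∀ p : Polynomial ℝ, p.natDegree = D → p.leadingCoeff = κ →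
      ∀ i < J, ∀ j < J, i ≠ j →
      ‖∑ x ∈ Finset.range (q ^ k), ex (p.eval ((q : ℝ) ^ (W + m) * x + (q : ℝ) ^ (m + (b + i)))
        - p.eval ((q : ℝ) ^ (W + m) * x + (q : ℝ) ^ (m + (b + j))))‖ ≤ δ * q ^ k := by
  have hQpos := qpow_posR hq (W + m)
  have h1 : ∀ i ∈ Finset.range J, ∀ j ∈ Finset.range J, ∀ᶠ k : ℕ in atTop, i ≠ j →
      ∀ p : Polynomial ℝ, p.natDegree = D → p.leadingCoeff = κ →
      ‖∑ x ∈ Finset.range (q ^ k), ex (p.eval ((q : ℝ) ^ (W + m) * x + (q : ℝ) ^ (m + (b + i)))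
        - p.eval ((q : ℝ) ^ (W + m) * x + (q : ℝ) ^ (m + (b + j))))‖ ≤ δ * q ^ k := by
    intro i _ j _
    by_cases hij : i = j
    · exact Eventually.of_forall fun k hne => absurd hij hne
    have hne : q ^ (m + (b + i)) ≠ q ^ (m + (b + j)) := by
      intro h0
      have := Nat.pow_right_injective hq h0
      omega
    have hneR : (q : ℝ) ^ (m + (b + i)) ≠ (q : ℝ) ^ (m + (b + j)) := by
      exact_mod_cast hne
    have hirr : Irrational (κ * ((D : ℝ) * ((q : ℝ) ^ (W + m)) ^ (D - 1) *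
        ((q : ℝ) ^ (m + (b + i)) - (q : ℝ) ^ (m + (b + j))))) := by
      have e : ((((D : ℤ) * ((q : ℤ) ^ (W + m)) ^ (D - 1) *
          ((q : ℤ) ^ (m + (b + i)) - (q : ℤ) ^ (m + (b + j)))) : ℤ) : ℝ)
          = ((D : ℝ) * ((q : ℝ) ^ (W + m)) ^ (D - 1) *
        ((q : ℝ) ^ (m + (b + i)) - (q : ℝ) ^ (m + (b + j)))) := by
        push_cast
        ring
      rw [← e]
      refine hκ.mul_intCast ?_
      have h0 : (q : ℤ) ≠ 0 := by
        have : 0 < q := by omega
        positivity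
      have h2 : (q : ℤ) ^ (m + (b + i)) - (q : ℤ) ^ (m + (b + j)) ≠ 0 := by
        rw [sub_ne_zero]
        exact_mod_cast hne
      have h3 : (D : ℤ) ≠ 0 := by
        have : 0 < D := by omega
        positivity
      exact mul_ne_zero (mul_ne_zero h3 (pow_ne_zero _ (pow_ne_zero _ h0))) h2
    filter_upwards [weyl_q hq (D := D - 1) (by omega) hirr hδ] with k hk _ p hpD hpκ
    have h4 := poly_diff hD hpD hQpos.ne' hneR
    have h5 := hk (p.comp (C ((q : ℝ) ^ (W + m)) * X + C ((q : ℝ) ^ (m + (b + i))))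
      - p.comp (C ((q : ℝ) ^ (W + m)) * X + C ((q : ℝ) ^ (m + (b + j))))) h4.1
      (by rw [h4.2, hpκ])
    simpa only [eval_sub, eval_comp, eval_add, eval_mul, eval_C, eval_X] using h5
  have h2 : ∀ᶠ k : ℕ in atTop, ∀ i ∈ Finset.range J, ∀ j ∈ Finset.range J, i ≠ j →
      ∀ p : Polynomial ℝ, p.natDegree = D → p.leadingCoeff = κ →
      ‖∑ x ∈ Finset.range (q ^ k), ex (p.eval ((q : ℝ) ^ (W + m) * x + (q : ℝ) ^ (m + (b + i)))
        - p.eval ((q : ℝ) ^ (W + m) * x + (q : ℝ) ^ (m + (b + j))))‖ ≤ δ * q ^ k := by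
    rw [Filter.eventually_all_finset]
    intro i hi
    rw [Filter.eventually_all_finset]
    intro j hj
    exact h1 i hi j hj
  filter_upwards [h2] with k hk p hpD hpκ i hi j hj hij
  exact hk i (Finset.mem_range.2 hi) j (Finset.mem_range.2 hj) hij p hpD hpκ

/-- several windows -/
theorem t14_iter {G : Type*} [Monoid G] {q m : ℕ} (hq : 2 ≤ q) {γ : ℕ → G}
    (hγ : ∀ a y s : ℕ, s < q ^ a → γ (q ^ (a + m) * y + s) = γ y * γ s) {P R b W J D : ℕ}
    (hD : 2 ≤ D) (hJ : 0 < J)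
    (hbP : P + 1 ≤ q ^ b) (hbR : R + 1 ≤ q ^ b)
    (hWP : P * q ^ (m + (b + J)) + P + 1 ≤ q ^ W) (hWR : R * q ^ (m + (b + J)) + R + 1 ≤ q ^ W)
    (hW : b + J < W) {δ : ℝ} (hδ : 0 < δ) (t : ℕ) : ∀ κ : ℝ, Irrational κ →
    ∀ᶠ k : ℕ in atTop, t14_Bd q P R γ ((W + m) * t + k) D κ
      ((1 - (J : ℝ) / (q : ℝ) ^ (W + m)) ^ t + Real.sqrt (J + (J : ℝ) ^ 2 * δ) / J) := by
  have hQpos := qpow_posR hq (W + m)
  have hJR : (0 : ℝ) < J := by exact_mod_cast hJ
  induction t with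
  | zero =>
    intro κ _
    refine Eventually.of_forall fun k => ?_
    intro h y c d z z' _ _ _ _ F hF p _ _
    refine abs_av_le hq fun n _ => ?_
    rw [abs_mul]
    have h1 : |Real.cos (2 * Real.pi * p.eval (n : ℝ))| *
        |F (γ (q ^ h * (P * (q ^ ((W + m) * 0 + k) * y + n) + c) + z))
          (γ (q ^ h * (R * (q ^ ((W + m) * 0 + k) * y + n) + d) + z'))| ≤ 1 :=
      mul_le_one₀ (Real.abs_cos_le_one _) (abs_nonneg _) (hF _ _)
    have h2 : 0 ≤ Real.sqrt (J + (J : ℝ) ^ 2 * δ) / J := by positivity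
    rw [pow_zero]
    linarith
  | succ t ih =>
    intro κ hκ
    have hκ' : Irrational (κ * ((q : ℝ) ^ (W + m)) ^ D) := by
      have e : (((q ^ (W + m)) ^ D : ℕ) : ℝ) = ((q : ℝ) ^ (W + m)) ^ D := by
        push_cast
        rfl
      rw [← e]
      refine hκ.mul_natCast ?_
      have := qpow_pos hq (W + m)
      positivity
    have hsp := t14_special (m := m) hq (b := b) (W := W) (J := J) hD hκ hδ
    have hsp' := (tendsto_add_atTop_nat ((W + m) * t)).eventually hsp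
    filter_upwards [ih _ hκ', hsp'] with k h1 h2
    have h2' : ∀ p : Polynomial ℝ, p.natDegree = D → p.leadingCoeff = κ →
      ∀ i < J, ∀ j < J, i ≠ j →
      ‖∑ x ∈ Finset.range (q ^ ((W + m) * t + k)),
        ex (p.eval ((q : ℝ) ^ (W + m) * x + (q : ℝ) ^ (m + (b + i)))
        - p.eval ((q : ℝ) ^ (W + m) * x + (q : ℝ) ^ (m + (b + j))))‖
          ≤ δ * q ^ ((W + m) * t + k) := by
      rw [add_comm ((W + m) * t) k]
      exact h2
    have h3 := t14_step hq hγ hbP hbR hWP hWR hW hδ.le h1 h2'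
    have e1 : (W + m) * (t + 1) + k = W + m + ((W + m) * t + k) := by ring
    rw [e1]
    have e2 : (1 - (J : ℝ) / (q : ℝ) ^ (W + m)) ^ (t + 1) +
        Real.sqrt (J + (J : ℝ) ^ 2 * δ) / J
        = (1 - (J : ℝ) / (q : ℝ) ^ (W + m)) * ((1 - (J : ℝ) / (q : ℝ) ^ (W + m)) ^ t +
          Real.sqrt (J + (J : ℝ) ^ 2 * δ) / J) +
          Real.sqrt (J + (J : ℝ) ^ 2 * δ) / (q : ℝ) ^ (W + m) := by
      have e3 : Real.sqrt (J + (J : ℝ) ^ 2 * δ) / (q : ℝ) ^ (W + m)
          = (J : ℝ) / (q : ℝ) ^ (W + m) * (Real.sqrt (J + (J : ℝ) ^ 2 * δ) / J) := by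
        field_simp
      rw [e3, pow_succ]
      ring
    rw [e2]
    exact h3

theorem polytwist {G : Type*} [Monoid G] {q m : ℕ} (hq : 2 ≤ q) {γ : ℕ → G}
    (hγ : ∀ a y s : ℕ, s < q ^ a → γ (q ^ (a + m) * y + s) = γ y * γ s) {P R : ℕ} (hP : 1 ≤ P)
    (hR : 1 ≤ R) {D : ℕ} (hD : 1 ≤ D) {κ : ℝ} (hκ : Irrational κ) {ε : ℝ} (hε : 0 < ε) :
    ∀ᶠ k : ℕ in atTop, ∀ y c d : ℕ, c ≤ P → d ≤ R → ∀ F : G → G → ℝ, (∀ x x', |F x x'| ≤ 1) →
      ∀ p : Polynomial ℝ, p.natDegree = D → p.leadingCoeff = κ →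
        |av q k (fun n => Real.cos (2 * Real.pi * p.eval (n : ℝ)) *
          F (γ (P * (q ^ k * y + n) + c)) (γ (R * (q ^ k * y + n) + d)))| ≤ ε := by
  rcases Nat.lt_or_ge D 2 with h2 | h2
  · -- degree one
    obtain rfl : D = 1 := by omega
    filter_upwards [twistm hq hγ hP hR hκ hε] with k hk y c d hc hd F hF p hpD hpκ
    have h1 := hk y c d hc hd F hF (p.coeff 0)
    refine le_of_eq_of_le ?_ h1
    congr 1
    refine av_congr fun n _ => ?_
    have e : p.eval (n : ℝ) = κ * n + p.coeff 0 := by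
      rw [eval_eq_sum_range, hpD, Finset.sum_range_succ, Finset.sum_range_one, pow_zero, pow_one,
        mul_one]
      have : p.coeff 1 = κ := by
        rw [← hpκ, leadingCoeff, hpD]
      rw [this]
      ring
    rw [e]
  -- parameters
  obtain ⟨b, hb⟩ : ∃ b, b = P + R := ⟨_, rfl⟩
  obtain ⟨J, hJ⟩ := exists_nat_gt (8 / ε ^ 2)
  have hJR : (0 : ℝ) < J := lt_trans (by positivity) hJ
  have hJ0 : 0 < J := by exact_mod_cast hJR
  obtain ⟨W, hW⟩ : ∃ W, W = m + (b + J) + (P + R + 1) := ⟨_, rfl⟩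
  have hpw : ∀ t : ℕ, t + 1 ≤ q ^ t := fun t => Nat.lt_pow_self (by omega)
  have hbP : P + 1 ≤ q ^ b := by
    have := hpw b
    omega
  have hbR : R + 1 ≤ q ^ b := by
    have := hpw b
    omega
  have hpos := qpow_pos hq (m + (b + J))
  have hWW : q ^ (m + (b + J)) * (P + R + 1 + 1) ≤ q ^ W := by
    rw [hW, pow_add q (m + (b + J))]
    exact Nat.mul_le_mul_left _ (hpw (P + R + 1))
  have hX : P + R + 1 ≤ q ^ (m + (b + J)) := by
    have := hpw (m + (b + J))
    omega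
  have hWP : P * q ^ (m + (b + J)) + P + 1 ≤ q ^ W := by
    refine le_trans ?_ hWW
    nlinarith
  have hWR : R * q ^ (m + (b + J)) + R + 1 ≤ q ^ W := by
    refine le_trans ?_ hWW
    nlinarith
  have hbJ : b + J < W := by omega
  have hQpos := qpow_posR hq (W + m)
  -- contraction
  have hJQ : (J : ℝ) < (q : ℝ) ^ (W + m) := by
    have h1 := hpw (W + m)
    have h3 : J < q ^ (W + m) := by omega
    exact_mod_cast h3
  have hρ0 : 0 ≤ 1 - (J : ℝ) / (q : ℝ) ^ (W + m) := by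
    have := (div_le_one hQpos).2 hJQ.le
    linarith
  have hρ1 : 1 - (J : ℝ) / (q : ℝ) ^ (W + m) < 1 := by
    have : 0 < (J : ℝ) / (q : ℝ) ^ (W + m) := by positivity
    linarith
  obtain ⟨t, ht⟩ := exists_pow_lt_of_lt_one (half_pos hε) hρ1
  have hδ : (0 : ℝ) < 1 / J := by positivity
  have hS : Real.sqrt (J + (J : ℝ) ^ 2 * (1 / J)) / J ≤ ε / 2 := by
    rw [div_le_iff₀ hJR]
    refine Real.sqrt_le_iff.2 ⟨by positivity, ?_⟩
    have e1 : (J : ℝ) + (J : ℝ) ^ 2 * (1 / J) = 2 * J := by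
      field_simp
      ring
    rw [e1]
    rw [div_lt_iff₀ (by positivity)] at hJ
    nlinarith
  have hit := t14_iter hq hγ h2 hJ0 hbP hbR hWP hWR hbJ hδ t κ hκ
  obtain ⟨k₀, hk₀⟩ := eventually_atTop.1 hit
  filter_upwards [eventually_ge_atTop ((W + m) * t + k₀)] with k hk y c d hc hd F hF p hpD hpκ
  obtain ⟨l, hl⟩ : ∃ l, k = (W + m) * t + l := ⟨k - (W + m) * t, by omega⟩
  have h3 := hk₀ l (by omega)
  rw [← hl] at h3
  have h4 := h3 0 y c d 0 0 hc hd (by simp) (by simp) F hF p hpD hpκ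
  have h5 : |av q k (fun n => Real.cos (2 * Real.pi * p.eval (n : ℝ)) *
      F (γ (P * (q ^ k * y + n) + c)) (γ (R * (q ^ k * y + n) + d)))|
      = |av q k (fun n => Real.cos (2 * Real.pi * p.eval (n : ℝ)) *
        F (γ (q ^ 0 * (P * (q ^ k * y + n) + c) + 0))
          (γ (q ^ 0 * (R * (q ^ k * y + n) + d) + 0)))| := by
    simp only [pow_zero, one_mul, add_zero]
  rw [h5]
  refine h4.trans ?_
  linarith

end Pool.Agent.Lib.MP_3e612f_nt.SA
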