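import Pool.Agent.Lib.MP_3e612f_nt.SFinal
import Pool.Agent.Lib.MP_3e612f_nt.PTwist

/-!
Polynomial phases: blocks for pairs of primes.
-/

set_option autoImplicit false

namespace Pool.Agent.Lib.MP_3e612f_nt.SA

open Filter Topology QA Polynomial

theorem comp_lin {p : Polynomial ℝ} (a s : ℝ) (ha : a ≠ 0) :
    (p.comp (C a * X + C s)).natDegree = p.natDegree ∧
      (p.comp (C a * X + C s)).leadingCoeff = p.leadingCoeff * a ^ p.natDegree := by
  have h1 : (C a * X + C s : Polynomial ℝ).natDegree = 1 := natDegree_linear ha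
  constructor
  · rw [natDegree_comp, h1, mul_one]
  · rw [leadingCoeff_comp (by rw [h1]; exact one_ne_zero), leadingCoeff_linear ha]

theorem comp_pm {p : Polynomial ℝ} {a b s t ε : ℝ} (ha : a ≠ 0) (hb : b ≠ 0)
    (hne : a ^ p.natDegree + ε * b ^ p.natDegree ≠ 0) (hp : p.leadingCoeff ≠ 0) :
    (p.comp (C a * X + C s) + C ε * p.comp (C b * X + C t)).natDegree = p.natDegree ∧
      (p.comp (C a * X + C s) + C ε * p.comp (C b * X + C t)).leadingCoeff =
        p.leadingCoeff * (a ^ p.natDegree + ε * b ^ p.natDegree) := by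
  obtain ⟨h1, h2⟩ := comp_lin (p := p) a s ha
  obtain ⟨h3, h4⟩ := comp_lin (p := p) b t hb
  set u := p.comp (C a * X + C s) with hu
  set v := p.comp (C b * X + C t) with hv
  have hcu : u.coeff p.natDegree = p.leadingCoeff * a ^ p.natDegree := by
    rw [← h2, leadingCoeff, h1]
  have hcv : v.coeff p.natDegree = p.leadingCoeff * b ^ p.natDegree := by
    rw [← h4, leadingCoeff, h3]
  have hc : (u + C ε * v).coeff p.natDegree =
      p.leadingCoeff * (a ^ p.natDegree + ε * b ^ p.natDegree) := by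
    rw [coeff_add, coeff_C_mul, hcu, hcv]
    ring
  have hle : (u + C ε * v).natDegree ≤ p.natDegree := by
    refine (natDegree_add_le _ _).trans (max_le h1.le ?_)
    exact (natDegree_C_mul_le _ _).trans h3.le
  have hge : p.natDegree ≤ (u + C ε * v).natDegree := by
    refine le_natDegree_of_ne_zero ?_
    rw [hc]
    exact mul_ne_zero hp hne
  have heq := le_antisymm hle hge
  exact ⟨heq, by rw [leadingCoeff, heq, hc]⟩

theorem cast_sub_pow {r p M D : ℕ} (h : p ^ D ≤ r ^ D) :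
    ((r : ℝ) * M) ^ D + (-1) * ((p : ℝ) * M) ^ D = (((r ^ D - p ^ D) * M ^ D : ℕ) : ℝ) := by
  rw [Nat.cast_mul, Nat.cast_sub h]
  push_cast
  ring

theorem cast_add_pow {r p M D : ℕ} :
    ((r : ℝ) * M) ^ D + 1 * ((p : ℝ) * M) ^ D = (((r ^ D + p ^ D) * M ^ D : ℕ) : ℝ) := by
  push_cast
  ring

/-- the function in the class `b` modulo `q ^ h * (q - 1)` with a polynomial phase -/
noncomputable def pf {G : Type*} (q h b : ℕ) (γ : ℕ → G) (B : G → ℝ) (p : Polynomial ℝ)
    (n : ℕ) : ℝ :=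
  Real.cos (2 * Real.pi * p.eval (n : ℝ)) *
    (if n % (q ^ h * (q - 1)) = b then B (γ (n / q ^ h)) else 0)

theorem pf_abs {G : Type*} {q h b : ℕ} {γ : ℕ → G} {B : G → ℝ} {p : Polynomial ℝ}
    (hB : ∀ x, |B x| ≤ 1) (n : ℕ) : |pf q h b γ B p n| ≤ 1 := by
  unfold pf
  rw [abs_mul]
  refine mul_le_one₀ (Real.abs_cos_le_one _) (abs_nonneg _) ?_
  split_ifs
  · exact hB _
  · simp

/-- blocks of the product of the values at the multiples by two primes -/
theorem pf_blocks {G : Type*} [Monoid G] {q m : ℕ} (hq : 2 ≤ q) {γ : ℕ → G}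
    (hγ : ∀ a y s : ℕ, s < q ^ a → γ (q ^ (a + m) * y + s) = γ y * γ s) {P : Polynomial ℝ}
    (hdeg : 1 ≤ P.natDegree) (hP : Irrational P.leadingCoeff) (h b : ℕ) {B : G → ℝ}
    (hB : ∀ x, |B x| ≤ 1) {p r : ℕ} (hp : 1 ≤ p) (hpr : p < r) (t : ℕ) {ε : ℝ} (hε : 0 < ε) :
    ∀ᶠ k : ℕ in atTop, ∀ y : ℕ, q ^ t ≤ y → y < q ^ (t + 1) → ∀ i < q ^ h * (q - 1),
      |av q k (fun n => pf q h b γ B P (p * (q ^ h * (q - 1) * (q ^ k * y + n) + i)) *
        pf q h b γ B P (r * (q ^ h * (q - 1) * (q ^ k * y + n) + i)))| ≤ 0 + ε := by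
  have hM : 0 < q ^ h * (q - 1) := Nat.mul_pos (by positivity) (by omega)
  have hqh : 0 < q ^ h := by positivity
  set M : ℕ := q ^ h * (q - 1) with hMdef
  set D : ℕ := P.natDegree with hD
  have hr : 1 ≤ r := by omega
  have hpow : p ^ D < r ^ D := Nat.pow_lt_pow_left hpr (by omega)
  have e1 := cast_sub_pow (M := M) hpow.le
  have e2 := cast_add_pow (r := r) (p := p) (M := M) (D := D)
  have n1 : (r ^ D - p ^ D) * M ^ D ≠ 0 := Nat.mul_ne_zero (by omega) (by positivity)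
  have n2 : (r ^ D + p ^ D) * M ^ D ≠ 0 := Nat.mul_ne_zero (by omega) (by positivity)
  have i1 : Irrational (P.leadingCoeff * (((r : ℝ) * M) ^ D + (-1) * ((p : ℝ) * M) ^ D)) := by
    rw [e1]
    exact hP.mul_natCast n1
  have i2 : Irrational (P.leadingCoeff * (((r : ℝ) * M) ^ D + 1 * ((p : ℝ) * M) ^ D)) := by
    rw [e2]
    exact hP.mul_natCast n2
  have hP0 : P.leadingCoeff ≠ 0 := hP.ne_zero
  have hpM : (p : ℝ) * M ≠ 0 := by
    have h1 : (0 : ℝ) < p := by exact_mod_cast hp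
    have h2 : (0 : ℝ) < M := by exact_mod_cast hM
    positivity
  have hrM : (r : ℝ) * M ≠ 0 := by
    have h1 : (0 : ℝ) < r := by exact_mod_cast hr
    have h2 : (0 : ℝ) < M := by exact_mod_cast hM
    positivity
  have hp1 : 1 ≤ p * (q - 1) := Nat.mul_pos hp (by omega)
  have hr1 : 1 ≤ r * (q - 1) := Nat.mul_pos hr (by omega)
  filter_upwards [polytwist hq hγ hp1 hr1 hdeg i1 hε, polytwist hq hγ hp1 hr1 hdeg i2 hε]
    with k hk1 hk2 y _ _ i hi
  set F : G → G → ℝ := fun x x' => (if (p * i) % M = b then B x else 0) *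
    (if (r * i) % M = b then B x' else 0) with hF
  have hF1 : ∀ x x', |F x x'| ≤ 1 := by
    intro x x'
    rw [hF]
    simp only
    rw [abs_mul]
    refine mul_le_one₀ ?_ (abs_nonneg _) ?_
    · split_ifs
      · exact hB _
      · simp
    · split_ifs
      · exact hB _
      · simp
  have hside : ∀ s : ℕ, (s * i) / q ^ h ≤ s * (q - 1) := by
    intro s
    refine Nat.div_le_of_le_mul ?_
    calc s * i ≤ s * (q ^ h * (q - 1)) := Nat.mul_le_mul_left _ hi.le
      _ = q ^ h * (s * (q - 1)) := by ring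
  -- the two polynomials
  set sp : ℝ := (p : ℝ) * (M * (q ^ k * y) + i) with hsp
  set sr : ℝ := (r : ℝ) * (M * (q ^ k * y) + i) with hsr
  obtain ⟨d1, c1⟩ := comp_pm (p := P) (a := (r : ℝ) * M) (b := (p : ℝ) * M) (s := sr) (t := sp)
    (ε := -1) hrM hpM (by rw [← hD, e1]; exact_mod_cast n1) hP0
  obtain ⟨d2, c2⟩ := comp_pm (p := P) (a := (r : ℝ) * M) (b := (p : ℝ) * M) (s := sr) (t := sp)
    (ε := 1) hrM hpM (by rw [← hD, e2]; exact_mod_cast n2) hP0
  have k1 := hk1 y (p * i / q ^ h) (r * i / q ^ h) (hside p) (hside r) F hF1 _ d1 c1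
  have k2 := hk2 y (p * i / q ^ h) (r * i / q ^ h) (hside p) (hside r) F hF1 _ d2 c2
  set R1 := P.comp (C ((r : ℝ) * M) * X + C sr) + C (-1) * P.comp (C ((p : ℝ) * M) * X + C sp)
    with hR1
  set R2 := P.comp (C ((r : ℝ) * M) * X + C sr) + C 1 * P.comp (C ((p : ℝ) * M) * X + C sp)
    with hR2
  have hval : ∀ (s n : ℕ), (P.comp (C ((s : ℝ) * M) * X + C ((s : ℝ) * (M * (q ^ k * y) + i)))).eval
      (n : ℝ) = P.eval ((s * (M * (q ^ k * y + n) + i) : ℕ) : ℝ) := by
    intro s n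
    rw [eval_comp]
    congr 1
    simp only [eval_add, eval_mul, eval_C, eval_X]
    push_cast
    ring
  have hv1 : ∀ n : ℕ, R1.eval (n : ℝ) = P.eval ((r * (M * (q ^ k * y + n) + i) : ℕ) : ℝ) -
      P.eval ((p * (M * (q ^ k * y + n) + i) : ℕ) : ℝ) := by
    intro n
    rw [hR1, eval_add, eval_mul, eval_C, hval r n, hval p n]
    ring
  have hv2 : ∀ n : ℕ, R2.eval (n : ℝ) = P.eval ((r * (M * (q ^ k * y + n) + i) : ℕ) : ℝ) +
      P.eval ((p * (M * (q ^ k * y + n) + i) : ℕ) : ℝ) := by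
    intro n
    rw [hR2, eval_add, eval_mul, eval_C, hval r n, hval p n]
    ring
  have hgs : ∀ s n : ℕ, (if (s * (M * (q ^ k * y + n) + i)) % M = b then
      B (γ ((s * (M * (q ^ k * y + n) + i)) / q ^ h)) else 0) =
      if (s * i) % M = b then B (γ (s * (q - 1) * (q ^ k * y + n) + s * i / q ^ h)) else 0 := by
    intro s n
    have e1 : (s * (M * (q ^ k * y + n) + i)) % M = (s * i) % M := by
      have h1 : s * (M * (q ^ k * y + n) + i) = s * i + M * (s * (q ^ k * y + n)) := by ring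
      rw [h1, Nat.add_mul_mod_self_left]
    rw [e1, hMdef, side_div hq]
  have e3 : (fun n => pf q h b γ B P (p * (M * (q ^ k * y + n) + i)) *
      pf q h b γ B P (r * (M * (q ^ k * y + n) + i))) = fun n : ℕ =>
      (Real.cos (2 * Real.pi * R1.eval (n : ℝ)) *
        F (γ (p * (q - 1) * (q ^ k * y + n) + p * i / q ^ h))
          (γ (r * (q - 1) * (q ^ k * y + n) + r * i / q ^ h)) +
      Real.cos (2 * Real.pi * R2.eval (n : ℝ)) *
        F (γ (p * (q - 1) * (q ^ k * y + n) + p * i / q ^ h))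
          (γ (r * (q - 1) * (q ^ k * y + n) + r * i / q ^ h))) / 2 := by
    funext n
    unfold pf
    rw [← hMdef, hgs p n, hgs r n, hv1, hv2]
    have hc : ∀ A B : ℝ, Real.cos (2 * Real.pi * A) * Real.cos (2 * Real.pi * B) =
        (Real.cos (2 * Real.pi * (B - A)) + Real.cos (2 * Real.pi * (B + A))) / 2 := fun A B => by
      rw [mul_sub, mul_add, Real.cos_sub, Real.cos_add]
      ring
    rw [mul_mul_mul_comm, hc]
    simp only [hF]
    ring
  rw [e3, av_div, av_add, abs_div, abs_of_pos (by norm_num : (0 : ℝ) < 2),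
    div_le_iff₀ (by norm_num)]
  refine (abs_add_le _ _).trans ?_
  linarith

theorem core_poly {G : Type*} [Monoid G] {q m : ℕ} (hq : 2 ≤ q) {γ : ℕ → G}
    (hγ : ∀ a y s : ℕ, s < q ^ a → γ (q ^ (a + m) * y + s) = γ y * γ s) {p : Polynomial ℝ}
    (hdeg : 1 ≤ p.natDegree) (hp : Irrational p.leadingCoeff) (h b : ℕ) {B : G → ℝ}
    (hB : ∀ x, |B x| ≤ 1) :
    Tendsto (LogAvg fun n => mu n * (Real.cos (2 * Real.pi * p.eval (n : ℝ)) *
      (if n % (q ^ h * (q - 1)) = b then B (γ (n / q ^ h)) else 0))) atTop (𝓝 0) := by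
  have hM : 1 ≤ q ^ h * (q - 1) := Nat.mul_pos (by positivity) (by omega)
  refine katai_log' (K := 0) (b := pf q h b γ B p) (fun n => (pf_abs hB n).trans (by norm_num))
    fun ε hε => ⟨1, fun s r hs hr _ _ hsr => ?_⟩
  have hblock := block_log (q := q) (M := q ^ h * (q - 1)) hq hM
    (u := fun n => pf q h b γ B p (s * n) * pf q h b γ B p (r * n)) (A := 1)
    (fun n => by
      rw [abs_mul]
      exact mul_le_one₀ (pf_abs hB _) (abs_nonneg _) (pf_abs hB _))
    (η := 0) le_rfl (fun t ε₂ hε₂ => pf_blocks hq hγ hdeg hp h b hB hs.one_le hsr t hε₂) hε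
  filter_upwards [hblock] with N hN
  rw [mul_zero, zero_add] at hN
  exact hN

end Pool.Agent.Lib.MP_3e612f_nt.SA
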