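import Pool.Agent.Lib.MP_3e612f_nt.SFinal

/-!
Convergence for every bounded test function implies convergence for sequences of test functions
(the Schur property of the space of summable functions).
-/

set_option autoImplicit false

namespace Pool.Agent.Lib.MP_3e612f_nt.SA

open Filter Topology

/-- the averages of a test function -/
noncomputable def tst {Z : Type*} (w : ℕ → Z) (c L : ℕ → ℂ) (N : ℕ) (Φ : Z → ℂ) : ℂ :=
  L N * ∑ n ∈ Finset.Icc 1 N, c n * Φ (w n)

theorem tst_sub {Z : Type*} (w : ℕ → Z) (c L : ℕ → ℂ) (N : ℕ) (Φ Φ' : Z → ℂ) :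
    tst w c L N (fun z => Φ z - Φ' z) = tst w c L N Φ - tst w c L N Φ' := by
  unfold tst
  rw [← mul_sub, ← Finset.sum_sub_distrib]
  congr 1
  exact Finset.sum_congr rfl fun n _ => mul_sub _ _ _

open Classical in
theorem tst_finite {Z : Type*} (w : ℕ → Z) (c L : ℕ → ℂ)
    (h : ∀ (B : ℝ) (Φ : Z → ℂ), (∀ z, ‖Φ z‖ ≤ B) → Tendsto (fun N => tst w c L N Φ) atTop (𝓝 0))
    (F : Finset Z) (B : ℝ) {δ : ℝ} (hδ : 0 < δ) :
    ∀ᶠ N : ℕ in atTop, ∀ Φ : Z → ℂ, (∀ z, ‖Φ z‖ ≤ B) → (∀ z, z ∉ F → Φ z = 0) →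
      ‖tst w c L N Φ‖ ≤ δ := by
  have h1 : Tendsto (fun N => ∑ z ∈ F, B * ‖tst w c L N (fun z' => if z' = z then 1 else 0)‖)
      atTop (𝓝 0) := by
    have h2 := tendsto_finsetSum F (f := fun z (N : ℕ) =>
      B * ‖tst w c L N (fun z' => if z' = z then 1 else 0)‖) (a := fun _ => 0) (x := atTop)
      (fun z _ => by
        have h3 := (h 1 (fun z' => if z' = z then 1 else 0) (fun z' => by
          split_ifs <;> simp)).norm.const_mul B
        simpa using h3)
    simpa using h2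
  filter_upwards [h1.eventually_le_const hδ] with N hN Φ hΦ hF
  refine le_trans ?_ hN
  have h2 : tst w c L N Φ = ∑ z ∈ F, Φ z * tst w c L N (fun z' => if z' = z then 1 else 0) := by
    unfold tst
    simp_rw [← mul_assoc, mul_comm (Φ _) (L N), mul_assoc]
    rw [← Finset.mul_sum]
    congr 1
    simp_rw [Finset.mul_sum]
    rw [Finset.sum_comm]
    refine Finset.sum_congr rfl fun n _ => ?_
    have h3 : ∀ z ∈ F, Φ z * (c n * (if w n = z then 1 else 0)) =
        if w n = z then c n * Φ (w n) else 0 := by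
      intro z _
      split_ifs with hz
      · rw [hz]
        ring
      · ring
    rw [Finset.sum_congr rfl h3, Finset.sum_ite_eq]
    split_ifs with hm
    · rfl
    · rw [hF _ hm, mul_zero]
  rw [h2]
  refine (norm_sum_le _ _).trans (Finset.sum_le_sum fun z _ => ?_)
  rw [norm_mul]
  exact mul_le_mul_of_nonneg_right (hΦ z) (norm_nonneg _)

open Classical in
theorem schur {Z : Type*} (w : ℕ → Z) (c L : ℕ → ℂ)
    (h : ∀ (B : ℝ) (Φ : Z → ℂ), (∀ z, ‖Φ z‖ ≤ B) → Tendsto (fun N => tst w c L N Φ) atTop (𝓝 0))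
    (Φ : ℕ → Z → ℂ) {B : ℝ} (hΦ : ∀ N z, ‖Φ N z‖ ≤ B) :
    Tendsto (fun N => tst w c L N (Φ N)) atTop (𝓝 0) := by
  rw [Metric.tendsto_nhds]
  by_contra hcon
  push Not at hcon
  obtain ⟨ε, hε, hfr⟩ := hcon
  set F : ℕ → Finset Z := fun M => (Finset.Icc 1 M).image w with hF
  have hstep : ∀ M : ℕ, ∃ N : ℕ, M < N ∧ ε ≤ ‖tst w c L N (Φ N)‖ ∧
      ∀ Φ' : Z → ℂ, (∀ z, ‖Φ' z‖ ≤ 2 * B) → (∀ z, z ∉ F M → Φ' z = 0) →
        ‖tst w c L N Φ'‖ ≤ ε / 2 := by
    intro M
    have h1 := tst_finite w c L h (F M) (2 * B) (half_pos hε)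
    obtain ⟨N, hN1, hN2, hN3⟩ := (hfr.and_eventually (h1.and (eventually_gt_atTop M))).exists
    refine ⟨N, hN3, ?_, hN2⟩
    rw [dist_zero_right] at hN1
    exact hN1
  choose g hg1 hg2 hg3 using hstep
  set N : ℕ → ℕ := fun i => g^[i] 0 with hN
  have hNs : ∀ i, N (i + 1) = g (N i) := fun i => Function.iterate_succ_apply' g i 0
  have hmono : StrictMono N := strictMono_nat_of_lt_succ fun i => by
    rw [hNs]
    exact hg1 _
  have hFmono : ∀ i j, i ≤ j → F (N i) ⊆ F (N j) := fun i j hij =>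
    Finset.image_subset_image (Finset.Icc_subset_Icc_right (hmono.monotone hij))
  set Ψ : Z → ℂ := fun z => if hz : ∃ i, z ∈ F (N i) then Φ (N (Nat.find hz)) z else 0 with hΨ
  have hB : 0 ≤ B := (norm_nonneg _).trans (hΦ 0 (w 0))
  have hΨB : ∀ z, ‖Ψ z‖ ≤ B := by
    intro z
    rw [hΨ]
    simp only
    split_ifs
    · exact hΦ _ _
    · simpa using hB
  have hlow : ∀ i, ε / 2 ≤ ‖tst w c L (N (i + 1)) Ψ‖ := by
    intro i
    set Φ' : Z → ℂ := fun z => if z ∈ F (N i) then Ψ z - Φ (N (i + 1)) z else 0 with hΦ'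
    have h1 : tst w c L (N (i + 1)) (fun z => Ψ z - Φ (N (i + 1)) z) =
        tst w c L (N (i + 1)) Φ' := by
      unfold tst
      congr 1
      refine Finset.sum_congr rfl fun n hn => ?_
      congr 1
      rw [hΦ']
      simp only
      by_cases hm : w n ∈ F (N i)
      · rw [if_pos hm]
      · rw [if_neg hm]
        have hm' : w n ∈ F (N (i + 1)) := Finset.mem_image_of_mem w hn
        have hex : ∃ j, w n ∈ F (N j) := ⟨i + 1, hm'⟩
        have hfind : Nat.find hex = i + 1 := by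
          rw [Nat.find_eq_iff]
          refine ⟨hm', fun j hj hj' => hm (hFmono j i (by omega) hj')⟩
        have h2 : Ψ (w n) = Φ (N (i + 1)) (w n) := by
          rw [hΨ]
          simp only
          rw [dif_pos hex, hfind]
        rw [h2, sub_self]
    have h3 : ‖tst w c L (N (i + 1)) Φ'‖ ≤ ε / 2 := by
      rw [hNs]
      refine hg3 (N i) Φ' (fun z => ?_) fun z hz => ?_
      · rw [hΦ']
        simp only
        split_ifs
        · refine (norm_sub_le _ _).trans ?_
          linarith [hΨB z, hΦ (N (i + 1)) z]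
        · simpa using hB
      · rw [hΦ']
        simp only
        rw [if_neg hz]
    have h4 : ε ≤ ‖tst w c L (N (i + 1)) (Φ (N (i + 1)))‖ := by
      rw [hNs]
      exact hg2 (N i)
    rw [tst_sub] at h1
    have h5 : tst w c L (N (i + 1)) (Φ (N (i + 1))) = tst w c L (N (i + 1)) Ψ -
        tst w c L (N (i + 1)) Φ' := by
      rw [← h1]
      ring
    rw [h5] at h4
    have h6 := norm_sub_le (tst w c L (N (i + 1)) Ψ) (tst w c L (N (i + 1)) Φ')
    linarith
  have h1 := (h B Ψ hΨB).comp ((tendsto_add_atTop_iff_nat 1).mpr hmono.tendsto_atTop)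
  have h2 := (Metric.tendsto_nhds.mp h1 (ε / 2) (half_pos hε)).exists
  obtain ⟨i, hi⟩ := h2
  rw [dist_zero_right] at hi
  exact absurd (hlow i) (not_le.mpr hi)

/-- the theorem, with test functions which depend on `N` -/
theorem complex_seq {q m d : ℕ} (hq : 2 ≤ q) {A : Type*} {a : ℕ → A}
    (ha : {g : ℕ → A | ∃ k r : ℕ, r < q ^ k ∧ g = fun n => a (q ^ k * n + r)}.Finite)
    {e : ℕ → Fin d → ℤ} {C : ℝ} (he : QA.QV q m e C) (α : ℝ)
    {Ψ : ℕ → A → (Fin d → ℤ) → ℂ} {B : ℝ} (hΨ : ∀ N x v, ‖Ψ N x v‖ ≤ B) :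
    Tendsto (fun N : ℕ => (1 / Real.log N : ℂ) * ∑ n ∈ Finset.Icc 1 N,
      Complex.exp (2 * Real.pi * Complex.I * (α * n)) * Ψ N (a n) (e n) *
        (ArithmeticFunction.moebius n : ℂ) / n) atTop (𝓝 0) := by
  have h1 := schur (Z := A × (Fin d → ℤ)) (fun n => (a n, e n))
    (fun n => Complex.exp (2 * Real.pi * Complex.I * (α * n)) *
      (ArithmeticFunction.moebius n : ℂ) / n) (fun N => (1 / Real.log N : ℂ))
    (fun B' Φ hΦ => by
      refine (complex_main hq ha he α (Ψ := fun x v => Φ (x, v)) fun x v => hΦ (x, v)).congr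
        fun N => ?_
      unfold tst
      congr 1
      exact Finset.sum_congr rfl fun n _ => by ring)
    (fun N z => Ψ N z.1 z.2) (B := B) (fun N z => hΨ N z.1 z.2)
  refine h1.congr fun N => ?_
  unfold tst
  congr 1
  exact Finset.sum_congr rfl fun n _ => by ring

end Pool.Agent.Lib.MP_3e612f_nt.SA
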