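import Pool.Agent.Lib.MP_3e612f_nt.CKatai
import Pool.Agent.Lib.MP_3e612f_nt.CBlock
import Pool.Agent.Lib.MP_3e612f_nt.PCore
import Pool.Agent.Lib.MP_3e612f_nt.SSchur

/-!
The Möbius function is orthogonal (ordinary averages) to the products of an irrational polynomial
phase and an arbitrary bounded function which does not depend on the lengths of the long runs of
the digit `0`.
-/

set_option autoImplicit false

namespace Pool.Agent.Lib.MP_3e612f_nt.CA

open Filter Topology QA SA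

/-- functions which do not depend on the lengths of the long runs of zeros -/
def Ins {E : Type*} (q m : ℕ) (f : ℕ → E) : Prop :=
  ∀ k y s : ℕ, s < q ^ k → f (q ^ (k + 1 + m) * y + s) = f (q ^ (k + m) * y + s)

theorem Ins.add {E : Type*} {q m : ℕ} (hq : 2 ≤ q) {f : ℕ → E} (hf : Ins q m f)
    (j k y s : ℕ) (hs : s < q ^ k) : f (q ^ (k + j + m) * y + s) = f (q ^ (k + m) * y + s) := by
  induction j with
  | zero => rfl
  | succ j ih =>
    have h1 := hf (k + j) y s (lt_of_lt_of_le hs (Nat.pow_le_pow_right (by omega) (by omega)))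
    have e1 : k + (j + 1) + m = k + j + 1 + m := by ring
    rw [e1, h1, ih]

theorem Ins.eq {E : Type*} {q m : ℕ} (hq : 2 ≤ q) {f : ℕ → E} (hf : Ins q m f)
    {k k' y s : ℕ} (hs : s < q ^ k) (hs' : s < q ^ k') :
    f (q ^ (k + m) * y + s) = f (q ^ (k' + m) * y + s) := by
  rcases le_total k k' with h | h
  · obtain ⟨j, rfl⟩ : ∃ j, k' = k + j := ⟨k' - k, by omega⟩
    exact (hf.add hq j k y s hs).symm
  · obtain ⟨j, rfl⟩ : ∃ j, k = k' + j := ⟨k - k', by omega⟩
    exact hf.add hq j k' y s hs'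

theorem Ins.pow {E : Type*} {q m : ℕ} (hq : 2 ≤ q) {f : ℕ → E} (hf : Ins q m f) {w : ℕ}
    (hw : 1 ≤ w) : Ins (q ^ w) m f := by
  intro k y s hs
  obtain ⟨v, rfl⟩ : ∃ v, w = v + 1 := ⟨w - 1, by omega⟩
  have e1 : (q ^ (v + 1)) ^ (k + 1 + m) = q ^ (((v + 1) * k + v * m + (v + 1)) + m) := by
    rw [← pow_mul]
    congr 1
    ring
  have e2 : (q ^ (v + 1)) ^ (k + m) = q ^ (((v + 1) * k + v * m) + m) := by
    rw [← pow_mul]
    congr 1
    ring
  rw [← pow_mul] at hs
  rw [e1, e2]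
  exact hf.eq hq (lt_of_lt_of_le hs (Nat.pow_le_pow_right (by omega) (by omega)))
    (lt_of_lt_of_le hs (Nat.pow_le_pow_right (by omega) (by omega)))

/-- the bounded real functions which do not depend on the lengths of the long runs of zeros -/
def XI (q m : ℕ) : Type := {g : ℕ → ℝ // Ins q m g ∧ ∀ n, |g n| ≤ 1}

theorem shift_ins {q m : ℕ} {g : ℕ → ℝ} (hg : Ins q m g) {h z : ℕ} (hz : z < q ^ h) :
    Ins q m fun y => g (q ^ h * y + z) := by
  intro k y s hs
  have e1 : q ^ h * (q ^ (k + 1 + m) * y + s) + z = q ^ ((h + k) + 1 + m) * y + (q ^ h * s + z) := by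
    ring
  have e2 : q ^ h * (q ^ (k + m) * y + s) + z = q ^ ((h + k) + m) * y + (q ^ h * s + z) := by
    ring
  simp only
  rw [e1, e2]
  refine hg (h + k) y _ ?_
  calc q ^ h * s + z < q ^ h * s + q ^ h := by omega
    _ = q ^ h * (s + 1) := by ring
    _ ≤ q ^ h * q ^ k := Nat.mul_le_mul_left _ hs
    _ = q ^ (h + k) := (pow_add _ _ _).symm

/-- the operator attached to an integer -/
def op {q m : ℕ} (hq : 2 ≤ q) (n : ℕ) : Function.End (XI q m) := fun g =>
  ⟨fun y => g.1 (q ^ (n + m) * y + n),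
    shift_ins g.2.1 (lt_of_lt_of_le (Nat.lt_pow_self (by omega) : n < q ^ n)
      (Nat.pow_le_pow_right (by omega) (by omega))), fun _ => g.2.2 _⟩

theorem op_val {q m : ℕ} (hq : 2 ≤ q) (n : ℕ) (g : XI q m) : ((op hq n) g).1 0 = g.1 n := by
  unfold op
  simp

theorem op_mul {q m : ℕ} (hq : 2 ≤ q) (a y s : ℕ) (hs : s < q ^ a) :
    (op hq (q ^ (a + m) * y + s) : Function.End (XI q m)) = op hq y * op hq s := by
  funext g
  apply Subtype.ext
  funext x
  have hn : ∀ n : ℕ, n < q ^ n := fun n => Nat.lt_pow_self (by omega)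
  show g.1 (q ^ (q ^ (a + m) * y + s + m) * x + (q ^ (a + m) * y + s)) =
    g.1 (q ^ (s + m) * (q ^ (y + m) * x + y) + s)
  have h1 := g.2.1.eq hq (k := s) (k' := a) (y := q ^ (y + m) * x + y) (hn s) hs
  rw [h1]
  have e1 : q ^ (a + m) * (q ^ (y + m) * x + y) + s =
      q ^ ((a + m + y) + m) * x + (q ^ (a + m) * y + s) := by ring
  rw [e1]
  refine g.2.1.eq hq (hn _) ?_
  calc q ^ (a + m) * y + s < q ^ (a + m) * y + q ^ (a + m) := by
        have : q ^ a ≤ q ^ (a + m) := Nat.pow_le_pow_right (by omega) (by omega)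
        omega
    _ = q ^ (a + m) * (y + 1) := by ring
    _ ≤ q ^ (a + m) * q ^ y := Nat.mul_le_mul_left _ (hn y)
    _ = q ^ (a + m + y) := (pow_add _ _ _).symm

/-- a polynomial with an irrational coefficient -/
theorem poly_split_irr (P : Polynomial ℝ) (hP : ∃ i, 1 ≤ i ∧ Irrational (P.coeff i)) :
    ∃ (P₁ P₂ : Polynomial ℝ) (Q : ℕ), P = P₁ + P₂ ∧ 1 ≤ Q ∧ 1 ≤ P₁.natDegree ∧
      Irrational P₁.leadingCoeff ∧
      ∀ n : ℕ, ∃ j : ℤ, P₂.eval (n : ℝ) = P₂.eval ((n % Q : ℕ) : ℝ) + j := by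
  induction hD : P.natDegree using Nat.strong_induction_on generalizing P with
  | _ D ih =>
    obtain ⟨i, hi1, hi⟩ := hP
    have hiD : i ≤ P.natDegree := Polynomial.le_natDegree_of_ne_zero hi.ne_zero
    by_cases hirr : Irrational P.leadingCoeff
    · exact ⟨P, 0, 1, by simp, le_rfl, by omega, hirr, fun n => ⟨0, by simp⟩⟩
    have hne : i ≠ P.natDegree := by
      rintro rfl
      exact hirr hi
    have hlt : P.eraseLead.natDegree < D := by
      have := P.eraseLead_natDegree_le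
      omega
    have hcoeff : P.eraseLead.coeff i = P.coeff i := Polynomial.eraseLead_coeff_of_ne i hne
    rw [Irrational, not_not] at hirr
    obtain ⟨q, hq⟩ := hirr
    obtain ⟨P₁, P₂, Q, hP, hQ, hP₁, hP₁', hP₂⟩ := ih _ hlt P.eraseLead
      ⟨i, hi1, by rw [hcoeff]; exact hi⟩ rfl
    refine ⟨P₁, P₂ + Polynomial.monomial P.natDegree P.leadingCoeff, Q * q.den, ?_, ?_, hP₁,
      hP₁', ?_⟩
    · rw [← add_assoc, ← hP, P.eraseLead_add_monomial_natDegree_leadingCoeff]
    · exact Nat.mul_pos hQ q.den_pos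
    · intro n
      obtain ⟨j1, hj1⟩ := hP₂ n
      obtain ⟨j2, hj2⟩ := hP₂ (n % (Q * q.den))
      rw [Nat.mod_mul_right_mod] at hj2
      have hdvd : ((q.den : ℤ)) ∣ (n : ℤ) ^ P.natDegree -
          ((n % (Q * q.den) : ℕ) : ℤ) ^ P.natDegree := by
        refine dvd_trans ?_ (sub_dvd_pow_sub_pow _ _ _)
        refine dvd_trans (b := ((Q * q.den : ℕ) : ℤ)) ⟨Q, by push_cast; ring⟩ ?_
        rw [Int.natCast_mod]
        exact Int.dvd_self_sub_emod
      obtain ⟨c, hc⟩ := hdvd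
      refine ⟨j1 - j2 + q.num * c, ?_⟩
      have hcR : (n : ℝ) ^ P.natDegree - ((n % (Q * q.den) : ℕ) : ℝ) ^ P.natDegree =
          q.den * c := by
        have := congrArg (Int.cast : ℤ → ℝ) hc
        push_cast at this ⊢
        exact_mod_cast this
      have hqR : P.leadingCoeff * q.den = q.num := by
        rw [← hq]
        exact_mod_cast Rat.mul_den_eq_num q
      rw [Polynomial.eval_add, Polynomial.eval_add, Polynomial.eval_monomial,
        Polynomial.eval_monomial, hj1, hj2]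
      have : P.leadingCoeff * (n : ℝ) ^ P.natDegree =
          P.leadingCoeff * ((n % (Q * q.den) : ℕ) : ℝ) ^ P.natDegree + q.num * c := by
        have h1 : (n : ℝ) ^ P.natDegree = ((n % (Q * q.den) : ℕ) : ℝ) ^ P.natDegree +
            q.den * c := by linarith
        rw [h1, mul_add, ← mul_assoc, hqR]
      rw [this]
      push_cast
      ring

theorem core_ces {G : Type*} [Monoid G] {q m : ℕ} (hq : 2 ≤ q) {γ : ℕ → G}
    (hγ : ∀ a y s : ℕ, s < q ^ a → γ (q ^ (a + m) * y + s) = γ y * γ s) {p : Polynomial ℝ}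
    (hdeg : 1 ≤ p.natDegree) (hp : Irrational p.leadingCoeff) (h b : ℕ) {B : G → ℝ}
    (hB : ∀ x, |B x| ≤ 1) :
    Tendsto (CesAvg fun n => mu n * (Real.cos (2 * Real.pi * p.eval (n : ℝ)) *
      (if n % (q ^ h * (q - 1)) = b then B (γ (n / q ^ h)) else 0))) atTop (𝓝 0) := by
  have hM : 1 ≤ q ^ h * (q - 1) := Nat.mul_pos (by positivity) (by omega)
  refine katai_ces (b := pf q h b γ B p) (fun n => pf_abs hB n) fun s r hs hr hsr => ?_
  rw [Metric.tendsto_nhds]
  intro ε hε
  have hblock := block_ces (q := q) (M := q ^ h * (q - 1)) hq hM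
    (u := fun n => pf q h b γ B p (s * n) * pf q h b γ B p (r * n)) (A := 1)
    (fun n => by
      rw [abs_mul]
      exact mul_le_one₀ (pf_abs hB _) (abs_nonneg _) (pf_abs hB _))
    (η := 0) le_rfl (fun t ε₂ hε₂ => pf_blocks hq hγ hdeg hp h b hB hs.one_le hsr t hε₂)
    (half_pos hε)
  filter_upwards [hblock] with N hN
  rw [zero_add] at hN
  rw [Real.dist_eq, sub_zero]
  linarith

/-- real functions bounded by `1` -/
theorem real_ins {q m : ℕ} (hq : 2 ≤ q) {g : ℕ → ℝ} (hg : Ins q m g) (hg1 : ∀ n, |g n| ≤ 1)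
    {P : Polynomial ℝ} (hP : ∃ i, 1 ≤ i ∧ Irrational (P.coeff i)) :
    Tendsto (CesAvg fun n => mu n * (Real.cos (2 * Real.pi * P.eval (n : ℝ)) * g n))
      atTop (𝓝 0) := by
  obtain ⟨P₁, P₂, Q₀, hP, hQ₀, hdeg, hirr, hper⟩ := poly_split_irr P hP
  obtain ⟨w, h, hw, hdvd⟩ := exists_base hq hQ₀
  have hQ : 2 ≤ q ^ w := by
    calc 2 ≤ q := hq
      _ = q ^ 1 := (pow_one q).symm
      _ ≤ q ^ w := Nat.pow_le_pow_right (by omega) hw
  have hg' : Ins (q ^ w) m g := hg.pow hq hw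
  set Q : ℕ := q ^ w with hQdef
  have hM : 0 < Q ^ h * (Q - 1) := Nat.mul_pos (by positivity) (by omega)
  have hQh : 0 < Q ^ h := by positivity
  set M : ℕ := Q ^ h * (Q - 1) with hMdef
  -- one class
  have hcls : ∀ b ∈ Finset.range M, Tendsto (CesAvg fun n => mu n *
      (if n % M = b then Real.cos (2 * Real.pi * P.eval (n : ℝ)) * g n else 0)) atTop (𝓝 0) := by
    intro b _
    set t : ℝ := P₂.eval ((b % Q₀ : ℕ) : ℝ) with ht
    have hz : b % Q ^ h < Q ^ h := Nat.mod_lt _ hQh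
    set G₀ : XI Q m := ⟨fun y => g (Q ^ h * y + b % Q ^ h), shift_ins hg' hz, fun _ => hg1 _⟩
      with hG₀
    have h3 : (P₁ + Polynomial.C t).natDegree = P₁.natDegree := Polynomial.natDegree_add_C
    have h4 : (P₁ + Polynomial.C t).leadingCoeff = P₁.leadingCoeff := by
      unfold Polynomial.leadingCoeff
      rw [h3, Polynomial.coeff_add, Polynomial.coeff_C, if_neg (by omega), add_zero]
    have h5 := core_ces hQ (γ := fun n => (op hQ n : Function.End (XI Q m)))
      (fun a y s hs => op_mul hQ a y s hs) (p := P₁ + Polynomial.C t) (by rw [h3]; exact hdeg)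
      (by rw [h4]; exact hirr) h b (B := fun φ => (φ G₀).1 0) (fun φ => (φ G₀).2.2 0)
    refine h5.congr fun N => CesAvg_congr fun n _ _ => ?_
    by_cases hn : n % M = b
    · rw [if_pos hn, if_pos hn]
      obtain ⟨j, hj⟩ := hper n
      have h6 : n % Q₀ = b % Q₀ := by
        rw [← hn, Nat.mod_mod_of_dvd _ hdvd]
      have h7 : Real.cos (2 * Real.pi * P.eval (n : ℝ)) =
          Real.cos (2 * Real.pi * (P₁ + Polynomial.C t).eval (n : ℝ)) := by
        rw [hP, Polynomial.eval_add, Polynomial.eval_add, Polynomial.eval_C, hj, h6, ← ht]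
        have h2 : 2 * Real.pi * (P₁.eval (n : ℝ) + (t + j)) =
            2 * Real.pi * (P₁.eval (n : ℝ) + t) + (j : ℝ) * (2 * Real.pi) := by ring
        rw [h2, Real.cos_add_int_mul_two_pi]
      have h8 : ((op hQ (n / Q ^ h) : Function.End (XI Q m)) G₀).1 0 = g n := by
        refine (op_val hQ _ G₀).trans ?_
        show g (Q ^ h * (n / Q ^ h) + b % Q ^ h) = g n
        congr 1
        have h9 : b % Q ^ h = n % Q ^ h := by
          rw [← hn, Nat.mod_mod_of_dvd _ (Dvd.intro _ rfl)]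
        rw [h9]
        exact Nat.div_add_mod n (Q ^ h)
      have h10 : Real.cos (2 * Real.pi * (P₁ + Polynomial.C t).eval (n : ℝ)) *
          ((op hQ (n / Q ^ h) : Function.End (XI Q m)) G₀).1 0 =
          Real.cos (2 * Real.pi * P.eval (n : ℝ)) * g n := by rw [h7, h8]
      exact congrArg (mu n * ·) h10
    · rw [if_neg hn, if_neg hn, mul_zero]
  refine (tendsto_finset (Finset.range M) _ hcls).congr fun N => CesAvg_congr fun n _ _ => ?_
  rw [← Finset.mul_sum, Finset.sum_ite_eq, if_pos (Finset.mem_range.mpr (Nat.mod_lt _ hM))]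

theorem real_ins_bound {q m : ℕ} (hq : 2 ≤ q) {g : ℕ → ℝ} (hg : Ins q m g) {B : ℝ}
    (hg1 : ∀ n, |g n| ≤ B) {P : Polynomial ℝ} (hP : ∃ i, 1 ≤ i ∧ Irrational (P.coeff i)) :
    Tendsto (CesAvg fun n => mu n * (Real.cos (2 * Real.pi * P.eval (n : ℝ)) * g n))
      atTop (𝓝 0) := by
  have hB : 0 ≤ B := (abs_nonneg _).trans (hg1 0)
  have h2 := (real_ins hq (g := fun n => g n / (B + 1)) (fun k y s hs => by
    simp only
    rw [hg k y s hs]) (fun n => by
    rw [abs_div, abs_of_pos (by linarith : 0 < B + 1), div_le_one (by linarith)]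
    linarith [hg1 n]) hP).const_mul (B + 1)
  rw [mul_zero] at h2
  refine h2.congr fun N => ?_
  rw [← CesAvg_const_mul]
  refine CesAvg_congr fun n _ _ => ?_
  have : B + 1 ≠ 0 := by linarith
  field_simp

/-- passage to complex values -/
theorem to_complex_ces {φ : ℕ → ℝ} {Z : ℕ → ℂ}
    (hre : ∀ θ : ℝ, Tendsto (CesAvg fun n => mu n * (Real.cos (2 * Real.pi * (φ n + θ)) *
      (Z n).re)) atTop (𝓝 0))
    (him : ∀ θ : ℝ, Tendsto (CesAvg fun n => mu n * (Real.cos (2 * Real.pi * (φ n + θ)) *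
      (Z n).im)) atTop (𝓝 0)) :
    Tendsto (fun N : ℕ => (1 / N : ℂ) * ∑ n ∈ Finset.Icc 1 N,
      Complex.exp (2 * Real.pi * Complex.I * φ n) * Z n *
        (ArithmeticFunction.moebius n : ℂ)) atTop (𝓝 0) := by
  have r1 := (hre 0).sub (him (-(1 / 4)))
  have r2 := (him 0).add (hre (-(1 / 4)))
  rw [sub_zero] at r1
  rw [add_zero] at r2
  have h1 : Tendsto (fun N : ℕ =>
      ((CesAvg (fun n => mu n * (Real.cos (2 * Real.pi * (φ n + 0)) * (Z n).re)) N -
        CesAvg (fun n => mu n * (Real.cos (2 * Real.pi * (φ n + -(1 / 4))) *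
          (Z n).im)) N : ℝ) : ℂ) +
      ((CesAvg (fun n => mu n * (Real.cos (2 * Real.pi * (φ n + 0)) * (Z n).im)) N +
        CesAvg (fun n => mu n * (Real.cos (2 * Real.pi * (φ n + -(1 / 4))) *
          (Z n).re)) N : ℝ) : ℂ) * Complex.I) atTop
      (𝓝 (((0 : ℝ) : ℂ) + ((0 : ℝ) : ℂ) * Complex.I)) :=
    ((Complex.continuous_ofReal.tendsto _).comp r1).add
      (((Complex.continuous_ofReal.tendsto _).comp r2).mul_const _)
  simp only [Complex.ofReal_zero, zero_mul, add_zero] at h1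
  refine h1.congr fun N => ?_
  rw [← CesAvg_sub, ← CesAvg_add]
  unfold CesAvg
  push_cast
  rw [div_mul_eq_mul_div, ← add_div, Finset.sum_mul, ← Finset.sum_add_distrib,
    div_eq_inv_mul, one_div (N : ℂ)]
  congr 1
  refine Finset.sum_congr rfl fun n _ => ?_
  have e1 : Real.cos (2 * Real.pi * (φ n + -(1 / 4))) = Real.sin (2 * Real.pi * φ n) := by
    rw [← Real.cos_sub_pi_div_two]
    congr 1
    ring
  have e2 : Complex.exp (2 * Real.pi * Complex.I * φ n) =
      (Real.cos (2 * Real.pi * φ n) : ℂ) + (Real.sin (2 * Real.pi * φ n) : ℂ) *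
        Complex.I := by
    have h2 : (2 * Real.pi * Complex.I * φ n : ℂ) =
        ((2 * Real.pi * φ n : ℝ) : ℂ) * Complex.I := by
      push_cast
      ring
    rw [h2, Complex.exp_mul_I, Complex.ofReal_cos, Complex.ofReal_sin]
  have e3 := Complex.re_add_im (Z n)
  have e4 : (mu n : ℂ) = (ArithmeticFunction.moebius n : ℂ) := by
    unfold mu
    push_cast
    rfl
  have e5 : Complex.cos (2 * (Real.pi : ℂ) * ((φ n : ℂ) + -(1 / 4))) =
      (Real.sin (2 * Real.pi * φ n) : ℂ) := by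
    rw [← e1]
    push_cast
    rfl
  have e6 : Complex.cos (2 * (Real.pi : ℂ) * (φ n : ℂ)) =
      (Real.cos (2 * Real.pi * φ n) : ℂ) := by
    push_cast
    rfl
  rw [e5, e6, e2, ← e4]
  conv_rhs => rw [← e3]
  set c : ℂ := (Real.cos (2 * Real.pi * φ n) : ℂ)
  set t : ℂ := (Real.sin (2 * Real.pi * φ n) : ℂ)
  set x : ℂ := ((Z n).re : ℂ)
  set y : ℂ := ((Z n).im : ℂ)
  linear_combination (-((mu n : ℂ) * t * y)) * Complex.I_sq

/-- the theorem for a fixed function -/
theorem complex_ins {q m : ℕ} (hq : 2 ≤ q) {f : ℕ → ℂ} (hf : Ins q m f) {B : ℝ}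
    (hB : ∀ n, ‖f n‖ ≤ B) {P : Polynomial ℝ} (hP : ∃ i, 1 ≤ i ∧ Irrational (P.coeff i)) :
    Tendsto (fun N : ℕ => (1 / N : ℂ) * ∑ n ∈ Finset.Icc 1 N,
      Complex.exp (2 * Real.pi * Complex.I * P.eval (n : ℝ)) * f n *
        (ArithmeticFunction.moebius n : ℂ)) atTop (𝓝 0) := by
  have hθ : ∀ (θ : ℝ) (n : ℕ), P.eval (n : ℝ) + θ = (P + Polynomial.C θ).eval (n : ℝ) := by
    intro θ n
    rw [Polynomial.eval_add, Polynomial.eval_C]
  have hirr : ∀ θ : ℝ, ∃ i, 1 ≤ i ∧ Irrational ((P + Polynomial.C θ).coeff i) := by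
    intro θ
    obtain ⟨i, hi1, hi⟩ := hP
    refine ⟨i, hi1, ?_⟩
    rw [Polynomial.coeff_add, Polynomial.coeff_C, if_neg (by omega), add_zero]
    exact hi
  refine to_complex_ces (φ := fun n => P.eval (n : ℝ)) (Z := f) (fun θ => ?_) (fun θ => ?_)
  · simp only [hθ]
    refine real_ins_bound (m := m) hq (g := fun n => (f n).re) (fun k y s hs => ?_)
      (fun n => (Complex.abs_re_le_norm _).trans (hB n)) (hirr θ)
    simp only
    rw [hf k y s hs]
  · simp only [hθ]
    refine real_ins_bound (m := m) hq (g := fun n => (f n).im) (fun k y s hs => ?_)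
      (fun n => (Complex.abs_im_le_norm _).trans (hB n)) (hirr θ)
    simp only
    rw [hf k y s hs]

/-- the universal function determines all the others -/
theorem ins_of_op {q m : ℕ} (hq : 2 ≤ q) {f : ℕ → ℂ} (hf : Ins q m f) {B : ℝ}
    (hB : ∀ n, ‖f n‖ ≤ B) {n n' : ℕ}
    (h : (op hq n : Function.End (XI q m)) = op hq n') : f n = f n' := by
  have hB0 : 0 ≤ B := (norm_nonneg _).trans (hB 0)
  have hb : 0 < B + 1 := by linarith
  have h1 : ∀ g : ℕ → ℝ, Ins q m g → (∀ n, |g n| ≤ B) → g n = g n' := by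
    intro g hg hgB
    set G : XI q m := ⟨fun n => g n / (B + 1), fun k y s hs => by
      simp only
      rw [hg k y s hs], fun n => by
      rw [abs_div, abs_of_pos hb, div_le_one hb]
      linarith [hgB n]⟩ with hG
    have h2 := op_val hq n G
    have h3 := op_val hq n' G
    rw [h, h3] at h2
    have h4 : g n' / (B + 1) = g n / (B + 1) := h2
    have h5 := (div_left_inj' hb.ne').mp h4
    exact h5.symm
  apply Complex.ext
  · exact h1 (fun n => (f n).re) (fun k y s hs => by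
      simp only
      rw [hf k y s hs]) fun n => (Complex.abs_re_le_norm _).trans (hB n)
  · exact h1 (fun n => (f n).im) (fun k y s hs => by
      simp only
      rw [hf k y s hs]) fun n => (Complex.abs_im_le_norm _).trans (hB n)

open Classical in
/-- the theorem for functions which depend on `N` -/
theorem ins_seq {q m : ℕ} (hq : 2 ≤ q) {f : ℕ → ℕ → ℂ} (hf : ∀ N, Ins q m (f N)) {B : ℝ}
    (hB : ∀ N n, ‖f N n‖ ≤ B) {P : Polynomial ℝ} (hP : ∃ i, 1 ≤ i ∧ Irrational (P.coeff i)) :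
    Tendsto (fun N : ℕ => (1 / N : ℂ) * ∑ n ∈ Finset.Icc 1 N,
      Complex.exp (2 * Real.pi * Complex.I * P.eval (n : ℝ)) * f N n *
        (ArithmeticFunction.moebius n : ℂ)) atTop (𝓝 0) := by
  have hB0 : 0 ≤ B := (norm_nonneg _).trans (hB 0 0)
  have h1 := schur (Z := Function.End (XI q m)) (fun n => op hq n)
    (fun n => Complex.exp (2 * Real.pi * Complex.I * P.eval (n : ℝ)) *
      (ArithmeticFunction.moebius n : ℂ)) (fun N => (1 / N : ℂ))
    (fun B' Φ hΦ => by
      refine (complex_ins (m := m) hq (f := fun n => Φ (op hq n)) (fun k y s hs => ?_)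
        (fun n => hΦ _) hP).congr fun N => ?_
      · simp only
        congr 1
        have e1 : k + 1 + m = (k + 1) + m := rfl
        rw [e1, op_mul hq (k + 1) y s (lt_of_lt_of_le hs (Nat.pow_le_pow_right (by omega)
          (by omega))), op_mul hq k y s hs]
      · unfold tst
        congr 1
        exact Finset.sum_congr rfl fun n _ => by ring)
    (fun N φ => if hφ : ∃ n, op hq n = φ then f N (Classical.choose hφ) else 0) (B := B)
    (fun N φ => by
      split_ifs
      · exact hB _ _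
      · simpa using hB0)
  refine h1.congr fun N => ?_
  unfold tst
  congr 1
  refine Finset.sum_congr rfl fun n _ => ?_
  have hex : ∃ n', (op hq n' : Function.End (XI q m)) = op hq n := ⟨n, rfl⟩
  have h2 : f N (Classical.choose hex) = f N n :=
    ins_of_op hq (hf N) (hB N) (Classical.choose_spec hex)
  beta_reduce
  rw [dif_pos hex, h2]
  ring

/-- eventual periodicity in the lengths of the runs of zeros -/
theorem Ins.of_period {E : Type*} {q m w : ℕ} (hq : 2 ≤ q) (hw : 1 ≤ w) {f : ℕ → E}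
    (hf : ∀ k y s : ℕ, s < q ^ k → f (q ^ (k + m + w) * y + s) = f (q ^ (k + m) * y + s)) :
    Ins (q ^ w) m f := by
  intro k y s hs
  obtain ⟨v, rfl⟩ : ∃ v, w = v + 1 := ⟨w - 1, by omega⟩
  have e1 : (q ^ (v + 1)) ^ (k + 1 + m) = q ^ (((v + 1) * k + v * m) + m + (v + 1)) := by
    rw [← pow_mul]
    congr 1
    ring
  have e2 : (q ^ (v + 1)) ^ (k + m) = q ^ (((v + 1) * k + v * m) + m) := by
    rw [← pow_mul]
    congr 1
    ring
  rw [← pow_mul] at hs
  rw [e1, e2]
  exact hf _ y s (lt_of_lt_of_le hs (Nat.pow_le_pow_right (by omega) (by omega)))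

/-- the final form -/
theorem period_seq {q m w : ℕ} (hq : 2 ≤ q) (hw : 1 ≤ w) {f : ℕ → ℕ → ℂ}
    (hf : ∀ N k y s : ℕ, s < q ^ k →
      f N (q ^ (k + m + w) * y + s) = f N (q ^ (k + m) * y + s)) {B : ℝ}
    (hB : ∀ N n, ‖f N n‖ ≤ B) {P : Polynomial ℝ} (hP : ∃ i, 1 ≤ i ∧ Irrational (P.coeff i)) :
    Tendsto (fun N : ℕ => (1 / N : ℂ) * ∑ n ∈ Finset.Icc 1 N,
      Complex.exp (2 * Real.pi * Complex.I * P.eval (n : ℝ)) * f N n *
        (ArithmeticFunction.moebius n : ℂ)) atTop (𝓝 0) :=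
  ins_seq (q := q ^ w) (m := m)
    (calc 2 ≤ q := hq
      _ = q ^ 1 := (pow_one q).symm
      _ ≤ q ^ w := Nat.pow_le_pow_right (by omega) hw)
    (fun N => Ins.of_period hq hw (hf N)) hB hP

end Pool.Agent.Lib.MP_3e612f_nt.CA
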