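import Pool.Agent.Lib.MP_3e612f_nt.Incr

/-!
The tests to which the energy increment is applied: dilations and words.
-/

set_option autoImplicit false

namespace Pool.Agent.Lib.MP_3e612f_nt

open Filter Topology Set

/-- the failure of the dilation relation at `n` -/
noncomputable def dev (a : ℕ → ℝ) (m n : ℕ) : ℝ :=
  a (m * n) - if Nat.Coprime m n then mu m * a n else 0

theorem mu_mul (m n : ℕ) :
    mu (m * n) = (if Nat.Coprime m n then mu m else 0) * mu n := by
  unfold mu
  split_ifs with h
  · rw [ArithmeticFunction.isMultiplicative_moebius.map_mul_of_coprime h]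
    push_cast
    rfl
  · rcases Nat.eq_zero_or_pos n with h0 | h0
    · subst h0
      simp
    · rw [zero_mul]
      have : ¬ Squarefree (m * n) := fun hs => h (Nat.coprime_of_squarefree_mul hs)
      rw [ArithmeticFunction.moebius_eq_zero_of_not_squarefree this]
      simp

/-- the test which detects the failure of the dilation relation -/
noncomputable def dilTest (m : ℕ) (a : ℕ → ℝ) (n : ℕ) : ℝ :=
  (if Nat.Coprime m n then mu m else 0) * dev a m n - if m ∣ n then m * dev a m (n / m) else 0

theorem abs_dev_le {a : ℕ → ℝ} (hb : ∀ n, |a n| ≤ 1) (m n : ℕ) : |dev a m n| ≤ 2 := by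
  unfold dev
  have h1 : |if Nat.Coprime m n then mu m * a n else 0| ≤ 1 := by
    split_ifs
    · rw [abs_mul]
      exact mul_le_one₀ (abs_mu_le m) (abs_nonneg _) (hb n)
    · simp
  calc |a (m * n) - if Nat.Coprime m n then mu m * a n else 0|
      ≤ |a (m * n)| + |if Nat.Coprime m n then mu m * a n else 0| := abs_sub _ _
    _ ≤ 2 := by linarith [hb (m * n)]

theorem Det.char {a : ℕ → ℝ} (ha : Det a) {m : ℕ} (hm : 1 ≤ m) :
    Det fun n => if Nat.Coprime m n then mu m else 0 := by
  have h := ha.tower (m := m) hm (g := fun i _ => if Nat.Coprime m i then mu m else 0)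
    (fun i => continuous_const)
  have e : (fun n => if Nat.Coprime m (n % m) then mu m else 0) =
      fun n => if Nat.Coprime m n then mu m else 0 := by
    funext n
    have : Nat.Coprime m (n % m) ↔ Nat.Coprime m n := by
      unfold Nat.Coprime
      rw [Nat.gcd_rec m n, Nat.gcd_comm]
    simp only [this]
  rw [e] at h
  exact h

theorem Det.dev {a : ℕ → ℝ} (ha : Det a) {m : ℕ} (hm : 1 ≤ m) : Det fun n => dev a m n := by
  have h := (ha.dil hm).sub ((ha.char hm).mul ha)
  have e : (fun n => a (m * n) - (if Nat.Coprime m n then mu m else 0) * a n) =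
      fun n => Pool.Agent.Lib.MP_3e612f_nt.dev a m n := by
    funext n
    unfold Pool.Agent.Lib.MP_3e612f_nt.dev
    split_ifs <;> simp
  rw [e] at h
  exact h

theorem Det.adj {a : ℕ → ℝ} (ha : Det a) {m : ℕ} (hm : 1 ≤ m) :
    Det fun n => if m ∣ n then m * a (n / m) else 0 := by
  have h := ha.tower (m := m) hm (g := fun i s => if i = 0 then m * s else 0) (fun i => by
    by_cases hi : i = 0
    · simp only [hi, if_true]
      fun_prop
    · simp only [hi, if_false]
      fun_prop)
  have e : (fun n => if n % m = 0 then m * a (n / m) else 0) =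
      fun n => if m ∣ n then m * a (n / m) else 0 := by
    funext n
    simp only [Nat.dvd_iff_mod_eq_zero]
  rw [e] at h
  exact h

theorem Det.dilTest {a : ℕ → ℝ} (ha : Det a) {m : ℕ} (hm : 1 ≤ m) :
    Det (dilTest m a) :=
  ((ha.char hm).mul (ha.dev hm)).sub ((ha.dev hm).adj hm)

theorem abs_dilTest_le {a : ℕ → ℝ} (hb : ∀ n, |a n| ≤ 1) {m M : ℕ} (hm : m ≤ M) (n : ℕ) :
    |dilTest m a n| ≤ 2 * (M + 1) := by
  unfold dilTest
  have hm' : (m : ℝ) ≤ M := by exact_mod_cast hm
  have h1 : |(if Nat.Coprime m n then mu m else 0) * dev a m n| ≤ 2 := by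
    rw [abs_mul]
    have h2 : |if Nat.Coprime m n then mu m else 0| ≤ 1 := by
      split_ifs
      · exact abs_mu_le m
      · simp
    calc |if Nat.Coprime m n then mu m else 0| * |dev a m n| ≤ 1 * 2 :=
          mul_le_mul h2 (abs_dev_le hb m n) (abs_nonneg _) zero_le_one
      _ = 2 := by norm_num
  have h2 : |if m ∣ n then (m : ℝ) * dev a m (n / m) else 0| ≤ 2 * M := by
    split_ifs
    · rw [abs_mul, Nat.abs_cast]
      calc (m : ℝ) * |dev a m (n / m)| ≤ M * 2 :=
            mul_le_mul hm' (abs_dev_le hb m _) (abs_nonneg _) (Nat.cast_nonneg M)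
        _ = 2 * M := by ring
    · simp
  calc |(if Nat.Coprime m n then mu m else 0) * dev a m n -
        if m ∣ n then (m : ℝ) * dev a m (n / m) else 0|
      ≤ |(if Nat.Coprime m n then mu m else 0) * dev a m n| +
        |if m ∣ n then (m : ℝ) * dev a m (n / m) else 0| := abs_sub _ _
    _ ≤ 2 * (M + 1) := by linarith

theorem dev_eq (a : ℕ → ℝ) (m n : ℕ) :
    dev a m n = (if Nat.Coprime m n then mu m else 0) * (mu n - a n) -
      (mu (m * n) - a (m * n)) := by
  rw [mu_mul m n]
  unfold dev
  split_ifs <;> ring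

/-- near orthogonality to the dilation test forces the dilation relation -/
theorem dev_sq_le {a : ℕ → ℝ} (hb : ∀ n, |a n| ≤ 1) {m : ℕ} (hm : 1 ≤ m) {N : ℕ} (hN : 3 ≤ N) :
    LogAvg (fun n => dev a m n ^ 2) N ≤
      |LogAvg (fun n => (mu n - a n) * dilTest m a n) N| + 4 * m / Real.log N := by
  set u : ℕ → ℝ := fun k => (mu k - a k) * dev a m (k / m) with hu
  have hub : ∀ n, |u n| ≤ 4 := by
    intro n
    have h1 : |mu n - a n| ≤ 2 := (abs_sub _ _).trans (by linarith [hb n, abs_mu_le n])
    rw [hu]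
    dsimp only
    rw [abs_mul]
    calc |mu n - a n| * |dev a m (n / m)| ≤ 2 * 2 :=
          mul_le_mul h1 (abs_dev_le hb m _) (abs_nonneg _) (by norm_num)
      _ = 4 := by norm_num
  have h1 := LogAvg_dilation hub hm hN
  have h2 : LogAvg (fun n => dev a m n ^ 2) N =
      LogAvg (fun n => (mu n - a n) * ((if Nat.Coprime m n then mu m else 0) * dev a m n)) N -
        LogAvg (fun n => u (m * n)) N := by
    rw [← LogAvg_sub]
    refine LogAvg_congr fun n _ _ => ?_
    rw [hu]
    dsimp only
    rw [Nat.mul_div_cancel_left n (by omega)]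
    have := dev_eq a m n
    calc dev a m n ^ 2 = dev a m n * dev a m n := sq _
      _ = ((if Nat.Coprime m n then mu m else 0) * (mu n - a n) -
            (mu (m * n) - a (m * n))) * dev a m n := by rw [← this]
      _ = _ := by ring
  have h3 : LogAvg (fun n => (mu n - a n) * dilTest m a n) N =
      LogAvg (fun n => (mu n - a n) * ((if Nat.Coprime m n then mu m else 0) * dev a m n)) N -
        LogAvg (fun k => if m ∣ k then m * u k else 0) N := by
    rw [← LogAvg_sub]
    refine LogAvg_congr fun n _ _ => ?_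
    unfold dilTest
    rw [hu]
    dsimp only
    split_ifs <;> ring
  have h4 := le_abs_self (LogAvg (fun n => (mu n - a n) * dilTest m a n) N)
  have h5 := (abs_le.mp h1).1
  rw [h2]
  rw [h3] at h4 ⊢
  linarith

/-- the words in the sequence `a` with dilations up to `M`, shifts up to `M` and exponents up
to `M` -/
noncomputable def word {M : ℕ} (k : Fin M → Fin (M + 1) → Fin (M + 1)) (a : ℕ → ℝ) (n : ℕ) : ℝ :=
  ∏ i : Fin M, ∏ j : Fin (M + 1), a ((i + 1) * n + j) ^ (k i j : ℕ)

theorem Det.word {a : ℕ → ℝ} (ha : Det a) {M : ℕ} (k : Fin M → Fin (M + 1) → Fin (M + 1)) :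
    Det (word k a) := by
  refine ha.prod Finset.univ fun i => ha.prod Finset.univ fun j => ?_
  exact ((ha.shift j).dil (m := (i : ℕ) + 1) (by omega)).pow _

theorem abs_word_le {a : ℕ → ℝ} (hb : ∀ n, |a n| ≤ 1) {M : ℕ}
    (k : Fin M → Fin (M + 1) → Fin (M + 1)) (n : ℕ) : |word k a n| ≤ 1 := by
  unfold Pool.Agent.Lib.MP_3e612f_nt.word
  rw [Finset.abs_prod]
  refine Finset.prod_le_one (fun i _ => abs_nonneg _) fun i _ => ?_
  rw [Finset.abs_prod]
  refine Finset.prod_le_one (fun i _ => abs_nonneg _) fun j _ => ?_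
  rw [abs_pow]
  exact pow_le_one₀ (abs_nonneg _) (hb _)

end Pool.Agent.Lib.MP_3e612f_nt
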