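import Pool.Agent.Lib.MP_3e612f_nt.DSDefs
import Pool.Agent.Lib.MP_3e612f_nt.Tests

/-!
Katai's orthogonality criterion for logarithmic averages.
-/

set_option autoImplicit false

namespace Pool.Agent.Lib.MP_3e612f_nt.DS

open Filter Topology
open Pool.Agent.Lib.MP_3e612f_nt

theorem G_LogAvg_sum {ι : Type*} (s : Finset ι) (u : ι → ℕ → ℝ) (N : ℕ) :
    LogAvg (fun n => ∑ i ∈ s, u i n) N = ∑ i ∈ s, LogAvg (u i) N := by
  classical
  induction s using Finset.induction_on with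
  | empty => simp [LogAvg]
  | insert a s ha ih =>
    simp only [Finset.sum_insert ha]
    rw [LogAvg_add, ih]

theorem G_log_atTop : Tendsto (fun N : ℕ => Real.log N) atTop atTop :=
  Real.tendsto_log_atTop.comp tendsto_natCast_atTop_atTop

theorem G_small (C : ℝ) : Tendsto (fun N : ℕ => C / Real.log N) atTop (𝓝 0) :=
  G_log_atTop.const_div_atTop C

theorem G_one : Tendsto (LogAvg fun _ => (1 : ℝ)) atTop (𝓝 1) := by
  have h1 : Tendsto (fun N : ℕ => 1 + 1 / Real.log N) atTop (𝓝 1) := by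
    simpa using (tendsto_const_nhds (x := (1:ℝ))).add (G_small 1)
  refine tendsto_of_tendsto_of_tendsto_of_le_of_le' tendsto_const_nhds h1 ?_ ?_
  · filter_upwards [eventually_ge_atTop 3] with N hN
    have hlog := log_ge_one hN
    have h2 := log_add_one_le_harmonic N
    rw [harmonic_eq_sum_Icc] at h2
    push_cast at h2
    have h3 : Real.log N ≤ Real.log (N + 1) := by
      refine Real.log_le_log ?_ (by linarith)
      have : 0 < N := by omega
      exact_mod_cast this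
    unfold LogAvg
    rw [one_div, inv_mul_eq_div, le_div_iff₀ (by linarith), one_mul]
    have h4 : ∑ n ∈ Finset.Icc 1 N, (1 : ℝ) / n = ∑ n ∈ Finset.Icc 1 N, ((n : ℝ))⁻¹ := by
      simp [one_div]
    rw [h4]
    linarith
  · filter_upwards [eventually_ge_atTop 3] with N hN using LogAvg_one_le hN

theorem G_close {a b : ℕ → ℝ} {A C : ℝ} (ha : Tendsto a atTop (𝓝 A))
    (h : ∀ᶠ N in atTop, |a N - b N| ≤ C / Real.log N) : Tendsto b atTop (𝓝 A) := by
  have h1 : Tendsto (fun N => a N - b N) atTop (𝓝 0) :=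
    squeeze_zero_norm' (by simpa using h) (G_small C)
  simpa using ha.sub h1

theorem G_dvd {m : ℕ} (hm : 1 ≤ m) :
    Tendsto (LogAvg fun n => if m ∣ n then (1 : ℝ) else 0) atTop (𝓝 (1 / m)) := by
  have hm' : (0 : ℝ) < m := by exact_mod_cast hm
  have h1 : Tendsto (LogAvg fun k => if m ∣ k then (m : ℝ) * 1 else 0) atTop (𝓝 1) := by
    refine G_close G_one (C := 1 * m) ?_
    filter_upwards [eventually_ge_atTop 3] with N hN
    exact LogAvg_dilation (u := fun _ => (1 : ℝ)) (C := 1) (by simp) hm hN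
  have h2 := h1.const_mul (1 / (m : ℝ))
  simp only [mul_one] at h2
  refine h2.congr fun N => ?_
  rw [← LogAvg_const_mul]
  refine LogAvg_congr fun n _ _ => ?_
  split_ifs
  · field_simp
  · simp

/-- the centred indicator of divisibility by `p` -/
noncomputable def Gf (p n : ℕ) : ℝ := (if p ∣ n then (1 : ℝ) else 0) - 1 / p

theorem G_cov {p q : ℕ} (hp : p.Prime) (hq : q.Prime) :
    Tendsto (LogAvg fun n => Gf p n * Gf q n) atTop
      (𝓝 (if p = q then 1 / (p:ℝ) - 1 / (p:ℝ) ^ 2 else 0)) := by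
  have hp' : (0 : ℝ) < p := by exact_mod_cast hp.pos
  have hq' : (0 : ℝ) < q := by exact_mod_cast hq.pos
  have e : ∀ N, LogAvg (fun n => Gf p n * Gf q n) N =
      LogAvg (fun n => (if p ∣ n then (1 : ℝ) else 0) * (if q ∣ n then (1 : ℝ) else 0)) N
      - (1 / q) * LogAvg (fun n => if p ∣ n then (1 : ℝ) else 0) N
      - (1 / p) * LogAvg (fun n => if q ∣ n then (1 : ℝ) else 0) N
      + (1 / p * (1 / q)) * LogAvg (fun _ => 1) N := by
    intro N
    rw [← LogAvg_const_mul, ← LogAvg_const_mul, ← LogAvg_const_mul, ← LogAvg_sub, ← LogAvg_sub,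
      ← LogAvg_add]
    refine LogAvg_congr fun n _ _ => ?_
    unfold Gf
    ring
  have hd : Tendsto (LogAvg fun n => (if p ∣ n then (1 : ℝ) else 0) * (if q ∣ n then (1 : ℝ) else 0))
      atTop (𝓝 (if p = q then 1 / (p : ℝ) else 1 / p * (1 / q))) := by
    split_ifs with hpq
    · subst hpq
      refine (G_dvd hp.one_le).congr fun N => LogAvg_congr fun n _ _ => ?_
      split_ifs <;> simp
    · have h1 := G_dvd (m := p * q) (Nat.mul_pos hp.pos hq.pos)
      push_cast at h1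
      rw [one_div_mul_one_div]
      refine h1.congr fun N => LogAvg_congr fun n _ _ => ?_
      have h2 : p * q ∣ n ↔ p ∣ n ∧ q ∣ n :=
        ⟨fun h => ⟨dvd_of_mul_right_dvd h, dvd_of_mul_left_dvd h⟩,
          fun h => ((Nat.coprime_primes hp hq).mpr hpq).mul_dvd_of_dvd_of_dvd h.1 h.2⟩
      by_cases h3 : p ∣ n <;> by_cases h4 : q ∣ n <;> simp [h2, h3, h4]
  have h := ((hd.sub ((G_dvd hp.one_le).const_mul (1 / (q : ℝ)))).sub
    ((G_dvd hq.one_le).const_mul (1 / (p : ℝ)))).add (G_one.const_mul (1 / (p : ℝ) * (1 / q)))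
  have h' := h.congr fun N => (e N).symm
  convert h' using 2
  split_ifs with hpq
  · subst hpq
    field_simp
    ring
  · field_simp
    ring

/-- Turan-Kubilius -/
theorem G_TK {P : Finset ℕ} (hP : ∀ p ∈ P, p.Prime) :
    Tendsto (LogAvg fun n => (∑ p ∈ P, Gf p n) ^ 2) atTop
      (𝓝 (∑ p ∈ P, (1 / (p:ℝ) - 1 / (p:ℝ) ^ 2))) := by
  have e : ∀ N, ∑ p ∈ P, ∑ q ∈ P, LogAvg (fun n => Gf p n * Gf q n) N =
      LogAvg (fun n => (∑ p ∈ P, Gf p n) ^ 2) N := by
    intro N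
    simp_rw [← G_LogAvg_sum]
    refine LogAvg_congr fun n _ _ => ?_
    rw [sq, Finset.sum_mul_sum]
  have h : Tendsto (fun N => ∑ p ∈ P, ∑ q ∈ P, LogAvg (fun n => Gf p n * Gf q n) N) atTop
      (𝓝 (∑ p ∈ P, ∑ q ∈ P, if p = q then 1 / (p:ℝ) - 1 / (p:ℝ) ^ 2 else 0)) :=
    tendsto_finsetSum _ fun p hp => tendsto_finsetSum _ fun q hq => G_cov (hP p hp) (hP q hq)
  have h' := h.congr e
  convert h' using 2
  refine Finset.sum_congr rfl fun p hp => ?_
  rw [Finset.sum_ite_eq]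
  simp [hp]

/-- dyadic blocks control logarithmic averages -/
theorem G_blocks {v : ℕ → ℝ} (hv : ∀ n, 0 ≤ v n) {M : ℝ} (hM : 0 ≤ M)
    (h : ∀ᶠ κ : ℕ in atTop, (∑ n ∈ Finset.Ico (2 ^ κ) (2 ^ (κ + 1)), v n) / 2 ^ κ ≤ M) :
    ∀ᶠ N in atTop, LogAvg v N ≤ M / Real.log 2 + 1 := by
  set β : ℕ → ℝ := fun κ => (∑ n ∈ Finset.Ico (2 ^ κ) (2 ^ (κ + 1)), v n) / 2 ^ κ with hβ
  have hβ0 : ∀ κ, 0 ≤ β κ := fun κ => div_nonneg (Finset.sum_nonneg fun n _ => hv n) (by positivity)
  obtain ⟨κ₀, hκ₀⟩ := eventually_atTop.mp h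
  have h1 : ∀ k, ∑ n ∈ Finset.Ico 1 (2 ^ k), v n / n ≤ ∑ κ ∈ Finset.range k, β κ := by
    intro k
    induction k with
    | zero => simp
    | succ k ih =>
      rw [Finset.sum_range_succ, ← Finset.sum_Ico_consecutive _ (Nat.one_le_two_pow (n := k))
        (Nat.pow_le_pow_right (by norm_num) (Nat.le_succ k))]
      refine add_le_add ih ?_
      rw [hβ]
      dsimp only
      rw [Finset.sum_div]
      refine Finset.sum_le_sum fun n hn => ?_
      rw [Finset.mem_Ico] at hn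
      refine div_le_div_of_nonneg_left (hv n) (by positivity) ?_
      exact_mod_cast hn.1
  set C₀ : ℝ := ∑ κ ∈ Finset.range κ₀, β κ with hC₀
  have h2 : ∀ k, ∑ κ ∈ Finset.range k, β κ ≤ C₀ + k * M := by
    intro k
    induction k with
    | zero =>
      simp only [Finset.range_zero, Finset.sum_empty, Nat.cast_zero, zero_mul, add_zero]
      exact Finset.sum_nonneg fun κ _ => hβ0 κ
    | succ k ih =>
      rcases Nat.lt_or_ge k κ₀ with hk | hk
      · have : ∑ κ ∈ Finset.range (k + 1), β κ ≤ C₀ :=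
          Finset.sum_le_sum_of_subset_of_nonneg (Finset.range_mono hk) fun κ _ _ => hβ0 κ
        have h3 : 0 ≤ ((k + 1 : ℕ) : ℝ) * M := by positivity
        linarith
      · rw [Finset.sum_range_succ]
        push_cast
        have := hκ₀ k hk
        linarith
  have hsm := (G_small (C₀ + M)).eventually_le_const (show (0 : ℝ) < 1 by norm_num)
  filter_upwards [hsm, eventually_ge_atTop 3] with N hN hN3
  have hlog := log_ge_one hN3
  have hlog2 : 0 < Real.log 2 := Real.log_pos (by norm_num)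
  have hN0 : N ≠ 0 := by omega
  have h4 : ∑ n ∈ Finset.Icc 1 N, v n / n ≤ C₀ + ((Nat.log 2 N + 1 : ℕ) : ℝ) * M := by
    refine le_trans ?_ ((h1 _).trans (h2 _))
    refine Finset.sum_le_sum_of_subset_of_nonneg ?_ fun n _ _ => div_nonneg (hv n) (Nat.cast_nonneg n)
    intro n hn
    rw [Finset.mem_Icc] at hn
    rw [Finset.mem_Ico]
    exact ⟨hn.1, lt_of_le_of_lt hn.2 (Nat.lt_pow_succ_log_self (by norm_num) N)⟩
  have h5 : (Nat.log 2 N : ℝ) * Real.log 2 ≤ Real.log N := by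
    have h6 : (2 : ℝ) ^ (Nat.log 2 N) ≤ N := by exact_mod_cast Nat.pow_log_le_self 2 hN0
    have h7 := Real.log_le_log (by positivity) h6
    rwa [Real.log_pow] at h7
  unfold LogAvg
  rw [one_div, inv_mul_eq_div, div_le_iff₀ (by linarith)]
  rw [div_le_iff₀ (by linarith)] at hN
  push_cast at h4
  have h8 : (Nat.log 2 N : ℝ) * M ≤ M / Real.log 2 * Real.log N := by
    rw [div_mul_eq_mul_div, le_div_iff₀ hlog2]
    nlinarith
  nlinarith

theorem G_exists_primes (T : ℝ) :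
    ∃ P : Finset ℕ, (∀ p ∈ P, p.Prime ∧ 3 ≤ p) ∧ T ≤ ∑ p ∈ P, 1 / (p : ℝ) := by
  have h0 : ∀ n : ℕ, 0 ≤ Set.indicator {p : ℕ | p.Prime} (fun n : ℕ => (1 : ℝ) / n) n :=
    fun n => Set.indicator_nonneg (fun _ _ => by positivity) n
  have h1 := (not_summable_iff_tendsto_nat_atTop_of_nonneg h0).mp not_summable_one_div_on_primes
  obtain ⟨n, hn⟩ := (h1.eventually_ge_atTop (T + 1)).exists
  refine ⟨(Finset.range n).filter (fun p => p.Prime ∧ 3 ≤ p), fun p hp => ?_, ?_⟩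
  · rw [Finset.mem_filter] at hp
    exact hp.2
  · have h2 : ∑ i ∈ Finset.range n, Set.indicator {p : ℕ | p.Prime} (fun n : ℕ => (1 : ℝ) / n) i ≤
        ∑ i ∈ Finset.range n, ((if i.Prime ∧ 3 ≤ i then 1 / (i : ℝ) else 0) +
          (if i = 2 then 1 else 0)) := by
      refine Finset.sum_le_sum fun i _ => ?_
      by_cases hi : i.Prime
      · rw [Set.indicator_of_mem (by exact hi)]
        rcases Nat.lt_or_ge i 3 with h3 | h3
        · have : i = 2 := by
            have := hi.two_le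
            omega
          subst this
          norm_num
        · simp only [hi, h3, and_self, if_true]
          have : (0 : ℝ) ≤ if i = 2 then 1 else 0 := by positivity
          linarith
      · rw [Set.indicator_of_notMem (by exact hi)]
        positivity
    rw [Finset.sum_add_distrib, ← Finset.sum_filter] at h2
    have h3 : ∑ i ∈ Finset.range n, (if i = 2 then (1 : ℝ) else 0) ≤ 1 := by
      rw [Finset.sum_ite_eq']
      split_ifs <;> norm_num
    linarith

theorem G_sq (P : Finset ℕ) : ∑ p ∈ P, 1 / (p : ℝ) ^ 2 ≤ ∑' n : ℕ, 1 / (n : ℝ) ^ 2 :=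
  (Real.summable_one_div_nat_pow.mpr one_lt_two).sum_le_tsum P fun _ _ => by positivity

theorem G_max (P : Finset ℕ) :
    ∑ p ∈ P, ∑ r ∈ P, (if p < r then 1 / (r : ℝ) ^ 2 else 0) ≤ ∑ r ∈ P, 1 / (r : ℝ) := by
  rw [Finset.sum_comm]
  refine Finset.sum_le_sum fun r _ => ?_
  rw [← Finset.sum_filter, Finset.sum_const, nsmul_eq_mul]
  have h1 : (P.filter (fun p => p < r)).card ≤ r := by
    calc (P.filter (fun p => p < r)).card ≤ (Finset.range r).card := by
          refine Finset.card_le_card fun p hp => ?_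
          rw [Finset.mem_filter] at hp
          exact Finset.mem_range.mpr hp.2
      _ = r := Finset.card_range r
  have h2 : ((P.filter (fun p => p < r)).card : ℝ) ≤ r := by exact_mod_cast h1
  rcases Nat.eq_zero_or_pos r with h0 | h0
  · subst h0
    simp
  · have h3 : (0 : ℝ) < r := by exact_mod_cast h0
    calc _ ≤ (r : ℝ) * (1 / (r : ℝ) ^ 2) := mul_le_mul_of_nonneg_right h2 (by positivity)
      _ = 1 / (r : ℝ) := by field_simp

theorem G_abs (u : ℕ → ℝ) (N : ℕ) : |LogAvg u N| ≤ LogAvg (fun n => |u n|) N := by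
  rw [abs_le]
  constructor
  · rw [← LogAvg_neg]
    exact LogAvg_mono fun n _ => neg_abs_le (u n)
  · exact LogAvg_mono fun n _ => le_abs_self (u n)

/-- the second moment of the average of the dilates of `b` -/
theorem G_second {b : ℕ → ℝ} (hb : ∀ n, |b n| ≤ 2) {K : ℝ}
    (h : ∀ p r : ℕ, p.Prime → r.Prime → 3 ≤ p → p < r → ∀ ε : ℝ, 0 < ε → ∀ᶠ κ : ℕ in atTop,
      |(∑ n ∈ Finset.Ico (2 ^ κ) (2 ^ (κ + 1)), b (p * n) * b (r * n)) / 2 ^ κ| ≤ K * (p / r) + ε)
    {P : Finset ℕ} (hP : ∀ p ∈ P, p.Prime ∧ 3 ≤ p) (hW : 1 ≤ ∑ p ∈ P, 1 / (p : ℝ)) :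
    ∀ᶠ κ : ℕ in atTop,
      (∑ n ∈ Finset.Ico (2 ^ κ) (2 ^ (κ + 1)), (∑ p ∈ P, 1 / (p : ℝ) * b (p * n)) ^ 2) / 2 ^ κ ≤
        4 * (∑' n : ℕ, 1 / (n : ℝ) ^ 2) + 2 * |K| * (∑ p ∈ P, 1 / (p : ℝ)) + 1 := by
  set W : ℝ := ∑ p ∈ P, 1 / (p : ℝ) with hWdef
  set ε : ℝ := 1 / W ^ 2 with hε
  have hε0 : 0 < ε := by positivity
  have h1 : ∀ᶠ κ : ℕ in atTop, ∀ p ∈ P, ∀ r ∈ P, p < r →
      |(∑ n ∈ Finset.Ico (2 ^ κ) (2 ^ (κ + 1)), b (p * n) * b (r * n)) / 2 ^ κ| ≤
        K * (p / r) + ε := by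
    rw [Filter.eventually_all_finset]
    intro p hp
    rw [Filter.eventually_all_finset]
    intro r hr
    by_cases hpr : p < r
    · filter_upwards [h p r (hP p hp).1 (hP r hr).1 (hP p hp).2 hpr ε hε0] with κ hκ _ using hκ
    · exact Eventually.of_forall fun κ hκ => absurd hκ hpr
  filter_upwards [h1] with κ hκ
  set c : ℕ → ℕ → ℝ := fun p r =>
    (∑ n ∈ Finset.Ico (2 ^ κ) (2 ^ (κ + 1)), b (p * n) * b (r * n)) / 2 ^ κ with hc
  have hcs : ∀ p r, c p r = c r p := by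
    intro p r
    rw [hc]
    dsimp only
    congr 1
    exact Finset.sum_congr rfl fun n _ => mul_comm _ _
  have hcd : ∀ p, c p p ≤ 4 := by
    intro p
    rw [hc]
    dsimp only
    rw [div_le_iff₀ (by positivity)]
    calc ∑ n ∈ Finset.Ico (2 ^ κ) (2 ^ (κ + 1)), b (p * n) * b (p * n)
        ≤ ∑ n ∈ Finset.Ico (2 ^ κ) (2 ^ (κ + 1)), (4 : ℝ) := by
          refine Finset.sum_le_sum fun n _ => ?_
          have := abs_le.mp (hb (p * n))
          nlinarith
      _ = 4 * 2 ^ κ := by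
          rw [Finset.sum_const, Nat.card_Ico, nsmul_eq_mul, pow_succ, mul_two,
            Nat.add_sub_cancel]
          push_cast
          ring
  have e : (∑ n ∈ Finset.Ico (2 ^ κ) (2 ^ (κ + 1)), (∑ p ∈ P, 1 / (p : ℝ) * b (p * n)) ^ 2) / 2 ^ κ =
      ∑ p ∈ P, ∑ r ∈ P, (1 / (p : ℝ)) * (1 / (r : ℝ)) * c p r := by
    have e1 : ∀ n, (∑ p ∈ P, 1 / (p : ℝ) * b (p * n)) ^ 2 =
        ∑ p ∈ P, ∑ r ∈ P, (1 / (p : ℝ)) * (1 / (r : ℝ)) * (b (p * n) * b (r * n)) := by
      intro n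
      rw [sq, Finset.sum_mul_sum]
      refine Finset.sum_congr rfl fun p _ => Finset.sum_congr rfl fun r _ => ?_
      ring
    simp_rw [e1]
    rw [Finset.sum_comm, Finset.sum_div]
    refine Finset.sum_congr rfl fun p _ => ?_
    rw [Finset.sum_comm, Finset.sum_div]
    refine Finset.sum_congr rfl fun r _ => ?_
    rw [hc]
    dsimp only
    rw [← Finset.mul_sum, mul_div_assoc]
  rw [e]
  have h2 : ∀ p ∈ P, ∀ r ∈ P, (1 / (p : ℝ)) * (1 / (r : ℝ)) * c p r ≤
      4 * (if p = r then 1 / (p : ℝ) ^ 2 else 0) + |K| * (if p < r then 1 / (r : ℝ) ^ 2 else 0) +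
        |K| * (if r < p then 1 / (p : ℝ) ^ 2 else 0) + ε * ((1 / (p : ℝ)) * (1 / (r : ℝ))) := by
    intro p hp r hr
    have hp0 : (0 : ℝ) < p := by exact_mod_cast (hP p hp).1.pos
    have hr0 : (0 : ℝ) < r := by exact_mod_cast (hP r hr).1.pos
    have hpr0 : 0 < (1 / (p : ℝ)) * (1 / (r : ℝ)) := by positivity
    have key : ∀ p r : ℕ, p ∈ P → r ∈ P → p < r → (1 / (p : ℝ)) * (1 / (r : ℝ)) * c p r ≤
        |K| * (1 / (r : ℝ) ^ 2) + ε * ((1 / (p : ℝ)) * (1 / (r : ℝ))) := by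
      intro p r hp hr hpr
      have hp0 : (0 : ℝ) < p := by exact_mod_cast (hP p hp).1.pos
      have hr0 : (0 : ℝ) < r := by exact_mod_cast (hP r hr).1.pos
      have h3 := hκ p hp r hr hpr
      have h4 : c p r ≤ |K| * (p / r) + ε := by
        refine (le_abs_self _).trans (h3.trans ?_)
        have : K * ((p : ℝ) / r) ≤ |K| * (p / r) :=
          mul_le_mul_of_nonneg_right (le_abs_self K) (by positivity)
        linarith
      calc (1 / (p : ℝ)) * (1 / (r : ℝ)) * c p r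
          ≤ (1 / (p : ℝ)) * (1 / (r : ℝ)) * (|K| * (p / r) + ε) :=
            mul_le_mul_of_nonneg_left h4 (by positivity)
        _ = |K| * (1 / (r : ℝ) ^ 2) + ε * ((1 / (p : ℝ)) * (1 / (r : ℝ))) := by
            field_simp
    rcases lt_trichotomy p r with hpr | hpr | hpr
    · have h3 := key p r hp hr hpr
      simp only [hpr, hpr.ne, hpr.not_gt, if_true, if_false]
      linarith
    · subst hpr
      simp only [lt_irrefl, if_true, if_false]
      have h3 : (1 / (p : ℝ)) * (1 / (p : ℝ)) * c p p ≤ (1 / (p : ℝ)) * (1 / (p : ℝ)) * 4 :=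
        mul_le_mul_of_nonneg_left (hcd p) hpr0.le
      have h4 : (1 / (p : ℝ)) * (1 / (p : ℝ)) * 4 = 4 * (1 / (p : ℝ) ^ 2) := by
        field_simp
      have h5 : 0 ≤ ε * ((1 / (p : ℝ)) * (1 / (p : ℝ))) := by positivity
      linarith
    · have h3 := key r p hr hp hpr
      rw [hcs r p] at h3
      have h4 : (1 / (p : ℝ)) * (1 / (r : ℝ)) = (1 / (r : ℝ)) * (1 / (p : ℝ)) := mul_comm _ _
      simp only [hpr, hpr.ne', hpr.not_gt, if_true, if_false]
      rw [h4]
      linarith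
  have h3 := Finset.sum_le_sum fun p hp => Finset.sum_le_sum fun r hr => h2 p hp r hr
  refine h3.trans ?_
  simp only [Finset.sum_add_distrib, ← Finset.mul_sum]
  have h4 : ∑ p ∈ P, ∑ r ∈ P, (if p = r then 1 / (p : ℝ) ^ 2 else 0) ≤ ∑' n : ℕ, 1 / (n : ℝ) ^ 2 := by
    refine le_trans (le_of_eq ?_) (G_sq P)
    refine Finset.sum_congr rfl fun p hp => ?_
    rw [Finset.sum_ite_eq]
    simp [hp]
  have h5 := G_max P
  have h6 : ∑ p ∈ P, ∑ r ∈ P, (if r < p then 1 / (p : ℝ) ^ 2 else 0) ≤ ∑ r ∈ P, 1 / (r : ℝ) := by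
    rw [Finset.sum_comm]
    exact h5
  have h7 : ε * ∑ p ∈ P, 1 / (p : ℝ) * ∑ r ∈ P, 1 / (r : ℝ) = 1 := by
    rw [← Finset.sum_mul, ← hWdef, hε]
    have : W ≠ 0 := by positivity
    field_simp
  rw [← hWdef] at h5 h6
  have h8 := mul_le_mul_of_nonneg_left h5 (abs_nonneg K)
  have h9 := mul_le_mul_of_nonneg_left h6 (abs_nonneg K)
  linarith

/-- the main inequality for a finite set of primes -/
theorem G_main {b : ℕ → ℝ} (hb : ∀ n, |b n| ≤ 2) {K : ℝ}
    (h : ∀ p r : ℕ, p.Prime → r.Prime → 3 ≤ p → p < r → ∀ ε : ℝ, 0 < ε → ∀ᶠ κ : ℕ in atTop,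
      |(∑ n ∈ Finset.Ico (2 ^ κ) (2 ^ (κ + 1)), b (p * n) * b (r * n)) / 2 ^ κ| ≤ K * (p / r) + ε)
    {P : Finset ℕ} (hP : ∀ p ∈ P, p.Prime ∧ 3 ≤ p) (hW : 1 ≤ ∑ p ∈ P, 1 / (p : ℝ)) :
    ∀ᶠ N : ℕ in atTop, (∑ p ∈ P, 1 / (p : ℝ)) * |LogAvg (fun n => mu n * b n) N| ≤
      (8 + ((4 * (∑' n : ℕ, 1 / (n : ℝ) ^ 2) + 2 * |K| + 1) / Real.log 2 + 1) / 2 +
        2 * (∑' n : ℕ, 1 / (n : ℝ) ^ 2)) * Real.sqrt (∑ p ∈ P, 1 / (p : ℝ)) := by
  set W : ℝ := ∑ p ∈ P, 1 / (p : ℝ) with hWdef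
  set Z : ℝ := ∑' n : ℕ, 1 / (n : ℝ) ^ 2 with hZdef
  have hZ0 : 0 ≤ Z := tsum_nonneg fun n => by positivity
  set s : ℝ := Real.sqrt W with hs
  have hs2 : s * s = W := Real.mul_self_sqrt (by linarith)
  have hs1 : 1 ≤ s := by
    rw [hs]
    exact Real.one_le_sqrt.mpr hW
  have hs0 : 0 < s := by linarith
  set u : ℕ → ℝ := fun n => mu n * b n with hu
  have hub : ∀ n, |u n| ≤ 2 := by
    intro n
    rw [hu]
    dsimp only
    rw [abs_mul]
    calc |mu n| * |b n| ≤ 1 * 2 := mul_le_mul (abs_mu_le n) (hb n) (abs_nonneg _) zero_le_one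
      _ = 2 := by norm_num
  set B : ℕ → ℝ := fun n => ∑ p ∈ P, 1 / (p : ℝ) * b (p * n) with hB
  set M : ℝ := 4 * Z + 2 * |K| * W + 1 with hM
  have hM0 : 0 ≤ M := by positivity
  -- the four eventual bounds
  have E1 : ∀ᶠ N in atTop, LogAvg (fun _ => (1 : ℝ)) N ≤ 2 :=
    G_one.eventually_le_const (by norm_num)
  have E2 : ∀ᶠ N in atTop, LogAvg (fun n => (∑ p ∈ P, Gf p n) ^ 2) N ≤ W + 1 := by
    refine (G_TK fun p hp => (hP p hp).1).eventually_le_const ?_
    have : ∑ p ∈ P, (1 / (p:ℝ) - 1 / (p:ℝ) ^ 2) ≤ W := by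
      refine Finset.sum_le_sum fun p _ => ?_
      have : (0 : ℝ) ≤ 1 / (p:ℝ) ^ 2 := by positivity
      linarith
    linarith
  have E3 : ∀ᶠ N in atTop, LogAvg (fun n => B n ^ 2) N ≤ M / Real.log 2 + 1 :=
    G_blocks (fun n => sq_nonneg _) hM0 (G_second hb h hP hW)
  have E4 : ∀ᶠ N in atTop,
      ∑ p ∈ P, 1 / (p : ℝ) * LogAvg (fun n => if p ∣ n then (1 : ℝ) else 0) N ≤ Z + 1 := by
    have h1 : Tendsto (fun N => ∑ p ∈ P, 1 / (p : ℝ) *
        LogAvg (fun n => if p ∣ n then (1 : ℝ) else 0) N) atTop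
        (𝓝 (∑ p ∈ P, 1 / (p : ℝ) * (1 / (p : ℝ)))) :=
      tendsto_finsetSum _ fun p hp => (G_dvd (hP p hp).1.one_le).const_mul _
    refine h1.eventually_le_const ?_
    have h2 := G_sq P
    have h3 : ∑ p ∈ P, 1 / (p : ℝ) * (1 / (p : ℝ)) = ∑ p ∈ P, 1 / (p : ℝ) ^ 2 :=
      Finset.sum_congr rfl fun p _ => by rw [one_div_mul_one_div, ← sq]
    rw [h3]
    linarith
  have E5 : ∀ᶠ N : ℕ in atTop, (P.card : ℝ) * 2 / Real.log N ≤ 1 :=
    (G_small _).eventually_le_const (by norm_num)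
  filter_upwards [E1, E2, E3, E4, E5, eventually_ge_atTop 3] with N e1 e2 e3 e4 e5 hN
  have hlog := log_ge_one hN
  -- decomposition
  have d1 : W * LogAvg u N = ∑ p ∈ P, LogAvg (fun n => if p ∣ n then u n else 0) N -
      LogAvg (fun n => (∑ p ∈ P, Gf p n) * u n) N := by
    rw [← LogAvg_const_mul, ← G_LogAvg_sum, ← LogAvg_sub]
    refine LogAvg_congr fun n _ _ => ?_
    rw [hWdef, Finset.sum_mul, Finset.sum_mul, ← Finset.sum_sub_distrib]
    refine Finset.sum_congr rfl fun p _ => ?_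
    unfold Gf
    split_ifs <;> ring
  have d2 : |∑ p ∈ P, LogAvg (fun n => if p ∣ n then u n else 0) N -
      ∑ p ∈ P, 1 / (p : ℝ) * LogAvg (fun n => u (p * n)) N| ≤ 1 := by
    rw [← Finset.sum_sub_distrib]
    refine (Finset.abs_sum_le_sum_abs _ _).trans ?_
    calc _ ≤ ∑ p ∈ P, 2 / Real.log N := by
          refine Finset.sum_le_sum fun p hp => ?_
          have hp0 : (0 : ℝ) < p := by exact_mod_cast (hP p hp).1.pos
          have h1 := LogAvg_dilation hub (hP p hp).1.one_le hN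
          have h2 : LogAvg (fun k => if p ∣ k then (p : ℝ) * u k else 0) N =
              p * LogAvg (fun n => if p ∣ n then u n else 0) N := by
            rw [← LogAvg_const_mul]
            refine LogAvg_congr fun n _ _ => ?_
            split_ifs <;> simp
          rw [h2] at h1
          have h3 : LogAvg (fun n => if p ∣ n then u n else 0) N -
              1 / (p : ℝ) * LogAvg (fun n => u (p * n)) N =
              - (1 / (p : ℝ) * (LogAvg (fun n => u (p * n)) N -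
                p * LogAvg (fun n => if p ∣ n then u n else 0) N)) := by
            field_simp
            ring
          rw [h3, abs_neg, abs_mul, abs_of_pos (by positivity : 0 < 1 / (p : ℝ))]
          calc _ ≤ 1 / (p : ℝ) * (2 * p / Real.log N) :=
                mul_le_mul_of_nonneg_left h1 (by positivity)
            _ = 2 / Real.log N := by field_simp
      _ = P.card * 2 / Real.log N := by
          rw [Finset.sum_const, nsmul_eq_mul, mul_div_assoc]
      _ ≤ 1 := e5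
  have d3 : |LogAvg (fun n => (∑ p ∈ P, Gf p n) * u n) N| ≤ 4 * s := by
    refine (G_abs _ N).trans ?_
    have h1 : LogAvg (fun n => |(∑ p ∈ P, Gf p n) * u n|) N ≤
        LogAvg (fun n => s * 1 + 1 / s * (∑ p ∈ P, Gf p n) ^ 2) N := by
      refine LogAvg_mono fun n _ => ?_
      rw [abs_mul]
      have h2 : |∑ p ∈ P, Gf p n| * |u n| ≤ |∑ p ∈ P, Gf p n| * 2 :=
        mul_le_mul_of_nonneg_left (hub n) (abs_nonneg _)
      refine h2.trans ?_
      rw [mul_one, one_div, inv_mul_eq_div, ← sq_abs (∑ p ∈ P, Gf p n)]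
      have h3 : |∑ p ∈ P, Gf p n| * 2 * s ≤ (s + |∑ p ∈ P, Gf p n| ^ 2 / s) * s := by
        rw [add_mul, div_mul_cancel₀ _ hs0.ne']
        nlinarith [sq_nonneg (|∑ p ∈ P, Gf p n| - s)]
      exact le_of_mul_le_mul_right h3 hs0
    refine h1.trans ?_
    rw [LogAvg_add (fun _ => s * 1) (fun n => 1 / s * (∑ p ∈ P, Gf p n) ^ 2),
      LogAvg_const_mul s (fun _ => 1), LogAvg_const_mul (1 / s)]
    have h4 : 1 / s * LogAvg (fun n => (∑ p ∈ P, Gf p n) ^ 2) N ≤ 1 / s * (W + 1) :=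
      mul_le_mul_of_nonneg_left e2 (by positivity)
    have h5 : 1 / s * (W + 1) ≤ 2 * s := by
      rw [one_div, inv_mul_eq_div, div_le_iff₀ hs0]
      nlinarith
    nlinarith
  have d4 : |∑ p ∈ P, 1 / (p : ℝ) * LogAvg (fun n => u (p * n)) N| ≤
      (1 / 2) * (2 * s + (M / Real.log 2 + 1) / s) + 2 * (Z + 1) := by
    have h1 : ∑ p ∈ P, 1 / (p : ℝ) * LogAvg (fun n => u (p * n)) N =
        LogAvg (fun n => ∑ p ∈ P, 1 / (p : ℝ) * u (p * n)) N := by
      rw [G_LogAvg_sum]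
      exact Finset.sum_congr rfl fun p _ => (LogAvg_const_mul _ _ _).symm
    rw [h1]
    refine (G_abs _ N).trans ?_
    have h2 : LogAvg (fun n => |∑ p ∈ P, 1 / (p : ℝ) * u (p * n)|) N ≤
        LogAvg (fun n => (s / 2 * 1 + 1 / (2 * s) * B n ^ 2) +
          2 * ∑ p ∈ P, 1 / (p : ℝ) * (if p ∣ n then (1 : ℝ) else 0)) N := by
      refine LogAvg_mono fun n _ => ?_
      have h3 : ∑ p ∈ P, 1 / (p : ℝ) * u (p * n) = - (mu n * B n) +
          ∑ p ∈ P, 1 / (p : ℝ) * (if p ∣ n then mu n * b (p * n) else 0) := by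
        rw [hB]
        dsimp only
        rw [Finset.mul_sum, ← Finset.sum_neg_distrib, ← Finset.sum_add_distrib]
        refine Finset.sum_congr rfl fun p hp => ?_
        have hpp := (hP p hp).1
        rw [hu]
        dsimp only
        rw [mu_mul]
        have hmu : mu p = -1 := by
          unfold mu
          rw [ArithmeticFunction.moebius_apply_prime hpp]
          norm_num
        by_cases hd : p ∣ n
        · have : ¬ Nat.Coprime p n := by
            rw [hpp.coprime_iff_not_dvd]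
            exact not_not.mpr hd
          rw [if_neg this, if_pos hd]
          ring
        · have : Nat.Coprime p n := hpp.coprime_iff_not_dvd.mpr hd
          rw [if_pos this, if_neg hd, hmu]
          ring
      rw [h3]
      refine (abs_add_le _ _).trans (add_le_add ?_ ?_)
      · rw [abs_neg, abs_mul]
        have h4 : |mu n| * |B n| ≤ 1 * |B n| :=
          mul_le_mul_of_nonneg_right (abs_mu_le n) (abs_nonneg _)
        refine h4.trans ?_
        rw [one_mul, mul_one, one_div, inv_mul_eq_div, ← sq_abs (B n)]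
        have h5 : |B n| * (2 * s) ≤ (s / 2 + |B n| ^ 2 / (2 * s)) * (2 * s) := by
          rw [add_mul, div_mul_cancel₀ _ (by positivity)]
          nlinarith [sq_nonneg (|B n| - s)]
        exact le_of_mul_le_mul_right h5 (by positivity)
      · refine (Finset.abs_sum_le_sum_abs _ _).trans ?_
        rw [Finset.mul_sum]
        refine Finset.sum_le_sum fun p hp => ?_
        rw [abs_mul, abs_of_nonneg (by positivity : 0 ≤ 1 / (p : ℝ)), mul_left_comm]
        refine mul_le_mul_of_nonneg_left ?_ (by positivity)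
        split_ifs
        · rw [abs_mul]
          calc |mu n| * |b (p * n)| ≤ 1 * 2 :=
                mul_le_mul (abs_mu_le n) (hb _) (abs_nonneg _) zero_le_one
            _ = 2 * 1 := by norm_num
        · simp
    refine h2.trans ?_
    rw [LogAvg_add (fun n => s / 2 * 1 + 1 / (2 * s) * B n ^ 2)
        (fun n => 2 * ∑ p ∈ P, 1 / (p : ℝ) * (if p ∣ n then (1 : ℝ) else 0)),
      LogAvg_add (fun _ => s / 2 * 1) (fun n => 1 / (2 * s) * B n ^ 2),
      LogAvg_const_mul (s / 2) (fun _ => 1), LogAvg_const_mul (1 / (2 * s)),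
      LogAvg_const_mul 2, G_LogAvg_sum]
    have h6 : ∑ p ∈ P, LogAvg (fun n => 1 / (p : ℝ) * (if p ∣ n then (1 : ℝ) else 0)) N ≤ Z + 1 := by
      refine le_trans (le_of_eq ?_) e4
      exact Finset.sum_congr rfl fun p _ => LogAvg_const_mul _ _ _
    have h7 : 1 / (2 * s) * LogAvg (fun n => B n ^ 2) N ≤ 1 / (2 * s) * (M / Real.log 2 + 1) :=
      mul_le_mul_of_nonneg_left e3 (by positivity)
    have h8 : s / 2 * LogAvg (fun _ => 1) N ≤ s / 2 * 2 :=
      mul_le_mul_of_nonneg_left e1 (by positivity)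
    have h9 : 1 / (2 * s) * (M / Real.log 2 + 1) = 1 / 2 * ((M / Real.log 2 + 1) / s) := by
      field_simp
    linarith
  -- combine
  have hlog2 : 0 < Real.log 2 := Real.log_pos (by norm_num)
  have hMs : (M / Real.log 2 + 1) / s ≤ ((4 * Z + 2 * |K| + 1) / Real.log 2 + 1) * s := by
    rw [div_le_iff₀ hs0, mul_assoc, hs2, add_mul, div_mul_eq_mul_div]
    have h1 : M / Real.log 2 ≤ (4 * Z + 2 * |K| + 1) * W / Real.log 2 := by
      refine div_le_div_of_nonneg_right ?_ hlog2.le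
      rw [hM]
      nlinarith [mul_nonneg hZ0 (by linarith : 0 ≤ W - 1)]
    linarith
  have h1 : W * |LogAvg u N| = |W * LogAvg u N| := by
    rw [abs_mul, abs_of_nonneg (by linarith : 0 ≤ W)]
  rw [h1, d1]
  have h2 := abs_le.mp d2
  have h3 := abs_le.mp d3
  have h4 := abs_le.mp d4
  have h5 : (1 / 2) * (2 * s + (M / Real.log 2 + 1) / s) + 2 * (Z + 1) + 1 + 4 * s ≤
      (8 + ((4 * Z + 2 * |K| + 1) / Real.log 2 + 1) / 2 + 2 * Z) * s := by
    nlinarith [mul_nonneg hZ0 (by linarith : 0 ≤ s - 1)]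
  refine le_trans ?_ h5
  rw [abs_le]
  constructor <;> linarith [h2.1, h2.2, h3.1, h3.2, h4.1, h4.2]

theorem katai_log {b : ℕ → ℝ} (hb : ∀ n, |b n| ≤ 2) {K : ℝ}
    (h : ∀ p r : ℕ, p.Prime → r.Prime → 3 ≤ p → p < r → ∀ ε : ℝ, 0 < ε → ∀ᶠ κ : ℕ in atTop,
      |(∑ n ∈ Finset.Ico (2 ^ κ) (2 ^ (κ + 1)), b (p * n) * b (r * n)) / 2 ^ κ| ≤ K * (p / r) + ε) :
    Tendsto (LogAvg fun n => mu n * b n) atTop (𝓝 0) := by
  set A : ℝ := 8 + ((4 * (∑' n : ℕ, 1 / (n : ℝ) ^ 2) + 2 * |K| + 1) / Real.log 2 + 1) / 2 +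
        2 * (∑' n : ℕ, 1 / (n : ℝ) ^ 2) with hA
  have hZ0 : 0 ≤ ∑' n : ℕ, 1 / (n : ℝ) ^ 2 := tsum_nonneg fun n => by positivity
  have hlog2 : 0 < Real.log 2 := Real.log_pos (by norm_num)
  have hA0 : 0 < A := by positivity
  rw [Metric.tendsto_nhds]
  intro ε hε
  obtain ⟨P, hP, hT⟩ := G_exists_primes (max 1 ((A / ε + 1) ^ 2))
  have hW : 1 ≤ ∑ p ∈ P, 1 / (p : ℝ) := (le_max_left _ _).trans hT
  filter_upwards [G_main hb h hP hW] with N hN
  rw [← hA] at hN
  set W : ℝ := ∑ p ∈ P, 1 / (p : ℝ) with hWdef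
  set s : ℝ := Real.sqrt W with hs
  have hs2 : s * s = W := Real.mul_self_sqrt (by linarith)
  have hs1 : A / ε + 1 ≤ s := Real.le_sqrt_of_sq_le ((le_max_right _ _).trans hT)
  have hs0 : 0 < s := by
    have : 0 < A / ε := by positivity
    linarith
  rw [Real.dist_eq, sub_zero]
  rw [← hs2, mul_assoc] at hN
  have h1 : s * |LogAvg (fun n => mu n * b n) N| ≤ A := by
    have h2 : s * (s * |LogAvg (fun n => mu n * b n) N|) ≤ s * A := by linarith
    exact le_of_mul_le_mul_left h2 hs0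
  have h2 : A < s * ε := by
    have : A / ε < s := by linarith
    rwa [div_lt_iff₀ hε] at this
  exact lt_of_mul_lt_mul_left (h1.trans_lt h2) hs0.le

end Pool.Agent.Lib.MP_3e612f_nt.DS
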