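import Pool.Agent.Lib.MP_3e612f_nt.CDefs
import Pool.Agent.Lib.MP_3e612f_nt.Katai

/-!
Katai's orthogonality criterion (Daboussi, Katai, Bourgain-Sarnak-Ziegler), ordinary averages.
-/

set_option autoImplicit false

namespace Pool.Agent.Lib.MP_3e612f_nt.CA

open Filter Topology
open Pool.Agent.Lib.MP_3e612f_nt.DS (Gf G_sq G_exists_primes)

theorem t17_one : Tendsto (CesAvg fun _ => (1 : ℝ)) atTop (𝓝 1) := by
  refine tendsto_const_nhds.congr' ?_
  filter_upwards [eventually_ge_atTop 1] with N hN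
  unfold CesAvg
  rw [Finset.sum_const, Nat.card_Icc, nsmul_eq_mul]
  have : (N : ℝ) ≠ 0 := by positivity
  rw [Nat.add_sub_cancel, mul_one, div_self this]

/-- the multiples of `p` -/
theorem t17_mult {p : ℕ} (hp : 1 ≤ p) (u : ℕ → ℝ) (N : ℕ) :
    ∑ n ∈ Finset.Icc 1 N, (if p ∣ n then u n else 0)
      = ∑ m ∈ Finset.Icc 1 (N / p), u (p * m) := by
  rw [← Finset.sum_filter]
  symm
  refine Finset.sum_nbij' (fun m => p * m) (fun n => n / p) ?_ ?_ ?_ ?_ ?_
  · intro m hm
    rw [Finset.mem_Icc] at hm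
    rw [Finset.mem_filter, Finset.mem_Icc]
    refine ⟨⟨Nat.mul_pos hp hm.1, ?_⟩, Dvd.intro m rfl⟩
    have := (Nat.le_div_iff_mul_le hp).1 hm.2
    rw [mul_comm]
    exact this
  · intro n hn
    rw [Finset.mem_filter, Finset.mem_Icc] at hn
    obtain ⟨⟨h1, h2⟩, k, rfl⟩ := hn
    rw [Nat.mul_div_cancel_left _ hp, Finset.mem_Icc]
    refine ⟨Nat.pos_of_mul_pos_left h1 |> fun h => ?_, ?_⟩
    · rcases Nat.eq_zero_or_pos k with h0 | h0
      · rw [h0, mul_zero] at h1
        omega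
      · exact h0
    · rw [Nat.le_div_iff_mul_le hp, mul_comm]
      exact h2
  · intro m _
    exact Nat.mul_div_cancel_left _ hp
  · intro n hn
    rw [Finset.mem_filter] at hn
    exact Nat.mul_div_cancel' hn.2
  · intro m _
    rfl

theorem t17_dvd {m : ℕ} (hm : 1 ≤ m) :
    Tendsto (CesAvg fun n => if m ∣ n then (1 : ℝ) else 0) atTop (𝓝 (1 / m)) := by
  have hm' : (0 : ℝ) < m := by exact_mod_cast hm
  have e : ∀ N : ℕ, CesAvg (fun n => if m ∣ n then (1 : ℝ) else 0) N = ((N / m : ℕ) : ℝ) / N := by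
    intro N
    unfold CesAvg
    rw [t17_mult hm (fun _ => 1), Finset.sum_const, Nat.card_Icc, nsmul_eq_mul, mul_one,
      Nat.add_sub_cancel]
  have h1 : Tendsto (fun N : ℕ => 1 / (m : ℝ) - 1 / (N : ℝ)) atTop (𝓝 (1 / m)) := by
    have := (tendsto_const_nhds (x := 1 / (m : ℝ))).sub tendsto_one_div_atTop_nhds_zero_nat
    rwa [sub_zero] at this
  refine tendsto_of_tendsto_of_tendsto_of_le_of_le' h1 tendsto_const_nhds ?_ ?_
  · filter_upwards [eventually_ge_atTop 1] with N hN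
    have hN' : (0 : ℝ) < N := by exact_mod_cast hN
    rw [e, sub_le_iff_le_add, ← add_div, div_le_div_iff₀ hm' hN']
    have h2 := Nat.lt_mul_div_succ N hm
    have h3 : (N : ℝ) < m * (((N / m : ℕ) : ℝ) + 1) := by exact_mod_cast h2
    linarith
  · filter_upwards [eventually_ge_atTop 1] with N hN
    have hN' : (0 : ℝ) < N := by exact_mod_cast hN
    rw [e, div_le_div_iff₀ hN' hm']
    have h2 := Nat.div_mul_le_self N m
    have h3 : ((N / m : ℕ) : ℝ) * m ≤ N := by exact_mod_cast h2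
    linarith

theorem t17_cov {p q : ℕ} (hp : p.Prime) (hq : q.Prime) :
    Tendsto (CesAvg fun n => Gf p n * Gf q n) atTop
      (𝓝 (if p = q then 1 / (p:ℝ) - 1 / (p:ℝ) ^ 2 else 0)) := by
  have hp' : (0 : ℝ) < p := by exact_mod_cast hp.pos
  have hq' : (0 : ℝ) < q := by exact_mod_cast hq.pos
  have e : ∀ N, CesAvg (fun n => Gf p n * Gf q n) N =
      CesAvg (fun n => (if p ∣ n then (1 : ℝ) else 0) * (if q ∣ n then (1 : ℝ) else 0)) N
      - (1 / q) * CesAvg (fun n => if p ∣ n then (1 : ℝ) else 0) N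
      - (1 / p) * CesAvg (fun n => if q ∣ n then (1 : ℝ) else 0) N
      + (1 / p * (1 / q)) * CesAvg (fun _ => 1) N := by
    intro N
    rw [← CesAvg_const_mul, ← CesAvg_const_mul, ← CesAvg_const_mul, ← CesAvg_sub, ← CesAvg_sub,
      ← CesAvg_add]
    refine CesAvg_congr fun n _ _ => ?_
    unfold Gf
    ring
  have hd : Tendsto (CesAvg fun n => (if p ∣ n then (1 : ℝ) else 0) * (if q ∣ n then (1 : ℝ) else 0))
      atTop (𝓝 (if p = q then 1 / (p : ℝ) else 1 / p * (1 / q))) := by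
    split_ifs with hpq
    · subst hpq
      refine (t17_dvd hp.one_le).congr fun N => CesAvg_congr fun n _ _ => ?_
      split_ifs <;> simp
    · have h1 := t17_dvd (m := p * q) (Nat.mul_pos hp.pos hq.pos)
      push_cast at h1
      rw [one_div_mul_one_div]
      refine h1.congr fun N => CesAvg_congr fun n _ _ => ?_
      have h2 : p * q ∣ n ↔ p ∣ n ∧ q ∣ n :=
        ⟨fun h => ⟨dvd_of_mul_right_dvd h, dvd_of_mul_left_dvd h⟩,
          fun h => ((Nat.coprime_primes hp hq).mpr hpq).mul_dvd_of_dvd_of_dvd h.1 h.2⟩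
      by_cases h3 : p ∣ n <;> by_cases h4 : q ∣ n <;> simp [h2, h3, h4]
  have h := ((hd.sub ((t17_dvd hp.one_le).const_mul (1 / (q : ℝ)))).sub
    ((t17_dvd hq.one_le).const_mul (1 / (p : ℝ)))).add (t17_one.const_mul (1 / (p : ℝ) * (1 / q)))
  have h' := h.congr fun N => (e N).symm
  convert h' using 2
  split_ifs with hpq
  · subst hpq
    field_simp
    ring
  · field_simp
    ring

/-- Turan-Kubilius -/
theorem t17_TK {P : Finset ℕ} (hP : ∀ p ∈ P, p.Prime) :
    Tendsto (CesAvg fun n => (∑ p ∈ P, Gf p n) ^ 2) atTop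
      (𝓝 (∑ p ∈ P, (1 / (p:ℝ) - 1 / (p:ℝ) ^ 2))) := by
  have e : ∀ N, ∑ p ∈ P, ∑ q ∈ P, CesAvg (fun n => Gf p n * Gf q n) N =
      CesAvg (fun n => (∑ p ∈ P, Gf p n) ^ 2) N := by
    intro N
    simp_rw [← CesAvg_finset_sum]
    refine CesAvg_congr fun n _ _ => ?_
    rw [sq, Finset.sum_mul_sum]
  have h : Tendsto (fun N => ∑ p ∈ P, ∑ q ∈ P, CesAvg (fun n => Gf p n * Gf q n) N) atTop
      (𝓝 (∑ p ∈ P, ∑ q ∈ P, if p = q then 1 / (p:ℝ) - 1 / (p:ℝ) ^ 2 else 0)) :=
    tendsto_finsetSum _ fun p hp => tendsto_finsetSum _ fun q hq => t17_cov (hP p hp) (hP q hq)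
  have h' := h.congr e
  convert h' using 2
  refine Finset.sum_congr rfl fun p hp => ?_
  rw [Finset.sum_ite_eq]
  simp [hp]

theorem t17_geom (r : ℝ) (J : ℕ) (C : ℝ) (hC : C * (1 - r) = 1) (hr : 0 ≤ r) (hC0 : 0 ≤ C) :
    ∑ j ∈ Finset.range J, r ^ j ≤ C := by
  have h1 : ∑ j ∈ Finset.range J, r ^ j = C - C * r ^ J := by
    induction J with
    | zero => simp
    | succ J ih =>
      rw [Finset.sum_range_succ, ih, pow_succ]
      linear_combination (-(r ^ J)) * hC
  rw [h1]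
  have : 0 ≤ C * r ^ J := by positivity
  linarith

/-- one dyadic class -/
theorem t17_class {b : ℕ → ℝ} {A : ℝ} (hA : 1 ≤ A) (hb : ∀ n, |b n| ≤ A) {a : ℕ → ℝ}
    (ha : ∀ n, |a n| ≤ 1) {P : Finset ℕ} {j : ℕ} (hP : ∀ p ∈ P, 2 ^ j ≤ p ∧ p < 2 ^ (j + 1))
    {s : ℝ} (hs : 0 < s) (N : ℕ) :
    |∑ p ∈ P, ∑ m ∈ Finset.Icc 1 (N / p), a m * b (p * m)| ≤
      s / 2 * (N / 2 ^ j) + 1 / (2 * s) * (2 ^ j * (A ^ 2 * (N / 2 ^ j)) +
        ∑ p ∈ P, ∑ r ∈ P, (if p ≠ r then
          |∑ m ∈ Finset.Icc 1 (N / max p r), b (p * m) * b (r * m)| else 0)) := by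
  have hp2 : ∀ p ∈ P, 1 ≤ p := fun p hp => le_trans Nat.one_le_two_pow (hP p hp).1
  set M : ℕ := N / 2 ^ j with hM
  have hMr : (M : ℝ) ≤ N / 2 ^ j := by
    rw [hM, le_div_iff₀ (by positivity)]
    exact_mod_cast Nat.div_mul_le_self N (2 ^ j)
  -- a common range of summation
  have hrange : ∀ R : ℕ, 2 ^ j ≤ R → ∀ f : ℕ → ℝ, ∑ m ∈ Finset.Icc 1 (N / R), f m
      = ∑ m ∈ Finset.Icc 1 M, if R * m ≤ N then f m else 0 := by
    intro R hR f
    have hR0 : 0 < R := lt_of_lt_of_le (by positivity) hR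
    rw [← Finset.sum_filter]
    refine Finset.sum_congr ?_ fun _ _ => rfl
    ext m
    rw [Finset.mem_filter, Finset.mem_Icc, Finset.mem_Icc, Nat.le_div_iff_mul_le hR0, hM,
      Nat.le_div_iff_mul_le (by positivity), mul_comm m R]
    constructor
    · rintro ⟨h1, h2⟩
      refine ⟨⟨h1, le_trans ?_ h2⟩, h2⟩
      rw [mul_comm]
      exact Nat.mul_le_mul_right m hR
    · rintro ⟨⟨h1, _⟩, h3⟩
      exact ⟨h1, h3⟩
  set g : ℕ → ℝ := fun m => ∑ p ∈ P, if p * m ≤ N then b (p * m) else 0 with hg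
  have e1 : ∑ p ∈ P, ∑ m ∈ Finset.Icc 1 (N / p), a m * b (p * m)
      = ∑ m ∈ Finset.Icc 1 M, a m * g m := by
    rw [Finset.sum_congr rfl fun p hp => hrange p (hP p hp).1 fun m => a m * b (p * m),
      Finset.sum_comm]
    refine Finset.sum_congr rfl fun m _ => ?_
    rw [hg]
    dsimp only
    rw [Finset.mul_sum]
    refine Finset.sum_congr rfl fun p _ => ?_
    rw [mul_ite, mul_zero]
  have e2 : ∑ m ∈ Finset.Icc 1 M, g m ^ 2
      = ∑ p ∈ P, ∑ r ∈ P, ∑ m ∈ Finset.Icc 1 (N / max p r), b (p * m) * b (r * m) := by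
    have h1 : ∀ p ∈ P, ∀ r ∈ P, ∑ m ∈ Finset.Icc 1 (N / max p r), b (p * m) * b (r * m)
        = ∑ m ∈ Finset.Icc 1 M, (if p * m ≤ N then b (p * m) else 0) *
          (if r * m ≤ N then b (r * m) else 0) := by
      intro p hp r hr
      rw [hrange (max p r) (le_trans (hP p hp).1 (le_max_left _ _))]
      refine Finset.sum_congr rfl fun m _ => ?_
      have h2 : max p r * m ≤ N ↔ p * m ≤ N ∧ r * m ≤ N := by
        rw [← Nat.mul_max_mul_right p r m, max_le_iff]
      by_cases h3 : p * m ≤ N <;> by_cases h4 : r * m ≤ N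
      · rw [if_pos (h2.2 ⟨h3, h4⟩), if_pos h3, if_pos h4]
      · rw [if_neg (fun h5 => h4 (h2.1 h5).2), if_neg h4, mul_zero]
      · rw [if_neg (fun h5 => h3 (h2.1 h5).1), if_neg h3, zero_mul]
      · rw [if_neg (fun h5 => h3 (h2.1 h5).1), if_neg h3, zero_mul]
    rw [Finset.sum_congr rfl fun p hp => Finset.sum_congr rfl fun r hr => h1 p hp r hr]
    rw [Finset.sum_congr rfl fun p _ => Finset.sum_comm, Finset.sum_comm]
    refine Finset.sum_congr rfl fun m _ => ?_
    rw [hg]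
    dsimp only
    rw [sq, Finset.sum_mul_sum]
  have hcard : (P.card : ℝ) ≤ 2 ^ j := by
    have h1 : P.card ≤ 2 ^ j := by
      calc P.card ≤ (Finset.Ico (2 ^ j) (2 ^ (j + 1))).card :=
            Finset.card_le_card fun p hp => Finset.mem_Ico.2 (hP p hp)
        _ = 2 ^ j := by
            rw [Nat.card_Ico, pow_succ]
            omega
    exact_mod_cast h1
  have e3 : ∑ m ∈ Finset.Icc 1 M, g m ^ 2 ≤ 2 ^ j * (A ^ 2 * (N / 2 ^ j)) +
        ∑ p ∈ P, ∑ r ∈ P, (if p ≠ r then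
          |∑ m ∈ Finset.Icc 1 (N / max p r), b (p * m) * b (r * m)| else 0) := by
    rw [e2]
    have h1 : ∀ p ∈ P, ∑ r ∈ P, ∑ m ∈ Finset.Icc 1 (N / max p r), b (p * m) * b (r * m) ≤
        A ^ 2 * (N / 2 ^ j) + ∑ r ∈ P, (if p ≠ r then
          |∑ m ∈ Finset.Icc 1 (N / max p r), b (p * m) * b (r * m)| else 0) := by
      intro p hp
      have h2 : ∀ r ∈ P, ∑ m ∈ Finset.Icc 1 (N / max p r), b (p * m) * b (r * m) ≤
          (if p = r then A ^ 2 * (N / 2 ^ j) else 0) + (if p ≠ r then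
          |∑ m ∈ Finset.Icc 1 (N / max p r), b (p * m) * b (r * m)| else 0) := by
        intro r hr
        by_cases hpr : p = r
        · subst hpr
          simp only [max_self, if_true, ne_eq, not_true_eq_false, if_false, add_zero]
          calc ∑ m ∈ Finset.Icc 1 (N / p), b (p * m) * b (p * m)
              ≤ ∑ m ∈ Finset.Icc 1 (N / p), A ^ 2 := by
                refine Finset.sum_le_sum fun m _ => ?_
                rw [← sq, ← sq_abs]
                exact pow_le_pow_left₀ (abs_nonneg _) (hb _) 2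
            _ = ((N / p : ℕ) : ℝ) * A ^ 2 := by
                rw [Finset.sum_const, Nat.card_Icc, nsmul_eq_mul, Nat.add_sub_cancel]
            _ ≤ A ^ 2 * (N / 2 ^ j) := by
                rw [mul_comm]
                refine mul_le_mul_of_nonneg_left ?_ (by positivity)
                refine le_trans ?_ hMr
                exact_mod_cast Nat.div_le_div_left (hP p hp).1 (by positivity)
        · rw [if_neg hpr, if_pos hpr, zero_add]
          exact le_abs_self _
      refine (Finset.sum_le_sum h2).trans (le_of_eq ?_)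
      rw [Finset.sum_add_distrib, Finset.sum_ite_eq, if_pos hp]
    refine (Finset.sum_le_sum h1).trans ?_
    rw [Finset.sum_add_distrib, Finset.sum_const, nsmul_eq_mul]
    have h3 : (0 : ℝ) ≤ A ^ 2 * (N / 2 ^ j) := by positivity
    have h4 := mul_le_mul_of_nonneg_right hcard h3
    linarith
  rw [e1]
  calc |∑ m ∈ Finset.Icc 1 M, a m * g m| ≤ ∑ m ∈ Finset.Icc 1 M, |a m * g m| :=
        Finset.abs_sum_le_sum_abs _ _
    _ ≤ ∑ m ∈ Finset.Icc 1 M, (s / 2 + 1 / (2 * s) * g m ^ 2) := by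
        refine Finset.sum_le_sum fun m _ => ?_
        rw [abs_mul]
        have h1 : |a m| * |g m| ≤ 1 * |g m| := mul_le_mul_of_nonneg_right (ha m) (abs_nonneg _)
        refine h1.trans ?_
        rw [one_mul, one_div, inv_mul_eq_div, ← sq_abs (g m)]
        have h5 : |g m| * (2 * s) ≤ (s / 2 + |g m| ^ 2 / (2 * s)) * (2 * s) := by
          rw [add_mul, div_mul_cancel₀ _ (by positivity)]
          nlinarith [sq_nonneg (|g m| - s)]
        exact le_of_mul_le_mul_right h5 (by positivity)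
    _ = s / 2 * M + 1 / (2 * s) * ∑ m ∈ Finset.Icc 1 M, g m ^ 2 := by
        rw [Finset.sum_add_distrib, Finset.sum_const, Nat.card_Icc, nsmul_eq_mul,
          Nat.add_sub_cancel, ← Finset.mul_sum]
        ring
    _ ≤ _ := by
        refine add_le_add (mul_le_mul_of_nonneg_left hMr (by positivity)) ?_
        exact mul_le_mul_of_nonneg_left e3 (by positivity)

theorem t17_pair {v : ℕ → ℝ} (h : Tendsto (CesAvg v) atTop (𝓝 0)) {R : ℕ} (hR : 1 ≤ R) :
    Tendsto (fun N : ℕ => |∑ m ∈ Finset.Icc 1 (N / R), v m| / N) atTop (𝓝 0) := by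
  have h1 : Tendsto (fun N : ℕ => |CesAvg v (N / R)|) atTop (𝓝 0) := by
    have h2 := (h.comp (Nat.tendsto_div_const_atTop (by omega : R ≠ 0))).abs
    rwa [abs_zero] at h2
  refine squeeze_zero (fun N => by positivity) (fun N => ?_) h1
  unfold CesAvg
  rw [abs_div, Nat.abs_cast]
  rcases Nat.eq_zero_or_pos (N / R) with h0 | h0
  · rw [h0]
    simp
  · refine div_le_div_of_nonneg_left (abs_nonneg _) (by exact_mod_cast h0) ?_
    exact_mod_cast Nat.div_le_self N R

/-- the bilinear part -/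
theorem t17_second {b : ℕ → ℝ} {A : ℝ} (hA : 1 ≤ A) (hb : ∀ n, |b n| ≤ A)
    (h : ∀ p r : ℕ, p.Prime → r.Prime → p < r →
      Tendsto (CesAvg fun n => b (p * n) * b (r * n)) atTop (𝓝 0))
    {a : ℕ → ℝ} (ha : ∀ n, |a n| ≤ 1) {P : Finset ℕ} (hP : ∀ p ∈ P, p.Prime) :
    ∀ᶠ N : ℕ in atTop, |∑ p ∈ P, ∑ m ∈ Finset.Icc 1 (N / p), a m * b (p * m)|
      ≤ (4 * A + 1) * N := by
  set E : ℕ → ℝ := fun N => ∑ p ∈ P, ∑ r ∈ P, (if p ≠ r then
          |∑ m ∈ Finset.Icc 1 (N / max p r), b (p * m) * b (r * m)| else 0) with hE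
  have hE1 : Tendsto (fun N => E N / N) atTop (𝓝 0) := by
    have h1 : ∀ N, E N / N = ∑ p ∈ P, ∑ r ∈ P, (if p ≠ r then
          |∑ m ∈ Finset.Icc 1 (N / max p r), b (p * m) * b (r * m)| / N else 0) := by
      intro N
      rw [hE]
      dsimp only
      rw [Finset.sum_div]
      refine Finset.sum_congr rfl fun p _ => ?_
      rw [Finset.sum_div]
      refine Finset.sum_congr rfl fun r _ => ?_
      split_ifs
      · rfl
      · rw [zero_div]
    have h2 : Tendsto (fun N : ℕ => ∑ p ∈ P, ∑ r ∈ P, (if p ≠ r then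
          |∑ m ∈ Finset.Icc 1 (N / max p r), b (p * m) * b (r * m)| / N else 0)) atTop
          (𝓝 (∑ p ∈ P, ∑ r ∈ P, 0)) := by
      refine tendsto_finsetSum _ fun p hp => tendsto_finsetSum _ fun r hr => ?_
      by_cases hpr : p = r
      · simp [hpr]
      · simp only [ne_eq, hpr, not_false_eq_true, if_true]
        refine t17_pair ?_ (le_trans (hP p hp).one_le (le_max_left _ _))
        rcases Nat.lt_or_gt_of_ne hpr with h3 | h3
        · exact h p r (hP p hp) (hP r hr) h3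
        · refine (h r p (hP r hr) (hP p hp) h3).congr fun N => ?_
          exact CesAvg_congr fun n _ _ => mul_comm _ _
    simp only [Finset.sum_const_zero] at h2
    exact h2.congr fun N => (h1 N).symm
  filter_upwards [hE1.eventually_le_const (show (0 : ℝ) < 1 by norm_num),
    eventually_ge_atTop 1] with N hN hN1
  have hN0 : (0 : ℝ) < N := by exact_mod_cast hN1
  rw [div_le_iff₀ hN0, one_mul] at hN
  obtain ⟨J, hJ⟩ : ∃ J, ∀ p ∈ P, Nat.log 2 p < J :=
    ⟨P.sup (Nat.log 2) + 1, fun p hp => Nat.lt_succ_of_le (Finset.le_sup (f := Nat.log 2) hp)⟩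
  have hmaps : ∀ p ∈ P, Nat.log 2 p ∈ Finset.range J := fun p hp => Finset.mem_range.2 (hJ p hp)
  rw [← Finset.sum_fiberwise_of_maps_to hmaps]
  refine (Finset.abs_sum_le_sum_abs _ _).trans ?_
  have hcl : ∀ j ∈ Finset.range J, |∑ p ∈ P with Nat.log 2 p = j,
      ∑ m ∈ Finset.Icc 1 (N / p), a m * b (p * m)| ≤
      (A * N / 2) * (3 / 4) ^ j + (A * N / 2) * (2 / 3) ^ j +
        ∑ p ∈ P with Nat.log 2 p = j, ∑ r ∈ P, (if p ≠ r then
          |∑ m ∈ Finset.Icc 1 (N / max p r), b (p * m) * b (r * m)| else 0) := by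
    intro j _
    have hs : 0 < A * (3 / 2) ^ j := by positivity
    have h1 := t17_class hA hb ha (P := P.filter fun p => Nat.log 2 p = j) (j := j) (by
      intro p hp
      rw [Finset.mem_filter] at hp
      have hp0 := (hP p hp.1).ne_zero
      constructor
      · rw [← hp.2]
        exact Nat.pow_log_le_self 2 hp0
      · rw [← hp.2]
        exact Nat.lt_pow_succ_log_self (by norm_num) p) hs N
    refine h1.trans ?_
    set X : ℝ := ∑ p ∈ P with Nat.log 2 p = j, ∑ r ∈ P with Nat.log 2 r = j, (if p ≠ r then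
          |∑ m ∈ Finset.Icc 1 (N / max p r), b (p * m) * b (r * m)| else 0) with hX
    have hXle : X ≤ ∑ p ∈ P with Nat.log 2 p = j, ∑ r ∈ P, (if p ≠ r then
          |∑ m ∈ Finset.Icc 1 (N / max p r), b (p * m) * b (r * m)| else 0) := by
      refine Finset.sum_le_sum fun p _ => ?_
      refine Finset.sum_le_sum_of_subset_of_nonneg (Finset.filter_subset _ _) fun r _ _ => ?_
      split_ifs
      · exact abs_nonneg _
      · exact le_rfl
    have hX0 : 0 ≤ X := by
      refine Finset.sum_nonneg fun p _ => Finset.sum_nonneg fun r _ => ?_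
      split_ifs
      · exact abs_nonneg _
      · exact le_rfl
    have h32 : (1 : ℝ) ≤ (3 / 2) ^ j := one_le_pow₀ (by norm_num)
    have hs2 : 1 ≤ 2 * (A * (3 / 2) ^ j) := by nlinarith
    have e1 : A * (3 / 2) ^ j / 2 * (N / 2 ^ j) = (A * N / 2) * (3 / 4) ^ j := by
      have : (3 / 4 : ℝ) ^ j = (3 / 2) ^ j / 2 ^ j := by
        rw [← div_pow]
        norm_num
      rw [this]
      ring
    have e2 : 1 / (2 * (A * (3 / 2) ^ j)) * (2 ^ j * (A ^ 2 * (N / 2 ^ j)))
        = (A * N / 2) * (2 / 3) ^ j := by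
      have : (2 / 3 : ℝ) ^ j = 1 / (3 / 2) ^ j := by
        rw [one_div, ← inv_pow]
        norm_num
      rw [this]
      field_simp
    have e3 : 1 / (2 * (A * (3 / 2) ^ j)) * X ≤ X := by
      have : 1 / (2 * (A * (3 / 2) ^ j)) ≤ 1 := by
        rw [div_le_one (by positivity)]
        exact hs2
      exact mul_le_of_le_one_left hX0 this
    rw [e1, mul_add, e2]
    linarith
  refine (Finset.sum_le_sum hcl).trans ?_
  rw [Finset.sum_add_distrib, Finset.sum_add_distrib, ← Finset.mul_sum, ← Finset.mul_sum,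
    Finset.sum_fiberwise_of_maps_to hmaps]
  have g1 := t17_geom (3 / 4) J 4 (by norm_num) (by norm_num) (by norm_num)
  have g2 := t17_geom (2 / 3) J 3 (by norm_num) (by norm_num) (by norm_num)
  have hAN : 0 ≤ A * N / 2 := by positivity
  have g3 := mul_le_mul_of_nonneg_left g1 hAN
  have g4 := mul_le_mul_of_nonneg_left g2 hAN
  have g5 : 0 ≤ A * N := by positivity
  have g6 : E N = ∑ p ∈ P, ∑ r ∈ P, (if p ≠ r then
          |∑ m ∈ Finset.Icc 1 (N / max p r), b (p * m) * b (r * m)| else 0) := rfl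
  rw [← g6]
  linarith

/-- the main inequality for a finite set of primes -/
theorem t17_main {b : ℕ → ℝ} {A : ℝ} (hA : 1 ≤ A) (hb : ∀ n, |b n| ≤ A)
    (h : ∀ p r : ℕ, p.Prime → r.Prime → p < r →
      Tendsto (CesAvg fun n => b (p * n) * b (r * n)) atTop (𝓝 0))
    {P : Finset ℕ} (hP : ∀ p ∈ P, p.Prime) (hW : 1 ≤ ∑ p ∈ P, 1 / (p : ℝ)) :
    ∀ᶠ N : ℕ in atTop, (∑ p ∈ P, 1 / (p : ℝ)) * |CesAvg (fun n => mu n * b n) N| ≤
      (A * (8 + ∑' n : ℕ, 1 / (n : ℝ) ^ 2)) * Real.sqrt (∑ p ∈ P, 1 / (p : ℝ)) := by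
  set W : ℝ := ∑ p ∈ P, 1 / (p : ℝ) with hWdef
  set Z : ℝ := ∑' n : ℕ, 1 / (n : ℝ) ^ 2 with hZdef
  have hZ0 : 0 ≤ Z := tsum_nonneg fun n => by positivity
  set s : ℝ := Real.sqrt W with hs
  have hs2 : s * s = W := Real.mul_self_sqrt (by linarith)
  have hs1 : 1 ≤ s := by
    rw [hs]
    exact Real.one_le_sqrt.mpr hW
  have hs0 : 0 < s := by linarith
  have hA0 : 0 < A := by linarith
  set u : ℕ → ℝ := fun n => mu n * b n with hu
  have hub : ∀ n, |u n| ≤ A := by
    intro n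
    rw [hu]
    dsimp only
    rw [abs_mul]
    calc |mu n| * |b n| ≤ 1 * A := mul_le_mul (abs_mu_le n) (hb n) (abs_nonneg _) zero_le_one
      _ = A := one_mul A
  have E1 : ∀ᶠ N in atTop, CesAvg (fun _ => (1 : ℝ)) N ≤ 2 :=
    t17_one.eventually_le_const (by norm_num)
  have E2 : ∀ᶠ N in atTop, CesAvg (fun n => (∑ p ∈ P, Gf p n) ^ 2) N ≤ W + 1 := by
    refine (t17_TK fun p hp => hP p hp).eventually_le_const ?_
    have : ∑ p ∈ P, (1 / (p:ℝ) - 1 / (p:ℝ) ^ 2) ≤ W := by
      refine Finset.sum_le_sum fun p _ => ?_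
      have : (0 : ℝ) ≤ 1 / (p:ℝ) ^ 2 := by positivity
      linarith
    linarith
  filter_upwards [E1, E2, t17_second hA hb h abs_mu_le hP, eventually_ge_atTop 1]
    with N e1 e2 e3 hN
  have hN0 : (0 : ℝ) < N := by exact_mod_cast hN
  -- decomposition
  have d1 : W * CesAvg u N = ∑ p ∈ P, CesAvg (fun n => if p ∣ n then u n else 0) N -
      CesAvg (fun n => (∑ p ∈ P, Gf p n) * u n) N := by
    rw [← CesAvg_const_mul, ← CesAvg_finset_sum, ← CesAvg_sub]
    refine CesAvg_congr fun n _ _ => ?_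
    rw [hWdef, Finset.sum_mul, Finset.sum_mul, ← Finset.sum_sub_distrib]
    refine Finset.sum_congr rfl fun p _ => ?_
    unfold Gf
    split_ifs <;> ring
  have d3 : |CesAvg (fun n => (∑ p ∈ P, Gf p n) * u n) N| ≤ A * (2 * s) := by
    refine (CesAvg_abs _ N).trans ?_
    have h1 : CesAvg (fun n => |(∑ p ∈ P, Gf p n) * u n|) N ≤
        CesAvg (fun n => A * (s / 2 * 1 + 1 / (2 * s) * (∑ p ∈ P, Gf p n) ^ 2)) N := by
      refine CesAvg_mono fun n _ => ?_
      rw [abs_mul]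
      have h2 : |∑ p ∈ P, Gf p n| * |u n| ≤ |∑ p ∈ P, Gf p n| * A :=
        mul_le_mul_of_nonneg_left (hub n) (abs_nonneg _)
      refine h2.trans ?_
      rw [mul_comm]
      refine mul_le_mul_of_nonneg_left ?_ hA0.le
      rw [mul_one, one_div, inv_mul_eq_div, ← sq_abs (∑ p ∈ P, Gf p n)]
      have h3 : |∑ p ∈ P, Gf p n| * (2 * s) ≤
          (s / 2 + |∑ p ∈ P, Gf p n| ^ 2 / (2 * s)) * (2 * s) := by
        rw [add_mul, div_mul_cancel₀ _ (by positivity)]
        nlinarith [sq_nonneg (|∑ p ∈ P, Gf p n| - s)]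
      exact le_of_mul_le_mul_right h3 (by positivity)
    refine h1.trans ?_
    rw [CesAvg_const_mul A (fun n => s / 2 * 1 + 1 / (2 * s) * (∑ p ∈ P, Gf p n) ^ 2),
      CesAvg_add (fun _ => s / 2 * 1) (fun n => 1 / (2 * s) * (∑ p ∈ P, Gf p n) ^ 2),
      CesAvg_const_mul (s / 2) (fun _ => 1), CesAvg_const_mul (1 / (2 * s))]
    refine mul_le_mul_of_nonneg_left ?_ hA0.le
    have h4 : 1 / (2 * s) * CesAvg (fun n => (∑ p ∈ P, Gf p n) ^ 2) N ≤ 1 / (2 * s) * (W + 1) :=
      mul_le_mul_of_nonneg_left e2 (by positivity)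
    have h5 : 1 / (2 * s) * (W + 1) ≤ s := by
      rw [one_div, inv_mul_eq_div, div_le_iff₀ (by positivity)]
      nlinarith
    nlinarith
  have d4 : |∑ p ∈ P, CesAvg (fun n => if p ∣ n then u n else 0) N| ≤ (4 * A + 1) + A * Z := by
    have h1 : ∑ p ∈ P, CesAvg (fun n => if p ∣ n then u n else 0) N =
        (- (∑ p ∈ P, ∑ m ∈ Finset.Icc 1 (N / p), mu m * b (p * m)) +
          ∑ p ∈ P, ∑ m ∈ Finset.Icc 1 (N / p), if p ∣ m then mu m * b (p * m) else 0) / N := by
      rw [← Finset.sum_neg_distrib, ← Finset.sum_add_distrib, Finset.sum_div]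
      refine Finset.sum_congr rfl fun p hp => ?_
      have hpp := hP p hp
      unfold CesAvg
      rw [t17_mult hpp.one_le, ← Finset.sum_neg_distrib, ← Finset.sum_add_distrib]
      congr 1
      refine Finset.sum_congr rfl fun n _ => ?_
      rw [hu]
      dsimp only
      rw [mu_mul]
      have hmu : mu p = -1 := by
        unfold mu
        rw [ArithmeticFunction.moebius_apply_prime hpp]
        norm_num
      by_cases hd : p ∣ n
      · have : ¬ Nat.Coprime p n := by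
          rw [hpp.coprime_iff_not_dvd]
          exact not_not.mpr hd
        rw [if_neg this, if_pos hd]
        ring
      · have : Nat.Coprime p n := hpp.coprime_iff_not_dvd.mpr hd
        rw [if_pos this, if_neg hd, hmu]
        ring
    have h2 : |∑ p ∈ P, ∑ m ∈ Finset.Icc 1 (N / p), if p ∣ m then mu m * b (p * m) else 0| ≤
        A * Z * N := by
      refine (Finset.abs_sum_le_sum_abs _ _).trans ?_
      have h3 : ∀ p ∈ P, |∑ m ∈ Finset.Icc 1 (N / p), if p ∣ m then mu m * b (p * m) else 0| ≤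
          A * N * (1 / (p : ℝ) ^ 2) := by
        intro p hp
        have hpp := hP p hp
        have hp0 : (0 : ℝ) < p := by exact_mod_cast hpp.pos
        rw [t17_mult hpp.one_le (fun m => mu m * b (p * m))]
        refine (Finset.abs_sum_le_sum_abs _ _).trans ?_
        calc ∑ m ∈ Finset.Icc 1 (N / p / p), |mu (p * m) * b (p * (p * m))|
            ≤ ∑ m ∈ Finset.Icc 1 (N / p / p), A := by
              refine Finset.sum_le_sum fun m _ => ?_
              rw [abs_mul]
              calc |mu (p * m)| * |b (p * (p * m))| ≤ 1 * A :=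
                    mul_le_mul (abs_mu_le _) (hb _) (abs_nonneg _) zero_le_one
                _ = A := one_mul A
          _ = ((N / p / p : ℕ) : ℝ) * A := by
              rw [Finset.sum_const, Nat.card_Icc, nsmul_eq_mul, Nat.add_sub_cancel]
          _ ≤ (N / (p : ℝ) ^ 2) * A := by
              refine mul_le_mul_of_nonneg_right ?_ hA0.le
              rw [Nat.div_div_eq_div_mul, le_div_iff₀ (by positivity), sq]
              exact_mod_cast Nat.div_mul_le_self N (p * p)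
          _ = A * N * (1 / (p : ℝ) ^ 2) := by ring
      refine (Finset.sum_le_sum h3).trans ?_
      rw [← Finset.mul_sum]
      have h4 := G_sq P
      have h5 := mul_le_mul_of_nonneg_left h4 (by positivity : 0 ≤ A * (N : ℝ))
      rw [← hZdef] at h5
      linarith
    rw [h1, abs_div, Nat.abs_cast, div_le_iff₀ hN0]
    refine (abs_add_le _ _).trans ?_
    rw [abs_neg]
    linarith
  -- combine
  have h1 : W * |CesAvg u N| = |W * CesAvg u N| := by
    rw [abs_mul, abs_of_nonneg (by linarith : 0 ≤ W)]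
  rw [h1, d1]
  refine (abs_sub _ _).trans ?_
  have h5 : (4 * A + 1) + A * Z + A * (2 * s) ≤ A * (8 + Z) * s := by
    nlinarith [mul_nonneg (mul_nonneg hA0.le hZ0) (by linarith : 0 ≤ s - 1),
      mul_nonneg hA0.le (by linarith : 0 ≤ s - 1)]
  linarith

theorem katai_ces {b : ℕ → ℝ} {A : ℝ} (hb : ∀ n, |b n| ≤ A)
    (h : ∀ p r : ℕ, p.Prime → r.Prime → p < r →
      Tendsto (CesAvg fun n => b (p * n) * b (r * n)) atTop (𝓝 0)) :
    Tendsto (CesAvg fun n => mu n * b n) atTop (𝓝 0) := by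
  have hA00 : 0 ≤ A := (abs_nonneg _).trans (hb 0)
  set B : ℝ := A + 1 with hB
  have hB1 : 1 ≤ B := by linarith
  have hbB : ∀ n, |b n| ≤ B := fun n => (hb n).trans (by linarith)
  set C : ℝ := B * (8 + ∑' n : ℕ, 1 / (n : ℝ) ^ 2) with hC
  have hZ0 : 0 ≤ ∑' n : ℕ, 1 / (n : ℝ) ^ 2 := tsum_nonneg fun n => by positivity
  have hC0 : 0 < C := by positivity
  rw [Metric.tendsto_nhds]
  intro ε hε
  obtain ⟨P, hP, hT⟩ := G_exists_primes (max 1 ((C / ε + 1) ^ 2))
  have hW : 1 ≤ ∑ p ∈ P, 1 / (p : ℝ) := (le_max_left _ _).trans hT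
  filter_upwards [t17_main hB1 hbB h (fun p hp => (hP p hp).1) hW] with N hN
  rw [← hC] at hN
  set W : ℝ := ∑ p ∈ P, 1 / (p : ℝ) with hWdef
  set s : ℝ := Real.sqrt W with hs
  have hs2 : s * s = W := Real.mul_self_sqrt (by linarith)
  have hs1 : C / ε + 1 ≤ s := Real.le_sqrt_of_sq_le ((le_max_right _ _).trans hT)
  have hs0 : 0 < s := by
    have : 0 < C / ε := by positivity
    linarith
  rw [Real.dist_eq, sub_zero]
  rw [← hs2, mul_assoc] at hN
  have h1 : s * |CesAvg (fun n => mu n * b n) N| ≤ C := by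
    have h2 : s * (s * |CesAvg (fun n => mu n * b n) N|) ≤ s * C := by linarith
    exact le_of_mul_le_mul_left h2 hs0
  have h2 : C < s * ε := by
    have : C / ε < s := by linarith
    rwa [div_lt_iff₀ hε] at this
  exact lt_of_mul_lt_mul_left (h1.trans_lt h2) hs0.le

end Pool.Agent.Lib.MP_3e612f_nt.CA
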