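import Pool.Agent.Lib.MP_3e612f_nt.Defs

/-!
A Lyapunov function carries no entropy: if `Y` is nondecreasing along the orbits of `T`, then the
number of classes of orbits grows as slowly as on the set of points along whose orbits `Y` is
constant.
-/

set_option autoImplicit false

namespace Pool.Agent.Lib.MP_3e612f_nt

open Filter Topology Set

theorem count_bound (M M' m J : ℕ) (lam : ℝ) (h0 : 0 < lam) (h1 : lam ≤ 1) :
    ((Finset.univ.filter fun g : Fin m → Fin M ⊕ Fin M' =>
      (Finset.univ.filter fun k => (g k).isRight = true).card ≤ J).card : ℝ) * lam ^ J ≤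
      (M + lam * M') ^ m := by
  classical
  set w : Fin M ⊕ Fin M' → ℝ := fun a => if a.isRight = true then lam else 1 with hw
  have hw0 : ∀ a, 0 < w a := fun a => by
    rw [hw]; dsimp only; split_ifs <;> linarith
  have hsum : ∑ a, w a = M + lam * M' := by
    rw [Fintype.sum_sum_type]
    simp [hw]
    ring
  rw [← hsum, Fintype.sum_pow]
  set G := Finset.univ.filter fun g : Fin m → Fin M ⊕ Fin M' =>
      (Finset.univ.filter fun k => (g k).isRight = true).card ≤ J with hG
  have h2 : ∀ g : Fin m → Fin M ⊕ Fin M', ∏ i, w (g i) =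
      lam ^ (Finset.univ.filter fun k => (g k).isRight = true).card := by
    intro g
    rw [← Finset.prod_filter_mul_prod_filter_not Finset.univ (fun k => (g k).isRight = true)]
    rw [Finset.prod_congr rfl (g := fun _ => lam), Finset.prod_const,
      Finset.prod_eq_one (s := Finset.univ.filter fun k => ¬ (g k).isRight = true), mul_one]
    · intro x hx
      simp only [Finset.mem_filter, Finset.mem_univ, true_and] at hx
      simp [hw, hx]
    · intro x hx
      simp only [Finset.mem_filter, Finset.mem_univ, true_and] at hx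
      simp [hw, hx]
  calc (G.card : ℝ) * lam ^ J = ∑ g ∈ G, lam ^ J := by rw [Finset.sum_const, nsmul_eq_mul]
    _ ≤ ∑ g ∈ G, ∏ i, w (g i) := by
        refine Finset.sum_le_sum fun g hg => ?_
        rw [h2]
        rw [hG, Finset.mem_filter] at hg
        exact pow_le_pow_of_le_one h0.le h1 hg.2
    _ ≤ ∑ g : Fin m → Fin M ⊕ Fin M', ∏ i, w (g i) := by
        refine Finset.sum_le_sum_of_subset_of_nonneg (Finset.subset_univ _) fun g _ _ => ?_
        exact Finset.prod_nonneg fun i _ => (hw0 _).le

variable {X : Type*} [PseudoMetricSpace X]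

theorem exists_pcov_of_compact {T : X → X} {F : Set X} (hF : IsCompact F) (hT : Continuous T)
    {ε : ℝ} (hε : 0 < ε) (n : ℕ) : ∃ M : ℕ, PCov T F ε n M := by
  classical
  rcases F.eq_empty_or_nonempty with rfl | ⟨x0, hx0⟩
  · exact ⟨1, fun _ => 0, fun x hx => absurd hx (by simp)⟩
  set O : X → Set X := fun x => {y | ∀ k < n, dist (T^[k] y) (T^[k] x) < ε / 2} with hO
  have hopen : ∀ x, IsOpen (O x) := by
    intro x
    have : O x = ⋂ k ∈ Finset.range n, {y | dist (T^[k] y) (T^[k] x) < ε / 2} := by
      ext y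
      simp [hO]
    rw [this]
    refine isOpen_biInter_finset fun k _ => ?_
    exact isOpen_lt ((hT.iterate k).dist continuous_const) continuous_const
  obtain ⟨t, -, ht⟩ := hF.elim_nhds_subcover O fun x _ => (hopen x).mem_nhds (by
    intro k _
    rw [dist_self]
    linarith)
  have key : ∀ x : X, ∃ y ∈ t, x ∈ F → x ∈ O y := by
    intro x
    by_cases hx : x ∈ F
    · obtain ⟨y, hy, hxy⟩ := mem_iUnion₂.mp (ht hx)
      exact ⟨y, hy, fun _ => hxy⟩
    · obtain ⟨y, hy, -⟩ := mem_iUnion₂.mp (ht hx0)
      exact ⟨y, hy, fun h => absurd h hx⟩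
  choose y hyt hy using key
  refine ⟨t.card, fun x => t.equivFin ⟨y x, hyt x⟩, ?_⟩
  intro a ha b hb hab k hk
  have h1 : y a = y b := by
    have := t.equivFin.injective hab
    simpa using this
  have h2 := hy a ha k hk
  have h3 := hy b hb k hk
  rw [← h1, dist_comm] at h3
  linarith [dist_triangle (T^[k] a) (T^[k] (y a)) (T^[k] b)]

theorem lyap_mono {T : X → X} {F : Set X} (hm : MapsTo T F F) {Y : X → ℝ}
    (hmono : ∀ x ∈ F, Y x ≤ Y (T x)) {x : X} (hx : x ∈ F) {m n : ℕ} (hmn : m ≤ n) :
    Y (T^[m] x) ≤ Y (T^[n] x) := by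
  obtain ⟨k, rfl⟩ := Nat.exists_eq_add_of_le hmn
  induction k with
  | zero => exact le_rfl
  | succ k ih =>
    refine (ih (Nat.le_add_right _ _)).trans ?_
    rw [← add_assoc, Function.iterate_succ_apply']
    exact hmono _ (hm.iterate _ hx)

theorem zeroCov_of_lyapunov {T : X → X} {F : Set X} (hF : IsCompact F) (hT : Continuous T)
    (hm : MapsTo T F F) (Y : X → ℝ) (hY : Continuous Y) (hmono : ∀ x ∈ F, Y x ≤ Y (T x))
    (hR : ZeroCov T {x | x ∈ F ∧ ∀ n, Y (T^[n] x) = Y x}) : ZeroCov T F := by
  classical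
  intro ε hε δ hδ
  rcases F.eq_empty_or_nonempty with rfl | ⟨x0, hx0⟩
  · exact ⟨1, le_rfl, 1, by simp; positivity, fun _ => 0, fun x hx => absurd hx (by simp)⟩
  set R : Set X := {x | x ∈ F ∧ ∀ n, Y (T^[n] x) = Y x} with hRdef
  obtain ⟨L, hL, M, hM, c, hc⟩ := hR (ε / 3) (by linarith) (δ / 2) (by linarith)
  obtain ⟨M', c', hc'⟩ := exists_pcov_of_compact hF hT hε L
  -- the neighbourhood of `R`
  set O : Set X := {w | ∃ r ∈ R, ∀ k < L, dist (T^[k] w) (T^[k] r) < ε / 3} with hO
  have hOopen : IsOpen O := by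
    have : O = ⋃ r ∈ R, ⋂ k ∈ Finset.range L, {y | dist (T^[k] y) (T^[k] r) < ε / 3} := by
      ext y
      simp [hO]
    rw [this]
    refine isOpen_biUnion fun r _ => isOpen_biInter_finset fun k _ => ?_
    exact isOpen_lt ((hT.iterate k).dist continuous_const) continuous_const
  have hRO : R ⊆ O := fun r hr => ⟨r, hr, fun k _ => by rw [dist_self]; linarith⟩
  obtain ⟨q, η, hη, hq⟩ : ∃ (q : ℕ) (η : ℝ), 0 < η ∧
      ∀ w ∈ F, Y (T^[q * L] w) ≤ Y w + η → w ∈ O := by
    by_contra hcon
    push Not at hcon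
    have h1 : ∀ q : ℕ, ∃ w ∈ F, Y (T^[q * L] w) ≤ Y w + 1 / ((q : ℝ) + 1) ∧ w ∉ O :=
      fun q => hcon q _ (by positivity)
    choose w hwF hwY hwO using h1
    obtain ⟨z, hzF, φ, hφ, hz⟩ := hF.tendsto_subseq hwF
    have hzO : z ∉ O := by
      have : z ∈ Oᶜ := hOopen.isClosed_compl.mem_of_tendsto hz
        (Eventually.of_forall fun n => hwO _)
      exact this
    apply hzO
    apply hRO
    refine ⟨hzF, fun n => le_antisymm ?_ ?_⟩
    · have t1 : Tendsto (fun i => Y (T^[n] (w (φ i)))) atTop (𝓝 (Y (T^[n] z))) :=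
        ((hY.comp (hT.iterate n)).tendsto z).comp hz
      have t2 : Tendsto (fun i => Y (w (φ i)) + 1 / ((φ i : ℝ) + 1)) atTop (𝓝 (Y z + 0)) := by
        refine ((hY.tendsto z).comp hz).add ?_
        exact tendsto_one_div_add_atTop_nhds_zero_nat.comp hφ.tendsto_atTop
      rw [add_zero] at t2
      refine le_of_tendsto_of_tendsto t1 t2 ?_
      have : ∀ᶠ i in atTop, n ≤ φ i := hφ.tendsto_atTop.eventually_ge_atTop n
      filter_upwards [this] with i hi
      refine (lyap_mono hm hmono (hwF _) ?_).trans (hwY (φ i))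
      exact hi.trans (Nat.le_mul_of_pos_right _ hL)
    · exact lyap_mono hm hmono hzF (Nat.zero_le n)
  -- bounds for `Y`
  obtain ⟨B, hB⟩ : ∃ B : ℝ, ∀ x ∈ F, |Y x| ≤ B := by
    obtain ⟨B, hB⟩ := (hF.image hY).isBounded.exists_norm_le
    exact ⟨B, fun x hx => hB _ (mem_image_of_mem _ hx)⟩
  obtain ⟨J, hJ⟩ := exists_nat_ge (q * (2 * B) / η)
  -- at most `J` blocks are bad
  have hbad : ∀ w ∈ F, ∀ m : ℕ,
      ((Finset.range m).filter fun k => T^[k * L] w ∉ O).card ≤ J := by
    intro w hw m
    set y : ℕ → ℝ := fun k => Y (T^[k * L] w) with hy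
    have htel : ∑ k ∈ Finset.range m, (y (k + q) - y k) ≤ q * (2 * B) := by
      have h1 : ∑ k ∈ Finset.range m, (y (k + q) - y k) =
          ∑ j ∈ Finset.range q, (y (m + j) - y j) := by
        clear_value y
        induction m with
        | zero => simp
        | succ m ih =>
          rw [Finset.sum_range_succ, ih]
          have : y (m + q) - y m = ∑ j ∈ Finset.range q, (y (m + 1 + j) - y (m + j)) := by
            have := Finset.sum_range_sub (fun j => y (m + j)) q
            rw [add_zero] at this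
            rw [← this]
            refine Finset.sum_congr rfl fun j _ => ?_
            congr 2
            ring
          rw [this, ← Finset.sum_add_distrib]
          refine Finset.sum_congr rfl fun j _ => ?_
          ring
      rw [h1]
      calc ∑ j ∈ Finset.range q, (y (m + j) - y j) ≤ ∑ j ∈ Finset.range q, 2 * B := by
            refine Finset.sum_le_sum fun j _ => ?_
            have a1 := abs_le.mp (hB _ (hm.iterate ((m + j) * L) hw))
            have a2 := abs_le.mp (hB _ (hm.iterate (j * L) hw))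
            show Y (T^[(m + j) * L] w) - Y (T^[j * L] w) ≤ 2 * B
            linarith [a1.1, a1.2, a2.1, a2.2]
        _ = q * (2 * B) := by rw [Finset.sum_const, Finset.card_range, nsmul_eq_mul]
    have hge : ∀ k, 0 ≤ y (k + q) - y k := fun k => by
      have := lyap_mono hm hmono hw (Nat.mul_le_mul_right L (Nat.le_add_right k q))
      linarith
    have hlow : ((Finset.range m).filter fun k => T^[k * L] w ∉ O).card * η ≤ q * (2 * B) := by
      calc (((Finset.range m).filter fun k => T^[k * L] w ∉ O).card : ℝ) * η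
          = ∑ k ∈ (Finset.range m).filter fun k => T^[k * L] w ∉ O, η := by
            rw [Finset.sum_const, nsmul_eq_mul]
        _ ≤ ∑ k ∈ (Finset.range m).filter fun k => T^[k * L] w ∉ O, (y (k + q) - y k) := by
            refine Finset.sum_le_sum fun k hk => ?_
            rw [Finset.mem_filter] at hk
            have h1 := hq (T^[k * L] w) (hm.iterate _ hw)
            have h2 : ¬ Y (T^[q * L] (T^[k * L] w)) ≤ Y (T^[k * L] w) + η := fun h => hk.2 (h1 h)
            rw [not_le, ← Function.iterate_add_apply, ← add_mul, add_comm q k] at h2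
            have h3 : y (k + q) = Y (T^[(k + q) * L] w) := rfl
            have h4 : y k = Y (T^[k * L] w) := rfl
            rw [h3, h4]
            linarith
        _ ≤ ∑ k ∈ Finset.range m, (y (k + q) - y k) :=
            Finset.sum_le_sum_of_subset_of_nonneg (Finset.filter_subset _ _) fun k _ _ => hge k
        _ ≤ q * (2 * B) := htel
    have h5 : (((Finset.range m).filter fun k => T^[k * L] w ∉ O).card : ℝ) ≤ J := by
      refine le_trans ?_ hJ
      rw [le_div_iff₀ hη]
      exact hlow
    exact_mod_cast h5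
  -- choice of the parameters
  have hM0 : 0 < M := Fin.pos (c x0)
  have hMr : (1 : ℝ) ≤ M := by exact_mod_cast hM0
  have hLr : (1 : ℝ) ≤ L := by exact_mod_cast hL
  set lam : ℝ := min 1 (δ * L / (4 * (M' + 1))) with hlam
  have hlam0 : 0 < lam := by
    rw [hlam]
    exact lt_min one_pos (by positivity)
  have hlam1 : lam ≤ 1 := min_le_left _ _
  have hlamM : lam * M' ≤ δ * L / 4 := by
    have h1 : lam ≤ δ * L / (4 * (M' + 1)) := min_le_right _ _
    calc lam * M' ≤ δ * L / (4 * (M' + 1)) * (M' + 1) := by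
          apply mul_le_mul h1 (by linarith) (by positivity) (by positivity)
      _ = δ * L / 4 := by field_simp
  obtain ⟨m, hm1, hmJ⟩ : ∃ m : ℕ, 1 ≤ m ∧ J * Real.log (1 / lam) ≤ δ / 4 * (m * L) := by
    obtain ⟨m, hmm⟩ := exists_nat_ge (max 1 (J * Real.log (1 / lam) / (δ / 4)))
    refine ⟨m, by exact_mod_cast (le_max_left _ _).trans hmm, ?_⟩
    have h1 : J * Real.log (1 / lam) / (δ / 4) ≤ m := (le_max_right _ _).trans hmm
    rw [div_le_iff₀ (by linarith)] at h1
    have h2 : (m : ℝ) * 1 ≤ m * L := mul_le_mul_of_nonneg_left hLr (by positivity)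
    nlinarith
  set G := Finset.univ.filter fun g : Fin m → Fin M ⊕ Fin M' =>
      (Finset.univ.filter fun k => (g k).isRight = true).card ≤ J with hG
  -- the classes
  have hcl : ∀ w : X, ∃ a : Fin M ⊕ Fin M', (a.isRight = true → w ∉ O) ∧
      ((∃ r ∈ R, a = Sum.inl (c r) ∧ ∀ k < L, dist (T^[k] w) (T^[k] r) < ε / 3) ∨
        a = Sum.inr (c' w)) := by
    intro w
    by_cases hw : w ∈ O
    · obtain ⟨r, hr, hwr⟩ := hw
      exact ⟨Sum.inl (c r), by simp, Or.inl ⟨r, hr, rfl, hwr⟩⟩
    · exact ⟨Sum.inr (c' w), fun _ => hw, Or.inr rfl⟩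
  choose a ha1 ha2 using hcl
  have hclose : ∀ w ∈ F, ∀ w' ∈ F, a w = a w' → ∀ k < L, dist (T^[k] w) (T^[k] w') < ε := by
    intro w hw w' hw' hww k hk
    rcases ha2 w with ⟨r, hr, h1, h2⟩ | h1
    · rcases ha2 w' with ⟨r', hr', h1', h2'⟩ | h1'
      · rw [h1, h1'] at hww
        have h3 := hc r hr r' hr' (Sum.inl_injective hww) k hk
        have h4 := h2 k hk
        have h5 := h2' k hk
        rw [dist_comm] at h5
        linarith [dist_triangle (T^[k] w) (T^[k] r) (T^[k] w'),
          dist_triangle (T^[k] r) (T^[k] r') (T^[k] w')]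
      · rw [h1, h1'] at hww
        exact absurd hww (by simp)
    · rcases ha2 w' with ⟨r', hr', h1', h2'⟩ | h1'
      · rw [h1, h1'] at hww
        exact absurd hww (by simp)
      · rw [h1, h1'] at hww
        exact hc' w hw w' hw' (Sum.inr_injective hww) k hk
  have hmem : ∀ w ∈ F, (fun k : Fin m => a (T^[k * L] w)) ∈ G := by
    intro w hw
    rw [hG, Finset.mem_filter]
    refine ⟨Finset.mem_univ _, le_trans ?_ (hbad w hw m)⟩
    refine Finset.card_le_card_of_injOn (fun k : Fin m => (k : ℕ)) ?_ ?_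
    · intro k hk
      simp only [Finset.coe_filter, Finset.mem_univ, true_and, mem_setOf_eq] at hk
      simp only [Finset.coe_filter, Finset.mem_range, mem_setOf_eq]
      exact ⟨k.2, ha1 _ hk⟩
    · intro k _ k' _ hkk
      exact Fin.ext hkk
  have hGn : G.Nonempty := ⟨_, hmem x0 hx0⟩
  refine ⟨m * L, Nat.mul_pos hm1 hL, G.card, ?_, ?_⟩
  · have h1 := count_bound M M' m J lam hlam0 hlam1
    rw [← hG] at h1
    have hGc : (0 : ℝ) < G.card := by exact_mod_cast Finset.card_pos.mpr hGn
    have h2 : Real.log G.card + J * Real.log lam ≤ m * Real.log (M + lam * M') := by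
      have h3 := Real.log_le_log (by positivity) h1
      rw [Real.log_mul hGc.ne' (by positivity), Real.log_pow, Real.log_pow] at h3
      exact h3
    have h4 : Real.log (M + lam * M') ≤ δ / 2 * L + δ * L / 4 := by
      have e1 : (M : ℝ) + lam * M' ≤ M * (1 + lam * M') := by
        have : 0 ≤ lam * M' := by positivity
        nlinarith
      have h5 : Real.log (M + lam * M') ≤ Real.log (M * (1 + lam * M')) :=
        Real.log_le_log (by positivity) e1
      rw [Real.log_mul (by positivity) (by positivity)] at h5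
      have h6 : Real.log (1 + lam * M') ≤ lam * M' := by
        have := Real.log_le_sub_one_of_pos (show 0 < 1 + lam * M' by positivity)
        linarith
      linarith
    have h7 : Real.log (1 / lam) = - Real.log lam := by rw [one_div, Real.log_inv]
    rw [h7] at hmJ
    push_cast
    have h8 : (m : ℝ) * Real.log (M + lam * M') ≤ m * (δ / 2 * L + δ * L / 4) :=
      mul_le_mul_of_nonneg_left h4 (by positivity)
    nlinarith
  · refine ⟨fun w => if hw : (fun k : Fin m => a (T^[k * L] w)) ∈ G then
      G.equivFin ⟨_, hw⟩ else ⟨0, Finset.card_pos.mpr hGn⟩, ?_⟩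
    intro w hw w' hw' hww n hn
    dsimp only at hww
    rw [dif_pos (hmem w hw), dif_pos (hmem w' hw')] at hww
    have h1 := congrArg Subtype.val (G.equivFin.injective hww)
    have h2 : n / L < m := (Nat.div_lt_iff_lt_mul hL).mpr hn
    have h3 := congrFun h1 ⟨n / L, h2⟩
    have h4 := hclose _ (hm.iterate (n / L * L) hw) _ (hm.iterate (n / L * L) hw') h3 (n % L)
      (Nat.mod_lt _ hL)
    rw [← Function.iterate_add_apply, ← Function.iterate_add_apply, add_comm,
      Nat.div_add_mod'] at h4
    exact h4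

end Pool.Agent.Lib.MP_3e612f_nt
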