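import Pool.Agent.Lib.MP_3e612f_nt.Defs

/-!
Windows of sequences with few aligned blocks, and the entropy of systems coded by such sequences.
-/

set_option autoImplicit false

namespace Pool.Agent.Lib.MP_3e612f_nt

open Filter Topology Set

/-- few aligned blocks, for two-sided sequences -/
def LowCZ {α : Type*} (b : ℤ → α) : Prop :=
  ∀ δ > 0, ∃ L : ℕ, 1 ≤ L ∧ ∃ M : ℕ, Real.log M ≤ δ * L ∧ ∃ c : ℤ → Fin M,
    ∀ m m' : ℤ, c m = c m' → ∀ i : ℕ, i < L → b (m * L + i) = b (m' * L + i)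

/-- extension of a sequence to negative indices by a constant -/
def extZ {α : Type*} (a : α) (b : ℕ → α) (n : ℤ) : α := if 0 ≤ n then b n.toNat else a

theorem extZ_natCast {α : Type*} (a : α) (b : ℕ → α) (n : ℕ) : extZ a b (n : ℤ) = b n := by
  simp [extZ]

theorem LowC.extZ {α : Type*} {b : ℕ → α} (h : LowC b) (a : α) : LowCZ (extZ a b) := by
  classical
  intro δ hδ
  obtain ⟨L0, hL0, M0, hM0, c0, hc0⟩ := h (δ / 2) (by linarith)
  obtain ⟨r, hr⟩ := exists_nat_ge (2 * Real.log 2 / δ)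
  -- pass to blocks of length `L0 * (r + 1)`
  set L := L0 * (r + 1) with hL
  have hLpos : 1 ≤ L := Nat.mul_pos hL0 (Nat.succ_pos r)
  refine ⟨L, hLpos, M0 ^ (r + 1) + 1, ?_, fun m => if 0 ≤ m then
    (finFunctionFinEquiv (m := M0) (n := r + 1) fun j => c0 (m.toNat * (r + 1) + j)).castSucc
      else Fin.last _, ?_⟩
  · have hM0pos : 0 < M0 := Fin.pos (c0 0)
    have hM0r : (1 : ℝ) ≤ M0 := by exact_mod_cast hM0pos
    have h1 : Real.log ((M0 ^ (r + 1) + 1 : ℕ) : ℝ) ≤ Real.log 2 + Real.log (M0 ^ (r + 1)) := by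
      rw [← Real.log_mul (by norm_num) (by positivity)]
      apply Real.log_le_log (by positivity)
      push_cast
      have : (1 : ℝ) ≤ (M0 : ℝ) ^ (r + 1) := one_le_pow₀ hM0r
      linarith
    rw [Real.log_pow] at h1
    have hL0r : (1 : ℝ) ≤ L0 := by exact_mod_cast hL0
    have h2 : Real.log 2 ≤ δ / 2 * (L0 * (r + 1)) := by
      rw [div_le_iff₀ hδ] at hr
      have h3 : (r : ℝ) ≤ L0 * (r + 1) := by nlinarith
      nlinarith
    rw [hL]
    push_cast at h1 ⊢
    nlinarith
  · intro m m' hmm i hi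
    dsimp only at hmm
    by_cases h0 : 0 ≤ m
    · by_cases h0' : 0 ≤ m'
      · rw [if_pos h0, if_pos h0'] at hmm
        have h1 := finFunctionFinEquiv.injective (Fin.castSucc_injective _ hmm)
        obtain ⟨n, rfl⟩ := Int.eq_ofNat_of_zero_le h0
        obtain ⟨n', rfl⟩ := Int.eq_ofNat_of_zero_le h0'
        have h2 : i / L0 < r + 1 := by
          rw [Nat.div_lt_iff_lt_mul hL0, mul_comm]
          exact hi
        have h3 := congrFun h1 ⟨i / L0, h2⟩
        simp only [Int.toNat_natCast] at h3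
        have h4 := hc0 _ _ h3 (i % L0) (Nat.mod_lt _ hL0)
        have e : ∀ x : ℕ, (x : ℤ) * (L : ℤ) + (i : ℤ) =
            (((x * (r + 1) + i / L0) * L0 + i % L0 : ℕ) : ℤ) := by
          intro x
          have h5 : x * L + i = (x * (r + 1) + i / L0) * L0 + i % L0 := by
            have h6 := Nat.div_add_mod' i L0
            rw [hL]
            calc x * (L0 * (r + 1)) + i = x * (L0 * (r + 1)) + (i / L0 * L0 + i % L0) := by rw [h6]
              _ = _ := by ring
          rw [← h5]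
          push_cast
          ring
        rw [e, e, extZ_natCast, extZ_natCast]
        exact h4
      · rw [if_pos h0, if_neg h0'] at hmm
        exact absurd hmm (Fin.castSucc_lt_last _).ne
    · by_cases h0' : 0 ≤ m'
      · rw [if_neg h0, if_pos h0'] at hmm
        exact absurd hmm.symm (Fin.castSucc_lt_last _).ne
      · have e : ∀ x : ℤ, x < 0 → ¬ (0 ≤ x * (L : ℤ) + (i : ℤ)) := by
          intro x hx
          have h5 : x * (L : ℤ) ≤ -1 * L := mul_le_mul_of_nonneg_right (by omega) (by positivity)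
          omega
        unfold MP_3e612f_nt.extZ
        rw [if_neg (e m (by omega)), if_neg (e m' (by omega))]

/-- few classes of windows -/
theorem LowCZ.windows_ge {α : Type*} {b : ℤ → α} (h : LowCZ b) (r n0 : ℕ) {δ : ℝ} (hδ : 0 < δ) :
    ∃ n : ℕ, n0 ≤ n ∧ 1 ≤ n ∧ ∃ M : ℕ, Real.log M ≤ δ * n ∧ ∃ c : ℤ → Fin M,
      ∀ t t' : ℤ, c t = c t' → ∀ i : ℤ, -(r : ℤ) ≤ i → i < n + r → b (t + i) = b (t' + i) := by
  classical
  obtain ⟨L, hL, M0, hM0, c0, hc0⟩ := h (δ / 2) (by linarith)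
  have hM0pos : 0 < M0 := Fin.pos (c0 0)
  have hLr : (1 : ℝ) ≤ L := by exact_mod_cast hL
  set w := 2 * r + 1 with hw
  obtain ⟨m, hm'⟩ := exists_nat_ge (max (n0 : ℝ) (2 * (w * Real.log M0 + Real.log L) / δ))
  have hm := (le_max_right _ _).trans hm'
  have hm0 : n0 ≤ m := by exact_mod_cast (le_max_left _ _).trans hm'
  refine ⟨(m + 1) * L, by nlinarith, Nat.mul_pos (Nat.succ_pos m) hL, L * M0 ^ (m + 1 + w), ?_,
    fun t => finProdFinEquiv (⟨(t % L).toNat, ?_⟩,
      finFunctionFinEquiv (m := M0) (n := m + 1 + w) fun j => c0 (t / L - r + (j : ℕ))), ?_⟩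
  · have hMr : (0 : ℝ) < M0 := by exact_mod_cast hM0pos
    push_cast
    rw [Real.log_mul (by positivity) (by positivity), Real.log_pow]
    push_cast
    rw [div_le_iff₀ hδ] at hm
    have h0 : (0 : ℝ) ≤ (m : ℝ) := by positivity
    have h1 : δ * m ≤ δ * ((m + 1) * L) := by
      apply mul_le_mul_of_nonneg_left _ hδ.le
      nlinarith
    have h2 : ((m : ℝ) + 1) * Real.log M0 ≤ (m + 1) * (δ / 2 * L) :=
      mul_le_mul_of_nonneg_left hM0 (by positivity)
    nlinarith
  · have h1 := Int.emod_nonneg t (show (L : ℤ) ≠ 0 by omega)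
    have h2 := Int.emod_lt_of_pos t (show (0 : ℤ) < L by omega)
    omega
  · intro t t' htt i hi1 hi2
    have h1 := finProdFinEquiv.injective htt
    have h2 := congrArg Prod.fst h1
    have h3 := finFunctionFinEquiv.injective (congrArg Prod.snd h1)
    simp only [Fin.mk.injEq] at h2
    have hLz : (0 : ℤ) < L := by omega
    have a1 := Int.emod_nonneg t hLz.ne'
    have a2 := Int.emod_nonneg t' hLz.ne'
    have a3 := Int.emod_lt_of_pos t hLz
    have hs : t % L = t' % L := by omega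
    set u : ℤ := t % L + i with hu
    have b1 := Int.emod_nonneg u hLz.ne'
    have b2 := Int.emod_lt_of_pos u hLz
    have b3 := Int.mul_ediv_add_emod u L
    have c1 : -(r : ℤ) ≤ u / L := by
      rw [Int.le_ediv_iff_mul_le hLz]
      have : -(r : ℤ) * L ≤ -(r : ℤ) * 1 := mul_le_mul_of_nonpos_left (by omega) (by omega)
      omega
    have c2 : u / L < m + 1 + r + 1 := by
      rw [Int.ediv_lt_iff_lt_mul hLz]
      have h5 : (r : ℤ) * 1 ≤ (r : ℤ) * L := mul_le_mul_of_nonneg_left (by omega) (by omega)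
      have h6 : i < ((m : ℤ) + 1) * L + r := by
        push_cast at hi2
        exact hi2
      nlinarith
    have hj : (u / L + r).toNat < m + 1 + w := by omega
    have h4 := congrFun h3 ⟨(u / L + r).toNat, hj⟩
    simp only at h4
    rw [Int.toNat_of_nonneg (by omega)] at h4
    have e1 : t / L - r + (u / L + r) = t / L + u / L := by ring
    have e2 : t' / L - r + (u / L + r) = t' / L + u / L := by ring
    rw [e1, e2] at h4
    have h5 := hc0 _ _ h4 (u % L).toNat (by omega)
    rw [Int.toNat_of_nonneg b1] at h5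
    have e3 : (t / L + u / L) * L + u % L = t + i := by
      have := Int.mul_ediv_add_emod t L
      linarith
    have e4 : (t' / L + u / L) * L + u % L = t' + i := by
      have := Int.mul_ediv_add_emod t' L
      linarith
    rwa [e3, e4] at h5

/-- few classes of windows -/
theorem LowCZ.windows {α : Type*} {b : ℤ → α} (h : LowCZ b) (r : ℕ) {δ : ℝ} (hδ : 0 < δ) :
    ∃ n : ℕ, 1 ≤ n ∧ ∃ M : ℕ, Real.log M ≤ δ * n ∧ ∃ c : ℤ → Fin M,
      ∀ t t' : ℤ, c t = c t' → ∀ i : ℤ, -(r : ℤ) ≤ i → i < n + r → b (t + i) = b (t' + i) := by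
  obtain ⟨n, -, h⟩ := h.windows_ge r 0 hδ
  exact ⟨n, h⟩

/-- a set coded by a sequence with few aligned blocks has few classes of orbits -/
theorem zeroCov_of_coding {α E : Type*} [PseudoMetricSpace E] {S : E → E} (hS : Continuous S)
    {b : ℤ → α} (h : LowCZ b) (A : Set ℤ) (hA : ∀ t ∈ A, t + 1 ∈ A) (pt : ℤ → E)
    (hpt : ∀ t ∈ A, S (pt t) = pt (t + 1))
    (hmod : ∀ ε > 0, ∃ r : ℕ, ∀ t ∈ A, ∀ t' ∈ A,
      (∀ i : ℤ, -(r : ℤ) ≤ i → i ≤ r → b (t + i) = b (t' + i)) → dist (pt t) (pt t') < ε) :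
    ZeroCov S (closure (pt '' A)) := by
  classical
  intro ε hε δ hδ
  obtain ⟨r, hr⟩ := hmod (ε / 3) (by linarith)
  obtain ⟨n, hn, M, hM, c, hc⟩ := h.windows r hδ
  have hit : ∀ t ∈ A, ∀ k : ℕ, t + k ∈ A ∧ S^[k] (pt t) = pt (t + k) := by
    intro t ht k
    induction k with
    | zero => simpa using ht
    | succ k ih =>
      have e : t + ((k + 1 : ℕ) : ℤ) = t + k + 1 := by push_cast; ring
      rw [e]
      exact ⟨hA _ ih.1, by rw [Function.iterate_succ_apply', ih.2, hpt _ ih.1]⟩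
  have hnear : ∀ x : E, ∃ t : ℤ, x ∈ closure (pt '' A) → t ∈ A ∧
      ∀ k < n, dist (S^[k] x) (S^[k] (pt t)) < ε / 3 := by
    intro x
    by_cases hx : x ∈ closure (pt '' A)
    · set O : Set E := ⋂ k ∈ Finset.range n, {y | dist (S^[k] x) (S^[k] y) < ε / 3} with hO
      have hOo : IsOpen O := by
        refine isOpen_biInter_finset fun k _ => ?_
        exact isOpen_lt (continuous_const.dist (hS.iterate k)) continuous_const
      have hxO : x ∈ O := by
        simp only [hO, Finset.mem_range, mem_iInter, mem_ofPred_eq]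
        intro k _
        rw [dist_self]
        linarith
      obtain ⟨_, hyO, t, ht, rfl⟩ := mem_closure_iff.mp hx O hOo hxO
      refine ⟨t, fun _ => ⟨ht, fun k hk => ?_⟩⟩
      simp only [hO, Finset.mem_range, mem_iInter, mem_ofPred_eq] at hyO
      exact hyO k hk
    · exact ⟨0, fun h => absurd h hx⟩
  choose τ hτ using hnear
  refine ⟨n, hn, M, hM, fun x => c (τ x), ?_⟩
  intro x hx y hy hxy k hk
  obtain ⟨hx1, hx2⟩ := hτ x hx
  obtain ⟨hy1, hy2⟩ := hτ y hy
  have h1 := hx2 k hk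
  have h2 := hy2 k hk
  have h3 : dist (S^[k] (pt (τ x))) (S^[k] (pt (τ y))) < ε / 3 := by
    rw [(hit _ hx1 k).2, (hit _ hy1 k).2]
    refine hr _ (hit _ hx1 k).1 _ (hit _ hy1 k).1 fun i hi1 hi2 => ?_
    have := hc _ _ hxy (k + i) (by omega) (by omega)
    rwa [← add_assoc, ← add_assoc] at this
  rw [dist_comm] at h2
  linarith [dist_triangle (S^[k] x) (S^[k] (pt (τ x))) (S^[k] y),
    dist_triangle (S^[k] (pt (τ x))) (S^[k] (pt (τ y))) (S^[k] y)]

end Pool.Agent.Lib.MP_3e612f_nt
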