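import Pool.Agent.Lib.MP_3e612f_nt.SymRed
import Pool.Agent.Lib.MP_3e612f_nt.Lyap
import Pool.Agent.Lib.MP_3e612f_nt.Shift

/-!
Auxiliary facts shared by the two embeddings.
-/

set_option autoImplicit false

namespace Pool.Agent.Lib.MP_3e612f_nt

open Filter Topology Set Dynamics

variable {X : Type*} [PseudoMetricSpace X]

theorem ZeroCov.mono {T : X → X} {F G : Set X} (hFG : F ⊆ G) (h : ZeroCov T G) : ZeroCov T F := by
  intro ε hε δ hδ
  obtain ⟨n, hn, M, hM, hP⟩ := h ε hε δ hδ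
  exact ⟨n, hn, M, hM, pcov_mono hFG le_rfl le_rfl hP⟩

theorem zeroCov_union {T : X → X} {A B : Set X} (hA : MapsTo T A A) (hB : MapsTo T B B)
    (h1 : ZeroCov T A) (h2 : ZeroCov T B) : ZeroCov T (A ∪ B) := by
  have h3 : coverEntropy T (A ∪ B) ≤ 0 := by
    rw [coverEntropy_union]
    exact max_le (coverEntropy_le_zero hA h1) (coverEntropy_le_zero hB h2)
  intro ε hε δ hδ
  obtain ⟨n, ⟨M, hM, hP⟩, hn⟩ :=
    ((eventually_pcov h3 hε hδ).and (eventually_ge_atTop 1)).exists
  exact ⟨n, hn, M, hM, hP⟩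

theorem zeroCov_of_nonexpanding {T : X → X} {F B : Set X} (hF : IsCompact F) (hBF : B ⊆ F)
    (h : ∀ x ∈ B, ∀ y ∈ B, ∀ k, dist (T^[k] x) (T^[k] y) ≤ dist x y) : ZeroCov T B := by
  intro ε hε δ hδ
  obtain ⟨M, c, hc⟩ := exists_pcov_of_compact hF continuous_id hε 1
  obtain ⟨n, hn⟩ := exists_nat_ge (Real.log M / δ)
  rw [div_le_iff₀ hδ] at hn
  refine ⟨n + 1, by omega, M, ?_, c, ?_⟩
  · push_cast
    nlinarith
  · intro x hx y hy hxy k _
    exact (h x hx y hy k).trans_lt (hc x (hBF hx) y (hBF hy) hxy 0 one_pos)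

/-- the logarithmically averaged Sarnak conjecture on an invariant compact set -/
theorem LogSarnak.on_compact (hS : LogSarnak) {X : Type} [MetricSpace X] {T : X → X}
    (hT : Continuous T) {F : Set X} (hF : IsCompact F) (hm : MapsTo T F F)
    (hent : coverEntropy T F = 0) {f : X → ℂ} (hf : Continuous f) {x : X} (hx : x ∈ F) :
    Tendsto (logAvg fun n => f (T^[n] x)) atTop (𝓝 0) := by
  have : CompactSpace F := isCompact_iff_compactSpace.mp hF
  have h1 : coverEntropy (hm.restrict T F F) univ = 0 := by rw [coverEntropy_restrict, hent]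
  have h2 := hS F (hm.restrict T F F) (hT.continuousOn.mapsToRestrict hm) h1 (fun y => f y)
    (hf.comp continuous_subtype_val) ⟨x, hx⟩
  have h3 : (fun n => f (((hm.restrict T F F)^[n] ⟨x, hx⟩ : F) : X)) = fun n => f (T^[n] x) := by
    funext n
    rw [hm.coe_iterate_restrict]
  rw [h3] at h2
  exact h2

theorem logAvg_lin (a b : ℕ → ℂ) (u v : ℂ) (N : ℕ) :
    logAvg (fun n => u * a n + v * b n) N = u * logAvg a N + v * logAvg b N := by
  have h := logAvg_sum Finset.univ ![u, v] ![a, b] N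
  simpa [Fin.sum_univ_two] using h

theorem tendsto_logAvg_lin {a b : ℕ → ℂ} (ha : Tendsto (logAvg a) atTop (𝓝 0))
    (hb : Tendsto (logAvg b) atTop (𝓝 0)) (u v : ℂ) :
    Tendsto (logAvg fun n => u * a n + v * b n) atTop (𝓝 0) := by
  have h1 : (logAvg fun n => u * a n + v * b n) = fun N => u * logAvg a N + v * logAvg b N := by
    funext N
    exact logAvg_lin a b u v N
  rw [h1]
  simpa using (ha.const_mul u).add (hb.const_mul v)

end Pool.Agent.Lib.MP_3e612f_nt
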