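import Pool.Agent.Lib.MP_3e612f_nt.Defs

/-!
Comparison of Mathlib's topological entropy with the number of classes of orbits.
-/

set_option autoImplicit false

namespace Pool.Agent.Lib.MP_3e612f_nt

open Filter Topology Set Dynamics ExpGrowth
open scoped Uniformity

variable {X : Type*} [PseudoMetricSpace X]

theorem pcov_mono {T : X → X} {F G : Set X} {ε ε' : ℝ} {n n' M : ℕ} (hF : F ⊆ G) (hε : ε ≤ ε')
    (hn : n' ≤ n) (h : PCov T G ε n M) : PCov T F ε' n' M := by
  obtain ⟨c, hc⟩ := h
  exact ⟨c, fun x hx y hy hxy k hk =>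
    (hc x (hF hx) y (hF hy) hxy k (hk.trans_le hn)).trans_le hε⟩

theorem pcov_cover {T : X → X} {F : Set X} {ε : ℝ} {n M : ℕ} (h : PCov T F ε n M) :
    ∃ s : Finset X, IsDynCoverOf T F {p : X × X | dist p.1 p.2 < ε} n s ∧ s.card ≤ M := by
  classical
  obtain ⟨c, hc⟩ := h
  rcases F.eq_empty_or_nonempty with rfl | ⟨x0, hx0⟩
  · exact ⟨∅, by simp, by simp⟩
  have key : ∀ i : Fin M, ∃ y : X, ∀ x ∈ F, c x = i → ∀ k < n, dist (T^[k] x) (T^[k] y) < ε := by
    intro i
    by_cases hi : ∃ y ∈ F, c y = i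
    · obtain ⟨y, hy, hyi⟩ := hi
      exact ⟨y, fun x hx hxi k hk => hc x hx y hy (hxi.trans hyi.symm) k hk⟩
    · refine ⟨x0, fun x hx hxi => absurd ⟨x, hx, hxi⟩ hi⟩
  choose y hy using key
  refine ⟨Finset.univ.image y, ?_, Finset.card_image_le.trans (by simp)⟩
  intro x hx
  refine ⟨y (c x), by simp, ?_⟩
  rw [mem_dynEntourage]
  intro k hk
  exact hy (c x) x hx rfl k hk

/-- few classes of orbits imply that the entropy is not positive -/
theorem coverEntropy_le_zero {T : X → X} {F : Set X} (hF : MapsTo T F F) (h : ZeroCov T F) :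
    coverEntropy T F ≤ 0 := by
  refine iSup₂_le fun U hU => ?_
  obtain ⟨ε, hε, hεU⟩ := Metric.mem_uniformity_dist.mp hU
  set V : SetRel X X := {p : X × X | dist p.1 p.2 < ε / 2} with hV
  have hVs : V.IsSymm := by
    constructor
    intro a b hab
    show dist b a < ε / 2
    rw [dist_comm]
    exact hab
  have hVU : V.comp V ⊆ U := by
    rintro ⟨a, b⟩ ⟨z, h1, h2⟩
    apply hεU
    have h1' : dist a z < ε / 2 := h1
    have h2' : dist z b < ε / 2 := h2
    linarith [dist_triangle a z b]
  refine (coverEntropyEntourage_antitone T F hVU).trans ?_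
  refine EReal.le_of_forall_lt_iff_le.mp ?_
  intro δ hδ
  have hδ' : (0 : ℝ) < δ := by exact_mod_cast hδ
  obtain ⟨n, hn, M, hM, hP⟩ := h (ε / 2) (by linarith) δ hδ'
  obtain ⟨s, hs, hsM⟩ := pcov_cover hP
  refine (hs.coverEntropyEntourage_le_log_card_div hF (by omega)).trans ?_
  have hn' : (0 : EReal) < n := by exact_mod_cast hn
  rw [EReal.div_le_iff_le_mul hn' (EReal.natCast_ne_top n)]
  rcases Nat.eq_zero_or_pos s.card with h0 | h0
  · rw [h0]
    simp
  · have h1 : ENNReal.log (s.card : ENNReal) = ((Real.log s.card : ℝ) : EReal) := by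
      rw [ENNReal.log_pos_real (by simp [h0.ne']) (by simp)]
      simp
    rw [h1]
    have h2 : Real.log s.card ≤ n * δ := by
      have : Real.log s.card ≤ Real.log M :=
        Real.log_le_log (by exact_mod_cast h0) (by exact_mod_cast hsM)
      linarith
    calc ((Real.log s.card : ℝ) : EReal) ≤ ((n * δ : ℝ) : EReal) := by exact_mod_cast h2
      _ = (n : EReal) * (δ : EReal) := by push_cast; rfl

/-- if the entropy is not positive then there are few classes of orbits -/
theorem eventually_pcov {T : X → X} {F : Set X} (h : coverEntropy T F ≤ 0) {ε δ : ℝ} (hε : 0 < ε)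
    (hδ : 0 < δ) : ∀ᶠ n : ℕ in atTop, ∃ M : ℕ, Real.log M ≤ δ * n ∧ PCov T F ε n M := by
  classical
  set V : SetRel X X := {p : X × X | dist p.1 p.2 < ε / 2} with hV
  have hVu : V ∈ 𝓤 X := Metric.dist_mem_uniformity (by linarith)
  have h1 : coverEntropyEntourage T F V < (δ : EReal) :=
    lt_of_le_of_lt ((coverEntropyEntourage_le_coverEntropy T F hVu).trans h) (by exact_mod_cast hδ)
  have h2 := eventually_le_exp h1
  filter_upwards [h2] with n hn
  have hfin : coverMincard T F V n < ⊤ := by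
    by_contra hc
    have hc' : coverMincard T F V n = ⊤ := top_le_iff.mp (not_lt.mp hc)
    rw [hc'] at hn
    simp only [ENat.toENNReal_top, top_le_iff] at hn
    have : EReal.exp (((δ : ℝ) : EReal) * (n : EReal)) ≠ ⊤ := by
      have e : ((δ : ℝ) : EReal) * (n : EReal) = ((δ * n : ℝ) : EReal) := by push_cast; rfl
      rw [e, EReal.exp_coe]
      exact ENNReal.ofReal_ne_top
    exact this hn
  obtain ⟨s, hs, hcard⟩ := (coverMincard_finite_iff T F V n).mp hfin
  rcases F.eq_empty_or_nonempty with rfl | ⟨x0, hx0⟩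
  · refine ⟨1, by simp; positivity, fun _ => 0, ?_⟩
    intro x hx
    exact absurd hx (by simp)
  have key : ∀ x : X, ∃ y ∈ s, x ∈ F → ∀ k < n, dist (T^[k] x) (T^[k] y) < ε / 2 := by
    intro x
    by_cases hx : x ∈ F
    · obtain ⟨y, hy, hxy⟩ := hs hx
      rw [mem_dynEntourage] at hxy
      exact ⟨y, hy, fun _ => hxy⟩
    · obtain ⟨y, hy, -⟩ := hs hx0
      exact ⟨y, hy, fun h => absurd h hx⟩
  choose y hys hy using key
  refine ⟨s.card, ?_, fun x => s.equivFin ⟨y x, hys x⟩, ?_⟩
  · have h0 : 0 < s.card := Finset.card_pos.mpr ⟨_, hys x0⟩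
    rw [← hcard] at hn
    have e : ((δ : ℝ) : EReal) * (n : EReal) = ((δ * n : ℝ) : EReal) := by push_cast; rfl
    rw [e, EReal.exp_coe] at hn
    have h3 : (s.card : ENNReal) ≤ ENNReal.ofReal (Real.exp (δ * n)) := by
      simpa using hn
    have h4 : (s.card : ℝ) ≤ Real.exp (δ * n) := by
      rw [← ENNReal.ofReal_natCast, ENNReal.ofReal_le_ofReal_iff (Real.exp_pos _).le] at h3
      exact h3
    calc Real.log s.card ≤ Real.log (Real.exp (δ * n)) :=
          Real.log_le_log (by exact_mod_cast h0) h4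
      _ = δ * n := Real.log_exp _
  · intro a ha b hb hab k hk
    have h1 : y a = y b := by
      have := s.equivFin.injective hab
      simpa using this
    have h2 := hy a ha k hk
    have h3 := hy b hb k hk
    rw [← h1] at h3
    rw [dist_comm] at h3
    linarith [dist_triangle (T^[k] a) (T^[k] (y a)) (T^[k] b)]

end Pool.Agent.Lib.MP_3e612f_nt
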