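import Pool.Agent.Lib.MP_3e612f_nt.Horse

/-!
Embedding of 0-1 sequences with few aligned blocks in compactly supported diffeomorphisms of `ℝⁿ`,
`n ≥ 3`, of zero entropy.
-/

set_option autoImplicit false

namespace Pool.Agent.Lib.MP_3e612f_nt

open Filter Topology Set Dynamics
open scoped ContDiff

/-- every 0-1 sequence with few aligned blocks is coded by an orbit of a compactly supported
diffeomorphism of `ℝⁿ`, `n ≥ 3`, of zero entropy -/
theorem exists_diffeo (d : ℕ) (b : ℕ → Bool) (hb : LowC b) :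
    ∃ (T : (Fin (d + 3) → ℝ) → (Fin (d + 3) → ℝ)) (z₀ z₁ z₂ : Fin (d + 3) → ℝ), SDiffeo T ∧
      (∀ z, 4 ≤ ‖z‖ → T z = z) ∧ coverEntropy T (Metric.closedBall 0 4) = 0 ∧
      ∀ n, 17 / 4 * T^[n] z₀ 0 - T^[n] z₁ 0 - T^[n] z₂ 0 = 9 / 4 * sg (b n) := by
  classical
  set bz : ℤ → Bool := extZ false b with hbz
  have hbz' : LowCZ bz := hb.extZ false
  obtain ⟨A, hA, hAy, hAfix, hApt⟩ := exists_horseshoe d
  have hAinj := hA.injective
  set pt : ℤ → (Fin (d + 3) → ℝ) := hpt d bz with hptd
  set K : Set (Fin (d + 3) → ℝ) := closure (pt '' univ) with hK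
  -- `K` is completely invariant under `A`
  have hAK : ∀ z, A z ∈ K → z ∈ K := by
    intro z hz
    obtain ⟨hA1, A', hA2, hA3, hA4⟩ := hA
    have h1 : MapsTo A' (pt '' univ) (pt '' univ) := by
      rintro _ ⟨t, -, rfl⟩
      refine ⟨t - 1, mem_univ _, ?_⟩
      have h2 := hApt bz (t - 1)
      rw [sub_add_cancel] at h2
      rw [hptd, ← h2, hA3]
    have h2 := h1.closure hA2.continuous hz
    rwa [hA3] at h2
  set O : Set (Fin (d + 3) → ℝ) := Metric.ball 0 4 with hO
  have hOmem : ∀ z, z ∈ O ↔ ‖z‖ < 4 := fun z => by rw [hO, mem_ball_zero_iff]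
  obtain ⟨ψ, hψs, hψ, hψr⟩ := IsOpen.exists_contDiff_support_eq (n := ⊤)
    (show IsOpen (O ∩ Kᶜ) from Metric.isOpen_ball.inter isClosed_closure.isOpen_compl)
  have hψ0 : ∀ z, 0 ≤ ψ z := fun z => (hψr (mem_range_self z)).1
  have hψpos : ∀ z, z ∈ O → z ∉ K → 0 < ψ z := by
    intro z hz hzK
    have h1 : z ∈ Function.support ψ := by rw [hψs]; exact ⟨hz, hzK⟩
    exact lt_of_le_of_ne (hψ0 z) (Ne.symm h1)
  have hψz : ∀ z, z ∉ O ∨ z ∈ K → ψ z = 0 := by
    intro z hz
    by_contra hc
    have h1 : z ∈ Function.support ψ := hc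
    rw [hψs] at h1
    rcases hz with h | h
    · exact h h1.1
    · exact h1.2 h
  have hOball : O ⊆ Metric.closedBall 0 4 := Metric.ball_subset_closedBall
  have hψc : HasCompactSupport ψ := by
    refine HasCompactSupport.intro (isCompact_closedBall (0 : Fin (d + 3) → ℝ) 4) fun z hz => ?_
    exact hψz z (Or.inl fun h => hz (hOball h))
  obtain ⟨C, hC, hCs⟩ := exists_sdiffeo_smul ψ hψ hψc (Pi.single (2 : Fin (d + 3)) 1)
  set s : ℝ := 1 / (2 * C) with hs
  have hspos : 0 < s := by positivity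
  set B : (Fin (d + 3) → ℝ) → (Fin (d + 3) → ℝ) :=
    fun z => z + (s * ψ z) • Pi.single (2 : Fin (d + 3)) 1 with hB
  have hBd : SDiffeo B := by
    apply hCs
    rw [abs_of_pos hspos, hs]
    have : 1 / (2 * C) * C = 1 / 2 := by field_simp
    rw [this]
  have hBz : ∀ z, ψ z = 0 → B z = z := by
    intro z hz
    simp [hB, hz]
  have hBy : ∀ z, B z 2 = z 2 + s * ψ z := by
    intro z
    simp [hB]
  set T : (Fin (d + 3) → ℝ) → (Fin (d + 3) → ℝ) := fun z => B (A z) with hT
  have hTd : SDiffeo T := hBd.comp hA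
  have hTc : Continuous T := hTd.1.continuous
  have hTfix : ∀ z, z ∉ O → T z = z := by
    intro z hz
    have hz' : 3 ≤ ‖z‖ := by
      rw [hOmem, not_lt] at hz
      linarith
    rw [hT]
    dsimp only
    rw [hAfix z hz', hBz z (hψz z (Or.inl hz))]
  have hTfix4 : ∀ z : Fin (d + 3) → ℝ, 4 ≤ ‖z‖ → T z = z := by
    intro z hz
    apply hTfix
    rw [hOmem, not_lt]
    exact hz
  set F : Set (Fin (d + 3) → ℝ) := Metric.closedBall 0 4 with hF
  have hFc : IsCompact F := isCompact_closedBall _ _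
  have hmaps : MapsTo T F F := by
    intro z hz
    by_contra hc
    have h1 : T (T z) = T z := hTfix _ fun h => hc (hOball h)
    have h2 := hTd.injective h1
    rw [h2] at hc
    exact hc hz
  have hAO : ∀ z, z ∈ O → A z ∈ O := by
    intro z hz
    by_contra hc
    have h0 : 3 ≤ ‖A z‖ := by
      rw [hOmem, not_lt] at hc
      linarith
    have h1 : A (A z) = A z := hAfix _ h0
    have h2 := hAinj h1
    rw [h2] at hc
    exact hc hz
  have hptK : ∀ t, pt t ∈ K := fun t => subset_closure (mem_image_of_mem _ (mem_univ t))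
  have hTpt : ∀ t, T (pt t) = pt (t + 1) := by
    intro t
    rw [hT]
    dsimp only
    rw [hptd, hApt bz t]
    exact hBz _ (hψz _ (Or.inr (hptK (t + 1))))
  have hKcov : ZeroCov T K := by
    refine zeroCov_of_coding hTc hbz' univ (fun _ _ => mem_univ _) pt (fun t _ => hTpt t) ?_
    intro ε hε
    obtain ⟨r, hr⟩ := exists_pow_lt_of_lt_one (show (0 : ℝ) < ε / 6 by linarith)
      (by norm_num : (1 / 4 : ℝ) < 1)
    refine ⟨r + 2, fun t _ t' _ h => ?_⟩
    have h1 := hx_close bz (r + 1) (by omega) t t' fun i hi1 hi2 =>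
      h i (by push_cast at hi1 ⊢; omega) (by push_cast at hi2 ⊢; omega)
    have h2 := hx_close bz (r + 1) (by omega) (t - 1) (t' - 1) fun i hi1 hi2 => by
      have := h (i - 1) (by push_cast at hi1 ⊢; omega) (by push_cast at hi2 ⊢; omega)
      have e : ∀ x : ℤ, x - 1 + i = x + (i - 1) := fun x => by ring
      rw [e, e]
      exact this
    have h3 : (3 : ℝ) * (1 / 4) ^ (r + 1) < ε / 2 := by
      rw [pow_succ]
      nlinarith [pow_pos (show (0 : ℝ) < 1 / 4 by norm_num) r]
    have h4 : (6 : ℝ) * (1 / 4) ^ (r + 1) < ε := by linarith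
    have a1 := abs_le.mp h1
    have a2 := abs_le.mp h2
    have h5 : (0 : ℝ) < (1 / 4) ^ (r + 1) := by positivity
    rw [hptd, dist_eq_norm]
    have e : hpt d bz t - hpt d bz t' = hvec d (hx bz t - hx bz t')
        ((hx bz t - hx bz (t - 1)) - (hx bz t' - hx bz (t' - 1))) := by
      unfold hpt hvec
      module
    rw [e]
    refine lt_of_le_of_lt (norm_hvec_le (r := 6 * (1 / 4) ^ (r + 1)) (by positivity) ?_ ?_) h4
    · rw [abs_le]
      constructor <;> linarith [a1.1, a1.2]
    · rw [abs_le]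
      constructor <;> linarith [a1.1, a1.2, a2.1, a2.2]
  have hKmaps : MapsTo T K K := by
    refine MapsTo.closure ?_ hTc
    rintro _ ⟨t, -, rfl⟩
    rw [hTpt t]
    exact mem_image_of_mem _ (mem_univ _)
  set Q : Set (Fin (d + 3) → ℝ) := {z | z ∈ F ∧ z ∉ O} with hQ
  have hQfix : ∀ z ∈ Q, T z = z := fun z hz => hTfix z hz.2
  have hQmaps : MapsTo T Q Q := by
    intro z hz
    rw [hQfix z hz]
    exact hz
  have hQcov : ZeroCov T Q := by
    refine zeroCov_of_nonexpanding hFc (fun z hz => hz.1) ?_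
    intro x hx y hy k
    rw [Function.iterate_fixed (hQfix x hx), Function.iterate_fixed (hQfix y hy)]
  have hmono : ∀ z, z 2 ≤ T z 2 := by
    intro z
    rw [hT]
    dsimp only
    rw [hBy, hAy]
    have := mul_nonneg hspos.le (hψ0 (A z))
    linarith
  have hFcov : ZeroCov T F := by
    refine zeroCov_of_lyapunov hFc hTc hmaps (fun z => z 2) (by fun_prop)
      (fun z _ => hmono z) ?_
    refine ZeroCov.mono ?_ (zeroCov_union hKmaps hQmaps hKcov hQcov)
    rintro z ⟨hz, hconst⟩
    by_cases hzO : z ∈ O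
    · left
      apply hAK
      by_contra hc
      have h1 := hconst 1
      rw [Function.iterate_one] at h1
      have h2 : T z 2 = z 2 + s * ψ (A z) := by
        rw [hT]
        dsimp only
        rw [hBy, hAy]
      have h3 := mul_pos hspos (hψpos (A z) (hAO z hzO) hc)
      linarith
    · right
      exact ⟨hz, hzO⟩
  have hit : ∀ n : ℕ, ∀ t, T^[n] (pt t) = pt (t + n) := by
    intro n
    induction n with
    | zero => intro t; simp
    | succ n ih =>
      intro t
      rw [Function.iterate_succ_apply, hTpt t, ih]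
      congr 1
      push_cast
      ring
  have hpt0 : ∀ t, pt t 0 = hx bz t := fun t => hvec_zero _ _
  refine ⟨T, pt 0, pt 1, pt (-1), hTd, hTfix4, ?_, fun n => ?_⟩
  · exact le_antisymm (coverEntropy_le_zero hmaps hFcov)
      (coverEntropy_nonneg T ⟨0, by simp [hF]⟩)
  · rw [hit, hit, hit, hpt0, hpt0, hpt0]
    have h1 := hx_rec bz n
    have h2 : bz n = b n := by rw [hbz, extZ_natCast]
    rw [h2] at h1
    have e1 : (0 : ℤ) + n = n := by ring
    have e2 : (1 : ℤ) + n = n + 1 := by ring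
    have e3 : (-1 : ℤ) + n = n - 1 := by ring
    rw [e1, e2, e3]
    linarith

/-- the logarithmically averaged Sarnak conjecture for compactly supported smooth diffeomorphisms
of `ℝⁿ` and the first coordinate, `n = d + 3` -/
def DiffeoSarnak (d : ℕ) : Prop :=
  ∀ T T' : (Fin (d + 3) → ℝ) → (Fin (d + 3) → ℝ), ContDiff ℝ ∞ T → ContDiff ℝ ∞ T' →
    (∀ z, T' (T z) = z) → (∀ z, T (T' z) = z) → ∀ R : ℝ, (∀ z, R ≤ ‖z‖ → T z = z) →
    coverEntropy T (Metric.closedBall 0 R) = 0 → ∀ z,
    Tendsto (logAvg fun n => ((T^[n] z 0 : ℝ) : ℂ)) atTop (𝓝 0)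

theorem LogSarnak.const (h : LogSarnak) (c : ℂ) : Tendsto (logAvg fun _ => c) atTop (𝓝 0) := by
  have hent : coverEntropy (id : Unit → Unit) univ = 0 :=
    le_antisymm (coverEntropy_le_zero (mapsTo_univ _ _)
      (zeroCov_of_nonexpanding isCompact_univ Subset.rfl (fun x _ y _ k => by simp)))
      (coverEntropy_nonneg _ ⟨(), mem_univ _⟩)
  exact h Unit id continuous_id hent (fun _ => c) continuous_const ()

theorem logSarnak_iff_diffeo (d : ℕ) : LogSarnak ↔ DiffeoSarnak d := by
  constructor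
  · intro h T T' hT _ hT'T _ R hR hent z
    have hmaps : MapsTo T (Metric.closedBall 0 R) (Metric.closedBall 0 R) := by
      intro w hw
      by_contra hc
      rw [mem_closedBall_zero_iff, not_le] at hc
      have h1 : T (T w) = T w := hR _ hc.le
      have h2 : T w = w := by
        have := congrArg T' h1
        rwa [hT'T, hT'T] at this
      rw [h2] at hc
      rw [mem_closedBall_zero_iff] at hw
      linarith
    by_cases hz : z ∈ Metric.closedBall (0 : Fin (d + 3) → ℝ) R
    · exact h.on_compact hT.continuous (isCompact_closedBall _ _) hmaps hent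
        (f := fun w : Fin (d + 3) → ℝ => (w 0 : ℂ)) (by fun_prop) hz
    · rw [mem_closedBall_zero_iff, not_le] at hz
      have h1 : (fun n => ((T^[n] z 0 : ℝ) : ℂ)) = fun _ => (z 0 : ℂ) := by
        funext n
        rw [Function.iterate_fixed (hR z hz.le)]
      rw [h1]
      exact h.const _
  · intro h
    apply logSarnak_of_lowC
    intro b hb
    obtain ⟨T, z₀, z₁, z₂, ⟨hT, T', hT', h1, h2⟩, hfix, hent, hdig⟩ := exists_diffeo d b hb
    have a := fun z => h T T' hT hT' h1 h2 4 hfix hent z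
    have a1 := tendsto_logAvg_lin (a z₀) (a z₁) (17 / 9) (-(4 / 9))
    have a2 := tendsto_logAvg_lin a1 (a z₂) 1 (-(4 / 9))
    refine a2.congr' (Eventually.of_forall fun N => ?_)
    congr 1
    funext n
    have h4 : 9 / 4 * ((sg (b n) : ℝ) : ℂ) = 17 / 4 * ((T^[n] z₀ 0 : ℝ) : ℂ) -
        ((T^[n] z₁ 0 : ℝ) : ℂ) - ((T^[n] z₂ 0 : ℝ) : ℂ) := by
      have := congrArg (fun x : ℝ => (x : ℂ)) (hdig n)
      push_cast at this
      rw [← this]
    have h5 : ((sg (b n) : ℝ) : ℂ) = if b n then 1 else 0 := by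
      unfold sg
      split_ifs <;> norm_num
    rw [h5] at h4
    linear_combination (-(4 / 9 : ℂ)) * h4

end Pool.Agent.Lib.MP_3e612f_nt
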