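import Pool.Agent.Lib.MP_3e612f_nt.Square
import Pool.Agent.Lib.MP_3e612f_nt.Diffeos

/-!
Smooth self-maps of the cube `[0,1]ⁿ`, `n ≥ 2`.
-/

set_option autoImplicit false

namespace Pool.Agent.Lib.MP_3e612f_nt

open Filter Topology Set Dynamics
open scoped ContDiff

variable {d : ℕ}

theorem cube_one_val : ((1 : Fin (d + 2)) : ℕ) = 1 :=
  Nat.mod_eq_of_lt (show (1 : ℕ) < d + 2 by omega)

theorem cube_ne01 : (0 : Fin (d + 2)) ≠ 1 := by
  intro h
  have := congrArg Fin.val h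
  rw [cube_one_val] at this
  exact absurd this (by simp)

/-- the embedding of the plane -/
def cio (d : ℕ) (w : ℝ × ℝ) : Fin (d + 2) → ℝ :=
  w.1 • Pi.single (0 : Fin (d + 2)) 1 + w.2 • Pi.single (1 : Fin (d + 2)) 1

/-- the projection to the plane -/
def cpi (d : ℕ) (z : Fin (d + 2) → ℝ) : ℝ × ℝ := (z 0, z 1)

theorem cio_zero (w : ℝ × ℝ) : cio d w 0 = w.1 := by
  simp [cio]

theorem cio_one (w : ℝ × ℝ) : cio d w 1 = w.2 := by
  simp [cio]

theorem cpi_cio (w : ℝ × ℝ) : cpi d (cio d w) = w := by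
  unfold cpi
  rw [cio_zero, cio_one]

theorem cio_other (w : ℝ × ℝ) (j : Fin (d + 2)) (h0 : j ≠ 0) (h1 : j ≠ 1) : cio d w j = 0 := by
  simp [cio, h0, h1]

theorem cio_dist_le (w w' : ℝ × ℝ) : dist (cio d w) (cio d w') ≤ dist w w' := by
  rw [dist_pi_le_iff dist_nonneg]
  intro j
  by_cases h0 : j = 0
  · rw [h0, cio_zero, cio_zero, Prod.dist_eq]
    exact le_max_left _ _
  · by_cases h1 : j = 1
    · rw [h1, cio_one, cio_one, Prod.dist_eq]
      exact le_max_right _ _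
    · rw [cio_other w j h0 h1, cio_other w' j h0 h1, dist_self]
      exact dist_nonneg

theorem cio_mem {w : ℝ × ℝ} (hw : w ∈ Icc (0 : ℝ) 1 ×ˢ Icc (0 : ℝ) 1) :
    cio d w ∈ Icc (0 : Fin (d + 2) → ℝ) 1 := by
  obtain ⟨h1, h2⟩ := hw
  constructor
  · intro j
    by_cases h0 : j = 0
    · rw [h0, cio_zero]; exact h1.1
    · by_cases h3 : j = 1
      · rw [h3, cio_one]; exact h2.1
      · rw [cio_other w j h0 h3]; exact le_rfl
  · intro j
    by_cases h0 : j = 0
    · rw [h0, cio_zero]; exact h1.2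
    · by_cases h3 : j = 1
      · rw [h3, cio_one]; exact h2.2
      · rw [cio_other w j h0 h3]; exact zero_le_one

theorem cpi_mem {z : Fin (d + 2) → ℝ} (hz : z ∈ Icc (0 : Fin (d + 2) → ℝ) 1) :
    cpi d z ∈ Icc (0 : ℝ) 1 ×ˢ Icc (0 : ℝ) 1 :=
  ⟨⟨hz.1 0, hz.2 0⟩, ⟨hz.1 1, hz.2 1⟩⟩

/-- the logarithmically averaged Sarnak conjecture for smooth self-maps of the cube of dimension
`d + 2` and the first coordinate -/
def CubeSarnak (d : ℕ) : Prop :=
  ∀ T : (Fin (d + 2) → ℝ) → (Fin (d + 2) → ℝ), ContDiff ℝ ∞ T →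
    MapsTo T (Icc 0 1) (Icc 0 1) → coverEntropy T (Icc 0 1) = 0 →
    ∀ z ∈ Icc (0 : Fin (d + 2) → ℝ) 1,
    Tendsto (logAvg fun n => ((T^[n] z 0 : ℝ) : ℂ)) atTop (𝓝 0)

theorem exists_cube_map (T : ℝ × ℝ → ℝ × ℝ) (hT : ContDiff ℝ ∞ T)
    (hm : MapsTo T (Icc 0 1 ×ˢ Icc 0 1) (Icc 0 1 ×ˢ Icc 0 1))
    (hent : coverEntropy T (Icc 0 1 ×ˢ Icc 0 1) = 0) :
    ∃ T' : (Fin (d + 2) → ℝ) → (Fin (d + 2) → ℝ), ContDiff ℝ ∞ T' ∧
      MapsTo T' (Icc 0 1) (Icc 0 1) ∧ coverEntropy T' (Icc 0 1) = 0 ∧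
      ∀ w n, T'^[n] (cio d w) 0 = (T^[n] w).1 := by
  classical
  set T' : (Fin (d + 2) → ℝ) → (Fin (d + 2) → ℝ) := fun z => cio d (T (cpi d z)) with hT'
  have hpi : ContDiff ℝ ∞ (cpi d) := (contDiff_apply ℝ ℝ 0).prodMk (contDiff_apply ℝ ℝ 1)
  have hio : ContDiff ℝ ∞ (cio d) := by
    unfold cio
    fun_prop
  have hT's : ContDiff ℝ ∞ T' := hio.comp (hT.comp hpi)
  have hmaps : MapsTo T' (Icc 0 1) (Icc 0 1) := fun z hz => cio_mem (hm (cpi_mem hz))
  have hit : ∀ n z, cpi d (T'^[n] z) = T^[n] (cpi d z) := by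
    intro n
    induction n with
    | zero => intro z; rfl
    | succ n ih =>
      intro z
      rw [Function.iterate_succ_apply, Function.iterate_succ_apply, ih]
      congr 1
      exact cpi_cio _
  have hit' : ∀ n z, T'^[n + 1] z = cio d (T^[n + 1] (cpi d z)) := by
    intro n z
    rw [Function.iterate_succ_apply', Function.iterate_succ_apply', ← hit n z]
  have hcov : ZeroCov T' (Icc 0 1) := by
    intro ε hε δ hδ
    obtain ⟨M', c', hc'⟩ := exists_pcov_of_compact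
      (isCompact_Icc : IsCompact (Icc (0 : Fin (d + 2) → ℝ) 1)) continuous_id hε 1
    obtain ⟨n0, hn0⟩ := exists_nat_ge (Real.log M' / (δ / 2))
    obtain ⟨n, ⟨M, hM, c, hc⟩, hn⟩ := ((eventually_pcov hent.le hε
      (show 0 < δ / 2 by linarith)).and (eventually_ge_atTop (max n0 1))).exists
    refine ⟨n, (le_max_right _ _).trans hn, M * M', ?_,
      fun z => finProdFinEquiv (c (cpi d z), c' z), ?_⟩
    · have hMp : 0 < M := Fin.pos (c 0)
      have hM'p : 0 < M' := Fin.pos (c' 0)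
      push_cast
      rw [Real.log_mul (by positivity) (by positivity)]
      rw [div_le_iff₀ (by linarith)] at hn0
      have h1 : (n0 : ℝ) ≤ n := by exact_mod_cast (le_max_left _ _).trans hn
      nlinarith
    · intro x hx y hy hxy k hk
      have h1 := finProdFinEquiv.injective hxy
      have h2 := congrArg Prod.fst h1
      have h3 := congrArg Prod.snd h1
      rcases k with _ | k
      · exact hc' x hx y hy h3 0 one_pos
      · rw [hit', hit']
        exact (cio_dist_le _ _).trans_lt (hc _ (cpi_mem hx) _ (cpi_mem hy) h2 _ hk)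
  refine ⟨T', hT's, hmaps, ?_, fun w n => ?_⟩
  · exact le_antisymm (coverEntropy_le_zero hmaps hcov)
      (coverEntropy_nonneg T' ⟨0, by simp⟩)
  · have h1 := congrArg Prod.fst (hit n (cio d w))
    rw [cpi_cio] at h1
    exact h1

theorem logSarnak_iff_cube (d : ℕ) : LogSarnak ↔ CubeSarnak d := by
  constructor
  · intro h T hT hm hent z hz
    exact h.on_compact hT.continuous isCompact_Icc hm hent
      (f := fun w : Fin (d + 2) → ℝ => (w 0 : ℂ)) (by fun_prop) hz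
  · intro h
    rw [logSarnak_iff_square]
    intro T hT hm hent z hz
    obtain ⟨T', hT', hm', hent', hit⟩ := exists_cube_map (d := d) T hT hm hent
    have h1 := h T' hT' hm' hent' (cio d z) (cio_mem hz)
    refine h1.congr' (Eventually.of_forall fun N => ?_)
    congr 1
    funext n
    rw [hit]

end Pool.Agent.Lib.MP_3e612f_nt
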