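import Pool.Agent.Lib.MP_3e612f_nt.DSDefs

/-!
Basic facts about the binary sum of digits and about averages over `n < 2 ^ k`.
-/

set_option autoImplicit false

namespace Pool.Agent.Lib.MP_3e612f_nt.DS

open Filter Topology

theorem ds_zero : ds 0 = 0 := by
  unfold ds
  simp

theorem ds_rec (n : ℕ) : ds n = n % 2 + ds (n / 2) := by
  rcases Nat.eq_zero_or_pos n with h | h
  · subst h
    simp [ds_zero]
  · unfold ds
    rw [Nat.digits_def' (by norm_num) h, List.sum_cons]

theorem ds_one : ds 1 = 1 := by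
  rw [ds_rec]
  simp [ds_zero]

theorem ds_two_mul (n : ℕ) : ds (2 * n) = ds n := by
  rw [ds_rec]
  simp

theorem ds_two_mul_add_one (n : ℕ) : ds (2 * n + 1) = ds n + 1 := by
  rw [ds_rec]
  have h1 : (2 * n + 1) % 2 = 1 := by omega
  have h2 : (2 * n + 1) / 2 = n := by omega
  rw [h1, h2, add_comm]

theorem ds_bit (n e : ℕ) (he : e < 2) : ds (2 * n + e) = ds n + e := by
  interval_cases e
  · simpa using ds_two_mul n
  · exact ds_two_mul_add_one n

theorem ds_add_mul {k a : ℕ} (b : ℕ) (h : a < 2 ^ k) : ds (a + 2 ^ k * b) = ds a + ds b := by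
  induction k generalizing a with
  | zero =>
    have : a = 0 := by simpa using h
    subst this
    simp [ds_zero]
  | succ k ih =>
    have h1 : a / 2 < 2 ^ k := by
      rw [pow_succ] at h
      omega
    have e1 : a + 2 ^ (k + 1) * b = 2 * (a / 2 + 2 ^ k * b) + a % 2 := by
      rw [pow_succ]
      have := Nat.div_add_mod a 2
      nlinarith
    rw [e1, ds_bit _ _ (Nat.mod_lt _ (by norm_num)), ih h1]
    rw [ds_rec a]
    omega

theorem ds_split (k n : ℕ) : ds n = ds (n % 2 ^ k) + ds (n / 2 ^ k) := by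
  have h := ds_add_mul (k := k) (n / 2 ^ k) (Nat.mod_lt n (by positivity : 0 < 2 ^ k))
  rw [Nat.mod_add_div] at h
  exact h

theorem ds_pow_mul (k n : ℕ) : ds (2 ^ k * n) = ds n := by
  have h := ds_add_mul (k := k) (a := 0) n (by positivity)
  simpa [ds_zero] using h

theorem av_nonneg {k : ℕ} {u : ℕ → ℝ} (h : ∀ n, 0 ≤ u n) : 0 ≤ av k u := by
  unfold av
  exact div_nonneg (Finset.sum_nonneg fun n _ => h n) (by positivity)

theorem av_add (k : ℕ) (u v : ℕ → ℝ) : av k (fun n => u n + v n) = av k u + av k v := by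
  unfold av
  rw [Finset.sum_add_distrib, add_div]

theorem av_sub (k : ℕ) (u v : ℕ → ℝ) : av k (fun n => u n - v n) = av k u - av k v := by
  unfold av
  rw [Finset.sum_sub_distrib, sub_div]

theorem av_const_mul (k : ℕ) (c : ℝ) (u : ℕ → ℝ) : av k (fun n => c * u n) = c * av k u := by
  unfold av
  rw [← Finset.mul_sum, mul_div_assoc]

theorem av_const (k : ℕ) (c : ℝ) : av k (fun _ => c) = c := by
  unfold av
  rw [Finset.sum_const, Finset.card_range, nsmul_eq_mul]
  push_cast
  field_simp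

theorem av_congr {k : ℕ} {u v : ℕ → ℝ} (h : ∀ n < 2 ^ k, u n = v n) : av k u = av k v := by
  unfold av
  congr 1
  exact Finset.sum_congr rfl fun n hn => h n (Finset.mem_range.mp hn)

theorem abs_av_le_av {k : ℕ} (u : ℕ → ℝ) : |av k u| ≤ av k fun n => |u n| := by
  unfold av
  rw [abs_div, abs_of_pos (by positivity : (0 : ℝ) < 2 ^ k)]
  exact div_le_div_of_nonneg_right (Finset.abs_sum_le_sum_abs _ _) (by positivity)

theorem av_mono {k : ℕ} {u v : ℕ → ℝ} (h : ∀ n < 2 ^ k, u n ≤ v n) : av k u ≤ av k v := by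
  unfold av
  exact div_le_div_of_nonneg_right (Finset.sum_le_sum fun n hn => h n (Finset.mem_range.mp hn))
    (by positivity)

theorem abs_av_le {k : ℕ} {u : ℕ → ℝ} {C : ℝ} (h : ∀ n < 2 ^ k, |u n| ≤ C) : |av k u| ≤ C := by
  refine (abs_av_le_av u).trans ?_
  calc av k (fun n => |u n|) ≤ av k (fun _ => C) := av_mono h
    _ = C := av_const k C

theorem sum_range_two_mul (m : ℕ) (u : ℕ → ℝ) :
    ∑ n ∈ Finset.range (2 * m), u n = ∑ n ∈ Finset.range m, (u (2 * n) + u (2 * n + 1)) := by
  induction m with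
  | zero => simp
  | succ m ih =>
    rw [Nat.mul_succ, Finset.sum_range_succ, Finset.sum_range_succ, ih, Finset.sum_range_succ]
    ring

/-- splitting off the lowest digit -/
theorem av_succ (k : ℕ) (u : ℕ → ℝ) :
    av (k + 1) u = (av k (fun n => u (2 * n)) + av k (fun n => u (2 * n + 1))) / 2 := by
  unfold av
  rw [pow_succ, mul_comm (2 ^ k) 2, sum_range_two_mul, Finset.sum_add_distrib]
  have : (2 : ℝ) ^ (k + 1) = 2 * 2 ^ k := by ring
  rw [this]
  field_simp

/-- splitting off the highest digit -/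
theorem av_succ' (k : ℕ) (u : ℕ → ℝ) :
    av (k + 1) u = (av k u + av k (fun n => u (2 ^ k + n))) / 2 := by
  unfold av
  rw [pow_succ, mul_two, Finset.sum_range_add]
  have : (2 : ℝ) ^ (k + 1) = 2 * 2 ^ k := by ring
  rw [this]
  field_simp

end Pool.Agent.Lib.MP_3e612f_nt.DS
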