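import Pool.Agent.Lib.MP_3e612f_nt.DSDefs

/-!
Binomial means: recursion, approximate shift invariance, and the law of the sum of digits.
-/

set_option autoImplicit false

namespace Pool.Agent.Lib.MP_3e612f_nt.DS

open Filter Topology
open Pool.Agent.Lib.MP_3e612f_nt

theorem bin_succ (k : ℕ) (G : ℕ → ℝ) :
    bin (k + 1) G = (bin k G + bin k (fun x => G (x + 1))) / 2 := by
  unfold bin
  have h1 : ∑ i ∈ Finset.range (k + 1 + 1), ((k + 1).choose i : ℝ) * G i
      = ∑ i ∈ Finset.range (k + 1), (k.choose i : ℝ) * G i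
        + ∑ i ∈ Finset.range (k + 1), (k.choose i : ℝ) * G (i + 1) := by
    rw [Finset.sum_range_succ']
    have h2 : ∀ i ∈ Finset.range (k + 1), ((k + 1).choose (i + 1) : ℝ) * G (i + 1)
        = (k.choose i : ℝ) * G (i + 1) + (k.choose (i + 1) : ℝ) * G (i + 1) := by
      intro i _
      rw [Nat.choose_succ_succ]; push_cast; ring
    rw [Finset.sum_congr rfl h2, Finset.sum_add_distrib]
    have h3 : ∑ i ∈ Finset.range (k + 1), (k.choose i : ℝ) * G i
        = ∑ i ∈ Finset.range (k + 1), (k.choose (i + 1) : ℝ) * G (i + 1) + G 0 := by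
      have h4 := Finset.sum_range_succ' (fun i => (k.choose i : ℝ) * G i) (k + 1)
      rw [Finset.sum_range_succ] at h4
      simp only [Nat.choose_succ_self, Nat.cast_zero, zero_mul, add_zero, Nat.choose_zero_right,
        Nat.cast_one, one_mul] at h4
      exact h4
    rw [h3]
    simp only [Nat.choose_zero_right, Nat.cast_one, one_mul]
    ring
  rw [h1, pow_succ]
  field_simp

theorem ebin_one (k : ℕ) : bin k (fun _ => 1) = 1 := by
  unfold bin
  simp only [mul_one]
  rw [← Nat.cast_sum, Nat.sum_range_choose]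
  push_cast
  field_simp

theorem ebin_add (k : ℕ) (G H : ℕ → ℝ) : bin k (fun x => G x + H x) = bin k G + bin k H := by
  unfold bin
  rw [← add_div, ← Finset.sum_add_distrib]
  congr 1
  refine Finset.sum_congr rfl fun i _ => ?_
  ring

theorem ebin_sq (k : ℕ) : bin k (fun x => ((k : ℝ) - 2 * x) ^ 2) = k := by
  induction k with
  | zero => simp [bin]
  | succ k ih =>
    rw [bin_succ]
    have h1 : bin k (fun x => (((k + 1 : ℕ) : ℝ) - 2 * x) ^ 2)
        + bin k (fun x => (((k + 1 : ℕ) : ℝ) - 2 * ((x + 1 : ℕ) : ℝ)) ^ 2)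
        = bin k (fun x => ((k : ℝ) - 2 * x) ^ 2 + 1) + bin k (fun x => ((k : ℝ) - 2 * x) ^ 2 + 1) := by
      rw [← ebin_add, ← ebin_add]
      congr 1
      funext x
      push_cast
      ring
    rw [h1, ebin_add, ih, ebin_one]
    push_cast
    ring

theorem ebin_diff (k : ℕ) (G : ℕ → ℝ) :
    (k + 1) * (∑ i ∈ Finset.range (k + 1), (k.choose i : ℝ) * G i
      - ∑ i ∈ Finset.range (k + 1), (k.choose i : ℝ) * G (i + 1))
      = ∑ i ∈ Finset.range (k + 1 + 1), ((k + 1).choose i : ℝ) * (((k + 1 : ℕ) : ℝ) - 2 * i) * G i := by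
  have h1 : (k + 1) * ∑ i ∈ Finset.range (k + 1), (k.choose i : ℝ) * G i
      = ∑ i ∈ Finset.range (k + 1 + 1), ((k + 1).choose i : ℝ) * (((k + 1 : ℕ) : ℝ) - i) * G i := by
    rw [Finset.sum_range_succ _ (k + 1), sub_self, mul_zero, zero_mul, add_zero, Finset.mul_sum]
    refine Finset.sum_congr rfl fun i hi => ?_
    have hi' := Finset.mem_range.1 hi
    have h2 := Nat.choose_mul_succ_eq k i
    have h3 : ((k.choose i : ℕ) : ℝ) * (k + 1) = ((k + 1).choose i : ℝ) * (((k + 1 : ℕ) : ℝ) - i) := by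
      rw [← Nat.cast_sub (by omega)]
      exact_mod_cast h2
    rw [← h3]; ring
  have h2 : (k + 1) * ∑ i ∈ Finset.range (k + 1), (k.choose i : ℝ) * G (i + 1)
      = ∑ i ∈ Finset.range (k + 1 + 1), ((k + 1).choose i : ℝ) * i * G i := by
    rw [Finset.sum_range_succ' _ (k + 1), Nat.cast_zero, mul_zero, zero_mul, add_zero,
      Finset.mul_sum]
    refine Finset.sum_congr rfl fun i _ => ?_
    have h3 : ((k : ℝ) + 1) * (k.choose i : ℝ) = ((k + 1).choose (i + 1) : ℝ) * ((i + 1 : ℕ) : ℝ) := by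
      exact_mod_cast Nat.add_one_mul_choose_eq k i
    rw [← h3]; ring
  rw [mul_sub, h1, h2, ← Finset.sum_sub_distrib]
  refine Finset.sum_congr rfl fun i _ => ?_
  ring

theorem bin_shift {G : ℕ → ℝ} (hG : ∀ x, |G x| ≤ 1) (k : ℕ) :
    |bin k G - bin k (fun x => G (x + 1))| ≤ 2 / Real.sqrt (k + 1) := by
  have hk : (0 : ℝ) < (k : ℝ) + 1 := by positivity
  have hs : 0 < Real.sqrt ((k : ℝ) + 1) := Real.sqrt_pos.2 hk
  have hss : Real.sqrt ((k : ℝ) + 1) * Real.sqrt ((k : ℝ) + 1) = (k : ℝ) + 1 :=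
    Real.mul_self_sqrt hk.le
  have h0 : bin k G - bin k (fun x => G (x + 1))
      = (∑ i ∈ Finset.range (k + 1 + 1), ((k + 1).choose i : ℝ) * (((k + 1 : ℕ) : ℝ) - 2 * i) * G i)
        / ((k + 1) * 2 ^ k) := by
    rw [← ebin_diff]
    unfold bin
    field_simp
  -- Cauchy-Schwarz
  have h1 : |∑ i ∈ Finset.range (k + 1 + 1), ((k + 1).choose i : ℝ) * (((k + 1 : ℕ) : ℝ) - 2 * i) * G i|
      ≤ ∑ i ∈ Finset.range (k + 1 + 1), ((k + 1).choose i : ℝ) * |((k + 1 : ℕ) : ℝ) - 2 * i| := by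
    refine (Finset.abs_sum_le_sum_abs _ _).trans (Finset.sum_le_sum fun i _ => ?_)
    rw [abs_mul, abs_mul, Nat.abs_cast]
    exact mul_le_of_le_one_right (by positivity) (hG i)
  have h2 : (∑ i ∈ Finset.range (k + 1 + 1), ((k + 1).choose i : ℝ) * |((k + 1 : ℕ) : ℝ) - 2 * i|) ^ 2
      ≤ (∑ i ∈ Finset.range (k + 1 + 1), ((k + 1).choose i : ℝ))
        * ∑ i ∈ Finset.range (k + 1 + 1), ((k + 1).choose i : ℝ) * (((k + 1 : ℕ) : ℝ) - 2 * i) ^ 2 := by
    refine Finset.sum_sq_le_sum_mul_sum_of_sq_le_mul _ (fun i _ => by positivity)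
      (fun i _ => by positivity) fun i _ => le_of_eq ?_
    rw [mul_pow, sq_abs]; ring
  have h3 : ∑ i ∈ Finset.range (k + 1 + 1), ((k + 1).choose i : ℝ) = 2 ^ (k + 1) := by
    rw [← Nat.cast_sum, Nat.sum_range_choose]; push_cast; ring
  have h4 : ∑ i ∈ Finset.range (k + 1 + 1), ((k + 1).choose i : ℝ) * (((k + 1 : ℕ) : ℝ) - 2 * i) ^ 2
      = ((k : ℝ) + 1) * 2 ^ (k + 1) := by
    have h5 := ebin_sq (k + 1)
    unfold bin at h5
    rw [div_eq_iff (by positivity)] at h5
    refine h5.trans ?_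
    push_cast; ring
  rw [h3, h4] at h2
  have h5 : ∑ i ∈ Finset.range (k + 1 + 1), ((k + 1).choose i : ℝ) * |((k + 1 : ℕ) : ℝ) - 2 * i|
      ≤ 2 ^ (k + 1) * Real.sqrt (k + 1) := by
    refine abs_le_of_sq_le_sq' ?_ (by positivity) |>.2
    rw [mul_pow, Real.sq_sqrt hk.le]
    refine h2.trans (le_of_eq ?_)
    ring
  rw [h0, abs_div, abs_of_pos (show (0 : ℝ) < (k + 1) * 2 ^ k by positivity),
    div_le_div_iff₀ (by positivity) hs]
  calc _ ≤ (2 ^ (k + 1) * Real.sqrt (k + 1)) * Real.sqrt (k + 1) := by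
        exact mul_le_mul_of_nonneg_right (h1.trans h5) hs.le
    _ = 2 * ((k + 1) * 2 ^ k) := by
        rw [mul_assoc, hss, pow_succ]; ring

theorem av_perm {p : ℕ} (hp : Odd p) (c k : ℕ) (u : ℕ → ℝ) :
    av k (fun n => u ((p * n + c) % 2 ^ k)) = av k u := by
  unfold av
  congr 1
  have hmaps : Set.MapsTo (fun n => (p * n + c) % 2 ^ k) (Finset.range (2 ^ k) : Set ℕ)
      (Finset.range (2 ^ k) : Set ℕ) := by
    intro n _
    simp only [Finset.coe_range, Set.mem_Iio]
    exact Nat.mod_lt _ (by positivity)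
  have hinj : Set.InjOn (fun n => (p * n + c) % 2 ^ k) (Finset.range (2 ^ k) : Set ℕ) := by
    intro n hn m hm hnm
    simp only [Finset.coe_range, Set.mem_Iio] at hn hm
    have h1 : p * n + c ≡ p * m + c [MOD 2 ^ k] := hnm
    have h2 : p * n ≡ p * m [MOD 2 ^ k] := Nat.ModEq.add_right_cancel' c h1
    have hc : Nat.gcd (2 ^ k) p = 1 := by
      have := (Nat.coprime_two_left.2 hp).pow_left k
      exact this
    have h3 : n ≡ m [MOD 2 ^ k] := Nat.ModEq.cancel_left_of_coprime hc h2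
    have h4 : n % 2 ^ k = m % 2 ^ k := h3
    rwa [Nat.mod_eq_of_lt hn, Nat.mod_eq_of_lt hm] at h4
  have hsurj : Set.SurjOn (fun n => (p * n + c) % 2 ^ k) (Finset.range (2 ^ k) : Set ℕ)
      (Finset.range (2 ^ k) : Set ℕ) :=
    Finset.surjOn_of_injOn_of_card_le _ hmaps hinj le_rfl
  exact Finset.sum_nbij (fun n => (p * n + c) % 2 ^ k) hmaps hinj hsurj fun _ _ => rfl

theorem eds_rec (n : ℕ) : ds n = n % 2 + ds (n / 2) := by
  unfold ds
  rcases Nat.eq_zero_or_pos n with rfl | h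
  · simp
  · rw [Nat.digits_def' (by norm_num) h, List.sum_cons]

theorem esum_two_mul (N : ℕ) (f : ℕ → ℝ) :
    ∑ n ∈ Finset.range (2 * N), f n = ∑ m ∈ Finset.range N, (f (2 * m) + f (2 * m + 1)) := by
  induction N with
  | zero => simp
  | succ N ih =>
    rw [show 2 * (N + 1) = 2 * N + 1 + 1 by ring, Finset.sum_range_succ, Finset.sum_range_succ, ih,
      Finset.sum_range_succ]
    ring

theorem av_ds (k : ℕ) (G : ℕ → ℝ) : av k (fun n => G (ds n)) = bin k G := by
  induction k generalizing G with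
  | zero => simp [av, bin, ds]
  | succ k ih =>
    rw [bin_succ, ← ih G, ← ih (fun x => G (x + 1))]
    unfold av
    rw [pow_succ, mul_comm (2 ^ k) 2, esum_two_mul]
    have h1 : ∀ m ∈ Finset.range (2 ^ k), (G (ds (2 * m)) + G (ds (2 * m + 1)))
        = G (ds m) + G (ds m + 1) := by
      intro m _
      have e1 : ds (2 * m) = ds m := by
        rw [eds_rec, Nat.mul_mod_right, zero_add, Nat.mul_div_cancel_left _ (by norm_num)]
      have e2 : ds (2 * m + 1) = ds m + 1 := by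
        rw [eds_rec]
        have h1 : (2 * m + 1) % 2 = 1 := by omega
        have h2 : (2 * m + 1) / 2 = m := by omega
        rw [h1, h2, add_comm]
      rw [e1, e2]
    rw [Finset.sum_congr rfl h1, Finset.sum_add_distrib]
    field_simp
    ring

end Pool.Agent.Lib.MP_3e612f_nt.DS
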