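import Pool.Agent.Lib.MP_3e612f_nt.DSPair

/-!
Block averages: the hypothesis of the Kátai criterion for centred functions of the sum of digits
in a residue class modulo `2 ^ h`.
-/

set_option autoImplicit false

namespace Pool.Agent.Lib.MP_3e612f_nt.DS

open Filter Topology

theorem sum_range_mul_add (a b : ℕ) (u : ℕ → ℝ) :
    ∑ x ∈ Finset.range (a * b), u x =
      ∑ i ∈ Finset.range a, ∑ m ∈ Finset.range b, u (a * m + i) := by
  rw [Finset.sum_comm]
  induction b with
  | zero => simp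
  | succ b ih =>
    rw [Nat.mul_succ, Finset.sum_range_add, ih, Finset.sum_range_succ]

theorem block_split (h k : ℕ) (u : ℕ → ℝ) :
    (∑ n ∈ Finset.Ico (2 ^ (k + h)) (2 ^ (k + h + 1)), u n) / 2 ^ (k + h) =
      (∑ i ∈ Finset.range (2 ^ h), av k (fun m => u (2 ^ h * (2 ^ k + m) + i))) / 2 ^ h := by
  have e0 : (2 : ℕ) ^ (k + h + 1) - 2 ^ (k + h) = 2 ^ h * 2 ^ k := by
    rw [pow_succ, pow_add]
    have : 2 ^ k * 2 ^ h * 2 = 2 ^ k * 2 ^ h + 2 ^ k * 2 ^ h := by ring
    rw [this, Nat.add_sub_cancel, mul_comm]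
  rw [Finset.sum_Ico_eq_sum_range, e0, sum_range_mul_add]
  unfold av
  rw [← Finset.sum_div, div_div]
  have e1 : (2 : ℝ) ^ (k + h) = 2 ^ k * 2 ^ h := pow_add _ _ _
  rw [e1]
  congr 1
  refine Finset.sum_congr rfl fun i _ => Finset.sum_congr rfl fun m _ => ?_
  congr 1
  rw [pow_add]
  ring

theorem bin_succ_close {g : ℕ → ℝ} (hg : ∀ x, |g x| ≤ 1) (k : ℕ) :
    |bin (k + 1) g - bin k g| ≤ 1 / Real.sqrt (k + 1) := by
  have h1 := bin_shift hg k
  have e : bin (k + 1) g - bin k g = -((bin k g - bin k (fun x => g (x + 1))) / 2) := by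
    rw [bin_succ]
    ring
  rw [e, abs_neg, abs_div, abs_of_pos (by norm_num : (0 : ℝ) < 2)]
  have e2 : 1 / Real.sqrt ((k : ℝ) + 1) = 2 / Real.sqrt (k + 1) / 2 := by ring
  rw [e2]
  exact div_le_div_of_nonneg_right h1 (by norm_num)

theorem bin_add_close {g : ℕ → ℝ} (hg : ∀ x, |g x| ≤ 1) (k m : ℕ) :
    |bin (k + m) g - bin k g| ≤ m / Real.sqrt (k + 1) := by
  induction m with
  | zero => simp
  | succ m ih =>
    have h1 := bin_succ_close hg (k + m)
    have h2 : 1 / Real.sqrt (((k + m : ℕ) : ℝ) + 1) ≤ 1 / Real.sqrt (k + 1) := by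
      refine one_div_le_one_div_of_le (Real.sqrt_pos.mpr (by positivity)) ?_
      refine Real.sqrt_le_sqrt ?_
      push_cast
      linarith [(Nat.cast_nonneg m : (0 : ℝ) ≤ m)]
    have e : bin (k + (m + 1)) g - bin k g =
        (bin (k + m + 1) g - bin (k + m) g) + (bin (k + m) g - bin k g) := by
      rw [← add_assoc]
      ring
    rw [e]
    refine (abs_add_le _ _).trans ?_
    push_cast
    rw [add_div]
    linarith

/-- the logarithm of a multiple of a number in a block -/
theorem log_mul_block {p κ n : ℕ} (hp : 1 ≤ p) (hn : 2 ^ κ ≤ n) (hn' : n < 2 ^ (κ + 1)) :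
    κ ≤ Nat.log 2 (p * n) ∧ Nat.log 2 (p * n) ≤ κ + p := by
  constructor
  · refine Nat.le_log_of_pow_le (by norm_num) (hn.trans ?_)
    exact Nat.le_mul_of_pos_left n hp
  · have h1 : p * n < 2 ^ (κ + p + 1) := by
      have h2 : p < 2 ^ p := Nat.lt_two_pow_self
      calc p * n < 2 ^ p * 2 ^ (κ + 1) := by
            exact Nat.mul_lt_mul_of_lt_of_lt h2 hn'
        _ = 2 ^ (κ + p + 1) := by ring
    have hn0 : 0 < n := lt_of_lt_of_le (by positivity) hn
    have := Nat.log_lt_of_lt_pow (Nat.mul_pos hp hn0).ne' h1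
    omega

/-- the centred function -/
noncomputable def cen (h a : ℕ) (g : ℕ → ℝ) (n : ℕ) : ℝ :=
  if n % 2 ^ h = a then g (ds n) - bin (Nat.log 2 n) g else 0

theorem abs_cen_le {h a : ℕ} {g : ℕ → ℝ} (hg : ∀ x, |g x| ≤ 1) (n : ℕ) : |cen h a g n| ≤ 2 := by
  unfold cen
  split_ifs
  · refine (abs_sub _ _).trans ?_
    linarith [hg (ds n), abs_bin_le (k := Nat.log 2 n) hg]
  · simp

/-- the centred function at a multiple of a number in a block -/
theorem cen_block {h a p i k m : ℕ} (ha : a < 2 ^ h) (hp : 1 ≤ p) (hi : i < 2 ^ h)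
    (hm : m < 2 ^ k) (hpi : (p * i) % 2 ^ h = a) {g : ℕ → ℝ} (hg : ∀ x, |g x| ≤ 1) :
    |cen h a g (p * (2 ^ h * (2 ^ k + m) + i)) -
      (g (ds (p * (2 ^ k + m) + p * i / 2 ^ h) + ds a) - bin k (fun x => g (x + ds a)))| ≤
      (h + p + 2 * a) / Real.sqrt (k + 1) := by
  set n := 2 ^ h * (2 ^ k + m) + i with hn
  have e1 : p * n = a + 2 ^ h * (p * (2 ^ k + m) + p * i / 2 ^ h) := by
    have := Nat.mod_add_div (p * i) (2 ^ h)
    rw [hpi] at this
    rw [hn]
    calc p * (2 ^ h * (2 ^ k + m) + i) = 2 ^ h * (p * (2 ^ k + m)) + p * i := by ring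
      _ = 2 ^ h * (p * (2 ^ k + m)) + (a + 2 ^ h * (p * i / 2 ^ h)) := by rw [this]
      _ = _ := by ring
  have e2 : (p * n) % 2 ^ h = a := by
    rw [e1, Nat.add_mul_mod_self_left, Nat.mod_eq_of_lt ha]
  have e3 : ds (p * n) = ds (p * (2 ^ k + m) + p * i / 2 ^ h) + ds a := by
    rw [e1, ds_add_mul _ ha, add_comm]
  have hlow : 2 ^ (k + h) ≤ n := by
    rw [hn, pow_add]
    nlinarith [Nat.zero_le (2 ^ h * m)]
  have hup : n < 2 ^ (k + h + 1) := by
    rw [hn]
    have : 2 ^ h * (2 ^ k + m) + i < 2 ^ h * (2 ^ k + m + 1) := by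
      rw [Nat.mul_succ]
      omega
    refine this.trans_le ?_
    calc 2 ^ h * (2 ^ k + m + 1) ≤ 2 ^ h * (2 ^ k + 2 ^ k) := Nat.mul_le_mul_left _ (by omega)
      _ = 2 ^ (k + h + 1) := by ring
  obtain ⟨l1, l2⟩ := log_mul_block hp hlow hup
  unfold cen
  rw [if_pos e2, e3]
  obtain ⟨q, hq⟩ : ∃ q, Nat.log 2 (p * n) = k + q := ⟨Nat.log 2 (p * n) - k, by omega⟩
  have hq2 : q ≤ h + p := by omega
  rw [hq]
  have b1 := bin_add_close hg k q
  have b2 := bin_shift_iter hg k (ds a)
  have hR : 0 < Real.sqrt ((k : ℝ) + 1) := Real.sqrt_pos.mpr (by positivity)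
  have e4 : g (ds (p * (2 ^ k + m) + p * i / 2 ^ h) + ds a) - bin (k + q) g -
      (g (ds (p * (2 ^ k + m) + p * i / 2 ^ h) + ds a) - bin k (fun x => g (x + ds a))) =
      -((bin (k + q) g - bin k g) + (bin k g - bin k (fun x => g (x + ds a)))) := by ring
  rw [e4, abs_neg]
  refine (abs_add_le _ _).trans ((add_le_add b1 b2).trans ?_)
  have h5 : (q : ℝ) ≤ h + p := by exact_mod_cast hq2
  have h6 : (ds a : ℝ) ≤ a := by exact_mod_cast ds_le a
  rw [mul_div_assoc', ← add_div]
  refine div_le_div_of_nonneg_right ?_ hR.le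
  linarith

theorem abs_mul_sub_le {x y x' y' e : ℝ} (hx : |x| ≤ 2) (hy' : |y'| ≤ 2) (h1 : |x - x'| ≤ e)
    (h2 : |y - y'| ≤ e) : |x * y - x' * y'| ≤ 4 * e := by
  have e0 : x * y - x' * y' = x * (y - y') + (x - x') * y' := by ring
  rw [e0]
  refine (abs_add_le _ _).trans ?_
  rw [abs_mul, abs_mul]
  have h3 : 0 ≤ e := (abs_nonneg _).trans h1
  have h4 : |x| * |y - y'| ≤ 2 * e := mul_le_mul hx h2 (abs_nonneg _) (by norm_num)
  have h5 : |x - x'| * |y'| ≤ e * 2 := mul_le_mul h1 hy' (abs_nonneg _) h3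
  linarith

/-- the hypothesis of the Kátai criterion -/
theorem cen_katai (h a : ℕ) {g : ℕ → ℝ} (hg : ∀ x, |g x| ≤ 1) {p r : ℕ} (hp : Odd p) (hr : Odd r)
    (hpr : p < r) {ε : ℝ} (hε : 0 < ε) : ∀ᶠ κ : ℕ in atTop,
      |(∑ n ∈ Finset.Ico (2 ^ κ) (2 ^ (κ + 1)), cen h a g (p * n) * cen h a g (r * n)) / 2 ^ κ| ≤
        1 * (p / r) + ε := by
  have hp1 : 1 ≤ p := hp.pos
  have hr1 : 1 ≤ r := hr.pos
  by_cases ha : a < 2 ^ h
  swap
  · refine Eventually.of_forall fun κ => ?_
    have hz : ∀ n, cen h a g n = 0 := fun n => by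
      unfold cen
      rw [if_neg]
      intro h1
      exact ha (h1 ▸ Nat.mod_lt _ (by positivity))
    simp only [hz, mul_zero, Finset.sum_const_zero, zero_div, abs_zero]
    positivity
  have hpair := pair_lemma hp hr hpr (show (0 : ℝ) < ε / 4 by positivity)
  have herr := (tendsto_div_sqrt (4 * ((h : ℝ) + r + 2 * a))).eventually_le_const
    (show (0 : ℝ) < ε / 4 by positivity)
  have hk : ∀ᶠ k : ℕ in atTop,
      |(∑ n ∈ Finset.Ico (2 ^ (k + h)) (2 ^ (k + h + 1)), cen h a g (p * n) * cen h a g (r * n)) /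
        2 ^ (k + h)| ≤ 1 * (p / r) + ε := by
    filter_upwards [hpair, herr] with k hk herr
    rw [block_split]
    have hterm : ∀ i ∈ Finset.range (2 ^ h),
        |av k (fun m => cen h a g (p * (2 ^ h * (2 ^ k + m) + i)) *
          cen h a g (r * (2 ^ h * (2 ^ k + m) + i)))| ≤ 1 * (p / r) + ε := by
      intro i hi
      rw [Finset.mem_range] at hi
      by_cases hpi : (p * i) % 2 ^ h = a
      swap
      · have hz : ∀ m, cen h a g (p * (2 ^ h * (2 ^ k + m) + i)) = 0 := fun m => by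
          unfold cen
          rw [if_neg]
          intro h1
          apply hpi
          have e : p * (2 ^ h * (2 ^ k + m) + i) = p * i + 2 ^ h * (p * (2 ^ k + m)) := by ring
          rw [e, Nat.add_mul_mod_self_left] at h1
          exact h1
        simp only [hz, zero_mul]
        rw [av_const, abs_zero]
        positivity
      by_cases hri : (r * i) % 2 ^ h = a
      swap
      · have hz : ∀ m, cen h a g (r * (2 ^ h * (2 ^ k + m) + i)) = 0 := fun m => by
          unfold cen
          rw [if_neg]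
          intro h1
          apply hri
          have e : r * (2 ^ h * (2 ^ k + m) + i) = r * i + 2 ^ h * (r * (2 ^ k + m)) := by ring
          rw [e, Nat.add_mul_mod_self_left] at h1
          exact h1
        simp only [hz, mul_zero]
        rw [av_const, abs_zero]
        positivity
      -- the main case
      set g₁ : ℕ → ℝ := fun x => g (x + ds a) with hg₁
      have hg₁b : ∀ x, |g₁ x| ≤ 1 := fun x => hg _
      have hcp : p * i / 2 ^ h ≤ p := by
        refine Nat.div_le_of_le_mul ?_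
        rw [mul_comm]
        exact Nat.mul_le_mul_right _ hi.le
      have hcr : r * i / 2 ^ h ≤ r := by
        refine Nat.div_le_of_le_mul ?_
        rw [mul_comm]
        exact Nat.mul_le_mul_right _ hi.le
      obtain ⟨k1, k2, k3⟩ := hk _ hcp _ hcr g₁ g₁ hg₁b hg₁b
      set β := bin k g₁ with hβ
      have hβ1 : |β| ≤ 1 := abs_bin_le hg₁b
      have hclose : ∀ m < 2 ^ k, |cen h a g (p * (2 ^ h * (2 ^ k + m) + i)) *
          cen h a g (r * (2 ^ h * (2 ^ k + m) + i)) -
          (g₁ (ds (p * (2 ^ k + m) + p * i / 2 ^ h)) - β) *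
            (g₁ (ds (r * (2 ^ k + m) + r * i / 2 ^ h)) - β)| ≤ ε / 4 := by
        intro m hm
        have c1 := cen_block ha hp1 hi hm hpi hg
        have c2 := cen_block ha hr1 hi hm hri hg
        have hle : ((h : ℝ) + p + 2 * a) / Real.sqrt (k + 1) ≤
            (h + r + 2 * a) / Real.sqrt (k + 1) := by
          refine div_le_div_of_nonneg_right ?_ (Real.sqrt_nonneg _)
          have : (p : ℝ) ≤ r := by exact_mod_cast hpr.le
          linarith
        have c3 := abs_mul_sub_le (abs_cen_le hg _) (y' := g₁ (ds (r * (2 ^ k + m) +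
          r * i / 2 ^ h)) - β) ((abs_sub _ _).trans (by linarith [hg₁b (ds (r * (2 ^ k + m) +
          r * i / 2 ^ h))])) (c1.trans hle) c2
        refine c3.trans (le_trans (le_of_eq ?_) herr)
        ring
      have hmain : |av k (fun m => (g₁ (ds (p * (2 ^ k + m) + p * i / 2 ^ h)) - β) *
            (g₁ (ds (r * (2 ^ k + m) + r * i / 2 ^ h)) - β))| ≤ p / r + 3 * (ε / 4) := by
        have e : av k (fun m => (g₁ (ds (p * (2 ^ k + m) + p * i / 2 ^ h)) - β) *
            (g₁ (ds (r * (2 ^ k + m) + r * i / 2 ^ h)) - β)) =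
            (av k (fun m => g₁ (ds (p * (2 ^ k + m) + p * i / 2 ^ h)) *
              g₁ (ds (r * (2 ^ k + m) + r * i / 2 ^ h))) - β * β) -
            β * (av k (fun m => g₁ (ds (p * (2 ^ k + m) + p * i / 2 ^ h))) - β) -
            β * (av k (fun m => g₁ (ds (r * (2 ^ k + m) + r * i / 2 ^ h))) - β) := by
          have e1 : (fun m => (g₁ (ds (p * (2 ^ k + m) + p * i / 2 ^ h)) - β) *
              (g₁ (ds (r * (2 ^ k + m) + r * i / 2 ^ h)) - β)) = fun m =>
              g₁ (ds (p * (2 ^ k + m) + p * i / 2 ^ h)) *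
              g₁ (ds (r * (2 ^ k + m) + r * i / 2 ^ h)) -
              β * g₁ (ds (p * (2 ^ k + m) + p * i / 2 ^ h)) -
              β * g₁ (ds (r * (2 ^ k + m) + r * i / 2 ^ h)) + β * β := by
            funext m
            ring
          rw [e1, av_add, av_sub, av_sub, av_const_mul, av_const_mul, av_const]
          ring
        rw [e]
        have hb1 : |β * (av k (fun m => g₁ (ds (p * (2 ^ k + m) + p * i / 2 ^ h))) - β)| ≤
            ε / 4 := by
          rw [abs_mul]
          exact (mul_le_of_le_one_left (abs_nonneg _) hβ1).trans k2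
        have hb2 : |β * (av k (fun m => g₁ (ds (r * (2 ^ k + m) + r * i / 2 ^ h))) - β)| ≤
            ε / 4 := by
          rw [abs_mul]
          exact (mul_le_of_le_one_left (abs_nonneg _) hβ1).trans k3
        have t1 := abs_le.mp k1
        have t2 := abs_le.mp hb1
        have t3 := abs_le.mp hb2
        rw [abs_le]
        constructor
        · linarith [t1.1, t2.2, t3.2]
        · linarith [t1.2, t2.1, t3.1]
      have hcl := av_close hclose
      have t1 := abs_le.mp hcl
      have t2 := abs_le.mp hmain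
      rw [abs_le]
      constructor
      · linarith [t1.1, t2.1]
      · linarith [t1.2, t2.2]
    rw [abs_div, abs_of_pos (by positivity : (0 : ℝ) < 2 ^ h), div_le_iff₀ (by positivity)]
    refine (Finset.abs_sum_le_sum_abs _ _).trans ?_
    refine (Finset.sum_le_sum hterm).trans (le_of_eq ?_)
    rw [Finset.sum_const, Finset.card_range, nsmul_eq_mul]
    push_cast
    ring
  have h2 := (tendsto_sub_atTop_nat h).eventually hk
  filter_upwards [h2, eventually_ge_atTop h] with κ h3 h4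
  rw [Nat.sub_add_cancel h4] at h3
  exact h3

end Pool.Agent.Lib.MP_3e612f_nt.DS
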