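import Pool.Agent.Lib.MP_3e612f_nt.DSDefs

set_option autoImplicit false

namespace Pool.Agent.Lib.MP_3e612f_nt.DS

namespace Corr

lemma sum_perm {M p : ℕ} (hM : 0 < M) (hcop : Nat.Coprime M p) (c : ℕ) (u : ℕ → ℝ) :
    ∑ n ∈ Finset.range M, u ((p * n + c) % M) = ∑ m ∈ Finset.range M, u m := by
  have hinj : Set.InjOn (fun n => (p * n + c) % M) (Finset.range M) := by
    intro n hn n' hn' h
    have hn := Finset.mem_range.1 (Finset.mem_coe.1 hn)
    have hn' := Finset.mem_range.1 (Finset.mem_coe.1 hn')
    have h1 : p * n + c ≡ p * n' + c [MOD M] := h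
    have h2 : p * n ≡ p * n' [MOD M] := Nat.ModEq.add_right_cancel' c h1
    have h3 : n ≡ n' [MOD M] := Nat.ModEq.cancel_left_of_coprime hcop h2
    exact Nat.ModEq.eq_of_lt_of_lt h3 hn hn'
  have himg : (Finset.range M).image (fun n => (p * n + c) % M) = Finset.range M := by
    refine Finset.eq_of_subset_of_card_le ?_ ?_
    · intro m hm
      obtain ⟨n, _, rfl⟩ := Finset.mem_image.1 hm
      exact Finset.mem_range.2 (Nat.mod_lt _ hM)
    · rw [Finset.card_image_of_injOn hinj]
  conv_rhs => rw [← himg, Finset.sum_image hinj]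

lemma sum_shift {M : ℕ} {I : ℕ → ℝ} (hI : ∀ n, I (n + M) = I n) (h : ℕ) :
    ∑ n ∈ Finset.range M, I (n + h) = ∑ n ∈ Finset.range M, I n := by
  induction h with
  | zero => rfl
  | succ h ih =>
    have h1 := Finset.sum_range_succ (fun n => I (n + h)) M
    have h2 := Finset.sum_range_succ' (fun n => I (n + h)) M
    have h3 : I (M + h) = I h := by rw [add_comm]; exact hI h
    simp only [zero_add] at h2
    have h4 : ∑ n ∈ Finset.range M, I (n + (h + 1)) = ∑ n ∈ Finset.range M, I (n + 1 + h) := by
      refine Finset.sum_congr rfl fun n _ => by congr 1; ring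
    rw [h4]
    linarith

lemma div_add_of_lt {x y M : ℕ} (h : x % M + y < M) : (x + y) / M = x / M := by
  have h1 : x + y = M * (x / M) + (x % M + y) := by
    have := Nat.div_add_mod x M; omega
  have hM : 0 < M := by omega
  rw [h1, Nat.mul_add_div hM, Nat.div_eq_of_lt h, add_zero]

lemma div_add_of_ge {x y M : ℕ} (h : M ≤ x % M + y) (hy : y ≤ M) (hM : 0 < M) :
    (x + y) / M = x / M + 1 := by
  have h1 : x + y = M * (x / M) + (x % M + y) := by
    have := Nat.div_add_mod x M; omega
  have h2 := Nat.mod_lt x hM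
  rw [h1, Nat.mul_add_div hM]
  congr 1
  rw [Nat.div_eq_iff hM]
  constructor <;> omega

lemma count_ge (M m : ℕ) (hm : m ≤ M) :
    ∑ x ∈ Finset.range M, (if M ≤ x + m then (1 : ℝ) else 0) = m := by
  rw [← Finset.sum_filter, Finset.sum_const, nsmul_eq_mul, mul_one]
  have : (Finset.range M).filter (fun x => M ≤ x + m) = Finset.Ico (M - m) M := by
    ext x; simp only [Finset.mem_filter, Finset.mem_range, Finset.mem_Ico]; omega
  rw [this, Nat.card_Ico]
  congr 1; omega

lemma count_lt (M m : ℕ) (hm : m ≤ M) :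
    ∑ x ∈ Finset.range M, (if x + m < M then (1 : ℝ) else 0) = (M - m : ℕ) := by
  rw [← Finset.sum_filter, Finset.sum_const, nsmul_eq_mul, mul_one]
  have : (Finset.range M).filter (fun x => x + m < M) = Finset.range (M - m) := by
    ext x; simp only [Finset.mem_filter, Finset.mem_range]; omega
  rw [this, Finset.card_range]

end Corr

open Corr in
theorem sg_mean {p r c d : ℕ} (hp : Odd p) (hr : Odd r) (hpr : p < r) (j : ℕ) :
    |av j (sg p r c d j)| ≤ p / r + r / 2 ^ j := by
  set M : ℕ := 2 ^ j with hM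
  have hM0 : 0 < M := by positivity
  have hr0 : 0 < r := by omega
  set h : ℕ := M / r with hh
  have hrh : r * h ≤ M := Nat.mul_div_le M r
  have hph : p * h ≤ r * h := Nat.mul_le_mul_right _ hpr.le
  have hmod : M - r * h < r := by
    have h1 := Nat.div_add_mod M r
    have h2 := Nat.mod_lt M hr0
    rw [← hh] at h1
    omega
  have hcopp : Nat.Coprime M p := Nat.Coprime.pow_left _ (Nat.coprime_two_left.2 hp)
  have hcopr : Nat.Coprime M r := Nat.Coprime.pow_left _ (Nat.coprime_two_left.2 hr)
  -- periodicity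
  have hper : ∀ n, sg p r c d j (n + M) = sg p r c d j n := by
    intro n
    unfold sg
    rw [← hM]
    have h1 : (p * (n + M) + c) / M = (p * n + c) / M + p := by
      rw [show p * (n + M) + c = (p * n + c) + M * p by ring, Nat.add_mul_div_left _ _ hM0]
    have h2 : (r * (n + M) + d) / M = (r * n + d) / M + r := by
      rw [show r * (n + M) + d = (r * n + d) + M * r by ring, Nat.add_mul_div_left _ _ hM0]
    rw [h1, h2, show (p * n + c) / M + p + ((r * n + d) / M + r) =
      ((p * n + c) / M + (r * n + d) / M) + (p + r) by ring, pow_add, (hp.add_odd hr).neg_one_pow,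
      mul_one]
  have habs : ∀ n, |sg p r c d j n| ≤ 1 := fun n => by
    unfold sg; rw [abs_pow, abs_neg, abs_one, one_pow]
  have hkey : ∀ n, |sg p r c d j n + sg p r c d j (n + h)| ≤
      2 * (if M ≤ (p * n + c) % M + p * h then (1 : ℝ) else 0) +
        2 * (if (r * n + d) % M + r * h < M then (1 : ℝ) else 0) := by
    intro n
    have htriv : |sg p r c d j n + sg p r c d j (n + h)| ≤ 2 :=
      (abs_add_le _ _).trans (by linarith [habs n, habs (n + h)])
    by_cases h1 : M ≤ (p * n + c) % M + p * h
    · rw [if_pos h1]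
      have : (0 : ℝ) ≤ (if (r * n + d) % M + r * h < M then (1 : ℝ) else 0) := by
        split_ifs <;> norm_num
      linarith
    · by_cases h2 : (r * n + d) % M + r * h < M
      · rw [if_pos h2, if_neg h1]
        linarith
      · rw [if_neg h1, if_neg h2]
        push Not at h1 h2
        have h3 : (p * (n + h) + c) / M = (p * n + c) / M := by
          rw [show p * (n + h) + c = (p * n + c) + p * h by ring]
          exact div_add_of_lt h1
        have h4 : (r * (n + h) + d) / M = (r * n + d) / M + 1 := by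
          rw [show r * (n + h) + d = (r * n + d) + r * h by ring]
          exact div_add_of_ge h2 hrh hM0
        unfold sg
        rw [← hM, h3, h4, ← add_assoc, pow_succ]
        simp
  have hsum : 2 * ∑ n ∈ Finset.range M, sg p r c d j n =
      ∑ n ∈ Finset.range M, (sg p r c d j n + sg p r c d j (n + h)) := by
    rw [Finset.sum_add_distrib, sum_shift hper]; ring
  have hbound : |2 * ∑ n ∈ Finset.range M, sg p r c d j n| ≤ 2 * (p * h : ℕ) + 2 * (M - r * h : ℕ) := by
    rw [hsum]
    refine (Finset.abs_sum_le_sum_abs _ _).trans ?_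
    refine (Finset.sum_le_sum fun n _ => hkey n).trans (le_of_eq ?_)
    rw [Finset.sum_add_distrib, ← Finset.mul_sum, ← Finset.mul_sum,
      sum_perm hM0 hcopp c (fun x => if M ≤ x + p * h then (1 : ℝ) else 0),
      sum_perm hM0 hcopr d (fun x => if x + r * h < M then (1 : ℝ) else 0),
      count_ge M _ (hph.trans hrh), count_lt M _ hrh]
  have hMr : (0 : ℝ) < (2 : ℝ) ^ j := by positivity
  have hMcast : ((M : ℕ) : ℝ) = 2 ^ j := by rw [hM]; push_cast; rfl
  unfold av
  rw [← hM, abs_div, abs_of_pos hMr, div_le_iff₀ hMr, add_mul, div_mul_cancel₀ _ hMr.ne']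
  have h5 : |∑ n ∈ Finset.range M, sg p r c d j n| ≤ (p * h : ℕ) + (M - r * h : ℕ) := by
    rw [abs_mul, abs_two] at hbound; linarith
  refine h5.trans (add_le_add ?_ ?_)
  · push_cast
    have h6 : ((h : ℕ) : ℝ) ≤ 2 ^ j / r := by
      rw [← hMcast, hh]; exact Nat.cast_div_le
    calc (p : ℝ) * h ≤ p * (2 ^ j / r) := by gcongr
      _ = p / r * 2 ^ j := by ring
  · exact_mod_cast hmod.le

end Pool.Agent.Lib.MP_3e612f_nt.DS
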