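import Pool.Agent.Lib.MP_3e612f_nt.Incr

/-!
Definitions for the orthogonality of the Möbius function to functions of the binary sum of digits.
-/

set_option autoImplicit false

namespace Pool.Agent.Lib.MP_3e612f_nt.DS

open Filter Topology
open Pool.Agent.Lib.MP_3e612f_nt

/-- the binary sum of digits -/
def ds (n : ℕ) : ℕ := (Nat.digits 2 n).sum

/-- the average over `n < 2 ^ k` -/
noncomputable def av (k : ℕ) (u : ℕ → ℝ) : ℝ := (∑ n ∈ Finset.range (2 ^ k), u n) / 2 ^ k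

/-- the binomial mean -/
noncomputable def bin (k : ℕ) (G : ℕ → ℝ) : ℝ :=
  (∑ i ∈ Finset.range (k + 1), (k.choose i : ℝ) * G i) / 2 ^ k

/-- the sign which tells whether adding the digit number `j` of `n` changes the digits number `j`
of `p n + c` and of `r n + d` in the same way -/
noncomputable def sg (p r c d j n : ℕ) : ℝ :=
  (-1) ^ ((p * n + c) / 2 ^ j + (r * n + d) / 2 ^ j)

/-- one step of the model: two fair bits with correlation `ρ` -/
noncomputable def Q (ρ : ℝ) (F : ℕ → ℕ → ℝ) (x y : ℕ) : ℝ :=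
  ((1 + ρ) * (F x y + F (x + 1) (y + 1)) + (1 - ρ) * (F (x + 1) y + F x (y + 1))) / 4

/-- `k` steps of the model -/
noncomputable def model (ρ : ℕ → ℝ) : ℕ → (ℕ → ℕ → ℝ) → ℕ → ℕ → ℝ
  | 0, F => F
  | k + 1, F => model ρ k (Q (ρ k) F)

/-- functions bounded by `1` which vary slowly at scale `1 / δ` -/
def Slow (δ : ℝ) (G : ℕ → ℝ) : Prop :=
  (∀ x, |G x| ≤ 1) ∧ (∀ x, |G (x + 1) - G x| ≤ δ) ∧
    ∀ x, |G (x + 2) - 2 * G (x + 1) + G x| ≤ δ ^ 2

end Pool.Agent.Lib.MP_3e612f_nt.DS
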