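import Pool.Agent.Lib.MP_3e612f_nt.DSDefs

/-!
Telescoping comparison of the joint law of the digit sums of `p n + c` and `r n + d` with the model
of independent pairs of correlated bits.
-/

set_option autoImplicit false

namespace Pool.Agent.Lib.MP_3e612f_nt.DS

open Filter Topology
open Pool.Agent.Lib.MP_3e612f_nt

theorem bB_ds_rec (n : ℕ) : ds n = n % 2 + ds (n / 2) := by
  rcases Nat.eq_zero_or_pos n with rfl | h
  · simp [ds]
  · unfold ds
    rw [Nat.digits_def' (by norm_num) h, List.sum_cons]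

theorem bB_ds_add (j : ℕ) : ∀ x q : ℕ, x < 2 ^ j → ds (x + 2 ^ j * q) = ds x + ds q := by
  induction j with
  | zero =>
    intro x q hx
    have : x = 0 := by simpa using hx
    subst this
    simp [ds]
  | succ j ih =>
    intro x q hx
    rw [bB_ds_rec (x + 2 ^ (j + 1) * q), bB_ds_rec x]
    have h1 : (x + 2 ^ (j + 1) * q) % 2 = x % 2 := by
      have : 2 ^ (j + 1) * q = 2 * (2 ^ j * q) := by ring
      omega
    have h2 : (x + 2 ^ (j + 1) * q) / 2 = x / 2 + 2 ^ j * q := by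
      have : 2 ^ (j + 1) * q = 2 * (2 ^ j * q) := by ring
      omega
    rw [h1, h2, ih (x / 2) q (by rw [pow_succ] at hx; omega)]
    ring

theorem bB_ds_le (t : ℕ) : ∀ q : ℕ, q < 2 ^ t → ds q ≤ t := by
  induction t with
  | zero =>
    intro q hq
    have : q = 0 := by simpa using hq
    subst this
    simp [ds]
  | succ t ih =>
    intro q hq
    rw [bB_ds_rec]
    have := ih (q / 2) (by rw [pow_succ] at hq; omega)
    omega

theorem bB_ds_zero : ds 0 = 0 := by simp [ds]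

theorem bB_ds_bit (b : ℕ) (hb : b < 2) : ds b = b := by
  rw [bB_ds_rec]
  have h1 : b / 2 = 0 := by omega
  rw [h1, bB_ds_zero]
  omega

theorem bB_av_succ (j : ℕ) (u : ℕ → ℝ) :
    av (j + 1) u = (av j u + av j (fun n => u (n + 2 ^ j))) / 2 := by
  unfold av
  have h : 2 ^ (j + 1) = 2 ^ j + 2 ^ j := by rw [pow_succ]; ring
  rw [h, Finset.sum_range_add]
  have h2 : ∑ x ∈ Finset.range (2 ^ j), u (2 ^ j + x) = ∑ x ∈ Finset.range (2 ^ j), u (x + 2 ^ j) :=
    Finset.sum_congr rfl fun x _ => by rw [add_comm]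
  rw [h2]
  have h3 : (2 : ℝ) ^ j ≠ 0 := by positivity
  rw [pow_succ]
  field_simp

theorem bB_av_add (j : ℕ) (u v : ℕ → ℝ) : av j (fun n => u n + v n) = av j u + av j v := by
  unfold av
  rw [Finset.sum_add_distrib, add_div]

theorem bB_av_abs_le (j : ℕ) (u : ℕ → ℝ) (C : ℝ) (h : ∀ n, |u n| ≤ C) : |av j u| ≤ C := by
  unfold av
  rw [abs_div, abs_of_pos (show (0 : ℝ) < 2 ^ j by positivity), div_le_iff₀ (by positivity)]
  calc |∑ n ∈ Finset.range (2 ^ j), u n| ≤ ∑ n ∈ Finset.range (2 ^ j), |u n| :=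
        Finset.abs_sum_le_sum_abs _ _
    _ ≤ ∑ _n ∈ Finset.range (2 ^ j), C := Finset.sum_le_sum fun n _ => h n
    _ = C * 2 ^ j := by
        rw [Finset.sum_const, Finset.card_range, nsmul_eq_mul]; push_cast; ring

/-- the mixed difference -/
noncomputable def bD (F : ℕ → ℕ → ℝ) (x y : ℕ) : ℝ :=
  (F x y + F (x + 1) (y + 1) - F (x + 1) y - F x (y + 1)) / 4

theorem bB_Q_sub (ρ ρ' : ℝ) (F : ℕ → ℕ → ℝ) (x y : ℕ) :
    Q ρ' F x y = Q ρ F x y + (ρ' - ρ) * bD F x y := by
  unfold Q bD; ring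

theorem bB_D_Q (ρ : ℝ) (F : ℕ → ℕ → ℝ) (x y : ℕ) : bD (Q ρ F) x y = Q ρ (bD F) x y := by
  unfold Q bD; ring

theorem bB_Q_abs (ρ : ℝ) (hρ : |ρ| ≤ 1) (F : ℕ → ℕ → ℝ) (x y : ℕ) (C : ℝ)
    (h : ∀ x y, |F x y| ≤ C) : |Q ρ F x y| ≤ C := by
  unfold Q
  have h1 := abs_le.mp hρ
  have a1 := abs_le.mp (h x y)
  have a2 := abs_le.mp (h (x + 1) (y + 1))
  have a3 := abs_le.mp (h (x + 1) y)
  have a4 := abs_le.mp (h x (y + 1))
  rw [abs_le]
  constructor
  · nlinarith [mul_nonneg (show 0 ≤ 1 + ρ by linarith) (show 0 ≤ C + F x y by linarith),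
      mul_nonneg (show 0 ≤ 1 + ρ by linarith) (show 0 ≤ C + F (x + 1) (y + 1) by linarith),
      mul_nonneg (show 0 ≤ 1 - ρ by linarith) (show 0 ≤ C + F (x + 1) y by linarith),
      mul_nonneg (show 0 ≤ 1 - ρ by linarith) (show 0 ≤ C + F x (y + 1) by linarith)]
  · nlinarith [mul_nonneg (show 0 ≤ 1 + ρ by linarith) (show 0 ≤ C - F x y by linarith),
      mul_nonneg (show 0 ≤ 1 + ρ by linarith) (show 0 ≤ C - F (x + 1) (y + 1) by linarith),
      mul_nonneg (show 0 ≤ 1 - ρ by linarith) (show 0 ≤ C - F (x + 1) y by linarith),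
      mul_nonneg (show 0 ≤ 1 - ρ by linarith) (show 0 ≤ C - F x (y + 1) by linarith)]

/-- the class of functions to which the comparison applies -/
def bCl (δ : ℝ) (F : ℕ → ℕ → ℝ) : Prop :=
  (∀ x y, |bD F x y| ≤ δ ^ 2 / 4) ∧ (∀ x y, |bD F (x + 1) y - bD F x y| ≤ δ ^ 3 / 4) ∧
    ∀ x y, |bD F x (y + 1) - bD F x y| ≤ δ ^ 3 / 4

theorem bCl.Q {δ : ℝ} {F : ℕ → ℕ → ℝ} (h : bCl δ F) (ρ : ℝ) (hρ : |ρ| ≤ 1) : bCl δ (Q ρ F) := by
  refine ⟨fun x y => ?_, fun x y => ?_, fun x y => ?_⟩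
  · rw [bB_D_Q]
    exact bB_Q_abs ρ hρ _ x y _ h.1
  · rw [bB_D_Q, bB_D_Q]
    have : DS.Q ρ (bD F) (x + 1) y - DS.Q ρ (bD F) x y
        = DS.Q ρ (fun x y => bD F (x + 1) y - bD F x y) x y := by
      unfold DS.Q; ring
    rw [this]
    exact bB_Q_abs ρ hρ _ x y _ h.2.1
  · rw [bB_D_Q, bB_D_Q]
    have : DS.Q ρ (bD F) x (y + 1) - DS.Q ρ (bD F) x y
        = DS.Q ρ (fun x y => bD F x (y + 1) - bD F x y) x y := by
      unfold DS.Q; ring
    rw [this]
    exact bB_Q_abs ρ hρ _ x y _ h.2.2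

theorem bCl_mul {δ : ℝ} (hδ : 0 ≤ δ) {G G' : ℕ → ℝ} (hG : Slow δ G) (hG' : Slow δ G') :
    bCl δ (fun x y => G x * G' y) := by
  have e1 : ∀ x y, bD (fun x y => G x * G' y) x y
      = (G (x + 1) - G x) * (G' (y + 1) - G' y) / 4 := by
    intro x y; unfold bD; ring
  refine ⟨fun x y => ?_, fun x y => ?_, fun x y => ?_⟩
  · rw [e1, abs_div, abs_mul, abs_of_pos (show (0 : ℝ) < 4 by norm_num)]
    apply div_le_div_of_nonneg_right _ (by norm_num)
    rw [sq]
    exact mul_le_mul (hG.2.1 x) (hG'.2.1 y) (abs_nonneg _) hδ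
  · rw [e1, e1]
    have : (G (x + 1 + 1) - G (x + 1)) * (G' (y + 1) - G' y) / 4
        - (G (x + 1) - G x) * (G' (y + 1) - G' y) / 4
        = (G (x + 2) - 2 * G (x + 1) + G x) * (G' (y + 1) - G' y) / 4 := by ring
    rw [this, abs_div, abs_mul, abs_of_pos (show (0 : ℝ) < 4 by norm_num)]
    apply div_le_div_of_nonneg_right _ (by norm_num)
    calc _ ≤ δ ^ 2 * δ := mul_le_mul (hG.2.2 x) (hG'.2.1 y) (abs_nonneg _) (by positivity)
      _ = δ ^ 3 := by ring
  · rw [e1, e1]
    have : (G (x + 1) - G x) * (G' (y + 1 + 1) - G' (y + 1)) / 4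
        - (G (x + 1) - G x) * (G' (y + 1) - G' y) / 4
        = (G (x + 1) - G x) * (G' (y + 2) - 2 * G' (y + 1) + G' y) / 4 := by ring
    rw [this, abs_div, abs_mul, abs_of_pos (show (0 : ℝ) < 4 by norm_num)]
    apply div_le_div_of_nonneg_right _ (by norm_num)
    calc _ ≤ δ * δ ^ 2 := mul_le_mul (hG.2.1 x) (hG'.2.2 y) (abs_nonneg _) hδ
      _ = δ ^ 3 := by ring

theorem bCl_shift {δ : ℝ} {F : ℕ → ℕ → ℝ} (h : bCl δ F) (x y a b : ℕ) :
    |bD F (x + a) (y + b) - bD F x y| ≤ (a + b) * (δ ^ 3 / 4) := by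
  have h1 : ∀ a x y, |bD F (x + a) y - bD F x y| ≤ a * (δ ^ 3 / 4) := by
    intro a
    induction a with
    | zero => intro x y; simp
    | succ a ih =>
      intro x y
      have e : bD F (x + (a + 1)) y - bD F x y
          = (bD F (x + a + 1) y - bD F (x + a) y) + (bD F (x + a) y - bD F x y) := by
        rw [← add_assoc]; ring
      rw [e]
      refine (abs_add_le _ _).trans ?_
      push_cast
      linarith [h.2.1 (x + a) y, ih x y]
  have h2 : ∀ b x y, |bD F x (y + b) - bD F x y| ≤ b * (δ ^ 3 / 4) := by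
    intro b
    induction b with
    | zero => intro x y; simp
    | succ b ih =>
      intro x y
      have e : bD F x (y + (b + 1)) - bD F x y
          = (bD F x (y + b + 1) - bD F x (y + b)) + (bD F x (y + b) - bD F x y) := by
        rw [← add_assoc]; ring
      rw [e]
      refine (abs_add_le _ _).trans ?_
      push_cast
      linarith [h.2.2 x (y + b), ih x y]
  have e : bD F (x + a) (y + b) - bD F x y
      = (bD F (x + a) (y + b) - bD F x (y + b)) + (bD F x (y + b) - bD F x y) := by ring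
  rw [e]
  refine (abs_add_le _ _).trans ?_
  linarith [h1 a x (y + b), h2 b x y]

theorem bB_sg_abs (p r c d j n : ℕ) : |sg p r c d j n| = 1 := by
  unfold sg
  rw [abs_pow, abs_neg, abs_one, one_pow]

theorem bB_neg_one_pow (A : ℕ) : ((-1 : ℝ)) ^ A = if A % 2 = 0 then 1 else -1 := by
  split_ifs with h
  · exact Even.neg_one_pow (Nat.even_iff.mpr h)
  · exact Odd.neg_one_pow (Nat.odd_iff.mpr (by omega))

theorem bB_mod_succ (X j : ℕ) : X % 2 ^ (j + 1) = X % 2 ^ j + 2 ^ j * (X / 2 ^ j % 2) := by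
  rw [pow_succ, Nat.mod_mul]

theorem bB_ds_mod_succ (X j : ℕ) : ds (X % 2 ^ (j + 1)) = ds (X % 2 ^ j) + X / 2 ^ j % 2 := by
  rw [bB_mod_succ, bB_ds_add j _ _ (Nat.mod_lt _ (by positivity)),
    bB_ds_bit _ (Nat.mod_lt _ (by norm_num))]

/-- one step -/
theorem bB_step {p r : ℕ} (hp : Odd p) (hr : Odd r) (c d j : ℕ) (F : ℕ → ℕ → ℝ) :
    av (j + 1) (fun n => F (ds ((p * n + c) % 2 ^ (j + 1))) (ds ((r * n + d) % 2 ^ (j + 1))))
      = av j (fun n => Q (sg p r c d j n) F (ds ((p * n + c) % 2 ^ j)) (ds ((r * n + d) % 2 ^ j))) := by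
  rw [bB_av_succ, ← bB_av_add]
  unfold av
  rw [div_div, mul_comm _ (2 : ℝ), ← div_div, Finset.sum_div]
  congr 1
  refine Finset.sum_congr rfl fun n _ => ?_
  simp only [bB_ds_mod_succ]
  have hpos : 0 < 2 ^ j := by positivity
  have e1 : ∀ P C : ℕ, (P * (n + 2 ^ j) + C) % 2 ^ j = (P * n + C) % 2 ^ j := by
    intro P C
    have : P * (n + 2 ^ j) + C = P * n + C + 2 ^ j * P := by ring
    rw [this, Nat.add_mul_mod_self_left]
  have e2 : ∀ P C : ℕ, (P * (n + 2 ^ j) + C) / 2 ^ j = (P * n + C) / 2 ^ j + P := by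
    intro P C
    have : P * (n + 2 ^ j) + C = P * n + C + 2 ^ j * P := by ring
    rw [this, Nat.add_mul_div_left _ _ hpos]
  rw [e1, e1, e2, e2]
  unfold sg Q
  rw [bB_neg_one_pow]
  generalize (p * n + c) / 2 ^ j = A
  generalize (r * n + d) / 2 ^ j = B
  generalize ds ((p * n + c) % 2 ^ j) = x
  generalize ds ((r * n + d) % 2 ^ j) = y
  have hp2 := Nat.odd_iff.mp hp
  have hr2 := Nat.odd_iff.mp hr
  rcases Nat.mod_two_eq_zero_or_one A with hA | hA <;>
    rcases Nat.mod_two_eq_zero_or_one B with hB | hB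
  · have h1 : (A + p) % 2 = 1 := by omega
    have h2 : (B + r) % 2 = 1 := by omega
    have h3 : (A + B) % 2 = 0 := by omega
    rw [hA, hB, h1, h2, if_pos h3]
    simp only [add_zero]
    ring
  · have h1 : (A + p) % 2 = 1 := by omega
    have h2 : (B + r) % 2 = 0 := by omega
    have h3 : ¬ (A + B) % 2 = 0 := by omega
    rw [hA, hB, h1, h2, if_neg h3]
    simp only [add_zero]
    ring
  · have h1 : (A + p) % 2 = 0 := by omega
    have h2 : (B + r) % 2 = 1 := by omega
    have h3 : ¬ (A + B) % 2 = 0 := by omega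
    rw [hA, hB, h1, h2, if_neg h3]
    simp only [add_zero]
    ring
  · have h1 : (A + p) % 2 = 0 := by omega
    have h2 : (B + r) % 2 = 0 := by omega
    have h3 : (A + B) % 2 = 0 := by omega
    rw [hA, hB, h1, h2, if_pos h3]
    simp only [add_zero]
    ring

theorem bB_step' {p r : ℕ} (hp : Odd p) (hr : Odd r) (c d j : ℕ) (F : ℕ → ℕ → ℝ) (ρ : ℝ) :
    av (j + 1) (fun n => F (ds ((p * n + c) % 2 ^ (j + 1))) (ds ((r * n + d) % 2 ^ (j + 1))))
      = av j (fun n => Q ρ F (ds ((p * n + c) % 2 ^ j)) (ds ((r * n + d) % 2 ^ j))) +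
        av j (fun n => (sg p r c d j n - ρ) *
          bD F (ds ((p * n + c) % 2 ^ j)) (ds ((r * n + d) % 2 ^ j))) := by
  rw [bB_step hp hr, ← bB_av_add]
  congr 1
  funext n
  exact bB_Q_sub ρ _ F _ _

/-- sums over blocks -/
theorem bB_sum_blocks (T M : ℕ) (u : ℕ → ℝ) :
    ∑ n ∈ Finset.range (T * M), u n
      = ∑ h ∈ Finset.range T, ∑ m ∈ Finset.range M, u (h * M + m) := by
  induction T with
  | zero => simp
  | succ T ih =>
    rw [Finset.sum_range_succ, ← ih, Nat.succ_mul, Finset.sum_range_add]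

theorem bB_ph_sum (P C M j T : ℕ) (hM : T * M = 2 ^ j) :
    ∑ h ∈ Finset.range T, (((((P * ((h + 1) * M) + C) / 2 ^ j : ℕ) : ℝ)) -
      (((P * (h * M) + C) / 2 ^ j : ℕ) : ℝ)) = P := by
  have := Finset.sum_range_sub (fun h => (((P * (h * M) + C) / 2 ^ j : ℕ) : ℝ)) T
  rw [this]
  have h1 : (P * (T * M) + C) / 2 ^ j = C / 2 ^ j + P := by
    rw [hM, add_comm, mul_comm P, Nat.add_mul_div_left _ _ (by positivity)]
  rw [h1]
  simp

theorem bB_sg_block (p r c d j M h m : ℕ) (hm : m < M) :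
    |sg p r c d j (h * M + m) - sg p r c d j (h * M)| ≤
      2 * (((((p * ((h + 1) * M) + c) / 2 ^ j : ℕ) : ℝ) -
        (((p * (h * M) + c) / 2 ^ j : ℕ) : ℝ)) +
        ((((r * ((h + 1) * M) + d) / 2 ^ j : ℕ) : ℝ) -
        (((r * (h * M) + d) / 2 ^ j : ℕ) : ℝ))) := by
  have hmono : ∀ P C : ℕ, (P * (h * M) + C) / 2 ^ j ≤ (P * (h * M + m) + C) / 2 ^ j ∧
      (P * (h * M + m) + C) / 2 ^ j ≤ (P * ((h + 1) * M) + C) / 2 ^ j := by
    intro P C
    constructor
    · apply Nat.div_le_div_right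
      have := Nat.mul_le_mul_left P (show h * M ≤ h * M + m by omega)
      omega
    · apply Nat.div_le_div_right
      have := Nat.mul_le_mul_left P (show h * M + m ≤ (h + 1) * M by rw [Nat.succ_mul]; omega)
      omega
  obtain ⟨a1, a2⟩ := hmono p c
  obtain ⟨b1, b2⟩ := hmono r d
  set A0 := (p * (h * M) + c) / 2 ^ j
  set A1 := (p * (h * M + m) + c) / 2 ^ j with hA1
  set A2 := (p * ((h + 1) * M) + c) / 2 ^ j
  set B0 := (r * (h * M) + d) / 2 ^ j
  set B1 := (r * (h * M + m) + d) / 2 ^ j with hB1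
  set B2 := (r * ((h + 1) * M) + d) / 2 ^ j
  have c1 : (A0 : ℝ) ≤ A2 := by exact_mod_cast a1.trans a2
  have c2 : (B0 : ℝ) ≤ B2 := by exact_mod_cast b1.trans b2
  by_cases hA : A0 = A2
  · by_cases hB : B0 = B2
    · have e : sg p r c d j (h * M + m) = sg p r c d j (h * M) := by
        unfold sg
        have e1 : (p * (h * M + m) + c) / 2 ^ j = A0 := by
          rw [← hA1]; omega
        have e2 : (r * (h * M + m) + d) / 2 ^ j = B0 := by
          rw [← hB1]; omega
        rw [e1, e2]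
      rw [e, sub_self, abs_zero]
      linarith
    · have hlt : B0 + 1 ≤ B2 := by
        have := b1.trans b2
        omega
      have c3 : (B0 : ℝ) + 1 ≤ B2 := by exact_mod_cast hlt
      refine (abs_sub _ _).trans ?_
      rw [bB_sg_abs, bB_sg_abs]
      linarith
  · have hlt : A0 + 1 ≤ A2 := by
      have := a1.trans a2
      omega
    have c3 : (A0 : ℝ) + 1 ≤ A2 := by exact_mod_cast hlt
    refine (abs_sub _ _).trans ?_
    rw [bB_sg_abs, bB_sg_abs]
    linarith

/-- the error at the level `j ≥ t` -/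
theorem bB_level {p r : ℕ} (c d j t : ℕ) (htj : t ≤ j)
    {δ : ℝ} (hδ : 0 ≤ δ) {F : ℕ → ℕ → ℝ} (hF : bCl δ F) :
    |av j (fun n => (sg p r c d j n - av j (sg p r c d j)) *
          bD F (ds ((p * n + c) % 2 ^ j)) (ds ((r * n + d) % 2 ^ j)))| ≤
      t * δ ^ 3 + (p + r + 2) / 2 ^ t * δ ^ 2 := by
  set ρ := av j (sg p r c d j) with hρ
  have hρ1 : |ρ| ≤ 1 := bB_av_abs_le j _ 1 fun n => (bB_sg_abs p r c d j n).le
  set T := 2 ^ t with hT
  set M := 2 ^ (j - t) with hM
  have hTM : T * M = 2 ^ j := by rw [hT, hM, ← pow_add]; congr 1; omega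
  have hTpos : (0 : ℝ) < T := by rw [hT]; positivity
  have hMpos : (0 : ℝ) < M := by rw [hM]; positivity
  have hMpos' : 0 < M := by rw [hM]; positivity
  set W : ℕ → ℝ := fun m => bD F (ds ((p * m + c) % M)) (ds ((r * m + d) % M)) with hW
  have hWabs : ∀ m, |W m| ≤ δ ^ 2 / 4 := fun m => hF.1 _ _
  -- replacement of the sums of digits
  have hrep : ∀ h, ∀ m, |bD F (ds ((p * (h * M + m) + c) % 2 ^ j))
        (ds ((r * (h * M + m) + d) % 2 ^ j)) - W m| ≤ (t + t) * (δ ^ 3 / 4) := by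
    intro h m
    have key : ∀ P C : ℕ, ∃ a, a ≤ t ∧
        ds ((P * (h * M + m) + C) % 2 ^ j) = ds ((P * m + C) % M) + a := by
      intro P C
      have e0 : (P * (h * M + m) + C) % 2 ^ j
          = (P * (h * M + m) + C) % M + M * ((P * (h * M + m) + C) / M % T) := by
        rw [← hTM, mul_comm T M, Nat.mod_mul]
      have e1 : (P * (h * M + m) + C) % M = (P * m + C) % M := by
        have : P * (h * M + m) + C = P * m + C + M * (P * h) := by ring
        rw [this, Nat.add_mul_mod_self_left]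
      refine ⟨ds ((P * (h * M + m) + C) / M % T), ?_, ?_⟩
      · apply bB_ds_le
        exact Nat.mod_lt _ (by positivity)
      · rw [e0, e1, hM]
        exact bB_ds_add (j - t) _ _ (Nat.mod_lt _ (by positivity))
    obtain ⟨a, ha, ea⟩ := key p c
    obtain ⟨b, hb, eb⟩ := key r d
    rw [ea, eb, hW]
    refine (bCl_shift hF _ _ a b).trans ?_
    have ha' : (a : ℝ) ≤ t := by exact_mod_cast ha
    have hb' : (b : ℝ) ≤ t := by exact_mod_cast hb
    exact mul_le_mul_of_nonneg_right (by linarith) (by positivity)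
  set Δ : ℕ → ℝ := fun h => (((((p * ((h + 1) * M) + c) / 2 ^ j : ℕ) : ℝ)) -
        (((p * (h * M) + c) / 2 ^ j : ℕ) : ℝ)) +
        (((((r * ((h + 1) * M) + d) / 2 ^ j : ℕ) : ℝ)) -
        (((r * (h * M) + d) / 2 ^ j : ℕ) : ℝ)) with hΔ
  have hΔsum : ∑ h ∈ Finset.range T, Δ h = p + r := by
    rw [hΔ, Finset.sum_add_distrib, bB_ph_sum p c M j T hTM, bB_ph_sum r d M j T hTM]
  have hblock : ∀ h, ∀ m, m < M →
      |sg p r c d j (h * M + m) - sg p r c d j (h * M)| ≤ 2 * Δ h :=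
    fun h m hm => bB_sg_block p r c d j M h m hm
  -- the main sum
  have hsum : |∑ h ∈ Finset.range T, ∑ m ∈ Finset.range M,
      (sg p r c d j (h * M + m) - sg p r c d j (h * M))| ≤ M * (2 * (p + r)) := by
    calc _ ≤ ∑ h ∈ Finset.range T, ∑ m ∈ Finset.range M,
          |sg p r c d j (h * M + m) - sg p r c d j (h * M)| :=
          (Finset.abs_sum_le_sum_abs _ _).trans
            (Finset.sum_le_sum fun h _ => Finset.abs_sum_le_sum_abs _ _)
      _ ≤ ∑ h ∈ Finset.range T, ∑ _m ∈ Finset.range M, 2 * Δ h :=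
          Finset.sum_le_sum fun h _ => Finset.sum_le_sum fun m hm =>
            hblock h m (Finset.mem_range.mp hm)
      _ = M * (2 * (p + r)) := by
          simp only [Finset.sum_const, Finset.card_range, nsmul_eq_mul]
          rw [← Finset.mul_sum, ← Finset.mul_sum, hΔsum]
  have hsumW : |∑ h ∈ Finset.range T, ∑ m ∈ Finset.range M,
      (sg p r c d j (h * M + m) - sg p r c d j (h * M)) * W m| ≤
        M * (2 * (p + r)) * (δ ^ 2 / 4) := by
    calc _ ≤ ∑ h ∈ Finset.range T, ∑ m ∈ Finset.range M,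
          |(sg p r c d j (h * M + m) - sg p r c d j (h * M)) * W m| :=
          (Finset.abs_sum_le_sum_abs _ _).trans
            (Finset.sum_le_sum fun h _ => Finset.abs_sum_le_sum_abs _ _)
      _ ≤ ∑ h ∈ Finset.range T, ∑ _m ∈ Finset.range M, 2 * Δ h * (δ ^ 2 / 4) := by
          refine Finset.sum_le_sum fun h _ => Finset.sum_le_sum fun m hm => ?_
          rw [abs_mul]
          have h1 := hblock h m (Finset.mem_range.mp hm)
          exact mul_le_mul h1 (hWabs m) (abs_nonneg _) ((abs_nonneg _).trans h1)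
      _ = M * (2 * (p + r)) * (δ ^ 2 / 4) := by
          simp only [Finset.sum_const, Finset.card_range, nsmul_eq_mul]
          rw [← Finset.mul_sum, ← Finset.sum_mul, ← Finset.mul_sum, hΔsum]
          ring
  have hρsum : (∑ h ∈ Finset.range T, ∑ m ∈ Finset.range M, sg p r c d j (h * M + m))
      = T * M * ρ := by
    rw [← bB_sum_blocks, hTM, hρ]
    unfold av
    have : (T : ℝ) * M = 2 ^ j := by
      have : ((T * M : ℕ) : ℝ) = ((2 ^ j : ℕ) : ℝ) := by rw [hTM]
      push_cast at this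
      exact this
    rw [this]
    field_simp
  set S0 := ∑ h ∈ Finset.range T, sg p r c d j (h * M) with hS0
  have hS0' : |S0 - T * ρ| ≤ 2 * (p + r) := by
    have e : ∑ h ∈ Finset.range T, ∑ m ∈ Finset.range M,
      (sg p r c d j (h * M + m) - sg p r c d j (h * M)) = - (M * (S0 - T * ρ)) := by
      simp only [Finset.sum_sub_distrib]
      rw [hρsum]
      simp only [Finset.sum_const, Finset.card_range, nsmul_eq_mul]
      rw [← Finset.mul_sum]
      ring
    rw [e, abs_neg, abs_mul, abs_of_pos hMpos] at hsum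
    exact le_of_mul_le_mul_left hsum hMpos
  have hWsum : |∑ m ∈ Finset.range M, W m| ≤ M * (δ ^ 2 / 4) := by
    calc _ ≤ ∑ m ∈ Finset.range M, |W m| := Finset.abs_sum_le_sum_abs _ _
      _ ≤ ∑ _m ∈ Finset.range M, δ ^ 2 / 4 := Finset.sum_le_sum fun m _ => hWabs m
      _ = _ := by simp only [Finset.sum_const, Finset.card_range, nsmul_eq_mul]
  have hmain : |∑ h ∈ Finset.range T, ∑ m ∈ Finset.range M,
      (sg p r c d j (h * M + m) - ρ) * W m| ≤ M * (p + r) * δ ^ 2 := by
    have e : ∑ h ∈ Finset.range T, ∑ m ∈ Finset.range M,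
        (sg p r c d j (h * M + m) - ρ) * W m
        = (∑ h ∈ Finset.range T, ∑ m ∈ Finset.range M,
            (sg p r c d j (h * M + m) - sg p r c d j (h * M)) * W m)
          + (S0 - T * ρ) * ∑ m ∈ Finset.range M, W m := by
      have e1 : (S0 - T * ρ) * ∑ m ∈ Finset.range M, W m
          = ∑ h ∈ Finset.range T, ∑ m ∈ Finset.range M, (sg p r c d j (h * M) - ρ) * W m := by
        have e2 : S0 - T * ρ = ∑ h ∈ Finset.range T, (sg p r c d j (h * M) - ρ) := by
          rw [Finset.sum_sub_distrib, hS0]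
          simp
        rw [e2, Finset.sum_mul_sum]
      rw [e1, ← Finset.sum_add_distrib]
      refine Finset.sum_congr rfl fun h _ => ?_
      rw [← Finset.sum_add_distrib]
      exact Finset.sum_congr rfl fun m _ => by ring
    rw [e]
    refine (abs_add_le _ _).trans ?_
    rw [abs_mul (S0 - T * ρ)]
    have h1 : |S0 - T * ρ| * |∑ m ∈ Finset.range M, W m|
        ≤ 2 * (p + r) * (M * (δ ^ 2 / 4)) :=
      mul_le_mul hS0' hWsum (abs_nonneg _) (by positivity)
    have h2 : (M : ℝ) * (2 * (p + r)) * (δ ^ 2 / 4) + 2 * (p + r) * (M * (δ ^ 2 / 4))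
        = M * (p + r) * δ ^ 2 := by ring
    linarith
  -- assembling
  unfold av
  have h2j : (2 : ℝ) ^ j = T * M := by
    have : ((T * M : ℕ) : ℝ) = ((2 ^ j : ℕ) : ℝ) := by rw [hTM]
    push_cast at this
    exact this.symm
  have hblk := bB_sum_blocks T M (fun n => (sg p r c d j n - ρ) *
          bD F (ds ((p * n + c) % 2 ^ j)) (ds ((r * n + d) % 2 ^ j)))
  rw [hTM] at hblk
  rw [hblk, h2j, abs_div, abs_of_pos (mul_pos hTpos hMpos), div_le_iff₀ (mul_pos hTpos hMpos)]
  have hdiff : |(∑ h ∈ Finset.range T, ∑ m ∈ Finset.range M, (sg p r c d j (h * M + m) - ρ) *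
          bD F (ds ((p * (h * M + m) + c) % 2 ^ j)) (ds ((r * (h * M + m) + d) % 2 ^ j)))
        - ∑ h ∈ Finset.range T, ∑ m ∈ Finset.range M, (sg p r c d j (h * M + m) - ρ) * W m|
      ≤ T * (M * (t * δ ^ 3)) := by
    rw [← Finset.sum_sub_distrib]
    calc _ ≤ ∑ h ∈ Finset.range T, |∑ m ∈ Finset.range M, (sg p r c d j (h * M + m) - ρ) *
          bD F (ds ((p * (h * M + m) + c) % 2 ^ j)) (ds ((r * (h * M + m) + d) % 2 ^ j))
          - ∑ m ∈ Finset.range M, (sg p r c d j (h * M + m) - ρ) * W m| :=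
          Finset.abs_sum_le_sum_abs _ _
      _ ≤ ∑ _h ∈ Finset.range T, (M * (t * δ ^ 3)) := by
          refine Finset.sum_le_sum fun h _ => ?_
          rw [← Finset.sum_sub_distrib]
          calc _ ≤ ∑ m ∈ Finset.range M, |(sg p r c d j (h * M + m) - ρ) *
              bD F (ds ((p * (h * M + m) + c) % 2 ^ j)) (ds ((r * (h * M + m) + d) % 2 ^ j))
              - (sg p r c d j (h * M + m) - ρ) * W m| := Finset.abs_sum_le_sum_abs _ _
            _ ≤ ∑ _m ∈ Finset.range M, t * δ ^ 3 := by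
                refine Finset.sum_le_sum fun m _ => ?_
                rw [← mul_sub, abs_mul]
                have h1 : |sg p r c d j (h * M + m) - ρ| ≤ 2 := by
                  refine (abs_sub _ _).trans ?_
                  rw [bB_sg_abs]
                  linarith
                calc _ ≤ 2 * ((t + t) * (δ ^ 3 / 4)) :=
                      mul_le_mul h1 (hrep h m) (abs_nonneg _) (by norm_num)
                  _ = t * δ ^ 3 := by ring
            _ = _ := by simp only [Finset.sum_const, Finset.card_range, nsmul_eq_mul]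
      _ = _ := by simp only [Finset.sum_const, Finset.card_range, nsmul_eq_mul]
  have h3 : ((p : ℝ) + r + 2) / 2 ^ t * δ ^ 2 * (T * M) = (p + r + 2) * M * δ ^ 2 := by
    have : (T : ℝ) = 2 ^ t := by rw [hT]; push_cast; rfl
    rw [this]
    field_simp
  have h4 := abs_sub_abs_le_abs_sub
    (∑ h ∈ Finset.range T, ∑ m ∈ Finset.range M, (sg p r c d j (h * M + m) - ρ) *
          bD F (ds ((p * (h * M + m) + c) % 2 ^ j)) (ds ((r * (h * M + m) + d) % 2 ^ j)))
    (∑ h ∈ Finset.range T, ∑ m ∈ Finset.range M, (sg p r c d j (h * M + m) - ρ) * W m)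
  have h5 : (0 : ℝ) ≤ 2 * M * δ ^ 2 := by positivity
  calc _ ≤ T * (M * (t * δ ^ 3)) + M * (p + r) * δ ^ 2 := by linarith
    _ ≤ T * (M * (t * δ ^ 3)) + (p + r + 2) * M * δ ^ 2 := by nlinarith
    _ = _ := by linear_combination (-1 : ℝ) * h3

theorem bB_sum_lt (k J : ℕ) (a : ℝ) (ha : 0 ≤ a) :
    ∑ j ∈ Finset.range k, (if j < J then a else 0) ≤ J * a := by
  rw [← Finset.sum_filter, Finset.sum_const, nsmul_eq_mul]
  apply mul_le_mul_of_nonneg_right _ ha
  have : (Finset.filter (fun j => j < J) (Finset.range k)).card ≤ (Finset.range J).card := by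
    apply Finset.card_le_card
    intro j hj
    rw [Finset.mem_filter] at hj
    exact Finset.mem_range.mpr hj.2
  rw [Finset.card_range] at this
  exact_mod_cast this

theorem lindeberg {p r c d : ℕ} (hp : Odd p) (hr : Odd r) (hc : c ≤ p) (hd : d ≤ r)
    (t J k : ℕ) {δ : ℝ} (hδ : 0 ≤ δ) {G G' : ℕ → ℝ} (hG : Slow δ G) (hG' : Slow δ G') :
    |av k (fun n => G (ds ((p * n + c) % 2 ^ k)) * G' (ds ((r * n + d) % 2 ^ k))) -
      model (fun j => if j < J then 0 else av j (sg p r c d j)) k (fun x y => G x * G' y) 0 0| ≤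
      k * (t * δ ^ 3 + (p + r + 2) / 2 ^ t * δ ^ 2) + (J + t) * δ ^ 2 := by
  set ρ : ℕ → ℝ := fun j => if j < J then 0 else av j (sg p r c d j) with hρ
  set A : ℝ := t * δ ^ 3 + (p + r + 2) / 2 ^ t * δ ^ 2 with hA
  have hA0 : 0 ≤ A := by rw [hA]; positivity
  have hρ1 : ∀ j, |ρ j| ≤ 1 := by
    intro j
    rw [hρ]
    simp only
    split_ifs
    · simp
    · exact bB_av_abs_le j _ 1 fun n => (bB_sg_abs p r c d j n).le
  have hlev : ∀ j, ∀ F : ℕ → ℕ → ℝ, bCl δ F →
      |av j (fun n => (sg p r c d j n - ρ j) *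
          bD F (ds ((p * n + c) % 2 ^ j)) (ds ((r * n + d) % 2 ^ j)))| ≤
        A + ((if j < J then δ ^ 2 else 0) + (if j < t then δ ^ 2 else 0)) := by
    intro j F hF
    have hcrude : |av j (fun n => (sg p r c d j n - ρ j) *
          bD F (ds ((p * n + c) % 2 ^ j)) (ds ((r * n + d) % 2 ^ j)))| ≤ δ ^ 2 := by
      apply bB_av_abs_le
      intro n
      rw [abs_mul]
      have h1 : |sg p r c d j n - ρ j| ≤ 2 := by
        refine (abs_sub _ _).trans ?_
        rw [bB_sg_abs]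
        linarith [hρ1 j]
      calc _ ≤ 2 * (δ ^ 2 / 4) := mul_le_mul h1 (hF.1 _ _) (abs_nonneg _) (by norm_num)
        _ ≤ δ ^ 2 := by nlinarith [sq_nonneg δ]
    by_cases hJ : j < J
    · rw [if_pos hJ]
      have : (0 : ℝ) ≤ (if j < t then δ ^ 2 else 0) := by split_ifs <;> positivity
      linarith
    · by_cases ht : j < t
      · rw [if_pos ht]
        have : (0 : ℝ) ≤ (if j < J then δ ^ 2 else 0) := by split_ifs <;> positivity
        linarith
      · have e : ρ j = av j (sg p r c d j) := by rw [hρ]; simp [hJ]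
        rw [if_neg hJ, if_neg ht, e]
        have := bB_level (p := p) (r := r) c d j t (not_lt.mp ht) hδ hF
        linarith
  have hind : ∀ k, ∀ F : ℕ → ℕ → ℝ, bCl δ F →
      |av k (fun n => F (ds ((p * n + c) % 2 ^ k)) (ds ((r * n + d) % 2 ^ k))) - model ρ k F 0 0| ≤
        ∑ j ∈ Finset.range k,
          (A + ((if j < J then δ ^ 2 else 0) + (if j < t then δ ^ 2 else 0))) := by
    intro k
    induction k with
    | zero =>
      intro F _
      have h1 : ∀ x, x % 2 ^ 0 = 0 := fun x => by rw [pow_zero, Nat.mod_one]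
      simp [av, model, bB_ds_zero, Nat.mod_one]
    | succ k ih =>
      intro F hF
      rw [bB_step' hp hr c d k F (ρ k), Finset.sum_range_succ]
      have h1 := ih (Q (ρ k) F) (hF.Q (ρ k) (hρ1 k))
      have h2 := hlev k F hF
      have h3 : model ρ (k + 1) F 0 0 = model ρ k (Q (ρ k) F) 0 0 := rfl
      rw [h3, add_sub_right_comm]
      exact (abs_add_le _ _).trans (add_le_add h1 h2)
  refine (hind k (fun x y => G x * G' y) (bCl_mul hδ hG hG')).trans ?_
  have h1 := bB_sum_lt k J (δ ^ 2) (by positivity)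
  have h2 := bB_sum_lt k t (δ ^ 2) (by positivity)
  have h3 : ∑ _j ∈ Finset.range k, A = k * A := by
    rw [Finset.sum_const, Finset.card_range, nsmul_eq_mul]
  have h4 : ∑ j ∈ Finset.range k,
        (A + ((if j < J then δ ^ 2 else 0) + (if j < t then δ ^ 2 else 0)))
      = ∑ _j ∈ Finset.range k, A + (∑ j ∈ Finset.range k, (if j < J then δ ^ 2 else 0)
        + ∑ j ∈ Finset.range k, (if j < t then δ ^ 2 else 0)) := by
    rw [← Finset.sum_add_distrib, ← Finset.sum_add_distrib]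
  rw [h4, h3]
  linarith

end Pool.Agent.Lib.MP_3e612f_nt.DS
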