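import Pool.Agent.Lib.MP_3e612f_nt.DSBase

/-!
The Möbius function in a residue class against slowly varying functions of `log₂ n`.
-/

set_option autoImplicit false

namespace Pool.Agent.Lib.MP_3e612f_nt.DS

open Filter Topology

theorem abel_log {C : ℝ} {u : ℕ → ℝ} (hC : ∀ x : ℕ, |∑ n ∈ Finset.Icc 1 x, u n| ≤ C)
    (M : ℕ → ℝ) (N : ℕ) :
    |∑ n ∈ Finset.Icc 1 N, M (Nat.log 2 n) * u n - M (Nat.log 2 N) * ∑ n ∈ Finset.Icc 1 N, u n| ≤
      C * ∑ j ∈ Finset.range (Nat.log 2 N), |M (j + 1) - M j| := by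
  have hC0 : 0 ≤ C := (abs_nonneg _).trans (hC 0)
  induction N with
  | zero => simp
  | succ N ih =>
    rw [Finset.sum_Icc_succ_top (by omega), Finset.sum_Icc_succ_top (by omega)]
    set S := ∑ n ∈ Finset.Icc 1 N, u n with hS
    set T := ∑ n ∈ Finset.Icc 1 N, M (Nat.log 2 n) * u n with hT
    have e : T + M (Nat.log 2 (N + 1)) * u (N + 1) - M (Nat.log 2 (N + 1)) * (S + u (N + 1)) =
        (T - M (Nat.log 2 N) * S) + (M (Nat.log 2 N) - M (Nat.log 2 (N + 1))) * S := by ring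
    rw [e]
    refine (abs_add_le _ _).trans ?_
    have h1 : Nat.log 2 N ≤ Nat.log 2 (N + 1) := Nat.log_mono_right (by omega)
    have h2 : Nat.log 2 (N + 1) ≤ Nat.log 2 N + 1 := by
      rcases Nat.eq_zero_or_pos N with h | h
      · subst h
        simp
      · have h3 : N < 2 ^ (Nat.log 2 N + 1) := Nat.lt_pow_succ_log_self (by norm_num) N
        have h4 : N + 1 < 2 ^ (Nat.log 2 N + 1 + 1) := by
          rw [pow_succ]
          omega
        have := Nat.log_lt_of_lt_pow (by omega : N + 1 ≠ 0) h4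
        omega
    rcases (show Nat.log 2 (N + 1) = Nat.log 2 N ∨ Nat.log 2 (N + 1) = Nat.log 2 N + 1 by omega)
      with h | h
    · rw [h, sub_self, zero_mul, abs_zero, add_zero]
      exact ih
    · rw [h, Finset.sum_range_succ, mul_add]
      refine add_le_add ih ?_
      rw [abs_mul, abs_sub_comm, mul_comm]
      exact mul_le_mul_of_nonneg_right (hC N) (abs_nonneg _)

theorem log_two_le {N : ℕ} (hN : 1 ≤ N) : (Nat.log 2 N : ℝ) ≤ 2 * Real.log N := by
  have h1 : 2 ^ Nat.log 2 N ≤ N := Nat.pow_log_le_self 2 (by omega)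
  have h2 : Real.log ((2 : ℝ) ^ Nat.log 2 N) ≤ Real.log N :=
    Real.log_le_log (by positivity) (by exact_mod_cast h1)
  rw [Real.log_pow] at h2
  have h3 : (1 : ℝ) / 2 < Real.log 2 := by linarith [Real.log_two_gt_d9]
  nlinarith [(Nat.cast_nonneg (Nat.log 2 N) : (0 : ℝ) ≤ (Nat.log 2 N : ℝ))]

theorem slow_tendsto {q a : ℕ}
    (hC : ∃ C : ℝ, ∀ x : ℕ, |∑ n ∈ Finset.Icc 1 x, (if n % q = a then mu n else 0) / n| ≤ C)
    {M : ℕ → ℝ} (hM : ∀ κ, |M κ| ≤ 1)
    (hM' : Tendsto (fun κ => |M (κ + 1) - M κ|) atTop (𝓝 0)) :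
    Tendsto (LogAvg fun n => mu n * (if n % q = a then M (Nat.log 2 n) else 0)) atTop (𝓝 0) := by
  obtain ⟨C, hC⟩ := hC
  have hC0 : 0 ≤ C := (abs_nonneg _).trans (hC 0)
  have hces := hM'.cesaro
  have hlog : Tendsto (fun N : ℕ => Nat.log 2 N) atTop atTop := by
    refine tendsto_atTop.mpr fun b => ?_
    filter_upwards [eventually_ge_atTop (2 ^ b)] with N hN
    exact Nat.le_log_of_pow_le (by norm_num) hN
  have hces2 := hces.comp hlog
  have hlogN : Tendsto (fun N : ℕ => Real.log N) atTop atTop :=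
    Real.tendsto_log_atTop.comp tendsto_natCast_atTop_atTop
  have hinv : Tendsto (fun N : ℕ => C / Real.log N) atTop (𝓝 0) :=
    tendsto_const_nhds.div_atTop hlogN
  have hbound : Tendsto (fun N : ℕ => C / Real.log N + 2 * C *
      ((fun n : ℕ => (n : ℝ)⁻¹ * ∑ i ∈ Finset.range n, |M (i + 1) - M i|) ∘
        fun N : ℕ => Nat.log 2 N) N) atTop (𝓝 0) := by
    simpa using hinv.add (hces2.const_mul (2 * C))
  refine squeeze_zero_norm' ?_ hbound
  filter_upwards [eventually_ge_atTop 3] with N hN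
  have hl := log_ge_one hN
  rw [Real.norm_eq_abs]
  unfold LogAvg
  have e : ∀ n ∈ Finset.Icc 1 N, mu n * (if n % q = a then M (Nat.log 2 n) else 0) / n =
      M (Nat.log 2 n) * ((if n % q = a then mu n else 0) / n) := by
    intro n _
    split_ifs
    · ring
    · simp
  rw [Finset.sum_congr rfl e]
  have h1 := abel_log hC M N
  set S := ∑ n ∈ Finset.Icc 1 N, (if n % q = a then mu n else 0) / (n : ℝ) with hS
  have h2 : |M (Nat.log 2 N) * S| ≤ C := by
    rw [abs_mul]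
    exact (mul_le_of_le_one_left (abs_nonneg _) (hM _)).trans (hC N)
  set T := ∑ n ∈ Finset.Icc 1 N, M (Nat.log 2 n) * ((if n % q = a then mu n else 0) / (n : ℝ))
    with hT
  have h3 : |T| ≤ C + C * ∑ j ∈ Finset.range (Nat.log 2 N), |M (j + 1) - M j| := by
    have e2 : T = (T - M (Nat.log 2 N) * S) + M (Nat.log 2 N) * S := by ring
    rw [e2]
    refine (abs_add_le _ _).trans ?_
    linarith
  rw [abs_mul, abs_of_nonneg (by positivity : 0 ≤ 1 / Real.log N)]
  have h4 : 1 / Real.log N * |T| ≤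
      1 / Real.log N * (C + C * ∑ j ∈ Finset.range (Nat.log 2 N), |M (j + 1) - M j|) :=
    mul_le_mul_of_nonneg_left h3 (by positivity)
  refine h4.trans ?_
  rw [mul_add]
  refine add_le_add (le_of_eq (by ring)) ?_
  simp only [Function.comp_apply]
  set K := Nat.log 2 N with hK
  have hK1 : 1 ≤ K := Nat.le_log_of_pow_le (by norm_num) (by omega)
  have hK0 : (0 : ℝ) < K := by exact_mod_cast hK1
  have hK2 : (K : ℝ) ≤ 2 * Real.log N := log_two_le (by omega)
  have h5 : 1 / Real.log N ≤ 2 * (K : ℝ)⁻¹ := by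
    rw [div_le_iff₀ (by linarith)]
    have : 2 * (K : ℝ)⁻¹ * Real.log N = (2 * Real.log N) / K := by ring
    rw [this, le_div_iff₀ hK0]
    linarith
  have h6 : 0 ≤ C * ∑ j ∈ Finset.range K, |M (j + 1) - M j| :=
    mul_nonneg hC0 (Finset.sum_nonneg fun _ _ => abs_nonneg _)
  calc 1 / Real.log N * (C * ∑ j ∈ Finset.range K, |M (j + 1) - M j|)
      ≤ 2 * (K : ℝ)⁻¹ * (C * ∑ j ∈ Finset.range K, |M (j + 1) - M j|) :=
        mul_le_mul_of_nonneg_right h5 h6
    _ = 2 * C * ((K : ℝ)⁻¹ * ∑ j ∈ Finset.range K, |M (j + 1) - M j|) := by ring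

end Pool.Agent.Lib.MP_3e612f_nt.DS
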