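import Pool.Agent.Lib.MP_3e612f_nt.DSDefs

/-!
The sums `∑_{n ≤ x, n ≡ a (q)} μ(n) / n` are bounded.
-/

set_option autoImplicit false

namespace Pool.Agent.Lib.MP_3e612f_nt.DS

open Filter Topology
open Pool.Agent.Lib.MP_3e612f_nt

/-! ### Partial summation -/

/-- Partial summation with monotone weights. -/
theorem hH_abel (c : ℕ → ℂ) (b : ℕ → ℝ) (K : ℝ) (N : ℕ)
    (hK : ∀ n, ‖∑ k ∈ Finset.Ioc 0 n, c k‖ ≤ K)
    (hb : ∀ n, N < n → b (n + 1) ≤ b n) (hb0 : ∀ n, N < n → 0 ≤ b n) (N' : ℕ) (hN : N ≤ N') :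
    ‖∑ n ∈ Finset.Ioc N N', (b n : ℂ) * c n‖ ≤ 2 * K * b (N + 1) := by
  set P : ℕ → ℂ := fun n => ∑ k ∈ Finset.Ioc 0 n, c k with hP
  have hPsucc : ∀ n, P (n + 1) = P n + c (n + 1) := fun n => by
    rw [hP]; simp only
    rw [Finset.sum_Ioc_succ_top (Nat.zero_le n)]
  have hPdiff : ∀ m n, ‖P m - P n‖ ≤ 2 * K := fun m n => by
    refine (norm_sub_le _ _).trans ?_
    linarith [hK m, hK n]
  have key : ‖∑ n ∈ Finset.Ioc N N', (b n : ℂ) * c n - (b (N' + 1) : ℂ) * (P N' - P N)‖
      ≤ 2 * K * (b (N + 1) - b (N' + 1)) := by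
    induction N', hN using Nat.le_induction with
    | base => simp
    | succ N' hN ih =>
      rw [Finset.sum_Ioc_succ_top hN]
      have e : ∑ k ∈ Finset.Ioc N N', (b k : ℂ) * c k + (b (N' + 1) : ℂ) * c (N' + 1)
            - (b (N' + 1 + 1) : ℂ) * (P (N' + 1) - P N)
          = (∑ n ∈ Finset.Ioc N N', (b n : ℂ) * c n - (b (N' + 1) : ℂ) * (P N' - P N))
            + ((b (N' + 1) - b (N' + 1 + 1) : ℝ) : ℂ) * (P (N' + 1) - P N) := by
        rw [hPsucc]; push_cast; ring
      rw [e]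
      refine (norm_add_le _ _).trans ?_
      rw [norm_mul, Complex.norm_real, Real.norm_eq_abs,
        abs_of_nonneg (sub_nonneg.mpr (hb (N' + 1) (by omega)))]
      have h1 := hPdiff (N' + 1) N
      have h2 : 0 ≤ b (N' + 1) - b (N' + 1 + 1) := sub_nonneg.mpr (hb (N' + 1) (by omega))
      nlinarith [mul_le_mul_of_nonneg_left h1 h2]
  have h1 : ‖(b (N' + 1) : ℂ) * (P N' - P N)‖ ≤ 2 * K * b (N' + 1) := by
    have h0 := hb0 (N' + 1) (by omega)
    rw [norm_mul, Complex.norm_real, Real.norm_eq_abs, abs_of_nonneg h0]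
    nlinarith [mul_le_mul_of_nonneg_left (hPdiff N' N) h0]
  have e : ∑ n ∈ Finset.Ioc N N', (b n : ℂ) * c n
      = (∑ n ∈ Finset.Ioc N N', (b n : ℂ) * c n - (b (N' + 1) : ℂ) * (P N' - P N))
        + (b (N' + 1) : ℂ) * (P N' - P N) := by ring
  rw [e]
  refine (norm_add_le _ _).trans ?_
  linarith

/-- Periodic functions of mean zero have bounded partial sums. -/
theorem hH_periodic (q : ℕ) (hq : 1 ≤ q) (f : ℕ → ℂ) (hper : ∀ n, f (n + q) = f n)
    (h0 : ∑ n ∈ Finset.range q, f n = 0) :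
    ∃ K : ℝ, ∀ N, ‖∑ n ∈ Finset.Ioc 0 N, f n‖ ≤ K := by
  have h1 : ∀ N, ‖∑ n ∈ Finset.range N, f n‖ ≤ ∑ n ∈ Finset.range q, ‖f n‖ := by
    intro N
    induction N using Nat.strong_induction_on with
    | _ N ih =>
      by_cases h : N < q
      · refine (norm_sum_le _ _).trans ?_
        exact Finset.sum_le_sum_of_subset_of_nonneg
          (Finset.range_subset_range.mpr h.le) (fun _ _ _ => norm_nonneg _)
      · obtain ⟨M, rfl⟩ := Nat.exists_eq_add_of_le (not_lt.mp h)
        rw [Finset.sum_range_add, h0, zero_add]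
        have : ∑ x ∈ Finset.range M, f (q + x) = ∑ x ∈ Finset.range M, f x :=
          Finset.sum_congr rfl fun x _ => by rw [add_comm, hper]
        rw [this]
        exact ih M (by omega)
  refine ⟨∑ n ∈ Finset.range q, ‖f n‖ + ‖f 0‖, fun N => ?_⟩
  have e : ∑ n ∈ Finset.Ioc 0 N, f n = ∑ n ∈ Finset.range (N + 1), f n - f 0 := by
    rw [Finset.sum_range_succ']
    rw [add_sub_cancel_right]
    rw [Finset.range_eq_Ico, Finset.sum_Ico_add' (fun n => f n) 0 N 1]
    apply Finset.sum_congr _ (fun _ _ => rfl)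
    ext x; simp [Finset.mem_Ioc, Finset.mem_Ico]; omega
  rw [e]
  exact (norm_sub_le _ _).trans (add_le_add (h1 _) le_rfl)

/-! ### The convolution identity -/

/-- `∑_{d ≤ x} μ(d) ψ(d) ∑_{k ≤ x/d} ψ(k) = 1` for completely multiplicative `ψ`. -/
theorem hH_conv (ψ : ℕ → ℂ) (h1 : ψ 1 = 1) (hmul : ∀ m n, ψ (m * n) = ψ m * ψ n)
    (x : ℕ) (hx : 1 ≤ x) :
    ∑ d ∈ Finset.Ioc 0 x, ((ArithmeticFunction.moebius d : ℤ) : ℂ) * ψ d *
      ∑ k ∈ Finset.Ioc 0 (x / d), ψ k = 1 := by
  let f : ArithmeticFunction ℂ := ⟨fun n => ((ArithmeticFunction.moebius n : ℤ) : ℂ) * ψ n, by simp⟩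
  let g : ArithmeticFunction ℂ := ⟨fun n => if n = 0 then 0 else ψ n, by simp⟩
  have hg : ∀ n, n ≠ 0 → g n = ψ n := fun n hn => by
    change (if n = 0 then 0 else ψ n) = ψ n
    rw [if_neg hn]
  have hf : ∀ n, f n = ((ArithmeticFunction.moebius n : ℤ) : ℂ) * ψ n := fun n => rfl
  have key := ArithmeticFunction.sum_Ioc_mul_eq_sum_sum f g x
  have hfg : ∀ n, n ≠ 0 → (f * g) n = if n = 1 then 1 else 0 := by
    intro n hn
    rw [ArithmeticFunction.mul_apply]
    have e1 : ∀ p ∈ n.divisorsAntidiagonal, f p.1 * g p.2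
        = ψ n * (((ArithmeticFunction.moebius p.1 : ℤ) : ℂ)) := by
      intro p hp
      obtain ⟨h2, h3⟩ := Nat.mem_divisorsAntidiagonal.mp hp
      have h4 : p.2 ≠ 0 := by rintro h; rw [h, mul_zero] at h2; exact hn h2.symm
      rw [hf, hg _ h4, ← h2, hmul]
      ring
    rw [Finset.sum_congr rfl e1, ← Finset.mul_sum]
    have e2 : ∑ p ∈ n.divisorsAntidiagonal, (((ArithmeticFunction.moebius p.1 : ℤ) : ℂ))
        = if n = 1 then 1 else 0 := by
      have h5 := congrArg (fun F : ArithmeticFunction ℂ => F n)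
        (ArithmeticFunction.coe_moebius_mul_coe_zeta (R := ℂ))
      simp only [ArithmeticFunction.mul_apply, ArithmeticFunction.one_apply] at h5
      rw [← h5]
      refine Finset.sum_congr rfl fun p hp => ?_
      obtain ⟨h2, h3⟩ := Nat.mem_divisorsAntidiagonal.mp hp
      have h4 : p.2 ≠ 0 := by rintro h; rw [h, mul_zero] at h2; exact hn h2.symm
      simp [h4]
    rw [e2]
    split_ifs with h
    · rw [h, h1]; ring
    · ring
  have hL : ∑ n ∈ Finset.Ioc 0 x, (f * g) n = 1 := by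
    rw [Finset.sum_congr rfl fun n hn => hfg n (by
      have := (Finset.mem_Ioc.mp hn).1; omega), Finset.sum_ite_eq']
    rw [if_pos (by rw [Finset.mem_Ioc]; omega)]
  rw [hL] at key
  rw [key]
  refine Finset.sum_congr rfl fun d _ => ?_
  rw [hf]
  congr 1
  refine Finset.sum_congr rfl fun k hk => ?_
  rw [hg k (by have := (Finset.mem_Ioc.mp hk).1; omega)]

/-! ### Characters -/

section char
variable {q : ℕ} [NeZero q] (χ : DirichletCharacter ℂ q)

/-- the sum over a period -/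
theorem hH_sum_range (f : ZMod q → ℂ) :
    ∑ n ∈ Finset.range q, f (n : ZMod q) = ∑ a : ZMod q, f a := by
  refine Finset.sum_bij (fun n _ => (n : ZMod q)) (fun _ _ => Finset.mem_univ _) ?_ ?_
    (fun _ _ => rfl)
  · intro a ha b hb h
    rw [ZMod.natCast_eq_natCast_iff'] at h
    rwa [Nat.mod_eq_of_lt (Finset.mem_range.mp ha), Nat.mod_eq_of_lt (Finset.mem_range.mp hb)] at h
  · intro b _
    exact ⟨b.val, Finset.mem_range.mpr (ZMod.val_lt b), ZMod.natCast_zmod_val b⟩

omit [NeZero q] in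
theorem hH_period (f : ZMod q → ℂ) (n : ℕ) : f ((n + q : ℕ) : ZMod q) = f (n : ZMod q) := by
  simp

/-- the approximation of `L(1, χ)` by partial sums -/
theorem hH_L1 (hχ : χ ≠ 1) : ∃ K : ℝ, 0 ≤ K ∧ ∀ N : ℕ,
    ‖χ.LFunction 1 - ∑ n ∈ Finset.Ioc 0 N, χ (n : ZMod q) / n‖ ≤ K / (N + 1) := by
  obtain ⟨K, hK⟩ := hH_periodic q (Nat.one_le_iff_ne_zero.mpr (NeZero.ne q))
    (fun n => χ (n : ZMod q)) (fun n => hH_period (fun a => χ a) n) (by
      rw [hH_sum_range (fun a => χ a)]
      exact MulChar.sum_eq_zero_of_ne_one hχ)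
  have hK0 : 0 ≤ K := (norm_nonneg _).trans (hK 0)
  refine ⟨2 * K, by positivity, fun N => ?_⟩
  -- for real `σ > 1`
  have hσ : ∀ σ : ℝ, 1 < σ →
      ‖χ.LFunction (σ : ℂ) - ∑ n ∈ Finset.Ioc 0 N, (((n : ℝ) ^ (-σ) : ℝ) : ℂ) * χ (n : ZMod q)‖
        ≤ 2 * K / (N + 1) := by
    intro σ hσ
    have hterm : ∀ n : ℕ, n ≠ 0 → LSeries.term (fun n => χ (n : ZMod q)) (σ : ℂ) n
        = (((n : ℝ) ^ (-σ) : ℝ) : ℂ) * χ (n : ZMod q) := by
      intro n hn
      rw [LSeries.term_of_ne_zero hn, Complex.ofReal_cpow (Nat.cast_nonneg n)]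
      push_cast
      rw [Complex.cpow_neg, div_eq_mul_inv, mul_comm]
    have hsum : HasSum (LSeries.term (fun n => χ (n : ZMod q)) (σ : ℂ))
        (χ.LFunction (σ : ℂ)) := by
      rw [DirichletCharacter.LFunction_eq_LSeries χ (by simpa using hσ)]
      exact (DirichletCharacter.LSeriesSummable_of_one_lt_re χ
        (by simpa using hσ)).LSeriesHasSum
    have htend := (hsum.tendsto_sum_nat).comp (tendsto_add_atTop_nat 1)
    have hbound : ∀ᶠ N' : ℕ in atTop,
        ‖((fun n => ∑ i ∈ Finset.range n, LSeries.term (fun n => χ (n : ZMod q)) (σ : ℂ) i) ∘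
            fun a => a + 1) N'
          - ∑ n ∈ Finset.Ioc 0 N, (((n : ℝ) ^ (-σ) : ℝ) : ℂ) * χ (n : ZMod q)‖
          ≤ 2 * K / (N + 1) := by
      filter_upwards [eventually_ge_atTop N] with N' hN'
      have e1 : ((fun n => ∑ i ∈ Finset.range n,
            LSeries.term (fun n => χ (n : ZMod q)) (σ : ℂ) i) ∘ fun a => a + 1) N'
          = ∑ n ∈ Finset.Ioc 0 N', (((n : ℝ) ^ (-σ) : ℝ) : ℂ) * χ (n : ZMod q) := by
        simp only [Function.comp_apply]
        have e2 : Finset.range (N' + 1) = insert 0 (Finset.Ioc 0 N') := by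
          ext n; simp only [Finset.mem_range, Finset.mem_insert, Finset.mem_Ioc]; omega
        rw [e2, Finset.sum_insert (by simp), LSeries.term_zero, zero_add]
        exact Finset.sum_congr rfl fun n hn => hterm n (by
          have := (Finset.mem_Ioc.mp hn).1; omega)
      rw [e1, ← Finset.sum_Ioc_consecutive _ (Nat.zero_le N) hN', add_sub_cancel_left]
      have habel := hH_abel (fun n => χ (n : ZMod q)) (fun n => (n : ℝ) ^ (-σ)) K N hK
        (fun n hn => by
          apply Real.rpow_le_rpow_of_nonpos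
          · exact_mod_cast (by omega : 0 < n)
          · push_cast; linarith
          · linarith)
        (fun n _ => by positivity) N' hN'
      refine habel.trans ?_
      rw [div_eq_mul_inv]
      apply mul_le_mul_of_nonneg_left _ (by positivity)
      have : ((N + 1 : ℕ) : ℝ) ^ (-σ) ≤ ((N + 1 : ℕ) : ℝ) ^ (-1 : ℝ) := by
        apply Real.rpow_le_rpow_of_exponent_le
        · push_cast; linarith [Nat.cast_nonneg (α := ℝ) N]
        · linarith
      rw [Real.rpow_neg_one] at this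
      simpa using this
    exact le_of_tendsto ((htend.sub_const _).norm) hbound
  -- the limit `σ → 1`
  have hcont : Continuous fun σ : ℝ => χ.LFunction (σ : ℂ)
      - ∑ n ∈ Finset.Ioc 0 N, (((n : ℝ) ^ (-σ) : ℝ) : ℂ) * χ (n : ZMod q) := by
    apply Continuous.sub
    · exact (DirichletCharacter.differentiable_LFunction hχ).continuous.comp
        Complex.continuous_ofReal
    · apply continuous_finsetSum
      intro n hn
      apply Continuous.mul _ continuous_const
      apply Complex.continuous_ofReal.comp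
      have hn0 : (n : ℝ) ≠ 0 := by
        have := (Finset.mem_Ioc.mp hn).1
        exact_mod_cast (by omega : n ≠ 0)
      exact Continuous.rpow continuous_const continuous_neg (fun σ => Or.inl hn0)
  have hlim := (hcont.tendsto 1).norm
  have hlim' := hlim.mono_left (nhdsWithin_le_nhds (s := Set.Ioi (1 : ℝ)))
  have hfin := le_of_tendsto hlim' (by
    filter_upwards [self_mem_nhdsWithin] with σ h
    exact hσ σ h)
  have e3 : ∑ n ∈ Finset.Ioc 0 N, (((n : ℝ) ^ (-(1 : ℝ)) : ℝ) : ℂ) * χ (n : ZMod q)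
      = ∑ n ∈ Finset.Ioc 0 N, χ (n : ZMod q) / n := by
    refine Finset.sum_congr rfl fun n _ => ?_
    rw [Real.rpow_neg_one]
    push_cast
    rw [div_eq_mul_inv, mul_comm]
  rw [e3] at hfin
  simpa using hfin

/-- `S_χ(x) = ∑_{n ≤ x} μ(n) χ(n) / n` -/
noncomputable def hS (x : ℕ) : ℂ :=
  ∑ n ∈ Finset.Ioc 0 x, ((ArithmeticFunction.moebius n : ℤ) : ℂ) * (χ (n : ZMod q) / n)

theorem hH_mu_norm (n : ℕ) : ‖((ArithmeticFunction.moebius n : ℤ) : ℂ)‖ ≤ 1 := by
  rw [Complex.norm_intCast]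
  exact_mod_cast ArithmeticFunction.abs_moebius_le_one

theorem hH_nonprincipal (hχ : χ ≠ 1) : ∃ C : ℝ, ∀ x, ‖hS χ x‖ ≤ C := by
  obtain ⟨K, hK0, hK⟩ := hH_L1 χ hχ
  have hL : χ.LFunction 1 ≠ 0 := DirichletCharacter.LFunction_apply_one_ne_zero hχ
  have hLpos : 0 < ‖χ.LFunction 1‖ := norm_pos_iff.mpr hL
  refine ⟨(1 + K) / ‖χ.LFunction 1‖, fun x => ?_⟩
  rcases Nat.eq_zero_or_pos x with rfl | hx
  · unfold hS
    simp only [Finset.Ioc_self, Finset.sum_empty, norm_zero]
    positivity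
  have hconv := hH_conv (fun n => χ (n : ZMod q) / n) (by simp)
    (fun m n => by push_cast; rw [map_mul, mul_div_mul_comm]) x hx
  set L := χ.LFunction 1 with hLdef
  have e : L * hS χ x = 1 + ∑ d ∈ Finset.Ioc 0 x,
      ((ArithmeticFunction.moebius d : ℤ) : ℂ) * (χ (d : ZMod q) / d) *
        (L - ∑ k ∈ Finset.Ioc 0 (x / d), χ (k : ZMod q) / k) := by
    unfold hS
    rw [Finset.mul_sum]
    have : (1 : ℂ) = ∑ d ∈ Finset.Ioc 0 x,
        ((ArithmeticFunction.moebius d : ℤ) : ℂ) * (χ (d : ZMod q) / d) *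
          ∑ k ∈ Finset.Ioc 0 (x / d), χ (k : ZMod q) / k := hconv.symm
    rw [this, ← Finset.sum_add_distrib]
    refine Finset.sum_congr rfl fun d _ => by ring
  have hb : ‖∑ d ∈ Finset.Ioc 0 x,
      ((ArithmeticFunction.moebius d : ℤ) : ℂ) * (χ (d : ZMod q) / d) *
        (L - ∑ k ∈ Finset.Ioc 0 (x / d), χ (k : ZMod q) / k)‖ ≤ K := by
    refine (norm_sum_le _ _).trans ?_
    have hxpos : (0 : ℝ) < x := by exact_mod_cast hx
    have h1 : ∀ d ∈ Finset.Ioc 0 x, ‖((ArithmeticFunction.moebius d : ℤ) : ℂ) *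
        (χ (d : ZMod q) / d) * (L - ∑ k ∈ Finset.Ioc 0 (x / d), χ (k : ZMod q) / k)‖
        ≤ K / x := by
      intro d hd
      have hd0 : 0 < d := (Finset.mem_Ioc.mp hd).1
      have hdpos : (0 : ℝ) < d := by exact_mod_cast hd0
      rw [norm_mul, norm_mul, norm_div, Complex.norm_natCast]
      have a1 := hH_mu_norm d
      have a2 : ‖χ (d : ZMod q)‖ ≤ 1 := χ.norm_le_one _
      have a3 := hK (x / d)
      have a4 : K / (((x / d : ℕ) : ℝ) + 1) ≤ K * d / x := by
        rw [div_le_div_iff₀ (by positivity) hxpos]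
        have : (x : ℝ) ≤ d * (((x / d : ℕ) : ℝ) + 1) := by
          have := Nat.lt_mul_div_succ x hd0
          have h' : x ≤ d * (x / d + 1) := this.le
          exact_mod_cast h'
        nlinarith [mul_le_mul_of_nonneg_left this hK0]
      calc _ ≤ 1 * (1 / d) * (K * d / x) := by
            apply mul_le_mul _ (a3.trans a4) (norm_nonneg _) (by positivity)
            apply mul_le_mul a1 _ (by positivity) (by norm_num)
            exact div_le_div_of_nonneg_right a2 hdpos.le
        _ = K / x := by field_simp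
    calc _ ≤ ∑ _d ∈ Finset.Ioc 0 x, K / x := Finset.sum_le_sum h1
      _ = K := by
        rw [Finset.sum_const, Nat.card_Ioc, nsmul_eq_mul, Nat.sub_zero]
        field_simp
  rw [le_div_iff₀ hLpos, mul_comm, ← norm_mul, e]
  refine (norm_add_le _ _).trans ?_
  rw [norm_one]
  linarith

theorem hH_principal : ∃ C : ℝ, ∀ x, ‖hS (1 : DirichletCharacter ℂ q) x‖ ≤ C := by
  set m : ℝ := (Nat.card (ZMod q)ˣ : ℝ) / q with hm
  have hqpos : (0 : ℝ) < q := by exact_mod_cast Nat.pos_of_ne_zero (NeZero.ne q)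
  have hmpos : 0 < m := by
    rw [hm]
    have : 0 < Nat.card (ZMod q)ˣ := Nat.card_pos
    positivity
  obtain ⟨K, hK⟩ := hH_periodic q (Nat.one_le_iff_ne_zero.mpr (NeZero.ne q))
    (fun n => (1 : DirichletCharacter ℂ q) (n : ZMod q) - m)
    (fun n => by
      rw [hH_period (fun a => (1 : DirichletCharacter ℂ q) a) n]) (by
      rw [Finset.sum_sub_distrib, hH_sum_range (fun a => (1 : DirichletCharacter ℂ q) a),
        MulChar.sum_one_eq_card_units]
      rw [Finset.sum_const, Finset.card_range, nsmul_eq_mul, hm]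
      push_cast
      have : (q : ℂ) ≠ 0 := by exact_mod_cast NeZero.ne q
      field_simp
      rw [← Nat.card_eq_fintype_card]
      ring)
  have hK0 : 0 ≤ K := (norm_nonneg _).trans (hK 0)
  refine ⟨(1 + K + m) / m, fun x => ?_⟩
  rcases Nat.eq_zero_or_pos x with rfl | hx
  · unfold hS
    simp only [Finset.Ioc_self, Finset.sum_empty, norm_zero]
    positivity
  have hxpos : (0 : ℝ) < x := by exact_mod_cast hx
  have hconv := hH_conv (fun n => (1 : DirichletCharacter ℂ q) (n : ZMod q)) (by simp)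
    (fun m n => by push_cast; rw [map_mul]) x hx
  have hmx : ∀ d ∈ Finset.Ioc 0 x,
      ‖(m : ℂ) * x / d - ∑ k ∈ Finset.Ioc 0 (x / d), (1 : DirichletCharacter ℂ q) (k : ZMod q)‖
        ≤ K + m := by
    intro d hd
    have hd0 : 0 < d := (Finset.mem_Ioc.mp hd).1
    have hdpos : (0 : ℝ) < d := by exact_mod_cast hd0
    have h1 := hK (x / d)
    rw [Finset.sum_sub_distrib, Finset.sum_const, Nat.card_Ioc, nsmul_eq_mul, Nat.sub_zero] at h1
    have h2 : (m : ℂ) * x / d
        - ∑ k ∈ Finset.Ioc 0 (x / d), (1 : DirichletCharacter ℂ q) (k : ZMod q)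
        = ((m * ((x : ℝ) / d - ((x / d : ℕ) : ℝ)) : ℝ) : ℂ)
          - (∑ k ∈ Finset.Ioc 0 (x / d), (1 : DirichletCharacter ℂ q) (k : ZMod q)
            - ((x / d : ℕ) : ℂ) * m) := by
      push_cast; ring
    rw [h2]
    refine (norm_sub_le _ _).trans ?_
    have h3 : ‖((m * ((x : ℝ) / d - ((x / d : ℕ) : ℝ)) : ℝ) : ℂ)‖ ≤ m := by
      rw [Complex.norm_real, Real.norm_eq_abs]
      have a1 : ((x / d : ℕ) : ℝ) ≤ (x : ℝ) / d := Nat.cast_div_le
      have a2 : (x : ℝ) / d < ((x / d : ℕ) : ℝ) + 1 := by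
        rw [div_lt_iff₀ hdpos]
        have := Nat.lt_mul_div_succ x hd0
        have h' : x < (x / d + 1) * d := by rw [mul_comm]; exact this
        exact_mod_cast h'
      rw [abs_of_nonneg (mul_nonneg hmpos.le (by linarith))]
      nlinarith
    linarith
  have e : (m : ℂ) * x * hS (1 : DirichletCharacter ℂ q) x = 1 + ∑ d ∈ Finset.Ioc 0 x,
      ((ArithmeticFunction.moebius d : ℤ) : ℂ) * (1 : DirichletCharacter ℂ q) (d : ZMod q) *
        ((m : ℂ) * x / d - ∑ k ∈ Finset.Ioc 0 (x / d),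
          (1 : DirichletCharacter ℂ q) (k : ZMod q)) := by
    unfold hS
    rw [Finset.mul_sum]
    have : (1 : ℂ) = ∑ d ∈ Finset.Ioc 0 x,
        ((ArithmeticFunction.moebius d : ℤ) : ℂ) * (1 : DirichletCharacter ℂ q) (d : ZMod q) *
          ∑ k ∈ Finset.Ioc 0 (x / d), (1 : DirichletCharacter ℂ q) (k : ZMod q) := hconv.symm
    conv_rhs => rw [this]
    rw [← Finset.sum_add_distrib]
    refine Finset.sum_congr rfl fun d _ => by ring
  have hb : ‖∑ d ∈ Finset.Ioc 0 x,
      ((ArithmeticFunction.moebius d : ℤ) : ℂ) * (1 : DirichletCharacter ℂ q) (d : ZMod q) *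
        ((m : ℂ) * x / d - ∑ k ∈ Finset.Ioc 0 (x / d),
          (1 : DirichletCharacter ℂ q) (k : ZMod q))‖ ≤ x * (K + m) := by
    refine (norm_sum_le _ _).trans ?_
    calc _ ≤ ∑ _d ∈ Finset.Ioc 0 x, (K + m) := by
          refine Finset.sum_le_sum fun d hd => ?_
          rw [norm_mul, norm_mul]
          have a1 := hH_mu_norm d
          have a2 : ‖(1 : DirichletCharacter ℂ q) (d : ZMod q)‖ ≤ 1 :=
            DirichletCharacter.norm_le_one _ _
          have a3 := hmx d hd
          calc _ ≤ 1 * 1 * (K + m) := by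
                apply mul_le_mul _ a3 (norm_nonneg _) (by norm_num)
                exact mul_le_mul a1 a2 (norm_nonneg _) (by norm_num)
            _ = K + m := by ring
      _ = x * (K + m) := by
        rw [Finset.sum_const, Nat.card_Ioc, nsmul_eq_mul, Nat.sub_zero]
  have h1 : ‖(m : ℂ) * x * hS (1 : DirichletCharacter ℂ q) x‖ ≤ 1 + x * (K + m) := by
    rw [e]
    refine (norm_add_le _ _).trans ?_
    rw [norm_one]
    linarith
  rw [norm_mul, norm_mul, Complex.norm_natCast, Complex.norm_real, Real.norm_eq_abs,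
    abs_of_pos hmpos] at h1
  rw [le_div_iff₀ hmpos]
  have hx1 : (1 : ℝ) ≤ x := by exact_mod_cast hx
  have h2 : (x : ℝ) * (‖hS (1 : DirichletCharacter ℂ q) x‖ * m) ≤ x * (1 + K + m) := by
    nlinarith
  exact le_of_mul_le_mul_left h2 hxpos

theorem hH_char : ∃ C : ℝ, ∀ x, ‖hS χ x‖ ≤ C := by
  by_cases h : χ = 1
  · rw [h]; exact hH_principal
  · exact hH_nonprincipal χ h

end char

/-- the sum over a residue class -/
noncomputable def hG (q a x : ℕ) : ℝ :=
  ∑ n ∈ Finset.Ioc 0 x, (if n % q = a then mu n else 0) / n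

theorem hH_unit (q a : ℕ) (hq : 1 ≤ q) (ha : a < q) (hc : a.Coprime q) :
    ∃ C : ℝ, ∀ x, |hG q a x| ≤ C := by
  have : NeZero q := ⟨by omega⟩
  choose C hC using fun χ : DirichletCharacter ℂ q => hH_char χ
  have hφ : (0 : ℝ) < q.totient := by exact_mod_cast Nat.totient_pos.mpr (by omega)
  refine ⟨(∑ χ : DirichletCharacter ℂ q, C χ) / q.totient, fun x => ?_⟩
  have hunit : IsUnit (a : ZMod q) := (ZMod.isUnit_iff_coprime a q).mpr hc
  have e : (q.totient : ℂ) * (hG q a x : ℂ)
      = ∑ χ : DirichletCharacter ℂ q, χ ((a : ZMod q)⁻¹) * hS χ x := by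
    unfold hG hS
    push_cast
    rw [Finset.mul_sum]
    simp only [Finset.mul_sum]
    rw [Finset.sum_comm]
    refine Finset.sum_congr rfl fun n _ => ?_
    have h1 := DirichletCharacter.sum_char_inv_mul_char_eq ℂ hunit (n : ZMod q)
    have h2 : ∑ χ : DirichletCharacter ℂ q, χ ((a : ZMod q)⁻¹) *
          (((ArithmeticFunction.moebius n : ℤ) : ℂ) * (χ (n : ZMod q) / n))
        = ((ArithmeticFunction.moebius n : ℤ) : ℂ) / n *
          ∑ χ : DirichletCharacter ℂ q, χ ((a : ZMod q)⁻¹) * χ (n : ZMod q) := by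
      rw [Finset.mul_sum]
      refine Finset.sum_congr rfl fun χ _ => by ring
    rw [h2, h1]
    have h3 : ((a : ZMod q) = (n : ZMod q)) ↔ n % q = a := by
      rw [ZMod.natCast_eq_natCast_iff', Nat.mod_eq_of_lt ha]
      exact eq_comm
    by_cases h : n % q = a
    · rw [if_pos h, if_pos (h3.mpr h)]
      unfold mu
      push_cast
      ring
    · rw [if_neg h, if_neg (fun h' => h (h3.mp h'))]
      push_cast
      ring
  have h1 : ‖(q.totient : ℂ) * (hG q a x : ℂ)‖ ≤ ∑ χ : DirichletCharacter ℂ q, C χ := by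
    rw [e]
    refine (norm_sum_le _ _).trans (Finset.sum_le_sum fun χ _ => ?_)
    rw [norm_mul]
    calc _ ≤ 1 * C χ := mul_le_mul (χ.norm_le_one _) (hC χ x) (norm_nonneg _) (by norm_num)
      _ = C χ := one_mul _
  rw [norm_mul, Complex.norm_natCast, Complex.norm_real, Real.norm_eq_abs] at h1
  rw [le_div_iff₀ hφ, mul_comm]
  exact h1

theorem hH_mu_mul (g m : ℕ) : mu (g * m) = if g.Coprime m then mu g * mu m else 0 := by
  unfold mu
  split_ifs with h
  · rw [ArithmeticFunction.isMultiplicative_moebius.map_mul_of_coprime h]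
    push_cast; rfl
  · rw [ArithmeticFunction.moebius_eq_zero_of_not_squarefree]
    · simp
    · intro hs
      exact h (Nat.squarefree_mul_iff.mp hs).1

theorem hH_general (q a x : ℕ) (hq : 1 ≤ q) :
    hG q a x = mu (a.gcd q) / (a.gcd q : ℝ) *
      ∑ b ∈ (Finset.range q).filter (fun b => b.Coprime q ∧ (a.gcd q * b) % q = a),
        hG q b (x / a.gcd q) := by
  set g := a.gcd q with hg
  have hgpos : 0 < g := Nat.gcd_pos_of_pos_right a (by omega)
  have hga : g ∣ a := Nat.gcd_dvd_left a q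
  have hgq : g ∣ q := Nat.gcd_dvd_right a q
  -- restrict to multiples of `g`
  have e1 : hG q a x = ∑ m ∈ Finset.Ioc 0 (x / g),
      (if (g * m) % q = a then mu (g * m) else 0) / ((g * m : ℕ) : ℝ) := by
    unfold hG
    symm
    have himg : ∑ m ∈ Finset.Ioc 0 (x / g),
        (if (g * m) % q = a then mu (g * m) else 0) / ((g * m : ℕ) : ℝ)
        = ∑ n ∈ (Finset.Ioc 0 (x / g)).image (fun m => g * m),
          (if n % q = a then mu n else 0) / (n : ℝ) := by
      rw [Finset.sum_image]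
      intro m _ m' _ h
      exact Nat.eq_of_mul_eq_mul_left hgpos h
    rw [himg]
    apply Finset.sum_subset
    · intro n hn
      rw [Finset.mem_image] at hn
      obtain ⟨m, hm, rfl⟩ := hn
      rw [Finset.mem_Ioc] at hm ⊢
      constructor
      · exact Nat.mul_pos hgpos hm.1
      · calc g * m ≤ g * (x / g) := Nat.mul_le_mul_left g hm.2
          _ ≤ x := Nat.mul_div_le x g
    · intro n hn hn'
      by_cases h : n % q = a
      · exfalso
        apply hn'
        have hgn : g ∣ n := by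
          have h1 : n = q * (n / q) + n % q := (Nat.div_add_mod n q).symm
          rw [h1, h]
          exact dvd_add (dvd_mul_of_dvd_left hgq _) hga
        obtain ⟨m, rfl⟩ := hgn
        rw [Finset.mem_image]
        refine ⟨m, ?_, rfl⟩
        rw [Finset.mem_Ioc] at hn ⊢
        constructor
        · exact Nat.pos_of_mul_pos_left hn.1
        · rw [Nat.le_div_iff_mul_le hgpos, mul_comm]; exact hn.2
      · rw [if_neg h, zero_div]
  rw [e1]
  unfold hG
  rw [Finset.sum_comm, Finset.mul_sum]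
  refine Finset.sum_congr rfl fun m hm => ?_
  have hmpos : 0 < m := (Finset.mem_Ioc.mp hm).1
  rw [← Finset.sum_div]
  -- the sum over `b`
  have e2 : ∑ b ∈ (Finset.range q).filter (fun b => b.Coprime q ∧ (g * b) % q = a),
      (if m % q = b then mu m else 0)
      = if m.Coprime q ∧ (g * m) % q = a then mu m else 0 := by
    rw [Finset.sum_ite_eq]
    have h1 : (m % q ∈ (Finset.range q).filter (fun b => b.Coprime q ∧ (g * b) % q = a))
        ↔ (m.Coprime q ∧ (g * m) % q = a) := by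
      rw [Finset.mem_filter, Finset.mem_range]
      have h2 : (g * (m % q)) % q = (g * m) % q := by
        rw [Nat.mul_mod, Nat.mod_mod, ← Nat.mul_mod]
      have h3 : (m % q).Coprime q ↔ m.Coprime q := by
        unfold Nat.Coprime
        rw [← Nat.gcd_rec, Nat.gcd_comm]
      rw [h2, h3]
      exact ⟨fun h => h.2, fun h => ⟨Nat.mod_lt _ (by omega), h⟩⟩
    by_cases h : m.Coprime q ∧ (g * m) % q = a
    · rw [if_pos h, if_pos (h1.mpr h)]
    · rw [if_neg h, if_neg (fun h' => h (h1.mp h'))]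
  rw [e2, hH_mu_mul]
  have hgR : (g : ℝ) ≠ 0 := by exact_mod_cast hgpos.ne'
  have hmR : (m : ℝ) ≠ 0 := by exact_mod_cast hmpos.ne'
  by_cases h : (g * m) % q = a
  · rw [if_pos h]
    have hiff : g.Coprime m ↔ m.Coprime q := by
      constructor
      · intro hc
        have h4 : (g * m).gcd q = g := by
          have h5 : Nat.gcd ((g * m) % q) q = Nat.gcd (g * m) q := by
            rw [← Nat.gcd_rec, Nat.gcd_comm]
          rw [← h5, h]
        obtain ⟨q', hq'⟩ := hgq
        rw [hq', Nat.gcd_mul_left] at h4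
        have h6 : m.gcd q' = 1 := by
          have : g * m.gcd q' = g * 1 := by rw [h4, mul_one]
          exact Nat.eq_of_mul_eq_mul_left hgpos this
        rw [hq']
        exact Nat.Coprime.mul_right hc.symm h6
      · intro hc
        exact (Nat.Coprime.coprime_dvd_right hgq hc).symm
    by_cases hc : g.Coprime m
    · rw [if_pos hc, if_pos ⟨hiff.mp hc, h⟩]
      push_cast
      field_simp
    · rw [if_neg hc, if_neg (fun h' => hc (hiff.mpr h'.1))]
      simp
  · rw [if_neg h, if_neg (fun h' => h h'.2)]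
    simp

theorem mu_ap_bounded (q a : ℕ) (hq : 1 ≤ q) :
    ∃ C : ℝ, ∀ x : ℕ, |∑ n ∈ Finset.Icc 1 x, (if n % q = a then mu n else 0) / n| ≤ C := by
  have hE : ∀ b : ℕ, ∃ C : ℝ, b < q → b.Coprime q → ∀ x, |hG q b x| ≤ C := by
    intro b
    by_cases h : b < q ∧ b.Coprime q
    · obtain ⟨C, hC⟩ := hH_unit q b hq h.1 h.2
      exact ⟨C, fun _ _ => hC⟩
    · exact ⟨0, fun h1 h2 => absurd ⟨h1, h2⟩ h⟩
  choose C hC using hE
  refine ⟨|mu (a.gcd q) / (a.gcd q : ℝ)| *
    ∑ b ∈ (Finset.range q).filter (fun b => b.Coprime q ∧ (a.gcd q * b) % q = a), C b,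
    fun x => ?_⟩
  have e : ∑ n ∈ Finset.Icc 1 x, (if n % q = a then mu n else 0) / (n : ℝ) = hG q a x := rfl
  rw [e, hH_general q a x hq, abs_mul]
  apply mul_le_mul_of_nonneg_left _ (abs_nonneg _)
  refine (Finset.abs_sum_le_sum_abs _ _).trans (Finset.sum_le_sum fun b hb => ?_)
  rw [Finset.mem_filter, Finset.mem_range] at hb
  exact hC b hb.1 hb.2.1 _

end Pool.Agent.Lib.MP_3e612f_nt.DS
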