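import Pool.Agent.Lib.MP_3e612f_nt.DSBlock
import Pool.Agent.Lib.MP_3e612f_nt.DSSlow
import Pool.Agent.Lib.MP_3e612f_nt.Katai
import Pool.Agent.Lib.MP_3e612f_nt.MuAP

/-!
The Möbius function is orthogonal, in logarithmic averages, to every bounded function of the
binary sum of digits and of the residue modulo `2 ^ h`.
-/

set_option autoImplicit false

namespace Pool.Agent.Lib.MP_3e612f_nt.DS

open Filter Topology

theorem real_class (h a : ℕ) {g : ℕ → ℝ} (hg : ∀ x, |g x| ≤ 1) :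
    Tendsto (LogAvg fun n => mu n * (if n % 2 ^ h = a then g (ds n) else 0)) atTop (𝓝 0) := by
  have h1 : Tendsto (LogAvg fun n => mu n * cen h a g n) atTop (𝓝 0) := by
    refine katai_log (abs_cen_le hg) (K := 1) fun p r hp hr h3 hpr ε hε => ?_
    have hp2 : Odd p := hp.odd_of_ne_two (by omega)
    have hr2 : Odd r := hr.odd_of_ne_two (by omega)
    exact cen_katai h a hg hp2 hr2 hpr hε
  have hslow : Tendsto (fun κ => |bin (κ + 1) g - bin κ g|) atTop (𝓝 0) :=
    squeeze_zero (fun _ => abs_nonneg _) (fun κ => bin_succ_close hg κ) (tendsto_div_sqrt 1)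
  have h2 := slow_tendsto (q := 2 ^ h) (a := a) (mu_ap_bounded _ _ Nat.one_le_two_pow)
    (M := fun κ => bin κ g) (fun κ => abs_bin_le hg) hslow
  have h3 := h1.add h2
  rw [add_zero] at h3
  refine h3.congr fun N => ?_
  rw [← LogAvg_add]
  refine LogAvg_congr fun n _ _ => ?_
  unfold cen
  split_ifs
  · ring
  · ring

theorem LogAvg_finset_sum {ι : Type*} (s : Finset ι) (u : ι → ℕ → ℝ) (N : ℕ) :
    LogAvg (fun n => ∑ i ∈ s, u i n) N = ∑ i ∈ s, LogAvg (u i) N := by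
  unfold LogAvg
  rw [← Finset.mul_sum]
  congr 1
  rw [Finset.sum_comm]
  refine Finset.sum_congr rfl fun n _ => ?_
  rw [Finset.sum_div]

theorem real_main (h : ℕ) {Ψ : ℕ → ℕ → ℝ} (hΨ : ∀ s a, |Ψ s a| ≤ 1) :
    Tendsto (LogAvg fun n => mu n * Ψ (ds n) (n % 2 ^ h)) atTop (𝓝 0) := by
  have h1 : Tendsto (fun N => ∑ a ∈ Finset.range (2 ^ h),
      LogAvg (fun n => mu n * (if n % 2 ^ h = a then Ψ (ds n) a else 0)) N) atTop
      (𝓝 (∑ a ∈ Finset.range (2 ^ h), 0)) := by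
    refine tendsto_finsetSum _ fun a _ => ?_
    exact real_class h a (g := fun s => Ψ s a) (fun s => hΨ s a)
  rw [Finset.sum_const_zero] at h1
  refine h1.congr fun N => ?_
  rw [← LogAvg_finset_sum]
  refine LogAvg_congr fun n _ _ => ?_
  rw [← Finset.mul_sum, Finset.sum_ite_eq, if_pos (Finset.mem_range.mpr (Nat.mod_lt _ (by positivity)))]

theorem real_main' (h : ℕ) {Ψ : ℕ → ℕ → ℝ} {C : ℝ} (hΨ : ∀ s a, |Ψ s a| ≤ C) :
    Tendsto (LogAvg fun n => mu n * Ψ (ds n) (n % 2 ^ h)) atTop (𝓝 0) := by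
  have hC : 0 ≤ C := (abs_nonneg _).trans (hΨ 0 0)
  have h1 := (real_main h (Ψ := fun s a => Ψ s a / (C + 1)) (fun s a => by
    rw [abs_div, abs_of_pos (by linarith : 0 < C + 1), div_le_one (by linarith)]
    linarith [hΨ s a])).const_mul (C + 1)
  rw [mul_zero] at h1
  refine h1.congr fun N => ?_
  rw [← LogAvg_const_mul]
  refine LogAvg_congr fun n _ _ => ?_
  have : C + 1 ≠ 0 := by linarith
  field_simp

theorem complex_main (h : ℕ) {Ψ : ℕ → ℕ → ℂ} {C : ℝ} (hΨ : ∀ s a, ‖Ψ s a‖ ≤ C) :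
    Tendsto (fun N : ℕ => (1 / Real.log N : ℂ) * ∑ n ∈ Finset.Icc 1 N,
      Ψ (Nat.digits 2 n).sum (n % 2 ^ h) * (ArithmeticFunction.moebius n : ℂ) / n) atTop (𝓝 0) := by
  have hre := real_main' h (Ψ := fun s a => (Ψ s a).re) (fun s a =>
    (Complex.abs_re_le_norm _).trans (hΨ s a))
  have him := real_main' h (Ψ := fun s a => (Ψ s a).im) (fun s a =>
    (Complex.abs_im_le_norm _).trans (hΨ s a))
  have h1 : Tendsto (fun N : ℕ => ((LogAvg (fun n => mu n * (Ψ (ds n) (n % 2 ^ h)).re) N : ℝ) : ℂ) +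
      ((LogAvg (fun n => mu n * (Ψ (ds n) (n % 2 ^ h)).im) N : ℝ) : ℂ) * Complex.I) atTop
      (𝓝 (((0 : ℝ) : ℂ) + ((0 : ℝ) : ℂ) * Complex.I)) :=
    ((Complex.continuous_ofReal.tendsto _).comp hre).add
      (((Complex.continuous_ofReal.tendsto _).comp him).mul_const _)
  simp only [Complex.ofReal_zero, zero_mul, add_zero] at h1
  refine h1.congr fun N => ?_
  unfold LogAvg
  push_cast
  rw [mul_assoc, ← mul_add, Finset.sum_mul, ← Finset.sum_add_distrib]
  congr 1
  refine Finset.sum_congr rfl fun n _ => ?_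
  have e := Complex.re_add_im (Ψ (Nat.digits 2 n).sum (n % 2 ^ h))
  unfold ds mu
  rw [← e]
  push_cast
  simp only [Complex.add_re, Complex.ofReal_re, Complex.mul_re, Complex.I_re, mul_zero,
    Complex.ofReal_im, Complex.I_im, mul_one, sub_self, add_zero, Complex.add_im, Complex.mul_im,
    zero_add]
  ring

end Pool.Agent.Lib.MP_3e612f_nt.DS
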