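import Pool.Agent.Lib.MP_3e612f_nt.DSDefs

set_option autoImplicit false

namespace Pool.Agent.Lib.MP_3e612f_nt.DS

namespace Noise

/-- averaging over one fair bit -/
noncomputable def E (G : ℕ → ℝ) : ℕ → ℝ := fun x => (G x + G (x + 1)) / 2

/-- the odd part -/
noncomputable def O (G : ℕ → ℝ) : ℕ → ℝ := fun x => (G x - G (x + 1)) / 2

/-- averaging over `k` fair bits -/
noncomputable def B : ℕ → (ℕ → ℝ) → ℕ → ℝ
  | 0, G => G
  | k + 1, G => B k (E G)

lemma B_add (k : ℕ) (G H : ℕ → ℝ) (x : ℕ) : B k (fun x => G x + H x) x = B k G x + B k H x := by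
  induction k generalizing G H with
  | zero => rfl
  | succ k ih =>
    simp only [B]
    rw [← ih]
    congr 1
    funext y
    simp only [E]; ring

lemma B_mono (k : ℕ) {G H : ℕ → ℝ} (h : ∀ x, G x ≤ H x) (x : ℕ) : B k G x ≤ B k H x := by
  induction k generalizing G H with
  | zero => exact h x
  | succ k ih =>
    refine ih fun y => ?_
    simp only [E]
    have := h y
    have := h (y + 1)
    linarith

lemma B_const (k : ℕ) (c : ℝ) (x : ℕ) : B k (fun _ => c) x = c := by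
  induction k with
  | zero => rfl
  | succ k ih =>
    simp only [B]
    have : E (fun _ => c) = fun _ => c := by funext y; simp [E]
    rw [this, ih]

lemma B_nonneg (k : ℕ) {G : ℕ → ℝ} (h : ∀ x, 0 ≤ G x) (x : ℕ) : 0 ≤ B k G x := by
  have := B_mono k (G := fun _ => 0) h x
  rwa [B_const] at this

lemma E_sq (G : ℕ → ℝ) (k x : ℕ) :
    B (k + 1) (fun x => G x ^ 2) x = B k (fun x => E G x ^ 2) x + B k (fun x => O G x ^ 2) x := by
  rw [← B_add]
  simp only [B]
  congr 1
  funext y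
  simp only [E, O]; ring

lemma sum_choose_succ (k : ℕ) (G : ℕ → ℝ) :
    ∑ i ∈ Finset.range (k + 2), ((k + 1).choose i : ℝ) * G i =
      ∑ i ∈ Finset.range (k + 1), (k.choose i : ℝ) * G i +
        ∑ i ∈ Finset.range (k + 1), (k.choose i : ℝ) * G (i + 1) := by
  rw [Finset.sum_range_succ' _ (k + 1)]
  simp only [Nat.choose_succ_succ, Nat.cast_add, add_mul, Finset.sum_add_distrib]
  have h1 : ∑ i ∈ Finset.range (k + 1), (k.choose (i + 1) : ℝ) * G (i + 1) + G 0 =
      ∑ i ∈ Finset.range (k + 1), (k.choose i : ℝ) * G i := by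
    rw [Finset.sum_range_succ, Finset.sum_range_succ' _ k]
    simp
  simp only [Nat.choose_zero_right, Nat.cast_one, one_mul]
  linarith

lemma bin_eq_B (k : ℕ) (G : ℕ → ℝ) : bin k G = B k G 0 := by
  induction k generalizing G with
  | zero => simp [bin, B]
  | succ k ih =>
    simp only [B]
    rw [← ih]
    unfold bin
    rw [sum_choose_succ, ← Finset.sum_add_distrib]
    have : ∀ i, (k.choose i : ℝ) * G i + (k.choose i : ℝ) * G (i + 1) =
        2 * ((k.choose i : ℝ) * E G i) := fun i => by simp only [E]; ring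
    rw [Finset.sum_congr rfl fun i _ => this i, ← Finset.mul_sum]
    rw [pow_succ]
    field_simp

lemma model_add (ρ : ℕ → ℝ) (k : ℕ) (F F' : ℕ → ℕ → ℝ) (a : ℝ) (x y : ℕ) :
    model ρ k (fun x y => F x y + a * F' x y) x y =
      model ρ k F x y + a * model ρ k F' x y := by
  induction k generalizing F F' with
  | zero => rfl
  | succ k ih =>
    simp only [model]
    rw [← ih]
    congr 1
    funext u v
    simp only [Q]; ring

lemma model_succ (ρ : ℕ → ℝ) (k : ℕ) (G H : ℕ → ℝ) (x y : ℕ) :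
    model ρ (k + 1) (fun x y => G x * H y) x y =
      model ρ k (fun x y => E G x * E H y) x y +
        ρ k * model ρ k (fun x y => O G x * O H y) x y := by
  rw [← model_add]
  simp only [model]
  congr 1
  funext u v
  simp only [Q, E, O]; ring

lemma cs {a₁ a₂ o₁ o₂ : ℝ} (h1 : 0 ≤ a₁) (h2 : 0 ≤ a₂) (h3 : 0 ≤ o₁) (h4 : 0 ≤ o₂) :
    √(a₁ * a₂) + √(o₁ * o₂) ≤ √((a₁ + o₁) * (a₂ + o₂)) := by
  apply Real.le_sqrt_of_sq_le
  have hs := Real.sq_sqrt (mul_nonneg h1 h2)
  have ht := Real.sq_sqrt (mul_nonneg h3 h4)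
  have hst : √(a₁ * a₂) * √(o₁ * o₂) ≤ (a₁ * o₂ + a₂ * o₁) / 2 := by
    refine le_trans (le_abs_self _) (abs_le_of_sq_le_sq ?_ (by positivity))
    rw [mul_pow, hs, ht]
    nlinarith [sq_nonneg (a₁ * o₂ - a₂ * o₁)]
  nlinarith

lemma bound_one {ρ : ℕ → ℝ} (hρ : ∀ j, |ρ j| ≤ 1) (k : ℕ) (G H : ℕ → ℝ) (x y : ℕ) :
    |model ρ k (fun x y => G x * H y) x y| ≤
      √(B k (fun x => G x ^ 2) x * B k (fun x => H x ^ 2) y) := by
  induction k generalizing G H with
  | zero =>
    simp only [model, B]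
    rw [← mul_pow, Real.sqrt_sq_eq_abs]
  | succ k ih =>
    rw [model_succ, E_sq, E_sq]
    refine le_trans ?_ (cs (B_nonneg k (fun _ => sq_nonneg _) x) (B_nonneg k (fun _ => sq_nonneg _) y)
      (B_nonneg k (fun _ => sq_nonneg _) x) (B_nonneg k (fun _ => sq_nonneg _) y))
    refine (abs_add_le _ _).trans (add_le_add (ih _ _) ?_)
    rw [abs_mul]
    refine (mul_le_of_le_one_left (abs_nonneg _) (hρ k)).trans (ih _ _)

lemma bound_two {ρ : ℕ → ℝ} {η : ℝ} (h0 : 0 ≤ η) (h1 : η ≤ 1) (hρ : ∀ j, |ρ j| ≤ η) (k : ℕ)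
    (G H : ℕ → ℝ) (x y : ℕ) :
    |model ρ k (fun x y => G x * H y) x y - B k G x * B k H y| ≤
      η * √(B k (fun x => G x ^ 2) x * B k (fun x => H x ^ 2) y) := by
  induction k generalizing G H with
  | zero =>
    simp only [model, B, sub_self, abs_zero]
    positivity
  | succ k ih =>
    rw [model_succ, E_sq, E_sq]
    have h2 := cs (B_nonneg k (fun _ => sq_nonneg _) x : 0 ≤ B k (fun x => E G x ^ 2) x)
      (B_nonneg k (fun _ => sq_nonneg _) y : 0 ≤ B k (fun x => E H x ^ 2) y)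
      (B_nonneg k (fun _ => sq_nonneg _) x : 0 ≤ B k (fun x => O G x ^ 2) x)
      (B_nonneg k (fun _ => sq_nonneg _) y : 0 ≤ B k (fun x => O H x ^ 2) y)
    refine le_trans ?_ (mul_le_mul_of_nonneg_left h2 h0)
    have h3 : model ρ k (fun x y => E G x * E H y) x y +
        ρ k * model ρ k (fun x y => O G x * O H y) x y - B (k + 1) G x * B (k + 1) H y =
        (model ρ k (fun x y => E G x * E H y) x y - B k (E G) x * B k (E H) y) +
          ρ k * model ρ k (fun x y => O G x * O H y) x y := by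
      simp only [B]; ring
    rw [h3, mul_add]
    refine (abs_add_le _ _).trans (add_le_add (ih _ _) ?_)
    rw [abs_mul]
    have h4 := bound_one (ρ := ρ) (fun j => (hρ j).trans h1) k (O G) (O H) x y
    exact mul_le_mul (hρ k) h4 (abs_nonneg _) h0

end Noise

open Noise in
theorem model_near_product {ρ : ℕ → ℝ} {η : ℝ} (h1 : η ≤ 1) (hρ : ∀ j, |ρ j| ≤ η)
    {G G' : ℕ → ℝ} (hG : ∀ x, |G x| ≤ 1) (hG' : ∀ x, |G' x| ≤ 1) (k : ℕ) :
    |model ρ k (fun x y => G x * G' y) 0 0 - bin k G * bin k G'| ≤ η := by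
  have h0 : 0 ≤ η := (abs_nonneg _).trans (hρ 0)
  rw [bin_eq_B, bin_eq_B]
  refine (bound_two h0 h1 hρ k G G' 0 0).trans ?_
  have h2 : B k (fun x => G x ^ 2) 0 ≤ 1 := by
    have := B_mono k (G := fun x => G x ^ 2) (H := fun _ => 1)
      (fun x => by rw [← sq_abs]; exact pow_le_one₀ (abs_nonneg _) (hG x)) 0
    rwa [B_const] at this
  have h3 : B k (fun x => G' x ^ 2) 0 ≤ 1 := by
    have := B_mono k (G := fun x => G' x ^ 2) (H := fun _ => 1)
      (fun x => by rw [← sq_abs]; exact pow_le_one₀ (abs_nonneg _) (hG' x)) 0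
    rwa [B_const] at this
  have h4 : √(B k (fun x => G x ^ 2) 0 * B k (fun x => G' x ^ 2) 0) ≤ 1 := by
    rw [Real.sqrt_le_one]
    exact mul_le_one₀ h2 (B_nonneg k (fun _ => sq_nonneg _) 0) h3
  nlinarith

end Pool.Agent.Lib.MP_3e612f_nt.DS
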