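import Pool.Agent.Lib.MP_3e612f_nt.DSShift
import Pool.Agent.Lib.MP_3e612f_nt.DSLind
import Pool.Agent.Lib.MP_3e612f_nt.DSCorr
import Pool.Agent.Lib.MP_3e612f_nt.DSNoise

/-!
The digit sums of `p n` and `r n` are nearly independent.
-/

set_option autoImplicit false

namespace Pool.Agent.Lib.MP_3e612f_nt.DS

open Filter Topology

/-- smoothing at scale `L` -/
noncomputable def sm (L : ℕ) (g : ℕ → ℝ) (x : ℕ) : ℝ :=
  (∑ s ∈ Finset.range L, ∑ s' ∈ Finset.range L, g (x + s + s')) / L ^ 2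

theorem sm_slow {L : ℕ} (hL : 1 ≤ L) {g : ℕ → ℝ} (hg : ∀ x, |g x| ≤ 1) :
    Slow (2 / L) (sm L g) := by
  have hL' : (0 : ℝ) < L := by exact_mod_cast hL
  have htel : ∀ (h : ℕ → ℝ) (x : ℕ), ∑ s ∈ Finset.range L, (h (x + 1 + s) - h (x + s)) =
      h (x + L) - h x := by
    intro h x
    have := Finset.sum_range_sub (fun s => h (x + s)) L
    simp only [add_zero] at this
    rw [← this]
    refine Finset.sum_congr rfl fun s _ => ?_
    rw [add_right_comm, add_assoc x s 1]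
  refine ⟨fun x => ?_, fun x => ?_, fun x => ?_⟩
  · unfold sm
    rw [abs_div, abs_of_pos (by positivity : (0 : ℝ) < (L : ℝ) ^ 2), div_le_one (by positivity)]
    refine (Finset.abs_sum_le_sum_abs _ _).trans ?_
    calc ∑ s ∈ Finset.range L, |∑ s' ∈ Finset.range L, g (x + s + s')|
        ≤ ∑ s ∈ Finset.range L, (L : ℝ) := by
          refine Finset.sum_le_sum fun s _ => ?_
          refine (Finset.abs_sum_le_sum_abs _ _).trans ?_
          calc ∑ s' ∈ Finset.range L, |g (x + s + s')| ≤ ∑ s' ∈ Finset.range L, (1 : ℝ) :=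
                Finset.sum_le_sum fun s' _ => hg _
            _ = L := by simp
      _ = (L : ℝ) ^ 2 := by
          rw [Finset.sum_const, Finset.card_range, nsmul_eq_mul]
          ring
  · unfold sm
    rw [← sub_div, ← Finset.sum_sub_distrib]
    have e : ∀ s, ∑ s' ∈ Finset.range L, g (x + 1 + s + s') -
        ∑ s' ∈ Finset.range L, g (x + s + s') = g (x + s + L) - g (x + s) := by
      intro s
      rw [← Finset.sum_sub_distrib, ← htel g (x + s)]
      refine Finset.sum_congr rfl fun s' _ => ?_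
      rw [add_right_comm x 1 s]
    simp only [e]
    rw [abs_div, abs_of_pos (by positivity : (0 : ℝ) < (L : ℝ) ^ 2), div_le_div_iff₀
      (by positivity) hL']
    have h1 : |∑ s ∈ Finset.range L, (g (x + s + L) - g (x + s))| ≤ 2 * L := by
      refine (Finset.abs_sum_le_sum_abs _ _).trans ?_
      calc ∑ s ∈ Finset.range L, |g (x + s + L) - g (x + s)|
          ≤ ∑ s ∈ Finset.range L, (2 : ℝ) := by
            refine Finset.sum_le_sum fun s _ => ?_
            exact (abs_sub _ _).trans (by linarith [hg (x + s + L), hg (x + s)])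
        _ = 2 * L := by
            rw [Finset.sum_const, Finset.card_range, nsmul_eq_mul]
            ring
    nlinarith
  · unfold sm
    have e : (∑ s ∈ Finset.range L, ∑ s' ∈ Finset.range L, g (x + 2 + s + s')) / (L : ℝ) ^ 2 -
        2 * ((∑ s ∈ Finset.range L, ∑ s' ∈ Finset.range L, g (x + 1 + s + s')) / (L : ℝ) ^ 2) +
        (∑ s ∈ Finset.range L, ∑ s' ∈ Finset.range L, g (x + s + s')) / (L : ℝ) ^ 2 =
        (g (x + 2 * L) - 2 * g (x + L) + g x) / (L : ℝ) ^ 2 := by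
      rw [mul_div_assoc', ← sub_div, ← add_div]
      congr 1
      set h : ℕ → ℝ := fun z => ∑ s' ∈ Finset.range L, (g (z + 1 + s') - g (z + s')) with hh
      have hh' : ∀ z, h z = g (z + L) - g z := fun z => htel g z
      have h1 := htel h x
      rw [hh' (x + L), hh' x] at h1
      have h2 : ∑ s ∈ Finset.range L, (h (x + 1 + s) - h (x + s)) =
          ∑ s ∈ Finset.range L, ∑ s' ∈ Finset.range L, g (x + 2 + s + s') -
          2 * ∑ s ∈ Finset.range L, ∑ s' ∈ Finset.range L, g (x + 1 + s + s') +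
          ∑ s ∈ Finset.range L, ∑ s' ∈ Finset.range L, g (x + s + s') := by
        rw [Finset.mul_sum, ← Finset.sum_sub_distrib, ← Finset.sum_add_distrib]
        refine Finset.sum_congr rfl fun s _ => ?_
        rw [hh]
        dsimp only
        rw [Finset.mul_sum, ← Finset.sum_sub_distrib, ← Finset.sum_sub_distrib,
          ← Finset.sum_add_distrib]
        refine Finset.sum_congr rfl fun s' _ => ?_
        have e1 : x + 1 + s + 1 + s' = x + 2 + s + s' := by ring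
        have e2 : x + s + 1 + s' = x + 1 + s + s' := by ring
        rw [e1, e2]
        ring
      rw [← h2, h1]
      have e3 : x + L + L = x + 2 * L := by ring
      rw [e3]
      ring
    rw [e, abs_div, abs_of_pos (by positivity : (0 : ℝ) < (L : ℝ) ^ 2), div_pow]
    refine div_le_div_of_nonneg_right ?_ (by positivity)
    have h1 := abs_le.mp (hg (x + 2 * L))
    have h2 := abs_le.mp (hg (x + L))
    have h3 := abs_le.mp (hg x)
    rw [abs_le]
    constructor <;> nlinarith [h1.1, h1.2, h2.1, h2.2, h3.1, h3.2]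

theorem ds_le (n : ℕ) : ds n ≤ n := by
  induction n using Nat.strong_induction_on with
  | _ n ih =>
    rcases Nat.eq_zero_or_pos n with h | h
    · subst h
      rw [ds_zero]
    · rw [ds_rec]
      have := ih (n / 2) (by omega)
      omega

theorem Slow.shift {δ : ℝ} {G : ℕ → ℝ} (hG : Slow δ G) (x u : ℕ) :
    |G (x + u) - G x| ≤ u * δ := by
  induction u with
  | zero => simp
  | succ u ih =>
    have h1 := hG.2.1 (x + u)
    have e : G (x + (u + 1)) - G x = (G (x + u + 1) - G (x + u)) + (G (x + u) - G x) := by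
      rw [add_assoc]
      ring
    rw [e]
    push_cast
    linarith [abs_add_le (G (x + u + 1) - G (x + u)) (G (x + u) - G x)]

theorem bin_shift_iter {G : ℕ → ℝ} (hG : ∀ x, |G x| ≤ 1) (k i : ℕ) :
    |bin k G - bin k (fun x => G (x + i))| ≤ i * (2 / Real.sqrt (k + 1)) := by
  induction i with
  | zero => simp
  | succ i ih =>
    have h1 := bin_shift (G := fun x => G (x + i)) (fun x => hG _) k
    have e : (fun x => (fun x => G (x + i)) (x + 1)) = fun x => G (x + (i + 1)) := by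
      funext x
      dsimp only
      congr 1
      ring
    rw [e] at h1
    have e2 : bin k G - bin k (fun x => G (x + (i + 1))) =
        (bin k G - bin k (fun x => G (x + i))) +
          (bin k (fun x => G (x + i)) - bin k (fun x => G (x + (i + 1)))) := by ring
    rw [e2]
    push_cast
    linarith [abs_add_le (bin k G - bin k (fun x => G (x + i)))
      (bin k (fun x => G (x + i)) - bin k (fun x => G (x + (i + 1))))]

/-- averages of quantities close to `a` are close to `a` -/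
theorem avg_close {L : ℕ} (hL : 1 ≤ L) {a B : ℝ} {v : ℕ → ℕ → ℝ}
    (h : ∀ s < L, ∀ s' < L, |a - v s s'| ≤ B) :
    |a - (∑ s ∈ Finset.range L, ∑ s' ∈ Finset.range L, v s s') / L ^ 2| ≤ B := by
  have hL' : (0 : ℝ) < L := by exact_mod_cast hL
  have e : a - (∑ s ∈ Finset.range L, ∑ s' ∈ Finset.range L, v s s') / (L : ℝ) ^ 2 =
      (∑ s ∈ Finset.range L, ∑ s' ∈ Finset.range L, (a - v s s')) / (L : ℝ) ^ 2 := by
    simp only [Finset.sum_sub_distrib, Finset.sum_const, Finset.card_range, nsmul_eq_mul]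
    field_simp
  rw [e, abs_div, abs_of_pos (by positivity : (0 : ℝ) < (L : ℝ) ^ 2), div_le_iff₀ (by positivity)]
  refine (Finset.abs_sum_le_sum_abs _ _).trans ?_
  calc ∑ s ∈ Finset.range L, |∑ s' ∈ Finset.range L, (a - v s s')|
      ≤ ∑ s ∈ Finset.range L, (L : ℝ) * B := by
        refine Finset.sum_le_sum fun s hs => ?_
        refine (Finset.abs_sum_le_sum_abs _ _).trans ?_
        calc ∑ s' ∈ Finset.range L, |a - v s s'| ≤ ∑ s' ∈ Finset.range L, B :=
              Finset.sum_le_sum fun s' hs' =>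
                h s (Finset.mem_range.mp hs) s' (Finset.mem_range.mp hs')
          _ = L * B := by simp
    _ = B * (L : ℝ) ^ 2 := by
        rw [Finset.sum_const, Finset.card_range, nsmul_eq_mul]
        ring

theorem bin_finset_sum {ι : Type*} (s : Finset ι) (k : ℕ) (G : ι → ℕ → ℝ) :
    bin k (fun x => ∑ i ∈ s, G i x) = ∑ i ∈ s, bin k (G i) := by
  classical
  induction s using Finset.induction_on with
  | empty => simp [bin]
  | insert a s ha ih =>
    simp only [Finset.sum_insert ha]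
    rw [← ih]
    unfold bin
    rw [← add_div, ← Finset.sum_add_distrib]
    congr 1
    exact Finset.sum_congr rfl fun i _ => by ring

theorem bin_div (k : ℕ) (G : ℕ → ℝ) (a : ℝ) : bin k (fun x => G x / a) = bin k G / a := by
  unfold bin
  rw [div_right_comm]
  congr 1
  rw [Finset.sum_div]
  exact Finset.sum_congr rfl fun i _ => by ring

theorem av_finset_sum {ι : Type*} (s : Finset ι) (k : ℕ) (G : ι → ℕ → ℝ) :
    av k (fun x => ∑ i ∈ s, G i x) = ∑ i ∈ s, av k (G i) := by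
  unfold av
  rw [Finset.sum_comm, Finset.sum_div]

theorem av_div (k : ℕ) (G : ℕ → ℝ) (a : ℝ) : av k (fun x => G x / a) = av k G / a := by
  unfold av
  rw [← Finset.sum_div, div_right_comm]

theorem bin_sm {L : ℕ} (hL : 1 ≤ L) {g : ℕ → ℝ} (hg : ∀ x, |g x| ≤ 1) (k : ℕ) :
    |bin k g - bin k (sm L g)| ≤ 4 * L / Real.sqrt (k + 1) := by
  have e : bin k (sm L g) = (∑ s ∈ Finset.range L, ∑ s' ∈ Finset.range L,
      bin k (fun x => g (x + (s + s')))) / (L : ℝ) ^ 2 := by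
    unfold sm
    rw [bin_div, bin_finset_sum]
    congr 1
    refine Finset.sum_congr rfl fun s _ => ?_
    rw [bin_finset_sum]
    simp only [add_assoc]
  rw [e]
  refine avg_close hL fun s hs s' hs' => ?_
  refine (bin_shift_iter hg k (s + s')).trans ?_
  have h1 : ((s + s' : ℕ) : ℝ) ≤ 2 * L := by
    have : s + s' ≤ 2 * L := by omega
    exact_mod_cast this
  have h2 : 0 ≤ 2 / Real.sqrt (k + 1) := by positivity
  calc ((s + s' : ℕ) : ℝ) * (2 / Real.sqrt (k + 1)) ≤ 2 * L * (2 / Real.sqrt (k + 1)) :=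
        mul_le_mul_of_nonneg_right h1 h2
    _ = 4 * L / Real.sqrt (k + 1) := by ring


/-- the digit sum of `p (2 ^ k + n) + c` -/
theorem ds_block (p c k n : ℕ) : ds (p * (2 ^ k + n) + c) =
    ds ((p * n + c) % 2 ^ k) + ds (p + (p * n + c) / 2 ^ k) := by
  rw [ds_split k]
  have e : p * (2 ^ k + n) + c = (p * n + c) + 2 ^ k * p := by ring
  rw [e, Nat.add_mul_mod_self_left, Nat.add_mul_div_left _ _ (by positivity : 0 < 2 ^ k),
    add_comm ((p * n + c) / 2 ^ k) p]

/-- the shift estimate, iterated -/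
def ShiftBound (p r : ℕ) (C : ℝ) : Prop :=
  ∀ k c d : ℕ, c ≤ p → d ≤ r → ∀ f : ℕ → ℕ → ℕ → ℕ → ℝ,
      (∀ c' d' x y, |f c' d' x y| ≤ 1) →
      |av k (fun n => f ((p * n + c) / 2 ^ k) ((r * n + d) / 2 ^ k)
            (ds ((p * n + c) % 2 ^ k)) (ds ((r * n + d) % 2 ^ k))) -
        av k (fun n => f ((p * n + c) / 2 ^ k) ((r * n + d) / 2 ^ k)
            (ds ((p * n + c) % 2 ^ k) + 1) (ds ((r * n + d) % 2 ^ k)))| ≤ C / Real.sqrt (k + 1) ∧
      |av k (fun n => f ((p * n + c) / 2 ^ k) ((r * n + d) / 2 ^ k)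
            (ds ((p * n + c) % 2 ^ k)) (ds ((r * n + d) % 2 ^ k))) -
        av k (fun n => f ((p * n + c) / 2 ^ k) ((r * n + d) / 2 ^ k)
            (ds ((p * n + c) % 2 ^ k)) (ds ((r * n + d) % 2 ^ k) + 1))| ≤ C / Real.sqrt (k + 1)

theorem shift_iter_x {p r : ℕ} {C : ℝ} (hC : ShiftBound p r C) {k c d : ℕ} (hc : c ≤ p)
    (hd : d ≤ r) {f : ℕ → ℕ → ℕ → ℕ → ℝ} (hf : ∀ c' d' x y, |f c' d' x y| ≤ 1) (i : ℕ) :
    |av k (fun n => f ((p * n + c) / 2 ^ k) ((r * n + d) / 2 ^ k)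
            (ds ((p * n + c) % 2 ^ k)) (ds ((r * n + d) % 2 ^ k))) -
        av k (fun n => f ((p * n + c) / 2 ^ k) ((r * n + d) / 2 ^ k)
            (ds ((p * n + c) % 2 ^ k) + i) (ds ((r * n + d) % 2 ^ k)))| ≤
      i * (C / Real.sqrt (k + 1)) := by
  induction i with
  | zero => simp
  | succ i ih =>
    have h1 := (hC k c d hc hd (fun c' d' x y => f c' d' (x + i) y)
      (fun c' d' x y => hf _ _ _ _)).1
    have e1 : (fun n => (fun c' d' x y => f c' d' (x + i) y) ((p * n + c) / 2 ^ k)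
        ((r * n + d) / 2 ^ k) (ds ((p * n + c) % 2 ^ k) + 1) (ds ((r * n + d) % 2 ^ k))) =
        fun n => f ((p * n + c) / 2 ^ k) ((r * n + d) / 2 ^ k)
            (ds ((p * n + c) % 2 ^ k) + (i + 1)) (ds ((r * n + d) % 2 ^ k)) := by
      funext n
      dsimp only
      congr 1
      ring
    rw [e1] at h1
    refine (abs_sub_le _ _ _).trans ((add_le_add ih h1).trans (le_of_eq ?_))
    push_cast
    ring

theorem shift_iter_y {p r : ℕ} {C : ℝ} (hC : ShiftBound p r C) {k c d : ℕ} (hc : c ≤ p)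
    (hd : d ≤ r) {f : ℕ → ℕ → ℕ → ℕ → ℝ} (hf : ∀ c' d' x y, |f c' d' x y| ≤ 1) (i : ℕ) :
    |av k (fun n => f ((p * n + c) / 2 ^ k) ((r * n + d) / 2 ^ k)
            (ds ((p * n + c) % 2 ^ k)) (ds ((r * n + d) % 2 ^ k))) -
        av k (fun n => f ((p * n + c) / 2 ^ k) ((r * n + d) / 2 ^ k)
            (ds ((p * n + c) % 2 ^ k)) (ds ((r * n + d) % 2 ^ k) + i))| ≤
      i * (C / Real.sqrt (k + 1)) := by
  induction i with
  | zero => simp
  | succ i ih =>
    have h1 := (hC k c d hc hd (fun c' d' x y => f c' d' x (y + i))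
      (fun c' d' x y => hf _ _ _ _)).2
    have e1 : (fun n => (fun c' d' x y => f c' d' x (y + i)) ((p * n + c) / 2 ^ k)
        ((r * n + d) / 2 ^ k) (ds ((p * n + c) % 2 ^ k)) (ds ((r * n + d) % 2 ^ k) + 1)) =
        fun n => f ((p * n + c) / 2 ^ k) ((r * n + d) / 2 ^ k)
            (ds ((p * n + c) % 2 ^ k)) (ds ((r * n + d) % 2 ^ k) + (i + 1)) := by
      funext n
      dsimp only
      congr 1
      ring
    rw [e1] at h1
    refine (abs_sub_le _ _ _).trans ((add_le_add ih h1).trans (le_of_eq ?_))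
    push_cast
    ring

theorem smooth_x {p r : ℕ} {C : ℝ} (hC0 : 0 ≤ C) (hC : ShiftBound p r C) {k c d : ℕ} (hc : c ≤ p)
    (hd : d ≤ r) {g : ℕ → ℝ} (hg : ∀ x, |g x| ≤ 1) {h : ℕ → ℕ → ℕ → ℝ}
    (hh : ∀ c' d' y, |h c' d' y| ≤ 1) (s : ℕ → ℕ) {L : ℕ} (hL : 1 ≤ L) :
    |av k (fun n => g (ds ((p * n + c) % 2 ^ k) + s ((p * n + c) / 2 ^ k)) *
          h ((p * n + c) / 2 ^ k) ((r * n + d) / 2 ^ k) (ds ((r * n + d) % 2 ^ k))) -
        av k (fun n => sm L g (ds ((p * n + c) % 2 ^ k) + s ((p * n + c) / 2 ^ k)) *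
          h ((p * n + c) / 2 ^ k) ((r * n + d) / 2 ^ k) (ds ((r * n + d) % 2 ^ k)))| ≤
      2 * L * (C / Real.sqrt (k + 1)) := by
  have e : av k (fun n => sm L g (ds ((p * n + c) % 2 ^ k) + s ((p * n + c) / 2 ^ k)) *
          h ((p * n + c) / 2 ^ k) ((r * n + d) / 2 ^ k) (ds ((r * n + d) % 2 ^ k))) =
      (∑ i ∈ Finset.range L, ∑ j ∈ Finset.range L,
        av k (fun n => g (ds ((p * n + c) % 2 ^ k) + (i + j) + s ((p * n + c) / 2 ^ k)) *
          h ((p * n + c) / 2 ^ k) ((r * n + d) / 2 ^ k) (ds ((r * n + d) % 2 ^ k)))) /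
        (L : ℝ) ^ 2 := by
    simp only [← av_finset_sum]
    rw [← av_div]
    congr 1
    funext n
    unfold sm
    rw [div_mul_eq_mul_div, Finset.sum_mul]
    congr 1
    refine Finset.sum_congr rfl fun i _ => ?_
    rw [Finset.sum_mul]
    refine Finset.sum_congr rfl fun j _ => ?_
    congr 2
    ring
  rw [e]
  refine avg_close hL fun i hi j hj => ?_
  have h1 := shift_iter_x hC hc hd (k := k) (f := fun c' d' x y => g (x + s c') * h c' d' y)
    (fun c' d' x y => by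
      rw [abs_mul]
      exact mul_le_one₀ (hg _) (abs_nonneg _) (hh _ _ _)) (i + j)
  refine h1.trans ?_
  refine mul_le_mul_of_nonneg_right ?_ (by positivity)
  have : i + j ≤ 2 * L := by omega
  exact_mod_cast this

theorem smooth_y {p r : ℕ} {C : ℝ} (hC0 : 0 ≤ C) (hC : ShiftBound p r C) {k c d : ℕ} (hc : c ≤ p)
    (hd : d ≤ r) {g : ℕ → ℝ} (hg : ∀ x, |g x| ≤ 1) {h : ℕ → ℕ → ℕ → ℝ}
    (hh : ∀ c' d' y, |h c' d' y| ≤ 1) (s : ℕ → ℕ) {L : ℕ} (hL : 1 ≤ L) :
    |av k (fun n => h ((p * n + c) / 2 ^ k) ((r * n + d) / 2 ^ k) (ds ((p * n + c) % 2 ^ k)) *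
          g (ds ((r * n + d) % 2 ^ k) + s ((r * n + d) / 2 ^ k))) -
        av k (fun n => h ((p * n + c) / 2 ^ k) ((r * n + d) / 2 ^ k) (ds ((p * n + c) % 2 ^ k)) *
          sm L g (ds ((r * n + d) % 2 ^ k) + s ((r * n + d) / 2 ^ k)))| ≤
      2 * L * (C / Real.sqrt (k + 1)) := by
  have e : av k (fun n => h ((p * n + c) / 2 ^ k) ((r * n + d) / 2 ^ k)
          (ds ((p * n + c) % 2 ^ k)) *
          sm L g (ds ((r * n + d) % 2 ^ k) + s ((r * n + d) / 2 ^ k))) =
      (∑ i ∈ Finset.range L, ∑ j ∈ Finset.range L,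
        av k (fun n => h ((p * n + c) / 2 ^ k) ((r * n + d) / 2 ^ k) (ds ((p * n + c) % 2 ^ k)) *
          g (ds ((r * n + d) % 2 ^ k) + (i + j) + s ((r * n + d) / 2 ^ k)))) /
        (L : ℝ) ^ 2 := by
    simp only [← av_finset_sum]
    rw [← av_div]
    congr 1
    funext n
    unfold sm
    rw [mul_div_assoc', Finset.mul_sum]
    congr 1
    refine Finset.sum_congr rfl fun i _ => ?_
    rw [Finset.mul_sum]
    refine Finset.sum_congr rfl fun j _ => ?_
    congr 2
    ring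
  rw [e]
  refine avg_close hL fun i hi j hj => ?_
  have h1 := shift_iter_y hC hc hd (k := k) (f := fun c' d' x y => h c' d' x * g (y + s d'))
    (fun c' d' x y => by
      rw [abs_mul]
      exact mul_le_one₀ (hh _ _ _) (abs_nonneg _) (hg _)) (i + j)
  refine h1.trans ?_
  refine mul_le_mul_of_nonneg_right ?_ (by positivity)
  have : i + j ≤ 2 * L := by omega
  exact_mod_cast this


theorem av_close {k : ℕ} {u v : ℕ → ℝ} {B : ℝ} (h : ∀ n < 2 ^ k, |u n - v n| ≤ B) :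
    |av k u - av k v| ≤ B := by
  rw [← av_sub]
  exact abs_av_le h

theorem carry_le {p c k n : ℕ} (hc : c ≤ p) (hn : n < 2 ^ k) : (p * n + c) / 2 ^ k ≤ p := by
  have h1 : p * n + c ≤ p * 2 ^ k := by
    calc p * n + c ≤ p * n + p := by omega
      _ = p * (n + 1) := by ring
      _ ≤ p * 2 ^ k := Nat.mul_le_mul_left _ hn
  calc (p * n + c) / 2 ^ k ≤ p * 2 ^ k / 2 ^ k := Nat.div_le_div_right h1
    _ = p := Nat.mul_div_cancel _ (by positivity)

/-- removing the contribution of the top digits -/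
theorem drop_top {p r : ℕ} {k c d : ℕ} (hc : c ≤ p) (hd : d ≤ r) {δ : ℝ} (hδ : 0 ≤ δ)
    {G G' : ℕ → ℝ} (hG : Slow δ G) (hG' : Slow δ G') :
    |av k (fun n => G (ds ((p * n + c) % 2 ^ k) + ds (p + (p * n + c) / 2 ^ k)) *
          G' (ds ((r * n + d) % 2 ^ k) + ds (r + (r * n + d) / 2 ^ k))) -
        av k (fun n => G (ds ((p * n + c) % 2 ^ k)) * G' (ds ((r * n + d) % 2 ^ k)))| ≤
      (2 * p + 2 * r) * δ := by
  refine av_close fun n hn => ?_
  have h1 := hG.shift (ds ((p * n + c) % 2 ^ k)) (ds (p + (p * n + c) / 2 ^ k))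
  have h2 := hG'.shift (ds ((r * n + d) % 2 ^ k)) (ds (r + (r * n + d) / 2 ^ k))
  have h3 : (ds (p + (p * n + c) / 2 ^ k) : ℝ) ≤ 2 * p := by
    have := ds_le (p + (p * n + c) / 2 ^ k)
    have := carry_le hc hn
    have : ds (p + (p * n + c) / 2 ^ k) ≤ 2 * p := by omega
    exact_mod_cast this
  have h4 : (ds (r + (r * n + d) / 2 ^ k) : ℝ) ≤ 2 * r := by
    have := ds_le (r + (r * n + d) / 2 ^ k)
    have := carry_le hd hn
    have : ds (r + (r * n + d) / 2 ^ k) ≤ 2 * r := by omega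
    exact_mod_cast this
  set A := G (ds ((p * n + c) % 2 ^ k) + ds (p + (p * n + c) / 2 ^ k)) with hA
  set A' := G (ds ((p * n + c) % 2 ^ k)) with hA'
  set B := G' (ds ((r * n + d) % 2 ^ k) + ds (r + (r * n + d) / 2 ^ k)) with hB
  set B' := G' (ds ((r * n + d) % 2 ^ k)) with hB'
  have e : A * B - A' * B' = (A - A') * B + A' * (B - B') := by ring
  have hb : |B| ≤ 1 := hG'.1 _
  have ha : |A'| ≤ 1 := hG.1 _
  have h5 : |A - A'| ≤ 2 * p * δ := h1.trans (mul_le_mul_of_nonneg_right h3 hδ)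
  have h6 : |B - B'| ≤ 2 * r * δ := h2.trans (mul_le_mul_of_nonneg_right h4 hδ)
  rw [e]
  refine (abs_add_le _ _).trans ?_
  rw [abs_mul, abs_mul]
  have h7 : |A - A'| * |B| ≤ |A - A'| := mul_le_of_le_one_right (abs_nonneg _) hb
  have h8 : |A'| * |B - B'| ≤ |B - B'| := mul_le_of_le_one_left (abs_nonneg _) ha
  linarith

theorem mul_close {a b a' b' x : ℝ} (ha : |a'| ≤ 1) (hb : |b| ≤ 1) (h1 : |a - a'| ≤ x)
    (h2 : |b - b'| ≤ x) : |a * b - a' * b'| ≤ 2 * x := by
  have e : a * b - a' * b' = (a - a') * b + a' * (b - b') := by ring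
  rw [e]
  refine (abs_add_le _ _).trans ?_
  rw [abs_mul, abs_mul]
  have h7 : |a - a'| * |b| ≤ |a - a'| := mul_le_of_le_one_right (abs_nonneg _) hb
  have h8 : |a'| * |b - b'| ≤ |b - b'| := mul_le_of_le_one_left (abs_nonneg _) ha
  linarith

theorem abs_bin_le {k : ℕ} {G : ℕ → ℝ} {B : ℝ} (hG : ∀ x, |G x| ≤ B) : |bin k G| ≤ B := by
  rw [← av_ds]
  exact abs_av_le fun n _ => hG _

/-- the main estimate, with all the parameters -/
theorem pair_bound {p r : ℕ} (hp : Odd p) (hr : Odd r) (hpr : p < r) {C : ℝ} (hC0 : 0 ≤ C)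
    (hC : ShiftBound p r C) (t J L : ℕ) (hL : 1 ≤ L) (hJ : (p : ℝ) / r + r / 2 ^ J ≤ 1)
    {k c d : ℕ} (hc : c ≤ p) (hd : d ≤ r) {g g' : ℕ → ℝ} (hg : ∀ x, |g x| ≤ 1)
    (hg' : ∀ x, |g' x| ≤ 1) :
    |av k (fun n => g (ds (p * (2 ^ k + n) + c)) * g' (ds (r * (2 ^ k + n) + d))) -
        bin k g * bin k g'| ≤
      4 * L * (C / Real.sqrt (k + 1)) + (2 * p + 2 * r) * (2 / L) +
      (k * (t * (2 / L) ^ 3 + (p + r + 2) / 2 ^ t * (2 / L) ^ 2) + (J + t) * (2 / L) ^ 2) +
      (p / r + r / 2 ^ J) + 8 * L / Real.sqrt (k + 1) := by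
  have hδ : (0 : ℝ) ≤ 2 / L := by positivity
  have hG := sm_slow hL hg
  have hG' := sm_slow hL hg'
  simp only [ds_block]
  -- first smoothing
  have s1 := smooth_x hC0 hC (k := k) hc hd hg
    (h := fun c' d' y => g' (y + ds (r + d'))) (fun c' d' y => hg' _) (fun c' => ds (p + c')) hL
  -- second smoothing
  have s2 := smooth_y hC0 hC (k := k) hc hd hg'
    (h := fun c' d' x => sm L g (x + ds (p + c'))) (fun c' d' x => hG.1 _)
    (fun d' => ds (r + d')) hL
  have s3 := drop_top (k := k) hc hd hδ hG hG'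
  have s4 := lindeberg hp hr hc hd t J k hδ hG hG'
  have s5 := model_near_product (ρ := fun j => if j < J then 0 else av j (sg p r c d j))
    (η := p / r + r / 2 ^ J) hJ (fun j => by
      split_ifs with h
      · rw [abs_zero]
        positivity
      · refine (sg_mean hp hr hpr j).trans ?_
        have : (r : ℝ) / 2 ^ j ≤ r / 2 ^ J := by
          refine div_le_div_of_nonneg_left (by positivity) (by positivity) ?_
          exact pow_le_pow_right₀ (by norm_num) (by omega)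
        linarith) hG.1 hG'.1 k
  have s6 := mul_close (abs_bin_le (k := k) hg) (abs_bin_le (k := k) hG'.1)
    ((abs_sub_comm _ _).trans_le (bin_sm hL hg k)) ((abs_sub_comm _ _).trans_le (bin_sm hL hg' k))
  have e6 : 2 * (4 * (L : ℝ) / Real.sqrt (k + 1)) = 8 * L / Real.sqrt (k + 1) := by ring
  rw [e6] at s6
  have t1 := abs_le.mp s1
  have t2 := abs_le.mp s2
  have t3 := abs_le.mp s3
  have t4 := abs_le.mp s4
  have t5 := abs_le.mp s5
  have t6 := abs_le.mp s6
  rw [abs_le]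
  constructor
  · linarith [t1.1, t2.1, t3.1, t4.1, t5.1, t6.1]
  · linarith [t1.2, t2.2, t3.2, t4.2, t5.2, t6.2]


theorem slow_one {δ : ℝ} (hδ : 0 ≤ δ) : Slow δ (fun _ => 1) :=
  ⟨fun x => by simp, fun x => by simpa using hδ, fun x => by norm_num; positivity⟩

theorem single_bound_p {p r : ℕ} (hp : Odd p) {C : ℝ} (hC0 : 0 ≤ C)
    (hC : ShiftBound p r C) (L : ℕ) (hL : 1 ≤ L)
    {k c d : ℕ} (hc : c ≤ p) (hd : d ≤ r) {g : ℕ → ℝ} (hg : ∀ x, |g x| ≤ 1) :
    |av k (fun n => g (ds (p * (2 ^ k + n) + c))) - bin k g| ≤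
      2 * L * (C / Real.sqrt (k + 1)) + (2 * p + 2 * r) * (2 / L) + 4 * L / Real.sqrt (k + 1) := by
  have hδ : (0 : ℝ) ≤ 2 / L := by positivity
  have hG := sm_slow hL hg
  simp only [ds_block]
  have s1 := smooth_x hC0 hC (k := k) hc hd hg
    (h := fun c' d' y => 1) (fun c' d' y => by simp) (fun c' => ds (p + c')) hL
  have s3 := drop_top (k := k) hc hd hδ hG (slow_one hδ)
  simp only [mul_one] at s1 s3
  have s4 := av_perm hp c k (fun n => sm L g (ds n))
  rw [av_ds] at s4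
  rw [s4] at s3
  have s5 := bin_sm hL hg k
  have t1 := abs_le.mp s1
  have t3 := abs_le.mp s3
  have t5 := abs_le.mp s5
  rw [abs_le]
  constructor
  · linarith [t1.1, t3.1, t5.2]
  · linarith [t1.2, t3.2, t5.1]

theorem single_bound_r {p r : ℕ} (hr : Odd r) {C : ℝ} (hC0 : 0 ≤ C)
    (hC : ShiftBound p r C) (L : ℕ) (hL : 1 ≤ L)
    {k c d : ℕ} (hc : c ≤ p) (hd : d ≤ r) {g : ℕ → ℝ} (hg : ∀ x, |g x| ≤ 1) :
    |av k (fun n => g (ds (r * (2 ^ k + n) + d))) - bin k g| ≤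
      2 * L * (C / Real.sqrt (k + 1)) + (2 * p + 2 * r) * (2 / L) + 4 * L / Real.sqrt (k + 1) := by
  have hδ : (0 : ℝ) ≤ 2 / L := by positivity
  have hG := sm_slow hL hg
  simp only [ds_block]
  have s1 := smooth_y hC0 hC (k := k) hc hd hg
    (h := fun c' d' y => 1) (fun c' d' y => by simp) (fun c' => ds (r + c')) hL
  have s3 := drop_top (k := k) hc hd hδ (slow_one hδ) hG
  simp only [one_mul] at s1 s3
  have s4 := av_perm hr d k (fun n => sm L g (ds n))
  rw [av_ds] at s4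
  rw [s4] at s3
  have s5 := bin_sm hL hg k
  have t1 := abs_le.mp s1
  have t3 := abs_le.mp s3
  have t5 := abs_le.mp s5
  rw [abs_le]
  constructor
  · linarith [t1.1, t3.1, t5.2]
  · linarith [t1.2, t3.2, t5.1]

/-- the choice of the smoothing scale -/
theorem choose_scale {ε D R k' : ℝ} (hε : 0 < ε) (hD : D = 2 / ε) (hR : 1 ≤ R) (hk : k' ≤ R ^ 2)
    (hk0 : 0 ≤ k') {L : ℝ} (h1 : ε * R ≤ L) (h2 : L ≤ ε * R + 1) {C P t J q y : ℝ} (hC : 0 ≤ C)
    (hP : 0 ≤ P) (ht : 0 ≤ t) (hJ : 0 ≤ J) (hq : 0 ≤ q) :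
    4 * L * (C / R) + P * (2 / L) +
      (k' * (t * (2 / L) ^ 3 + q * (2 / L) ^ 2) + (J + t) * (2 / L) ^ 2) + y + 8 * L / R ≤
    y + (4 * C + 8) * ε + q * D ^ 2 +
      (4 * C + 8 + P * D + t * D ^ 3 + (J + t) * D ^ 2) / R := by
  have hR0 : 0 < R := by linarith
  have hL0 : 0 < L := lt_of_lt_of_le (by positivity) h1
  have hD0 : 0 < D := by rw [hD]; positivity
  have a1 : L / R ≤ ε + 1 / R := by
    rw [div_le_iff₀ hR0, add_mul, one_div, inv_mul_cancel₀ hR0.ne']
    exact h2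
  have a2 : 2 / L ≤ D / R := by
    rw [hD, div_div, div_le_div_iff_of_pos_left (by norm_num) hL0 (by positivity)]
    exact h1
  have a20 : 0 ≤ 2 / L := by positivity
  have a3 : (2 / L) ^ 2 ≤ D ^ 2 / R ^ 2 := by
    rw [← div_pow]
    exact pow_le_pow_left₀ a20 a2 2
  have a4 : (2 / L) ^ 3 ≤ D ^ 3 / R ^ 3 := by
    rw [← div_pow]
    exact pow_le_pow_left₀ a20 a2 3
  have a5 : 1 / R ^ 2 ≤ 1 / R := by
    rw [div_le_div_iff_of_pos_left (by norm_num) (by positivity) hR0]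
    nlinarith
  have b1 : 4 * L * (C / R) ≤ 4 * C * ε + 4 * C / R := by
    calc 4 * L * (C / R) = 4 * C * (L / R) := by ring
      _ ≤ 4 * C * (ε + 1 / R) := mul_le_mul_of_nonneg_left a1 (by positivity)
      _ = 4 * C * ε + 4 * C / R := by ring
  have b2 : P * (2 / L) ≤ P * D / R := by
    calc P * (2 / L) ≤ P * (D / R) := mul_le_mul_of_nonneg_left a2 hP
      _ = P * D / R := by ring
  have b3 : k' * (t * (2 / L) ^ 3) ≤ t * D ^ 3 / R := by
    calc k' * (t * (2 / L) ^ 3) ≤ R ^ 2 * (t * (D ^ 3 / R ^ 3)) :=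
          mul_le_mul hk (mul_le_mul_of_nonneg_left a4 ht) (by positivity) (by positivity)
      _ = t * D ^ 3 / R := by
          field_simp
  have b4 : k' * (q * (2 / L) ^ 2) ≤ q * D ^ 2 := by
    calc k' * (q * (2 / L) ^ 2) ≤ R ^ 2 * (q * (D ^ 2 / R ^ 2)) :=
          mul_le_mul hk (mul_le_mul_of_nonneg_left a3 hq) (by positivity) (by positivity)
      _ = q * D ^ 2 := by
          field_simp
  have b5 : (J + t) * (2 / L) ^ 2 ≤ (J + t) * D ^ 2 / R := by
    calc (J + t) * (2 / L) ^ 2 ≤ (J + t) * (D ^ 2 / R ^ 2) :=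
          mul_le_mul_of_nonneg_left a3 (by positivity)
      _ = (J + t) * D ^ 2 * (1 / R ^ 2) := by ring
      _ ≤ (J + t) * D ^ 2 * (1 / R) := mul_le_mul_of_nonneg_left a5 (by positivity)
      _ = (J + t) * D ^ 2 / R := by ring
  have b6 : 8 * L / R ≤ 8 * ε + 8 / R := by
    calc 8 * L / R = 8 * (L / R) := by ring
      _ ≤ 8 * (ε + 1 / R) := mul_le_mul_of_nonneg_left a1 (by norm_num)
      _ = 8 * ε + 8 / R := by ring
  have e : (4 * C + 8 + P * D + t * D ^ 3 + (J + t) * D ^ 2) / R =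
      4 * C / R + 8 / R + P * D / R + t * D ^ 3 / R + (J + t) * D ^ 2 / R := by ring
  rw [e]
  rw [mul_add k']
  linarith

theorem tendsto_div_sqrt (K : ℝ) :
    Tendsto (fun k : ℕ => K / Real.sqrt ((k : ℝ) + 1)) atTop (𝓝 0) := by
  have h1 : Tendsto (fun k : ℕ => Real.sqrt ((k : ℝ) + 1)) atTop atTop := by
    refine Real.tendsto_sqrt_atTop.comp ?_
    exact tendsto_atTop_add_const_right _ _ tendsto_natCast_atTop_atTop
  exact tendsto_const_nhds.div_atTop h1

/-- the digit sums of `p n + c` and `r n + d` are nearly independent -/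
theorem pair_lemma {p r : ℕ} (hp : Odd p) (hr : Odd r) (hpr : p < r) {ε : ℝ} (hε : 0 < ε) :
    ∀ᶠ k : ℕ in atTop, ∀ c ≤ p, ∀ d ≤ r, ∀ g g' : ℕ → ℝ, (∀ x, |g x| ≤ 1) → (∀ x, |g' x| ≤ 1) →
      |av k (fun n => g (ds (p * (2 ^ k + n) + c)) * g' (ds (r * (2 ^ k + n) + d))) -
        bin k g * bin k g'| ≤ p / r + ε ∧
      |av k (fun n => g (ds (p * (2 ^ k + n) + c))) - bin k g| ≤ ε ∧
      |av k (fun n => g' (ds (r * (2 ^ k + n) + d))) - bin k g'| ≤ ε := by
  obtain ⟨C', hC'⟩ := tv_shift hp hr hpr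
  set C : ℝ := max C' 0 with hCdef
  have hC0 : 0 ≤ C := le_max_right _ _
  have hC : ShiftBound p r C := by
    intro k c d hc hd f hf
    have h := hC' k c d hc hd f hf
    have h1 : C' / Real.sqrt (k + 1) ≤ C / Real.sqrt (k + 1) :=
      div_le_div_of_nonneg_right (le_max_left _ _) (Real.sqrt_nonneg _)
    exact ⟨h.1.trans h1, h.2.trans h1⟩
  have hr0 : (0 : ℝ) < r := by
    have : 0 < r := by omega
    exact_mod_cast this
  have hpr' : (p : ℝ) / r < 1 := by
    rw [div_lt_one hr0]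
    exact_mod_cast hpr
  set ε₁ : ℝ := ε / (4 * (4 * C + 8)) with hε₁
  have hε₁0 : 0 < ε₁ := by positivity
  have q1 : (4 * C + 8) * ε₁ = ε / 4 := by
    rw [hε₁]
    field_simp
  set D : ℝ := 2 / ε₁ with hD
  have hD0 : 0 < D := by positivity
  -- the choice of `t`
  obtain ⟨t, ht⟩ : ∃ t : ℕ, ((p : ℝ) + r + 2) / 2 ^ t * D ^ 2 ≤ ε / 4 := by
    obtain ⟨t, ht⟩ := exists_pow_lt_of_lt_one (show (0 : ℝ) < ε / 4 / (((p : ℝ) + r + 2) * D ^ 2)
      by positivity) (show (1 / 2 : ℝ) < 1 by norm_num)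
    refine ⟨t, ?_⟩
    rw [lt_div_iff₀ (by positivity)] at ht
    have e0 : (1 / 2 : ℝ) ^ t = 1 / 2 ^ t := by rw [div_pow, one_pow]
    have e : ((p : ℝ) + r + 2) / 2 ^ t * D ^ 2 = (1 / 2) ^ t * (((p : ℝ) + r + 2) * D ^ 2) := by
      rw [e0]
      ring
    rw [e]
    exact ht.le
  -- the choice of `J`
  obtain ⟨J, hJ⟩ : ∃ J : ℕ, (r : ℝ) / 2 ^ J ≤ min (ε / 4) (1 - p / r) := by
    have hm : 0 < min (ε / 4) (1 - (p : ℝ) / r) := lt_min (by positivity) (by linarith)
    obtain ⟨J, hJ⟩ := exists_pow_lt_of_lt_one (show (0 : ℝ) < min (ε / 4) (1 - (p : ℝ) / r) / r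
      by positivity) (show (1 / 2 : ℝ) < 1 by norm_num)
    refine ⟨J, ?_⟩
    rw [lt_div_iff₀ hr0] at hJ
    have e0 : (1 / 2 : ℝ) ^ J = 1 / 2 ^ J := by rw [div_pow, one_pow]
    have e : (r : ℝ) / 2 ^ J = (1 / 2) ^ J * r := by
      rw [e0]
      ring
    rw [e]
    exact hJ.le
  have hJ1 : (p : ℝ) / r + r / 2 ^ J ≤ 1 := by linarith [hJ.trans (min_le_right _ _)]
  have hJ2 : (r : ℝ) / 2 ^ J ≤ ε / 4 := hJ.trans (min_le_left _ _)
  set K : ℝ := 4 * C + 8 + (2 * p + 2 * r) * D + t * D ^ 3 + (J + t) * D ^ 2 with hK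
  filter_upwards [(tendsto_div_sqrt K).eventually_le_const (show (0 : ℝ) < ε / 4 by positivity)]
    with k hk c hc d hd g g' hg hg'
  set R : ℝ := Real.sqrt ((k : ℝ) + 1) with hR
  have hR1 : 1 ≤ R := by
    rw [hR]
    exact Real.one_le_sqrt.mpr (by linarith [(Nat.cast_nonneg k : (0 : ℝ) ≤ k)])
  have hR2 : R ^ 2 = (k : ℝ) + 1 := Real.sq_sqrt (by positivity)
  set L : ℕ := ⌈ε₁ * R⌉₊ with hLdef
  have hL1 : ε₁ * R ≤ L := Nat.le_ceil _
  have hL2 : (L : ℝ) ≤ ε₁ * R + 1 := (Nat.ceil_lt_add_one (by positivity)).le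
  have hL : 1 ≤ L := Nat.one_le_iff_ne_zero.mpr (Nat.ceil_pos.mpr (by positivity)).ne'
  have hsc := choose_scale (k' := k) (y := p / r + r / 2 ^ J) hε₁0 hD hR1 (by rw [hR2]; linarith)
    (by positivity) hL1 hL2 hC0 (P := 2 * p + 2 * r) (t := t) (J := J)
    (q := ((p : ℝ) + r + 2) / 2 ^ t) (by positivity) (by positivity) (by positivity)
    (by positivity)
  rw [q1] at hsc
  have hsum : p / r + r / 2 ^ J + ε / 4 + ((p : ℝ) + r + 2) / 2 ^ t * D ^ 2 + K / R ≤
      p / r + ε := by linarith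
  have hsc2 := choose_scale (k' := 0) (y := 0) hε₁0 hD hR1 (by positivity)
    le_rfl hL1 hL2 hC0 (P := 2 * p + 2 * r) (t := 0) (J := 0)
    (q := 0) (by positivity) le_rfl le_rfl le_rfl
  rw [q1] at hsc2
  have hK2 : (4 * C + 8 + (2 * (p : ℝ) + 2 * r) * D + 0 * D ^ 3 + (0 + 0) * D ^ 2) / R ≤ K / R := by
    refine div_le_div_of_nonneg_right ?_ (by positivity)
    rw [hK]
    have h1 : 0 ≤ (t : ℝ) * D ^ 3 := by positivity
    have h2 : 0 ≤ ((J : ℝ) + t) * D ^ 2 := by positivity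
    linarith
  have hsingle : 2 * L * (C / R) + (2 * p + 2 * r) * (2 / (L : ℝ)) + 4 * L / R ≤ ε := by
    have h1 : 0 ≤ 2 * L * (C / R) := by positivity
    have h2 : 0 ≤ 4 * L / R := by positivity
    have e1 : 4 * L * (C / R) = 2 * L * (C / R) + 2 * L * (C / R) := by ring
    have e2 : 8 * L / R = 4 * L / R + 4 * L / R := by ring
    rw [e1, e2] at hsc2
    linarith
  refine ⟨?_, ?_, ?_⟩
  · exact (pair_bound hp hr hpr hC0 hC t J L hL hJ1 hc hd hg hg').trans (hsc.trans hsum)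
  · exact (single_bound_p hp hC0 hC L hL hc hd hg).trans hsingle
  · exact (single_bound_r hr hC0 hC L hL hc hd hg').trans hsingle

end Pool.Agent.Lib.MP_3e612f_nt.DS
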