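import Pool.Agent.Lib.MP_3e612f_nt.DSBase
import Pool.Agent.Lib.MP_3e612f_nt.DSBin

/-!
The joint law of the digit sums of `p n + c` and `r n + d` is nearly invariant under unit shifts.
-/

set_option autoImplicit false

namespace Pool.Agent.Lib.MP_3e612f_nt.DS

open Filter Topology

/-- one step of the digit process: carries `c`, `d`, digit sums `x`, `y` -/
noncomputable def stp (p r : ℕ) (f : ℕ → ℕ → ℕ → ℕ → ℝ) (c d x y : ℕ) : ℝ :=
  (f (c / 2) (d / 2) (x + c % 2) (y + d % 2) +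
    f ((c + p) / 2) ((d + r) / 2) (x + (c + p) % 2) (y + (d + r) % 2)) / 2

theorem stp_apply (p r : ℕ) (f : ℕ → ℕ → ℕ → ℕ → ℝ) (c d x y : ℕ) : stp p r f c d x y =
    (f (c / 2) (d / 2) (x + c % 2) (y + d % 2) +
      f ((c + p) / 2) ((d + r) / 2) (x + (c + p) % 2) (y + (d + r) % 2)) / 2 := rfl

theorem A_mod (k a : ℕ) : a % 2 ^ (k + 1) = 2 * (a / 2 % 2 ^ k) + a % 2 := by
  rw [pow_succ, mul_comm (2 ^ k) 2, Nat.mod_mul]
  omega

theorem A_ds_mod (k a : ℕ) : ds (a % 2 ^ (k + 1)) = a % 2 + ds (a / 2 % 2 ^ k) := by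
  rw [A_mod, ds_bit _ _ (Nat.mod_lt _ (by norm_num)), add_comm]

theorem A_div (k a : ℕ) : a / 2 ^ (k + 1) = a / 2 / 2 ^ k := by
  rw [pow_succ, mul_comm (2 ^ k) 2, Nat.div_div_eq_div_mul]

theorem stp_iter (p r k : ℕ) (f : ℕ → ℕ → ℕ → ℕ → ℝ) (c d x y : ℕ) :
    (stp p r)^[k] f c d x y = av k (fun n => f ((p * n + c) / 2 ^ k) ((r * n + d) / 2 ^ k)
      (x + ds ((p * n + c) % 2 ^ k)) (y + ds ((r * n + d) % 2 ^ k))) := by
  induction k generalizing c d x y with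
  | zero =>
    unfold av
    simp [ds_zero, Nat.mod_one]
  | succ k ih =>
    rw [Function.iterate_succ_apply', av_succ, stp_apply, ih, ih]
    congr 2
    · refine av_congr fun n _ => ?_
      have e1 : (p * (2 * n) + c) / 2 = p * n + c / 2 := by
        rw [show p * (2 * n) + c = c + 2 * (p * n) by ring, Nat.add_mul_div_left _ _ (by norm_num),
          add_comm]
      have e2 : (r * (2 * n) + d) / 2 = r * n + d / 2 := by
        rw [show r * (2 * n) + d = d + 2 * (r * n) by ring, Nat.add_mul_div_left _ _ (by norm_num),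
          add_comm]
      have e3 : (p * (2 * n) + c) % 2 = c % 2 := by
        rw [show p * (2 * n) + c = c + 2 * (p * n) by ring, Nat.add_mul_mod_self_left]
      have e4 : (r * (2 * n) + d) % 2 = d % 2 := by
        rw [show r * (2 * n) + d = d + 2 * (r * n) by ring, Nat.add_mul_mod_self_left]
      rw [A_div, A_div, A_ds_mod, A_ds_mod, e1, e2, e3, e4, add_assoc, add_assoc]
    · refine av_congr fun n _ => ?_
      have e1 : (p * (2 * n + 1) + c) / 2 = p * n + (c + p) / 2 := by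
        rw [show p * (2 * n + 1) + c = (c + p) + 2 * (p * n) by ring,
          Nat.add_mul_div_left _ _ (by norm_num), add_comm]
      have e2 : (r * (2 * n + 1) + d) / 2 = r * n + (d + r) / 2 := by
        rw [show r * (2 * n + 1) + d = (d + r) + 2 * (r * n) by ring,
          Nat.add_mul_div_left _ _ (by norm_num), add_comm]
      have e3 : (p * (2 * n + 1) + c) % 2 = (c + p) % 2 := by
        rw [show p * (2 * n + 1) + c = (c + p) + 2 * (p * n) by ring, Nat.add_mul_mod_self_left]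
      have e4 : (r * (2 * n + 1) + d) % 2 = (d + r) % 2 := by
        rw [show r * (2 * n + 1) + d = (d + r) + 2 * (r * n) by ring, Nat.add_mul_mod_self_left]
      rw [A_div, A_div, A_ds_mod, A_ds_mod, e1, e2, e3, e4, add_assoc, add_assoc]

/-- the shift -/
def Sh (v w : ℕ) (f : ℕ → ℕ → ℕ → ℕ → ℝ) (c d x y : ℕ) : ℝ := f c d (x + v) (y + w)

/-- the difference -/
noncomputable def Df (v w : ℕ) (f : ℕ → ℕ → ℕ → ℕ → ℝ) (c d x y : ℕ) : ℝ :=
  f c d x y - f c d (x + v) (y + w)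

/-- the average -/
noncomputable def Bv (v w : ℕ) (f : ℕ → ℕ → ℕ → ℕ → ℝ) (c d x y : ℕ) : ℝ :=
  (f c d x y + f c d (x + v) (y + w)) / 2

theorem Bv_apply (v w : ℕ) (f : ℕ → ℕ → ℕ → ℕ → ℝ) (c d x y : ℕ) :
    Bv v w f c d x y = (f c d x y + f c d (x + v) (y + w)) / 2 := rfl

theorem stp_Bv (p r v w : ℕ) (f : ℕ → ℕ → ℕ → ℕ → ℝ) :
    stp p r (Bv v w f) = Bv v w (stp p r f) := by
  funext c d x y
  unfold stp Bv
  simp only [add_right_comm _ v, add_right_comm _ w]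
  ring

theorem stp_Df (p r v w : ℕ) (f : ℕ → ℕ → ℕ → ℕ → ℝ) :
    stp p r (Df v w f) = Df v w (stp p r f) := by
  funext c d x y
  unfold stp Df
  simp only [add_right_comm _ v, add_right_comm _ w]
  ring

theorem stp_iter_Bv (p r v w k : ℕ) (f : ℕ → ℕ → ℕ → ℕ → ℝ) :
    (stp p r)^[k] (Bv v w f) = Bv v w ((stp p r)^[k] f) := by
  induction k with
  | zero => rfl
  | succ k ih => rw [Function.iterate_succ_apply', ih, stp_Bv, Function.iterate_succ_apply']

theorem stp_iter_Df (p r v w k : ℕ) (f : ℕ → ℕ → ℕ → ℕ → ℝ) :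
    (stp p r)^[k] (Df v w f) = Df v w ((stp p r)^[k] f) := by
  induction k with
  | zero => rfl
  | succ k ih => rw [Function.iterate_succ_apply', ih, stp_Df, Function.iterate_succ_apply']

theorem stp_bound {p r : ℕ} {f : ℕ → ℕ → ℕ → ℕ → ℝ} {C : ℝ} (h : ∀ c d x y, |f c d x y| ≤ C)
    (c d x y : ℕ) : |stp p r f c d x y| ≤ C := by
  unfold stp
  rw [abs_div, abs_of_pos (by norm_num : (0 : ℝ) < 2), div_le_iff₀ (by norm_num)]
  refine (abs_add_le _ _).trans ?_
  linarith [h (c / 2) (d / 2) (x + c % 2) (y + d % 2),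
    h ((c + p) / 2) ((d + r) / 2) (x + (c + p) % 2) (y + (d + r) % 2)]

theorem stp_iter_bound {p r : ℕ} {f : ℕ → ℕ → ℕ → ℕ → ℝ} {C : ℝ} (h : ∀ c d x y, |f c d x y| ≤ C)
    (k : ℕ) (c d x y : ℕ) : |(stp p r)^[k] f c d x y| ≤ C := by
  induction k generalizing c d x y with
  | zero => exact h c d x y
  | succ k ih =>
    rw [Function.iterate_succ_apply']
    exact stp_bound ih c d x y

theorem bin_sub (k : ℕ) (G H : ℕ → ℝ) : bin k (fun i => G i - H i) = bin k G - bin k H := by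
  unfold bin
  rw [← sub_div, ← Finset.sum_sub_distrib]
  congr 1
  exact Finset.sum_congr rfl fun i _ => by ring

theorem bin_zero (G : ℕ → ℝ) : bin 0 G = G 0 := by
  unfold bin
  simp

theorem Bv_iter (v w j : ℕ) (f : ℕ → ℕ → ℕ → ℕ → ℝ) (c d x y : ℕ) :
    (Bv v w)^[j] f c d x y = bin j (fun i => f c d (x + i * v) (y + i * w)) := by
  induction j generalizing x y with
  | zero => simp [bin_zero]
  | succ j ih =>
    rw [Function.iterate_succ_apply', bin_succ, Bv_apply, ih, ih]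
    have e : (fun i => f c d (x + v + i * v) (y + w + i * w)) =
        fun i => f c d (x + (i + 1) * v) (y + (i + 1) * w) := by
      funext i
      congr 1 <;> ring
    rw [e]

theorem A_base {v w : ℕ} {f : ℕ → ℕ → ℕ → ℕ → ℝ} (hf : ∀ c d x y, |f c d x y| ≤ 1)
    (j c d x y : ℕ) : |(Bv v w)^[j] (Df v w f) c d x y| ≤ 2 / Real.sqrt (j + 1) := by
  rw [Bv_iter]
  have e : (fun i => Df v w f c d (x + i * v) (y + i * w)) = fun i =>
      (fun i => f c d (x + i * v) (y + i * w)) i -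
        (fun i => f c d (x + i * v) (y + i * w)) (i + 1) := by
    funext i
    unfold Df
    have e1 : x + i * v + v = x + (i + 1) * v := by ring
    have e2 : y + i * w + w = y + (i + 1) * w := by ring
    simp only [e1, e2]
  rw [e, bin_sub j (fun i => f c d (x + i * v) (y + i * w))
    (fun i => (fun i => f c d (x + i * v) (y + i * w)) (i + 1))]
  exact bin_shift (G := fun i => f c d (x + i * v) (y + i * w)) (fun i => hf _ _ _ _) j

theorem A_concave {κ a b : ℝ} (h0 : 0 ≤ κ) (h1 : κ ≤ 1) (ha : 0 ≤ a) (hb : 0 ≤ b) :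
    κ * Real.sqrt a + (1 - κ) * Real.sqrt b ≤ Real.sqrt (κ * a + (1 - κ) * b) := by
  apply Real.le_sqrt_of_sq_le
  have h2 := Real.sq_sqrt ha
  have h3 := Real.sq_sqrt hb
  nlinarith [mul_nonneg (mul_nonneg h0 (sub_nonneg.mpr h1))
    (sq_nonneg (Real.sqrt a - Real.sqrt b))]

theorem A_rat {κ z : ℝ} (h0 : 0 ≤ κ) (hz : 1 ≤ z) :
    κ * (1 / (z + 1)) + (1 - κ) * (1 / z) ≤ 1 / (z + κ / 2) := by
  have h1 : 0 < z := by linarith
  have h2 : 0 < z + 1 := by linarith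
  have h3 : 0 < z + κ / 2 := by linarith
  have e : κ * (1 / (z + 1)) + (1 - κ) * (1 / z) = (z + 1 - κ) / (z * (z + 1)) := by
    field_simp
    ring
  rw [e, div_le_div_iff₀ (by positivity) h3]
  nlinarith [mul_nonneg h0 h0, mul_nonneg h0 (sub_nonneg.mpr hz)]

/-- two words which lead to the same carries and whose digit sums differ by `(v, w)` -/
def Swap (p r W w1 w2 v w : ℕ) : Prop :=
  w1 < 2 ^ W ∧ w2 < 2 ^ W ∧ w1 ≠ w2 ∧ ∀ c ≤ p, ∀ d ≤ r,
    (p * w2 + c) / 2 ^ W = (p * w1 + c) / 2 ^ W ∧ (r * w2 + d) / 2 ^ W = (r * w1 + d) / 2 ^ W ∧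
    ds ((p * w2 + c) % 2 ^ W) = ds ((p * w1 + c) % 2 ^ W) + v ∧
    ds ((r * w2 + d) % 2 ^ W) = ds ((r * w1 + d) % 2 ^ W) + w

theorem A_carry {p c n W : ℕ} (hc : c ≤ p) (hn : n < 2 ^ W) : (p * n + c) / 2 ^ W ≤ p := by
  apply Nat.le_of_lt_succ
  rw [Nat.div_lt_iff_lt_mul (by positivity)]
  have : p * n + p ≤ p * 2 ^ W := by
    have : n + 1 ≤ 2 ^ W := hn
    nlinarith
  have h2 : 0 < 2 ^ W := by positivity
  nlinarith

theorem A_windows {p r W w1 w2 v w : ℕ} (hS : Swap p r W w1 w2 v w)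
    {f : ℕ → ℕ → ℕ → ℕ → ℝ} (hf : ∀ c d x y, |f c d x y| ≤ 1) (m : ℕ) :
    ∀ (j c d x y : ℕ), c ≤ p → d ≤ r →
      |(stp p r)^[m * W] ((Bv v w)^[j] (Df v w f)) c d x y| ≤
        2 * Real.sqrt (1 / (j + 1 + 2 / 2 ^ W * m / 2)) := by
  obtain ⟨h1, h2, hne, hS⟩ := hS
  have hW1 : 2 ≤ 2 ^ W := by omega
  have hWr : (2 : ℝ) ≤ 2 ^ W := by exact_mod_cast hW1
  induction m with
  | zero =>
    intro j c d x y _ _
    simp only [zero_mul, Function.iterate_zero, id_eq, Nat.cast_zero, mul_zero, zero_div, add_zero]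
    refine (A_base hf j c d x y).trans (le_of_eq ?_)
    rw [Real.sqrt_div zero_le_one, Real.sqrt_one]
    ring
  | succ m ih =>
    intro j c d x y hc hd
    rw [Nat.succ_mul, add_comm (m * W) W, Function.iterate_add_apply]
    set g := (Bv v w)^[j] (Df v w f) with hg
    set h := (stp p r)^[m * W] g with hh
    rw [stp_iter]
    set D0 : ℝ := 1 / (j + 1 + 2 / 2 ^ W * m / 2) with hD0
    set D1 : ℝ := 1 / ((j + 1 : ℕ) + 1 + 2 / 2 ^ W * m / 2) with hD1
    have hD0n : 0 ≤ D0 := by positivity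
    have hD1n : 0 ≤ D1 := by positivity
    -- the two special words
    set u : ℕ → ℝ := fun n => h ((p * n + c) / 2 ^ W) ((r * n + d) / 2 ^ W)
      (x + ds ((p * n + c) % 2 ^ W)) (y + ds ((r * n + d) % 2 ^ W)) with hu
    obtain ⟨e1, e2, e3, e4⟩ := hS c hc d hd
    have hpair : |u w1 + u w2| ≤ 2 * (2 * Real.sqrt D1) := by
      have e5 : u w1 + u w2 = 2 * (stp p r)^[m * W] ((Bv v w)^[j + 1] (Df v w f))
          ((p * w1 + c) / 2 ^ W) ((r * w1 + d) / 2 ^ W)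
          (x + ds ((p * w1 + c) % 2 ^ W)) (y + ds ((r * w1 + d) % 2 ^ W)) := by
        rw [Function.iterate_succ_apply', stp_iter_Bv, hu]
        dsimp only
        rw [e1, e2, e3, e4, ← hg, ← hh]
        unfold Bv
        rw [← add_assoc, ← add_assoc]
        ring
      rw [e5, abs_mul, abs_of_pos (by norm_num : (0 : ℝ) < 2)]
      exact mul_le_mul_of_nonneg_left (ih (j + 1) _ _ _ _ (A_carry hc h1) (A_carry hd h1))
        (by norm_num)
    have hother : ∀ n < 2 ^ W, |u n| ≤ 2 * Real.sqrt D0 := fun n hn =>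
      ih j _ _ _ _ (A_carry hc hn) (A_carry hd hn)
    have hsum : |∑ n ∈ Finset.range (2 ^ W), u n| ≤
        2 * (2 * Real.sqrt D1) + (2 ^ W - 2) * (2 * Real.sqrt D0) := by
      have hm1 : w1 ∈ Finset.range (2 ^ W) := Finset.mem_range.mpr h1
      have hm2 : w2 ∈ (Finset.range (2 ^ W)).erase w1 :=
        Finset.mem_erase.mpr ⟨hne.symm, Finset.mem_range.mpr h2⟩
      rw [← Finset.add_sum_erase _ _ hm1, ← Finset.add_sum_erase _ _ hm2, ← add_assoc]
      refine (abs_add_le _ _).trans (add_le_add hpair ?_)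
      refine (Finset.abs_sum_le_sum_abs _ _).trans ?_
      calc ∑ n ∈ ((Finset.range (2 ^ W)).erase w1).erase w2, |u n|
          ≤ ∑ n ∈ ((Finset.range (2 ^ W)).erase w1).erase w2, 2 * Real.sqrt D0 := by
            refine Finset.sum_le_sum fun n hn => hother n ?_
            exact Finset.mem_range.mp (Finset.mem_of_mem_erase (Finset.mem_of_mem_erase hn))
        _ = (2 ^ W - 2) * (2 * Real.sqrt D0) := by
            rw [Finset.sum_const, Finset.card_erase_of_mem hm2, Finset.card_erase_of_mem hm1,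
              Finset.card_range, nsmul_eq_mul]
            congr 1
            have : 2 ^ W - 1 - 1 = 2 ^ W - 2 := by omega
            rw [this, Nat.cast_sub hW1]
            push_cast
            ring
    have hav : |av W u| ≤ 2 / 2 ^ W * (2 * Real.sqrt D1) +
        (1 - 2 / 2 ^ W) * (2 * Real.sqrt D0) := by
      unfold av
      rw [abs_div, abs_of_pos (by positivity : (0 : ℝ) < 2 ^ W), div_le_iff₀ (by positivity)]
      refine hsum.trans (le_of_eq ?_)
      field_simp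
    refine hav.trans ?_
    have hκ0 : (0 : ℝ) ≤ 2 / 2 ^ W := by positivity
    have hκ1 : (2 : ℝ) / 2 ^ W ≤ 1 := by
      rw [div_le_one (by positivity)]
      exact hWr
    have h3 := A_concave hκ0 hκ1 hD1n hD0n
    have h4 : 2 / 2 ^ W * D1 + (1 - 2 / 2 ^ W) * D0 ≤
        1 / (j + 1 + 2 / 2 ^ W * (m + 1 : ℕ) / 2) := by
      have h5 := A_rat (κ := 2 / 2 ^ W) (z := j + 1 + 2 / 2 ^ W * m / 2) hκ0 (by
        have : (0 : ℝ) ≤ 2 / 2 ^ W * m / 2 := by positivity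
        have : (0 : ℝ) ≤ (j : ℝ) := Nat.cast_nonneg j
        linarith)
      refine le_trans (le_of_eq ?_) (h5.trans (le_of_eq ?_))
      · rw [hD0, hD1]
        push_cast
        congr 3
        ring
      · push_cast
        congr 1
        ring
    calc 2 / 2 ^ W * (2 * Real.sqrt D1) + (1 - 2 / 2 ^ W) * (2 * Real.sqrt D0)
        = 2 * (2 / 2 ^ W * Real.sqrt D1 + (1 - 2 / 2 ^ W) * Real.sqrt D0) := by ring
      _ ≤ 2 * Real.sqrt (2 / 2 ^ W * D1 + (1 - 2 / 2 ^ W) * D0) :=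
          mul_le_mul_of_nonneg_left h3 (by norm_num)
      _ ≤ _ := mul_le_mul_of_nonneg_left (Real.sqrt_le_sqrt h4) (by norm_num)

theorem A_shift {p r W w1 w2 v w : ℕ} (hS : Swap p r W w1 w2 v w) :
    ∃ C : ℝ, 0 ≤ C ∧ ∀ k c d : ℕ, c ≤ p → d ≤ r → ∀ f : ℕ → ℕ → ℕ → ℕ → ℝ,
      (∀ c' d' x y, |f c' d' x y| ≤ 1) → ∀ x y : ℕ,
        |(stp p r)^[k] f c d x y - (stp p r)^[k] f c d (x + v) (y + w)| ≤
          C / Real.sqrt (k + 1) := by
  have hW0 : 0 < W := by
    rcases Nat.eq_zero_or_pos W with h | h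
    · subst h
      have := hS.1
      have := hS.2.1
      have := hS.2.2.1
      simp only [pow_zero] at *
      omega
    · exact h
  have hWr : (0 : ℝ) < W := by exact_mod_cast hW0
  refine ⟨2 * Real.sqrt (2 ^ W * W), by positivity, fun k c d hc hd f hf x y => ?_⟩
  set m := k / W with hm
  have hk : m * W + k % W = k := Nat.div_add_mod' k W
  have h1 := A_windows hS (f := (stp p r)^[k % W] f) (stp_iter_bound hf _) m 0 c d x y hc hd
  simp only [Function.iterate_zero, id_eq] at h1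
  rw [← stp_iter_Df, ← Function.iterate_add_apply, hk, stp_iter_Df] at h1
  refine h1.trans ?_
  have e0 : 2 * Real.sqrt (2 ^ W * W) / Real.sqrt (k + 1) =
      2 * Real.sqrt (2 ^ W * W / (k + 1)) := by
    rw [Real.sqrt_div (by positivity), mul_div_assoc]
  rw [e0]
  refine mul_le_mul_of_nonneg_left (Real.sqrt_le_sqrt ?_) (by norm_num)
  have hlt : k < W * (m + 1) := Nat.lt_mul_div_succ k hW0
  have hk1 : (k : ℝ) + 1 ≤ W * (m + 1) := by exact_mod_cast hlt
  have hp : (0 : ℝ) < 2 ^ W := by positivity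
  have h1W : (1 : ℝ) ≤ 2 ^ W := one_le_pow₀ (by norm_num)
  rw [div_le_div_iff₀ (by positivity) (by positivity)]
  push_cast
  have e : (2 : ℝ) ^ W * W * (0 + 1 + 2 / 2 ^ W * m / 2) = W * (2 ^ W + m) := by
    field_simp
    ring
  rw [e, one_mul]
  have h0m : (0 : ℝ) ≤ m := Nat.cast_nonneg m
  nlinarith

theorem A_word {p r A b u1 u2 v w : ℕ} (hp : p ≤ r) (hr : 0 < r) (hb : r < 2 ^ b)
    (h1 : r * u1 < 2 ^ A) (h2 : r * u2 < 2 ^ A) (hne : u1 ≠ u2)
    (hv : ds (p * u2) = ds (p * u1) + v) (hw : ds (r * u2) = ds (r * u1) + w) :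
    Swap p r (A + b) (2 ^ b * u1) (2 ^ b * u2) v w := by
  have hlt : ∀ {q u c : ℕ}, q ≤ r → r * u < 2 ^ A → c ≤ q → q * (2 ^ b * u) + c < 2 ^ (A + b) := by
    intro q u c hq hu hc
    have h3 : q * u < 2 ^ A := (Nat.mul_le_mul_right u hq).trans_lt hu
    have h4 : c < 2 ^ b := by omega
    rw [pow_add]
    calc q * (2 ^ b * u) + c < q * (2 ^ b * u) + 2 ^ b := by omega
      _ = (q * u + 1) * 2 ^ b := by ring
      _ ≤ 2 ^ A * 2 ^ b := Nat.mul_le_mul_right _ h3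
  have hds : ∀ {q u c : ℕ}, c ≤ q → q ≤ r → ds (q * (2 ^ b * u) + c) = ds c + ds (q * u) := by
    intro q u c hc hq
    have e : q * (2 ^ b * u) + c = c + 2 ^ b * (q * u) := by ring
    rw [e, ds_add_mul _ (by omega)]
  have hsm : ∀ {u : ℕ}, r * u < 2 ^ A → 2 ^ b * u < 2 ^ (A + b) := by
    intro u hu
    have h3 : u < 2 ^ A := (Nat.le_mul_of_pos_left u hr).trans_lt hu
    rw [pow_add, mul_comm]
    exact Nat.mul_lt_mul_of_pos_right h3 (by positivity)
  refine ⟨hsm h1, hsm h2, fun h => hne (Nat.eq_of_mul_eq_mul_left (by positivity) h), ?_⟩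
  intro c hc d hd
  rw [Nat.div_eq_of_lt (hlt hp h2 hc), Nat.div_eq_of_lt (hlt hp h1 hc),
    Nat.div_eq_of_lt (hlt le_rfl h2 hd), Nat.div_eq_of_lt (hlt le_rfl h1 hd),
    Nat.mod_eq_of_lt (hlt hp h2 hc), Nat.mod_eq_of_lt (hlt hp h1 hc),
    Nat.mod_eq_of_lt (hlt le_rfl h2 hd), Nat.mod_eq_of_lt (hlt le_rfl h1 hd),
    hds hc hp, hds hc hp, hds hd le_rfl, hds hd le_rfl, hv, hw]
  exact ⟨rfl, rfl, by ring, by ring⟩

theorem ds_compl (B m : ℕ) (hm : m < 2 ^ B) : ds (2 ^ B - 1 - m) + ds m = B := by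
  induction B generalizing m with
  | zero =>
    have : m = 0 := by simpa using hm
    subst this
    simp [ds_zero]
  | succ B ih =>
    have h1 : m / 2 < 2 ^ B := by
      rw [pow_succ] at hm
      omega
    have e : 2 ^ (B + 1) - 1 - m = 2 * (2 ^ B - 1 - m / 2) + (1 - m % 2) := by
      rw [pow_succ]
      rw [pow_succ] at hm
      omega
    rw [e, ds_bit _ _ (by omega), ds_rec m]
    have := ih (m / 2) h1
    omega

theorem ds_mul_ones {a B : ℕ} (ha : 1 ≤ a) (hB : a ≤ 2 ^ B) : ds (a * (2 ^ B - 1)) = B := by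
  have e : a * (2 ^ B - 1) = (2 ^ B - 1 - (a - 1)) + 2 ^ B * (a - 1) := by
    obtain ⟨a, rfl⟩ : ∃ a', a = a' + 1 := ⟨a - 1, by omega⟩
    obtain ⟨M, hM⟩ : ∃ M, 2 ^ B = M + 1 := ⟨2 ^ B - 1, by omega⟩
    rw [hM]
    rw [hM] at hB
    simp only [Nat.add_sub_cancel]
    have : M - a + a = M := Nat.sub_add_cancel (by omega)
    nlinarith
  rw [e, ds_add_mul _ (by omega)]
  exact ds_compl B (a - 1) (by omega)

theorem A_swap11 {p r : ℕ} (hp : 1 ≤ p) (hpr : p ≤ r) : ∃ W w1 w2, Swap p r W w1 w2 1 1 := by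
  obtain ⟨B, hB⟩ : ∃ B, r ≤ 2 ^ B := ⟨r, Nat.lt_two_pow_self.le⟩
  have hB' : r ≤ 2 ^ (B + 1) := hB.trans (Nat.pow_le_pow_right (by norm_num) (by omega))
  have h1 : 1 ≤ 2 ^ B := Nat.one_le_two_pow
  have hlt : 2 ^ B - 1 < 2 ^ (B + 1) - 1 := by
    rw [pow_succ]
    omega
  refine ⟨_, _, _, A_word (A := r * (2 ^ (B + 1) - 1)) (b := r) hpr (by omega)
    Nat.lt_two_pow_self ?_ Nat.lt_two_pow_self (u1 := 2 ^ B - 1) (u2 := 2 ^ (B + 1) - 1)
    hlt.ne ?_ ?_⟩
  · exact (Nat.mul_le_mul_left r hlt.le).trans_lt Nat.lt_two_pow_self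
  · rw [ds_mul_ones hp (hpr.trans hB), ds_mul_ones hp (hpr.trans hB')]
  · rw [ds_mul_ones (hp.trans hpr) hB, ds_mul_ones (hp.trans hpr) hB']

theorem A_swap01 {p r : ℕ} (hr : Odd r) (hpr : p < r) : ∃ W w1 w2, Swap p r W w1 w2 0 1 := by
  have hr0 : 0 < r := by omega
  obtain ⟨a, ha⟩ : ∃ a, r * r < 2 ^ a := ⟨r * r, Nat.lt_two_pow_self⟩
  set u := 2 ^ a / r + 1 with hu
  set s := r - 2 ^ a % r with hs
  have hmod : 2 ^ a % r < r := Nat.mod_lt _ hr0
  have hru : r * u = s + 2 ^ a * 1 := by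
    have := Nat.div_add_mod (2 ^ a) r
    rw [hu, hs]
    have e : r * (2 ^ a / r + 1) = r * (2 ^ a / r) + r := by ring
    omega
  have hs1 : s ≤ r := by omega
  have hrr : r ≤ r * r := Nat.le_mul_of_pos_left r hr0
  have hsa : s < 2 ^ a := by omega
  have hpu : p * u < 2 ^ a := by
    have h1 : r * (p * u) < r * 2 ^ a := by
      have e : r * (p * u) = p * (s + 2 ^ a) := by
        have : r * (p * u) = p * (r * u) := by ring
        rw [this, hru, mul_one]
      rw [e]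
      have h2 : p * s ≤ r * r := Nat.mul_le_mul hpr.le hs1
      have h3 : (p + 1) * 2 ^ a ≤ r * 2 ^ a := Nat.mul_le_mul_right _ hpr
      nlinarith
    exact Nat.lt_of_mul_lt_mul_left h1
  have hpu' : p * u < 2 ^ (a + 1) := hpu.trans_le (Nat.pow_le_pow_right (by norm_num) (by omega))
  have hru' : r * u < 2 ^ (a + 1) := by
    rw [hru, pow_succ]
    omega
  obtain ⟨z, hz⟩ : ∃ z, r * r = 2 * (2 * z) + 1 := by
    obtain ⟨k, rfl⟩ := hr
    refine ⟨k * k + k, by ring⟩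
  have hlt : u + 2 ^ a * r < u + 2 ^ (a + 1) * r := by
    have : 2 ^ a < 2 ^ (a + 1) := Nat.pow_lt_pow_right (by norm_num) (by omega)
    nlinarith
  refine ⟨_, _, _, A_word (A := r * (u + 2 ^ (a + 1) * r)) (b := r) hpr.le hr0
    Nat.lt_two_pow_self ?_ Nat.lt_two_pow_self (u1 := u + 2 ^ a * r) (u2 := u + 2 ^ (a + 1) * r)
    hlt.ne ?_ ?_⟩
  · exact (Nat.mul_le_mul_left r hlt.le).trans_lt Nat.lt_two_pow_self
  · have e1 : p * (u + 2 ^ (a + 1) * r) = p * u + 2 ^ (a + 1) * (p * r) := by ring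
    have e2 : p * (u + 2 ^ a * r) = p * u + 2 ^ a * (p * r) := by ring
    rw [e1, e2, ds_add_mul _ hpu', ds_add_mul _ hpu, add_zero]
  · have e1 : r * (u + 2 ^ (a + 1) * r) = r * u + 2 ^ (a + 1) * (r * r) := by ring
    have e2 : r * (u + 2 ^ a * r) = s + 2 ^ a * (r * r + 1) := by
      have : r * (u + 2 ^ a * r) = r * u + 2 ^ a * (r * r) := by ring
      rw [this, hru]
      ring
    rw [e1, e2, ds_add_mul _ hru', ds_add_mul _ hsa, hru, ds_add_mul _ hsa, ds_one, hz]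
    have e3 : 2 * (2 * z) + 1 + 1 = 2 * (2 * z + 1) := by ring
    rw [e3, ds_two_mul, ds_two_mul_add_one, ds_two_mul_add_one, ds_two_mul]
    ring

theorem A_shift_both {p r : ℕ} (hp : Odd p) (hr : Odd r) (hpr : p < r) :
    ∃ C : ℝ, 0 ≤ C ∧ ∀ k c d : ℕ, c ≤ p → d ≤ r → ∀ f : ℕ → ℕ → ℕ → ℕ → ℝ,
      (∀ c' d' x y, |f c' d' x y| ≤ 1) → ∀ x y : ℕ,
        |(stp p r)^[k] f c d x y - (stp p r)^[k] f c d (x + 1) y| ≤ C / Real.sqrt (k + 1) ∧
        |(stp p r)^[k] f c d x y - (stp p r)^[k] f c d x (y + 1)| ≤ C / Real.sqrt (k + 1) := by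
  obtain ⟨W, w1, w2, h11⟩ := A_swap11 (p := p) (r := r) (by rcases hp with ⟨k, rfl⟩; omega) hpr.le
  obtain ⟨W', w1', w2', h01⟩ := A_swap01 hr hpr
  obtain ⟨C, hC0, hC⟩ := A_shift h11
  obtain ⟨C', hC0', hC'⟩ := A_shift h01
  refine ⟨C + C', by positivity, fun k c d hc hd f hf x y => ?_⟩
  have h1 := hC k c d hc hd f hf x y
  have h2 := hC' k c d hc hd f hf x y
  have h3 := hC' k c d hc hd f hf (x + 1) y
  rw [add_zero] at h2 h3
  rw [add_div]
  have hs : 0 ≤ Real.sqrt (k + 1) := Real.sqrt_nonneg _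
  have h4 : 0 ≤ C / Real.sqrt (k + 1) := div_nonneg hC0 hs
  have h5 : 0 ≤ C' / Real.sqrt (k + 1) := div_nonneg hC0' hs
  constructor
  · calc |(stp p r)^[k] f c d x y - (stp p r)^[k] f c d (x + 1) y|
        = |((stp p r)^[k] f c d x y - (stp p r)^[k] f c d (x + 1) (y + 1)) -
          ((stp p r)^[k] f c d (x + 1) y - (stp p r)^[k] f c d (x + 1) (y + 1))| := by
          congr 1
          ring
      _ ≤ _ := (abs_sub _ _).trans (add_le_add h1 h3)
  · linarith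

theorem tv_shift {p r : ℕ} (hp : Odd p) (hr : Odd r) (hpr : p < r) :
    ∃ C : ℝ, ∀ k c d : ℕ, c ≤ p → d ≤ r → ∀ f : ℕ → ℕ → ℕ → ℕ → ℝ,
      (∀ c' d' x y, |f c' d' x y| ≤ 1) →
      |av k (fun n => f ((p * n + c) / 2 ^ k) ((r * n + d) / 2 ^ k)
            (ds ((p * n + c) % 2 ^ k)) (ds ((r * n + d) % 2 ^ k))) -
        av k (fun n => f ((p * n + c) / 2 ^ k) ((r * n + d) / 2 ^ k)
            (ds ((p * n + c) % 2 ^ k) + 1) (ds ((r * n + d) % 2 ^ k)))| ≤ C / Real.sqrt (k + 1) ∧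
      |av k (fun n => f ((p * n + c) / 2 ^ k) ((r * n + d) / 2 ^ k)
            (ds ((p * n + c) % 2 ^ k)) (ds ((r * n + d) % 2 ^ k))) -
        av k (fun n => f ((p * n + c) / 2 ^ k) ((r * n + d) / 2 ^ k)
            (ds ((p * n + c) % 2 ^ k)) (ds ((r * n + d) % 2 ^ k) + 1))| ≤ C / Real.sqrt (k + 1) := by
  obtain ⟨C, -, hC⟩ := A_shift_both hp hr hpr
  refine ⟨C, fun k c d hc hd f hf => ?_⟩
  have h := hC k c d hc hd f hf 0 0
  rw [stp_iter, stp_iter, stp_iter] at h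
  simpa only [zero_add, add_comm 1] using h

end Pool.Agent.Lib.MP_3e612f_nt.DS
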