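import Mathlib

/-!
Definitions for the reduction theorems about the logarithmically averaged Sarnak conjecture.
-/

set_option autoImplicit false

namespace Pool.Agent.Lib.MP_3e612f_nt

open Filter Topology Set

/-- the logarithmic average up to `N` of the sequence `a n * μ n` -/
noncomputable def logAvg (a : ℕ → ℂ) (N : ℕ) : ℂ :=
  (1 / (Real.log (N : ℝ) : ℂ)) *
    ∑ n ∈ Finset.Icc 1 N, a n * ((ArithmeticFunction.moebius n : ℤ) : ℂ) / (n : ℂ)

/-- the logarithmically averaged Sarnak conjecture -/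
def LogSarnak : Prop :=
  ∀ (X : Type) [MetricSpace X] [CompactSpace X] (T : X → X),
    Continuous T → Dynamics.coverEntropy T Set.univ = 0 →
    ∀ f : X → ℂ, Continuous f → ∀ x : X, Tendsto (logAvg fun n => f (T^[n] x)) atTop (𝓝 0)

/-- the orbits of length `n` of the points of `F` fall into at most `M` classes of `ε`-close
orbits -/
def PCov {X : Type*} [PseudoMetricSpace X] (T : X → X) (F : Set X) (ε : ℝ) (n M : ℕ) : Prop :=
  ∃ c : X → Fin M, ∀ x ∈ F, ∀ y ∈ F, c x = c y → ∀ k < n, dist (T^[k] x) (T^[k] y) < ε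

/-- subexponential growth of the number of classes -/
def ZeroCov {X : Type*} [PseudoMetricSpace X] (T : X → X) (F : Set X) : Prop :=
  ∀ ε > 0, ∀ δ > 0, ∃ n : ℕ, 1 ≤ n ∧ ∃ M : ℕ, Real.log M ≤ δ * n ∧ PCov T F ε n M

/-- the sequence `b` has few aligned blocks: for every `δ > 0` there is a length `L` for which
the blocks `b (m L), …, b (m L + L - 1)` fall into at most `exp (δ L)` classes -/
def LowC {α : Type*} (b : ℕ → α) : Prop :=
  ∀ δ > 0, ∃ L : ℕ, 1 ≤ L ∧ ∃ M : ℕ, Real.log M ≤ δ * L ∧ ∃ c : ℕ → Fin M,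
    ∀ m m', c m = c m' → ∀ i < L, b (m * L + i) = b (m' * L + i)

end Pool.Agent.Lib.MP_3e612f_nt
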