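import Pool.Agent.Lib.MP_3e612f_nt.Cov

/-!
Closure properties of the class of real sequences `f (T^n x)` coming from systems of zero
topological entropy: products, powers, towers.
-/

set_option autoImplicit false

namespace Pool.Agent.Lib.MP_3e612f_nt

open Filter Topology Set Dynamics

/-- the sequence `a` is of the form `f (T^n x)` for a compact metric system of zero topological
entropy, a continuous real function `f` and a point `x` -/
def Det (a : ℕ → ℝ) : Prop :=
  ∃ (X : Type) (_ : MetricSpace X) (_ : CompactSpace X) (T : X → X) (f : X → ℝ) (x : X),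
    Continuous T ∧ coverEntropy T Set.univ = 0 ∧ Continuous f ∧ ∀ n, a n = f (T^[n] x)

theorem coverEntropy_eq_zero {X : Type*} [PseudoMetricSpace X] {T : X → X} (x : X)
    (h : ZeroCov T univ) : coverEntropy T univ = 0 :=
  le_antisymm (coverEntropy_le_zero (mapsTo_univ _ _) h)
    (coverEntropy_nonneg T ⟨x, mem_univ x⟩)

theorem coverEntropy_prod_zero {X Y : Type*} [PseudoMetricSpace X] [PseudoMetricSpace Y]
    {T : X → X} {S : Y → Y} (x : X) (y : Y) (hT : coverEntropy T univ = 0)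
    (hS : coverEntropy S univ = 0) : coverEntropy (Prod.map T S) univ = 0 := by
  refine coverEntropy_eq_zero (x, y) ?_
  intro ε hε δ hδ
  obtain ⟨n, ⟨⟨M1, hM1, c1, hc1⟩, ⟨M2, hM2, c2, hc2⟩⟩, hn⟩ :=
    (((eventually_pcov hT.le hε (half_pos hδ)).and (eventually_pcov hS.le hε (half_pos hδ))).and
      (eventually_ge_atTop 1)).exists
  have h1 : (M1 : ℝ) ≠ 0 := by
    have := (c1 x).pos
    exact_mod_cast this.ne'
  have h2 : (M2 : ℝ) ≠ 0 := by
    have := (c2 y).pos
    exact_mod_cast this.ne'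
  refine ⟨n, hn, M1 * M2, ?_, fun p => finProdFinEquiv (c1 p.1, c2 p.2), ?_⟩
  · push_cast
    rw [Real.log_mul h1 h2]
    linarith
  · rintro ⟨a, b⟩ - ⟨a', b'⟩ - hab k hk
    have h3 := finProdFinEquiv.injective hab
    simp only [Prod.mk.injEq] at h3
    rw [Prod.map_iterate, Prod.dist_eq]
    exact max_lt (hc1 a (mem_univ _) a' (mem_univ _) h3.1 k hk)
      (hc2 b (mem_univ _) b' (mem_univ _) h3.2 k hk)

theorem coverEntropy_iterate_zero {X : Type*} [PseudoMetricSpace X] {T : X → X} (x : X)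
    (hT : coverEntropy T univ = 0) {m : ℕ} (hm : 1 ≤ m) : coverEntropy (T^[m]) univ = 0 := by
  refine coverEntropy_eq_zero x ?_
  intro ε hε δ hδ
  have hm' : (0 : ℝ) < m := by exact_mod_cast hm
  obtain ⟨N, hN⟩ := eventually_atTop.mp (eventually_pcov hT.le hε (div_pos hδ hm'))
  obtain ⟨M, hM, c, hc⟩ := hN (m * (N + 1)) (by nlinarith)
  refine ⟨N + 1, by omega, M, ?_, c, ?_⟩
  · refine hM.trans (le_of_eq ?_)
    push_cast
    field_simp
  · intro a ha b hb hab k hk
    rw [← Function.iterate_mul]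
    exact hc a ha b hb hab _ (Nat.mul_lt_mul_of_pos_left hk hm)

/-- the fibres of the tower -/
abbrev Fib (m : ℕ) : Type := {i : ℕ // i < m}

instance (m : ℕ) : Finite (Fib m) := inferInstanceAs (Finite {i : ℕ // i < m})

/-- the map of the tower of height `m` over `T` -/
def towerMap {X : Type*} (T : X → X) (m : ℕ) (hm : 0 < m) (p : X × Fib m) : X × Fib m :=
  if h : p.2.1 + 1 < m then (p.1, ⟨p.2.1 + 1, h⟩) else (T p.1, ⟨0, hm⟩)

theorem towerMap_iterate {X : Type*} (T : X → X) (m : ℕ) (hm : 0 < m) (x : X) (i : Fib m)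
    (k : ℕ) : (towerMap T m hm)^[k] (x, i) =
      (T^[(i.1 + k) / m] x, ⟨(i.1 + k) % m, Nat.mod_lt _ hm⟩) := by
  induction k with
  | zero =>
    have h1 : (i.1 + 0) / m = 0 := Nat.div_eq_of_lt (by simpa using i.2)
    have h2 : (i.1 + 0) % m = i.1 := Nat.mod_eq_of_lt (by simpa using i.2)
    simp only [Function.iterate_zero, id_eq, h1, h2]
  | succ k ih =>
    rw [Function.iterate_succ_apply', ih]
    set q := (i.1 + k) / m with hq
    set r := (i.1 + k) % m with hr
    have hqr : m * q + r = i.1 + k := Nat.div_add_mod _ _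
    have hrm : r < m := Nat.mod_lt _ hm
    unfold towerMap
    dsimp only
    split_ifs with h
    · have h1 : (i.1 + (k + 1)) / m = q := by
        rw [← add_assoc, ← hqr, add_assoc, Nat.mul_add_div hm, Nat.div_eq_of_lt h, add_zero]
      have h2 : (i.1 + (k + 1)) % m = r + 1 := by
        rw [← add_assoc, ← hqr, add_assoc, Nat.mul_add_mod, Nat.mod_eq_of_lt h]
      simp only [h1, h2]
      rfl
    · have hr' : r + 1 = m := by omega
      have h1 : (i.1 + (k + 1)) / m = q + 1 := by
        rw [← add_assoc, ← hqr, add_assoc, hr', Nat.mul_add_div hm, Nat.div_self hm]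
      have h2 : (i.1 + (k + 1)) % m = 0 := by
        rw [← add_assoc, ← hqr, add_assoc, hr', Nat.mul_add_mod, Nat.mod_self]
      simp only [h1, h2, Function.iterate_succ_apply']

theorem towerMap_continuous {X : Type*} [TopologicalSpace X] {T : X → X} (hT : Continuous T)
    (m : ℕ) (hm : 0 < m) : Continuous (towerMap T m hm) := by
  rw [continuous_prod_of_discrete_right]
  intro i
  unfold towerMap
  dsimp only
  by_cases h : i.1 + 1 < m
  · simp only [h, dite_true]
    fun_prop
  · simp only [h, dite_false]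
    fun_prop

theorem coverEntropy_tower_zero {X : Type*} [PseudoMetricSpace X] {T : X → X} (x : X)
    (hT : coverEntropy T univ = 0) {m : ℕ} (hm : 0 < m) :
    coverEntropy (towerMap T m hm) univ = 0 := by
  refine coverEntropy_eq_zero (x, ⟨0, hm⟩) ?_
  intro ε hε δ hδ
  have h0 : ∀ᶠ n : ℕ in atTop, Real.log m ≤ δ / 2 * n := by
    obtain ⟨N, hN⟩ := exists_nat_ge (Real.log m / (δ / 2))
    filter_upwards [eventually_ge_atTop N] with n hn
    rw [div_le_iff₀ (half_pos hδ)] at hN
    have : (N : ℝ) ≤ n := by exact_mod_cast hn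
    nlinarith
  obtain ⟨n, ⟨⟨M, hM, c, hc⟩, hlog⟩, hn⟩ :=
    (((eventually_pcov hT.le hε (half_pos hδ)).and h0).and (eventually_ge_atTop 1)).exists
  have h1 : (M : ℝ) ≠ 0 := by
    have := (c x).pos
    exact_mod_cast this.ne'
  have h2 : (m : ℝ) ≠ 0 := by exact_mod_cast hm.ne'
  refine ⟨n, hn, M * m, ?_, fun p => finProdFinEquiv (c p.1, ⟨p.2.1, p.2.2⟩), ?_⟩
  · push_cast
    rw [Real.log_mul h1 h2]
    linarith
  · rintro ⟨a, i⟩ - ⟨b, j⟩ - hab k hk
    have h3 := finProdFinEquiv.injective hab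
    simp only [Prod.mk.injEq, Fin.mk.injEq] at h3
    obtain rfl : i = j := Subtype.ext h3.2
    rw [towerMap_iterate, towerMap_iterate, Prod.dist_eq]
    simp only [dist_self]
    refine max_lt (hc a (mem_univ _) b (mem_univ _) h3.1 _ ?_) hε
    have hi : i.1 < m := i.2
    refine lt_of_le_of_lt ?_ hk
    rw [← Nat.lt_succ_iff, Nat.div_lt_iff_lt_mul hm]
    nlinarith

theorem Det.map₂ {a b : ℕ → ℝ} (ha : Det a) (hb : Det b) {φ : ℝ → ℝ → ℝ}
    (hφ : Continuous fun p : ℝ × ℝ => φ p.1 p.2) : Det fun n => φ (a n) (b n) := by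
  obtain ⟨X, _, _, T, f, x, hT, hT0, hf, ha⟩ := ha
  obtain ⟨Y, _, _, S, g, y, hS, hS0, hg, hb⟩ := hb
  refine ⟨X × Y, inferInstance, inferInstance, Prod.map T S, fun p => φ (f p.1) (g p.2), (x, y),
    hT.prodMap hS, coverEntropy_prod_zero x y hT0 hS0, ?_, fun n => ?_⟩
  · exact hφ.comp ((hf.comp continuous_fst).prodMk (hg.comp continuous_snd))
  · dsimp only
    rw [Prod.map_iterate, ha, hb]
    rfl

theorem Det.map {a : ℕ → ℝ} (ha : Det a) {φ : ℝ → ℝ} (hφ : Continuous φ) :
    Det fun n => φ (a n) :=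
  ha.map₂ ha (φ := fun s _ => φ s) (hφ.comp continuous_fst)

theorem Det.shift {a : ℕ → ℝ} (ha : Det a) (h : ℕ) : Det fun n => a (n + h) := by
  obtain ⟨X, _, _, T, f, x, hT, hT0, hf, ha⟩ := ha
  exact ⟨X, inferInstance, inferInstance, T, f, T^[h] x, hT, hT0, hf, fun n => by
    dsimp only
    rw [ha, Function.iterate_add_apply]⟩

theorem Det.dil {a : ℕ → ℝ} (ha : Det a) {m : ℕ} (hm : 1 ≤ m) : Det fun n => a (m * n) := by
  obtain ⟨X, _, _, T, f, x, hT, hT0, hf, ha⟩ := ha
  exact ⟨X, inferInstance, inferInstance, T^[m], f, x, hT.iterate m,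
    coverEntropy_iterate_zero x hT0 hm, hf, fun n => by
    dsimp only
    rw [ha, Function.iterate_mul]⟩

/-- the sequence `n ↦ g (n % m) (a (n / m))` -/
theorem Det.tower {a : ℕ → ℝ} (ha : Det a) {m : ℕ} (hm : 0 < m) {g : ℕ → ℝ → ℝ}
    (hg : ∀ i, Continuous (g i)) : Det fun n => g (n % m) (a (n / m)) := by
  obtain ⟨X, _, _, T, f, x, hT, hT0, hf, ha⟩ := ha
  refine ⟨X × Fib m, inferInstance, inferInstance, towerMap T m hm, fun p => g p.2.1 (f p.1),
    (x, ⟨0, hm⟩), towerMap_continuous hT m hm, coverEntropy_tower_zero x hT0 hm, ?_, fun n => ?_⟩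
  · rw [continuous_prod_of_discrete_right]
    intro i
    exact (hg i.1).comp hf
  · dsimp only
    rw [towerMap_iterate, ha]
    simp only [Nat.zero_add]

theorem Det.add {a b : ℕ → ℝ} (ha : Det a) (hb : Det b) : Det fun n => a n + b n :=
  ha.map₂ hb (φ := fun s t => s + t) (by fun_prop)

theorem Det.sub {a b : ℕ → ℝ} (ha : Det a) (hb : Det b) : Det fun n => a n - b n :=
  ha.map₂ hb (φ := fun s t => s - t) (by fun_prop)

theorem Det.mul {a b : ℕ → ℝ} (ha : Det a) (hb : Det b) : Det fun n => a n * b n :=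
  ha.map₂ hb (φ := fun s t => s * t) (by fun_prop)

theorem Det.const {a : ℕ → ℝ} (ha : Det a) (c : ℝ) : Det fun _ => c :=
  ha.map (φ := fun _ => c) continuous_const

theorem Det.pow {a : ℕ → ℝ} (ha : Det a) (k : ℕ) : Det fun n => a n ^ k :=
  ha.map (φ := fun s => s ^ k) (by fun_prop)

theorem Det.prod {ι : Type*} {a : ℕ → ℝ} (ha : Det a) (s : Finset ι) {b : ι → ℕ → ℝ}
    (hb : ∀ i, Det (b i)) : Det fun n => ∏ i ∈ s, b i n := by
  classical
  induction s using Finset.induction_on with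
  | empty => simpa using ha.const 1
  | insert i s hi ih =>
    simp only [Finset.prod_insert hi]
    exact (hb i).mul ih

end Pool.Agent.Lib.MP_3e612f_nt
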