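import Mathlib

/-!
Small perturbations of the identity are diffeomorphisms.
-/

set_option autoImplicit false

namespace Pool.Agent.Lib.MP_3e612f_nt

open Filter Topology Set
open scoped ContDiff NNReal

variable {E : Type*} [NormedAddCommGroup E] [NormedSpace ℝ E]

/-- smooth maps with a smooth inverse -/
def SDiffeo (T : E → E) : Prop :=
  ContDiff ℝ ∞ T ∧ ∃ T' : E → E, ContDiff ℝ ∞ T' ∧ (∀ z, T' (T z) = z) ∧ ∀ z, T (T' z) = z

theorem SDiffeo.comp {S T : E → E} (hS : SDiffeo S) (hT : SDiffeo T) :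
    SDiffeo fun z => S (T z) := by
  obtain ⟨hS1, S', hS2, hS3, hS4⟩ := hS
  obtain ⟨hT1, T', hT2, hT3, hT4⟩ := hT
  exact ⟨hS1.comp hT1, fun z => T' (S' z), hT2.comp hS2,
    fun z => by show T' (S' (S (T z))) = z; rw [hS3, hT3],
    fun z => by show S (T (T' (S' z))) = z; rw [hT4, hS4]⟩

theorem SDiffeo.iterate {T : E → E} (hT : SDiffeo T) (n : ℕ) : SDiffeo T^[n] := by
  induction n with
  | zero => exact ⟨contDiff_id, id, contDiff_id, fun _ => rfl, fun _ => rfl⟩
  | succ n ih => exact ih.comp hT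

theorem SDiffeo.injective {T : E → E} (hT : SDiffeo T) : Function.Injective T := by
  obtain ⟨-, T', -, h, -⟩ := hT
  exact Function.LeftInverse.injective h

/-- perturbations of the identity with a small derivative are diffeomorphisms -/
theorem sdiffeo_perturb [CompleteSpace E] [Nontrivial E] (u : E → E) (hu : ContDiff ℝ ∞ u)
    (hb : ∀ z, ‖fderiv ℝ u z‖ ≤ 1 / 2) : SDiffeo fun z => z + u z := by
  have hdiff : Differentiable ℝ u := hu.differentiable (by simp)
  have hlip : LipschitzWith (1 / 2) u := by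
    refine lipschitzWith_of_nnnorm_fderiv_le hdiff fun z => ?_
    have := hb z
    rw [← NNReal.coe_le_coe]
    simpa using this
  set f : E → E := fun z => z + u z with hf
  have happ : ApproximatesLinearOn f ((ContinuousLinearEquiv.refl ℝ E : E ≃L[ℝ] E) : E →L[ℝ] E)
      univ (1 / 2) := by
    intro x _ y _
    have h1 : f x - f y - ((ContinuousLinearEquiv.refl ℝ E : E ≃L[ℝ] E) : E →L[ℝ] E) (x - y) =
        u x - u y := by
      simp only [hf, ContinuousLinearEquiv.coe_coe, ContinuousLinearEquiv.coe_refl', id_eq]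
      abel
    rw [h1]
    exact hlip.norm_sub_le x y
  have hN : Subsingleton E ∨ (1 / 2 : ℝ≥0) <
      ‖(((ContinuousLinearEquiv.refl ℝ E : E ≃L[ℝ] E).symm : E ≃L[ℝ] E) : E →L[ℝ] E)‖₊⁻¹ := by
    right
    have : ‖(((ContinuousLinearEquiv.refl ℝ E : E ≃L[ℝ] E).symm : E ≃L[ℝ] E) : E →L[ℝ] E)‖₊ = 1 := by
      rw [← NNReal.coe_inj]
      exact ContinuousLinearMap.norm_id
    rw [this]
    norm_num
  set h : E ≃ₜ E := ApproximatesLinearOn.toHomeomorph f happ hN with hh
  have hhf : (h : E → E) = f := rfl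
  have hfs : ContDiff ℝ ∞ f := contDiff_id.add hu
  have hder : ∀ a, ∃ g : E ≃L[ℝ] E, HasFDerivAt h (g : E →L[ℝ] E) a := by
    intro a
    have hlt : ‖-(fderiv ℝ u a)‖ < 1 := by
      rw [norm_neg]
      linarith [hb a]
    refine ⟨ContinuousLinearEquiv.ofUnit (Units.oneSub _ hlt), ?_⟩
    rw [hhf]
    have h1 : HasFDerivAt f (ContinuousLinearMap.id ℝ E + fderiv ℝ u a) a :=
      (hasFDerivAt_id a).add (hdiff a).hasFDerivAt
    convert h1 using 1
    ext v
    show ((Units.oneSub (-(fderiv ℝ u a)) hlt : (E →L[ℝ] E)ˣ) : E →L[ℝ] E) v = _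
    simp
  choose g hg using hder
  refine ⟨hfs, h.symm, h.contDiff_symm hg (hhf ▸ hfs), fun z => ?_, fun z => ?_⟩
  · exact h.symm_apply_apply z
  · exact h.apply_symm_apply z

/-- small multiples of a compactly supported function give diffeomorphisms -/
theorem exists_sdiffeo_smul [CompleteSpace E] [Nontrivial E] (φ : E → ℝ)
    (hφ : ContDiff ℝ ∞ φ) (hc : HasCompactSupport φ) (e : E) :
    ∃ C : ℝ, 0 < C ∧ ∀ s : ℝ, |s| * C ≤ 1 / 2 → SDiffeo fun z => z + (s * φ z) • e := by
  obtain ⟨B, hB⟩ : ∃ B, ∀ z, ‖fderiv ℝ φ z‖ ≤ B :=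
    (hφ.continuous_fderiv (by simp)).bounded_above_of_compact_support (hc.fderiv ℝ)
  have hB0 : 0 ≤ B := (norm_nonneg _).trans (hB 0)
  refine ⟨B * ‖e‖ + 1, by positivity, fun s hs => ?_⟩
  refine sdiffeo_perturb _ ?_ fun z => ?_
  · exact (contDiff_const.mul hφ).smul contDiff_const
  · have hd : HasFDerivAt (fun z => (s * φ z) • e) ((s • fderiv ℝ φ z).smulRight e) z := by
      have h1 : HasFDerivAt (fun z => s * φ z) (s • fderiv ℝ φ z) z :=
        ((hφ.differentiable (by simp)) z).hasFDerivAt.const_mul s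
      exact h1.smul_const e
    rw [hd.fderiv, ContinuousLinearMap.norm_smulRight_apply, norm_smul, Real.norm_eq_abs]
    calc |s| * ‖fderiv ℝ φ z‖ * ‖e‖ ≤ |s| * B * ‖e‖ := by
          gcongr
          exact hB z
      _ ≤ |s| * (B * ‖e‖ + 1) := by nlinarith [abs_nonneg s]
      _ ≤ 1 / 2 := hs

end Pool.Agent.Lib.MP_3e612f_nt
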