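import Mathlib
import Pool.Agent.Lib.MP_3e612f_nt.Tests

set_option autoImplicit false

open Filter Topology
open Pool.Agent.Lib.MP_3e612f_nt

namespace Pool.Agent.Lib.MP_3e612f_nt.DilationReduction

/-- At the scale `N` and up to the error `ε`, the sequence `a` behaves like a projection of `μ`
which is multiplicative in the way `μ` is:
* `a (m n) = μ(m) a(n)` if `(m, n) = 1` and `a (m n) = 0` if `(m, n) > 1`, in logarithmic mean
  square over `n ≤ N`, for every `m ≤ M`;
* `μ - a` is orthogonal, in logarithmic average over `n ≤ N`, to every monomial in the numbers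
  `a ((i + 1) n + j)`, `i < M`, `j ≤ M`, with exponents at most `M`. -/
def MobiusLike (a : ℕ → ℝ) (M : ℕ) (ε : ℝ) (N : ℕ) : Prop :=
  (∀ m : ℕ, 1 ≤ m → m ≤ M →
    LogAvg (fun n => (a (m * n) - if Nat.Coprime m n then mu m * a n else 0) ^ 2) N ≤ ε) ∧
  ∀ k : Fin M → Fin (M + 1) → Fin (M + 1),
    |LogAvg (fun n => (mu n - a n) *
      ∏ i : Fin M, ∏ j : Fin (M + 1), a ((i + 1) * n + j) ^ (k i j : ℕ)) N| ≤ ε

/-- the conclusion for one real sequence -/
theorem real_case
    (H : ∀ c : ℝ, 0 < c → ∃ M : ℕ, ∃ ε : ℝ, 0 < ε ∧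
      ∀ (X : Type) [MetricSpace X] [CompactSpace X] (T : X → X),
        Continuous T → Dynamics.coverEntropy T Set.univ = 0 →
        ∀ f : X → ℝ, Continuous f → (∀ y, |f y| ≤ 1) → ∀ x : X,
          ∀ᶠ N : ℕ in atTop, MobiusLike (fun n => f (T^[n] x)) M ε N →
            |LogAvg (fun n => mu n * f (T^[n] x)) N| < c)
    {a₀ : ℕ → ℝ} (ha₀ : Det a₀) (hb₀ : ∀ n, |a₀ n| ≤ 1) :
    Tendsto (LogAvg fun n => mu n * a₀ n) atTop (𝓝 0) := by
  -- a large correlation with a sequence of bounded size is impossible
  have main : ∀ (c : ℝ), 0 < c → ∀ a₀ : ℕ → ℝ, Det a₀ → (∀ n, |a₀ n| ≤ 1) →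
      ∀ᶠ N in atTop, LogAvg (fun n => mu n * a₀ n) N < c := by
    intro c' hc' a₀ ha₀ hb₀
    by_contra hcon
    rw [not_eventually] at hcon
    set c := min c' 1 with hcdef
    have hc : 0 < c := lt_min hc' one_pos
    have hc1 : c ≤ 1 := min_le_right _ _
    have h₀ : ∃ᶠ N in atTop, c ≤ LogAvg (fun n => mu n * a₀ n) N :=
      hcon.mono fun N hN => (min_le_left _ _).trans (not_lt.mp hN)
    obtain ⟨M, ε, hε, hM⟩ := H (c ^ 2 / 4) (by positivity)
    obtain ⟨a, ha, hb, hfr⟩ := exists_increment (ι := Fin M ⊕ (Fin M → Fin (M + 1) → Fin (M + 1)))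
      (fun t a => Sum.elim (fun i : Fin M => dilTest ((i : ℕ) + 1) a) (fun k => word k a) t)
      (V := 2 * (M + 1)) (by positivity) (fun t a ha hb => by
        rcases t with i | k
        · exact ⟨ha.dilTest (by omega), fun n => abs_dilTest_le hb (by omega) n⟩
        · refine ⟨ha.word k, fun n => (abs_word_le hb k n).trans ?_⟩
          have : (0 : ℝ) ≤ M := Nat.cast_nonneg M
          linarith) (half_pos hε) hc hc1 ha₀ hb₀ h₀
    obtain ⟨X, _, _, T, f, x, hT, hT0, hf, haf⟩ := ha
    have haf' : ∀ n, clamp (f (T^[n] x)) = a n := by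
      intro n
      rw [← haf]
      have := abs_le.mp (hb n)
      unfold clamp
      rw [min_eq_right this.2, max_eq_right this.1]
    have h1 := hM X T hT hT0 (fun y => clamp (f y)) (clamp_cont.comp hf)
      (fun y => clamp_abs _) x
    simp only [haf'] at h1
    have hlim : ∀ᶠ N : ℕ in atTop, 4 * M / Real.log N ≤ ε / 2 := by
      have h2 : Tendsto (fun N : ℕ => 4 * (M : ℝ) / Real.log N) atTop (𝓝 0) :=
        Tendsto.div_atTop tendsto_const_nhds
          (Real.tendsto_log_atTop.comp tendsto_natCast_atTop_atTop)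
      filter_upwards [h2.eventually_lt_const (half_pos hε)] with N hN
      exact hN.le
    obtain ⟨N, ⟨hcor, hall⟩, h1N, hlN, h3⟩ :=
      (hfr.and_eventually (h1.and (hlim.and (eventually_ge_atTop 3)))).exists
    have h5 : MobiusLike a M ε N := by
      refine ⟨fun m hm hmM => ?_, fun k => ?_⟩
      · have h6 := dev_sq_le hb hm h3
        have h7 := hall (Sum.inl ⟨m - 1, by omega⟩)
        simp only [Sum.elim_inl, Nat.sub_add_cancel hm] at h7
        have h8 : 4 * (m : ℝ) / Real.log N ≤ 4 * M / Real.log N := by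
          have hlog := log_ge_one h3
          have : (m : ℝ) ≤ M := by exact_mod_cast hmM
          gcongr
        have h9 : LogAvg (fun n => (a (m * n) - if Nat.Coprime m n then mu m * a n else 0) ^ 2) N =
            LogAvg (fun n => dev a m n ^ 2) N := rfl
        rw [h9]
        linarith
      · have h7 := hall (Sum.inr k)
        simp only [Sum.elim_inr] at h7
        have h9 : LogAvg (fun n => (mu n - a n) *
            ∏ i : Fin M, ∏ j : Fin (M + 1), a ((i + 1) * n + j) ^ (k i j : ℕ)) N =
            LogAvg (fun n => (mu n - a n) * word k a n) N := rfl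
        rw [h9]
        linarith
    have h6 := h1N h5
    exact absurd hcor (not_le.mpr ((le_abs_self _).trans_lt h6))
  rw [Metric.tendsto_nhds]
  intro c hc
  have hneg : Det fun n => - a₀ n := ha₀.map (φ := fun s => -s) (by fun_prop)
  filter_upwards [main c hc a₀ ha₀ hb₀, main c hc _ hneg (fun n => by rw [abs_neg]; exact hb₀ n)]
    with N h1 h2
  rw [Real.dist_eq, sub_zero, abs_lt]
  have e : LogAvg (fun n => mu n * -a₀ n) N = - LogAvg (fun n => mu n * a₀ n) N := by
    rw [← LogAvg_neg]
    exact LogAvg_congr fun n _ _ => by ring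
  rw [e] at h2
  constructor <;> linarith

/-- The logarithmically averaged Sarnak conjecture is equivalent to its special case for sequences
which are themselves Möbius-like, with any `M` and `ε` depending only on the size `c` of the
correlation. -/
theorem result :
    (∀ (X : Type) [MetricSpace X] [CompactSpace X] (T : X → X),
      Continuous T →
      Dynamics.coverEntropy T Set.univ = 0 →
      ∀ (f : X → ℂ), Continuous f → ∀ x : X,
        Tendsto
          (fun N : ℕ =>
            (1 / (Real.log (N : ℝ) : ℂ)) *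
              ∑ n ∈ Finset.Icc 1 N,
                f (T^[n] x) * ((ArithmeticFunction.moebius n : ℤ) : ℂ) / (n : ℂ))
          atTop (𝓝 0)) ↔
    ∀ c : ℝ, 0 < c → ∃ M : ℕ, ∃ ε : ℝ, 0 < ε ∧
      ∀ (X : Type) [MetricSpace X] [CompactSpace X] (T : X → X),
        Continuous T → Dynamics.coverEntropy T Set.univ = 0 →
        ∀ f : X → ℝ, Continuous f → (∀ y, |f y| ≤ 1) → ∀ x : X,
          ∀ᶠ N : ℕ in atTop, MobiusLike (fun n => f (T^[n] x)) M ε N →
            |LogAvg (fun n => mu n * f (T^[n] x)) N| < c := by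
  constructor
  · intro H c hc
    refine ⟨0, 1, one_pos, fun X _ _ T hT hT0 f hf _ x => ?_⟩
    have h1 := H X T hT hT0 (fun y => (f y : ℂ)) (Complex.continuous_ofReal.comp hf) x
    rw [Metric.tendsto_nhds] at h1
    filter_upwards [h1 c hc] with N hN _
    rw [dist_zero_right] at hN
    have e : (1 / (Real.log (N : ℝ) : ℂ)) * ∑ n ∈ Finset.Icc 1 N,
        (f (T^[n] x) : ℂ) * ((ArithmeticFunction.moebius n : ℤ) : ℂ) / (n : ℂ) =
        ((LogAvg (fun n => mu n * f (T^[n] x)) N : ℝ) : ℂ) := by
      unfold LogAvg mu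
      push_cast
      congr 1
      exact Finset.sum_congr rfl fun n _ => by ring
    rw [e, Complex.norm_real, Real.norm_eq_abs] at hN
    exact hN
  · intro H X _ _ T hT hT0 f hf x
    have hreal : ∀ g : X → ℝ, Continuous g →
        Tendsto (LogAvg fun n => mu n * g (T^[n] x)) atTop (𝓝 0) := by
      intro g hg
      obtain ⟨K, hK⟩ := (isCompact_range hg).isBounded.subset_closedBall 0
      have hK' : ∀ y, |g y| ≤ max K 1 := by
        intro y
        have := hK (Set.mem_range_self y)
        rw [mem_closedBall_zero_iff, Real.norm_eq_abs] at this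
        exact this.trans (le_max_left _ _)
      have hK0 : 0 < max K 1 := lt_of_lt_of_le one_pos (le_max_right _ _)
      have h1 := real_case H (a₀ := fun n => (max K 1)⁻¹ * g (T^[n] x))
        ⟨X, inferInstance, inferInstance, T, fun y => (max K 1)⁻¹ * g y, x, hT, hT0, by fun_prop,
          fun n => rfl⟩ (fun n => by
          rw [abs_mul, abs_inv, abs_of_pos hK0, inv_mul_le_iff₀ hK0, mul_one]
          exact hK' _)
      have h2 := h1.const_mul (max K 1)
      rw [mul_zero] at h2
      refine h2.congr fun N => ?_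
      rw [← LogAvg_const_mul]
      refine LogAvg_congr fun n _ _ => ?_
      field_simp
    have hre := hreal (fun y => (f y).re) (Complex.continuous_re.comp hf)
    have him := hreal (fun y => (f y).im) (Complex.continuous_im.comp hf)
    have h1 : Tendsto (fun N => ((LogAvg (fun n => mu n * (f (T^[n] x)).re) N : ℝ) : ℂ) +
        ((LogAvg (fun n => mu n * (f (T^[n] x)).im) N : ℝ) : ℂ) * Complex.I) atTop
        (𝓝 (((0 : ℝ) : ℂ) + ((0 : ℝ) : ℂ) * Complex.I)) :=
      ((Complex.continuous_ofReal.tendsto 0).comp hre).add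
        (((Complex.continuous_ofReal.tendsto 0).comp him).mul_const _)
    simp only [Complex.ofReal_zero, zero_mul, add_zero] at h1
    refine h1.congr fun N => ?_
    unfold LogAvg mu
    push_cast
    rw [mul_assoc, ← mul_add, Finset.sum_mul, ← Finset.sum_add_distrib]
    congr 1
    refine Finset.sum_congr rfl fun n _ => ?_
    conv_rhs => rw [← Complex.re_add_im (f (T^[n] x))]
    ring

end Pool.Agent.Lib.MP_3e612f_nt.DilationReduction
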