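import Pool.Agent.Lib.MP_3e612f_nt.Blocks

/-!
The logarithmically averaged Sarnak conjecture and the sums of `μ n * exp (2 π i q ^ n α) / n`.
-/

set_option autoImplicit false

namespace Pool.Agent.Lib.MP_3e612f_nt

open Filter Topology Set Dynamics

variable {q : ℕ}

/-- the digit of a symbol -/
def dg (s : Bool) : ℤ := if s then 1 else 0

/-- the point coded by the sequence from the index `t` on -/
noncomputable def bx (q : ℕ) (c : ℕ → Bool) (t : ℕ) : ℝ :=
  ∑' i : ℕ, (dg (c (t + i)) : ℝ) * (1 / q) ^ (i + 1)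

theorem dg_mem (s : Bool) : (0 : ℝ) ≤ dg s ∧ (dg s : ℝ) ≤ 1 := by
  unfold dg; split_ifs <;> norm_num

theorem bx_summable_geom (hq : 2 ≤ q) : Summable fun i : ℕ => (1 / (q : ℝ)) ^ (i + 1) := by
  have hq2 : (2 : ℝ) ≤ q := by exact_mod_cast hq
  simp_rw [pow_succ]
  refine (summable_geometric_of_lt_one (by positivity) ?_).mul_right _
  rw [div_lt_one (by linarith)]
  linarith

theorem bx_summable (hq : 2 ≤ q) (c : ℕ → Bool) (t : ℕ) :
    Summable fun i : ℕ => (dg (c (t + i)) : ℝ) * (1 / (q : ℝ)) ^ (i + 1) := by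
  refine Summable.of_nonneg_of_le (fun i => ?_) (fun i => ?_) (bx_summable_geom hq)
  · have := (dg_mem (c (t + i))).1
    positivity
  · have := (dg_mem (c (t + i))).2
    have h1 : (0 : ℝ) ≤ (1 / (q : ℝ)) ^ (i + 1) := by positivity
    nlinarith

theorem bx_rec (hq : 2 ≤ q) (c : ℕ → Bool) (t : ℕ) :
    (q : ℝ) * bx q c t = dg (c t) + bx q c (t + 1) := by
  have hq0 : (q : ℝ) ≠ 0 := by positivity
  unfold bx
  rw [(bx_summable hq c t).tsum_eq_zero_add]
  have h1 : (fun i : ℕ => (dg (c (t + (i + 1))) : ℝ) * (1 / (q : ℝ)) ^ (i + 1 + 1)) =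
      fun i : ℕ => (1 / (q : ℝ)) * ((dg (c (t + 1 + i)) : ℝ) * (1 / (q : ℝ)) ^ (i + 1)) := by
    funext i
    have e : t + (i + 1) = t + 1 + i := by ring
    rw [e]
    ring
  rw [h1, tsum_mul_left]
  simp only [add_zero, zero_add, pow_one]
  field_simp

theorem bx_nonneg (c : ℕ → Bool) (t : ℕ) : 0 ≤ bx q c t :=
  tsum_nonneg fun i => mul_nonneg (dg_mem _).1 (by positivity)

theorem bx_le_one (hq : 2 ≤ q) (c : ℕ → Bool) (t : ℕ) : bx q c t ≤ 1 := by
  have hq2 : (2 : ℝ) ≤ q := by exact_mod_cast hq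
  calc bx q c t ≤ ∑' i : ℕ, (1 / (q : ℝ)) ^ (i + 1) := by
        refine Summable.tsum_le_tsum (fun i => ?_) (bx_summable hq c t) (bx_summable_geom hq)
        have := (dg_mem (c (t + i))).2
        have h1 : (0 : ℝ) ≤ (1 / (q : ℝ)) ^ (i + 1) := by positivity
        nlinarith
    _ ≤ ∑' i : ℕ, (1 / 2 : ℝ) ^ (i + 1) := by
        refine Summable.tsum_le_tsum (fun i => ?_) (bx_summable_geom hq) ?_
        · refine pow_le_pow_left₀ (by positivity) ?_ _
          exact one_div_le_one_div_of_le (by norm_num) hq2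
        · have := bx_summable_geom (q := 2) le_rfl
          simpa using this
    _ = 1 := by
        simp_rw [pow_succ]
        rw [tsum_mul_right, tsum_geometric_of_lt_one (by norm_num) (by norm_num)]
        norm_num

/-- no two consecutive ones -/
def NoTwo (c : ℕ → Bool) : Prop := ∀ n, c n = true → c (n + 1) = false

theorem bx_bound (hq : 2 ≤ q) {c : ℕ → Bool} (hc : NoTwo c) (t : ℕ) : bx q c t ≤ 3 / 4 := by
  have hq2 : (2 : ℝ) ≤ q := by exact_mod_cast hq
  have h0 := bx_rec hq c t
  have h1 := bx_rec hq c (t + 1)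
  have h2 := bx_le_one hq c (t + 1)
  have h3 := bx_le_one hq c (t + 1 + 1)
  have n0 := bx_nonneg (q := q) c t
  have n1 := bx_nonneg (q := q) c (t + 1)
  cases hct : c t with
  | false =>
    rw [hct] at h0
    simp only [dg, Bool.false_eq_true, if_false, Int.cast_zero, zero_add] at h0
    nlinarith
  | true =>
    rw [hct] at h0
    rw [hc t hct] at h1
    simp only [dg, if_true, Bool.false_eq_true, if_false, Int.cast_zero, Int.cast_one,
      zero_add] at h0 h1
    have h4 : bx q c (t + 1) ≤ 1 / 2 := by nlinarith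
    nlinarith

theorem bx_zero (hq : 2 ≤ q) {c : ℕ → Bool} (hc : NoTwo c) {t : ℕ} (ht : c t = false) :
    bx q c t ∈ Icc (0 : ℝ) (3 / (4 * q)) := by
  have hq2 : (2 : ℝ) ≤ q := by exact_mod_cast hq
  have h0 := bx_rec hq c t
  have h1 := bx_bound hq hc (t + 1)
  rw [ht] at h0
  simp only [dg, Bool.false_eq_true, if_false, Int.cast_zero, zero_add] at h0
  refine ⟨bx_nonneg _ _, ?_⟩
  rw [le_div_iff₀ (by positivity)]
  nlinarith

theorem bx_one (hq : 2 ≤ q) {c : ℕ → Bool} (hc : NoTwo c) {t : ℕ} (ht : c t = true) :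
    bx q c t ∈ Icc (1 / q : ℝ) (3 / 4) := by
  have hq2 : (2 : ℝ) ≤ q := by exact_mod_cast hq
  have h0 := bx_rec hq c t
  have h1 := bx_nonneg (q := q) c (t + 1)
  rw [ht] at h0
  simp only [dg, if_true, Int.cast_one] at h0
  refine ⟨?_, bx_bound hq hc t⟩
  rw [div_le_iff₀ (by positivity)]
  nlinarith

theorem bx_expn (hq : 2 ≤ q) {c : ℕ → Bool} (hc : NoTwo c) :
    Expn q (bx q c) (fun n => dg (c n)) where
  nonneg n := bx_nonneg _ _
  lt_one n := (bx_bound hq hc n).trans_lt (by norm_num)
  step n := bx_rec hq c n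

/-- the digits are a continuous function of the point on the circle -/
theorem exists_digit_function (hq : 2 ≤ q) : ∃ F : C(UnitAddCircle, ℂ), ∀ c : ℕ → Bool, NoTwo c →
    ∀ n, F ((bx q c n : ℝ) : UnitAddCircle) = if c n then 1 else 0 := by
  have hq2 : (2 : ℝ) ≤ q := by exact_mod_cast hq
  set A : Set UnitAddCircle := (fun x : ℝ => (x : UnitAddCircle)) '' Icc (0 : ℝ) (3 / (4 * q))
    with hA
  set B : Set UnitAddCircle := (fun x : ℝ => (x : UnitAddCircle)) '' Icc (1 / q : ℝ) (3 / 4)
    with hB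
  have hcont : Continuous fun x : ℝ => (x : UnitAddCircle) := AddCircle.continuous_mk' 1
  have hAc : IsClosed A := (isCompact_Icc.image hcont).isClosed
  have hBc : IsClosed B := (isCompact_Icc.image hcont).isClosed
  have hlt : (3 : ℝ) / (4 * q) < 1 / q := by
    rw [div_lt_div_iff₀ (by positivity) (by positivity)]
    nlinarith
  have hq1 : (1 : ℝ) / q ≤ 1 / 2 := one_div_le_one_div_of_le (by norm_num) hq2
  have hdisj : Disjoint A B := by
    rw [Set.disjoint_left]
    rintro _ ⟨x, hx, rfl⟩ ⟨y, hy, hxy⟩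
    have h1 := (AddCircle.coe_eq_coe_iff_of_mem_Ico (p := 1) (a := 0) (x := y) (y := x)
      ⟨by have := hy.1; have : (0 : ℝ) ≤ 1 / q := by positivity
          linarith, by linarith [hy.2]⟩ ⟨hx.1, by linarith [hx.2]⟩).mp hxy
    linarith [hx.2, hy.1]
  obtain ⟨f, hfA, hfB, -⟩ := exists_continuous_zero_one_of_isClosed hAc hBc hdisj
  refine ⟨⟨fun x => (f x : ℂ), by fun_prop⟩, fun c hc n => ?_⟩
  show ((f ((bx q c n : ℝ) : UnitAddCircle) : ℝ) : ℂ) = _
  cases hcn : c n with
  | false =>
    rw [hfA ⟨_, bx_zero hq hc hcn, rfl⟩]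
    simp
  | true =>
    rw [hfB ⟨_, bx_one hq hc hcn, rfl⟩]
    simp

/-- the conjecture for the exponential sums -/
def ExpSarnak (q : ℕ) : Prop :=
  ∀ α : ℝ, LowBlocks q α →
    Tendsto (logAvg fun n => Complex.exp (2 * Real.pi * Complex.I * ((q : ℂ) ^ n * α))) atTop (𝓝 0)

theorem tendsto_of_characters {z : ℕ → UnitAddCircle}
    (h : ∀ k : ℤ, Tendsto (logAvg fun n => (fourier k (z n) : ℂ)) atTop (𝓝 0))
    (F : C(UnitAddCircle, ℂ)) : Tendsto (logAvg fun n => F (z n)) atTop (𝓝 0) := by
  have hspan : ∀ g ∈ Submodule.span ℂ (range (@fourier (1 : ℝ))),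
      Tendsto (logAvg fun n => (g (z n) : ℂ)) atTop (𝓝 0) := by
    intro g hg
    induction hg using Submodule.span_induction with
    | mem g hg =>
      obtain ⟨k, rfl⟩ := hg
      exact h k
    | zero =>
      have : (logAvg fun n => ((0 : C(UnitAddCircle, ℂ)) (z n) : ℂ)) = fun _ => 0 := by
        funext N
        simp [logAvg]
      rw [this]
      exact tendsto_const_nhds
    | add g g' _ _ ih ih' =>
      have := tendsto_logAvg_lin ih ih' 1 1
      simpa using this
    | smul a g _ ih =>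
      have := tendsto_logAvg_lin ih ih a 0
      simpa using this
  have hF : F ∈ (Submodule.span ℂ (range (@fourier (1 : ℝ)))).topologicalClosure := by
    rw [span_fourier_closure_eq_top]
    exact Submodule.mem_top
  rw [← SetLike.mem_coe, Submodule.topologicalClosure_coe] at hF
  rw [Metric.tendsto_atTop']
  intro ε hε
  obtain ⟨g, hg, hFg⟩ := Metric.mem_closure_iff.mp hF (ε / 4) (by linarith)
  obtain ⟨N, hN⟩ := (Metric.tendsto_atTop'.mp (hspan g hg)) (ε / 2) (by linarith)
  refine ⟨max N 3, fun n hn => ?_⟩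
  have h1 := hN n (lt_of_le_of_lt (le_max_left _ _) hn)
  have h2 := logAvg_congr_bound (a := fun n => F (z n)) (b := fun n => g (z n)) (ε := ε / 4)
    (fun n => by
      rw [← dist_eq_norm]
      exact (ContinuousMap.dist_apply_le_dist (z n)).trans hFg.le)
    (N := n) ((le_max_right _ _).trans hn.le)
  rw [dist_zero_right] at h1 ⊢
  calc ‖logAvg (fun n => F (z n)) n‖ ≤
        ‖logAvg (fun n => F (z n)) n - logAvg (fun n => g (z n)) n‖ +
          ‖logAvg (fun n => g (z n)) n‖ := by
          simpa using norm_add_le (logAvg (fun n => F (z n)) n - logAvg (fun n => g (z n)) n)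
            (logAvg (fun n => g (z n)) n)
    _ < ε := by linarith

theorem ExpSarnak.noTwo (hq : 2 ≤ q) (h : ExpSarnak q) {c : ℕ → Bool} (hc : NoTwo c)
    (hlow : LowC c) : Tendsto (logAvg fun n => if c n then 1 else 0) atTop (𝓝 0) := by
  obtain ⟨F, hF⟩ := exists_digit_function hq
  have hex := bx_expn hq hc
  have h1 := tendsto_of_characters (z := fun n => ((bx q c n : ℝ) : UnitAddCircle)) (fun k => ?_) F
  · refine h1.congr' (Eventually.of_forall fun N => ?_)
    congr 1
    funext n
    exact hF c hc n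
  · have h2 := h (k * bx q c 0) (hex.lowBlocks hq (hlow.comp dg) k)
    refine h2.congr' (Eventually.of_forall fun N => ?_)
    congr 1
    funext n
    obtain ⟨m, hm⟩ := hex.exists_int n
    rw [fourier_coe_apply]
    have h3 : ((q : ℂ) ^ n * ((k * bx q c 0 : ℝ) : ℂ)) = ((k * m : ℤ) : ℂ) + k * (bx q c n : ℂ) := by
      have := congrArg (fun y : ℝ => (y : ℂ)) hm
      push_cast at this ⊢
      linear_combination (k : ℂ) * this
    rw [h3]
    have h4 : 2 * (Real.pi : ℂ) * Complex.I * (((k * m : ℤ) : ℂ) + k * (bx q c n : ℂ)) =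
        2 * (Real.pi : ℂ) * Complex.I * k * (bx q c n : ℂ) / ((1 : ℝ) : ℂ) +
          ((k * m : ℤ) : ℂ) * (2 * (Real.pi : ℂ) * Complex.I) := by
      push_cast
      ring
    rw [h4, Complex.exp_add, Complex.exp_int_mul_two_pi_mul_I, mul_one]

theorem LowC.parity {b : ℕ → Bool} (hb : LowC b) (e : ℕ) :
    LowC fun n => b n && decide (n % 2 = e) := by
  classical
  intro δ hδ
  obtain ⟨L, hL, M, hM, c, hc⟩ := hb δ hδ
  have hMpos : 0 < M := Fin.pos (c 0)
  have hMr : (0 : ℝ) < M := by exact_mod_cast hMpos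
  refine ⟨2 * L, by omega, M * M, ?_, fun m => finProdFinEquiv (c (2 * m), c (2 * m + 1)), ?_⟩
  · push_cast
    rw [Real.log_mul hMr.ne' hMr.ne']
    linarith
  · intro m m' hmm i hi
    have h1 := finProdFinEquiv.injective hmm
    have h2 := congrArg Prod.fst h1
    have h3 := congrArg Prod.snd h1
    simp only at h2 h3
    have hpar : (m * (2 * L) + i) % 2 = (m' * (2 * L) + i) % 2 := by
      have e1 : ∀ x : ℕ, (x * (2 * L) + i) % 2 = i % 2 := by
        intro x
        rw [show x * (2 * L) + i = i + 2 * (x * L) by ring, Nat.add_mul_mod_self_left]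
      rw [e1, e1]
    have hbb : b (m * (2 * L) + i) = b (m' * (2 * L) + i) := by
      by_cases hiL : i < L
      · have := hc _ _ h2 i hiL
        have e1 : ∀ x : ℕ, 2 * x * L + i = x * (2 * L) + i := fun x => by ring
        rwa [e1, e1] at this
      · have := hc _ _ h3 (i - L) (by omega)
        have e1 : ∀ x : ℕ, (2 * x + 1) * L + (i - L) = x * (2 * L) + i := fun x => by
          have : (2 * x + 1) * L + (i - L) = x * (2 * L) + (L + (i - L)) := by ring
          rw [this]
          congr 1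
          omega
        rwa [e1, e1] at this
    show (b (m * (2 * L) + i) && decide ((m * (2 * L) + i) % 2 = e)) =
      (b (m' * (2 * L) + i) && decide ((m' * (2 * L) + i) % 2 = e))
    rw [hbb, hpar]

theorem logSarnak_iff_exp (hq : 2 ≤ q) : LogSarnak ↔ ExpSarnak q := by
  constructor
  · intro h α hα
    obtain ⟨hent, hm⟩ := hα.entropy hq
    have h1 := h.on_compact (X := UnitAddCircle) (continuous_const_smul q)
      (isClosed_closure.isCompact) hm hent (f := fun y => (fourier 1 y : ℂ))
      (fourier 1).continuous (x := ((α : ℝ) : UnitAddCircle))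
      (subset_closure ⟨0, by simp⟩)
    refine h1.congr' (Eventually.of_forall fun N => ?_)
    congr 1
    funext n
    have h2 : (fun y : UnitAddCircle => q • y)^[n] ((α : ℝ) : UnitAddCircle) =
        (((q : ℝ) ^ n * α : ℝ) : UnitAddCircle) := by
      induction n with
      | zero => simp
      | succ n ih =>
        rw [Function.iterate_succ_apply', ih]
        rw [← AddCircle.coe_nsmul]
        congr 1
        rw [nsmul_eq_mul]
        ring
    rw [h2, fourier_coe_apply]
    congr 1
    push_cast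
    ring
  · intro h
    apply logSarnak_of_lowC
    intro b hb
    have h0 : ∀ e : ℕ, NoTwo fun n => b n && decide (n % 2 = e) := by
      intro e n hn
      simp only [Bool.and_eq_true, decide_eq_true_eq] at hn
      simp only [Bool.and_eq_false_iff, decide_eq_false_iff_not]
      right
      omega
    have a0 := h.noTwo hq (h0 0) (hb.parity 0)
    have a1 := h.noTwo hq (h0 1) (hb.parity 1)
    have a2 := tendsto_logAvg_lin a0 a1 1 1
    refine a2.congr' (Eventually.of_forall fun N => ?_)
    congr 1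
    funext n
    rcases Nat.mod_two_eq_zero_or_one n with hn | hn <;> cases hbn : b n <;> simp [hn]

end Pool.Agent.Lib.MP_3e612f_nt
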