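import Pool.Agent.Lib.MP_3e612f_nt.Diffeos

/-!
Expansions of real numbers in base `q` and multiplication by `q` on the circle.
-/

set_option autoImplicit false

namespace Pool.Agent.Lib.MP_3e612f_nt

open Filter Topology Set Dynamics

theorem circle_intCast (m : ℤ) : ((m : ℝ) : UnitAddCircle) = 0 :=
  (AddCircle.coe_eq_zero_iff 1).mpr ⟨m, by simp⟩

/-- `x n` is the real number in `[0,1)` with base `q` digits `d n, d (n+1), …` -/
structure Expn (q : ℕ) (x : ℕ → ℝ) (d : ℕ → ℤ) : Prop where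
  nonneg : ∀ n, 0 ≤ x n
  lt_one : ∀ n, x n < 1
  step : ∀ n, q * x n = d n + x (n + 1)

namespace Expn

variable {q : ℕ} {x : ℕ → ℝ} {d : ℕ → ℤ}

theorem close (h : Expn q x d) (hq : 2 ≤ q) (r : ℕ) : ∀ t t' : ℕ,
    (∀ i : ℕ, i < r → d (t + i) = d (t' + i)) → |x t - x t'| ≤ (1 / q) ^ r := by
  have hq0 : (0 : ℝ) < q := by positivity
  induction r with
  | zero =>
    intro t t' _
    rw [pow_zero, abs_le]
    constructor <;> linarith [h.nonneg t, h.nonneg t', h.lt_one t, h.lt_one t']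
  | succ r ih =>
    intro t t' hd
    have h1 := ih (t + 1) (t' + 1) fun i hi => by
      have := hd (i + 1) (by omega)
      rw [add_assoc, add_comm 1, add_assoc, add_comm 1]
      exact this
    have h2 := hd 0 (Nat.succ_pos r)
    simp only [add_zero] at h2
    have h3 := h.step t
    have h4 := h.step t'
    rw [h2] at h3
    have h5 : x t - x t' = (1 / q) * (x (t + 1) - x (t' + 1)) := by
      field_simp
      linarith
    rw [h5, abs_mul, pow_succ', abs_of_pos (by positivity : (0 : ℝ) < 1 / q)]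
    exact mul_le_mul_of_nonneg_left h1 (by positivity)

theorem floor_succ (h : Expn q x d) (L t : ℕ) :
    ⌊(q : ℝ) ^ (L + 1) * x t⌋ = (q : ℤ) ^ L * d t + ⌊(q : ℝ) ^ L * x (t + 1)⌋ := by
  have h1 : (q : ℝ) ^ (L + 1) * x t = (((q : ℤ) ^ L * d t : ℤ) : ℝ) + (q : ℝ) ^ L * x (t + 1) := by
    push_cast
    rw [pow_succ, mul_assoc, h.step t]
    ring
  rw [h1, Int.floor_intCast_add]

theorem floor_bounds (h : Expn q x d) (hq : 2 ≤ q) (L t : ℕ) :
    0 ≤ ⌊(q : ℝ) ^ L * x t⌋ ∧ ⌊(q : ℝ) ^ L * x t⌋ < (q : ℤ) ^ L := by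
  have hq0 : (0 : ℝ) < (q : ℝ) ^ L := by positivity
  constructor
  · exact Int.floor_nonneg.mpr (mul_nonneg hq0.le (h.nonneg t))
  · rw [Int.floor_lt]
    push_cast
    nlinarith [h.lt_one t]

theorem digits_of_floor (h : Expn q x d) (hq : 2 ≤ q) (L : ℕ) : ∀ t t' : ℕ,
    ⌊(q : ℝ) ^ L * x t⌋ = ⌊(q : ℝ) ^ L * x t'⌋ → ∀ i < L, d (t + i) = d (t' + i) := by
  induction L with
  | zero => intro t t' _ i hi; omega
  | succ L ih =>
    intro t t' he i hi
    rw [h.floor_succ, h.floor_succ] at he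
    obtain ⟨a1, a2⟩ := h.floor_bounds hq L (t + 1)
    obtain ⟨b1, b2⟩ := h.floor_bounds hq L (t' + 1)
    have hqL : (0 : ℤ) < (q : ℤ) ^ L := by positivity
    have hd : d t = d t' := by
      by_contra hne
      rcases lt_or_gt_of_ne hne with h1 | h1
      · have h2 : (q : ℤ) ^ L * (d t + 1) ≤ (q : ℤ) ^ L * d t' :=
          mul_le_mul_of_nonneg_left (by omega) hqL.le
        rw [mul_add, mul_one] at h2
        omega
      · have h2 : (q : ℤ) ^ L * (d t' + 1) ≤ (q : ℤ) ^ L * d t :=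
          mul_le_mul_of_nonneg_left (by omega) hqL.le
        rw [mul_add, mul_one] at h2
        omega
    rw [hd] at he
    rcases i with _ | i
    · simpa using hd
    · have := ih (t + 1) (t' + 1) (by omega) i (by omega)
      rw [add_assoc, add_comm 1, add_assoc, add_comm 1] at this
      exact this

theorem exists_int (h : Expn q x d) (n : ℕ) : ∃ m : ℤ, (q : ℝ) ^ n * x 0 = m + x n := by
  induction n with
  | zero => exact ⟨0, by simp⟩
  | succ n ih =>
    obtain ⟨m, hm⟩ := ih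
    refine ⟨q * m + d n, ?_⟩
    rw [pow_succ, mul_comm ((q : ℝ) ^ n), mul_assoc, hm, mul_add, h.step n]
    push_cast
    ring

/-- the closure of the orbit of `k * x 0` has few classes of orbits -/
theorem zeroCov (h : Expn q x d) (hq : 2 ≤ q) (hd : LowC d) (k : ℤ) :
    ZeroCov (fun y : UnitAddCircle => q • y)
      (closure (range fun n : ℕ => ((k * x n : ℝ) : UnitAddCircle))) := by
  have hS : Continuous fun y : UnitAddCircle => q • y := continuous_const_smul q
  have hrange : (range fun n : ℕ => ((k * x n : ℝ) : UnitAddCircle)) =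
      (fun t : ℤ => ((k * x t.toNat : ℝ) : UnitAddCircle)) '' {t | 0 ≤ t} := by
    ext y
    constructor
    · rintro ⟨n, rfl⟩
      exact ⟨(n : ℤ), by simp, by simp⟩
    · rintro ⟨t, _, rfl⟩
      exact ⟨t.toNat, rfl⟩
  rw [hrange]
  refine zeroCov_of_coding hS (hd.extZ 0) _ (fun t ht => ?_) _ (fun t ht => ?_) ?_
  · have : (0 : ℤ) ≤ t := ht
    show (0 : ℤ) ≤ t + 1
    omega
  · obtain ⟨n, rfl⟩ := Int.eq_ofNat_of_zero_le ht
    have e : ((n : ℤ) + 1).toNat = n + 1 := by omega
    simp only [e, Int.toNat_natCast]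
    rw [← AddCircle.coe_nsmul]
    have h1 : q • ((k : ℝ) * x n) = ((k * d n : ℤ) : ℝ) + k * x (n + 1) := by
      rw [nsmul_eq_mul]
      push_cast
      linear_combination (k : ℝ) * h.step n
    rw [h1, AddCircle.coe_add, circle_intCast, zero_add]
  · intro ε hε
    have hk : (0 : ℝ) < |(k : ℝ)| + 1 := by positivity
    have hq2 : (2 : ℝ) ≤ q := by exact_mod_cast hq
    obtain ⟨r, hr⟩ := exists_pow_lt_of_lt_one (show 0 < ε / (|(k : ℝ)| + 1) by positivity)
      (show (1 / q : ℝ) < 1 by rw [div_lt_one (by linarith)]; linarith)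
    rw [lt_div_iff₀ hk] at hr
    refine ⟨r, fun t ht t' ht' hb => ?_⟩
    obtain ⟨n, rfl⟩ := Int.eq_ofNat_of_zero_le ht
    obtain ⟨n', rfl⟩ := Int.eq_ofNat_of_zero_le ht'
    simp only [Int.toNat_natCast]
    have h1 := h.close hq r n n' fun i hi => by
      have := hb i (by omega) (by omega)
      rw [← Nat.cast_add, ← Nat.cast_add, extZ_natCast, extZ_natCast] at this
      exact this
    rw [dist_eq_norm, ← AddCircle.coe_sub]
    refine lt_of_le_of_lt (QuotientAddGroup.norm_mk_le_norm) ?_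
    rw [← mul_sub, Real.norm_eq_abs, abs_mul]
    calc |(k : ℝ)| * |x n - x n'| ≤ (|(k : ℝ)| + 1) * (1 / q) ^ r :=
          mul_le_mul (by linarith) h1 (abs_nonneg _) hk.le
      _ < ε := by linarith

end Expn

end Pool.Agent.Lib.MP_3e612f_nt
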