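import Pool.Agent.Lib.MP_3e612f_nt.MDefs

/-!
Averages of functions of a window of digits.
-/

set_option autoImplicit false

namespace Pool.Agent.Lib.MP_3e612f_nt.MB

open Filter Topology
open Pool.Agent.Lib.MP_3e612f_nt.QA

/-- the sum over a period does not depend on its start -/
theorem m17_shift {f : ℕ → ℝ} {N : ℕ} (hf : ∀ n, f (n + N) = f n) (u : ℕ) :
    ∑ n ∈ Finset.range N, f (u + n) = ∑ n ∈ Finset.range N, f n := by
  induction u with
  | zero => simp
  | succ u ih =>
    have h1 : ∑ n ∈ Finset.range N, f (u + 1 + n) + f u =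
        ∑ n ∈ Finset.range N, f (u + n) + f (u + N) := by
      have h2 := Finset.sum_range_succ' (fun n => f (u + n)) N
      have h3 := Finset.sum_range_succ (fun n => f (u + n)) N
      rw [h3] at h2
      rw [h2]
      simp only [add_zero]
      congr 1
      apply Finset.sum_congr rfl
      intro n _
      congr 1
      ring
    rw [hf] at h1
    linarith

/-- sums of a periodic function -/
theorem m17_periodic {f : ℕ → ℝ} {N : ℕ} (hf : ∀ n, f (n + N) = f n) (u t ρ : ℕ) :
    ∑ n ∈ Finset.range (N * t + ρ), f (u + n) =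
      t * ∑ n ∈ Finset.range N, f n + ∑ n ∈ Finset.range ρ, f (u + n) := by
  have hmul : ∀ t n, f (n + N * t) = f n := by
    intro t
    induction t with
    | zero => intro n; simp
    | succ t ih => intro n; rw [Nat.mul_succ, ← add_assoc, hf, ih]
  rw [Finset.sum_range_add]
  congr 1
  · induction t with
    | zero => simp
    | succ t ih =>
      rw [Nat.mul_succ, Finset.sum_range_add, ih]
      have h1 : ∑ x ∈ Finset.range N, f (u + (N * t + x)) = ∑ n ∈ Finset.range N, f n := by
        rw [← m17_shift hf u]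
        apply Finset.sum_congr rfl
        intro x _
        rw [show u + (N * t + x) = (u + x) + N * t by ring, hmul]
      rw [h1]
      push_cast
      ring
  · apply Finset.sum_congr rfl
    intro x _
    rw [show u + (N * t + x) = (u + x) + N * t by ring, hmul]

/-- M17: averages of functions of a window of digits -/
theorem per_av {q : ℕ} (hq : 2 ≤ q) {g : ℕ → ℝ} {A : ℝ} (l w : ℕ)
    (hg : ∀ n < q ^ w, |g n| ≤ A) {T : ℕ} (hT : 1 ≤ T) (u : ℕ) :
    |(∑ n ∈ Finset.range T, g ((u + n) / q ^ l % q ^ w)) / T - av q w g| ≤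
      2 * A * q ^ (l + w) / T := by
  have hq0 : 0 < q := by omega
  have hl : 0 < q ^ l := Nat.pow_pos hq0
  have hw : 0 < q ^ w := Nat.pow_pos hq0
  have hA : 0 ≤ A := (abs_nonneg _).trans (hg 0 hw)
  set N := q ^ l * q ^ w with hN
  have hN0 : 0 < N := Nat.mul_pos hl hw
  set f : ℕ → ℝ := fun n => g (n / q ^ l % q ^ w) with hf
  have hper : ∀ n, f (n + N) = f n := by
    intro n
    rw [hf]
    simp only
    rw [hN, Nat.add_mul_div_left _ _ hl, Nat.add_mod_right]
  have hb : ∀ n, |f n| ≤ A := fun n => hg _ (Nat.mod_lt _ hw)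
  have hfull : ∑ n ∈ Finset.range N, f n = N * av q w g := by
    rw [hN, sum_range_mul_add]
    have h1 : ∀ i ∈ Finset.range (q ^ l), ∑ m ∈ Finset.range (q ^ w), f (q ^ l * m + i) =
        ∑ m ∈ Finset.range (q ^ w), g m := by
      intro i hi
      apply Finset.sum_congr rfl
      intro m hm
      rw [hf]
      simp only
      rw [Finset.mem_range] at hi hm
      rw [Nat.mul_add_div hl, Nat.div_eq_of_lt hi, add_zero, Nat.mod_eq_of_lt hm]
    rw [Finset.sum_congr rfl h1, Finset.sum_const, Finset.card_range, nsmul_eq_mul]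
    unfold av
    have hwR : ((q : ℝ) ^ w) ≠ 0 := by positivity
    push_cast
    field_simp
  have hav : |av q w g| ≤ A := abs_av_le hq hg
  have hdiv : N * (T / N) + T % N = T := Nat.div_add_mod T N
  have hρ : T % N < N := Nat.mod_lt _ hN0
  have hTR : (0 : ℝ) < T := by exact_mod_cast hT
  have hsum : ∑ n ∈ Finset.range T, g ((u + n) / q ^ l % q ^ w) =
      ((T / N : ℕ) : ℝ) * (N * av q w g) + ∑ n ∈ Finset.range (T % N), f (u + n) := by
    have h1 := m17_periodic hper u (T / N) (T % N)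
    rw [hdiv, hfull] at h1
    exact h1
  have hrest : |∑ n ∈ Finset.range (T % N), f (u + n)| ≤ (T % N : ℕ) * A := by
    refine (Finset.abs_sum_le_sum_abs _ _).trans ?_
    calc ∑ n ∈ Finset.range (T % N), |f (u + n)| ≤ ∑ n ∈ Finset.range (T % N), A :=
          Finset.sum_le_sum fun n _ => hb _
      _ = (T % N : ℕ) * A := by rw [Finset.sum_const, Finset.card_range, nsmul_eq_mul]
  have hTcast : (T : ℝ) = N * ((T / N : ℕ) : ℝ) + ((T % N : ℕ) : ℝ) := by exact_mod_cast hdiv.symm
  have e1 : (∑ n ∈ Finset.range T, g ((u + n) / q ^ l % q ^ w)) / T - av q w g =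
      (∑ n ∈ Finset.range (T % N), f (u + n) - ((T % N : ℕ) : ℝ) * av q w g) / T := by
    rw [hsum, div_sub' hTR.ne']
    congr 1
    rw [hTcast]
    ring
  have hNR : ((N : ℕ) : ℝ) = (q : ℝ) ^ (l + w) := by rw [hN]; push_cast; rw [pow_add]
  have hρR : ((T % N : ℕ) : ℝ) ≤ (q : ℝ) ^ (l + w) := by
    rw [← hNR]; exact_mod_cast hρ.le
  have hρ0 : (0 : ℝ) ≤ ((T % N : ℕ) : ℝ) := Nat.cast_nonneg _
  rw [e1, abs_div, abs_of_pos hTR]
  apply div_le_div_of_nonneg_right _ hTR.le
  calc |∑ n ∈ Finset.range (T % N), f (u + n) - ((T % N : ℕ) : ℝ) * av q w g| ≤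
      |∑ n ∈ Finset.range (T % N), f (u + n)| + |((T % N : ℕ) : ℝ) * av q w g| := abs_sub _ _
    _ ≤ ((T % N : ℕ) : ℝ) * A + ((T % N : ℕ) : ℝ) * A := by
      apply add_le_add hrest
      rw [abs_mul, abs_of_nonneg hρ0]
      exact mul_le_mul_of_nonneg_left hav hρ0
    _ = 2 * A * ((T % N : ℕ) : ℝ) := by ring
    _ ≤ 2 * A * (q : ℝ) ^ (l + w) := mul_le_mul_of_nonneg_left hρR (by positivity)

end Pool.Agent.Lib.MP_3e612f_nt.MB
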