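import Pool.Agent.Lib.MP_3e612f_nt.MDefs

/-!
The smoothed functions vary slowly.
-/

set_option autoImplicit false

namespace Pool.Agent.Lib.MP_3e612f_nt.MB

open Filter Topology
open Pool.Agent.Lib.MP_3e612f_nt.QA

variable {ι : Type*} [Fintype ι] [DecidableEq ι] {d : ι → ℕ}

theorem m27_mem_box (L : ℕ) (v : ∀ i, Fin (d i) → ℤ) :
    v ∈ box d L ↔ ∀ i a, 0 ≤ v i a ∧ v i a < L := by
  simp [box, Fintype.mem_piFinset, Finset.mem_Ico]

/-- M27a: the smoothed functions vary slowly -/
theorem smoP_slow {L : ℕ} (hL : 1 ≤ L) {g : (∀ i, Fin (d i) → ℤ) → ℝ} (hg : ∀ x, |g x| ≤ 1) :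
    SlowP (2 / L) (smoP L g) := by
  have hcard : (box d L).card = ∏ i, L ^ d i := by
    simp [box, Fintype.card_piFinset]
  have hpos : 0 < (box d L).card := by
    rw [hcard]
    exact Finset.prod_pos fun i _ => Nat.pow_pos (by omega)
  have hposR : (0 : ℝ) < ((box d L).card : ℝ) := by exact_mod_cast hpos
  constructor
  · intro x
    unfold smoP
    rw [abs_div, abs_of_pos hposR, div_le_one hposR]
    calc |∑ v ∈ box d L, g (x + v)| ≤ ∑ v ∈ box d L, |g (x + v)| := Finset.abs_sum_le_sum_abs _ _
      _ ≤ ∑ v ∈ box d L, (1 : ℝ) := Finset.sum_le_sum fun v _ => hg _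
      _ = ((box d L).card : ℝ) := by simp
  · intro x i a
    set δ : ∀ i, Fin (d i) → ℤ := Pi.single i (Pi.single a 1) with hδ
    have hδia : δ i a = 1 := by rw [hδ]; simp
    -- the shifted box
    set B := box d L with hB
    set B' := B.map (addRightEmbedding δ) with hB'
    have hsum1 : ∑ v ∈ B, g (x + δ + v) = ∑ v ∈ B', g (x + v) := by
      rw [hB', Finset.sum_map]
      apply Finset.sum_congr rfl
      intro v _
      rw [addRightEmbedding_apply]
      congr 1
      abel
    have hsplit : ∑ v ∈ B', g (x + v) - ∑ v ∈ B, g (x + v) =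
        ∑ v ∈ B' \ B, g (x + v) - ∑ v ∈ B \ B', g (x + v) := by
      rw [← Finset.sum_sdiff_sub_sum_sdiff]
    have hδ_le : ∀ j b, 0 ≤ δ j b ∧ δ j b ≤ 1 := by
      intro j b
      rw [hδ]
      by_cases hj : j = i
      · subst hj
        rw [Pi.single_eq_same]
        by_cases hb : b = a
        · subst hb; simp
        · rw [Pi.single_eq_of_ne hb]; simp
      · rw [Pi.single_eq_of_ne hj]; simp
    have hδ_ne : ∀ j b, δ j b ≠ 0 → ∃ h : j = i, h ▸ b = a := by
      intro j b hne
      rw [hδ] at hne
      by_cases hj : j = i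
      · subst hj
        rw [Pi.single_eq_same] at hne
        refine ⟨rfl, ?_⟩
        by_contra hb
        exact hne (Pi.single_eq_of_ne hb _)
      · rw [Pi.single_eq_of_ne hj] at hne; simp at hne
    -- the faces
    have hface1 : ∀ v ∈ B \ B', v i a = 0 := by
      intro v hv
      rw [Finset.mem_sdiff] at hv
      obtain ⟨h1, h2⟩ := hv
      rw [hB, m27_mem_box] at h1
      by_contra h3
      apply h2
      rw [hB', Finset.mem_map]
      refine ⟨v - δ, ?_, by rw [addRightEmbedding_apply]; abel⟩
      rw [hB, m27_mem_box]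
      intro j b
      have hjb := hδ_le j b
      have h4 := h1 j b
      have h5 : (v - δ) j b = v j b - δ j b := rfl
      rw [h5]
      constructor
      · by_cases h6 : δ j b = 0
        · rw [h6]; omega
        · obtain ⟨rfl, h7⟩ := hδ_ne j b h6
          simp only at h7
          subst h7
          omega
      · omega
    have hface2 : ∀ v ∈ B' \ B, v i a = L := by
      intro v hv
      rw [Finset.mem_sdiff] at hv
      obtain ⟨h1, h2⟩ := hv
      rw [hB', Finset.mem_map] at h1
      obtain ⟨w, hw, rfl⟩ := h1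
      rw [hB, m27_mem_box] at hw
      rw [addRightEmbedding_apply] at h2 ⊢
      by_contra h3
      apply h2
      rw [hB, m27_mem_box]
      intro j b
      have hjb := hδ_le j b
      have h4 := hw j b
      have h5 : (w + δ) j b = w j b + δ j b := rfl
      have h5' : (w + δ) i a = w i a + δ i a := rfl
      rw [h5]
      rw [h5', hδia] at h3
      constructor
      · omega
      · by_cases h6 : δ j b = 0
        · rw [h6]; omega
        · obtain ⟨rfl, h7⟩ := hδ_ne j b h6
          simp only at h7
          subst h7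
          have := hw j b
          omega
    -- cardinalities of faces
    have hcardface : ∀ (S : Finset (∀ i, Fin (d i) → ℤ)) (t : ℤ), (∀ v ∈ S, v i a = t) →
        (∀ v ∈ S, ∀ j b, δ j b = 0 → 0 ≤ v j b ∧ v j b < L) → L * S.card ≤ B.card := by
      intro S t hS1 hS2
      have hinj : Set.InjOn (fun p : (∀ i, Fin (d i) → ℤ) × ℕ =>
          p.1 + ((p.2 : ℤ) - t) • δ) (S ×ˢ Finset.range L : Finset _) := by
        rintro ⟨v, s⟩ hv ⟨v', s'⟩ hv' heq
        simp only [Finset.coe_product, Set.mem_prod, Finset.mem_coe] at hv hv'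
        simp only at heq
        have h1 := congrFun (congrFun heq i) a
        have h2 : (v + ((s : ℤ) - t) • δ) i a = v i a + ((s : ℤ) - t) * δ i a := rfl
        have h3 : (v' + ((s' : ℤ) - t) • δ) i a = v' i a + ((s' : ℤ) - t) * δ i a := rfl
        rw [h2, h3, hδia, hS1 v hv.1, hS1 v' hv'.1] at h1
        have h4 : s = s' := by omega
        subst h4
        have h5 : v = v' := add_right_cancel heq
        rw [h5]
      have hsub : (S ×ˢ Finset.range L).image (fun p : (∀ i, Fin (d i) → ℤ) × ℕ =>
          p.1 + ((p.2 : ℤ) - t) • δ) ⊆ B := by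
        intro w hw
        rw [Finset.mem_image] at hw
        obtain ⟨⟨v, s⟩, hvs, rfl⟩ := hw
        rw [Finset.mem_product, Finset.mem_range] at hvs
        rw [hB, m27_mem_box]
        intro j b
        have h2 : (v + ((s : ℤ) - t) • δ) j b = v j b + ((s : ℤ) - t) * δ j b := rfl
        rw [h2]
        by_cases h6 : δ j b = 0
        · rw [h6, mul_zero, add_zero]
          exact hS2 v hvs.1 j b h6
        · obtain ⟨rfl, h7⟩ := hδ_ne j b h6
          simp only at h7
          subst h7
          rw [hδia, hS1 v hvs.1]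
          have := hvs.2
          constructor <;> omega
      have h1 := Finset.card_le_card hsub
      rw [Finset.card_image_of_injOn hinj, Finset.card_product, Finset.card_range] at h1
      rw [mul_comm]
      exact h1
    have hc1 : L * (B \ B').card ≤ B.card := by
      apply hcardface (B \ B') 0 hface1
      intro v hv j b _
      have := (Finset.mem_sdiff.1 hv).1
      rw [hB, m27_mem_box] at this
      exact this j b
    have hc2 : L * (B' \ B).card ≤ B.card := by
      apply hcardface (B' \ B) L hface2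
      intro v hv j b hjb
      have h1 := (Finset.mem_sdiff.1 hv).1
      rw [hB', Finset.mem_map] at h1
      obtain ⟨w, hw, rfl⟩ := h1
      rw [hB, m27_mem_box] at hw
      rw [addRightEmbedding_apply]
      have h5 : (w + δ) j b = w j b + δ j b := rfl
      rw [h5, hjb, add_zero]
      exact hw j b
    have hLR : (0 : ℝ) < L := by exact_mod_cast hL
    have hbound : ∀ S : Finset (∀ i, Fin (d i) → ℤ), L * S.card ≤ B.card →
        |∑ v ∈ S, g (x + v)| ≤ (B.card : ℝ) / L := by
      intro S hS
      have h1 : |∑ v ∈ S, g (x + v)| ≤ (S.card : ℝ) := by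
        calc |∑ v ∈ S, g (x + v)| ≤ ∑ v ∈ S, |g (x + v)| := Finset.abs_sum_le_sum_abs _ _
          _ ≤ ∑ v ∈ S, (1 : ℝ) := Finset.sum_le_sum fun v _ => hg _
          _ = (S.card : ℝ) := by simp
      refine h1.trans ?_
      rw [le_div_iff₀ hLR]
      have : ((L * S.card : ℕ) : ℝ) ≤ (B.card : ℝ) := by exact_mod_cast hS
      push_cast at this
      linarith
    unfold smoP
    rw [← sub_div, hsum1, hsplit, abs_div, abs_of_pos hposR, div_le_iff₀ hposR]
    calc |∑ v ∈ B' \ B, g (x + v) - ∑ v ∈ B \ B', g (x + v)| ≤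
        |∑ v ∈ B' \ B, g (x + v)| + |∑ v ∈ B \ B', g (x + v)| := abs_sub _ _
      _ ≤ (B.card : ℝ) / L + (B.card : ℝ) / L := add_le_add (hbound _ hc2) (hbound _ hc1)
      _ = 2 / L * (B.card : ℝ) := by ring

end Pool.Agent.Lib.MP_3e612f_nt.MB
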