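import Pool.Agent.Lib.MP_3e612f_nt.QAlg

/-!
Extension of functions on a coset of the subgroup of defects to the whole group, and the cost of
the shifts.
-/

set_option autoImplicit false

namespace Pool.Agent.Lib.MP_3e612f_nt.QA

open Filter Topology

variable {H : Type*} [AddCommGroup H]

/-- the number of steps from `x` to the coset of `u` -/
noncomputable def jmin (e : ℕ → H) (u x : H) : ℕ := sInf {j : ℕ | x + j • e 1 - u ∈ Lam e}

/-- the extension to the group of the restriction of `g` to the coset of `u` -/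
noncomputable def ext (e : ℕ → H) (u : H) (g : H → ℝ) (x : H) : ℝ := g (x + jmin e u x • e 1)

/-- the element of the subgroup of defects attached to a shift -/
noncomputable def lamv (e : ℕ → H) (v : H) : H := v + jmin e 0 v • e 1

theorem one_class {q m : ℕ} (hq : 2 ≤ q) {e : ℕ → H}
    (he : ∀ a y s : ℕ, s < q ^ a → e (q ^ (a + m) * y + s) = e y + e s) :
    (q - 1) • e 1 ∈ Lam e := by
  have h1 := lam_nsmul e q
  have h2 : e q - e 1 ∈ Lam e := by
    refine lam_mod hq he ?_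
    have h3 : q = 1 + (q - 1) := by omega
    have h4 : 1 + (q - 1) ≡ 1 [MOD (q - 1)] := by
      show (1 + (q - 1)) % (q - 1) = 1 % (q - 1)
      exact Nat.add_mod_right 1 (q - 1)
    rwa [← h3] at h4
  have h3 : (q - 1) • e 1 = (e q - e 1) - (e q - q • e 1) := by
    have h4 : q • e 1 = (q - 1) • e 1 + e 1 := by
      rw [← succ_nsmul]
      congr 1
      omega
    rw [h4]
    abel
  rw [h3]
  exact AddSubgroup.sub_mem _ h2 h1

theorem exists_int {e : ℕ → H} (hgen : AddSubgroup.closure (Set.range e) = ⊤) (x : H) :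
    ∃ n : ℤ, x - n • e 1 ∈ Lam e := by
  have hx : x ∈ AddSubgroup.closure (Set.range e) := by
    rw [hgen]
    trivial
  induction hx using AddSubgroup.closure_induction with
  | mem y hy =>
    obtain ⟨n, rfl⟩ := hy
    refine ⟨n, ?_⟩
    rw [natCast_zsmul]
    exact lam_nsmul e n
  | zero => exact ⟨0, by simp⟩
  | add y z _ _ hy hz =>
    obtain ⟨n, hn⟩ := hy
    obtain ⟨n', hn'⟩ := hz
    refine ⟨n + n', ?_⟩
    have e1 : y + z - (n + n') • e 1 = (y - n • e 1) + (z - n' • e 1) := by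
      rw [add_zsmul]
      abel
    rw [e1]
    exact AddSubgroup.add_mem _ hn hn'
  | neg y _ hy =>
    obtain ⟨n, hn⟩ := hy
    refine ⟨-n, ?_⟩
    have e1 : -y - (-n) • e 1 = -(y - n • e 1) := by
      rw [neg_zsmul]
      abel
    rw [e1]
    exact AddSubgroup.neg_mem _ hn

theorem exists_steps {q m : ℕ} (hq : 2 ≤ q) {e : ℕ → H}
    (he : ∀ a y s : ℕ, s < q ^ a → e (q ^ (a + m) * y + s) = e y + e s)
    (hgen : AddSubgroup.closure (Set.range e) = ⊤) (u x : H) :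
    ∃ j : ℕ, j ≤ q ∧ x + j • e 1 - u ∈ Lam e := by
  obtain ⟨n, hn⟩ := exists_int hgen x
  obtain ⟨n', hn'⟩ := exists_int hgen u
  have hone := one_class hq he
  have hq1 : (0 : ℤ) < (q - 1 : ℕ) := by
    have : 0 < q - 1 := by omega
    exact_mod_cast this
  set j : ℕ := ((n' - n) % ((q - 1 : ℕ) : ℤ)).toNat with hj
  have hj0 : 0 ≤ (n' - n) % ((q - 1 : ℕ) : ℤ) := Int.emod_nonneg _ hq1.ne'
  have hj1 : (n' - n) % ((q - 1 : ℕ) : ℤ) < (q - 1 : ℕ) := Int.emod_lt_of_pos _ hq1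
  have hj2 : (j : ℤ) = (n' - n) % ((q - 1 : ℕ) : ℤ) := Int.toNat_of_nonneg hj0
  refine ⟨j, ?_, ?_⟩
  · have : (j : ℤ) < (q - 1 : ℕ) := by rw [hj2]; exact hj1
    omega
  · obtain ⟨w, hw⟩ : ∃ w : ℤ, n + j - n' = w * ((q - 1 : ℕ) : ℤ) := by
      refine ⟨-((n' - n) / ((q - 1 : ℕ) : ℤ)), ?_⟩
      have := Int.emod_add_mul_ediv (n' - n) ((q - 1 : ℕ) : ℤ)
      rw [hj2]
      linarith
    have e1 : x + j • e 1 - u = (x - n • e 1) - (u - n' • e 1) + w • ((q - 1) • e 1) := by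
      have e2 : w • ((q - 1) • e 1) = (n + j - n') • e 1 := by
        rw [hw, mul_zsmul, natCast_zsmul]
      rw [e2, sub_zsmul, add_zsmul, natCast_zsmul]
      abel
    rw [e1]
    exact AddSubgroup.add_mem _ (AddSubgroup.sub_mem _ hn hn') (AddSubgroup.zsmul_mem _ hone w)

theorem jmin_le {q m : ℕ} (hq : 2 ≤ q) {e : ℕ → H}
    (he : ∀ a y s : ℕ, s < q ^ a → e (q ^ (a + m) * y + s) = e y + e s)
    (hgen : AddSubgroup.closure (Set.range e) = ⊤) (u x : H) : jmin e u x ≤ q := by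
  obtain ⟨j, hj, hj'⟩ := exists_steps hq he hgen u x
  exact (Nat.sInf_le hj').trans hj

theorem jmin_mem {q m : ℕ} (hq : 2 ≤ q) {e : ℕ → H}
    (he : ∀ a y s : ℕ, s < q ^ a → e (q ^ (a + m) * y + s) = e y + e s)
    (hgen : AddSubgroup.closure (Set.range e) = ⊤) (u x : H) :
    x + jmin e u x • e 1 - u ∈ Lam e := by
  obtain ⟨j, hj, hj'⟩ := exists_steps hq he hgen u x
  exact Nat.sInf_mem (s := {j : ℕ | x + j • e 1 - u ∈ Lam e}) ⟨j, hj'⟩

theorem jmin_congr {e : ℕ → H} {u u' x x' : H} (h : (x - u) - (x' - u') ∈ Lam e) :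
    jmin e u x = jmin e u' x' := by
  unfold jmin
  congr 1
  ext j
  simp only [Set.mem_ofPred_eq]
  have e1 : x + j • e 1 - u = (x' + j • e 1 - u') + ((x - u) - (x' - u')) := by abel
  rw [e1]
  exact AddSubgroup.add_mem_cancel_right _ h

theorem jmin_zero {e : ℕ → H} {u x : H} (h : x - u ∈ Lam e) : jmin e u x = 0 := by
  unfold jmin
  refine Nat.sInf_eq_zero.mpr (Or.inl ?_)
  simp only [Set.mem_ofPred_eq, zero_smul, add_zero]
  exact h

theorem ext_self {e : ℕ → H} {u x : H} (h : x - u ∈ Lam e) (g : H → ℝ) : ext e u g x = g x := by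
  unfold ext
  rw [jmin_zero h, zero_smul, add_zero]

theorem ext_add {e : ℕ → H} {u x : H} (h : x - u ∈ Lam e) (g : H → ℝ) (v : H) :
    ext e u g (x + v) = g (x + lamv e v) := by
  unfold ext lamv
  have h1 : jmin e u (x + v) = jmin e 0 v := by
    refine jmin_congr ?_
    have e1 : x + v - u - (v - 0) = x - u := by abel
    rw [e1]
    exact h
  rw [h1, add_assoc]

theorem ext_congr {e : ℕ → H} {u u' : H} (h : u - u' ∈ Lam e) (g : H → ℝ) :
    ext e u g = ext e u' g := by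
  funext x
  unfold ext
  have h1 : jmin e u x = jmin e u' x := by
    refine jmin_congr ?_
    have e1 : x - u - (x - u') = -(u - u') := by abel
    rw [e1]
    exact AddSubgroup.neg_mem _ h
  rw [h1]

theorem lamv_mem {q m : ℕ} (hq : 2 ≤ q) {e : ℕ → H}
    (he : ∀ a y s : ℕ, s < q ^ a → e (q ^ (a + m) * y + s) = e y + e s)
    (hgen : AddSubgroup.closure (Set.range e) = ⊤) (v : H) : lamv e v ∈ Lam e := by
  have h := jmin_mem hq he hgen 0 v
  rwa [sub_zero] at h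

theorem lamv_add {e : ℕ → H} {w : H} (hw : w ∈ Lam e) (v : H) :
    lamv e (w + v) = w + lamv e v := by
  unfold lamv
  have h1 : jmin e 0 (w + v) = jmin e 0 v := by
    refine jmin_congr ?_
    have e1 : w + v - 0 - (v - 0) = w := by abel
    rw [e1]
    exact hw
  rw [h1, add_assoc]

theorem smul_mem_lam {q m : ℕ} (hq : 2 ≤ q) {e : ℕ → H}
    (he : ∀ a y s : ℕ, s < q ^ a → e (q ^ (a + m) * y + s) = e y + e s)
    (hgen : AddSubgroup.closure (Set.range e) = ⊤) (x : H) : (q - 1) • x ∈ Lam e := by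
  obtain ⟨n, hn⟩ := exists_int hgen x
  have h1 := AddSubgroup.nsmul_mem _ hn (q - 1)
  have h2 := AddSubgroup.zsmul_mem _ (one_class hq he) n
  have e1 : (q - 1) • x = (q - 1) • (x - n • e 1) + n • ((q - 1) • e 1) := by
    rw [nsmul_sub]
    have : (q - 1) • n • e 1 = n • (q - 1) • e 1 := smul_comm _ _ _
    rw [this]
    abel
  rw [e1]
  exact AddSubgroup.add_mem _ h1 h2

/-- linear bound for the cost of the shifts -/
theorem lamv_cost {q m d : ℕ} (hq : 2 ≤ q) {e : ℕ → Fin d → ℤ}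
    (he : ∀ a y s : ℕ, s < q ^ a → e (q ^ (a + m) * y + s) = e y + e s)
    (hgen : AddSubgroup.closure (Set.range e) = ⊤) {N : (Fin d → ℤ) → ℝ → Prop}
    (h0 : N 0 0) (hadd : ∀ v w c c', N v c → N w c' → N (v + w) (c + c'))
    (hmono : ∀ v c c', N v c → c ≤ c' → N v c') (hN : ∀ v ∈ Lam e, ∃ c, 0 ≤ c ∧ N v c) :
    ∃ C : ℝ, 0 ≤ C ∧ ∀ L : ℕ, 1 ≤ L → ∀ v : Fin d → ℤ, (∀ a, 0 ≤ v a) →
      (∀ a, v a ≤ 2 * (L : ℤ)) → N (lamv e v) (C * L) := by
  classical
  have hq1 : 0 < q - 1 := by omega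
  have hq1' : (0 : ℤ) < ((q - 1 : ℕ) : ℤ) := by exact_mod_cast hq1
  -- the constants
  have hA : ∀ a : Fin d, ∃ c, 0 ≤ c ∧ N ((q - 1) • (Pi.single a 1 : Fin d → ℤ)) c := fun a =>
    hN _ (smul_mem_lam hq he hgen _)
  choose cA hcA0 hcA using hA
  have hB : ∀ ρ : Fin d → ℤ, ∃ c, 0 ≤ c ∧ N (lamv e ρ) c := fun ρ =>
    hN _ (lamv_mem hq he hgen _)
  choose cB hcB0 hcB using hB
  set box : Finset (Fin d → ℤ) := Fintype.piFinset (fun _ => (Finset.range (q - 1)).map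
    ⟨fun n : ℕ => (n : ℤ), Nat.cast_injective⟩) with hbox
  have hnsmul : ∀ (w : ℕ) (v : Fin d → ℤ) (c : ℝ), N v c → N (w • v) (w * c) := by
    intro w v c hv
    induction w with
    | zero => simpa using h0
    | succ w ih =>
      rw [succ_nsmul]
      have := hadd _ _ _ _ ih hv
      push_cast
      rwa [add_mul, one_mul]
  have hsum : ∀ (s : Finset (Fin d)) (f : Fin d → Fin d → ℤ) (c : Fin d → ℝ),
      (∀ a, N (f a) (c a)) → N (∑ a ∈ s, f a) (∑ a ∈ s, c a) := by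
    intro s f c hf
    induction s using Finset.induction_on with
    | empty => simpa using h0
    | insert a s ha ih =>
      rw [Finset.sum_insert ha, Finset.sum_insert ha]
      exact hadd _ _ _ _ (hf a) ih
  refine ⟨2 * ∑ a, cA a + ∑ ρ ∈ box, cB ρ, by
    have h1 : 0 ≤ ∑ a, cA a := Finset.sum_nonneg fun a _ => hcA0 a
    have h2 : 0 ≤ ∑ ρ ∈ box, cB ρ := Finset.sum_nonneg fun ρ _ => hcB0 ρ
    positivity, ?_⟩
  intro L hL v hv0 hv1
  set w : Fin d → ℕ := fun a => (v a / ((q - 1 : ℕ) : ℤ)).toNat with hw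
  set ρ : Fin d → ℤ := fun a => v a % ((q - 1 : ℕ) : ℤ) with hρ
  have hw' : ∀ a, ((w a : ℕ) : ℤ) = v a / ((q - 1 : ℕ) : ℤ) := fun a =>
    Int.toNat_of_nonneg (Int.ediv_nonneg (hv0 a) hq1'.le)
  have hdec : v = (∑ a, w a • ((q - 1) • (Pi.single a 1 : Fin d → ℤ))) + ρ := by
    funext b
    rw [Pi.add_apply, Finset.sum_apply]
    have e1 : ∀ a, (w a • ((q - 1) • (Pi.single a 1 : Fin d → ℤ))) b =
        if a = b then ((w a : ℕ) : ℤ) * ((q - 1 : ℕ) : ℤ) else 0 := by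
      intro a
      rw [Pi.smul_apply, Pi.smul_apply, nsmul_eq_mul, nsmul_eq_mul]
      by_cases hab : a = b
      · subst hab
        rw [Pi.single_eq_same, if_pos rfl]
        ring
      · rw [Pi.single_eq_of_ne (Ne.symm hab), if_neg hab]
        ring
    rw [Finset.sum_congr rfl fun a _ => e1 a, Finset.sum_ite_eq' Finset.univ b
      (fun a => ((w a : ℕ) : ℤ) * ((q - 1 : ℕ) : ℤ)), if_pos (Finset.mem_univ b), hw' b]
    have := Int.ediv_mul_add_emod (v b) ((q - 1 : ℕ) : ℤ)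
    rw [hρ]
    linarith
  have hρbox : ρ ∈ box := by
    rw [hbox, Fintype.mem_piFinset]
    intro a
    rw [Finset.mem_map]
    have h1 : 0 ≤ ρ a := Int.emod_nonneg _ hq1'.ne'
    have h2 : ρ a < ((q - 1 : ℕ) : ℤ) := Int.emod_lt_of_pos _ hq1'
    refine ⟨(ρ a).toNat, ?_, ?_⟩
    · rw [Finset.mem_range]
      omega
    · exact Int.toNat_of_nonneg h1
  have hmem : (∑ a, w a • ((q - 1) • (Pi.single a 1 : Fin d → ℤ))) ∈ Lam e :=
    AddSubgroup.sum_mem _ fun a _ => AddSubgroup.nsmul_mem _ (smul_mem_lam hq he hgen _) _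
  rw [hdec, lamv_add hmem]
  refine hmono _ _ _ (hadd _ _ _ _ (hsum Finset.univ _ (fun a => (w a : ℝ) * cA a)
    (fun a => hnsmul _ _ _ (hcA a))) (hcB ρ)) ?_
  have hL1 : (1 : ℝ) ≤ L := by exact_mod_cast hL
  have h1 : ∑ a, (w a : ℝ) * cA a ≤ 2 * L * ∑ a, cA a := by
    rw [Finset.mul_sum]
    refine Finset.sum_le_sum fun a _ => mul_le_mul_of_nonneg_right ?_ (hcA0 a)
    have h2 : v a / ((q - 1 : ℕ) : ℤ) ≤ v a := Int.ediv_le_self _ (hv0 a)
    have h3 : ((w a : ℕ) : ℤ) ≤ 2 * (L : ℤ) := by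
      rw [hw' a]
      exact h2.trans (hv1 a)
    exact_mod_cast h3
  have h2 : cB ρ ≤ ∑ ρ ∈ box, cB ρ := Finset.single_le_sum (fun ρ _ => hcB0 ρ) hρbox
  have h3 : 0 ≤ ∑ ρ ∈ box, cB ρ := Finset.sum_nonneg fun ρ _ => hcB0 ρ
  nlinarith

end Pool.Agent.Lib.MP_3e612f_nt.QA
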