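import Mathlib

/-! MP_3e612f_nt (several coprime bases), M8: Cauchy-Schwarz on the support (helper39). -/

set_option autoImplicit false

namespace Pool.Agent.Lib.MP_3e612f_nt.MB

/-- number of coincidences as a sum over values -/
theorem coll_pairs {α : Type*} [DecidableEq α] (X : ℕ) (Z Z' : ℕ → α) (U : Finset α)
    (hU : ∀ r < X, Z r ∈ U) :
    ∑ x ∈ U, (∑ r ∈ Finset.range X, if Z r = x then (1 : ℝ) else 0) *
      (∑ r ∈ Finset.range X, if Z' r = x then (1 : ℝ) else 0) =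
      ∑ r ∈ Finset.range X, ∑ r' ∈ Finset.range X, if Z r = Z' r' then (1 : ℝ) else 0 := by
  simp_rw [Finset.sum_mul_sum]
  rw [Finset.sum_comm]
  apply Finset.sum_congr rfl
  intro r hr
  rw [Finset.sum_comm]
  apply Finset.sum_congr rfl
  intro r' _
  have hmem := hU r (Finset.mem_range.mp hr)
  rw [Finset.sum_eq_single_of_mem (Z r) hmem]
  · by_cases h : Z r = Z' r'
    · simp [h]
    · have h' : ¬ Z' r' = Z r := fun h1 => h h1.symm
      simp [h, h']
  · intro b _ hb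
    have : ¬ Z r = b := fun h => hb h.symm
    simp [this]

/-- splitting off the values outside of `S` -/
theorem coll_split {α : Type*} [DecidableEq α] (X : ℕ) (Z : ℕ → α) (S : Finset α) {Ψ : α → ℝ}
    (hΨ : ∀ x, |Ψ x| ≤ 1) :
    |∑ r ∈ Finset.range X, Ψ (Z r) -
      ∑ x ∈ S, Ψ x * (∑ r ∈ Finset.range X, if Z r = x then (1 : ℝ) else 0)| ≤
      (((Finset.range X).filter (fun r => Z r ∉ S)).card : ℝ) := by
  have h1 : ∑ x ∈ S, Ψ x * (∑ r ∈ Finset.range X, if Z r = x then (1 : ℝ) else 0) =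
      ∑ r ∈ Finset.range X, if Z r ∈ S then Ψ (Z r) else 0 := by
    simp_rw [Finset.mul_sum]
    rw [Finset.sum_comm]
    apply Finset.sum_congr rfl
    intro r _
    simp
  rw [h1, ← Finset.sum_sub_distrib]
  calc |∑ r ∈ Finset.range X, (Ψ (Z r) - if Z r ∈ S then Ψ (Z r) else 0)|
      ≤ ∑ r ∈ Finset.range X, |Ψ (Z r) - if Z r ∈ S then Ψ (Z r) else 0| :=
        Finset.abs_sum_le_sum_abs _ _
    _ ≤ ∑ r ∈ Finset.range X, (if Z r ∉ S then (1 : ℝ) else 0) := by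
        apply Finset.sum_le_sum
        intro r _
        by_cases h : Z r ∈ S
        · simp [h]
        · simp [h, hΨ]
    _ = _ := by
        rw [Finset.sum_ite]
        simp

/-- M8: Cauchy-Schwarz on the support -/
theorem coll {α : Type*} [DecidableEq α] {X : ℕ} (hX : 1 ≤ X) (Z : ℕ → α) {σ : α → α}
    (hσ : Function.Injective σ) (S : Finset α) {Ψ : α → ℝ} (hΨ : ∀ x, |Ψ x| ≤ 1) :
    |(∑ r ∈ Finset.range X, (Ψ (Z r) - Ψ (σ (Z r)))) / X| ≤
      Real.sqrt (S.card * ((∑ r ∈ Finset.range X, ∑ r' ∈ Finset.range X,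
        2 * ((if Z r = Z r' then (1 : ℝ) else 0) - (if Z r = σ (Z r') then (1 : ℝ) else 0))) /
          (X : ℝ) ^ 2)) +
      (((Finset.range X).filter (fun r => Z r ∉ S)).card : ℝ) / X +
      (((Finset.range X).filter (fun r => σ (Z r) ∉ S)).card : ℝ) / X := by
  have hXr : (0 : ℝ) < X := by exact_mod_cast hX
  set Pc : α → ℝ := fun x => ∑ r ∈ Finset.range X, if Z r = x then (1 : ℝ) else 0 with hPc
  set Qc : α → ℝ := fun x => ∑ r ∈ Finset.range X, if σ (Z r) = x then (1 : ℝ) else 0 with hQc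
  set U : Finset α := S ∪ (Finset.range X).image Z ∪ (Finset.range X).image (fun r => σ (Z r))
    with hU
  have hZU : ∀ r < X, Z r ∈ U := by
    intro r hr
    rw [hU]
    apply Finset.mem_union_left
    apply Finset.mem_union_right
    exact Finset.mem_image_of_mem _ (Finset.mem_range.mpr hr)
  have hσU : ∀ r < X, σ (Z r) ∈ U := by
    intro r hr
    rw [hU]
    apply Finset.mem_union_right
    exact Finset.mem_image.mpr ⟨r, Finset.mem_range.mpr hr, rfl⟩
  have hSU : S ⊆ U := by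
    rw [hU]
    exact (Finset.subset_union_left).trans Finset.subset_union_left
  -- the collision sum
  set K : ℝ := ∑ r ∈ Finset.range X, ∑ r' ∈ Finset.range X,
    2 * ((if Z r = Z r' then (1 : ℝ) else 0) - (if Z r = σ (Z r') then (1 : ℝ) else 0)) with hK
  have hKeq : ∑ x ∈ U, (Pc x - Qc x) ^ 2 = K := by
    have e1 := coll_pairs X Z Z U hZU
    have e2 := coll_pairs X Z (fun r => σ (Z r)) U hZU
    have e3 := coll_pairs X (fun r => σ (Z r)) (fun r => σ (Z r)) U hσU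
    have e3' : ∑ r ∈ Finset.range X, ∑ r' ∈ Finset.range X,
        (if σ (Z r) = σ (Z r') then (1 : ℝ) else 0) =
        ∑ r ∈ Finset.range X, ∑ r' ∈ Finset.range X, (if Z r = Z r' then (1 : ℝ) else 0) := by
      apply Finset.sum_congr rfl
      intro r _
      apply Finset.sum_congr rfl
      intro r' _
      simp [hσ.eq_iff]
    have h1 : ∑ x ∈ U, (Pc x - Qc x) ^ 2 =
        ∑ x ∈ U, Pc x * Pc x + ∑ x ∈ U, Qc x * Qc x - 2 * ∑ x ∈ U, Pc x * Qc x := by
      rw [Finset.mul_sum, ← Finset.sum_add_distrib, ← Finset.sum_sub_distrib]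
      apply Finset.sum_congr rfl
      intro x _
      ring
    rw [h1]
    rw [e1, e3, e3', e2, hK]
    simp_rw [← Finset.mul_sum, Finset.sum_sub_distrib]
    ring
  -- main estimate
  have hmain : |∑ x ∈ S, Ψ x * (Pc x - Qc x)| ≤ Real.sqrt (S.card * K) := by
    have h2 : |∑ x ∈ S, Ψ x * (Pc x - Qc x)| ≤ ∑ x ∈ S, 1 * |Pc x - Qc x| := by
      calc |∑ x ∈ S, Ψ x * (Pc x - Qc x)| ≤ ∑ x ∈ S, |Ψ x * (Pc x - Qc x)| :=
            Finset.abs_sum_le_sum_abs _ _
        _ ≤ ∑ x ∈ S, 1 * |Pc x - Qc x| := by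
            apply Finset.sum_le_sum
            intro x _
            rw [abs_mul]
            exact mul_le_mul_of_nonneg_right (hΨ x) (abs_nonneg _)
    have h3 : (∑ x ∈ S, 1 * |Pc x - Qc x|) ^ 2 ≤ S.card * K := by
      calc (∑ x ∈ S, 1 * |Pc x - Qc x|) ^ 2 ≤
            (∑ x ∈ S, (1 : ℝ) ^ 2) * ∑ x ∈ S, |Pc x - Qc x| ^ 2 :=
            Finset.sum_mul_sq_le_sq_mul_sq _ _ _
        _ = S.card * ∑ x ∈ S, (Pc x - Qc x) ^ 2 := by simp
        _ ≤ S.card * ∑ x ∈ U, (Pc x - Qc x) ^ 2 := by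
            apply mul_le_mul_of_nonneg_left _ (Nat.cast_nonneg _)
            exact Finset.sum_le_sum_of_subset_of_nonneg hSU (fun _ _ _ => sq_nonneg _)
        _ = S.card * K := by rw [hKeq]
    exact h2.trans (Real.le_sqrt_of_sq_le h3)
  have hsplit1 := coll_split X Z S hΨ
  have hsplit2 := coll_split X (fun r => σ (Z r)) S hΨ
  have htot : |∑ r ∈ Finset.range X, (Ψ (Z r) - Ψ (σ (Z r)))| ≤ Real.sqrt (S.card * K) +
      (((Finset.range X).filter (fun r => Z r ∉ S)).card : ℝ) +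
      (((Finset.range X).filter (fun r => σ (Z r) ∉ S)).card : ℝ) := by
    have h4 : ∑ r ∈ Finset.range X, (Ψ (Z r) - Ψ (σ (Z r))) =
        ∑ x ∈ S, Ψ x * (Pc x - Qc x) +
        (∑ r ∈ Finset.range X, Ψ (Z r) - ∑ x ∈ S, Ψ x * Pc x) -
        (∑ r ∈ Finset.range X, Ψ (σ (Z r)) - ∑ x ∈ S, Ψ x * Qc x) := by
      simp_rw [mul_sub, Finset.sum_sub_distrib]
      ring
    rw [h4]
    calc |∑ x ∈ S, Ψ x * (Pc x - Qc x) +
        (∑ r ∈ Finset.range X, Ψ (Z r) - ∑ x ∈ S, Ψ x * Pc x) -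
        (∑ r ∈ Finset.range X, Ψ (σ (Z r)) - ∑ x ∈ S, Ψ x * Qc x)|
        ≤ |∑ x ∈ S, Ψ x * (Pc x - Qc x) +
        (∑ r ∈ Finset.range X, Ψ (Z r) - ∑ x ∈ S, Ψ x * Pc x)| +
        |∑ r ∈ Finset.range X, Ψ (σ (Z r)) - ∑ x ∈ S, Ψ x * Qc x| := abs_sub _ _
      _ ≤ (|∑ x ∈ S, Ψ x * (Pc x - Qc x)| +
        |∑ r ∈ Finset.range X, Ψ (Z r) - ∑ x ∈ S, Ψ x * Pc x|) +
        |∑ r ∈ Finset.range X, Ψ (σ (Z r)) - ∑ x ∈ S, Ψ x * Qc x| := by
          gcongr
          exact abs_add_le _ _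
      _ ≤ _ := by
          gcongr
  rw [abs_div, abs_of_pos hXr]
  have h5 : Real.sqrt (S.card * (K / (X : ℝ) ^ 2)) = Real.sqrt (S.card * K) / X := by
    rw [← mul_div_assoc, Real.sqrt_div' _ (sq_nonneg _), Real.sqrt_sq hXr.le]
  rw [h5, ← add_div, ← add_div]
  exact div_le_div_of_nonneg_right htot hXr.le

end Pool.Agent.Lib.MP_3e612f_nt.MB
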