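import Pool.Agent.Lib.MP_3e612f_nt.QBase

/-!
Second moments of the defect of additivity.
-/

set_option autoImplicit false

namespace Pool.Agent.Lib.MP_3e612f_nt.QA

open Filter Topology

/-! ### first zero block from below -/

/-- the number of the first block of `M` zero digits, from below -/
def q4_J (q M : ℕ) (y : ℕ) : ℕ :=
  if h : y % q ^ M = 0 then 0 else 1 + q4_J q M (y / q ^ M)
termination_by y
decreasing_by
  have h1 : y ≠ 0 := by
    rintro rfl
    simp at h
  have h2 : q ^ M ≠ 1 := by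
    intro h2
    rw [h2, Nat.mod_one] at h
    exact h rfl
  rcases Nat.eq_zero_or_pos (q ^ M) with h3 | h3
  · rw [h3, Nat.div_zero]
    omega
  · exact Nat.div_lt_self (by omega) (by omega)

theorem q4_J_zero {q M y : ℕ} (h : y % q ^ M = 0) : q4_J q M y = 0 := by
  rw [q4_J, dif_pos h]

theorem q4_J_succ {q M y : ℕ} (h : y % q ^ M ≠ 0) : q4_J q M y = 1 + q4_J q M (y / q ^ M) := by
  rw [q4_J, dif_neg h]

theorem q4_J_le {q M : ℕ} (hq : 2 ≤ q) (y : ℕ) : q4_J q M y ≤ y := by
  induction y using Nat.strong_induction_on with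
  | _ y ih =>
    by_cases h : y % q ^ M = 0
    · rw [q4_J_zero h]
      exact Nat.zero_le _
    · rw [q4_J_succ h]
      have h1 : y ≠ 0 := by
        rintro rfl
        simp at h
      have h2 : q ^ M ≠ 1 := by
        intro h2
        rw [h2, Nat.mod_one] at h
        exact h rfl
      have h3 := qpow_pos hq M
      have h4 : y / q ^ M < y := Nat.div_lt_self (by omega) (by omega)
      have := ih _ h4
      omega

theorem q4_J_spec {q M : ℕ} (hq : 2 ≤ q) (y : ℕ) : ∃ y1 y2 : ℕ,
    y = q ^ (M * q4_J q M y + M) * y1 + y2 ∧ y2 < q ^ (M * q4_J q M y) := by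
  induction y using Nat.strong_induction_on with
  | _ y ih =>
    by_cases h : y % q ^ M = 0
    · rw [q4_J_zero h, mul_zero, zero_add, pow_zero]
      exact ⟨y / q ^ M, 0, by rw [add_zero, Nat.mul_div_cancel' (Nat.dvd_of_mod_eq_zero h)], one_pos⟩
    · rw [q4_J_succ h]
      have h1 : y ≠ 0 := by
        rintro rfl
        simp at h
      have h2 : q ^ M ≠ 1 := by
        intro h2
        rw [h2, Nat.mod_one] at h
        exact h rfl
      have h3 := qpow_pos hq M
      have h4 : y / q ^ M < y := Nat.div_lt_self (by omega) (by omega)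
      obtain ⟨y1, y2, h5, h6⟩ := ih _ h4
      set j := q4_J q M (y / q ^ M) with hj
      refine ⟨y1, q ^ M * y2 + y % q ^ M, ?_, ?_⟩
      · have h7 := Nat.div_add_mod y (q ^ M)
        calc y = q ^ M * (y / q ^ M) + y % q ^ M := h7.symm
          _ = q ^ M * (q ^ (M * j + M) * y1 + y2) + y % q ^ M := by rw [← h5]
          _ = q ^ (M * (1 + j) + M) * y1 + (q ^ M * y2 + y % q ^ M) := by
            have : M * (1 + j) + M = M + (M * j + M) := by ring
            rw [this, pow_add q M (M * j + M)]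
            ring
      · have h7 := Nat.mod_lt y h3
        have : M * (1 + j) = M + M * j := by ring
        rw [this, pow_add]
        calc q ^ M * y2 + y % q ^ M < q ^ M * y2 + q ^ M := by omega
          _ = q ^ M * (y2 + 1) := by ring
          _ ≤ q ^ M * q ^ (M * j) := Nat.mul_le_mul_left _ h6

/-! ### first zero block from above -/

/-- the number of the first block of `m` zero digits, from above, for `s < q ^ a` -/
def q4_I (q m : ℕ) (a s : ℕ) : ℕ :=
  if h : m = 0 ∨ a < m then 0 else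
    if s / q ^ (a - m) = 0 then 0 else 1 + q4_I q m (a - m) (s % q ^ (a - m))
termination_by a
decreasing_by omega

theorem q4_I_stop {q m a : ℕ} (h : m = 0 ∨ a < m) (s : ℕ) : q4_I q m a s = 0 := by
  rw [q4_I, dif_pos h]

theorem q4_I_rec {q m a : ℕ} (hm : m ≠ 0) (ha : m ≤ a) (s : ℕ) :
    q4_I q m a s = if s / q ^ (a - m) = 0 then 0 else 1 + q4_I q m (a - m) (s % q ^ (a - m)) := by
  rw [q4_I, dif_neg (by omega)]

theorem q4_I_le {q m : ℕ} (a s : ℕ) : q4_I q m a s ≤ a := by
  induction a using Nat.strong_induction_on generalizing s with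
  | _ a ih =>
    by_cases h : m = 0 ∨ a < m
    · rw [q4_I_stop h]
      exact Nat.zero_le _
    · rw [q4_I_rec (by omega) (by omega)]
      split_ifs
      · exact Nat.zero_le _
      · have := ih (a - m) (by omega) (s % q ^ (a - m))
        omega

theorem q4_I_spec {q m : ℕ} (hq : 2 ≤ q) (a s : ℕ) (hs : s < q ^ a) :
    a ≤ m * q4_I q m a s + m ∨ (m * q4_I q m a s + m ≤ a ∧ ∃ s1 s2 : ℕ,
      s = q ^ (a - m * q4_I q m a s) * s1 + s2 ∧ s1 < q ^ (m * q4_I q m a s) ∧
        s2 < q ^ (a - m * q4_I q m a s - m)) := by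
  induction a using Nat.strong_induction_on generalizing s with
  | _ a ih =>
    by_cases h : m = 0 ∨ a < m
    · rw [q4_I_stop h]
      rcases h with h | h
      · right
        subst h
        exact ⟨by omega, 0, s, by simp, by simp, by simpa using hs⟩
      · left
        omega
    · have hm : m ≠ 0 := by omega
      have ha : m ≤ a := by omega
      rw [q4_I_rec hm ha]
      have hpos := qpow_pos hq (a - m)
      split_ifs with h0
      · right
        refine ⟨by omega, 0, s, by simp, by simp, ?_⟩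
        rw [mul_zero, Nat.sub_zero]
        exact (Nat.div_eq_zero_iff_lt hpos).1 h0
      · have h1 := ih (a - m) (by omega) (s % q ^ (a - m)) (Nat.mod_lt _ hpos)
        set i := q4_I q m (a - m) (s % q ^ (a - m)) with hi
        have hmi : m * (1 + i) = m + m * i := by ring
        rw [hmi]
        rcases h1 with h1 | ⟨h1, s1, s2, h2, h3, h4⟩
        · left
          omega
        · right
          have h5 := Nat.div_add_mod s (q ^ (a - m))
          have hx : s / q ^ (a - m) < q ^ m := by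
            rw [Nat.div_lt_iff_lt_mul hpos, ← pow_add]
            have : m + (a - m) = a := by omega
            rw [this]
            exact hs
          refine ⟨by omega, q ^ (m * i) * (s / q ^ (a - m)) + s1, s2, ?_, ?_, ?_⟩
          · have e1 : a - (m + m * i) = a - m - m * i := by omega
            have e2 : q ^ (a - m) = q ^ (a - m - m * i) * q ^ (m * i) := by
              rw [← pow_add]
              congr 1
              omega
            rw [e1]
            calc s = q ^ (a - m) * (s / q ^ (a - m)) + s % q ^ (a - m) := h5.symm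
              _ = q ^ (a - m - m * i) * q ^ (m * i) * (s / q ^ (a - m)) +
                  (q ^ (a - m - m * i) * s1 + s2) := by rw [← h2, ← e2]
              _ = _ := by ring
          · rw [pow_add, mul_comm (q ^ m)]
            calc q ^ (m * i) * (s / q ^ (a - m)) + s1 < q ^ (m * i) * (s / q ^ (a - m)) + q ^ (m * i) := by
                  omega
              _ = q ^ (m * i) * (s / q ^ (a - m) + 1) := by ring
              _ ≤ q ^ (m * i) * q ^ m := Nat.mul_le_mul_left _ hx
          · have e1 : a - (m + m * i) - m = a - m - m * i - m := by omega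
            rw [e1]
            exact h4

/-! ### averages -/

theorem q4_av_first {q : ℕ} (hq : 2 ≤ q) (m : ℕ) (A B : ℝ) :
    av q m (fun x => if x = 0 then A else B) = ((q : ℝ) ^ m)⁻¹ * A + (1 - ((q : ℝ) ^ m)⁻¹) * B := by
  have hpos := qpow_posR hq m
  have e : (fun x : ℕ => if x = 0 then A else B) = fun x => (if x = 0 then (A - B) else 0) + B := by
    funext x
    split_ifs <;> ring
  rw [e, av_add, av_const hq]
  have h1 : av q m (fun x => if x = 0 then (A - B) else 0) = ((q : ℝ) ^ m)⁻¹ * (A - B) := by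
    unfold av
    rw [Finset.sum_ite_eq' (Finset.range (q ^ m)) 0 (fun _ => A - B),
      if_pos (Finset.mem_range.2 (qpow_pos hq m))]
    field_simp
  rw [h1]
  ring

theorem q4_quad {κ c t : ℝ} (hκ : 0 < κ) (hκ1 : κ ≤ 1) (hc : 3 ≤ κ * c) (ht : 0 ≤ t) :
    κ * t ^ 2 + (1 - κ) * (t + 1 + c) ^ 2 ≤ (t + c) ^ 2 := by
  have hc3 : 3 ≤ c := by
    have h0 : 0 < c := by
      by_contra h
      push Not at h
      nlinarith
    nlinarith
  nlinarith [mul_nonneg ht (by linarith : (0 : ℝ) ≤ κ * c - 3),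
    mul_nonneg (by linarith : (0 : ℝ) ≤ c) (by linarith : (0 : ℝ) ≤ κ * c - 3),
    mul_nonneg hκ.le ht, mul_nonneg hκ.le (by linarith : (0 : ℝ) ≤ c)]

theorem q4_J_rec {q M : ℕ} (hq : 2 ≤ q) (x v : ℕ) (hx : x < q ^ M) :
    q4_J q M (q ^ M * v + x) = if x = 0 then 0 else 1 + q4_J q M v := by
  have hpos := qpow_pos hq M
  have h1 : (q ^ M * v + x) % q ^ M = x := by
    rw [Nat.mul_add_mod, Nat.mod_eq_of_lt hx]
  have h2 : (q ^ M * v + x) / q ^ M = v := by
    rw [Nat.mul_add_div hpos, Nat.div_eq_of_lt hx, add_zero]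
  split_ifs with h
  · exact q4_J_zero (by rw [h1, h])
  · rw [q4_J_succ (by rw [h1]; exact h), h2]

/-- second moments of `J` -/
theorem q4_J_av {q : ℕ} (hq : 2 ≤ q) (M Y : ℕ) (k : ℕ) : ∀ (t : ℝ), 0 ≤ t → ∀ y ≤ Y,
    av q k (fun n => (t + q4_J q M (q ^ k * y + n)) ^ 2) ≤ (t + (3 * q ^ M + Y + 1)) ^ 2 := by
  induction k using Nat.strong_induction_on with
  | _ k ih =>
    intro t ht y hy
    have hY : (0 : ℝ) ≤ Y := Nat.cast_nonneg _
    have hqM := qpow_posR hq M
    rcases Nat.lt_or_ge k M with hk | hk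
    · -- short words
      refine av_le hq fun n hn => ?_
      have h1 : (q ^ k * y + n) / q ^ M ≤ Y := by
        have h2 : q ^ k * y + n < q ^ M * (Y + 1) := by
          calc q ^ k * y + n < q ^ k * y + q ^ k := by omega
            _ = q ^ k * (y + 1) := by ring
            _ ≤ q ^ M * (Y + 1) := Nat.mul_le_mul (Nat.pow_le_pow_right (by omega) hk.le) (by omega)
        have h2' : q ^ k * y + n < (Y + 1) * q ^ M := by
          rw [mul_comm (Y + 1)]
          exact h2
        have h3 := (Nat.div_lt_iff_lt_mul (qpow_pos hq M)).2 h2'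
        omega
      have h4 : q4_J q M (q ^ k * y + n) ≤ Y + 1 := by
        by_cases h : (q ^ k * y + n) % q ^ M = 0
        · rw [q4_J_zero h]
          exact Nat.zero_le _
        · rw [q4_J_succ h]
          have := q4_J_le (M := M) hq ((q ^ k * y + n) / q ^ M)
          omega
      have h5 : (q4_J q M (q ^ k * y + n) : ℝ) ≤ Y + 1 := by exact_mod_cast h4
      have h6 : (0 : ℝ) ≤ q4_J q M (q ^ k * y + n) := Nat.cast_nonneg _
      apply pow_le_pow_left₀ (by linarith)
      linarith
    · rcases Nat.eq_zero_or_pos M with hM | hM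
      · subst hM
        refine av_le hq fun n _ => ?_
        rw [q4_J_zero (by simp [Nat.mod_one])]
        apply pow_le_pow_left₀ (by push_cast; linarith)
        push_cast
        linarith
      · obtain ⟨l, rfl⟩ : ∃ l, k = M + l := ⟨k - M, by omega⟩
        have h1 : av q (M + l) (fun n => (t + q4_J q M (q ^ (M + l) * y + n)) ^ 2) =
            av q M (fun x => if x = 0 then t ^ 2 else
              av q l (fun n => (t + 1 + q4_J q M (q ^ l * y + n)) ^ 2)) := by
          rw [av_split]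
          refine av_congr fun x hx => ?_
          unfold cnd
          have e : ∀ n, q ^ (M + l) * y + (q ^ M * n + x) = q ^ M * (q ^ l * y + n) + x := by
            intro n
            rw [pow_add]
            ring
          simp only [e, q4_J_rec hq x _ hx]
          split_ifs with h
          · simp only [Nat.cast_zero, add_zero]
            exact av_const hq l _
          · congr 1
            funext n
            push_cast
            ring
        rw [h1, q4_av_first hq]
        have h2 := ih l (by omega) (t + 1) (by linarith) y hy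
        set κ : ℝ := ((q : ℝ) ^ M)⁻¹ with hκ
        have hκ0 : 0 < κ := inv_pos.2 hqM
        have hκ1 : κ ≤ 1 := by
          apply inv_le_one_of_one_le₀
          have : 1 ≤ q ^ M := qpow_pos hq M
          exact_mod_cast this
        have hκc : 3 ≤ κ * (3 * (q : ℝ) ^ M + Y + 1) := by
          have e1 : κ * (3 * (q : ℝ) ^ M + Y + 1) = 3 + κ * (Y + 1) := by
            rw [hκ]
            field_simp
            ring
          rw [e1]
          have := mul_nonneg hκ0.le (by linarith : (0 : ℝ) ≤ Y + 1)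
          linarith
        refine le_trans ?_ (q4_quad hκ0 hκ1 hκc ht)
        have := mul_le_mul_of_nonneg_left h2 (by linarith : (0 : ℝ) ≤ 1 - κ)
        linarith

/-- second moments of `I` -/
theorem q4_I_av {q : ℕ} (hq : 2 ≤ q) (m : ℕ) (a : ℕ) : ∀ (t : ℝ), 0 ≤ t →
    av q a (fun s => (t + q4_I q m a s) ^ 2) ≤ (t + 3 * q ^ m) ^ 2 := by
  induction a using Nat.strong_induction_on with
  | _ a ih =>
    intro t ht
    have hqM := qpow_posR hq m
    by_cases h : m = 0 ∨ a < m
    · refine av_le hq fun n _ => ?_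
      rw [q4_I_stop h, Nat.cast_zero, add_zero]
      apply pow_le_pow_left₀ ht
      linarith
    · obtain ⟨l, rfl⟩ : ∃ l, a = l + m := ⟨a - m, by omega⟩
      have h1 : av q (l + m) (fun s => (t + q4_I q m (l + m) s) ^ 2) =
          av q m (fun x => if x = 0 then t ^ 2 else
            av q l (fun n => (t + 1 + q4_I q m l n) ^ 2)) := by
        rw [av_split]
        unfold cnd
        rw [av_swap]
        refine av_congr fun x hx => ?_
        have hl : l + m - m = l := by omega
        have e : ∀ s < q ^ l, (t + (q4_I q m (l + m) (q ^ l * x + s) : ℝ)) ^ 2 =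
            if x = 0 then t ^ 2 else (t + 1 + q4_I q m l s) ^ 2 := by
          intro s hs
          rw [q4_I_rec (by omega) (by omega), hl]
          have e1 : (q ^ l * x + s) / q ^ l = x := by
            rw [Nat.mul_add_div (qpow_pos hq l), Nat.div_eq_of_lt hs, add_zero]
          have e2 : (q ^ l * x + s) % q ^ l = s := by
            rw [Nat.mul_add_mod, Nat.mod_eq_of_lt hs]
          rw [e1, e2]
          split_ifs
          · simp
          · push_cast
            ring
        rw [av_congr e]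
        split_ifs
        · exact av_const hq l _
        · rfl
      rw [h1, q4_av_first hq]
      have h2 := ih l (by omega) (t + 1) (by linarith)
      set κ : ℝ := ((q : ℝ) ^ m)⁻¹ with hκ
      have hκ0 : 0 < κ := inv_pos.2 hqM
      have hκ1 : κ ≤ 1 := by
        apply inv_le_one_of_one_le₀
        have : 1 ≤ q ^ m := qpow_pos hq m
        exact_mod_cast this
      have hκc : 3 ≤ κ * (3 * (q : ℝ) ^ m) := by
        rw [hκ]
        field_simp
        exact le_rfl
      refine le_trans ?_ (q4_quad hκ0 hκ1 hκc ht)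
      have := mul_le_mul_of_nonneg_left h2 (by linarith : (0 : ℝ) ≤ 1 - κ)
      linarith

/-! ### pointwise bounds -/

theorem q4_bound {q m : ℕ} (hq : 2 ≤ q) {F : ℕ → ℝ} {C : ℝ} (hF : QR q m F C) (a y s : ℕ)
    (hs : s < q ^ a) :
    |dfc F q a y s| ≤ 3 * C * (m + 1) * ((1 + q4_I q m a s) + (1 + q4_J q m y)) := by
  obtain ⟨y1, y2, hy, hy2⟩ := q4_J_spec (M := m) hq y
  set J := q4_J q m y with hJ
  set I := q4_I q m a s with hI
  have hC := hF.nonneg
  have key : ∀ i j : ℕ, i ≤ m * I + m → j ≤ m * J → ∀ A B D : ℝ, |A| ≤ C * ((i + j : ℕ) + 1) →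
      |B| ≤ C * (j + 1) → |D| ≤ C * (i + 1) →
      |A - B - D| ≤ 3 * C * (m + 1) * ((1 + I) + (1 + J)) := by
    intro i j hi hj A B D hA hB hD
    have h1 : |A - B - D| ≤ |A| + |B| + |D| := by
      refine (abs_sub _ _).trans ?_
      have := abs_sub A B
      linarith
    have hi' : (i : ℝ) ≤ m * I + m := by exact_mod_cast hi
    have hj' : (j : ℝ) ≤ m * J := by exact_mod_cast hj
    have hI0 : (0 : ℝ) ≤ I := Nat.cast_nonneg _
    have hJ0 : (0 : ℝ) ≤ J := Nat.cast_nonneg _
    have hm0 : (0 : ℝ) ≤ m := Nat.cast_nonneg _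
    push_cast at hA
    have h2 : |A| + |B| + |D| ≤ 3 * C * ((i : ℝ) + j + 1) := by
      have hi0 : (0 : ℝ) ≤ i := Nat.cast_nonneg _
      have hj0 : (0 : ℝ) ≤ j := Nat.cast_nonneg _
      nlinarith [mul_nonneg hC hi0, mul_nonneg hC hj0]
    refine h1.trans (h2.trans ?_)
    rw [mul_assoc (3 * C)]
    refine mul_le_mul_of_nonneg_left ?_ (by linarith)
    nlinarith [mul_nonneg hm0 hI0, mul_nonneg hm0 hJ0]
  have hFy : F y = F y1 + F y2 := by
    conv_lhs => rw [hy]
    exact hF.gap _ _ _ hy2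
  have hsp := q4_I_spec (m := m) hq a s hs
  rw [← hI] at hsp
  rcases hsp with h | ⟨h, s1, s2, hs0, hs1, hs2⟩
  · have h1 : q ^ a * y + s = q ^ ((a + m * J) + m) * y1 + (q ^ a * y2 + s) := by
      conv_lhs => rw [hy]
      rw [add_assoc a, pow_add q a]
      ring
    have h2 : q ^ a * y2 + s < q ^ (a + m * J) := by
      calc q ^ a * y2 + s < q ^ a * y2 + q ^ a := by omega
        _ = q ^ a * (y2 + 1) := by ring
        _ ≤ q ^ a * q ^ (m * J) := Nat.mul_le_mul_left _ hy2
        _ = _ := by rw [pow_add]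
    have h3 : F (q ^ a * y + s) = F y1 + F (q ^ a * y2 + s) := by
      rw [h1]
      exact hF.gap _ _ _ h2
    have h4 : dfc F q a y s = F (q ^ a * y2 + s) - F y2 - F s := by
      unfold dfc
      rw [h3, hFy]
      ring
    rw [h4]
    refine key a (m * J) h le_rfl _ _ _ ?_ ?_ ?_
    · have := hF.growth _ _ h2
      exact_mod_cast this
    · have := hF.growth _ _ hy2
      exact_mod_cast this
    · exact hF.growth _ _ hs
  · have e1 : a = (a - m * I) + m * I := by omega
    have h1 : q ^ a * y + s = q ^ ((a - m * I - m) + m) * (q ^ (m * I) * y + s1) + s2 := by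
      have e2 : a - m * I - m + m = a - m * I := by omega
      rw [e2]
      conv_lhs => rw [hs0]
      have e3 : q ^ a = q ^ (a - m * I) * q ^ (m * I) := by
        rw [← pow_add]
        congr 1
      rw [e3]
      ring
    have h2 : q ^ (m * I) * y + s1 = q ^ ((m * I + m * J) + m) * y1 + (q ^ (m * I) * y2 + s1) := by
      conv_lhs => rw [hy]
      rw [add_assoc (m * I), pow_add q (m * I)]
      ring
    have h3 : q ^ (m * I) * y2 + s1 < q ^ (m * I + m * J) := by
      calc q ^ (m * I) * y2 + s1 < q ^ (m * I) * y2 + q ^ (m * I) := by omega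
        _ = q ^ (m * I) * (y2 + 1) := by ring
        _ ≤ q ^ (m * I) * q ^ (m * J) := Nat.mul_le_mul_left _ hy2
        _ = _ := by rw [pow_add]
    have h4 : F (q ^ a * y + s) = F y1 + F (q ^ (m * I) * y2 + s1) + F s2 := by
      rw [h1, hF.gap _ _ _ hs2, h2, hF.gap _ _ _ h3]
    have h5 : F s = F s1 + F s2 := by
      have e2 : a - m * I = (a - m * I - m) + m := by omega
      conv_lhs => rw [hs0, e2]
      exact hF.gap _ _ _ hs2
    have h6 : dfc F q a y s = F (q ^ (m * I) * y2 + s1) - F y2 - F s1 := by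
      unfold dfc
      rw [h4, hFy, h5]
      ring
    rw [h6]
    refine key (m * I) (m * J) (by omega) le_rfl _ _ _ ?_ ?_ ?_
    · have := hF.growth _ _ h3
      exact_mod_cast this
    · have := hF.growth _ _ hy2
      exact_mod_cast this
    · have := hF.growth _ _ hs1
      exact_mod_cast this

theorem q4_bound_sq {q m : ℕ} (hq : 2 ≤ q) {F : ℕ → ℝ} {C : ℝ} (hF : QR q m F C) (a y s : ℕ)
    (hs : s < q ^ a) :
    dfc F q a y s ^ 2 ≤ 18 * ((m : ℝ) + 1) ^ 2 * C ^ 2 *
      ((1 + q4_I q m a s) ^ 2 + (1 + q4_J q m y) ^ 2) := by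
  have h1 := q4_bound hq hF a y s hs
  have h2 : dfc F q a y s ^ 2 ≤ (3 * C * (m + 1) * ((1 + q4_I q m a s) + (1 + q4_J q m y))) ^ 2 := by
    rw [← sq_abs]
    exact pow_le_pow_left₀ (abs_nonneg _) h1 2
  refine h2.trans ?_
  set u : ℝ := 1 + q4_I q m a s
  set v : ℝ := 1 + q4_J q m y
  have h3 : (3 * C * (m + 1) * (u + v)) ^ 2 = 9 * ((m : ℝ) + 1) ^ 2 * C ^ 2 * (u + v) ^ 2 := by ring
  have h4 : (u + v) ^ 2 ≤ 2 * (u ^ 2 + v ^ 2) := by nlinarith [sq_nonneg (u - v)]
  rw [h3]
  have h5 : 0 ≤ 9 * ((m : ℝ) + 1) ^ 2 * C ^ 2 := by positivity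
  nlinarith [mul_le_mul_of_nonneg_left h4 h5]

theorem defect_sq {q m : ℕ} (hq : 2 ≤ q) : ∃ K : ℝ, 0 ≤ K ∧ ∀ (F : ℕ → ℝ) (C : ℝ),
    QR q m F C → ∀ a A : ℕ,
      av q A (fun y => av q a (fun s => dfc F q a y s ^ 2)) ≤ K * C ^ 2 := by
  refine ⟨18 * ((m : ℝ) + 1) ^ 2 * ((1 + 3 * q ^ m) ^ 2 + (1 + (3 * q ^ m + (0 : ℕ) + 1)) ^ 2),
    by positivity, ?_⟩
  intro F C hF a A
  have h1 := q4_I_av hq m a 1 zero_le_one
  have h2 := q4_J_av hq m 0 A 1 zero_le_one 0 le_rfl
  simp only [mul_zero, zero_add] at h2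
  set B : ℝ := 18 * ((m : ℝ) + 1) ^ 2 * C ^ 2 with hB
  have hB0 : 0 ≤ B := by positivity
  calc av q A (fun y => av q a (fun s => dfc F q a y s ^ 2))
      ≤ av q A (fun y => B * av q a (fun s => (1 + (q4_I q m a s : ℝ)) ^ 2) +
          B * (1 + (q4_J q m y : ℝ)) ^ 2) := by
        refine av_mono fun y _ => ?_
        have e : av q a (fun s => B * (1 + (q4_I q m a s : ℝ)) ^ 2 + B * (1 + (q4_J q m y : ℝ)) ^ 2) =
            B * av q a (fun s => (1 + (q4_I q m a s : ℝ)) ^ 2) + B * (1 + (q4_J q m y : ℝ)) ^ 2 := by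
          rw [av_add, av_const_mul, av_const hq]
        rw [← e]
        refine av_mono fun s hs => ?_
        have := q4_bound_sq hq hF a y s hs
        rw [mul_add] at this
        exact this
    _ = B * av q a (fun s => (1 + (q4_I q m a s : ℝ)) ^ 2) +
          B * av q A (fun y => (1 + (q4_J q m y : ℝ)) ^ 2) := by
        rw [av_add, av_const hq, av_const_mul]
    _ ≤ B * (1 + 3 * q ^ m) ^ 2 + B * (1 + (3 * q ^ m + (0 : ℕ) + 1)) ^ 2 :=
        add_le_add (mul_le_mul_of_nonneg_left h1 hB0) (mul_le_mul_of_nonneg_left h2 hB0)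
    _ = _ := by
        rw [hB]
        ring

theorem defect_sq_left {q m : ℕ} (hq : 2 ≤ q) (Y : ℕ) : ∃ K : ℝ, 0 ≤ K ∧
    ∀ (F : ℕ → ℝ) (C : ℝ), QR q m F C → ∀ a y : ℕ, y ≤ Y →
      av q a (fun s => dfc F q a y s ^ 2) ≤ K * C ^ 2 := by
  refine ⟨18 * ((m : ℝ) + 1) ^ 2 * ((1 + 3 * q ^ m) ^ 2 + (1 + Y) ^ 2), by positivity, ?_⟩
  intro F C hF a y hy
  have h1 := q4_I_av hq m a 1 zero_le_one
  set B : ℝ := 18 * ((m : ℝ) + 1) ^ 2 * C ^ 2 with hB
  have hB0 : 0 ≤ B := by positivity
  have hJ : (q4_J q m y : ℝ) ≤ Y := by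
    have := q4_J_le (M := m) hq y
    exact_mod_cast this.trans hy
  have hJ0 : (0 : ℝ) ≤ q4_J q m y := Nat.cast_nonneg _
  have hJ2 : (1 + (q4_J q m y : ℝ)) ^ 2 ≤ (1 + Y) ^ 2 :=
    pow_le_pow_left₀ (by linarith) (by linarith) 2
  calc av q a (fun s => dfc F q a y s ^ 2)
      ≤ av q a (fun s => B * (1 + (q4_I q m a s : ℝ)) ^ 2 + B * (1 + Y) ^ 2) := by
        refine av_mono fun s hs => ?_
        have := q4_bound_sq hq hF a y s hs
        rw [mul_add] at this
        have h2 := mul_le_mul_of_nonneg_left hJ2 hB0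
        exact this.trans (by linarith)
    _ = B * av q a (fun s => (1 + (q4_I q m a s : ℝ)) ^ 2) + B * (1 + Y) ^ 2 := by
        rw [av_add, av_const_mul, av_const hq]
    _ ≤ B * (1 + 3 * q ^ m) ^ 2 + B * (1 + Y) ^ 2 :=
        add_le_add (mul_le_mul_of_nonneg_left h1 hB0) le_rfl
    _ = _ := by
        rw [hB]
        ring

theorem defect_sq_right {q m : ℕ} (hq : 2 ≤ q) (h Y : ℕ) : ∃ K : ℝ, 0 ≤ K ∧
    ∀ (F : ℕ → ℝ) (C : ℝ), QR q m F C → ∀ k y z : ℕ, y ≤ Y → z < q ^ h →
      av q k (fun n => dfc F q h (q ^ k * y + n) z ^ 2) ≤ K * C ^ 2 := by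
  refine ⟨18 * ((m : ℝ) + 1) ^ 2 * ((1 + h) ^ 2 + (1 + (3 * q ^ m + Y + 1)) ^ 2),
    by positivity, ?_⟩
  intro F C hF k y z hy hz
  have h2 := q4_J_av hq m Y k 1 zero_le_one y hy
  set B : ℝ := 18 * ((m : ℝ) + 1) ^ 2 * C ^ 2 with hB
  have hB0 : 0 ≤ B := by positivity
  have hI : (q4_I q m h z : ℝ) ≤ h := by exact_mod_cast q4_I_le h z
  have hI0 : (0 : ℝ) ≤ q4_I q m h z := Nat.cast_nonneg _
  have hI2 : (1 + (q4_I q m h z : ℝ)) ^ 2 ≤ (1 + h) ^ 2 :=
    pow_le_pow_left₀ (by linarith) (by linarith) 2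
  calc av q k (fun n => dfc F q h (q ^ k * y + n) z ^ 2)
      ≤ av q k (fun n => B * (1 + h) ^ 2 + B * (1 + (q4_J q m (q ^ k * y + n) : ℝ)) ^ 2) := by
        refine av_mono fun n _ => ?_
        have := q4_bound_sq hq hF h (q ^ k * y + n) z hz
        rw [mul_add] at this
        have h2 := mul_le_mul_of_nonneg_left hI2 hB0
        exact this.trans (by linarith)
    _ = B * (1 + h) ^ 2 + B * av q k (fun n => (1 + (q4_J q m (q ^ k * y + n) : ℝ)) ^ 2) := by
        rw [av_add, av_const hq, av_const_mul]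
    _ ≤ B * (1 + h) ^ 2 + B * (1 + (3 * q ^ m + Y + 1)) ^ 2 :=
        add_le_add le_rfl (mul_le_mul_of_nonneg_left h2 hB0)
    _ = _ := by
        rw [hB]
        ring

theorem q4_carry {q m : ℕ} (hq : 2 ≤ q) {F : ℕ → ℝ} {C : ℝ} (hF : QR q m F C) (t W N : ℕ)
    (hN : N < q ^ W) :
    |F ((N + t) % q ^ W) - F N| ≤
      2 * C * (((m + t + 1 : ℕ) : ℝ) + 1) * (1 + q4_J q (m + t + 1) N) := by
  have hC := hF.nonneg
  obtain ⟨N1, N2, hN1, hN2⟩ := q4_J_spec (M := m + t + 1) hq N
  set M := m + t + 1 with hM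
  set J := q4_J q M N with hJ
  have hfin : ∀ x : ℝ, x ≤ 2 * C * ((M * J : ℕ) + (M : ℝ) + 1) →
      x ≤ 2 * C * ((M : ℝ) + 1) * (1 + J) := by
    intro x hx
    refine hx.trans ?_
    rw [mul_assoc (2 * C)]
    refine mul_le_mul_of_nonneg_left ?_ (by linarith)
    push_cast
    have hJ0 : (0 : ℝ) ≤ J := Nat.cast_nonneg _
    have hM0 : (0 : ℝ) ≤ M := Nat.cast_nonneg _
    nlinarith
  apply hfin
  rcases Nat.lt_or_ge W (M * J + M) with h | h
  · have h1 := hF.growth W _ (Nat.mod_lt (N + t) (qpow_pos hq W))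
    have h2 := hF.growth W _ hN
    have h3 := abs_sub (F ((N + t) % q ^ W)) (F N)
    have h4 : (W : ℝ) + 1 ≤ (M * J : ℕ) + (M : ℝ) + 1 := by
      have : (W : ℝ) ≤ ((M * J + M : ℕ) : ℝ) := by exact_mod_cast h.le
      push_cast at this ⊢
      linarith
    have h5 := mul_le_mul_of_nonneg_left h4 hC
    linarith
  · have ht : t < q ^ t := Nat.lt_pow_self (by omega)
    have hlt : N2 + t < q ^ (M * J + t + 1) := by
      have e1 : q ^ (M * J) ≤ q ^ (M * J + t) := Nat.pow_le_pow_right (by omega) (by omega)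
      have e2 : q ^ t ≤ q ^ (M * J + t) := Nat.pow_le_pow_right (by omega) (by omega)
      have e3 : 2 * q ^ (M * J + t) ≤ q ^ (M * J + t + 1) := by
        rw [pow_succ, mul_comm]
        exact Nat.mul_le_mul_left _ hq
      omega
    have hlt2 : q ^ (M * J + t + 1) ≤ q ^ (M * J + M) := Nat.pow_le_pow_right (by omega) (by omega)
    have e0 : M * J + M = (M * J + t + 1) + m := by omega
    have hsum : N + t = q ^ (M * J + M) * N1 + (N2 + t) := by omega
    have hN1lt : N1 < q ^ (W - (M * J + M)) := by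
      have e1 : q ^ W = q ^ (M * J + M) * q ^ (W - (M * J + M)) := by
        rw [← pow_add]
        congr 1
        omega
      by_contra hcon
      push Not at hcon
      have := Nat.mul_le_mul_left (q ^ (M * J + M)) hcon
      omega
    have hltW : N + t < q ^ W := by
      have e1 : q ^ W = q ^ (M * J + M) * q ^ (W - (M * J + M)) := by
        rw [← pow_add]
        congr 1
        omega
      have e2 : q ^ (M * J + M) * (N1 + 1) ≤ q ^ (M * J + M) * q ^ (W - (M * J + M)) :=
        Nat.mul_le_mul_left _ hN1lt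
      rw [mul_add, mul_one] at e2
      omega
    rw [Nat.mod_eq_of_lt hltW]
    have h1 : F (N + t) = F N1 + F (N2 + t) := by
      rw [hsum, e0]
      exact hF.gap _ _ _ hlt
    have h2 : F N = F N1 + F N2 := by
      conv_lhs => rw [hN1, e0]
      refine hF.gap _ _ _ ?_
      omega
    rw [h1, h2]
    have h3 := hF.growth _ _ hlt
    have h4 := hF.growth _ _ hN2
    have h5 : F N1 + F (N2 + t) - (F N1 + F N2) = F (N2 + t) - F N2 := by ring
    rw [h5]
    have h6 := abs_sub (F (N2 + t)) (F N2)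
    have h7 : (((M * J + t + 1 : ℕ) : ℝ) + 1) ≤ (M * J : ℕ) + (M : ℝ) + 1 := by
      have : M * J + t + 1 ≤ M * J + M := by omega
      have : ((M * J + t + 1 : ℕ) : ℝ) ≤ ((M * J + M : ℕ) : ℝ) := by exact_mod_cast this
      push_cast at this ⊢
      linarith
    have h8 : (((M * J : ℕ) : ℝ) + 1) ≤ (M * J : ℕ) + (M : ℝ) + 1 := by
      have hM0 : (0 : ℝ) ≤ M := Nat.cast_nonneg _
      linarith
    have h9 := mul_le_mul_of_nonneg_left h7 hC
    have h10 := mul_le_mul_of_nonneg_left h8 hC
    linarith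

theorem carry_sq {q m : ℕ} (hq : 2 ≤ q) (t : ℕ) : ∃ K : ℝ, 0 ≤ K ∧ ∀ (F : ℕ → ℝ) (C : ℝ),
    QR q m F C → ∀ W : ℕ, av q W (fun N => (F ((N + t) % q ^ W) - F N) ^ 2) ≤ K * C ^ 2 := by
  refine ⟨4 * (((m + t + 1 : ℕ) : ℝ) + 1) ^ 2 * (1 + (3 * q ^ (m + t + 1) + (0 : ℕ) + 1)) ^ 2,
    by positivity, ?_⟩
  intro F C hF W
  have h2 := q4_J_av hq (m + t + 1) 0 W 1 zero_le_one 0 le_rfl
  simp only [mul_zero, zero_add] at h2
  set B : ℝ := 4 * (((m + t + 1 : ℕ) : ℝ) + 1) ^ 2 * C ^ 2 with hB
  have hB0 : 0 ≤ B := by positivity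
  calc av q W (fun N => (F ((N + t) % q ^ W) - F N) ^ 2)
      ≤ av q W (fun N => B * (1 + (q4_J q (m + t + 1) N : ℝ)) ^ 2) := by
        refine av_mono fun N hN => ?_
        have h1 := q4_carry hq hF t W N hN
        have h3 : (F ((N + t) % q ^ W) - F N) ^ 2 ≤
            (2 * C * (((m + t + 1 : ℕ) : ℝ) + 1) * (1 + q4_J q (m + t + 1) N)) ^ 2 := by
          rw [← sq_abs]
          exact pow_le_pow_left₀ (abs_nonneg _) h1 2
        refine h3.trans (le_of_eq ?_)
        rw [hB]
        ring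
    _ = B * av q W (fun N => (1 + (q4_J q (m + t + 1) N : ℝ)) ^ 2) := av_const_mul _ _ _ _
    _ ≤ B * (1 + (3 * q ^ (m + t + 1) + (0 : ℕ) + 1)) ^ 2 := mul_le_mul_of_nonneg_left h2 hB0
    _ = _ := by
        rw [hB]
        ring

end Pool.Agent.Lib.MP_3e612f_nt.QA
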