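import Pool.Agent.Lib.MP_3e612f_nt.MDy
import Pool.Agent.Lib.MP_3e612f_nt.QDefect

/-!
A bounded change of the upper digits.
-/

set_option autoImplicit false

namespace Pool.Agent.Lib.MP_3e612f_nt.MB

open Filter Topology
open Pool.Agent.Lib.MP_3e612f_nt.QA

theorem mt_five (a b c d e : ℝ) :
    (a - b + c + d - e) ^ 2 ≤ 5 * (a ^ 2 + b ^ 2 + c ^ 2 + d ^ 2 + e ^ 2) := by
  nlinarith [sq_nonneg (a + b), sq_nonneg (a - c), sq_nonneg (a - d), sq_nonneg (a + e),
    sq_nonneg (b + c), sq_nonneg (b + d), sq_nonneg (b - e), sq_nonneg (c - d), sq_nonneg (c + e),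
    sq_nonneg (d + e)]

/-- a bounded change of `P * N` on a `q`-adic block -/
theorem top_shift_q {q m : ℕ} (hq : 2 ≤ q) {P : ℕ} (hP : P.Coprime q) (J Y : ℕ) :
    ∃ K : ℝ, 0 ≤ K ∧ ∀ (F : ℕ → ℝ) (C : ℝ), QR q m F C → ∀ k y t : ℕ, y ≤ Y → t ≤ J →
      av q k (fun n => (F (P * (q ^ k * y + n) + t) - F (P * (q ^ k * y + n))) ^ 2) ≤
        K * C ^ 2 := by
  classical
  set Z : ℕ := P * (Y + 1) + J + 1 with hZ
  obtain ⟨K₂, hK₂0, hK₂⟩ := defect_sq_left (q := q) (m := m) hq Z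
  choose K₃ hK₃0 hK₃ using fun t => carry_sq (q := q) (m := m) hq t
  set K₄ : ℝ := ∑ t ∈ Finset.range (J + 1), K₃ t with hK₄
  have hK₄0 : 0 ≤ K₄ := Finset.sum_nonneg fun t _ => hK₃0 t
  refine ⟨5 * ((Z + 1) ^ 2 + (Z + 1) ^ 2 + K₄ + (Z + 1) * K₂ + (Z + 1) * K₂), by positivity, ?_⟩
  intro F C hF k y t hy ht
  have hC := hF.nonneg
  have hqk := qpow_pos hq k
  set N2 : ℕ → ℕ := fun n => P * n % q ^ k with hN2
  set N3 : ℕ → ℕ := fun n => (P * n + t) % q ^ k with hN3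
  set τ : ℕ → ℕ := fun n => P * n / q ^ k with hτ
  set τ' : ℕ → ℕ := fun n => (P * n + t) / q ^ k with hτ'
  have hτP : ∀ n < q ^ k, τ n ≤ P := by
    intro n hn
    refine Nat.div_le_of_le_mul ?_
    calc P * n ≤ P * q ^ k := Nat.mul_le_mul_left _ hn.le
      _ = q ^ k * P := mul_comm _ _
  have hτP' : ∀ n < q ^ k, τ' n ≤ P + J + 1 := by
    intro n hn
    refine Nat.div_le_of_le_mul ?_
    calc P * n + t ≤ P * q ^ k + J * 1 := by
          have := Nat.mul_le_mul_left P hn.le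
          omega
      _ ≤ P * q ^ k + J * q ^ k := by
          have := Nat.mul_le_mul_left J (Nat.succ_le_of_lt hqk)
          omega
      _ ≤ q ^ k * (P + J + 1) := by
          have : q ^ k * (P + J + 1) = P * q ^ k + J * q ^ k + q ^ k := by ring
          omega
  have hPy : P * y ≤ P * Y := Nat.mul_le_mul_left _ hy
  have hPY : P * (Y + 1) = P * Y + P := by ring
  have hZle : ∀ n < q ^ k, P * y + τ n ≤ Z := by
    intro n hn
    have h1 := hτP n hn
    omega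
  have hZle' : ∀ n < q ^ k, P * y + τ' n ≤ Z := by
    intro n hn
    have h1 := hτP' n hn
    omega
  have hN1 : ∀ n, P * (q ^ k * y + n) = q ^ k * (P * y + τ n) + N2 n := by
    intro n
    have := Nat.div_add_mod (P * n) (q ^ k)
    calc P * (q ^ k * y + n) = q ^ k * (P * y) + P * n := by ring
      _ = q ^ k * (P * y) + (q ^ k * τ n + N2 n) := by rw [← this]
      _ = _ := by ring
  have hN1' : ∀ n, P * (q ^ k * y + n) + t = q ^ k * (P * y + τ' n) + N3 n := by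
    intro n
    have := Nat.div_add_mod (P * n + t) (q ^ k)
    calc P * (q ^ k * y + n) + t = q ^ k * (P * y) + (P * n + t) := by ring
      _ = q ^ k * (P * y) + (q ^ k * τ' n + N3 n) := by rw [← this]
      _ = _ := by ring
  have hgr : ∀ x ≤ Z, F x ^ 2 ≤ C ^ 2 * (Z + 1) ^ 2 := by
    intro x hx
    have b3 : |F x| ≤ C * (Z + 1) := by
      refine hF.growth Z _ (lt_of_le_of_lt hx ?_)
      exact Nat.lt_pow_self (by omega)
    rw [← sq_abs, ← mul_pow]
    exact pow_le_pow_left₀ (abs_nonneg _) b3 2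
  -- pointwise bound
  have hpt : ∀ n < q ^ k, (F (P * (q ^ k * y + n) + t) - F (P * (q ^ k * y + n))) ^ 2 ≤
      5 * (C ^ 2 * (Z + 1) ^ 2 + C ^ 2 * (Z + 1) ^ 2 + (F ((P * n % q ^ k + t) % q ^ k) -
        F (P * n % q ^ k)) ^ 2 + ∑ y' ∈ Finset.range (Z + 1), dfc F q k y' (N3 n) ^ 2 +
        ∑ y' ∈ Finset.range (Z + 1), dfc F q k y' (N2 n) ^ 2) := by
    intro n hn
    have hmem : P * y + τ n ∈ Finset.range (Z + 1) :=
      Finset.mem_range.mpr (Nat.lt_succ_of_le (hZle n hn))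
    have hmem' : P * y + τ' n ∈ Finset.range (Z + 1) :=
      Finset.mem_range.mpr (Nat.lt_succ_of_le (hZle' n hn))
    have b1 : dfc F q k (P * y + τ n) (N2 n) ^ 2 ≤
        ∑ y' ∈ Finset.range (Z + 1), dfc F q k y' (N2 n) ^ 2 :=
      Finset.single_le_sum (f := fun y' => dfc F q k y' (N2 n) ^ 2)
        (fun y' _ => sq_nonneg _) hmem
    have b2 : dfc F q k (P * y + τ' n) (N3 n) ^ 2 ≤
        ∑ y' ∈ Finset.range (Z + 1), dfc F q k y' (N3 n) ^ 2 :=
      Finset.single_le_sum (f := fun y' => dfc F q k y' (N3 n) ^ 2)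
        (fun y' _ => sq_nonneg _) hmem'
    have b3 := hgr _ (hZle n hn)
    have b4 := hgr _ (hZle' n hn)
    have e1 : (P * n % q ^ k + t) % q ^ k = N3 n := by
      rw [hN3]
      dsimp only
      rw [Nat.mod_add_mod]
    rw [e1, hN1', hN1]
    have e2 : F (q ^ k * (P * y + τ' n) + N3 n) - F (q ^ k * (P * y + τ n) + N2 n) =
        F (P * y + τ' n) - F (P * y + τ n) + (F (N3 n) - F (P * n % q ^ k)) +
          dfc F q k (P * y + τ' n) (N3 n) - dfc F q k (P * y + τ n) (N2 n) := by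
      unfold dfc
      rw [hN2]
      dsimp only
      ring
    rw [e2]
    refine (mt_five _ _ _ _ _).trans ?_
    linarith
  refine (av_mono hpt).trans ?_
  rw [av_const_mul, av_add, av_add, av_add, av_const hq]
  rw [av_finset_sum (Finset.range (Z + 1)) q k
    (fun (y' : ℕ) (n : ℕ) => dfc F q k y' (N3 n) ^ 2),
    av_finset_sum (Finset.range (Z + 1)) q k (fun (y' : ℕ) (n : ℕ) => dfc F q k y' (N2 n) ^ 2)]
  have c1 : ∑ y' ∈ Finset.range (Z + 1), av q k (fun n => dfc F q k y' (N2 n) ^ 2) ≤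
      (Z + 1) * (K₂ * C ^ 2) := by
    have hterm : ∀ y' ∈ Finset.range (Z + 1),
        av q k (fun n => dfc F q k y' (N2 n) ^ 2) ≤ K₂ * C ^ 2 := by
      intro y' hy'
      have hy2 : y' ≤ Z := Nat.lt_succ_iff.mp (Finset.mem_range.mp hy')
      have h1 := av_perm hq hP 0 k (fun s => dfc F q k y' s ^ 2)
      simp only [add_zero] at h1
      rw [hN2]
      dsimp only at h1 ⊢
      rw [h1]
      exact hK₂ F C hF k y' hy2
    refine (Finset.sum_le_sum hterm).trans (le_of_eq ?_)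
    rw [Finset.sum_const, Finset.card_range, nsmul_eq_mul]
    push_cast
    ring
  have c2 : ∑ y' ∈ Finset.range (Z + 1), av q k (fun n => dfc F q k y' (N3 n) ^ 2) ≤
      (Z + 1) * (K₂ * C ^ 2) := by
    have hterm : ∀ y' ∈ Finset.range (Z + 1),
        av q k (fun n => dfc F q k y' (N3 n) ^ 2) ≤ K₂ * C ^ 2 := by
      intro y' hy'
      have hy2 : y' ≤ Z := Nat.lt_succ_iff.mp (Finset.mem_range.mp hy')
      have h1 := av_perm hq hP t k (fun s => dfc F q k y' s ^ 2)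
      rw [hN3]
      dsimp only at h1 ⊢
      rw [h1]
      exact hK₂ F C hF k y' hy2
    refine (Finset.sum_le_sum hterm).trans (le_of_eq ?_)
    rw [Finset.sum_const, Finset.card_range, nsmul_eq_mul]
    push_cast
    ring
  have c3 : av q k (fun n => (F ((P * n % q ^ k + t) % q ^ k) - F (P * n % q ^ k)) ^ 2) ≤
      K₄ * C ^ 2 := by
    have h1 := av_perm hq hP 0 k (fun s => (F ((s + t) % q ^ k) - F s) ^ 2)
    simp only [add_zero] at h1
    rw [h1]
    refine (hK₃ t F C hF k).trans (mul_le_mul_of_nonneg_right ?_ (sq_nonneg C))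
    exact Finset.single_le_sum (f := fun t => K₃ t)
      (fun t _ => hK₃0 t) (Finset.mem_range.mpr (Nat.lt_succ_of_le ht))
  have e5 : 5 * (((Z : ℝ) + 1) ^ 2 + (Z + 1) ^ 2 + K₄ + (Z + 1) * K₂ + (Z + 1) * K₂) * C ^ 2 =
      5 * (C ^ 2 * (Z + 1) ^ 2 + C ^ 2 * (Z + 1) ^ 2 + K₄ * C ^ 2 + (Z + 1) * (K₂ * C ^ 2) +
        (Z + 1) * (K₂ * C ^ 2)) := by ring
  rw [e5]
  linarith

/-- M13: a bounded change of the upper digits -/
theorem top_shift {q m : ℕ} (hq : 2 ≤ q) {P : ℕ} (hP : P.Coprime q) (J Y : ℕ) :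
    ∃ K : ℝ, 0 ≤ K ∧ ∀ (F : ℕ → ℝ) (C : ℝ), QR q m F C → ∀ k l y t : ℕ, l ≤ lg q k →
      y ≤ Y → t ≤ J →
      av 2 k (fun n => (F (P * ((2 ^ k * y + n) / q ^ l) + t) -
        F (P * ((2 ^ k * y + n) / q ^ l))) ^ 2) ≤ K * C ^ 2 := by
  obtain ⟨K, hK0, hK⟩ := top_shift_q (q := q) (m := m) hq hP J (q * (Y + 1))
  refine ⟨(q + 1) * K, by positivity, ?_⟩
  intro F C hF k l y t hl hy ht
  have h1 := dy_le hq k y (f := fun n => (F (P * (n / q ^ l) + t) - F (P * (n / q ^ l))) ^ 2)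
    (fun n => sq_nonneg _)
  refine h1.trans ?_
  obtain ⟨h2, h3⟩ := dy_card hq k y
  have hterm : ∀ y' ∈ Finset.Icc (2 ^ k * y / q ^ lg q k) (2 ^ k * (y + 1) / q ^ lg q k),
      av q (lg q k) (fun n => (fun n => (F (P * (n / q ^ l) + t) - F (P * (n / q ^ l))) ^ 2)
        (q ^ lg q k * y' + n)) ≤ K * C ^ 2 := by
    intro y' hy'
    have hy2 : y' ≤ q * (Y + 1) := by
      have h4 := (Finset.mem_Icc.mp hy').2
      have h5 : q * (y + 1) ≤ q * (Y + 1) := Nat.mul_le_mul_left _ (by omega)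
      omega
    obtain ⟨b, hb⟩ : ∃ b, lg q k = l + b := ⟨lg q k - l, by omega⟩
    rw [hb, av_split]
    refine av_le hq fun s hs => ?_
    unfold cnd
    have e : ∀ n, (q ^ (l + b) * y' + (q ^ l * n + s)) / q ^ l = q ^ b * y' + n := by
      intro n
      have : q ^ (l + b) * y' + (q ^ l * n + s) = q ^ l * (q ^ b * y' + n) + s := by
        rw [pow_add]
        ring
      rw [this, Nat.mul_add_div (qpow_pos hq l), Nat.div_eq_of_lt hs, add_zero]
    simp only [e]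
    exact hK F C hF b y' t hy2 ht
  refine (Finset.sum_le_sum hterm).trans ?_
  rw [Finset.sum_const, nsmul_eq_mul, mul_assoc]
  have h6 : (((Finset.Icc (2 ^ k * y / q ^ lg q k) (2 ^ k * (y + 1) / q ^ lg q k)).card : ℕ) : ℝ) ≤
      (q : ℝ) + 1 := by exact_mod_cast h2
  exact mul_le_mul_of_nonneg_right h6 (by positivity)

end Pool.Agent.Lib.MP_3e612f_nt.MB
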