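import Pool.Agent.Lib.MP_3e612f_nt.MDy
import Pool.Agent.Lib.MP_3e612f_nt.MTop

/-!
Splitting a value at a level, in the mean square over a dyadic interval.
-/

set_option autoImplicit false

namespace Pool.Agent.Lib.MP_3e612f_nt.MB

open Filter Topology
open Pool.Agent.Lib.MP_3e612f_nt.QA

namespace Split

/-- a function of the upper digits -/
theorem av_top {q : ℕ} (hq : 2 ≤ q) (l T : ℕ) (g : ℕ → ℝ) :
    av q (l + T) (fun n => g (n / q ^ l)) = av q T g := by
  rw [av_split]
  unfold cnd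
  have e : ∀ s < q ^ l, av q T (fun y => g ((q ^ l * y + s) / q ^ l)) = av q T g := by
    intro s hs
    refine av_congr fun y _ => ?_
    rw [Nat.mul_add_div (qpow_pos hq l), Nat.div_eq_of_lt hs, add_zero]
  rw [av_congr e, av_const hq]

/-- a function of the digits in the middle -/
theorem av_mid {q : ℕ} (hq : 2 ≤ q) (r l t : ℕ) (g : ℕ → ℝ) :
    av q (r + (l + t)) (fun n => g (n / q ^ r % q ^ l)) = av q l g := by
  rw [av_top hq r (l + t) (fun n => g (n % q ^ l)), av_split]
  unfold cnd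
  have e : ∀ s < q ^ l, av q t (fun y => g ((q ^ l * y + s) % q ^ l)) = g s := by
    intro s hs
    have e2 : ∀ y < q ^ t, g ((q ^ l * y + s) % q ^ l) = g s := by
      intro y _
      rw [Nat.mul_add_mod, Nat.mod_eq_of_lt hs]
    rw [av_congr e2, av_const hq]
  rw [av_congr e]

theorem single_le_av {q : ℕ} (hq : 2 ≤ q) {h z : ℕ} {u : ℕ → ℝ} (hu : ∀ n, 0 ≤ u n)
    (hz : z < q ^ h) : u z ≤ (q : ℝ) ^ h * av q h u := by
  have hpos := qpow_posR hq h
  unfold av
  rw [mul_div_cancel₀ _ hpos.ne']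
  exact Finset.single_le_sum (f := u) (fun n _ => hu n) (Finset.mem_range.2 hz)

theorem I_part {q m : ℕ} (hq : 2 ≤ q) {P : ℕ} (hP : P.Coprime q) {h l c z : ℕ}
    (hz : z < q ^ h) :
    av q l (fun ν => (1 + (q4_I q m (h + l) (q ^ h * ((P * ν + c) % q ^ l) + z) : ℝ)) ^ 2) ≤
      (q : ℝ) ^ h * (1 + 3 * q ^ m) ^ 2 := by
  rw [av_perm hq hP c l (fun σ => (1 + (q4_I q m (h + l) (q ^ h * σ + z) : ℝ)) ^ 2)]
  have h1 := q4_I_av hq m (h + l) 1 zero_le_one
  rw [av_split] at h1
  have h2 := single_le_av hq (h := h) (z := z)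
    (u := cnd q l h (fun s => (1 + (q4_I q m (h + l) s : ℝ)) ^ 2))
    (fun n => av_nonneg fun _ _ => by positivity) hz
  unfold cnd at h1 h2
  exact h2.trans (mul_le_mul_of_nonneg_left h1 (qpow_posR hq h).le)

theorem J_part {q m : ℕ} (hq : 2 ≤ q) {P : ℕ} (hP : P.Coprime q) {T y Y c : ℕ} (hc : c ≤ P)
    (hy : P * y + P ≤ Y) :
    av q T (fun n => (1 + (q4_J q m (P * (q ^ T * y + n) + c) : ℝ)) ^ 2) ≤
      (P + 1) * (1 + (3 * q ^ m + Y + 1)) ^ 2 := by
  calc av q T (fun n => (1 + (q4_J q m (P * (q ^ T * y + n) + c) : ℝ)) ^ 2)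
      ≤ av q T (fun n => ∑ t ∈ Finset.range (P + 1),
          (1 + (q4_J q m (q ^ T * (P * y + t) + (P * n + c) % q ^ T) : ℝ)) ^ 2) := by
        refine av_mono fun n hn => ?_
        have h1 : P * (q ^ T * y + n) + c =
            q ^ T * (P * y + (P * n + c) / q ^ T) + (P * n + c) % q ^ T := by
          have := Nat.div_add_mod (P * n + c) (q ^ T)
          calc P * (q ^ T * y + n) + c = q ^ T * (P * y) + (P * n + c) := by ring
            _ = q ^ T * (P * y) + (q ^ T * ((P * n + c) / q ^ T) + (P * n + c) % q ^ T) := by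
              rw [this]
            _ = _ := by ring
        rw [h1]
        exact Finset.single_le_sum (f := fun t =>
          (1 + (q4_J q m (q ^ T * (P * y + t) + (P * n + c) % q ^ T) : ℝ)) ^ 2)
          (fun t _ => by positivity)
          (Finset.mem_range.2 (Nat.lt_succ_of_le (q1_carry hq hc hn)))
    _ = ∑ t ∈ Finset.range (P + 1),
          av q T (fun n => (1 + (q4_J q m (q ^ T * (P * y + t) + n) : ℝ)) ^ 2) := by
        rw [av_finset_sum]
        refine Finset.sum_congr rfl fun t _ => ?_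
        exact av_perm hq hP c T (fun n => (1 + (q4_J q m (q ^ T * (P * y + t) + n) : ℝ)) ^ 2)
    _ ≤ ∑ t ∈ Finset.range (P + 1), (1 + (3 * (q : ℝ) ^ m + Y + 1)) ^ 2 := by
        refine Finset.sum_le_sum fun t ht => ?_
        refine q4_J_av hq m Y T 1 zero_le_one _ ?_
        have := Finset.mem_range.1 ht
        omega
    _ = _ := by
        rw [Finset.sum_const, Finset.card_range, nsmul_eq_mul]
        push_cast
        ring

end Split

open Split

/-- M12: splitting a value at level `l` -/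
theorem split_sq {q m : ℕ} (hq : 2 ≤ q) {P : ℕ} (hP : P.Coprime q) (h Y : ℕ) :
    ∃ K : ℝ, 0 ≤ K ∧ ∀ (F : ℕ → ℝ) (C : ℝ), QR q m F C → ∀ k r l y c z : ℕ, r ≤ l → l ≤ lg q k →
      y ≤ Y → c ≤ P → z < q ^ h →
      av 2 k (fun n => (F (sd q h P c z ((2 ^ k * y + n) / q ^ r)) -
        F (P * ((2 ^ k * y + n) / q ^ l)) -
        F (q ^ h * ((P * ((2 ^ k * y + n) / q ^ r % q ^ (l - r)) + c) % q ^ (l - r)) + z)) ^ 2) ≤
        K * C ^ 2 := by
  obtain ⟨K₁, hK₁, htop⟩ := top_shift (m := m) hq hP P Y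
  set Z : ℕ := P * (q * (Y + 1)) + P with hZ
  set A₁ : ℝ := (q : ℝ) ^ h * (1 + 3 * q ^ m) ^ 2 with hA₁
  set A₂ : ℝ := (P + 1) * ((P + 1) * (1 + (3 * (q : ℝ) ^ m + Z + 1)) ^ 2) with hA₂
  have hA₁0 : 0 ≤ A₁ := by positivity
  have hA₂0 : 0 ≤ A₂ := by positivity
  refine ⟨2 * ((P + 1) * K₁) + 2 * (18 * ((m : ℝ) + 1) ^ 2 * ((q + 1) * (A₁ + A₂))),
    by positivity, ?_⟩
  intro F C hF k r l y c z hrl hl hy hc hz
  obtain ⟨w, rfl⟩ : ∃ w, l = r + w := ⟨l - r, by omega⟩
  rw [Nat.add_sub_cancel_left]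
  obtain ⟨T, hT⟩ : ∃ T, lg q k = r + (w + T) := ⟨lg q k - (r + w), by omega⟩
  -- the bound for the defect
  set f : ℕ → ℝ := fun N =>
    (1 + (q4_I q m (h + w) (q ^ h * ((P * (N / q ^ r % q ^ w) + c) % q ^ w) + z) : ℝ)) ^ 2 +
      ∑ t ∈ Finset.range (P + 1), (1 + (q4_J q m (P * (N / q ^ (r + w)) + t) : ℝ)) ^ 2 with hf
  have hf0 : ∀ N, 0 ≤ f N := fun N => by
    rw [hf]
    exact add_nonneg (sq_nonneg _) (Finset.sum_nonneg fun _ _ => sq_nonneg _)
  set B : ℝ := 18 * ((m : ℝ) + 1) ^ 2 * C ^ 2 with hB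
  have hB0 : 0 ≤ B := by positivity
  have hpt : ∀ N : ℕ, (F (sd q h P c z (N / q ^ r)) - F (P * (N / q ^ (r + w))) -
      F (q ^ h * ((P * (N / q ^ r % q ^ w) + c) % q ^ w) + z)) ^ 2 ≤
      2 * (∑ t ∈ Finset.range (P + 1),
        (F (P * (N / q ^ (r + w)) + t) - F (P * (N / q ^ (r + w)))) ^ 2) + 2 * (B * f N) := by
    intro N
    have hν : N / q ^ r % q ^ w < q ^ w := Nat.mod_lt _ (qpow_pos hq w)
    set ν := N / q ^ r % q ^ w with hνd
    set κ := (P * ν + c) / q ^ w with hκ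
    set σ := (P * ν + c) % q ^ w with hσ
    have hκP : κ ≤ P := q1_carry hq hc hν
    have hlow : q ^ h * σ + z < q ^ (h + w) := q1_low hq hz
    have hN : N / q ^ r = q ^ w * (N / q ^ (r + w)) + ν := by
      rw [pow_add, ← Nat.div_div_eq_div_mul]
      exact (Nat.div_add_mod _ _).symm
    have hsd : sd q h P c z (N / q ^ r) =
        q ^ (h + w) * (P * (N / q ^ (r + w)) + κ) + (q ^ h * σ + z) := by
      unfold sd
      rw [hN]
      have := Nat.div_add_mod (P * ν + c) (q ^ w)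
      calc q ^ h * (P * (q ^ w * (N / q ^ (r + w)) + ν) + c) + z
          = q ^ h * (q ^ w * (P * (N / q ^ (r + w))) + (P * ν + c)) + z := by ring
        _ = q ^ h * (q ^ w * (P * (N / q ^ (r + w))) + (q ^ w * κ + σ)) + z := by rw [this]
        _ = _ := by rw [pow_add]; ring
    have hd := q4_bound_sq hq hF (h + w) (P * (N / q ^ (r + w)) + κ) (q ^ h * σ + z) hlow
    have hdf : dfc F q (h + w) (P * (N / q ^ (r + w)) + κ) (q ^ h * σ + z) ^ 2 ≤ B * f N := by
      refine hd.trans ?_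
      rw [← hB]
      refine mul_le_mul_of_nonneg_left ?_ hB0
      rw [hf]
      refine add_le_add le_rfl ?_
      exact Finset.single_le_sum (f := fun t =>
        (1 + (q4_J q m (P * (N / q ^ (r + w)) + t) : ℝ)) ^ 2) (fun t _ => sq_nonneg _)
        (Finset.mem_range.2 (Nat.lt_succ_of_le hκP))
    have hs : (F (P * (N / q ^ (r + w)) + κ) - F (P * (N / q ^ (r + w)))) ^ 2 ≤
        ∑ t ∈ Finset.range (P + 1),
          (F (P * (N / q ^ (r + w)) + t) - F (P * (N / q ^ (r + w)))) ^ 2 :=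
      Finset.single_le_sum (f := fun t =>
        (F (P * (N / q ^ (r + w)) + t) - F (P * (N / q ^ (r + w)))) ^ 2) (fun t _ => sq_nonneg _)
        (Finset.mem_range.2 (Nat.lt_succ_of_le hκP))
    rw [hsd]
    have e1 : F (q ^ (h + w) * (P * (N / q ^ (r + w)) + κ) + (q ^ h * σ + z)) -
        F (P * (N / q ^ (r + w))) - F (q ^ h * σ + z) =
        (F (P * (N / q ^ (r + w)) + κ) - F (P * (N / q ^ (r + w)))) +
          dfc F q (h + w) (P * (N / q ^ (r + w)) + κ) (q ^ h * σ + z) := by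
      unfold dfc
      ring
    rw [e1]
    nlinarith [sq_nonneg ((F (P * (N / q ^ (r + w)) + κ) - F (P * (N / q ^ (r + w)))) -
      dfc F q (h + w) (P * (N / q ^ (r + w)) + κ) (q ^ h * σ + z))]
  -- the average of the bound for the defect
  have hfav : av 2 k (fun n => f (2 ^ k * y + n)) ≤ (q + 1) * (A₁ + A₂) := by
    refine (dy_le hq k y hf0).trans ?_
    obtain ⟨hcard, hmax⟩ := dy_card hq k y
    refine (Finset.sum_le_card_nsmul _ _ (A₁ + A₂) ?_).trans ?_
    · intro y' hy'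
      have hy'Y : y' ≤ q * (Y + 1) :=
        ((Finset.mem_Icc.1 hy').2.trans hmax).trans (Nat.mul_le_mul_left _ (by omega))
      rw [hT]
      have e1 : ∀ n, (q ^ (r + (w + T)) * y' + n) / q ^ r = q ^ (w + T) * y' + n / q ^ r := by
        intro n
        rw [pow_add q r, mul_assoc, Nat.mul_add_div (qpow_pos hq r)]
      have e2 : ∀ n, (q ^ (r + (w + T)) * y' + n) / q ^ r % q ^ w = n / q ^ r % q ^ w := by
        intro n
        rw [e1, pow_add, mul_assoc, Nat.mul_add_mod]
      have e3 : ∀ n, (q ^ (r + (w + T)) * y' + n) / q ^ (r + w) =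
          q ^ T * y' + n / q ^ (r + w) := by
        intro n
        rw [← add_assoc, pow_add q (r + w), mul_assoc, Nat.mul_add_div (qpow_pos hq _)]
      have e4 : av q (r + (w + T)) (fun n => f (q ^ (r + (w + T)) * y' + n)) =
          av q w (fun ν =>
            (1 + (q4_I q m (h + w) (q ^ h * ((P * ν + c) % q ^ w) + z) : ℝ)) ^ 2) +
          ∑ t ∈ Finset.range (P + 1),
            av q T (fun n => (1 + (q4_J q m (P * (q ^ T * y' + n) + t) : ℝ)) ^ 2) := by
        rw [hf]
        simp only [e2, e3]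
        rw [av_add, av_finset_sum]
        congr 1
        · exact av_mid hq r w T (fun ν =>
            (1 + (q4_I q m (h + w) (q ^ h * ((P * ν + c) % q ^ w) + z) : ℝ)) ^ 2)
        · refine Finset.sum_congr rfl fun t _ => ?_
          rw [← add_assoc]
          exact av_top hq (r + w) T (fun n =>
            (1 + (q4_J q m (P * (q ^ T * y' + n) + t) : ℝ)) ^ 2)
      rw [e4]
      refine add_le_add (I_part hq hP hz) ?_
      refine (Finset.sum_le_card_nsmul _ _
        ((P + 1) * (1 + (3 * (q : ℝ) ^ m + Z + 1)) ^ 2) ?_).trans (le_of_eq ?_)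
      · intro t ht
        refine J_part hq hP (by have := Finset.mem_range.1 ht; omega) ?_
        have := Nat.mul_le_mul_left P hy'Y
        omega
      · rw [Finset.card_range, nsmul_eq_mul, hA₂]
        push_cast
        ring
    · rw [nsmul_eq_mul]
      refine mul_le_mul_of_nonneg_right ?_ (by positivity)
      exact_mod_cast hcard
  calc _ ≤ av 2 k (fun n => 2 * (∑ t ∈ Finset.range (P + 1),
        (F (P * ((2 ^ k * y + n) / q ^ (r + w)) + t) -
          F (P * ((2 ^ k * y + n) / q ^ (r + w)))) ^ 2) + 2 * (B * f (2 ^ k * y + n))) :=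
        av_mono fun n _ => hpt _
    _ = 2 * (∑ t ∈ Finset.range (P + 1), av 2 k (fun n =>
        (F (P * ((2 ^ k * y + n) / q ^ (r + w)) + t) -
          F (P * ((2 ^ k * y + n) / q ^ (r + w)))) ^ 2)) +
          2 * (B * av 2 k (fun n => f (2 ^ k * y + n))) := by
        rw [av_add, av_const_mul, av_const_mul, av_const_mul, av_finset_sum]
    _ ≤ 2 * ((P + 1) * (K₁ * C ^ 2)) + 2 * (B * ((q + 1) * (A₁ + A₂))) := by
        refine add_le_add (mul_le_mul_of_nonneg_left ?_ (by norm_num))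
          (mul_le_mul_of_nonneg_left (mul_le_mul_of_nonneg_left hfav hB0) (by norm_num))
        refine (Finset.sum_le_card_nsmul _ _ (K₁ * C ^ 2) ?_).trans (le_of_eq ?_)
        · intro t ht
          exact htop F C hF k (r + w) y t hl hy (by have := Finset.mem_range.1 ht; omega)
        · rw [Finset.card_range, nsmul_eq_mul]
          push_cast
          ring
    _ = _ := by
        rw [hB]
        ring

end Pool.Agent.Lib.MP_3e612f_nt.MB
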