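import Pool.Agent.Lib.MP_3e612f_nt.QCov
import Pool.Agent.Lib.MP_3e612f_nt.QDefect

/-!
Upper bound for the variance of a quasi-additive function.
-/

set_option autoImplicit false

namespace Pool.Agent.Lib.MP_3e612f_nt.QA

theorem q5_cov_shift {q : ℕ} (hq : 2 ≤ q) (k : ℕ) (u : ℕ → ℝ) (c : ℝ) :
    cov q k u u ≤ av q k fun n => (u n - c) ^ 2 := by
  have h1 : cov q k u u = cov q k (fun n => u n - c) (fun n => u n - c) := by
    rw [cov_eq hq, cov_eq hq, av_sub, av_const hq]
    congr 1
    funext n
    ring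
  rw [h1]
  exact cov_self_le k _

theorem q5_three (a b c : ℝ) : (a + b + c) ^ 2 ≤ 3 * (a ^ 2 + b ^ 2 + c ^ 2) := by
  nlinarith [sq_nonneg (a - b), sq_nonneg (b - c), sq_nonneg (a - c)]

theorem var_le {q m : ℕ} (hq : 2 ≤ q) : ∃ K : ℝ, 0 ≤ K ∧ ∀ (F : ℕ → ℝ) (C : ℝ),
    QR q m F C → ∀ W : ℕ, cov q W F F ≤ K * C ^ 2 * W := by
  obtain ⟨K, hK, hdef⟩ := defect_sq (q := q) (m := m) hq
  refine ⟨12 + 6 * K, by positivity, fun F C hF W => ?_⟩
  have h0 := cov_decomp hq 1 W F F
  rw [one_mul] at h0
  rw [h0]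
  have hterm : ∀ i ∈ Finset.range W, av q (1 * i) (fun s =>
      cov q 1 (fun x => cnd q (1 * (W - (i + 1))) (1 * (i + 1)) F (q ^ (1 * i) * x + s))
        (fun x => cnd q (1 * (W - (i + 1))) (1 * (i + 1)) F (q ^ (1 * i) * x + s))) ≤
      (12 + 6 * K) * C ^ 2 := by
    intro i _
    simp only [one_mul]
    set l := W - (i + 1) with hl
    -- pointwise in `s`
    have h1 : ∀ s : ℕ, cov q 1 (fun x => cnd q l (i + 1) F (q ^ i * x + s))
        (fun x => cnd q l (i + 1) F (q ^ i * x + s)) ≤
        av q 1 (fun x => 3 * ((2 * C) ^ 2 + dfc F q i x s ^ 2 +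
          av q l (fun y => dfc F q (i + 1) y (q ^ i * x + s) ^ 2))) := by
      intro s
      refine (q5_cov_shift hq 1 _ (av q l F + F s)).trans (av_mono fun x hx => ?_)
      have h2 : cnd q l (i + 1) F (q ^ i * x + s) - (av q l F + F s) =
          F x + dfc F q i x s + av q l (fun y => dfc F q (i + 1) y (q ^ i * x + s)) := by
        have h3 : cnd q l (i + 1) F (q ^ i * x + s) =
            av q l (fun y => F y + (F (q ^ i * x + s) +
              dfc F q (i + 1) y (q ^ i * x + s))) := by
          unfold cnd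
          congr 1
          funext y
          unfold dfc
          ring
        rw [h3, av_add, av_add, av_const hq]
        unfold dfc
        ring
      rw [h2]
      refine (q5_three _ _ _).trans ?_
      have h4 : F x ^ 2 ≤ (2 * C) ^ 2 := by
        have h5 := hF.growth 1 x hx
        have h6 : |F x| ≤ 2 * C := by
          push_cast at h5
          linarith
        rw [← sq_abs]
        exact pow_le_pow_left₀ (abs_nonneg _) h6 2
      have h7 := av_sq_le q hq l (fun y => dfc F q (i + 1) y (q ^ i * x + s))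
      linarith
    refine (av_mono fun s _ => h1 s).trans ?_
    have h8 : av q i (fun s => av q 1 (fun x => 3 * ((2 * C) ^ 2 + dfc F q i x s ^ 2 +
          av q l (fun y => dfc F q (i + 1) y (q ^ i * x + s) ^ 2)))) =
        3 * ((2 * C) ^ 2 + av q i (fun s => av q 1 (fun x => dfc F q i x s ^ 2)) +
          av q i (fun s => av q 1 (fun x =>
            av q l (fun y => dfc F q (i + 1) y (q ^ i * x + s) ^ 2)))) := by
      simp only [av_const_mul, av_add, av_const hq]
    rw [h8]
    have h9 : av q i (fun s => av q 1 (fun x => dfc F q i x s ^ 2)) ≤ K * C ^ 2 := by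
      rw [av_swap]
      exact hdef F C hF i 1
    have h10 : av q i (fun s => av q 1 (fun x =>
            av q l (fun y => dfc F q (i + 1) y (q ^ i * x + s) ^ 2))) ≤ K * C ^ 2 := by
      have h11 := av_split q i 1 (fun t => av q l (fun y => dfc F q (i + 1) y t ^ 2))
      unfold cnd at h11
      rw [← h11, av_swap]
      exact hdef F C hF (i + 1) l
    nlinarith [sq_nonneg C]
  calc _ ≤ ∑ i ∈ Finset.range W, (12 + 6 * K) * C ^ 2 := Finset.sum_le_sum hterm
    _ = (12 + 6 * K) * C ^ 2 * W := by
      rw [Finset.sum_const, Finset.card_range, nsmul_eq_mul]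
      ring

end Pool.Agent.Lib.MP_3e612f_nt.QA
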