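import Pool.Agent.Lib.MP_3e612f_nt.MTop
import Pool.Agent.Lib.MP_3e612f_nt.MSplit
import Pool.Agent.Lib.MP_3e612f_nt.QVarUp

/-!
On short intervals the values of a quasi-additive function are concentrated.
-/

set_option autoImplicit false

namespace Pool.Agent.Lib.MP_3e612f_nt.MB

open Filter Topology
open Pool.Agent.Lib.MP_3e612f_nt.QA

theorem short_lg_le {q : ℕ} (a : ℕ) : q ^ lg q a ≤ 2 ^ a := by
  unfold lg
  exact Nat.pow_log_le_self q (by positivity)

theorem short_lt_lg {q : ℕ} (hq : 2 ≤ q) (a : ℕ) : 2 ^ a < q ^ (lg q a + 1) := by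
  unfold lg
  exact Nat.lt_pow_succ_log_self (by omega) _

theorem short_lg_mono {q : ℕ} {a k : ℕ} (h : a ≤ k) : lg q a ≤ lg q k := by
  unfold lg
  exact Nat.log_mono_right (Nat.pow_le_pow_right (by norm_num) h)

theorem short_lg_self {q : ℕ} (hq : 2 ≤ q) (a : ℕ) : lg q a ≤ a := by
  have h1 : 2 ^ lg q a ≤ 2 ^ a := (Nat.pow_le_pow_left hq _).trans (short_lg_le a)
  exact (Nat.pow_le_pow_iff_right (by norm_num)).1 h1

/-- a shifted average is at most the sum of the averages over two intervals -/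
theorem short_shift {g : ℕ → ℝ} (hg : ∀ n, 0 ≤ g n) (k u r : ℕ) (hr : r ≤ 2 ^ k) :
    av 2 k (fun n => g (u + n + r)) ≤ av 2 k (fun n => g (u + n)) +
      av 2 k (fun n => g (u + 2 ^ k + n)) := by
  unfold av
  rw [← add_div]
  refine div_le_div_of_nonneg_right ?_ (by positivity)
  have h1 : ∑ n ∈ Finset.range (2 ^ k), g (u + n + r) ≤
      ∑ n ∈ Finset.range (2 ^ k + 2 ^ k), g (u + n) := by
    have h2 : ∑ n ∈ Finset.range (2 ^ k), g (u + n + r) =
        ∑ n ∈ (Finset.range (2 ^ k)).image (fun n => n + r), g (u + n) := by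
      rw [Finset.sum_image (fun x _ y _ hxy => by simpa using hxy)]
      refine Finset.sum_congr rfl fun n _ => ?_
      rw [add_assoc]
    rw [h2]
    refine Finset.sum_le_sum_of_subset_of_nonneg ?_ fun n _ _ => hg _
    intro x hx
    simp only [Finset.mem_image, Finset.mem_range] at hx ⊢
    obtain ⟨n, hn, rfl⟩ := hx
    omega
  refine h1.trans (le_of_eq ?_)
  rw [Finset.sum_range_add]
  refine congrArg₂ _ rfl (Finset.sum_congr rfl fun n _ => ?_)
  simp only [add_assoc]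

/-- averages of periodic functions over intervals longer than a period -/
theorem short_periodic {q : ℕ} (hq : 2 ≤ q) {φ : ℕ → ℝ} (hφ : ∀ n, 0 ≤ φ n) (a l u : ℕ)
    (hl : q ^ l ≤ 2 ^ a) :
    av 2 a (fun r => φ ((u + r) % q ^ l)) ≤ 2 * av q l φ := by
  have hM := qpow_pos hq l
  have hMR := qpow_posR hq l
  set B : ℕ := 2 ^ a / q ^ l + 1 with hB
  have hS : ∑ r ∈ Finset.range (2 ^ a), φ ((u + r) % q ^ l) ≤
      ∑ r ∈ Finset.range (q ^ l * B), φ ((u + r) % q ^ l) := by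
    refine Finset.sum_le_sum_of_subset_of_nonneg ?_ fun n _ _ => hφ _
    intro x hx
    simp only [Finset.mem_range] at hx ⊢
    have h1 : 2 ^ a < q ^ l * (2 ^ a / q ^ l + 1) := Nat.lt_mul_div_succ _ hM
    exact hx.trans h1
  have hper : ∀ B : ℕ, ∑ r ∈ Finset.range (q ^ l * B), φ ((u + r) % q ^ l) =
      B * ∑ s ∈ Finset.range (q ^ l), φ s := by
    have h0 : ∑ r ∈ Finset.range (q ^ l), φ ((u + r) % q ^ l) =
        ∑ s ∈ Finset.range (q ^ l), φ s := by
      have h2 := av_perm hq (Nat.coprime_one_left q) u l φ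
      unfold av at h2
      rw [div_left_inj' hMR.ne'] at h2
      rw [← h2]
      refine Finset.sum_congr rfl fun n _ => ?_
      simp only [one_mul, add_comm]
    intro B
    induction B with
    | zero => simp
    | succ B ih =>
      rw [mul_add, mul_one, Finset.sum_range_add, ih, Nat.cast_add, Nat.cast_one, add_mul, one_mul,
        ← h0]
      congr 1
      refine Finset.sum_congr rfl fun n _ => ?_
      congr 1
      rw [show u + (q ^ l * B + n) = u + n + q ^ l * B by ring, Nat.add_mul_mod_self_left]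
  unfold av
  rw [hper] at hS
  have h2a : (0 : ℝ) < 2 ^ a := by positivity
  have hSp : 0 ≤ ∑ s ∈ Finset.range (q ^ l), φ s := Finset.sum_nonneg fun n _ => hφ n
  have hBR : (B : ℝ) ≤ 2 * (2 ^ a / (q : ℝ) ^ l) := by
    have h3 : ((2 ^ a / q ^ l : ℕ) : ℝ) ≤ (2 : ℝ) ^ a / (q : ℝ) ^ l := by
      have := Nat.cast_div_le (m := 2 ^ a) (n := q ^ l) (α := ℝ)
      push_cast at this
      exact this
    have h4 : (1 : ℝ) ≤ 2 ^ a / (q : ℝ) ^ l := by
      rw [one_le_div hMR]
      exact_mod_cast hl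
    rw [hB]
    push_cast
    linarith
  push_cast
  rw [div_le_iff₀ h2a]
  calc ∑ n ∈ Finset.range (2 ^ a), φ ((u + n) % q ^ l) ≤ B * ∑ s ∈ Finset.range (q ^ l), φ s := hS
    _ ≤ 2 * (2 ^ a / (q : ℝ) ^ l) * ∑ s ∈ Finset.range (q ^ l), φ s :=
        mul_le_mul_of_nonneg_right hBR hSp
    _ = 2 * ((∑ n ∈ Finset.range (q ^ l), φ n) / (q : ℝ) ^ l) * 2 ^ a := by ring

theorem short_five (a b c d e : ℝ) :
    (a + b + c + d + e) ^ 2 ≤ 5 * (a ^ 2 + b ^ 2 + (c ^ 2 + d ^ 2) + e ^ 2) := by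
  nlinarith [sq_nonneg (a - b), sq_nonneg (a - c), sq_nonneg (a - d), sq_nonneg (a - e),
    sq_nonneg (b - c), sq_nonneg (b - d), sq_nonneg (b - e), sq_nonneg (c - d), sq_nonneg (c - e),
    sq_nonneg (d - e)]

/-- M9: on short intervals the values are concentrated -/
theorem var_short {q m : ℕ} (hq : 2 ≤ q) {P : ℕ} (hP : P.Coprime q) (h Y : ℕ) :
    ∃ K : ℝ, 0 ≤ K ∧ ∀ (F : ℕ → ℝ) (C : ℝ), QR q m F C → ∀ a k y c z : ℕ, a ≤ k → y ≤ Y → c ≤ P →
      z < q ^ h → ∃ ctr : ℕ → ℝ,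
        av 2 k (fun n => av 2 a (fun r =>
          (F (sd q h P c z (2 ^ k * y + n + r)) - ctr n) ^ 2)) ≤ K * C ^ 2 * (a + 1) := by
  obtain ⟨K1, hK1, H1⟩ := split_sq (m := m) hq hP h (Y + 1)
  obtain ⟨K2, hK2, H2⟩ := top_shift (m := m) hq hP (P * q) Y
  obtain ⟨K3, hK3, H3⟩ := defect_sq_right (m := m) hq h 0
  obtain ⟨K4, hK4, H4⟩ := var_le (m := m) hq
  refine ⟨5 * (2 * K1 + (P * q + 1) * K2 + 2 * K3 + 2 * K4 + (h + 1) ^ 2), by positivity, ?_⟩
  intro F C hF a k y c z hak hy hc hz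
  set l := lg q a with hl
  have hlk : l ≤ lg q k := short_lg_mono hak
  have hla : l ≤ a := short_lg_self hq a
  have hql : q ^ l ≤ 2 ^ a := short_lg_le a
  have hpos := qpow_pos hq l
  have hak2 : 2 ^ a ≤ 2 ^ k := Nat.pow_le_pow_right (by norm_num) hak
  -- the pieces
  let σ : ℕ → ℕ := fun s => (P * s + c) % q ^ l
  let A : ℕ → ℝ := fun N => F (sd q h P c z N) - F (P * (N / q ^ l)) - F (q ^ h * σ (N % q ^ l) + z)
  let Bt : ℕ → ℕ → ℝ := fun t x => F (P * (x / q ^ l) + t) - F (P * (x / q ^ l))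
  let D : ℕ → ℝ := fun s => dfc F q h (σ s) z
  let E : ℕ → ℝ := fun s => F (σ s) - av q l F
  refine ⟨fun n => av q l F + F (P * ((2 ^ k * y + n) / q ^ l)), ?_⟩
  -- pointwise
  have hpt : ∀ n r, r < 2 ^ a →
      (F (sd q h P c z (2 ^ k * y + n + r)) -
        (av q l F + F (P * ((2 ^ k * y + n) / q ^ l)))) ^ 2 ≤
      5 * (A (2 ^ k * y + n + r) ^ 2 +
        (∑ t ∈ Finset.range (P * q + 1), Bt t (2 ^ k * y + n) ^ 2) +
        (D ((2 ^ k * y + n + r) % q ^ l) ^ 2 + E ((2 ^ k * y + n + r) % q ^ l) ^ 2) +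
        (C * (h + 1)) ^ 2) := by
    intro n r hr
    set x := 2 ^ k * y + n with hx
    obtain ⟨t', ht', hxt⟩ : ∃ t' ≤ q, (x + r) / q ^ l = x / q ^ l + t' := by
      refine ⟨(x + r) / q ^ l - x / q ^ l, ?_, ?_⟩
      · have h1 : (x + r) / q ^ l ≤ x / q ^ l + q := by
          have h2 : x + r < q ^ l * (x / q ^ l + q + 1) := by
            have h3 := Nat.lt_mul_div_succ x hpos
            have h4 : r < q ^ (l + 1) := hr.trans (short_lt_lg hq a)
            rw [pow_succ] at h4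
            nlinarith
          have h3 : (x + r) / q ^ l < x / q ^ l + q + 1 := Nat.div_lt_of_lt_mul h2
          omega
        omega
      · have h1 : x / q ^ l ≤ (x + r) / q ^ l := Nat.div_le_div_right (by omega)
        omega
    have hBb : (F (P * ((x + r) / q ^ l)) - F (P * (x / q ^ l))) ^ 2 ≤
        ∑ t ∈ Finset.range (P * q + 1), Bt t x ^ 2 := by
      have h1 : P * t' ∈ Finset.range (P * q + 1) := by
        rw [Finset.mem_range]
        have := Nat.mul_le_mul_left P ht'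
        omega
      have h2 := Finset.single_le_sum (f := fun t => Bt t x ^ 2)
        (fun t _ => sq_nonneg _) h1
      refine le_trans (le_of_eq ?_) h2
      simp only [Bt]
      rw [hxt, mul_add]
    have hz2 : (F z) ^ 2 ≤ (C * (h + 1)) ^ 2 := by
      rw [← sq_abs]
      exact pow_le_pow_left₀ (abs_nonneg _) (hF.growth h z hz) 2
    have h5 := short_five (A (x + r)) (F (P * ((x + r) / q ^ l)) - F (P * (x / q ^ l)))
      (D ((x + r) % q ^ l)) (E ((x + r) % q ^ l)) (F z)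
    have h6 : F (sd q h P c z (x + r)) - (av q l F + F (P * (x / q ^ l))) =
        A (x + r) + (F (P * ((x + r) / q ^ l)) - F (P * (x / q ^ l))) + D ((x + r) % q ^ l) +
          E ((x + r) % q ^ l) + F z := by
      simp only [A, D, E, dfc]
      ring
    rw [h6]
    refine h5.trans ?_
    have h7 : (0 : ℝ) ≤ 5 := by norm_num
    refine mul_le_mul_of_nonneg_left ?_ h7
    linarith
  have hmain : av 2 k (fun n => av 2 a (fun r =>
      (F (sd q h P c z (2 ^ k * y + n + r)) -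
        (av q l F + F (P * ((2 ^ k * y + n) / q ^ l)))) ^ 2)) ≤
      av 2 k (fun n => av 2 a (fun r => 5 * (A (2 ^ k * y + n + r) ^ 2 +
        (∑ t ∈ Finset.range (P * q + 1), Bt t (2 ^ k * y + n) ^ 2) +
        (D ((2 ^ k * y + n + r) % q ^ l) ^ 2 + E ((2 ^ k * y + n + r) % q ^ l) ^ 2) +
        (C * (h + 1)) ^ 2))) :=
    av_mono fun n _ => av_mono fun r hr => hpt n r hr
  refine hmain.trans ?_
  have hsplit : av 2 k (fun n => av 2 a (fun r => 5 * (A (2 ^ k * y + n + r) ^ 2 +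
        (∑ t ∈ Finset.range (P * q + 1), Bt t (2 ^ k * y + n) ^ 2) +
        (D ((2 ^ k * y + n + r) % q ^ l) ^ 2 + E ((2 ^ k * y + n + r) % q ^ l) ^ 2) +
        (C * (h + 1)) ^ 2))) =
      5 * (av 2 a (fun r => av 2 k (fun n => A (2 ^ k * y + n + r) ^ 2)) +
        (∑ t ∈ Finset.range (P * q + 1), av 2 k (fun n => Bt t (2 ^ k * y + n) ^ 2)) +
        av 2 k (fun n => av 2 a (fun r => D ((2 ^ k * y + n + r) % q ^ l) ^ 2 +
          E ((2 ^ k * y + n + r) % q ^ l) ^ 2)) + (C * (h + 1)) ^ 2) := by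
    simp_rw [av_const_mul, av_add, av_const (le_refl 2)]
    rw [av_swap 2 k a, av_finset_sum]
  rw [hsplit]
  -- first piece
  have hA : av 2 a (fun r => av 2 k (fun n => A (2 ^ k * y + n + r) ^ 2)) ≤ 2 * K1 * C ^ 2 := by
    refine av_le (le_refl 2) fun r hr => ?_
    have h1 := short_shift (g := fun N => A N ^ 2) (fun n => sq_nonneg _) k (2 ^ k * y) r
      (hr.le.trans hak2)
    have h2 := H1 F C hF k 0 l y c z (Nat.zero_le _) hlk (by omega) hc hz
    have h3 := H1 F C hF k 0 l (y + 1) c z (Nat.zero_le _) hlk (by omega) hc hz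
    simp only [pow_zero, Nat.div_one, Nat.sub_zero] at h2 h3
    have h4 : av 2 k (fun n => A (2 ^ k * y + n) ^ 2) ≤ K1 * C ^ 2 := h2
    have h5 : av 2 k (fun n => A (2 ^ k * y + 2 ^ k + n) ^ 2) ≤ K1 * C ^ 2 := by
      have e : 2 ^ k * y + 2 ^ k = 2 ^ k * (y + 1) := by ring
      rw [e]
      exact h3
    linarith
  have hB : (∑ t ∈ Finset.range (P * q + 1), av 2 k (fun n => Bt t (2 ^ k * y + n) ^ 2)) ≤
      (P * q + 1) * K2 * C ^ 2 := by
    have h1 : ∀ t ∈ Finset.range (P * q + 1), av 2 k (fun n => Bt t (2 ^ k * y + n) ^ 2) ≤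
        K2 * C ^ 2 := by
      intro t ht
      exact H2 F C hF k l y t hlk hy (by have := Finset.mem_range.1 ht; omega)
    refine (Finset.sum_le_sum h1).trans (le_of_eq ?_)
    rw [Finset.sum_const, Finset.card_range, nsmul_eq_mul]
    push_cast
    ring
  have hDE : av 2 k (fun n => av 2 a (fun r => D ((2 ^ k * y + n + r) % q ^ l) ^ 2 +
      E ((2 ^ k * y + n + r) % q ^ l) ^ 2)) ≤ 2 * (K3 * C ^ 2 + K4 * C ^ 2 * l) := by
    refine av_le (le_refl 2) fun n _ => ?_
    have h1 := short_periodic hq (φ := fun s => D s ^ 2 + E s ^ 2) (fun s => by positivity) a l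
      (2 ^ k * y + n) hql
    refine h1.trans (mul_le_mul_of_nonneg_left ?_ (by norm_num))
    have h2 := av_perm hq hP c l (fun s => dfc F q h s z ^ 2 + (F s - av q l F) ^ 2)
    have h3 : av q l (fun s => D s ^ 2 + E s ^ 2) =
        av q l (fun s => dfc F q h s z ^ 2 + (F s - av q l F) ^ 2) := h2
    rw [h3, av_add]
    have h4 := H3 F C hF l 0 z (le_refl 0) hz
    simp only [mul_zero, zero_add] at h4
    have h5 := H4 F C hF l
    rw [cov_eq hq] at h5
    have h6 : av q l (fun s => (F s - av q l F) ^ 2) =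
        av q l (fun s => (F s - av q l F) * (F s - av q l F)) := by
      simp_rw [sq]
    rw [h6]
    linarith
  have hC : 0 ≤ C ^ 2 := sq_nonneg C
  have hlR : (l : ℝ) ≤ a := by exact_mod_cast hla
  have ha0 : (0 : ℝ) ≤ a := Nat.cast_nonneg a
  have hK4l : K4 * C ^ 2 * l ≤ K4 * C ^ 2 * a :=
    mul_le_mul_of_nonneg_left hlR (by positivity)
  have e1 : (C * ((h : ℝ) + 1)) ^ 2 = ((h : ℝ) + 1) ^ 2 * C ^ 2 := by ring
  rw [e1]
  have f1 : 0 ≤ K1 * C ^ 2 * a := by positivity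
  have f2 : 0 ≤ (P * q + 1) * K2 * C ^ 2 * a := by positivity
  have f3 : 0 ≤ K3 * C ^ 2 * a := by positivity
  have f4 : 0 ≤ K4 * C ^ 2 := by positivity
  have f5 : 0 ≤ ((h : ℝ) + 1) ^ 2 * C ^ 2 * a := by positivity
  nlinarith

end Pool.Agent.Lib.MP_3e612f_nt.MB
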