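import Pool.Agent.Lib.MP_3e612f_nt.MDefs
import Pool.Agent.Lib.MP_3e612f_nt.QExt
import Pool.Agent.Lib.MP_3e612f_nt.MDir

/-!
Near-invariance of the joint law under all shifts of a box (task M11).
-/

set_option autoImplicit false

namespace Pool.Agent.Lib.MP_3e612f_nt.MB

open Filter Topology
open Pool.Agent.Lib.MP_3e612f_nt.QA

section abstr

variable {G : Type*} [AddCommGroup G]

/-- the joint law of `X`, `X'` is moved by at most `δ` by the shift `(V, V')` -/
def m11_N (X X' : ℕ → G) (k : ℕ) (V V' : G) (δ : ℝ) : Prop :=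
  ∀ Ψ : G → G → ℝ, (∀ x x', |Ψ x x'| ≤ 1) →
    |av 2 k (fun n => Ψ (X n) (X' n)) - av 2 k (fun n => Ψ (X n + V) (X' n + V'))| ≤ δ

theorem m11_zero (X X' : ℕ → G) (k : ℕ) : m11_N X X' k 0 0 0 := by
  intro Ψ _
  simp

theorem m11_add {X X' : ℕ → G} {k : ℕ} {V V' W W' : G} {δ δ' : ℝ} (h1 : m11_N X X' k V V' δ)
    (h2 : m11_N X X' k W W' δ') : m11_N X X' k (V + W) (V' + W') (δ + δ') := by
  intro Ψ hΨ
  have a1 := h1 Ψ hΨ
  have a2 := h2 (fun x x' => Ψ (x + V) (x' + V')) (fun x x' => hΨ _ _)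
  have e1 : (fun n => Ψ (X n + (V + W)) (X' n + (V' + W'))) =
      fun n => Ψ (X n + W + V) (X' n + W' + V') := by
    funext n
    have b1 : X n + (V + W) = X n + W + V := by abel
    have b2 : X' n + (V' + W') = X' n + W' + V' := by abel
    rw [b1, b2]
  rw [e1]
  exact (abs_sub_le _ _ _).trans (add_le_add a1 a2)

theorem m11_mono {X X' : ℕ → G} {k : ℕ} {V V' : G} {δ δ' : ℝ} (h1 : m11_N X X' k V V' δ)
    (h2 : δ ≤ δ') : m11_N X X' k V V' δ' := fun Ψ hΨ => (h1 Ψ hΨ).trans h2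

theorem m11_sum {X X' : ℕ → G} {k : ℕ} {α : Type*} (s : Finset α) (V V' : α → G) (δ : ℝ)
    (h : ∀ a ∈ s, m11_N X X' k (V a) (V' a) δ) :
    m11_N X X' k (∑ a ∈ s, V a) (∑ a ∈ s, V' a) (s.card * δ) := by
  classical
  induction s using Finset.induction_on with
  | empty => simpa using m11_zero X X' k
  | insert a s ha ih =>
    rw [Finset.sum_insert ha, Finset.sum_insert ha, Finset.card_insert_of_notMem ha]
    refine m11_mono (m11_add (h a (Finset.mem_insert_self _ _))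
      (ih fun b hb => h b (Finset.mem_insert_of_mem hb))) (le_of_eq ?_)
    push_cast
    ring

end abstr

/-- the remainders -/
noncomputable def m11_bx (q d : ℕ) : Finset (Fin d → ℤ) :=
  Fintype.piFinset (fun _ => Finset.Ico (0 : ℤ) ((q - 1 : ℕ) : ℤ))

theorem m11_dec {q m d : ℕ} (hq : 2 ≤ q) {e : ℕ → Fin d → ℤ}
    (he : ∀ a y s : ℕ, s < q ^ a → e (q ^ (a + m) * y + s) = e y + e s)
    (hgen : AddSubgroup.closure (Set.range e) = ⊤) (v : Fin d → ℤ) (L : ℕ)
    (hv0 : ∀ a, 0 ≤ v a) (hv1 : ∀ a, v a ≤ L) :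
    ∃ (w : Fin d → ℕ) (ρ : Fin d → ℤ), (∀ a, w a ≤ L) ∧ ρ ∈ m11_bx q d ∧
      lamv e v = (∑ a, w a • ((q - 1) • (Pi.single a 1 : Fin d → ℤ))) + lamv e ρ := by
  have hq1 : 0 < q - 1 := by omega
  have hq1' : (0 : ℤ) < ((q - 1 : ℕ) : ℤ) := by exact_mod_cast hq1
  set w : Fin d → ℕ := fun a => (v a / ((q - 1 : ℕ) : ℤ)).toNat with hw
  set ρ : Fin d → ℤ := fun a => v a % ((q - 1 : ℕ) : ℤ) with hρ
  have hw' : ∀ a, ((w a : ℕ) : ℤ) = v a / ((q - 1 : ℕ) : ℤ) := fun a =>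
    Int.toNat_of_nonneg (Int.ediv_nonneg (hv0 a) hq1'.le)
  have hdec : v = (∑ a, w a • ((q - 1) • (Pi.single a 1 : Fin d → ℤ))) + ρ := by
    funext b
    rw [Pi.add_apply, Finset.sum_apply]
    have e1 : ∀ a, (w a • ((q - 1) • (Pi.single a 1 : Fin d → ℤ))) b =
        if a = b then ((w a : ℕ) : ℤ) * ((q - 1 : ℕ) : ℤ) else 0 := by
      intro a
      rw [Pi.smul_apply, Pi.smul_apply, nsmul_eq_mul, nsmul_eq_mul]
      by_cases hab : a = b
      · subst hab
        rw [Pi.single_eq_same, if_pos rfl]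
        ring
      · rw [Pi.single_eq_of_ne (Ne.symm hab), if_neg hab]
        ring
    rw [Finset.sum_congr rfl fun a _ => e1 a, Finset.sum_ite_eq' Finset.univ b
      (fun a => ((w a : ℕ) : ℤ) * ((q - 1 : ℕ) : ℤ)), if_pos (Finset.mem_univ b), hw' b]
    have := Int.ediv_mul_add_emod (v b) ((q - 1 : ℕ) : ℤ)
    rw [hρ]
    linarith
  refine ⟨w, ρ, ?_, ?_, ?_⟩
  · intro a
    have h2 : v a / ((q - 1 : ℕ) : ℤ) ≤ v a := Int.ediv_le_self _ (hv0 a)
    have h3 : ((w a : ℕ) : ℤ) ≤ (L : ℤ) := by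
      rw [hw' a]
      exact h2.trans (hv1 a)
    exact_mod_cast h3
  · rw [m11_bx, Fintype.mem_piFinset]
    intro a
    rw [Finset.mem_Ico]
    exact ⟨Int.emod_nonneg _ hq1'.ne', Int.emod_lt_of_pos _ hq1'⟩
  · have hmem : (∑ a, w a • ((q - 1) • (Pi.single a 1 : Fin d → ℤ))) ∈ Lam e :=
      AddSubgroup.sum_mem _ fun a _ => AddSubgroup.nsmul_mem _ (smul_mem_lam hq he hgen _) _
    conv_lhs => rw [hdec]
    rw [lamv_add hmem]

section several

variable {ι : Type*} [Fintype ι] [DecidableEq ι] {q : ι → ℕ} {m : ℕ} {d : ι → ℕ}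
  {e : ∀ i, ℕ → Fin (d i) → ℤ} {C : ℝ}

/-- finitely many directions at once -/
theorem m11_fin (S : Sys q m e C) {P R : ι → ℕ} (hPR : Mul q m P R) (h Y : ℕ) {ε : ℝ}
    (hε : 0 < ε) (D : Finset (Σ i : ι, (Fin (d i) → ℤ) × (Fin (d i) → ℤ)))
    (hD : ∀ x ∈ D, x.2.1 ∈ Lam (e x.1) ∧ x.2.2 ∈ Lam (e x.1)) :
    ∃ κ : ℝ, 0 < κ ∧ ∀ᶠ k : ℕ in atTop, ∀ y ≤ Y, ∀ c z c' z' : ι → ℕ, Bd q h P c z →
      Bd q h R c' z' → ∀ s : ℕ, (s : ℝ) ≤ κ * Real.sqrt (k + 1) → ∀ x ∈ D,
        m11_N (fun n => EE q e h P c z (2 ^ k * y + n)) (fun n => EE q e h R c' z' (2 ^ k * y + n))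
          k (Pi.single x.1 (s • x.2.1)) (Pi.single x.1 (s • x.2.2)) ε := by
  classical
  induction D using Finset.induction_on with
  | empty => exact ⟨1, one_pos, Filter.Eventually.of_forall (by simp)⟩
  | insert x D hx ih =>
    obtain ⟨κ1, hκ1, H1⟩ := ih (fun x hx => hD x (Finset.mem_insert_of_mem hx))
    have hxD := hD x (Finset.mem_insert_self _ _)
    obtain ⟨κ2, hκ2, H2⟩ := tv_dir S hPR x.1 hxD.1 hxD.2 h Y hε
    refine ⟨min κ1 κ2, lt_min hκ1 hκ2, ?_⟩
    filter_upwards [H1, H2] with k h1 h2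
    intro y hy c z c' z' hb hb' s hs x' hx'
    have hsq : 0 ≤ Real.sqrt ((k : ℝ) + 1) := Real.sqrt_nonneg _
    rcases Finset.mem_insert.1 hx' with hx' | hx'
    · subst hx'
      intro Ψ hΨ
      exact h2 y hy c z c' z' hb hb' s
        (hs.trans (mul_le_mul_of_nonneg_right (min_le_right _ _) hsq)) Ψ hΨ
    · exact h1 y hy c z c' z' hb hb' s
        (hs.trans (mul_le_mul_of_nonneg_right (min_le_left _ _) hsq)) x' hx'

/-- the directions which are used -/
noncomputable def m11_D (q : ι → ℕ) (e : ∀ i, ℕ → Fin (d i) → ℤ) :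
    Finset (Σ i : ι, (Fin (d i) → ℤ) × (Fin (d i) → ℤ)) :=
  Finset.univ.sigma (fun i =>
    (Finset.univ.image (fun a : Fin (d i) =>
        (((q i - 1) • (Pi.single a 1 : Fin (d i) → ℤ), 0) :
          (Fin (d i) → ℤ) × (Fin (d i) → ℤ)))) ∪
      (Finset.univ.image (fun a : Fin (d i) =>
        ((0, (q i - 1) • (Pi.single a 1 : Fin (d i) → ℤ)) :
          (Fin (d i) → ℤ) × (Fin (d i) → ℤ)))) ∪
      ((m11_bx (q i) (d i)).image (fun ρ => (lamv (e i) ρ, 0))) ∪
      ((m11_bx (q i) (d i)).image (fun ρ => (0, lamv (e i) ρ))))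

theorem m11_single_sum {β : ι → Type*} [∀ i, AddCommGroup (β i)] (f : ∀ i, β i) :
    ∑ i, Pi.single i (f i) = f := Finset.univ_sum_single f

/-- M11: near-invariance under all shifts of a box -/
theorem tv_box (S : Sys q m e C) {P R : ι → ℕ} (hPR : Mul q m P R) (h Y : ℕ) {ε : ℝ}
    (hε : 0 < ε) :
    ∃ κ : ℝ, 0 < κ ∧ ∀ᶠ k : ℕ in atTop, ∀ y ≤ Y, ∀ c z c' z' : ι → ℕ, Bd q h P c z →
      Bd q h R c' z' → ∀ L : ℕ, (L : ℝ) ≤ κ * Real.sqrt (k + 1) →
      ∀ v v' : ∀ i, Fin (d i) → ℤ, (∀ i a, 0 ≤ v i a ∧ v i a ≤ L) →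
      (∀ i a, 0 ≤ v' i a ∧ v' i a ≤ L) →
      ∀ Ψ : (∀ i, Fin (d i) → ℤ) → (∀ i, Fin (d i) → ℤ) → ℝ, (∀ x x', |Ψ x x'| ≤ 1) →
        |av 2 k (fun n => Ψ (EE q e h P c z (2 ^ k * y + n)) (EE q e h R c' z' (2 ^ k * y + n))) -
          av 2 k (fun n => Ψ (EE q e h P c z (2 ^ k * y + n) + lamP e v)
            (EE q e h R c' z' (2 ^ k * y + n) + lamP e v'))| ≤ ε := by
  classical
  set dm : ℕ := Finset.univ.sup d with hdm
  have hdi : ∀ i, d i ≤ dm := fun i => Finset.le_sup (Finset.mem_univ i)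
  set M : ℝ := Fintype.card ι * (2 * (dm + 1)) + 1 with hM
  have hMpos : 0 < M := by positivity
  set δ : ℝ := ε / M with hδ
  have hδpos : 0 < δ := div_pos hε hMpos
  have hDmem : ∀ x ∈ m11_D q e, x.2.1 ∈ Lam (e x.1) ∧ x.2.2 ∈ Lam (e x.1) := by
    rintro ⟨i, w, w'⟩ hx
    have hq := S.base i
    have he := (S.qv i).gap
    have hg := S.gen i
    simp only [m11_D, Finset.mem_sigma, Finset.mem_univ, true_and, Finset.mem_union,
      Finset.mem_image, Prod.mk.injEq] at hx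
    rcases hx with ((⟨a, h1, h2⟩ | ⟨a, h1, h2⟩) | ⟨ρ, _, h1, h2⟩) | ⟨ρ, _, h1, h2⟩
    · rw [← h1, ← h2]
      exact ⟨smul_mem_lam hq he hg _, AddSubgroup.zero_mem _⟩
    · rw [← h1, ← h2]
      exact ⟨AddSubgroup.zero_mem _, smul_mem_lam hq he hg _⟩
    · rw [← h1, ← h2]
      exact ⟨lamv_mem hq he hg _, AddSubgroup.zero_mem _⟩
    · rw [← h1, ← h2]
      exact ⟨AddSubgroup.zero_mem _, lamv_mem hq he hg _⟩
  obtain ⟨κ, hκ, H⟩ := m11_fin S hPR h Y hδpos (m11_D q e) hDmem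
  refine ⟨κ, hκ, ?_⟩
  have hlarge : ∀ᶠ k : ℕ in atTop, (1 : ℝ) ≤ κ * Real.sqrt (k + 1) := by
    have h1 : Tendsto (fun k : ℕ => κ * Real.sqrt ((k : ℝ) + 1)) atTop atTop := by
      apply Filter.Tendsto.const_mul_atTop hκ
      exact Real.tendsto_sqrt_atTop.comp
        (tendsto_atTop_add_const_right _ _ tendsto_natCast_atTop_atTop)
    exact h1.eventually_ge_atTop 1
  filter_upwards [H, hlarge] with k hk hk1
  intro y hy c z c' z' hb hb' L hL v v' hv hv'
  have key := hk y hy c z c' z' hb hb'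
  set X : ℕ → ∀ i, Fin (d i) → ℤ := fun n => EE q e h P c z (2 ^ k * y + n) with hX
  set X' : ℕ → ∀ i, Fin (d i) → ℤ := fun n => EE q e h R c' z' (2 ^ k * y + n) with hX'
  -- one base, one side
  have hone : ∀ (i : ι) (u : Fin (d i) → ℤ), (∀ a, 0 ≤ u a ∧ u a ≤ L) →
      m11_N X X' k (Pi.single i (lamv (e i) u)) 0 ((dm + 1) * δ) ∧
      m11_N X X' k 0 (Pi.single i (lamv (e i) u)) ((dm + 1) * δ) := by
    intro i u hu
    obtain ⟨w, ρ, hwL, hρ, hdec⟩ := m11_dec (S.base i) (S.qv i).gap (S.gen i) u L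
      (fun a => (hu a).1) (fun a => (hu a).2)
    have hws : ∀ a, ((w a : ℕ) : ℝ) ≤ κ * Real.sqrt (k + 1) := fun a =>
      le_trans (by exact_mod_cast hwL a) hL
    have hsum : ∀ (f : Fin (d i) → Fin (d i) → ℤ), (Pi.single i (∑ a, f a) :
        ∀ i, Fin (d i) → ℤ) = ∑ a, Pi.single i (f a) := by
      intro f
      exact map_sum (AddMonoidHom.single (fun i => Fin (d i) → ℤ) i) f Finset.univ
    have hcard : (Finset.univ : Finset (Fin (d i))).card * δ ≤ dm * δ := by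
      rw [Finset.card_univ, Fintype.card_fin]
      exact mul_le_mul_of_nonneg_right (by exact_mod_cast hdi i) hδpos.le
    rw [hdec, Pi.single_add, hsum]
    constructor
    · have h1 := m11_sum (X := X) (X' := X') (k := k) (Finset.univ : Finset (Fin (d i)))
        (fun a => (Pi.single i (w a • ((q i - 1) • (Pi.single a 1 : Fin (d i) → ℤ))) :
          ∀ i, Fin (d i) → ℤ)) (fun _ => 0) δ (by
          intro a _
          have h2 := key (w a) (hws a) ⟨i, (q i - 1) • (Pi.single a 1 : Fin (d i) → ℤ), 0⟩ (by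
            exact Finset.mem_sigma.2 ⟨Finset.mem_univ _, Finset.mem_union_left _
              (Finset.mem_union_left _ (Finset.mem_union_left _
                (Finset.mem_image.2 ⟨a, Finset.mem_univ _, rfl⟩)))⟩)
          simpa using h2)
      have h3 := key 1 (by simpa using hk1) ⟨i, lamv (e i) ρ, 0⟩ (by
            exact Finset.mem_sigma.2 ⟨Finset.mem_univ _, Finset.mem_union_left _
              (Finset.mem_union_right _ (Finset.mem_image.2 ⟨ρ, hρ, rfl⟩))⟩)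
      have h4 := m11_add h1 h3
      simp only [one_smul, smul_zero, Pi.single_zero, Finset.sum_const_zero, add_zero] at h4
      refine m11_mono h4 ?_
      linarith
    · have h1 := m11_sum (X := X) (X' := X') (k := k) (Finset.univ : Finset (Fin (d i)))
        (fun _ => 0) (fun a => (Pi.single i (w a • ((q i - 1) • (Pi.single a 1 : Fin (d i) → ℤ))) :
          ∀ i, Fin (d i) → ℤ)) δ (by
          intro a _
          have h2 := key (w a) (hws a) ⟨i, 0, (q i - 1) • (Pi.single a 1 : Fin (d i) → ℤ)⟩ (by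
            exact Finset.mem_sigma.2 ⟨Finset.mem_univ _, Finset.mem_union_left _
              (Finset.mem_union_left _ (Finset.mem_union_right _
                (Finset.mem_image.2 ⟨a, Finset.mem_univ _, rfl⟩)))⟩)
          simpa using h2)
      have h3 := key 1 (by simpa using hk1) ⟨i, 0, lamv (e i) ρ⟩ (by
            exact Finset.mem_sigma.2 ⟨Finset.mem_univ _, Finset.mem_union_right _
              (Finset.mem_image.2 ⟨ρ, hρ, rfl⟩)⟩)
      have h4 := m11_add h1 h3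
      simp only [one_smul, smul_zero, Pi.single_zero, Finset.sum_const_zero, add_zero] at h4
      refine m11_mono h4 ?_
      linarith
  have hall := m11_sum (X := X) (X' := X') (k := k) (Finset.univ : Finset ι)
    (fun i => Pi.single i (lamv (e i) (v i))) (fun i => Pi.single i (lamv (e i) (v' i)))
    (2 * (dm + 1) * δ) (by
      intro i _
      have h1 := m11_add (hone i (v i) (hv i)).1 (hone i (v' i) (hv' i)).2
      rw [add_zero, zero_add] at h1
      refine m11_mono h1 (le_of_eq ?_)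
      ring)
  have e1 : ∀ u : ∀ i, Fin (d i) → ℤ, ∑ i, (Pi.single i (lamv (e i) (u i)) :
      ∀ i, Fin (d i) → ℤ) = lamP e u := fun u =>
    Finset.univ_sum_single (fun i => lamv (e i) (u i))
  rw [e1, e1] at hall
  refine m11_mono hall ?_
  rw [Finset.card_univ]
  have h5 : (Fintype.card ι : ℝ) * (2 * (dm + 1) * δ) = (M - 1) * δ := by
    rw [hM]; ring
  rw [h5, hδ]
  have h6 : (M - 1) * (ε / M) ≤ M * (ε / M) :=
    mul_le_mul_of_nonneg_right (by linarith) hδpos.le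
  have h7 : M * (ε / M) = ε := by field_simp
  linarith

end several

end Pool.Agent.Lib.MP_3e612f_nt.MB
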