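import Mathlib

/-! MP_3e612f_nt (several coprime bases, part W), W1: weighted Cauchy-Schwarz on the support
(helper39). -/

set_option autoImplicit false

namespace Pool.Agent.Lib.MP_3e612f_nt.MB

/-- number of weighted coincidences as a sum over values -/
theorem collw_pairs {α : Type*} [DecidableEq α] (X : ℕ) (Z Z' : ℕ → α) (U : Finset α)
    (hU : ∀ r < X, Z r ∈ U) (w w' : ℕ → ℂ) :
    ∑ x ∈ U, (∑ r ∈ Finset.range X, if Z r = x then w r else 0) *
      (∑ r ∈ Finset.range X, if Z' r = x then w' r else 0) =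
      ∑ r ∈ Finset.range X, ∑ r' ∈ Finset.range X, if Z r = Z' r' then w r * w' r' else 0 := by
  simp_rw [Finset.sum_mul_sum]
  rw [Finset.sum_comm]
  apply Finset.sum_congr rfl
  intro r hr
  rw [Finset.sum_comm]
  apply Finset.sum_congr rfl
  intro r' _
  have hmem := hU r (Finset.mem_range.mp hr)
  rw [Finset.sum_eq_single_of_mem (Z r) hmem]
  · by_cases h : Z r = Z' r'
    · simp [h]
    · have h' : ¬ Z' r' = Z r := fun h1 => h h1.symm
      simp [h, h']
  · intro b _ hb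
    have : ¬ Z r = b := fun h => hb h.symm
    simp [this]

/-- splitting off the values outside of `S` -/
theorem collw_split {α : Type*} [DecidableEq α] (X : ℕ) (Z : ℕ → α) (S : Finset α) {Ψ : α → ℝ}
    (hΨ : ∀ x, |Ψ x| ≤ 1) {w : ℕ → ℂ} (hw : ∀ r, ‖w r‖ ≤ 1) :
    ‖∑ r ∈ Finset.range X, w r * ((Ψ (Z r) : ℝ) : ℂ) -
      ∑ x ∈ S, ((Ψ x : ℝ) : ℂ) * (∑ r ∈ Finset.range X, if Z r = x then w r else 0)‖ ≤
      (((Finset.range X).filter (fun r => Z r ∉ S)).card : ℝ) := by
  have h1 : ∑ x ∈ S, ((Ψ x : ℝ) : ℂ) * (∑ r ∈ Finset.range X, if Z r = x then w r else 0) =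
      ∑ r ∈ Finset.range X, if Z r ∈ S then w r * ((Ψ (Z r) : ℝ) : ℂ) else 0 := by
    simp_rw [Finset.mul_sum]
    rw [Finset.sum_comm]
    apply Finset.sum_congr rfl
    intro r _
    simp [mul_comm]
  rw [h1, ← Finset.sum_sub_distrib]
  calc ‖∑ r ∈ Finset.range X, (w r * ((Ψ (Z r) : ℝ) : ℂ) -
        if Z r ∈ S then w r * ((Ψ (Z r) : ℝ) : ℂ) else 0)‖
      ≤ ∑ r ∈ Finset.range X, ‖w r * ((Ψ (Z r) : ℝ) : ℂ) -
        if Z r ∈ S then w r * ((Ψ (Z r) : ℝ) : ℂ) else 0‖ := norm_sum_le _ _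
    _ ≤ ∑ r ∈ Finset.range X, (if Z r ∉ S then (1 : ℝ) else 0) := by
        apply Finset.sum_le_sum
        intro r _
        by_cases h : Z r ∈ S
        · simp [h]
        · simp only [h, if_false, sub_zero, not_false_eq_true, if_true, norm_mul,
            Complex.norm_real, Real.norm_eq_abs]
          exact mul_le_one₀ (hw r) (abs_nonneg _) (hΨ _)
    _ = _ := by
        rw [Finset.sum_ite]
        simp

/-- W1: Cauchy-Schwarz on the support, with weights -/
theorem coll_w {α : Type*} [DecidableEq α] {X : ℕ} (hX : 1 ≤ X) (Z : ℕ → α) {σ : α → α}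
    (hσ : Function.Injective σ) (S : Finset α) {Ψ : α → ℝ} (hΨ : ∀ x, |Ψ x| ≤ 1) {w : ℕ → ℂ}
    (hw : ∀ r, ‖w r‖ ≤ 1) :
    ‖(∑ r ∈ Finset.range X, w r * ((Ψ (Z r) - Ψ (σ (Z r)) : ℝ) : ℂ)) / X‖ ≤
      Real.sqrt (S.card * ((∑ r ∈ Finset.range X, ∑ r' ∈ Finset.range X,
        2 * (w r * (starRingEnd ℂ) (w r')).re *
          ((if Z r = Z r' then (1 : ℝ) else 0) - (if Z r = σ (Z r') then (1 : ℝ) else 0))) /
          (X : ℝ) ^ 2)) +
      (((Finset.range X).filter (fun r => Z r ∉ S)).card : ℝ) / X +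
      (((Finset.range X).filter (fun r => σ (Z r) ∉ S)).card : ℝ) / X := by
  have hXr : (0 : ℝ) < X := by exact_mod_cast hX
  set Pc : α → ℂ := fun x => ∑ r ∈ Finset.range X, if Z r = x then w r else 0 with hPc
  set Qc : α → ℂ := fun x => ∑ r ∈ Finset.range X, if σ (Z r) = x then w r else 0 with hQc
  have hPconj : ∀ x, (starRingEnd ℂ) (Pc x) =
      ∑ r ∈ Finset.range X, if Z r = x then (starRingEnd ℂ) (w r) else 0 := by
    intro x
    simp only [hPc, map_sum]
    apply Finset.sum_congr rfl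
    intro r _
    split_ifs <;> simp
  have hQconj : ∀ x, (starRingEnd ℂ) (Qc x) =
      ∑ r ∈ Finset.range X, if σ (Z r) = x then (starRingEnd ℂ) (w r) else 0 := by
    intro x
    simp only [hQc, map_sum]
    apply Finset.sum_congr rfl
    intro r _
    split_ifs <;> simp
  set U : Finset α := S ∪ (Finset.range X).image Z ∪ (Finset.range X).image (fun r => σ (Z r))
    with hU
  have hZU : ∀ r < X, Z r ∈ U := by
    intro r hr
    rw [hU]
    apply Finset.mem_union_left
    apply Finset.mem_union_right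
    exact Finset.mem_image_of_mem _ (Finset.mem_range.mpr hr)
  have hσU : ∀ r < X, σ (Z r) ∈ U := by
    intro r hr
    rw [hU]
    apply Finset.mem_union_right
    exact Finset.mem_image.mpr ⟨r, Finset.mem_range.mpr hr, rfl⟩
  have hSU : S ⊆ U := by
    rw [hU]
    exact (Finset.subset_union_left).trans Finset.subset_union_left
  -- the collision sum
  set K : ℝ := ∑ r ∈ Finset.range X, ∑ r' ∈ Finset.range X,
    2 * (w r * (starRingEnd ℂ) (w r')).re *
      ((if Z r = Z r' then (1 : ℝ) else 0) - (if Z r = σ (Z r') then (1 : ℝ) else 0)) with hK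
  have hKeq : ∑ x ∈ U, ‖Pc x - Qc x‖ ^ 2 = K := by
    have e1 := collw_pairs X Z Z U hZU w (fun r => (starRingEnd ℂ) (w r))
    have e2 := collw_pairs X Z (fun r => σ (Z r)) U hZU w (fun r => (starRingEnd ℂ) (w r))
    have e3 := collw_pairs X (fun r => σ (Z r)) (fun r => σ (Z r)) U hσU w
      (fun r => (starRingEnd ℂ) (w r))
    have e3' : ∑ r ∈ Finset.range X, ∑ r' ∈ Finset.range X,
        (if σ (Z r) = σ (Z r') then w r * (starRingEnd ℂ) (w r') else 0) =
        ∑ r ∈ Finset.range X, ∑ r' ∈ Finset.range X,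
        (if Z r = Z r' then w r * (starRingEnd ℂ) (w r') else 0) := by
      apply Finset.sum_congr rfl
      intro r _
      apply Finset.sum_congr rfl
      intro r' _
      simp [hσ.eq_iff]
    have h1 : ∑ x ∈ U, ‖Pc x - Qc x‖ ^ 2 =
        (∑ x ∈ U, Pc x * (starRingEnd ℂ) (Pc x) + ∑ x ∈ U, Qc x * (starRingEnd ℂ) (Qc x) -
          2 * ∑ x ∈ U, Pc x * (starRingEnd ℂ) (Qc x)).re := by
      rw [Finset.mul_sum, ← Finset.sum_add_distrib, ← Finset.sum_sub_distrib, Complex.re_sum]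
      apply Finset.sum_congr rfl
      intro x _
      rw [← Complex.normSq_eq_norm_sq, Complex.normSq_sub, Complex.sub_re, Complex.add_re,
        Complex.mul_conj, Complex.mul_conj, Complex.ofReal_re, Complex.ofReal_re]
      congr 1
      simp
    have h2 : ∑ x ∈ U, Pc x * (starRingEnd ℂ) (Pc x) =
        ∑ r ∈ Finset.range X, ∑ r' ∈ Finset.range X,
        (if Z r = Z r' then w r * (starRingEnd ℂ) (w r') else 0) := by
      rw [← e1]
      apply Finset.sum_congr rfl
      intro x _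
      rw [hPconj]
    have h3 : ∑ x ∈ U, Qc x * (starRingEnd ℂ) (Qc x) =
        ∑ r ∈ Finset.range X, ∑ r' ∈ Finset.range X,
        (if Z r = Z r' then w r * (starRingEnd ℂ) (w r') else 0) := by
      rw [← e3', ← e3]
      apply Finset.sum_congr rfl
      intro x _
      rw [hQconj]
    have h4 : ∑ x ∈ U, Pc x * (starRingEnd ℂ) (Qc x) =
        ∑ r ∈ Finset.range X, ∑ r' ∈ Finset.range X,
        (if Z r = σ (Z r') then w r * (starRingEnd ℂ) (w r') else 0) := by
      rw [← e2]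
      apply Finset.sum_congr rfl
      intro x _
      rw [hQconj]
    rw [h1, h2, h3, h4]
    rw [Finset.mul_sum, ← Finset.sum_add_distrib, ← Finset.sum_sub_distrib, Complex.re_sum, hK]
    apply Finset.sum_congr rfl
    intro r _
    rw [Finset.mul_sum, ← Finset.sum_add_distrib, ← Finset.sum_sub_distrib, Complex.re_sum]
    apply Finset.sum_congr rfl
    intro r' _
    by_cases h5 : Z r = Z r' <;> by_cases h6 : Z r = σ (Z r')
    · rw [if_pos h5, if_pos h6, if_pos h5, if_pos h6]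
      simp only [Complex.sub_re, Complex.add_re, Complex.mul_re, Complex.re_ofNat,
        Complex.im_ofNat]
      ring
    · rw [if_pos h5, if_neg h6, if_pos h5, if_neg h6]
      simp only [Complex.sub_re, Complex.add_re, mul_zero, Complex.zero_re]
      ring
    · rw [if_neg h5, if_pos h6, if_neg h5, if_pos h6]
      simp only [Complex.sub_re, Complex.add_re, Complex.mul_re, Complex.re_ofNat,
        Complex.im_ofNat, Complex.zero_re]
      ring
    · rw [if_neg h5, if_neg h6, if_neg h5, if_neg h6]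
      simp
  -- main estimate
  have hmain : ‖∑ x ∈ S, ((Ψ x : ℝ) : ℂ) * (Pc x - Qc x)‖ ≤ Real.sqrt (S.card * K) := by
    have h2 : ‖∑ x ∈ S, ((Ψ x : ℝ) : ℂ) * (Pc x - Qc x)‖ ≤ ∑ x ∈ S, 1 * ‖Pc x - Qc x‖ := by
      refine (norm_sum_le _ _).trans ?_
      apply Finset.sum_le_sum
      intro x _
      rw [norm_mul, Complex.norm_real, Real.norm_eq_abs]
      exact mul_le_mul_of_nonneg_right (hΨ x) (norm_nonneg _)
    have h3 : (∑ x ∈ S, 1 * ‖Pc x - Qc x‖) ^ 2 ≤ S.card * K := by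
      calc (∑ x ∈ S, 1 * ‖Pc x - Qc x‖) ^ 2 ≤
            (∑ x ∈ S, (1 : ℝ) ^ 2) * ∑ x ∈ S, ‖Pc x - Qc x‖ ^ 2 :=
            Finset.sum_mul_sq_le_sq_mul_sq _ _ _
        _ = S.card * ∑ x ∈ S, ‖Pc x - Qc x‖ ^ 2 := by simp
        _ ≤ S.card * ∑ x ∈ U, ‖Pc x - Qc x‖ ^ 2 := by
            apply mul_le_mul_of_nonneg_left _ (Nat.cast_nonneg _)
            exact Finset.sum_le_sum_of_subset_of_nonneg hSU (fun _ _ _ => sq_nonneg _)
        _ = S.card * K := by rw [hKeq]
    exact h2.trans (Real.le_sqrt_of_sq_le h3)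
  have hsplit1 := collw_split X Z S hΨ hw
  have hsplit2 := collw_split X (fun r => σ (Z r)) S hΨ hw
  have htot : ‖∑ r ∈ Finset.range X, w r * ((Ψ (Z r) - Ψ (σ (Z r)) : ℝ) : ℂ)‖ ≤
      Real.sqrt (S.card * K) +
      (((Finset.range X).filter (fun r => Z r ∉ S)).card : ℝ) +
      (((Finset.range X).filter (fun r => σ (Z r) ∉ S)).card : ℝ) := by
    have h4 : ∑ r ∈ Finset.range X, w r * ((Ψ (Z r) - Ψ (σ (Z r)) : ℝ) : ℂ) =
        ∑ x ∈ S, ((Ψ x : ℝ) : ℂ) * (Pc x - Qc x) +
        (∑ r ∈ Finset.range X, w r * ((Ψ (Z r) : ℝ) : ℂ) - ∑ x ∈ S, ((Ψ x : ℝ) : ℂ) * Pc x) -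
        (∑ r ∈ Finset.range X, w r * ((Ψ (σ (Z r)) : ℝ) : ℂ) -
          ∑ x ∈ S, ((Ψ x : ℝ) : ℂ) * Qc x) := by
      simp_rw [Complex.ofReal_sub, mul_sub, Finset.sum_sub_distrib]
      ring
    rw [h4]
    refine (norm_sub_le _ _).trans ?_
    refine add_le_add ((norm_add_le _ _).trans (add_le_add hmain hsplit1)) hsplit2
  rw [norm_div, Complex.norm_natCast]
  have h5 : Real.sqrt (S.card * (K / (X : ℝ) ^ 2)) = Real.sqrt (S.card * K) / X := by
    rw [← mul_div_assoc, Real.sqrt_div' _ (sq_nonneg _), Real.sqrt_sq hXr.le]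
  rw [h5, ← add_div, ← add_div]
  exact div_le_div_of_nonneg_right htot hXr.le

end Pool.Agent.Lib.MP_3e612f_nt.MB
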