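import Pool.Agent.Lib.MP_3e612f_nt.MDir
import Pool.Agent.Lib.MP_3e612f_nt.WColl

/-!
Near-invariance of the joint law under shifts in one direction, in one base, with a linear phase.
-/

set_option autoImplicit false

namespace Pool.Agent.Lib.MP_3e612f_nt.MB

open Filter Topology
open Pool.Agent.Lib.MP_3e612f_nt.QA

/-- the weighted double sum is nonnegative -/
theorem w2_nonneg {α : Type*} [DecidableEq α] (X : ℕ) (Z : ℕ → α) {σ : α → α}
    (hσ : Function.Injective σ) (w : ℕ → ℂ) :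
    0 ≤ ∑ r ∈ Finset.range X, ∑ r' ∈ Finset.range X,
      2 * (w r * (starRingEnd ℂ) (w r')).re *
        ((if Z r = Z r' then (1 : ℝ) else 0) - (if Z r = σ (Z r') then (1 : ℝ) else 0)) := by
  set Pc : α → ℂ := fun x => ∑ r ∈ Finset.range X, if Z r = x then w r else 0 with hPc
  set Qc : α → ℂ := fun x => ∑ r ∈ Finset.range X, if σ (Z r) = x then w r else 0 with hQc
  have hPconj : ∀ x, (starRingEnd ℂ) (Pc x) =
      ∑ r ∈ Finset.range X, if Z r = x then (starRingEnd ℂ) (w r) else 0 := by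
    intro x
    simp only [hPc, map_sum]
    apply Finset.sum_congr rfl
    intro r _
    split_ifs <;> simp
  have hQconj : ∀ x, (starRingEnd ℂ) (Qc x) =
      ∑ r ∈ Finset.range X, if σ (Z r) = x then (starRingEnd ℂ) (w r) else 0 := by
    intro x
    simp only [hQc, map_sum]
    apply Finset.sum_congr rfl
    intro r _
    split_ifs <;> simp
  set U : Finset α := (Finset.range X).image Z ∪ (Finset.range X).image (fun r => σ (Z r))
    with hU
  have hZU : ∀ r < X, Z r ∈ U := by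
    intro r hr
    rw [hU]
    apply Finset.mem_union_left
    exact Finset.mem_image_of_mem _ (Finset.mem_range.mpr hr)
  have hσU : ∀ r < X, σ (Z r) ∈ U := by
    intro r hr
    rw [hU]
    apply Finset.mem_union_right
    exact Finset.mem_image.mpr ⟨r, Finset.mem_range.mpr hr, rfl⟩
  -- the collision sum
  set K : ℝ := ∑ r ∈ Finset.range X, ∑ r' ∈ Finset.range X,
    2 * (w r * (starRingEnd ℂ) (w r')).re *
      ((if Z r = Z r' then (1 : ℝ) else 0) - (if Z r = σ (Z r') then (1 : ℝ) else 0)) with hK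
  have hKeq : ∑ x ∈ U, ‖Pc x - Qc x‖ ^ 2 = K := by
    have e1 := collw_pairs X Z Z U hZU w (fun r => (starRingEnd ℂ) (w r))
    have e2 := collw_pairs X Z (fun r => σ (Z r)) U hZU w (fun r => (starRingEnd ℂ) (w r))
    have e3 := collw_pairs X (fun r => σ (Z r)) (fun r => σ (Z r)) U hσU w
      (fun r => (starRingEnd ℂ) (w r))
    have e3' : ∑ r ∈ Finset.range X, ∑ r' ∈ Finset.range X,
        (if σ (Z r) = σ (Z r') then w r * (starRingEnd ℂ) (w r') else 0) =
        ∑ r ∈ Finset.range X, ∑ r' ∈ Finset.range X,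
        (if Z r = Z r' then w r * (starRingEnd ℂ) (w r') else 0) := by
      apply Finset.sum_congr rfl
      intro r _
      apply Finset.sum_congr rfl
      intro r' _
      simp [hσ.eq_iff]
    have h1 : ∑ x ∈ U, ‖Pc x - Qc x‖ ^ 2 =
        (∑ x ∈ U, Pc x * (starRingEnd ℂ) (Pc x) + ∑ x ∈ U, Qc x * (starRingEnd ℂ) (Qc x) -
          2 * ∑ x ∈ U, Pc x * (starRingEnd ℂ) (Qc x)).re := by
      rw [Finset.mul_sum, ← Finset.sum_add_distrib, ← Finset.sum_sub_distrib, Complex.re_sum]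
      apply Finset.sum_congr rfl
      intro x _
      rw [← Complex.normSq_eq_norm_sq, Complex.normSq_sub, Complex.sub_re, Complex.add_re,
        Complex.mul_conj, Complex.mul_conj, Complex.ofReal_re, Complex.ofReal_re]
      congr 1
      simp
    have h2 : ∑ x ∈ U, Pc x * (starRingEnd ℂ) (Pc x) =
        ∑ r ∈ Finset.range X, ∑ r' ∈ Finset.range X,
        (if Z r = Z r' then w r * (starRingEnd ℂ) (w r') else 0) := by
      rw [← e1]
      apply Finset.sum_congr rfl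
      intro x _
      rw [hPconj]
    have h3 : ∑ x ∈ U, Qc x * (starRingEnd ℂ) (Qc x) =
        ∑ r ∈ Finset.range X, ∑ r' ∈ Finset.range X,
        (if Z r = Z r' then w r * (starRingEnd ℂ) (w r') else 0) := by
      rw [← e3', ← e3]
      apply Finset.sum_congr rfl
      intro x _
      rw [hQconj]
    have h4 : ∑ x ∈ U, Pc x * (starRingEnd ℂ) (Qc x) =
        ∑ r ∈ Finset.range X, ∑ r' ∈ Finset.range X,
        (if Z r = σ (Z r') then w r * (starRingEnd ℂ) (w r') else 0) := by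
      rw [← e2]
      apply Finset.sum_congr rfl
      intro x _
      rw [hQconj]
    rw [h1, h2, h3, h4]
    rw [Finset.mul_sum, ← Finset.sum_add_distrib, ← Finset.sum_sub_distrib, Complex.re_sum, hK]
    apply Finset.sum_congr rfl
    intro r _
    rw [Finset.mul_sum, ← Finset.sum_add_distrib, ← Finset.sum_sub_distrib, Complex.re_sum]
    apply Finset.sum_congr rfl
    intro r' _
    by_cases h5 : Z r = Z r' <;> by_cases h6 : Z r = σ (Z r')
    · rw [if_pos h5, if_pos h6, if_pos h5, if_pos h6]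
      simp only [Complex.sub_re, Complex.add_re, Complex.mul_re, Complex.re_ofNat,
        Complex.im_ofNat]
      ring
    · rw [if_pos h5, if_neg h6, if_pos h5, if_neg h6]
      simp only [Complex.sub_re, Complex.add_re, mul_zero, Complex.zero_re]
      ring
    · rw [if_neg h5, if_pos h6, if_neg h5, if_pos h6]
      simp only [Complex.sub_re, Complex.add_re, Complex.mul_re, Complex.re_ofNat,
        Complex.im_ofNat, Complex.zero_re]
      ring
    · rw [if_neg h5, if_neg h6, if_neg h5, if_neg h6]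
      simp
  show 0 ≤ K
  rw [← hKeq]
  exact Finset.sum_nonneg fun x _ => sq_nonneg _

/-- the linear phase -/
noncomputable def ew (β : ℝ) (n : ℕ) : ℂ :=
  Complex.exp (2 * Real.pi * Complex.I * ((β * (n : ℝ) : ℝ) : ℂ))

theorem norm_ew (β : ℝ) (n : ℕ) : ‖ew β n‖ = 1 := by
  unfold ew
  have h2 : (2 * Real.pi * Complex.I * ((β * (n : ℝ) : ℝ) : ℂ) : ℂ) =
      ((2 * Real.pi * (β * n) : ℝ) : ℂ) * Complex.I := by
    push_cast
    ring
  rw [h2, Complex.norm_exp_ofReal_mul_I]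

theorem ew_add (β : ℝ) (n r : ℕ) : ew β (n + r) = ew β n * ew β r := by
  unfold ew
  rw [← Complex.exp_add]
  congr 1
  push_cast
  ring

theorem avc_norm_le (k : ℕ) (u : ℕ → ℂ) : ‖avc 2 k u‖ ≤ av 2 k (fun n => ‖u n‖) := by
  unfold avc av
  rw [norm_div, norm_pow]
  have : ‖((2 : ℕ) : ℂ)‖ = ((2 : ℕ) : ℝ) := Complex.norm_natCast 2
  rw [this]
  exact div_le_div_of_nonneg_right (norm_sum_le _ _) (by positivity)

theorem w2_shift {f : ℕ → ℂ} {M : ℝ} (hf : ∀ n, ‖f n‖ ≤ M) (k r : ℕ) :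
    ‖avc 2 k f - avc 2 k (fun n => f (n + r))‖ ≤ 2 * M * r / 2 ^ k := by
  unfold avc
  rw [← sub_div, norm_div, norm_pow]
  have h0 : ‖((2 : ℕ) : ℂ)‖ = (2 : ℝ) := by rw [Complex.norm_natCast]; norm_num
  rw [h0]
  refine div_le_div_of_nonneg_right ?_ (by positivity)
  have h1 : ∑ n ∈ Finset.range (2 ^ k + r), f n =
      ∑ n ∈ Finset.range (2 ^ k), f n + ∑ n ∈ Finset.range r, f (2 ^ k + n) :=
    Finset.sum_range_add _ _ _
  have h2 : ∑ n ∈ Finset.range (r + 2 ^ k), f n =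
      ∑ n ∈ Finset.range r, f n + ∑ n ∈ Finset.range (2 ^ k), f (r + n) :=
    Finset.sum_range_add _ _ _
  rw [add_comm r (2 ^ k)] at h2
  have h3 : ∑ n ∈ Finset.range (2 ^ k), f (n + r) = ∑ n ∈ Finset.range (2 ^ k), f (r + n) :=
    Finset.sum_congr rfl fun n _ => by rw [add_comm]
  have h4 : ∑ n ∈ Finset.range (2 ^ k), f n - ∑ n ∈ Finset.range (2 ^ k), f (n + r) =
      ∑ n ∈ Finset.range r, f n - ∑ n ∈ Finset.range r, f (2 ^ k + n) := by
    rw [h3]
    have h5 := h1.symm.trans h2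
    linear_combination h5
  rw [h4]
  have h5 : ∀ g : ℕ → ℂ, (∀ n, ‖g n‖ ≤ M) → ‖∑ n ∈ Finset.range r, g n‖ ≤ r * M := by
    intro g hg
    refine (norm_sum_le _ _).trans ?_
    refine (Finset.sum_le_sum fun n _ => hg n).trans ?_
    rw [Finset.sum_const, Finset.card_range, nsmul_eq_mul]
  have h6 := h5 f hf
  have h7 := h5 (fun n => f (2 ^ k + n)) (fun n => hf _)
  calc _ ≤ ‖∑ n ∈ Finset.range r, f n‖ + ‖∑ n ∈ Finset.range r, f (2 ^ k + n)‖ := norm_sub_le _ _
    _ ≤ _ := by linarith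

theorem w2_shift_av {f : ℕ → ℂ} {M : ℝ} (hf : ∀ n, ‖f n‖ ≤ M) (k a : ℕ) :
    ‖avc 2 k f - avc 2 k (fun n => avc 2 a (fun r => f (n + r)))‖ ≤ 2 * M * 2 ^ a / 2 ^ k := by
  have hM : 0 ≤ M := (norm_nonneg _).trans (hf 0)
  have h2a : ((2 : ℕ) : ℂ) ^ a ≠ 0 := pow_ne_zero _ (by norm_num)
  have e : avc 2 k (fun n => avc 2 a (fun r => f (n + r))) =
      avc 2 a (fun r => avc 2 k (fun n => f (n + r))) := by
    unfold avc
    rw [← Finset.sum_div, ← Finset.sum_div, Finset.sum_comm, div_div, div_div, mul_comm]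
  have e2 : avc 2 k f = avc 2 a (fun _ => avc 2 k f) := by
    show avc 2 k f = (∑ n ∈ Finset.range (2 ^ a), avc 2 k f) / ((2 : ℕ) : ℂ) ^ a
    rw [Finset.sum_const, Finset.card_range, nsmul_eq_mul, Nat.cast_pow, mul_comm,
      mul_div_assoc, div_self h2a, mul_one]
  have e3 : avc 2 k f - avc 2 k (fun n => avc 2 a (fun r => f (n + r))) =
      avc 2 a (fun r => avc 2 k f - avc 2 k (fun n => f (n + r))) := by
    rw [e]
    conv_lhs => rw [e2]
    unfold avc
    rw [Finset.sum_sub_distrib, sub_div]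
  rw [e3]
  refine (avc_norm_le _ _).trans ?_
  refine av_le le_rfl fun r hr => ?_
  refine (w2_shift hf k r).trans ?_
  have hr' : (r : ℝ) ≤ 2 ^ a := by exact_mod_cast hr.le
  gcongr

section several

variable {ι : Type*} [Fintype ι] [DecidableEq ι] {q : ι → ℕ} {m : ℕ} {d : ι → ℕ}
  {e : ∀ i, ℕ → Fin (d i) → ℤ} {C : ℝ}

/-- The average of the weighted double sum. -/
theorem w2_double {W : ℕ → ℂ} (hW : ∀ r, ‖W r‖ ≤ 1) {k a : ℕ} {B : Finset ℕ} {b : ℝ} (hb : 0 ≤ b) {i₀ : ι}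
    {w w' : Fin (d i₀) → ℤ} {h : ℕ} {P R c z c' z' : ι → ℕ} {s : ℕ}
    (hB : ∀ r < 2 ^ a, r ∉ B → ∀ (u : ℕ) (t : ℤ), (t = s ∨ t = -s) →
        |av 2 k (fun n =>
          (if EE q e h P c z (u + n + r) - EE q e h P c z (u + n) = 0 ∧
            EE q e h R c' z' (u + n + r) - EE q e h R c' z' (u + n) = 0 then (1 : ℝ) else 0) -
          (if EE q e h P c z (u + n + r) - EE q e h P c z (u + n) = Pi.single i₀ (t • w) ∧
            EE q e h R c' z' (u + n + r) - EE q e h R c' z' (u + n) = Pi.single i₀ (t • w')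
            then (1 : ℝ) else 0))| ≤ b)
    (u : ℕ) (σ : (∀ i, Fin (d i) → ℤ) × (∀ i, Fin (d i) → ℤ) →
      (∀ i, Fin (d i) → ℤ) × (∀ i, Fin (d i) → ℤ))
    (hσ : ∀ x, σ x = (x.1 + Pi.single i₀ (s • w), x.2 + Pi.single i₀ (s • w')))
    (Z : ℕ → (∀ i, Fin (d i) → ℤ) × (∀ i, Fin (d i) → ℤ))
    (hZ : ∀ n, Z n = (EE q e h P c z n, EE q e h R c' z' n)) :
    av 2 k (fun n => (∑ r ∈ Finset.range (2 ^ a), ∑ r' ∈ Finset.range (2 ^ a),
      2 * (W r * (starRingEnd ℂ) (W r')).re *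
        ((if Z (u + n + r) = Z (u + n + r') then (1 : ℝ) else 0) -
        (if Z (u + n + r) = σ (Z (u + n + r')) then (1 : ℝ) else 0))) / ((2 ^ a : ℕ) : ℝ) ^ 2) ≤
      2 * (b + 2 * (B.card / 2 ^ a)) := by
  have e1 : av 2 k (fun n => (∑ r ∈ Finset.range (2 ^ a), ∑ r' ∈ Finset.range (2 ^ a),
      2 * (W r * (starRingEnd ℂ) (W r')).re *
        ((if Z (u + n + r) = Z (u + n + r') then (1 : ℝ) else 0) -
        (if Z (u + n + r) = σ (Z (u + n + r')) then (1 : ℝ) else 0))) / ((2 ^ a : ℕ) : ℝ) ^ 2) ≤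
      2 * (∑ r ∈ Finset.range (2 ^ a), ∑ r' ∈ Finset.range (2 ^ a), |av 2 k (fun n =>
        (if Z (u + n + r) = Z (u + n + r') then (1 : ℝ) else 0) -
        (if Z (u + n + r) = σ (Z (u + n + r')) then (1 : ℝ) else 0))|) / ((2 ^ a : ℕ) : ℝ) ^ 2 := by
    rw [av_div, av_finset_sum]
    refine div_le_div_of_nonneg_right ?_ (by positivity)
    rw [Finset.mul_sum]
    refine Finset.sum_le_sum fun r _ => ?_
    rw [av_finset_sum, Finset.mul_sum]
    refine Finset.sum_le_sum fun r' _ => ?_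
    rw [av_const_mul]
    have hre : |(W r * (starRingEnd ℂ) (W r')).re| ≤ 1 := by
      refine (Complex.abs_re_le_norm _).trans ?_
      rw [norm_mul, RCLike.norm_conj]
      exact mul_le_one₀ (hW r) (norm_nonneg _) (hW r')
    set T : ℝ := av 2 k (fun n => (if Z (u + n + r) = Z (u + n + r') then (1 : ℝ) else 0) -
        (if Z (u + n + r) = σ (Z (u + n + r')) then (1 : ℝ) else 0)) with hT
    calc 2 * (W r * (starRingEnd ℂ) (W r')).re * T ≤
        |2 * (W r * (starRingEnd ℂ) (W r')).re * T| := le_abs_self _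
      _ = 2 * (|(W r * (starRingEnd ℂ) (W r')).re| * |T|) := by
        rw [abs_mul, abs_mul, abs_of_pos (by norm_num : (0 : ℝ) < 2)]
        ring
      _ ≤ 2 * (1 * |T|) := by gcongr
      _ = 2 * |T| := by ring
  refine e1.trans ?_
  have hpair := m10_pairs (2 ^ a) B (g := fun r r' => |av 2 k (fun n =>
        (if Z (u + n + r) = Z (u + n + r') then (1 : ℝ) else 0) -
        (if Z (u + n + r) = σ (Z (u + n + r')) then (1 : ℝ) else 0))|) hb ?_ ?_
  · have h2 : (0 : ℝ) < ((2 ^ a : ℕ) : ℝ) := by positivity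
    rw [div_le_iff₀ (by positivity)]
    have h3 : 2 * (b + 2 * ((B.card : ℝ) / 2 ^ a)) * ((2 ^ a : ℕ) : ℝ) ^ 2 =
        2 * (((2 ^ a : ℕ) : ℝ) * (((2 ^ a : ℕ) : ℝ) * b + 2 * B.card)) := by
      push_cast
      field_simp
    rw [h3]
    linarith
  · intro r r'
    refine abs_av_le le_rfl fun n _ => ?_
    split_ifs <;> norm_num
  · intro r hr r' hr' hδ
    rcases le_total r' r with hle | hle
    · have hB' := hB (r - r') (by omega) (by
        have : (r - r') + (r' - r) = r - r' := by omega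
        rwa [this] at hδ) (u + r') s (Or.inl rfl)
      refine le_trans (le_of_eq (congrArg abs ?_)) hB'
      refine av_congr fun n _ => ?_
      have e2 : u + r' + n + (r - r') = u + n + r := by omega
      have e3 : u + r' + n = u + n + r' := by omega
      rw [e2, e3]
      have e4 : ∀ (x y v : ∀ i, Fin (d i) → ℤ), x = y + v ↔ x - y = v := by
        intro x y v
        rw [sub_eq_iff_eq_add, add_comm]
      have e6 : ∀ (x y : ∀ i, Fin (d i) → ℤ), x = y ↔ x - y = 0 := fun x y => sub_eq_zero.symm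
      simp only [hZ, hσ, Prod.mk.injEq, natCast_zsmul]
      simp only [e4 (EE q e h P c z (u + n + r)), e4 (EE q e h R c' z' (u + n + r)),
        e6 (EE q e h P c z (u + n + r)), e6 (EE q e h R c' z' (u + n + r))]
    · have hB' := hB (r' - r) (by omega) (by
        have : (r - r') + (r' - r) = r' - r := by omega
        rwa [this] at hδ) (u + r) (-s) (Or.inr rfl)
      refine le_trans (le_of_eq (congrArg abs ?_)) hB'
      refine av_congr fun n _ => ?_
      have e2 : u + r + n + (r' - r) = u + n + r' := by omega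
      have e3 : u + r + n = u + n + r := by omega
      rw [e2, e3]
      have e4 : ∀ (x y v : ∀ i, Fin (d i) → ℤ), x = y + v ↔ y - x = -v := by
        intro x y v
        constructor
        · rintro rfl; abel
        · intro h
          have : x = y - (y - x) := by abel
          rw [this, h]; abel
      have e5 : ∀ v : Fin (d i₀) → ℤ, (Pi.single i₀ ((-(s : ℤ)) • v) : ∀ i, Fin (d i) → ℤ) =
          -Pi.single i₀ (s • v) := by
        intro v
        rw [neg_smul, natCast_zsmul, Pi.single_neg]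
      have e6 : ∀ (x y : ∀ i, Fin (d i) → ℤ), x = y ↔ y - x = 0 := by
        intro x y
        rw [sub_eq_zero]
        exact eq_comm
      simp only [hZ, hσ, Prod.mk.injEq, e5]
      simp only [e4 (EE q e h P c z (u + n + r)), e4 (EE q e h R c' z' (u + n + r)),
        e6 (EE q e h P c z (u + n + r)), e6 (EE q e h R c' z' (u + n + r))]


theorem w2_est (β : ℝ) {k a : ℕ} {B : Finset ℕ} {b : ℝ} (hb : 0 ≤ b) {i₀ : ι}
    {w w' : Fin (d i₀) → ℤ} {h : ℕ} {P R c z c' z' : ι → ℕ} {s : ℕ}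
    (hB : ∀ r < 2 ^ a, r ∉ B → ∀ (u : ℕ) (t : ℤ), (t = s ∨ t = -s) →
        |av 2 k (fun n =>
          (if EE q e h P c z (u + n + r) - EE q e h P c z (u + n) = 0 ∧
            EE q e h R c' z' (u + n + r) - EE q e h R c' z' (u + n) = 0 then (1 : ℝ) else 0) -
          (if EE q e h P c z (u + n + r) - EE q e h P c z (u + n) = Pi.single i₀ (t • w) ∧
            EE q e h R c' z' (u + n + r) - EE q e h R c' z' (u + n) = Pi.single i₀ (t • w')
            then (1 : ℝ) else 0))| ≤ b)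
    (u : ℕ) (ctr ctr' : ℕ → ∀ i, Fin (d i) → ℝ) {VP VR : ι → ℝ}
    (hctr : ∀ i j, av 2 k (fun n => av 2 a (fun r =>
      ((EE q e h P c z (u + n + r) i j : ℝ) - ctr n i j) ^ 2)) ≤ VP i)
    (hctr' : ∀ i j, av 2 k (fun n => av 2 a (fun r =>
      ((EE q e h R c' z' (u + n + r) i j : ℝ) - ctr' n i j) ^ 2)) ≤ VR i)
    {ρ ρ' : ℝ} (hρ : 0 < ρ) (hw : ∀ j, |(((s • w) j : ℤ) : ℝ)| ≤ ρ')
    (hw' : ∀ j, |(((s • w') j : ℤ) : ℝ)| ≤ ρ') (hρ' : 0 ≤ ρ')
    {Ψ : (∀ i, Fin (d i) → ℤ) → (∀ i, Fin (d i) → ℤ) → ℝ} (hΨ : ∀ x x', |Ψ x x'| ≤ 1) :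
    ‖avc 2 k (fun n => Complex.exp (2 * Real.pi * Complex.I *
        ((β * ((u + n : ℕ) : ℝ) : ℝ) : ℂ)) *
      ((Ψ (EE q e h P c z (u + n)) (EE q e h R c' z' (u + n)) -
        Ψ (EE q e h P c z (u + n) + Pi.single i₀ (s • w))
          (EE q e h R c' z' (u + n) + Pi.single i₀ (s • w')) : ℝ) : ℂ))‖ ≤
      4 * 2 ^ a / 2 ^ k + Real.sqrt (((2 * (ρ + ρ') + 1) ^ (∑ i, d i)) ^ 2 *
        (2 * (b + 2 * (B.card / 2 ^ a)))) +
      2 * ((∑ i, d i * VP i + ∑ i, d i * VR i) / ρ ^ 2) := by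
  classical
  set V : ∀ i, Fin (d i) → ℤ := Pi.single i₀ (s • w) with hV
  set V' : ∀ i, Fin (d i) → ℤ := Pi.single i₀ (s • w') with hV'
  set σ : (∀ i, Fin (d i) → ℤ) × (∀ i, Fin (d i) → ℤ) →
      (∀ i, Fin (d i) → ℤ) × (∀ i, Fin (d i) → ℤ) := fun x => (x.1 + V, x.2 + V') with hσ
  set Z : ℕ → (∀ i, Fin (d i) → ℤ) × (∀ i, Fin (d i) → ℤ) :=
    fun n => (EE q e h P c z n, EE q e h R c' z' n) with hZ
  have hVb : ∀ i j, |(V i j : ℝ)| ≤ ρ' := by
    intro i j
    by_cases hi : i = i₀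
    · subst hi
      rw [hV, Pi.single_eq_same]
      exact hw j
    · rw [hV, Pi.single_eq_of_ne hi]
      simpa using hρ'
  have hVb' : ∀ i j, |(V' i j : ℝ)| ≤ ρ' := by
    intro i j
    by_cases hi : i = i₀
    · subst hi
      rw [hV', Pi.single_eq_same]
      exact hw' j
    · rw [hV', Pi.single_eq_of_ne hi]
      simpa using hρ'
  have hσinj : Function.Injective σ := by
    rintro ⟨x, x'⟩ ⟨y, y'⟩ hxy
    simp only [hσ, Prod.mk.injEq, add_left_inj] at hxy
    rw [hxy.1, hxy.2]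
  have hew1 : ∀ r, ‖ew β r‖ ≤ 1 := fun r => (norm_ew β r).le
  set f : ℕ → ℂ := fun n => ew β (u + n) *
    ((Ψ (Z (u + n)).1 (Z (u + n)).2 - Ψ (σ (Z (u + n))).1 (σ (Z (u + n))).2 : ℝ) : ℂ) with hf
  have hf2 : ∀ n, ‖f n‖ ≤ 2 := by
    intro n
    rw [hf]
    simp only
    rw [norm_mul, norm_ew, one_mul, Complex.norm_real, Real.norm_eq_abs]
    calc |Ψ (Z (u + n)).1 (Z (u + n)).2 - Ψ (σ (Z (u + n))).1 (σ (Z (u + n))).2| ≤
        |Ψ (Z (u + n)).1 (Z (u + n)).2| + |Ψ (σ (Z (u + n))).1 (σ (Z (u + n))).2| :=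
          abs_sub _ _
      _ ≤ 1 + 1 := add_le_add (hΨ _ _) (hΨ _ _)
      _ = 2 := by norm_num
  set DS : ℕ → ℝ := fun n => (∑ r ∈ Finset.range (2 ^ a), ∑ r' ∈ Finset.range (2 ^ a),
      2 * (ew β r * (starRingEnd ℂ) (ew β r')).re *
        ((if Z (u + n + r) = Z (u + n + r') then (1 : ℝ) else 0) -
        (if Z (u + n + r) = σ (Z (u + n + r')) then (1 : ℝ) else 0))) / ((2 ^ a : ℕ) : ℝ) ^ 2
    with hDS
  have hDSnn : ∀ n, 0 ≤ DS n := fun n =>
    div_nonneg (w2_nonneg (2 ^ a) (fun r => Z (u + n + r)) hσinj (ew β)) (by positivity)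
  set M : ℝ := ((2 * (ρ + ρ') + 1) ^ (∑ i, d i)) ^ 2 with hM
  have hM0 : 0 ≤ M := by positivity
  set OP : ℕ → ℝ := fun n => ∑ i, ∑ j, av 2 a (fun r =>
    ((EE q e h P c z (u + n + r) i j : ℝ) - ctr n i j) ^ 2) / ρ ^ 2 with hOP
  set OR : ℕ → ℝ := fun n => ∑ i, ∑ j, av 2 a (fun r =>
    ((EE q e h R c' z' (u + n + r) i j : ℝ) - ctr' n i j) ^ 2) / ρ ^ 2 with hOR
  have hpt : ∀ n, ‖avc 2 a (fun r => f (n + r))‖ ≤ Real.sqrt (M * DS n) + 2 * (OP n + OR n) := by
    intro n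
    have hcoll := coll_w (X := 2 ^ a) (Nat.one_le_two_pow) (fun r => Z (u + n + r)) hσinj
      (m10_box d (ctr n) (ρ + ρ') ×ˢ m10_box d (ctr' n) (ρ + ρ'))
      (Ψ := fun p => Ψ p.1 p.2) (fun p => hΨ _ _) hew1
    have e1 : avc 2 a (fun r => f (n + r)) = ew β (u + n) * ((∑ r ∈ Finset.range (2 ^ a),
        ew β r * (((fun p : (∀ i, Fin (d i) → ℤ) × (∀ i, Fin (d i) → ℤ) => Ψ p.1 p.2)
          (Z (u + n + r)) -
        (fun p : (∀ i, Fin (d i) → ℤ) × (∀ i, Fin (d i) → ℤ) => Ψ p.1 p.2)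
          (σ (Z (u + n + r))) : ℝ) : ℂ)) / ((2 ^ a : ℕ) : ℂ)) := by
      unfold avc
      push_cast
      rw [← mul_div_assoc, Finset.mul_sum]
      congr 1
      refine Finset.sum_congr rfl fun r _ => ?_
      simp only [hf]
      rw [← add_assoc, ew_add]
      push_cast
      ring
    rw [e1, norm_mul, norm_ew, one_mul]
    refine hcoll.trans ?_
    have ho1 := m10_out2 a (fun r => EE q e h P c z (u + n + r))
      (fun r => EE q e h R c' z' (u + n + r)) (ctr n) (ctr' n) 0 0 hρ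
      (by intro i j; simpa using hρ') (by intro i j; simpa using hρ')
    have ho2 := m10_out2 a (fun r => EE q e h P c z (u + n + r))
      (fun r => EE q e h R c' z' (u + n + r)) (ctr n) (ctr' n) V V' hρ hVb hVb'
    simp only [add_zero] at ho1
    have hcard : (((m10_box d (ctr n) (ρ + ρ') ×ˢ m10_box d (ctr' n) (ρ + ρ')).card : ℕ) : ℝ) ≤
        M := by
      rw [Finset.card_product, hM, sq]
      push_cast
      exact mul_le_mul (m10_card_box _ (by positivity)) (m10_card_box _ (by positivity))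
        (by positivity) (by positivity)
    have hsq : Real.sqrt ((((m10_box d (ctr n) (ρ + ρ') ×ˢ
        m10_box d (ctr' n) (ρ + ρ')).card : ℕ) : ℝ) * DS n) ≤ Real.sqrt (M * DS n) :=
      Real.sqrt_le_sqrt (mul_le_mul_of_nonneg_right hcard (hDSnn n))
    have ho1' : (((Finset.range (2 ^ a)).filter (fun r => Z (u + n + r) ∉
        m10_box d (ctr n) (ρ + ρ') ×ˢ m10_box d (ctr' n) (ρ + ρ'))).card : ℝ) /
        ((2 ^ a : ℕ) : ℝ) ≤ OP n + OR n := by
      push_cast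
      exact ho1
    have ho2' : (((Finset.range (2 ^ a)).filter (fun r => σ (Z (u + n + r)) ∉
        m10_box d (ctr n) (ρ + ρ') ×ˢ m10_box d (ctr' n) (ρ + ρ'))).card : ℝ) /
        ((2 ^ a : ℕ) : ℝ) ≤ OP n + OR n := by
      push_cast
      exact ho2
    have hsum := add_le_add (add_le_add hsq ho1') ho2'
    refine le_trans hsum ?_
    linarith
  have hav : ‖avc 2 k (fun n => avc 2 a (fun r => f (n + r)))‖ ≤
      Real.sqrt (M * (2 * (b + 2 * (B.card / 2 ^ a)))) +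
      2 * ((∑ i, d i * VP i + ∑ i, d i * VR i) / ρ ^ 2) := by
    refine (avc_norm_le _ _).trans ?_
    refine (av_mono fun n _ => hpt n).trans ?_
    have e2 : av 2 k (fun n => Real.sqrt (M * DS n) + 2 * (OP n + OR n)) =
        av 2 k (fun n => Real.sqrt (M * DS n)) + 2 * (av 2 k OP + av 2 k OR) := by
      rw [av_add, av_const_mul, av_add]
    rw [e2]
    have h1 : av 2 k (fun n => Real.sqrt (M * DS n)) ≤
        Real.sqrt (M * (2 * (b + 2 * (B.card / 2 ^ a)))) := by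
      refine (m10_jensen k (fun n => mul_nonneg hM0 (hDSnn n))).trans ?_
      refine Real.sqrt_le_sqrt ?_
      rw [av_const_mul]
      refine mul_le_mul_of_nonneg_left ?_ hM0
      exact w2_double hew1 hb hB u σ (fun x => rfl) Z (fun n => rfl)
    have hVsum : ∀ (O : ℕ → ℝ) (g : ℕ → ∀ i, Fin (d i) → ℝ) (VV : ι → ℝ),
        (∀ n, O n = ∑ i, ∑ j, g n i j / ρ ^ 2) → (∀ i j, av 2 k (fun n => g n i j) ≤ VV i) →
        av 2 k O ≤ (∑ i, d i * VV i) / ρ ^ 2 := by
      intro O g VV hO hg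
      have e3 : av 2 k O = ∑ i, ∑ j, av 2 k (fun n => g n i j) / ρ ^ 2 := by
        have : O = fun n => ∑ i, ∑ j, g n i j / ρ ^ 2 := funext hO
        rw [this, av_finset_sum]
        refine Finset.sum_congr rfl fun i _ => ?_
        rw [av_finset_sum]
        refine Finset.sum_congr rfl fun j _ => ?_
        rw [av_div]
      rw [e3, Finset.sum_div]
      refine Finset.sum_le_sum fun i _ => ?_
      refine (Finset.sum_le_sum fun j _ => div_le_div_of_nonneg_right (hg i j)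
        (by positivity : (0 : ℝ) ≤ ρ ^ 2)).trans ?_
      rw [Finset.sum_const, Finset.card_univ, Fintype.card_fin, nsmul_eq_mul, mul_div_assoc]
    have h2 := hVsum OP (fun n i j => av 2 a (fun r =>
      ((EE q e h P c z (u + n + r) i j : ℝ) - ctr n i j) ^ 2)) VP (fun n => rfl) hctr
    have h3 := hVsum OR (fun n i j => av 2 a (fun r =>
      ((EE q e h R c' z' (u + n + r) i j : ℝ) - ctr' n i j) ^ 2)) VR (fun n => rfl) hctr'
    rw [add_div]
    linarith
  have hshift := w2_shift_av hf2 k a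
  have h6 : (2 : ℝ) * 2 * 2 ^ a / 2 ^ k = 4 * 2 ^ a / 2 ^ k := by ring
  rw [h6] at hshift
  have h5 : ‖avc 2 k f‖ ≤ ‖avc 2 k f - avc 2 k (fun n => avc 2 a (fun r => f (n + r)))‖ +
      ‖avc 2 k (fun n => avc 2 a (fun r => f (n + r)))‖ := by
    have := norm_add_le (avc 2 k f - avc 2 k (fun n => avc 2 a (fun r => f (n + r))))
      (avc 2 k (fun n => avc 2 a (fun r => f (n + r))))
    simpa using this
  show ‖avc 2 k f‖ ≤ _
  linarith

/-- W2: near-invariance in one direction, in one base, with a linear phase -/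
theorem tv_dir_w (S : Sys q m e C) {P R : ι → ℕ} (hPR : Mul q m P R) (i₀ : ι)
    {w w' : Fin (d i₀) → ℤ} (hw : w ∈ Lam (e i₀)) (hw' : w' ∈ Lam (e i₀)) (h Y : ℕ) {ε : ℝ}
    (hε : 0 < ε) :
    ∃ κ : ℝ, 0 < κ ∧ ∀ᶠ k : ℕ in atTop, ∀ y ≤ Y, ∀ c z c' z' : ι → ℕ, Bd q h P c z →
      Bd q h R c' z' → ∀ s : ℕ, (s : ℝ) ≤ κ * Real.sqrt (k + 1) → ∀ β : ℝ,
      ∀ Ψ : (∀ i, Fin (d i) → ℤ) → (∀ i, Fin (d i) → ℤ) → ℝ, (∀ x x', |Ψ x x'| ≤ 1) →
        ‖avc 2 k (fun n => Complex.exp (2 * Real.pi * Complex.I *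
            ((β * ((2 ^ k * y + n : ℕ) : ℝ) : ℝ) : ℂ)) *
          ((Ψ (EE q e h P c z (2 ^ k * y + n)) (EE q e h R c' z' (2 ^ k * y + n)) -
            Ψ (EE q e h P c z (2 ^ k * y + n) + Pi.single i₀ (s • w))
              (EE q e h R c' z' (2 ^ k * y + n) + Pi.single i₀ (s • w')) : ℝ) : ℂ))‖ ≤ ε := by
  obtain ⟨K, θ, hK, hθ0, hθ1, hinc⟩ := incr_law S hPR i₀ hw hw'
  choose KP hKP0 hKP using fun i => var_short (m := m) (S.base i) (hPR.cP i) h Y
  choose KR hKR0 hKR using fun i => var_short (m := m) (S.base i) (hPR.cR i) h Y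
  set c0 : ℕ := 4 * Fintype.card ι + 4 with hc0
  set D := ∑ i, d i with hD
  set K3 : ℝ := ∑ i, d i * (KP i * C ^ 2) + ∑ i, d i * (KR i * C ^ 2) with hK3
  have hK30 : 0 ≤ K3 := by
    have h1 : ∀ i, 0 ≤ (d i : ℝ) * (KP i * C ^ 2) := fun i => by
      have := hKP0 i; positivity
    have h2 : ∀ i, 0 ≤ (d i : ℝ) * (KR i * C ^ 2) := fun i => by
      have := hKR0 i; positivity
    exact add_nonneg (Finset.sum_nonneg fun i _ => h1 i) (Finset.sum_nonneg fun i _ => h2 i)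
  set T : ℝ := 8 * K3 / ε + 1 with hT
  have hT1 : 1 ≤ T := by
    have : 0 ≤ 8 * K3 / ε := by positivity
    linarith
  set Wm : ℝ := ∑ j, |(w j : ℝ)| + ∑ j, |(w' j : ℝ)| with hWm
  have hWm0 : 0 ≤ Wm := by positivity
  have hwj : ∀ j, |(w j : ℝ)| ≤ Wm := by
    intro j
    have h1 := Finset.single_le_sum (f := fun j => |(w j : ℝ)|) (fun j _ => abs_nonneg _)
      (Finset.mem_univ j)
    have h2 : 0 ≤ ∑ j, |(w' j : ℝ)| := Finset.sum_nonneg fun j _ => abs_nonneg _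
    linarith
  have hwj' : ∀ j, |(w' j : ℝ)| ≤ Wm := by
    intro j
    have h1 := Finset.single_le_sum (f := fun j => |(w' j : ℝ)|) (fun j _ => abs_nonneg _)
      (Finset.mem_univ j)
    have h2 : 0 ≤ ∑ j, |(w j : ℝ)| := Finset.sum_nonneg fun j _ => abs_nonneg _
    linarith
  set Q : ℝ := 2 * K * ((2 * T + 3) ^ D) ^ 2 with hQ
  have hQ0 : 0 ≤ Q := by positivity
  have hc0pos : (0 : ℝ) < Real.sqrt c0 := Real.sqrt_pos.2 (by
    have : 0 < c0 := by omega
    exact_mod_cast this)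
  set δ : ℝ := (ε / 4) ^ 2 / (2 * (Q + 1)) with hδ
  have hδ0 : 0 < δ := by positivity
  set κ : ℝ := min (1 / (Real.sqrt c0 * (Wm + 1))) (δ / Real.sqrt c0) with hκ
  have hκ0 : 0 < κ := lt_min (by positivity) (by positivity)
  refine ⟨κ, hκ0, ?_⟩
  have hκ1 : κ ≤ 1 / (Real.sqrt c0 * (Wm + 1)) := min_le_left _ _
  have hκ2 : κ ≤ δ / Real.sqrt c0 := min_le_right _ _
  clear_value κ δ Q Wm T K3
  have hdiv : Tendsto (fun k : ℕ => k / c0) atTop atTop :=
    Nat.tendsto_div_const_atTop (by omega)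
  have hP2 : ∀ᶠ a : ℕ in atTop, (4 : ℝ) * (1 / 2) ^ a ≤ ε / 4 := by
    have h1 : Tendsto (fun a : ℕ => (4 : ℝ) * (1 / 2) ^ a) atTop (𝓝 (4 * 0)) :=
      (tendsto_pow_atTop_nhds_zero_of_lt_one (by norm_num) (by norm_num)).const_mul 4
    rw [mul_zero] at h1
    exact (h1.eventually (gt_mem_nhds (by positivity))).mono fun a ha => ha.le
  filter_upwards [hdiv.eventually (m10_decay hθ0 hθ1 D hδ0), hdiv.eventually hP2]
    with k hk1 hk2 y hy c z c' z' hb hb' s hs β Ψ hΨ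
  set a := k / c0 with ha
  have hak : c0 * a ≤ k := Nat.mul_div_le k c0
  have hka : k + 1 ≤ c0 * (a + 1) := by
    have := Nat.lt_mul_div_succ k (show 0 < c0 by omega)
    exact this
  have hsa1 : 1 ≤ Real.sqrt ((a : ℝ) + 1) := by
    rw [Real.one_le_sqrt]
    linarith [(Nat.cast_nonneg a : (0 : ℝ) ≤ a)]
  have hsa0 : 0 < Real.sqrt ((a : ℝ) + 1) := by linarith
  have hsqk : Real.sqrt ((k : ℝ) + 1) ≤ Real.sqrt c0 * Real.sqrt ((a : ℝ) + 1) := by
    rw [← Real.sqrt_mul (Nat.cast_nonneg _)]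
    refine Real.sqrt_le_sqrt ?_
    exact_mod_cast hka
  have hs2 : (s : ℝ) ≤ κ * (Real.sqrt c0 * Real.sqrt ((a : ℝ) + 1)) :=
    hs.trans (mul_le_mul_of_nonneg_left hsqk hκ0.le)
  have hs3 : (s : ℝ) * (Wm + 1) ≤ Real.sqrt ((a : ℝ) + 1) := by
    have h1 : κ * Real.sqrt c0 * (Wm + 1) ≤ 1 := by
      calc κ * Real.sqrt c0 * (Wm + 1) ≤
            (1 / (Real.sqrt c0 * (Wm + 1))) * Real.sqrt c0 * (Wm + 1) := by gcongr
        _ = 1 := by field_simp
    calc (s : ℝ) * (Wm + 1) ≤ κ * (Real.sqrt c0 * Real.sqrt ((a : ℝ) + 1)) * (Wm + 1) := by gcongr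
      _ = (κ * Real.sqrt c0 * (Wm + 1)) * Real.sqrt ((a : ℝ) + 1) := by ring
      _ ≤ 1 * Real.sqrt ((a : ℝ) + 1) := by gcongr
      _ = _ := one_mul _
  have hs4 : (s : ℝ) / Real.sqrt ((a : ℝ) + 1) ≤ δ := by
    rw [div_le_iff₀ hsa0]
    have h1 : κ * Real.sqrt c0 ≤ δ := by
      calc κ * Real.sqrt c0 ≤ (δ / Real.sqrt c0) * Real.sqrt c0 := by gcongr
        _ = δ := by field_simp
    calc (s : ℝ) ≤ κ * (Real.sqrt c0 * Real.sqrt ((a : ℝ) + 1)) := hs2
      _ = (κ * Real.sqrt c0) * Real.sqrt ((a : ℝ) + 1) := by ring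
      _ ≤ _ := by gcongr
  obtain ⟨B, hBcard, hBr⟩ := hinc h a k hak
  set b : ℝ := K * ((s : ℝ) / Real.sqrt (a + 1) ^ (2 * D + 1) + θ ^ a) with hbdef
  have hb0 : 0 ≤ b := by positivity
  choose ctr hctr using fun (i : ι) (j : Fin (d i)) => hKP i (fun n => (e i n j : ℝ)) C
    (m10_coord (S.qv i) j) a k y (c i) (z i) (by
      calc a ≤ c0 * a := Nat.le_mul_of_pos_left a (by omega)
        _ ≤ k := hak) hy (hb.cle i) (hb.zlt i)
  choose ctr' hctr' using fun (i : ι) (j : Fin (d i)) => hKR i (fun n => (e i n j : ℝ)) C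
    (m10_coord (S.qv i) j) a k y (c' i) (z' i) (by
      calc a ≤ c0 * a := Nat.le_mul_of_pos_left a (by omega)
        _ ≤ k := hak) hy (hb'.cle i) (hb'.zlt i)
  have hest := w2_est β (q := q) (e := e) (k := k) (a := a) (B := B) hb0 (i₀ := i₀) (w := w)
    (w' := w') (h := h) (P := P) (R := R) (c := c) (z := z) (c' := c') (z' := z') (s := s) ?_
    (2 ^ k * y) (fun n i j => ctr i j n) (fun n i j => ctr' i j n)
    (VP := fun i => KP i * C ^ 2 * (a + 1)) (VR := fun i => KR i * C ^ 2 * (a + 1))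
    (fun i j => hctr i j) (fun i j => hctr' i j)
    (ρ := T * Real.sqrt ((a : ℝ) + 1)) (ρ' := Real.sqrt ((a : ℝ) + 1)) (by positivity) ?_ ?_
    hsa0.le hΨ
  · refine hest.trans ?_
    -- first term
    have h1 : (4 : ℝ) * 2 ^ a / 2 ^ k ≤ ε / 4 := by
      refine le_trans ?_ hk2
      have h2a : a + a ≤ k := by
        have : 2 * a ≤ c0 * a := Nat.mul_le_mul_right a (by omega)
        omega
      have h3 : (2 : ℝ) ^ a * 2 ^ a ≤ 2 ^ k := by
        rw [← pow_add]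
        exact pow_le_pow_right₀ (by norm_num) h2a
      rw [div_le_iff₀ (by positivity), one_div, inv_pow]
      have h4 : (0 : ℝ) < 2 ^ a := by positivity
      calc (4 : ℝ) * 2 ^ a = 4 * (2 ^ a)⁻¹ * (2 ^ a * 2 ^ a) := by field_simp
        _ ≤ 4 * (2 ^ a)⁻¹ * 2 ^ k := by gcongr
    -- third term
    have h3 : 2 * ((∑ i, (d i : ℝ) * (KP i * C ^ 2 * (a + 1)) +
        ∑ i, (d i : ℝ) * (KR i * C ^ 2 * (a + 1))) / (T * Real.sqrt ((a : ℝ) + 1)) ^ 2) ≤
        ε / 4 := by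
      have e1 : ∑ i, (d i : ℝ) * (KP i * C ^ 2 * (a + 1)) +
        ∑ i, (d i : ℝ) * (KR i * C ^ 2 * (a + 1)) = K3 * (a + 1) := by
        rw [hK3, add_mul, Finset.sum_mul, Finset.sum_mul]
        congr 1 <;> refine Finset.sum_congr rfl fun i _ => by ring
      have ha1 : (0 : ℝ) < (a : ℝ) + 1 := by positivity
      rw [e1, mul_pow, Real.sq_sqrt ha1.le, mul_div_mul_right _ _ ha1.ne']
      have h4 : K3 / T ^ 2 ≤ K3 / T := by
        exact div_le_div_of_nonneg_left hK30 (by linarith) (le_self_pow₀ hT1 (by norm_num))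
      have h5 : 2 * (K3 / T) ≤ ε / 4 := by
        rw [← mul_div_assoc, div_le_iff₀ (by linarith)]
        have : ε * T = 8 * K3 + ε := by rw [hT]; field_simp
        linarith
      linarith
    -- second term
    have h2 : Real.sqrt (((2 * (T * Real.sqrt ((a : ℝ) + 1) + Real.sqrt ((a : ℝ) + 1)) + 1) ^
        (∑ i, d i)) ^ 2 * (2 * (b + 2 * ((B.card : ℝ) / 2 ^ a)))) ≤ ε / 4 := by
      rw [← hD]
      refine Real.sqrt_le_iff.2 ⟨by positivity, ?_⟩
      have hB2 : (B.card : ℝ) / 2 ^ a ≤ K * θ ^ a := by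
        rw [div_le_iff₀ (by positivity)]
        exact hBcard
      have h4 : 2 * (T * Real.sqrt ((a : ℝ) + 1) + Real.sqrt ((a : ℝ) + 1)) + 1 ≤
          (2 * T + 3) * Real.sqrt ((a : ℝ) + 1) := by linarith
      have h5 : ((2 * (T * Real.sqrt ((a : ℝ) + 1) + Real.sqrt ((a : ℝ) + 1)) + 1) ^ D) ^ 2 ≤
          (((2 * T + 3) * Real.sqrt ((a : ℝ) + 1)) ^ D) ^ 2 := by gcongr
      have h6 : 2 * (b + 2 * ((B.card : ℝ) / 2 ^ a)) ≤
          2 * K * ((s : ℝ) / Real.sqrt (a + 1) ^ (2 * D + 1) + 3 * θ ^ a) := by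
        rw [hbdef]; linarith
      have h7 : 0 ≤ 2 * (b + 2 * ((B.card : ℝ) / 2 ^ a)) := by positivity
      calc _ ≤ (((2 * T + 3) * Real.sqrt ((a : ℝ) + 1)) ^ D) ^ 2 *
            (2 * K * ((s : ℝ) / Real.sqrt (a + 1) ^ (2 * D + 1) + 3 * θ ^ a)) := by gcongr
        _ = Q * ((s : ℝ) / Real.sqrt ((a : ℝ) + 1) +
              3 * (θ ^ a * ((a : ℝ) + 1) ^ D)) := by
            have e2 : Real.sqrt ((a : ℝ) + 1) ^ (2 * D) = ((a : ℝ) + 1) ^ D := by
              rw [pow_mul, Real.sq_sqrt (by linarith [(Nat.cast_nonneg a : (0 : ℝ) ≤ a)])]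
            rw [hQ, ← e2]
            exact m10_alg hsa0 _ _ _ _ _
        _ ≤ Q * (δ + δ) := by gcongr
        _ ≤ (ε / 4) ^ 2 := by
            rw [hδ]
            exact m10_alg2 hQ0 _
    calc _ ≤ ε / 4 + ε / 4 + ε / 4 := add_le_add (add_le_add h1 h2) h3
      _ ≤ ε := by linarith
  · intro r hr hrB u t ht
    refine (hBr r hr hrB u c z c' z' hb hb' t).trans ?_
    have : |(t : ℝ)| = s := by
      rcases ht with rfl | rfl
      · simp
      · simp
    rw [this]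
  · intro j
    simp only [Pi.smul_apply, nsmul_eq_mul]
    push_cast
    rw [abs_mul, Nat.abs_cast]
    calc (s : ℝ) * |(w j : ℝ)| ≤ s * (Wm + 1) := by
          gcongr; linarith [hwj j]
      _ ≤ _ := hs3
  · intro j
    simp only [Pi.smul_apply, nsmul_eq_mul]
    push_cast
    rw [abs_mul, Nat.abs_cast]
    calc (s : ℝ) * |(w' j : ℝ)| ≤ s * (Wm + 1) := by
          gcongr; linarith [hwj' j]
      _ ≤ _ := hs3

end several

end Pool.Agent.Lib.MP_3e612f_nt.MB
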