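import Pool.Agent.Lib.MP_3e612f_nt.MDefs
import Pool.Agent.Lib.MP_3e612f_nt.QExt
import Pool.Agent.Lib.MP_3e612f_nt.MBox
import Pool.Agent.Lib.MP_3e612f_nt.WDir

/-!
Near-invariance of the joint law under all shifts of a box, with a linear phase (task W3, helper39;
weighted version of `MBox`).
-/

set_option autoImplicit false

namespace Pool.Agent.Lib.MP_3e612f_nt.MB

open Filter Topology
open Pool.Agent.Lib.MP_3e612f_nt.QA

section abstr

variable {G : Type*} [AddCommGroup G]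

/-- the weighted joint law of `X`, `X'` is moved by at most `δ` by the shift `(V, V')` -/
def w3_N (wt : ℕ → ℂ) (X X' : ℕ → G) (k : ℕ) (V V' : G) (δ : ℝ) : Prop :=
  ∀ Ψ : G → G → ℝ, (∀ x x', |Ψ x x'| ≤ 1) →
    ‖avc 2 k (fun n => wt n * ((Ψ (X n) (X' n) - Ψ (X n + V) (X' n + V') : ℝ) : ℂ))‖ ≤ δ

theorem w3_zero (wt : ℕ → ℂ) (X X' : ℕ → G) (k : ℕ) : w3_N wt X X' k 0 0 0 := by
  intro Ψ _
  unfold avc
  simp

theorem w3_add {wt : ℕ → ℂ} {X X' : ℕ → G} {k : ℕ} {V V' W W' : G} {δ δ' : ℝ}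
    (h1 : w3_N wt X X' k V V' δ) (h2 : w3_N wt X X' k W W' δ') :
    w3_N wt X X' k (V + W) (V' + W') (δ + δ') := by
  intro Ψ hΨ
  have a1 := h1 Ψ hΨ
  have a2 := h2 (fun x x' => Ψ (x + V) (x' + V')) (fun x x' => hΨ _ _)
  have e1 : avc 2 k (fun n => wt n *
      ((Ψ (X n) (X' n) - Ψ (X n + (V + W)) (X' n + (V' + W')) : ℝ) : ℂ)) =
      avc 2 k (fun n => wt n * ((Ψ (X n) (X' n) - Ψ (X n + V) (X' n + V') : ℝ) : ℂ)) +
      avc 2 k (fun n => wt n * ((Ψ (X n + V) (X' n + V') -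
        Ψ (X n + W + V) (X' n + W' + V') : ℝ) : ℂ)) := by
    unfold avc
    rw [← add_div, ← Finset.sum_add_distrib]
    congr 1
    apply Finset.sum_congr rfl
    intro n _
    have b1 : X n + (V + W) = X n + W + V := by abel
    have b2 : X' n + (V' + W') = X' n + W' + V' := by abel
    dsimp only
    rw [b1, b2]
    push_cast
    ring
  rw [e1]
  exact (norm_add_le _ _).trans (add_le_add a1 a2)

theorem w3_mono {wt : ℕ → ℂ} {X X' : ℕ → G} {k : ℕ} {V V' : G} {δ δ' : ℝ}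
    (h1 : w3_N wt X X' k V V' δ) (h2 : δ ≤ δ') : w3_N wt X X' k V V' δ' :=
  fun Ψ hΨ => (h1 Ψ hΨ).trans h2

theorem w3_sum {wt : ℕ → ℂ} {X X' : ℕ → G} {k : ℕ} {α : Type*} (s : Finset α) (V V' : α → G)
    (δ : ℝ) (h : ∀ a ∈ s, w3_N wt X X' k (V a) (V' a) δ) :
    w3_N wt X X' k (∑ a ∈ s, V a) (∑ a ∈ s, V' a) (s.card * δ) := by
  classical
  induction s using Finset.induction_on with
  | empty => simpa using w3_zero wt X X' k
  | insert a s ha ih =>
    rw [Finset.sum_insert ha, Finset.sum_insert ha, Finset.card_insert_of_notMem ha]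
    refine w3_mono (w3_add (h a (Finset.mem_insert_self _ _))
      (ih fun b hb => h b (Finset.mem_insert_of_mem hb))) (le_of_eq ?_)
    push_cast
    ring

end abstr

/-- the phase -/
noncomputable def w3_ph (β : ℝ) (k y n : ℕ) : ℂ :=
  Complex.exp (2 * Real.pi * Complex.I * ((β * ((2 ^ k * y + n : ℕ) : ℝ) : ℝ) : ℂ))

section several

variable {ι : Type*} [Fintype ι] [DecidableEq ι] {q : ι → ℕ} {m : ℕ} {d : ι → ℕ}
  {e : ∀ i, ℕ → Fin (d i) → ℤ} {C : ℝ}

/-- finitely many directions at once -/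
theorem w3_fin (S : Sys q m e C) {P R : ι → ℕ} (hPR : Mul q m P R) (h Y : ℕ) {ε : ℝ}
    (hε : 0 < ε) (D : Finset (Σ i : ι, (Fin (d i) → ℤ) × (Fin (d i) → ℤ)))
    (hD : ∀ x ∈ D, x.2.1 ∈ Lam (e x.1) ∧ x.2.2 ∈ Lam (e x.1)) :
    ∃ κ : ℝ, 0 < κ ∧ ∀ᶠ k : ℕ in atTop, ∀ y ≤ Y, ∀ c z c' z' : ι → ℕ, Bd q h P c z →
      Bd q h R c' z' → ∀ s : ℕ, (s : ℝ) ≤ κ * Real.sqrt (k + 1) → ∀ β : ℝ, ∀ x ∈ D,
        w3_N (w3_ph β k y) (fun n => EE q e h P c z (2 ^ k * y + n)) (fun n => EE q e h R c' z' (2 ^ k * y + n))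
          k (Pi.single x.1 (s • x.2.1)) (Pi.single x.1 (s • x.2.2)) ε := by
  classical
  induction D using Finset.induction_on with
  | empty => exact ⟨1, one_pos, Filter.Eventually.of_forall (by simp)⟩
  | insert x D hx ih =>
    obtain ⟨κ1, hκ1, H1⟩ := ih (fun x hx => hD x (Finset.mem_insert_of_mem hx))
    have hxD := hD x (Finset.mem_insert_self _ _)
    obtain ⟨κ2, hκ2, H2⟩ := tv_dir_w S hPR x.1 hxD.1 hxD.2 h Y hε
    refine ⟨min κ1 κ2, lt_min hκ1 hκ2, ?_⟩
    filter_upwards [H1, H2] with k h1 h2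
    intro y hy c z c' z' hb hb' s hs β x' hx'
    have hsq : 0 ≤ Real.sqrt ((k : ℝ) + 1) := Real.sqrt_nonneg _
    rcases Finset.mem_insert.1 hx' with hx' | hx'
    · subst hx'
      intro Ψ hΨ
      exact h2 y hy c z c' z' hb hb' s
        (hs.trans (mul_le_mul_of_nonneg_right (min_le_right _ _) hsq)) β Ψ hΨ
    · exact h1 y hy c z c' z' hb hb' s
        (hs.trans (mul_le_mul_of_nonneg_right (min_le_left _ _) hsq)) β x' hx'

/-- W3: near-invariance under all shifts of a box, with a linear phase -/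
theorem tv_box_w (S : Sys q m e C) {P R : ι → ℕ} (hPR : Mul q m P R) (h Y : ℕ) {ε : ℝ}
    (hε : 0 < ε) :
    ∃ κ : ℝ, 0 < κ ∧ ∀ᶠ k : ℕ in atTop, ∀ y ≤ Y, ∀ c z c' z' : ι → ℕ, Bd q h P c z →
      Bd q h R c' z' → ∀ L : ℕ, (L : ℝ) ≤ κ * Real.sqrt (k + 1) →
      ∀ v v' : ∀ i, Fin (d i) → ℤ, (∀ i a, 0 ≤ v i a ∧ v i a ≤ L) →
      (∀ i a, 0 ≤ v' i a ∧ v' i a ≤ L) → ∀ β : ℝ,
      ∀ Ψ : (∀ i, Fin (d i) → ℤ) → (∀ i, Fin (d i) → ℤ) → ℝ, (∀ x x', |Ψ x x'| ≤ 1) →
        ‖avc 2 k (fun n => Complex.exp (2 * Real.pi * Complex.I *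
            ((β * ((2 ^ k * y + n : ℕ) : ℝ) : ℝ) : ℂ)) *
          ((Ψ (EE q e h P c z (2 ^ k * y + n)) (EE q e h R c' z' (2 ^ k * y + n)) -
            Ψ (EE q e h P c z (2 ^ k * y + n) + lamP e v)
              (EE q e h R c' z' (2 ^ k * y + n) + lamP e v') : ℝ) : ℂ))‖ ≤ ε := by
  classical
  set dm : ℕ := Finset.univ.sup d with hdm
  have hdi : ∀ i, d i ≤ dm := fun i => Finset.le_sup (Finset.mem_univ i)
  set M : ℝ := Fintype.card ι * (2 * (dm + 1)) + 1 with hM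
  have hMpos : 0 < M := by positivity
  set δ : ℝ := ε / M with hδ
  have hδpos : 0 < δ := div_pos hε hMpos
  have hDmem : ∀ x ∈ m11_D q e, x.2.1 ∈ Lam (e x.1) ∧ x.2.2 ∈ Lam (e x.1) := by
    rintro ⟨i, w, w'⟩ hx
    have hq := S.base i
    have he := (S.qv i).gap
    have hg := S.gen i
    simp only [m11_D, Finset.mem_sigma, Finset.mem_univ, true_and, Finset.mem_union,
      Finset.mem_image, Prod.mk.injEq] at hx
    rcases hx with ((⟨a, h1, h2⟩ | ⟨a, h1, h2⟩) | ⟨ρ, _, h1, h2⟩) | ⟨ρ, _, h1, h2⟩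
    · rw [← h1, ← h2]
      exact ⟨smul_mem_lam hq he hg _, AddSubgroup.zero_mem _⟩
    · rw [← h1, ← h2]
      exact ⟨AddSubgroup.zero_mem _, smul_mem_lam hq he hg _⟩
    · rw [← h1, ← h2]
      exact ⟨lamv_mem hq he hg _, AddSubgroup.zero_mem _⟩
    · rw [← h1, ← h2]
      exact ⟨AddSubgroup.zero_mem _, lamv_mem hq he hg _⟩
  obtain ⟨κ, hκ, H⟩ := w3_fin S hPR h Y hδpos (m11_D q e) hDmem
  refine ⟨κ, hκ, ?_⟩
  have hlarge : ∀ᶠ k : ℕ in atTop, (1 : ℝ) ≤ κ * Real.sqrt (k + 1) := by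
    have h1 : Tendsto (fun k : ℕ => κ * Real.sqrt ((k : ℝ) + 1)) atTop atTop := by
      apply Filter.Tendsto.const_mul_atTop hκ
      exact Real.tendsto_sqrt_atTop.comp
        (tendsto_atTop_add_const_right _ _ tendsto_natCast_atTop_atTop)
    exact h1.eventually_ge_atTop 1
  filter_upwards [H, hlarge] with k hk hk1
  intro y hy c z c' z' hb hb' L hL v v' hv hv' β
  have key := hk y hy c z c' z' hb hb'
  set X : ℕ → ∀ i, Fin (d i) → ℤ := fun n => EE q e h P c z (2 ^ k * y + n) with hX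
  set X' : ℕ → ∀ i, Fin (d i) → ℤ := fun n => EE q e h R c' z' (2 ^ k * y + n) with hX'
  set wt : ℕ → ℂ := w3_ph β k y with hwt
  -- one base, one side
  have hone : ∀ (i : ι) (u : Fin (d i) → ℤ), (∀ a, 0 ≤ u a ∧ u a ≤ L) →
      w3_N wt X X' k (Pi.single i (lamv (e i) u)) 0 ((dm + 1) * δ) ∧
      w3_N wt X X' k 0 (Pi.single i (lamv (e i) u)) ((dm + 1) * δ) := by
    intro i u hu
    obtain ⟨w, ρ, hwL, hρ, hdec⟩ := m11_dec (S.base i) (S.qv i).gap (S.gen i) u L
      (fun a => (hu a).1) (fun a => (hu a).2)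
    have hws : ∀ a, ((w a : ℕ) : ℝ) ≤ κ * Real.sqrt (k + 1) := fun a =>
      le_trans (by exact_mod_cast hwL a) hL
    have hsum : ∀ (f : Fin (d i) → Fin (d i) → ℤ), (Pi.single i (∑ a, f a) :
        ∀ i, Fin (d i) → ℤ) = ∑ a, Pi.single i (f a) := by
      intro f
      exact map_sum (AddMonoidHom.single (fun i => Fin (d i) → ℤ) i) f Finset.univ
    have hcard : (Finset.univ : Finset (Fin (d i))).card * δ ≤ dm * δ := by
      rw [Finset.card_univ, Fintype.card_fin]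
      exact mul_le_mul_of_nonneg_right (by exact_mod_cast hdi i) hδpos.le
    rw [hdec, Pi.single_add, hsum]
    constructor
    · have h1 := w3_sum (wt := wt) (X := X) (X' := X') (k := k) (Finset.univ : Finset (Fin (d i)))
        (fun a => (Pi.single i (w a • ((q i - 1) • (Pi.single a 1 : Fin (d i) → ℤ))) :
          ∀ i, Fin (d i) → ℤ)) (fun _ => 0) δ (by
          intro a _
          have h2 := key (w a) (hws a) β ⟨i, (q i - 1) • (Pi.single a 1 : Fin (d i) → ℤ), 0⟩ (by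
            exact Finset.mem_sigma.2 ⟨Finset.mem_univ _, Finset.mem_union_left _
              (Finset.mem_union_left _ (Finset.mem_union_left _
                (Finset.mem_image.2 ⟨a, Finset.mem_univ _, rfl⟩)))⟩)
          simpa using h2)
      have h3 := key 1 (by simpa using hk1) β ⟨i, lamv (e i) ρ, 0⟩ (by
            exact Finset.mem_sigma.2 ⟨Finset.mem_univ _, Finset.mem_union_left _
              (Finset.mem_union_right _ (Finset.mem_image.2 ⟨ρ, hρ, rfl⟩))⟩)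
      have h4 := w3_add h1 h3
      simp only [one_smul, smul_zero, Pi.single_zero, Finset.sum_const_zero, add_zero] at h4
      refine w3_mono h4 ?_
      linarith
    · have h1 := w3_sum (wt := wt) (X := X) (X' := X') (k := k) (Finset.univ : Finset (Fin (d i)))
        (fun _ => 0) (fun a => (Pi.single i (w a • ((q i - 1) • (Pi.single a 1 : Fin (d i) → ℤ))) :
          ∀ i, Fin (d i) → ℤ)) δ (by
          intro a _
          have h2 := key (w a) (hws a) β ⟨i, 0, (q i - 1) • (Pi.single a 1 : Fin (d i) → ℤ)⟩ (by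
            exact Finset.mem_sigma.2 ⟨Finset.mem_univ _, Finset.mem_union_left _
              (Finset.mem_union_left _ (Finset.mem_union_right _
                (Finset.mem_image.2 ⟨a, Finset.mem_univ _, rfl⟩)))⟩)
          simpa using h2)
      have h3 := key 1 (by simpa using hk1) β ⟨i, 0, lamv (e i) ρ⟩ (by
            exact Finset.mem_sigma.2 ⟨Finset.mem_univ _, Finset.mem_union_right _
              (Finset.mem_image.2 ⟨ρ, hρ, rfl⟩)⟩)
      have h4 := w3_add h1 h3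
      simp only [one_smul, smul_zero, Pi.single_zero, Finset.sum_const_zero, add_zero] at h4
      refine w3_mono h4 ?_
      linarith
  have hall := w3_sum (wt := wt) (X := X) (X' := X') (k := k) (Finset.univ : Finset ι)
    (fun i => Pi.single i (lamv (e i) (v i))) (fun i => Pi.single i (lamv (e i) (v' i)))
    (2 * (dm + 1) * δ) (by
      intro i _
      have h1 := w3_add (hone i (v i) (hv i)).1 (hone i (v' i) (hv' i)).2
      rw [add_zero, zero_add] at h1
      refine w3_mono h1 (le_of_eq ?_)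
      ring)
  have e1 : ∀ u : ∀ i, Fin (d i) → ℤ, ∑ i, (Pi.single i (lamv (e i) (u i)) :
      ∀ i, Fin (d i) → ℤ) = lamP e u := fun u =>
    Finset.univ_sum_single (fun i => lamv (e i) (u i))
  rw [e1, e1] at hall
  refine w3_mono hall ?_
  rw [Finset.card_univ]
  have h5 : (Fintype.card ι : ℝ) * (2 * (dm + 1) * δ) = (M - 1) * δ := by
    rw [hM]; ring
  rw [h5, hδ]
  have h6 : (M - 1) * (ε / M) ≤ M * (ε / M) :=
    mul_le_mul_of_nonneg_right (by linarith) hδpos.le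
  have h7 : M * (ε / M) = ε := by field_simp
  linarith

end several

end Pool.Agent.Lib.MP_3e612f_nt.MB
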