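import Pool.Agent.Lib.MP_3e612f_nt.QDefect

/-!
The value of a quasi-additive function at `q ^ h * (P * (q ^ k * y + n) + c) + z` is close in mean
to its value at `P * n % q ^ k`.
-/

set_option autoImplicit false

namespace Pool.Agent.Lib.MP_3e612f_nt.QA

open Filter Topology

theorem q10_l1 {q : ℕ} (hq : 2 ≤ q) (k : ℕ) (u : ℕ → ℝ) {B : ℝ}
    (h : av q k (fun n => u n ^ 2) ≤ B) : av q k (fun n => |u n|) ≤ Real.sqrt B := by
  refine Real.le_sqrt_of_sq_le ?_
  refine (av_sq_le q hq k _).trans (le_trans (le_of_eq ?_) h)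
  congr 1
  funext s
  rw [sq_abs]

theorem q10_coord {q m d : ℕ} {e : ℕ → Fin d → ℤ} {C : ℝ} (he : QV q m e C) (i : Fin d) :
    QR q m (fun n => ((e n i : ℤ) : ℝ)) C :=
  ⟨he.nonneg, fun a y s hs => by
    rw [he.gap a y s hs, Pi.add_apply]
    push_cast
    rfl, fun a s hs => he.growth a s hs i⟩

theorem q10_real {q m : ℕ} (hq : 2 ≤ q) {P : ℕ} (hP : P.Coprime q) (h Y : ℕ) :
    ∃ K : ℝ, 0 ≤ K ∧ ∀ (F : ℕ → ℝ) (C : ℝ), QR q m F C → ∀ k y c z : ℕ, y ≤ Y → c ≤ P →
      z < q ^ h → av q k (fun n => |F (q ^ h * (P * (q ^ k * y + n) + c) + z) -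
        F (P * n % q ^ k)|) ≤ K * C := by
  classical
  set Z : ℕ := P * (Y + 1) with hZ
  obtain ⟨K₁, hK₁0, hK₁⟩ := defect_sq_right (q := q) (m := m) hq h Z
  obtain ⟨K₂, hK₂0, hK₂⟩ := defect_sq_left (q := q) (m := m) hq Z
  choose K₃ hK₃0 hK₃ using fun t => carry_sq (q := q) (m := m) hq t
  set K₄ : ℝ := ∑ t ∈ Finset.range (P + 1), Real.sqrt (K₃ t) with hK₄
  refine ⟨(h + 1) + (Z + 1) * Real.sqrt K₁ + (Z + 1) + (Z + 1) * Real.sqrt K₂ + K₄, by
    have : 0 ≤ K₄ := Finset.sum_nonneg fun t _ => Real.sqrt_nonneg _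
    positivity, ?_⟩
  intro F C hF k y c z hy hc hz
  have hC := hF.nonneg
  have hqk := qpow_pos hq k
  set N2 : ℕ → ℕ := fun n => (P * n + c) % q ^ k with hN2
  set τ : ℕ → ℕ := fun n => (P * n + c) / q ^ k with hτ
  have hτP : ∀ n < q ^ k, τ n ≤ P := by
    intro n hn
    refine Nat.div_le_of_le_mul ?_
    calc P * n + c ≤ P * n + P := by omega
      _ = P * (n + 1) := by ring
      _ ≤ P * q ^ k := Nat.mul_le_mul_left _ hn
      _ = q ^ k * P := mul_comm _ _
  have hZle : ∀ n < q ^ k, P * y + τ n ≤ Z := by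
    intro n hn
    have h1 := hτP n hn
    have h2 : P * y ≤ P * Y := Nat.mul_le_mul_left _ hy
    rw [hZ, mul_add, mul_one]
    omega
  have hN1 : ∀ n, P * (q ^ k * y + n) + c = q ^ k * (P * y + τ n) + N2 n := by
    intro n
    have := Nat.div_add_mod (P * n + c) (q ^ k)
    calc P * (q ^ k * y + n) + c = q ^ k * (P * y) + (P * n + c) := by ring
      _ = q ^ k * (P * y) + (q ^ k * τ n + N2 n) := by rw [← this]
      _ = _ := by ring
  -- pointwise bound
  have hpt : ∀ n < q ^ k, |F (q ^ h * (P * (q ^ k * y + n) + c) + z) - F (P * n % q ^ k)| ≤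
      C * (h + 1) + ∑ y' ∈ Finset.range (Z + 1), |dfc F q h (q ^ k * y' + N2 n) z| +
      C * (Z + 1) + ∑ y' ∈ Finset.range (Z + 1), |dfc F q k y' (N2 n)| +
      |F ((P * n % q ^ k + c) % q ^ k) - F (P * n % q ^ k)| := by
    intro n hn
    have hmem : P * y + τ n ∈ Finset.range (Z + 1) :=
      Finset.mem_range.mpr (Nat.lt_succ_of_le (hZle n hn))
    have b1 : |F z| ≤ C * (h + 1) := hF.growth h z hz
    have b2 : |dfc F q h (q ^ k * (P * y + τ n) + N2 n) z| ≤
        ∑ y' ∈ Finset.range (Z + 1), |dfc F q h (q ^ k * y' + N2 n) z| :=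
      Finset.single_le_sum (f := fun y' => |dfc F q h (q ^ k * y' + N2 n) z|)
        (fun y' _ => abs_nonneg _) hmem
    have b3 : |F (P * y + τ n)| ≤ C * (Z + 1) := by
      refine hF.growth Z _ (lt_of_le_of_lt (hZle n hn) ?_)
      exact Nat.lt_pow_self (by omega)
    have b4 : |dfc F q k (P * y + τ n) (N2 n)| ≤
        ∑ y' ∈ Finset.range (Z + 1), |dfc F q k y' (N2 n)| :=
      Finset.single_le_sum (f := fun y' => |dfc F q k y' (N2 n)|)
        (fun y' _ => abs_nonneg _) hmem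
    have e1 : (P * n % q ^ k + c) % q ^ k = N2 n := by
      rw [hN2]
      dsimp only
      rw [Nat.mod_add_mod]
    rw [e1, hN1]
    have e2 : F (q ^ h * (q ^ k * (P * y + τ n) + N2 n) + z) - F (P * n % q ^ k) =
        dfc F q h (q ^ k * (P * y + τ n) + N2 n) z + F z +
        (dfc F q k (P * y + τ n) (N2 n) + F (P * y + τ n)) +
        (F (N2 n) - F (P * n % q ^ k)) := by
      unfold dfc
      ring
    rw [e2]
    have a1 := abs_add_le (dfc F q h (q ^ k * (P * y + τ n) + N2 n) z + F z +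
        (dfc F q k (P * y + τ n) (N2 n) + F (P * y + τ n))) (F (N2 n) - F (P * n % q ^ k))
    have a2 := abs_add_le (dfc F q h (q ^ k * (P * y + τ n) + N2 n) z + F z)
        (dfc F q k (P * y + τ n) (N2 n) + F (P * y + τ n))
    have a3 := abs_add_le (dfc F q h (q ^ k * (P * y + τ n) + N2 n) z) (F z)
    have a4 := abs_add_le (dfc F q k (P * y + τ n) (N2 n)) (F (P * y + τ n))
    linarith
  refine (av_mono hpt).trans ?_
  rw [av_add, av_add, av_add, av_add, av_const hq, av_const hq]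
  rw [av_finset_sum (Finset.range (Z + 1)) q k
    (fun (y' : ℕ) (n : ℕ) => |dfc F q h (q ^ k * y' + N2 n) z|),
    av_finset_sum (Finset.range (Z + 1)) q k (fun (y' : ℕ) (n : ℕ) => |dfc F q k y' (N2 n)|)]
  have c1 : ∑ y' ∈ Finset.range (Z + 1), av q k (fun n => |dfc F q h (q ^ k * y' + N2 n) z|) ≤
      (Z + 1) * Real.sqrt K₁ * C := by
    have hterm : ∀ y' ∈ Finset.range (Z + 1),
        av q k (fun n => |dfc F q h (q ^ k * y' + N2 n) z|) ≤ Real.sqrt K₁ * C := by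
      intro y' hy'
      have hy2 : y' ≤ Z := Nat.lt_succ_iff.mp (Finset.mem_range.mp hy')
      have h1 := av_perm hq hP c k (fun s => |dfc F q h (q ^ k * y' + s) z|)
      have h2 := q10_l1 hq k _ (hK₁ F C hF k y' z hy2 hz)
      rw [Real.sqrt_mul hK₁0, Real.sqrt_sq hC] at h2
      rw [hN2]
      dsimp only at h1 ⊢
      rw [h1]
      exact h2
    refine (Finset.sum_le_sum hterm).trans (le_of_eq ?_)
    rw [Finset.sum_const, Finset.card_range, nsmul_eq_mul]
    push_cast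
    ring
  have c2 : ∑ y' ∈ Finset.range (Z + 1), av q k (fun n => |dfc F q k y' (N2 n)|) ≤
      (Z + 1) * Real.sqrt K₂ * C := by
    have hterm : ∀ y' ∈ Finset.range (Z + 1),
        av q k (fun n => |dfc F q k y' (N2 n)|) ≤ Real.sqrt K₂ * C := by
      intro y' hy'
      have hy2 : y' ≤ Z := Nat.lt_succ_iff.mp (Finset.mem_range.mp hy')
      have h1 := av_perm hq hP c k (fun s => |dfc F q k y' s|)
      have h2 := q10_l1 hq k _ (hK₂ F C hF k y' hy2)
      rw [Real.sqrt_mul hK₂0, Real.sqrt_sq hC] at h2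
      rw [hN2]
      dsimp only at h1 ⊢
      rw [h1]
      exact h2
    refine (Finset.sum_le_sum hterm).trans (le_of_eq ?_)
    rw [Finset.sum_const, Finset.card_range, nsmul_eq_mul]
    push_cast
    ring
  have c3 : av q k (fun n => |F ((P * n % q ^ k + c) % q ^ k) - F (P * n % q ^ k)|) ≤ K₄ * C := by
    have h1 := av_perm hq hP 0 k (fun s => |F ((s + c) % q ^ k) - F s|)
    simp only [add_zero] at h1
    rw [h1]
    have h2 := q10_l1 hq k _ (hK₃ c F C hF k)
    rw [Real.sqrt_mul (hK₃0 c), Real.sqrt_sq hC] at h2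
    refine h2.trans (mul_le_mul_of_nonneg_right ?_ hC)
    exact Finset.single_le_sum (f := fun t => Real.sqrt (K₃ t))
      (fun t _ => Real.sqrt_nonneg _) (Finset.mem_range.mpr (Nat.lt_succ_of_le hc))
  have e5 : (((h : ℝ) + 1) + (Z + 1) * Real.sqrt K₁ + (Z + 1) + (Z + 1) * Real.sqrt K₂ + K₄) * C =
      C * (h + 1) + (Z + 1) * Real.sqrt K₁ * C + C * (Z + 1) + (Z + 1) * Real.sqrt K₂ * C +
        K₄ * C := by ring
  rw [e5]
  linarith

theorem drop_close {q m d : ℕ} (hq : 2 ≤ q) {e : ℕ → Fin d → ℤ} {C : ℝ} (he : QV q m e C) {P : ℕ}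
    (hP : P.Coprime q) (h Y : ℕ) : ∃ K : ℝ, 0 ≤ K ∧ ∀ k y c z : ℕ, y ≤ Y → c ≤ P → z < q ^ h →
      ∀ i : Fin d, av q k (fun n => |((e (q ^ h * (P * (q ^ k * y + n) + c) + z) i : ℤ) : ℝ) -
        ((e (P * n % q ^ k) i : ℤ) : ℝ)|) ≤ K := by
  obtain ⟨K, hK0, hK⟩ := q10_real (m := m) hq hP h Y
  exact ⟨K * C, mul_nonneg hK0 he.nonneg, fun k y c z hy hc hz i =>
    hK _ C (q10_coord he i) k y c z hy hc hz⟩

end Pool.Agent.Lib.MP_3e612f_nt.QA
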