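import Pool.Agent.Lib.MP_3e612f_nt.MTop
import Pool.Agent.Lib.MP_3e612f_nt.QDrop

/-!
A bounded change of the argument changes the values by a bounded amount in the mean.
-/

set_option autoImplicit false

namespace Pool.Agent.Lib.MP_3e612f_nt.MB

open Filter Topology
open Pool.Agent.Lib.MP_3e612f_nt.QA

theorem wi_four (a b c d : ℝ) :
    (a - b + c - d) ^ 2 ≤ 4 * (a ^ 2 + b ^ 2 + c ^ 2 + d ^ 2) := by
  nlinarith [sq_nonneg (a + b), sq_nonneg (a - c), sq_nonneg (a + d),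
    sq_nonneg (b + c), sq_nonneg (b - d), sq_nonneg (c + d)]

/-- the defect with bounded low digits, on a `q`-adic block -/
theorem wi_dfc_q {q m : ℕ} (hq : 2 ≤ q) {P : ℕ} (hP : P.Coprime q) (h J Y : ℕ) :
    ∃ K : ℝ, 0 ≤ K ∧ ∀ (F : ℕ → ℝ) (C : ℝ), QR q m F C → ∀ k y t z : ℕ, y ≤ Y → t ≤ J →
      z < q ^ h → av q k (fun n => dfc F q h (P * (q ^ k * y + n) + t) z ^ 2) ≤ K * C ^ 2 := by
  classical
  set Z : ℕ := P * (Y + 1) + J + 1 with hZ
  obtain ⟨K₁, hK₁0, hK₁⟩ := defect_sq_right (q := q) (m := m) hq h Z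
  refine ⟨(Z + 1) * K₁, by positivity, ?_⟩
  intro F C hF k y t z hy ht hz
  have hqk := qpow_pos hq k
  set N3 : ℕ → ℕ := fun n => (P * n + t) % q ^ k with hN3
  set τ' : ℕ → ℕ := fun n => (P * n + t) / q ^ k with hτ'
  have hτP' : ∀ n < q ^ k, τ' n ≤ P + J + 1 := by
    intro n hn
    refine Nat.div_le_of_le_mul ?_
    calc P * n + t ≤ P * q ^ k + J * 1 := by
          have := Nat.mul_le_mul_left P hn.le
          omega
      _ ≤ P * q ^ k + J * q ^ k := by
          have := Nat.mul_le_mul_left J (Nat.succ_le_of_lt hqk)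
          omega
      _ ≤ q ^ k * (P + J + 1) := by
          have : q ^ k * (P + J + 1) = P * q ^ k + J * q ^ k + q ^ k := by ring
          omega
  have hPy : P * y ≤ P * Y := Nat.mul_le_mul_left _ hy
  have hPY : P * (Y + 1) = P * Y + P := by ring
  have hZle' : ∀ n < q ^ k, P * y + τ' n ≤ Z := by
    intro n hn
    have h1 := hτP' n hn
    omega
  have hN1' : ∀ n, P * (q ^ k * y + n) + t = q ^ k * (P * y + τ' n) + N3 n := by
    intro n
    have := Nat.div_add_mod (P * n + t) (q ^ k)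
    calc P * (q ^ k * y + n) + t = q ^ k * (P * y) + (P * n + t) := by ring
      _ = q ^ k * (P * y) + (q ^ k * τ' n + N3 n) := by rw [← this]
      _ = _ := by ring
  have hpt : ∀ n < q ^ k, dfc F q h (P * (q ^ k * y + n) + t) z ^ 2 ≤
      ∑ y' ∈ Finset.range (Z + 1), dfc F q h (q ^ k * y' + N3 n) z ^ 2 := by
    intro n hn
    rw [hN1']
    exact Finset.single_le_sum (f := fun y' => dfc F q h (q ^ k * y' + N3 n) z ^ 2)
      (fun y' _ => sq_nonneg _) (Finset.mem_range.mpr (Nat.lt_succ_of_le (hZle' n hn)))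
  refine (av_mono hpt).trans ?_
  rw [av_finset_sum (Finset.range (Z + 1)) q k
    (fun (y' : ℕ) (n : ℕ) => dfc F q h (q ^ k * y' + N3 n) z ^ 2)]
  have hterm : ∀ y' ∈ Finset.range (Z + 1),
      av q k (fun n => dfc F q h (q ^ k * y' + N3 n) z ^ 2) ≤ K₁ * C ^ 2 := by
    intro y' hy'
    have hy2 : y' ≤ Z := Nat.lt_succ_iff.mp (Finset.mem_range.mp hy')
    have h1 := av_perm hq hP t k (fun s => dfc F q h (q ^ k * y' + s) z ^ 2)
    rw [hN3]
    dsimp only at h1 ⊢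
    rw [h1]
    exact hK₁ F C hF k y' z hy2 hz
  refine (Finset.sum_le_sum hterm).trans (le_of_eq ?_)
  rw [Finset.sum_const, Finset.card_range, nsmul_eq_mul]
  push_cast
  ring

/-- the defect with bounded low digits, on a dyadic block -/
theorem wi_dfc {q m : ℕ} (hq : 2 ≤ q) {P : ℕ} (hP : P.Coprime q) (h J Y : ℕ) :
    ∃ K : ℝ, 0 ≤ K ∧ ∀ (F : ℕ → ℝ) (C : ℝ), QR q m F C → ∀ k y t z : ℕ, y ≤ Y → t ≤ J →
      z < q ^ h → av 2 k (fun n => dfc F q h (P * (2 ^ k * y + n) + t) z ^ 2) ≤ K * C ^ 2 := by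
  obtain ⟨K, hK0, hK⟩ := wi_dfc_q (q := q) (m := m) hq hP h J (q * (Y + 1))
  refine ⟨(q + 1) * K, by positivity, ?_⟩
  intro F C hF k y t z hy ht hz
  have h1 := dy_le hq k y (f := fun n => dfc F q h (P * n + t) z ^ 2) (fun n => sq_nonneg _)
  refine h1.trans ?_
  obtain ⟨h2, h3⟩ := dy_card hq k y
  have hterm : ∀ y' ∈ Finset.Icc (2 ^ k * y / q ^ lg q k) (2 ^ k * (y + 1) / q ^ lg q k),
      av q (lg q k) (fun n => (fun n => dfc F q h (P * n + t) z ^ 2)
        (q ^ lg q k * y' + n)) ≤ K * C ^ 2 := by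
    intro y' hy'
    have hy2 : y' ≤ q * (Y + 1) := by
      have h4 := (Finset.mem_Icc.mp hy').2
      have h5 : q * (y + 1) ≤ q * (Y + 1) := Nat.mul_le_mul_left _ (by omega)
      omega
    exact hK F C hF (lg q k) y' t z hy2 ht hz
  refine (Finset.sum_le_sum hterm).trans ?_
  rw [Finset.sum_const, nsmul_eq_mul, mul_assoc]
  have h6 : (((Finset.Icc (2 ^ k * y / q ^ lg q k) (2 ^ k * (y + 1) / q ^ lg q k)).card : ℕ) : ℝ) ≤
      (q : ℝ) + 1 := by exact_mod_cast h2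
  exact mul_le_mul_of_nonneg_right h6 (by positivity)

/-- W4a: a bounded change of the argument changes the values by a bounded amount in the mean -/
theorem inc_l1 {q m d : ℕ} (hq : 2 ≤ q) {e : ℕ → Fin d → ℤ} {C : ℝ} (he : QV q m e C) {P : ℕ}
    (hP : P.Coprime q) (h Y J : ℕ) : ∃ K : ℝ, 0 ≤ K ∧ ∀ k y c z j : ℕ, y ≤ Y → c ≤ P → z < q ^ h →
      j ≤ J → ∀ i : Fin d, av 2 k (fun n => |((e (sd q h P c z (2 ^ k * y + n + j)) i : ℤ) : ℝ) -
        ((e (sd q h P c z (2 ^ k * y + n)) i : ℤ) : ℝ)|) ≤ K := by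
  obtain ⟨K₁, hK₁0, hK₁⟩ := wi_dfc (q := q) (m := m) hq hP h (P * J + P) Y
  obtain ⟨K₂, hK₂0, hK₂⟩ := top_shift (q := q) (m := m) hq hP (P * J + P) Y
  refine ⟨Real.sqrt (4 * (K₁ + K₁ + K₂ + K₂) * C ^ 2), Real.sqrt_nonneg _, ?_⟩
  intro k y c z j hy hc hz hj i
  have hF := q10_coord he i
  set F : ℕ → ℝ := fun n => ((e n i : ℤ) : ℝ) with hFdef
  have hPj : P * j + c ≤ P * J + P := by
    have := Nat.mul_le_mul_left P hj
    omega
  have hc2 : c ≤ P * J + P := by omega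
  have h1 := hK₁ F C hF k y (P * j + c) z hy hPj hz
  have h2 := hK₁ F C hF k y c z hy hc2 hz
  have h3 := hK₂ F C hF k 0 y (P * j + c) (Nat.zero_le _) hy hPj
  have h4 := hK₂ F C hF k 0 y c (Nat.zero_le _) hy hc2
  simp only [pow_zero, Nat.div_one] at h3 h4
  refine q10_l1 (le_refl 2) k _ ?_
  calc av 2 k (fun n => (((e (sd q h P c z (2 ^ k * y + n + j)) i : ℤ) : ℝ) -
        ((e (sd q h P c z (2 ^ k * y + n)) i : ℤ) : ℝ)) ^ 2)
      ≤ av 2 k (fun n => 4 * (dfc F q h (P * (2 ^ k * y + n) + (P * j + c)) z ^ 2 +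
          dfc F q h (P * (2 ^ k * y + n) + c) z ^ 2 +
          (F (P * (2 ^ k * y + n) + (P * j + c)) - F (P * (2 ^ k * y + n))) ^ 2 +
          (F (P * (2 ^ k * y + n) + c) - F (P * (2 ^ k * y + n))) ^ 2)) := by
        refine av_mono fun n _ => ?_
        have e1 : sd q h P c z (2 ^ k * y + n + j) =
            q ^ h * (P * (2 ^ k * y + n) + (P * j + c)) + z := by
          unfold sd
          ring
        have e2 : sd q h P c z (2 ^ k * y + n) = q ^ h * (P * (2 ^ k * y + n) + c) + z := rfl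
        have e3 : ((e (sd q h P c z (2 ^ k * y + n + j)) i : ℤ) : ℝ) -
            ((e (sd q h P c z (2 ^ k * y + n)) i : ℤ) : ℝ) =
            dfc F q h (P * (2 ^ k * y + n) + (P * j + c)) z -
            dfc F q h (P * (2 ^ k * y + n) + c) z +
            (F (P * (2 ^ k * y + n) + (P * j + c)) - F (P * (2 ^ k * y + n))) -
            (F (P * (2 ^ k * y + n) + c) - F (P * (2 ^ k * y + n))) := by
          rw [e1, e2]
          unfold dfc
          simp only [hFdef]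
          ring
        rw [e3]
        exact wi_four _ _ _ _
    _ = 4 * (av 2 k (fun n => dfc F q h (P * (2 ^ k * y + n) + (P * j + c)) z ^ 2) +
          av 2 k (fun n => dfc F q h (P * (2 ^ k * y + n) + c) z ^ 2) +
          av 2 k (fun n => (F (P * (2 ^ k * y + n) + (P * j + c)) - F (P * (2 ^ k * y + n))) ^ 2) +
          av 2 k (fun n => (F (P * (2 ^ k * y + n) + c) - F (P * (2 ^ k * y + n))) ^ 2)) := by
        rw [av_const_mul, av_add, av_add, av_add]
    _ ≤ 4 * (K₁ + K₁ + K₂ + K₂) * C ^ 2 := by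
        have e5 : 4 * (K₁ + K₁ + K₂ + K₂) * C ^ 2 =
            4 * (K₁ * C ^ 2 + K₁ * C ^ 2 + K₂ * C ^ 2 + K₂ * C ^ 2) := by ring
        rw [e5]
        linarith

end Pool.Agent.Lib.MP_3e612f_nt.MB
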