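import Pool.Agent.Lib.MP_3e612f_nt.MDefs
import Pool.Agent.Lib.MP_3e612f_nt.QExt
import Pool.Agent.Lib.MP_3e612f_nt.MSmo
import Pool.Agent.Lib.MP_3e612f_nt.WBox
import Pool.Agent.Lib.MP_3e612f_nt.WInc

/-!
Irrational rotations (task W4, helper39).
-/

set_option autoImplicit false

namespace Pool.Agent.Lib.MP_3e612f_nt.MB

open Filter Topology
open Pool.Agent.Lib.MP_3e612f_nt.QA

/-! ### complex averages -/

theorem w4_avc_norm (q k : ℕ) (u : ℕ → ℂ) : ‖avc q k u‖ ≤ av q k (fun n => ‖u n‖) := by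
  unfold avc av
  rw [norm_div, norm_pow, Complex.norm_natCast]
  exact div_le_div_of_nonneg_right (norm_sum_le _ _) (by positivity)

theorem w4_avc_sub (q k : ℕ) (u v : ℕ → ℂ) :
    avc q k (fun n => u n - v n) = avc q k u - avc q k v := by
  unfold avc
  rw [Finset.sum_sub_distrib, sub_div]

theorem w4_avc_mul (q k : ℕ) (c : ℂ) (u : ℕ → ℂ) :
    avc q k (fun n => c * u n) = c * avc q k u := by
  unfold avc
  rw [← Finset.mul_sum, mul_div_assoc]

theorem w4_avc_sum {β : Type*} (s : Finset β) (q k : ℕ) (G : β → ℕ → ℂ) :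
    avc q k (fun n => ∑ b ∈ s, G b n) = ∑ b ∈ s, avc q k (G b) := by
  unfold avc
  rw [Finset.sum_comm, Finset.sum_div]

theorem w4_avc_le {q : ℕ} (hq : 2 ≤ q) {k : ℕ} {u : ℕ → ℂ} {B : ℝ} (h : ∀ n, ‖u n‖ ≤ B) :
    ‖avc q k u‖ ≤ B :=
  (w4_avc_norm q k u).trans (av_le hq fun n _ => h n)

/-- shift of the interval -/
theorem w4_shift (k s : ℕ) {u : ℕ → ℂ} (hu : ∀ n, ‖u n‖ ≤ 1) :
    ‖avc 2 k (fun n => u (n + s)) - avc 2 k u‖ ≤ 2 * s / 2 ^ k := by
  have h1 : ∑ n ∈ Finset.range (2 ^ k + s), u n =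
      ∑ n ∈ Finset.range (2 ^ k), u n + ∑ n ∈ Finset.range s, u (2 ^ k + n) :=
    Finset.sum_range_add _ _ _
  have h2 : ∑ n ∈ Finset.range (s + 2 ^ k), u n =
      ∑ n ∈ Finset.range s, u n + ∑ n ∈ Finset.range (2 ^ k), u (s + n) :=
    Finset.sum_range_add _ _ _
  rw [add_comm s (2 ^ k), h1] at h2
  have h3 : ∑ n ∈ Finset.range (2 ^ k), u (n + s) = ∑ n ∈ Finset.range (2 ^ k), u (s + n) :=
    Finset.sum_congr rfl fun n _ => by rw [add_comm]
  have h4 : ∑ n ∈ Finset.range (2 ^ k), u (n + s) - ∑ n ∈ Finset.range (2 ^ k), u n =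
      ∑ n ∈ Finset.range s, u (2 ^ k + n) - ∑ n ∈ Finset.range s, u n := by
    rw [h3]
    linear_combination -h2
  unfold avc
  rw [← sub_div, h4, norm_div]
  have h5 : ‖((2 : ℕ) : ℂ) ^ k‖ = (2 : ℝ) ^ k := by
    rw [norm_pow, Complex.norm_natCast]
    norm_num
  rw [h5]
  refine div_le_div_of_nonneg_right ?_ (by positivity)
  have h6 : ∀ v : ℕ → ℂ, (∀ n, ‖v n‖ ≤ 1) → ‖∑ n ∈ Finset.range s, v n‖ ≤ s := by
    intro v hv
    refine (norm_sum_le _ _).trans ((Finset.sum_le_sum fun n _ => hv n).trans ?_)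
    simp
  refine (norm_sub_le _ _).trans ?_
  have := h6 _ (fun n => hu (2 ^ k + n))
  have := h6 _ hu
  linarith

/-- averages of a rotation -/
theorem w4_rot {ρ : ℂ} (hρ : ‖ρ‖ = 1) (hρ1 : ρ ≠ 1) {ε : ℝ} (hε : 0 < ε) :
    ∃ J : ℕ, 1 ≤ J ∧ ‖(∑ j ∈ Finset.range J, ρ ^ j) / J‖ ≤ ε := by
  have h0 : 0 < ‖ρ - 1‖ := norm_pos_iff.mpr (sub_ne_zero.mpr hρ1)
  obtain ⟨J, hJ⟩ := exists_nat_ge (2 / (ε * ‖ρ - 1‖) + 1)
  have hJ0 : (1 : ℝ) ≤ J := by
    have : 0 < 2 / (ε * ‖ρ - 1‖) := by positivity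
    linarith
  refine ⟨J, by exact_mod_cast hJ0, ?_⟩
  rw [geom_sum_eq hρ1, norm_div, norm_div, Complex.norm_natCast]
  have h1 : ‖ρ ^ J - 1‖ ≤ 2 := by
    refine (norm_sub_le _ _).trans ?_
    rw [norm_pow, hρ, one_pow, norm_one]
    norm_num
  have hJpos : (0 : ℝ) < J := by linarith
  rw [div_div, div_le_iff₀ (by positivity)]
  refine h1.trans ?_
  have h2 : 2 / (ε * ‖ρ - 1‖) ≤ J := by linarith
  rw [div_le_iff₀ (by positivity)] at h2
  calc (2 : ℝ) ≤ J * (ε * ‖ρ - 1‖) := h2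
    _ = ε * (‖ρ - 1‖ * J) := by ring

section several

variable {ι : Type*} [Fintype ι] [DecidableEq ι] {q : ι → ℕ} {m : ℕ} {d : ι → ℕ}
  {e : ∀ i, ℕ → Fin (d i) → ℤ} {C : ℝ}

/-- the `l¹` norm -/
noncomputable def w4_l1 (x : ∀ i, Fin (d i) → ℤ) : ℝ := ∑ i, ∑ a, |((x i a : ℤ) : ℝ)|

theorem w4_l1_nonneg (x : ∀ i, Fin (d i) → ℤ) : 0 ≤ w4_l1 x :=
  Finset.sum_nonneg fun _ _ => Finset.sum_nonneg fun _ _ => abs_nonneg _

/-- slowly varying functions are Lipschitz -/
theorem w4_slow_lip {δ : ℝ} {G : (∀ i, Fin (d i) → ℤ) → ℝ} (hG : SlowP δ G)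
    (x y : ∀ i, Fin (d i) → ℤ) : |G y - G x| ≤ δ * w4_l1 (y - x) := by
  have key : ∀ (n : ℕ) (x : ∀ i, Fin (d i) → ℤ), ∑ i, ∑ a, (y i a - x i a).natAbs = n →
      |G y - G x| ≤ δ * n := by
    intro n
    induction n with
    | zero =>
      intro x hx
      have h1 : y = x := by
        funext i a
        have h2 : ∀ i ∈ Finset.univ, ∑ a, (y i a - x i a).natAbs = 0 :=
          Finset.sum_eq_zero_iff.mp hx
        have h3 : ∀ a ∈ Finset.univ, (y i a - x i a).natAbs = 0 :=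
          Finset.sum_eq_zero_iff.mp (h2 i (Finset.mem_univ i))
        have h4 := h3 a (Finset.mem_univ a)
        omega
      rw [h1]
      simp
    | succ n ih =>
      intro x hx
      have h1 : ∃ i a, y i a ≠ x i a := by
        by_contra hcon
        push Not at hcon
        have h2 : ∑ i, ∑ a, (y i a - x i a).natAbs = 0 := by
          apply Finset.sum_eq_zero
          intro i _
          apply Finset.sum_eq_zero
          intro a _
          rw [hcon i a]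
          simp
        omega
      obtain ⟨i₀, a₀, hne⟩ := h1
      have hone : ∑ i, ∑ a, (Pi.single i₀ (Pi.single a₀ (1 : ℕ)) :
          ∀ i, Fin (d i) → ℕ) i a = 1 := by
        rw [Finset.sum_eq_single i₀]
        · rw [Pi.single_eq_same, Finset.sum_eq_single a₀]
          · simp
          · intro a _ ha
            rw [Pi.single_eq_of_ne ha]
          · intro h2
            exact absurd (Finset.mem_univ _) h2
        · intro i _ hi
          rw [Pi.single_eq_of_ne hi]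
          simp
        · intro h2
          exact absurd (Finset.mem_univ _) h2
      rcases lt_or_gt_of_ne hne with hlt | hgt
      · -- `y < x`
        set x' : ∀ i, Fin (d i) → ℤ := x - Pi.single i₀ (Pi.single a₀ 1) with hx'
        have hxx : x = x' + Pi.single i₀ (Pi.single a₀ 1) := by
          rw [hx']
          abel
        have hstep : |G x - G x'| ≤ δ := by
          conv_lhs => rw [hxx]
          exact hG.2 x' i₀ a₀
        have hpt : ∀ i a, (y i a - x i a).natAbs = (y i a - x' i a).natAbs +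
            (Pi.single i₀ (Pi.single a₀ (1 : ℕ)) : ∀ i, Fin (d i) → ℕ) i a := by
          intro i a
          have h2 : x' i a = x i a -
              (Pi.single i₀ (Pi.single a₀ (1 : ℤ)) : ∀ i, Fin (d i) → ℤ) i a := rfl
          rw [h2]
          by_cases hi : i = i₀
          · subst hi
            rw [Pi.single_eq_same, Pi.single_eq_same]
            by_cases ha : a = a₀
            · subst ha
              rw [Pi.single_eq_same, Pi.single_eq_same]
              omega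
            · rw [Pi.single_eq_of_ne ha, Pi.single_eq_of_ne ha]
              simp
          · rw [Pi.single_eq_of_ne hi, Pi.single_eq_of_ne hi]
            simp
        have hsum : ∑ i, ∑ a, (y i a - x' i a).natAbs = n := by
          have h3 : ∑ i, ∑ a, (y i a - x i a).natAbs =
              ∑ i, ∑ a, (y i a - x' i a).natAbs + ∑ i, ∑ a, (Pi.single i₀
                (Pi.single a₀ (1 : ℕ)) : ∀ i, Fin (d i) → ℕ) i a := by
            rw [← Finset.sum_add_distrib]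
            apply Finset.sum_congr rfl
            intro i _
            rw [← Finset.sum_add_distrib]
            exact Finset.sum_congr rfl fun a _ => hpt i a
          rw [hx, hone] at h3
          omega
        have h5 := ih x' hsum
        calc |G y - G x| ≤ |G y - G x'| + |G x' - G x| := abs_sub_le _ _ _
          _ ≤ δ * n + δ := by
              rw [abs_sub_comm (G x') (G x)]
              exact add_le_add h5 hstep
          _ = δ * ((n + 1 : ℕ) : ℝ) := by push_cast; ring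
      · -- `x < y`
        set x' : ∀ i, Fin (d i) → ℤ := x + Pi.single i₀ (Pi.single a₀ 1) with hx'
        have hstep : |G x' - G x| ≤ δ := hG.2 x i₀ a₀
        have hpt : ∀ i a, (y i a - x i a).natAbs = (y i a - x' i a).natAbs +
            (Pi.single i₀ (Pi.single a₀ (1 : ℕ)) : ∀ i, Fin (d i) → ℕ) i a := by
          intro i a
          have h2 : x' i a = x i a +
              (Pi.single i₀ (Pi.single a₀ (1 : ℤ)) : ∀ i, Fin (d i) → ℤ) i a := rfl
          rw [h2]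
          by_cases hi : i = i₀
          · subst hi
            rw [Pi.single_eq_same, Pi.single_eq_same]
            by_cases ha : a = a₀
            · subst ha
              rw [Pi.single_eq_same, Pi.single_eq_same]
              omega
            · rw [Pi.single_eq_of_ne ha, Pi.single_eq_of_ne ha]
              simp
          · rw [Pi.single_eq_of_ne hi, Pi.single_eq_of_ne hi]
            simp
        have hsum : ∑ i, ∑ a, (y i a - x' i a).natAbs = n := by
          have h3 : ∑ i, ∑ a, (y i a - x i a).natAbs =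
              ∑ i, ∑ a, (y i a - x' i a).natAbs + ∑ i, ∑ a, (Pi.single i₀
                (Pi.single a₀ (1 : ℕ)) : ∀ i, Fin (d i) → ℕ) i a := by
            rw [← Finset.sum_add_distrib]
            apply Finset.sum_congr rfl
            intro i _
            rw [← Finset.sum_add_distrib]
            exact Finset.sum_congr rfl fun a _ => hpt i a
          rw [hx, hone] at h3
          omega
        have h5 := ih x' hsum
        calc |G y - G x| ≤ |G y - G x'| + |G x' - G x| := abs_sub_le _ _ _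
          _ ≤ δ * n + δ := add_le_add h5 hstep
          _ = δ * ((n + 1 : ℕ) : ℝ) := by push_cast; ring
  have h1 := key _ x rfl
  refine h1.trans (le_of_eq ?_)
  congr 1
  unfold w4_l1
  push_cast
  apply Finset.sum_congr rfl
  intro i _
  apply Finset.sum_congr rfl
  intro a _
  rw [Pi.sub_apply, Pi.sub_apply, Nat.cast_natAbs]
  push_cast
  rfl

/-- averages over pairs of shifts -/
noncomputable def w4_psi (e : ∀ i, ℕ → Fin (d i) → ℤ) (L : ℕ)
    (Ψ : (∀ i, Fin (d i) → ℤ) → (∀ i, Fin (d i) → ℤ) → ℝ) (x x' : ∀ i, Fin (d i) → ℤ) : ℝ :=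
  (∑ v ∈ box d L, (∑ v' ∈ box d L, Ψ (x + lamP e v) (x' + lamP e v')) / (box d L).card) /
    (box d L).card

theorem w4_lamP_add {w : ∀ i, Fin (d i) → ℤ} (hw : ∀ i, w i ∈ Lam (e i))
    (v : ∀ i, Fin (d i) → ℤ) : lamP e (w + v) = w + lamP e v := by
  funext i
  unfold lamP
  rw [Pi.add_apply, Pi.add_apply]
  exact lamv_add (hw i) (v i)

theorem w4_box_pos {L : ℕ} (hL : 1 ≤ L) : (0 : ℝ) < (box d L).card := by
  have : 0 < (box d L).card := by
    apply Finset.card_pos.mpr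
    refine ⟨0, ?_⟩
    rw [m27_mem_box]
    intro i a
    simp
    omega
  exact_mod_cast this

theorem w4_avg_abs {β : Type*} {B : Finset β} (hB : (0 : ℝ) < B.card) {f : β → ℝ} {c : ℝ}
    (hf : ∀ b ∈ B, |f b| ≤ c) : |(∑ b ∈ B, f b) / B.card| ≤ c := by
  rw [abs_div, abs_of_pos hB, div_le_iff₀ hB]
  refine (Finset.abs_sum_le_sum_abs _ _).trans ?_
  refine (Finset.sum_le_sum hf).trans (le_of_eq ?_)
  rw [Finset.sum_const, nsmul_eq_mul, mul_comm]

theorem w4_psi_abs {L : ℕ} (hL : 1 ≤ L)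
    {Ψ : (∀ i, Fin (d i) → ℤ) → (∀ i, Fin (d i) → ℤ) → ℝ} (hΨ : ∀ x x', |Ψ x x'| ≤ 1)
    (x x' : ∀ i, Fin (d i) → ℤ) : |w4_psi e L Ψ x x'| ≤ 1 :=
  w4_avg_abs (w4_box_pos hL) fun _ _ => w4_avg_abs (w4_box_pos hL) fun _ _ => hΨ _ _

theorem w4_psi_left {L : ℕ} (hL : 1 ≤ L)
    {Ψ : (∀ i, Fin (d i) → ℤ) → (∀ i, Fin (d i) → ℤ) → ℝ} (hΨ : ∀ x x', |Ψ x x'| ≤ 1)
    (x x' : ∀ i, Fin (d i) → ℤ) {w : ∀ i, Fin (d i) → ℤ} (hw : ∀ i, w i ∈ Lam (e i)) :
    |w4_psi e L Ψ (x + w) x' - w4_psi e L Ψ x x'| ≤ 2 / L * w4_l1 w := by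
  set g : (∀ i, Fin (d i) → ℤ) → ℝ := fun a =>
    (∑ v' ∈ box d L, Ψ (x + lamP e a) (x' + lamP e v')) / (box d L).card with hg
  have hg1 : ∀ a, |g a| ≤ 1 := fun a => w4_avg_abs (w4_box_pos hL) fun _ _ => hΨ _ _
  have h1 := w4_slow_lip (smoP_slow hL hg1) 0 w
  rw [sub_zero] at h1
  have e1 : smoP L g w = w4_psi e L Ψ (x + w) x' := by
    unfold smoP w4_psi
    congr 1
    apply Finset.sum_congr rfl
    intro v _
    rw [hg]
    dsimp only
    rw [w4_lamP_add hw, ← add_assoc]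
  have e2 : smoP L g 0 = w4_psi e L Ψ x x' := by
    unfold smoP w4_psi
    congr 1
    apply Finset.sum_congr rfl
    intro v _
    rw [zero_add]
  rw [e1, e2] at h1
  exact h1

theorem w4_psi_swap (L : ℕ) (Ψ : (∀ i, Fin (d i) → ℤ) → (∀ i, Fin (d i) → ℤ) → ℝ)
    (x x' : ∀ i, Fin (d i) → ℤ) :
    w4_psi e L Ψ x x' = w4_psi e L (fun a b => Ψ b a) x' x := by
  unfold w4_psi
  rw [← Finset.sum_div, ← Finset.sum_div, Finset.sum_comm]

theorem w4_psi_lip {L : ℕ} (hL : 1 ≤ L)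
    {Ψ : (∀ i, Fin (d i) → ℤ) → (∀ i, Fin (d i) → ℤ) → ℝ} (hΨ : ∀ x x', |Ψ x x'| ≤ 1)
    (x x' y y' : ∀ i, Fin (d i) → ℤ) (hw : ∀ i, y i - x i ∈ Lam (e i))
    (hw' : ∀ i, y' i - x' i ∈ Lam (e i)) :
    |w4_psi e L Ψ y y' - w4_psi e L Ψ x x'| ≤ 2 / L * (w4_l1 (y - x) + w4_l1 (y' - x')) := by
  have h1 := w4_psi_left hL hΨ x y' (w := y - x) hw
  have h2 := w4_psi_left (Ψ := fun a b => Ψ b a) hL (fun a b => hΨ b a) x' x (w := y' - x') hw'
  rw [add_sub_cancel] at h1 h2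
  have h3 : |w4_psi e L Ψ x y' - w4_psi e L Ψ x x'| ≤ 2 / L * w4_l1 (y' - x') := by
    rw [w4_psi_swap L Ψ x y', w4_psi_swap L Ψ x x']
    exact h2
  calc |w4_psi e L Ψ y y' - w4_psi e L Ψ x x'| ≤
        |w4_psi e L Ψ y y' - w4_psi e L Ψ x y'| + |w4_psi e L Ψ x y' - w4_psi e L Ψ x x'| :=
        abs_sub_le _ _ _
    _ ≤ 2 / L * w4_l1 (y - x) + 2 / L * w4_l1 (y' - x') := add_le_add h1 h3
    _ = _ := by ring

/-- the values at arguments which are congruent modulo all `q i - 1` -/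
theorem w4_mem (S : Sys q m e C) (h : ℕ) (P c z : ι → ℕ) (N j : ℕ) (i : ι) :
    EE q e h P c z (N + (∏ i, (q i - 1)) * j) i - EE q e h P c z N i ∈ Lam (e i) := by
  apply lam_mod (S.base i) (S.qv i).gap
  unfold sd
  have h1 : q i - 1 ∣ ∏ i, (q i - 1) := Finset.dvd_prod_of_mem _ (Finset.mem_univ i)
  obtain ⟨t, ht⟩ := h1
  apply Nat.ModEq.symm
  rw [Nat.modEq_iff_dvd]
  refine ⟨(q i : ℤ) ^ h * (P i * (t * j)), ?_⟩
  rw [ht]
  push_cast
  ring

theorem w4_smooth {k L : ℕ} (hL : 1 ≤ L) (X X' : ℕ → ∀ i, Fin (d i) → ℤ) (w : ℕ → ℂ)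
    {Ψ : (∀ i, Fin (d i) → ℤ) → (∀ i, Fin (d i) → ℤ) → ℝ} {ε : ℝ}
    (h : ∀ v ∈ box d L, ∀ v' ∈ box d L, ‖avc 2 k (fun n => w n *
      ((Ψ (X n) (X' n) - Ψ (X n + lamP e v) (X' n + lamP e v') : ℝ) : ℂ))‖ ≤ ε) :
    ‖avc 2 k (fun n => w n * (Ψ (X n) (X' n) : ℂ)) -
      avc 2 k (fun n => w n * (w4_psi e L Ψ (X n) (X' n) : ℂ))‖ ≤ ε := by
  have hB := w4_box_pos (d := d) hL
  set B := box d L with hBdef
  have hBc : ((B.card : ℝ) : ℂ) ≠ 0 := by
    exact_mod_cast hB.ne'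
  have e1 : ∀ n, w n * (Ψ (X n) (X' n) : ℂ) - w n * (w4_psi e L Ψ (X n) (X' n) : ℂ) =
      (((B.card : ℝ) : ℂ)⁻¹ * ((B.card : ℝ) : ℂ)⁻¹) * ∑ v ∈ B, ∑ v' ∈ B, w n *
        ((Ψ (X n) (X' n) - Ψ (X n + lamP e v) (X' n + lamP e v') : ℝ) : ℂ) := by
    intro n
    have e2 : w4_psi e L Ψ (X n) (X' n) =
        ((B.card : ℝ)⁻¹ * (B.card : ℝ)⁻¹) * ∑ v ∈ B, ∑ v' ∈ B,
          Ψ (X n + lamP e v) (X' n + lamP e v') := by
      unfold w4_psi
      rw [← Finset.sum_div, div_div, div_eq_mul_inv, mul_inv, mul_comm]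
    rw [e2]
    simp_rw [← Finset.mul_sum, Complex.ofReal_sub, Finset.sum_sub_distrib, Finset.sum_const]
    push_cast
    rw [nsmul_eq_mul, nsmul_eq_mul]
    have hBc' : (B.card : ℂ) ≠ 0 := by exact_mod_cast hB.ne'
    field_simp
  rw [← w4_avc_sub]
  simp_rw [e1]
  rw [w4_avc_mul, w4_avc_sum]
  simp_rw [w4_avc_sum]
  rw [norm_mul, norm_mul, norm_inv, Complex.norm_real, Real.norm_eq_abs, abs_of_pos hB]
  have h2 : ‖∑ v ∈ B, ∑ v' ∈ B, avc 2 k (fun n => w n *
      ((Ψ (X n) (X' n) - Ψ (X n + lamP e v) (X' n + lamP e v') : ℝ) : ℂ))‖ ≤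
      B.card * (B.card * ε) := by
    refine (norm_sum_le _ _).trans ((Finset.sum_le_sum fun v hv => (norm_sum_le _ _).trans
      (Finset.sum_le_sum fun v' hv' => h v hv v' hv')).trans (le_of_eq ?_))
    simp [Finset.sum_const, nsmul_eq_mul]
  calc _ ≤ ((B.card : ℝ)⁻¹ * (B.card : ℝ)⁻¹) * (B.card * (B.card * ε)) :=
        mul_le_mul_of_nonneg_left h2 (by positivity)
    _ = ε := by field_simp

/-- W4: irrational rotations -/
theorem tw_one (S : Sys q m e C) {P R : ι → ℕ} (hPR : Mul q m P R) {β : ℝ} (hβ : Irrational β)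
    (h Y : ℕ) {ε : ℝ} (hε : 0 < ε) :
    ∀ᶠ k : ℕ in atTop, ∀ y ≤ Y, ∀ c z c' z' : ι → ℕ, Bd q h P c z → Bd q h R c' z' →
      ∀ Ψ : (∀ i, Fin (d i) → ℤ) → (∀ i, Fin (d i) → ℤ) → ℝ, (∀ x x', |Ψ x x'| ≤ 1) →
        ‖avc 2 k (fun n => Complex.exp (2 * Real.pi * Complex.I *
            ((β * ((2 ^ k * y + n : ℕ) : ℝ) : ℝ) : ℂ)) *
          (Ψ (EE q e h P c z (2 ^ k * y + n)) (EE q e h R c' z' (2 ^ k * y + n)) : ℂ))‖ ≤ ε := by
  obtain ⟨κ, hκ, H⟩ := tv_box_w S hPR h Y (ε := ε / 3) (by positivity)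
  -- the rotation
  set M₁ : ℕ := ∏ i, (q i - 1) with hM₁
  have hM₁pos : 1 ≤ M₁ := Nat.one_le_iff_ne_zero.mpr (Finset.prod_ne_zero_iff.mpr fun i _ => by
    have := S.base i
    omega)
  set ρ : ℂ := Complex.exp (2 * Real.pi * Complex.I * ((β * (M₁ : ℝ) : ℝ) : ℂ)) with hρdef
  have hρ : ‖ρ‖ = 1 := by
    rw [hρdef]
    have e1 : 2 * (Real.pi : ℂ) * Complex.I * ((β * (M₁ : ℝ) : ℝ) : ℂ) =
        ((2 * Real.pi * (β * M₁) : ℝ) : ℂ) * Complex.I := by
      push_cast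
      ring
    rw [e1]
    exact Complex.norm_exp_ofReal_mul_I _
  have hρ1 : ρ ≠ 1 := by
    intro hcon
    rw [hρdef, Complex.exp_eq_one_iff] at hcon
    obtain ⟨n, hn⟩ := hcon
    have h2 : (2 * (Real.pi : ℂ) * Complex.I) * ((β * (M₁ : ℝ) : ℝ) : ℂ) =
        (2 * (Real.pi : ℂ) * Complex.I) * (n : ℂ) := by
      rw [hn]
      ring
    have h3 := mul_left_cancel₀ Complex.two_pi_I_ne_zero h2
    have h4 : β * M₁ = n := by exact_mod_cast h3
    have h5 : Irrational (β * (M₁ : ℕ)) := hβ.mul_natCast (by omega)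
    exact h5.ne_int n h4
  obtain ⟨J, hJ1, hJ⟩ := w4_rot hρ hρ1 (ε := ε / 6) (by positivity)
  -- the increments
  have hKP : ∀ i, ∃ K : ℝ, 0 ≤ K ∧ ∀ k y c z j : ℕ, y ≤ Y → c ≤ P i → z < q i ^ h →
      j ≤ M₁ * J → ∀ a : Fin (d i),
      av 2 k (fun n => |((e i (sd (q i) h (P i) c z (2 ^ k * y + n + j)) a : ℤ) : ℝ) -
        ((e i (sd (q i) h (P i) c z (2 ^ k * y + n)) a : ℤ) : ℝ)|) ≤ K := fun i =>
    inc_l1 (S.base i) (S.qv i) (hPR.cP i) h Y (M₁ * J)
  have hKR : ∀ i, ∃ K : ℝ, 0 ≤ K ∧ ∀ k y c z j : ℕ, y ≤ Y → c ≤ R i → z < q i ^ h →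
      j ≤ M₁ * J → ∀ a : Fin (d i),
      av 2 k (fun n => |((e i (sd (q i) h (R i) c z (2 ^ k * y + n + j)) a : ℤ) : ℝ) -
        ((e i (sd (q i) h (R i) c z (2 ^ k * y + n)) a : ℤ) : ℝ)|) ≤ K := fun i =>
    inc_l1 (S.base i) (S.qv i) (hPR.cR i) h Y (M₁ * J)
  choose KP hKP0 hKP using hKP
  choose KR hKR0 hKR using hKR
  set K : ℝ := ∑ i, (d i : ℝ) * KP i + ∑ i, (d i : ℝ) * KR i with hK
  have hK0 : 0 ≤ K := add_nonneg
    (Finset.sum_nonneg fun i _ => mul_nonneg (Nat.cast_nonneg _) (hKP0 i))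
    (Finset.sum_nonneg fun i _ => mul_nonneg (Nat.cast_nonneg _) (hKR0 i))
  -- the choice of `k`
  have hsqrt : Tendsto (fun k : ℕ => κ * Real.sqrt ((k : ℝ) + 1)) atTop atTop := by
    apply Filter.Tendsto.const_mul_atTop hκ
    exact Real.tendsto_sqrt_atTop.comp
      (tendsto_atTop_add_const_right _ _ tendsto_natCast_atTop_atTop)
  have hlarge := hsqrt.eventually_ge_atTop (12 * K / ε + 2)
  have hpow : Tendsto (fun k : ℕ => (2 : ℝ) ^ k) atTop atTop :=
    tendsto_pow_atTop_atTop_of_one_lt (by norm_num)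
  have hlarge2 := hpow.eventually_ge_atTop (12 * (M₁ * J : ℕ) / ε)
  filter_upwards [H, hlarge, hlarge2] with k hk hk1 hk2
  intro y hy c z c' z' hb hb' Ψ hΨ
  set L : ℕ := ⌊κ * Real.sqrt ((k : ℝ) + 1)⌋₊ with hL
  have hLle : (L : ℝ) ≤ κ * Real.sqrt (k + 1) := Nat.floor_le (by positivity)
  have hLge : κ * Real.sqrt (k + 1) - 1 ≤ L := (Nat.sub_one_lt_floor _).le
  have h12 : 0 ≤ 12 * K / ε := by positivity
  have hL1r : (1 : ℝ) ≤ L := by linarith
  have hL1 : 1 ≤ L := by exact_mod_cast hL1r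
  have hLK : 2 / (L : ℝ) * K ≤ ε / 6 := by
    have h1 : 12 * K / ε ≤ L := by linarith
    rw [div_le_iff₀ hε] at h1
    rw [div_mul_eq_mul_div, div_le_iff₀ (by linarith)]
    linarith
  have h2k : 2 * ((M₁ * J : ℕ) : ℝ) / 2 ^ k ≤ ε / 6 := by
    rw [div_le_iff₀ hε] at hk2
    rw [div_le_iff₀ (by positivity)]
    linarith
  set X : ℕ → ∀ i, Fin (d i) → ℤ := fun n => EE q e h P c z (2 ^ k * y + n) with hX
  set X' : ℕ → ∀ i, Fin (d i) → ℤ := fun n => EE q e h R c' z' (2 ^ k * y + n) with hX'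
  set w : ℕ → ℂ := fun n => Complex.exp (2 * Real.pi * Complex.I *
    ((β * ((2 ^ k * y + n : ℕ) : ℝ) : ℝ) : ℂ)) with hw
  have hw1 : ∀ n, ‖w n‖ = 1 := by
    intro n
    rw [hw]
    dsimp only
    have e1 : 2 * (Real.pi : ℂ) * Complex.I * ((β * ((2 ^ k * y + n : ℕ) : ℝ) : ℝ) : ℂ) =
        ((2 * Real.pi * (β * ((2 ^ k * y + n : ℕ) : ℝ)) : ℝ) : ℂ) * Complex.I := by
      push_cast
      ring
    rw [e1]
    exact Complex.norm_exp_ofReal_mul_I _
  have hwj : ∀ n j, w (n + M₁ * j) = ρ ^ j * w n := by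
    intro n j
    rw [hw, hρdef, ← Complex.exp_nat_mul]
    dsimp only
    rw [← Complex.exp_add]
    congr 1
    push_cast
    ring
  -- smoothing
  have hsm := w4_smooth (e := e) (k := k) (Ψ := Ψ) (ε := ε / 3) hL1 X X' w (by
    intro v hv v' hv'
    rw [m27_mem_box] at hv hv'
    exact hk y hy c z c' z' hb hb' L hLle v v' (fun i a => ⟨(hv i a).1, (hv i a).2.le⟩)
      (fun i a => ⟨(hv' i a).1, (hv' i a).2.le⟩) β Ψ hΨ)
  set G := w4_psi e L Ψ with hG
  set u : ℕ → ℂ := fun n => w n * (G (X n) (X' n) : ℂ) with hu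
  have hu1 : ∀ n, ‖u n‖ ≤ 1 := by
    intro n
    rw [hu]
    dsimp only
    rw [norm_mul, hw1, one_mul, Complex.norm_real, Real.norm_eq_abs]
    exact w4_psi_abs hL1 hΨ _ _
  -- the shifts
  have hj : ∀ j < J, ‖avc 2 k u - ρ ^ j * avc 2 k u‖ ≤ ε / 3 := by
    intro j hj
    have hMj : M₁ * j ≤ M₁ * J := Nat.mul_le_mul_left _ hj.le
    have s1 := w4_shift k (M₁ * j) hu1
    have s2 : ‖avc 2 k (fun n => u (n + M₁ * j)) - ρ ^ j * avc 2 k u‖ ≤ 2 / L * K := by
      rw [← w4_avc_mul, ← w4_avc_sub]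
      refine (w4_avc_norm 2 k _).trans ?_
      have e1 : ∀ n, ‖u (n + M₁ * j) - ρ ^ j * u n‖ ≤
          2 / L * (w4_l1 (X (n + M₁ * j) - X n) + w4_l1 (X' (n + M₁ * j) - X' n)) := by
        intro n
        have e2 : u (n + M₁ * j) - ρ ^ j * u n = (ρ ^ j * w n) *
            ((G (X (n + M₁ * j)) (X' (n + M₁ * j)) - G (X n) (X' n) : ℝ) : ℂ) := by
          rw [hu]
          dsimp only
          rw [hwj]
          push_cast
          ring
        rw [e2, norm_mul, norm_mul, norm_pow, hρ, one_pow, hw1, one_mul, one_mul,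
          Complex.norm_real, Real.norm_eq_abs]
        apply w4_psi_lip hL1 hΨ
        · intro i
          have := w4_mem S h P c z (2 ^ k * y + n) j i
          rw [← hM₁] at this
          rw [hX]
          dsimp only
          rw [← add_assoc]
          exact this
        · intro i
          have := w4_mem S h R c' z' (2 ^ k * y + n) j i
          rw [← hM₁] at this
          rw [hX']
          dsimp only
          rw [← add_assoc]
          exact this
      refine (av_mono fun n _ => e1 n).trans ?_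
      rw [av_const_mul, av_add]
      refine mul_le_mul_of_nonneg_left ?_ (by positivity)
      have hP1 : av 2 k (fun n => w4_l1 (X (n + M₁ * j) - X n)) ≤ ∑ i, (d i : ℝ) * KP i := by
        unfold w4_l1
        rw [av_finset_sum]
        refine Finset.sum_le_sum fun i _ => ?_
        rw [av_finset_sum]
        refine (Finset.sum_le_sum fun a _ => (?_ : _ ≤ KP i)).trans (le_of_eq ?_)
        · have h3 := hKP i k y (c i) (z i) (M₁ * j) hy (hb.cle i) (hb.zlt i) hMj a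
          refine le_trans (le_of_eq ?_) h3
          congr 1
          funext n
          rw [Pi.sub_apply, Pi.sub_apply, Int.cast_sub, hX]
          dsimp only
          unfold EE
          rw [← add_assoc]
        · rw [Finset.sum_const, Finset.card_univ, Fintype.card_fin, nsmul_eq_mul]
      have hR1 : av 2 k (fun n => w4_l1 (X' (n + M₁ * j) - X' n)) ≤ ∑ i, (d i : ℝ) * KR i := by
        unfold w4_l1
        rw [av_finset_sum]
        refine Finset.sum_le_sum fun i _ => ?_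
        rw [av_finset_sum]
        refine (Finset.sum_le_sum fun a _ => (?_ : _ ≤ KR i)).trans (le_of_eq ?_)
        · have h3 := hKR i k y (c' i) (z' i) (M₁ * j) hy (hb'.cle i) (hb'.zlt i) hMj a
          refine le_trans (le_of_eq ?_) h3
          congr 1
          funext n
          rw [Pi.sub_apply, Pi.sub_apply, Int.cast_sub, hX']
          dsimp only
          unfold EE
          rw [← add_assoc]
        · rw [Finset.sum_const, Finset.card_univ, Fintype.card_fin, nsmul_eq_mul]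
      rw [hK]
      exact add_le_add hP1 hR1
    have s3 : 2 * ((M₁ * j : ℕ) : ℝ) / 2 ^ k ≤ ε / 6 := by
      refine le_trans ?_ h2k
      have : ((M₁ * j : ℕ) : ℝ) ≤ ((M₁ * J : ℕ) : ℝ) := by exact_mod_cast hMj
      exact div_le_div_of_nonneg_right (by linarith) (by positivity)
    calc ‖avc 2 k u - ρ ^ j * avc 2 k u‖
        = ‖(avc 2 k (fun n => u (n + M₁ * j)) - ρ ^ j * avc 2 k u) -
          (avc 2 k (fun n => u (n + M₁ * j)) - avc 2 k u)‖ := by
          congr 1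
          ring
      _ ≤ ‖avc 2 k (fun n => u (n + M₁ * j)) - ρ ^ j * avc 2 k u‖ +
          ‖avc 2 k (fun n => u (n + M₁ * j)) - avc 2 k u‖ := norm_sub_le _ _
      _ ≤ 2 / L * K + 2 * ((M₁ * j : ℕ) : ℝ) / 2 ^ k := add_le_add s2 s1
      _ ≤ ε / 3 := by linarith
  -- the average over the shifts
  have hJr : (0 : ℝ) < J := by exact_mod_cast hJ1
  have hJc : (J : ℂ) ≠ 0 := by exact_mod_cast hJr.ne'
  have havg : ‖avc 2 k u - ((∑ j ∈ Finset.range J, ρ ^ j) / J) * avc 2 k u‖ ≤ ε / 3 := by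
    have e1 : avc 2 k u - ((∑ j ∈ Finset.range J, ρ ^ j) / J) * avc 2 k u =
        (∑ j ∈ Finset.range J, (avc 2 k u - ρ ^ j * avc 2 k u)) / J := by
      rw [Finset.sum_sub_distrib, Finset.sum_const, Finset.card_range, nsmul_eq_mul, sub_div,
        mul_div_cancel_left₀ _ hJc, ← Finset.sum_mul, div_mul_eq_mul_div]
    rw [e1, norm_div, Complex.norm_natCast, div_le_iff₀ hJr]
    refine (norm_sum_le _ _).trans ((Finset.sum_le_sum fun j hj' =>
      hj j (Finset.mem_range.mp hj')).trans (le_of_eq ?_))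
    rw [Finset.sum_const, Finset.card_range, nsmul_eq_mul, mul_comm]
  have hfin : ‖avc 2 k u‖ ≤ ε / 3 + ε / 6 := by
    have h3 : ‖((∑ j ∈ Finset.range J, ρ ^ j) / J) * avc 2 k u‖ ≤ ε / 6 := by
      rw [norm_mul]
      calc _ ≤ ε / 6 * 1 := mul_le_mul hJ (w4_avc_le (by norm_num) hu1) (norm_nonneg _)
            (by positivity)
        _ = ε / 6 := mul_one _
    calc ‖avc 2 k u‖ = ‖(avc 2 k u - ((∑ j ∈ Finset.range J, ρ ^ j) / J) * avc 2 k u) +
          ((∑ j ∈ Finset.range J, ρ ^ j) / J) * avc 2 k u‖ := by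
          congr 1
          ring
      _ ≤ _ := (norm_add_le _ _).trans (add_le_add havg h3)
  calc ‖avc 2 k (fun n => w n * (Ψ (X n) (X' n) : ℂ))‖
      = ‖(avc 2 k (fun n => w n * (Ψ (X n) (X' n) : ℂ)) - avc 2 k u) + avc 2 k u‖ := by
        congr 1
        ring
    _ ≤ ε / 3 + (ε / 3 + ε / 6) := (norm_add_le _ _).trans (add_le_add hsm hfin)
    _ ≤ ε := by linarith

end several

end Pool.Agent.Lib.MP_3e612f_nt.MB
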