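import Pool.Agent.Lib.MP_3e612f_nt.MDep
import Pool.Agent.Lib.MP_3e612f_nt.MPer
import Pool.Agent.Lib.MP_3e612f_nt.WOne

/-!
Polynomial phases: induction on the degree by the inequality of van der Corput with bounded
shifts.
-/

set_option autoImplicit false

namespace Pool.Agent.Lib.MP_3e612f_nt.MB

open Filter Topology
open Pool.Agent.Lib.MP_3e612f_nt.QA

namespace WP

/-- the additive character -/
noncomputable def e1 (x : ℝ) : ℂ := Complex.exp (2 * Real.pi * Complex.I * (x : ℂ))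

theorem e1_add (x y : ℝ) : e1 (x + y) = e1 x * e1 y := by
  unfold e1
  rw [← Complex.exp_add]
  congr 1
  push_cast
  ring

theorem e1_zero : e1 0 = 1 := by
  unfold e1
  simp

theorem norm_e1 (x : ℝ) : ‖e1 x‖ = 1 := by
  unfold e1
  have : 2 * (Real.pi : ℂ) * Complex.I * (x : ℂ) = ((2 * Real.pi * x : ℝ) : ℂ) * Complex.I := by
    push_cast
    ring
  rw [this, Complex.norm_exp_ofReal_mul_I]

theorem conj_e1 (x : ℝ) : (starRingEnd ℂ) (e1 x) = e1 (-x) := by
  unfold e1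
  rw [← Complex.exp_conj]
  congr 1
  rw [map_mul, map_mul, map_mul, Complex.conj_I, Complex.conj_ofReal, Complex.conj_ofReal,
    map_ofNat]
  push_cast
  ring

theorem e1_int (n : ℤ) : e1 n = 1 := by
  unfold e1
  rw [Complex.exp_eq_one_iff]
  exact ⟨n, by push_cast; ring⟩

theorem e1_nat_mul (j : ℕ) (x : ℝ) : e1 (j * x) = e1 x ^ j := by
  induction j with
  | zero => simp [e1_zero]
  | succ j ih => rw [pow_succ, ← ih, ← e1_add]; congr 1; push_cast; ring

/-- orthogonality of the characters modulo `M` -/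
theorem orth {M : ℕ} (hM : 1 ≤ M) (r : ℤ) :
    ∑ j ∈ Finset.range M, e1 (j * (r / M)) = if (M : ℤ) ∣ r then (M : ℂ) else 0 := by
  have hM0 : (M : ℝ) ≠ 0 := by exact_mod_cast (by omega : M ≠ 0)
  simp only [e1_nat_mul]
  split_ifs with h
  · obtain ⟨t, rfl⟩ := h
    have : e1 (((M : ℤ) * t : ℤ) / M : ℝ) = 1 := by
      have e : (((M : ℤ) * t : ℤ) / M : ℝ) = (t : ℝ) := by
        push_cast
        field_simp
      rw [e]
      exact e1_int t
    rw [this]
    simp
  · have h1 : e1 ((r : ℝ) / M) ≠ 1 := by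
      intro h2
      unfold e1 at h2
      rw [Complex.exp_eq_one_iff] at h2
      obtain ⟨n, hn⟩ := h2
      apply h
      have h3 : ((r : ℝ) / M : ℝ) = n := by
        have hpi : (2 * (Real.pi : ℂ) * Complex.I) ≠ 0 := Complex.two_pi_I_ne_zero
        have h4 : (((r : ℝ) / M : ℝ) : ℂ) = (n : ℂ) := by
          apply mul_left_cancel₀ hpi
          rw [hn]
          ring
        exact_mod_cast h4
      rw [div_eq_iff hM0] at h3
      refine ⟨n, ?_⟩
      have : (r : ℝ) = ((M * n : ℤ) : ℝ) := by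
        rw [h3]
        push_cast
        ring
      exact_mod_cast this
    have h2 : e1 ((r : ℝ) / M) ^ M = 1 := by
      rw [← e1_nat_mul]
      have : (M : ℝ) * ((r : ℝ) / M) = r := by field_simp
      rw [this]
      exact e1_int r
    have h3 := mul_geom_sum (e1 ((r : ℝ) / M)) M
    rw [h2, sub_self] at h3
    rcases mul_eq_zero.1 h3 with h4 | h4
    · exact absurd (sub_eq_zero.1 h4) h1
    · exact h4

theorem avc_const_mul (q k : ℕ) (c : ℂ) (u : ℕ → ℂ) :
    avc q k (fun n => c * u n) = c * avc q k u := by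
  unfold avc
  rw [← Finset.mul_sum, mul_div_assoc]

theorem avc_sum {α : Type*} (s : Finset α) (q k : ℕ) (u : α → ℕ → ℂ) :
    avc q k (fun n => ∑ i ∈ s, u i n) = ∑ i ∈ s, avc q k (u i) := by
  unfold avc
  rw [Finset.sum_comm, Finset.sum_div]

theorem avc_add (q k : ℕ) (u v : ℕ → ℂ) :
    avc q k (fun n => u n + v n) = avc q k u + avc q k v := by
  unfold avc
  rw [Finset.sum_add_distrib, add_div]

theorem norm_avc_le_av (q k : ℕ) (u : ℕ → ℂ) : ‖avc q k u‖ ≤ av q k (fun n => ‖u n‖) := by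
  unfold avc av
  rw [norm_div, norm_pow, Complex.norm_natCast]
  exact div_le_div_of_nonneg_right (norm_sum_le _ _) (by positivity)

/-! ### the inequality of van der Corput -/

theorem shift_sum {V : ℕ → ℂ} (hV : ∀ n, ‖V n‖ ≤ 1) (X j : ℕ) :
    ‖∑ n ∈ Finset.range X, V (n + j) - ∑ n ∈ Finset.range X, V n‖ ≤ 2 * j := by
  induction j with
  | zero => simp
  | succ j ih =>
    have e : ∑ n ∈ Finset.range X, V (n + (j + 1)) =
        ∑ n ∈ Finset.range X, V (n + j) + (V (X + j) - V j) := by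
      have h1 := Finset.sum_range_succ' (fun n => V (n + j)) X
      rw [Finset.sum_range_succ] at h1
      simp only [zero_add] at h1
      have e1 : ∀ n, V (n + (j + 1)) = V (n + 1 + j) := fun n => by congr 1; ring
      simp only [e1]
      linear_combination -h1
    rw [e]
    have e2 : ∑ n ∈ Finset.range X, V (n + j) + (V (X + j) - V j) - ∑ n ∈ Finset.range X, V n =
        (∑ n ∈ Finset.range X, V (n + j) - ∑ n ∈ Finset.range X, V n) + (V (X + j) - V j) := by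
      ring
    rw [e2]
    have h2 : ‖V (X + j) - V j‖ ≤ 2 := by
      refine (norm_sub_le _ _).trans ?_
      have := hV (X + j)
      have := hV j
      linarith
    refine (norm_add_le _ _).trans ?_
    push_cast
    linarith

theorem vdc {X H : ℕ} (hX : 1 ≤ X) (hH : 1 ≤ H) {U : ℕ → ℂ} (hU : ∀ n, ‖U n‖ ≤ 1) {δ : ℝ}
    (hδ0 : 0 ≤ δ) (hδ : ∀ s, 1 ≤ s → s < H →
      ‖∑ n ∈ Finset.range X, U (n + s) * (starRingEnd ℂ) (U n)‖ ≤ δ * X) :
    ‖∑ n ∈ Finset.range X, U n‖ ≤ 2 * H + X * Real.sqrt (1 / H + δ + 2 * H / X) := by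
  have hXr : (0 : ℝ) < X := by exact_mod_cast hX
  have hHr : (0 : ℝ) < H := by exact_mod_cast hH
  -- the correlations
  have hcor : ∀ j < H, ∀ j' < H, j' < j →
      ‖∑ n ∈ Finset.range X, U (n + j) * (starRingEnd ℂ) (U (n + j'))‖ ≤ δ * X + 2 * H := by
    intro j hj j' hj' hlt
    have h1 := shift_sum (V := fun n => U (n + (j - j')) * (starRingEnd ℂ) (U n)) (fun n => by
      rw [norm_mul, RCLike.norm_conj]
      have := mul_le_mul (hU (n + (j - j'))) (hU n) (norm_nonneg _) zero_le_one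
      simpa using this) X j'
    have h2 := hδ (j - j') (by omega) (by omega)
    have e : ∀ n, n + j' + (j - j') = n + j := fun n => by omega
    simp only [e] at h1
    have h3 : (j' : ℝ) ≤ H := by exact_mod_cast hj'.le
    have h4 := norm_sub_norm_le
      (∑ n ∈ Finset.range X, U (n + j) * (starRingEnd ℂ) (U (n + j')))
      (∑ n ∈ Finset.range X, U (n + (j - j')) * (starRingEnd ℂ) (U n))
    linarith
  have hcor' : ∀ j < H, ∀ j' < H, j ≠ j' →
      ‖∑ n ∈ Finset.range X, U (n + j) * (starRingEnd ℂ) (U (n + j'))‖ ≤ δ * X + 2 * H := by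
    intro j hj j' hj' hne
    rcases Nat.lt_or_ge j' j with h | h
    · exact hcor j hj j' hj' h
    · have := hcor j' hj' j hj (by omega)
      rw [← RCLike.norm_conj] at this
      rw [map_sum] at this
      refine le_trans (le_of_eq ?_) this
      congr 1
      refine Finset.sum_congr rfl fun n _ => ?_
      rw [map_mul, Complex.conj_conj, mul_comm]
  set T : ℕ → ℂ := fun n => ∑ j ∈ Finset.range H, U (n + j) with hT
  have hsq : ∑ n ∈ Finset.range X, ‖T n‖ ^ 2 ≤ H * X + H ^ 2 * (δ * X + 2 * H) := by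
    have e1 : ((∑ n ∈ Finset.range X, ‖T n‖ ^ 2 : ℝ) : ℂ) = ∑ j ∈ Finset.range H,
        ∑ j' ∈ Finset.range H, ∑ n ∈ Finset.range X,
          U (n + j) * (starRingEnd ℂ) (U (n + j')) := by
      push_cast
      have e2 : ∀ n, ((‖T n‖ : ℂ)) ^ 2 = ∑ j ∈ Finset.range H, ∑ j' ∈ Finset.range H,
          U (n + j) * (starRingEnd ℂ) (U (n + j')) := by
        intro n
        rw [← Complex.mul_conj', hT, map_sum, Finset.sum_mul_sum]
      simp only [e2]
      rw [Finset.sum_comm]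
      refine Finset.sum_congr rfl fun j _ => ?_
      rw [Finset.sum_comm]
    have h2 : ∑ n ∈ Finset.range X, ‖T n‖ ^ 2 =
        ‖((∑ n ∈ Finset.range X, ‖T n‖ ^ 2 : ℝ) : ℂ)‖ := by
      rw [Complex.norm_real, Real.norm_of_nonneg]
      exact Finset.sum_nonneg fun n _ => by positivity
    rw [h2, e1]
    have h3 : ∀ j ∈ Finset.range H, ‖∑ j' ∈ Finset.range H, ∑ n ∈ Finset.range X,
        U (n + j) * (starRingEnd ℂ) (U (n + j'))‖ ≤ X + H * (δ * X + 2 * H) := by
      intro j hj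
      rw [← Finset.add_sum_erase _ _ hj]
      refine (norm_add_le _ _).trans (add_le_add ?_ ?_)
      · refine (norm_sum_le _ _).trans ?_
        refine (Finset.sum_le_card_nsmul _ _ 1 fun n _ => ?_).trans (by simp)
        rw [norm_mul, RCLike.norm_conj]
        have := mul_le_mul (hU (n + j)) (hU (n + j)) (norm_nonneg _) zero_le_one
        simpa using this
      · refine (norm_sum_le _ _).trans ?_
        refine (Finset.sum_le_card_nsmul _ _ (δ * X + 2 * H) fun j' hj' => ?_).trans ?_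
        · exact hcor' j (Finset.mem_range.1 hj) j'
            (Finset.mem_range.1 (Finset.mem_of_mem_erase hj')) (Finset.ne_of_mem_erase hj').symm
        · rw [nsmul_eq_mul]
          refine mul_le_mul_of_nonneg_right ?_ (by positivity)
          have := Finset.card_erase_le (s := Finset.range H) (a := j)
          rw [Finset.card_range] at this
          exact_mod_cast this
    refine (norm_sum_le _ _).trans ((Finset.sum_le_card_nsmul _ _ _ h3).trans (le_of_eq ?_))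
    rw [Finset.card_range, nsmul_eq_mul]
    ring
  -- Cauchy-Schwarz
  have hcs : ‖∑ n ∈ Finset.range X, T n‖ ≤
      Real.sqrt (X * (H * X + H ^ 2 * (δ * X + 2 * H))) := by
    apply Real.le_sqrt_of_sq_le
    have h1 := norm_sum_le (Finset.range X) T
    have h2 := sq_sum_le_card_mul_sum_sq (s := Finset.range X) (f := fun n => ‖T n‖)
    rw [Finset.card_range] at h2
    calc ‖∑ n ∈ Finset.range X, T n‖ ^ 2 ≤ (∑ n ∈ Finset.range X, ‖T n‖) ^ 2 :=
          pow_le_pow_left₀ (norm_nonneg _) h1 2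
      _ ≤ X * ∑ n ∈ Finset.range X, ‖T n‖ ^ 2 := h2
      _ ≤ _ := mul_le_mul_of_nonneg_left hsq hXr.le
  -- the sum of `T`
  have hTS : ‖∑ n ∈ Finset.range X, T n - H * ∑ n ∈ Finset.range X, U n‖ ≤ 2 * H * H := by
    have e1 : ∑ n ∈ Finset.range X, T n - H * ∑ n ∈ Finset.range X, U n =
        ∑ j ∈ Finset.range H, (∑ n ∈ Finset.range X, U (n + j) - ∑ n ∈ Finset.range X, U n) := by
      rw [Finset.sum_sub_distrib, Finset.sum_const, Finset.card_range, nsmul_eq_mul, hT,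
        Finset.sum_comm]
    rw [e1]
    refine (norm_sum_le _ _).trans ?_
    refine (Finset.sum_le_card_nsmul _ _ (2 * (H : ℝ)) fun j hj => ?_).trans (le_of_eq ?_)
    · refine (shift_sum hU X j).trans ?_
      have : (j : ℝ) ≤ H := by exact_mod_cast (Finset.mem_range.1 hj).le
      linarith
    · rw [Finset.card_range, nsmul_eq_mul]
      ring
  have h5 : (H : ℝ) * ‖∑ n ∈ Finset.range X, U n‖ ≤
      2 * H * H + Real.sqrt (X * (H * X + H ^ 2 * (δ * X + 2 * H))) := by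
    have e1 : (H : ℝ) * ‖∑ n ∈ Finset.range X, U n‖ = ‖(H : ℂ) * ∑ n ∈ Finset.range X, U n‖ := by
      rw [norm_mul, Complex.norm_natCast]
    rw [e1]
    have := norm_sub_norm_le ((H : ℂ) * ∑ n ∈ Finset.range X, U n) (∑ n ∈ Finset.range X, T n)
    rw [← norm_neg, neg_sub] at hTS
    linarith
  have h6 : Real.sqrt (X * (H * X + H ^ 2 * (δ * X + 2 * H))) =
      H * (X * Real.sqrt (1 / H + δ + 2 * H / X)) := by
    have e1 : (X : ℝ) * (H * X + H ^ 2 * (δ * X + 2 * H)) =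
        (H * X) ^ 2 * (1 / H + δ + 2 * H / X) := by
      field_simp
      ring
    rw [e1, Real.sqrt_mul (by positivity), Real.sqrt_sq (by positivity)]
    ring
  rw [h6] at h5
  have h7 : (H : ℝ) * ‖∑ n ∈ Finset.range X, U n‖ ≤
      H * (2 * H + X * Real.sqrt (1 / H + δ + 2 * H / X)) := by
    refine h5.trans (le_of_eq ?_)
    ring
  exact le_of_mul_le_mul_left h7 hHr

/-! ### polynomials -/

theorem diff_poly {D : ℕ} {Q : Polynomial ℝ} (hd : Q.natDegree ≤ D + 1)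
    (hQ : Irrational (Q.coeff (D + 1))) {s : ℕ} (hs : 1 ≤ s) :
    (Polynomial.taylor (s : ℝ) Q - Q).natDegree ≤ D ∧
      Irrational ((Polynomial.taylor (s : ℝ) Q - Q).coeff D) := by
  have hco : ∀ n, (Polynomial.taylor (s : ℝ) Q).coeff n =
      (Polynomial.hasseDeriv n Q).eval (s : ℝ) := fun n => Polynomial.taylor_coeff _ _ _
  have h1 : (Polynomial.taylor (s : ℝ) Q).coeff (D + 1) = Q.coeff (D + 1) := by
    rw [hco]
    have h2 : (Polynomial.hasseDeriv (D + 1) Q).natDegree < 1 := by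
      have := Polynomial.natDegree_hasseDeriv_le Q (D + 1)
      omega
    rw [Polynomial.eval_eq_sum_range' h2]
    simp [Polynomial.hasseDeriv_coeff]
  have h2 : (Polynomial.taylor (s : ℝ) Q).coeff D =
      Q.coeff D + (D + 1) * Q.coeff (D + 1) * s := by
    rw [hco]
    have h2 : (Polynomial.hasseDeriv D Q).natDegree < 2 := by
      have := Polynomial.natDegree_hasseDeriv_le Q D
      omega
    rw [Polynomial.eval_eq_sum_range' h2]
    simp [Finset.sum_range_succ, Polynomial.hasseDeriv_coeff, add_comm 1 D]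
  constructor
  · rw [Polynomial.natDegree_le_iff_coeff_eq_zero]
    intro n hn
    rw [Polynomial.coeff_sub]
    rcases Nat.lt_or_ge (D + 1) n with h | h
    · rw [Polynomial.coeff_eq_zero_of_natDegree_lt (p := Q) (by omega),
        Polynomial.coeff_eq_zero_of_natDegree_lt (by rw [Polynomial.natDegree_taylor]; omega),
        sub_self]
    · have : n = D + 1 := by omega
      subst this
      rw [h1, sub_self]
  · rw [Polynomial.coeff_sub, h2]
    have e : Q.coeff D + (D + 1) * Q.coeff (D + 1) * s - Q.coeff D =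
        (((D + 1) * s : ℕ) : ℝ) * Q.coeff (D + 1) := by
      push_cast
      ring
    rw [e]
    exact hQ.natCast_mul (by positivity)

theorem lin_poly {D : ℕ} (hD : 1 ≤ D) {Q : Polynomial ℝ} (hd : Q.natDegree ≤ D)
    (hQ : Irrational (Q.coeff D)) (j M : ℕ) :
    (Q + Polynomial.C ((j : ℝ) / M) * Polynomial.X).natDegree ≤ D ∧
      Irrational ((Q + Polynomial.C ((j : ℝ) / M) * Polynomial.X).coeff D) := by
  constructor
  · refine (Polynomial.natDegree_add_le _ _).trans (max_le hd ?_)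
    exact (Polynomial.natDegree_C_mul_le _ _).trans (Polynomial.natDegree_X_le.trans hD)
  · rw [Polynomial.coeff_add, Polynomial.coeff_C_mul, Polynomial.coeff_X]
    have e : (j : ℝ) / M * (if 1 = D then (1 : ℝ) else 0) =
        (((if 1 = D then (j : ℚ) / M else 0 : ℚ) : ℚ) : ℝ) := by
      split_ifs
      · push_cast
        ring
      · simp
    rw [e]
    exact hQ.add_ratCast _

section several

variable {ι : Type*} [Fintype ι] [DecidableEq ι] {q : ι → ℕ} {m : ℕ} {d : ι → ℕ}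
  {e : ∀ i, ℕ → Fin (d i) → ℤ} {C : ℝ}

/-- the conclusion for one polynomial -/
def TW (q : ι → ℕ) (e : ∀ i, ℕ → Fin (d i) → ℤ) (P R : ι → ℕ) (h Y : ℕ)
    (Q : Polynomial ℝ) : Prop :=
  ∀ ε : ℝ, 0 < ε → ∀ᶠ k : ℕ in atTop, ∀ y ≤ Y, ∀ c z c' z' : ι → ℕ, Bd q h P c z →
    Bd q h R c' z' →
    ∀ Ψ : (∀ i, Fin (d i) → ℤ) → (∀ i, Fin (d i) → ℤ) → ℝ, (∀ x x', |Ψ x x'| ≤ 1) →
      ‖avc 2 k (fun n => e1 (Q.eval ((2 ^ k * y + n : ℕ) : ℝ)) *
        (Ψ (EE q e h P c z (2 ^ k * y + n)) (EE q e h R c' z' (2 ^ k * y + n)) : ℂ))‖ ≤ ε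

theorem TW_class {P R : ι → ℕ} {h Y : ℕ} {Q : Polynomial ℝ} {M : ℕ} (hM : 1 ≤ M)
    (hQ : ∀ j < M, TW q e P R h Y (Q + Polynomial.C ((j : ℝ) / M) * Polynomial.X))
    {ε : ℝ} (hε : 0 < ε) : ∀ᶠ k : ℕ in atTop, ∀ y ≤ Y, ∀ c z c' z' : ι → ℕ, Bd q h P c z →
    Bd q h R c' z' →
    ∀ Ψ : (∀ i, Fin (d i) → ℤ) → (∀ i, Fin (d i) → ℤ) → ℝ, (∀ x x', |Ψ x x'| ≤ 1) →
      ∀ a < M, ‖avc 2 k (fun n => (if (2 ^ k * y + n) % M = a then (1 : ℂ) else 0) *
        (e1 (Q.eval ((2 ^ k * y + n : ℕ) : ℝ)) *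
        (Ψ (EE q e h P c z (2 ^ k * y + n)) (EE q e h R c' z' (2 ^ k * y + n)) : ℂ)))‖ ≤ ε := by
  have hall : ∀ᶠ k : ℕ in atTop, ∀ j ∈ Finset.range M, ∀ y ≤ Y, ∀ c z c' z' : ι → ℕ,
      Bd q h P c z → Bd q h R c' z' →
      ∀ Ψ : (∀ i, Fin (d i) → ℤ) → (∀ i, Fin (d i) → ℤ) → ℝ, (∀ x x', |Ψ x x'| ≤ 1) →
      ‖avc 2 k (fun n => e1 ((Q + Polynomial.C ((j : ℝ) / M) * Polynomial.X).eval
        ((2 ^ k * y + n : ℕ) : ℝ)) *
        (Ψ (EE q e h P c z (2 ^ k * y + n)) (EE q e h R c' z' (2 ^ k * y + n)) : ℂ))‖ ≤ ε := by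
    rw [Filter.eventually_all_finset]
    intro j hj
    exact hQ j (Finset.mem_range.1 hj) ε hε
  filter_upwards [hall] with k hk y hy c z c' z' hB hB' Ψ hΨ a ha
  have hM0 : (M : ℝ) ≠ 0 := by exact_mod_cast (by omega : M ≠ 0)
  have hMc : (M : ℂ) ≠ 0 := by exact_mod_cast (by omega : M ≠ 0)
  have hind : ∀ N : ℕ, (if N % M = a then (1 : ℂ) else 0) =
      (1 / (M : ℂ)) * ∑ j ∈ Finset.range M, e1 (j * ((((N : ℤ) - a : ℤ) : ℝ) / M)) := by
    intro N
    rw [orth hM]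
    have hiff : ((M : ℤ) ∣ (N : ℤ) - a) ↔ N % M = a := by
      rw [← Int.modEq_iff_dvd, Int.natCast_modEq_iff]
      unfold Nat.ModEq
      rw [Nat.mod_eq_of_lt ha]
      exact eq_comm
    by_cases hN : N % M = a
    · rw [if_pos hN, if_pos (hiff.2 hN)]
      field_simp
    · rw [if_neg hN, if_neg (fun h => hN (hiff.1 h)), mul_zero]
  have hexp : avc 2 k (fun n => (if (2 ^ k * y + n) % M = a then (1 : ℂ) else 0) *
        (e1 (Q.eval ((2 ^ k * y + n : ℕ) : ℝ)) *
        (Ψ (EE q e h P c z (2 ^ k * y + n)) (EE q e h R c' z' (2 ^ k * y + n)) : ℂ))) =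
      (1 / (M : ℂ)) * ∑ j ∈ Finset.range M, e1 (-(j * (a / M))) *
        avc 2 k (fun n => e1 ((Q + Polynomial.C ((j : ℝ) / M) * Polynomial.X).eval
          ((2 ^ k * y + n : ℕ) : ℝ)) *
          (Ψ (EE q e h P c z (2 ^ k * y + n)) (EE q e h R c' z' (2 ^ k * y + n)) : ℂ)) := by
    simp only [← avc_const_mul]
    rw [← avc_sum, ← avc_const_mul]
    congr 1
    funext n
    rw [hind, mul_assoc, Finset.sum_mul]
    congr 1
    refine Finset.sum_congr rfl fun j _ => ?_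
    rw [← mul_assoc, ← mul_assoc, ← e1_add, ← e1_add]
    congr 2
    simp only [Polynomial.eval_add, Polynomial.eval_mul, Polynomial.eval_C, Polynomial.eval_X]
    push_cast
    ring
  rw [hexp, norm_mul, norm_div, norm_one, Complex.norm_natCast, one_div_mul_eq_div,
    div_le_iff₀ (by positivity : (0 : ℝ) < M)]
  refine (norm_sum_le _ _).trans ?_
  refine (Finset.sum_le_card_nsmul _ _ ε fun j hj => ?_).trans (le_of_eq ?_)
  · rw [norm_mul, norm_e1, one_mul]
    exact hk j hj y hy c z c' z' hB hB' Ψ hΨ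
  · rw [Finset.card_range, nsmul_eq_mul, mul_comm]

/-- the data of the lemma on few digits, for one base -/
theorem dep_data (S : Sys q m e C) {P R : ι → ℕ} (hPR : Mul q m P R) (h s : ℕ) {η : ℝ}
    (hη : 0 < η) (i : ι) : ∃ L : ℕ, ∃ B : Finset ℕ, (B.card : ℝ) ≤ η * (q i : ℝ) ^ L ∧
      ∀ n : ℕ, n % q i ^ L ∉ B →
        (∀ c z : ℕ, c ≤ P i → z < q i ^ h →
          e i (sd (q i) h (P i) c z (n + s)) = e i (sd (q i) h (P i) c z n) +
            (e i (sd (q i) h (P i) c z (n % q i ^ L + s)) -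
              e i (sd (q i) h (P i) c z (n % q i ^ L)))) ∧
        (∀ c z : ℕ, c ≤ R i → z < q i ^ h →
          e i (sd (q i) h (R i) c z (n + s)) = e i (sd (q i) h (R i) c z n) +
            (e i (sd (q i) h (R i) c z (n % q i ^ L + s)) -
              e i (sd (q i) h (R i) c z (n % q i ^ L)))) := by
  obtain ⟨C₁, ρ₁, hC₁, hρ₁, hρ₁', hd₁⟩ := local_dep (S.base i) (S.qv i).gap (hPR.cP i)
  obtain ⟨C₂, ρ₂, hC₂, hρ₂, hρ₂', hd₂⟩ := local_dep (S.base i) (S.qv i).gap (hPR.cR i)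
  obtain ⟨n₁, hn₁⟩ := exists_pow_lt_of_lt_one (show 0 < η / 2 / (C₁ + 1) by positivity) hρ₁'
  obtain ⟨n₂, hn₂⟩ := exists_pow_lt_of_lt_one (show 0 < η / 2 / (C₂ + 1) by positivity) hρ₂'
  set L := s + (n₁ + n₂) with hL
  obtain ⟨B₁, hB₁, h₁⟩ := hd₁ s L (by omega)
  obtain ⟨B₂, hB₂, h₂⟩ := hd₂ s L (by omega)
  have hqL := qpow_posR (S.base i) L
  have hs : s ≤ q i ^ s := (Nat.lt_pow_self (S.base i)).le
  have b₁ : C₁ * ρ₁ ^ (L - s) ≤ η / 2 := by
    have e0 : L - s = n₁ + n₂ := by omega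
    rw [e0]
    have h3 : ρ₁ ^ (n₁ + n₂) ≤ ρ₁ ^ n₁ := pow_le_pow_of_le_one hρ₁.le hρ₁'.le (by omega)
    have h4 : ρ₁ ^ (n₁ + n₂) ≤ η / 2 / (C₁ + 1) := h3.trans hn₁.le
    rw [le_div_iff₀ (by positivity)] at h4
    have h5 : 0 ≤ ρ₁ ^ (n₁ + n₂) := by positivity
    nlinarith
  have b₂ : C₂ * ρ₂ ^ (L - s) ≤ η / 2 := by
    have e0 : L - s = n₁ + n₂ := by omega
    rw [e0]
    have h3 : ρ₂ ^ (n₁ + n₂) ≤ ρ₂ ^ n₂ := pow_le_pow_of_le_one hρ₂.le hρ₂'.le (by omega)
    have h4 : ρ₂ ^ (n₁ + n₂) ≤ η / 2 / (C₂ + 1) := h3.trans hn₂.le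
    rw [le_div_iff₀ (by positivity)] at h4
    have h5 : 0 ≤ ρ₂ ^ (n₁ + n₂) := by positivity
    nlinarith
  refine ⟨L, B₁ ∪ B₂, ?_, ?_⟩
  · have h3 : ((B₁ ∪ B₂).card : ℝ) ≤ B₁.card + B₂.card := by
      exact_mod_cast Finset.card_union_le _ _
    have h4 := mul_le_mul_of_nonneg_right b₁ hqL.le
    have h5 := mul_le_mul_of_nonneg_right b₂ hqL.le
    linarith
  · intro n hn
    rw [Finset.mem_union, not_or] at hn
    constructor
    · intro c z hc hz
      rw [← h₁ n s h c z hs hn.1 hc hz]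
      abel
    · intro c z hc hz
      rw [← h₂ n s h c z hs hn.2 hc hz]
      abel

/-- the correlations -/
theorem corr (S : Sys q m e C) {P R : ι → ℕ} (hPR : Mul q m P R) {Q : Polynomial ℝ} (h Y s : ℕ)
    (hQ : ∀ M : ℕ, 1 ≤ M → ∀ j < M, TW q e P R h Y
      ((Polynomial.taylor (s : ℝ) Q - Q) + Polynomial.C ((j : ℝ) / M) * Polynomial.X))
    {δ : ℝ} (hδ : 0 < δ) : ∀ᶠ k : ℕ in atTop, ∀ y ≤ Y, ∀ c z c' z' : ι → ℕ, Bd q h P c z →
    Bd q h R c' z' →
    ∀ Ψ : (∀ i, Fin (d i) → ℤ) → (∀ i, Fin (d i) → ℤ) → ℝ, (∀ x x', |Ψ x x'| ≤ 1) →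
      ‖∑ n ∈ Finset.range (2 ^ k), (e1 (Q.eval ((2 ^ k * y + (n + s) : ℕ) : ℝ)) *
        (Ψ (EE q e h P c z (2 ^ k * y + (n + s))) (EE q e h R c' z' (2 ^ k * y + (n + s))) : ℂ)) *
        (starRingEnd ℂ) (e1 (Q.eval ((2 ^ k * y + n : ℕ) : ℝ)) *
          (Ψ (EE q e h P c z (2 ^ k * y + n)) (EE q e h R c' z' (2 ^ k * y + n)) : ℂ))‖ ≤
        δ * (2 ^ k : ℕ) := by
  classical
  set η : ℝ := δ / (4 * (Fintype.card ι + 1)) with hη
  have hη0 : 0 < η := by positivity
  choose L B hBcard hBdep using fun i => dep_data S hPR h s hη0 i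
  set M : ℕ := ∏ i, q i ^ L i with hM
  have hM1 : 1 ≤ M := Finset.prod_pos fun i _ => qpow_pos (S.base i) _
  have hMdvd : ∀ i, q i ^ L i ∣ M := fun i => Finset.dvd_prod_of_mem _ (Finset.mem_univ i)
  set ε : ℝ := δ / (2 * M) with hε
  have hMr : (0 : ℝ) < M := by exact_mod_cast hM1
  have hε0 : 0 < ε := by positivity
  have hlarge : ∀ᶠ k : ℕ in atTop, (∑ i, 2 * (q i : ℝ) ^ L i) ≤ δ / 4 * (2 ^ k : ℕ) := by
    have h1 : Tendsto (fun k : ℕ => δ / 4 * ((2 ^ k : ℕ) : ℝ)) atTop atTop := by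
      refine Tendsto.const_mul_atTop (by positivity) ?_
      push_cast
      exact tendsto_pow_atTop_atTop_of_one_lt (by norm_num)
    exact h1.eventually_ge_atTop _
  filter_upwards [TW_class hM1 (hQ M hM1) hε0, hlarge] with k hk hk2 y hy c z c' z' hB hB' Ψ hΨ
  have hX1 : 1 ≤ 2 ^ k := Nat.one_le_two_pow
  have hXr : (0 : ℝ) < ((2 ^ k : ℕ) : ℝ) := by exact_mod_cast hX1
  set Qs : Polynomial ℝ := Polynomial.taylor (s : ℝ) Q - Q with hQs
  set dP : ℕ → (∀ i, Fin (d i) → ℤ) := fun b i =>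
    e i (sd (q i) h (P i) (c i) (z i) (b % q i ^ L i + s)) -
      e i (sd (q i) h (P i) (c i) (z i) (b % q i ^ L i)) with hdP
  set dR : ℕ → (∀ i, Fin (d i) → ℤ) := fun b i =>
    e i (sd (q i) h (R i) (c' i) (z' i) (b % q i ^ L i + s)) -
      e i (sd (q i) h (R i) (c' i) (z' i) (b % q i ^ L i)) with hdR
  set Φ : ℕ → (∀ i, Fin (d i) → ℤ) → (∀ i, Fin (d i) → ℤ) → ℝ := fun b x x' =>
    Ψ (x + dP b) (x' + dR b) * Ψ x x' with hΦ
  have hΦ1 : ∀ b x x', |Φ b x x'| ≤ 1 := by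
    intro b x x'
    rw [hΦ]
    simp only [abs_mul]
    have := mul_le_mul (hΨ (x + dP b) (x' + dR b)) (hΨ x x') (abs_nonneg _) zero_le_one
    simpa using this
  set F : ℕ → ℕ → ℂ := fun b n => if ∀ i, b % q i ^ L i ∉ B i then
    e1 (Qs.eval ((2 ^ k * y + n : ℕ) : ℝ)) *
      (Φ b (EE q e h P c z (2 ^ k * y + n)) (EE q e h R c' z' (2 ^ k * y + n)) : ℂ) else 0 with hF
  set g : ι → ℕ → ℝ := fun i b => if b ∈ B i then 1 else 0 with hg
  set G : ℕ → ℂ := fun n => (e1 (Q.eval ((2 ^ k * y + (n + s) : ℕ) : ℝ)) *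
        (Ψ (EE q e h P c z (2 ^ k * y + (n + s))) (EE q e h R c' z' (2 ^ k * y + (n + s))) : ℂ)) *
        (starRingEnd ℂ) (e1 (Q.eval ((2 ^ k * y + n : ℕ) : ℝ)) *
          (Ψ (EE q e h P c z (2 ^ k * y + n)) (EE q e h R c' z' (2 ^ k * y + n)) : ℂ)) with hG
  have hGn : ∀ n, ‖G n‖ ≤ 1 := by
    intro n
    rw [hG]
    simp only [norm_mul, RCLike.norm_conj, norm_e1, one_mul, Complex.norm_real, Real.norm_eq_abs]
    have := mul_le_mul (hΨ (EE q e h P c z (2 ^ k * y + (n + s)))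
      (EE q e h R c' z' (2 ^ k * y + (n + s)))) (hΨ (EE q e h P c z (2 ^ k * y + n))
      (EE q e h R c' z' (2 ^ k * y + n))) (abs_nonneg _) zero_le_one
    simpa using this
  have hg0 : ∀ i b, 0 ≤ g i b := by
    intro i b
    rw [hg]
    simp only
    split_ifs <;> norm_num
  -- the pointwise comparison
  have hpt : ∀ n, ‖G n - F ((2 ^ k * y + n) % M) n‖ ≤
      ∑ i, g i ((2 ^ k * y + n) % q i ^ L i) := by
    intro n
    have hmod : ∀ i, (2 ^ k * y + n) % M % q i ^ L i = (2 ^ k * y + n) % q i ^ L i :=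
      fun i => Nat.mod_mod_of_dvd _ (hMdvd i)
    by_cases hgood : ∀ i, (2 ^ k * y + n) % q i ^ L i ∉ B i
    · have hF' : F ((2 ^ k * y + n) % M) n = G n := by
        rw [hF, hG]
        simp only [hmod]
        rw [if_pos hgood]
        have eP : EE q e h P c z (2 ^ k * y + (n + s)) =
            EE q e h P c z (2 ^ k * y + n) + dP ((2 ^ k * y + n) % M) := by
          funext i
          simp only [EE, Pi.add_apply, hdP, hmod, ← add_assoc]
          exact (hBdep i (2 ^ k * y + n) (hgood i)).1 (c i) (z i) (hB.cle i) (hB.zlt i)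
        have eR : EE q e h R c' z' (2 ^ k * y + (n + s)) =
            EE q e h R c' z' (2 ^ k * y + n) + dR ((2 ^ k * y + n) % M) := by
          funext i
          simp only [EE, Pi.add_apply, hdR, hmod, ← add_assoc]
          exact (hBdep i (2 ^ k * y + n) (hgood i)).2 (c' i) (z' i) (hB'.cle i) (hB'.zlt i)
        rw [eP, eR, map_mul, conj_e1, Complex.conj_ofReal, hΦ, hQs]
        simp only [Polynomial.eval_sub, Polynomial.taylor_eval]
        have e0 : (((2 ^ k * y + n : ℕ) : ℝ) + (s : ℝ)) = ((2 ^ k * y + (n + s) : ℕ) : ℝ) := by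
          push_cast
          ring
        rw [e0, sub_eq_add_neg, e1_add]
        push_cast
        ring
      rw [hF', sub_self, norm_zero]
      exact Finset.sum_nonneg fun i _ => hg0 i _
    · have hF' : F ((2 ^ k * y + n) % M) n = 0 := by
        rw [hF]
        simp only [hmod]
        rw [if_neg hgood]
      rw [hF', sub_zero]
      refine (hGn n).trans ?_
      push Not at hgood
      obtain ⟨i, hi⟩ := hgood
      have h1 : g i ((2 ^ k * y + n) % q i ^ L i) = 1 := by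
        rw [hg]
        exact if_pos hi
      rw [← h1]
      exact Finset.single_le_sum (f := fun i => g i ((2 ^ k * y + n) % q i ^ L i))
        (fun i _ => hg0 i _) (Finset.mem_univ i)
  -- the number of bad integers
  have hbad : ∑ n ∈ Finset.range (2 ^ k), ∑ i, g i ((2 ^ k * y + n) % q i ^ L i) ≤
      δ / 2 * (2 ^ k : ℕ) := by
    rw [Finset.sum_comm]
    have h1 : ∀ i, ∑ n ∈ Finset.range (2 ^ k), g i ((2 ^ k * y + n) % q i ^ L i) ≤
        η * (2 ^ k : ℕ) + 2 * (q i : ℝ) ^ L i := by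
      intro i
      have h2 := per_av (S.base i) (g := g i) (A := 1) 0 (L i) (fun n _ => by
        rw [abs_of_nonneg (hg0 i n), hg]
        simp only
        split_ifs <;> norm_num) hX1 (2 ^ k * y)
      simp only [pow_zero, Nat.div_one, zero_add] at h2
      have h3 : av (q i) (L i) (g i) ≤ η := by
        unfold av
        rw [div_le_iff₀ (qpow_posR (S.base i) _)]
        refine le_trans ?_ (hBcard i)
        rw [hg]
        simp only
        rw [Finset.sum_ite_mem, Finset.sum_const, nsmul_eq_mul, mul_one]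
        exact_mod_cast Finset.card_le_card Finset.inter_subset_right
      have h4 := (abs_le.1 h2).2
      have h5 : (∑ n ∈ Finset.range (2 ^ k), g i ((2 ^ k * y + n) % q i ^ L i)) /
          ((2 ^ k : ℕ) : ℝ) ≤ η + 2 * 1 * (q i : ℝ) ^ L i / ((2 ^ k : ℕ) : ℝ) := by linarith
      rw [div_le_iff₀ hXr, add_mul, div_mul_cancel₀ _ hXr.ne'] at h5
      linarith
    refine (Finset.sum_le_sum fun i _ => h1 i).trans ?_
    rw [Finset.sum_add_distrib, Finset.sum_const, Finset.card_univ, nsmul_eq_mul]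
    have h6 : (Fintype.card ι : ℝ) * (η * (2 ^ k : ℕ)) ≤ δ / 4 * (2 ^ k : ℕ) := by
      rw [← mul_assoc]
      refine mul_le_mul_of_nonneg_right ?_ hXr.le
      rw [hη, mul_div_assoc', div_le_iff₀ (by positivity)]
      nlinarith
    linarith
  -- the main part
  have hmain : ‖∑ n ∈ Finset.range (2 ^ k), F ((2 ^ k * y + n) % M) n‖ ≤ δ / 2 * (2 ^ k : ℕ) := by
    have e1' : ∀ n, F ((2 ^ k * y + n) % M) n = ∑ b ∈ Finset.range M,
        (if (2 ^ k * y + n) % M = b then (1 : ℂ) else 0) * F b n := by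
      intro n
      simp only [ite_mul, one_mul, zero_mul]
      rw [Finset.sum_ite_eq, if_pos (Finset.mem_range.2 (Nat.mod_lt _ (by omega)))]
    simp only [e1']
    rw [Finset.sum_comm]
    refine (norm_sum_le _ _).trans ?_
    refine (Finset.sum_le_card_nsmul _ _ (ε * (2 ^ k : ℕ)) fun b hb => ?_).trans (le_of_eq ?_)
    · by_cases hgood : ∀ i, b % q i ^ L i ∉ B i
      · have h1 := hk y hy c z c' z' hB hB' (Φ b) (hΦ1 b) b (Finset.mem_range.1 hb)
        unfold avc at h1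
        rw [norm_div, norm_pow, Complex.norm_natCast, div_le_iff₀ (by positivity)] at h1
        refine le_trans (le_of_eq ?_) (h1.trans (le_of_eq ?_))
        · congr 1
          refine Finset.sum_congr rfl fun n _ => ?_
          rw [hF]
          simp only
          rw [if_pos hgood]
        · push_cast
          ring
      · have h1 : ∀ n, F b n = 0 := by
          intro n
          rw [hF]
          simp only
          rw [if_neg hgood]
        simp only [h1, mul_zero, Finset.sum_const_zero, norm_zero]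
        positivity
    · rw [Finset.card_range, nsmul_eq_mul, hε]
      field_simp
  have hsplit : ∑ n ∈ Finset.range (2 ^ k), G n =
      ∑ n ∈ Finset.range (2 ^ k), (G n - F ((2 ^ k * y + n) % M) n) +
        ∑ n ∈ Finset.range (2 ^ k), F ((2 ^ k * y + n) % M) n := by
    rw [← Finset.sum_add_distrib]
    refine Finset.sum_congr rfl fun n _ => ?_
    ring
  change ‖∑ n ∈ Finset.range (2 ^ k), G n‖ ≤ _
  rw [hsplit]
  refine (norm_add_le _ _).trans ?_
  have h1 : ‖∑ n ∈ Finset.range (2 ^ k), (G n - F ((2 ^ k * y + n) % M) n)‖ ≤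
      δ / 2 * (2 ^ k : ℕ) :=
    ((norm_sum_le _ _).trans (Finset.sum_le_sum fun n _ => hpt n)).trans hbad
  linarith

/-- the induction step -/
theorem TW_step (S : Sys q m e C) {P R : ι → ℕ} (hPR : Mul q m P R) {Q : Polynomial ℝ} (h Y : ℕ)
    (hQ : ∀ s : ℕ, 1 ≤ s → ∀ M : ℕ, 1 ≤ M → ∀ j < M, TW q e P R h Y
      ((Polynomial.taylor (s : ℝ) Q - Q) + Polynomial.C ((j : ℝ) / M) * Polynomial.X)) :
    TW q e P R h Y Q := by
  intro ε hε
  obtain ⟨H, hH⟩ : ∃ H : ℕ, 16 / ε ^ 2 + 1 ≤ H := exists_nat_ge _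
  have hHr : (0 : ℝ) < H := by
    have : 0 < 16 / ε ^ 2 := by positivity
    linarith
  have hH1 : 1 ≤ H := by exact_mod_cast hHr
  have hHinv : 1 / (H : ℝ) ≤ ε ^ 2 / 16 := by
    rw [div_le_iff₀ hHr]
    have h1 : 16 / ε ^ 2 ≤ H := by linarith
    rw [div_le_iff₀ (by positivity)] at h1
    linarith
  set δ : ℝ := ε ^ 2 / 16 with hδ
  have hδ0 : 0 < δ := by positivity
  have hall : ∀ᶠ k : ℕ in atTop, ∀ s ∈ Finset.Ico 1 H, ∀ y ≤ Y, ∀ c z c' z' : ι → ℕ,
      Bd q h P c z → Bd q h R c' z' →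
      ∀ Ψ : (∀ i, Fin (d i) → ℤ) → (∀ i, Fin (d i) → ℤ) → ℝ, (∀ x x', |Ψ x x'| ≤ 1) →
      ‖∑ n ∈ Finset.range (2 ^ k), (e1 (Q.eval ((2 ^ k * y + (n + s) : ℕ) : ℝ)) *
        (Ψ (EE q e h P c z (2 ^ k * y + (n + s))) (EE q e h R c' z' (2 ^ k * y + (n + s))) : ℂ)) *
        (starRingEnd ℂ) (e1 (Q.eval ((2 ^ k * y + n : ℕ) : ℝ)) *
          (Ψ (EE q e h P c z (2 ^ k * y + n)) (EE q e h R c' z' (2 ^ k * y + n)) : ℂ))‖ ≤
        δ * (2 ^ k : ℕ) := by
    rw [Filter.eventually_all_finset]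
    intro s hs
    exact corr S hPR h Y s (hQ s (Finset.mem_Ico.1 hs).1) hδ0
  have hlarge : ∀ᶠ k : ℕ in atTop, 2 * (H : ℝ) ≤ min (ε / 2) (ε ^ 2 / 16) * (2 ^ k : ℕ) := by
    have h1 : Tendsto (fun k : ℕ => min (ε / 2) (ε ^ 2 / 16) * ((2 ^ k : ℕ) : ℝ)) atTop atTop := by
      refine Tendsto.const_mul_atTop (by positivity) ?_
      push_cast
      exact tendsto_pow_atTop_atTop_of_one_lt (by norm_num)
    exact h1.eventually_ge_atTop _
  filter_upwards [hall, hlarge] with k hk hk2 y hy c z c' z' hB hB' Ψ hΨ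
  have hX1 : 1 ≤ 2 ^ k := Nat.one_le_two_pow
  have hXr : (0 : ℝ) < ((2 ^ k : ℕ) : ℝ) := by exact_mod_cast hX1
  have hv := vdc hX1 hH1 (U := fun n => e1 (Q.eval ((2 ^ k * y + n : ℕ) : ℝ)) *
    (Ψ (EE q e h P c z (2 ^ k * y + n)) (EE q e h R c' z' (2 ^ k * y + n)) : ℂ)) (fun n => by
      rw [norm_mul, norm_e1, one_mul, Complex.norm_real, Real.norm_eq_abs]
      exact hΨ _ _) hδ0.le
    (fun s hs1 hs2 => hk s (Finset.mem_Ico.2 ⟨hs1, hs2⟩) y hy c z c' z' hB hB' Ψ hΨ)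
  unfold avc
  rw [norm_div, norm_pow, Complex.norm_natCast, div_le_iff₀ (by positivity)]
  have e2 : (((2 : ℕ) : ℝ)) ^ k = ((2 ^ k : ℕ) : ℝ) := by push_cast; ring
  rw [e2]
  refine hv.trans ?_
  have m1 : 2 * (H : ℝ) ≤ ε / 2 * (2 ^ k : ℕ) :=
    hk2.trans (mul_le_mul_of_nonneg_right (min_le_left _ _) hXr.le)
  have m2 : 2 * (H : ℝ) ≤ ε ^ 2 / 16 * (2 ^ k : ℕ) :=
    hk2.trans (mul_le_mul_of_nonneg_right (min_le_right _ _) hXr.le)
  have m3 : 2 * (H : ℝ) / (2 ^ k : ℕ) ≤ ε ^ 2 / 16 := by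
    rw [div_le_iff₀ hXr]
    exact m2
  have m4 : Real.sqrt (1 / H + δ + 2 * H / (2 ^ k : ℕ)) ≤ ε / 2 := by
    apply Real.sqrt_le_iff.2
    refine ⟨by positivity, ?_⟩
    have : (ε / 2) ^ 2 = ε ^ 2 / 4 := by ring
    rw [this]
    have : 0 < ε ^ 2 := by positivity
    linarith
  have m5 := mul_le_mul_of_nonneg_left m4 hXr.le
  linarith

end several

end WP

open WP

section several

variable {ι : Type*} [Fintype ι] [DecidableEq ι] {q : ι → ℕ} {m : ℕ} {d : ι → ℕ}
  {e : ∀ i, ℕ → Fin (d i) → ℤ} {C : ℝ}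

/-- W5: irrational polynomials -/
theorem tw_poly (S : Sys q m e C) {P R : ι → ℕ} (hPR : Mul q m P R) {Q : Polynomial ℝ}
    (hQ1 : 1 ≤ Q.natDegree) (hQ : Irrational Q.leadingCoeff) (h Y : ℕ) {ε : ℝ} (hε : 0 < ε) :
    ∀ᶠ k : ℕ in atTop, ∀ y ≤ Y, ∀ c z c' z' : ι → ℕ, Bd q h P c z → Bd q h R c' z' →
      ∀ Ψ : (∀ i, Fin (d i) → ℤ) → (∀ i, Fin (d i) → ℤ) → ℝ, (∀ x x', |Ψ x x'| ≤ 1) →
        ‖avc 2 k (fun n => Complex.exp (2 * Real.pi * Complex.I *
            ((Q.eval ((2 ^ k * y + n : ℕ) : ℝ) : ℝ) : ℂ)) *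
          (Ψ (EE q e h P c z (2 ^ k * y + n)) (EE q e h R c' z' (2 ^ k * y + n)) : ℂ))‖ ≤ ε := by
  have key : ∀ D ≥ 1, ∀ Q : Polynomial ℝ, Q.natDegree ≤ D → Irrational (Q.coeff D) →
      TW q e P R h Y Q := by
    intro D hD
    induction D, hD using Nat.le_induction with
    | base =>
      intro Q hd hQ ε hε
      filter_upwards [tw_one S hPR hQ h Y hε] with k hk y hy c z c' z' hB hB' Ψ hΨ
      have h1 := hk y hy c z c' z' hB hB' Ψ hΨ
      have e0 : (fun n : ℕ => e1 (Q.eval ((2 ^ k * y + n : ℕ) : ℝ)) *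
          (Ψ (EE q e h P c z (2 ^ k * y + n)) (EE q e h R c' z' (2 ^ k * y + n)) : ℂ)) =
          fun n : ℕ => e1 (Q.coeff 0) * (Complex.exp (2 * Real.pi * Complex.I *
            ((Q.coeff 1 * ((2 ^ k * y + n : ℕ) : ℝ) : ℝ) : ℂ)) *
          (Ψ (EE q e h P c z (2 ^ k * y + n)) (EE q e h R c' z' (2 ^ k * y + n)) : ℂ)) := by
        funext n
        rw [Polynomial.eval_eq_sum_range' (Nat.lt_succ_of_le hd)]
        simp only [Finset.sum_range_succ, Finset.range_zero, Finset.sum_empty, zero_add,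
          pow_zero, mul_one, pow_one]
        rw [e1_add, mul_assoc]
        rfl
      rw [e0, avc_const_mul, norm_mul, norm_e1, one_mul]
      exact h1
    | succ D hD ih =>
      intro Q hd hQ
      refine TW_step S hPR h Y fun s hs M _ j _ => ?_
      obtain ⟨a1, a2⟩ := diff_poly hd hQ hs
      obtain ⟨b1, b2⟩ := lin_poly hD a1 a2 j M
      exact ih _ b1 b2
  exact key Q.natDegree hQ1 Q le_rfl hQ ε hε

end several

end Pool.Agent.Lib.MP_3e612f_nt.MB
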