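import Pool.Agent.Lib.MP_3e612f_nt.Det

/-!
Energy increment for the distance from `μ` to the zero-entropy sequences, in the seminorm given by
logarithmic averages.
-/

set_option autoImplicit false

namespace Pool.Agent.Lib.MP_3e612f_nt

open Filter Topology Set

/-- the logarithmic average `(1 / log N) ∑_{n ≤ N} u n / n` -/
noncomputable def LogAvg (u : ℕ → ℝ) (N : ℕ) : ℝ :=
  (1 / Real.log N) * ∑ n ∈ Finset.Icc 1 N, u n / n

/-- the Möbius function with real values -/
noncomputable def mu (n : ℕ) : ℝ := ((ArithmeticFunction.moebius n : ℤ) : ℝ)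

theorem abs_mu_le (n : ℕ) : |mu n| ≤ 1 := by
  unfold mu
  exact_mod_cast ArithmeticFunction.abs_moebius_le_one

theorem LogAvg_add (u v : ℕ → ℝ) (N : ℕ) :
    LogAvg (fun n => u n + v n) N = LogAvg u N + LogAvg v N := by
  unfold LogAvg
  rw [← mul_add, ← Finset.sum_add_distrib]
  congr 1
  exact Finset.sum_congr rfl fun n _ => by ring

theorem LogAvg_sub (u v : ℕ → ℝ) (N : ℕ) :
    LogAvg (fun n => u n - v n) N = LogAvg u N - LogAvg v N := by
  unfold LogAvg
  rw [← mul_sub, ← Finset.sum_sub_distrib]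
  congr 1
  exact Finset.sum_congr rfl fun n _ => by ring

theorem LogAvg_const_mul (c : ℝ) (u : ℕ → ℝ) (N : ℕ) :
    LogAvg (fun n => c * u n) N = c * LogAvg u N := by
  unfold LogAvg
  rw [mul_left_comm]
  congr 1
  rw [Finset.mul_sum]
  exact Finset.sum_congr rfl fun n _ => by ring

theorem LogAvg_neg (u : ℕ → ℝ) (N : ℕ) : LogAvg (fun n => - u n) N = - LogAvg u N := by
  have := LogAvg_const_mul (-1) u N
  simpa using this

theorem LogAvg_congr {u v : ℕ → ℝ} {N : ℕ} (h : ∀ n, 1 ≤ n → n ≤ N → u n = v n) :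
    LogAvg u N = LogAvg v N := by
  unfold LogAvg
  congr 1
  refine Finset.sum_congr rfl fun n hn => ?_
  rw [Finset.mem_Icc] at hn
  rw [h n hn.1 hn.2]

theorem log_ge_one {N : ℕ} (hN : 3 ≤ N) : 1 ≤ Real.log N := by
  have hNr : (3 : ℝ) ≤ N := by exact_mod_cast hN
  have h1 : Real.exp 1 ≤ N := by linarith [Real.exp_one_lt_d9]
  calc (1 : ℝ) = Real.log (Real.exp 1) := (Real.log_exp 1).symm
    _ ≤ Real.log N := Real.log_le_log (Real.exp_pos 1) h1

theorem LogAvg_mono {u v : ℕ → ℝ} {N : ℕ} (h : ∀ n, 1 ≤ n → u n ≤ v n) :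
    LogAvg u N ≤ LogAvg v N := by
  unfold LogAvg
  refine mul_le_mul_of_nonneg_left (Finset.sum_le_sum fun n hn => ?_)
    (one_div_nonneg.mpr (Real.log_natCast_nonneg N))
  rw [Finset.mem_Icc] at hn
  exact div_le_div_of_nonneg_right (h n hn.1) (Nat.cast_nonneg n)

theorem LogAvg_one_le {N : ℕ} (hN : 3 ≤ N) : LogAvg (fun _ => 1) N ≤ 1 + 1 / Real.log N := by
  have hlog := log_ge_one hN
  unfold LogAvg
  have h1 := harmonic_le_one_add_log N
  rw [harmonic_eq_sum_Icc] at h1
  push_cast at h1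
  have h2 : ∑ n ∈ Finset.Icc 1 N, (1 : ℝ) / n ≤ 1 + Real.log N := by simpa [one_div] using h1
  calc 1 / Real.log N * ∑ n ∈ Finset.Icc 1 N, (1 : ℝ) / n
      ≤ 1 / Real.log N * (1 + Real.log N) := mul_le_mul_of_nonneg_left h2 (by positivity)
    _ = 1 + 1 / Real.log N := by
        have : Real.log N ≠ 0 := by linarith
        field_simp
        ring

theorem LogAvg_le {u : ℕ → ℝ} {C : ℝ} (hC : 0 ≤ C) (h : ∀ n, u n ≤ C) {N : ℕ} (hN : 3 ≤ N) :
    LogAvg u N ≤ 2 * C := by
  have hlog := log_ge_one hN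
  calc LogAvg u N ≤ LogAvg (fun _ => C * 1) N := LogAvg_mono fun n _ => by simpa using h n
    _ = C * LogAvg (fun _ => 1) N := LogAvg_const_mul C _ N
    _ ≤ C * (1 + 1 / Real.log N) := mul_le_mul_of_nonneg_left (LogAvg_one_le hN) hC
    _ ≤ 2 * C := by
        have : 1 / Real.log N ≤ 1 := by
          rw [div_le_one (by linarith)]
          exact hlog
        nlinarith

theorem LogAvg_nonneg {u : ℕ → ℝ} (h : ∀ n, 0 ≤ u n) (N : ℕ) : 0 ≤ LogAvg u N := by
  unfold LogAvg
  refine mul_nonneg (one_div_nonneg.mpr (Real.log_natCast_nonneg N)) ?_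
  exact Finset.sum_nonneg fun n _ => div_nonneg (h n) (Nat.cast_nonneg n)

/-- dilation and its adjoint -/
theorem LogAvg_dilation {u : ℕ → ℝ} {C : ℝ} (h : ∀ n, |u n| ≤ C) {m : ℕ} (hm : 1 ≤ m) {N : ℕ}
    (hN : 3 ≤ N) :
    |LogAvg (fun n => u (m * n)) N - LogAvg (fun k => if m ∣ k then m * u k else 0) N| ≤
      C * m / Real.log N := by
  classical
  have hlog := log_ge_one hN
  have hC : 0 ≤ C := (abs_nonneg _).trans (h 0)
  have hm' : (0 : ℝ) < m := by exact_mod_cast hm
  have hN' : (0 : ℝ) < N := by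
    have : 0 < N := by omega
    exact_mod_cast this
  unfold LogAvg
  rw [← mul_sub]
  -- the second sum
  have h2 : ∑ k ∈ Finset.Icc 1 N, (if m ∣ k then m * u k else 0) / (k : ℝ) =
      ∑ n ∈ (Finset.Icc 1 N).filter (fun n => m * n ≤ N), u (m * n) / n := by
    have e1 : ∑ k ∈ Finset.Icc 1 N, (if m ∣ k then m * u k else 0) / (k : ℝ) =
        ∑ k ∈ (Finset.Icc 1 N).filter (fun k => m ∣ k), m * u k / (k : ℝ) := by
      rw [Finset.sum_filter]
      refine Finset.sum_congr rfl fun k _ => ?_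
      split_ifs <;> simp
    rw [e1]
    symm
    refine Finset.sum_bij (fun n _ => m * n) ?_ ?_ ?_ ?_
    · intro n hn
      simp only [Finset.mem_filter, Finset.mem_Icc] at hn ⊢
      exact ⟨⟨Nat.mul_pos hm hn.1.1, hn.2⟩, Dvd.intro _ rfl⟩
    · intro a _ b _ hab
      exact Nat.eq_of_mul_eq_mul_left hm hab
    · intro k hk
      simp only [Finset.mem_filter, Finset.mem_Icc] at hk
      obtain ⟨⟨h1, h2⟩, n, rfl⟩ := hk
      refine ⟨n, ?_, rfl⟩
      simp only [Finset.mem_filter, Finset.mem_Icc]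
      refine ⟨⟨?_, ?_⟩, h2⟩
      · rcases Nat.eq_zero_or_pos n with h0 | h0
        · subst h0
          simp at h1
        · exact h0
      · nlinarith
    · intro n hn
      simp only [Finset.mem_filter, Finset.mem_Icc] at hn
      have hn' : (n : ℝ) ≠ 0 := by
        have : n ≠ 0 := by omega
        exact_mod_cast this
      push_cast
      field_simp
  rw [h2, ← Finset.sum_filter_add_sum_filter_not (Finset.Icc 1 N) (fun n => m * n ≤ N),
    add_sub_cancel_left, abs_mul, abs_of_nonneg (by positivity : 0 ≤ 1 / Real.log N)]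
  have h3 : |∑ n ∈ (Finset.Icc 1 N).filter (fun n => ¬ m * n ≤ N), u (m * n) / n| ≤ C * m := by
    refine (Finset.abs_sum_le_sum_abs _ _).trans ?_
    calc ∑ n ∈ (Finset.Icc 1 N).filter (fun n => ¬ m * n ≤ N), |u (m * n) / n|
        ≤ ∑ n ∈ (Finset.Icc 1 N).filter (fun n => ¬ m * n ≤ N), C * m / N := by
          refine Finset.sum_le_sum fun n hn => ?_
          simp only [Finset.mem_filter, Finset.mem_Icc, not_le] at hn
          have hn' : (0 : ℝ) < n := by exact_mod_cast hn.1.1
          have hmn : (N : ℝ) ≤ m * n := by exact_mod_cast hn.2.le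
          rw [abs_div, abs_of_pos hn', div_le_div_iff₀ hn' hN']
          have h4 := h (m * n)
          calc |u (m * n)| * N ≤ C * (m * n) := mul_le_mul h4 hmn hN'.le hC
            _ = C * m * n := by ring
      _ = ((Finset.Icc 1 N).filter (fun n => ¬ m * n ≤ N)).card * (C * m / N) := by
          rw [Finset.sum_const, nsmul_eq_mul]
      _ ≤ N * (C * m / N) := by
          refine mul_le_mul_of_nonneg_right ?_ (by positivity)
          have : ((Finset.Icc 1 N).filter (fun n => ¬ m * n ≤ N)).card ≤ N := by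
            refine (Finset.card_filter_le _ _).trans ?_
            simp
          exact_mod_cast this
      _ = C * m := by field_simp
  calc 1 / Real.log N * _ ≤ 1 / Real.log N * (C * m) :=
        mul_le_mul_of_nonneg_left h3 (by positivity)
    _ = C * m / Real.log N := by ring

/-- the square distance to `μ` minus the square norm of `μ` -/
noncomputable def En (a : ℕ → ℝ) (N : ℕ) : ℝ := LogAvg (fun n => a n ^ 2 - 2 * (mu n * a n)) N

theorem En_ge (a : ℕ → ℝ) {N : ℕ} (hN : 3 ≤ N) : -2 ≤ En a N := by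
  have h1 : En a N ≥ LogAvg (fun n => -1) N := by
    unfold En
    refine LogAvg_mono fun n _ => ?_
    have := abs_le.mp (abs_mu_le n)
    nlinarith [sq_nonneg (a n - mu n)]
  have h2 : LogAvg (fun _ => -1) N = - LogAvg (fun _ => 1) N := LogAvg_neg (fun _ => 1) N
  have h3 := LogAvg_le (u := fun _ => 1) zero_le_one (fun _ => le_rfl) hN
  linarith

/-- truncation to `[-1, 1]` -/
noncomputable def clamp (s : ℝ) : ℝ := max (-1) (min 1 s)

theorem clamp_abs (s : ℝ) : |clamp s| ≤ 1 := by
  unfold clamp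
  rw [abs_le]
  exact ⟨le_max_left _ _, max_le (by norm_num) (min_le_left _ _)⟩

theorem clamp_cont : Continuous clamp := by
  unfold clamp
  fun_prop

theorem clamp_dist {s r : ℝ} (hr : |r| ≤ 1) : (clamp s - r) ^ 2 ≤ (s - r) ^ 2 := by
  rw [abs_le] at hr
  unfold clamp
  rcases le_total s 1 with h1 | h1
  · rw [min_eq_right h1]
    rcases le_total (-1) s with h2 | h2
    · rw [max_eq_right h2]
    · rw [max_eq_left h2]
      nlinarith
  · rw [min_eq_left h1, max_eq_right (by norm_num)]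
    nlinarith

theorem En_step {a v : ℕ → ℝ} {V ε t : ℝ} (hV : 0 < V) (hε : 0 < ε) (hv : ∀ n, |v n| ≤ V)
    {N : ℕ} (hN : 3 ≤ N) (ht : t = ε / (2 * V ^ 2) ∨ t = - (ε / (2 * V ^ 2)))
    (hI : ε ≤ (2 * V ^ 2 / ε) * t * LogAvg (fun n => (mu n - a n) * v n) N) :
    En (fun n => clamp (a n + t * v n)) N ≤ En a N - ε ^ 2 / (2 * V ^ 2) := by
  set I := LogAvg (fun n => (mu n - a n) * v n) N with hIdef
  have h1 : En (fun n => clamp (a n + t * v n)) N ≤
      En a N - 2 * t * I + t ^ 2 * LogAvg (fun n => v n ^ 2) N := by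
    have e : En a N - 2 * t * I + t ^ 2 * LogAvg (fun n => v n ^ 2) N =
        LogAvg (fun n => (a n ^ 2 - 2 * (mu n * a n)) - (2 * t) * ((mu n - a n) * v n) +
          t ^ 2 * v n ^ 2) N := by
      rw [LogAvg_add, LogAvg_sub, LogAvg_const_mul, LogAvg_const_mul]
      rfl
    rw [e]
    unfold En
    refine LogAvg_mono fun n _ => ?_
    have := clamp_dist (s := a n + t * v n) (abs_mu_le n)
    nlinarith
  have h2 : LogAvg (fun n => v n ^ 2) N ≤ 2 * V ^ 2 := by
    refine LogAvg_le (by positivity) (fun n => ?_) hN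
    rw [← sq_abs]
    exact pow_le_pow_left₀ (abs_nonneg _) (hv n) 2
  have h3 : t ^ 2 = (ε / (2 * V ^ 2)) ^ 2 := by
    rcases ht with rfl | rfl <;> ring
  have h4 : ε ^ 2 / (2 * V ^ 2) ≤ t * I := by
    have h5 : ε ≤ (2 * V ^ 2 / ε) * (t * I) := by linarith [hI, mul_assoc (2 * V ^ 2 / ε) t I]
    rw [div_mul_eq_mul_div, le_div_iff₀ hε] at h5
    rw [div_le_iff₀ (by positivity)]
    nlinarith
  have h5 : t ^ 2 * LogAvg (fun n => v n ^ 2) N ≤ ε ^ 2 / (2 * V ^ 2) := by
    calc t ^ 2 * LogAvg (fun n => v n ^ 2) N ≤ t ^ 2 * (2 * V ^ 2) :=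
          mul_le_mul_of_nonneg_left h2 (sq_nonneg t)
      _ = ε ^ 2 / (2 * V ^ 2) := by
          rw [h3]
          field_simp
  linarith

/-- Energy increment. If `μ` correlates with a zero-entropy sequence `a₀` then it correlates with
a zero-entropy sequence `a` for which `μ - a` is nearly orthogonal to finitely many given
zero-entropy sequences built from `a`. -/
theorem exists_increment {ι : Type*} [Finite ι] (τ : ι → (ℕ → ℝ) → ℕ → ℝ) {V : ℝ} (hV : 0 < V)
    (hτ : ∀ i a, Det a → (∀ n, |a n| ≤ 1) → Det (τ i a) ∧ ∀ n, |τ i a n| ≤ V)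
    {ε c : ℝ} (hε : 0 < ε) (hc : 0 < c) (hc1 : c ≤ 1) {a₀ : ℕ → ℝ} (ha₀ : Det a₀)
    (hb₀ : ∀ n, |a₀ n| ≤ 1) (h₀ : ∃ᶠ N in atTop, c ≤ LogAvg (fun n => mu n * a₀ n) N) :
    ∃ a, Det a ∧ (∀ n, |a n| ≤ 1) ∧ ∃ᶠ N in atTop, c ^ 2 / 4 ≤ LogAvg (fun n => mu n * a n) N ∧
      ∀ i, |LogAvg (fun n => (mu n - a n) * τ i a n) N| ≤ ε := by
  by_contra hcon
  push Not at hcon
  have key : ∀ k : ℕ, ∃ a, Det a ∧ (∀ n, |a n| ≤ 1) ∧
      ∃ᶠ N in atTop, En a N ≤ - c ^ 2 / 2 - k * (ε ^ 2 / (2 * V ^ 2)) := by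
    intro k
    induction k with
    | zero =>
      refine ⟨fun n => c * a₀ n, ha₀.map (φ := fun s => c * s) (by fun_prop), fun n => ?_, ?_⟩
      · rw [abs_mul, abs_of_pos hc]
        exact mul_le_one₀ hc1 (abs_nonneg _) (hb₀ n)
      · have hlim : ∀ᶠ N : ℕ in atTop, 1 / Real.log N ≤ 1 / 2 := by
          have h1 : Tendsto (fun N : ℕ => Real.log N) atTop atTop :=
            Real.tendsto_log_atTop.comp tendsto_natCast_atTop_atTop
          filter_upwards [h1.eventually_ge_atTop 2] with N hN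
          exact one_div_le_one_div_of_le (by norm_num) hN
        refine (h₀.and_eventually (hlim.and (eventually_ge_atTop 3))).mono ?_
        rintro N ⟨hN, hl, h3⟩
        have e : En (fun n => c * a₀ n) N =
            c ^ 2 * LogAvg (fun n => a₀ n ^ 2) N - 2 * c * LogAvg (fun n => mu n * a₀ n) N := by
          rw [← LogAvg_const_mul, ← LogAvg_const_mul, ← LogAvg_sub]
          unfold En
          exact LogAvg_congr fun n _ _ => by ring
        have h4 : LogAvg (fun n => a₀ n ^ 2) N ≤ 3 / 2 := by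
          have h5 : LogAvg (fun n => a₀ n ^ 2) N ≤ LogAvg (fun _ => 1) N := by
            refine LogAvg_mono fun n _ => ?_
            rw [← sq_abs]
            exact pow_le_one₀ (abs_nonneg _) (hb₀ n)
          linarith [LogAvg_one_le h3]
        rw [e]
        push_cast
        nlinarith [mul_le_mul_of_nonneg_left h4 (sq_nonneg c), mul_le_mul_of_nonneg_left hN hc.le]
    | succ k ih =>
      obtain ⟨a, ha, hb, hfr⟩ := ih
      have h1 := hcon a ha hb
      -- along the good scales some test fails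
      have h2 : ∃ᶠ N in atTop, ∃ i : ι, ∃ s : Bool,
          3 ≤ N ∧ En a N ≤ - c ^ 2 / 2 - k * (ε ^ 2 / (2 * V ^ 2)) ∧
          ε ≤ (if s then 1 else -1) * LogAvg (fun n => (mu n - a n) * τ i a n) N := by
        refine (hfr.and_eventually (h1.and (eventually_ge_atTop 3))).mono ?_
        rintro N ⟨hN, hno, h3⟩
        have h4 : c ^ 2 / 4 ≤ LogAvg (fun n => mu n * a n) N := by
          have e : En a N = LogAvg (fun n => a n ^ 2) N - 2 * LogAvg (fun n => mu n * a n) N := by
            rw [← LogAvg_const_mul, ← LogAvg_sub]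
            rfl
          have h5 : 0 ≤ LogAvg (fun n => a n ^ 2) N := LogAvg_nonneg (fun n => sq_nonneg _) N
          have h6 : 0 ≤ (k : ℝ) * (ε ^ 2 / (2 * V ^ 2)) := by positivity
          linarith
        obtain ⟨i, hi⟩ := hno h4
        rw [lt_abs] at hi
        rcases hi with hi | hi
        · exact ⟨i, true, h3, hN, by simpa using hi.le⟩
        · exact ⟨i, false, h3, hN, by simpa using hi.le⟩
      have h3 : ∃ i : ι, ∃ s : Bool, ∃ᶠ N in atTop,
          3 ≤ N ∧ En a N ≤ - c ^ 2 / 2 - k * (ε ^ 2 / (2 * V ^ 2)) ∧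
          ε ≤ (if s then 1 else -1) * LogAvg (fun n => (mu n - a n) * τ i a n) N := by
        by_contra hall
        rw [not_exists] at hall
        have h4 := eventually_all.mpr fun i => eventually_all.mpr fun s =>
          not_frequently.mp fun h => hall i ⟨s, h⟩
        refine h2 (h4.mono fun N hN => ?_)
        rintro ⟨i, s, h5⟩
        exact hN i s h5
      obtain ⟨i, s, hfr'⟩ := h3
      obtain ⟨hd, hv⟩ := hτ i a ha hb
      set t : ℝ := (if s then 1 else -1) * (ε / (2 * V ^ 2)) with ht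
      refine ⟨fun n => clamp (a n + t * τ i a n), ?_, fun n => clamp_abs _, ?_⟩
      · exact ha.map₂ hd (φ := fun p q => clamp (p + t * q))
          (clamp_cont.comp (by fun_prop))
      · refine hfr'.mono ?_
        rintro N ⟨h3, hN, hI⟩
        have h5 := En_step (a := a) (v := τ i a) (V := V) (ε := ε) (t := t) hV hε hv h3 ?_ ?_
        · push_cast
          linarith
        · cases s
          · right
            rw [ht]
            simp
          · left
            rw [ht]
            simp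
        · have e : 2 * V ^ 2 / ε * t = (if s then 1 else -1) := by
            rw [ht]
            field_simp
          rw [e]
          exact hI
  obtain ⟨k, hk⟩ := exists_nat_gt (2 / (ε ^ 2 / (2 * V ^ 2)))
  rw [div_lt_iff₀ (by positivity)] at hk
  obtain ⟨a, ha, hb, hfr⟩ := key k
  obtain ⟨N, hN, h3⟩ := (hfr.and_eventually (eventually_ge_atTop 3)).exists
  have := En_ge a h3
  nlinarith [sq_nonneg c]

end Pool.Agent.Lib.MP_3e612f_nt
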