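import Pool.Agent.Lib.MP_3e612f_nt.Common
import Pool.Agent.Lib.MP_3e612f_nt.Diffeo

/-!
A compactly supported diffeomorphism of `ℝⁿ`, `n ≥ 3`, which preserves all coordinates but the
first two and acts on a Cantor set of the plane spanned by these two as the two-sided full shift.
-/

set_option autoImplicit false

namespace Pool.Agent.Lib.MP_3e612f_nt

open Filter Topology Set Dynamics
open scoped ContDiff

/-- the value of a symbol -/
def sg (s : Bool) : ℝ := if s then 1 else 0

theorem sg_mem (s : Bool) : 0 ≤ sg s ∧ sg s ≤ 1 := by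
  unfold sg; split_ifs <;> norm_num

/-- one-sided sums in the direction `d` -/
noncomputable def hsum (b : ℤ → Bool) (d t : ℤ) : ℝ := ∑' i : ℕ, sg (b (t + d * i)) * (1 / 4) ^ i

theorem hsum_geom : ∑' i : ℕ, (1 / 4 : ℝ) ^ i = 4 / 3 := by
  rw [tsum_geometric_of_lt_one (by norm_num) (by norm_num)]
  norm_num

theorem hsum_summable (b : ℤ → Bool) (d t : ℤ) :
    Summable fun i : ℕ => sg (b (t + d * i)) * (1 / 4 : ℝ) ^ i := by
  refine Summable.of_nonneg_of_le (fun i => ?_) (fun i => ?_)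
    (summable_geometric_of_lt_one (by norm_num : (0 : ℝ) ≤ 1 / 4) (by norm_num))
  · have := (sg_mem (b (t + d * i))).1
    positivity
  · have := (sg_mem (b (t + d * i))).2
    nlinarith [pow_pos (show (0 : ℝ) < 1 / 4 by norm_num) i]

theorem hsum_rec (b : ℤ → Bool) (d t : ℤ) : hsum b d t = sg (b t) + hsum b d (t + d) / 4 := by
  unfold hsum
  rw [(hsum_summable b d t).tsum_eq_zero_add]
  have h1 : (fun i : ℕ => sg (b (t + d * ((i + 1 : ℕ) : ℤ))) * (1 / 4 : ℝ) ^ (i + 1)) =
      fun i : ℕ => (1 / 4) * (sg (b (t + d + d * i)) * (1 / 4) ^ i) := by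
    funext i
    have e : t + d * ((i + 1 : ℕ) : ℤ) = t + d + d * i := by push_cast; ring
    rw [e]
    ring
  rw [h1, tsum_mul_left]
  simp
  ring

theorem hsum_mem (b : ℤ → Bool) (d t : ℤ) : 0 ≤ hsum b d t ∧ hsum b d t ≤ 4 / 3 := by
  constructor
  · refine tsum_nonneg fun i => ?_
    have := (sg_mem (b (t + d * i))).1
    positivity
  · rw [← hsum_geom]
    refine Summable.tsum_le_tsum (fun i => ?_) (hsum_summable b d t)
      (summable_geometric_of_lt_one (by norm_num) (by norm_num))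
    have := (sg_mem (b (t + d * i))).2
    nlinarith [pow_pos (show (0 : ℝ) < 1 / 4 by norm_num) i]

theorem hsum_close (b : ℤ → Bool) (d : ℤ) (r : ℕ) : ∀ t t' : ℤ,
    (∀ i : ℕ, i < r → b (t + d * i) = b (t' + d * i)) →
    |hsum b d t - hsum b d t'| ≤ 2 * (1 / 4) ^ r := by
  induction r with
  | zero =>
    intro t t' _
    have h1 := hsum_mem b d t
    have h2 := hsum_mem b d t'
    rw [pow_zero, abs_le]
    constructor <;> linarith [h1.1, h1.2, h2.1, h2.2]
  | succ r ih =>
    intro t t' h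
    have h1 := ih (t + d) (t' + d) fun i hi => by
      have := h (i + 1) (by omega)
      have e : ∀ x : ℤ, x + d + d * i = x + d * ((i + 1 : ℕ) : ℤ) := by
        intro x; push_cast; ring
      rw [e, e]
      exact this
    have h2 := h 0 (Nat.succ_pos r)
    simp only [Nat.cast_zero, mul_zero, add_zero] at h2
    have h5 : hsum b d t - hsum b d t' = (1 / 4) * (hsum b d (t + d) - hsum b d (t' + d)) := by
      rw [hsum_rec b d t, hsum_rec b d t', h2]
      ring
    rw [h5, abs_mul, pow_succ', abs_of_pos (by norm_num : (0 : ℝ) < 1 / 4)]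
    nlinarith [h1]

/-- first coordinate of the point coded by the two-sided sequence shifted by `t` -/
noncomputable def hx (b : ℤ → Bool) (t : ℤ) : ℝ :=
  3 / 5 * (hsum b 1 t + hsum b (-1) t - sg (b t))

theorem hx_rec (b : ℤ → Bool) (t : ℤ) :
    hx b (t + 1) + hx b (t - 1) = 17 / 4 * hx b t - 9 / 4 * sg (b t) := by
  have h1 := hsum_rec b 1 t
  have h2 := hsum_rec b (-1) (t + 1)
  have h3 := hsum_rec b 1 (t - 1)
  have h4 := hsum_rec b (-1) t
  rw [add_neg_cancel_right] at h2
  rw [sub_add_cancel] at h3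
  rw [← sub_eq_add_neg] at h4
  unfold hx
  linarith

theorem hx_mem (b : ℤ → Bool) (t : ℤ) : 0 ≤ hx b t ∧ hx b t ≤ 1 := by
  have h1 := hsum_rec b 1 t
  have h4 := hsum_rec b (-1) t
  have h5 := hsum_mem b 1 (t + 1)
  have h6 := hsum_mem b (-1) (t + -1)
  have h7 := sg_mem (b t)
  unfold hx
  constructor <;> linarith [h5.1, h5.2, h6.1, h6.2, h7.1, h7.2]

theorem hx_false {b : ℤ → Bool} {t : ℤ} (h : b t = false) : hx b t ≤ 2 / 5 := by
  have h1 := hsum_rec b 1 t
  have h4 := hsum_rec b (-1) t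
  have h5 := hsum_mem b 1 (t + 1)
  have h6 := hsum_mem b (-1) (t + -1)
  have h7 : sg (b t) = 0 := by rw [h]; rfl
  unfold hx
  linarith [h5.1, h5.2, h6.1, h6.2]

theorem hx_true {b : ℤ → Bool} {t : ℤ} (h : b t = true) : 3 / 5 ≤ hx b t := by
  have h1 := hsum_rec b 1 t
  have h4 := hsum_rec b (-1) t
  have h5 := hsum_mem b 1 (t + 1)
  have h6 := hsum_mem b (-1) (t + -1)
  have h7 : sg (b t) = 1 := by rw [h]; rfl
  unfold hx
  linarith [h5.1, h5.2, h6.1, h6.2]

theorem hx_close (b : ℤ → Bool) (r : ℕ) (hr : 1 ≤ r) (t t' : ℤ)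
    (h : ∀ i : ℤ, -(r : ℤ) < i → i < r → b (t + i) = b (t' + i)) :
    |hx b t - hx b t'| ≤ 3 * (1 / 4) ^ r := by
  have h1 := abs_le.mp (hsum_close b 1 r t t' fun i hi => h (1 * i) (by omega) (by omega))
  have h2 := abs_le.mp (hsum_close b (-1) r t t' fun i hi => h (-1 * i) (by omega) (by omega))
  have h3 := h 0 (by omega) (by omega)
  rw [add_zero, add_zero] at h3
  unfold hx
  rw [h3, abs_le]
  have h4 : (0 : ℝ) < (1 / 4) ^ r := by positivity
  constructor <;> linarith [h1.1, h1.2, h2.1, h2.2]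

/-- bump functions -/
noncomputable def hb0 : ContDiffBump (1 / 5 : ℝ) := ⟨1 / 5, 1 / 4, by norm_num, by norm_num⟩
noncomputable def hb1 : ContDiffBump (4 / 5 : ℝ) := ⟨1 / 5, 1 / 4, by norm_num, by norm_num⟩

/-- the profile of the first shear -/
noncomputable def ha (x : ℝ) : ℝ := 9 / 4 * x * hb0 x + 9 / 4 * (x - 1) * hb1 x

theorem ha_contDiff : ContDiff ℝ ∞ ha := by
  unfold ha
  have h0 : ContDiff ℝ ∞ hb0 := hb0.contDiff
  have h1 : ContDiff ℝ ∞ hb1 := hb1.contDiff
  fun_prop

theorem ha_hx (b : ℤ → Bool) (t : ℤ) : ha (hx b t) = 9 / 4 * (hx b t - sg (b t)) := by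
  have h2 := hx_mem b t
  unfold ha
  by_cases hb : b t = true
  · have h3 := hx_true hb
    have e0 : hb0 (hx b t) = 0 := by
      apply hb0.zero_of_le_dist
      rw [Real.dist_eq]
      show (1 / 4 : ℝ) ≤ _
      exact le_abs.mpr (Or.inl (by linarith))
    have e1 : hb1 (hx b t) = 1 := by
      apply hb1.one_of_mem_closedBall
      rw [Metric.mem_closedBall, Real.dist_eq, abs_le]
      show -(1 / 5 : ℝ) ≤ _ ∧ _ ≤ (1 / 5 : ℝ)
      constructor <;> linarith [h2.1, h2.2]
    rw [e0, e1, hb]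
    unfold sg
    simp
  · rw [Bool.not_eq_true] at hb
    have h3 := hx_false hb
    have e1 : hb1 (hx b t) = 0 := by
      apply hb1.zero_of_le_dist
      rw [Real.dist_eq]
      show (1 / 4 : ℝ) ≤ _
      exact le_abs.mpr (Or.inr (by linarith))
    have e0 : hb0 (hx b t) = 1 := by
      apply hb0.one_of_mem_closedBall
      rw [Metric.mem_closedBall, Real.dist_eq, abs_le]
      show -(1 / 5 : ℝ) ≤ _ ∧ _ ≤ (1 / 5 : ℝ)
      constructor <;> linarith [h2.1, h2.2]
    rw [e0, e1, hb]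
    unfold sg
    simp

section space

variable {d : ℕ}

/-- the point with coordinates `x, p, 0, …, 0` -/
def hvec (d : ℕ) (x p : ℝ) : Fin (d + 3) → ℝ :=
  x • Pi.single (0 : Fin (d + 3)) 1 + p • Pi.single (1 : Fin (d + 3)) 1

theorem fin_two_val : ((2 : Fin (d + 3)) : ℕ) = 2 :=
  Nat.mod_eq_of_lt (show (2 : ℕ) < d + 3 by omega)

theorem fin_one_val : ((1 : Fin (d + 3)) : ℕ) = 1 :=
  Nat.mod_eq_of_lt (show (1 : ℕ) < d + 3 by omega)

theorem fin_ne01 : (0 : Fin (d + 3)) ≠ 1 := by
  intro h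
  have := congrArg Fin.val h
  rw [fin_one_val] at this
  exact absurd this (by simp)

theorem fin_ne02 : (0 : Fin (d + 3)) ≠ 2 := by
  intro h
  have := congrArg Fin.val h
  rw [fin_two_val] at this
  exact absurd this (by simp)

theorem fin_ne12 : (1 : Fin (d + 3)) ≠ 2 := by
  intro h
  have := congrArg Fin.val h
  rw [fin_two_val, fin_one_val] at this
  omega

theorem hvec_zero (x p : ℝ) : hvec d x p 0 = x := by
  simp [hvec]

theorem hvec_one (x p : ℝ) : hvec d x p 1 = p := by
  simp [hvec, fin_ne01.symm]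

theorem norm_hvec_le {x p r : ℝ} (hr : 0 ≤ r) (h1 : |x| ≤ r) (h2 : |p| ≤ r) :
    ‖hvec d x p‖ ≤ r := by
  rw [pi_norm_le_iff_of_nonneg hr]
  intro j
  by_cases h0 : j = 0
  · rw [h0, hvec_zero]
    exact h1
  · by_cases h3 : j = 1
    · rw [h3, hvec_one]
      exact h2
    · simp [hvec, h0, h3, hr]

/-- the point coded by the two-sided sequence shifted by `t` -/
noncomputable def hpt (d : ℕ) (b : ℤ → Bool) (t : ℤ) : Fin (d + 3) → ℝ :=
  hvec d (hx b t) (hx b t - hx b (t - 1))

/-- a bump function of the whole space -/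
noncomputable def hth (d : ℕ) : ContDiffBump (0 : Fin (d + 3) → ℝ) :=
  ⟨2, 3, by norm_num, by norm_num⟩

theorem hth_one {z : Fin (d + 3) → ℝ} (h : ‖z‖ ≤ 2) : hth d z = 1 := by
  apply (hth d).one_of_mem_closedBall
  rw [mem_closedBall_zero_iff]
  exact h

theorem hth_zero {z : Fin (d + 3) → ℝ} (h : 3 ≤ ‖z‖) : hth d z = 0 := by
  apply (hth d).zero_of_le_dist
  rw [dist_zero_right]
  exact h

/-- profiles of the two shears -/
noncomputable def hphi1 (d : ℕ) (z : Fin (d + 3) → ℝ) : ℝ := ha (z 0) * hth d z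
noncomputable def hphi2 (d : ℕ) (z : Fin (d + 3) → ℝ) : ℝ := z 1 * hth d z

theorem hphi1_contDiff : ContDiff ℝ ∞ (hphi1 d) := by
  unfold hphi1
  have h0 : ContDiff ℝ ∞ (hth d) := (hth d).contDiff
  exact (ha_contDiff.comp (contDiff_apply ℝ ℝ 0)).mul h0

theorem hphi2_contDiff : ContDiff ℝ ∞ (hphi2 d) := by
  unfold hphi2
  have h0 : ContDiff ℝ ∞ (hth d) := (hth d).contDiff
  exact (contDiff_apply ℝ ℝ 1).mul h0

theorem hphi1_compact : HasCompactSupport (hphi1 d) := (hth d).hasCompactSupport.mul_left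

theorem hphi2_compact : HasCompactSupport (hphi2 d) := (hth d).hasCompactSupport.mul_left

/-- the elementary steps of the shears -/
noncomputable def hS1 (d : ℕ) (s : ℝ) (z : Fin (d + 3) → ℝ) : Fin (d + 3) → ℝ :=
  z + (s * hphi1 d z) • Pi.single (1 : Fin (d + 3)) 1
noncomputable def hS2 (d : ℕ) (s : ℝ) (z : Fin (d + 3) → ℝ) : Fin (d + 3) → ℝ :=
  z + (s * hphi2 d z) • Pi.single (0 : Fin (d + 3)) 1

theorem hS1_iter (b : ℤ → Bool) (t : ℤ) (N : ℕ) (hN : 1 ≤ N) (k : ℕ) (hk : k ≤ N) :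
    (hS1 d (1 / N))^[k] (hpt d b t) =
      hvec d (hx b t) (hx b t - hx b (t - 1) + k / N * (9 / 4 * (hx b t - sg (b t)))) := by
  have hNr : (0 : ℝ) < N := by exact_mod_cast hN
  induction k with
  | zero => simp [hpt]
  | succ k ih =>
    rw [Function.iterate_succ_apply', ih (by omega)]
    have h1 := hx_rec b t
    have h2 := hx_mem b t
    have h3 := hx_mem b (t - 1)
    have h4 := hx_mem b (t + 1)
    have hkN : (k : ℝ) / N ≤ 1 := by
      rw [div_le_one hNr]
      exact_mod_cast (Nat.le_succ k).trans hk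
    have hk0 : (0 : ℝ) ≤ (k : ℝ) / N := by positivity
    have hth1 : hth d (hvec d (hx b t)
        (hx b t - hx b (t - 1) + k / N * (9 / 4 * (hx b t - sg (b t))))) = 1 := by
      apply hth_one
      apply norm_hvec_le (by norm_num)
      · rw [abs_le]
        constructor <;> linarith [h2.1, h2.2]
      · have e : 9 / 4 * (hx b t - sg (b t)) = hx b (t + 1) - 2 * hx b t + hx b (t - 1) := by
          linarith
        rw [e, abs_le]
        constructor <;> nlinarith [h2.1, h2.2, h3.1, h3.2, h4.1, h4.2]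
    unfold hS1 hphi1
    rw [hth1, hvec_zero, ha_hx]
    unfold hvec
    rw [add_assoc, ← add_smul]
    congr 2
    push_cast
    field_simp
    ring

theorem hS2_iter (x p : ℝ) (hx0 : 0 ≤ x) (hx1 : x ≤ 1) (hx0' : 0 ≤ x + p) (hx1' : x + p ≤ 1)
    (N : ℕ) (hN : 1 ≤ N) (k : ℕ) (hk : k ≤ N) :
    (hS2 d (1 / N))^[k] (hvec d x p) = hvec d (x + k / N * p) p := by
  have hNr : (0 : ℝ) < N := by exact_mod_cast hN
  induction k with
  | zero => simp
  | succ k ih =>
    rw [Function.iterate_succ_apply', ih (by omega)]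
    have hkN : (k : ℝ) / N ≤ 1 := by
      rw [div_le_one hNr]
      exact_mod_cast (Nat.le_succ k).trans hk
    have hk0 : (0 : ℝ) ≤ (k : ℝ) / N := by positivity
    have hth1 : hth d (hvec d (x + k / N * p) p) = 1 := by
      apply hth_one
      apply norm_hvec_le (by norm_num)
      · rw [abs_le]
        constructor <;> nlinarith
      · rw [abs_le]
        constructor <;> linarith
    unfold hS2 hphi2
    rw [hth1, hvec_one]
    unfold hvec
    rw [add_right_comm, ← add_smul]
    congr 2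
    push_cast
    field_simp
    ring

/-- a compactly supported diffeomorphism of `ℝⁿ`, `n ≥ 3`, preserving the third coordinate, which
acts on the coded points as the shift -/
theorem exists_horseshoe (d : ℕ) : ∃ A : (Fin (d + 3) → ℝ) → (Fin (d + 3) → ℝ), SDiffeo A ∧
    (∀ z, A z 2 = z 2) ∧ (∀ z, 3 ≤ ‖z‖ → A z = z) ∧
    ∀ (b : ℤ → Bool) (t : ℤ), A (hpt d b t) = hpt d b (t + 1) := by
  obtain ⟨C1, hC1, h1⟩ := exists_sdiffeo_smul (hphi1 d) hphi1_contDiff hphi1_compact
    (Pi.single (1 : Fin (d + 3)) 1)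
  obtain ⟨C2, hC2, h2⟩ := exists_sdiffeo_smul (hphi2 d) hphi2_contDiff hphi2_compact
    (Pi.single (0 : Fin (d + 3)) 1)
  obtain ⟨N, hN⟩ := exists_nat_ge (max 1 (2 * max C1 C2))
  have hN1 : 1 ≤ N := by exact_mod_cast (le_max_left _ _).trans hN
  have hNr : (0 : ℝ) < N := by exact_mod_cast hN1
  have hC : 2 * max C1 C2 ≤ N := (le_max_right _ _).trans hN
  have hS1d : SDiffeo (hS1 d (1 / N)) := by
    apply h1
    rw [abs_of_pos (by positivity), one_div, inv_mul_le_iff₀ hNr]
    linarith [le_max_left C1 C2]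
  have hS2d : SDiffeo (hS2 d (1 / N)) := by
    apply h2
    rw [abs_of_pos (by positivity), one_div, inv_mul_le_iff₀ hNr]
    linarith [le_max_right C1 C2]
  have y1 : ∀ k z, (hS1 d (1 / N))^[k] z 2 = z 2 := by
    intro k
    induction k with
    | zero => intro z; rfl
    | succ k ih =>
      intro z
      rw [Function.iterate_succ_apply, ih]
      simp [hS1, fin_ne12.symm]
  have y2 : ∀ k z, (hS2 d (1 / N))^[k] z 2 = z 2 := by
    intro k
    induction k with
    | zero => intro z; rfl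
    | succ k ih =>
      intro z
      rw [Function.iterate_succ_apply, ih]
      simp [hS2, fin_ne02.symm]
  have f1 : ∀ z, 3 ≤ ‖z‖ → hS1 d (1 / N) z = z := by
    intro z hz
    simp [hS1, hphi1, hth_zero hz]
  have f2 : ∀ z, 3 ≤ ‖z‖ → hS2 d (1 / N) z = z := by
    intro z hz
    simp [hS2, hphi2, hth_zero hz]
  refine ⟨fun z => (hS2 d (1 / N))^[N] ((hS1 d (1 / N))^[N] z),
    (hS2d.iterate N).comp (hS1d.iterate N), fun z => ?_, fun z hz => ?_, fun b t => ?_⟩
  · dsimp only
    rw [y2, y1]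
  · dsimp only
    rw [Function.iterate_fixed (f1 z hz), Function.iterate_fixed (f2 z hz)]
  · dsimp only
    rw [hS1_iter b t N hN1 N le_rfl, div_self hNr.ne', one_mul]
    have h3 := hx_rec b t
    have h4 := hx_mem b t
    have h5 := hx_mem b (t + 1)
    have e : hx b t - hx b (t - 1) + 9 / 4 * (hx b t - sg (b t)) = hx b (t + 1) - hx b t := by
      linarith
    rw [e, hS2_iter _ _ h4.1 h4.2 (by linarith [h5.1]) (by linarith [h5.2]) N hN1 N le_rfl,
      div_self hNr.ne', one_mul]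
    unfold hpt
    have e2 : hx b t + (hx b (t + 1) - hx b t) = hx b (t + 1) := by ring
    have e3 : t + 1 - 1 = t := by ring
    rw [e2, e3]

end space

end Pool.Agent.Lib.MP_3e612f_nt
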