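import Pool.Agent.Lib.MP_3e612f_nt.Doubling

/-!
The logarithmically averaged Sarnak conjecture is equivalent to a statement about the exponential
sums of `μ n * exp (2 π i q ^ n α) / n`, for every integer `q ≥ 2`.
-/

set_option autoImplicit false

namespace Pool.Agent.Lib.MP_3e612f_nt.LacunarySums

open Filter Topology Set

/-- Let `q ≥ 2` be an integer. The logarithmically averaged Sarnak conjecture, for all compact
metric systems of zero topological entropy and all continuous functions, holds if and only if the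
logarithmic averages of `μ n * exp (2 π i q ^ n α)` tend to `0` for every real number `α` whose
expansion in base `q` has subexponential block complexity: for every `δ > 0` there is `L ≥ 1` such
that the integers `⌊q ^ L {q ^ n α}⌋`, `n = 0, 1, 2, …` (the blocks of `L` consecutive digits after
the point, as integers in base `q`) take at most `exp (δ L)` different values. -/
theorem result (q : ℕ) (hq : 2 ≤ q) :
    (∀ (X : Type) [MetricSpace X] [CompactSpace X] (T : X → X), Continuous T →
      Dynamics.coverEntropy T Set.univ = 0 → ∀ f : X → ℂ, Continuous f → ∀ x : X,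
      Tendsto (fun N : ℕ => (1 / (Real.log (N : ℝ) : ℂ)) * ∑ n ∈ Finset.Icc 1 N,
        f (T^[n] x) * ((ArithmeticFunction.moebius n : ℤ) : ℂ) / (n : ℂ)) atTop (𝓝 0)) ↔
    (∀ α : ℝ, (∀ δ > 0, ∃ L : ℕ, 1 ≤ L ∧
      ((range fun n : ℕ => ⌊(q : ℝ) ^ L * Int.fract ((q : ℝ) ^ n * α)⌋).ncard : ℝ) ≤
        Real.exp (δ * L)) →
      Tendsto (fun N : ℕ => (1 / (Real.log (N : ℝ) : ℂ)) * ∑ n ∈ Finset.Icc 1 N,
        Complex.exp (2 * Real.pi * Complex.I * ((q : ℂ) ^ n * α)) *
          ((ArithmeticFunction.moebius n : ℤ) : ℂ) / (n : ℂ)) atTop (𝓝 0)) :=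
  Pool.Agent.Lib.MP_3e612f_nt.logSarnak_iff_exp hq

end Pool.Agent.Lib.MP_3e612f_nt.LacunarySums
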