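import Pool.Agent.Lib.MP_3e612f_nt.MDefs

/-!
Most numbers have many windows of digits equal to a given word.
-/

set_option autoImplicit false

namespace Pool.Agent.Lib.MP_3e612f_nt.MB

open Filter Topology
open Pool.Agent.Lib.MP_3e612f_nt.QA

/-- the lowest window and the others -/
theorem cnt_succ {q W w : ℕ} (N b n' : ℕ) (hb : b < q ^ W) :
    cnt q W (N + 1) w (q ^ W * n' + b) = (if b = w then 1 else 0) + cnt q W N w n' := by
  unfold cnt
  rw [Finset.card_filter, Finset.card_filter, Finset.sum_range_succ', add_comm]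
  have h0 : 0 < q ^ W := by omega
  congr 1
  · simp [Nat.mod_eq_of_lt hb]
  · refine Finset.sum_congr rfl fun j _ => ?_
    have e1 : (q ^ W * n' + b) / q ^ (W * (j + 1)) = n' / q ^ (W * j) := by
      rw [show W * (j + 1) = W + W * j by ring, pow_add, ← Nat.div_div_eq_div_mul]
      congr 1
      rw [Nat.mul_add_div h0, Nat.div_eq_of_lt hb, add_zero]
    rw [e1]

theorem cnt_add_mul {q W w : ℕ} (hq : 2 ≤ q) (N n y : ℕ) :
    cnt q W N w (q ^ (W * N) * y + n) = cnt q W N w n := by
  unfold cnt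
  congr 1
  refine Finset.filter_congr fun j hj => ?_
  have hj' : j < N := Finset.mem_range.1 hj
  have h0 : 0 < q ^ (W * j) := by positivity
  obtain ⟨k, hk⟩ : ∃ k, W * N = W * j + (W + k) := by
    refine ⟨W * N - W * j - W, ?_⟩
    have : W * (j + 1) ≤ W * N := Nat.mul_le_mul_left W hj'
    rw [Nat.mul_add, Nat.mul_one] at this
    omega
  have e1 : (q ^ (W * N) * y + n) / q ^ (W * j) % q ^ W = n / q ^ (W * j) % q ^ W := by
    rw [hk, pow_add, pow_add,
      show q ^ (W * j) * (q ^ W * q ^ k) * y + n = q ^ (W * j) * (q ^ W * (q ^ k * y)) + n by ring,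
      Nat.mul_add_div h0, Nat.mul_add_mod]
  rw [e1]

theorem sum_half {q W w : ℕ} (hw : w < q ^ W) (N : ℕ) :
    ∑ n ∈ Finset.range (q ^ (W * N)), (1 / 2 : ℝ) ^ cnt q W N w n =
      ((q : ℝ) ^ W - 1 / 2) ^ N := by
  induction N with
  | zero => simp [cnt]
  | succ N ih =>
    rw [show W * (N + 1) = W + W * N by ring, pow_add, sum_range_mul_add]
    have h1 : ∀ i ∈ Finset.range (q ^ W), ∑ m ∈ Finset.range (q ^ (W * N)),
        (1 / 2 : ℝ) ^ cnt q W (N + 1) w (q ^ W * m + i) =
        (if i = w then (1 / 2 : ℝ) else 1) * ((q : ℝ) ^ W - 1 / 2) ^ N := by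
      intro i hi
      rw [← ih, Finset.mul_sum]
      refine Finset.sum_congr rfl fun m _ => ?_
      rw [cnt_succ N i m (Finset.mem_range.1 hi), pow_add]
      split_ifs <;> simp
    rw [Finset.sum_congr rfl h1, ← Finset.sum_mul, pow_succ']
    congr 1
    have h2 : ∀ i ∈ Finset.range (q ^ W), (if i = w then (1 / 2 : ℝ) else 1) =
        1 - (if i = w then (1 / 2 : ℝ) else 0) := by
      intro i _
      split_ifs <;> norm_num
    rw [Finset.sum_congr rfl h2, Finset.sum_sub_distrib, Finset.sum_ite_eq',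
      if_pos (Finset.mem_range.2 hw)]
    simp

/-- M4: most numbers have many windows equal to a given word -/
theorem typical {q W w : ℕ} (hq : 2 ≤ q) (hW : 1 ≤ W) (hw : w < q ^ W) :
    ∃ c ρ : ℝ, 0 < c ∧ 0 < ρ ∧ ρ < 1 ∧ ∀ a N X : ℕ, q ^ (a + W * N) ≤ X →
      (((Finset.range X).filter
        (fun r => (cnt q W N w (r / q ^ a) : ℝ) < c * N)).card : ℝ) ≤ 2 * ρ ^ N * X := by
  have hQ0 : 0 < q ^ W := by omega
  have hQ1 : (1 : ℝ) ≤ (q : ℝ) ^ W := by exact_mod_cast hQ0
  set Q : ℝ := (q : ℝ) ^ W with hQ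
  have hQp : 0 < Q := by linarith
  set t : ℝ := 1 + 1 / (4 * Q) with ht
  have ht1 : 1 < t := by rw [ht]; have : 0 < 1 / (4 * Q) := by positivity
                         linarith
  have hl2 : 0 < Real.log 2 := Real.log_pos (by norm_num)
  have hi : 1 / (2 * Q) ≤ 1 / 2 := by
    apply one_div_le_one_div_of_le (by norm_num); linarith
  have hi0 : 0 < 1 / (2 * Q) := by positivity
  refine ⟨Real.log t / Real.log 2, t * (1 - 1 / (2 * Q)), div_pos (Real.log_pos ht1) hl2,
    mul_pos (by linarith) (by linarith), ?_, ?_⟩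
  · have e : 1 / (4 * Q) = 1 / (2 * Q) / 2 := by field_simp; ring
    rw [ht, e]
    nlinarith
  intro a N X hX
  set B : ℕ := q ^ (a + W * N) with hB
  have hB0 : 0 < B := by positivity
  set M : ℕ := X / B + 1 with hM
  have hXM : X ≤ B * M := by
    have := Nat.lt_mul_div_succ X hB0
    rw [hM]; exact this.le
  have hMX : (B : ℝ) * M ≤ 2 * X := by
    have h1 : B * M ≤ 2 * X := by
      rw [hM, Nat.mul_add, Nat.mul_one]
      have := Nat.mul_div_le X B
      omega
    exact_mod_cast h1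
  set cc : ℝ := Real.log t / Real.log 2 with hcc
  -- the pointwise bound
  have hpt : ∀ n : ℕ, (if (cnt q W N w n : ℝ) < cc * N then (1 : ℝ) else 0) ≤
      t ^ N * (1 / 2 : ℝ) ^ cnt q W N w n := by
    intro n
    split_ifs with h
    · have h1 : (cnt q W N w n : ℝ) * Real.log 2 < N * Real.log t := by
        rw [hcc] at h
        have := mul_lt_mul_of_pos_right h hl2
        have e : Real.log t / Real.log 2 * N * Real.log 2 = N * Real.log t := by
          field_simp
        linarith
      have h2 : (2 : ℝ) ^ cnt q W N w n < t ^ N := by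
        rw [← Real.log_lt_log_iff (by positivity) (by positivity), Real.log_pow, Real.log_pow]
        exact h1
      rw [one_div, inv_pow, ← div_eq_mul_inv, le_div_iff₀ (by positivity), one_mul]
      exact h2.le
    · positivity
  have hcard : (((Finset.range X).filter
      (fun r => (cnt q W N w (r / q ^ a) : ℝ) < cc * N)).card : ℝ) ≤
      ∑ r ∈ Finset.range (B * M), (t ^ N * (1 / 2 : ℝ) ^ cnt q W N w (r / q ^ a)) := by
    rw [Finset.card_filter]
    push_cast
    refine le_trans (Finset.sum_le_sum fun r _ => hpt (r / q ^ a)) ?_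
    refine Finset.sum_le_sum_of_subset_of_nonneg ?_ fun r _ _ => by positivity
    intro r hr
    rw [Finset.mem_range] at hr ⊢
    omega
  refine hcard.trans ?_
  rw [← Finset.mul_sum, sum_range_mul_add, Finset.sum_comm]
  have h3 : ∀ m ∈ Finset.range M, ∑ i ∈ Finset.range B,
      (1 / 2 : ℝ) ^ cnt q W N w ((B * m + i) / q ^ a) = (q : ℝ) ^ a * (Q - 1 / 2) ^ N := by
    intro m _
    have ha0 : 0 < q ^ a := by positivity
    have h4 : ∀ i, cnt q W N w ((B * m + i) / q ^ a) = cnt q W N w (i / q ^ a) := by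
      intro i
      rw [hB, pow_add, mul_assoc, Nat.mul_add_div ha0, cnt_add_mul hq]
    simp only [h4]
    rw [hB, pow_add, sum_range_mul_add]
    have h5 : ∀ i ∈ Finset.range (q ^ a), ∑ n ∈ Finset.range (q ^ (W * N)),
        (1 / 2 : ℝ) ^ cnt q W N w ((q ^ a * n + i) / q ^ a) = (Q - 1 / 2) ^ N := by
      intro i hi
      rw [← sum_half hw N]
      refine Finset.sum_congr rfl fun n _ => ?_
      rw [Nat.mul_add_div ha0, Nat.div_eq_of_lt (Finset.mem_range.1 hi), add_zero]
    rw [Finset.sum_congr rfl h5]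
    simp
  rw [Finset.sum_congr rfl h3]
  simp only [Finset.sum_const, Finset.card_range, nsmul_eq_mul]
  have e1 : t ^ N * ((M : ℝ) * ((q : ℝ) ^ a * (Q - 1 / 2) ^ N)) =
      (t * (1 - 1 / (2 * Q))) ^ N * (B * M) := by
    have e2 : (Q - 1 / 2) ^ N = Q ^ N * (1 - 1 / (2 * Q)) ^ N := by
      rw [← mul_pow]; congr 1; field_simp
    have e3 : (B : ℝ) = (q : ℝ) ^ a * Q ^ N := by
      rw [hB, hQ, ← pow_mul]; push_cast; rw [pow_add]
    rw [e2, e3, mul_pow]; ring
  rw [e1]
  have hρ : 0 ≤ (t * (1 - 1 / (2 * Q))) ^ N :=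
    pow_nonneg (mul_nonneg (by linarith) (by linarith)) N
  nlinarith

end Pool.Agent.Lib.MP_3e612f_nt.MB
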