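import Pool.Agent.Lib.MP_3e612f_nt.MPairAll

/-!
Centred functions in a residue class, several bases.
-/

set_option autoImplicit false

namespace Pool.Agent.Lib.MP_3e612f_nt.MB

open Filter Topology
open Pool.Agent.Lib.MP_3e612f_nt.QA

section several

variable {ι : Type*} [Fintype ι] [DecidableEq ι] {q : ι → ℕ} {m : ℕ} {d : ι → ℕ}
  {e : ∀ i, ℕ → Fin (d i) → ℤ} {C : ℝ}

/-- admissible moduli -/
structure Md (q : ι → ℕ) (M h : ℕ) (Q : ι → ℕ) : Prop where
  pos : 1 ≤ M
  eq : ∀ i, M = q i ^ h * Q i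
  cop : ∀ i, (Q i).Coprime (q i)
  dv : ∀ i, (q i - 1) ∣ Q i

theorem modulus_aux (B : ℕ) : ∀ N : ℕ, 1 ≤ N → ∃ h Q : ℕ, 1 ≤ Q ∧ Q.Coprime B ∧
    N ∣ Q * B ^ h := by
  intro N
  induction N using Nat.strong_induction_on with
  | _ N ih =>
    intro hN
    by_cases hc : N.Coprime B
    · exact ⟨0, N, hN, hc, by simp⟩
    · set g := Nat.gcd N B with hg
      have hg0 : 0 < g := Nat.gcd_pos_of_pos_left _ hN
      have hg1 : g ≠ 1 := hc
      obtain ⟨N₁, hN₁⟩ := Nat.gcd_dvd_left N B
      rw [← hg] at hN₁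
      have hN₁0 : 1 ≤ N₁ := by
        rcases Nat.eq_zero_or_pos N₁ with h0 | h0
        · rw [h0, mul_zero] at hN₁
          omega
        · exact h0
      have hlt : N₁ < N := by
        have : 2 ≤ g := by omega
        nlinarith
      obtain ⟨h, Q, hQ1, hQc, hdvd⟩ := ih N₁ hlt hN₁0
      refine ⟨h + 1, Q, hQ1, hQc, ?_⟩
      have e1 : Q * B ^ (h + 1) = B * (Q * B ^ h) := by ring
      rw [e1, hN₁]
      exact Nat.mul_dvd_mul (Nat.gcd_dvd_right N B) hdvd

theorem exists_modulus (hq : ∀ i, 2 ≤ q i) (hc : ∀ i j, i ≠ j → (q i).Coprime (q j)) {M₀ : ℕ}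
    (hM₀ : 1 ≤ M₀) : ∃ (M h : ℕ) (Q : ι → ℕ), M₀ ∣ M ∧ Md q M h Q := by
  have hB : 0 < ∏ i, q i := Finset.prod_pos fun i _ => lt_of_lt_of_le two_pos (hq i)
  have hN : 1 ≤ M₀ * ∏ i, (q i - 1) :=
    Nat.mul_pos hM₀ (Finset.prod_pos fun i _ => Nat.sub_pos_of_lt (hq i))
  obtain ⟨h, Q, hQ1, hQc, hdvd⟩ := modulus_aux _ _ hN
  have hQi : ∀ i, Q.Coprime (q i) := fun i =>
    Nat.Coprime.coprime_dvd_right (Finset.dvd_prod_of_mem q (Finset.mem_univ i)) hQc
  have hsplit : ∀ i, Q * (∏ j, q j) ^ h = q i ^ h * (Q * (∏ j ∈ Finset.univ.erase i, q j) ^ h) := by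
    intro i
    rw [← Finset.mul_prod_erase Finset.univ q (Finset.mem_univ i), mul_pow]
    ring
  have hcop : ∀ i, (Q * (∏ j ∈ Finset.univ.erase i, q j) ^ h).Coprime (q i) := by
    intro i
    refine Nat.Coprime.mul_left (hQi i) (Nat.Coprime.pow_left _ ?_)
    exact Nat.Coprime.prod_left fun j hj => hc j i (Finset.ne_of_mem_erase hj)
  refine ⟨Q * (∏ j, q j) ^ h, h, fun i => Q * (∏ j ∈ Finset.univ.erase i, q j) ^ h,
    (Dvd.intro _ rfl).trans hdvd, ⟨Nat.mul_pos hQ1 (pow_pos hB h), hsplit, hcop, fun i => ?_⟩⟩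
  have h1 : (q i - 1) ∣ q i ^ h * (Q * (∏ j ∈ Finset.univ.erase i, q j) ^ h) := by
    rw [← hsplit i]
    refine Dvd.dvd.trans ?_ hdvd
    exact Dvd.dvd.mul_left (Finset.dvd_prod_of_mem (fun i => q i - 1) (Finset.mem_univ i)) _
  refine Nat.Coprime.dvd_of_dvd_mul_left ?_ h1
  refine Nat.Coprime.pow_right _ ?_
  have h3 : Nat.Coprime (q i - 1) (q i - 1 + 1) := by simp
  have h4 : q i - 1 + 1 = q i := by
    have := hq i
    omega
  rwa [h4] at h3

/-- the centred function -/
noncomputable def cen (q : ι → ℕ) (e : ∀ i, ℕ → Fin (d i) → ℤ) (M a : ℕ)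
    (g : (∀ i, Fin (d i) → ℤ) → ℝ) (n : ℕ) : ℝ :=
  if n % M = a then g (fun i => e i n) - mmean q e (Nat.log 2 n) (fun _ => a) g else 0

theorem mmean_abs (S : Sys q m e C) {k : ℕ} {a : ι → ℕ} {g : (∀ i, Fin (d i) → ℤ) → ℝ}
    (hg : ∀ x, |g x| ≤ 1) : |mmean q e k a g| ≤ 1 :=
  modelAv_abs S.base (fun x => extP_abs hg x)

theorem abs_cen_le (S : Sys q m e C) {M a : ℕ} {g : (∀ i, Fin (d i) → ℤ) → ℝ}
    (hg : ∀ x, |g x| ≤ 1) (n : ℕ) : |cen q e M a g n| ≤ 2 := by
  unfold cen
  split_ifs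
  · refine (abs_sub _ _).trans ?_
    linarith [hg (fun i => e i n), mmean_abs S (k := Nat.log 2 n) (a := fun _ => a) hg]
  · simp

theorem mmean_congr (S : Sys q m e C) {k : ℕ} {a b : ι → ℕ}
    (hab : ∀ i, a i ≡ b i [MOD (q i - 1)]) (g : (∀ i, Fin (d i) → ℤ) → ℝ) :
    mmean q e k a g = mmean q e k b g := by
  unfold mmean
  have h0 : extP e (fun i => a i • e i 1) g = extP e (fun i => b i • e i 1) g := by
    funext x
    unfold extP
    congr 1
    funext i
    have h1 : a i • e i 1 - b i • e i 1 ∈ Lam (e i) := by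
      have h2 := lam_mod (S.base i) (S.qv i).gap (hab i)
      have h3 := lam_nsmul (e i) (a i)
      have h4 := lam_nsmul (e i) (b i)
      have e1 : a i • e i 1 - b i • e i 1 = (e i (a i) - e i (b i)) -
          (e i (a i) - a i • e i 1) + (e i (b i) - b i • e i 1) := by abel
      rw [e1]
      exact AddSubgroup.add_mem _ (AddSubgroup.sub_mem _ h2 h3) h4
    have h5 : jmin (e i) (a i • e i 1) (x i) = jmin (e i) (b i • e i 1) (x i) := by
      refine jmin_congr ?_
      have e1 : x i - a i • e i 1 - (x i - b i • e i 1) = -(a i • e i 1 - b i • e i 1) := by abel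
      rw [e1]
      exact AddSubgroup.neg_mem _ h1
    rw [h5]
  rw [h0]

theorem mmean_slow_add (S : Sys q m e C) (T : ℕ) {ε : ℝ} (hε : 0 < ε) :
    ∀ᶠ k : ℕ in atTop, ∀ t ≤ T, ∀ (g : (∀ i, Fin (d i) → ℤ) → ℝ) (a : ι → ℕ), (∀ x, |g x| ≤ 1) →
      |mmean q e (k + t) a g - mmean q e k a g| ≤ ε := by
  have h1 := mmean_slow S (ε := ε / (T + 1)) (by positivity)
  obtain ⟨k₀, hk₀⟩ := eventually_atTop.mp h1
  filter_upwards [eventually_ge_atTop k₀] with k hk t ht g a hg
  have h2 : ∀ t : ℕ, |mmean q e (k + t) a g - mmean q e k a g| ≤ t * (ε / (T + 1)) := by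
    intro t
    induction t with
    | zero => simp
    | succ t ih =>
      have h3 := hk₀ (k + t) (by omega) g a hg
      have e1 : mmean q e (k + (t + 1)) a g - mmean q e k a g =
          (mmean q e (k + t + 1) a g - mmean q e (k + t) a g) +
          (mmean q e (k + t) a g - mmean q e k a g) := by
        rw [← add_assoc]
        ring
      rw [e1]
      refine (abs_add_le _ _).trans ((add_le_add h3 ih).trans (le_of_eq ?_))
      push_cast
      ring
  refine (h2 t).trans ?_
  rw [mul_div_assoc', div_le_iff₀ (by positivity)]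
  have : (t : ℝ) ≤ T + 1 := by
    have : (t : ℝ) ≤ T := by exact_mod_cast ht
    linarith
  nlinarith

theorem log_block {M p k t y n i : ℕ} (hM : 1 ≤ M) (hp : 1 ≤ p) (hy : 2 ^ t ≤ y)
    (hy' : y < 2 ^ (t + 1)) (hn : n < 2 ^ k) (hi : i < M) :
    ∃ s ≤ t + p + M + 2, Nat.log 2 (p * (M * (2 ^ k * y + n) + i)) = k + s := by
  set N := p * (M * (2 ^ k * y + n) + i) with hN
  have hlow : 2 ^ (k + t) ≤ N := by
    have h1 : 2 ^ (k + t) ≤ 2 ^ k * y := by
      rw [pow_add]
      exact Nat.mul_le_mul_left _ hy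
    calc 2 ^ (k + t) ≤ 2 ^ k * y + n := by omega
      _ ≤ M * (2 ^ k * y + n) := Nat.le_mul_of_pos_left _ hM
      _ ≤ M * (2 ^ k * y + n) + i := Nat.le_add_right _ _
      _ ≤ N := Nat.le_mul_of_pos_left _ hp
  have hup : N < 2 ^ (k + (t + p + M + 2)) := by
    have h1 : 2 ^ k * y + n + 1 ≤ 2 ^ (k + t + 1) := by
      calc 2 ^ k * y + n + 1 ≤ 2 ^ k * y + 2 ^ k := by omega
        _ = 2 ^ k * (y + 1) := by ring
        _ ≤ 2 ^ k * 2 ^ (t + 1) := Nat.mul_le_mul_left _ hy'
        _ = 2 ^ (k + t + 1) := by ring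
    have h2 : M * (2 ^ k * y + n) + i < 2 ^ (k + t + M + 1) := by
      calc M * (2 ^ k * y + n) + i < M * (2 ^ k * y + n) + M := by omega
        _ = M * (2 ^ k * y + n + 1) := by ring
        _ ≤ 2 ^ M * 2 ^ (k + t + 1) := Nat.mul_le_mul (Nat.lt_two_pow_self).le h1
        _ = 2 ^ (k + t + M + 1) := by ring
    have h3 : p < 2 ^ p := Nat.lt_two_pow_self
    calc N < 2 ^ p * 2 ^ (k + t + M + 1) := Nat.mul_lt_mul_of_lt_of_lt h3 h2
      _ = 2 ^ (k + t + p + M + 1) := by ring
      _ ≤ 2 ^ (k + (t + p + M + 2)) := Nat.pow_le_pow_right (by omega) (by omega)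
  have hN0 : N ≠ 0 := by
    have : 0 < 2 ^ (k + t) := by positivity
    omega
  have l1 : k + t ≤ Nat.log 2 N := Nat.le_log_of_pow_le (by omega) hlow
  have l2 : Nat.log 2 N < k + (t + p + M + 2) := Nat.log_lt_of_lt_pow hN0 hup
  exact ⟨Nat.log 2 N - k, by omega, by omega⟩

/-- the values at `p * (M * N + i)` -/
theorem EE_mul {M h : ℕ} {Q : ι → ℕ} (hM : Md q M h Q) (p N i : ℕ) :
    (fun j => e j (p * (M * N + i))) =
      EE q e h (fun j => p * Q j) (fun j => p * i / q j ^ h) (fun j => p * i % q j ^ h) N := by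
  funext j
  unfold EE sd
  congr 1
  have h1 := Nat.div_add_mod (p * i) (q j ^ h)
  have h2 := hM.eq j
  calc p * (M * N + i) = M * (p * N) + p * i := by ring
    _ = q j ^ h * Q j * (p * N) + p * i := by rw [← h2]
    _ = q j ^ h * Q j * (p * N) + (q j ^ h * (p * i / q j ^ h) + p * i % q j ^ h) := by rw [h1]
    _ = _ := by ring

/-- the centred function at a multiple of a number in a block -/
theorem cen_block (S : Sys q m e C) {M h : ℕ} {Q : ι → ℕ} (hM : Md q M h Q) {a p i k t y n : ℕ}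
    (hp : 1 ≤ p) (hy : 2 ^ t ≤ y) (hy' : y < 2 ^ (t + 1))
    (hn : n < 2 ^ k) (hi : i < M) (ha : (p * i) % M = a)
    {g : (∀ i, Fin (d i) → ℤ) → ℝ} {ε : ℝ}
    (hmean : ∀ s ≤ t + p + M + 2,
      |mmean q e (k + s) (fun _ => a) g - mmean q e k (fun _ => a) g| ≤ ε) :
    |cen q e M a g (p * (M * (2 ^ k * y + n) + i)) -
      (g (EE q e h (fun j => p * Q j) (fun j => p * i / q j ^ h) (fun j => p * i % q j ^ h)
        (2 ^ k * y + n)) -
        mmean q e k ((fun j => p * i / q j ^ h) + (fun j => p * i % q j ^ h)) g)| ≤ ε := by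
  obtain ⟨s, hs, hlog⟩ := log_block (p := p) hM.pos hp hy hy' hn hi
  have e2 : (p * (M * (2 ^ k * y + n) + i)) % M = a := by
    have h1 : p * (M * (2 ^ k * y + n) + i) = p * i + M * (p * (2 ^ k * y + n)) := by ring
    rw [h1, Nat.add_mul_mod_self_left, ha]
  have hab : ∀ j, a ≡ ((fun j => p * i / q j ^ h) + (fun j => p * i % q j ^ h)) j
      [MOD (q j - 1)] := by
    intro j
    have hq2 := S.base j
    have hq1 : q j ≡ 1 [MOD (q j - 1)] := by
      have h3 : q j = 1 + (q j - 1) := by omega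
      have h4 : 1 + (q j - 1) ≡ 1 [MOD (q j - 1)] := by
        show (1 + (q j - 1)) % (q j - 1) = 1 % (q j - 1)
        exact Nat.add_mod_right 1 (q j - 1)
      rwa [← h3] at h4
    have hqh : q j ^ h ≡ 1 [MOD (q j - 1)] := by
      have := hq1.pow h
      rwa [one_pow] at this
    have h1 : a ≡ p * i [MOD (q j - 1)] := by
      have h2 : a ≡ p * i [MOD M] := by
        rw [← ha]
        exact Nat.mod_modEq _ _
      refine h2.of_dvd ?_
      rw [hM.eq j]
      exact (hM.dv j).mul_left _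
    have h2 : p * i ≡ 1 * (p * i / q j ^ h) + p * i % q j ^ h [MOD (q j - 1)] := by
      have h3 := Nat.div_add_mod (p * i) (q j ^ h)
      have h4 : q j ^ h * (p * i / q j ^ h) + p * i % q j ^ h ≡
          1 * (p * i / q j ^ h) + p * i % q j ^ h [MOD (q j - 1)] :=
        (hqh.mul_right _).add_right _
      rwa [h3] at h4
    rw [one_mul] at h2
    exact h1.trans h2
  have e3 := mmean_congr S (k := k) hab g
  unfold cen
  rw [if_pos e2, hlog, ← e3, ← EE_mul (e := e) hM]
  have e4 : g (fun j => e j (p * (M * (2 ^ k * y + n) + i))) - mmean q e (k + s) (fun _ => a) g -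
      (g (fun j => e j (p * (M * (2 ^ k * y + n) + i))) - mmean q e k (fun _ => a) g) =
      -(mmean q e (k + s) (fun _ => a) g - mmean q e k (fun _ => a) g) := by ring
  rw [e4, abs_neg]
  exact hmean s hs

theorem cen_off {M a p i N : ℕ} {g : (∀ i, Fin (d i) → ℤ) → ℝ} (ha : (p * i) % M ≠ a) :
    cen q e M a g (p * (M * N + i)) = 0 := by
  unfold cen
  rw [if_neg]
  intro h1
  apply ha
  have e1 : p * (M * N + i) = p * i + M * (p * N) := by ring
  rw [e1, Nat.add_mul_mod_self_left] at h1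
  exact h1

theorem mmean_one (S : Sys q m e C) (k : ℕ) (a : ι → ℕ) : mmean q e k a (fun _ => 1) = 1 := by
  have hpos : (0 : ℝ) < ∏ i, (q i : ℝ) ^ lg (q i) k :=
    Finset.prod_pos fun i _ => qpow_posR (S.base i) _
  unfold mmean modelAv extP
  rw [div_eq_one_iff_eq hpos.ne', Finset.sum_const, Fintype.card_piFinset, nsmul_eq_mul, mul_one]
  push_cast
  exact Finset.prod_congr rfl fun i _ => by rw [Finset.card_range]; push_cast; rfl

/-- the hypothesis of the Kátai criterion -/
theorem cen_katai (S : Sys q m e C) {M h : ℕ} {Q : ι → ℕ} (hM : Md q M h Q) (a : ℕ)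
    {g : (∀ i, Fin (d i) → ℤ) → ℝ} (hg : ∀ x, |g x| ≤ 1) {ε : ℝ} (hε : 0 < ε) :
    ∃ p₀ : ℕ, ∀ p r : ℕ, p.Prime → r.Prime → p₀ ≤ p → (∑ i, 2 * q i ^ m) * p ≤ r → p < r →
      ∀ᶠ N : ℕ in atTop,
        |LogAvg (fun n => cen q e M a g (p * n) * cen q e M a g (r * n)) N| ≤ ε := by
  set ε' : ℝ := ε / 8 with hε'
  have hε'0 : 0 < ε' := by positivity
  obtain ⟨r₀, hr₀⟩ := pair_all' S hM.cop hM.dv (ε := ε' / 4) (by positivity)
  refine ⟨max r₀ (∑ i, q i + 1), fun p r hp hr hp₀ hK hpr => ?_⟩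
  have hqle : ∀ i, q i ≤ ∑ i, q i := fun i =>
    Finset.single_le_sum (f := q) (fun _ _ => Nat.zero_le _) (Finset.mem_univ i)
  have hple := (le_max_right r₀ (∑ i, q i + 1)).trans hp₀
  have hpq : ∀ i, p.Coprime (q i) := by
    intro i
    refine (Nat.Prime.coprime_iff_not_dvd hp).mpr fun hdvd => ?_
    have := Nat.le_of_dvd (by have := S.base i; omega) hdvd
    have := hqle i
    omega
  have hrq : ∀ i, r.Coprime (q i) := by
    intro i
    refine (Nat.Prime.coprime_iff_not_dvd hr).mpr fun hdvd => ?_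
    have := Nat.le_of_dvd (by have := S.base i; omega) hdvd
    have := hqle i
    omega
  have hcop : p.Coprime r := (Nat.coprime_primes hp hr).mpr hpr.ne
  have hr1 : r₀ ≤ r := (le_max_left _ _).trans (hp₀.trans hpr.le)
  have hK' : ∀ i, 2 * q i ^ m * p ≤ r := fun i =>
    (Nat.mul_le_mul_right p (Finset.single_le_sum (f := fun i => 2 * q i ^ m)
      (fun _ _ => Nat.zero_le _) (Finset.mem_univ i))).trans hK
  have hpair := hr₀ p r hp.one_le hpq hrq hcop hr1 hK' h
  have hblock := block_log (q := 2) (M := M) le_rfl hM.pos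
    (u := fun n => cen q e M a g (p * n) * cen q e M a g (r * n)) (A := 4) (fun n => by
      rw [abs_mul]
      calc |cen q e M a g (p * n)| * |cen q e M a g (r * n)| ≤ 2 * 2 :=
            mul_le_mul (abs_cen_le S hg _) (abs_cen_le S hg _) (abs_nonneg _) (by norm_num)
        _ = 4 := by norm_num) (η := ε') hε'0.le (fun t ε₂ hε₂ => by
      have hmean := mmean_slow_add S (t + r + M + 2) (ε := ε₂ / 4) (by positivity)
      filter_upwards [hpair (2 ^ (t + 1)), hmean] with k hk1 hk2 y hy1 hy2 i hi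
      by_cases hpi : (p * i) % M = a
      swap
      · have hz : ∀ n, cen q e M a g (p * (M * (2 ^ k * y + n) + i)) = 0 := fun n => cen_off hpi
        simp only [hz, zero_mul]
        rw [av_const le_rfl, abs_zero]
        positivity
      by_cases hri : (r * i) % M = a
      swap
      · have hz : ∀ n, cen q e M a g (r * (M * (2 ^ k * y + n) + i)) = 0 := fun n => cen_off hri
        simp only [hz, mul_zero]
        rw [av_const le_rfl, abs_zero]
        positivity
      -- the main case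
      have hbd : ∀ p : ℕ, Bd q h (fun j => p * Q j) (fun j => p * i / q j ^ h)
          (fun j => p * i % q j ^ h) := by
        intro p
        refine ⟨fun j => ?_, fun j => Nat.mod_lt _ (qpow_pos (S.base j) h)⟩
        refine Nat.div_le_of_le_mul ?_
        calc p * i ≤ p * M := Nat.mul_le_mul_left _ hi.le
          _ = p * (q j ^ h * Q j) := by rw [← hM.eq j]
          _ = q j ^ h * (p * Q j) := by ring
      set X : ℕ → ℝ := fun n => g (EE q e h (fun j => p * Q j) (fun j => p * i / q j ^ h)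
        (fun j => p * i % q j ^ h) (2 ^ k * y + n)) with hX
      set X' : ℕ → ℝ := fun n => g (EE q e h (fun j => r * Q j) (fun j => r * i / q j ^ h)
        (fun j => r * i % q j ^ h) (2 ^ k * y + n)) with hX'
      set β := mmean q e k ((fun j => p * i / q j ^ h) + (fun j => p * i % q j ^ h)) g with hβ
      set β' := mmean q e k ((fun j => r * i / q j ^ h) + (fun j => r * i % q j ^ h)) g with hβ'
      have hβ1 : |β| ≤ 1 := mmean_abs S hg
      have hβ1' : |β'| ≤ 1 := mmean_abs S hg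
      have k1 : |av 2 k (fun n => X n * X' n) - β * β'| ≤ ε' / 4 :=
        hk1 y hy2.le _ _ _ _ (hbd p) (hbd r) g g hg hg
      have k2 : |av 2 k X - β| ≤ ε' / 4 := by
        have := hk1 y hy2.le _ _ _ _ (hbd p) (hbd r) g (fun _ => 1) hg (fun _ => by simp)
        rw [mmean_one S, mul_one] at this
        simpa only [mul_one] using this
      have k3 : |av 2 k X' - β'| ≤ ε' / 4 := by
        have := hk1 y hy2.le _ _ _ _ (hbd p) (hbd r) (fun _ => 1) g (fun _ => by simp) hg
        rw [mmean_one S, one_mul] at this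
        simpa only [one_mul] using this
      have hclose : ∀ n < 2 ^ k, |cen q e M a g (p * (M * (2 ^ k * y + n) + i)) *
          cen q e M a g (r * (M * (2 ^ k * y + n) + i)) -
          (X n - β) * (X' n - β')| ≤ ε₂ := by
        intro n hn
        have c1 := cen_block S hM hp.one_le hy1 hy2 hn hi hpi (g := g)
          (ε := ε₂ / 4) (fun s hs => hk2 s (by omega) g _ hg)
        have c2 := cen_block S hM hr.one_le hy1 hy2 hn hi hri (g := g)
          (ε := ε₂ / 4) (fun s hs => hk2 s hs g _ hg)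
        have c3 := abs_mul_sub_le (abs_cen_le S hg _) (y' := X' n - β')
          ((abs_sub _ _).trans (by linarith [hg (EE q e h (fun j => r * Q j)
            (fun j => r * i / q j ^ h) (fun j => r * i % q j ^ h) (2 ^ k * y + n))])) c1 c2
        refine c3.trans (le_of_eq (by ring))
      have hmain : |av 2 k (fun n => (X n - β) * (X' n - β'))| ≤ ε' := by
        have e1 : av 2 k (fun n => (X n - β) * (X' n - β')) =
            (av 2 k (fun n => X n * X' n) - β * β') - β' * (av 2 k X - β) -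
            β * (av 2 k X' - β') := by
          have e2 : (fun n => (X n - β) * (X' n - β')) = fun n =>
              X n * X' n - β' * X n - β * X' n + β * β' := by
            funext n
            ring
          rw [e2, av_add, av_sub, av_sub, av_const_mul, av_const_mul, av_const le_rfl]
          ring
        rw [e1]
        have b1 : |β' * (av 2 k X - β)| ≤ ε' / 4 := by
          rw [abs_mul]
          exact (mul_le_of_le_one_left (abs_nonneg _) hβ1').trans k2
        have b2 : |β * (av 2 k X' - β')| ≤ ε' / 4 := by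
          rw [abs_mul]
          exact (mul_le_of_le_one_left (abs_nonneg _) hβ1).trans k3
        have t1 := abs_le.mp k1
        have t2 := abs_le.mp b1
        have t3 := abs_le.mp b2
        rw [abs_le]
        constructor
        · linarith [t1.1, t2.2, t3.2]
        · linarith [t1.2, t2.1, t3.1]
      have hcl := av_close (q := 2) le_rfl hclose
      have t1 := abs_le.mp hcl
      have t2 := abs_le.mp hmain
      rw [abs_le]
      constructor
      · linarith [t1.1, t2.1]
      · linarith [t1.2, t2.2]) (ε := ε / 2) (by positivity)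
  filter_upwards [hblock] with N hN
  refine hN.trans (le_of_eq ?_)
  rw [hε']
  push_cast
  ring

end several

end Pool.Agent.Lib.MP_3e612f_nt.MB
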