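import Pool.Agent.Lib.MP_3e612f_nt.MDefs

/-!
The top digits do not matter for averages of `exp (i F)`.
-/

set_option autoImplicit false

namespace Pool.Agent.Lib.MP_3e612f_nt.MB

open Filter Topology
open Pool.Agent.Lib.MP_3e612f_nt.QA

theorem free_exp_norm (a : ℝ) : ‖Complex.exp (Complex.I * (a : ℂ))‖ = 1 := by
  rw [mul_comm]; exact Complex.norm_exp_ofReal_mul_I a

theorem free_exp_close (a b : ℝ) :
    ‖Complex.exp (Complex.I * (a : ℂ)) - Complex.exp (Complex.I * (b : ℂ))‖ ≤ |a - b| := by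
  have e : Complex.exp (Complex.I * (a : ℂ)) - Complex.exp (Complex.I * (b : ℂ)) =
      Complex.exp (Complex.I * (b : ℂ)) * (Complex.exp (Complex.I * ((a - b : ℝ) : ℂ)) - 1) := by
    rw [mul_sub, mul_one, ← Complex.exp_add]
    congr 2
    push_cast
    ring
  rw [e, norm_mul, free_exp_norm, one_mul]
  exact Real.norm_exp_I_mul_ofReal_sub_one_le

/-- long averages are close to the average over the lower digits -/
theorem free_blocks {q m : ℕ} (hq : 2 ≤ q) (Y : ℕ) :
    ∃ K : ℝ, 0 ≤ K ∧ ∀ (F : ℕ → ℝ) (C : ℝ), QR q m F C → ∀ a T : ℕ, 1 ≤ T → T / q ^ a ≤ Y →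
      ‖(∑ n ∈ Finset.range T, Complex.exp (Complex.I * (F n : ℂ))) / (T : ℂ) -
        avc q a (fun n => Complex.exp (Complex.I * (F n : ℂ)))‖ ≤ K * C + 2 * q ^ a / T := by
  obtain ⟨K, hK, hdef⟩ := defect_sq_left (m := m) hq Y
  refine ⟨Y + 2 + Real.sqrt K, by positivity, fun F C hF a T hT hTY => ?_⟩
  have hC := hF.nonneg
  set μ : ℂ := avc q a (fun n => Complex.exp (Complex.I * (F n : ℂ))) with hμ
  have hqa : (0 : ℝ) < (q : ℝ) ^ a := qpow_posR hq a
  have hqaC : ((q : ℂ) ^ a) ≠ 0 := by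
    have : (q : ℂ) ≠ 0 := by exact_mod_cast (by omega : q ≠ 0)
    exact pow_ne_zero _ this
  have hTR : (0 : ℝ) < T := by exact_mod_cast hT
  have hTC : (T : ℂ) ≠ 0 := by exact_mod_cast hTR.ne'
  set δ : ℝ := (Y + 2 + Real.sqrt K) * C with hδ
  have hδ0 : 0 ≤ δ := by positivity
  have hμ1 : ‖μ‖ ≤ 1 := by
    rw [hμ]
    unfold avc
    rw [norm_div, norm_pow, Complex.norm_natCast, div_le_one hqa]
    refine (norm_sum_le _ _).trans ?_
    simp only [free_exp_norm]
    simp
  -- a block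
  have hblock : ∀ y ≤ Y, ‖∑ s ∈ Finset.range (q ^ a),
      (Complex.exp (Complex.I * (F (q ^ a * y + s) : ℂ)) -
        Complex.exp (Complex.I * (F s : ℂ)))‖ ≤ q ^ a * δ := by
    intro y hy
    refine (norm_sum_le _ _).trans ?_
    have h1 : ∑ s ∈ Finset.range (q ^ a), ‖Complex.exp (Complex.I * (F (q ^ a * y + s) : ℂ)) -
        Complex.exp (Complex.I * (F s : ℂ))‖ ≤
        ∑ s ∈ Finset.range (q ^ a), (C * (Y + 2) + |dfc F q a y s|) := by
      refine Finset.sum_le_sum fun s _ => (free_exp_close _ _).trans ?_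
      have e : F (q ^ a * y + s) - F s = F y + dfc F q a y s := by unfold dfc; ring
      rw [e]
      refine (abs_add_le _ _).trans (add_le_add ?_ le_rfl)
      have h2 : y < q ^ (Y + 1) := by
        calc y < 2 ^ y := Nat.lt_two_pow_self
          _ ≤ 2 ^ (Y + 1) := Nat.pow_le_pow_right (by norm_num) (by omega)
          _ ≤ q ^ (Y + 1) := Nat.pow_le_pow_left hq _
      refine (hF.growth _ y h2).trans (le_of_eq ?_)
      push_cast; ring
    refine h1.trans ?_
    have h3 : av q a (fun s => |dfc F q a y s|) ≤ Real.sqrt K * C := by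
      have h4 := av_sq_le q hq a (fun s => |dfc F q a y s|)
      simp only [sq_abs] at h4
      have h5 := h4.trans (hdef F C hF a y hy)
      have h6 : 0 ≤ av q a (fun s => |dfc F q a y s|) := av_nonneg fun _ _ => abs_nonneg _
      rw [← Real.sqrt_sq h6]
      calc Real.sqrt (av q a (fun s => |dfc F q a y s|) ^ 2) ≤ Real.sqrt (K * C ^ 2) :=
            Real.sqrt_le_sqrt h5
        _ = Real.sqrt K * C := by
            rw [Real.sqrt_mul hK, Real.sqrt_sq hC]
    unfold av at h3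
    rw [div_le_iff₀ hqa] at h3
    rw [Finset.sum_add_distrib]
    simp only [Finset.sum_const, Finset.card_range, nsmul_eq_mul]
    push_cast
    rw [hδ]
    nlinarith
  -- the decomposition
  set N := T / q ^ a with hN
  set r := T % q ^ a with hr
  have hTd : T = q ^ a * N + r := (Nat.div_add_mod T (q ^ a)).symm
  have hrq : r < q ^ a := Nat.mod_lt _ (by positivity)
  have hmu : (q : ℂ) ^ a * μ = ∑ s ∈ Finset.range (q ^ a), Complex.exp (Complex.I * (F s : ℂ)) := by
    rw [hμ]; unfold avc; field_simp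
  have hsum : ∀ M ≤ Y, ‖∑ n ∈ Finset.range (q ^ a * M), Complex.exp (Complex.I * (F n : ℂ)) -
      (q : ℂ) ^ a * M * μ‖ ≤ q ^ a * M * δ := by
    intro M hM
    induction M with
    | zero => simp
    | succ M ih =>
      rw [Nat.mul_succ, Finset.sum_range_add]
      have h1 := ih (by omega)
      have h2 := hblock M (by omega)
      rw [Finset.sum_sub_distrib, ← hmu] at h2
      have e : ∑ n ∈ Finset.range (q ^ a * M), Complex.exp (Complex.I * (F n : ℂ)) +
          ∑ s ∈ Finset.range (q ^ a), Complex.exp (Complex.I * (F (q ^ a * M + s) : ℂ)) -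
          (q : ℂ) ^ a * (M + 1 : ℕ) * μ =
          (∑ n ∈ Finset.range (q ^ a * M), Complex.exp (Complex.I * (F n : ℂ)) -
            (q : ℂ) ^ a * M * μ) +
          (∑ s ∈ Finset.range (q ^ a), Complex.exp (Complex.I * (F (q ^ a * M + s) : ℂ)) -
            (q : ℂ) ^ a * μ) := by
        push_cast; ring
      rw [e]
      refine (norm_add_le _ _).trans ((add_le_add h1 h2).trans (le_of_eq ?_))
      push_cast; ring
  have hfull := hsum N hTY
  have hrest : ‖∑ s ∈ Finset.range r, Complex.exp (Complex.I * (F (q ^ a * N + s) : ℂ)) -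
      r * μ‖ ≤ 2 * r := by
    refine (norm_sub_le _ _).trans ?_
    have h1 : ‖∑ s ∈ Finset.range r, Complex.exp (Complex.I * (F (q ^ a * N + s) : ℂ))‖ ≤ r := by
      refine (norm_sum_le _ _).trans ?_
      simp only [free_exp_norm]
      simp
    have h2 : ‖(r : ℂ) * μ‖ ≤ r := by
      rw [norm_mul, Complex.norm_natCast]
      have : (0 : ℝ) ≤ r := Nat.cast_nonneg r
      nlinarith
    linarith
  have htot : ‖∑ n ∈ Finset.range T, Complex.exp (Complex.I * (F n : ℂ)) - T * μ‖ ≤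
      T * δ + 2 * q ^ a := by
    have e1 : ∑ n ∈ Finset.range T, Complex.exp (Complex.I * (F n : ℂ)) =
        ∑ n ∈ Finset.range (q ^ a * N), Complex.exp (Complex.I * (F n : ℂ)) +
        ∑ s ∈ Finset.range r, Complex.exp (Complex.I * (F (q ^ a * N + s) : ℂ)) := by
      rw [← Finset.sum_range_add, ← hTd]
    have e2 : (T : ℂ) = (q : ℂ) ^ a * N + r := by exact_mod_cast congrArg (Nat.cast (R := ℂ)) hTd
    have e3 : (T : ℝ) = (q : ℝ) ^ a * N + r := by exact_mod_cast congrArg (Nat.cast (R := ℝ)) hTd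
    have hrR : (r : ℝ) ≤ (q : ℝ) ^ a := by exact_mod_cast hrq.le
    have hr0 : (0 : ℝ) ≤ r := Nat.cast_nonneg r
    rw [e1, e2]
    calc _ = ‖(∑ n ∈ Finset.range (q ^ a * N), Complex.exp (Complex.I * (F n : ℂ)) -
          (q : ℂ) ^ a * N * μ) +
          (∑ s ∈ Finset.range r, Complex.exp (Complex.I * (F (q ^ a * N + s) : ℂ)) -
            r * μ)‖ := by congr 1; ring
      _ ≤ q ^ a * N * δ + 2 * r := (norm_add_le _ _).trans (add_le_add hfull hrest)
      _ ≤ T * δ + 2 * q ^ a := by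
        rw [e3]
        nlinarith [mul_nonneg hr0 hδ0]
  have e4 : (∑ n ∈ Finset.range T, Complex.exp (Complex.I * (F n : ℂ))) / (T : ℂ) - μ =
      (∑ n ∈ Finset.range T, Complex.exp (Complex.I * (F n : ℂ)) - T * μ) / T := by
    field_simp
  rw [e4, norm_div, Complex.norm_natCast, div_le_iff₀ hTR]
  refine htot.trans (le_of_eq ?_)
  field_simp

/-- M23: the top digits do not matter -/
theorem top_free {q m : ℕ} (hq : 2 ≤ q) {ε D : ℝ} (hε : 0 < ε) :
    ∀ᶠ k : ℕ in atTop, ∀ (F : ℕ → ℝ) (C : ℝ), QR q m F C → C ≤ D / Real.sqrt (k + 1) →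
      ‖avc 2 k (fun n => Complex.exp (Complex.I * (F n : ℂ))) -
        avc q (lg q k) (fun n => Complex.exp (Complex.I * (F n : ℂ)))‖ ≤ ε := by
  obtain ⟨J, hJ⟩ := exists_nat_gt (8 / ε)
  obtain ⟨K, hK, hb⟩ := free_blocks (m := m) hq (q ^ (J + 1))
  have hlim : Tendsto (fun k : ℕ => (4 * K * |D|) / Real.sqrt (k + 1)) atTop (𝓝 0) := by
    refine Tendsto.div_atTop tendsto_const_nhds ?_
    refine Real.tendsto_sqrt_atTop.comp ?_
    exact tendsto_atTop_add_const_right _ _ tendsto_natCast_atTop_atTop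
  have hev : ∀ᶠ k : ℕ in atTop, (4 * K * |D|) / Real.sqrt (k + 1) ≤ ε :=
    (hlim.eventually (gt_mem_nhds hε)).mono fun k hk => hk.le
  filter_upwards [hev, eventually_ge_atTop (q * J)] with k hk hkJ F C hF hC
  have hl1 : q ^ lg q k ≤ 2 ^ k := Nat.pow_log_le_self q (by positivity)
  have hl2 : 2 ^ k < q ^ (lg q k + 1) := Nat.lt_pow_succ_log_self (by omega) _
  have hlJ : J ≤ lg q k := by
    apply Nat.le_log_of_pow_le (by omega)
    calc q ^ J ≤ (2 ^ q) ^ J := Nat.pow_le_pow_left Nat.lt_two_pow_self.le J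
      _ = 2 ^ (q * J) := by rw [← pow_mul]
      _ ≤ 2 ^ k := Nat.pow_le_pow_right (by norm_num) hkJ
  obtain ⟨a, ha⟩ : ∃ a, lg q k = a + J := ⟨lg q k - J, by omega⟩
  have hqa : 0 < q ^ a := by positivity
  have hd : ∀ T : ℕ, T ≤ 2 ^ k → T / q ^ a ≤ q ^ (J + 1) := by
    intro T hT
    have h1 : T ≤ q ^ (J + 1) * q ^ a := by
      calc T ≤ 2 ^ k := hT
        _ ≤ q ^ (lg q k + 1) := hl2.le
        _ = q ^ (J + 1) * q ^ a := by rw [ha, ← pow_add]; congr 1; ring
    exact Nat.div_le_of_le_mul (by rw [mul_comm]; exact h1)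
  have h1 := hb F C hF a (2 ^ k) (Nat.one_le_two_pow) (hd _ le_rfl)
  have h2 := hb F C hF a (q ^ lg q k) (Nat.one_le_pow _ _ (by omega)) (hd _ hl1)
  have e1 : (∑ n ∈ Finset.range (2 ^ k), Complex.exp (Complex.I * (F n : ℂ))) /
      ((2 ^ k : ℕ) : ℂ) = avc 2 k (fun n => Complex.exp (Complex.I * (F n : ℂ))) := by
    unfold avc; push_cast; rfl
  have e2 : (∑ n ∈ Finset.range (q ^ lg q k), Complex.exp (Complex.I * (F n : ℂ))) /
      ((q ^ lg q k : ℕ) : ℂ) = avc q (lg q k) (fun n => Complex.exp (Complex.I * (F n : ℂ))) := by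
    unfold avc; push_cast; rfl
  rw [e1] at h1
  rw [e2] at h2
  -- the errors
  have hJ0 : (0 : ℝ) < J := lt_trans (by positivity) hJ
  have hqJ : (J : ℝ) ≤ (q : ℝ) ^ J := by
    have : J ≤ q ^ J := Nat.lt_two_pow_self.le.trans (Nat.pow_le_pow_left hq J)
    exact_mod_cast this
  have herr : ∀ T : ℕ, q ^ lg q k ≤ T → 2 * (q : ℝ) ^ a / T ≤ ε / 4 := by
    intro T hT
    have hT' : (q : ℝ) ^ a * (q : ℝ) ^ J ≤ T := by
      rw [← pow_add, ← ha]; exact_mod_cast hT
    have hqaR : (0 : ℝ) < (q : ℝ) ^ a := qpow_posR hq a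
    have hT0 : (0 : ℝ) < T := lt_of_lt_of_le (by positivity) hT'
    rw [div_le_iff₀ hT0]
    rw [div_lt_iff₀ hε] at hJ
    have h3 : 8 ≤ (q : ℝ) ^ J * ε := by nlinarith
    nlinarith
  have g1 := herr (2 ^ k) hl1
  have g2 := herr (q ^ lg q k) le_rfl
  have g3 : 4 * (K * C) ≤ ε := by
    refine le_trans ?_ hk
    have : C ≤ |D| / Real.sqrt (k + 1) := hC.trans (by gcongr; exact le_abs_self D)
    calc 4 * (K * C) ≤ 4 * (K * (|D| / Real.sqrt (k + 1))) := by gcongr
      _ = _ := by ring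
  have h2' : ‖avc q a (fun n => Complex.exp (Complex.I * (F n : ℂ))) -
      avc q (lg q k) (fun n => Complex.exp (Complex.I * (F n : ℂ)))‖ ≤
      K * C + 2 * q ^ a / (q ^ lg q k : ℕ) := by
    rw [norm_sub_rev]; exact h2
  refine (norm_sub_le_norm_sub_add_norm_sub _
    (avc q a (fun n => Complex.exp (Complex.I * (F n : ℂ)))) _).trans ?_
  linarith

end Pool.Agent.Lib.MP_3e612f_nt.MB
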