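import Pool.Agent.Lib.MP_3e612f_nt.MClt
import Pool.Agent.Lib.MP_3e612f_nt.MFree

/-!
Characteristic functions.
-/

set_option autoImplicit false

namespace Pool.Agent.Lib.MP_3e612f_nt.MB

open Filter Topology
open Pool.Agent.Lib.MP_3e612f_nt.QA

theorem mc_avc_norm {q : ℕ} (hq : 2 ≤ q) {k : ℕ} {u : ℕ → ℂ} (h : ∀ n, ‖u n‖ ≤ 1) :
    ‖avc q k u‖ ≤ 1 := by
  have hpos := qpow_posR hq k
  unfold avc
  rw [norm_div, norm_pow, Complex.norm_natCast, div_le_one hpos]
  refine (norm_sum_le _ _).trans ?_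
  calc ∑ n ∈ Finset.range (q ^ k), ‖u n‖ ≤ ∑ n ∈ Finset.range (q ^ k), (1 : ℝ) :=
        Finset.sum_le_sum fun n _ => h n
    _ = (q : ℝ) ^ k := by simp

theorem mc_avc_const_mul (q k : ℕ) (a : ℂ) (u : ℕ → ℂ) :
    avc q k (fun n => a * u n) = a * avc q k u := by
  unfold avc
  rw [← Finset.mul_sum, mul_div_assoc]

theorem mc_prod {ι : Type*} (s : Finset ι) {a b : ι → ℂ} (ha : ∀ i, ‖a i‖ ≤ 1)
    (hb : ∀ i, ‖b i‖ ≤ 1) : ‖∏ i ∈ s, a i - ∏ i ∈ s, b i‖ ≤ ∑ i ∈ s, ‖a i - b i‖ := by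
  classical
  induction s using Finset.induction_on with
  | empty => simp
  | insert i s hi ih =>
    rw [Finset.prod_insert hi, Finset.prod_insert hi, Finset.sum_insert hi]
    have e : a i * ∏ j ∈ s, a j - b i * ∏ j ∈ s, b j =
        (a i - b i) * ∏ j ∈ s, a j + b i * (∏ j ∈ s, a j - ∏ j ∈ s, b j) := by ring
    rw [e]
    refine (norm_add_le _ _).trans (add_le_add ?_ ?_)
    · rw [norm_mul]
      have h1 : ‖∏ j ∈ s, a j‖ ≤ 1 := by
        rw [norm_prod]
        exact Finset.prod_le_one (fun j _ => norm_nonneg _) fun j _ => ha j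
      calc ‖a i - b i‖ * ‖∏ j ∈ s, a j‖ ≤ ‖a i - b i‖ * 1 := by gcongr
        _ = _ := mul_one _
    · rw [norm_mul]
      calc ‖b i‖ * ‖∏ j ∈ s, a j - ∏ j ∈ s, b j‖ ≤ 1 * ‖∏ j ∈ s, a j - ∏ j ∈ s, b j‖ := by
            gcongr
            exact hb i
        _ ≤ _ := by rw [one_mul]; exact ih

theorem mc_norm_exp (x : ℝ) : ‖Complex.exp (Complex.I * (x : ℂ))‖ = 1 := by
  rw [mul_comm]
  exact Complex.norm_exp_ofReal_mul_I x

theorem mc_cov_perm {q P : ℕ} (hq : 2 ≤ q) (hP : P.Coprime q) (w : ℕ) (F G : ℕ → ℝ) :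
    cov q w (fun n => F (P * n % q ^ w)) (fun n => G (P * n % q ^ w)) = cov q w F G := by
  unfold cov
  have h1 := av_perm hq hP 0 w F
  have h2 := av_perm hq hP 0 w G
  have h3 := av_perm hq hP 0 w (fun n => F n * G n)
  simp only [add_zero] at h1 h2 h3
  rw [h1, h2, h3]

theorem mc_lg_le {q : ℕ} (hq : 2 ≤ q) (a : ℕ) : lg q a ≤ a := by
  have h1 : q ^ lg q a ≤ 2 ^ a := Nat.pow_log_le_self q (by positivity)
  have h2 : 2 ^ lg q a ≤ 2 ^ a := (Nat.pow_le_pow_left hq _).trans h1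
  exact (Nat.pow_le_pow_iff_right (by norm_num : 1 < 2)).1 h2

theorem mc_lg_mono (q : ℕ) {a b : ℕ} (h : a ≤ b) : lg q a ≤ lg q b := by
  unfold lg
  exact Nat.log_mono_right (Nat.pow_le_pow_right (by norm_num) h)

theorem mc_lg_lt {q : ℕ} (hq : 2 ≤ q) (a : ℕ) : a < q * (lg q a + 1) := by
  have h3 : 2 ^ a < q ^ (lg q a + 1) := Nat.lt_pow_succ_log_self (by omega) _
  have h4 : 2 ^ a < 2 ^ (q * (lg q a + 1)) := by
    rw [pow_mul]
    exact lt_of_lt_of_le h3 (Nat.pow_le_pow_left Nat.lt_two_pow_self.le _)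
  exact (Nat.pow_lt_pow_iff_right (by norm_num : 1 < 2)).1 h4

theorem mc_wn_cast (q k₁ W j : ℕ) :
    (wn q k₁ W j : ℝ) = (lg q (k₁ + W * (j + 1)) : ℝ) - lg q (k₁ + W * j) := by
  unfold wn
  rw [Nat.cast_sub (mc_lg_mono q (by nlinarith))]

theorem mc_wn_sum (q k₁ W N : ℕ) :
    ∑ j ∈ Finset.range N, (wn q k₁ W j : ℝ) = (lg q (k₁ + W * N) : ℝ) - lg q k₁ := by
  simp only [mc_wn_cast]
  rw [Finset.sum_range_sub (fun j => (lg q (k₁ + W * j) : ℝ))]
  simp

theorem mc_wn_ge {q : ℕ} (hq : 2 ≤ q) {k₁ W w₀ j : ℕ} (hW : q * (w₀ + 1) ≤ W) :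
    w₀ ≤ wn q k₁ W j := by
  unfold wn
  obtain ⟨a, ha⟩ : ∃ a, a = k₁ + W * j := ⟨_, rfl⟩
  have hb : k₁ + W * (j + 1) = a + W := by rw [ha]; ring
  rw [hb, ← ha]
  have h2 : q ^ lg q a ≤ 2 ^ a := Nat.pow_log_le_self q (by positivity)
  have h3 : 2 ^ (a + W) < q ^ (lg q (a + W) + 1) := Nat.lt_pow_succ_log_self (by omega) _
  have h5 : lg q a ≤ lg q (a + W) := mc_lg_mono q (by omega)
  set E := lg q (a + W) + 1 - lg q a with hE
  have h6 : lg q (a + W) + 1 = lg q a + E := by omega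
  rw [h6, pow_add, pow_add q] at h3
  have h7 : 2 ^ a * 2 ^ W < 2 ^ a * q ^ E := lt_of_lt_of_le h3 (Nat.mul_le_mul_right _ h2)
  have h8 : 2 ^ W < q ^ E := lt_of_mul_lt_mul_left h7 (Nat.zero_le _)
  have h9 : 2 ^ W < 2 ^ (q * E) := by
    rw [pow_mul]
    exact lt_of_lt_of_le h8 (Nat.pow_le_pow_left Nat.lt_two_pow_self.le _)
  have h10 := (Nat.pow_lt_pow_iff_right (by norm_num : 1 < 2)).1 h9
  have h11 : w₀ + 1 < E := by
    by_contra hcon
    have : q * E ≤ q * (w₀ + 1) := Nat.mul_le_mul_left _ (by omega)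
    omega
  omega

theorem mc_exp {V S R ρ : ℝ} (hV : V = S + R) (hR : |R| ≤ 2 * ρ) :
    |Real.exp (-V / 2) - Real.exp (-S / 2)| ≤ (Real.exp ρ - 1) * Real.exp (-S / 2) := by
  have e1 : Real.exp (-V / 2) - Real.exp (-S / 2) = (Real.exp (-R / 2) - 1) * Real.exp (-S / 2) := by
    rw [sub_mul, one_mul, ← Real.exp_add, hV]
    congr 2
    ring
  rw [e1, abs_mul, abs_of_pos (Real.exp_pos (-S / 2))]
  refine mul_le_mul_of_nonneg_right ?_ (Real.exp_pos _).le
  rw [abs_le] at hR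
  rw [abs_le]
  constructor
  · have h1 : Real.exp (-ρ) ≤ Real.exp (-R / 2) := Real.exp_le_exp.2 (by linarith)
    have h2 : 2 ≤ Real.exp ρ + Real.exp (-ρ) := by
      have := Real.add_one_le_exp ρ
      have := Real.add_one_le_exp (-ρ)
      linarith
    linarith
  · have h1 : Real.exp (-R / 2) ≤ Real.exp ρ := Real.exp_le_exp.2 (by linarith)
    linarith

section fam

variable {J : Type*} [Fintype J] [DecidableEq J]

/-- M24: characteristic functions -/
theorem charfun {q : J → ℕ} (hq : ∀ α, 2 ≤ q α)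
    (hqq : ∀ α β, q α = q β ∨ (q α).Coprime (q β)) {m : ℕ} {P : J → ℕ}
    (hP : ∀ α, (P α).Coprime (q α)) (h Y : ℕ) {η K₀ : ℝ} (hη : 0 < η) (w₀ : ℕ)
    {ε D : ℝ} (hε : 0 < ε) :
    ∀ᶠ k : ℕ in atTop, ∀ y ≤ Y, ∀ c z : J → ℕ, Bd q h P c z →
      ∀ (F : J → ℕ → ℝ) (C l : J → ℝ), (∀ α, QR (q α) m (F α) (C α)) →
      (∀ α, C α ≤ D / Real.sqrt (k + 1)) → (∀ α, 0 ≤ l α) →
      (∀ α, ∀ w ≥ w₀, l α * w ≤ cov (q α) w (F α) (F α)) →
      (∀ α β, α ≠ β → q α = q β → ∀ w, |cov (q α) w (fun n => F α (P α * n % q α ^ w))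
        (fun n => F β (P β * n % q α ^ w))| ≤ (η * w + K₀) * C α * C β) →
      ‖avc 2 k (fun n => Complex.exp (Complex.I * ((∑ α,
          F α (sd (q α) h (P α) (c α) (z α) (2 ^ k * y + n)) : ℝ) : ℂ))) -
        ∏ α, avc (q α) (lg (q α) k) (fun n => Complex.exp (Complex.I * (F α n : ℂ)))‖ ≤
        (Real.exp (η * k * (∑ α, C α) ^ 2) - 1) * Real.exp (-(k * ∑ α, l α / q α) / 4) + ε := by
  classical
  set δ : ℝ := ε / (2 * (Fintype.card J + 1)) with hδ
  have hcard : (0 : ℝ) ≤ Fintype.card J := Nat.cast_nonneg _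
  have hδ0 : 0 < δ := by positivity
  obtain ⟨WJ, hWJ⟩ := clt_left (m := m) hq hqq hP h Y (D := D) hδ0
  have hsingle := fun α => clt_left (J := Unit) (q := fun _ => q α) (m := m) (P := fun _ => 1)
    (fun _ => hq α) (fun _ _ => Or.inl rfl) (fun _ => Nat.coprime_one_left _) 0 0 (D := D) hδ0
  choose Wα hWα using hsingle
  obtain ⟨Wη, hWη⟩ := exists_nat_ge (max K₀ 0 / η)
  set W := WJ + (∑ α, Wα α) + Wη + (∑ α, q α * (w₀ + 1)) + 1 with hW
  have hW1 : WJ ≤ W := by omega
  have hW2 : ∀ α, Wα α ≤ W := by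
    intro α
    have : Wα α ≤ ∑ α, Wα α := Finset.single_le_sum (f := Wα) (fun _ _ => Nat.zero_le _)
      (Finset.mem_univ α)
    omega
  have hW3 : Wη ≤ W := by omega
  have hW4 : ∀ α, q α * (w₀ + 1) ≤ W := by
    intro α
    have : q α * (w₀ + 1) ≤ ∑ α, q α * (w₀ + 1) :=
      Finset.single_le_sum (f := fun α => q α * (w₀ + 1)) (fun _ _ => Nat.zero_le _)
        (Finset.mem_univ α)
    omega
  have hW5 : 1 ≤ W := by omega
  obtain ⟨sJ, hsJ⟩ := hWJ W hW1
  choose sα hsα using fun α => hWα α W (hW2 α)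
  set s := sJ + (∑ α, sα α) + 1 with hs
  have hs1 : sJ ≤ s := by omega
  have hs2 : ∀ α, sα α ≤ s := by
    intro α
    have : sα α ≤ ∑ α, sα α := Finset.single_le_sum (f := sα) (fun _ _ => Nat.zero_le _)
      (Finset.mem_univ α)
    omega
  have hs3 : 1 ≤ s := by omega
  have hWs : 0 < W * s := Nat.mul_pos hW5 hs3
  have hk1 := hsJ s hs1
  have hk2 : ∀ᶠ k : ℕ in atTop, ∀ α, ∀ y ≤ 0, ∀ c z : Unit → ℕ,
      Bd (fun _ => q α) 0 (fun _ => 1) c z → ∀ (F : Unit → ℕ → ℝ) (C : Unit → ℝ),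
      (∀ β, QR (q α) m (F β) (C β)) → (∀ β, C β ≤ D / Real.sqrt (k + 1)) →
      ‖avc 2 k (fun n => Complex.exp (Complex.I * ((∑ β,
          (F β (sd (q α) 0 1 (c β) (z β) (2 ^ k * y + n)) -
            av (q α) (lg (q α) k) (F β)) : ℝ) : ℂ))) -
        Complex.exp ((-VV (fun _ => q α) (fun _ => 1) F W (k % (W * s)) (k / (W * s) * s) / 2 : ℝ)
          : ℂ)‖ ≤ δ := by
    rw [eventually_all]
    exact fun α => hsα α s (hs2 α)
  have hk3 : ∀ᶠ k : ℕ in atTop, ∀ α, ∀ (F : ℕ → ℝ) (C : ℝ), QR (q α) m F C →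
      C ≤ D / Real.sqrt (k + 1) →
      ‖avc 2 k (fun n => Complex.exp (Complex.I * (F n : ℂ))) -
        avc (q α) (lg (q α) k) (fun n => Complex.exp (Complex.I * (F n : ℂ)))‖ ≤ δ := by
    rw [eventually_all]
    exact fun α => top_free (hq α) hδ0
  have hk4 : ∀ᶠ k : ℕ in atTop, ∀ α, 2 * q α * (1 + W * s) ≤ k := by
    rw [eventually_all]
    exact fun α => eventually_ge_atTop _
  filter_upwards [hk1, hk2, hk3, hk4] with k h1 h2 h3 h4
  intro y hy c z hcz F C l hF hC hl hlow hcross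
  set k₁ := k % (W * s) with hk₁
  set N := k / (W * s) * s with hN
  have hk₁lt : k₁ < W * s := Nat.mod_lt _ hWs
  have hkN : k₁ + W * N = k := by
    have := Nat.mod_add_div k (W * s)
    rw [hk₁, hN]
    calc k % (W * s) + W * (k / (W * s) * s) = k % (W * s) + W * s * (k / (W * s)) := by ring
      _ = k := this
  set μ : J → ℝ := fun α => av (q α) (lg (q α) k) (F α) with hμ
  set Vα : J → ℝ := fun α => ∑ j ∈ Finset.range N, cov (q α) (wn (q α) k₁ W j) (F α) (F α) with hVα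
  set SV := ∑ α, Vα α with hSV
  set VJ := VV q P F W k₁ N with hVJ
  have hC0 : ∀ α, 0 ≤ C α := fun α => (hF α).nonneg
  have hSC : 0 ≤ ∑ α, C α := Finset.sum_nonneg fun α _ => hC0 α
  have hVα0 : ∀ α, 0 ≤ Vα α := fun α => Finset.sum_nonneg fun j _ => cov_self_nonneg (hq α) _ _
  -- the cross terms
  have hcrossR : |VJ - SV| ≤ 2 * (η * k * (∑ α, C α) ^ 2) := by
    set K₁ := max K₀ 0 with hK₁
    have hK₁0 : 0 ≤ K₁ := le_max_right _ _
    have hsplit : VJ - SV = ∑ j ∈ Finset.range N, ∑ α, ∑ β ∈ Finset.univ.erase α,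
        (if q α = q β then cov (q α) (wn (q α) k₁ W j)
          (fun n => F α (P α * n % q α ^ wn (q α) k₁ W j))
          (fun n => F β (P β * n % q α ^ wn (q α) k₁ W j)) else 0) := by
      rw [hVJ, hSV, hVα, Finset.sum_comm]
      unfold VV
      rw [← Finset.sum_sub_distrib]
      refine Finset.sum_congr rfl fun j _ => ?_
      rw [← Finset.sum_sub_distrib]
      refine Finset.sum_congr rfl fun α _ => ?_
      rw [← Finset.add_sum_erase Finset.univ _ (Finset.mem_univ α), if_pos rfl,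
        mc_cov_perm (hq α) (hP α)]
      ring
    rw [hsplit]
    have hterm : ∀ j α β, β ∈ Finset.univ.erase α → |if q α = q β then cov (q α) (wn (q α) k₁ W j)
          (fun n => F α (P α * n % q α ^ wn (q α) k₁ W j))
          (fun n => F β (P β * n % q α ^ wn (q α) k₁ W j)) else 0| ≤
        (η * wn (q α) k₁ W j + K₁) * C α * C β := by
      intro j α β hβ
      have hne : α ≠ β := (Finset.ne_of_mem_erase hβ).symm
      have hab : 0 ≤ C α * C β := mul_nonneg (hC0 α) (hC0 β)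
      split_ifs with hqe
      · refine (hcross α β hne hqe _).trans ?_
        rw [mul_assoc, mul_assoc]
        refine mul_le_mul_of_nonneg_right ?_ hab
        have := le_max_left K₀ 0
        linarith
      · rw [abs_zero, mul_assoc]
        positivity
    calc |∑ j ∈ Finset.range N, ∑ α, ∑ β ∈ Finset.univ.erase α,
          (if q α = q β then cov (q α) (wn (q α) k₁ W j)
          (fun n => F α (P α * n % q α ^ wn (q α) k₁ W j))
          (fun n => F β (P β * n % q α ^ wn (q α) k₁ W j)) else 0)|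
        ≤ ∑ j ∈ Finset.range N, ∑ α, ∑ β ∈ Finset.univ.erase α,
          (η * wn (q α) k₁ W j + K₁) * C α * C β := by
          refine (Finset.abs_sum_le_sum_abs _ _).trans (Finset.sum_le_sum fun j _ => ?_)
          refine (Finset.abs_sum_le_sum_abs _ _).trans (Finset.sum_le_sum fun α _ => ?_)
          refine (Finset.abs_sum_le_sum_abs _ _).trans (Finset.sum_le_sum fun β hβ => ?_)
          exact hterm j α β hβ
      _ ≤ ∑ j ∈ Finset.range N, ∑ α, ∑ β, (η * wn (q α) k₁ W j + K₁) * C α * C β := by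
          refine Finset.sum_le_sum fun j _ => Finset.sum_le_sum fun α _ => ?_
          refine Finset.sum_le_sum_of_subset_of_nonneg (Finset.erase_subset _ _) ?_
          intro β _ _
          have := hC0 α
          have := hC0 β
          positivity
      _ = ∑ α, ((∑ j ∈ Finset.range N, (η * wn (q α) k₁ W j + K₁)) * C α) * ∑ β, C β := by
          rw [Finset.sum_comm]
          refine Finset.sum_congr rfl fun α _ => ?_
          rw [Finset.sum_mul, Finset.sum_mul]
          refine Finset.sum_congr rfl fun j _ => ?_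
          rw [Finset.mul_sum]
      _ ≤ ∑ α, ((2 * (η * k)) * C α) * ∑ β, C β := by
          refine Finset.sum_le_sum fun α _ => ?_
          refine mul_le_mul_of_nonneg_right ?_ hSC
          refine mul_le_mul_of_nonneg_right ?_ (hC0 α)
          rw [Finset.sum_add_distrib, ← Finset.mul_sum, mc_wn_sum, hkN, Finset.sum_const,
            Finset.card_range, nsmul_eq_mul]
          have b1 : (lg (q α) k : ℝ) ≤ k := by exact_mod_cast mc_lg_le (hq α) k
          have b2 : (0 : ℝ) ≤ lg (q α) k₁ := Nat.cast_nonneg _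
          have b3 : (W : ℝ) * N ≤ k := by
            have : W * N ≤ k := by omega
            exact_mod_cast this
          have b4 : K₁ ≤ η * W := by
            have b5 : K₁ / η ≤ W := hWη.trans (by exact_mod_cast hW3)
            rw [div_le_iff₀ hη] at b5
            linarith
          have b6 : (0 : ℝ) ≤ N := Nat.cast_nonneg _
          have b7 : (N : ℝ) * K₁ ≤ η * k := by
            calc (N : ℝ) * K₁ ≤ N * (η * W) := by gcongr
              _ = η * (W * N) := by ring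
              _ ≤ η * k := by gcongr
          have b8 : η * ((lg (q α) k : ℝ) - lg (q α) k₁) ≤ η * k := by
            refine mul_le_mul_of_nonneg_left ?_ hη.le
            linarith
          linarith
      _ = 2 * (η * k * (∑ α, C α) ^ 2) := by
          rw [← Finset.sum_mul, ← Finset.mul_sum]
          ring
  -- the lower bound
  have hVlow : k * (∑ α, l α / q α) / 2 ≤ SV := by
    rw [hSV, Finset.mul_sum, Finset.sum_div]
    refine Finset.sum_le_sum fun α _ => ?_
    have b1 : l α * ((lg (q α) k : ℝ) - lg (q α) k₁) ≤ Vα α := by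
      rw [hVα]
      have b2 := mc_wn_sum (q α) k₁ W N
      rw [hkN] at b2
      rw [← b2, Finset.mul_sum]
      exact Finset.sum_le_sum fun j _ => hlow α _ (mc_wn_ge (hq α) (hW4 α))
    refine le_trans ?_ b1
    have hq0 : (0 : ℝ) < q α := by
      have := hq α
      exact_mod_cast (by omega : 0 < q α)
    have b3 : (k : ℝ) ≤ q α * (lg (q α) k + 1) := by exact_mod_cast (mc_lg_lt (hq α) k).le
    have b4 : (2 : ℝ) * q α * (1 + W * s) ≤ k := by exact_mod_cast h4 α
    have b5 : (lg (q α) k₁ : ℝ) ≤ W * s := by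
      have := (mc_lg_le (hq α) k₁).trans hk₁lt.le
      exact_mod_cast this
    have b6 : (k : ℝ) / (2 * q α) ≤ (lg (q α) k : ℝ) - lg (q α) k₁ := by
      rw [div_le_iff₀ (by positivity)]
      nlinarith
    calc k * (l α / q α) / 2 = l α * (k / (2 * q α)) := by field_simp
      _ ≤ _ := mul_le_mul_of_nonneg_left b6 (hl α)
  -- the joint law
  have hA := h1 y hy c z hcz F C hF hC
  -- the single laws
  have hB : ∀ α, ‖avc (q α) (lg (q α) k) (fun n => Complex.exp (Complex.I * (F α n : ℂ))) -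
      Complex.exp (Complex.I * (μ α : ℂ)) * ((Real.exp (-Vα α / 2) : ℝ) : ℂ)‖ ≤ 2 * δ := by
    intro α
    have b1 := h2 α 0 le_rfl (fun _ => 0) (fun _ => 0) ⟨fun _ => Nat.zero_le _, fun _ => by simp⟩
      (fun _ => F α) (fun _ => C α) (fun _ => hF α) (fun _ => hC α)
    have b2 := h3 α (F α) (C α) (hF α) (hC α)
    have e1 : VV (fun _ : Unit => q α) (fun _ => 1) (fun _ => F α) W k₁ N = Vα α := by
      unfold VV
      rw [hVα]
      refine Finset.sum_congr rfl fun j _ => ?_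
      simp only [Finset.univ_unique, Finset.sum_singleton, if_true]
      exact mc_cov_perm (hq α) (Nat.coprime_one_left _) _ _ _
    rw [e1] at b1
    have e2 : avc 2 k (fun n => Complex.exp (Complex.I * (F α n : ℂ))) =
        Complex.exp (Complex.I * (μ α : ℂ)) *
        avc 2 k (fun n => Complex.exp (Complex.I * ((∑ _β : Unit,
          (F α (sd (q α) 0 1 0 0 (2 ^ k * 0 + n)) -
            av (q α) (lg (q α) k) (F α)) : ℝ) : ℂ))) := by
      rw [← mc_avc_const_mul]
      congr 1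
      funext n
      rw [← Complex.exp_add]
      congr 1
      simp only [Finset.univ_unique, Finset.sum_singleton, sd, pow_zero, one_mul, mul_zero,
        zero_add, add_zero, hμ]
      push_cast
      ring
    have b3 : ‖avc 2 k (fun n => Complex.exp (Complex.I * (F α n : ℂ))) -
        Complex.exp (Complex.I * (μ α : ℂ)) * ((Real.exp (-Vα α / 2) : ℝ) : ℂ)‖ ≤ δ := by
      rw [e2, ← mul_sub, norm_mul, mc_norm_exp, one_mul]
      rw [Complex.ofReal_exp]
      exact b1
    have b4 := norm_sub_le_norm_sub_add_norm_sub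
      (avc (q α) (lg (q α) k) (fun n => Complex.exp (Complex.I * (F α n : ℂ))))
      (avc 2 k (fun n => Complex.exp (Complex.I * (F α n : ℂ))))
      (Complex.exp (Complex.I * (μ α : ℂ)) * ((Real.exp (-Vα α / 2) : ℝ) : ℂ))
    rw [norm_sub_rev] at b2
    linarith
  have hexp1 : ∀ α, ‖Complex.exp (Complex.I * (μ α : ℂ)) * ((Real.exp (-Vα α / 2) : ℝ) : ℂ)‖ ≤ 1 := by
    intro α
    rw [norm_mul, mc_norm_exp, one_mul, Complex.norm_real, Real.norm_eq_abs,
      abs_of_pos (Real.exp_pos _), Real.exp_le_one_iff]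
    have := hVα0 α
    linarith
  have hprod := mc_prod Finset.univ (fun α => mc_avc_norm (k := lg (q α) k) (hq α)
    (u := fun n => Complex.exp (Complex.I * (F α n : ℂ))) fun n => (mc_norm_exp _).le) hexp1
  have hprod2 : ‖∏ α, avc (q α) (lg (q α) k) (fun n => Complex.exp (Complex.I * (F α n : ℂ))) -
      ∏ α, Complex.exp (Complex.I * (μ α : ℂ)) * ((Real.exp (-Vα α / 2) : ℝ) : ℂ)‖ ≤
      Fintype.card J * (2 * δ) := by
    refine hprod.trans ?_
    calc ∑ α, ‖avc (q α) (lg (q α) k) (fun n => Complex.exp (Complex.I * (F α n : ℂ))) -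
          Complex.exp (Complex.I * (μ α : ℂ)) * ((Real.exp (-Vα α / 2) : ℝ) : ℂ)‖
        ≤ ∑ _α : J, 2 * δ := Finset.sum_le_sum fun α _ => hB α
      _ = _ := by rw [Finset.sum_const, Finset.card_univ, nsmul_eq_mul]
  have eprod : ∏ α, Complex.exp (Complex.I * (μ α : ℂ)) * ((Real.exp (-Vα α / 2) : ℝ) : ℂ) =
      Complex.exp (Complex.I * ((∑ α, μ α : ℝ) : ℂ)) * ((Real.exp (-SV / 2) : ℝ) : ℂ) := by
    rw [Finset.prod_mul_distrib, ← Complex.exp_sum]
    congr 1
    · push_cast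
      rw [Finset.mul_sum]
    · rw [← Complex.ofReal_prod, ← Real.exp_sum]
      congr 2
      rw [hSV, ← Finset.sum_neg_distrib, Finset.sum_div]
  have eA : avc 2 k (fun n => Complex.exp (Complex.I * ((∑ α,
          F α (sd (q α) h (P α) (c α) (z α) (2 ^ k * y + n)) : ℝ) : ℂ))) =
      Complex.exp (Complex.I * ((∑ α, μ α : ℝ) : ℂ)) *
      avc 2 k (fun n => Complex.exp (Complex.I * ((∑ α,
          (F α (sd (q α) h (P α) (c α) (z α) (2 ^ k * y + n)) -
            av (q α) (lg (q α) k) (F α)) : ℝ) : ℂ))) := by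
    rw [← mc_avc_const_mul]
    congr 1
    funext n
    rw [← Complex.exp_add, ← mul_add, ← Complex.ofReal_add]
    congr 3
    rw [Finset.sum_sub_distrib]
    ring
  have hA2 : ‖avc 2 k (fun n => Complex.exp (Complex.I * ((∑ α,
          F α (sd (q α) h (P α) (c α) (z α) (2 ^ k * y + n)) : ℝ) : ℂ))) -
      Complex.exp (Complex.I * ((∑ α, μ α : ℝ) : ℂ)) * ((Real.exp (-VJ / 2) : ℝ) : ℂ)‖ ≤ δ := by
    rw [eA, ← mul_sub, norm_mul, mc_norm_exp, one_mul, Complex.ofReal_exp]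
    exact hA
  have hmid : ‖Complex.exp (Complex.I * ((∑ α, μ α : ℝ) : ℂ)) * ((Real.exp (-VJ / 2) : ℝ) : ℂ) -
      Complex.exp (Complex.I * ((∑ α, μ α : ℝ) : ℂ)) * ((Real.exp (-SV / 2) : ℝ) : ℂ)‖ ≤
      (Real.exp (η * k * (∑ α, C α) ^ 2) - 1) * Real.exp (-(k * ∑ α, l α / q α) / 4) := by
    rw [← mul_sub, norm_mul, mc_norm_exp, one_mul, ← Complex.ofReal_sub, Complex.norm_real,
      Real.norm_eq_abs]
    refine (mc_exp (V := VJ) (S := SV) (R := VJ - SV) (by ring) hcrossR).trans ?_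
    refine mul_le_mul_of_nonneg_left ?_ ?_
    · apply Real.exp_le_exp.2
      linarith
    · have : 0 ≤ η * k * (∑ α, C α) ^ 2 := by positivity
      have := Real.one_le_exp this
      linarith
  rw [eprod] at hprod2
  set A := avc 2 k (fun n => Complex.exp (Complex.I * ((∑ α,
          F α (sd (q α) h (P α) (c α) (z α) (2 ^ k * y + n)) : ℝ) : ℂ))) with hAdef
  set Bp := ∏ α, avc (q α) (lg (q α) k) (fun n => Complex.exp (Complex.I * (F α n : ℂ))) with hBdef
  set X1 := Complex.exp (Complex.I * ((∑ α, μ α : ℝ) : ℂ)) * ((Real.exp (-VJ / 2) : ℝ) : ℂ)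
  set X2 := Complex.exp (Complex.I * ((∑ α, μ α : ℝ) : ℂ)) * ((Real.exp (-SV / 2) : ℝ) : ℂ)
  have f1 := norm_sub_le_norm_sub_add_norm_sub A X1 Bp
  have f2 := norm_sub_le_norm_sub_add_norm_sub X1 X2 Bp
  rw [norm_sub_rev] at hprod2
  have f3 : δ + Fintype.card J * (2 * δ) ≤ ε := by
    rw [hδ]
    have : ε / (2 * (Fintype.card J + 1)) + Fintype.card J * (2 * (ε / (2 * (Fintype.card J + 1)))) =
        ε * (2 * Fintype.card J + 1) / (2 * (Fintype.card J + 1)) := by
      field_simp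
      ring
    rw [this, div_le_iff₀ (by positivity)]
    nlinarith
  linarith

end fam

end Pool.Agent.Lib.MP_3e612f_nt.MB
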