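import Pool.Agent.Lib.MP_3e612f_nt.MDefs

/-!
Averages of the lower parts, and near additivity of the means.
-/

set_option autoImplicit false

namespace Pool.Agent.Lib.MP_3e612f_nt.MB

open Filter Topology
open Pool.Agent.Lib.MP_3e612f_nt.QA

theorem mlow_l1 {q : ℕ} (hq : 2 ≤ q) {k : ℕ} {u : ℕ → ℝ} {K C : ℝ} (hC : 0 ≤ C)
    (h : av q k (fun n => u n ^ 2) ≤ K * C ^ 2) : av q k (fun n => |u n|) ≤ Real.sqrt K * C := by
  have h1 := av_sq_le q hq k (fun n => |u n|)
  simp only [sq_abs] at h1
  have h0 : 0 ≤ av q k (fun n => |u n|) := av_nonneg fun n _ => abs_nonneg _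
  calc av q k (fun n => |u n|) = Real.sqrt ((av q k (fun n => |u n|)) ^ 2) :=
        (Real.sqrt_sq h0).symm
    _ ≤ Real.sqrt (K * C ^ 2) := Real.sqrt_le_sqrt (h1.trans h)
    _ = Real.sqrt K * C := by rw [Real.sqrt_mul' _ (sq_nonneg C), Real.sqrt_sq hC]

/-- M14b: the means are nearly additive -/
theorem mean_add {q m : ℕ} (hq : 2 ≤ q) :
    ∃ K : ℝ, 0 ≤ K ∧ ∀ (F : ℕ → ℝ) (C : ℝ), QR q m F C → ∀ a b : ℕ,
      |av q (a + b) F - av q a F - av q b F| ≤ K * C := by
  obtain ⟨K, hK, H⟩ := defect_sq (m := m) hq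
  refine ⟨Real.sqrt K, Real.sqrt_nonneg _, ?_⟩
  intro F C hF a b
  have h1 := H F C hF a b
  have h2 : av q (a + b) F - av q a F - av q b F =
      av q b (fun y => av q a (fun s => dfc F q a y s)) := by
    rw [av_split, av_swap]
    have e : cnd q b a F = fun s => (av q b (fun y => dfc F q a y s) + av q b F) + F s := by
      funext s
      unfold cnd
      rw [← av_const hq b (F s), ← av_add, ← av_add]
      refine av_congr fun y _ => ?_
      unfold dfc
      ring
    rw [e, av_add, av_add, av_const hq]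
    ring
  rw [h2]
  have h3 : av q b (fun y => (av q a (fun s => |dfc F q a y s|)) ^ 2) ≤ K * C ^ 2 := by
    refine le_trans (av_mono fun y _ => ?_) h1
    have := av_sq_le q hq a (fun s => |dfc F q a y s|)
    simpa only [sq_abs] using this
  have h4 := mlow_l1 hq hF.nonneg h3
  refine le_trans ((abs_av_le_av q b _).trans (av_mono fun y _ => ?_)) h4
  rw [abs_of_nonneg (av_nonneg fun s _ => abs_nonneg _)]
  exact abs_av_le_av q a _

/-- the lower part -/
def mlow (q h P c z : ℕ) (F : ℕ → ℝ) (l n : ℕ) : ℝ := F (q ^ h * ((P * n + c) % q ^ l) + z)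

/-- averages over full periods -/
theorem mlow_full {q m : ℕ} (hq : 2 ≤ q) {P : ℕ} (hP : P.Coprime q) (h : ℕ) :
    ∃ K : ℝ, 0 ≤ K ∧ ∀ (F : ℕ → ℝ) (C : ℝ), QR q m F C → ∀ l c z : ℕ, z < q ^ h →
      |av q l (mlow q h P c z F l) - av q l F| ≤ K * C := by
  obtain ⟨K, hK, H⟩ := defect_sq_right (m := m) hq h 0
  refine ⟨Real.sqrt K + (h + 1), by positivity, ?_⟩
  intro F C hF l c z hz
  have h1 := H F C hF l 0 z le_rfl hz
  simp only [mul_zero, zero_add] at h1
  have h2 : av q l (mlow q h P c z F l) = av q l (fun w => F (q ^ h * w + z)) :=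
    av_perm hq hP c l (fun w => F (q ^ h * w + z))
  rw [h2, ← av_sub]
  have h3 := mlow_l1 hq hF.nonneg h1
  have h4 := hF.growth h z hz
  calc |av q l (fun n => F (q ^ h * n + z) - F n)|
      ≤ av q l (fun n => |F (q ^ h * n + z) - F n|) := abs_av_le_av q l _
    _ ≤ av q l (fun n => |dfc F q h n z| + C * (h + 1)) := by
        refine av_mono fun n _ => ?_
        have e : F (q ^ h * n + z) - F n = dfc F q h n z + F z := by
          unfold dfc
          ring
        rw [e]
        exact (abs_add_le _ _).trans (add_le_add le_rfl h4)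
    _ = av q l (fun n => |dfc F q h n z|) + C * (h + 1) := by rw [av_add, av_const hq]
    _ ≤ (Real.sqrt K + (h + 1)) * C := by linarith

theorem mlow_class {q : ℕ} (hq : 2 ≤ q) (h l : ℕ) {z : ℕ} (hz : z < q ^ h) {φ : ℕ → ℝ}
    (hφ : ∀ n, 0 ≤ φ n) :
    av q l (fun w => φ (q ^ h * w + z)) ≤ (q : ℝ) ^ h * av q (h + l) φ := by
  rw [av_split]
  have h0 : ∀ s, 0 ≤ cnd q l h φ s := fun s => av_nonneg fun n _ => hφ _
  have h1 : cnd q l h φ z ≤ ∑ s ∈ Finset.range (q ^ h), cnd q l h φ s :=
    Finset.single_le_sum (fun s _ => h0 s) (Finset.mem_range.2 hz)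
  have h2 := qpow_posR hq h
  calc av q l (fun w => φ (q ^ h * w + z)) = cnd q l h φ z := rfl
    _ ≤ ∑ s ∈ Finset.range (q ^ h), cnd q l h φ s := h1
    _ = (q : ℝ) ^ h * av q h (cnd q l h φ) := by
        unfold av
        field_simp

/-- comparison of two levels -/
theorem mlow_step {q m : ℕ} (hq : 2 ≤ q) {P : ℕ} (hP : P.Coprime q) (h : ℕ) :
    ∃ K : ℝ, 0 ≤ K ∧ ∀ (F : ℕ → ℝ) (C : ℝ), QR q m F C → ∀ l j c z : ℕ, z < q ^ h →
      av q l (fun n => |mlow q h P c z F (l + 1) (q ^ l * j + n) - mlow q h P c z F l n|) ≤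
        K * C := by
  obtain ⟨K, hK, H⟩ := defect_sq_left (m := m) hq q
  refine ⟨2 + q * ((q : ℝ) ^ h * Real.sqrt K), by positivity, ?_⟩
  intro F C hF l j c z hz
  have hpos := qpow_pos hq l
  have key : ∀ n < q ^ l, |mlow q h P c z F (l + 1) (q ^ l * j + n) - mlow q h P c z F l n| ≤
      2 * C + ∑ x ∈ Finset.range q, |dfc F q (h + l) x (q ^ h * ((P * n + c) % q ^ l) + z)| := by
    intro n _
    have e1 : (P * (q ^ l * j + n) + c) % q ^ (l + 1) =
        q ^ l * ((P * j + (P * n + c) / q ^ l) % q) + (P * n + c) % q ^ l := by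
      have e2 : P * (q ^ l * j + n) + c = (P * n + c) + q ^ l * (P * j) := by ring
      rw [e2, pow_succ, Nat.mod_mul, Nat.add_mul_mod_self_left, Nat.add_mul_div_left _ _ hpos,
        add_comm ((P * n + c) / q ^ l), add_comm]
    set x := (P * j + (P * n + c) / q ^ l) % q with hx
    set w := (P * n + c) % q ^ l with hw
    have hxq : x < q := Nat.mod_lt _ (by omega)
    have e3 : mlow q h P c z F (l + 1) (q ^ l * j + n) - mlow q h P c z F l n =
        F x + dfc F q (h + l) x (q ^ h * w + z) := by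
      unfold mlow dfc
      rw [e1, ← hw]
      have e4 : q ^ h * (q ^ l * x + w) + z = q ^ (h + l) * x + (q ^ h * w + z) := by
        rw [pow_add]
        ring
      rw [e4]
      ring
    rw [e3]
    have h5 : |F x| ≤ 2 * C := by
      have := hF.growth 1 x (by rwa [pow_one])
      push_cast at this
      linarith
    have h6 : |dfc F q (h + l) x (q ^ h * w + z)| ≤
        ∑ x ∈ Finset.range q, |dfc F q (h + l) x (q ^ h * w + z)| :=
      Finset.single_le_sum (f := fun x => |dfc F q (h + l) x (q ^ h * w + z)|)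
        (fun s _ => abs_nonneg _) (Finset.mem_range.2 hxq)
    exact (abs_add_le _ _).trans (add_le_add h5 h6)
  refine (av_mono key).trans ?_
  rw [av_add, av_const hq, av_finset_sum]
  have h7 : ∀ x ∈ Finset.range q,
      av q l (fun n => |dfc F q (h + l) x (q ^ h * ((P * n + c) % q ^ l) + z)|) ≤
        (q : ℝ) ^ h * Real.sqrt K * C := by
    intro x hx
    have hx' := Finset.mem_range.1 hx
    have e := av_perm hq hP c l (fun w => |dfc F q (h + l) x (q ^ h * w + z)|)
    rw [e]
    have h8 := mlow_class hq h l hz (φ := fun s => |dfc F q (h + l) x s|) (fun _ => abs_nonneg _)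
    have h9 := mlow_l1 hq hF.nonneg (H F C hF (h + l) x hx'.le)
    have h10 := qpow_posR hq h
    calc _ ≤ _ := h8
      _ ≤ (q : ℝ) ^ h * (Real.sqrt K * C) := mul_le_mul_of_nonneg_left h9 h10.le
      _ = _ := by ring
  have h11 := Finset.sum_le_sum h7
  rw [Finset.sum_const, Finset.card_range, nsmul_eq_mul] at h11
  calc _ ≤ 2 * C + q * ((q : ℝ) ^ h * Real.sqrt K * C) := by linarith
    _ = _ := by ring

theorem mlow_sum_abs {q : ℕ} (hq : 2 ≤ q) {l T : ℕ} (hT : T ≤ q ^ l) {φ : ℕ → ℝ} {B : ℝ}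
    (h : av q l (fun n => |φ n|) ≤ B) : |∑ n ∈ Finset.range T, φ n| ≤ (q : ℝ) ^ l * B := by
  have hpos := qpow_posR hq l
  have h1 : ∑ n ∈ Finset.range T, |φ n| ≤ ∑ n ∈ Finset.range (q ^ l), |φ n| :=
    Finset.sum_le_sum_of_subset_of_nonneg (Finset.range_subset_range.2 hT)
      fun _ _ _ => abs_nonneg _
  have h2 : ∑ n ∈ Finset.range (q ^ l), |φ n| = (q : ℝ) ^ l * av q l (fun n => |φ n|) := by
    unfold av
    field_simp
  calc _ ≤ ∑ n ∈ Finset.range T, |φ n| := Finset.abs_sum_le_sum_abs _ _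
    _ ≤ _ := h1
    _ = _ := h2
    _ ≤ _ := mul_le_mul_of_nonneg_left h hpos.le

/-- sums over initial segments -/
theorem mlow_prefix {q m : ℕ} (hq : 2 ≤ q) {P : ℕ} (hP : P.Coprime q) (h : ℕ) :
    ∃ K : ℝ, 0 ≤ K ∧ ∀ (F : ℕ → ℝ) (C : ℝ), QR q m F C → ∀ c z : ℕ, z < q ^ h → ∀ l T : ℕ,
      T ≤ q ^ l → |∑ n ∈ Finset.range T, (mlow q h P c z F l n - av q l F)| ≤
        K * C * (q : ℝ) ^ l := by
  obtain ⟨K0, hK0, H0⟩ := mlow_full (m := m) hq hP h
  obtain ⟨K1, hK1, H1⟩ := mlow_step (m := m) hq hP h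
  obtain ⟨K2, hK2, H2⟩ := mean_add (m := m) hq
  set K' : ℝ := K0 + K1 + (K2 + 2) with hK'
  have hK'0 : 0 ≤ K' := by positivity
  refine ⟨3 * K' + (h + 2), by positivity, ?_⟩
  intro F C hF c z hz l
  have hC := hF.nonneg
  have hq2 : (2 : ℝ) ≤ q := by exact_mod_cast hq
  induction l with
  | zero =>
    intro T hT
    have h1 : ∀ n ∈ Finset.range T, |mlow q h P c z F 0 n - av q 0 F| ≤ (h + 2) * C := by
      intro n _
      unfold mlow
      rw [pow_zero, Nat.mod_one, mul_zero, zero_add, av_zero]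
      have a1 := hF.growth h z hz
      have a2 := hF.growth 0 0 (by simp)
      calc |F z - F 0| ≤ |F z| + |F 0| := abs_sub _ _
        _ ≤ _ := by
          push_cast at a2
          linarith
    have hT' : T ≤ 1 := by simpa using hT
    have hT1 : (T : ℝ) ≤ 1 := by exact_mod_cast hT'
    calc _ ≤ ∑ n ∈ Finset.range T, |mlow q h P c z F 0 n - av q 0 F| :=
          Finset.abs_sum_le_sum_abs _ _
      _ ≤ ∑ n ∈ Finset.range T, ((h : ℝ) + 2) * C := Finset.sum_le_sum h1
      _ = T * (((h : ℝ) + 2) * C) := by rw [Finset.sum_const, Finset.card_range, nsmul_eq_mul]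
      _ ≤ 1 * (((h : ℝ) + 2) * C) := mul_le_mul_of_nonneg_right hT1 (by positivity)
      _ ≤ _ := by
        rw [pow_zero, mul_one, one_mul]
        nlinarith [mul_nonneg hK'0 hC]
  | succ l ih =>
    intro T hT
    have hpos := qpow_pos hq l
    have hposR := qpow_posR hq l
    have hmu : |av q l F - av q (l + 1) F| ≤ (K2 + 2) * C := by
      have a1 := H2 F C hF l 1
      have a2 : |av q 1 F| ≤ 2 * C := by
        refine abs_av_le hq fun n hn => ?_
        have := hF.growth 1 n hn
        push_cast at this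
        linarith
      have e : av q l F - av q (l + 1) F =
          -(av q (l + 1) F - av q l F - av q 1 F) - av q 1 F := by ring
      rw [e]
      calc _ ≤ |-(av q (l + 1) F - av q l F - av q 1 F)| + |av q 1 F| := abs_sub _ _
        _ ≤ _ := by
          rw [abs_neg]
          linarith
    have hdiff : ∀ j T' : ℕ, T' ≤ q ^ l →
        |∑ n ∈ Finset.range T', (mlow q h P c z F (l + 1) (q ^ l * j + n) - av q (l + 1) F) -
          ∑ n ∈ Finset.range T', (mlow q h P c z F l n - av q l F)| ≤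
          (q : ℝ) ^ l * ((K1 + (K2 + 2)) * C) := by
      intro j T' hT'
      rw [← Finset.sum_sub_distrib]
      have e : ∀ n, (mlow q h P c z F (l + 1) (q ^ l * j + n) - av q (l + 1) F) -
          (mlow q h P c z F l n - av q l F) =
          (mlow q h P c z F (l + 1) (q ^ l * j + n) - mlow q h P c z F l n) +
          (av q l F - av q (l + 1) F) := fun n => by ring
      simp only [e]
      refine mlow_sum_abs hq hT' ?_
      have a1 := H1 F C hF l j c z hz
      calc _ ≤ av q l (fun n => |mlow q h P c z F (l + 1) (q ^ l * j + n) - mlow q h P c z F l n| +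
            |av q l F - av q (l + 1) F|) := av_mono fun n _ => abs_add_le _ _
        _ = av q l (fun n => |mlow q h P c z F (l + 1) (q ^ l * j + n) - mlow q h P c z F l n|) +
            |av q l F - av q (l + 1) F| := by rw [av_add, av_const hq]
        _ ≤ _ := by linarith
    have hfull : |∑ n ∈ Finset.range (q ^ l), (mlow q h P c z F l n - av q l F)| ≤
        (q : ℝ) ^ l * (K0 * C) := by
      have a1 := H0 F C hF l c z hz
      have e : ∑ n ∈ Finset.range (q ^ l), (mlow q h P c z F l n - av q l F) =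
          (q : ℝ) ^ l * (av q l (mlow q h P c z F l) - av q l F) := by
        rw [Finset.sum_sub_distrib, Finset.sum_const, Finset.card_range, nsmul_eq_mul, mul_sub]
        congr 1
        · unfold av
          field_simp
        · push_cast
          ring
      rw [e, abs_mul, abs_of_pos hposR]
      exact mul_le_mul_of_nonneg_left a1 hposR.le
    -- full blocks
    have hblocks : ∀ t : ℕ,
        |∑ n ∈ Finset.range (q ^ l * t), (mlow q h P c z F (l + 1) n - av q (l + 1) F)| ≤
          t * ((q : ℝ) ^ l * (K' * C)) := by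
      intro t
      induction t with
      | zero => simp
      | succ t iht =>
        rw [mul_add, mul_one, Finset.sum_range_add]
        have a1 := hdiff t (q ^ l) le_rfl
        have a2 : |∑ n ∈ Finset.range (q ^ l),
            (mlow q h P c z F (l + 1) (q ^ l * t + n) - av q (l + 1) F)| ≤
            (q : ℝ) ^ l * (K' * C) := by
          have := abs_sub_abs_le_abs_sub (∑ n ∈ Finset.range (q ^ l),
            (mlow q h P c z F (l + 1) (q ^ l * t + n) - av q (l + 1) F))
            (∑ n ∈ Finset.range (q ^ l), (mlow q h P c z F l n - av q l F))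
          have e : (q : ℝ) ^ l * (K' * C) = (q : ℝ) ^ l * (K0 * C) +
              (q : ℝ) ^ l * ((K1 + (K2 + 2)) * C) := by rw [hK']; ring
          linarith
        refine (abs_add_le _ _).trans ?_
        push_cast
        linarith
    have hT2 : T % q ^ l ≤ q ^ l := (Nat.mod_lt _ hpos).le
    have ht : T / q ^ l ≤ q := by
      apply Nat.div_le_of_le_mul
      rw [← pow_succ]
      exact hT
    have htR : ((T / q ^ l : ℕ) : ℝ) ≤ q := by exact_mod_cast ht
    have e := Nat.div_add_mod T (q ^ l)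
    rw [← e, Finset.sum_range_add]
    have b1 := hblocks (T / q ^ l)
    have b2 := hdiff (T / q ^ l) (T % q ^ l) hT2
    have b3 := ih (T % q ^ l) hT2
    have b4 := abs_sub_abs_le_abs_sub (∑ n ∈ Finset.range (T % q ^ l),
      (mlow q h P c z F (l + 1) (q ^ l * (T / q ^ l) + n) - av q (l + 1) F))
      (∑ n ∈ Finset.range (T % q ^ l), (mlow q h P c z F l n - av q l F))
    refine (abs_add_le _ _).trans ?_
    have b5 : ((T / q ^ l : ℕ) : ℝ) * ((q : ℝ) ^ l * (K' * C)) ≤ q * ((q : ℝ) ^ l * (K' * C)) :=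
      mul_le_mul_of_nonneg_right htR (by positivity)
    have b6 : (q : ℝ) ^ l * ((K1 + (K2 + 2)) * C) ≤ (q : ℝ) ^ l * (K' * C) := by
      apply mul_le_mul_of_nonneg_left _ hposR.le
      apply mul_le_mul_of_nonneg_right _ hC
      rw [hK']
      linarith
    have b7 : (q : ℝ) * ((q : ℝ) ^ l * (K' * C)) + (q : ℝ) ^ l * (K' * C) +
        (3 * K' + (h + 2)) * C * (q : ℝ) ^ l ≤ (3 * K' + (h + 2)) * C * (q : ℝ) ^ (l + 1) := by
      rw [pow_succ]
      have c1 : 0 ≤ (q : ℝ) ^ l * (K' * C) := by positivity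
      have c2 : 0 ≤ ((h : ℝ) + 2) * C * (q : ℝ) ^ l := by positivity
      nlinarith [mul_nonneg c1 (by linarith : (0 : ℝ) ≤ (q : ℝ) - 2),
        mul_nonneg c2 (by linarith : (0 : ℝ) ≤ (q : ℝ) - 2)]
    linarith

/-- M14a: the averages of the lower part -/
theorem avg_low {q m : ℕ} (hq : 2 ≤ q) {P : ℕ} (hP : P.Coprime q) (h : ℕ) :
    ∃ K : ℝ, 0 ≤ K ∧ ∀ (F : ℕ → ℝ) (C : ℝ), QR q m F C → ∀ l T u c z : ℕ, q ^ l ≤ T → c ≤ P →
      z < q ^ h →
      |(∑ n ∈ Finset.range T, F (q ^ h * ((P * ((u + n) % q ^ l) + c) % q ^ l) + z)) / T -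
        av q l F| ≤ K * C := by
  obtain ⟨D, hD, H⟩ := mlow_prefix (m := m) hq hP h
  refine ⟨4 * D, by positivity, ?_⟩
  intro F C hF l T u c z hT _ hz
  have hC := hF.nonneg
  have hpos := qpow_pos hq l
  have hposR := qpow_posR hq l
  have hTR : (q : ℝ) ^ l ≤ T := by exact_mod_cast hT
  have hT0 : (0 : ℝ) < T := hposR.trans_le hTR
  set G : ℕ → ℝ := fun n => mlow q h P c z F l n - av q l F with hG
  have hper : ∀ n, G (q ^ l * 1 + n) = G n := by
    intro n
    simp only [hG, mlow]
    have e : P * (q ^ l * 1 + n) + c = (P * n + c) + q ^ l * P := by ring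
    rw [e, Nat.add_mul_mod_self_left]
  have hper2 : ∀ t n, G (q ^ l * t + n) = G n := by
    intro t
    induction t with
    | zero => simp
    | succ t iht =>
      intro n
      have e : q ^ l * (t + 1) + n = q ^ l * 1 + (q ^ l * t + n) := by ring
      rw [e, hper, iht]
  have hmod : ∀ n, F (q ^ h * ((P * ((u + n) % q ^ l) + c) % q ^ l) + z) =
      G (u + n) + av q l F := by
    intro n
    simp only [hG, mlow]
    have e : P * (u + n) + c = (P * ((u + n) % q ^ l) + c) + q ^ l * (P * ((u + n) / q ^ l)) := by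
      nth_rewrite 1 [← Nat.div_add_mod (u + n) (q ^ l)]
      ring
    rw [e, Nat.add_mul_mod_self_left]
    ring
  have hblock : ∀ t : ℕ, |∑ n ∈ Finset.range (q ^ l * t), G n| ≤ t * (D * C * (q : ℝ) ^ l) := by
    intro t
    induction t with
    | zero => simp
    | succ t iht =>
      rw [mul_add, mul_one, Finset.sum_range_add]
      simp only [hper2]
      have a1 := H F C hF c z hz l (q ^ l) le_rfl
      refine (abs_add_le _ _).trans ?_
      push_cast
      linarith
  have hsum : ∑ n ∈ Finset.range T, F (q ^ h * ((P * ((u + n) % q ^ l) + c) % q ^ l) + z) =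
      ∑ n ∈ Finset.range T, G (u + n) + T * av q l F := by
    simp only [hmod]
    rw [Finset.sum_add_distrib, Finset.sum_const, Finset.card_range, nsmul_eq_mul]
  -- split the window at the first multiple of the period
  set r := u % q ^ l with hr
  have hrlt : r < q ^ l := Nat.mod_lt _ hpos
  have e1 : ∑ n ∈ Finset.range T, G (u + n) =
      ∑ n ∈ Finset.range (r + T), G n - ∑ n ∈ Finset.range r, G n := by
    rw [Finset.sum_range_add]
    have : ∀ n, G (u + n) = G (r + n) := by
      intro n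
      have e : u + n = q ^ l * (u / q ^ l) + (r + n) := by
        rw [hr]
        have := Nat.div_add_mod u (q ^ l)
        omega
      rw [e, hper2]
    simp only [this]
    ring
  have e2 : ∑ n ∈ Finset.range (r + T), G n =
      ∑ n ∈ Finset.range (q ^ l * ((r + T) / q ^ l)), G n +
        ∑ n ∈ Finset.range ((r + T) % q ^ l), G n := by
    nth_rewrite 1 [← Nat.div_add_mod (r + T) (q ^ l)]
    rw [Finset.sum_range_add]
    simp only [hper2]
  have b1 := hblock ((r + T) / q ^ l)
  have b2 := H F C hF c z hz l ((r + T) % q ^ l) (Nat.mod_lt _ hpos).le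
  have b3 := H F C hF c z hz l r hrlt.le
  have b4 : (((r + T) / q ^ l : ℕ) : ℝ) * (q : ℝ) ^ l ≤ 2 * T := by
    have c1 : (r + T) / q ^ l * q ^ l ≤ r + T := Nat.div_mul_le_self _ _
    have c2 : (r + T) / q ^ l * q ^ l ≤ 2 * T := by omega
    exact_mod_cast c2
  have b5 : |∑ n ∈ Finset.range T, G (u + n)| ≤ 4 * D * C * T := by
    rw [e1, e2]
    have c3 : (((r + T) / q ^ l : ℕ) : ℝ) * (D * C * (q : ℝ) ^ l) ≤ D * C * (2 * T) := by
      calc (((r + T) / q ^ l : ℕ) : ℝ) * (D * C * (q : ℝ) ^ l) =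
          D * C * ((((r + T) / q ^ l : ℕ) : ℝ) * (q : ℝ) ^ l) := by ring
        _ ≤ _ := mul_le_mul_of_nonneg_left b4 (by positivity)
    have c4 : D * C * (q : ℝ) ^ l ≤ D * C * T := mul_le_mul_of_nonneg_left hTR (by positivity)
    refine (abs_sub _ _).trans ?_
    refine (add_le_add (abs_add_le _ _) le_rfl).trans ?_
    simp only [hG] at *
    linarith
  rw [hsum, add_div, mul_div_cancel_left₀ _ hT0.ne', add_sub_cancel_right, abs_div, abs_of_pos hT0,
    div_le_iff₀ hT0]
  exact b5

end Pool.Agent.Lib.MP_3e612f_nt.MB
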