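import Pool.Agent.Lib.MP_3e612f_nt.MDy
import Pool.Agent.Lib.MP_3e612f_nt.MTop
import Pool.Agent.Lib.MP_3e612f_nt.MSplit
import Pool.Agent.Lib.MP_3e612f_nt.MLow
import Pool.Agent.Lib.MP_3e612f_nt.QVarUp

/-!
The dyadic martingale of the value of a quasi-additive function at a multiple.
-/

set_option autoImplicit false

namespace Pool.Agent.Lib.MP_3e612f_nt.MB

open Filter Topology
open Pool.Agent.Lib.MP_3e612f_nt.QA

theorem m15_lg_mono (q : ℕ) {a b : ℕ} (h : a ≤ b) : lg q a ≤ lg q b :=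
  Nat.log_mono_right (Nat.pow_le_pow_right (by norm_num) h)

theorem m15_lg_pow (q a : ℕ) : q ^ lg q a ≤ 2 ^ a :=
  Nat.pow_log_le_self q (by positivity)

theorem m15_lg_lt {q : ℕ} (hq : 2 ≤ q) (a : ℕ) : 2 ^ a < q ^ (lg q a + 1) :=
  Nat.lt_pow_succ_log_self (by omega) _

theorem m15_lg_le {q : ℕ} (hq : 2 ≤ q) (a : ℕ) : lg q a ≤ a := by
  have h1 : 2 ^ lg q a ≤ 2 ^ a := (Nat.pow_le_pow_left hq _).trans (m15_lg_pow q a)
  exact (Nat.pow_le_pow_iff_right (by norm_num)).mp h1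

theorem m15_dav_eq {a : ℕ} (f : ℕ → ℝ) {t s : ℕ} (hs : s < 2 ^ a) :
    dav a f (2 ^ a * t + s) = av 2 a (fun r => f (2 ^ a * t + r)) := by
  unfold dav
  have h : (2 ^ a * t + s) / 2 ^ a = t := by
    rw [Nat.mul_add_div (by positivity), Nat.div_eq_of_lt hs, add_zero]
  rw [h]

/-- the tower property -/
theorem m15_tower {a k : ℕ} (h : a ≤ k) (f : ℕ → ℝ) (y : ℕ) :
    av 2 k (fun n => dav a f (2 ^ k * y + n)) = av 2 k (fun n => f (2 ^ k * y + n)) := by
  obtain ⟨l, rfl⟩ := Nat.exists_eq_add_of_le h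
  rw [av_split, av_split]
  unfold cnd
  have e : ∀ t s : ℕ, 2 ^ (a + l) * y + (2 ^ a * t + s) = 2 ^ a * (2 ^ l * y + t) + s := by
    intro t s
    rw [pow_add]
    ring
  simp only [e]
  have h1 : av 2 a (fun s => av 2 l (fun t => dav a f (2 ^ a * (2 ^ l * y + t) + s))) =
      av 2 a (fun _ => av 2 l (fun t => av 2 a (fun r => f (2 ^ a * (2 ^ l * y + t) + r)))) := by
    refine av_congr fun s hs => ?_
    refine av_congr fun t _ => ?_
    exact m15_dav_eq f hs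
  rw [h1, av_const le_rfl, av_swap]

/-- averages over dyadic intervals are contractions -/
theorem m15_dav_sq (a : ℕ) (f : ℕ → ℝ) (n : ℕ) : dav a f n ^ 2 ≤ dav a (fun x => f x ^ 2) n :=
  av_sq_le 2 le_rfl a _

theorem m15_quot {q : ℕ} (hq : 2 ≤ q) (a : ℕ) {x x' : ℕ} (h : x ≤ x')
    (h2 : x' < x + 2 ^ a) : ∃ t ≤ q, x' / q ^ lg q a = x / q ^ lg q a + t := by
  have hpos := qpow_pos hq (lg q a)
  have h3 : x / q ^ lg q a ≤ x' / q ^ lg q a := Nat.div_le_div_right h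
  obtain ⟨t, ht⟩ := Nat.exists_eq_add_of_le h3
  refine ⟨t, ?_, ht⟩
  have h4 := m15_lg_lt hq a
  have h5 : x' / q ^ lg q a ≤ (x + q ^ lg q a * q) / q ^ lg q a := by
    apply Nat.div_le_div_right
    rw [pow_succ] at h4
    omega
  rw [Nat.add_mul_div_left _ _ hpos] at h5
  omega

/-- the change of the upper part over a dyadic interval -/
noncomputable def m15_V (q P l : ℕ) (F : ℕ → ℝ) (x : ℕ) : ℝ :=
  ∑ t ∈ Finset.range (q + 1), (F (P * (x / q ^ l) + P * t) - F (P * (x / q ^ l))) ^ 2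

theorem m15_V_nonneg (q P l : ℕ) (F : ℕ → ℝ) (x : ℕ) : 0 ≤ m15_V q P l F x :=
  Finset.sum_nonneg fun _ _ => sq_nonneg _

theorem m15_V_le {q : ℕ} (hq : 2 ≤ q) (P a : ℕ) (F : ℕ → ℝ) {x x' : ℕ} (h : x ≤ x')
    (h2 : x' < x + 2 ^ a) :
    (F (P * (x' / q ^ lg q a)) - F (P * (x / q ^ lg q a))) ^ 2 ≤ m15_V q P (lg q a) F x := by
  obtain ⟨t, ht, h3⟩ := m15_quot hq a h h2
  rw [h3, mul_add]
  exact Finset.single_le_sum (f := fun t => (F (P * (x / q ^ lg q a) + P * t) -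
    F (P * (x / q ^ lg q a))) ^ 2) (fun _ _ => sq_nonneg _) (Finset.mem_range.mpr (by omega))

theorem m15_V_le2 {q : ℕ} (hq : 2 ≤ q) (P a : ℕ) (F : ℕ → ℝ) (x : ℕ) {s : ℕ} (hs : s < 2 ^ a) :
    (F (P * ((2 ^ a * (x / 2 ^ a) + s) / q ^ lg q a)) - F (P * (x / q ^ lg q a))) ^ 2 ≤
      m15_V q P (lg q a) F x + m15_V q P (lg q a) F (2 ^ a * (x / 2 ^ a) + s) := by
  have h1 := Nat.div_add_mod x (2 ^ a)
  have h2 := Nat.mod_lt x (show 2 ^ a > 0 by positivity)
  rcases le_total x (2 ^ a * (x / 2 ^ a) + s) with h | h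
  · have := m15_V_le hq P a F h (by omega)
    have h0 := m15_V_nonneg q P (lg q a) F (2 ^ a * (x / 2 ^ a) + s)
    linarith
  · have := m15_V_le hq P a F h (by omega)
    have h0 := m15_V_nonneg q P (lg q a) F x
    have e : (F (P * ((2 ^ a * (x / 2 ^ a) + s) / q ^ lg q a)) - F (P * (x / q ^ lg q a))) ^ 2 =
        (F (P * (x / q ^ lg q a)) - F (P * ((2 ^ a * (x / 2 ^ a) + s) / q ^ lg q a))) ^ 2 := by
      ring
    rw [e]
    linarith

theorem m15_upper {q m : ℕ} (hq : 2 ≤ q) {P : ℕ} (hP : P.Coprime q) (Y : ℕ) :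
    ∃ K : ℝ, 0 ≤ K ∧ ∀ (F : ℕ → ℝ) (C : ℝ), QR q m F C → ∀ a k y : ℕ, a ≤ k → y ≤ Y →
      av 2 k (fun n => (dav a (fun x => F (P * (x / q ^ lg q a))) (2 ^ k * y + n) -
        F (P * ((2 ^ k * y + n) / q ^ lg q a))) ^ 2) ≤ K * C ^ 2 := by
  obtain ⟨K, hK, H⟩ := top_shift (m := m) hq hP (P * q) Y
  refine ⟨2 * ((q + 1) * K), by positivity, ?_⟩
  intro F C hF a k y hak hy
  set l := lg q a with hl
  have hV : av 2 k (fun n => m15_V q P l F (2 ^ k * y + n)) ≤ (q + 1) * K * C ^ 2 := by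
    unfold m15_V
    rw [av_finset_sum]
    have h1 : ∀ t ∈ Finset.range (q + 1), av 2 k (fun n =>
        (F (P * ((2 ^ k * y + n) / q ^ l) + P * t) - F (P * ((2 ^ k * y + n) / q ^ l))) ^ 2) ≤
        K * C ^ 2 := by
      intro t ht
      refine H F C hF k l y (P * t) (m15_lg_mono q hak) hy ?_
      exact Nat.mul_le_mul_left P (by have := Finset.mem_range.mp ht; omega)
    refine (Finset.sum_le_sum h1).trans (le_of_eq ?_)
    rw [Finset.sum_const, Finset.card_range, nsmul_eq_mul]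
    push_cast
    ring
  have h2 : ∀ x : ℕ, (dav a (fun x => F (P * (x / q ^ l))) x - F (P * (x / q ^ l))) ^ 2 ≤
      m15_V q P l F x + dav a (m15_V q P l F) x := by
    intro x
    have e : dav a (fun x => F (P * (x / q ^ l))) x - F (P * (x / q ^ l)) =
        av 2 a (fun s => F (P * ((2 ^ a * (x / 2 ^ a) + s) / q ^ l)) - F (P * (x / q ^ l))) := by
      rw [av_sub, av_const le_rfl]
      rfl
    rw [e]
    refine (av_sq_le 2 le_rfl a _).trans ?_
    calc av 2 a (fun s => (F (P * ((2 ^ a * (x / 2 ^ a) + s) / q ^ l)) -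
          F (P * (x / q ^ l))) ^ 2)
        ≤ av 2 a (fun s => m15_V q P l F x + m15_V q P l F (2 ^ a * (x / 2 ^ a) + s)) :=
          av_mono fun s hs => m15_V_le2 hq P a F x hs
      _ = m15_V q P l F x + dav a (m15_V q P l F) x := by
          rw [av_add, av_const le_rfl]
          rfl
  calc av 2 k (fun n => (dav a (fun x => F (P * (x / q ^ l))) (2 ^ k * y + n) -
        F (P * ((2 ^ k * y + n) / q ^ l))) ^ 2)
      ≤ av 2 k (fun n => m15_V q P l F (2 ^ k * y + n) +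
          dav a (m15_V q P l F) (2 ^ k * y + n)) := av_mono fun n _ => h2 _
    _ = av 2 k (fun n => m15_V q P l F (2 ^ k * y + n)) +
          av 2 k (fun n => m15_V q P l F (2 ^ k * y + n)) := by
        rw [av_add, m15_tower hak]
    _ ≤ 2 * ((q + 1) * K) * C ^ 2 := by linarith

/-- the conditional averages are, up to bounded errors, the upper part plus the mean -/
theorem m15_D {q m : ℕ} (hq : 2 ≤ q) {P : ℕ} (hP : P.Coprime q) (h Y : ℕ) :
    ∃ K : ℝ, 0 ≤ K ∧ ∀ (F : ℕ → ℝ) (C : ℝ), QR q m F C → ∀ a k y c z : ℕ, a ≤ k →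
      y ≤ Y → c ≤ P → z < q ^ h →
      av 2 k (fun n => (dav a (fun n => F (sd q h P c z n)) (2 ^ k * y + n) - av q (lg q a) F -
        F (P * ((2 ^ k * y + n) / q ^ lg q a))) ^ 2) ≤ K * C ^ 2 := by
  obtain ⟨K₁, hK₁, H₁⟩ := split_sq (m := m) hq hP h Y
  obtain ⟨K₂, hK₂, H₂⟩ := avg_low (m := m) hq hP h
  obtain ⟨K₃, hK₃, H₃⟩ := m15_upper (m := m) hq hP Y
  refine ⟨3 * (K₁ + K₂ ^ 2 + K₃), by positivity, ?_⟩
  intro F C hF a k y c z hak hy hc hz
  set l := lg q a with hl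
  have g1 := H₁ F C hF k 0 l y c z (Nat.zero_le _) (m15_lg_mono q hak) hy hc hz
  simp only [pow_zero, Nat.div_one, Nat.sub_zero] at g1
  have g3 := H₃ F C hF a k y hak hy
  rw [← hl] at g3
  set X : ℕ → ℝ := fun n => F (sd q h P c z n) with hX
  set U : ℕ → ℝ := fun x => F (P * (x / q ^ l)) with hU
  set Lw : ℕ → ℝ := fun x => F (q ^ h * ((P * (x % q ^ l) + c) % q ^ l) + z) with hLw
  set E : ℕ → ℝ := fun x => X x - U x - Lw x with hE
  have g1' : av 2 k (fun n => E (2 ^ k * y + n) ^ 2) ≤ K₁ * C ^ 2 := g1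
  have g3' : av 2 k (fun n => (dav a U (2 ^ k * y + n) - U (2 ^ k * y + n)) ^ 2) ≤ K₃ * C ^ 2 := g3
  have g2 : ∀ x : ℕ, |dav a Lw x - av q l F| ≤ K₂ * C := by
    intro x
    have := H₂ F C hF l (2 ^ a) (2 ^ a * (x / 2 ^ a)) c z (m15_lg_pow q a) hc hz
    have e : dav a Lw x = (∑ n ∈ Finset.range (2 ^ a),
        F (q ^ h * ((P * ((2 ^ a * (x / 2 ^ a) + n) % q ^ l) + c) % q ^ l) + z)) /
          ((2 ^ a : ℕ) : ℝ) := by
      unfold dav av
      push_cast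
      rfl
    rw [e]
    exact this
  have key : ∀ x : ℕ, (dav a X x - av q l F - U x) ^ 2 ≤
      3 * (dav a (fun x => E x ^ 2) x + (K₂ * C) ^ 2 + (dav a U x - U x) ^ 2) := by
    intro x
    have e : dav a X x - av q l F - U x =
        dav a E x + (dav a Lw x - av q l F) + (dav a U x - U x) := by
      have : dav a E x = dav a X x - dav a U x - dav a Lw x := by
        unfold dav
        rw [← av_sub, ← av_sub]
      rw [this]
      ring
    rw [e]
    refine (q5_three _ _ _).trans ?_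
    have h1 := m15_dav_sq a E x
    have h2 : (dav a Lw x - av q l F) ^ 2 ≤ (K₂ * C) ^ 2 := by
      rw [← sq_abs]
      exact pow_le_pow_left₀ (abs_nonneg _) (g2 x) 2
    linarith
  calc av 2 k (fun n => (dav a X (2 ^ k * y + n) - av q l F - U (2 ^ k * y + n)) ^ 2)
      ≤ av 2 k (fun n => 3 * (dav a (fun x => E x ^ 2) (2 ^ k * y + n) + (K₂ * C) ^ 2 +
          (dav a U (2 ^ k * y + n) - U (2 ^ k * y + n)) ^ 2)) := av_mono fun n _ => key _
    _ = 3 * (av 2 k (fun n => E (2 ^ k * y + n) ^ 2) + (K₂ * C) ^ 2 +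
          av 2 k (fun n => (dav a U (2 ^ k * y + n) - U (2 ^ k * y + n)) ^ 2)) := by
        rw [av_const_mul, av_add, av_add, av_const le_rfl, m15_tower hak]
    _ ≤ 3 * (K₁ + K₂ ^ 2 + K₃) * C ^ 2 := by nlinarith

/-- M15a: the increments of the dyadic martingale -/
theorem doob_sq {q m : ℕ} (hq : 2 ≤ q) {P : ℕ} (hP : P.Coprime q) (h Y : ℕ) :
    ∃ K : ℝ, 0 ≤ K ∧ ∀ (F : ℕ → ℝ) (C : ℝ), QR q m F C → ∀ a b k y c z : ℕ, a ≤ b → b ≤ k →
      y ≤ Y → c ≤ P → z < q ^ h →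
      av 2 k (fun n => (dav a (fun n => F (sd q h P c z n)) (2 ^ k * y + n) -
        dav b (fun n => F (sd q h P c z n)) (2 ^ k * y + n) -
        (F (P * ((2 ^ k * y + n) / q ^ lg q a) % q ^ (lg q b - lg q a)) -
          av q (lg q b - lg q a) F)) ^ 2) ≤ K * C ^ 2 := by
  obtain ⟨K₁, hK₁, H₁⟩ := m15_D (m := m) hq hP h Y
  obtain ⟨K₂, hK₂, H₂⟩ := split_sq (m := m) hq hP 0 Y
  obtain ⟨K₃, hK₃, H₃⟩ := mean_add (m := m) hq
  refine ⟨4 * (K₁ + K₁ + K₂ + K₃ ^ 2), by positivity, ?_⟩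
  intro F C hF a b k y c z hab hbk hy hc hz
  have g1 := H₁ F C hF a k y c z (hab.trans hbk) hy hc hz
  have g2 := H₁ F C hF b k y c z hbk hy hc hz
  have g3 := H₂ F C hF k (lg q a) (lg q b) y 0 0 (m15_lg_mono q hab) (m15_lg_mono q hbk) hy
    (Nat.zero_le _) (by simp)
  have g4 := H₃ F C hF (lg q a) (lg q b - lg q a)
  rw [Nat.add_sub_cancel' (m15_lg_mono q hab)] at g4
  set X : ℕ → ℝ := fun n => F (sd q h P c z n) with hX
  set l := lg q a with hl
  set l' := lg q b with hl'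
  have e3 : ∀ n : ℕ, F (sd q 0 P 0 0 ((2 ^ k * y + n) / q ^ l)) -
      F (P * ((2 ^ k * y + n) / q ^ l')) -
      F (q ^ 0 * ((P * ((2 ^ k * y + n) / q ^ l % q ^ (l' - l)) + 0) % q ^ (l' - l)) + 0) =
      F (P * ((2 ^ k * y + n) / q ^ l)) - F (P * ((2 ^ k * y + n) / q ^ l')) -
      F (P * ((2 ^ k * y + n) / q ^ l) % q ^ (l' - l)) := by
    intro n
    unfold sd
    simp only [pow_zero, one_mul, add_zero]
    rw [Nat.mul_mod P ((2 ^ k * y + n) / q ^ l % q ^ (l' - l)), Nat.mod_mod, ← Nat.mul_mod]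
  simp only [e3] at g3
  have h4 : (av q l' F - av q l F - av q (l' - l) F) ^ 2 ≤ K₃ ^ 2 * C ^ 2 := by
    rw [← mul_pow, ← sq_abs]
    exact pow_le_pow_left₀ (abs_nonneg _) g4 2
  set R : ℝ := av q l' F - av q l F - av q (l' - l) F with hR
  have four : ∀ a b c d : ℝ, (a - b + c - d) ^ 2 ≤ 4 * (a ^ 2 + b ^ 2 + c ^ 2 + d ^ 2) := by
    intro a b c d
    nlinarith [sq_nonneg (a + b), sq_nonneg (a - c), sq_nonneg (a + d), sq_nonneg (b + c),
      sq_nonneg (b - d), sq_nonneg (c + d)]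
  calc av 2 k (fun n => (dav a X (2 ^ k * y + n) - dav b X (2 ^ k * y + n) -
        (F (P * ((2 ^ k * y + n) / q ^ l) % q ^ (l' - l)) - av q (l' - l) F)) ^ 2)
      ≤ av 2 k (fun n => 4 * ((dav a X (2 ^ k * y + n) - av q l F -
          F (P * ((2 ^ k * y + n) / q ^ l))) ^ 2 +
          (dav b X (2 ^ k * y + n) - av q l' F - F (P * ((2 ^ k * y + n) / q ^ l'))) ^ 2 +
          (F (P * ((2 ^ k * y + n) / q ^ l)) - F (P * ((2 ^ k * y + n) / q ^ l')) -
            F (P * ((2 ^ k * y + n) / q ^ l) % q ^ (l' - l))) ^ 2 + R ^ 2)) := by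
        refine av_mono fun n _ => ?_
        refine le_trans (le_of_eq ?_) (four _ _ _ _)
        rw [hR]
        ring
    _ = 4 * (av 2 k (fun n => (dav a X (2 ^ k * y + n) - av q l F -
          F (P * ((2 ^ k * y + n) / q ^ l))) ^ 2) +
          av 2 k (fun n => (dav b X (2 ^ k * y + n) - av q l' F -
            F (P * ((2 ^ k * y + n) / q ^ l'))) ^ 2) +
          av 2 k (fun n => (F (P * ((2 ^ k * y + n) / q ^ l)) -
            F (P * ((2 ^ k * y + n) / q ^ l')) -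
            F (P * ((2 ^ k * y + n) / q ^ l) % q ^ (l' - l))) ^ 2) + R ^ 2) := by
        rw [av_const_mul, av_add, av_add, av_add, av_const le_rfl]
    _ ≤ 4 * (K₁ + K₁ + K₂ + K₃ ^ 2) * C ^ 2 := by linarith

/-- the upper part is bounded -/
theorem m15_top {q m : ℕ} (hq : 2 ≤ q) (P Y : ℕ) {F : ℕ → ℝ} {C : ℝ} (hF : QR q m F C)
    {k y n : ℕ} (hy : y ≤ Y) (hn : n < 2 ^ k) :
    |F (P * ((2 ^ k * y + n) / q ^ lg q k))| ≤ C * ((P * (q * (Y + 1)) : ℕ) + 1) := by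
  apply hF.growth
  refine lt_of_le_of_lt ?_ (Nat.lt_pow_self (by omega))
  apply Nat.mul_le_mul_left
  have h1 : (2 ^ k * y + n) / q ^ lg q k ≤ 2 ^ k * (y + 1) / q ^ lg q k := by
    apply Nat.div_le_div_right
    rw [mul_add]
    omega
  refine (h1.trans (dy_card hq k y).2).trans ?_
  exact Nat.mul_le_mul_left q (by omega)

/-- M15b: the mean over a block -/
theorem doob_mean {q m : ℕ} (hq : 2 ≤ q) {P : ℕ} (hP : P.Coprime q) (h Y : ℕ) :
    ∃ K : ℝ, 0 ≤ K ∧ ∀ (F : ℕ → ℝ) (C : ℝ), QR q m F C → ∀ k y c z : ℕ, y ≤ Y → c ≤ P →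
      z < q ^ h →
      |av 2 k (fun n => F (sd q h P c z (2 ^ k * y + n))) - av q (lg q k) F| ≤ K * C := by
  obtain ⟨K₁, hK₁, H₁⟩ := m15_D (m := m) hq hP h Y
  set A : ℝ := ((P * (q * (Y + 1)) : ℕ) : ℝ) + 1 with hA
  have hA0 : 0 ≤ A := by positivity
  refine ⟨2 * K₁ + 2 * A ^ 2 + 1, by positivity, ?_⟩
  intro F C hF k y c z hy hc hz
  have g1 := H₁ F C hF k k y c z le_rfl hy hc hz
  have hC := hF.nonneg
  set M : ℝ := av 2 k (fun n => F (sd q h P c z (2 ^ k * y + n))) with hM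
  have g2 : av 2 k (fun n => (M - av q (lg q k) F -
      F (P * ((2 ^ k * y + n) / q ^ lg q k))) ^ 2) ≤ K₁ * C ^ 2 := by
    refine le_trans (le_of_eq ?_) g1
    refine av_congr fun n hn => ?_
    rw [m15_dav_eq _ hn]
  have g3 : (M - av q (lg q k) F) ^ 2 ≤ (2 * K₁ + 2 * A ^ 2) * C ^ 2 := by
    calc (M - av q (lg q k) F) ^ 2 = av 2 k (fun _ => (M - av q (lg q k) F) ^ 2) :=
          (av_const le_rfl k _).symm
      _ ≤ av 2 k (fun n => 2 * (M - av q (lg q k) F -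
          F (P * ((2 ^ k * y + n) / q ^ lg q k))) ^ 2 + 2 * (C * A) ^ 2) := by
          refine av_mono fun n hn => ?_
          have h1 : F (P * ((2 ^ k * y + n) / q ^ lg q k)) ^ 2 ≤ (C * A) ^ 2 := by
            rw [← sq_abs]
            exact pow_le_pow_left₀ (abs_nonneg _) (m15_top hq P Y hF hy hn) 2
          nlinarith [sq_nonneg (M - av q (lg q k) F -
            2 * F (P * ((2 ^ k * y + n) / q ^ lg q k)))]
      _ = 2 * av 2 k (fun n => (M - av q (lg q k) F -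
          F (P * ((2 ^ k * y + n) / q ^ lg q k))) ^ 2) + 2 * (C * A) ^ 2 := by
          rw [av_add, av_const_mul, av_const le_rfl]
      _ ≤ (2 * K₁ + 2 * A ^ 2) * C ^ 2 := by nlinarith
  have h5 : 0 ≤ 2 * K₁ + 2 * A ^ 2 := by positivity
  refine abs_le_of_sq_le_sq ?_ (by positivity)
  refine g3.trans ?_
  rw [mul_pow]
  refine mul_le_mul_of_nonneg_right ?_ (sq_nonneg _)
  nlinarith

/-- M15c: the second moment, with a constant which depends only on `q` and `m` -/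
theorem second_moment {q m : ℕ} (hq : 2 ≤ q) :
    ∃ K : ℝ, 0 ≤ K ∧ ∀ P : ℕ, P.Coprime q → ∀ h Y : ℕ, ∀ᶠ k : ℕ in atTop,
      ∀ (F : ℕ → ℝ) (C : ℝ), QR q m F C → ∀ y c z : ℕ, y ≤ Y → c ≤ P → z < q ^ h →
      av 2 k (fun n => (F (sd q h P c z (2 ^ k * y + n)) - av q (lg q k) F) ^ 2) ≤
        K * C ^ 2 * (k + 1) := by
  obtain ⟨Kv, hKv, Hv⟩ := var_le (m := m) hq
  refine ⟨3 * (2 + 3 * (q + 1) * (Kv + 2)), by positivity, ?_⟩
  intro P hP h Y
  obtain ⟨K₁, hK₁, H₁⟩ := split_sq (m := m) hq hP h Y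
  obtain ⟨K₂, hK₂, H₂⟩ := defect_sq_right (m := m) hq h 0
  set A : ℝ := ((P * (q * (Y + 1)) : ℕ) : ℝ) + 1 with hA
  filter_upwards [eventually_ge_atTop ⌈K₁⌉₊, eventually_ge_atTop ⌈K₂⌉₊,
    eventually_ge_atTop ⌈A ^ 2⌉₊, eventually_ge_atTop ((h + 1) ^ 2)] with k k1 k2 k3 k4
  intro F C hF y c z hy hc hz
  have hC := hF.nonneg
  have hC2 : 0 ≤ C ^ 2 := sq_nonneg C
  have r1 : K₁ ≤ k := (Nat.le_ceil _).trans (by exact_mod_cast k1)
  have r2 : K₂ ≤ k := (Nat.le_ceil _).trans (by exact_mod_cast k2)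
  have r3 : A ^ 2 ≤ k := (Nat.le_ceil _).trans (by exact_mod_cast k3)
  have r4 : ((h : ℝ) + 1) ^ 2 ≤ k := by exact_mod_cast k4
  set l := lg q k with hl
  set μ : ℝ := av q l F with hμ
  have g1 := H₁ F C hF k 0 l y c z (Nat.zero_le _) le_rfl hy hc hz
  simp only [pow_zero, Nat.div_one, Nat.sub_zero] at g1
  have hlk : (l : ℝ) ≤ k := by exact_mod_cast m15_lg_le hq k
  -- the lower part in the model
  have g2 : av q l (fun n => (F (q ^ h * n + z) - μ) ^ 2) ≤ 3 * (Kv + 2) * C ^ 2 * k := by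
    have d1 := H₂ F C hF l 0 z le_rfl hz
    simp only [mul_zero, zero_add] at d1
    have d2 := Hv F C hF l
    rw [cov_eq hq] at d2
    have d3 : F z ^ 2 ≤ (C * (h + 1)) ^ 2 := by
      rw [← sq_abs]
      exact pow_le_pow_left₀ (abs_nonneg _) (hF.growth h z hz) 2
    calc av q l (fun n => (F (q ^ h * n + z) - μ) ^ 2)
        ≤ av q l (fun n => 3 * ((F n - μ) * (F n - μ) + F z ^ 2 + dfc F q h n z ^ 2)) := by
          refine av_mono fun n _ => ?_
          have e : F (q ^ h * n + z) - μ = (F n - μ) + F z + dfc F q h n z := by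
            unfold dfc
            ring
          rw [e, ← sq (F n - μ)]
          exact q5_three _ _ _
      _ = 3 * (av q l (fun n => (F n - μ) * (F n - μ)) + F z ^ 2 +
            av q l (fun n => dfc F q h n z ^ 2)) := by
          rw [av_const_mul, av_add, av_add, av_const hq]
      _ ≤ 3 * (Kv * C ^ 2 * l + (C * (h + 1)) ^ 2 + K₂ * C ^ 2) := by linarith
      _ ≤ 3 * (Kv + 2) * C ^ 2 * k := by
          have t1 : Kv * C ^ 2 * l ≤ Kv * C ^ 2 * k :=
            mul_le_mul_of_nonneg_left hlk (by positivity)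
          have t2 : C ^ 2 * ((h : ℝ) + 1) ^ 2 ≤ C ^ 2 * k := mul_le_mul_of_nonneg_left r4 hC2
          have t3 : C ^ 2 * K₂ ≤ C ^ 2 * k := mul_le_mul_of_nonneg_left r2 hC2
          nlinarith
  -- the lower part
  have g3 : av 2 k (fun n => (F (q ^ h * ((P * ((2 ^ k * y + n) % q ^ l) + c) % q ^ l) + z) -
      μ) ^ 2) ≤ (q + 1) * (3 * (Kv + 2) * C ^ 2 * k) := by
    have d1 := dy_le hq k y (f := fun x =>
      (F (q ^ h * ((P * (x % q ^ l) + c) % q ^ l) + z) - μ) ^ 2) (fun _ => sq_nonneg _)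
    refine d1.trans ?_
    have d2 : ∀ y' ∈ Finset.Icc (2 ^ k * y / q ^ lg q k) (2 ^ k * (y + 1) / q ^ lg q k),
        av q (lg q k) (fun n => (F (q ^ h * ((P * ((q ^ lg q k * y' + n) % q ^ l) + c) % q ^ l) +
          z) - μ) ^ 2) ≤ 3 * (Kv + 2) * C ^ 2 * k := by
      intro y' _
      refine le_trans (le_of_eq ?_) g2
      rw [← av_perm hq hP c l (fun n => (F (q ^ h * n + z) - μ) ^ 2)]
      refine av_congr fun n hn => ?_
      rw [← hl, Nat.mul_add_mod, Nat.mod_eq_of_lt hn]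
    refine (Finset.sum_le_sum d2).trans ?_
    rw [Finset.sum_const, nsmul_eq_mul]
    refine mul_le_mul_of_nonneg_right ?_ (by positivity)
    exact_mod_cast (dy_card hq k y).1
  calc av 2 k (fun n => (F (sd q h P c z (2 ^ k * y + n)) - μ) ^ 2)
      ≤ av 2 k (fun n => 3 * ((F (sd q h P c z (2 ^ k * y + n)) -
          F (P * ((2 ^ k * y + n) / q ^ l)) -
          F (q ^ h * ((P * ((2 ^ k * y + n) % q ^ l) + c) % q ^ l) + z)) ^ 2 + (C * A) ^ 2 +
          (F (q ^ h * ((P * ((2 ^ k * y + n) % q ^ l) + c) % q ^ l) + z) - μ) ^ 2)) := by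
        refine av_mono fun n hn => ?_
        have h1 : F (P * ((2 ^ k * y + n) / q ^ l)) ^ 2 ≤ (C * A) ^ 2 := by
          rw [← sq_abs]
          exact pow_le_pow_left₀ (abs_nonneg _) (m15_top hq P Y hF hy hn) 2
        have e : F (sd q h P c z (2 ^ k * y + n)) - μ = (F (sd q h P c z (2 ^ k * y + n)) -
          F (P * ((2 ^ k * y + n) / q ^ l)) -
          F (q ^ h * ((P * ((2 ^ k * y + n) % q ^ l) + c) % q ^ l) + z)) +
          F (P * ((2 ^ k * y + n) / q ^ l)) +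
          (F (q ^ h * ((P * ((2 ^ k * y + n) % q ^ l) + c) % q ^ l) + z) - μ) := by ring
        rw [e]
        refine (q5_three _ _ _).trans ?_
        linarith
    _ = 3 * (av 2 k (fun n => (F (sd q h P c z (2 ^ k * y + n)) -
          F (P * ((2 ^ k * y + n) / q ^ l)) -
          F (q ^ h * ((P * ((2 ^ k * y + n) % q ^ l) + c) % q ^ l) + z)) ^ 2) + (C * A) ^ 2 +
          av 2 k (fun n => (F (q ^ h * ((P * ((2 ^ k * y + n) % q ^ l) + c) % q ^ l) + z) -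
            μ) ^ 2)) := by
        rw [av_const_mul, av_add, av_add, av_const le_rfl]
    _ ≤ 3 * (K₁ * C ^ 2 + (C * A) ^ 2 + (q + 1) * (3 * (Kv + 2) * C ^ 2 * k)) := by linarith
    _ ≤ 3 * (2 + 3 * (q + 1) * (Kv + 2)) * C ^ 2 * (k + 1) := by
        have t1 : C ^ 2 * K₁ ≤ C ^ 2 * k := mul_le_mul_of_nonneg_left r1 hC2
        have t2 : C ^ 2 * A ^ 2 ≤ C ^ 2 * k := mul_le_mul_of_nonneg_left r3 hC2
        have t3 : 0 ≤ 3 * (2 + 3 * ((q : ℝ) + 1) * (Kv + 2)) * C ^ 2 := by positivity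
        nlinarith

end Pool.Agent.Lib.MP_3e612f_nt.MB
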