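import Pool.Agent.Lib.MP_3e612f_nt.MCov
import Pool.Agent.Lib.MP_3e612f_nt.MDoob
import Pool.Agent.Lib.MP_3e612f_nt.QBase

/-!
The conditional variances of the dyadic martingale of a sum of quasi-additive functions in
several bases over a block of windows, and the Lindeberg condition.
-/

set_option autoImplicit false

namespace Pool.Agent.Lib.MP_3e612f_nt.MB

open Filter Topology
open Pool.Agent.Lib.MP_3e612f_nt.QA

section fam

variable {J : Type*} [Fintype J] [DecidableEq J]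

/-- the variance -/
noncomputable def VV (q P : J → ℕ) (F : J → ℕ → ℝ) (W k₁ N : ℕ) : ℝ :=
  ∑ j ∈ Finset.range N, ∑ α, ∑ β, if q α = q β then
    cov (q α) (wn (q α) k₁ W j) (fun n => F α (P α * n % q α ^ wn (q α) k₁ W j))
      (fun n => F β (P β * n % q α ^ wn (q α) k₁ W j)) else 0

/-- the sum of all values -/
noncomputable def XX (q : J → ℕ) (h : ℕ) (P c z : J → ℕ) (F : J → ℕ → ℝ) (n : ℕ) : ℝ :=
  ∑ α, F α (sd (q α) h (P α) (c α) (z α) n)

end fam

/-- the average of a sum is the sum of the averages -/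
theorem m22_dav_sum {J : Type*} (s : Finset J) (b : ℕ) (X : J → ℕ → ℝ) (n : ℕ) :
    dav b (fun n => ∑ α ∈ s, X α n) n = ∑ α ∈ s, dav b (X α) n := by
  unfold dav
  exact av_finset_sum s 2 b (fun α t => X α (2 ^ b * (n / 2 ^ b) + t))

/-- a pair of bases -/
theorem m22_pair {q q' m : ℕ} (hq : 2 ≤ q) (hq' : 2 ≤ q') (hqq : q = q' ∨ q.Coprime q')
    {P P' : ℕ} (hP : P.Coprime q) (hP' : P'.Coprime q') (h Y : ℕ) :
    ∃ K : ℝ, 0 ≤ K ∧ ∀ W : ℕ, 1 ≤ W → q * q' ≤ 2 ^ W → ∃ s₀ : ℕ, ∀ s ≥ s₀,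
      ∀ (F F' : ℕ → ℝ) (C C' : ℝ), QR q m F C → QR q' m F' C' →
      ∀ a k y c z c' z' : ℕ, a + W * s ≤ k → y ≤ Y → c ≤ P → z < q ^ h → c' ≤ P' →
      z' < q' ^ h →
      av 2 k (fun n => |dav (a + W * s) (fun n =>
        (dav a (fun n => F (sd q h P c z n)) n - dav (a + W * s) (fun n => F (sd q h P c z n)) n) *
        (dav a (fun n => F' (sd q' h P' c' z' n)) n -
          dav (a + W * s) (fun n => F' (sd q' h P' c' z' n)) n)) (2 ^ k * y + n) -
        ∑ j ∈ Finset.range s, if q = q' then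
          cov q (wn q a W j) (fun n => F (P * n % q ^ wn q a W j))
          (fun n => F' (P' * n % q ^ wn q a W j)) else 0|) ≤
        K * C * C' * (s * Real.sqrt (W + 1) + (W + 2) ^ 2) := by
  by_cases hEq : q = q'
  · subst hEq
    obtain ⟨K, hK0, hK⟩ := block_cov_same (m := m) hq hP hP' h Y
    refine ⟨K, hK0, fun W hW _ => ⟨0, fun s _ F F' C C' hF hF' a k y c z c' z' hk hy hc hz hc' hz' =>
      ?_⟩⟩
    have := hK F F' C C' hF hF' W s a k y c z c' z' hW hk hy hc hz hc' hz'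
    simpa only [if_true] using this
  · have hco : q.Coprime q' := hqq.resolve_left hEq
    obtain ⟨K, hK0, hK⟩ := block_cov_diff (m := m) hq hq' hco hP hP' h Y
    refine ⟨K, hK0, fun W hW hWq => ?_⟩
    obtain ⟨s₀, hs₀⟩ := hK W hWq
    refine ⟨s₀, fun s hs F F' C C' hF hF' a k y c z c' z' hk hy hc hz hc' hz' => ?_⟩
    have := hs₀ s hs F F' C C' hF hF' a k y c z c' z' hk hy hc hz hc' hz'
    simp only [if_neg hEq, Finset.sum_const_zero, sub_zero]
    refine this.trans ?_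
    have h1 : 0 ≤ K * C * C' := mul_nonneg (mul_nonneg hK0 hF.nonneg) hF'.nonneg
    have h2 : (0 : ℝ) ≤ ((W : ℝ) + 2) ^ 2 := by positivity
    exact mul_le_mul_of_nonneg_left (by linarith) h1

section fam

variable {J : Type*} [Fintype J] [DecidableEq J]

/-- M22a: the conditional variances over a block of windows -/
theorem block_var {q : J → ℕ} (hq : ∀ α, 2 ≤ q α)
    (hqq : ∀ α β, q α = q β ∨ (q α).Coprime (q β)) {m : ℕ} {P : J → ℕ}
    (hP : ∀ α, (P α).Coprime (q α)) (h Y : ℕ) :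
    ∃ K : ℝ, 0 ≤ K ∧ ∀ W : ℕ, 1 ≤ W → (∀ α β, q α * q β ≤ 2 ^ W) → ∃ s₀ : ℕ, ∀ s ≥ s₀,
      ∀ (F : J → ℕ → ℝ) (C : J → ℝ), (∀ α, QR (q α) m (F α) (C α)) → ∀ a k y : ℕ,
      ∀ c z : J → ℕ, a + W * s ≤ k → y ≤ Y → Bd q h P c z →
      av 2 k (fun n => |dav (a + W * s) (fun n => (dav a (XX q h P c z F) n -
        dav (a + W * s) (XX q h P c z F) n) ^ 2) (2 ^ k * y + n) -
        ∑ j ∈ Finset.range s, ∑ α, ∑ β, if q α = q β then
          cov (q α) (wn (q α) a W j) (fun n => F α (P α * n % q α ^ wn (q α) a W j))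
            (fun n => F β (P β * n % q α ^ wn (q α) a W j)) else 0|) ≤
        K * (∑ α, C α) ^ 2 * (s * Real.sqrt (W + 1) + (W + 2) ^ 2) := by
  have hpair : ∀ α β : J, _ := fun α β =>
    m22_pair (m := m) (hq α) (hq β) (hqq α β) (hP α) (hP β) h Y
  choose K hK0 hK using hpair
  refine ⟨∑ α, ∑ β, K α β, Finset.sum_nonneg fun α _ => Finset.sum_nonneg fun β _ => hK0 α β,
    fun W hW hWq => ?_⟩
  have hs : ∀ α β : J, _ := fun α β => hK α β W hW (hWq α β)
  choose s₀ hs₀ using hs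
  refine ⟨Finset.univ.sup fun α => Finset.univ.sup fun β => s₀ α β,
    fun s hs F C hF a k y c z hk hy hB => ?_⟩
  have hsle : ∀ α β, s₀ α β ≤ s := fun α β =>
    ((Finset.le_sup (f := fun β => s₀ α β) (Finset.mem_univ β)).trans
      (Finset.le_sup (f := fun α => Finset.univ.sup fun β => s₀ α β) (Finset.mem_univ α))).trans hs
  set X : J → ℕ → ℝ := fun α n => F α (sd (q α) h (P α) (c α) (z α) n) with hX
  set b : ℕ := a + W * s with hb
  set T : ℝ := s * Real.sqrt (W + 1) + (W + 2) ^ 2 with hT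
  have hT0 : 0 ≤ T := by rw [hT]; positivity
  have hdav : ∀ b' n, dav b' (XX q h P c z F) n = ∑ α, dav b' (X α) n := fun b' n =>
    m22_dav_sum Finset.univ b' X n
  have hsq : ∀ n, (dav a (XX q h P c z F) n - dav b (XX q h P c z F) n) ^ 2 =
      ∑ α, ∑ β, (dav a (X α) n - dav b (X α) n) * (dav a (X β) n - dav b (X β) n) := by
    intro n
    rw [hdav, hdav, ← Finset.sum_sub_distrib, sq, Finset.sum_mul_sum]
  have hmain : ∀ n, dav b (fun n => (dav a (XX q h P c z F) n - dav b (XX q h P c z F) n) ^ 2) n =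
      ∑ α, ∑ β, dav b (fun n => (dav a (X α) n - dav b (X α) n) *
        (dav a (X β) n - dav b (X β) n)) n := by
    intro n
    simp_rw [hsq]
    rw [m22_dav_sum Finset.univ b (fun α n => ∑ β, (dav a (X α) n - dav b (X α) n) *
      (dav a (X β) n - dav b (X β) n)) n]
    refine Finset.sum_congr rfl fun α _ => ?_
    exact m22_dav_sum Finset.univ b (fun β n => (dav a (X α) n - dav b (X α) n) *
      (dav a (X β) n - dav b (X β) n)) n
  have hswap : ∑ j ∈ Finset.range s, ∑ α, ∑ β, (if q α = q β then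
          cov (q α) (wn (q α) a W j) (fun n => F α (P α * n % q α ^ wn (q α) a W j))
            (fun n => F β (P β * n % q α ^ wn (q α) a W j)) else 0) =
      ∑ α, ∑ β, ∑ j ∈ Finset.range s, (if q α = q β then
          cov (q α) (wn (q α) a W j) (fun n => F α (P α * n % q α ^ wn (q α) a W j))
            (fun n => F β (P β * n % q α ^ wn (q α) a W j)) else 0) := by
    rw [Finset.sum_comm]
    refine Finset.sum_congr rfl fun α _ => ?_
    rw [Finset.sum_comm]
  rw [hswap]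
  simp_rw [hmain, ← Finset.sum_sub_distrib]
  calc av 2 k (fun n => |∑ α, ∑ β, (dav b (fun n => (dav a (X α) n - dav b (X α) n) *
        (dav a (X β) n - dav b (X β) n)) (2 ^ k * y + n) - ∑ j ∈ Finset.range s, (if q α = q β then
          cov (q α) (wn (q α) a W j) (fun n => F α (P α * n % q α ^ wn (q α) a W j))
            (fun n => F β (P β * n % q α ^ wn (q α) a W j)) else 0))|)
      ≤ av 2 k (fun n => ∑ α, ∑ β, |dav b (fun n => (dav a (X α) n - dav b (X α) n) *
        (dav a (X β) n - dav b (X β) n)) (2 ^ k * y + n) - ∑ j ∈ Finset.range s, (if q α = q β then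
          cov (q α) (wn (q α) a W j) (fun n => F α (P α * n % q α ^ wn (q α) a W j))
            (fun n => F β (P β * n % q α ^ wn (q α) a W j)) else 0)|) := by
        refine av_mono fun n _ => (Finset.abs_sum_le_sum_abs _ _).trans ?_
        exact Finset.sum_le_sum fun α _ => Finset.abs_sum_le_sum_abs _ _
    _ = ∑ α, ∑ β, av 2 k (fun n => |dav b (fun n => (dav a (X α) n - dav b (X α) n) *
        (dav a (X β) n - dav b (X β) n)) (2 ^ k * y + n) - ∑ j ∈ Finset.range s, (if q α = q β then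
          cov (q α) (wn (q α) a W j) (fun n => F α (P α * n % q α ^ wn (q α) a W j))
            (fun n => F β (P β * n % q α ^ wn (q α) a W j)) else 0)|) := by
        rw [av_finset_sum]
        refine Finset.sum_congr rfl fun α _ => ?_
        rw [av_finset_sum]
    _ ≤ ∑ α, ∑ β, K α β * C α * C β * T := by
        refine Finset.sum_le_sum fun α _ => Finset.sum_le_sum fun β _ => ?_
        exact hs₀ α β s (hsle α β) (F α) (F β) (C α) (C β) (hF α) (hF β) a k y (c α) (z α) (c β)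
          (z β) hk hy (hB.cle α) (hB.zlt α) (hB.cle β) (hB.zlt β)
    _ ≤ ∑ α, ∑ β, K α β * (∑ α, C α) ^ 2 * T := by
        refine Finset.sum_le_sum fun α _ => Finset.sum_le_sum fun β _ => ?_
        refine mul_le_mul_of_nonneg_right ?_ hT0
        rw [mul_assoc, sq]
        refine mul_le_mul_of_nonneg_left ?_ (hK0 α β)
        have hC : ∀ α, C α ≤ ∑ α, C α := fun α =>
          Finset.single_le_sum (f := C) (fun α _ => (hF α).nonneg) (Finset.mem_univ α)
        exact mul_le_mul (hC α) (hC β) (hF β).nonneg ((hF α).nonneg.trans (hC α))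
    _ = (∑ α, ∑ β, K α β) * (∑ α, C α) ^ 2 * T := by
        simp_rw [Finset.sum_mul]

/-- the levels grow at most as fast as the dyadic levels -/
theorem m22_lg_sub {q a b : ℕ} (hq : 2 ≤ q) (hab : a ≤ b) : lg q b - lg q a ≤ b - a := by
  have h1 : q ^ lg q b ≤ 2 ^ b := Nat.pow_log_le_self q (by positivity)
  have h2 : 2 ^ a < q ^ (lg q a + 1) := Nat.lt_pow_succ_log_self (by omega) _
  have h3 : q ^ lg q b < q ^ (lg q a + 1 + (b - a)) := by
    calc q ^ lg q b ≤ 2 ^ b := h1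
      _ = 2 ^ a * 2 ^ (b - a) := by rw [← pow_add]; congr 1; omega
      _ ≤ 2 ^ a * q ^ (b - a) := Nat.mul_le_mul_left _ (Nat.pow_le_pow_left hq _)
      _ < q ^ (lg q a + 1) * q ^ (b - a) := Nat.mul_lt_mul_of_pos_right h2 (by positivity)
      _ = q ^ (lg q a + 1 + (b - a)) := by rw [← pow_add]
  have h4 := (Nat.pow_lt_pow_iff_right (by omega : 1 < q)).mp h3
  omega

/-- the elementary inequality for the Lindeberg condition -/
theorem m22_min (D v : ℝ) : min (D ^ 2) (|D| ^ 3) ≤ 8 * |v| ^ 3 + 4 * (D - v) ^ 2 := by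
  by_cases hD : |D| ≤ 2 * |v|
  · refine (min_le_right _ _).trans ?_
    have h1 : |D| ^ 3 ≤ (2 * |v|) ^ 3 := pow_le_pow_left₀ (abs_nonneg _) hD 3
    have h2 : 0 ≤ 4 * (D - v) ^ 2 := by positivity
    have h3 : (2 * |v|) ^ 3 = 8 * |v| ^ 3 := by ring
    linarith
  · rw [not_le] at hD
    refine (min_le_left _ _).trans ?_
    have h1 : |D| ≤ 2 * |D - v| := by
      have := abs_sub_abs_le_abs_sub D v
      linarith
    have h2 : |D| ^ 2 ≤ (2 * |D - v|) ^ 2 := pow_le_pow_left₀ (abs_nonneg _) h1 2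
    rw [mul_pow, sq_abs, sq_abs] at h2
    have h3 : 0 ≤ 8 * |v| ^ 3 := by positivity
    linarith

/-- M22b: the Lindeberg condition -/
theorem block_lind {q : J → ℕ} (hq : ∀ α, 2 ≤ q α) {m : ℕ} {P : J → ℕ}
    (hP : ∀ α, (P α).Coprime (q α)) (h Y : ℕ) :
    ∃ K : ℝ, 0 ≤ K ∧ ∀ (F : J → ℕ → ℝ) (C : J → ℝ), (∀ α, QR (q α) m (F α) (C α)) →
      ∀ a b k y : ℕ, ∀ c z : J → ℕ, a ≤ b → b ≤ k → y ≤ Y → Bd q h P c z →
      av 2 k (fun n => min ((dav a (XX q h P c z F) (2 ^ k * y + n) -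
        dav b (XX q h P c z F) (2 ^ k * y + n)) ^ 2)
        (|dav a (XX q h P c z F) (2 ^ k * y + n) - dav b (XX q h P c z F) (2 ^ k * y + n)| ^ 3)) ≤
        K * ((∑ α, C α) ^ 2 + (∑ α, C α) ^ 3 * (b - a + 2) ^ 3) := by
  have hd : ∀ α : J, _ := fun α => doob_sq (m := m) (hq α) (hP α) h Y
  choose K hK0 hK using hd
  refine ⟨64 + 4 * (Fintype.card J * ∑ α, K α), ?_, ?_⟩
  · have : 0 ≤ ∑ α, K α := Finset.sum_nonneg fun α _ => hK0 α
    positivity
  intro F C hF a b k y c z hab hbk hy hB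
  set X : J → ℕ → ℝ := fun α n => F α (sd (q α) h (P α) (c α) (z α) n) with hX
  have hdav : ∀ b' n, dav b' (XX q h P c z F) n = ∑ α, dav b' (X α) n := fun b' n =>
    m22_dav_sum Finset.univ b' X n
  set v : J → ℕ → ℝ := fun α n => F α (P α * ((2 ^ k * y + n) / q α ^ lg (q α) a) %
    q α ^ (lg (q α) b - lg (q α) a)) - av (q α) (lg (q α) b - lg (q α) a) (F α) with hv
  have hC0 : ∀ α, 0 ≤ C α := fun α => (hF α).nonneg
  have hS0 : 0 ≤ ∑ α, C α := Finset.sum_nonneg fun α _ => hC0 α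
  have hCle : ∀ α, C α ≤ ∑ α, C α := fun α =>
    Finset.single_le_sum (f := C) (fun α _ => hC0 α) (Finset.mem_univ α)
  have hba : (0 : ℝ) ≤ (b : ℝ) - a := by
    have : (a : ℝ) ≤ b := by exact_mod_cast hab
    linarith
  have hvb : ∀ α n, |v α n| ≤ C α * (2 * ((b : ℝ) - a + 2)) := by
    intro α n
    have hlev : ((lg (q α) b - lg (q α) a : ℕ) : ℝ) ≤ (b : ℝ) - a := by
      have := m22_lg_sub (hq α) hab
      have h2 : ((lg (q α) b - lg (q α) a : ℕ) : ℝ) ≤ ((b - a : ℕ) : ℝ) := by exact_mod_cast this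
      rwa [Nat.cast_sub hab] at h2
    have hb1 : ∀ t < q α ^ (lg (q α) b - lg (q α) a), |F α t| ≤ C α * ((b : ℝ) - a + 2) := by
      intro t ht
      refine ((hF α).growth _ t ht).trans (mul_le_mul_of_nonneg_left ?_ (hC0 α))
      linarith
    have h1 := hb1 _ (Nat.mod_lt (P α * ((2 ^ k * y + n) / q α ^ lg (q α) a))
      (qpow_pos (hq α) (lg (q α) b - lg (q α) a)))
    have h2 := abs_av_le (hq α) hb1
    have h3 := abs_sub (F α (P α * ((2 ^ k * y + n) / q α ^ lg (q α) a) %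
      q α ^ (lg (q α) b - lg (q α) a))) (av (q α) (lg (q α) b - lg (q α) a) (F α))
    calc |v α n| ≤ _ := h3
      _ ≤ C α * ((b : ℝ) - a + 2) + C α * ((b : ℝ) - a + 2) := add_le_add h1 h2
      _ = C α * (2 * ((b : ℝ) - a + 2)) := by ring
  have hvs : ∀ n, |∑ α, v α n| ≤ (∑ α, C α) * (2 * ((b : ℝ) - a + 2)) := by
    intro n
    rw [Finset.sum_mul]
    exact (Finset.abs_sum_le_sum_abs _ _).trans (Finset.sum_le_sum fun α _ => hvb α n)
  have hstep : ∀ n, min ((dav a (XX q h P c z F) (2 ^ k * y + n) -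
        dav b (XX q h P c z F) (2 ^ k * y + n)) ^ 2)
        (|dav a (XX q h P c z F) (2 ^ k * y + n) - dav b (XX q h P c z F) (2 ^ k * y + n)| ^ 3) ≤
      8 * ((∑ α, C α) * (2 * ((b : ℝ) - a + 2))) ^ 3 +
        4 * (Fintype.card J * ∑ α, (dav a (X α) (2 ^ k * y + n) - dav b (X α) (2 ^ k * y + n) -
          v α n) ^ 2) := by
    intro n
    refine (m22_min _ (∑ α, v α n)).trans ?_
    refine add_le_add ?_ ?_
    · exact mul_le_mul_of_nonneg_left (pow_le_pow_left₀ (abs_nonneg _) (hvs n) 3) (by norm_num)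
    · refine mul_le_mul_of_nonneg_left ?_ (by norm_num)
      rw [hdav, hdav, ← Finset.sum_sub_distrib, ← Finset.sum_sub_distrib]
      have := sq_sum_le_card_mul_sum_sq (s := (Finset.univ : Finset J))
        (f := fun α => dav a (X α) (2 ^ k * y + n) - dav b (X α) (2 ^ k * y + n) - v α n)
      rwa [Finset.card_univ] at this
  have hsum : av 2 k (fun n => ∑ α, (dav a (X α) (2 ^ k * y + n) -
      dav b (X α) (2 ^ k * y + n) - v α n) ^ 2) ≤ (∑ α, K α) * (∑ α, C α) ^ 2 := by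
    rw [av_finset_sum, Finset.sum_mul]
    refine Finset.sum_le_sum fun α _ => ?_
    refine (hK α (F α) (C α) (hF α) a b k y (c α) (z α) hab hbk hy (hB.cle α) (hB.zlt α)).trans ?_
    exact mul_le_mul_of_nonneg_left (pow_le_pow_left₀ (hC0 α) (hCle α) 2) (hK0 α)
  refine (av_mono fun n _ => hstep n).trans ?_
  rw [av_add, av_const (by norm_num), av_const_mul, av_const_mul]
  have hcard : (0 : ℝ) ≤ Fintype.card J := by positivity
  have h1 := mul_le_mul_of_nonneg_left hsum hcard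
  have hKs : 0 ≤ ∑ α, K α := Finset.sum_nonneg fun α _ => hK0 α
  have h2 : 0 ≤ (∑ α, C α) ^ 3 * ((b : ℝ) - a + 2) ^ 3 := by positivity
  have h3 : 0 ≤ (Fintype.card J * ∑ α, K α) * ((∑ α, C α) ^ 3 * ((b : ℝ) - a + 2) ^ 3) := by
    positivity
  have h4 : 0 ≤ (∑ α, C α) ^ 2 := by positivity
  have h5 : (64 + 4 * (Fintype.card J * ∑ α, K α)) * ((∑ α, C α) ^ 2 + (∑ α, C α) ^ 3 *
      ((b : ℝ) - a + 2) ^ 3) = 8 * ((∑ α, C α) * (2 * ((b : ℝ) - a + 2))) ^ 3 +
      4 * (Fintype.card J * ((∑ α, K α) * (∑ α, C α) ^ 2)) + 64 * (∑ α, C α) ^ 2 +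
      4 * ((Fintype.card J * ∑ α, K α) * ((∑ α, C α) ^ 3 * ((b : ℝ) - a + 2) ^ 3)) := by ring
  rw [h5]
  linarith

end fam

end Pool.Agent.Lib.MP_3e612f_nt.MB
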