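import Pool.Agent.Lib.MP_3e612f_nt.MMart
import Pool.Agent.Lib.MP_3e612f_nt.MDoob
import Pool.Agent.Lib.MP_3e612f_nt.MVar
import Pool.Agent.Lib.MP_3e612f_nt.QVarUp

/-!
The central limit theorem for the joint law of the values of quasi-additive functions.
-/

set_option autoImplicit false

namespace Pool.Agent.Lib.MP_3e612f_nt.MB

open Filter Topology
open Pool.Agent.Lib.MP_3e612f_nt.QA

/-! ### averages -/

theorem clt_av_sum {J : Type*} [Fintype J] (q k : ℕ) (G : J → ℕ → ℝ) :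
    av q k (fun n => ∑ α, G α n) = ∑ α, av q k (G α) := by
  exact av_finset_sum Finset.univ q k G

/-- the tower property -/
theorem clt_tower {a k : ℕ} (hak : a ≤ k) (y : ℕ) (f : ℕ → ℝ) :
    av 2 k (fun n => dav a f (2 ^ k * y + n)) = av 2 k (fun n => f (2 ^ k * y + n)) := by
  obtain ⟨l, rfl⟩ : ∃ l, k = a + l := ⟨k - a, by omega⟩
  rw [av_split, av_split]
  unfold cnd dav
  have e1 : ∀ s ∈ Finset.range (2 ^ a), ∀ x : ℕ,
      (2 ^ (a + l) * y + (2 ^ a * x + s)) / 2 ^ a = 2 ^ l * y + x := by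
    intro s hs x
    rw [pow_add, show 2 ^ a * 2 ^ l * y + (2 ^ a * x + s) = 2 ^ a * (2 ^ l * y + x) + s by ring,
      Nat.mul_add_div (by positivity), Nat.div_eq_of_lt (Finset.mem_range.1 hs), add_zero]
  have e2 : av 2 a (fun s => av 2 l (fun x => av 2 a (fun s' =>
      f (2 ^ a * ((2 ^ (a + l) * y + (2 ^ a * x + s)) / 2 ^ a) + s')))) =
      av 2 a (fun _ => av 2 l (fun x => av 2 a (fun s' =>
        f (2 ^ a * (2 ^ l * y + x) + s')))) := by
    refine av_congr fun s hs => ?_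
    simp only [e1 s (Finset.mem_range.2 hs)]
  rw [e2, av_const le_rfl, av_swap]
  refine av_congr fun s _ => av_congr fun x _ => ?_
  congr 1
  rw [pow_add]; ring

theorem clt_dav_nonneg {a : ℕ} {f : ℕ → ℝ} (hf : ∀ n, 0 ≤ f n) (n : ℕ) : 0 ≤ dav a f n :=
  av_nonneg fun _ _ => hf _

theorem clt_avc_close {q k : ℕ} (hq : 2 ≤ q) {u v : ℕ → ℂ} {B : ℝ}
    (h : ∀ n, ‖u n - v n‖ ≤ B) : ‖avc q k u - avc q k v‖ ≤ B := by
  unfold avc
  have hq0 : (0 : ℝ) < (q : ℝ) ^ k := qpow_posR hq k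
  rw [← sub_div, ← Finset.sum_sub_distrib, norm_div, norm_pow, Complex.norm_natCast,
    div_le_iff₀ hq0]
  calc ‖∑ n ∈ Finset.range (q ^ k), (u n - v n)‖ ≤ ∑ n ∈ Finset.range (q ^ k), ‖u n - v n‖ :=
        norm_sum_le _ _
    _ ≤ ∑ n ∈ Finset.range (q ^ k), B := Finset.sum_le_sum fun n _ => h n
    _ = B * (q : ℝ) ^ k := by simp [mul_comm]

theorem clt_exp_close (a b : ℝ) :
    ‖Complex.exp (Complex.I * (a : ℂ)) - Complex.exp (Complex.I * (b : ℂ))‖ ≤ |a - b| := by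
  have e : Complex.exp (Complex.I * (a : ℂ)) - Complex.exp (Complex.I * (b : ℂ)) =
      Complex.exp (Complex.I * (b : ℂ)) * (Complex.exp (Complex.I * ((a - b : ℝ) : ℂ)) - 1) := by
    rw [mul_sub, mul_one, ← Complex.exp_add]
    congr 2
    push_cast
    ring
  rw [e, norm_mul]
  have h1 : ‖Complex.exp (Complex.I * (b : ℂ))‖ = 1 := by
    rw [mul_comm]; exact Complex.norm_exp_ofReal_mul_I b
  rw [h1, one_mul]
  exact Real.norm_exp_I_mul_ofReal_sub_one_le

/-! ### the variances -/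

theorem clt_lg_le {q : ℕ} (hq : 2 ≤ q) (a b : ℕ) : lg q (a + b) ≤ lg q a + b := by
  have h0 : 0 < 2 ^ (a + b) := by positivity
  unfold lg
  have h1 : q ^ Nat.log q (2 ^ (a + b)) ≤ 2 ^ (a + b) := Nat.pow_log_le_self q h0.ne'
  have h2 : 2 ^ a < q ^ (Nat.log q (2 ^ a) + 1) := Nat.lt_pow_succ_log_self (by omega) _
  have h3 : q ^ Nat.log q (2 ^ (a + b)) < q ^ (Nat.log q (2 ^ a) + 1 + b) := by
    calc q ^ Nat.log q (2 ^ (a + b)) ≤ 2 ^ (a + b) := h1
      _ = 2 ^ a * 2 ^ b := pow_add _ _ _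
      _ ≤ 2 ^ a * q ^ b := Nat.mul_le_mul_left _ (Nat.pow_le_pow_left hq b)
      _ < q ^ (Nat.log q (2 ^ a) + 1) * q ^ b :=
          Nat.mul_lt_mul_of_pos_right h2 (by positivity)
      _ = _ := by rw [← pow_add]
  have h4 := (Nat.pow_lt_pow_iff_right (by omega : 1 < q)).1 h3
  omega

theorem clt_lg_le_self {q : ℕ} (hq : 2 ≤ q) (a : ℕ) : lg q a ≤ a := by
  have := clt_lg_le hq 0 a
  have h0 : lg q 0 = 0 := by unfold lg; simp
  rw [zero_add, h0, zero_add] at this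
  exact this

theorem clt_wn_le {q : ℕ} (hq : 2 ≤ q) (k₁ W j : ℕ) : wn q k₁ W j ≤ W := by
  unfold wn
  have := clt_lg_le hq (k₁ + W * j) W
  have e : k₁ + W * (j + 1) = k₁ + W * j + W := by ring
  rw [e]
  omega

theorem clt_wn_add (q k₁ W i j : ℕ) : wn q (k₁ + W * i) W j = wn q k₁ W (i + j) := by
  unfold wn
  congr 2 <;> ring

theorem clt_cov_sum {J : Type*} {q k : ℕ} (s : Finset J) (u : J → ℕ → ℝ) :
    ∑ α ∈ s, ∑ β ∈ s, cov q k (u α) (u β) =
      cov q k (fun n => ∑ α ∈ s, u α n) (fun n => ∑ β ∈ s, u β n) := by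
  unfold cov
  have e : (fun n => (∑ α ∈ s, u α n) * (∑ β ∈ s, u β n)) =
      fun n => ∑ α ∈ s, ∑ β ∈ s, u α n * u β n := by
    funext n
    rw [Finset.sum_mul_sum]
  rw [e, av_finset_sum, av_finset_sum, Finset.sum_mul_sum]
  simp only [av_finset_sum, Finset.sum_sub_distrib]

set_option linter.unusedSectionVars false

section fam

variable {J : Type*} [Fintype J] [DecidableEq J]

/-- one term of the variance -/
noncomputable def cltT (q P : J → ℕ) (F : J → ℕ → ℝ) (W k₁ j : ℕ) : ℝ :=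
  ∑ α, ∑ β, if q α = q β then
    cov (q α) (wn (q α) k₁ W j) (fun n => F α (P α * n % q α ^ wn (q α) k₁ W j))
      (fun n => F β (P β * n % q α ^ wn (q α) k₁ W j)) else 0

theorem clt_T_nonneg {q P : J → ℕ} (hq : ∀ α, 2 ≤ q α) (F : J → ℕ → ℝ) (W k₁ j : ℕ) :
    0 ≤ cltT q P F W k₁ j := by
  unfold cltT
  have e : ∑ α, ∑ β, (if q α = q β then
      cov (q α) (wn (q α) k₁ W j) (fun n => F α (P α * n % q α ^ wn (q α) k₁ W j))
        (fun n => F β (P β * n % q α ^ wn (q α) k₁ W j)) else 0) =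
      ∑ v ∈ Finset.univ.image q, ∑ α ∈ Finset.univ.filter (fun α => q α = v),
        ∑ β ∈ Finset.univ.filter (fun α => q α = v),
          cov v (wn v k₁ W j) (fun n => F α (P α * n % v ^ wn v k₁ W j))
            (fun n => F β (P β * n % v ^ wn v k₁ W j)) := by
    rw [← Finset.sum_fiberwise_of_maps_to (s := Finset.univ) (t := Finset.univ.image q)
      (g := q) (fun α _ => Finset.mem_image_of_mem q (Finset.mem_univ α))]
    refine Finset.sum_congr rfl fun v _ => Finset.sum_congr rfl fun α hα => ?_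
    rw [Finset.mem_filter] at hα
    rw [hα.2, Finset.sum_filter]
    refine Finset.sum_congr rfl fun β _ => ?_
    by_cases h : q β = v
    · rw [if_pos h, if_pos h.symm]
    · rw [if_neg h, if_neg (fun h' => h h'.symm)]
  rw [e]
  refine Finset.sum_nonneg fun v hv => ?_
  obtain ⟨α, _, rfl⟩ := Finset.mem_image.1 hv
  rw [clt_cov_sum]
  exact cov_self_nonneg (hq α) _ _

theorem clt_T_add (q P : J → ℕ) (F : J → ℕ → ℝ) (W k₁ i j : ℕ) :
    cltT q P F W (k₁ + W * i) j = cltT q P F W k₁ (i + j) := by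
  unfold cltT
  simp only [clt_wn_add]

theorem clt_VV (q P : J → ℕ) (F : J → ℕ → ℝ) (W k₁ N s : ℕ) :
    VV q P F W k₁ (N * s) = ∑ i ∈ Finset.range N, ∑ j ∈ Finset.range s,
      cltT q P F W (k₁ + W * s * i) j := by
  have h0 : VV q P F W k₁ (N * s) = ∑ j ∈ Finset.range (N * s), cltT q P F W k₁ j := rfl
  rw [h0]
  clear h0
  induction N with
  | zero => simp
  | succ N ih =>
    rw [Nat.succ_mul, Finset.sum_range_add, ih, Finset.sum_range_succ]
    congr 1
    refine Finset.sum_congr rfl fun j _ => ?_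
    rw [show k₁ + W * s * N = k₁ + W * (N * s) by ring, clt_T_add]

theorem clt_T_le {q P : J → ℕ} (hq : ∀ α, 2 ≤ q α) (hP : ∀ α, (P α).Coprime (q α)) {m : ℕ} :
    ∃ K : ℝ, 0 ≤ K ∧ ∀ (F : J → ℕ → ℝ) (C : J → ℝ), (∀ α, QR (q α) m (F α) (C α)) →
      ∀ W k₁ j : ℕ, cltT q P F W k₁ j ≤ K * (∑ α, C α) ^ 2 * W := by
  choose K hK0 hK using fun α => var_le (m := m) (hq α)
  refine ⟨∑ α, K α, Finset.sum_nonneg fun α _ => hK0 α, fun F C hF W k₁ j => ?_⟩
  have hKα : ∀ α, K α ≤ ∑ α, K α := fun α =>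
    Finset.single_le_sum (f := K) (fun α _ => hK0 α) (Finset.mem_univ α)
  set KK := ∑ α, K α with hKK
  have hC : ∀ α, 0 ≤ C α := fun α => (hF α).nonneg
  have hself : ∀ α, ∀ w ≤ W, cov (q α) w (fun n => F α (P α * n % q α ^ w))
      (fun n => F α (P α * n % q α ^ w)) ≤ KK * C α ^ 2 * W := by
    intro α w hw
    have e : cov (q α) w (fun n => F α (P α * n % q α ^ w)) (fun n => F α (P α * n % q α ^ w)) =
        cov (q α) w (F α) (F α) := by
      unfold cov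
      have h1 := av_perm (hq α) (hP α) 0 w (fun n => F α n * F α n)
      have h2 := av_perm (hq α) (hP α) 0 w (F α)
      simp only [add_zero] at h1 h2
      rw [h1, h2]
    rw [e]
    refine (hK α (F α) (C α) (hF α) w).trans ?_
    have hwR : (w : ℝ) ≤ W := by exact_mod_cast hw
    have := hKα α
    have := hK0 α
    have : 0 ≤ KK * C α ^ 2 := mul_nonneg (by linarith) (sq_nonneg _)
    gcongr
  unfold cltT
  have hterm : ∀ α β, (if q α = q β then
      cov (q α) (wn (q α) k₁ W j) (fun n => F α (P α * n % q α ^ wn (q α) k₁ W j))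
        (fun n => F β (P β * n % q α ^ wn (q α) k₁ W j)) else 0) ≤
      C α * C β * (KK * W) := by
    intro α β
    have hKK0 : 0 ≤ KK := Finset.sum_nonneg fun α _ => hK0 α
    split_ifs with h
    · have hw := clt_wn_le (hq α) k₁ W j
      refine le_trans (le_abs_self _) ((cov_cs (hq α) _ _ _).trans ?_)
      have h1 := hself α _ hw
      have h2 := hself β (wn (q α) k₁ W j) hw
      rw [← h] at h2
      calc _ ≤ Real.sqrt (KK * C α ^ 2 * W) * Real.sqrt (KK * C β ^ 2 * W) := by gcongr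
        _ = Real.sqrt ((C α * C β * (KK * W)) ^ 2) := by
            rw [← Real.sqrt_mul (by positivity)]
            congr 1
            ring
        _ = C α * C β * (KK * W) := Real.sqrt_sq (by have := hC α; have := hC β; positivity)
    · have := hC α
      have := hC β
      positivity
  refine (Finset.sum_le_sum fun α _ => Finset.sum_le_sum fun β _ => hterm α β).trans ?_
  rw [sq, Finset.sum_mul_sum]
  simp only [← Finset.sum_mul]
  exact le_of_eq (by ring)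

/-! ### the first block -/

theorem clt_first {q : J → ℕ} (hq : ∀ α, 2 ≤ q α) {m : ℕ} {P : J → ℕ}
    (hP : ∀ α, (P α).Coprime (q α)) (h Y : ℕ) :
    ∃ K : ℝ, 0 ≤ K ∧ ∀ (F : J → ℕ → ℝ) (C : J → ℝ), (∀ α, QR (q α) m (F α) (C α)) →
      ∀ b k y : ℕ, ∀ c z : J → ℕ, b ≤ k → y ≤ Y → Bd q h P c z →
      av 2 k (fun n => |dav b (fun n => (dav 0 (XX q h P c z F) n -
        dav b (XX q h P c z F) n) ^ 2) (2 ^ k * y + n)|) ≤
        K * (∑ α, C α) ^ 2 * (b + 1) ^ 2 := by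
  choose K hK0 hK using fun α => doob_sq (m := m) (hq α) (hP α) h Y
  refine ⟨Fintype.card J * ∑ α, (2 * K α + 8), ?_, ?_⟩
  · have : 0 ≤ ∑ α, (2 * K α + 8) := Finset.sum_nonneg fun α _ => by have := hK0 α; linarith
    positivity
  intro F C hF b k y c z hbk hy hB
  have hC : ∀ α, 0 ≤ C α := fun α => (hF α).nonneg
  have e1 : av 2 k (fun n => |dav b (fun n => (dav 0 (XX q h P c z F) n -
        dav b (XX q h P c z F) n) ^ 2) (2 ^ k * y + n)|) =
      av 2 k (fun n => (dav 0 (XX q h P c z F) (2 ^ k * y + n) -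
        dav b (XX q h P c z F) (2 ^ k * y + n)) ^ 2) := by
    have e2 : (fun n => |dav b (fun n => (dav 0 (XX q h P c z F) n -
        dav b (XX q h P c z F) n) ^ 2) (2 ^ k * y + n)|) = fun n => dav b (fun n =>
        (dav 0 (XX q h P c z F) n - dav b (XX q h P c z F) n) ^ 2) (2 ^ k * y + n) := by
      funext n
      exact abs_of_nonneg (clt_dav_nonneg (fun n => sq_nonneg _) _)
    rw [e2, clt_tower hbk]
  rw [e1]
  -- linearity
  have elin : ∀ a N, dav a (XX q h P c z F) N =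
      ∑ α, dav a (fun n => F α (sd (q α) h (P α) (c α) (z α) n)) N := by
    intro a N
    unfold dav XX
    rw [clt_av_sum]
  set Dd : J → ℕ → ℝ := fun α n =>
    dav 0 (fun n => F α (sd (q α) h (P α) (c α) (z α) n)) (2 ^ k * y + n) -
      dav b (fun n => F α (sd (q α) h (P α) (c α) (z α) n)) (2 ^ k * y + n) with hDd
  have hone : ∀ α, av 2 k (fun n => Dd α n ^ 2) ≤ (2 * K α + 8) * C α ^ 2 * (b + 1) ^ 2 := by
    intro α
    have h1 := hK α (F α) (C α) (hF α) 0 b k y (c α) (z α) (Nat.zero_le _) hbk hy (hB.cle α)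
      (hB.zlt α)
    set v : ℕ → ℝ := fun n => F α (P α * ((2 ^ k * y + n) / q α ^ lg (q α) 0) %
      q α ^ (lg (q α) b - lg (q α) 0)) - av (q α) (lg (q α) b - lg (q α) 0) (F α) with hv
    have hgr : ∀ x < q α ^ (lg (q α) b - lg (q α) 0), |F α x| ≤ C α * (b + 1) := by
      intro x hx
      refine ((hF α).growth _ x hx).trans ?_
      have h2 : lg (q α) b - lg (q α) 0 ≤ b := (Nat.sub_le _ _).trans (clt_lg_le_self (hq α) b)
      have h3 : ((lg (q α) b - lg (q α) 0 : ℕ) : ℝ) ≤ b := by exact_mod_cast h2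
      have := hC α
      gcongr
    have hvb : ∀ n, |v n| ≤ 2 * (C α * (b + 1)) := by
      intro n
      have h2 : |F α (P α * ((2 ^ k * y + n) / q α ^ lg (q α) 0) %
          q α ^ (lg (q α) b - lg (q α) 0))| ≤ C α * (b + 1) :=
        hgr _ (Nat.mod_lt _ (by have := hq α; positivity))
      have h3 : |av (q α) (lg (q α) b - lg (q α) 0) (F α)| ≤ C α * (b + 1) :=
        abs_av_le (hq α) hgr
      rw [hv]
      calc _ ≤ _ := abs_sub _ _
        _ ≤ 2 * (C α * (b + 1)) := by linarith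
    have h4 : ∀ n < 2 ^ k, Dd α n ^ 2 ≤ 2 * (Dd α n - v n) ^ 2 + 8 * (C α * (b + 1)) ^ 2 := by
      intro n _
      have h5 : v n ^ 2 ≤ (2 * (C α * (b + 1))) ^ 2 := by
        rw [← sq_abs]
        exact pow_le_pow_left₀ (abs_nonneg _) (hvb n) 2
      nlinarith [sq_nonneg (Dd α n - 2 * v n)]
    refine (av_mono h4).trans ?_
    rw [av_add, av_const_mul, av_const le_rfl]
    have h6 : av 2 k (fun n => (Dd α n - v n) ^ 2) ≤ K α * C α ^ 2 := h1
    have h7 : (1 : ℝ) ≤ (b + 1) ^ 2 := by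
      have : (0 : ℝ) ≤ b := Nat.cast_nonneg b
      nlinarith
    have h8 : 0 ≤ K α * C α ^ 2 := mul_nonneg (hK0 α) (sq_nonneg _)
    nlinarith
  have hcs : ∀ n < 2 ^ k, (dav 0 (XX q h P c z F) (2 ^ k * y + n) -
        dav b (XX q h P c z F) (2 ^ k * y + n)) ^ 2 ≤ Fintype.card J * ∑ α, Dd α n ^ 2 := by
    intro n _
    rw [elin, elin, ← Finset.sum_sub_distrib]
    exact sq_sum_le_card_mul_sum_sq
  refine (av_mono hcs).trans ?_
  rw [av_const_mul, clt_av_sum, mul_assoc, mul_assoc]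
  refine mul_le_mul_of_nonneg_left ?_ (Nat.cast_nonneg _)
  rw [Finset.sum_mul]
  refine Finset.sum_le_sum fun α _ => (hone α).trans ?_
  have h9 : C α ≤ ∑ α, C α := Finset.single_le_sum (f := C) (fun α _ => hC α) (Finset.mem_univ α)
  have := hC α
  have := hK0 α
  rw [mul_assoc]
  gcongr

/-! ### the limit theorem -/

/-- the levels -/
def cltb (k₁ V : ℕ) : ℕ → ℕ
  | 0 => 0
  | i + 1 => k₁ + V * i

/-- the block variances -/
noncomputable def cltc (q P : J → ℕ) (F : J → ℕ → ℝ) (W k₁ s : ℕ) : ℕ → ℝ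
  | 0 => 0
  | i + 1 => ∑ j ∈ Finset.range s, cltT q P F W (k₁ + W * s * i) j

/-- a bound for the errors -/
theorem clt_bound {q : J → ℕ} (hq : ∀ α, 2 ≤ q α)
    (hqq : ∀ α β, q α = q β ∨ (q α).Coprime (q β)) {m : ℕ} {P : J → ℕ}
    (hP : ∀ α, (P α).Coprime (q α)) (h Y : ℕ) :
    ∃ K : ℝ, 0 ≤ K ∧ ∀ W : ℕ, 1 ≤ W → (∀ α β, q α * q β ≤ 2 ^ W) → ∃ s₀ : ℕ, ∀ s ≥ s₀,
      ∀ (F : J → ℕ → ℝ) (C : J → ℝ), (∀ α, QR (q α) m (F α) (C α)) → ∀ k y : ℕ,
      ∀ c z : J → ℕ, y ≤ Y → Bd q h P c z → 1 ≤ s →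
      ‖avc 2 k (fun n => Complex.exp (Complex.I * ((∑ α,
          (F α (sd (q α) h (P α) (c α) (z α) (2 ^ k * y + n)) -
            av (q α) (lg (q α) k) (F α)) : ℝ) : ℂ))) -
        Complex.exp ((-VV q P F W (k % (W * s)) (k / (W * s) * s) / 2 : ℝ) : ℂ)‖ ≤
        K * (∑ α, C α) + K * ((∑ α, C α) ^ 2 * (W * s + 2) ^ 2) +
          (k / (W * s) + 1) * (K * (∑ α, C α) ^ 2 + K * (∑ α, C α) ^ 3 * (W * s + 2) ^ 3) +
          (k / (W * s)) * (K * (∑ α, C α) ^ 2 * (s * Real.sqrt (W + 1) + (W + 2) ^ 2) +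
            (s * (K * (∑ α, C α) ^ 2 * W)) ^ 2) := by
  obtain ⟨K1, hK1, hbv⟩ := block_var (m := m) hq hqq hP h Y
  obtain ⟨K2, hK2, hbl⟩ := block_lind (m := m) hq hP h Y
  obtain ⟨K3, hK3, hT⟩ := clt_T_le (m := m) hq hP
  obtain ⟨K4, hK4, hfirst⟩ := clt_first (m := m) hq hP h Y
  choose K5 hK5 hmean using fun α => doob_mean (m := m) (hq α) (hP α) h Y
  set K5s : ℝ := ∑ α, K5 α with hK5s
  have hK5s0 : 0 ≤ K5s := Finset.sum_nonneg fun α _ => hK5 α
  set K : ℝ := K1 + K2 + K3 + K4 + K5s with hK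
  refine ⟨K, by positivity, fun W hW hWq => ?_⟩
  obtain ⟨s₀, hs₀⟩ := hbv W hW hWq
  refine ⟨s₀, fun s hs F C hF k y c z hy hB hs1 => ?_⟩
  have hC : ∀ α, 0 ≤ C α := fun α => (hF α).nonneg
  set A : ℝ := ∑ α, C α with hA
  have hA0 : 0 ≤ A := Finset.sum_nonneg fun α _ => hC α
  have hV : 0 < W * s := Nat.mul_pos hW hs1
  set N := k / (W * s) with hN
  set k₁ := k % (W * s) with hk₁
  have hk : k₁ + W * s * N = k := Nat.mod_add_div k (W * s)
  have hk₁V : k₁ < W * s := Nat.mod_lt _ hV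
  have hbB : cltb k₁ (W * s) (N + 1) = k := hk
  have hblt : ∀ i < N, k₁ + W * s * i + W * s ≤ k := by
    intro i hi
    have : W * s * (i + 1) ≤ W * s * N := Nat.mul_le_mul_left _ hi
    rw [Nat.mul_add, Nat.mul_one] at this
    omega
  set X := XX q h P c z F with hX
  set T0 : ℝ := K2 * (A ^ 2 + A ^ 3 * (W * s + 2) ^ 3) with hT0
  set E0 : ℝ := K4 * A ^ 2 * (W * s + 2) ^ 2 with hE0
  set E1 : ℝ := K1 * A ^ 2 * (s * Real.sqrt (W + 1) + (W + 2) ^ 2) with hE1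
  have hT00 : 0 ≤ T0 := by positivity
  have hE00 : 0 ≤ E0 := by positivity
  have hE10 : 0 ≤ E1 := by positivity
  have hcb : ∀ i, 0 ≤ cltc q P F W k₁ s i ∧ cltc q P F W k₁ s i ≤ s * (K3 * A ^ 2 * W) := by
    intro i
    cases i with
    | zero => exact ⟨le_rfl, by unfold cltc; positivity⟩
    | succ i =>
      refine ⟨Finset.sum_nonneg fun j _ => clt_T_nonneg hq F W _ j, ?_⟩
      calc cltc q P F W k₁ s (i + 1) ≤ ∑ j ∈ Finset.range s, (K3 * A ^ 2 * W) :=
            Finset.sum_le_sum fun j _ => hT F C hF W _ j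
        _ = s * (K3 * A ^ 2 * W) := by simp
  have hmart := expmart (B := N + 1) (b := cltb k₁ (W * s)) rfl (by
      intro j _
      cases j with
      | zero => exact Nat.zero_le _
      | succ j => exact Nat.add_le_add_left (Nat.mul_le_mul_left _ (Nat.le_succ j)) _) X y
    (c := cltc q P F W k₁ s) (ε := fun j => if j = 0 then E0 else E1) (τ := fun _ => T0)
    (fun j _ => (hcb j).1) (by
      intro j hj
      rw [hbB]
      cases j with
      | zero =>
        rw [if_pos rfl]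
        have h1 := hfirst F C hF k₁ k y c z (by omega) hy hB
        have e : cltb k₁ (W * s) (0 + 1) = k₁ := by simp [cltb]
        have e0 : cltb k₁ (W * s) 0 = 0 := rfl
        have ec : cltc q P F W k₁ s 0 = 0 := rfl
        rw [e, e0, ec]
        simp only [sub_zero]
        refine h1.trans ?_
        rw [hE0]
        have h2 : (k₁ : ℝ) + 1 ≤ W * s + 2 := by
          have : (k₁ : ℝ) ≤ (W * s : ℕ) := by exact_mod_cast hk₁V.le
          push_cast at this
          linarith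
        gcongr
      | succ i =>
        rw [if_neg (Nat.succ_ne_zero i)]
        have hi : i < N := by omega
        have h1 := hs₀ s hs F C hF (k₁ + W * s * i) k y c z (hblt i hi) hy hB
        have e : cltb k₁ (W * s) (i + 1 + 1) = k₁ + W * s * i + W * s := by
          simp only [cltb]; ring
        have e0 : cltb k₁ (W * s) (i + 1) = k₁ + W * s * i := rfl
        rw [e, e0]
        exact h1) (by
      intro j hj
      rw [hbB]
      have hle : cltb k₁ (W * s) j ≤ cltb k₁ (W * s) (j + 1) := by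
        cases j with
        | zero => exact Nat.zero_le _
        | succ j => exact Nat.add_le_add_left (Nat.mul_le_mul_left _ (Nat.le_succ j)) _
      have hlek : cltb k₁ (W * s) (j + 1) ≤ k := by
        have : W * s * j ≤ W * s * N := Nat.mul_le_mul_left _ (by omega)
        simp only [cltb]
        omega
      have hdiff : ((cltb k₁ (W * s) (j + 1) : ℕ) : ℝ) - (cltb k₁ (W * s) j : ℕ) ≤ W * s := by
        cases j with
        | zero =>
          simp only [cltb]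
          have : (k₁ : ℝ) ≤ (W * s : ℕ) := by exact_mod_cast hk₁V.le
          push_cast at this ⊢
          simpa using this
        | succ j =>
          simp only [cltb]
          push_cast
          linarith
      have hdiff0 : (0 : ℝ) ≤ ((cltb k₁ (W * s) (j + 1) : ℕ) : ℝ) - (cltb k₁ (W * s) j : ℕ) := by
        have : ((cltb k₁ (W * s) j : ℕ) : ℝ) ≤ (cltb k₁ (W * s) (j + 1) : ℕ) := by
          exact_mod_cast hle
        linarith
      refine (hbl F C hF _ _ k y c z hle hlek hy hB).trans ?_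
      rw [hT0]
      gcongr)
  rw [hbB] at hmart
  -- the sum of the errors
  have herr : ∑ j ∈ Finset.range (N + 1), ((if j = 0 then E0 else E1) + T0 +
      cltc q P F W k₁ s j ^ 2) ≤ E0 + (N + 1) * T0 + N * (E1 + (s * (K3 * A ^ 2 * W)) ^ 2) := by
    rw [Finset.sum_range_succ']
    simp only [if_true, if_neg (Nat.succ_ne_zero _)]
    have h1 : ∑ j ∈ Finset.range N, (E1 + T0 + cltc q P F W k₁ s (j + 1) ^ 2) ≤
        ∑ j ∈ Finset.range N, (E1 + T0 + (s * (K3 * A ^ 2 * W)) ^ 2) := by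
      refine Finset.sum_le_sum fun j _ => ?_
      have := pow_le_pow_left₀ (hcb (j + 1)).1 (hcb (j + 1)).2 2
      linarith
    rw [Finset.sum_const, Finset.card_range, nsmul_eq_mul] at h1
    have h2 : cltc q P F W k₁ s 0 = 0 := rfl
    rw [h2]
    have := h1
    nlinarith
  have hsumc : ∑ j ∈ Finset.range (N + 1), cltc q P F W k₁ s j =
      VV q P F W k₁ (N * s) := by
    rw [clt_VV, Finset.sum_range_succ']
    have h2 : cltc q P F W k₁ s 0 = 0 := rfl
    rw [h2, add_zero]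
    rfl
  rw [hsumc] at hmart
  -- the means
  have hmeans : |dav k X (2 ^ k * y) - ∑ α, av (q α) (lg (q α) k) (F α)| ≤ K5s * A := by
    have e1 : dav k X (2 ^ k * y) =
        ∑ α, av 2 k (fun n => F α (sd (q α) h (P α) (c α) (z α) (2 ^ k * y + n))) := by
      unfold dav
      rw [Nat.mul_div_cancel_left y (by positivity), hX]
      unfold XX
      rw [clt_av_sum]
    rw [e1, ← Finset.sum_sub_distrib]
    refine (Finset.abs_sum_le_sum_abs _ _).trans ?_
    rw [hK5s, Finset.sum_mul]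
    refine Finset.sum_le_sum fun α _ =>
      (hmean α (F α) (C α) (hF α) k y (c α) (z α) hy (hB.cle α) (hB.zlt α)).trans ?_
    refine mul_le_mul_of_nonneg_left ?_ (hK5 α)
    exact Finset.single_le_sum (f := C) (fun α _ => hC α) (Finset.mem_univ α)
  have hclose : ‖avc 2 k (fun n => Complex.exp (Complex.I * ((∑ α,
          (F α (sd (q α) h (P α) (c α) (z α) (2 ^ k * y + n)) -
            av (q α) (lg (q α) k) (F α)) : ℝ) : ℂ))) -
      avc 2 k (fun n => Complex.exp (Complex.I *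
        ((X (2 ^ k * y + n) - dav k X (2 ^ k * y) : ℝ) : ℂ)))‖ ≤ K5s * A := by
    refine clt_avc_close le_rfl fun n => ?_
    refine (clt_exp_close _ _).trans ?_
    have e : ∑ α, (F α (sd (q α) h (P α) (c α) (z α) (2 ^ k * y + n)) -
            av (q α) (lg (q α) k) (F α)) - (X (2 ^ k * y + n) - dav k X (2 ^ k * y)) =
        dav k X (2 ^ k * y) - ∑ α, av (q α) (lg (q α) k) (F α) := by
      rw [Finset.sum_sub_distrib, hX]
      unfold XX
      ring
    rw [e]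
    exact hmeans
  refine (norm_sub_le_norm_sub_add_norm_sub _ (avc 2 k (fun n => Complex.exp (Complex.I *
        ((X (2 ^ k * y + n) - dav k X (2 ^ k * y) : ℝ) : ℂ)))) _).trans ?_
  refine (add_le_add hclose (hmart.trans herr)).trans ?_
  have hNr : ((k / (W * s) : ℕ) : ℝ) ≤ (k : ℝ) / (W * s) := by
    have := @Nat.cast_div_le ℝ _ _ _ k (W * s)
    push_cast at this
    exact this
  rw [← hN] at hNr
  have hKK1 : K1 ≤ K := by rw [hK]; linarith
  have hKK2 : K2 ≤ K := by rw [hK]; linarith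
  have hKK3 : K3 ≤ K := by rw [hK]; linarith
  have hKK4 : K4 ≤ K := by rw [hK]; linarith
  have hKK5 : K5s ≤ K := by rw [hK]; linarith
  have g1 : K5s * A ≤ K * A := by gcongr
  have g2 : E0 ≤ K * (A ^ 2 * (W * s + 2) ^ 2) := by
    rw [hE0, mul_assoc]; gcongr
  have g3 : T0 ≤ K * A ^ 2 + K * A ^ 3 * (W * s + 2) ^ 3 := by
    rw [hT0, mul_assoc K, ← mul_add]; gcongr
  have g4 : E1 ≤ K * A ^ 2 * (s * Real.sqrt (W + 1) + (W + 2) ^ 2) := by
    rw [hE1]; gcongr
  have g5 : (s * (K3 * A ^ 2 * W)) ^ 2 ≤ (s * (K * A ^ 2 * W)) ^ 2 := by gcongr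
  have g6 : ((N : ℝ) + 1) * T0 ≤ ((k : ℝ) / (W * s) + 1) *
      (K * A ^ 2 + K * A ^ 3 * (W * s + 2) ^ 3) := by gcongr
  have g7 : (N : ℝ) * (E1 + (s * (K3 * A ^ 2 * W)) ^ 2) ≤ ((k : ℝ) / (W * s)) *
      (K * A ^ 2 * (s * Real.sqrt (W + 1) + (W + 2) ^ 2) + (s * (K * A ^ 2 * W)) ^ 2) := by
    gcongr
  linarith

/-- M22: the central limit theorem for the joint law -/
theorem clt_left {q : J → ℕ} (hq : ∀ α, 2 ≤ q α)
    (hqq : ∀ α β, q α = q β ∨ (q α).Coprime (q β)) {m : ℕ} {P : J → ℕ}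
    (hP : ∀ α, (P α).Coprime (q α)) (h Y : ℕ) {ε D : ℝ} (hε : 0 < ε) :
    ∃ W₀ : ℕ, ∀ W ≥ W₀, ∃ s₀ : ℕ, ∀ s ≥ s₀, ∀ᶠ k : ℕ in atTop, ∀ y ≤ Y, ∀ c z : J → ℕ,
      Bd q h P c z → ∀ (F : J → ℕ → ℝ) (C : J → ℝ), (∀ α, QR (q α) m (F α) (C α)) →
      (∀ α, C α ≤ D / Real.sqrt (k + 1)) →
      ‖avc 2 k (fun n => Complex.exp (Complex.I * ((∑ α,
          (F α (sd (q α) h (P α) (c α) (z α) (2 ^ k * y + n)) -
            av (q α) (lg (q α) k) (F α)) : ℝ) : ℂ))) -
        Complex.exp ((-VV q P F W (k % (W * s)) (k / (W * s) * s) / 2 : ℝ) : ℂ)‖ ≤ ε := by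
  obtain ⟨K, hK, hb⟩ := clt_bound (m := m) hq hqq hP h Y
  set D' : ℝ := Fintype.card J * |D| with hD'
  have hD0 : 0 ≤ D' := by positivity
  -- the choice of `W`
  obtain ⟨W₁, hW₁⟩ := exists_nat_gt ((6 * K * D' ^ 2 / ε) ^ 2)
  obtain ⟨W₂, hW₂⟩ : ∃ W₂ : ℕ, ∀ α β, q α * q β ≤ 2 ^ W₂ := by
    refine ⟨∑ α, ∑ β, q α * q β, fun α β => ?_⟩
    have h1 : q α * q β ≤ ∑ α, ∑ β, q α * q β :=
      le_trans (Finset.single_le_sum (f := fun β => q α * q β) (fun _ _ => Nat.zero_le _)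
        (Finset.mem_univ β)) (Finset.single_le_sum (f := fun α => ∑ β, q α * q β)
        (fun _ _ => Nat.zero_le _) (Finset.mem_univ α))
    exact h1.trans Nat.lt_two_pow_self.le
  refine ⟨W₁ + W₂ + 1, fun W hW => ?_⟩
  have hW1 : 1 ≤ W := by omega
  have hWR : (1 : ℝ) ≤ W := by exact_mod_cast hW1
  have hWq : ∀ α β, q α * q β ≤ 2 ^ W := fun α β =>
    (hW₂ α β).trans (Nat.pow_le_pow_right (by norm_num) (by omega))
  obtain ⟨s₀, hs₀⟩ := hb W hW1 hWq
  have hmainW : K * D' ^ 2 * (Real.sqrt (W + 1) / W) ≤ ε / 3 := by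
    have h1 : (6 * K * D' ^ 2 / ε) ^ 2 ≤ W := by
      have : (W₁ : ℝ) ≤ W := by exact_mod_cast (by omega : W₁ ≤ W)
      linarith
    have h2 : 6 * K * D' ^ 2 / ε ≤ Real.sqrt W := Real.le_sqrt_of_sq_le h1
    have hsW : 0 < Real.sqrt W := Real.sqrt_pos.2 (by linarith)
    have h3 : Real.sqrt (W + 1) ≤ 2 * Real.sqrt W := by
      rw [show (2 : ℝ) * Real.sqrt W = Real.sqrt (4 * W) by
        rw [Real.sqrt_mul (by norm_num), show (4 : ℝ) = 2 ^ 2 by norm_num,
          Real.sqrt_sq (by norm_num)]]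
      exact Real.sqrt_le_sqrt (by linarith)
    have h4 : Real.sqrt (W + 1) / W ≤ 2 / Real.sqrt W := by
      rw [div_le_div_iff₀ (by linarith) hsW]
      have h5 : Real.sqrt W * Real.sqrt W = W := Real.mul_self_sqrt (by linarith)
      nlinarith
    rw [div_le_iff₀ hε] at h2
    calc K * D' ^ 2 * (Real.sqrt (W + 1) / W) ≤ K * D' ^ 2 * (2 / Real.sqrt W) := by gcongr
      _ ≤ ε / 3 := by
        rw [← mul_div_assoc, div_le_iff₀ hsW]
        linarith
  -- the choice of `s`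
  obtain ⟨s₁, hs₁⟩ := exists_nat_gt (3 * (K * D' ^ 2 * (W + 2) ^ 2 + K * D' ^ 2) / ε)
  refine ⟨s₀ + s₁ + 1, fun s hs => ?_⟩
  have hs1 : 1 ≤ s := by omega
  have hsR : (1 : ℝ) ≤ s := by exact_mod_cast hs1
  have hV : (1 : ℝ) ≤ W * s := by nlinarith
  have hmains : (K * D' ^ 2 * (W + 2) ^ 2 + K * D' ^ 2) / (W * s) ≤ ε / 3 := by
    have h1 : (s₁ : ℝ) ≤ s := by exact_mod_cast (by omega : s₁ ≤ s)
    have h2 : 3 * (K * D' ^ 2 * (W + 2) ^ 2 + K * D' ^ 2) / ε ≤ s := by linarith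
    rw [div_le_iff₀ hε] at h2
    rw [div_le_iff₀ (by linarith)]
    have h3 : (s : ℝ) ≤ W * s := by nlinarith
    have h4 : (s : ℝ) * ε ≤ W * s * ε := mul_le_mul_of_nonneg_right h3 hε.le
    linarith
  -- the remaining errors
  set R : ℝ := K * D' + K * (D' ^ 2 * (W * s + 2) ^ 2) +
    (K * D' ^ 2 + 2 * (K * D' ^ 3 * (W * s + 2) ^ 3)) + (s * (K * D' ^ 2 * W)) ^ 2 with hR
  have hR0 : 0 ≤ R := by positivity
  have hlim : Tendsto (fun k : ℕ => R / Real.sqrt (k + 1)) atTop (𝓝 0) := by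
    refine Tendsto.div_atTop tendsto_const_nhds ?_
    refine Real.tendsto_sqrt_atTop.comp ?_
    exact tendsto_atTop_add_const_right _ _ tendsto_natCast_atTop_atTop
  have hev : ∀ᶠ k : ℕ in atTop, R / Real.sqrt (k + 1) ≤ ε / 3 :=
    (hlim.eventually (gt_mem_nhds (by positivity : (0 : ℝ) < ε / 3))).mono fun k hk => hk.le
  filter_upwards [hev] with k hk y hy c z hB F C hF hC
  have hC0 : ∀ α, 0 ≤ C α := fun α => (hF α).nonneg
  refine (hs₀ s (by omega) F C hF k y c z hy hB hs1).trans ?_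
  set A : ℝ := ∑ α, C α with hA
  have hA0 : 0 ≤ A := Finset.sum_nonneg fun α _ => hC0 α
  set r : ℝ := Real.sqrt (k + 1) with hr
  have hk0 : (0 : ℝ) ≤ k := Nat.cast_nonneg k
  have hr1 : 1 ≤ r := by rw [hr]; exact Real.one_le_sqrt.2 (by linarith)
  have hr2 : r ^ 2 = k + 1 := Real.sq_sqrt (by linarith)
  have hAr : A ≤ D' / r := by
    have : ∀ α, C α ≤ |D| / r := fun α => (hC α).trans (by gcongr; exact le_abs_self D)
    calc A ≤ ∑ _α : J, |D| / r := Finset.sum_le_sum fun α _ => this α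
      _ = D' / r := by rw [hD']; simp; ring
  have hA2 : A ^ 2 ≤ D' ^ 2 / r ^ 2 := by
    rw [← div_pow]; exact pow_le_pow_left₀ hA0 hAr 2
  have hA3 : A ^ 3 ≤ D' ^ 3 / r ^ 3 := by
    rw [← div_pow]; exact pow_le_pow_left₀ hA0 hAr 3
  have hinv : r ^ 2 ≥ r := by nlinarith
  have hA2' : A ^ 2 ≤ D' ^ 2 / r := hA2.trans (by gcongr)
  have hA3' : A ^ 3 ≤ D' ^ 3 / r := by
    refine hA3.trans ?_
    have : r ≤ r ^ 3 := by nlinarith
    gcongr
  -- `k * A ^ 2`
  have hkA2 : k * A ^ 2 ≤ D' ^ 2 := by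
    calc k * A ^ 2 ≤ r ^ 2 * (D' ^ 2 / r ^ 2) := by
          have : (k : ℝ) ≤ r ^ 2 := by linarith
          gcongr
      _ = D' ^ 2 := by field_simp
  have hkA3 : k * A ^ 3 ≤ D' ^ 3 / r := by
    calc k * A ^ 3 = (k * A ^ 2) * A := by ring
      _ ≤ D' ^ 2 * (D' / r) := by gcongr
      _ = D' ^ 3 / r := by ring
  have hkA4 : k * A ^ 4 ≤ D' ^ 4 / r := by
    calc k * A ^ 4 = (k * A ^ 2) * A ^ 2 := by ring
      _ ≤ D' ^ 2 * (D' ^ 2 / r) := by gcongr
      _ = D' ^ 4 / r := by ring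
  have hVi : 1 / ((W : ℝ) * s) ≤ 1 := by
    rw [div_le_one (by linarith)]; exact hV
  have hV0 : (0 : ℝ) < W * s := by linarith
  have hW0 : (0 : ℝ) < W := by linarith
  have hs0' : (0 : ℝ) < s := by linarith
  -- term by term
  have t1 : K * A ≤ K * D' / r := by
    rw [mul_div_assoc]; gcongr
  have t2 : K * (A ^ 2 * (W * s + 2) ^ 2) ≤ K * (D' ^ 2 * (W * s + 2) ^ 2) / r := by
    calc K * (A ^ 2 * (W * s + 2) ^ 2) ≤ K * (D' ^ 2 / r * (W * s + 2) ^ 2) := by gcongr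
      _ = _ := by ring
  have t3 : (k / (W * s) + 1) * (K * A ^ 2 + K * A ^ 3 * (W * s + 2) ^ 3) ≤
      K * D' ^ 2 / (W * s) + (K * D' ^ 2 + 2 * (K * D' ^ 3 * (W * s + 2) ^ 3)) / r := by
    have a1 : k / (W * s) * (K * A ^ 2) ≤ K * D' ^ 2 / (W * s) := by
      calc k / (W * s) * (K * A ^ 2) = K * (k * A ^ 2) / (W * s) := by ring
        _ ≤ K * D' ^ 2 / (W * s) := by gcongr
    have a2 : k / (W * s) * (K * A ^ 3 * (W * s + 2) ^ 3) ≤ K * D' ^ 3 * (W * s + 2) ^ 3 / r := by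
      calc k / (W * s) * (K * A ^ 3 * (W * s + 2) ^ 3) =
            (1 / (W * s)) * (K * (k * A ^ 3) * (W * s + 2) ^ 3) := by ring
        _ ≤ 1 * (K * (D' ^ 3 / r) * (W * s + 2) ^ 3) := by gcongr
        _ = _ := by ring
    have a3 : K * A ^ 2 ≤ K * D' ^ 2 / r := by
      rw [mul_div_assoc]; gcongr
    have a4 : K * A ^ 3 * (W * s + 2) ^ 3 ≤ K * D' ^ 3 * (W * s + 2) ^ 3 / r := by
      calc K * A ^ 3 * (W * s + 2) ^ 3 ≤ K * (D' ^ 3 / r) * (W * s + 2) ^ 3 := by gcongr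
        _ = _ := by ring
    have a5 : (K * D' ^ 2 + 2 * (K * D' ^ 3 * (W * s + 2) ^ 3)) / r =
        K * D' ^ 2 / r + 2 * (K * D' ^ 3 * (W * s + 2) ^ 3 / r) := by ring
    rw [a5]
    nlinarith
  have t4 : (k / (W * s)) * (K * A ^ 2 * (s * Real.sqrt (W + 1) + (W + 2) ^ 2) +
      (s * (K * A ^ 2 * W)) ^ 2) ≤ K * D' ^ 2 * (Real.sqrt (W + 1) / W) +
      K * D' ^ 2 * (W + 2) ^ 2 / (W * s) + (s * (K * D' ^ 2 * W)) ^ 2 / r := by
    have a1 : k / (W * s) * (K * A ^ 2 * (s * Real.sqrt (W + 1))) ≤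
        K * D' ^ 2 * (Real.sqrt (W + 1) / W) := by
      calc k / (W * s) * (K * A ^ 2 * (s * Real.sqrt (W + 1))) =
            K * (k * A ^ 2) * (Real.sqrt (W + 1) / W) := by field_simp
        _ ≤ K * D' ^ 2 * (Real.sqrt (W + 1) / W) := by gcongr
    have a2 : k / (W * s) * (K * A ^ 2 * (W + 2) ^ 2) ≤
        K * D' ^ 2 * (W + 2) ^ 2 / (W * s) := by
      calc k / (W * s) * (K * A ^ 2 * (W + 2) ^ 2) =
            K * (k * A ^ 2) * (W + 2) ^ 2 / (W * s) := by ring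
        _ ≤ K * D' ^ 2 * (W + 2) ^ 2 / (W * s) := by gcongr
    have a3 : k / (W * s) * (s * (K * A ^ 2 * W)) ^ 2 ≤ (s * (K * D' ^ 2 * W)) ^ 2 / r := by
      calc k / (W * s) * (s * (K * A ^ 2 * W)) ^ 2 =
            (1 / (W * s)) * (s ^ 2 * K ^ 2 * W ^ 2 * (k * A ^ 4)) := by ring
        _ ≤ 1 * (s ^ 2 * K ^ 2 * W ^ 2 * (D' ^ 4 / r)) := by gcongr
        _ = _ := by ring
    calc _ = k / (W * s) * (K * A ^ 2 * (s * Real.sqrt (W + 1))) +
          k / (W * s) * (K * A ^ 2 * (W + 2) ^ 2) + k / (W * s) * (s * (K * A ^ 2 * W)) ^ 2 := by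
            ring
      _ ≤ _ := add_le_add (add_le_add a1 a2) a3
  have hsum : R / r = K * D' / r + K * (D' ^ 2 * (W * s + 2) ^ 2) / r +
      (K * D' ^ 2 + 2 * (K * D' ^ 3 * (W * s + 2) ^ 3)) / r + (s * (K * D' ^ 2 * W)) ^ 2 / r := by
    rw [hR]; ring
  have hsplit : (K * D' ^ 2 * (W + 2) ^ 2 + K * D' ^ 2) / (W * s) =
      K * D' ^ 2 * (W + 2) ^ 2 / (W * s) + K * D' ^ 2 / (W * s) := by ring
  rw [hsum] at hk
  rw [hsplit] at hmains
  linarith

end fam

end Pool.Agent.Lib.MP_3e612f_nt.MB
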