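import Mathlib

/-!
The discrepancy of a rotation by an angle which is not close to rational numbers with small
denominators.
-/

set_option autoImplicit false

namespace Pool.Agent.Lib.MP_3e612f_nt.MB

/-- a period of a rotation by nearly `v' / v`: upper bound -/
theorem rot_upper {v : ℕ} (hv : 0 < v) {v' : ℤ} (hc : IsCoprime (v : ℤ) v') {α : ℝ}
    (hα : |v * α - v'| ≤ 1 / v) (y : ℝ) {β γ : ℝ} (hβγ : β ≤ γ) :
    (((Finset.range v).filter (fun j : ℕ => β ≤ Int.fract (y + j * α) ∧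
      Int.fract (y + j * α) < γ)).card : ℝ) ≤ v * (γ - β) + 3 := by
  have hvR : (0 : ℝ) < v := by exact_mod_cast hv
  set f : ℕ → ℤ := fun j => (j : ℤ) * v' - v * ⌊y + j * α⌋ with hf
  set a : ℤ := ⌈v * β - v * y - 1⌉ with ha
  set b : ℤ := ⌊v * γ - v * y + 1⌋ with hb
  have hcard : ((Finset.range v).filter (fun j : ℕ => β ≤ Int.fract (y + j * α) ∧
      Int.fract (y + j * α) < γ)).card ≤ (Finset.Icc a b).card := by
    refine Finset.card_le_card_of_injOn f ?_ ?_
    · intro j hj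
      simp only [Finset.coe_filter, Finset.mem_range, Set.mem_ofPred_eq] at hj
      obtain ⟨hjv, h1, h2⟩ := hj
      have hjv' : (j : ℝ) ≤ v := by exact_mod_cast hjv.le
      have hj0 : (0 : ℝ) ≤ j := Nat.cast_nonneg j
      have e : (f j : ℝ) = v * Int.fract (y + j * α) - v * y - j * (v * α - v') := by
        have := Int.self_sub_floor (y + j * α)
        rw [hf]
        push_cast
        rw [← this]
        ring
      have hθ : |(j : ℝ) * (v * α - v')| ≤ 1 := by
        rw [abs_mul, abs_of_nonneg hj0]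
        calc (j : ℝ) * |v * α - v'| ≤ v * (1 / v) :=
              mul_le_mul hjv' hα (abs_nonneg _) hvR.le
          _ = 1 := by field_simp
      obtain ⟨h3, h4⟩ := abs_le.1 hθ
      have h5 : v * β ≤ v * Int.fract (y + j * α) := mul_le_mul_of_nonneg_left h1 hvR.le
      have h6 : v * Int.fract (y + j * α) ≤ v * γ := mul_le_mul_of_nonneg_left h2.le hvR.le
      rw [Finset.coe_Icc, Set.mem_Icc]
      constructor
      · rw [ha, Int.ceil_le, e]; linarith
      · rw [hb, Int.le_floor, e]; linarith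
    · intro j hj j' hj' h
      simp only [Finset.coe_filter, Finset.mem_range, Set.mem_ofPred_eq] at hj hj'
      have h1 : (v : ℤ) ∣ v' * ((j : ℤ) - j') := by
        refine ⟨⌊y + j * α⌋ - ⌊y + j' * α⌋, ?_⟩
        have : (j : ℤ) * v' - v * ⌊y + j * α⌋ = (j' : ℤ) * v' - v * ⌊y + j' * α⌋ := h
        linarith
      have h2 : (v : ℤ) ∣ (j : ℤ) - j' := hc.dvd_of_dvd_mul_left h1
      have h3 : (j : ℤ) - j' = 0 := by
        apply Int.eq_zero_of_abs_lt_dvd h2
        rw [abs_lt]
        constructor <;> omega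
      omega
  have h1 : (((Finset.range v).filter (fun j : ℕ => β ≤ Int.fract (y + j * α) ∧
      Int.fract (y + j * α) < γ)).card : ℝ) ≤ ((Finset.Icc a b).card : ℝ) := by
    exact_mod_cast hcard
  refine h1.trans ?_
  rw [Int.card_Icc]
  have hba : (b : ℝ) - a ≤ v * (γ - β) + 2 := by
    have h2 : (b : ℝ) ≤ v * γ - v * y + 1 := Int.floor_le _
    have h3 : v * β - v * y - 1 ≤ (a : ℝ) := Int.le_ceil _
    linarith
  rcases le_or_gt 0 (b + 1 - a) with h | h
  · have : (((b + 1 - a).toNat : ℤ) : ℝ) = b + 1 - a := by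
      rw [Int.toNat_of_nonneg h]; push_cast; ring
    have h4 : (((b + 1 - a).toNat : ℕ) : ℝ) = b + 1 - a := by exact_mod_cast this
    rw [h4]; linarith
  · rw [Int.toNat_of_nonpos h.le]
    have : 0 ≤ v * (γ - β) := mul_nonneg hvR.le (by linarith)
    simp; linarith

/-- a period of a rotation by nearly `v' / v` -/
theorem rot_block {v : ℕ} (hv : 0 < v) {v' : ℤ} (hc : IsCoprime (v : ℤ) v') {α : ℝ}
    (hα : |v * α - v'| ≤ 1 / v) (y : ℝ) {β γ : ℝ} (hβ : 0 ≤ β) (hβγ : β ≤ γ) (hγ : γ ≤ 1) :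
    |(∑ j ∈ Finset.range v, (if β ≤ Int.fract (y + j * α) ∧ Int.fract (y + j * α) < γ
      then (1 : ℝ) else 0)) - v * (γ - β)| ≤ 6 := by
  have key : ∀ β γ : ℝ, β ≤ γ → ∑ j ∈ Finset.range v, (if β ≤ Int.fract (y + j * α) ∧
      Int.fract (y + j * α) < γ then (1 : ℝ) else 0) ≤ v * (γ - β) + 3 := by
    intro β γ h
    have := rot_upper hv hc hα y h
    rw [Finset.card_filter, Nat.cast_sum] at this
    refine le_trans (le_of_eq (Finset.sum_congr rfl fun j _ => ?_)) this
    split_ifs <;> simp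
  have h1 := key β γ hβγ
  have h2 := key 0 β hβ
  have h3 := key γ 1 hγ
  have h4 : ∑ j ∈ Finset.range v, (if β ≤ Int.fract (y + j * α) ∧ Int.fract (y + j * α) < γ
      then (1 : ℝ) else 0) + ∑ j ∈ Finset.range v, (if 0 ≤ Int.fract (y + j * α) ∧
      Int.fract (y + j * α) < β then (1 : ℝ) else 0) +
      ∑ j ∈ Finset.range v, (if γ ≤ Int.fract (y + j * α) ∧
      Int.fract (y + j * α) < 1 then (1 : ℝ) else 0) = v := by
    rw [← Finset.sum_add_distrib, ← Finset.sum_add_distrib]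
    have : ∀ j ∈ Finset.range v, ((if β ≤ Int.fract (y + j * α) ∧ Int.fract (y + j * α) < γ
      then (1 : ℝ) else 0) + (if 0 ≤ Int.fract (y + j * α) ∧
      Int.fract (y + j * α) < β then (1 : ℝ) else 0) + (if γ ≤ Int.fract (y + j * α) ∧
      Int.fract (y + j * α) < 1 then (1 : ℝ) else 0)) = 1 := by
      intro j _
      have h0 := Int.fract_nonneg (y + j * α)
      have h1 := Int.fract_lt_one (y + j * α)
      rcases lt_or_ge (Int.fract (y + j * α)) β with h | h
      · rw [if_neg (by rintro ⟨a, _⟩; linarith), if_pos ⟨h0, h⟩,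
          if_neg (by rintro ⟨a, _⟩; linarith)]
        norm_num
      · rcases lt_or_ge (Int.fract (y + j * α)) γ with h' | h'
        · rw [if_pos ⟨h, h'⟩, if_neg (by rintro ⟨_, a⟩; linarith),
            if_neg (by rintro ⟨a, _⟩; linarith)]
          norm_num
        · rw [if_neg (by rintro ⟨_, a⟩; linarith), if_neg (by rintro ⟨_, a⟩; linarith),
            if_pos ⟨h', h1⟩]
          norm_num
    rw [Finset.sum_congr rfl this]
    simp
  rw [abs_le]
  constructor <;> nlinarith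

theorem rot_blocks {v : ℕ} (hv : 0 < v) {v' : ℤ} (hc : IsCoprime (v : ℤ) v') {α : ℝ}
    (hα : |v * α - v'| ≤ 1 / v) (x : ℝ) {β γ : ℝ} (hβ : 0 ≤ β) (hβγ : β ≤ γ) (hγ : γ ≤ 1)
    (b : ℕ) :
    |(∑ t ∈ Finset.range (v * b), (if β ≤ Int.fract (x + t * α) ∧ Int.fract (x + t * α) < γ
      then (1 : ℝ) else 0)) - v * b * (γ - β)| ≤ 6 * b := by
  induction b with
  | zero => simp
  | succ b ih =>
    rw [Nat.mul_succ, Finset.sum_range_add]
    have h := rot_block hv hc hα (x + (v * b : ℕ) * α) hβ hβγ hγ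
    have e : ∀ j : ℕ, x + ((v * b + j : ℕ) : ℝ) * α = x + (v * b : ℕ) * α + j * α := by
      intro j; push_cast; ring
    simp only [e]
    rw [abs_le] at ih h ⊢
    push_cast at ih h ⊢
    constructor <;> nlinarith [ih.1, ih.2, h.1, h.2]

/-- M19: discrepancy of a rotation by an angle which is not close to rationals with small
denominators -/
theorem rotation (M : ℕ) (hM : 1 ≤ M) {κ : ℝ} (hκ : 0 < κ) :
    ∃ T₀ : ℕ, ∀ α : ℝ, (∀ u : ℕ, 1 ≤ u → u ≤ M → ∀ u' : ℤ, κ ≤ |(u : ℝ) * α - u'|) →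
      ∀ T ≥ T₀, ∀ x β γ : ℝ, 0 ≤ β → β ≤ γ → γ ≤ 1 →
        |(((Finset.range T).filter (fun t : ℕ => β ≤ Int.fract (x + t * α) ∧
          Int.fract (x + t * α) < γ)).card : ℝ) / T - (γ - β)| ≤ 10 / M := by
  obtain ⟨Q, hQ⟩ := exists_nat_gt (1 / κ)
  have hMR : (1 : ℝ) ≤ M := by exact_mod_cast hM
  have hQ0 : (0 : ℝ) < Q := lt_trans (by positivity) hQ
  have hQpos : 0 < Q := by exact_mod_cast hQ0
  refine ⟨Q * M, ?_⟩
  intro α hα T hT x β γ hβ hβγ hγ
  obtain ⟨r, hr1, hr2⟩ := Real.exists_rat_abs_sub_le_and_den_le α hQpos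
  set v : ℕ := r.den with hv
  set v' : ℤ := r.num with hv'
  have hvpos : 0 < v := r.den_pos
  have hvR : (0 : ℝ) < v := by exact_mod_cast hvpos
  have hc : IsCoprime (v : ℤ) v' := by
    rw [Int.isCoprime_iff_gcd_eq_one, Int.gcd_comm]
    exact r.reduced
  have hrv : (r : ℝ) = v' / v := by
    rw [hv, hv']; exact_mod_cast (Rat.num_div_den r).symm
  have h1 : |v * α - v'| ≤ 1 / (Q + 1) := by
    have e : v * α - v' = v * (α - r) := by
      rw [hrv]; field_simp
    rw [e, abs_mul, abs_of_pos hvR]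
    calc (v : ℝ) * |α - r| ≤ v * (1 / ((Q + 1) * v)) := mul_le_mul_of_nonneg_left hr1 hvR.le
      _ = 1 / (Q + 1) := by field_simp
  have hκ1 : 1 / ((Q : ℝ) + 1) < κ := by
    rw [div_lt_iff₀ (by positivity)]
    rw [div_lt_iff₀ hκ] at hQ
    nlinarith
  have hvM : M < v := by
    by_contra h
    have := hα v hvpos (by omega) v'
    linarith
  have hvMR : (M : ℝ) ≤ v := by exact_mod_cast hvM.le
  have hvQ : (v : ℝ) ≤ Q := by exact_mod_cast hr2
  have h2 : |v * α - v'| ≤ 1 / v := by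
    refine h1.trans (one_div_le_one_div_of_le hvR (by linarith))
  -- the decomposition
  set b := T / v with hb
  set s := T % v with hs
  have hT' : T = v * b + s := (Nat.div_add_mod T v).symm
  have hsv : s < v := Nat.mod_lt _ hvpos
  set g : ℕ → ℝ := fun t => if β ≤ Int.fract (x + t * α) ∧ Int.fract (x + t * α) < γ
      then (1 : ℝ) else 0 with hg
  have hcard : (((Finset.range T).filter (fun t : ℕ => β ≤ Int.fract (x + t * α) ∧
          Int.fract (x + t * α) < γ)).card : ℝ) = ∑ t ∈ Finset.range T, g t := by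
    rw [Finset.card_filter, Nat.cast_sum]
    refine Finset.sum_congr rfl fun t _ => ?_
    rw [hg]; simp
  have hT0 : 0 < T := lt_of_lt_of_le (Nat.mul_pos hQpos (by omega)) hT
  have hTR : (0 : ℝ) < T := by exact_mod_cast hT0
  have hblocks := rot_blocks hvpos hc h2 x hβ hβγ hγ b
  have hsum : ∑ t ∈ Finset.range T, g t =
      ∑ t ∈ Finset.range (v * b), g t + ∑ t ∈ Finset.range s, g (v * b + t) := by
    rw [← Finset.sum_range_add, ← hT']
  have hrest0 : 0 ≤ ∑ t ∈ Finset.range s, g (v * b + t) :=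
    Finset.sum_nonneg fun t _ => by rw [hg]; positivity
  have hrest1 : ∑ t ∈ Finset.range s, g (v * b + t) ≤ s := by
    have : ∑ t ∈ Finset.range s, g (v * b + t) ≤ ∑ t ∈ Finset.range s, (1 : ℝ) := by
      refine Finset.sum_le_sum fun t _ => ?_
      rw [hg]
      dsimp only
      split_ifs <;> norm_num
    simpa using this
  have hTe : (T : ℝ) = v * b + s := by exact_mod_cast hT'
  have hsR : (s : ℝ) ≤ Q := le_trans (by exact_mod_cast hsv.le) hvQ
  have hs0 : (0 : ℝ) ≤ s := Nat.cast_nonneg s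
  have hb0 : (0 : ℝ) ≤ b := Nat.cast_nonneg b
  have htot : |∑ t ∈ Finset.range T, g t - T * (γ - β)| ≤ 6 * b + s := by
    rw [hsum, hTe]
    have hgb : 0 ≤ γ - β := by linarith
    have hgb1 : γ - β ≤ 1 := by linarith
    have h5 : 0 ≤ s * (γ - β) := mul_nonneg hs0 hgb
    have h6 : s * (γ - β) ≤ s := by nlinarith
    have h7 := abs_le.1 hblocks
    rw [abs_le]
    constructor
    · nlinarith [h7.1, h7.2]
    · nlinarith [h7.1, h7.2]
  rw [hcard]
  have e : (∑ t ∈ Finset.range T, g t) / T - (γ - β) =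
      (∑ t ∈ Finset.range T, g t - T * (γ - β)) / T := by field_simp
  rw [e, abs_div, abs_of_pos hTR, div_le_div_iff₀ hTR (by linarith)]
  have hbT : (M : ℝ) * b ≤ T := by
    rw [hTe]
    nlinarith [mul_le_mul_of_nonneg_right hvMR hb0]
  have hQT : (Q : ℝ) * M ≤ T := by exact_mod_cast hT
  nlinarith [mul_le_mul_of_nonneg_right htot (show (0 : ℝ) ≤ M by linarith),
    mul_le_mul_of_nonneg_right hsR (show (0 : ℝ) ≤ M by linarith)]

end Pool.Agent.Lib.MP_3e612f_nt.MB
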