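import Pool.Agent.Lib.MP_3e612f_nt.MRes
import Pool.Agent.Lib.MP_3e612f_nt.MRot

/-!
M20: windows of digits in coprime bases are nearly uncorrelated at most levels.
-/

set_option autoImplicit false

namespace Pool.Agent.Lib.MP_3e612f_nt.MB

open Filter Topology
open Pool.Agent.Lib.MP_3e612f_nt.QA

private lemma m20_pow_le {q : ℕ} (a : ℕ) : q ^ lg q a ≤ 2 ^ a :=
  Nat.pow_log_le_self q (by positivity)

private lemma m20_lt_pow {q : ℕ} (hq : 2 ≤ q) (a : ℕ) : 2 ^ a < q ^ (lg q a + 1) :=
  Nat.lt_pow_succ_log_self (by omega) _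

private lemma m20_mono {q a b : ℕ} (h : a ≤ b) : lg q a ≤ lg q b :=
  Nat.log_mono_right (Nat.pow_le_pow_right (by norm_num) h)

/-- a digit window in terms of the fractional part -/
private lemma m20_digit {n c b v : ℕ} (hc : 1 ≤ c) (hb : 1 ≤ b) :
    n / c % b = v ↔ (v : ℝ) / b ≤ Int.fract ((n : ℝ) / (c * b)) ∧
      Int.fract ((n : ℝ) / (c * b)) < ((v : ℝ) + 1) / b := by
  have hc' : (0 : ℝ) < c := by exact_mod_cast hc
  have hb' : (0 : ℝ) < b := by exact_mod_cast hb
  have h1 : Int.fract ((n : ℝ) / (c * b)) = ((n % (c * b) : ℕ) : ℝ) / (c * b) := by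
    have := Int.fract_div_natCast_eq_div_natCast_mod (k := ℝ) (m := n) (n := c * b)
    push_cast at this ⊢
    exact this
  rw [h1, ← Nat.mod_mul_right_div_self]
  set r := n % (c * b) with hr
  rw [Nat.div_eq_iff (by omega : 0 < c)]
  have e1 : (v : ℝ) / b ≤ (r : ℝ) / (c * b) ↔ v * c ≤ r := by
    rw [div_le_div_iff₀ hb' (by positivity)]
    constructor
    · intro h
      have h2 : (v : ℝ) * c ≤ r := by
        have : (v * c : ℝ) * b ≤ r * b := by linarith
        exact le_of_mul_le_mul_right this hb'
      exact_mod_cast h2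
    · intro h
      have h2 : (v : ℝ) * c ≤ r := by exact_mod_cast h
      nlinarith
  have e2 : (r : ℝ) / (c * b) < ((v : ℝ) + 1) / b ↔ r < (v + 1) * c := by
    rw [div_lt_div_iff₀ (by positivity) hb']
    constructor
    · intro h
      have h2 : (r : ℝ) < (v + 1) * c := by
        have : (r : ℝ) * b < ((v + 1) * c) * b := by linarith
        exact lt_of_mul_lt_mul_right this hb'.le
      exact_mod_cast h2
    · intro h
      have h2 : (r : ℝ) < (v + 1) * c := by exact_mod_cast h
      nlinarith
  rw [e1, e2]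
  constructor
  · rintro ⟨h2, h3⟩
    refine ⟨h2, ?_⟩
    have : (v + 1) * c = v * c + c := by ring
    omega
  · rintro ⟨h2, h3⟩
    refine ⟨h2, ?_⟩
    have : (v + 1) * c = v * c + c := by ring
    omega

/-- the average over one residue class -/
private lemma m20_inner {Q c b M T : ℕ} (hc : 1 ≤ c) (hb : 1 ≤ b) (hT : 1 ≤ T)
    (hrot : ∀ x β γ : ℝ, 0 ≤ β → β ≤ γ → γ ≤ 1 →
        |(((Finset.range T).filter (fun t : ℕ => β ≤ Int.fract (x + t * ((Q : ℝ) / (c * b))) ∧
          Int.fract (x + t * ((Q : ℝ) / (c * b))) < γ)).card : ℝ) / T - (γ - β)| ≤ 10 / M)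
    (G' : ℕ → ℝ) {A' : ℝ} (hG' : ∀ n, |G' n| ≤ A') (h0 : ∑ v ∈ Finset.range b, G' v = 0)
    (y : ℕ) :
    |∑ t ∈ Finset.range T, G' ((y + Q * t) / c % b)| ≤ A' * b * (10 / M) * T := by
  have hc' : (0 : ℝ) < c := by exact_mod_cast hc
  have hb' : (0 : ℝ) < b := by exact_mod_cast hb
  have hT' : (0 : ℝ) < T := by exact_mod_cast hT
  have hmaps : ∀ t ∈ Finset.range T, (y + Q * t) / c % b ∈ Finset.range b := by
    intro t _
    rw [Finset.mem_range]
    exact Nat.mod_lt _ (by omega)
  have h1 : ∑ t ∈ Finset.range T, G' ((y + Q * t) / c % b) =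
      ∑ v ∈ Finset.range b, (((Finset.range T).filter
        (fun t => (y + Q * t) / c % b = v)).card : ℝ) * G' v := by
    rw [← Finset.sum_fiberwise_of_maps_to hmaps]
    apply Finset.sum_congr rfl
    intro v _
    rw [Finset.sum_congr rfl (g := fun _ => G' v)]
    · rw [Finset.sum_const, nsmul_eq_mul]
    · intro t ht
      rw [Finset.mem_filter] at ht
      rw [ht.2]
  have h2 : ∑ t ∈ Finset.range T, G' ((y + Q * t) / c % b) =
      ∑ v ∈ Finset.range b, ((((Finset.range T).filter
        (fun t => (y + Q * t) / c % b = v)).card : ℝ) - T / b) * G' v := by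
    rw [h1]
    simp only [sub_mul, Finset.sum_sub_distrib]
    rw [← Finset.mul_sum, h0]
    ring
  rw [h2]
  calc |∑ v ∈ Finset.range b, ((((Finset.range T).filter
        (fun t => (y + Q * t) / c % b = v)).card : ℝ) - T / b) * G' v|
      ≤ ∑ v ∈ Finset.range b, |((((Finset.range T).filter
        (fun t => (y + Q * t) / c % b = v)).card : ℝ) - T / b) * G' v| :=
        Finset.abs_sum_le_sum_abs _ _
    _ ≤ ∑ v ∈ Finset.range b, (10 / M * T) * A' := by
        apply Finset.sum_le_sum
        intro v hv
        rw [Finset.mem_range] at hv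
        have hv' : (v : ℝ) + 1 ≤ b := by exact_mod_cast hv
        rw [abs_mul]
        have hA : 0 ≤ A' := (abs_nonneg _).trans (hG' 0)
        apply mul_le_mul _ (hG' v) (abs_nonneg _) (by positivity)
        have h3 := hrot ((y : ℝ) / (c * b)) (v / b) ((v + 1) / b) (by positivity)
          (by gcongr; linarith) (by rw [div_le_one hb']; exact hv')
        have h4 : (Finset.range T).filter (fun t : ℕ => (v : ℝ) / b ≤
            Int.fract ((y : ℝ) / (c * b) + t * ((Q : ℝ) / (c * b))) ∧
            Int.fract ((y : ℝ) / (c * b) + t * ((Q : ℝ) / (c * b))) < ((v : ℝ) + 1) / b) =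
            (Finset.range T).filter (fun t => (y + Q * t) / c % b = v) := by
          apply Finset.filter_congr
          intro t _
          rw [m20_digit hc hb]
          have h5 : (y : ℝ) / (c * b) + t * ((Q : ℝ) / (c * b)) =
              ((y + Q * t : ℕ) : ℝ) / (c * b) := by
            push_cast
            field_simp
          rw [h5]
        rw [h4] at h3
        have h6 : ((v : ℝ) + 1) / b - v / b = 1 / b := by ring
        rw [h6] at h3
        have h7 : ((((Finset.range T).filter
            (fun t => (y + Q * t) / c % b = v)).card : ℝ) - T / b) =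
            ((((Finset.range T).filter
            (fun t => (y + Q * t) / c % b = v)).card : ℝ) / T - 1 / b) * T := by
          field_simp
        rw [h7, abs_mul, abs_of_pos hT']
        exact mul_le_mul_of_nonneg_right h3 hT'.le
    _ = A' * b * (10 / M) * T := by
        rw [Finset.sum_const, Finset.card_range, nsmul_eq_mul]
        ring

/-- one residue class of the range -/
private lemma m20_class {Q X y : ℕ} (hQ : 1 ≤ Q) (hy : y < Q) (hX : Q ≤ X) (f : ℕ → ℝ) :
    ∑ n ∈ (Finset.range X).filter (fun n => n % Q = y), f n =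
      ∑ t ∈ Finset.range ((X - y + Q - 1) / Q), f (y + Q * t) := by
  symm
  apply Finset.sum_bij (fun t _ => y + Q * t)
  · intro t ht
    rw [Finset.mem_range, Nat.lt_iff_add_one_le, Nat.le_div_iff_mul_le (by omega)] at ht
    rw [Finset.mem_filter, Finset.mem_range]
    refine ⟨?_, ?_⟩
    · have : (t + 1) * Q = Q * t + Q := by ring
      omega
    · rw [Nat.add_mul_mod_self_left, Nat.mod_eq_of_lt hy]
  · intro t _ t' _ h
    have : Q * t = Q * t' := by omega
    exact Nat.eq_of_mul_eq_mul_left (by omega) this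
  · intro n hn
    rw [Finset.mem_filter, Finset.mem_range] at hn
    refine ⟨n / Q, ?_, ?_⟩
    · rw [Finset.mem_range, Nat.lt_iff_add_one_le, Nat.le_div_iff_mul_le (by omega)]
      have h1 := Nat.div_add_mod n Q
      have : (n / Q + 1) * Q = Q * (n / Q) + Q := by ring
      omega
    · have h1 := Nat.div_add_mod n Q
      omega
  · intro t _
    rfl

/-- one level -/
private lemma m20_level {Q c b X M T₀ : ℕ} (hQ : 1 ≤ Q) (hc : 1 ≤ c) (hb : 1 ≤ b)
    (hrot : ∀ T ≥ T₀, ∀ x β γ : ℝ, 0 ≤ β → β ≤ γ → γ ≤ 1 →
        |(((Finset.range T).filter (fun t : ℕ => β ≤ Int.fract (x + t * ((Q : ℝ) / (c * b))) ∧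
          Int.fract (x + t * ((Q : ℝ) / (c * b))) < γ)).card : ℝ) / T - (γ - β)| ≤ 10 / M)
    (hX : Q * (T₀ + 2) ≤ X) (g : ℕ → ℝ) {A : ℝ} (hg : ∀ n, |g n| ≤ A)
    (hper : ∀ n t, g (n + Q * t) = g n)
    (G' : ℕ → ℝ) {A' : ℝ} (hG' : ∀ n, |G' n| ≤ A') (h0 : ∑ v ∈ Finset.range b, G' v = 0)
    (u : ℕ) :
    |∑ n ∈ Finset.range X, g (u + n) * G' ((u + n) / c % b)| ≤ A * A' * b * (10 / M) * X := by
  have hA : 0 ≤ A := (abs_nonneg _).trans (hg 0)
  have hA' : 0 ≤ A' := (abs_nonneg _).trans (hG' 0)
  have hQX : Q ≤ X := by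
    have : Q * (T₀ + 2) = Q * T₀ + 2 * Q := by ring
    have h2 : 0 ≤ Q * T₀ := Nat.zero_le _
    omega
  have hmaps : ∀ n ∈ Finset.range X, n % Q ∈ Finset.range Q := by
    intro n _
    rw [Finset.mem_range]
    exact Nat.mod_lt _ (by omega)
  rw [← Finset.sum_fiberwise_of_maps_to hmaps]
  have hcard : ∑ y ∈ Finset.range Q, (((X - y + Q - 1) / Q : ℕ) : ℝ) = X := by
    have h1 : ∑ n ∈ Finset.range X, (1 : ℝ) = X := by simp
    rw [← Finset.sum_fiberwise_of_maps_to hmaps] at h1
    rw [← h1]
    apply Finset.sum_congr rfl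
    intro y hy
    rw [m20_class hQ (Finset.mem_range.mp hy) hQX]
    simp
  calc |∑ y ∈ Finset.range Q, ∑ n ∈ (Finset.range X).filter (fun n => n % Q = y),
        g (u + n) * G' ((u + n) / c % b)|
      ≤ ∑ y ∈ Finset.range Q, |∑ n ∈ (Finset.range X).filter (fun n => n % Q = y),
        g (u + n) * G' ((u + n) / c % b)| := Finset.abs_sum_le_sum_abs _ _
    _ ≤ ∑ y ∈ Finset.range Q, A * (A' * b * (10 / M) * ((X - y + Q - 1) / Q : ℕ)) := by
        apply Finset.sum_le_sum
        intro y hy
        rw [Finset.mem_range] at hy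
        rw [m20_class hQ hy hQX (fun n => g (u + n) * G' ((u + n) / c % b))]
        have h1 : ∀ t, g (u + (y + Q * t)) = g (u + y) := by
          intro t
          rw [← add_assoc, hper]
        have h2 : ∑ t ∈ Finset.range ((X - y + Q - 1) / Q),
            g (u + (y + Q * t)) * G' ((u + (y + Q * t)) / c % b) =
            g (u + y) * ∑ t ∈ Finset.range ((X - y + Q - 1) / Q),
              G' (((u + y) + Q * t) / c % b) := by
          rw [Finset.mul_sum]
          apply Finset.sum_congr rfl
          intro t _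
          rw [h1, ← add_assoc]
        rw [h2, abs_mul]
        have hT : T₀ + 1 ≤ (X - y + Q - 1) / Q := by
          rw [Nat.le_div_iff_mul_le (by omega)]
          have : (T₀ + 1) * Q + Q = Q * (T₀ + 2) := by ring
          omega
        apply mul_le_mul (hg _) _ (abs_nonneg _) hA
        exact m20_inner hc hb (by omega) (hrot _ (by omega)) G' hG' h0 (u + y)
    _ = A * (A' * b * (10 / M)) * ∑ y ∈ Finset.range Q, (((X - y + Q - 1) / Q : ℕ) : ℝ) := by
        rw [Finset.mul_sum]
        apply Finset.sum_congr rfl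
        intro y _
        ring
    _ = A * A' * b * (10 / M) * X := by
        rw [hcard]
        ring

/-- M20: windows of digits in coprime bases are nearly uncorrelated at most levels -/
theorem cross_cov {q q' : ℕ} (hq : 2 ≤ q) (hq' : 2 ≤ q') (hqq : q.Coprime q') {W : ℕ}
    (hW : q * q' ≤ 2 ^ W) {ε : ℝ} (hε : 0 < ε) :
    ∃ s₀ : ℕ, ∀ s ≥ s₀, ∀ (a u : ℕ) (G G' : ℕ → ℕ → ℝ) (A A' : ℝ), 0 ≤ A → 0 ≤ A' →
      (∀ j n, |G j n| ≤ A) → (∀ j n, |G' j n| ≤ A') → (∀ j, av q' (wn q' a W j) (G' j) = 0) →
      ∑ j ∈ Finset.range s, |(∑ n ∈ Finset.range (2 ^ (a + W * s)),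
        G j ((u + n) / q ^ lg q (a + W * j) % q ^ wn q a W j) *
          G' j ((u + n) / q' ^ lg q' (a + W * j) % q' ^ wn q' a W j)) / 2 ^ (a + W * s)| ≤
        ε * s * A * A' := by
  classical
  have hW1 : 1 ≤ W := by
    by_contra h
    have : W = 0 := by omega
    subst this
    have : 2 * 2 ≤ q * q' := Nat.mul_le_mul hq hq'
    simp at hW
    omega
  have hε3 : 0 < ε / 3 := by positivity
  -- the number `M`
  obtain ⟨M, hM⟩ := exists_nat_ge ((q' : ℝ) * 2 ^ W * 10 / (ε / 3))
  have hM0 : (0 : ℝ) < M := by
    refine lt_of_lt_of_le ?_ hM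
    have : (0 : ℝ) < q' := by exact_mod_cast (by omega : 0 < q')
    positivity
  have hM1 : 1 ≤ M := by exact_mod_cast hM0
  have hMb : (q' : ℝ) * 2 ^ W * (10 / M) ≤ ε / 3 := by
    rw [div_le_iff₀ hε3] at hM
    rw [mul_div_assoc', div_le_iff₀ hM0]
    linarith
  obtain ⟨κ, K, hκ, hK, hres⟩ := resonance hq hq' hqq hW M hε3
  obtain ⟨T₀, hT₀⟩ := rotation M hM1 hκ
  obtain ⟨s₀, hs₀⟩ := exists_nat_ge ((K + T₀ + 2) / (ε / 3))
  refine ⟨s₀, ?_⟩
  intro s hs a u G G' A A' hA hA' hG hG' h0
  have hAA : 0 ≤ A * A' := mul_nonneg hA hA'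
  have hs' : K + T₀ + 2 ≤ (ε / 3) * s := by
    rw [div_le_iff₀ hε3] at hs₀
    have : (s₀ : ℝ) ≤ s := by exact_mod_cast hs
    nlinarith
  set bad : ℕ → Prop := fun j => (∃ u : ℕ, 1 ≤ u ∧ u ≤ M ∧ ∃ u' : ℤ,
        |(u : ℝ) * ((q : ℝ) ^ lg q (a + W * (j + 1)) / (q' : ℝ) ^ lg q' (a + W * (j + 1))) - u'| <
          κ) with hbad
  have hterm : ∀ j ∈ Finset.range s, |(∑ n ∈ Finset.range (2 ^ (a + W * s)),
        G j ((u + n) / q ^ lg q (a + W * j) % q ^ wn q a W j) *
          G' j ((u + n) / q' ^ lg q' (a + W * j) % q' ^ wn q' a W j)) / 2 ^ (a + W * s)| ≤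
        A * A' * (ε / 3) + A * A' * (if bad j then 1 else 0) +
          A * A' * (if s < j + T₀ + 3 then 1 else 0) := by
    intro j hj
    rw [Finset.mem_range] at hj
    have hX : (0 : ℝ) < 2 ^ (a + W * s) := by positivity
    have htriv : |(∑ n ∈ Finset.range (2 ^ (a + W * s)),
        G j ((u + n) / q ^ lg q (a + W * j) % q ^ wn q a W j) *
          G' j ((u + n) / q' ^ lg q' (a + W * j) % q' ^ wn q' a W j)) / 2 ^ (a + W * s)| ≤
        A * A' := by
      rw [abs_div, abs_of_pos hX, div_le_iff₀ hX]
      calc _ ≤ ∑ n ∈ Finset.range (2 ^ (a + W * s)),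
          |G j ((u + n) / q ^ lg q (a + W * j) % q ^ wn q a W j) *
          G' j ((u + n) / q' ^ lg q' (a + W * j) % q' ^ wn q' a W j)| :=
            Finset.abs_sum_le_sum_abs _ _
        _ ≤ ∑ n ∈ Finset.range (2 ^ (a + W * s)), A * A' := by
            apply Finset.sum_le_sum
            intro n _
            rw [abs_mul]
            exact mul_le_mul (hG _ _) (hG' _ _) (abs_nonneg _) hA
        _ = A * A' * 2 ^ (a + W * s) := by
            rw [Finset.sum_const, Finset.card_range, nsmul_eq_mul]
            push_cast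
            ring
    have hε0 : 0 ≤ A * A' * (ε / 3) := by positivity
    by_cases hb : bad j
    · rw [if_pos hb]
      have : 0 ≤ A * A' * (if s < j + T₀ + 3 then (1 : ℝ) else 0) := by
        split_ifs <;> simp [hAA]
      linarith
    · rw [if_neg hb]
      by_cases hj2 : s < j + T₀ + 3
      · rw [if_pos hj2]
        linarith
      · rw [if_neg hj2]
        rw [not_lt] at hj2
        simp only [hbad, not_exists, not_and, not_lt] at hb
        have hlq : lg q (a + W * j) + wn q a W j = lg q (a + W * (j + 1)) := by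
          have : lg q (a + W * j) ≤ lg q (a + W * (j + 1)) := m20_mono (by
            have := Nat.mul_le_mul_left W (Nat.le_add_right j 1)
            omega)
          unfold wn
          omega
        have hlq' : lg q' (a + W * j) + wn q' a W j = lg q' (a + W * (j + 1)) := by
          have : lg q' (a + W * j) ≤ lg q' (a + W * (j + 1)) := m20_mono (by
            have := Nat.mul_le_mul_left W (Nat.le_add_right j 1)
            omega)
          unfold wn
          omega
        set Q := q ^ lg q (a + W * (j + 1)) with hQ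
        set c := q' ^ lg q' (a + W * j) with hc
        set b := q' ^ wn q' a W j with hb'
        have hQ1 : 1 ≤ Q := Nat.one_le_pow _ _ (by omega)
        have hc1 : 1 ≤ c := Nat.one_le_pow _ _ (by omega)
        have hb1 : 1 ≤ b := Nat.one_le_pow _ _ (by omega)
        have hcb : (c : ℝ) * b = (q' : ℝ) ^ lg q' (a + W * (j + 1)) := by
          rw [hc, hb']
          push_cast
          rw [← pow_add, hlq']
        have hbW : (b : ℝ) ≤ q' * 2 ^ W := by
          have h1 : c * b ≤ 2 ^ (a + W * (j + 1)) := by
            rw [hc, hb', ← pow_add, hlq']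
            exact m20_pow_le _
          have h2 : 2 ^ (a + W * j) < c * q' := by
            rw [hc, ← pow_succ]
            exact m20_lt_pow hq' _
          have h3 : c * b ≤ c * (q' * 2 ^ W) := by
            calc c * b ≤ 2 ^ (a + W * (j + 1)) := h1
              _ = 2 ^ (a + W * j) * 2 ^ W := by rw [← pow_add]; congr 1; ring
              _ ≤ (c * q') * 2 ^ W := Nat.mul_le_mul_right _ h2.le
              _ = c * (q' * 2 ^ W) := by ring
          have h4 : b ≤ q' * 2 ^ W := Nat.le_of_mul_le_mul_left h3 (by omega)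
          exact_mod_cast h4
        have hXQ : Q * (T₀ + 2) ≤ 2 ^ (a + W * s) := by
          have h1 : Q ≤ 2 ^ (a + W * (j + 1)) := m20_pow_le _
          have h2 : T₀ + 2 ≤ 2 ^ (W * (s - (j + 1))) := by
            have h3 : T₀ + 2 ≤ s - (j + 1) := by omega
            have h4 : s - (j + 1) ≤ W * (s - (j + 1)) := Nat.le_mul_of_pos_left _ (by omega)
            have h5 : W * (s - (j + 1)) < 2 ^ (W * (s - (j + 1))) := Nat.lt_two_pow_self
            omega
          calc Q * (T₀ + 2) ≤ 2 ^ (a + W * (j + 1)) * 2 ^ (W * (s - (j + 1))) :=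
                Nat.mul_le_mul h1 h2
            _ = 2 ^ (a + W * s) := by
                rw [← pow_add]
                congr 1
                have : W * (j + 1) + W * (s - (j + 1)) = W * s := by
                  rw [← Nat.mul_add]
                  congr 1
                  omega
                omega
        have hrot := hT₀ ((Q : ℝ) / (c * b)) (by
          intro v hv1 hv2 v'
          have := hb v hv1 hv2 v'
          rw [hcb, hQ]
          push_cast
          exact this)
        have h00 : ∑ v ∈ Finset.range b, G' j v = 0 := by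
          have := h0 j
          unfold av at this
          rw [div_eq_zero_iff] at this
          rcases this with h | h
          · exact h
          · exfalso
            have : (0 : ℝ) < (q' : ℝ) ^ wn q' a W j := by
              have : (0 : ℝ) < q' := by exact_mod_cast (by omega : 0 < q')
              positivity
            linarith
        have hfin := m20_level hQ1 hc1 hb1 hrot hXQ
          (fun n => G j (n / q ^ lg q (a + W * j) % q ^ wn q a W j)) (fun n => hG j _) (by
            intro n t
            have h1 : Q = q ^ lg q (a + W * j) * q ^ wn q a W j := by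
              rw [hQ, ← pow_add, hlq]
            show G j ((n + Q * t) / q ^ lg q (a + W * j) % q ^ wn q a W j) = _
            rw [h1, mul_assoc, Nat.add_mul_div_left _ _ (Nat.pos_of_ne_zero (by positivity)),
              Nat.add_mul_mod_self_left]) (G' j) (hG' j) h00 u
        rw [abs_div, abs_of_pos hX, div_le_iff₀ hX]
        refine hfin.trans ?_
        push_cast
        have h5 : A * A' * b * (10 / M) ≤ A * A' * (ε / 3) := by
          rw [mul_assoc (A * A')]
          apply mul_le_mul_of_nonneg_left _ hAA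
          calc (b : ℝ) * (10 / M) ≤ (q' * 2 ^ W) * (10 / M) := by gcongr
            _ ≤ ε / 3 := hMb
        nlinarith
  calc _ ≤ ∑ j ∈ Finset.range s, (A * A' * (ε / 3) + A * A' * (if bad j then 1 else 0) +
          A * A' * (if s < j + T₀ + 3 then 1 else 0)) := Finset.sum_le_sum hterm
    _ = A * A' * (ε / 3 * s + ((Finset.range s).filter bad).card +
          ((Finset.range s).filter (fun j => s < j + T₀ + 3)).card) := by
        rw [Finset.sum_add_distrib, Finset.sum_add_distrib, ← Finset.mul_sum, ← Finset.mul_sum,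
          ← Finset.mul_sum, Finset.sum_boole, Finset.sum_boole]
        simp only [Finset.sum_const, Finset.card_range, nsmul_eq_mul]
        ring
    _ ≤ A * A' * (ε * s) := by
        apply mul_le_mul_of_nonneg_left _ hAA
        have h1 : (((Finset.range s).filter bad).card : ℝ) ≤ ε / 3 * s + K := by
          have := hres a s
          convert this using 2
        have h2 : (((Finset.range s).filter (fun j => s < j + T₀ + 3)).card : ℝ) ≤ T₀ + 2 := by
          have h3 : (Finset.range s).filter (fun j => s < j + T₀ + 3) ⊆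
              (Finset.range (T₀ + 2)).image (fun i => s - 1 - i) := by
            intro j hj
            rw [Finset.mem_filter, Finset.mem_range] at hj
            rw [Finset.mem_image]
            refine ⟨s - 1 - j, ?_, ?_⟩
            · rw [Finset.mem_range]
              omega
            · omega
          have h4 := (Finset.card_le_card h3).trans Finset.card_image_le
          rw [Finset.card_range] at h4
          exact_mod_cast h4
        linarith
    _ = ε * s * A * A' := by ring

end Pool.Agent.Lib.MP_3e612f_nt.MB
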