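import Pool.Agent.Lib.MP_3e612f_nt.MDefs

/-!
The exponential martingale on dyadic intervals.
-/

set_option autoImplicit false

namespace Pool.Agent.Lib.MP_3e612f_nt.MB

open Filter Topology
open Pool.Agent.Lib.MP_3e612f_nt.QA

theorem m16_taylor1 {s : ℝ} (hs : |s| = 1) {x : ℝ} (hx : 0 ≤ x) :
    ‖Complex.exp (Complex.I * ((s * x : ℝ) : ℂ)) - 1 - Complex.I * ((s * x : ℝ) : ℂ)‖ ≤
      x ^ 2 / 2 := by
  have h := image_norm_le_of_norm_deriv_right_le_deriv_boundary (a := 0) (b := x)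
    (f := fun t : ℝ => Complex.exp (Complex.I * ((s * t : ℝ) : ℂ)) - 1 -
      Complex.I * ((s * t : ℝ) : ℂ))
    (f' := fun t : ℝ => Complex.exp (Complex.I * ((s * t : ℝ) : ℂ)) * (Complex.I * (s : ℂ)) -
      Complex.I * (s : ℂ))
    (B := fun t => t ^ 2 / 2) (B' := fun t => t) ?_ ?_ ?_ ?_ ?_
  · exact h ⟨hx, le_rfl⟩
  · fun_prop
  · intro t _
    have h1 : HasDerivAt (fun t : ℝ => Complex.I * ((s * t : ℝ) : ℂ)) (Complex.I * (s : ℂ)) t := by
      have h0 : HasDerivAt (fun t : ℝ => ((s * t : ℝ) : ℂ)) ((s * 1 : ℝ) : ℂ) t :=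
        ((hasDerivAt_id t).const_mul s).ofReal_comp
      simpa using h0.const_mul Complex.I
    exact ((h1.cexp.sub_const 1).sub h1).hasDerivWithinAt
  · simp
  · intro t
    have := (hasDerivAt_pow 2 t).div_const 2
    simpa using this
  · intro t ht
    have e : Complex.exp (Complex.I * ((s * t : ℝ) : ℂ)) * (Complex.I * (s : ℂ)) -
        Complex.I * (s : ℂ) =
        (Complex.exp (Complex.I * ((s * t : ℝ) : ℂ)) - 1) * (Complex.I * (s : ℂ)) := by ring
    rw [e, norm_mul, norm_mul, Complex.norm_I, one_mul, Complex.norm_real, Real.norm_eq_abs, hs,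
      mul_one]
    refine Real.norm_exp_I_mul_ofReal_sub_one_le.trans ?_
    rw [Real.norm_eq_abs, abs_mul, hs, one_mul, abs_of_nonneg ht.1]

theorem m16_taylor2 (x : ℝ) :
    ‖Complex.exp (Complex.I * (x : ℂ)) - 1 - Complex.I * (x : ℂ)‖ ≤ x ^ 2 / 2 := by
  rcases le_total 0 x with h | h
  · simpa using m16_taylor1 (s := 1) (by simp) h
  · have := m16_taylor1 (s := -1) (by simp) (x := -x) (by linarith)
    simpa using this

theorem m16_taylor (x : ℝ) :
    ‖Complex.exp (Complex.I * (x : ℂ)) - (1 + Complex.I * (x : ℂ) - ((x ^ 2 / 2 : ℝ) : ℂ))‖ ≤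
      min (x ^ 2) (|x| ^ 3) := by
  have e1 : Complex.exp (Complex.I * (x : ℂ)) - (1 + Complex.I * (x : ℂ) - ((x ^ 2 / 2 : ℝ) : ℂ)) =
      (Complex.exp (Complex.I * (x : ℂ)) - 1 - Complex.I * (x : ℂ)) + ((x ^ 2 / 2 : ℝ) : ℂ) := by
    ring
  refine le_min ?_ ?_
  · rw [e1]
    refine (norm_add_le _ _).trans ?_
    rw [Complex.norm_real, Real.norm_eq_abs, abs_of_nonneg (by positivity : 0 ≤ x ^ 2 / 2)]
    linarith [m16_taylor2 x]
  · rcases le_total |x| 1 with h | h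
    · have h3 := Complex.exp_bound (x := Complex.I * (x : ℂ))
        (by rw [norm_mul, Complex.norm_I, one_mul, Complex.norm_real]; exact h) (n := 3)
        (by norm_num)
      have e2 : ∑ m ∈ Finset.range 3, (Complex.I * (x : ℂ)) ^ m / (m.factorial : ℂ) =
          1 + Complex.I * (x : ℂ) - ((x ^ 2 / 2 : ℝ) : ℂ) := by
        simp only [Finset.sum_range_succ, Finset.range_zero, Finset.sum_empty, Nat.factorial]
        have hI : (Complex.I * (x : ℂ)) ^ 2 = -(x : ℂ) ^ 2 := by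
          rw [mul_pow, Complex.I_sq]; ring
        rw [hI]
        push_cast
        ring
      rw [e2, norm_mul, Complex.norm_I, one_mul, Complex.norm_real, Real.norm_eq_abs] at h3
      refine h3.trans ?_
      have h4 : ((Nat.succ 3 : ℕ) : ℝ) * (((Nat.factorial 3 : ℕ) : ℝ) * (3 : ℕ))⁻¹ ≤ 1 := by
        norm_num [Nat.factorial]
      calc |x| ^ 3 * (((Nat.succ 3 : ℕ) : ℝ) * (((Nat.factorial 3 : ℕ) : ℝ) * (3 : ℕ))⁻¹)
          ≤ |x| ^ 3 * 1 := by gcongr
        _ = |x| ^ 3 := mul_one _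
    · rw [e1]
      refine (norm_add_le _ _).trans ?_
      rw [Complex.norm_real, Real.norm_eq_abs, abs_of_nonneg (by positivity : 0 ≤ x ^ 2 / 2)]
      have h5 : x ^ 2 ≤ |x| ^ 3 := by
        rw [← sq_abs]
        calc |x| ^ 2 = |x| ^ 2 * 1 := (mul_one _).symm
          _ ≤ |x| ^ 2 * |x| := by gcongr
          _ = |x| ^ 3 := by ring
      linarith [m16_taylor2 x]

theorem m16_exp {c : ℝ} (hc : 0 ≤ c) : |Real.exp (-c / 2) - (1 - c / 2)| ≤ c ^ 2 := by
  have h1 : 1 - c / 2 ≤ Real.exp (-c / 2) := by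
    have := Real.add_one_le_exp (-c / 2)
    linarith
  rw [abs_of_nonneg (by linarith)]
  rcases le_total c 1 with h | h
  · have h2 := Real.abs_exp_sub_one_sub_id_le (x := -c / 2) (by
      rw [abs_le]; constructor <;> linarith)
    have h3 := (abs_le.1 h2).2
    nlinarith [sq_nonneg c]
  · have h2 : Real.exp (-c / 2) ≤ 1 := Real.exp_le_one_iff.2 (by linarith)
    nlinarith

theorem m16_sum_mul {M : Type*} [AddCommMonoid M] (a b : ℕ) (u : ℕ → M) :
    ∑ x ∈ Finset.range (a * b), u x =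
      ∑ m ∈ Finset.range b, ∑ i ∈ Finset.range a, u (a * m + i) := by
  induction b with
  | zero => simp
  | succ b ih => rw [Nat.mul_succ, Finset.sum_range_add, ih, Finset.sum_range_succ]

theorem m16_dav_block (b N s : ℕ) (hs : s < 2 ^ b) (f : ℕ → ℝ) :
    dav b f (2 ^ b * N + s) = av 2 b (fun t => f (2 ^ b * N + t)) := by
  unfold dav
  have : (2 ^ b * N + s) / 2 ^ b = N := by
    rw [Nat.mul_add_div (by positivity), Nat.div_eq_of_lt hs, add_zero]
  rw [this]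

theorem m16_cond {b K : ℕ} (hb : b ≤ K) (y : ℕ) (g : ℕ → ℂ) (f : ℕ → ℝ)
    (hg : ∀ n n', n / 2 ^ b = n' / 2 ^ b → g n = g n') :
    ∑ n ∈ Finset.range (2 ^ K), g (2 ^ K * y + n) * ((f (2 ^ K * y + n) : ℝ) : ℂ) =
      ∑ n ∈ Finset.range (2 ^ K), g (2 ^ K * y + n) * ((dav b f (2 ^ K * y + n) : ℝ) : ℂ) := by
  obtain ⟨l, rfl⟩ : ∃ l, K = b + l := ⟨K - b, by omega⟩
  have hN : ∀ n' s, 2 ^ (b + l) * y + (2 ^ b * n' + s) = 2 ^ b * (2 ^ l * y + n') + s := by
    intro n' s; rw [pow_add]; ring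
  rw [pow_add, m16_sum_mul, m16_sum_mul]
  refine Finset.sum_congr rfl fun n' _ => ?_
  rw [← pow_add]
  have hg' : ∀ s ∈ Finset.range (2 ^ b), g (2 ^ b * (2 ^ l * y + n') + s) =
      g (2 ^ b * (2 ^ l * y + n')) := by
    intro s hs
    refine hg _ _ ?_
    rw [Nat.mul_add_div (by positivity), Nat.div_eq_of_lt (Finset.mem_range.1 hs), add_zero,
      Nat.mul_div_cancel_left _ (by positivity)]
  simp only [hN]
  have hL : ∑ s ∈ Finset.range (2 ^ b), g (2 ^ b * (2 ^ l * y + n') + s) *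
        ((f (2 ^ b * (2 ^ l * y + n') + s) : ℝ) : ℂ) = g (2 ^ b * (2 ^ l * y + n')) *
        ∑ s ∈ Finset.range (2 ^ b), ((f (2 ^ b * (2 ^ l * y + n') + s) : ℝ) : ℂ) := by
    rw [Finset.mul_sum]
    exact Finset.sum_congr rfl fun s hs => by rw [hg' s hs]
  have hR : ∑ s ∈ Finset.range (2 ^ b), g (2 ^ b * (2 ^ l * y + n') + s) *
        ((dav b f (2 ^ b * (2 ^ l * y + n') + s) : ℝ) : ℂ) = ∑ s ∈ Finset.range (2 ^ b),
        g (2 ^ b * (2 ^ l * y + n')) *
        ((av 2 b (fun t => f (2 ^ b * (2 ^ l * y + n') + t)) : ℝ) : ℂ) :=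
    Finset.sum_congr rfl fun s hs => by
      rw [hg' s hs, m16_dav_block b _ s (Finset.mem_range.1 hs)]
  rw [hL, hR, ← Finset.mul_sum, Finset.sum_const, Finset.card_range, nsmul_eq_mul]
  congr 1
  unfold av
  push_cast
  have h2 : ((2 : ℂ) ^ b) ≠ 0 := pow_ne_zero _ two_ne_zero
  field_simp

theorem m16_tower {a b : ℕ} (hab : a ≤ b) (X : ℕ → ℝ) (n : ℕ) :
    dav b (dav a X) n = dav b X n := by
  have h := m16_cond hab (n / 2 ^ b) (fun _ => 1) X (fun _ _ _ => rfl)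
  simp only [one_mul] at h
  have h' : ∑ s ∈ Finset.range (2 ^ b), X (2 ^ b * (n / 2 ^ b) + s) =
      ∑ s ∈ Finset.range (2 ^ b), dav a X (2 ^ b * (n / 2 ^ b) + s) := by exact_mod_cast h
  show av 2 b (fun s => dav a X (2 ^ b * (n / 2 ^ b) + s)) =
    av 2 b (fun s => X (2 ^ b * (n / 2 ^ b) + s))
  unfold av
  rw [h']

theorem m16_dav_congr {b : ℕ} (X : ℕ → ℝ) {n n' : ℕ} (h : n / 2 ^ b = n' / 2 ^ b) :
    dav b X n = dav b X n' := by
  unfold dav; rw [h]

theorem m16_dav_zero (X : ℕ → ℝ) (n : ℕ) : dav 0 X n = X n := by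
  unfold dav; rw [av_zero]; simp

theorem m16_dav_diff {a b : ℕ} (hab : a ≤ b) (X : ℕ → ℝ) (n : ℕ) :
    dav b (fun n => dav a X n - dav b X n) n = 0 := by
  have h1 : dav b (fun n => dav a X n - dav b X n) n = dav b (dav a X) n - dav b (dav b X) n := by
    unfold dav
    rw [← av_sub]
  rw [h1, m16_tower hab, m16_tower le_rfl, sub_self]

/-- One step. -/
theorem m16_step {b b' K : ℕ} (hbb : b ≤ b') (hb : b' ≤ K) (X : ℕ → ℝ) (y : ℕ) (μ : ℝ)
    {c ε τ : ℝ} (hc : 0 ≤ c)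
    (h1 : av 2 K (fun n => |dav b' (fun n =>
      (dav b X n - dav b' X n) ^ 2) (2 ^ K * y + n) - c|) ≤ ε)
    (h2 : av 2 K (fun n =>
      min ((dav b X (2 ^ K * y + n) - dav b' X (2 ^ K * y + n)) ^ 2)
        (|dav b X (2 ^ K * y + n) - dav b' X (2 ^ K * y + n)| ^ 3)) ≤ τ) :
    ‖avc 2 K (fun n => Complex.exp (Complex.I * ((dav b X (2 ^ K * y + n) - μ : ℝ) : ℂ))) -
      avc 2 K (fun n => Complex.exp (Complex.I * ((dav b' X (2 ^ K * y + n) - μ : ℝ) : ℂ))) *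
        ((Real.exp (-c / 2) : ℝ) : ℂ)‖ ≤ ε + τ + c ^ 2 := by
  set g : ℕ → ℂ := fun n => Complex.exp (Complex.I * ((dav b' X n - μ : ℝ) : ℂ)) with hg
  set D : ℕ → ℝ := fun n => dav b X n - dav b' X n with hD
  have hgc : ∀ n n', n / 2 ^ b' = n' / 2 ^ b' → g n = g n' := by
    intro n n' h
    simp only [hg]
    rw [m16_dav_congr X h]
  have hgn : ∀ n, ‖g n‖ = 1 := fun n => Complex.norm_exp_I_mul_ofReal _
  have hsplit : ∀ n, Complex.exp (Complex.I * ((dav b X n - μ : ℝ) : ℂ)) =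
      g n * Complex.exp (Complex.I * ((D n : ℝ) : ℂ)) := by
    intro n
    simp only [hg, hD]
    rw [← Complex.exp_add]
    congr 1
    push_cast
    ring
  have h2K : ((2 : ℂ) ^ K) ≠ 0 := pow_ne_zero _ two_ne_zero
  have h2Kr : (0 : ℝ) < (2 : ℝ) ^ K := by positivity
  -- the four parts
  set S : ℕ → ℂ := fun n => Complex.exp (Complex.I * ((D n : ℝ) : ℂ)) -
    (1 + Complex.I * ((D n : ℝ) : ℂ) - (((D n) ^ 2 / 2 : ℝ) : ℂ)) with hS
  have hterm : ∀ n, g n * Complex.exp (Complex.I * ((D n : ℝ) : ℂ)) -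
      g n * ((Real.exp (-c / 2) : ℝ) : ℂ) =
      g n * S n + Complex.I * (g n * ((D n : ℝ) : ℂ)) -
      (1 / 2) * (g n * (((D n) ^ 2 : ℝ) : ℂ) - g n * ((c : ℝ) : ℂ)) +
      g n * (((1 - c / 2) - Real.exp (-c / 2) : ℝ) : ℂ) := by
    intro n
    simp only [hS]
    push_cast
    ring
  have hsum0 : ∑ n ∈ Finset.range (2 ^ K), g (2 ^ K * y + n) * ((D (2 ^ K * y + n) : ℝ) : ℂ) = 0 := by
    rw [m16_cond hb y g D hgc]
    refine Finset.sum_eq_zero fun n _ => ?_
    rw [show dav b' D (2 ^ K * y + n) = 0 from m16_dav_diff hbb X _]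
    simp
  have hsum2 : ∑ n ∈ Finset.range (2 ^ K), (g (2 ^ K * y + n) *
        (((D (2 ^ K * y + n)) ^ 2 : ℝ) : ℂ) - g (2 ^ K * y + n) * ((c : ℝ) : ℂ)) =
      ∑ n ∈ Finset.range (2 ^ K), g (2 ^ K * y + n) *
        ((dav b' (fun n => D n ^ 2) (2 ^ K * y + n) - c : ℝ) : ℂ) := by
    rw [Finset.sum_sub_distrib]
    have := m16_cond hb y g (fun n => D n ^ 2) hgc
    rw [this, ← Finset.sum_sub_distrib]
    refine Finset.sum_congr rfl fun n _ => ?_
    push_cast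
    ring
  have hmain : avc 2 K (fun n => Complex.exp (Complex.I * ((dav b X (2 ^ K * y + n) - μ : ℝ) : ℂ))) -
      avc 2 K (fun n => Complex.exp (Complex.I * ((dav b' X (2 ^ K * y + n) - μ : ℝ) : ℂ))) *
        ((Real.exp (-c / 2) : ℝ) : ℂ) =
      (∑ n ∈ Finset.range (2 ^ K), g (2 ^ K * y + n) * S (2 ^ K * y + n) -
        (1 / 2) * ∑ n ∈ Finset.range (2 ^ K), g (2 ^ K * y + n) *
          ((dav b' (fun n => D n ^ 2) (2 ^ K * y + n) - c : ℝ) : ℂ) +
        ∑ n ∈ Finset.range (2 ^ K), g (2 ^ K * y + n) *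
          (((1 - c / 2) - Real.exp (-c / 2) : ℝ) : ℂ)) / 2 ^ K := by
    unfold avc
    rw [div_mul_eq_mul_div, ← sub_div, Finset.sum_mul, ← Finset.sum_sub_distrib]
    congr 1
    rw [Finset.sum_congr rfl (fun n _ => by rw [hsplit (2 ^ K * y + n)]),
      Finset.sum_congr rfl (g := fun n => g (2 ^ K * y + n) * S (2 ^ K * y + n) +
        Complex.I * (g (2 ^ K * y + n) * ((D (2 ^ K * y + n) : ℝ) : ℂ)) -
        (1 / 2) * (g (2 ^ K * y + n) * (((D (2 ^ K * y + n)) ^ 2 : ℝ) : ℂ) -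
          g (2 ^ K * y + n) * ((c : ℝ) : ℂ)) +
        g (2 ^ K * y + n) * (((1 - c / 2) - Real.exp (-c / 2) : ℝ) : ℂ))
        (fun n _ => hterm (2 ^ K * y + n))]
    rw [Finset.sum_add_distrib, Finset.sum_sub_distrib, Finset.sum_add_distrib,
      ← Finset.mul_sum, ← Finset.mul_sum, hsum0, hsum2]
    ring
  have hn1 : ‖∑ n ∈ Finset.range (2 ^ K), g (2 ^ K * y + n) * S (2 ^ K * y + n)‖ ≤
      τ * 2 ^ K := by
    refine (norm_sum_le _ _).trans ?_
    have : ∑ n ∈ Finset.range (2 ^ K), ‖g (2 ^ K * y + n) * S (2 ^ K * y + n)‖ ≤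
        ∑ n ∈ Finset.range (2 ^ K), min ((D (2 ^ K * y + n)) ^ 2) (|D (2 ^ K * y + n)| ^ 3) := by
      refine Finset.sum_le_sum fun n _ => ?_
      rw [norm_mul, hgn, one_mul]
      exact m16_taylor _
    refine this.trans ?_
    have h3 := h2
    unfold av at h3
    rw [div_le_iff₀ (by positivity)] at h3
    exact_mod_cast h3
  have hn2 : ‖∑ n ∈ Finset.range (2 ^ K), g (2 ^ K * y + n) *
          ((dav b' (fun n => D n ^ 2) (2 ^ K * y + n) - c : ℝ) : ℂ)‖ ≤ ε * 2 ^ K := by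
    refine (norm_sum_le _ _).trans ?_
    have : ∑ n ∈ Finset.range (2 ^ K), ‖g (2 ^ K * y + n) *
          ((dav b' (fun n => D n ^ 2) (2 ^ K * y + n) - c : ℝ) : ℂ)‖ =
        ∑ n ∈ Finset.range (2 ^ K), |dav b' (fun n => D n ^ 2) (2 ^ K * y + n) - c| := by
      refine Finset.sum_congr rfl fun n _ => ?_
      rw [norm_mul, hgn, one_mul, Complex.norm_real, Real.norm_eq_abs]
    rw [this]
    have h3 := h1
    unfold av at h3
    rw [div_le_iff₀ (by positivity)] at h3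
    exact_mod_cast h3
  have hn3 : ‖∑ n ∈ Finset.range (2 ^ K), g (2 ^ K * y + n) *
          (((1 - c / 2) - Real.exp (-c / 2) : ℝ) : ℂ)‖ ≤ c ^ 2 * 2 ^ K := by
    refine (norm_sum_le _ _).trans ?_
    have : ∑ n ∈ Finset.range (2 ^ K), ‖g (2 ^ K * y + n) *
          (((1 - c / 2) - Real.exp (-c / 2) : ℝ) : ℂ)‖ ≤
        ∑ n ∈ Finset.range (2 ^ K), c ^ 2 := by
      refine Finset.sum_le_sum fun n _ => ?_
      rw [norm_mul, hgn, one_mul, Complex.norm_real, Real.norm_eq_abs, abs_sub_comm]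
      exact m16_exp hc
    refine this.trans ?_
    rw [Finset.sum_const, Finset.card_range, nsmul_eq_mul]
    push_cast
    linarith
  have hε : 0 ≤ ε := (av_nonneg (fun n _ => abs_nonneg _)).trans h1
  rw [hmain, norm_div, norm_pow, Complex.norm_ofNat, div_le_iff₀ h2Kr]
  refine (norm_add_le _ _).trans ?_
  refine (add_le_add (norm_sub_le _ _) le_rfl).trans ?_
  rw [norm_mul]
  have h12 : ‖(1 / 2 : ℂ)‖ = 1 / 2 := by norm_num
  rw [h12]
  nlinarith [mul_nonneg hε h2Kr.le]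

/-- M16: the exponential martingale -/
theorem expmart {B : ℕ} {b : ℕ → ℕ} (hb0 : b 0 = 0) (hb : ∀ j < B, b j ≤ b (j + 1)) (X : ℕ → ℝ)
    (y : ℕ) {c ε τ : ℕ → ℝ} (hc : ∀ j < B, 0 ≤ c j)
    (h1 : ∀ j < B, av 2 (b B) (fun n => |dav (b (j + 1)) (fun n =>
      (dav (b j) X n - dav (b (j + 1)) X n) ^ 2) (2 ^ b B * y + n) - c j|) ≤ ε j)
    (h2 : ∀ j < B, av 2 (b B) (fun n =>
      min ((dav (b j) X (2 ^ b B * y + n) - dav (b (j + 1)) X (2 ^ b B * y + n)) ^ 2)
        (|dav (b j) X (2 ^ b B * y + n) - dav (b (j + 1)) X (2 ^ b B * y + n)| ^ 3)) ≤ τ j) :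
    ‖avc 2 (b B) (fun n => Complex.exp (Complex.I *
        ((X (2 ^ b B * y + n) - dav (b B) X (2 ^ b B * y) : ℝ) : ℂ))) -
      Complex.exp ((-(∑ j ∈ Finset.range B, c j) / 2 : ℝ) : ℂ)‖ ≤
      ∑ j ∈ Finset.range B, (ε j + τ j + c j ^ 2) := by
  have hmono : ∀ j ≤ B, b j ≤ b B := by
    intro j hj
    obtain ⟨i, rfl⟩ : ∃ i, B = j + i := ⟨B - j, by omega⟩
    clear h1 h2 hj hc
    induction i with
    | zero => exact le_rfl
    | succ i ih =>
      exact (ih (fun j' hj' => hb j' (by omega))).trans (hb (j + i) (by omega))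
  set K := b B with hK
  set μ := dav K X (2 ^ K * y) with hμ
  set E : ℕ → ℂ := fun j => avc 2 K (fun n =>
    Complex.exp (Complex.I * ((dav (b j) X (2 ^ K * y + n) - μ : ℝ) : ℂ))) with hE
  set w : ℕ → ℝ := fun j => Real.exp (-(∑ i ∈ Finset.range j, c i) / 2) with hw
  have key : ∀ j ≤ B, ‖E 0 - E j * ((w j : ℝ) : ℂ)‖ ≤
      ∑ i ∈ Finset.range j, (ε i + τ i + c i ^ 2) := by
    intro j
    induction j with
    | zero => intro _; simp [hw]
    | succ j ih =>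
      intro hj
      have hstep := m16_step (hb j (by omega)) (hmono (j + 1) hj) X y μ (hc j (by omega))
        (h1 j (by omega)) (h2 j (by omega))
      have hcs : 0 ≤ ∑ i ∈ Finset.range j, c i :=
        Finset.sum_nonneg fun i hi => hc i (by have := Finset.mem_range.1 hi; omega)
      have hwj : ‖((w j : ℝ) : ℂ)‖ ≤ 1 := by
        rw [Complex.norm_real, Real.norm_eq_abs, abs_of_nonneg (Real.exp_pos _).le]
        exact Real.exp_le_one_iff.2 (by linarith)
      have hws : w (j + 1) = w j * Real.exp (-c j / 2) := by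
        simp only [hw]
        rw [← Real.exp_add, Finset.sum_range_succ]
        congr 1
        ring
      have e : E 0 - E (j + 1) * ((w (j + 1) : ℝ) : ℂ) = (E 0 - E j * ((w j : ℝ) : ℂ)) +
          (E j - E (j + 1) * ((Real.exp (-c j / 2) : ℝ) : ℂ)) * ((w j : ℝ) : ℂ) := by
        rw [hws]; push_cast; ring
      rw [e, Finset.sum_range_succ]
      refine (norm_add_le _ _).trans (add_le_add (ih (by omega)) ?_)
      rw [norm_mul]
      calc _ ≤ ‖E j - E (j + 1) * ((Real.exp (-c j / 2) : ℝ) : ℂ)‖ * 1 := by gcongr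
        _ ≤ _ := by rw [mul_one]; exact hstep
  have hkey := key B le_rfl
  have hE0 : E 0 = avc 2 K (fun n => Complex.exp (Complex.I *
        ((X (2 ^ K * y + n) - dav K X (2 ^ K * y) : ℝ) : ℂ))) := by
    simp only [hE, hb0, m16_dav_zero, hμ]
  have hEB : E B = 1 := by
    simp only [hE]
    unfold avc
    rw [Finset.sum_congr rfl (g := fun _ => (1 : ℂ))]
    · rw [Finset.sum_const, Finset.card_range, nsmul_eq_mul]
      push_cast
      have h2 : ((2 : ℂ) ^ K) ≠ 0 := pow_ne_zero _ two_ne_zero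
      field_simp
    · intro n hn
      have : dav (b B) X (2 ^ K * y + n) = μ := by
        rw [hμ, ← hK]
        refine m16_dav_congr X ?_
        rw [Nat.mul_add_div (by positivity), Nat.div_eq_of_lt (Finset.mem_range.1 hn), add_zero,
          Nat.mul_div_cancel_left _ (by positivity)]
      show Complex.exp (Complex.I * ((dav (b B) X (2 ^ K * y + n) - μ : ℝ) : ℂ)) = 1
      rw [this, sub_self]
      simp
  rw [hE0, hEB, one_mul] at hkey
  have hwB : ((w B : ℝ) : ℂ) = Complex.exp ((-(∑ j ∈ Finset.range B, c j) / 2 : ℝ) : ℂ) := by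
    simp only [hw]
    rw [Complex.ofReal_exp]
  rw [hwB] at hkey
  exact hkey

end Pool.Agent.Lib.MP_3e612f_nt.MB
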