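import Pool.Agent.Lib.MP_3e612f_nt.MDoob
import Pool.Agent.Lib.MP_3e612f_nt.MPer
import Pool.Agent.Lib.MP_3e612f_nt.MCross
import Pool.Agent.Lib.MP_3e612f_nt.MMart
import Pool.Agent.Lib.MP_3e612f_nt.QVarUp

/-!
M21: covariances of the increments over a block of windows.
-/

set_option autoImplicit false

namespace Pool.Agent.Lib.MP_3e612f_nt.MB

open Filter Topology
open Pool.Agent.Lib.MP_3e612f_nt.QA

/-! ### windows -/

private lemma m21_wn_le {q : ℕ} (hq : 2 ≤ q) (a W j : ℕ) : wn q a W j ≤ W := by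
  have h1 : q ^ lg q (a + W * (j + 1)) ≤ 2 ^ (a + W * (j + 1)) :=
    Nat.pow_log_le_self q (by positivity)
  have h2 : 2 ^ (a + W * j) < q ^ (lg q (a + W * j) + 1) :=
    Nat.lt_pow_succ_log_self (by omega) _
  have h3 : q ^ lg q (a + W * (j + 1)) < q ^ (lg q (a + W * j) + 1 + W) := by
    calc q ^ lg q (a + W * (j + 1)) ≤ 2 ^ (a + W * (j + 1)) := h1
      _ = 2 ^ (a + W * j) * 2 ^ W := by rw [← pow_add]; congr 1; ring
      _ < q ^ (lg q (a + W * j) + 1) * 2 ^ W := by
          exact Nat.mul_lt_mul_of_pos_right h2 (by positivity)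
      _ ≤ q ^ (lg q (a + W * j) + 1) * q ^ W := by
          exact Nat.mul_le_mul_left _ (Nat.pow_le_pow_left hq W)
      _ = q ^ (lg q (a + W * j) + 1 + W) := by rw [← pow_add]
  have h4 := (Nat.pow_lt_pow_iff_right (by omega : 1 < q)).mp h3
  unfold wn
  omega

private lemma m21_lg_add {q : ℕ} (a W j : ℕ) :
    lg q (a + W * j) + wn q a W j = lg q (a + W * (j + 1)) := by
  have : lg q (a + W * j) ≤ lg q (a + W * (j + 1)) := by
    apply Nat.log_mono_right
    apply Nat.pow_le_pow_right (by norm_num)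
    have := Nat.mul_le_mul_left W (Nat.le_add_right j 1)
    omega
  unfold wn
  omega

private lemma m21_pow_le {q : ℕ} (a : ℕ) : q ^ lg q a ≤ 2 ^ a :=
  Nat.pow_log_le_self q (by positivity)

/-! ### dyadic averages -/

private lemma m21_pull {b : ℕ} (f g : ℕ → ℝ) (hg : ∀ n n', n / 2 ^ b = n' / 2 ^ b → g n = g n')
    (n : ℕ) : dav b (fun n => f n * g n) n = dav b f n * g n := by
  unfold dav
  rw [← av_mul_const]
  apply av_congr
  intro s hs
  have : g (2 ^ b * (n / 2 ^ b) + s) = g n := by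
    apply hg
    rw [Nat.mul_add_div (by positivity), Nat.div_eq_of_lt hs, add_zero]
  show f (2 ^ b * (n / 2 ^ b) + s) * g (2 ^ b * (n / 2 ^ b) + s) = _
  rw [this]

private lemma m21_dav_add (b : ℕ) (f g : ℕ → ℝ) (n : ℕ) :
    dav b (fun n => f n + g n) n = dav b f n + dav b g n := by
  unfold dav
  exact av_add _ _ _ _

private lemma m21_dav_sub (b : ℕ) (f g : ℕ → ℝ) (n : ℕ) :
    dav b (fun n => f n - g n) n = dav b f n - dav b g n := by
  unfold dav
  exact av_sub _ _ _ _

private lemma m21_dav_abs (b : ℕ) (f : ℕ → ℝ) (n : ℕ) :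
    |dav b f n| ≤ dav b (fun n => |f n|) n := by
  unfold dav
  exact abs_av_le_av _ _ _

private lemma m21_dav_sum {ι : Type*} (s : Finset ι) (b : ℕ) (f : ι → ℕ → ℝ) (n : ℕ) :
    dav b (fun n => ∑ i ∈ s, f i n) n = ∑ i ∈ s, dav b (f i) n := by
  unfold dav
  exact av_finset_sum s _ _ _

private lemma m21_const {b b' : ℕ} (h : b ≤ b') (X : ℕ → ℝ) (n n' : ℕ)
    (hn : n / 2 ^ b = n' / 2 ^ b) : dav b X n - dav b' X n = dav b X n' - dav b' X n' := by
  have h1 : n / 2 ^ b' = n' / 2 ^ b' := by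
    obtain ⟨l, rfl⟩ : ∃ l, b' = b + l := ⟨b' - b, by omega⟩
    rw [pow_add, ← Nat.div_div_eq_div_mul, ← Nat.div_div_eq_div_mul, hn]
  rw [m16_dav_congr X hn, m16_dav_congr X h1]

/-- orthogonality of the martingale differences -/
private lemma m21_orth {b : ℕ → ℕ} (hb : ∀ j, b j ≤ b (j + 1)) (X X' : ℕ → ℝ) (s : ℕ) :
    ∀ N : ℕ, dav (b s) (fun n => (dav (b 0) X n - dav (b s) X n) *
      (dav (b 0) X' n - dav (b s) X' n)) N =
      ∑ j ∈ Finset.range s, dav (b s) (fun n => (dav (b j) X n - dav (b (j + 1)) X n) *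
        (dav (b j) X' n - dav (b (j + 1)) X' n)) N := by
  have hmono : ∀ i j, i ≤ j → b i ≤ b j := fun i j h => monotone_nat_of_le_succ hb h
  induction s with
  | zero =>
    intro N
    simp only [sub_self, mul_zero, Finset.range_zero, Finset.sum_empty]
    unfold dav
    rw [av_const le_rfl]
  | succ s ih =>
    intro N
    have hs := hb s
    rw [Finset.sum_range_succ]
    have h1 : dav (b (s + 1)) (fun n => (dav (b 0) X n - dav (b (s + 1)) X n) *
        (dav (b 0) X' n - dav (b (s + 1)) X' n)) N =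
        dav (b (s + 1)) (fun n => (dav (b 0) X n - dav (b s) X n) *
          (dav (b 0) X' n - dav (b s) X' n)) N +
        dav (b (s + 1)) (fun n => (dav (b 0) X n - dav (b s) X n) *
          (dav (b s) X' n - dav (b (s + 1)) X' n)) N +
        dav (b (s + 1)) (fun n => (dav (b 0) X' n - dav (b s) X' n) *
          (dav (b s) X n - dav (b (s + 1)) X n)) N +
        dav (b (s + 1)) (fun n => (dav (b s) X n - dav (b (s + 1)) X n) *
          (dav (b s) X' n - dav (b (s + 1)) X' n)) N := by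
      rw [← m21_dav_add, ← m21_dav_add, ← m21_dav_add]
      congr 1
      funext n
      ring
    have h2 : ∀ Z Z' : ℕ → ℝ, dav (b (s + 1)) (fun n => (dav (b 0) Z n - dav (b s) Z n) *
          (dav (b s) Z' n - dav (b (s + 1)) Z' n)) N = 0 := by
      intro Z Z'
      rw [← m16_tower hs]
      have h3 : dav (b s) (fun n => (dav (b 0) Z n - dav (b s) Z n) *
          (dav (b s) Z' n - dav (b (s + 1)) Z' n)) = fun _ => 0 := by
        funext n
        rw [m21_pull _ _ (fun n n' h => m21_const hs Z' n n' h), m16_dav_diff (hmono 0 s (by omega)),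
          zero_mul]
      rw [h3]
      unfold dav
      rw [av_const le_rfl]
    have h4 : dav (b (s + 1)) (fun n => (dav (b 0) X n - dav (b s) X n) *
          (dav (b 0) X' n - dav (b s) X' n)) N =
        ∑ j ∈ Finset.range s, dav (b (s + 1)) (fun n => (dav (b j) X n - dav (b (j + 1)) X n) *
          (dav (b j) X' n - dav (b (j + 1)) X' n)) N := by
      rw [← m16_tower hs]
      have h5 : dav (b s) (fun n => (dav (b 0) X n - dav (b s) X n) *
          (dav (b 0) X' n - dav (b s) X' n)) = fun n => ∑ j ∈ Finset.range s,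
          dav (b s) (fun n => (dav (b j) X n - dav (b (j + 1)) X n) *
          (dav (b j) X' n - dav (b (j + 1)) X' n)) n := by
        funext n
        exact ih n
      rw [h5, m21_dav_sum]
      apply Finset.sum_congr rfl
      intro j _
      rw [m16_tower hs]
    rw [h1, h2, h2, h4]
    ring

private lemma m21_avdav {B k : ℕ} (hB : B ≤ k) (y : ℕ) (g : ℕ → ℝ) :
    av 2 k (fun n => dav B g (2 ^ k * y + n)) = av 2 k (fun n => g (2 ^ k * y + n)) := by
  have h1 := m16_tower hB g (2 ^ k * y)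
  have h2 := m16_dav_block k y 0 (by positivity) g
  have h3 := m16_dav_block k y 0 (by positivity) (dav B g)
  rw [add_zero] at h2 h3
  rw [← h2, ← h3, h1]

/-- nonnegative functions of a window of digits -/
private lemma m21_dom {q : ℕ} (hq : 2 ≤ q) {l w k : ℕ} (hL : q ^ (l + w) ≤ 2 ^ k) (G : ℕ → ℝ)
    (hG : ∀ n, 0 ≤ G n) (u : ℕ) :
    av 2 k (fun n => G ((u + n) / q ^ l % q ^ w)) ≤ 2 * av q w G := by
  set f : ℕ → ℝ := fun n => G (n / q ^ l % q ^ w) with hf
  set Q := q ^ (l + w) with hQ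
  have hQ1 : 1 ≤ Q := Nat.one_le_pow _ _ (by omega)
  have hper : ∀ n t, f (n + Q * t) = f n := by
    intro n t
    simp only [hf, hQ]
    rw [pow_add, mul_assoc, Nat.add_mul_div_left _ _ (by positivity), Nat.add_mul_mod_self_left]
  have hmod : ∀ n, f (n % Q) = f n := by
    intro n
    conv_rhs => rw [← Nat.mod_add_div n Q]
    rw [hper]
  have hfw : av q (l + w) f = av q w G := by
    rw [av_split]
    have : ∀ s < q ^ l, cnd q w l f s = av q w G := by
      intro s hs
      unfold cnd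
      apply av_congr
      intro x hx
      simp only [hf]
      rw [Nat.mul_add_div (by positivity), Nat.div_eq_of_lt hs, add_zero, Nat.mod_eq_of_lt hx]
    rw [av_congr this, av_const hq]
  have hshift : ∑ n ∈ Finset.range Q, f (u + n) = ∑ n ∈ Finset.range Q, f n := by
    have h1 := av_perm hq (Nat.coprime_one_left q) u (l + w) f
    have h2 : av q (l + w) (fun n => f (u + n)) = av q (l + w) f := by
      rw [← h1]
      apply av_congr
      intro n _
      show f (u + n) = f ((1 * n + u) % q ^ (l + w))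
      rw [← hQ, hmod, one_mul, add_comm]
    unfold av at h2
    rw [div_left_inj' (by have := qpow_posR hq (l + w); exact this.ne')] at h2
    exact h2
  have hf0 : ∀ n, 0 ≤ f n := fun n => hG _
  have hsum : ∑ n ∈ Finset.range (2 ^ k), f (u + n) ≤
      ((2 ^ k / Q + 1 : ℕ) : ℝ) * ∑ n ∈ Finset.range Q, f n := by
    have h1 : 2 ^ k ≤ Q * (2 ^ k / Q + 1) := by
      have := Nat.lt_mul_div_succ (2 ^ k) (by omega : 0 < Q)
      have e : Q * (2 ^ k / Q + 1) = Q * (2 ^ k / Q).succ := rfl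
      omega
    calc ∑ n ∈ Finset.range (2 ^ k), f (u + n)
        ≤ ∑ n ∈ Finset.range (Q * (2 ^ k / Q + 1)), f (u + n) := by
          apply Finset.sum_le_sum_of_subset_of_nonneg
          · exact Finset.range_subset_range.mpr h1
          · intro n _ _
            exact hf0 _
      _ = ∑ m ∈ Finset.range (2 ^ k / Q + 1), ∑ i ∈ Finset.range Q, f (u + i) := by
          rw [m16_sum_mul]
          apply Finset.sum_congr rfl
          intro m _
          apply Finset.sum_congr rfl
          intro i _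
          rw [show u + (Q * m + i) = (u + i) + Q * m by ring, hper]
      _ = _ := by
          rw [hshift, Finset.sum_const, Finset.card_range, nsmul_eq_mul]
  have hQR : (0 : ℝ) < Q := by exact_mod_cast hQ1
  have h2k : (0 : ℝ) < (2 : ℝ) ^ k := by positivity
  have h2 : ((2 ^ k / Q + 1 : ℕ) : ℝ) ≤ 2 * (2 ^ k / Q) := by
    push_cast
    have h3 : ((2 ^ k / Q : ℕ) : ℝ) ≤ (2 : ℝ) ^ k / Q := by
      have := @Nat.cast_div_le ℝ _ _ _ (2 ^ k) Q
      push_cast at this
      exact this
    have h4 : (1 : ℝ) ≤ (2 : ℝ) ^ k / Q := by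
      rw [le_div_iff₀ hQR, one_mul]
      exact_mod_cast hL
    linarith
  have hfs : 0 ≤ ∑ n ∈ Finset.range Q, f n := Finset.sum_nonneg (fun n _ => hf0 n)
  rw [← hfw]
  unfold av
  rw [← hQ]
  push_cast
  rw [div_le_iff₀ h2k]
  calc _ ≤ ((2 ^ k / Q + 1 : ℕ) : ℝ) * ∑ n ∈ Finset.range Q, f n := hsum
    _ ≤ (2 * (2 ^ k / Q)) * ∑ n ∈ Finset.range Q, f n :=
        mul_le_mul_of_nonneg_right h2 hfs
    _ = _ := by
        rw [hQ]
        push_cast
        ring

/-! ### the local functions -/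

/-- the centred function of a window -/
private noncomputable def vv (q P w : ℕ) (F : ℕ → ℝ) (n : ℕ) : ℝ := F (P * n % q ^ w) - av q w F

private lemma m21_vv_mod (q P w : ℕ) (F : ℕ → ℝ) (n : ℕ) :
    vv q P w F (n % q ^ w) = vv q P w F n := by
  unfold vv
  rw [Nat.mul_mod, Nat.mod_mod, ← Nat.mul_mod]

private lemma m21_vv_mean {q P : ℕ} (hq : 2 ≤ q) (hP : P.Coprime q) (w : ℕ) (F : ℕ → ℝ) :
    av q w (vv q P w F) = 0 := by
  unfold vv
  rw [av_sub, av_const hq]
  have := av_perm hq hP 0 w F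
  simp only [add_zero] at this
  rw [this, sub_self]

private lemma m21_vv_sq {q P : ℕ} (hq : 2 ≤ q) (hP : P.Coprime q) (w : ℕ) (F : ℕ → ℝ) :
    av q w (fun n => vv q P w F n ^ 2) = cov q w F F := by
  rw [cov_eq hq]
  have := av_perm hq hP 0 w (fun n => (F n - av q w F) * (F n - av q w F))
  simp only [add_zero] at this
  rw [← this]
  apply av_congr
  intro n _
  unfold vv
  ring

private lemma m21_vv_cov {q P P' : ℕ} (hq : 2 ≤ q) (hP : P.Coprime q) (hP' : P'.Coprime q) (w : ℕ)
    (F F' : ℕ → ℝ) :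
    av q w (fun n => vv q P w F n * vv q P' w F' n) =
      cov q w (fun n => F (P * n % q ^ w)) (fun n => F' (P' * n % q ^ w)) := by
  rw [cov_eq hq]
  have h1 := av_perm hq hP 0 w F
  have h2 := av_perm hq hP' 0 w F'
  simp only [add_zero] at h1 h2
  rw [h1, h2]
  rfl

private lemma m21_vv_abs {q m P : ℕ} (hq : 2 ≤ q) {F : ℕ → ℝ} {C : ℝ} (hF : QR q m F C)
    {w W : ℕ} (hw : w ≤ W) (n : ℕ) : |vv q P w F n| ≤ 2 * C * (W + 1) := by
  have hC := hF.nonneg
  have hwW : (w : ℝ) ≤ W := by exact_mod_cast hw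
  have h1 : ∀ x < q ^ w, |F x| ≤ C * (W + 1) := by
    intro x hx
    refine (hF.growth w x hx).trans ?_
    gcongr
  have h2 : |F (P * n % q ^ w)| ≤ C * (W + 1) := h1 _ (Nat.mod_lt _ (by positivity))
  have h3 : |av q w F| ≤ C * (W + 1) := abs_av_le hq h1
  unfold vv
  calc |F (P * n % q ^ w) - av q w F| ≤ |F (P * n % q ^ w)| + |av q w F| := abs_sub _ _
    _ ≤ 2 * C * (W + 1) := by linarith

/-- the increments are close to local functions in `L²` -/
private lemma m21_L2 {q m : ℕ} (hq : 2 ≤ q) {P : ℕ} (hP : P.Coprime q) (h Y : ℕ) :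
    ∃ K : ℝ, 0 ≤ K ∧ ∀ (F : ℕ → ℝ) (C : ℝ), QR q m F C → ∀ W j a k y c z : ℕ,
      a + W * (j + 1) ≤ k → y ≤ Y → c ≤ P → z < q ^ h →
      av 2 k (fun n => (dav (a + W * j) (fun n => F (sd q h P c z n)) (2 ^ k * y + n) -
        dav (a + W * (j + 1)) (fun n => F (sd q h P c z n)) (2 ^ k * y + n) -
        vv q P (wn q a W j) F ((2 ^ k * y + n) / q ^ lg q (a + W * j) % q ^ wn q a W j)) ^ 2) ≤
          K * C ^ 2 ∧
      av 2 k (fun n =>
        vv q P (wn q a W j) F ((2 ^ k * y + n) / q ^ lg q (a + W * j) % q ^ wn q a W j) ^ 2) ≤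
          K * C ^ 2 * (W + 1) := by
  obtain ⟨K₁, hK₁, hD⟩ := doob_sq (m := m) hq hP h Y
  obtain ⟨K₂, hK₂, hV⟩ := var_le (q := q) (m := m) hq
  refine ⟨max K₁ (2 * K₂), le_max_of_le_left hK₁, ?_⟩
  intro F C hF W j a k y c z hk hy hc hz
  have hjj : a + W * j ≤ a + W * (j + 1) := by
    have := Nat.mul_le_mul_left W (Nat.le_add_right j 1)
    omega
  constructor
  · have h1 := hD F C hF (a + W * j) (a + W * (j + 1)) k y c z hjj hk hy hc hz
    refine le_trans (le_of_eq ?_) (h1.trans ?_)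
    · apply av_congr
      intro n _
      rw [m21_vv_mod]
      rfl
    · gcongr
      exact le_max_left _ _
  · have h1 : q ^ (lg q (a + W * j) + wn q a W j) ≤ 2 ^ k := by
      rw [m21_lg_add]
      exact (m21_pow_le _).trans (Nat.pow_le_pow_right (by norm_num) hk)
    have h2 := m21_dom hq h1 (fun n => vv q P (wn q a W j) F n ^ 2) (fun n => sq_nonneg _)
      (2 ^ k * y)
    rw [m21_vv_sq hq hP] at h2
    refine h2.trans ?_
    have h3 := hV F C hF (wn q a W j)
    have h4 : (wn q a W j : ℝ) ≤ W := by exact_mod_cast m21_wn_le hq a W j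
    have hCC : 0 ≤ C ^ 2 := sq_nonneg C
    calc 2 * cov q (wn q a W j) F F ≤ 2 * (K₂ * C ^ 2 * wn q a W j) := by linarith
      _ ≤ 2 * (K₂ * C ^ 2 * (W + 1)) := by
          gcongr
          linarith
      _ = (2 * K₂) * C ^ 2 * (W + 1) := by ring
      _ ≤ max K₁ (2 * K₂) * C ^ 2 * (W + 1) := by
          gcongr
          exact le_max_right _ _

/-- products of increments are close to products of local functions in `L¹` -/
private lemma m21_err {q q' m : ℕ} (hq : 2 ≤ q) (hq' : 2 ≤ q') {P P' : ℕ} (hP : P.Coprime q)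
    (hP' : P'.Coprime q') (h Y : ℕ) :
    ∃ K : ℝ, 0 ≤ K ∧ ∀ (F F' : ℕ → ℝ) (C C' : ℝ), QR q m F C → QR q' m F' C' →
      ∀ W j a k y c z c' z' : ℕ, a + W * (j + 1) ≤ k → y ≤ Y → c ≤ P → z < q ^ h → c' ≤ P' →
      z' < q' ^ h →
      av 2 k (fun n => |(dav (a + W * j) (fun n => F (sd q h P c z n)) (2 ^ k * y + n) -
          dav (a + W * (j + 1)) (fun n => F (sd q h P c z n)) (2 ^ k * y + n)) *
        (dav (a + W * j) (fun n => F' (sd q' h P' c' z' n)) (2 ^ k * y + n) -
          dav (a + W * (j + 1)) (fun n => F' (sd q' h P' c' z' n)) (2 ^ k * y + n)) -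
        vv q P (wn q a W j) F ((2 ^ k * y + n) / q ^ lg q (a + W * j) % q ^ wn q a W j) *
        vv q' P' (wn q' a W j) F'
          ((2 ^ k * y + n) / q' ^ lg q' (a + W * j) % q' ^ wn q' a W j)|) ≤
        K * C * C' * Real.sqrt (W + 1) := by
  obtain ⟨K₁, hK₁, h1⟩ := m21_L2 (m := m) hq hP h Y
  obtain ⟨K₂, hK₂, h2⟩ := m21_L2 (m := m) hq' hP' h Y
  refine ⟨Real.sqrt K₁ * Real.sqrt (4 * K₂) + Real.sqrt K₁ * Real.sqrt K₂, by positivity, ?_⟩
  intro F F' C C' hF hF' W j a k y c z c' z' hk hy hc hz hc' hz'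
  obtain ⟨h11, h12⟩ := h1 F C hF W j a k y c z hk hy hc hz
  obtain ⟨h21, h22⟩ := h2 F' C' hF' W j a k y c' z' hk hy hc' hz'
  have hC := hF.nonneg
  have hC' := hF'.nonneg
  set D : ℕ → ℝ := fun n => dav (a + W * j) (fun n => F (sd q h P c z n)) (2 ^ k * y + n) -
          dav (a + W * (j + 1)) (fun n => F (sd q h P c z n)) (2 ^ k * y + n) with hD
  set D' : ℕ → ℝ := fun n => dav (a + W * j) (fun n => F' (sd q' h P' c' z' n)) (2 ^ k * y + n) -
          dav (a + W * (j + 1)) (fun n => F' (sd q' h P' c' z' n)) (2 ^ k * y + n) with hD'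
  set v : ℕ → ℝ := fun n =>
    vv q P (wn q a W j) F ((2 ^ k * y + n) / q ^ lg q (a + W * j) % q ^ wn q a W j) with hv
  set v' : ℕ → ℝ := fun n =>
    vv q' P' (wn q' a W j) F' ((2 ^ k * y + n) / q' ^ lg q' (a + W * j) % q' ^ wn q' a W j)
      with hv'
  have g11 : av 2 k (fun n => (D n - v n) ^ 2) ≤ K₁ * C ^ 2 := h11
  have g12 : av 2 k (fun n => v n ^ 2) ≤ K₁ * C ^ 2 * (W + 1) := h12
  have g21 : av 2 k (fun n => (D' n - v' n) ^ 2) ≤ K₂ * C' ^ 2 := h21
  have g22 : av 2 k (fun n => v' n ^ 2) ≤ K₂ * C' ^ 2 * (W + 1) := h22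
  have hW0 : (0 : ℝ) ≤ W := Nat.cast_nonneg W
  have g23 : av 2 k (fun n => D' n ^ 2) ≤ 4 * K₂ * C' ^ 2 * (W + 1) := by
    have e1 : av 2 k (fun n => D' n ^ 2) ≤
        av 2 k (fun n => 2 * (D' n - v' n) ^ 2 + 2 * v' n ^ 2) := by
      apply av_mono
      intro n _
      nlinarith [sq_nonneg (D' n - 2 * v' n)]
    rw [av_add, av_const_mul, av_const_mul] at e1
    have e2 : K₂ * C' ^ 2 ≤ K₂ * C' ^ 2 * (W + 1) := by
      have : 0 ≤ K₂ * C' ^ 2 := by positivity
      nlinarith
    linarith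
  -- Cauchy-Schwarz for the two terms
  have cs : ∀ (f g : ℕ → ℝ) (S T : ℝ), 0 ≤ S → 0 ≤ T → av 2 k (fun n => f n ^ 2) ≤ S →
      av 2 k (fun n => g n ^ 2) ≤ T → av 2 k (fun n => |f n| * |g n|) ≤
        Real.sqrt S * Real.sqrt T := by
    intro f g S T hS hT hf hg
    have e := av_cs 2 k (fun n => |f n|) (fun n => |g n|)
    simp only [sq_abs] at e
    refine (le_abs_self _).trans (e.trans ?_)
    exact mul_le_mul (Real.sqrt_le_sqrt hf) (Real.sqrt_le_sqrt hg) (Real.sqrt_nonneg _)
      (Real.sqrt_nonneg _)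
  have t1 := cs (fun n => D n - v n) D' _ _ (by positivity) (by positivity) g11 g23
  have t2 := cs v (fun n => D' n - v' n) _ _ (by positivity) (by positivity) g12 g21
  have t0 : av 2 k (fun n => |D n * D' n - v n * v' n|) ≤
      av 2 k (fun n => |D n - v n| * |D' n| + |v n| * |D' n - v' n|) := by
    apply av_mono
    intro n _
    calc |D n * D' n - v n * v' n| = |(D n - v n) * D' n + v n * (D' n - v' n)| := by
          congr 1
          ring
      _ ≤ |(D n - v n) * D' n| + |v n * (D' n - v' n)| := abs_add_le _ _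
      _ = _ := by rw [abs_mul, abs_mul]
  rw [av_add] at t0
  have s1 : Real.sqrt (K₁ * C ^ 2) * Real.sqrt (4 * K₂ * C' ^ 2 * (W + 1)) =
      Real.sqrt K₁ * Real.sqrt (4 * K₂) * C * C' * Real.sqrt (W + 1) := by
    rw [Real.sqrt_mul hK₁, Real.sqrt_sq hC, Real.sqrt_mul (by positivity),
      Real.sqrt_mul (by positivity), Real.sqrt_sq hC']
    ring
  have s2 : Real.sqrt (K₁ * C ^ 2 * (W + 1)) * Real.sqrt (K₂ * C' ^ 2) =
      Real.sqrt K₁ * Real.sqrt K₂ * C * C' * Real.sqrt (W + 1) := by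
    rw [Real.sqrt_mul (by positivity), Real.sqrt_mul hK₁, Real.sqrt_sq hC,
      Real.sqrt_mul hK₂, Real.sqrt_sq hC']
    ring
  rw [s1] at t1
  rw [s2] at t2
  have t3 : av 2 k (fun n => |D n * D' n - v n * v' n|) ≤
      (Real.sqrt K₁ * Real.sqrt (4 * K₂) + Real.sqrt K₁ * Real.sqrt K₂) * C * C' *
        Real.sqrt (W + 1) := by
    refine t0.trans ((add_le_add t1 t2).trans (le_of_eq ?_))
    ring
  exact t3

/-- the same after averaging, summed over the windows -/
private lemma m21_sum_err {q q' m : ℕ} (hq : 2 ≤ q) (hq' : 2 ≤ q') {P P' : ℕ} (hP : P.Coprime q)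
    (hP' : P'.Coprime q') (h Y : ℕ) :
    ∃ K : ℝ, 0 ≤ K ∧ ∀ (F F' : ℕ → ℝ) (C C' : ℝ), QR q m F C → QR q' m F' C' →
      ∀ W s a k y c z c' z' : ℕ, a + W * s ≤ k → y ≤ Y → c ≤ P → z < q ^ h → c' ≤ P' →
      z' < q' ^ h → ∀ (τ : ℕ → ℝ) (δ : ℝ), (∀ N : ℕ, ∑ j ∈ Finset.range s,
        |dav (a + W * s) (fun n =>
          vv q P (wn q a W j) F (n / q ^ lg q (a + W * j) % q ^ wn q a W j) *
          vv q' P' (wn q' a W j) F' (n / q' ^ lg q' (a + W * j) % q' ^ wn q' a W j)) N - τ j| ≤
          δ) →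
      av 2 k (fun n => |dav (a + W * s) (fun n =>
        (dav a (fun n => F (sd q h P c z n)) n - dav (a + W * s) (fun n => F (sd q h P c z n)) n) *
        (dav a (fun n => F' (sd q' h P' c' z' n)) n -
          dav (a + W * s) (fun n => F' (sd q' h P' c' z' n)) n)) (2 ^ k * y + n) -
        ∑ j ∈ Finset.range s, τ j|) ≤
        K * C * C' * (s * Real.sqrt (W + 1)) + δ := by
  obtain ⟨K, hK, hE⟩ := m21_err (m := m) hq hq' hP hP' h Y
  refine ⟨K, hK, ?_⟩
  intro F F' C C' hF hF' W s a k y c z c' z' hk hy hc hz hc' hz' τ δ hδ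
  set X : ℕ → ℝ := fun n => F (sd q h P c z n) with hX
  set X' : ℕ → ℝ := fun n => F' (sd q' h P' c' z' n) with hX'
  set g : ℕ → ℕ → ℝ := fun j n =>
    vv q P (wn q a W j) F (n / q ^ lg q (a + W * j) % q ^ wn q a W j) *
      vv q' P' (wn q' a W j) F' (n / q' ^ lg q' (a + W * j) % q' ^ wn q' a W j) with hg
  set f : ℕ → ℕ → ℝ := fun j n =>
    (dav (a + W * j) X n - dav (a + W * (j + 1)) X n) *
      (dav (a + W * j) X' n - dav (a + W * (j + 1)) X' n) with hf
  have horth : ∀ N, dav (a + W * s) (fun n => (dav a X n - dav (a + W * s) X n) *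
        (dav a X' n - dav (a + W * s) X' n)) N =
        ∑ j ∈ Finset.range s, dav (a + W * s) (f j) N := by
    intro N
    have := m21_orth (b := fun j => a + W * j) (by
      intro j
      have := Nat.mul_le_mul_left W (Nat.le_add_right j 1)
      show a + W * j ≤ a + W * (j + 1)
      omega) X X' s N
    simp only [mul_zero, add_zero] at this
    exact this
  have hpt : ∀ N, |dav (a + W * s) (fun n => (dav a X n - dav (a + W * s) X n) *
        (dav a X' n - dav (a + W * s) X' n)) N - ∑ j ∈ Finset.range s, τ j| ≤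
        ∑ j ∈ Finset.range s, dav (a + W * s) (fun n => |f j n - g j n|) N + δ := by
    intro N
    rw [horth, ← Finset.sum_sub_distrib]
    calc |∑ j ∈ Finset.range s, (dav (a + W * s) (f j) N - τ j)|
        ≤ ∑ j ∈ Finset.range s, |dav (a + W * s) (f j) N - τ j| :=
          Finset.abs_sum_le_sum_abs _ _
      _ ≤ ∑ j ∈ Finset.range s, (dav (a + W * s) (fun n => |f j n - g j n|) N +
          |dav (a + W * s) (g j) N - τ j|) := by
          apply Finset.sum_le_sum
          intro j _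
          have e1 : dav (a + W * s) (f j) N - τ j =
              dav (a + W * s) (fun n => f j n - g j n) N + (dav (a + W * s) (g j) N - τ j) := by
            rw [m21_dav_sub]
            ring
          rw [e1]
          exact (abs_add_le _ _).trans (add_le_add (m21_dav_abs _ _ _) le_rfl)
      _ = ∑ j ∈ Finset.range s, dav (a + W * s) (fun n => |f j n - g j n|) N +
          ∑ j ∈ Finset.range s, |dav (a + W * s) (g j) N - τ j| := Finset.sum_add_distrib
      _ ≤ _ := add_le_add le_rfl (hδ N)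
  calc av 2 k (fun n => |dav (a + W * s) (fun n => (dav a X n - dav (a + W * s) X n) *
        (dav a X' n - dav (a + W * s) X' n)) (2 ^ k * y + n) - ∑ j ∈ Finset.range s, τ j|)
      ≤ av 2 k (fun n => ∑ j ∈ Finset.range s,
          dav (a + W * s) (fun n => |f j n - g j n|) (2 ^ k * y + n) + δ) := by
        apply av_mono
        intro n _
        exact hpt _
    _ = ∑ j ∈ Finset.range s, av 2 k (fun n => |f j (2 ^ k * y + n) - g j (2 ^ k * y + n)|) +
          δ := by
        rw [av_add, av_const le_rfl, av_finset_sum]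
        congr 1
        apply Finset.sum_congr rfl
        intro j _
        exact m21_avdav hk y _
    _ ≤ ∑ j ∈ Finset.range s, K * C * C' * Real.sqrt (W + 1) + δ := by
        gcongr with j hj
        rw [Finset.mem_range] at hj
        have hj' : a + W * (j + 1) ≤ k := by
          have := Nat.mul_le_mul_left W (show j + 1 ≤ s by omega)
          omega
        exact hE F F' C C' hF hF' W j a k y c z c' z' hj' hy hc hz hc' hz'
    _ = K * C * C' * (s * Real.sqrt (W + 1)) + δ := by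
        rw [Finset.sum_const, Finset.card_range, nsmul_eq_mul]
        ring

private lemma m21_geom {W s : ℕ} (hW : 1 ≤ W) (a : ℕ) :
    ∑ j ∈ Finset.range s, (2 : ℝ) ^ (a + W * (j + 1)) / 2 ^ (a + W * s) ≤ 2 := by
  have h1 : ∀ j ∈ Finset.range s, (2 : ℝ) ^ (a + W * (j + 1)) / 2 ^ (a + W * s) ≤
      (1 / 2) ^ (s - 1 - j) := by
    intro j hj
    rw [Finset.mem_range] at hj
    rw [div_le_iff₀ (by positivity), one_div, inv_pow, inv_mul_eq_div, le_div_iff₀ (by positivity),
      ← pow_add]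
    apply pow_le_pow_right₀ (by norm_num)
    have h2 : s - 1 - j ≤ W * (s - 1 - j) := Nat.le_mul_of_pos_left _ (by omega)
    have h3 : W * (j + 1) + W * (s - 1 - j) = W * s := by
      rw [← Nat.mul_add]
      congr 1
      omega
    omega
  refine (Finset.sum_le_sum h1).trans ?_
  rw [Finset.sum_range_reflect (fun i => (1 / 2 : ℝ) ^ i) s]
  have h4 := sum_geometric_two_le s
  exact h4

/-- M21a: covariances of the increments over a block of windows, same base -/
theorem block_cov_same {q m : ℕ} (hq : 2 ≤ q) {P P' : ℕ} (hP : P.Coprime q) (hP' : P'.Coprime q)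
    (h Y : ℕ) :
    ∃ K : ℝ, 0 ≤ K ∧ ∀ (F F' : ℕ → ℝ) (C C' : ℝ), QR q m F C → QR q m F' C' →
      ∀ W s a k y c z c' z' : ℕ, 1 ≤ W → a + W * s ≤ k → y ≤ Y → c ≤ P → z < q ^ h → c' ≤ P' →
      z' < q ^ h →
      av 2 k (fun n => |dav (a + W * s) (fun n =>
        (dav a (fun n => F (sd q h P c z n)) n - dav (a + W * s) (fun n => F (sd q h P c z n)) n) *
        (dav a (fun n => F' (sd q h P' c' z' n)) n -
          dav (a + W * s) (fun n => F' (sd q h P' c' z' n)) n)) (2 ^ k * y + n) -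
        ∑ j ∈ Finset.range s, cov q (wn q a W j) (fun n => F (P * n % q ^ wn q a W j))
          (fun n => F' (P' * n % q ^ wn q a W j))|) ≤
        K * C * C' * (s * Real.sqrt (W + 1) + (W + 2) ^ 2) := by
  obtain ⟨K, hK, hE⟩ := m21_sum_err (m := m) hq hq hP hP' h Y
  refine ⟨max K 16, le_max_of_le_left hK, ?_⟩
  intro F F' C C' hF hF' W s a k y c z c' z' hW hk hy hc hz hc' hz'
  have hC := hF.nonneg
  have hC' := hF'.nonneg
  have hmain := hE F F' C C' hF hF' W s a k y c z c' z' hk hy hc hz hc' hz'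
    (fun j => cov q (wn q a W j) (fun n => F (P * n % q ^ wn q a W j))
          (fun n => F' (P' * n % q ^ wn q a W j)))
    (16 * C * C' * (W + 1) ^ 2) (by
      intro N
      have hterm : ∀ j ∈ Finset.range s, |dav (a + W * s) (fun n =>
          vv q P (wn q a W j) F (n / q ^ lg q (a + W * j) % q ^ wn q a W j) *
          vv q P' (wn q a W j) F' (n / q ^ lg q (a + W * j) % q ^ wn q a W j)) N -
          cov q (wn q a W j) (fun n => F (P * n % q ^ wn q a W j))
          (fun n => F' (P' * n % q ^ wn q a W j))| ≤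
          8 * C * C' * (W + 1) ^ 2 * ((2 : ℝ) ^ (a + W * (j + 1)) / 2 ^ (a + W * s)) := by
        intro j _
        have hw := m21_wn_le hq a W j
        have hA : ∀ n < q ^ wn q a W j, |vv q P (wn q a W j) F n * vv q P' (wn q a W j) F' n| ≤
            (2 * C * (W + 1)) * (2 * C' * (W + 1)) := by
          intro n _
          rw [abs_mul]
          exact mul_le_mul (m21_vv_abs hq hF hw n) (m21_vv_abs hq hF' hw n) (abs_nonneg _)
            (by positivity)
        have h1 := per_av hq (lg q (a + W * j)) (wn q a W j) hA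
          (T := 2 ^ (a + W * s)) (Nat.one_le_two_pow) (2 ^ (a + W * s) * (N / 2 ^ (a + W * s)))
        rw [m21_vv_cov hq hP hP', m21_lg_add] at h1
        have h2 : dav (a + W * s) (fun n =>
          vv q P (wn q a W j) F (n / q ^ lg q (a + W * j) % q ^ wn q a W j) *
          vv q P' (wn q a W j) F' (n / q ^ lg q (a + W * j) % q ^ wn q a W j)) N =
          (∑ n ∈ Finset.range (2 ^ (a + W * s)),
            (fun n => vv q P (wn q a W j) F n * vv q P' (wn q a W j) F' n)
            ((2 ^ (a + W * s) * (N / 2 ^ (a + W * s)) + n) / q ^ lg q (a + W * j) %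
              q ^ wn q a W j)) / ((2 ^ (a + W * s) : ℕ) : ℝ) := by
          unfold dav av
          push_cast
          rfl
        rw [h2]
        refine h1.trans ?_
        push_cast
        rw [mul_div_assoc]
        have h3 : ((q : ℝ) ^ lg q (a + W * (j + 1))) ≤ 2 ^ (a + W * (j + 1)) := by
          exact_mod_cast m21_pow_le (q := q) (a + W * (j + 1))
        calc 2 * ((2 * C * (W + 1)) * (2 * C' * (W + 1))) *
            ((q : ℝ) ^ lg q (a + W * (j + 1)) / 2 ^ (a + W * s))
            ≤ 2 * ((2 * C * (W + 1)) * (2 * C' * (W + 1))) *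
            ((2 : ℝ) ^ (a + W * (j + 1)) / 2 ^ (a + W * s)) := by gcongr
          _ = _ := by ring
      refine (Finset.sum_le_sum hterm).trans ?_
      rw [← Finset.mul_sum]
      have := m21_geom (s := s) hW a
      have h0 : 0 ≤ 8 * C * C' * ((W : ℝ) + 1) ^ 2 := by positivity
      nlinarith)
  refine hmain.trans ?_
  have hCC : 0 ≤ C * C' := mul_nonneg hC hC'
  have hs0 : 0 ≤ (s : ℝ) * Real.sqrt (W + 1) := by positivity
  have e1 : K * C * C' * (s * Real.sqrt (W + 1)) ≤ max K 16 * C * C' * (s * Real.sqrt (W + 1)) := by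
    gcongr
    exact le_max_left _ _
  have e2 : 16 * C * C' * ((W : ℝ) + 1) ^ 2 ≤ max K 16 * C * C' * ((W : ℝ) + 2) ^ 2 := by
    have hW0 : (0 : ℝ) ≤ W := Nat.cast_nonneg W
    gcongr
    · exact le_max_right _ _
    · norm_num
  linarith

/-- M21b: covariances of the increments over a block of windows, coprime bases -/
theorem block_cov_diff {q q' m : ℕ} (hq : 2 ≤ q) (hq' : 2 ≤ q') (hqq : q.Coprime q') {P P' : ℕ}
    (hP : P.Coprime q) (hP' : P'.Coprime q') (h Y : ℕ) :
    ∃ K : ℝ, 0 ≤ K ∧ ∀ W : ℕ, q * q' ≤ 2 ^ W → ∃ s₀ : ℕ, ∀ s ≥ s₀,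
      ∀ (F F' : ℕ → ℝ) (C C' : ℝ), QR q m F C → QR q' m F' C' →
      ∀ a k y c z c' z' : ℕ, a + W * s ≤ k → y ≤ Y → c ≤ P → z < q ^ h → c' ≤ P' →
      z' < q' ^ h →
      av 2 k (fun n => |dav (a + W * s) (fun n =>
        (dav a (fun n => F (sd q h P c z n)) n - dav (a + W * s) (fun n => F (sd q h P c z n)) n) *
        (dav a (fun n => F' (sd q' h P' c' z' n)) n -
          dav (a + W * s) (fun n => F' (sd q' h P' c' z' n)) n)) (2 ^ k * y + n)|) ≤
        K * C * C' * (s * Real.sqrt (W + 1)) := by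
  obtain ⟨K, hK, hE⟩ := m21_sum_err (m := m) hq hq' hP hP' h Y
  refine ⟨K + 4, by positivity, ?_⟩
  intro W hW
  obtain ⟨s₀, hs₀⟩ := cross_cov hq hq' hqq hW (ε := 1 / ((W : ℝ) + 1) ^ 2) (by positivity)
  refine ⟨s₀, ?_⟩
  intro s hs F F' C C' hF hF' a k y c z c' z' hk hy hc hz hc' hz'
  have hC := hF.nonneg
  have hC' := hF'.nonneg
  have hmain := hE F F' C C' hF hF' W s a k y c z c' z' hk hy hc hz hc' hz' (fun _ => 0)
    (4 * C * C' * s) (by
      intro N
      have h1 := hs₀ s hs a (2 ^ (a + W * s) * (N / 2 ^ (a + W * s)))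
        (fun j n => vv q P (wn q a W j) F n) (fun j n => vv q' P' (wn q' a W j) F' n)
        (2 * C * (W + 1)) (2 * C' * (W + 1)) (by positivity) (by positivity)
        (fun j n => m21_vv_abs hq hF (m21_wn_le hq a W j) n)
        (fun j n => m21_vv_abs hq' hF' (m21_wn_le hq' a W j) n)
        (fun j => m21_vv_mean hq' hP' _ F')
      refine le_trans (le_of_eq ?_) (h1.trans (le_of_eq ?_))
      · apply Finset.sum_congr rfl
        intro j _
        rw [sub_zero]
        unfold dav av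
        push_cast
        rfl
      · field_simp
        ring)
  rw [Finset.sum_const_zero] at hmain
  simp only [sub_zero] at hmain
  refine hmain.trans ?_
  have hCC : 0 ≤ C * C' := mul_nonneg hC hC'
  have h1 : (1 : ℝ) ≤ Real.sqrt (W + 1) := by
    rw [Real.one_le_sqrt]
    have : (0 : ℝ) ≤ W := Nat.cast_nonneg W
    linarith
  have h2 : (s : ℝ) ≤ s * Real.sqrt (W + 1) := by
    have : (0 : ℝ) ≤ s := Nat.cast_nonneg s
    nlinarith
  have h3 : 4 * C * C' * s ≤ 4 * C * C' * (s * Real.sqrt (W + 1)) := by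
    have : 0 ≤ 4 * C * C' := by positivity
    exact mul_le_mul_of_nonneg_left h2 this
  nlinarith

end Pool.Agent.Lib.MP_3e612f_nt.MB
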