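import Mathlib

/-! MP_3e612f_nt (several coprime bases), M7: Chinese remainder average (helper39). -/

set_option autoImplicit false

namespace Pool.Agent.Lib.MP_3e612f_nt.MB

/-- sum of a periodic function over a period -/
theorem crt_sum_period {G : ℕ → ℝ} {M : ℕ} (hG : ∀ n, G (n + M) = G n) (u : ℕ) :
    ∑ n ∈ Finset.range M, G (u + n) = ∑ n ∈ Finset.range M, G n := by
  induction u with
  | zero => simp
  | succ u ih =>
    rw [← ih]
    have h1 : ∑ n ∈ Finset.range (M + 1), G (u + n) =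
        ∑ n ∈ Finset.range M, G (u + n) + G (u + M) := Finset.sum_range_succ _ _
    have h2 : ∑ n ∈ Finset.range (M + 1), G (u + n) =
        ∑ n ∈ Finset.range M, G (u + (n + 1)) + G (u + 0) := Finset.sum_range_succ' _ _
    have h3 : ∑ n ∈ Finset.range M, G (u + 1 + n) = ∑ n ∈ Finset.range M, G (u + (n + 1)) :=
      Finset.sum_congr rfl (fun n _ => by congr 1; ring)
    rw [h3]
    rw [hG u] at h1
    simp only [add_zero] at h2
    linarith

/-- sum of a periodic function over several periods -/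
theorem crt_sum_periods {G : ℕ → ℝ} {M : ℕ} (hG : ∀ n, G (n + M) = G n) (u t : ℕ) :
    ∑ n ∈ Finset.range (M * t), G (u + n) = t * ∑ n ∈ Finset.range M, G n := by
  induction t with
  | zero => simp
  | succ t ih =>
    rw [Nat.mul_succ, Finset.sum_range_add, ih]
    have := crt_sum_period hG (u + M * t)
    have h3 : ∑ n ∈ Finset.range M, G (u + (M * t + n)) =
        ∑ n ∈ Finset.range M, G (u + M * t + n) :=
      Finset.sum_congr rfl (fun n _ => by congr 1; ring)
    rw [h3, this]
    push_cast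
    ring

/-- the sum over a full period factors -/
theorem crt_full {ι : Type*} [Fintype ι] [DecidableEq ι] {N : ι → ℕ} (hN : ∀ i, 1 ≤ N i)
    (hc : ∀ i j, i ≠ j → (N i).Coprime (N j)) (f : ι → ℕ → ℝ) :
    ∑ n ∈ Finset.range (∏ i, N i), ∏ i, f i (n % N i) =
      ∏ i, ∑ n ∈ Finset.range (N i), f i n := by
  rw [Finset.prod_univ_sum]
  have hinj : Set.InjOn (fun (n : ℕ) (i : ι) => n % N i)
      (Finset.range (∏ i, N i) : Set ℕ) := by
    intro a ha b hb hab
    have ha' : a < ∏ i, N i := by simpa using ha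
    have hb' : b < ∏ i, N i := by simpa using hb
    have h1 : ∀ i, ((N i : ℕ) : ℤ) ∣ (a : ℤ) - b := by
      intro i
      have h2 : a ≡ b [MOD N i] := congrFun hab i
      exact (Nat.modEq_iff_dvd.mp h2.symm)
    have h3 : ∏ i, ((N i : ℕ) : ℤ) ∣ (a : ℤ) - b := by
      apply Finset.prod_dvd_of_coprime
      · intro i _ j _ hij
        exact Nat.isCoprime_iff_coprime.mpr (hc i j hij)
      · intro i _
        exact h1 i
    have h4 : (((∏ i, N i : ℕ)) : ℤ) ∣ (a : ℤ) - b := by
      push_cast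
      exact h3
    have h5 : (a : ℤ) - b = 0 := by
      apply Int.eq_zero_of_abs_lt_dvd h4
      rw [abs_lt]
      constructor <;> omega
    omega
  have himg : (Finset.range (∏ i, N i)).image (fun (n : ℕ) (i : ι) => n % N i) =
      Fintype.piFinset (fun i => Finset.range (N i)) := by
    apply Finset.eq_of_subset_of_card_le
    · intro x hx
      obtain ⟨n, _, rfl⟩ := Finset.mem_image.mp hx
      rw [Fintype.mem_piFinset]
      intro i
      exact Finset.mem_range.mpr (Nat.mod_lt _ (hN i))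
    · rw [Finset.card_image_of_injOn hinj, Fintype.card_piFinset]
      simp
  rw [← himg, Finset.sum_image hinj]

/-- M7: the residues modulo coprime numbers are independent -/
theorem crt_av {ι : Type*} [Fintype ι] [DecidableEq ι] {N : ι → ℕ} (hN : ∀ i, 1 ≤ N i)
    (hc : ∀ i j, i ≠ j → (N i).Coprime (N j)) {f : ι → ℕ → ℝ} (hf : ∀ i n, |f i n| ≤ 1)
    {T : ℕ} (hT : 1 ≤ T) (u : ℕ) :
    |(∑ n ∈ Finset.range T, ∏ i, f i ((u + n) % N i)) / T -
      ∏ i, (∑ n ∈ Finset.range (N i), f i n) / N i| ≤ 2 * (∏ i, (N i : ℝ)) / T := by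
  set M : ℕ := ∏ i, N i with hMdef
  set G : ℕ → ℝ := fun n => ∏ i, f i (n % N i) with hGdef
  have hM1 : 1 ≤ M := Nat.one_le_iff_ne_zero.mpr
    (Finset.prod_ne_zero_iff.mpr (fun i _ => by have := hN i; omega))
  have hG : ∀ n, G (n + M) = G n := by
    intro n
    simp only [hGdef]
    apply Finset.prod_congr rfl
    intro i _
    have h1 : N i ∣ M := Finset.dvd_prod_of_mem _ (Finset.mem_univ i)
    obtain ⟨c, hc'⟩ := h1
    rw [hc', Nat.add_mul_mod_self_left]
  have hG1 : ∀ n, |G n| ≤ 1 := by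
    intro n
    simp only [hGdef]
    rw [Finset.abs_prod]
    exact Finset.prod_le_one (fun i _ => abs_nonneg _) (fun i _ => hf i _)
  set S : ℝ := ∑ n ∈ Finset.range M, G n with hSdef
  have hSfull : S = ∏ i, ∑ n ∈ Finset.range (N i), f i n := crt_full hN hc f
  have hprod : ∏ i, (∑ n ∈ Finset.range (N i), f i n) / N i = S / M := by
    rw [Finset.prod_div_distrib, ← hSfull, hMdef]
    push_cast
    rfl
  have hMr : (∏ i, (N i : ℝ)) = M := by rw [hMdef]; push_cast; rfl
  rw [hprod, hMr]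
  have hSb : |S| ≤ M := by
    calc |S| ≤ ∑ n ∈ Finset.range M, |G n| := Finset.abs_sum_le_sum_abs _ _
      _ ≤ ∑ n ∈ Finset.range M, (1 : ℝ) := Finset.sum_le_sum (fun n _ => hG1 n)
      _ = M := by simp
  set t := T / M
  set s := T % M
  have hTs : T = M * t + s := (Nat.div_add_mod T M).symm
  have hs : s < M := Nat.mod_lt _ hM1
  have hsum : ∑ n ∈ Finset.range T, G (u + n) =
      t * S + ∑ n ∈ Finset.range s, G (u + (M * t + n)) := by
    conv_lhs => rw [hTs]
    rw [Finset.sum_range_add, crt_sum_periods hG]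
  have hrest : |∑ n ∈ Finset.range s, G (u + (M * t + n))| ≤ s := by
    calc |∑ n ∈ Finset.range s, G (u + (M * t + n))|
        ≤ ∑ n ∈ Finset.range s, |G (u + (M * t + n))| := Finset.abs_sum_le_sum_abs _ _
      _ ≤ ∑ n ∈ Finset.range s, (1 : ℝ) := Finset.sum_le_sum (fun n _ => hG1 _)
      _ = s := by simp
  change |(∑ n ∈ Finset.range T, G (u + n)) / T - S / M| ≤ 2 * (M : ℝ) / T
  rw [hsum]
  set r := ∑ n ∈ Finset.range s, G (u + (M * t + n)) with hr
  have hTpos : (0 : ℝ) < T := by exact_mod_cast hT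
  have hMpos : (0 : ℝ) < M := by exact_mod_cast hM1
  have hTr : (T : ℝ) = M * t + s := by exact_mod_cast hTs
  have hsM : (s : ℝ) ≤ M := by exact_mod_cast hs.le
  have hs0 : (0 : ℝ) ≤ s := Nat.cast_nonneg _
  have hkey : (t * S + r) / T - S / M = (r * M - S * s) / (T * M) := by
    rw [div_sub_div _ _ hTpos.ne' hMpos.ne']
    congr 1
    rw [hTr]
    ring
  rw [hkey, abs_div, abs_of_pos (mul_pos hTpos hMpos), div_le_div_iff₀ (mul_pos hTpos hMpos) hTpos]
  have h1 : |r * M - S * s| ≤ 2 * M * M := by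
    calc |r * M - S * s| ≤ |r * M| + |S * s| := abs_sub _ _
      _ = |r| * M + |S| * s := by rw [abs_mul, abs_mul, abs_of_pos hMpos, abs_of_nonneg hs0]
      _ ≤ s * M + M * s := by gcongr
      _ ≤ 2 * M * M := by nlinarith
  calc |r * M - S * s| * T ≤ (2 * M * M) * T := by gcongr
    _ = 2 * M * (T * M) := by ring

end Pool.Agent.Lib.MP_3e612f_nt.MB
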