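import Pool.Agent.Lib.MP_3e612f_nt.QFinal

/-!
Definitions for the orthogonality of the Möbius function to functions of quasi-additive functions
in several coprime bases.
-/

set_option autoImplicit false

namespace Pool.Agent.Lib.MP_3e612f_nt.MB

open Filter Topology
open Pool.Agent.Lib.MP_3e612f_nt.QA

/-- the number whose `h` lowest digits are `z` and whose upper part is `P * n + c` -/
def sd (q h P c z n : ℕ) : ℕ := q ^ h * (P * n + c) + z

/-- the number of windows of length `W`, among the first `N`, where the digits of `r` are `w` -/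
def cnt (q W N w r : ℕ) : ℕ :=
  ((Finset.range N).filter (fun j => r / q ^ (W * j) % q ^ W = w)).card

/-- the average of `φ` over the increments, when the argument is increased by `r` -/
noncomputable def Inc {H : Type*} [AddCommGroup H] (q P R : ℕ) (e : ℕ → H)
    (r h L y c c₁ d d₁ z z₁ t t₁ : ℕ) (φ : H → H → ℝ) : ℝ :=
  av q L (fun n =>
    φ (e (sd q h P c z (q ^ L * y + n + r)) - e (sd q h P c₁ z₁ (q ^ L * y + n)))
      (e (sd q h R d t (q ^ L * y + n + r)) - e (sd q h R d₁ t₁ (q ^ L * y + n))))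

/-- admissible carries and low digits -/
structure St (q P R h c c₁ d d₁ z z₁ t t₁ : ℕ) : Prop where
  c0 : c ≤ 2 * P
  c1 : c₁ ≤ 2 * P
  d0 : d ≤ 2 * R
  d1 : d₁ ≤ 2 * R
  z0 : z < q ^ h
  z1 : z₁ < q ^ h
  t0 : t < q ^ h
  t1 : t₁ < q ^ h

/-- the indicator function of a point -/
def ind {d : ℕ} (u u' x x' : Fin d → ℤ) : ℝ := if x = u ∧ x' = u' then 1 else 0

/-- the `q`-adic level of the dyadic level `a` -/
def lg (q a : ℕ) : ℕ := Nat.log q (2 ^ a)

/-- the average over the dyadic interval of length `2 ^ a` which contains `n` -/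
noncomputable def dav (a : ℕ) (X : ℕ → ℝ) (n : ℕ) : ℝ :=
  av 2 a (fun s => X (2 ^ a * (n / 2 ^ a) + s))

/-- complex averages over `n < q ^ k` -/
noncomputable def avc (q k : ℕ) (u : ℕ → ℂ) : ℂ := (∑ n ∈ Finset.range (q ^ k), u n) / (q : ℂ) ^ k

/-- the length of a `q`-adic window -/
def wn (q k₁ W j : ℕ) : ℕ := lg q (k₁ + W * (j + 1)) - lg q (k₁ + W * j)

section several

variable {ι : Type*} {d : ι → ℕ}

/-- quasi-additive functions in pairwise coprime bases -/
structure Sys (q : ι → ℕ) (m : ℕ) (e : ∀ i, ℕ → Fin (d i) → ℤ) (C : ℝ) : Prop where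
  base : ∀ i, 2 ≤ q i
  cop : ∀ i j, i ≠ j → (q i).Coprime (q j)
  qv : ∀ i, QV (q i) m (e i) C
  gen : ∀ i, AddSubgroup.closure (Set.range (e i)) = ⊤

/-- the admissible multipliers -/
structure Mul (q : ι → ℕ) (m : ℕ) (P R : ι → ℕ) : Prop where
  cP : ∀ i, (P i).Coprime (q i)
  cR : ∀ i, (R i).Coprime (q i)
  one : ∀ i, 1 ≤ P i
  le : ∀ i, 2 * q i ^ m * P i ≤ R i

/-- the admissible carries and low digits -/
structure Bd (q : ι → ℕ) (h : ℕ) (P c z : ι → ℕ) : Prop where
  cle : ∀ i, c i ≤ P i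
  zlt : ∀ i, z i < q i ^ h

/-- the vector of all values -/
def EE (q : ι → ℕ) (e : ∀ i, ℕ → Fin (d i) → ℤ) (h : ℕ) (P c z : ι → ℕ) (n : ℕ) :
    ∀ i, Fin (d i) → ℤ := fun i => e i (sd (q i) h (P i) (c i) (z i) n)

/-- the extension of a function from the product of the cosets of `u i` -/
noncomputable def extP (e : ∀ i, ℕ → Fin (d i) → ℤ) (u : ∀ i, Fin (d i) → ℤ)
    (g : (∀ i, Fin (d i) → ℤ) → ℝ) (x : ∀ i, Fin (d i) → ℤ) : ℝ :=
  g (fun i => x i + jmin (e i) (u i) (x i) • e i 1)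

/-- the element of the product of the groups of defects which is next to `v` -/
noncomputable def lamP (e : ∀ i, ℕ → Fin (d i) → ℤ) (v : ∀ i, Fin (d i) → ℤ) :
    ∀ i, Fin (d i) → ℤ := fun i => lamv (e i) (v i)

section fin

variable [Fintype ι] [DecidableEq ι]

/-- the box -/
noncomputable def box (d : ι → ℕ) (L : ℕ) : Finset (∀ i, Fin (d i) → ℤ) :=
  Fintype.piFinset (fun _ => Fintype.piFinset (fun _ => Finset.Ico (0 : ℤ) L))

/-- smoothing by the average over a box -/
noncomputable def smoP (L : ℕ) (g : (∀ i, Fin (d i) → ℤ) → ℝ) (x : ∀ i, Fin (d i) → ℤ) : ℝ :=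
  (∑ v ∈ box d L, g (x + v)) / (box d L).card

/-- functions bounded by `1` which vary slowly -/
def SlowP (δ : ℝ) (G : (∀ i, Fin (d i) → ℤ) → ℝ) : Prop :=
  (∀ x, |G x| ≤ 1) ∧ ∀ x i a, |G (x + Pi.single i (Pi.single a 1)) - G x| ≤ δ

/-- the average in the model, where the arguments in the different bases are independent -/
noncomputable def modelAv (q : ι → ℕ) (e : ∀ i, ℕ → Fin (d i) → ℤ) (k : ℕ)
    (g : (∀ i, Fin (d i) → ℤ) → ℝ) : ℝ :=
  (∑ x ∈ Fintype.piFinset (fun i => Finset.range (q i ^ lg (q i) k)), g (fun i => e i (x i))) /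
    ∏ i, (q i : ℝ) ^ lg (q i) k

/-- the canonical means -/
noncomputable def mmean (q : ι → ℕ) (e : ∀ i, ℕ → Fin (d i) → ℤ) (k : ℕ) (a : ι → ℕ)
    (g : (∀ i, Fin (d i) → ℤ) → ℝ) : ℝ :=
  modelAv q e k (extP e (fun i => a i • e i 1) g)

end fin

end several

end Pool.Agent.Lib.MP_3e612f_nt.MB
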