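import Pool.Agent.Lib.MP_3e612f_nt.MDefs

/-!
Covering a dyadic interval by `q`-adic blocks.
-/

set_option autoImplicit false

namespace Pool.Agent.Lib.MP_3e612f_nt.MB

open Filter Topology
open Pool.Agent.Lib.MP_3e612f_nt.QA

theorem lg_pow_le (q k : ℕ) : q ^ lg q k ≤ 2 ^ k :=
  Nat.pow_log_le_self q (by positivity)

theorem lt_pow_lg {q : ℕ} (hq : 2 ≤ q) (k : ℕ) : 2 ^ k < q * q ^ lg q k := by
  have h := Nat.lt_pow_succ_log_self (b := q) (by omega) (2 ^ k)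
  rw [Nat.succ_eq_add_one, pow_succ, mul_comm] at h
  exact h

/-- M12a: from dyadic to `q`-adic blocks -/
theorem dy_le {q : ℕ} (hq : 2 ≤ q) (k y : ℕ) {f : ℕ → ℝ} (hf : ∀ n, 0 ≤ f n) :
    av 2 k (fun n => f (2 ^ k * y + n)) ≤
      ∑ y' ∈ Finset.Icc (2 ^ k * y / q ^ lg q k) (2 ^ k * (y + 1) / q ^ lg q k),
        av q (lg q k) (fun n => f (q ^ lg q k * y' + n)) := by
  set Q := q ^ lg q k with hQ
  have hQ0 : 0 < Q := pow_pos (by omega) _
  have hQ2 : Q ≤ 2 ^ k := lg_pow_le q k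
  unfold av
  rw [← hQ, ← Finset.sum_div]
  have hQc : ((q : ℝ) ^ lg q k) = (Q : ℝ) := by rw [hQ]; push_cast; rfl
  rw [hQc]
  have h1 : ∑ n ∈ Finset.range (2 ^ k), f (2 ^ k * y + n) ≤
      ∑ y' ∈ Finset.Icc (2 ^ k * y / Q) (2 ^ k * (y + 1) / Q),
        ∑ n ∈ Finset.range Q, f (Q * y' + n) := by
    rw [Finset.sum_sigma']
    have h2 : ∑ n ∈ Finset.range (2 ^ k), f (2 ^ k * y + n) =
        ∑ s ∈ (Finset.range (2 ^ k)).image (fun n => (⟨(2 ^ k * y + n) / Q,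
          (2 ^ k * y + n) % Q⟩ : (_ : ℕ) × ℕ)), f (Q * s.1 + s.2) := by
      rw [Finset.sum_image]
      · refine Finset.sum_congr rfl fun n _ => ?_
        simp only
        rw [Nat.div_add_mod]
      · intro a _ b _ hab
        simp only [Sigma.mk.injEq, heq_eq_eq] at hab
        have e1 := Nat.div_add_mod (2 ^ k * y + a) Q
        have e2 := Nat.div_add_mod (2 ^ k * y + b) Q
        rw [hab.1, hab.2] at e1
        omega
    rw [h2]
    refine Finset.sum_le_sum_of_subset_of_nonneg ?_ (fun s _ _ => hf _)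
    intro s hs
    obtain ⟨n, hn, rfl⟩ := Finset.mem_image.1 hs
    rw [Finset.mem_range] at hn
    rw [Finset.mem_sigma, Finset.mem_Icc, Finset.mem_range]
    refine ⟨⟨?_, ?_⟩, Nat.mod_lt _ hQ0⟩
    · exact Nat.div_le_div_right (by omega)
    · refine Nat.div_le_div_right ?_
      rw [mul_add, mul_one]; omega
  have h3 : 0 ≤ ∑ n ∈ Finset.range (2 ^ k), f (2 ^ k * y + n) :=
    Finset.sum_nonneg fun n _ => hf _
  have hQ0' : (0 : ℝ) < Q := by exact_mod_cast hQ0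
  have hQ2' : (Q : ℝ) ≤ (2 : ℝ) ^ k := by exact_mod_cast hQ2
  push_cast
  exact div_le_div₀ (h3.trans h1) h1 hQ0' hQ2'

/-- M12a: the number and size of the blocks -/
theorem dy_card {q : ℕ} (hq : 2 ≤ q) (k y : ℕ) :
    (Finset.Icc (2 ^ k * y / q ^ lg q k) (2 ^ k * (y + 1) / q ^ lg q k)).card ≤ q + 1 ∧
      2 ^ k * (y + 1) / q ^ lg q k ≤ q * (y + 1) := by
  have hlt := lt_pow_lg hq k
  set Q := q ^ lg q k with hQ
  have hQ0 : 0 < Q := pow_pos (by omega) _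
  constructor
  · rw [Nat.card_Icc]
    have h1 : 2 ^ k * (y + 1) / Q ≤ 2 ^ k * y / Q + q := by
      have e1 := Nat.div_add_mod (2 ^ k * y) Q
      have e2 := Nat.mod_lt (2 ^ k * y) hQ0
      rw [← Nat.lt_succ_iff, Nat.div_lt_iff_lt_mul hQ0, Nat.succ_eq_add_one]
      nlinarith
    omega
  · refine Nat.div_le_of_le_mul ?_
    nlinarith

end Pool.Agent.Lib.MP_3e612f_nt.MB
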