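import Mathlib

/-!
Approximation of slowly varying functions of integer vectors by trigonometric polynomials
(a discrete kernel argument with the powers of the cosine).
-/

set_option autoImplicit false

namespace Pool.Agent.Lib.MP_3e612f_nt.MB

open Complex

namespace Fej

/-- the exponential `exp (2 pi i t / N)` -/
noncomputable def ez (N : ℕ) (t : ℤ) : ℂ := Complex.exp (2 * Real.pi * Complex.I * (t : ℂ) / N)

theorem ez_add (N : ℕ) (s t : ℤ) : ez N (s + t) = ez N s * ez N t := by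
  unfold ez
  rw [← Complex.exp_add]
  congr 1
  push_cast
  ring

theorem ez_zero (N : ℕ) : ez N 0 = 1 := by simp [ez]

theorem ez_nsmul (N : ℕ) (k : ℕ) (t : ℤ) : ez N (k * t) = ez N t ^ k := by
  unfold ez
  rw [← Complex.exp_nat_mul]
  congr 1
  push_cast
  ring

theorem ez_eq (N : ℕ) (t : ℤ) :
    ez N t = Complex.exp (((2 * Real.pi * t / N : ℝ) : ℂ) * Complex.I) := by
  unfold ez
  congr 1
  push_cast
  ring

theorem norm_ez (N : ℕ) (t : ℤ) : ‖ez N t‖ = 1 := by
  rw [ez_eq]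
  exact Complex.norm_exp_ofReal_mul_I _

theorem ez_ne_zero (N : ℕ) (t : ℤ) : ez N t ≠ 0 := Complex.exp_ne_zero _

theorem ez_neg (N : ℕ) (t : ℤ) : ez N (-t) = (ez N t)⁻¹ := by
  apply eq_inv_of_mul_eq_one_left
  rw [← ez_add, neg_add_cancel, ez_zero]

theorem re_ez (N : ℕ) (t : ℤ) : (ez N t).re = Real.cos (2 * Real.pi * t / N) := by
  rw [ez_eq, Complex.exp_ofReal_mul_I_re]

theorem ez_mul_N {N : ℕ} (hN : 1 ≤ N) (k : ℤ) : ez N (N * k) = 1 := by
  unfold ez
  rw [Complex.exp_eq_one_iff]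
  refine ⟨k, ?_⟩
  have : (N : ℂ) ≠ 0 := by exact_mod_cast (by omega : N ≠ 0)
  push_cast
  field_simp

theorem ez_ne_one {N : ℕ} (hN : 1 ≤ N) {k : ℤ} (h0 : k ≠ 0) (hk : |k| < N) : ez N k ≠ 1 := by
  unfold ez
  rw [Ne, Complex.exp_eq_one_iff]
  rintro ⟨n, hn⟩
  have hN0 : (N : ℂ) ≠ 0 := by exact_mod_cast (by omega : N ≠ 0)
  have h2 : (2 * Real.pi * Complex.I : ℂ) ≠ 0 := Complex.two_pi_I_ne_zero
  have h3 : (k : ℂ) = n * N := by
    have h4 : (2 * Real.pi * Complex.I : ℂ) * (k : ℂ) = (2 * Real.pi * Complex.I : ℂ) * (n * N) := by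
      field_simp at hn
      linear_combination (2 * Real.pi * Complex.I : ℂ) * hn
    exact mul_left_cancel₀ h2 h4
  have h5 : k = n * N := by exact_mod_cast h3
  rcases eq_or_ne n 0 with rfl | hn0
  · exact h0 (by simpa using h5)
  · rw [h5, abs_mul] at hk
    have : 1 ≤ |n| := Int.one_le_abs hn0
    have h6 : |(N : ℤ)| = N := abs_of_nonneg (by positivity)
    rw [h6] at hk
    nlinarith [abs_nonneg n, (by positivity : (0 : ℤ) ≤ N)]

/-- orthogonality -/
theorem sum_ez {N : ℕ} (hN : 1 ≤ N) {k : ℤ} (hk : |k| < N) (x : ℤ) :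
    ∑ y ∈ Finset.range N, ez N (k * (x - (y : ℤ))) = if k = 0 then (N : ℂ) else 0 := by
  split_ifs with h
  · subst h; simp [ez_zero]
  · have h1 : ∀ y ∈ Finset.range N, ez N (k * (x - (y : ℤ))) = ez N (k * x) * (ez N (-k)) ^ y := by
      intro y _
      rw [← ez_nsmul, ← ez_add]
      congr 1
      ring
    rw [Finset.sum_congr rfl h1, ← Finset.mul_sum]
    have h2 : ez N (-k) ≠ 1 := ez_ne_one hN (neg_ne_zero.2 h) (by rwa [abs_neg])
    rw [geom_sum_eq h2, ← ez_nsmul, ez_mul_N hN]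
    simp

/-- the kernel -/
noncomputable def ker (N M : ℕ) (t : ℤ) : ℝ := ‖1 + ez N t‖ ^ (2 * M) / (2 * M).choose M

theorem ker_nonneg (N M : ℕ) (t : ℤ) : 0 ≤ ker N M t := by unfold ker; positivity

/-- its coefficients -/
noncomputable def cf (M u : ℕ) : ℝ := ((2 * M).choose u : ℝ) / (2 * M).choose M

theorem cf_nonneg (M u : ℕ) : 0 ≤ cf M u := by unfold cf; positivity

theorem cf_le_one (M u : ℕ) : cf M u ≤ 1 := by
  unfold cf
  refine div_le_one_of_le₀ ?_ (by positivity)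
  have := Nat.choose_le_centralBinom u M
  rw [Nat.centralBinom] at this
  exact_mod_cast this

theorem choose_pos' (M : ℕ) : (0 : ℝ) < (2 * M).choose M := by
  exact_mod_cast Nat.choose_pos (by omega)

theorem cf_self (M : ℕ) : cf M M = 1 := div_self (choose_pos' M).ne'

theorem cf_pred {M : ℕ} (hM : 1 ≤ M) : cf M (M - 1) = M / (M + 1) := by
  obtain ⟨k, rfl⟩ : ∃ k, M = k + 1 := ⟨M - 1, by omega⟩
  unfold cf
  have h := Nat.choose_succ_right_eq (2 * (k + 1)) k
  have e : 2 * (k + 1) - k = k + 2 := by omega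
  rw [e] at h
  have h' : ((2 * (k + 1)).choose (k + 1) : ℝ) * (k + 1) = (2 * (k + 1)).choose k * (k + 2) := by
    exact_mod_cast h
  have hp := choose_pos' (k + 1)
  rw [Nat.add_sub_cancel, div_eq_div_iff hp.ne' (by positivity)]
  push_cast
  linarith

theorem ker_eq (N M : ℕ) (t : ℤ) :
    ((ker N M t : ℝ) : ℂ) = ∑ u : Fin (2 * M + 1), (cf M u : ℂ) * ez N (((u : ℕ) - M : ℤ) * t) := by
  have hw : ((‖1 + ez N t‖ ^ (2 * M) : ℝ) : ℂ) * ez N t ^ M = (1 + ez N t) ^ (2 * M) := by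
    have h1 : ((‖1 + ez N t‖ ^ 2 : ℝ) : ℂ) * ez N t = (1 + ez N t) ^ 2 := by
      have h2 : ((‖1 + ez N t‖ ^ 2 : ℝ) : ℂ) = (1 + ez N t) * (starRingEnd ℂ) (1 + ez N t) := by
        rw [Complex.mul_conj, Complex.normSq_eq_norm_sq]
      have h3 : (starRingEnd ℂ) (ez N t) * ez N t = 1 := by
        rw [mul_comm, Complex.mul_conj, Complex.normSq_eq_norm_sq, norm_ez]; simp
      rw [h2, map_add, map_one]
      linear_combination (1 + ez N t) * h3
    rw [pow_mul, pow_mul, ← h1, mul_pow]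
    push_cast
    ring
  have hb := add_pow (ez N t) 1 (2 * M)
  rw [add_comm (ez N t) 1] at hb
  rw [hb] at hw
  have hz := ez_ne_zero N t
  have hC : (((2 * M).choose M : ℝ) : ℂ) ≠ 0 := by exact_mod_cast (choose_pos' M).ne'
  have e1 : ((ker N M t : ℝ) : ℂ) =
      ((‖1 + ez N t‖ ^ (2 * M) : ℝ) : ℂ) / (((2 * M).choose M : ℝ) : ℂ) := by
    unfold ker; push_cast; rfl
  rw [e1, div_eq_iff hC]
  have e2 : ((‖1 + ez N t‖ ^ (2 * M) : ℝ) : ℂ) =
      (∑ k ∈ Finset.range (2 * M + 1), ez N t ^ k * 1 ^ (2 * M - k) * ((2 * M).choose k : ℂ)) *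
        (ez N t ^ M)⁻¹ := by
    rw [← hw, mul_assoc, mul_inv_cancel₀ (pow_ne_zero _ hz), mul_one]
  rw [e2, ← Fin.sum_univ_eq_sum_range (fun k => ez N t ^ k * 1 ^ (2 * M - k) *
    ((2 * M).choose k : ℂ)) (2 * M + 1), Finset.sum_mul, Finset.sum_mul]
  refine Finset.sum_congr rfl fun u _ => ?_
  have e3 : ez N (((u : ℕ) - M : ℤ) * t) = ez N t ^ (u : ℕ) * (ez N t ^ M)⁻¹ := by
    rw [sub_mul, sub_eq_add_neg, ez_add, ez_nsmul, ez_neg, ez_nsmul]
  rw [e3, one_pow]
  unfold cf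
  push_cast
  have hC' : (((2 * M).choose M : ℕ) : ℂ) ≠ 0 := by exact_mod_cast hC
  field_simp

theorem ker_mean {N M : ℕ} (hN : M < N) (x : ℤ) :
    ∑ y ∈ Finset.range N, ker N M (x - (y : ℤ)) = N := by
  have h : ∑ y ∈ Finset.range N, ((ker N M (x - (y : ℤ)) : ℝ) : ℂ) = (N : ℂ) := by
    simp_rw [ker_eq]
    rw [Finset.sum_comm]
    have h1 : ∀ u : Fin (2 * M + 1), ∑ y ∈ Finset.range N,
        (cf M u : ℂ) * ez N (((u : ℕ) - M : ℤ) * (x - (y : ℤ))) =
        if (u : ℕ) = M then (N : ℂ) else 0 := by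
      intro u
      rw [← Finset.mul_sum, sum_ez (by omega) (by
        have := u.2
        rw [abs_lt]; constructor <;> omega)]
      by_cases hu : (u : ℕ) = M
      · rw [if_pos hu, if_pos (by omega), hu, cf_self]; simp
      · rw [if_neg hu, if_neg (by omega), mul_zero]
    rw [Finset.sum_congr rfl fun u _ => h1 u]
    rw [Finset.sum_eq_single (⟨M, by omega⟩ : Fin (2 * M + 1))]
    · simp
    · intro b _ hb
      rw [if_neg]
      intro h
      exact hb (Fin.ext h)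
    · simp
  exact_mod_cast h

theorem ker_second {N M : ℕ} (hM : 1 ≤ M) (hN : M + 1 < N) (x : ℤ) :
    ∑ y ∈ Finset.range N, ker N M (x - (y : ℤ)) *
      (1 - Real.cos (2 * Real.pi * ((x - (y : ℤ) : ℤ) : ℝ) / N)) = N / (M + 1) := by
  have h : ∑ y ∈ Finset.range N, ((ker N M (x - (y : ℤ)) : ℝ) : ℂ) * ez N (x - (y : ℤ)) =
      (N : ℂ) * (M / (M + 1) : ℝ) := by
    simp_rw [ker_eq, Finset.sum_mul]
    rw [Finset.sum_comm]
    have h1 : ∀ u : Fin (2 * M + 1), ∑ y ∈ Finset.range N,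
        (cf M u : ℂ) * ez N (((u : ℕ) - M : ℤ) * (x - (y : ℤ))) * ez N (x - (y : ℤ)) =
        if (u : ℕ) = M - 1 then (N : ℂ) * (M / (M + 1) : ℝ) else 0 := by
      intro u
      have h2 : ∀ y ∈ Finset.range N,
          (cf M u : ℂ) * ez N (((u : ℕ) - M : ℤ) * (x - (y : ℤ))) * ez N (x - (y : ℤ)) =
          (cf M u : ℂ) * ez N (((u : ℕ) - M + 1 : ℤ) * (x - (y : ℤ))) := by
        intro y _
        rw [mul_assoc, ← ez_add]
        congr 2
        ring
      rw [Finset.sum_congr rfl h2, ← Finset.mul_sum, sum_ez (by omega) (by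
        have := u.2
        rw [abs_lt]; constructor <;> omega)]
      by_cases hu : (u : ℕ) = M - 1
      · rw [if_pos hu, if_pos (by omega), hu, cf_pred hM, mul_comm]
      · rw [if_neg hu, if_neg (by omega), mul_zero]
    rw [Finset.sum_congr rfl fun u _ => h1 u]
    rw [Finset.sum_eq_single (⟨M - 1, by omega⟩ : Fin (2 * M + 1))]
    · simp
    · intro b _ hb
      rw [if_neg]
      intro h
      exact hb (Fin.ext h)
    · simp
  have h' := congrArg Complex.re h
  rw [Complex.re_sum] at h'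
  have h3 : ∀ y ∈ Finset.range N, (((ker N M (x - (y : ℤ)) : ℝ) : ℂ) * ez N (x - (y : ℤ))).re =
      ker N M (x - (y : ℤ)) * Real.cos (2 * Real.pi * ((x - (y : ℤ) : ℤ) : ℝ) / N) := by
    intro y _
    rw [Complex.re_ofReal_mul, re_ez]
  rw [Finset.sum_congr rfl h3] at h'
  have h4 : ((N : ℂ) * ((M / (M + 1) : ℝ) : ℂ)).re = N * (M / (M + 1)) := by
    have : ((N : ℂ) * ((M / (M + 1) : ℝ) : ℂ)) = ((N * (M / (M + 1)) : ℝ) : ℂ) := by push_cast; ring
    rw [this, Complex.ofReal_re]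
  rw [h4] at h'
  simp_rw [mul_sub, mul_one]
  rw [Finset.sum_sub_distrib, ker_mean (by omega), h']
  field_simp
  ring

/-- the distance to the multiples of `N` -/
theorem bmod_spec {N : ℕ} (hN : 1 ≤ N) (t : ℤ) :
    2 * |Int.bmod t N| ≤ N ∧ ∃ k : ℤ, t = Int.bmod t N + N * k := by
  constructor
  · have h1 := Int.le_bmod (x := t) (m := N) (by omega)
    have h2 := Int.bmod_lt (x := t) (m := N) (by omega)
    rcases abs_cases (Int.bmod t N) with ⟨h, _⟩ | ⟨h, _⟩ <;> rw [h] <;> omega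
  · obtain ⟨k, hk⟩ := Int.dvd_bmod_sub_self (x := t) (m := N)
    refine ⟨-k, ?_⟩
    linarith

theorem abs_bmod_le {N : ℕ} (hN : 1 ≤ N) (t k : ℤ) : |Int.bmod t N| ≤ |t - N * k| := by
  obtain ⟨h1, l, hl⟩ := bmod_spec hN t
  set r := Int.bmod t N
  rw [hl]
  rcases eq_or_ne l k with rfl | hlk
  · simp
  · have h2 : r + N * l - N * k = r + N * (l - k) := by ring
    rw [h2]
    have h3 : 1 ≤ |l - k| := Int.one_le_abs (sub_ne_zero.2 hlk)
    have h4 : |(N : ℤ) * (l - k)| = N * |l - k| := by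
      rw [abs_mul, abs_of_nonneg (by positivity : (0 : ℤ) ≤ N)]
    have h5 : |(N : ℤ) * (l - k)| ≤ |r + N * (l - k)| + |r| := by
      calc |(N : ℤ) * (l - k)| = |(r + N * (l - k)) + (-r)| := by ring_nf
        _ ≤ |r + N * (l - k)| + |-r| := abs_add_le _ _
        _ = _ := by rw [abs_neg]
    have h6 : (N : ℤ) * 1 ≤ N * |l - k| := mul_le_mul_of_nonneg_left h3 (by positivity)
    linarith

/-- the triangular wave -/
def tw (N : ℕ) (t : ℤ) : ℤ := |Int.bmod (t + (N / 8 : ℕ)) N| - (N / 8 : ℕ)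

theorem tw_lip {N : ℕ} (hN : 1 ≤ N) (s t : ℤ) : |tw N s - tw N t| ≤ |Int.bmod (s - t) N| := by
  have key : ∀ s t : ℤ, tw N s - tw N t ≤ |Int.bmod (s - t) N| := by
    intro s t
    unfold tw
    obtain ⟨_, k, hk⟩ := bmod_spec hN (t + (N / 8 : ℕ))
    obtain ⟨_, l, hl⟩ := bmod_spec hN (s - t)
    have h1 := abs_bmod_le hN (s + (N / 8 : ℕ)) (k + l)
    have h2 : s + (N / 8 : ℕ) - N * (k + l) =
        Int.bmod (t + (N / 8 : ℕ)) N + Int.bmod (s - t) N := by linarith
    rw [h2] at h1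
    have h3 := abs_add_le (Int.bmod (t + (N / 8 : ℕ)) N) (Int.bmod (s - t) N)
    linarith
  rw [abs_le]
  constructor
  · have := key t s
    have e : |Int.bmod (t - s) N| ≤ |Int.bmod (s - t) N| := by
      obtain ⟨_, l, hl⟩ := bmod_spec hN (s - t)
      have h1 := abs_bmod_le hN (t - s) (-l)
      have h2 : t - s - N * (-l) = -Int.bmod (s - t) N := by linarith
      rwa [h2, abs_neg] at h1
    linarith
  · exact key s t

theorem tw_id {N : ℕ} (hN : 8 ≤ N) {t : ℤ} (ht : 8 * |t| ≤ N) : tw N t = t := by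
  unfold tw
  have h1 : |t| ≤ (N / 8 : ℕ) := by omega
  obtain ⟨h2, h3⟩ := abs_le.1 h1
  obtain ⟨h4, k, hk⟩ := bmod_spec (by omega : 1 ≤ N) (t + (N / 8 : ℕ))
  have h5 : |Int.bmod (t + (N / 8 : ℕ)) N| ≤ |t + (N / 8 : ℕ) - N * 0| :=
    abs_bmod_le (by omega) _ 0
  rw [mul_zero, sub_zero, abs_of_nonneg (by omega : 0 ≤ t + ((N / 8 : ℕ) : ℤ))] at h5
  have h6 : k = 0 := by
    by_contra hk0
    have h7 : 1 ≤ |k| := Int.one_le_abs hk0
    have h8 : |(N : ℤ) * k| ≤ |t + (N / 8 : ℕ)| + |Int.bmod (t + (N / 8 : ℕ)) N| := by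
      have : (N : ℤ) * k = (t + (N / 8 : ℕ)) + (-Int.bmod (t + (N / 8 : ℕ)) N) := by linarith
      rw [this]
      exact (abs_add_le _ _).trans (by rw [abs_neg])
    rw [abs_mul, abs_of_nonneg (by positivity : (0 : ℤ) ≤ N),
      abs_of_nonneg (by omega : 0 ≤ t + ((N / 8 : ℕ) : ℤ))] at h8
    have h9 : (N : ℤ) * 1 ≤ N * |k| := mul_le_mul_of_nonneg_left h7 (by positivity)
    omega
  rw [h6, mul_zero, add_zero] at hk
  rw [← hk, abs_of_nonneg (by omega : 0 ≤ t + ((N / 8 : ℕ) : ℤ))]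
  ring

/-- first moment of the kernel -/
theorem ker_first {N M : ℕ} (hM : 1 ≤ M) (hN : M + 1 < N) {δ : ℝ} (hδ : 0 < δ)
    (hδM : 1 / (8 * ((M : ℝ) + 1)) ≤ δ ^ 2) (x : ℤ) :
    ∑ y ∈ Finset.range N, ker N M (x - (y : ℤ)) *
      (|((Int.bmod (x - (y : ℤ)) N : ℤ) : ℝ)| / N) ≤ δ * N := by
  have hN0 : (0 : ℝ) < N := by exact_mod_cast (by omega : 0 < N)
  have h1 : ∀ y ∈ Finset.range N, ker N M (x - (y : ℤ)) *
      (|((Int.bmod (x - (y : ℤ)) N : ℤ) : ℝ)| / N) ≤
      (δ / 2) * ker N M (x - (y : ℤ)) + 1 / (16 * δ) * (ker N M (x - (y : ℤ)) *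
        (1 - Real.cos (2 * Real.pi * ((x - (y : ℤ) : ℤ) : ℝ) / N))) := by
    intro y _
    obtain ⟨h2, k, hk⟩ := bmod_spec (by omega : 1 ≤ N) (x - (y : ℤ))
    set r := Int.bmod (x - (y : ℤ)) N with hr
    have h3 : Real.cos (2 * Real.pi * ((x - (y : ℤ) : ℤ) : ℝ) / N) =
        Real.cos (2 * Real.pi * (r : ℝ) / N) := by
      rw [hk]
      have : (2 * Real.pi * ((r + N * k : ℤ) : ℝ) / N) = 2 * Real.pi * (r : ℝ) / N +
          k * (2 * Real.pi) := by
        push_cast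
        field_simp
      rw [this, Real.cos_add_int_mul_two_pi]
    have h2' : 2 * |(r : ℝ)| ≤ N := by exact_mod_cast h2
    have h4 : |2 * Real.pi * (r : ℝ) / N| ≤ Real.pi := by
      rw [abs_div, abs_mul, abs_of_pos (by positivity : (0 : ℝ) < 2 * Real.pi),
        abs_of_pos hN0, div_le_iff₀ hN0]
      nlinarith [Real.pi_pos]
    have h5 := Real.cos_le_one_sub_mul_cos_sq h4
    have h6 : 2 / Real.pi ^ 2 * (2 * Real.pi * (r : ℝ) / N) ^ 2 = 8 * (|(r : ℝ)| / N) ^ 2 := by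
      rw [div_pow, div_pow, sq_abs]
      have := Real.pi_pos.ne'
      field_simp
      ring
    rw [h3]
    have h7 : 8 * (|(r : ℝ)| / N) ^ 2 ≤ 1 - Real.cos (2 * Real.pi * (r : ℝ) / N) := by linarith
    have hk0 := ker_nonneg N M (x - (y : ℤ))
    set a := |(r : ℝ)| / N
    have h8 : a ≤ δ / 2 + 1 / (16 * δ) * (8 * a ^ 2) := by
      have : δ / 2 + 1 / (16 * δ) * (8 * a ^ 2) - a = (δ - a) ^ 2 / (2 * δ) := by
        field_simp
        ring
      have h9 : 0 ≤ (δ - a) ^ 2 / (2 * δ) := by positivity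
      linarith
    have h10 : a ≤ δ / 2 + 1 / (16 * δ) * (1 - Real.cos (2 * Real.pi * (r : ℝ) / N)) := by
      have : 1 / (16 * δ) * (8 * a ^ 2) ≤
          1 / (16 * δ) * (1 - Real.cos (2 * Real.pi * (r : ℝ) / N)) :=
        mul_le_mul_of_nonneg_left h7 (by positivity)
      linarith
    calc ker N M (x - (y : ℤ)) * a ≤ ker N M (x - (y : ℤ)) *
          (δ / 2 + 1 / (16 * δ) * (1 - Real.cos (2 * Real.pi * (r : ℝ) / N))) :=
        mul_le_mul_of_nonneg_left h10 hk0
      _ = _ := by ring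
  refine (Finset.sum_le_sum h1).trans ?_
  rw [Finset.sum_add_distrib, ← Finset.mul_sum, ← Finset.mul_sum, ker_mean (by omega),
    ker_second hM hN]
  have h2 : 1 / (16 * δ) * (N / ((M : ℝ) + 1)) = (1 / (8 * ((M : ℝ) + 1))) * (N / (2 * δ)) := by
    field_simp
    ring
  rw [h2]
  have h3 : (1 / (8 * ((M : ℝ) + 1))) * (N / (2 * δ)) ≤ δ ^ 2 * (N / (2 * δ)) :=
    mul_le_mul_of_nonneg_right hδM (by positivity)
  have h4 : δ ^ 2 * (N / (2 * δ)) = δ / 2 * N := by
    field_simp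
  linarith

section multi

variable {J : Type*} [Fintype J] [DecidableEq J]

/-- `l^1` Lipschitz functions -/
theorem lip_of_unit {G : (J → ℤ) → ℝ} {δ : ℝ}
    (h : ∀ x a, |G (x + Pi.single a 1) - G x| ≤ δ) (x y : J → ℤ) :
    |G x - G y| ≤ δ * ∑ j, |((x j - y j : ℤ) : ℝ)| := by
  classical
  have hnat : ∀ (x : J → ℤ) (a : J) (n : ℕ), |G (x + Pi.single a (n : ℤ)) - G x| ≤ δ * n := by
    intro x a n
    induction n with
    | zero => simp
    | succ n ih =>
      have e : x + Pi.single a ((n + 1 : ℕ) : ℤ) = (x + Pi.single a (n : ℤ)) + Pi.single a 1 := by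
        rw [add_assoc, ← Pi.single_add]
        push_cast
        rfl
      rw [e]
      have h1 := h (x + Pi.single a (n : ℤ)) a
      have h2 := abs_add_le (G (x + Pi.single a (n : ℤ) + Pi.single a 1) -
        G (x + Pi.single a (n : ℤ))) (G (x + Pi.single a (n : ℤ)) - G x)
      rw [sub_add_sub_cancel] at h2
      push_cast
      linarith
  have hint : ∀ (x : J → ℤ) (a : J) (n : ℤ), |G (x + Pi.single a n) - G x| ≤ δ * |(n : ℝ)| := by
    intro x a n
    rcases Int.eq_nat_or_neg n with ⟨m, rfl | rfl⟩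
    · simpa using hnat x a m
    · have h1 := hnat (x + Pi.single a (-(m : ℤ))) a m
      rw [add_assoc, ← Pi.single_add, neg_add_cancel, Pi.single_zero, add_zero] at h1
      rw [abs_sub_comm]
      simpa using h1
  -- change the coordinates one after the other
  have hset : ∀ (s : Finset J) (x : J → ℤ), (∀ j, j ∉ s → x j = y j) →
      |G x - G y| ≤ δ * ∑ j ∈ s, |((x j - y j : ℤ) : ℝ)| := by
    intro s
    induction s using Finset.induction_on with
    | empty =>
      intro x hx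
      have : x = y := funext fun j => hx j (by simp)
      subst this
      simp
    | insert a s ha ih =>
      intro x hx
      set x' : J → ℤ := Function.update x a (y a) with hx'
      have e : x = x' + Pi.single a (x a - y a) := by
        funext j
        rcases eq_or_ne j a with rfl | hj
        · simp [hx']
        · simp [hx', Function.update_of_ne hj, Pi.single_eq_of_ne hj]
      have h1 := hint x' a (x a - y a)
      rw [← e] at h1
      have h2 := ih x' (by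
        intro j hj
        rcases eq_or_ne j a with rfl | hja
        · simp [hx']
        · rw [hx', Function.update_of_ne hja]
          exact hx j (by simp [hja, hj]))
      have h3 : ∑ j ∈ s, |((x' j - y j : ℤ) : ℝ)| = ∑ j ∈ s, |((x j - y j : ℤ) : ℝ)| := by
        refine Finset.sum_congr rfl fun j hj => ?_
        have : j ≠ a := fun h => ha (h ▸ hj)
        rw [hx', Function.update_of_ne this]
      rw [h3] at h2
      rw [Finset.sum_insert ha, mul_add]
      have h4 := abs_add_le (G x - G x') (G x' - G y)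
      rw [sub_add_sub_cancel] at h4
      push_cast at h1 h2 ⊢
      linarith
  exact hset Finset.univ x (by simp)

omit [DecidableEq J] in
theorem ez_sum (N : ℕ) (f : J → ℤ) : ez N (∑ j, f j) = ∏ j, ez N (f j) := by
  unfold ez
  rw [← Complex.exp_sum]
  congr 1
  push_cast
  rw [Finset.mul_sum, Finset.sum_div]

theorem prod_ker_eq (N M : ℕ) (x : J → ℤ) (y : J → ℕ) :
    ((∏ j, ker N M (x j - (y j : ℤ)) : ℝ) : ℂ) = ∑ u : J → Fin (2 * M + 1),
      ∏ j, ((cf M (u j) : ℂ) * ez N ((((u j : Fin (2 * M + 1)) : ℕ) - M : ℤ) *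
        (x j - (y j : ℤ)))) := by
  rw [Complex.ofReal_prod]
  simp_rw [ker_eq]
  rw [Finset.prod_univ_sum, Fintype.piFinset_univ]

theorem sum_prod_ker {N M : ℕ} (hN : M < N) (x : J → ℤ) :
    ∑ y ∈ Fintype.piFinset (fun _ : J => Finset.range N), ∏ j, ker N M (x j - (y j : ℤ)) =
      (N : ℝ) ^ Fintype.card J := by
  rw [← Finset.prod_univ_sum (fun _ : J => Finset.range N)
    (fun j t => ker N M (x j - (t : ℤ)))]
  simp_rw [ker_mean hN]
  simp

theorem sum_prod_ker_first {N M : ℕ} (hM : 1 ≤ M) (hN : M + 1 < N) {δ : ℝ} (hδ : 0 < δ)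
    (hδM : 1 / (8 * ((M : ℝ) + 1)) ≤ δ ^ 2) (x : J → ℤ) (i : J) :
    ∑ y ∈ Fintype.piFinset (fun _ : J => Finset.range N),
      (∏ j, ker N M (x j - (y j : ℤ))) * (|((Int.bmod (x i - (y i : ℤ)) N : ℤ) : ℝ)| / N) ≤
      δ * (N : ℝ) ^ Fintype.card J := by
  have hN0 : (0 : ℝ) < N := by exact_mod_cast (by omega : 0 < N)
  have h1 : ∀ y : J → ℕ, (∏ j, ker N M (x j - (y j : ℤ))) *
      (|((Int.bmod (x i - (y i : ℤ)) N : ℤ) : ℝ)| / N) =
      ∏ j, (ker N M (x j - (y j : ℤ)) *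
        (if j = i then |((Int.bmod (x j - (y j : ℤ)) N : ℤ) : ℝ)| / N else 1)) := by
    intro y
    rw [Finset.prod_mul_distrib, Finset.prod_ite_eq' Finset.univ i
      (fun j => |((Int.bmod (x j - (y j : ℤ)) N : ℤ) : ℝ)| / N)]
    simp
  simp_rw [h1]
  rw [← Finset.prod_univ_sum (fun _ : J => Finset.range N)
    (fun j t => ker N M (x j - (t : ℤ)) *
        (if j = i then |((Int.bmod (x j - (t : ℤ)) N : ℤ) : ℝ)| / N else 1))]
  have h2 : ∀ j ∈ (Finset.univ : Finset J), ∑ t ∈ Finset.range N, ker N M (x j - (t : ℤ)) *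
      (if j = i then |((Int.bmod (x j - (t : ℤ)) N : ℤ) : ℝ)| / N else 1) ≤
      N * (if j = i then δ else 1) := by
    intro j _
    by_cases hj : j = i
    · simp only [hj, if_true]
      have := ker_first hM hN hδ hδM (x i)
      linarith
    · simp only [hj, if_false, mul_one]
      rw [ker_mean (by omega)]
  refine (Finset.prod_le_prod (fun j _ => Finset.sum_nonneg fun t _ =>
    mul_nonneg (ker_nonneg _ _ _) ?_) h2).trans ?_
  · split_ifs
    · positivity
    · exact zero_le_one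
  · rw [Finset.prod_mul_distrib, Finset.prod_ite_eq' Finset.univ i (fun _ => δ)]
    simp [mul_comm]

end multi

end Fej

open Fej in
/-- M25: approximation by trigonometric polynomials -/
theorem fejer {J : Type*} [Fintype J] [DecidableEq J] {ε D : ℝ} (hε : 0 < ε) :
    ∃ M N₀ : ℕ, ∀ N ≥ N₀, ∀ (ctr : J → ℤ) (G : (J → ℤ) → ℝ), (∀ x, |G x| ≤ 1) →
      (∀ x a, |G (x + Pi.single a 1) - G x| ≤ D / N) →
      ∃ a : (J → Fin (2 * M + 1)) → ℂ, (∀ u, ‖a u‖ ≤ 1) ∧
        (∀ x : J → ℤ, ‖∑ u, a u * Complex.exp (2 * Real.pi * Complex.I *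
          ((∑ j, (((u j : ℕ) : ℤ) - M) * x j : ℤ) : ℂ) / N)‖ ≤ 1) ∧
        ∀ x : J → ℤ, (∀ j, 8 * |x j - ctr j| ≤ N) → ‖∑ u, a u * Complex.exp (2 * Real.pi *
          Complex.I * ((∑ j, (((u j : ℕ) : ℤ) - M) * x j : ℤ) : ℂ) / N) - G x‖ ≤ ε := by
  set n := Fintype.card J with hn
  set δ : ℝ := ε / (|D| * n + 1) with hδdef
  have hden : 0 < |D| * n + 1 := by positivity
  have hδ : 0 < δ := div_pos hε hden
  set M : ℕ := ⌈1 / (8 * δ ^ 2)⌉₊ + 1 with hMdef
  have hM : 1 ≤ M := by omega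
  have hδM : 1 / (8 * ((M : ℝ) + 1)) ≤ δ ^ 2 := by
    have h1 : 1 / (8 * δ ^ 2) ≤ (M : ℝ) + 1 := by
      have := Nat.le_ceil (1 / (8 * δ ^ 2))
      rw [hMdef]
      push_cast
      linarith
    rw [div_le_iff₀ (by positivity)] at h1 ⊢
    linarith
  refine ⟨M, M + 8, fun N hN ctr G hG hD => ?_⟩
  have hN0 : (0 : ℝ) < N := by exact_mod_cast (by omega : 0 < N)
  set F : (J → ℤ) → ℝ := fun x => G (fun j => ctr j + tw N (x j - ctr j)) with hF
  have hF1 : ∀ x, |F x| ≤ 1 := fun x => hG _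
  have hFlip : ∀ x y : J → ℤ, |F y - F x| ≤
      |D| * ∑ j, |((Int.bmod (x j - y j) N : ℤ) : ℝ)| / N := by
    intro x y
    rw [abs_sub_comm]
    have h1 := lip_of_unit hD (fun j => ctr j + tw N (x j - ctr j))
      (fun j => ctr j + tw N (y j - ctr j))
    have h2 : D / N * ∑ j, |((ctr j + tw N (x j - ctr j) - (ctr j + tw N (y j - ctr j)) : ℤ) : ℝ)| ≤
        |D| / N * ∑ j, |((Int.bmod (x j - y j) N : ℤ) : ℝ)| := by
      have h3 : ∑ j, |((ctr j + tw N (x j - ctr j) - (ctr j + tw N (y j - ctr j)) : ℤ) : ℝ)| ≤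
          ∑ j, |((Int.bmod (x j - y j) N : ℤ) : ℝ)| := by
        refine Finset.sum_le_sum fun j _ => ?_
        have h4 := tw_lip (by omega : 1 ≤ N) (x j - ctr j) (y j - ctr j)
        rw [sub_sub_sub_cancel_right] at h4
        have h5 : ctr j + tw N (x j - ctr j) - (ctr j + tw N (y j - ctr j)) =
          tw N (x j - ctr j) - tw N (y j - ctr j) := by ring
        rw [h5]
        exact_mod_cast h4
      calc _ ≤ |D| / N * ∑ j, |((ctr j + tw N (x j - ctr j) -
              (ctr j + tw N (y j - ctr j)) : ℤ) : ℝ)| := by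
            refine mul_le_mul_of_nonneg_right ?_ (by positivity)
            exact div_le_div_of_nonneg_right (le_abs_self D) hN0.le
        _ ≤ _ := mul_le_mul_of_nonneg_left h3 (by positivity)
    refine (h1.trans h2).trans (le_of_eq ?_)
    rw [← Finset.sum_div]
    ring
  set S := Fintype.piFinset (fun _ : J => Finset.range N) with hS
  have hScard : (S.card : ℝ) = (N : ℝ) ^ n := by
    rw [hS, Fintype.card_piFinset]
    simp [hn]
  set a : (J → Fin (2 * M + 1)) → ℂ := fun u => (∑ y ∈ S, (F (fun j => (y j : ℤ)) : ℂ) *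
    ∏ j, ((cf M (u j) : ℂ) * ez N (-((((u j : Fin (2 * M + 1)) : ℕ) - M : ℤ) * (y j : ℤ))))) /
      (N : ℂ) ^ n with ha
  set T : (J → ℤ) → ℝ := fun x => (∑ y ∈ S, F (fun j => (y j : ℤ)) *
    ∏ j, ker N M (x j - (y j : ℤ))) / (N : ℝ) ^ n with hT
  have hTa : ∀ x : J → ℤ, ∑ u, a u * Complex.exp (2 * Real.pi * Complex.I *
      ((∑ j, (((u j : ℕ) : ℤ) - M) * x j : ℤ) : ℂ) / N) = ((T x : ℝ) : ℂ) := by
    intro x
    have h1 : ∀ u : J → Fin (2 * M + 1), Complex.exp (2 * Real.pi * Complex.I *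
      ((∑ j, (((u j : ℕ) : ℤ) - M) * x j : ℤ) : ℂ) / N) =
        ∏ j, ez N ((((u j : Fin (2 * M + 1)) : ℕ) - M : ℤ) * x j) := by
      intro u
      rw [← ez_sum]
      rfl
    have h2 : ((T x : ℝ) : ℂ) = (∑ y ∈ S, (F (fun j => (y j : ℤ)) : ℂ) *
        ((∏ j, ker N M (x j - (y j : ℤ)) : ℝ) : ℂ)) / (N : ℂ) ^ n := by
      rw [hT]
      push_cast
      rfl
    rw [h2]
    simp_rw [h1, prod_ker_eq, ha, Finset.mul_sum]
    rw [Finset.sum_comm, Finset.sum_div]
    refine Finset.sum_congr rfl fun u _ => ?_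
    rw [div_mul_eq_mul_div, Finset.sum_mul]
    congr 1
    refine Finset.sum_congr rfl fun y _ => ?_
    rw [mul_assoc, ← Finset.prod_mul_distrib]
    congr 1
    refine Finset.prod_congr rfl fun j _ => ?_
    rw [mul_assoc, ← ez_add]
    congr 2
    ring
  have hpow : (0 : ℝ) < (N : ℝ) ^ n := by positivity
  refine ⟨a, ?_, ?_, ?_⟩
  · intro u
    rw [ha]
    simp only
    rw [norm_div, norm_pow, Complex.norm_natCast, div_le_one hpow, ← hScard]
    refine (norm_sum_le _ _).trans ?_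
    rw [← nsmul_one S.card]
    refine Finset.sum_le_card_nsmul _ _ _ fun y _ => ?_
    rw [norm_mul, Complex.norm_real, Real.norm_eq_abs, norm_prod]
    have h1 : ∏ j, ‖(cf M (u j) : ℂ) * ez N (-((((u j : Fin (2 * M + 1)) : ℕ) - M : ℤ) *
        (y j : ℤ)))‖ ≤ 1 := by
      refine Finset.prod_le_one (fun j _ => norm_nonneg _) fun j _ => ?_
      rw [norm_mul, norm_ez, mul_one, Complex.norm_real, Real.norm_eq_abs,
        abs_of_nonneg (cf_nonneg _ _)]
      exact cf_le_one _ _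
    calc _ ≤ (1 : ℝ) * 1 := mul_le_mul (hF1 _) h1
          (Finset.prod_nonneg fun j _ => norm_nonneg _) zero_le_one
      _ = 1 := one_mul 1
  · intro x
    rw [hTa, Complex.norm_real, Real.norm_eq_abs, hT]
    simp only
    rw [abs_div, abs_of_pos hpow, div_le_one hpow]
    refine (Finset.abs_sum_le_sum_abs _ _).trans ?_
    rw [hn, ← sum_prod_ker (by omega : M < N) x]
    refine Finset.sum_le_sum fun y _ => ?_
    have h1 : 0 ≤ ∏ j, ker N M (x j - (y j : ℤ)) := Finset.prod_nonneg fun j _ => ker_nonneg _ _ _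
    rw [abs_mul, abs_of_nonneg h1]
    exact mul_le_of_le_one_left h1 (hF1 _)
  · intro x hx
    have hFx : F x = G x := by
      have e : (fun j => ctr j + tw N (x j - ctr j)) = x := by
        funext j
        rw [tw_id (by omega) (hx j)]
        ring
      simp only [hF]
      rw [e]
    rw [hTa, ← hFx, ← Complex.ofReal_sub, Complex.norm_real, Real.norm_eq_abs]
    have h1 : T x - F x = (∑ y ∈ S, (F (fun j => (y j : ℤ)) - F x) *
        ∏ j, ker N M (x j - (y j : ℤ))) / (N : ℝ) ^ n := by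
      rw [hT]
      simp_rw [sub_mul]
      rw [Finset.sum_sub_distrib, ← Finset.mul_sum, sum_prod_ker (by omega : M < N) x, ← hn]
      field_simp
    rw [h1, abs_div, abs_of_pos hpow, div_le_iff₀ hpow]
    refine (Finset.abs_sum_le_sum_abs _ _).trans ?_
    have h2 : ∀ y ∈ S, |(F (fun j => (y j : ℤ)) - F x) * ∏ j, ker N M (x j - (y j : ℤ))| ≤
        |D| * ∑ i, (∏ j, ker N M (x j - (y j : ℤ))) *
          (|((Int.bmod (x i - (y i : ℤ)) N : ℤ) : ℝ)| / N) := by
      intro y _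
      have h3 : 0 ≤ ∏ j, ker N M (x j - (y j : ℤ)) :=
        Finset.prod_nonneg fun j _ => ker_nonneg _ _ _
      rw [abs_mul, abs_of_nonneg h3, ← Finset.mul_sum]
      have h4 := mul_le_mul_of_nonneg_right (hFlip x (fun j => (y j : ℤ))) h3
      linarith
    refine (Finset.sum_le_sum h2).trans ?_
    rw [← Finset.mul_sum, Finset.sum_comm]
    have h3 : ∑ i : J, ∑ y ∈ S, (∏ j, ker N M (x j - (y j : ℤ))) *
        (|((Int.bmod (x i - (y i : ℤ)) N : ℤ) : ℝ)| / N) ≤ ∑ i : J, δ * (N : ℝ) ^ n :=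
      Finset.sum_le_sum fun i _ => sum_prod_ker_first hM (by omega) hδ hδM x i
    have h4 : ∑ i : J, δ * (N : ℝ) ^ n = n * (δ * (N : ℝ) ^ n) := by
      rw [Finset.sum_const, Finset.card_univ, nsmul_eq_mul]
    rw [h4] at h3
    calc |D| * _ ≤ |D| * (n * (δ * (N : ℝ) ^ n)) := mul_le_mul_of_nonneg_left h3 (abs_nonneg D)
      _ = (|D| * n * δ) * (N : ℝ) ^ n := by ring
      _ ≤ ε * (N : ℝ) ^ n := by
        refine mul_le_mul_of_nonneg_right ?_ hpow.le
        rw [hδdef, mul_div_assoc', div_le_iff₀ hden]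
        nlinarith [abs_nonneg D, (by positivity : (0 : ℝ) ≤ |D| * n)]

end Pool.Agent.Lib.MP_3e612f_nt.MB
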