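import Pool.Agent.Lib.MP_3e612f_nt.MCen
import Pool.Agent.Lib.MP_3e612f_nt.SSchur

/-!
The Möbius function is orthogonal, in logarithmic averages, to every bounded function of
quasi-additive functions in pairwise coprime bases.
-/

set_option autoImplicit false

namespace Pool.Agent.Lib.MP_3e612f_nt.MB

open Filter Topology
open Pool.Agent.Lib.MP_3e612f_nt.QA

section several

variable {ι : Type*} [Fintype ι] [DecidableEq ι] {q : ι → ℕ} {m : ℕ} {d : ι → ℕ}
  {e : ∀ i, ℕ → Fin (d i) → ℤ} {C : ℝ}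

theorem class_gen (S : Sys q m e C) {M h : ℕ} {Q : ι → ℕ} (hM : Md q M h Q) (a : ℕ)
    {g : (∀ i, Fin (d i) → ℤ) → ℝ} (hg : ∀ x, |g x| ≤ 1) :
    Tendsto (LogAvg fun n => mu n * (if n % M = a then g (fun i => e i n) else 0))
      atTop (𝓝 0) := by
  have h1 : Tendsto (LogAvg fun n => mu n * cen q e M a g n) atTop (𝓝 0) :=
    katai_log' (abs_cen_le S hg) (K := ∑ i, 2 * q i ^ m) fun ε hε => cen_katai S hM a hg hε
  have hslow : Tendsto (fun κ => |mmean q e (κ + 1) (fun _ => a) g -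
      mmean q e κ (fun _ => a) g|) atTop (𝓝 0) := by
    rw [Metric.tendsto_nhds]
    intro ε hε
    filter_upwards [mmean_slow S (half_pos hε)] with k hk
    rw [Real.dist_eq, sub_zero, abs_abs]
    linarith [hk g (fun _ => a) hg]
  have h2 := slow_tendsto_q (q := 2) (Q := M) (a := a) le_rfl
    (DS.mu_ap_bounded _ _ hM.pos) (M := fun κ => mmean q e κ (fun _ => a) g)
    (fun κ => mmean_abs S hg) hslow
  have h3 := h1.add h2
  rw [add_zero] at h3
  refine h3.congr fun N => ?_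
  rw [← LogAvg_add]
  refine LogAvg_congr fun n _ _ => ?_
  unfold cen
  split_ifs
  · ring
  · ring

/-- all residue classes -/
theorem class_all (S : Sys q m e C) {M₀ : ℕ} (hM₀ : 1 ≤ M₀) (a : ℕ)
    {g : (∀ i, Fin (d i) → ℤ) → ℝ} (hg : ∀ x, |g x| ≤ 1) :
    Tendsto (LogAvg fun n => mu n * (if n % M₀ = a then g (fun i => e i n) else 0))
      atTop (𝓝 0) := by
  obtain ⟨M, h, Q, hdvd, hM⟩ := exists_modulus S.base S.cop hM₀
  have h1 := tendsto_finset ((Finset.range M).filter fun a' => a' % M₀ = a)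
    (fun a' n => mu n * (if n % M = a' then g (fun i => e i n) else 0))
    (fun a' _ => class_gen S hM a' hg)
  refine h1.congr fun N => LogAvg_congr fun n _ _ => ?_
  rw [← Finset.mul_sum, Finset.sum_ite_eq]
  congr 1
  have hmem : n % M ∈ (Finset.range M).filter (fun a' => a' % M₀ = a) ↔ n % M₀ = a := by
    rw [Finset.mem_filter, Finset.mem_range, Nat.mod_mod_of_dvd _ hdvd]
    exact ⟨fun h => h.2, fun h => ⟨Nat.mod_lt _ hM.pos, h⟩⟩
  by_cases hn : n % M₀ = a
  · rw [if_pos (hmem.mpr hn), if_pos hn]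
  · rw [if_neg (fun h => hn (hmem.mp h)), if_neg hn]

/-- functions of the residue class and of the values -/
theorem real_gen (S : Sys q m e C) {M₀ : ℕ} (hM₀ : 1 ≤ M₀)
    {g : ℕ → (∀ i, Fin (d i) → ℤ) → ℝ} (hg : ∀ a x, |g a x| ≤ 1) :
    Tendsto (LogAvg fun n => mu n * g (n % M₀) (fun i => e i n)) atTop (𝓝 0) := by
  have h1 := tendsto_finset (Finset.range M₀)
    (fun a n => mu n * (if n % M₀ = a then g a (fun i => e i n) else 0))
    (fun a _ => class_all S hM₀ a (hg a))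
  refine h1.congr fun N => LogAvg_congr fun n _ _ => ?_
  rw [← Finset.mul_sum]
  congr 1
  have e1 : ∀ a ∈ Finset.range M₀, (if n % M₀ = a then g a (fun i => e i n) else 0) =
      if n % M₀ = a then g (n % M₀) (fun i => e i n) else 0 := by
    intro a _
    split_ifs with h
    · rw [h]
    · rfl
  rw [Finset.sum_congr rfl e1, Finset.sum_ite_eq,
    if_pos (Finset.mem_range.mpr (Nat.mod_lt _ hM₀))]

theorem QV.mono {q m m' d : ℕ} {e : ℕ → Fin d → ℤ} {C C' : ℝ} (hq : 2 ≤ q) (h : QV q m e C)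
    (hm : m ≤ m') (hC : C ≤ C') : QV q m' e C' := by
  refine ⟨h.nonneg.trans hC, fun a y s hs => ?_, fun a s hs i => (h.growth a s hs i).trans ?_⟩
  · obtain ⟨t, rfl⟩ : ∃ t, m' = m + t := ⟨m' - m, by omega⟩
    have h1 := h.gap (a + t) y s (lt_of_lt_of_le hs (Nat.pow_le_pow_right (by omega) (by omega)))
    have e1 : a + t + m = a + (m + t) := by ring
    rwa [e1] at h1
  · exact mul_le_mul_of_nonneg_right hC (by positivity)

/-- the general real case -/
theorem real_all {q : ι → ℕ} (hq : ∀ i, 2 ≤ q i) (hc : ∀ i j, i ≠ j → (q i).Coprime (q j))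
    {m : ι → ℕ} {d : ι → ℕ} {e : ∀ i, ℕ → Fin (d i) → ℤ} {C : ι → ℝ}
    (he : ∀ i, QV (q i) (m i) (e i) (C i)) {M₀ : ℕ} (hM₀ : 1 ≤ M₀)
    {g : ℕ → (∀ i, Fin (d i) → ℤ) → ℝ} {B : ℝ} (hg : ∀ a x, |g a x| ≤ B) :
    Tendsto (LogAvg fun n => mu n * g (n % M₀) (fun i => e i n)) atTop (𝓝 0) := by
  choose l e' C' φ he' hgen hφ using fun i => exists_coords (hq i) (he i)
  have hC' : ∀ i, C' i ≤ ∑ j, C' j := fun i =>
    Finset.single_le_sum (f := C') (fun j _ => (he' j).nonneg) (Finset.mem_univ i)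
  have hm : ∀ i, m i ≤ ∑ j, m j := fun i =>
    Finset.single_le_sum (f := m) (fun j _ => Nat.zero_le _) (Finset.mem_univ i)
  have S : Sys q (∑ j, m j) e' (∑ j, C' j) :=
    ⟨hq, hc, fun i => QV.mono (hq i) (he' i) (hm i) (hC' i), hgen⟩
  have hB : 0 ≤ B := (abs_nonneg _).trans (hg 0 (fun _ => 0))
  have h1 := (real_gen S hM₀ (g := fun a x => g a (fun i => φ i (x i)) / (B + 1)) (fun a x => by
    rw [abs_div, abs_of_pos (by linarith : 0 < B + 1), div_le_one (by linarith)]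
    linarith [hg a (fun i => φ i (x i))])).const_mul (B + 1)
  rw [mul_zero] at h1
  refine h1.congr fun N => ?_
  rw [← LogAvg_const_mul]
  refine LogAvg_congr fun n _ _ => ?_
  have e1 : (fun i => φ i (e' i n)) = fun i => e i n := by
    funext i
    rw [hφ i]
  rw [e1]
  have : B + 1 ≠ 0 := by linarith
  field_simp

theorem complex_all {q : ι → ℕ} (hq : ∀ i, 2 ≤ q i) (hc : ∀ i j, i ≠ j → (q i).Coprime (q j))
    {m : ι → ℕ} {d : ι → ℕ} {e : ∀ i, ℕ → Fin (d i) → ℤ} {C : ι → ℝ}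
    (he : ∀ i, QV (q i) (m i) (e i) (C i)) {M₀ : ℕ} (hM₀ : 1 ≤ M₀)
    {g : ℕ → (∀ i, Fin (d i) → ℤ) → ℂ} {B : ℝ} (hg : ∀ a x, ‖g a x‖ ≤ B) :
    Tendsto (fun N : ℕ => (1 / Real.log N : ℂ) * ∑ n ∈ Finset.Icc 1 N,
      g (n % M₀) (fun i => e i n) * (ArithmeticFunction.moebius n : ℂ) / n) atTop (𝓝 0) := by
  have t1 := real_all hq hc he hM₀ (g := fun a x => (g a x).re)
    (fun a x => (Complex.abs_re_le_norm _).trans (hg a x))
  have t2 := real_all hq hc he hM₀ (g := fun a x => (g a x).im)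
    (fun a x => (Complex.abs_im_le_norm _).trans (hg a x))
  have h1 : Tendsto (fun N : ℕ =>
      ((LogAvg (fun n => mu n * (g (n % M₀) (fun i => e i n)).re) N : ℝ) : ℂ) +
      ((LogAvg (fun n => mu n * (g (n % M₀) (fun i => e i n)).im) N : ℝ) : ℂ) * Complex.I) atTop
      (𝓝 (((0 : ℝ) : ℂ) + ((0 : ℝ) : ℂ) * Complex.I)) :=
    ((Complex.continuous_ofReal.tendsto _).comp t1).add
      (((Complex.continuous_ofReal.tendsto _).comp t2).mul_const _)
  simp only [Complex.ofReal_zero, zero_mul, add_zero] at h1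
  refine h1.congr fun N => ?_
  unfold LogAvg
  push_cast
  rw [mul_assoc, ← mul_add, Finset.sum_mul, ← Finset.sum_add_distrib]
  congr 1
  refine Finset.sum_congr rfl fun n _ => ?_
  have e4 : (mu n : ℂ) = (ArithmeticFunction.moebius n : ℂ) := by
    unfold mu
    push_cast
    rfl
  have e3 := Complex.re_add_im (g (n % M₀) (fun i => e i n))
  rw [← e4]
  conv_rhs => rw [← e3]
  ring

/-- test functions which depend on `N` -/
theorem complex_seq {q : ι → ℕ} (hq : ∀ i, 2 ≤ q i) (hc : ∀ i j, i ≠ j → (q i).Coprime (q j))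
    {m : ι → ℕ} {d : ι → ℕ} {e : ∀ i, ℕ → Fin (d i) → ℤ} {C : ι → ℝ}
    (he : ∀ i, QV (q i) (m i) (e i) (C i)) {M₀ : ℕ} (hM₀ : 1 ≤ M₀)
    {Ψ : ℕ → ℕ → (∀ i, Fin (d i) → ℤ) → ℂ} {B : ℝ} (hΨ : ∀ N a x, ‖Ψ N a x‖ ≤ B) :
    Tendsto (fun N : ℕ => (1 / Real.log N : ℂ) * ∑ n ∈ Finset.Icc 1 N,
      Ψ N (n % M₀) (fun i => e i n) * (ArithmeticFunction.moebius n : ℂ) / n) atTop (𝓝 0) := by
  have h1 := SA.schur (Z := ℕ × (∀ i, Fin (d i) → ℤ)) (fun n => (n % M₀, fun i => e i n))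
    (fun n => (ArithmeticFunction.moebius n : ℂ) / n) (fun N => (1 / Real.log N : ℂ))
    (fun B' Φ hΦ => by
      refine (complex_all hq hc he hM₀ (g := fun a v => Φ (a, v)) fun a v => hΦ (a, v)).congr
        fun N => ?_
      unfold SA.tst
      congr 1
      exact Finset.sum_congr rfl fun n _ => by ring)
    (fun N z => Ψ N z.1 z.2) (B := B) (fun N z => hΨ N z.1 z.2)
  refine h1.congr fun N => ?_
  unfold SA.tst
  congr 1
  exact Finset.sum_congr rfl fun n _ => by ring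

end several

end Pool.Agent.Lib.MP_3e612f_nt.MB
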