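import Pool.Agent.Lib.MP_3e612f_nt.MDefs
import Pool.Agent.Lib.MP_3e612f_nt.QVarUp

/-! MP_3e612f_nt (several coprime bases), M26a and M26b (helper39). -/

set_option autoImplicit false

namespace Pool.Agent.Lib.MP_3e612f_nt.MB

open Filter Topology
open Pool.Agent.Lib.MP_3e612f_nt.QA

/-- the one-dimensional Gaussian sum -/
theorem gauss_sum_one {c : ℝ} (hc : 0 < c) :
    ∃ K : ℝ, 0 ≤ K ∧ ∀ M : ℕ, ∑ u : Fin (2 * M + 1),
      Real.exp (-(c * (((u : ℕ) : ℝ) - M) ^ 2)) ≤ K := by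
  set ρ : ℝ := Real.exp (-c) with hρ
  have hρ0 : 0 < ρ := Real.exp_pos _
  have hρ1 : ρ < 1 := by
    rw [hρ]
    rw [← Real.exp_zero]
    exact Real.exp_lt_exp.mpr (by linarith)
  have hgeo : ∀ n : ℕ, ∑ i ∈ Finset.range n, ρ ^ i ≤ (1 - ρ)⁻¹ := by
    intro n
    have hs := summable_geometric_of_lt_one hρ0.le hρ1
    have := hs.sum_le_tsum (Finset.range n) (fun i _ => pow_nonneg hρ0.le i)
    rwa [tsum_geometric_of_lt_one hρ0.le hρ1] at this
  have hterm : ∀ k : ℕ, ∀ x : ℝ, |x| = k → Real.exp (-(c * x ^ 2)) ≤ ρ ^ k := by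
    intro k x hx
    rw [hρ, ← Real.exp_nat_mul]
    apply Real.exp_le_exp.mpr
    have h1 : x ^ 2 = (k : ℝ) ^ 2 := by rw [← sq_abs, hx]
    rw [h1]
    have h2 : (k : ℝ) ≤ (k : ℝ) ^ 2 := by
      have : k ≤ k ^ 2 := Nat.le_self_pow (by norm_num) k
      exact_mod_cast this
    nlinarith
  refine ⟨2 * (1 - ρ)⁻¹, by
    have : 0 < (1 - ρ)⁻¹ := inv_pos.mpr (by linarith)
    linarith, fun M => ?_⟩
  have h0 : ∑ u : Fin (2 * M + 1), Real.exp (-(c * (((u : ℕ) : ℝ) - M) ^ 2)) =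
      ∑ u ∈ Finset.range (2 * M + 1), Real.exp (-(c * ((u : ℝ) - M) ^ 2)) :=
    (Finset.sum_range (fun u : ℕ => Real.exp (-(c * ((u : ℝ) - M) ^ 2)))).symm
  rw [h0]
  have h1 : 2 * M + 1 = M + (M + 1) := by ring
  rw [h1, Finset.sum_range_add]
  have h2 : ∑ u ∈ Finset.range M, Real.exp (-(c * ((u : ℝ) - M) ^ 2)) ≤ (1 - ρ)⁻¹ := by
    rw [← Finset.sum_range_reflect]
    calc _ ≤ ∑ i ∈ Finset.range M, ρ ^ i := by
          apply Finset.sum_le_sum
          intro i hi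
          have hi' : i < M := Finset.mem_range.mp hi
          have h3 : ((M - 1 - i : ℕ) : ℝ) - M = -((i : ℝ) + 1) := by
            have : M - 1 - i + (i + 1) = M := by omega
            have h4 : ((M - 1 - i : ℕ) : ℝ) + ((i : ℝ) + 1) = M := by exact_mod_cast this
            linarith
          rw [h3]
          refine (hterm (i + 1) _ ?_).trans ?_
          · rw [abs_neg, abs_of_nonneg (by positivity)]
            push_cast
            rfl
          · rw [pow_succ]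
            have := pow_nonneg hρ0.le i
            nlinarith
      _ ≤ _ := hgeo M
  have h3 : ∑ u ∈ Finset.range (M + 1), Real.exp (-(c * (((M + u : ℕ) : ℝ) - M) ^ 2)) ≤
      (1 - ρ)⁻¹ := by
    calc _ ≤ ∑ i ∈ Finset.range (M + 1), ρ ^ i := by
          apply Finset.sum_le_sum
          intro i _
          apply hterm i
          push_cast
          rw [add_sub_cancel_left]
          exact abs_of_nonneg (Nat.cast_nonneg _)
      _ ≤ _ := hgeo (M + 1)
  linarith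

/-- M26a: a Gaussian sum -/
theorem gauss_sum {J : Type*} [Fintype J] [DecidableEq J] {c : ℝ} (hc : 0 < c) :
    ∃ K : ℝ, 0 ≤ K ∧ ∀ M : ℕ, ∑ u : J → Fin (2 * M + 1),
      Real.exp (-(c * ∑ j, (((u j : ℕ) : ℝ) - M) ^ 2)) ≤ K := by
  obtain ⟨K, hK, hKM⟩ := gauss_sum_one hc
  refine ⟨K ^ Fintype.card J, by positivity, fun M => ?_⟩
  have h1 : ∀ u : J → Fin (2 * M + 1), Real.exp (-(c * ∑ j, (((u j : ℕ) : ℝ) - M) ^ 2)) =
      ∏ j, Real.exp (-(c * (((u j : ℕ) : ℝ) - M) ^ 2)) := by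
    intro u
    rw [← Real.exp_sum]
    congr 1
    rw [Finset.sum_neg_distrib, Finset.mul_sum]
  simp_rw [h1]
  have h2 := Finset.prod_univ_sum (fun _ : J => (Finset.univ : Finset (Fin (2 * M + 1))))
    (fun _ (x : Fin (2 * M + 1)) => Real.exp (-(c * (((x : ℕ) : ℝ) - M) ^ 2)))
  rw [Fintype.piFinset_univ] at h2
  rw [← h2, Finset.prod_const, Finset.card_univ]
  exact pow_le_pow_left₀ (Finset.sum_nonneg fun _ _ => (Real.exp_pos _).le) (hKM M) _

/-- the `q`-adic level is at most the dyadic level -/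
theorem lg_le {q : ℕ} (hq : 2 ≤ q) (k : ℕ) : lg q k ≤ k := by
  unfold lg
  calc Nat.log q (2 ^ k) ≤ Nat.log 2 (2 ^ k) := Nat.log_anti_left (by norm_num) hq
    _ = k := Nat.log_pow (by norm_num) k

/-- M26b: the second moment of the model -/
theorem model_second {q m : ℕ} (hq : 2 ≤ q) :
    ∃ K : ℝ, 0 ≤ K ∧ ∀ (F : ℕ → ℝ) (C : ℝ), QR q m F C → ∀ k : ℕ,
      av q (lg q k) (fun n => (F n - av q (lg q k) F) ^ 2) ≤ K * C ^ 2 * (k + 1) := by
  obtain ⟨K, hK, h⟩ := var_le (q := q) (m := m) hq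
  refine ⟨K, hK, fun F C hF k => ?_⟩
  have h1 := h F C hF (lg q k)
  have h2 : av q (lg q k) (fun n => (F n - av q (lg q k) F) ^ 2) = cov q (lg q k) F F := by
    rw [cov_eq hq]
    congr 1
    funext n
    ring
  rw [h2]
  refine h1.trans ?_
  have h3 : (lg q k : ℝ) ≤ k + 1 := by
    have := lg_le hq k
    have h4 : (lg q k : ℝ) ≤ k := by exact_mod_cast this
    linarith
  have h5 : 0 ≤ K * C ^ 2 := by positivity
  exact mul_le_mul_of_nonneg_left h3 h5

end Pool.Agent.Lib.MP_3e612f_nt.MB
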