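import Pool.Agent.Lib.MP_3e612f_nt.MBound
import Pool.Agent.Lib.MP_3e612f_nt.MDep
import Pool.Agent.Lib.MP_3e612f_nt.MCrt

/-!
The law of the increments of all values.
-/

set_option autoImplicit false

namespace Pool.Agent.Lib.MP_3e612f_nt.MB

open Filter Topology
open Pool.Agent.Lib.MP_3e612f_nt.QA

theorem mi_rate {ρ : ℝ} (h0 : 0 < ρ) (h1 : ρ < 1) {g : ℕ} (hg : 1 ≤ g) :
    ∃ θ : ℝ, 0 < θ ∧ θ < 1 ∧ ∀ a N : ℕ, a + 1 ≤ g * (N + 1) → ρ ^ N ≤ ρ⁻¹ * θ ^ a := by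
  have hg0 : (0 : ℝ) < g := by exact_mod_cast hg
  have hθ0 : 0 < ρ ^ ((g : ℝ)⁻¹) := Real.rpow_pos_of_pos h0 _
  have hθ1 : ρ ^ ((g : ℝ)⁻¹) < 1 := Real.rpow_lt_one h0.le h1 (by positivity)
  refine ⟨ρ ^ ((g : ℝ)⁻¹), hθ0, hθ1, ?_⟩
  intro a N h
  have hθ : (ρ ^ ((g : ℝ)⁻¹)) ^ g = ρ := by
    rw [← Real.rpow_natCast, ← Real.rpow_mul h0.le, inv_mul_cancel₀ hg0.ne', Real.rpow_one]
  have h2 : ρ ^ (N + 1) ≤ (ρ ^ ((g : ℝ)⁻¹)) ^ a := by
    calc ρ ^ (N + 1) = (ρ ^ ((g : ℝ)⁻¹)) ^ (g * (N + 1)) := by rw [pow_mul, hθ]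
      _ ≤ _ := pow_le_pow_of_le_one hθ0.le hθ1.le (by omega)
  rw [pow_succ] at h2
  rw [inv_mul_eq_div, le_div_iff₀ h0]
  exact h2

theorem mi_unif {ι : Type*} [Fintype ι] (θ : ι → ℝ) (h : ∀ i, θ i < 1) :
    ∃ T : ℝ, 1 / 2 ≤ T ∧ T < 1 ∧ ∀ i, θ i ≤ T := by
  classical
  have key : ∀ s : Finset ι, ∃ T : ℝ, 1 / 2 ≤ T ∧ T < 1 ∧ ∀ i ∈ s, θ i ≤ T := by
    intro s
    induction s using Finset.induction_on with
    | empty => exact ⟨1 / 2, le_rfl, by norm_num, by simp⟩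
    | insert a s _ ih =>
      obtain ⟨T, h1, h2, h3⟩ := ih
      refine ⟨max T (θ a), le_max_of_le_left h1, max_lt h2 (h a), ?_⟩
      intro i hi
      rw [Finset.mem_insert] at hi
      rcases hi with rfl | hi
      · exact le_max_right _ _
      · exact le_max_of_le_left (h3 i hi)
  obtain ⟨T, h1, h2, h3⟩ := key Finset.univ
  exact ⟨T, h1, h2, fun i => h3 i (Finset.mem_univ i)⟩

theorem mi_count {N : ℕ} (hN : 1 ≤ N) (D : Finset ℕ) (u M : ℕ) :
    ((Finset.range (N * M)).filter (fun n => (u + n) % N ∈ D)).card ≤ D.card * M := by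
  induction M with
  | zero => simp
  | succ M ih =>
    rw [Finset.card_filter] at ih ⊢
    rw [Nat.mul_succ, Finset.sum_range_add, Nat.mul_succ]
    refine Nat.add_le_add ih ?_
    rw [← Finset.card_filter]
    refine Finset.card_le_card_of_injOn (fun n => (u + (N * M + n)) % N) ?_ ?_
    · intro n hn
      simp only [Finset.coe_filter, Set.mem_ofPred_eq] at hn
      exact hn.2
    · intro x hx y hy hxy
      simp only [Finset.coe_filter, Finset.mem_range, Set.mem_ofPred_eq] at hx hy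
      have h1 : u + (N * M + x) ≡ u + (N * M + y) [MOD N] := hxy
      have h2 : x ≡ y [MOD N] :=
        Nat.ModEq.add_left_cancel' (N * M) (Nat.ModEq.add_left_cancel' u h1)
      have h4 : x % N = y % N := h2
      rwa [Nat.mod_eq_of_lt hx.1, Nat.mod_eq_of_lt hy.1] at h4

theorem mi_prop {N T : ℕ} (hN : 1 ≤ N) (hT : 1 ≤ T) (D : Finset ℕ) (u : ℕ) :
    (((Finset.range T).filter (fun n => (u + n) % N ∈ D)).card : ℝ) / T ≤
      (D.card : ℝ) / N + (D.card : ℝ) / T := by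
  have hT0 : (0 : ℝ) < T := by exact_mod_cast hT
  have hN0 : (0 : ℝ) < N := by exact_mod_cast hN
  have h1 : ((Finset.range T).filter (fun n => (u + n) % N ∈ D)).card ≤ D.card * (T / N + 1) := by
    refine le_trans (Finset.card_le_card ?_) (mi_count hN D u (T / N + 1))
    intro n hn
    rw [Finset.mem_filter, Finset.mem_range] at hn ⊢
    exact ⟨lt_of_lt_of_le hn.1 (Nat.lt_mul_div_succ T (by omega)).le, hn.2⟩
  have h2 : (((Finset.range T).filter (fun n => (u + n) % N ∈ D)).card : ℝ) ≤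
      D.card * ((T : ℝ) / N + 1) := by
    calc (((Finset.range T).filter (fun n => (u + n) % N ∈ D)).card : ℝ)
        ≤ ((D.card * (T / N + 1) : ℕ) : ℝ) := by exact_mod_cast h1
      _ = D.card * (((T / N : ℕ) : ℝ) + 1) := by push_cast; ring
      _ ≤ D.card * ((T : ℝ) / N + 1) := by
        gcongr
        exact Nat.cast_div_le
  rw [div_le_iff₀ hT0]
  refine h2.trans (le_of_eq ?_)
  field_simp

theorem mi_lg {q : ℕ} (hq : 2 ≤ q) {g : ℕ} (hg : q ≤ 2 ^ g) (a : ℕ) :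
    lg q a + 1 ≤ lg q (2 * a) + 1 ∧ a + 1 ≤ g * (lg q (2 * a) + 1 - (lg q a + 1) + 1) ∧
      2 ^ a ≤ q ^ (lg q a + 1) ∧ q ^ (lg q (2 * a) + 1) ≤ q * 2 ^ (2 * a) := by
  have h1 : lg q a ≤ lg q (2 * a) := by
    unfold lg
    exact Nat.log_mono_right (Nat.pow_le_pow_right (by norm_num) (by omega))
  have h2 : q ^ lg q a ≤ 2 ^ a := Nat.pow_log_le_self q (by positivity)
  have h3 : 2 ^ a < q ^ (lg q a + 1) := Nat.lt_pow_succ_log_self (by omega) _
  have h4 : 2 ^ (2 * a) < q ^ (lg q (2 * a) + 1) := Nat.lt_pow_succ_log_self (by omega) _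
  have h5 : q ^ lg q (2 * a) ≤ 2 ^ (2 * a) := Nat.pow_log_le_self q (by positivity)
  refine ⟨by omega, ?_, h3.le, ?_⟩
  · set E := lg q (2 * a) + 1 - lg q a with hE
    have hE' : lg q (2 * a) + 1 - (lg q a + 1) + 1 = E := by omega
    rw [hE']
    have h6 : lg q (2 * a) + 1 = lg q a + E := by omega
    rw [h6, pow_add, two_mul, pow_add] at h4
    have h7 : 2 ^ a * 2 ^ a < 2 ^ a * q ^ E := lt_of_lt_of_le h4 (Nat.mul_le_mul_right _ h2)
    have h8 : 2 ^ a < q ^ E := lt_of_mul_lt_mul_left h7 (Nat.zero_le _)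
    have h9 : 2 ^ a < 2 ^ (g * E) := by
      rw [pow_mul]
      exact lt_of_lt_of_le h8 (Nat.pow_le_pow_left hg E)
    have := (Nat.pow_lt_pow_iff_right (by norm_num : 1 < 2)).1 h9
    omega
  · rw [pow_succ, mul_comm]
    exact Nat.mul_le_mul_left _ h5

theorem mi_sqrt {a N G d : ℕ} (h : a + 1 ≤ G * (N + 1)) {C : ℝ} (hC : 0 ≤ C) :
    C / Real.sqrt (N + 1) ^ d ≤ C * Real.sqrt G ^ d / Real.sqrt (a + 1) ^ d := by
  have h1 : (0 : ℝ) < Real.sqrt (N + 1) := Real.sqrt_pos.2 (by positivity)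
  have h2 : (0 : ℝ) < Real.sqrt (a + 1) := Real.sqrt_pos.2 (by positivity)
  rw [div_le_div_iff₀ (pow_pos h1 _) (pow_pos h2 _), mul_assoc, ← mul_pow]
  refine mul_le_mul_of_nonneg_left (pow_le_pow_left₀ h2.le ?_ d) hC
  rw [← Real.sqrt_mul (by positivity)]
  apply Real.sqrt_le_sqrt
  exact_mod_cast h

theorem mi_tele {H : Type*} [AddCommGroup H] (Φ : H → H → ℝ) {w w' : H} {β : ℝ}
    (h : ∀ u u', |Φ u u' - Φ (u + w) (u' + w')| ≤ β) (s : ℤ) :
    |Φ 0 0 - Φ (s • w) (s • w')| ≤ |(s : ℝ)| * β := by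
  induction s using Int.induction_on with
  | zero => simp
  | succ i ih =>
    have h1 := h ((i : ℤ) • w) ((i : ℤ) • w')
    have h2 : |(((i : ℤ) + 1 : ℤ) : ℝ)| = |((i : ℤ) : ℝ)| + 1 := by
      push_cast
      rw [abs_of_nonneg (by positivity), abs_of_nonneg (by positivity)]
    rw [h2, add_mul, one_mul, add_smul, add_smul, one_smul, one_smul]
    have h3 := abs_sub_le (Φ 0 0) (Φ ((i : ℤ) • w) ((i : ℤ) • w'))
      (Φ ((i : ℤ) • w + w) ((i : ℤ) • w' + w'))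
    linarith
  | pred i ih =>
    have h1 := h ((-(i : ℤ) - 1) • w) ((-(i : ℤ) - 1) • w')
    have e1 : (-(i : ℤ) - 1) • w + w = (-(i : ℤ)) • w := by rw [sub_smul, one_smul]; abel
    have e2 : (-(i : ℤ) - 1) • w' + w' = (-(i : ℤ)) • w' := by rw [sub_smul, one_smul]; abel
    rw [e1, e2] at h1
    have h2 : |((-(i : ℤ) - 1 : ℤ) : ℝ)| = |((-(i : ℤ) : ℤ) : ℝ)| + 1 := by
      push_cast
      rw [abs_neg, abs_of_nonneg (by positivity : (0 : ℝ) ≤ (i : ℝ)),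
        show (-(i : ℝ) - 1) = -((i : ℝ) + 1) by ring, abs_neg, abs_of_nonneg (by positivity)]
    rw [h2, add_mul, one_mul]
    have h3 := abs_sub_le (Φ 0 0) (Φ ((-(i : ℤ)) • w) ((-(i : ℤ)) • w'))
      (Φ ((-(i : ℤ) - 1) • w) ((-(i : ℤ) - 1) • w'))
    rw [abs_sub_comm (Φ ((-(i : ℤ)) • w) ((-(i : ℤ)) • w'))] at h3
    linarith

/-- all the information about one base -/
theorem mi_base {q m d : ℕ} (hq : 2 ≤ q) {e : ℕ → Fin d → ℤ}
    (he : ∀ a y s : ℕ, s < q ^ a → e (q ^ (a + m) * y + s) = e y + e s)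
    (hgen : AddSubgroup.closure (Set.range e) = ⊤) {P R : ℕ}
    (hP : P.Coprime q) (hR : R.Coprime q) (hPR : 2 * q ^ m * P ≤ R) (hP1 : 1 ≤ P)
    {w w' : Fin d → ℤ} (hw : w ∈ Lam e) (hw' : w' ∈ Lam e) :
    ∃ K θ : ℝ, 0 ≤ K ∧ 0 < θ ∧ θ < 1 ∧ ∀ a : ℕ, ∃ B D : Finset ℕ,
      (B.card : ℝ) ≤ K * θ ^ a * 2 ^ a ∧
      (D.card : ℝ) ≤ K * θ ^ a * (q ^ (lg q (2 * a) + 1) : ℕ) ∧
      (∀ n r h c z c' z' : ℕ, r ≤ 2 ^ a → n % q ^ (lg q (2 * a) + 1) ∉ D → c ≤ P → z < q ^ h →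
        c' ≤ R → z' < q ^ h →
        e (sd q h P c z (n + r)) - e (sd q h P c z n) =
          e (sd q h P c z (n % q ^ (lg q (2 * a) + 1) + r)) -
            e (sd q h P c z (n % q ^ (lg q (2 * a) + 1))) ∧
        e (sd q h R c' z' (n + r)) - e (sd q h R c' z' n) =
          e (sd q h R c' z' (n % q ^ (lg q (2 * a) + 1) + r)) -
            e (sd q h R c' z' (n % q ^ (lg q (2 * a) + 1)))) ∧
      ∀ r < 2 ^ a, r ∉ B → ∀ h c z c' z' : ℕ, c ≤ P → z < q ^ h → c' ≤ R → z' < q ^ h →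
        |Inc q P R e r h (lg q (2 * a) + 1) 0 c c c' c' z z z' z' (ind 0 0)| ≤
          K / Real.sqrt (a + 1) ^ (2 * d) ∧
        ∀ s : ℤ, |Inc q P R e r h (lg q (2 * a) + 1) 0 c c c' c' z z z' z' (ind 0 0) -
          Inc q P R e r h (lg q (2 * a) + 1) 0 c c c' c' z z z' z' (ind (s • w) (s • w'))| ≤
          K * |(s : ℝ)| / Real.sqrt (a + 1) ^ (2 * d + 1) := by
  obtain ⟨A, C, ρ, hA, hC, hρ0, hρ1, hB⟩ := local_bound hq he hgen hP hR hPR hP1 hw hw'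
  obtain ⟨C₁, ρ₁, hC₁, hρ₁0, hρ₁1, hD₁⟩ := local_dep hq he hP
  obtain ⟨C₂, ρ₂, hC₂, hρ₂0, hρ₂1, hD₂⟩ := local_dep hq he hR
  set g := Nat.clog 2 q with hg
  have hqg : q ≤ 2 ^ g := Nat.le_pow_clog (by norm_num) q
  have hg1 : 1 ≤ g := by
    by_contra h
    have : g = 0 := by omega
    rw [this] at hqg
    omega
  set G := A * g with hG
  have hG1 : 1 ≤ G := Nat.mul_pos hA hg1
  obtain ⟨θ, hθ0, hθ1, hθ⟩ := mi_rate hρ0 hρ1 hG1
  obtain ⟨θ₁, hθ₁0, hθ₁1, hθ₁⟩ := mi_rate hρ₁0 hρ₁1 hg1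
  obtain ⟨θ₂, hθ₂0, hθ₂1, hθ₂⟩ := mi_rate hρ₂0 hρ₂1 hg1
  set Θ := max θ (max θ₁ θ₂) with hΘ
  have hΘ0 : 0 < Θ := lt_max_of_lt_left hθ0
  have hΘ1 : Θ < 1 := max_lt hθ1 (max_lt hθ₁1 hθ₂1)
  have hpw : ∀ a : ℕ, θ ^ a ≤ Θ ^ a ∧ θ₁ ^ a ≤ Θ ^ a ∧ θ₂ ^ a ≤ Θ ^ a := fun a =>
    ⟨pow_le_pow_left₀ hθ0.le (le_max_left _ _) a,
      pow_le_pow_left₀ hθ₁0.le ((le_max_left _ _).trans (le_max_right _ _)) a,
      pow_le_pow_left₀ hθ₂0.le ((le_max_right _ _).trans (le_max_right _ _)) a⟩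
  have hsG : 0 ≤ Real.sqrt G := Real.sqrt_nonneg _
  set K₀ := C * ρ⁻¹ with hK₀
  set K₁ := C₁ * ρ₁⁻¹ + C₂ * ρ₂⁻¹ with hK₁
  set K₂ := C * Real.sqrt G ^ (2 * d) with hK₂
  set K₃ := C * Real.sqrt G ^ (2 * d + 1) with hK₃
  have h0 : 0 ≤ K₀ := by positivity
  have h1 : 0 ≤ K₁ := by positivity
  have h2 : 0 ≤ K₂ := by positivity
  have h3 : 0 ≤ K₃ := by positivity
  refine ⟨K₀ + K₁ + K₂ + K₃, Θ, by positivity, hΘ0, hΘ1, ?_⟩
  intro a
  have hN : a + 1 ≤ G * (a / G + 1) := by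
    have := Nat.lt_mul_div_succ a (show 0 < G by omega)
    omega
  have hX : q ^ (A * (a / G)) ≤ 2 ^ a := by
    calc q ^ (A * (a / G)) ≤ (2 ^ g) ^ (A * (a / G)) := Nat.pow_le_pow_left hqg _
      _ = 2 ^ (G * (a / G)) := by rw [← pow_mul, hG]; congr 1; ring
      _ ≤ 2 ^ a := Nat.pow_le_pow_right (by norm_num) (Nat.mul_div_le a G)
  obtain ⟨B, hBc, hB⟩ := hB (a / G) (2 ^ a) hX
  obtain ⟨l1, l2, l3, l4⟩ := mi_lg hq hqg a
  obtain ⟨D₁, hD₁c, hD₁⟩ := hD₁ (lg q a + 1) (lg q (2 * a) + 1) l1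
  obtain ⟨D₂, hD₂c, hD₂⟩ := hD₂ (lg q a + 1) (lg q (2 * a) + 1) l1
  refine ⟨B, D₁ ∪ D₂, ?_, ?_, ?_, ?_⟩
  · refine hBc.trans ?_
    push_cast
    have e1 := hθ a (a / G) hN
    have e2 := (hpw a).1
    calc C * ρ ^ (a / G) * 2 ^ a ≤ C * (ρ⁻¹ * θ ^ a) * 2 ^ a := by gcongr
      _ ≤ C * (ρ⁻¹ * Θ ^ a) * 2 ^ a := by gcongr
      _ = K₀ * Θ ^ a * 2 ^ a := by rw [hK₀]; ring
      _ ≤ (K₀ + K₁ + K₂ + K₃) * Θ ^ a * 2 ^ a := by gcongr; linarith
  · have e1 := hθ₁ a _ l2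
    have e2 := hθ₂ a _ l2
    have e3 := (hpw a).2.1
    have e4 := (hpw a).2.2
    have e5 : ((D₁ ∪ D₂).card : ℝ) ≤ D₁.card + D₂.card := by
      exact_mod_cast Finset.card_union_le _ _
    push_cast
    have e6 : (0 : ℝ) ≤ (q : ℝ) ^ (lg q (2 * a) + 1) := by positivity
    calc ((D₁ ∪ D₂).card : ℝ) ≤ D₁.card + D₂.card := e5
      _ ≤ C₁ * ρ₁ ^ (lg q (2 * a) + 1 - (lg q a + 1)) * q ^ (lg q (2 * a) + 1) +
          C₂ * ρ₂ ^ (lg q (2 * a) + 1 - (lg q a + 1)) * q ^ (lg q (2 * a) + 1) :=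
          add_le_add hD₁c hD₂c
      _ ≤ C₁ * (ρ₁⁻¹ * Θ ^ a) * q ^ (lg q (2 * a) + 1) +
          C₂ * (ρ₂⁻¹ * Θ ^ a) * q ^ (lg q (2 * a) + 1) := by
          have f1 := e1.trans (mul_le_mul_of_nonneg_left e3 (inv_nonneg.2 hρ₁0.le))
          have f2 := e2.trans (mul_le_mul_of_nonneg_left e4 (inv_nonneg.2 hρ₂0.le))
          gcongr
      _ = K₁ * Θ ^ a * q ^ (lg q (2 * a) + 1) := by rw [hK₁]; ring
      _ ≤ (K₀ + K₁ + K₂ + K₃) * Θ ^ a * q ^ (lg q (2 * a) + 1) := by gcongr; linarith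
  · intro n r h c z c' z' hr hn hc hz hc' hz'
    rw [Finset.mem_union, not_or] at hn
    exact ⟨hD₁ n r h c z (hr.trans l3) hn.1 hc hz, hD₂ n r h c' z' (hr.trans l3) hn.2 hc' hz'⟩
  · intro r hr hrB h c z c' z' hc hz hc' hz'
    have hL : A * (a / G) ≤ lg q (2 * a) + 1 := by
      have : A * (a / G) ≤ lg q (2 * a) := by
        unfold lg
        refine Nat.le_log_of_pow_le (by omega) (hX.trans ?_)
        exact Nat.pow_le_pow_right (by norm_num) (by omega)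
      omega
    have hSt : St q P R h c c c' c' z z z' z' :=
      ⟨by omega, by omega, by omega, by omega, hz, hz, hz', hz'⟩
    have hb := hB r hr hrB (lg q (2 * a) + 1) hL h 0 c c c' c' z z z' z' hSt
    constructor
    · refine ((hb 0 0).1.trans (mi_sqrt hN hC)).trans ?_
      have : (0 : ℝ) ≤ Real.sqrt (a + 1) ^ (2 * d) := by positivity
      refine div_le_div_of_nonneg_right ?_ this
      rw [← hK₂]
      linarith
    · intro s
      have e1 := mi_tele (fun u u' => Inc q P R e r h (lg q (2 * a) + 1) 0 c c c' c' z z z' z'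
        (ind u u')) (fun u u' => ((hb u u').2.trans (mi_sqrt hN hC))) s
      refine e1.trans ?_
      have : (0 : ℝ) ≤ Real.sqrt (a + 1) ^ (2 * d + 1) := by positivity
      rw [← mul_div_assoc, mul_comm]
      refine div_le_div_of_nonneg_right ?_ this
      refine mul_le_mul_of_nonneg_right ?_ (abs_nonneg _)
      rw [← hK₃]
      linarith

section several

variable {ι : Type*} [Fintype ι] [DecidableEq ι] {q : ι → ℕ} {m : ℕ} {d : ι → ℕ}
  {e : ∀ i, ℕ → Fin (d i) → ℤ} {C : ℝ}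

/-- one base: the indicator function -/
noncomputable def mi_g (q P R h c z c' z' r : ℕ) {d : ℕ} (e : ℕ → Fin d → ℤ)
    (v v' : Fin d → ℤ) (x : ℕ) : ℝ :=
  if e (sd q h P c z (x + r)) - e (sd q h P c z x) = v ∧
    e (sd q h R c' z' (x + r)) - e (sd q h R c' z' x) = v' then 1 else 0

theorem mi_g_bd (q P R h c z c' z' r : ℕ) {d : ℕ} (e : ℕ → Fin d → ℤ)
    (v v' : Fin d → ℤ) (x : ℕ) :
    0 ≤ mi_g q P R h c z c' z' r e v v' x ∧ mi_g q P R h c z c' z' r e v v' x ≤ 1 := by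
  unfold mi_g
  split_ifs <;> norm_num

theorem mi_g_inc (q P R h c z c' z' r L : ℕ) {d : ℕ} (e : ℕ → Fin d → ℤ)
    (v v' : Fin d → ℤ) :
    (∑ x ∈ Finset.range (q ^ L), mi_g q P R h c z c' z' r e v v' x) / ((q ^ L : ℕ) : ℝ) =
      Inc q P R e r h L 0 c c c' c' z z z' z' (ind v v') := by
  unfold Inc av mi_g ind
  push_cast
  simp only [mul_zero, zero_add]

theorem mi_prod_ind (h r : ℕ) (P R c z c' z' : ι → ℕ) (V V' : ∀ i, Fin (d i) → ℤ) (x : ℕ) :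
    (if EE q e h P c z (x + r) - EE q e h P c z x = V ∧
      EE q e h R c' z' (x + r) - EE q e h R c' z' x = V' then (1 : ℝ) else 0) =
    ∏ i, mi_g (q i) (P i) (R i) h (c i) (z i) (c' i) (z' i) r (e i) (V i) (V' i) x := by
  unfold mi_g
  rw [Finset.prod_ite_zero, Finset.prod_const_one]
  congr 1
  rw [eq_iff_iff]
  constructor
  · rintro ⟨h1, h2⟩ i _
    exact ⟨congrFun h1 i, congrFun h2 i⟩
  · intro h1
    exact ⟨funext fun i => (h1 i (Finset.mem_univ i)).1, funext fun i => (h1 i (Finset.mem_univ i)).2⟩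

theorem mi_approx (hq : ∀ i, 2 ≤ q i) (hcop : ∀ i j, i ≠ j → (q i).Coprime (q j))
    {a k r h : ℕ} (hk : (4 * Fintype.card ι + 4) * a ≤ k) {P R : ι → ℕ} (c z c' z' : ι → ℕ)
    (D : ι → Finset ℕ) (hD : ∀ i n, n % q i ^ (lg (q i) (2 * a) + 1) ∉ D i →
      ∀ v v' : Fin (d i) → ℤ,
      mi_g (q i) (P i) (R i) h (c i) (z i) (c' i) (z' i) r (e i) v v' n =
      mi_g (q i) (P i) (R i) h (c i) (z i) (c' i) (z' i) r (e i) v v'
        (n % q i ^ (lg (q i) (2 * a) + 1)))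
    {K : ι → ℝ} (hK : ∀ i, 0 ≤ K i) {θ : ℝ} (hθ : 0 < θ)
    (hDc : ∀ i, ((D i).card : ℝ) ≤ K i * θ ^ a * (q i ^ (lg (q i) (2 * a) + 1) : ℕ)) (u : ℕ)
    (V V' : ∀ i, Fin (d i) → ℤ) :
    |av 2 k (fun n => if EE q e h P c z (u + n + r) - EE q e h P c z (u + n) = V ∧
      EE q e h R c' z' (u + n + r) - EE q e h R c' z' (u + n) = V' then (1 : ℝ) else 0) -
      ∏ i, Inc (q i) (P i) (R i) (e i) r h (lg (q i) (2 * a) + 1) 0 (c i) (c i) (c' i) (c' i)
        (z i) (z i) (z' i) (z' i) (ind (V i) (V' i))| ≤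
      (∑ i, K i * (1 + q i)) * θ ^ a + 2 * (∏ i, (q i : ℝ)) * (1 / 2) ^ a := by
  set N : ι → ℕ := fun i => q i ^ (lg (q i) (2 * a) + 1) with hN
  have hN1 : ∀ i, 1 ≤ N i := fun i => Nat.one_le_pow _ _ (by have := hq i; omega)
  have hNc : ∀ i j, i ≠ j → (N i).Coprime (N j) := fun i j hij =>
    Nat.Coprime.pow _ _ (hcop i j hij)
  have hNle : ∀ i, (N i : ℝ) ≤ q i * 2 ^ (2 * a) := by
    intro i
    have h1 : q i ^ lg (q i) (2 * a) ≤ 2 ^ (2 * a) := Nat.pow_log_le_self _ (by positivity)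
    have h2 : N i ≤ q i * 2 ^ (2 * a) := by
      simp only [hN]
      rw [pow_succ, mul_comm]
      exact Nat.mul_le_mul_left _ h1
    exact_mod_cast h2
  have hT1 : 1 ≤ 2 ^ k := Nat.one_le_two_pow
  have hT0 : (0 : ℝ) < (2 : ℝ) ^ k := by positivity
  set f : ι → ℕ → ℝ := fun i x =>
    mi_g (q i) (P i) (R i) h (c i) (z i) (c' i) (z' i) r (e i) (V i) (V' i) x with hf
  have hf0 : ∀ i x, 0 ≤ f i x := fun i x => (mi_g_bd _ _ _ _ _ _ _ _ _ _ _ _ _).1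
  have hf1 : ∀ i x, f i x ≤ 1 := fun i x => (mi_g_bd _ _ _ _ _ _ _ _ _ _ _ _ _).2
  have hfa : ∀ i x, |f i x| ≤ 1 := fun i x => abs_le.2 ⟨by linarith [hf0 i x], hf1 i x⟩
  have hcrt := crt_av hN1 hNc hfa hT1 u
  -- the products
  have hprod : ∏ i, Inc (q i) (P i) (R i) (e i) r h (lg (q i) (2 * a) + 1) 0 (c i) (c i) (c' i)
      (c' i) (z i) (z i) (z' i) (z' i) (ind (V i) (V' i)) =
      ∏ i, (∑ n ∈ Finset.range (N i), f i n) / N i := by
    refine Finset.prod_congr rfl fun i _ => ?_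
    rw [← mi_g_inc]
  rw [hprod]
  have hav : av 2 k (fun n => if EE q e h P c z (u + n + r) - EE q e h P c z (u + n) = V ∧
      EE q e h R c' z' (u + n + r) - EE q e h R c' z' (u + n) = V' then (1 : ℝ) else 0) =
      (∑ n ∈ Finset.range (2 ^ k), ∏ i, f i (u + n)) / ((2 ^ k : ℕ) : ℝ) := by
    unfold av
    push_cast
    congr 1
    refine Finset.sum_congr rfl fun n _ => ?_
    exact mi_prod_ind h r P R c z c' z' V V' (u + n)
  rw [hav]
  -- first error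
  have herr : |(∑ n ∈ Finset.range (2 ^ k), ∏ i, f i (u + n)) / ((2 ^ k : ℕ) : ℝ) -
      (∑ n ∈ Finset.range (2 ^ k), ∏ i, f i ((u + n) % N i)) / ((2 ^ k : ℕ) : ℝ)| ≤
      (∑ i, K i * (1 + q i)) * θ ^ a := by
    have hpt : ∀ n, |∏ i, f i (u + n) - ∏ i, f i ((u + n) % N i)| ≤
        ∑ i, (if (u + n) % N i ∈ D i then (1 : ℝ) else 0) := by
      intro n
      by_cases hall : ∀ i, (u + n) % N i ∉ D i
      · have : ∏ i, f i (u + n) = ∏ i, f i ((u + n) % N i) :=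
          Finset.prod_congr rfl fun i _ => hD i (u + n) (hall i) _ _
        rw [this, sub_self, abs_zero]
        exact Finset.sum_nonneg fun i _ => by split_ifs <;> norm_num
      · push Not at hall
        obtain ⟨i, hi⟩ := hall
        have h1 : (1 : ℝ) ≤ ∑ i, (if (u + n) % N i ∈ D i then (1 : ℝ) else 0) := by
          refine le_trans (le_of_eq ?_) (Finset.single_le_sum
            (f := fun i => if (u + n) % N i ∈ D i then (1 : ℝ) else 0)
            (fun i _ => by split_ifs <;> norm_num) (Finset.mem_univ i))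
          simp only [if_pos hi]
        refine le_trans ?_ h1
        have a1 : 0 ≤ ∏ i, f i (u + n) := Finset.prod_nonneg fun i _ => hf0 i _
        have a2 : ∏ i, f i (u + n) ≤ 1 := Finset.prod_le_one (fun i _ => hf0 i _) fun i _ => hf1 i _
        have a3 : 0 ≤ ∏ i, f i ((u + n) % N i) := Finset.prod_nonneg fun i _ => hf0 i _
        have a4 : ∏ i, f i ((u + n) % N i) ≤ 1 :=
          Finset.prod_le_one (fun i _ => hf0 i _) fun i _ => hf1 i _
        rw [abs_le]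
        constructor <;> linarith
    rw [← sub_div, ← Finset.sum_sub_distrib, abs_div, abs_of_pos (by positivity :
      (0 : ℝ) < ((2 ^ k : ℕ) : ℝ))]
    calc |∑ n ∈ Finset.range (2 ^ k), (∏ i, f i (u + n) - ∏ i, f i ((u + n) % N i))| /
          ((2 ^ k : ℕ) : ℝ)
        ≤ (∑ n ∈ Finset.range (2 ^ k), ∑ i, (if (u + n) % N i ∈ D i then (1 : ℝ) else 0)) /
          ((2 ^ k : ℕ) : ℝ) := by
          refine div_le_div_of_nonneg_right ?_ (by positivity)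
          exact (Finset.abs_sum_le_sum_abs _ _).trans (Finset.sum_le_sum fun n _ => hpt n)
      _ = ∑ i, (((Finset.range (2 ^ k)).filter (fun n => (u + n) % N i ∈ D i)).card : ℝ) /
          ((2 ^ k : ℕ) : ℝ) := by
          rw [Finset.sum_comm, Finset.sum_div]
          refine Finset.sum_congr rfl fun i _ => ?_
          rw [Finset.card_filter]
          push_cast
          rfl
      _ ≤ ∑ i, K i * (1 + q i) * θ ^ a := by
          refine Finset.sum_le_sum fun i _ => ?_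
          refine (mi_prop (hN1 i) hT1 (D i) u).trans ?_
          have hNi : (0 : ℝ) < N i := by exact_mod_cast hN1 i
          have b1 : ((D i).card : ℝ) / N i ≤ K i * θ ^ a := by
            rw [div_le_iff₀ hNi]
            exact hDc i
          have hKθ : 0 ≤ K i * θ ^ a := mul_nonneg (hK i) (by positivity)
          have b2 : ((D i).card : ℝ) / ((2 ^ k : ℕ) : ℝ) ≤ K i * θ ^ a * q i := by
            rw [div_le_iff₀ (by positivity)]
            refine (hDc i).trans ?_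
            push_cast
            rw [mul_assoc (K i * θ ^ a) (q i : ℝ)]
            refine mul_le_mul_of_nonneg_left ?_ hKθ
            have b3 := hNle i
            simp only [hN] at b3
            push_cast at b3
            refine b3.trans ?_
            have b4 : (2 : ℝ) ^ (2 * a) ≤ 2 ^ k := by
              refine pow_le_pow_right₀ (by norm_num) ?_
              nlinarith
            gcongr
          calc ((D i).card : ℝ) / N i + ((D i).card : ℝ) / ((2 ^ k : ℕ) : ℝ)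
              ≤ K i * θ ^ a + K i * θ ^ a * q i := add_le_add b1 b2
            _ = K i * (1 + q i) * θ ^ a := by ring
      _ = (∑ i, K i * (1 + q i)) * θ ^ a := by rw [Finset.sum_mul]
  -- second error
  have hfin : 2 * (∏ i, (N i : ℝ)) / ((2 ^ k : ℕ) : ℝ) ≤ 2 * (∏ i, (q i : ℝ)) * (1 / 2) ^ a := by
    rw [div_le_iff₀ (by positivity), mul_assoc, mul_assoc]
    refine mul_le_mul_of_nonneg_left ?_ (by norm_num)
    have b1 : ∏ i, (N i : ℝ) ≤ ∏ i, ((q i : ℝ) * 2 ^ (2 * a)) :=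
      Finset.prod_le_prod (fun i _ => Nat.cast_nonneg _) fun i _ => hNle i
    rw [Finset.prod_mul_distrib, Finset.prod_const, Finset.card_univ, ← pow_mul] at b1
    refine b1.trans ?_
    have b2 : 0 ≤ ∏ i, (q i : ℝ) := Finset.prod_nonneg fun i _ => Nat.cast_nonneg _
    refine mul_le_mul_of_nonneg_left ?_ b2
    push_cast
    rw [one_div, inv_pow, inv_mul_eq_div, le_div_iff₀ (by positivity), ← pow_add]
    refine pow_le_pow_right₀ (by norm_num) ?_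
    nlinarith
  have htri := abs_sub_le ((∑ n ∈ Finset.range (2 ^ k), ∏ i, f i (u + n)) / ((2 ^ k : ℕ) : ℝ))
    ((∑ n ∈ Finset.range (2 ^ k), ∏ i, f i ((u + n) % N i)) / ((2 ^ k : ℕ) : ℝ))
    (∏ i, (∑ n ∈ Finset.range (N i), f i n) / N i)
  linarith

/-- M10a: the law of the increments of all values -/
theorem incr_law (S : Sys q m e C) {P R : ι → ℕ} (hPR : Mul q m P R) (i₀ : ι)
    {w w' : Fin (d i₀) → ℤ} (hw : w ∈ Lam (e i₀)) (hw' : w' ∈ Lam (e i₀)) :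
    ∃ K θ : ℝ, 0 ≤ K ∧ 0 < θ ∧ θ < 1 ∧ ∀ h a k : ℕ, (4 * Fintype.card ι + 4) * a ≤ k →
      ∃ B : Finset ℕ, (B.card : ℝ) ≤ K * θ ^ a * 2 ^ a ∧ ∀ r < 2 ^ a, r ∉ B →
      ∀ (u : ℕ) (c z c' z' : ι → ℕ), Bd q h P c z → Bd q h R c' z' → ∀ s : ℤ,
        |av 2 k (fun n =>
          (if EE q e h P c z (u + n + r) - EE q e h P c z (u + n) = 0 ∧
            EE q e h R c' z' (u + n + r) - EE q e h R c' z' (u + n) = 0 then (1 : ℝ) else 0) -
          (if EE q e h P c z (u + n + r) - EE q e h P c z (u + n) = Pi.single i₀ (s • w) ∧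
            EE q e h R c' z' (u + n + r) - EE q e h R c' z' (u + n) = Pi.single i₀ (s • w')
            then (1 : ℝ) else 0))| ≤
          K * (|(s : ℝ)| / Real.sqrt (a + 1) ^ (2 * (∑ i, d i) + 1) + θ ^ a) := by
  have hmem : ∀ i, (Pi.single i₀ w : ∀ i, Fin (d i) → ℤ) i ∈ Lam (e i) := by
    intro i
    by_cases hi : i = i₀
    · subst hi
      rw [Pi.single_eq_same]
      exact hw
    · rw [Pi.single_eq_of_ne hi]
      exact AddSubgroup.zero_mem _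
  have hmem' : ∀ i, (Pi.single i₀ w' : ∀ i, Fin (d i) → ℤ) i ∈ Lam (e i) := by
    intro i
    by_cases hi : i = i₀
    · subst hi
      rw [Pi.single_eq_same]
      exact hw'
    · rw [Pi.single_eq_of_ne hi]
      exact AddSubgroup.zero_mem _
  choose K θ₀ hK hθ₀ hθ₁ hbase using fun i => mi_base (S.base i) (S.qv i).gap (S.gen i) (hPR.cP i)
    (hPR.cR i) (hPR.le i) (hPR.one i) (hmem i) (hmem' i)
  obtain ⟨θ, hθh, hθ1, hθ⟩ := mi_unif θ₀ hθ₁
  have hθ0 : 0 < θ := by linarith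
  have hpw : ∀ i (a : ℕ), θ₀ i ^ a ≤ θ ^ a := fun i a => pow_le_pow_left₀ (hθ₀ i).le (hθ i) a
  set T₀ := ∑ i, K i with hT₀
  set T₁ := ∑ i, K i * (1 + q i) with hT₁
  set T₂ := ∏ i, (q i : ℝ) with hT₂
  set T₃ := ∏ i, K i with hT₃
  have t0 : 0 ≤ T₀ := Finset.sum_nonneg fun i _ => hK i
  have t1 : 0 ≤ T₁ := Finset.sum_nonneg fun i _ => mul_nonneg (hK i) (by positivity)
  have t2 : 0 ≤ T₂ := Finset.prod_nonneg fun i _ => Nat.cast_nonneg _
  have t3 : 0 ≤ T₃ := Finset.prod_nonneg fun i _ => hK i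
  refine ⟨T₀ + 2 * T₁ + 4 * T₂ + T₃, θ, by positivity, hθ0, hθ1, ?_⟩
  intro h a k hk
  choose B D hBc hDc hDeq hInc using fun i => hbase i a
  refine ⟨Finset.univ.biUnion B, ?_, ?_⟩
  · have e1 : ((Finset.univ.biUnion B).card : ℝ) ≤ ∑ i, ((B i).card : ℝ) := by
      exact_mod_cast Finset.card_biUnion_le
    calc ((Finset.univ.biUnion B).card : ℝ) ≤ ∑ i, ((B i).card : ℝ) := e1
      _ ≤ ∑ i, K i * θ ^ a * 2 ^ a := by
          refine Finset.sum_le_sum fun i _ => (hBc i).trans ?_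
          have := hpw i a
          have := hK i
          gcongr
      _ = T₀ * θ ^ a * 2 ^ a := by rw [hT₀, Finset.sum_mul, Finset.sum_mul]
      _ ≤ (T₀ + 2 * T₁ + 4 * T₂ + T₃) * θ ^ a * 2 ^ a := by
          gcongr
          linarith
  · intro r hr hrB u c z c' z' hc hc' s
    have hrB' : ∀ i, r ∉ B i := by
      intro i hi
      exact hrB (Finset.mem_biUnion.2 ⟨i, Finset.mem_univ i, hi⟩)
    have hDc' : ∀ i, ((D i).card : ℝ) ≤ K i * θ ^ a * (q i ^ (lg (q i) (2 * a) + 1) : ℕ) := by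
      intro i
      refine (hDc i).trans ?_
      have := hpw i a
      have := hK i
      gcongr
    have hD' : ∀ i n, n % q i ^ (lg (q i) (2 * a) + 1) ∉ D i → ∀ v v' : Fin (d i) → ℤ,
        mi_g (q i) (P i) (R i) h (c i) (z i) (c' i) (z' i) r (e i) v v' n =
        mi_g (q i) (P i) (R i) h (c i) (z i) (c' i) (z' i) r (e i) v v'
          (n % q i ^ (lg (q i) (2 * a) + 1)) := by
      intro i n hn v v'
      obtain ⟨e1, e2⟩ := hDeq i n r h (c i) (z i) (c' i) (z' i) hr.le hn (hc.cle i) (hc.zlt i)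
        (hc'.cle i) (hc'.zlt i)
      unfold mi_g
      rw [e1, e2]
    have happ := fun V V' => mi_approx (e := e) (h := h) (r := r) S.base S.cop hk c z c' z' D hD' hK
      hθ0 hDc' u V V'
    rw [av_sub]
    have h1 := happ 0 0
    have h2 := happ (Pi.single i₀ (s • w)) (Pi.single i₀ (s • w'))
    set I₁ := av 2 k (fun n => if EE q e h P c z (u + n + r) - EE q e h P c z (u + n) = 0 ∧
      EE q e h R c' z' (u + n + r) - EE q e h R c' z' (u + n) = 0 then (1 : ℝ) else 0)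
    set I₂ := av 2 k (fun n => if EE q e h P c z (u + n + r) - EE q e h P c z (u + n) =
      Pi.single i₀ (s • w) ∧ EE q e h R c' z' (u + n + r) - EE q e h R c' z' (u + n) =
        Pi.single i₀ (s • w') then (1 : ℝ) else 0)
    set X : ∀ i, (Fin (d i) → ℤ) → (Fin (d i) → ℤ) → ℝ := fun i v v' =>
      Inc (q i) (P i) (R i) (e i) r h (lg (q i) (2 * a) + 1) 0 (c i) (c i) (c' i) (c' i)
        (z i) (z i) (z' i) (z' i) (ind v v') with hX
    have hXb : ∀ i, |X i 0 0| ≤ K i / Real.sqrt (a + 1) ^ (2 * d i) := fun i =>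
      (hInc i r hr (hrB' i) h (c i) (z i) (c' i) (z' i) (hc.cle i) (hc.zlt i)
        (hc'.cle i) (hc'.zlt i)).1
    have hXs : |X i₀ 0 0 - X i₀ (s • w) (s • w')| ≤
        K i₀ * |(s : ℝ)| / Real.sqrt (a + 1) ^ (2 * d i₀ + 1) := by
      have := (hInc i₀ r hr (hrB' i₀) h (c i₀) (z i₀) (c' i₀) (z' i₀) (hc.cle i₀) (hc.zlt i₀)
        (hc'.cle i₀) (hc'.zlt i₀)).2 s
      simpa only [Pi.single_eq_same] using this
    have hdiff : |∏ i, X i 0 0 - ∏ i, X i ((Pi.single i₀ (s • w) : ∀ i, Fin (d i) → ℤ) i)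
        ((Pi.single i₀ (s • w') : ∀ i, Fin (d i) → ℤ) i)| ≤
        T₃ * (|(s : ℝ)| / Real.sqrt (a + 1) ^ (2 * (∑ i, d i) + 1)) := by
      rw [← Finset.mul_prod_erase Finset.univ (fun i => X i 0 0) (Finset.mem_univ i₀),
        ← Finset.mul_prod_erase Finset.univ (fun i =>
          X i ((Pi.single i₀ (s • w) : ∀ i, Fin (d i) → ℤ) i)
          ((Pi.single i₀ (s • w') : ∀ i, Fin (d i) → ℤ) i)) (Finset.mem_univ i₀)]
      have e1 : ∏ i ∈ Finset.univ.erase i₀, X i ((Pi.single i₀ (s • w) : ∀ i, Fin (d i) → ℤ) i)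
          ((Pi.single i₀ (s • w') : ∀ i, Fin (d i) → ℤ) i) =
          ∏ i ∈ Finset.univ.erase i₀, X i 0 0 := by
        refine Finset.prod_congr rfl fun i hi => ?_
        have hne : i ≠ i₀ := Finset.ne_of_mem_erase hi
        rw [Pi.single_eq_of_ne hne, Pi.single_eq_of_ne hne]
      rw [e1, Pi.single_eq_same, Pi.single_eq_same, ← sub_mul, abs_mul, Finset.abs_prod]
      have hsq : (0 : ℝ) < Real.sqrt (a + 1) := Real.sqrt_pos.2 (by positivity)
      have e2 : ∏ i ∈ Finset.univ.erase i₀, |X i 0 0| ≤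
          ∏ i ∈ Finset.univ.erase i₀, (K i / Real.sqrt (a + 1) ^ (2 * d i)) :=
        Finset.prod_le_prod (fun i _ => abs_nonneg _) fun i _ => hXb i
      have e3 : ∏ i ∈ Finset.univ.erase i₀, (K i / Real.sqrt (a + 1) ^ (2 * d i)) =
          (∏ i ∈ Finset.univ.erase i₀, K i) /
            Real.sqrt (a + 1) ^ (∑ i ∈ Finset.univ.erase i₀, 2 * d i) := by
        rw [Finset.prod_div_distrib, Finset.prod_pow_eq_pow_sum]
      have e4 : T₃ = K i₀ * ∏ i ∈ Finset.univ.erase i₀, K i :=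
        (Finset.mul_prod_erase Finset.univ K (Finset.mem_univ i₀)).symm
      have e5 : 2 * (∑ i, d i) + 1 = (2 * d i₀ + 1) + ∑ i ∈ Finset.univ.erase i₀, 2 * d i := by
        rw [← Finset.add_sum_erase Finset.univ d (Finset.mem_univ i₀), ← Finset.mul_sum]
        ring
      calc |X i₀ 0 0 - X i₀ (s • w) (s • w')| * ∏ i ∈ Finset.univ.erase i₀, |X i 0 0|
          ≤ (K i₀ * |(s : ℝ)| / Real.sqrt (a + 1) ^ (2 * d i₀ + 1)) *
            ((∏ i ∈ Finset.univ.erase i₀, K i) /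
            Real.sqrt (a + 1) ^ (∑ i ∈ Finset.univ.erase i₀, 2 * d i)) := by
            rw [← e3]
            refine mul_le_mul hXs e2 (Finset.prod_nonneg fun i _ => abs_nonneg _) ?_
            have := hK i₀
            positivity
        _ = T₃ * (|(s : ℝ)| / Real.sqrt (a + 1) ^ (2 * (∑ i, d i) + 1)) := by
            rw [e5, pow_add (Real.sqrt ((a : ℝ) + 1)), e4, div_mul_div_comm]
            ring
    have hhalf : (1 / 2 : ℝ) ^ a ≤ θ ^ a := pow_le_pow_left₀ (by norm_num) hθh a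
    have hsn : 0 ≤ |(s : ℝ)| / Real.sqrt (a + 1) ^ (2 * (∑ i, d i) + 1) := by positivity
    have hθa : 0 ≤ θ ^ a := by positivity
    have hXX : ∏ i, X i ((0 : ∀ i, Fin (d i) → ℤ) i) ((0 : ∀ i, Fin (d i) → ℤ) i) =
      ∏ i, X i 0 0 := rfl
    have h1' : |I₁ - ∏ i, X i 0 0| ≤ T₁ * θ ^ a + 2 * T₂ * (1 / 2) ^ a := h1
    have h2' : |I₂ - ∏ i, X i ((Pi.single i₀ (s • w) : ∀ i, Fin (d i) → ℤ) i)
        ((Pi.single i₀ (s • w') : ∀ i, Fin (d i) → ℤ) i)| ≤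
        T₁ * θ ^ a + 2 * T₂ * (1 / 2) ^ a := h2
    have htri : |I₁ - I₂| ≤ |I₁ - ∏ i, X i 0 0| + |∏ i, X i 0 0 -
        ∏ i, X i ((Pi.single i₀ (s • w) : ∀ i, Fin (d i) → ℤ) i)
        ((Pi.single i₀ (s • w') : ∀ i, Fin (d i) → ℤ) i)| +
        |I₂ - ∏ i, X i ((Pi.single i₀ (s • w) : ∀ i, Fin (d i) → ℤ) i)
        ((Pi.single i₀ (s • w') : ∀ i, Fin (d i) → ℤ) i)| := by
      rw [abs_sub_comm I₂]
      exact (abs_sub_le _ (∏ i, X i ((Pi.single i₀ (s • w) : ∀ i, Fin (d i) → ℤ) i)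
        ((Pi.single i₀ (s • w') : ∀ i, Fin (d i) → ℤ) i)) _).trans
        (add_le_add (abs_sub_le _ _ _) le_rfl)
    set σ := |(s : ℝ)| / Real.sqrt (a + 1) ^ (2 * (∑ i, d i) + 1) with hσ
    have q1 : T₂ * (1 / 2) ^ a ≤ T₂ * θ ^ a := mul_le_mul_of_nonneg_left hhalf t2
    have q2 : 0 ≤ T₀ * σ := mul_nonneg t0 hsn
    have q3 : 0 ≤ T₁ * σ := mul_nonneg t1 hsn
    have q4 : 0 ≤ T₂ * σ := mul_nonneg t2 hsn
    have q5 : 0 ≤ T₀ * θ ^ a := mul_nonneg t0 hθa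
    have q6 : 0 ≤ T₃ * θ ^ a := mul_nonneg t3 hθa
    have q7 : 0 ≤ T₂ * θ ^ a := mul_nonneg t2 hθa
    nlinarith

end several

end Pool.Agent.Lib.MP_3e612f_nt.MB
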