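import Pool.Agent.Lib.MP_3e612f_nt.QBase
import Pool.Agent.Lib.MP_3e612f_nt.DSShift

/-!
Windows: the joint law of the two sides is nearly invariant under `(e (P x), e (R x))`.
-/

set_option autoImplicit false

namespace Pool.Agent.Lib.MP_3e612f_nt.QA

open Filter Topology

section ops

variable {H : Type*} [AddCommGroup H]

/-- the difference -/
noncomputable def q1_D (v v' : H) (F : H → H → ℝ) (x x' : H) : ℝ := F x x' - F (x + v) (x' + v')

/-- the average -/
noncomputable def q1_B (v v' : H) (F : H → H → ℝ) (x x' : H) : ℝ :=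
  (F x x' + F (x + v) (x' + v')) / 2

/-- the translation -/
def q1_T (u u' : H) (F : H → H → ℝ) (x x' : H) : ℝ := F (x + u) (x' + u')

theorem q1_T_D (v v' u u' : H) (F : H → H → ℝ) :
    q1_T u u' (q1_D v v' F) = q1_D v v' (q1_T u u' F) := by
  funext x x'
  unfold q1_T q1_D
  rw [add_right_comm x u v, add_right_comm x' u' v']

theorem q1_T_B (v v' u u' : H) (F : H → H → ℝ) :
    q1_T u u' (q1_B v v' F) = q1_B v v' (q1_T u u' F) := by
  funext x x'
  unfold q1_T q1_B
  rw [add_right_comm x u v, add_right_comm x' u' v']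

theorem q1_T_Biter (v v' u u' : H) (j : ℕ) (F : H → H → ℝ) :
    q1_T u u' ((q1_B v v')^[j] F) = (q1_B v v')^[j] (q1_T u u' F) := by
  induction j with
  | zero => rfl
  | succ j ih => rw [Function.iterate_succ_apply', q1_T_B, ih, Function.iterate_succ_apply']

theorem q1_iter (v v' : H) (j : ℕ) (F : H → H → ℝ) (x x' : H) :
    (q1_B v v')^[j] F x x' = DS.bin j (fun i => F (x + i • v) (x' + i • v')) := by
  induction j generalizing x x' with
  | zero => simp [DS.bin_zero]
  | succ j ih =>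
    have e0 : ∀ G : H → H → ℝ, q1_B v v' G x x' = (G x x' + G (x + v) (x' + v')) / 2 :=
      fun _ => rfl
    rw [Function.iterate_succ_apply', DS.bin_succ, e0, ih, ih]
    have e : (fun i : ℕ => F (x + v + i • v) (x' + v' + i • v')) =
        fun i : ℕ => F (x + (i + 1) • v) (x' + (i + 1) • v') := by
      funext i
      rw [add_assoc x, add_assoc x', ← succ_nsmul', ← succ_nsmul']
    rw [e]

theorem q1_base {v v' : H} {F : H → H → ℝ} (hF : ∀ x x', |F x x'| ≤ 1) (j : ℕ) (x x' : H) :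
    |(q1_B v v')^[j] (q1_D v v' F) x x'| ≤ 2 / Real.sqrt (j + 1) := by
  rw [q1_iter]
  have e : (fun i : ℕ => q1_D v v' F (x + i • v) (x' + i • v')) = fun i =>
      (fun i : ℕ => F (x + i • v) (x' + i • v')) i -
        (fun i : ℕ => F (x + i • v) (x' + i • v')) (i + 1) := by
    funext i
    unfold q1_D
    rw [add_assoc x, add_assoc x', ← succ_nsmul, ← succ_nsmul]
  rw [e, DS.bin_sub j (fun i : ℕ => F (x + i • v) (x' + i • v'))
    (fun i => (fun i : ℕ => F (x + i • v) (x' + i • v')) (i + 1))]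
  exact DS.bin_shift (G := fun i : ℕ => F (x + i • v) (x' + i • v')) (fun i => hF _ _) j

end ops

section phi

theorem q1_digit {q : ℕ} (P h W l y c z w n : ℕ) :
    q ^ h * (P * (q ^ (W + l) * y + (q ^ W * n + w)) + c) + z =
      q ^ (h + W) * (P * (q ^ l * y + n) + (P * w + c) / q ^ W) +
        (q ^ h * ((P * w + c) % q ^ W) + z) := by
  have h1 := Nat.div_add_mod (P * w + c) (q ^ W)
  calc q ^ h * (P * (q ^ (W + l) * y + (q ^ W * n + w)) + c) + z
      = q ^ h * (q ^ W * (P * (q ^ l * y + n)) + (P * w + c)) + z := by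
        rw [pow_add]; ring
    _ = q ^ h * (q ^ W * (P * (q ^ l * y + n)) + (q ^ W * ((P * w + c) / q ^ W) +
          (P * w + c) % q ^ W)) + z := by rw [h1]
    _ = _ := by rw [pow_add]; ring

/-- splitting off the lowest `W` digits -/
theorem q1_split {H : Type*} (q P R : ℕ) (e : ℕ → H) (h W l y c d z z' : ℕ) (F : H → H → ℝ) :
    Phi q P R e h (W + l) y c d z z' F = av q W (fun w =>
      Phi q P R e (h + W) l y ((P * w + c) / q ^ W) ((R * w + d) / q ^ W)
        (q ^ h * ((P * w + c) % q ^ W) + z) (q ^ h * ((R * w + d) % q ^ W) + z') F) := by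
  unfold Phi
  rw [av_split]
  unfold cnd
  refine av_congr fun w _ => ?_
  refine av_congr fun n _ => ?_
  beta_reduce
  rw [q1_digit, q1_digit]

theorem q1_carry {q P c n W : ℕ} (hq : 2 ≤ q) (hc : c ≤ P) (hn : n < q ^ W) :
    (P * n + c) / q ^ W ≤ P := by
  have h2 := qpow_pos hq W
  apply Nat.le_of_lt_succ
  rw [Nat.div_lt_iff_lt_mul h2]
  have : P * n + P ≤ P * q ^ W := by
    have : n + 1 ≤ q ^ W := hn
    nlinarith
  nlinarith

theorem q1_low {q h W z r : ℕ} (hq : 2 ≤ q) (hz : z < q ^ h) :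
    q ^ h * (r % q ^ W) + z < q ^ (h + W) := by
  have h1 : r % q ^ W < q ^ W := Nat.mod_lt _ (qpow_pos hq W)
  calc q ^ h * (r % q ^ W) + z < q ^ h * (r % q ^ W) + q ^ h := by omega
    _ = q ^ h * (r % q ^ W + 1) := by ring
    _ ≤ q ^ h * q ^ W := Nat.mul_le_mul_left _ h1
    _ = q ^ (h + W) := by rw [pow_add]

end phi

section main

variable {H : Type*} [AddCommGroup H] {q m : ℕ} {e : ℕ → H}

theorem q1_zero (he : ∀ a y s : ℕ, s < q ^ a → e (q ^ (a + m) * y + s) = e y + e s) :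
    e 0 = 0 := by
  have h := he 0 0 0 (by simp)
  simpa using h

/-- the output of a word which is short enough -/
theorem q1_word (hq : 2 ≤ q)
    (he : ∀ a y s : ℕ, s < q ^ a → e (q ^ (a + m) * y + s) = e y + e s) {P b W h c z x M : ℕ}
    (hb : m ≤ b) (hPb : P + 1 ≤ q ^ (b - m)) (hW : m ≤ W)
    (hPW : P * (q ^ b * x) + P + 1 ≤ q ^ (W - m)) (hc : c ≤ P) (hz : z < q ^ h) :
    e (q ^ (h + W) * (M + (P * (q ^ b * x) + c) / q ^ W) +
      (q ^ h * ((P * (q ^ b * x) + c) % q ^ W) + z)) = e M + (e (P * x) + e (q ^ h * c + z)) := by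
  have hWm : q ^ (W - m) ≤ q ^ W := Nat.pow_le_pow_right (by omega) (Nat.sub_le _ _)
  have hlt : P * (q ^ b * x) + c < q ^ W := by omega
  rw [Nat.div_eq_of_lt hlt, Nat.mod_eq_of_lt hlt, add_zero]
  have hs : ∀ {r B : ℕ}, r + 1 ≤ q ^ B → q ^ h * r + z < q ^ (h + B) := by
    intro r B hr
    calc q ^ h * r + z < q ^ h * r + q ^ h := by omega
      _ = q ^ h * (r + 1) := by ring
      _ ≤ q ^ h * q ^ B := Nat.mul_le_mul_left _ hr
      _ = q ^ (h + B) := by rw [pow_add]
  have h1 := he (h + (W - m)) M (q ^ h * (P * (q ^ b * x) + c) + z) (hs (by omega))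
  have e1 : h + (W - m) + m = h + W := by omega
  rw [e1] at h1
  rw [h1]
  congr 1
  have h2 := he (h + (b - m)) (P * x) (q ^ h * c + z) (hs (by omega))
  have e2 : h + (b - m) + m = h + b := by omega
  rw [e2] at h2
  rw [← h2]
  congr 1
  rw [pow_add]
  ring

theorem q1_windows (hq : 2 ≤ q)
    (he : ∀ a y s : ℕ, s < q ^ a → e (q ^ (a + m) * y + s) = e y + e s) {P R b W x : ℕ}
    (hx : 1 ≤ x) (hP : 1 ≤ P) (hb : m ≤ b) (hPb : P + 1 ≤ q ^ (b - m)) (hRb : R + 1 ≤ q ^ (b - m))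
    (hW : m ≤ W) (hPW : P * (q ^ b * x) + P + 1 ≤ q ^ (W - m))
    (hRW : R * (q ^ b * x) + R + 1 ≤ q ^ (W - m)) (N : ℕ) :
    ∀ (F : H → H → ℝ) (_ : ∀ x x', |F x x'| ≤ 1) (j h y c d z z' : ℕ), c ≤ P → d ≤ R → z < q ^ h →
      z' < q ^ h →
      |Phi q P R e h (N * W) y c d z z'
        ((q1_B (e (P * x)) (e (R * x)))^[j] (q1_D (e (P * x)) (e (R * x)) F))| ≤
        2 * Real.sqrt (1 / (j + 1 + 2 / q ^ W * N / 2)) := by
  have hqx : q ^ b * x < q ^ W := by
    have hWm : q ^ (W - m) ≤ q ^ W := Nat.pow_le_pow_right (by omega) (Nat.sub_le _ _)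
    have : q ^ b * x ≤ P * (q ^ b * x) := Nat.le_mul_of_pos_left _ hP
    omega
  have hne : 0 ≠ q ^ b * x := (Nat.mul_pos (qpow_pos hq b) hx).ne
  have hW1 : 2 ≤ q ^ W := by
    have := Nat.mul_pos (qpow_pos hq b) hx
    omega
  have hWr : (2 : ℝ) ≤ (q : ℝ) ^ W := by exact_mod_cast hW1
  have h0W : 0 < q ^ W := by omega
  set v := e (P * x) with hv
  set v' := e (R * x) with hv'
  induction N with
  | zero =>
    intro F hF j h y c d z z' _ _ _ _
    simp only [zero_mul, Nat.cast_zero, mul_zero, zero_div, add_zero]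
    unfold Phi
    refine (abs_av_le hq fun n _ => q1_base hF j _ _).trans (le_of_eq ?_)
    rw [Real.sqrt_div zero_le_one, Real.sqrt_one]
    ring
  | succ N ih =>
    intro F hF j h y c d z z' hc hd hz hz'
    rw [Nat.succ_mul, add_comm (N * W) W, q1_split]
    set g := (q1_B v v')^[j] (q1_D v v' F) with hg
    set D0 : ℝ := 1 / (j + 1 + 2 / q ^ W * N / 2) with hD0
    set D1 : ℝ := 1 / ((j + 1 : ℕ) + 1 + 2 / q ^ W * N / 2) with hD1
    have hD0n : 0 ≤ D0 := by positivity
    have hD1n : 0 ≤ D1 := by positivity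
    set u : ℕ → ℝ := fun w => Phi q P R e (h + W) (N * W) y ((P * w + c) / q ^ W)
      ((R * w + d) / q ^ W) (q ^ h * ((P * w + c) % q ^ W) + z)
      (q ^ h * ((R * w + d) % q ^ W) + z') g with hu
    -- the two special words
    have hpair : |u 0 + u (q ^ b * x)| ≤ 2 * (2 * Real.sqrt D1) := by
      set F1 : H → H → ℝ := q1_T (e (q ^ h * c + z)) (e (q ^ h * d + z')) F with hF1
      have hF1b : ∀ x x', |F1 x x'| ≤ 1 := fun x x' => hF _ _
      have e5 : u 0 + u (q ^ b * x) = 2 * Phi q P R e 0 (N * W) y 0 0 0 0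
          ((q1_B v v')^[j + 1] (q1_D v v' F1)) := by
        rw [hu]
        dsimp only
        unfold Phi
        rw [← av_add, ← av_const_mul]
        refine av_congr fun n _ => ?_
        have w0 : q ^ b * 0 = 0 := mul_zero _
        have a1 := q1_word (x := 0) (M := P * (q ^ (N * W) * y + n)) hq he hb hPb hW
          (by rw [w0]; omega) hc hz
        have a2 := q1_word (x := 0) (M := R * (q ^ (N * W) * y + n)) hq he hb hRb hW
          (by rw [w0]; omega) hd hz'
        simp only [mul_zero, zero_add, q1_zero he] at a1 a2 ⊢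
        rw [a1, a2, q1_word (x := x) (M := P * (q ^ (N * W) * y + n)) hq he hb hPb hW hPW hc hz,
          q1_word (x := x) (M := R * (q ^ (N * W) * y + n)) hq he hb hRb hW hRW hd hz']
        simp only [pow_zero, one_mul, add_zero]
        rw [Function.iterate_succ_apply']
        have hgT : (q1_B v v')^[j] (q1_D v v' F1) =
            q1_T (e (q ^ h * c + z)) (e (q ^ h * d + z')) g := by
          rw [hg, q1_T_Biter, q1_T_D]
        rw [hgT]
        unfold q1_B q1_T
        rw [← add_assoc, ← add_assoc]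
        ring
      rw [e5, abs_mul, abs_of_pos (by norm_num : (0 : ℝ) < 2)]
      exact mul_le_mul_of_nonneg_left (ih F1 hF1b (j + 1) 0 y 0 0 0 0 (Nat.zero_le _)
        (Nat.zero_le _) (by simp) (by simp)) (by norm_num)
    have hother : ∀ w < q ^ W, |u w| ≤ 2 * Real.sqrt D0 := fun w hw =>
      ih F hF j _ _ _ _ _ _ (q1_carry hq hc hw) (q1_carry hq hd hw) (q1_low hq hz) (q1_low hq hz')
    have hsum : |∑ w ∈ Finset.range (q ^ W), u w| ≤
        2 * (2 * Real.sqrt D1) + ((q : ℝ) ^ W - 2) * (2 * Real.sqrt D0) := by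
      have hm1 : 0 ∈ Finset.range (q ^ W) := Finset.mem_range.mpr h0W
      have hm2 : q ^ b * x ∈ (Finset.range (q ^ W)).erase 0 :=
        Finset.mem_erase.mpr ⟨hne.symm, Finset.mem_range.mpr hqx⟩
      rw [← Finset.add_sum_erase _ _ hm1, ← Finset.add_sum_erase _ _ hm2, ← add_assoc]
      refine (abs_add_le _ _).trans (add_le_add hpair ?_)
      refine (Finset.abs_sum_le_sum_abs _ _).trans ?_
      calc ∑ w ∈ ((Finset.range (q ^ W)).erase 0).erase (q ^ b * x), |u w|
          ≤ ∑ w ∈ ((Finset.range (q ^ W)).erase 0).erase (q ^ b * x), 2 * Real.sqrt D0 := by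
            refine Finset.sum_le_sum fun w hw => hother w ?_
            exact Finset.mem_range.mp (Finset.mem_of_mem_erase (Finset.mem_of_mem_erase hw))
        _ = ((q : ℝ) ^ W - 2) * (2 * Real.sqrt D0) := by
            rw [Finset.sum_const, Finset.card_erase_of_mem hm2, Finset.card_erase_of_mem hm1,
              Finset.card_range, nsmul_eq_mul]
            congr 1
            have : q ^ W - 1 - 1 = q ^ W - 2 := by omega
            rw [this, Nat.cast_sub hW1]
            push_cast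
            ring
    have hpos : (0 : ℝ) < (q : ℝ) ^ W := by linarith
    have hav : |av q W u| ≤ 2 / (q : ℝ) ^ W * (2 * Real.sqrt D1) +
        (1 - 2 / (q : ℝ) ^ W) * (2 * Real.sqrt D0) := by
      unfold av
      rw [abs_div, abs_of_pos hpos, div_le_iff₀ hpos]
      refine hsum.trans (le_of_eq ?_)
      field_simp
    refine hav.trans ?_
    have hκ0 : (0 : ℝ) ≤ 2 / (q : ℝ) ^ W := by positivity
    have hκ1 : (2 : ℝ) / (q : ℝ) ^ W ≤ 1 := by
      rw [div_le_one hpos]
      exact hWr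
    have h3 := DS.A_concave hκ0 hκ1 hD1n hD0n
    have h4 : 2 / (q : ℝ) ^ W * D1 + (1 - 2 / (q : ℝ) ^ W) * D0 ≤
        1 / (j + 1 + 2 / (q : ℝ) ^ W * (N + 1 : ℕ) / 2) := by
      have h5 := DS.A_rat (κ := 2 / (q : ℝ) ^ W) (z := j + 1 + 2 / (q : ℝ) ^ W * N / 2) hκ0 (by
        have : (0 : ℝ) ≤ 2 / (q : ℝ) ^ W * N / 2 := by positivity
        have : (0 : ℝ) ≤ (j : ℝ) := Nat.cast_nonneg j
        linarith)
      refine le_trans (le_of_eq ?_) (h5.trans (le_of_eq ?_))
      · rw [hD0, hD1]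
        push_cast
        congr 3
        ring
      · push_cast
        congr 1
        ring
    calc 2 / (q : ℝ) ^ W * (2 * Real.sqrt D1) + (1 - 2 / (q : ℝ) ^ W) * (2 * Real.sqrt D0)
        = 2 * (2 / (q : ℝ) ^ W * Real.sqrt D1 + (1 - 2 / (q : ℝ) ^ W) * Real.sqrt D0) := by ring
      _ ≤ 2 * Real.sqrt (2 / (q : ℝ) ^ W * D1 + (1 - 2 / (q : ℝ) ^ W) * D0) :=
          mul_le_mul_of_nonneg_left h3 (by norm_num)
      _ ≤ _ := mul_le_mul_of_nonneg_left (Real.sqrt_le_sqrt h4) (by norm_num)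

theorem q1_Phi_sub (q P R : ℕ) (h k y c d z z' : ℕ) (v v' : H) (F : H → H → ℝ) :
    Phi q P R e h k y c d z z' F - Phi q P R e h k y c d z z' (fun x x' => F (x + v) (x' + v')) =
      Phi q P R e h k y c d z z' (q1_D v v' F) := by
  unfold Phi
  rw [← av_sub]
  rfl

theorem good_base {H : Type*} [AddCommGroup H] {q m : ℕ} (hq : 2 ≤ q) {e : ℕ → H}
    (he : ∀ a y s : ℕ, s < q ^ a → e (q ^ (a + m) * y + s) = e y + e s) {P R : ℕ} (hP : 1 ≤ P)
    (hR : 1 ≤ R) (x : ℕ) : Good q P R e (e (P * x)) (e (R * x)) := by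
  rcases Nat.eq_zero_or_pos x with hx | hx
  · subst hx
    rw [mul_zero, mul_zero, q1_zero he]
    refine ⟨0, le_rfl, ?_⟩
    intro h k y c d z z' _ _ _ _ F _
    simp
  obtain ⟨b0, hb0⟩ : ∃ b0, P + R + 1 ≤ q ^ b0 :=
    ⟨P + R + 1, (Nat.lt_pow_self (by omega)).le⟩
  set b := b0 + m with hb
  have ebm : b - m = b0 := by omega
  obtain ⟨W0, hW0⟩ : ∃ W0, (P + R) * (q ^ b * x) + (P + R) + 1 ≤ q ^ W0 :=
    ⟨(P + R) * (q ^ b * x) + (P + R) + 1, (Nat.lt_pow_self (by omega)).le⟩
  set W := W0 + m with hW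
  have eWm : W - m = W0 := by omega
  rw [Nat.add_mul] at hW0
  have hPW : P * (q ^ b * x) + P + 1 ≤ q ^ (W - m) := by
    rw [eWm]
    omega
  have hRW : R * (q ^ b * x) + R + 1 ≤ q ^ (W - m) := by
    rw [eWm]
    omega
  have hWpos : 0 < W := by
    rcases Nat.eq_zero_or_pos W with h0 | h0
    · rw [h0] at hPW
      simp only [zero_tsub, pow_zero] at hPW
      omega
    · exact h0
  have hWr : (0 : ℝ) < W := by exact_mod_cast hWpos
  have hqW := qpow_posR hq W
  refine ⟨2 * Real.sqrt ((q : ℝ) ^ W * W), by positivity, ?_⟩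
  intro h k y c d z z' hc hd hz hz' F hF
  rw [q1_Phi_sub]
  have hk : k % W + k / W * W = k := Nat.mod_add_div' k W
  set N := k / W with hN
  have h1 : |Phi q P R e h k y c d z z' (q1_D (e (P * x)) (e (R * x)) F)| ≤
      2 * Real.sqrt (1 / ((0 : ℕ) + 1 + 2 / (q : ℝ) ^ W * N / 2)) := by
    rw [← hk, q1_split]
    refine abs_av_le hq fun w hw => ?_
    exact q1_windows hq he hx hP (by omega) (by rw [ebm]; omega) (by rw [ebm]; omega) (by omega)
      hPW hRW N F hF 0 _ _ _ _ _ _ (q1_carry hq hc hw) (q1_carry hq hd hw) (q1_low hq hz)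
      (q1_low hq hz')
  refine h1.trans ?_
  have e0 : 2 * Real.sqrt ((q : ℝ) ^ W * W) / Real.sqrt (k + 1) =
      2 * Real.sqrt ((q : ℝ) ^ W * W / (k + 1)) := by
    rw [Real.sqrt_div (by positivity), mul_div_assoc]
  rw [e0]
  refine mul_le_mul_of_nonneg_left (Real.sqrt_le_sqrt ?_) (by norm_num)
  have hlt : k < W * (N + 1) := Nat.lt_mul_div_succ k hWpos
  have hk1 : (k : ℝ) + 1 ≤ W * (N + 1) := by exact_mod_cast hlt
  have h1W : (1 : ℝ) ≤ (q : ℝ) ^ W := by
    exact_mod_cast Nat.one_le_pow _ _ (by omega : 0 < q)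
  rw [div_le_div_iff₀ (by positivity) (by positivity)]
  push_cast
  have e' : (q : ℝ) ^ W * W * (0 + 1 + 2 / (q : ℝ) ^ W * N / 2) = W * ((q : ℝ) ^ W + N) := by
    field_simp
    ring
  rw [e', one_mul]
  have h0N : (0 : ℝ) ≤ N := Nat.cast_nonneg N
  nlinarith

end main

end Pool.Agent.Lib.MP_3e612f_nt.QA
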