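import Pool.Agent.Lib.MP_3e612f_nt.MPairs
import Pool.Agent.Lib.MP_3e612f_nt.MWin

/-!
Local bounds for the law of the increments, for a fixed increase of the argument.
-/

set_option autoImplicit false

namespace Pool.Agent.Lib.MP_3e612f_nt.MB

open Filter Topology
open Pool.Agent.Lib.MP_3e612f_nt.QA

namespace Local

section ops

variable {H : Type*} [AddCommGroup H]

/-- the averages in the directions `V 0`, ..., `V (n - 1)` -/
noncomputable def it (V : ℕ → H × H) (J : ℕ → ℕ) : ℕ → (H → H → ℝ) → (H → H → ℝ)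
  | 0, φ => φ
  | n + 1, φ => (q1_B (V n).1 (V n).2)^[J n] (it V J n φ)

theorem it_zero (V : ℕ → H × H) (J : ℕ → ℕ) (φ : H → H → ℝ) : it V J 0 φ = φ := rfl

theorem it_succ (V : ℕ → H × H) (J : ℕ → ℕ) (n : ℕ) (φ : H → H → ℝ) :
    it V J (n + 1) φ = (q1_B (V n).1 (V n).2)^[J n] (it V J n φ) := rfl

theorem it_succ' (V : ℕ → H × H) (J : ℕ → ℕ) (n : ℕ) (φ : H → H → ℝ) :
    it V J (n + 1) φ =
      it (fun i => V (i + 1)) (fun i => J (i + 1)) n ((q1_B (V 0).1 (V 0).2)^[J 0] φ) := by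
  induction n with
  | zero => rfl
  | succ n ih => rw [it_succ, ih, it_succ]

theorem D_B (v v' u u' : H) (F : H → H → ℝ) :
    q1_D v v' (q1_B u u' F) = q1_B u u' (q1_D v v' F) := by
  funext x x'
  unfold q1_D q1_B
  rw [add_right_comm x v u, add_right_comm x' v' u']
  ring

theorem D_Biter (v v' u u' : H) (j : ℕ) (F : H → H → ℝ) :
    q1_D v v' ((q1_B u u')^[j] F) = (q1_B u u')^[j] (q1_D v v' F) := by
  induction j with
  | zero => rfl
  | succ j ih => rw [Function.iterate_succ_apply', D_B, ih, Function.iterate_succ_apply']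

theorem it_D (V : ℕ → H × H) (J : ℕ → ℕ) (n : ℕ) (v v' : H) (φ : H → H → ℝ) :
    it V J n (q1_D v v' φ) = q1_D v v' (it V J n φ) := by
  induction n with
  | zero => rfl
  | succ n ih => rw [it_succ, it_succ, ih, D_Biter]

theorem bin_scale (k : ℕ) (c : ℝ) (G : ℕ → ℝ) : DS.bin k (fun i => c * G i) = c * DS.bin k G := by
  unfold DS.bin
  rw [← mul_div_assoc, Finset.mul_sum]
  congr 1
  exact Finset.sum_congr rfl fun i _ => by ring

theorem bin_shift' {G : ℕ → ℝ} {M : ℝ} (hM : 0 < M) (hG : ∀ x, |G x| ≤ M) (k : ℕ) :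
    |DS.bin k (fun i => G i - G (i + 1))| ≤ M * (2 / Real.sqrt (k + 1)) := by
  have e1 : (fun i => G i - G (i + 1)) =
      fun i => M * ((fun i => M⁻¹ * G i) i - (fun i => M⁻¹ * G (i + 1)) i) := by
    funext i
    field_simp
  rw [e1, bin_scale, abs_mul, abs_of_pos hM, DS.bin_sub]
  refine mul_le_mul_of_nonneg_left ?_ hM.le
  exact DS.bin_shift (G := fun i => M⁻¹ * G i) (fun i => by
    rw [abs_mul, abs_of_pos (inv_pos.2 hM), inv_mul_le_iff₀ hM, mul_one]
    exact hG i) k

theorem bin_single {f : ℕ → ℝ} {M : ℝ} (hM : 0 ≤ M) (hf : ∀ i, |f i| ≤ M)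
    (hs : ∀ i i', f i ≠ 0 → f i' ≠ 0 → i = i') (k : ℕ) :
    |DS.bin k f| ≤ M * (2 / Real.sqrt (k + 1)) := by
  by_cases h : ∃ i, f i ≠ 0
  · obtain ⟨i₀, hi₀⟩ := h
    have hf' : ∀ i, i ≠ i₀ → f i = 0 := by
      intro i hi
      by_contra h
      exact hi (hs i i₀ h hi₀)
    have e1 : f = fun i => f i₀ * ((fun i => if i ≤ i₀ then (1 : ℝ) else 0) i -
        (fun i => if i ≤ i₀ then (1 : ℝ) else 0) (i + 1)) := by
      funext i
      change f i = f i₀ * ((if i ≤ i₀ then (1 : ℝ) else 0) - (if i + 1 ≤ i₀ then (1 : ℝ) else 0))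
      rcases lt_trichotomy i i₀ with h | h | h
      · rw [hf' i (by omega), if_pos (by omega), if_pos (by omega)]
        ring
      · subst h
        rw [if_pos le_rfl, if_neg (by omega)]
        ring
      · rw [hf' i (by omega), if_neg (by omega), if_neg (by omega)]
        ring
    rw [e1, bin_scale, abs_mul]
    refine mul_le_mul (hf i₀) ?_ (abs_nonneg _) hM
    have := bin_shift' (G := fun i => if i ≤ i₀ then (1 : ℝ) else 0) one_pos (fun i => by
      split_ifs <;> simp) k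
    rwa [one_mul] at this
  · have h' : ∀ i, f i = 0 := fun i => by
      by_contra h1
      exact h ⟨i, h1⟩
    have : DS.bin k f = 0 := by
      unfold DS.bin
      simp [h']
    rw [this, abs_zero]
    positivity

theorem iter_D {v v' : H} {F : H → H → ℝ} {M : ℝ} (hM : 0 < M) (hF : ∀ x x', |F x x'| ≤ M)
    (j : ℕ) (x x' : H) :
    |(q1_B v v')^[j] (q1_D v v' F) x x'| ≤ M * (2 / Real.sqrt (j + 1)) := by
  rw [q1_iter]
  have e : (fun i : ℕ => q1_D v v' F (x + i • v) (x' + i • v')) = fun i =>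
      (fun i : ℕ => F (x + i • v) (x' + i • v')) i -
        (fun i : ℕ => F (x + i • v) (x' + i • v')) (i + 1) := by
    funext i
    unfold q1_D
    rw [add_assoc x, add_assoc x', ← succ_nsmul, ← succ_nsmul]
  rw [e]
  exact bin_shift' (G := fun i : ℕ => F (x + i • v) (x' + i • v')) hM (fun i => hF _ _) j

end ops

section multi

variable {H : Type*} [AddCommGroup H]

/-- the conclusion of the lemma on windows -/
def WinP (q P R : ℕ) (e : ℕ → H) (W ω : ℕ) (κ : ℝ) (v v' : H) : Prop :=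
  ∀ (N L r : ℕ) (φ : H → H → ℝ) (β : ℝ), 0 ≤ β → W * N ≤ L →
    (∀ j h y c c₁ d d₁ z z₁ t t₁ : ℕ, St q P R h c c₁ d d₁ z z₁ t t₁ → ∀ s s' : H,
      |Inc q P R e (r / q ^ (W * N)) h (L - W * N) y c c₁ d d₁ z z₁ t t₁
        (q1_T s s' ((q1_B v v')^[j] φ))| ≤ β * Real.sqrt (1 / (j + 1))) →
    ∀ j h y c c₁ d d₁ z z₁ t t₁ : ℕ, St q P R h c c₁ d d₁ z z₁ t t₁ → ∀ s s' : H,
      |Inc q P R e r h L y c c₁ d d₁ z z₁ t t₁ (q1_T s s' ((q1_B v v')^[j] φ))| ≤
        β * Real.sqrt (1 / (j + 1 + κ * cnt q W N ω r))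

theorem multi {q P R : ℕ} (hq : 2 ≤ q) {e : ℕ → H} {W N : ℕ} (n : ℕ) :
    ∀ (V : ℕ → H × H) (ω : ℕ → ℕ) (κ : ℕ → ℝ) (φ : H → H → ℝ) (β : ℝ) (L r : ℕ), 0 ≤ β →
      (∀ i < n, 0 ≤ κ i) → (∀ i < n, WinP q P R e W (ω i) (κ i) (V i).1 (V i).2) →
      W * N * n ≤ L →
      (∀ J x x', |it V J n φ x x'| ≤ β * ∏ i ∈ Finset.range n, Real.sqrt (1 / (J i + 1))) →
      ∀ h y c c₁ d d₁ z z₁ t t₁ : ℕ, St q P R h c c₁ d d₁ z z₁ t t₁ → ∀ s s' : H,
        |Inc q P R e r h L y c c₁ d d₁ z z₁ t t₁ (q1_T s s' φ)| ≤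
          β * ∏ i ∈ Finset.range n,
            Real.sqrt (1 / (1 + κ i * cnt q W N (ω i) (r / q ^ (W * N * i)))) := by
  induction n with
  | zero =>
    intro V ω κ φ β L r hβ _ _ _ hbase h y c c₁ d d₁ z z₁ t t₁ _ s s'
    have hb := fun x x' => hbase (fun _ => 0) x x'
    simp only [it_zero, Finset.range_zero, Finset.prod_empty, mul_one] at hb ⊢
    exact abs_av_le hq fun n _ => hb _ _
  | succ n ih =>
    intro V ω κ φ β L r hβ hκ hV hL hbase h y c c₁ d d₁ z z₁ t t₁ hS s s'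
    have hL1 : W * N ≤ L := by
      refine le_trans ?_ hL
      exact Nat.le_mul_of_pos_right _ (Nat.succ_pos n)
    set β₁ : ℝ := β * ∏ i ∈ Finset.range n, Real.sqrt (1 / (1 + κ (i + 1) *
      cnt q W N (ω (i + 1)) (r / q ^ (W * N) / q ^ (W * N * i)))) with hβ₁
    have hβ₁n : 0 ≤ β₁ := mul_nonneg hβ (Finset.prod_nonneg fun i _ => Real.sqrt_nonneg _)
    have key := hV 0 (Nat.succ_pos n) N L r φ β₁ hβ₁n hL1 ?_ 0 h y c c₁ d d₁ z z₁ t t₁ hS s s'
    · rw [Function.iterate_zero_apply] at key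
      refine key.trans (le_of_eq ?_)
      rw [Finset.prod_range_succ', hβ₁, ← mul_assoc]
      have e1 : ∀ i, r / q ^ (W * N) / q ^ (W * N * i) = r / q ^ (W * N * (i + 1)) := by
        intro i
        rw [Nat.div_div_eq_div_mul, ← pow_add]
        congr 2
        ring
      simp only [e1, mul_zero, pow_zero, Nat.div_one, Nat.cast_zero, zero_add]
    · intro j h y c c₁ d d₁ z z₁ t t₁ hS s s'
      have h0 : 0 ≤ β * Real.sqrt (1 / (j + 1)) := mul_nonneg hβ (Real.sqrt_nonneg _)
      refine (ih (fun i => V (i + 1)) (fun i => ω (i + 1)) (fun i => κ (i + 1))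
        ((q1_B (V 0).1 (V 0).2)^[j] φ) (β * Real.sqrt (1 / (j + 1))) (L - W * N)
        (r / q ^ (W * N)) h0 (fun i hi => hκ _ (by omega)) (fun i hi => hV _ (by omega)) ?_ ?_
        h y c c₁ d d₁ z z₁ t t₁ hS s s').trans (le_of_eq ?_)
      · have : W * N * (n + 1) = W * N * n + W * N := by ring
        omega
      · intro J x x'
        have := hbase (fun i => if i = 0 then j else J (i - 1)) x x'
        rw [it_succ'] at this
        simp only [Nat.add_eq_zero_iff, one_ne_zero, and_false, if_false, Nat.add_sub_cancel,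
          if_true] at this
        rw [Finset.prod_range_succ'] at this
        simp only [Nat.add_eq_zero_iff, one_ne_zero, and_false, if_false, Nat.add_sub_cancel,
          if_true] at this
        refine this.trans (le_of_eq ?_)
        ring
      · rw [hβ₁]
        ring

end multi

section coord

variable {d : ℕ}

/-- a multiple of a coordinate vector -/
def cv (d : ℕ) (g : ℕ) (i : ℕ) : Fin d → ℤ := fun a => if (a : ℕ) = i then (g : ℤ) else 0

/-- the directions -/
def dir (g : ℕ) (w w' : Fin d → ℤ) (i : ℕ) : (Fin d → ℤ) × (Fin d → ℤ) :=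
  if i < d then (cv d g i, 0) else if i < 2 * d then (0, cv d g (i - d)) else (w, w')

theorem coord_base {g : ℕ} (hg : 1 ≤ g) (w w' u u' : Fin d → ℤ) (J : ℕ → ℕ) (n : ℕ)
    (hn : n ≤ 2 * d) : ∀ x x' : Fin d → ℤ,
    |it (dir g w w') J n (ind u u') x x'| ≤
      ∏ i ∈ Finset.range n, (2 / Real.sqrt (J i + 1)) ∧
    (it (dir g w w') J n (ind u u') x x' ≠ 0 →
      (∀ a : Fin d, n ≤ a → x a = u a) ∧ (∀ a : Fin d, n ≤ d + a → x' a = u' a)) := by
  induction n with
  | zero =>
    intro x x'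
    rw [it_zero, Finset.range_zero, Finset.prod_empty]
    unfold ind
    constructor
    · split_ifs <;> simp
    · intro h
      have h' : x = u ∧ x' = u' := by
        by_contra h1
        rw [if_neg h1] at h
        exact h rfl
      rw [h'.1, h'.2]
      exact ⟨fun _ _ => rfl, fun _ _ => rfl⟩
  | succ n ih =>
    have ih := ih (by omega)
    intro x x'
    rw [it_succ, q1_iter]
    have hM : (0 : ℝ) ≤ ∏ i ∈ Finset.range n, (2 / Real.sqrt (J i + 1)) :=
      Finset.prod_nonneg fun i _ => by positivity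
    have hgz : (g : ℤ) ≠ 0 := by exact_mod_cast (by omega : g ≠ 0)
    constructor
    · rw [Finset.prod_range_succ]
      refine bin_single hM (fun i => (ih _ _).1) ?_ _
      intro i i' hi hi'
      have h1 := (ih _ _).2 hi
      have h2 := (ih _ _).2 hi'
      by_cases hnd : n < d
      · have a1 := h1.1 ⟨n, hnd⟩ le_rfl
        have a2 := h2.1 ⟨n, hnd⟩ le_rfl
        rw [← a2] at a1
        simp only [dir, if_pos hnd, cv, Pi.add_apply, Pi.smul_apply, if_true,
          add_right_inj] at a1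
        rw [nsmul_eq_mul, nsmul_eq_mul] at a1
        have := mul_right_cancel₀ hgz a1
        exact_mod_cast this
      · have hnd2 : n < 2 * d := by omega
        have a1 := h1.2 ⟨n - d, by omega⟩ (by simp only; omega)
        have a2 := h2.2 ⟨n - d, by omega⟩ (by simp only; omega)
        rw [← a2] at a1
        simp only [dir, if_neg hnd, if_pos hnd2, cv, Pi.add_apply, Pi.smul_apply,
          if_true, add_right_inj] at a1
        rw [nsmul_eq_mul, nsmul_eq_mul] at a1
        have := mul_right_cancel₀ hgz a1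
        exact_mod_cast this
    · intro h
      have hex : ∃ i : ℕ, it (dir g w w') J n (ind u u') (x + i • (dir g w w' n).1)
          (x' + i • (dir g w w' n).2) ≠ 0 := by
        by_contra hno
        apply h
        have hno' : ∀ i : ℕ, it (dir g w w') J n (ind u u') (x + i • (dir g w w' n).1)
          (x' + i • (dir g w w' n).2) = 0 := fun i => by
            by_contra h1
            exact hno ⟨i, h1⟩
        unfold DS.bin
        simp only [hno', mul_zero, Finset.sum_const_zero, zero_div]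
      obtain ⟨i, hi⟩ := hex
      have h1 := (ih _ _).2 hi
      constructor
      · intro a ha
        have a1 := h1.1 a (by omega)
        rw [← a1]
        by_cases hnd : n < d
        · have : (a : ℕ) ≠ n := by omega
          simp [dir, hnd, cv, this]
        · have := a.2
          omega
      · intro a ha
        have a1 := h1.2 a (by omega)
        rw [← a1]
        by_cases hnd : n < d
        · simp [dir, hnd]
        · have hnd2 : n < 2 * d := by omega
          have : (a : ℕ) ≠ n - d := by omega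
          simp [dir, hnd, hnd2, cv, this]

end coord

end Local

open Local

/-- M3: local bounds for a fixed increase of the argument -/
theorem local_fixed {q m d : ℕ} (hq : 2 ≤ q) {e : ℕ → Fin d → ℤ}
    (he : ∀ a y s : ℕ, s < q ^ a → e (q ^ (a + m) * y + s) = e y + e s)
    (hgen : AddSubgroup.closure (Set.range e) = ⊤) {P R : ℕ}
    (hP : P.Coprime q) (hR : R.Coprime q) (hPR : 2 * q ^ m * P ≤ R) (hP1 : 1 ≤ P)
    {w w' : Fin d → ℤ} (hw : w ∈ Lam e) (hw' : w' ∈ Lam e) :
    ∃ (W : ℕ) (ω : Fin (2 * d + 1) → ℕ) (C : ℝ), 1 ≤ W ∧ (∀ j, ω j < q ^ W) ∧ 0 ≤ C ∧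
      ∀ N K L r : ℕ, W * N * (2 * d + 1) ≤ L →
      (∀ j : Fin (2 * d + 1), K ≤ cnt q W N (ω j) (r / q ^ (W * N * j))) →
      ∀ h y c c₁ d₀ d₁ z z₁ t t₁ : ℕ, St q P R h c c₁ d₀ d₁ z z₁ t t₁ → ∀ u u' : Fin d → ℤ,
        |Inc q P R e r h L y c c₁ d₀ d₁ z z₁ t t₁ (ind u u')| ≤
          C / Real.sqrt (K + 1) ^ (2 * d) ∧
        |Inc q P R e r h L y c c₁ d₀ d₁ z z₁ t t₁ (ind u u') -
          Inc q P R e r h L y c c₁ d₀ d₁ z z₁ t t₁ (ind (u + w) (u' + w'))| ≤
          C / Real.sqrt (K + 1) ^ (2 * d + 1) := by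
  have hqm : 1 ≤ q ^ m := Nat.one_le_pow _ _ (by omega)
  have hR1 : 1 ≤ R := by
    refine le_trans ?_ hPR
    have : 1 * 1 * 1 ≤ 2 * q ^ m * P := Nat.mul_le_mul (Nat.mul_le_mul (by omega) hqm) hP1
    simpa using this
  -- the directions lie in the group of defects
  have hdir : ∀ i, (dir (q - 1) w w' i).1 ∈ Lam e ∧ (dir (q - 1) w w' i).2 ∈ Lam e := by
    have hcv : ∀ i, cv d (q - 1) i ∈ Lam e := by
      intro i
      have := smul_mem_lam hq he hgen (fun a : Fin d => if (a : ℕ) = i then (1 : ℤ) else 0)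
      convert this using 1
      funext a
      simp [cv]
    intro i
    unfold dir
    split_ifs
    · exact ⟨hcv _, AddSubgroup.zero_mem _⟩
    · exact ⟨AddSubgroup.zero_mem _, hcv _⟩
    · exact ⟨hw, hw'⟩
  have hwin : ∀ i, ∃ W₀ : ℕ, ∀ W ≥ W₀, ∃ ω < q ^ W, ∃ κ : ℝ, 0 < κ ∧ κ ≤ 1 ∧
      WinP q P R e W ω κ (dir (q - 1) w w' i).1 (dir (q - 1) w w' i).2 := by
    intro i
    obtain ⟨ρ, x, x', hx, hv, hv'⟩ := second_pair hq he hP hR hPR hP1 (hdir i).1 (hdir i).2
    exact windows hq he hP1 hR1 hx hv hv'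
  choose W₀ hW₀ using hwin
  set W := (∑ i ∈ Finset.range (2 * d + 1), W₀ i) + 1 with hW
  have hWle : ∀ i < 2 * d + 1, W₀ i ≤ W := by
    intro i hi
    have := Finset.single_le_sum (f := W₀) (fun j _ => Nat.zero_le _) (Finset.mem_range.2 hi)
    omega
  have hex : ∀ i, ∃ ω : ℕ, ∃ κ : ℝ, i < 2 * d + 1 → ω < q ^ W ∧ 0 < κ ∧ κ ≤ 1 ∧
      WinP q P R e W ω κ (dir (q - 1) w w' i).1 (dir (q - 1) w w' i).2 := by
    intro i
    by_cases hi : i < 2 * d + 1
    · obtain ⟨ω, h1, κ, h2, h3, h4⟩ := hW₀ i W (hWle i hi)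
      exact ⟨ω, κ, fun _ => ⟨h1, h2, h3, h4⟩⟩
    · exact ⟨0, 0, fun h => absurd h hi⟩
  choose ω κ hωκ using hex
  set C : ℝ := 2 ^ (2 * d + 1) * ∏ i ∈ Finset.range (2 * d + 1), (1 / Real.sqrt (κ i)) with hC
  have hC0 : 0 ≤ C := by positivity
  refine ⟨W, fun j => ω j, C, by omega, fun j => (hωκ j j.2).1, hC0, ?_⟩
  intro N K L r hL hK h y c c₁ d₀ d₁ z z₁ t t₁ hS u u'
  -- the numerical bound
  have hnum : ∀ i < 2 * d + 1, Real.sqrt (1 / (1 + κ i * cnt q W N (ω i) (r / q ^ (W * N * i)))) ≤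
      1 / Real.sqrt (κ i) * (1 / Real.sqrt (K + 1)) := by
    intro i hi
    obtain ⟨-, h1, h2, -⟩ := hωκ i hi
    have h3 : (K : ℝ) ≤ cnt q W N (ω i) (r / q ^ (W * N * i)) := by
      exact_mod_cast hK ⟨i, hi⟩
    have hK0 : (0 : ℝ) ≤ K := Nat.cast_nonneg K
    have e1 : 1 / Real.sqrt (κ i) * (1 / Real.sqrt (K + 1)) = Real.sqrt (1 / (κ i * (K + 1))) := by
      rw [Real.sqrt_div zero_le_one, Real.sqrt_one, Real.sqrt_mul h1.le, one_div_mul_one_div]
    rw [e1]
    refine Real.sqrt_le_sqrt (one_div_le_one_div_of_le (by positivity) ?_)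
    nlinarith
  have hnum' : ∀ n ≤ 2 * d + 1, ∏ i ∈ Finset.range n,
      Real.sqrt (1 / (1 + κ i * cnt q W N (ω i) (r / q ^ (W * N * i)))) ≤
      (∏ i ∈ Finset.range (2 * d + 1), (1 / Real.sqrt (κ i))) / Real.sqrt (K + 1) ^ n := by
    intro n hn
    have h1 : ∏ i ∈ Finset.range n,
        Real.sqrt (1 / (1 + κ i * cnt q W N (ω i) (r / q ^ (W * N * i)))) ≤
        ∏ i ∈ Finset.range n, (1 / Real.sqrt (κ i) * (1 / Real.sqrt (K + 1))) :=
      Finset.prod_le_prod (fun i _ => Real.sqrt_nonneg _)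
        fun i hi => hnum i (by have := Finset.mem_range.1 hi; omega)
    refine h1.trans ?_
    rw [Finset.prod_mul_distrib, Finset.prod_const, Finset.card_range, one_div_pow,
      mul_one_div]
    refine div_le_div_of_nonneg_right ?_ (by positivity)
    rw [← Finset.prod_range_mul_prod_Ico _ hn]
    refine le_mul_of_one_le_right (Finset.prod_nonneg fun i _ => by positivity) ?_
    have h2 : ∏ i ∈ Finset.Ico n (2 * d + 1), (1 : ℝ) ≤
        ∏ i ∈ Finset.Ico n (2 * d + 1), (1 / Real.sqrt (κ i)) := by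
      refine Finset.prod_le_prod (fun _ _ => zero_le_one) fun i hi => ?_
      obtain ⟨-, h3, h4, -⟩ := hωκ i (Finset.mem_Ico.1 hi).2
      rw [one_le_div (Real.sqrt_pos.2 h3)]
      exact Real.sqrt_le_one.2 h4
    rwa [Finset.prod_const_one] at h2
  have hprod : ∀ (n : ℕ) (J : ℕ → ℕ), ∏ i ∈ Finset.range n, (2 / Real.sqrt (J i + 1)) =
      2 ^ n * ∏ i ∈ Finset.range n, Real.sqrt (1 / (J i + 1)) := by
    intro n J
    have e1 : ∀ i, 2 / Real.sqrt ((J i : ℝ) + 1) = 2 * Real.sqrt (1 / (J i + 1)) := by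
      intro i
      rw [Real.sqrt_div zero_le_one, Real.sqrt_one, mul_one_div]
    simp only [e1]
    rw [Finset.prod_mul_distrib, Finset.prod_const, Finset.card_range]
  have hT : ∀ φ : (Fin d → ℤ) → (Fin d → ℤ) → ℝ, q1_T 0 0 φ = φ := by
    intro φ
    funext x x'
    simp [q1_T]
  have hg : 1 ≤ q - 1 := by omega
  constructor
  · have key := multi (P := P) (R := R) (N := N) hq (2 * d) (dir (q - 1) w w') ω κ (ind u u')
      (2 ^ (2 * d)) L r (by positivity) (fun i hi => (hωκ i (by omega)).2.1.le)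
      (fun i hi => (hωκ i (by omega)).2.2.2) (le_trans (Nat.mul_le_mul_left _ (by omega)) hL)
      (fun J x x' => by
        rw [← hprod]
        exact (coord_base hg w w' u u' J (2 * d) le_rfl x x').1)
      h y c c₁ d₀ d₁ z z₁ t t₁ hS 0 0
    rw [hT] at key
    refine key.trans ?_
    refine (mul_le_mul_of_nonneg_left (hnum' (2 * d) (by omega)) (by positivity)).trans ?_
    rw [hC, mul_div_assoc]
    refine mul_le_mul_of_nonneg_right ?_ (by positivity)
    exact pow_le_pow_right₀ (by norm_num) (by omega)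
  · have key := multi (P := P) (R := R) (N := N) hq (2 * d + 1) (dir (q - 1) w w') ω κ
      (q1_D w w' (ind (u + w) (u' + w'))) (2 ^ (2 * d + 1)) L r (by positivity)
      (fun i hi => (hωκ i (by omega)).2.1.le) (fun i hi => (hωκ i (by omega)).2.2.2) hL
      (fun J x x' => by
        rw [← hprod, it_succ, it_D, Finset.prod_range_succ]
        have e1 : dir (q - 1) w w' (2 * d) = (w, w') := by
          unfold dir
          rw [if_neg (by omega), if_neg (by omega)]
        rw [e1]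
        refine iter_D (Finset.prod_pos fun i _ => by positivity) ?_ _ _ _
        intro x x'
        exact (coord_base hg w w' (u + w) (u' + w') J (2 * d) le_rfl x x').1)
      h y c c₁ d₀ d₁ z z₁ t t₁ hS 0 0
    rw [hT] at key
    have e2 : Inc q P R e r h L y c c₁ d₀ d₁ z z₁ t t₁ (ind u u') -
        Inc q P R e r h L y c c₁ d₀ d₁ z z₁ t t₁ (ind (u + w) (u' + w')) =
        -Inc q P R e r h L y c c₁ d₀ d₁ z z₁ t t₁ (q1_D w w' (ind (u + w) (u' + w'))) := by
      unfold Inc
      rw [← av_sub, ← av_neg]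
      refine av_congr fun n _ => ?_
      simp only [q1_D, ind, add_left_inj]
      ring
    rw [e2, abs_neg]
    refine key.trans ?_
    refine (mul_le_mul_of_nonneg_left (hnum' (2 * d + 1) le_rfl) (by positivity)).trans ?_
    rw [hC, mul_div_assoc]

end Pool.Agent.Lib.MP_3e612f_nt.MB
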