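import Pool.Agent.Lib.MP_3e612f_nt.QBase

/-!
From averages over blocks to logarithmic averages.
-/

set_option autoImplicit false

namespace Pool.Agent.Lib.MP_3e612f_nt.QA

open Filter Topology

/-- one block -/
theorem q13_block {M : ℕ} (hM : 1 ≤ M) {q : ℕ} (hq : 2 ≤ q) {u : ℕ → ℝ} {A : ℝ}
    (hu : ∀ n, |u n| ≤ A) {E : ℝ} {k y : ℕ} (hy : 1 ≤ y)
    (hE : ∀ i < M, |av q k (fun n => u (M * (q ^ k * y + n) + i))| ≤ E) :
    |(∑ n ∈ Finset.range (M * q ^ k * (y + 1)), u n / n) -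
      ∑ n ∈ Finset.range (M * q ^ k * y), u n / n| ≤ E / y + A * (1 / y - 1 / (y + 1)) := by
  have hA : 0 ≤ A := (abs_nonneg _).trans (hu 0)
  have hqk := qpow_pos hq k
  have hqkR := qpow_posR hq k
  have hMR : (0 : ℝ) < M := by exact_mod_cast hM
  have hyR : (0 : ℝ) < y := by exact_mod_cast hy
  set L : ℕ := M * q ^ k with hL
  have hLpos : 0 < L := Nat.mul_pos hM hqk
  have hLR : (0 : ℝ) < L := by exact_mod_cast hLpos
  have hLcast : (L : ℝ) = M * (q : ℝ) ^ k := by rw [hL]; push_cast; ring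
  have e1 : (∑ n ∈ Finset.range (L * (y + 1)), u n / n) - ∑ n ∈ Finset.range (L * y), u n / n =
      ∑ r ∈ Finset.range L, u (L * y + r) / ((L * y + r : ℕ) : ℝ) := by
    rw [Nat.mul_succ, Finset.sum_range_add]
    ring
  have e2 : ∑ r ∈ Finset.range L, u (L * y + r) =
      (q : ℝ) ^ k * ∑ i ∈ Finset.range M, av q k (fun n => u (M * (q ^ k * y + n) + i)) := by
    rw [hL, sum_range_mul_add, Finset.mul_sum]
    refine Finset.sum_congr rfl fun i _ => ?_
    unfold av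
    rw [mul_div_cancel₀ _ hqkR.ne']
    refine Finset.sum_congr rfl fun n _ => ?_
    congr 1
    ring
  have h1 : |∑ r ∈ Finset.range L, u (L * y + r)| ≤ L * E := by
    rw [e2, abs_mul, abs_of_pos hqkR, hLcast]
    have : |∑ i ∈ Finset.range M, av q k (fun n => u (M * (q ^ k * y + n) + i))| ≤ M * E := by
      refine (Finset.abs_sum_le_sum_abs _ _).trans ?_
      calc ∑ i ∈ Finset.range M, |av q k (fun n => u (M * (q ^ k * y + n) + i))|
          ≤ ∑ i ∈ Finset.range M, E :=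
            Finset.sum_le_sum fun i hi => hE i (Finset.mem_range.mp hi)
        _ = M * E := by rw [Finset.sum_const, Finset.card_range, nsmul_eq_mul]
    calc (q : ℝ) ^ k * |∑ i ∈ Finset.range M, av q k (fun n => u (M * (q ^ k * y + n) + i))|
        ≤ (q : ℝ) ^ k * (M * E) := mul_le_mul_of_nonneg_left this hqkR.le
      _ = M * (q : ℝ) ^ k * E := by ring
  have h2 : |(∑ r ∈ Finset.range L, u (L * y + r) / ((L * y + r : ℕ) : ℝ)) -
      (1 / (L * y : ℝ)) * ∑ r ∈ Finset.range L, u (L * y + r)| ≤ A * (1 / y - 1 / (y + 1)) := by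
    rw [Finset.mul_sum, ← Finset.sum_sub_distrib]
    refine (Finset.abs_sum_le_sum_abs _ _).trans ?_
    have : ∀ r ∈ Finset.range L, |u (L * y + r) / ((L * y + r : ℕ) : ℝ) -
        1 / (L * y : ℝ) * u (L * y + r)| ≤ A * (1 / (L * y) - 1 / (L * (y + 1))) := by
      intro r hr
      have hrL : r < L := Finset.mem_range.mp hr
      have hrR : (r : ℝ) ≤ L := by exact_mod_cast hrL.le
      have hr0 : (0 : ℝ) ≤ r := Nat.cast_nonneg r
      have e3 : u (L * y + r) / ((L * y + r : ℕ) : ℝ) - 1 / (L * y : ℝ) * u (L * y + r) =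
          - (u (L * y + r) * (1 / (L * y) - 1 / (L * y + r))) := by
        push_cast
        ring
      rw [e3, abs_neg, abs_mul]
      have h4 : (0 : ℝ) ≤ 1 / (L * y) - 1 / (L * y + r) := by
        rw [sub_nonneg]
        exact one_div_le_one_div_of_le (by positivity) (by linarith)
      have h5 : 1 / (L * y : ℝ) - 1 / (L * y + r) ≤ 1 / (L * y) - 1 / (L * (y + 1)) := by
        have : 1 / (L * (y + 1) : ℝ) ≤ 1 / (L * y + r) :=
          one_div_le_one_div_of_le (by positivity) (by linarith)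
        linarith
      rw [abs_of_nonneg h4]
      exact mul_le_mul (hu _) h5 h4 hA
    calc ∑ r ∈ Finset.range L, |u (L * y + r) / ((L * y + r : ℕ) : ℝ) -
        1 / (L * y : ℝ) * u (L * y + r)|
        ≤ ∑ r ∈ Finset.range L, A * (1 / (L * y) - 1 / (L * (y + 1))) := Finset.sum_le_sum this
      _ = A * (1 / y - 1 / (y + 1)) := by
        rw [Finset.sum_const, Finset.card_range, nsmul_eq_mul]
        field_simp
  rw [e1]
  have h3 : |1 / (L * y : ℝ) * ∑ r ∈ Finset.range L, u (L * y + r)| ≤ E / y := by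
    rw [abs_mul, abs_of_pos (by positivity)]
    calc 1 / (L * y : ℝ) * |∑ r ∈ Finset.range L, u (L * y + r)| ≤ 1 / (L * y : ℝ) * (L * E) :=
          mul_le_mul_of_nonneg_left h1 (by positivity)
      _ = E / y := by field_simp
  have := abs_sub_abs_le_abs_sub (∑ r ∈ Finset.range L, u (L * y + r) / ((L * y + r : ℕ) : ℝ))
    (1 / (L * y : ℝ) * ∑ r ∈ Finset.range L, u (L * y + r))
  linarith

theorem q13_tele (f : ℕ → ℝ) {m n : ℕ} (h : m ≤ n) :
    ∑ y ∈ Finset.Ico m n, (f (y + 1) - f y) = f n - f m := by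
  induction n, h using Nat.le_induction with
  | base => simp
  | succ n hn ih =>
    rw [Finset.sum_Ico_succ_top hn, ih]
    ring

/-- one shell -/
theorem q13_shell {M : ℕ} (hM : 1 ≤ M) {q : ℕ} (hq : 2 ≤ q) {u : ℕ → ℝ} {A : ℝ}
    (hu : ∀ n, |u n| ≤ A) {E : ℝ} (hE0 : 0 ≤ E) {k t : ℕ}
    (hE : ∀ y : ℕ, q ^ t ≤ y → y < q ^ (t + 1) → ∀ i < M,
      |av q k (fun n => u (M * (q ^ k * y + n) + i))| ≤ E) :
    |(∑ n ∈ Finset.range (M * q ^ (k + t + 1)), u n / n) -
      ∑ n ∈ Finset.range (M * q ^ (k + t)), u n / n| ≤ (q - 1) * E + A / q ^ t := by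
  have hA : 0 ≤ A := (abs_nonneg _).trans (hu 0)
  have hqt := qpow_pos hq t
  have hqtR := qpow_posR hq t
  have hle : q ^ t ≤ q ^ (t + 1) := Nat.pow_le_pow_right (by omega) (by omega)
  have e1 : M * q ^ (k + t + 1) = M * q ^ k * q ^ (t + 1) := by ring
  have e2 : M * q ^ (k + t) = M * q ^ k * q ^ t := by ring
  rw [e1, e2, ← q13_tele (fun y => ∑ n ∈ Finset.range (M * q ^ k * y), u n / n) hle]
  refine (Finset.abs_sum_le_sum_abs _ _).trans ?_
  have hb : ∀ y ∈ Finset.Ico (q ^ t) (q ^ (t + 1)),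
      |(∑ n ∈ Finset.range (M * q ^ k * (y + 1)), u n / n) -
        ∑ n ∈ Finset.range (M * q ^ k * y), u n / n| ≤
      E / (q : ℝ) ^ t + A * (1 / y - 1 / (y + 1)) := by
    intro y hy
    rw [Finset.mem_Ico] at hy
    have hy1 : 1 ≤ y := by omega
    have hyR : (0 : ℝ) < y := by exact_mod_cast hy1
    refine (q13_block hM hq hu hy1 (hE y hy.1 hy.2)).trans ?_
    have : (q : ℝ) ^ t ≤ y := by exact_mod_cast hy.1
    have h1 : E / y ≤ E / (q : ℝ) ^ t := div_le_div_of_nonneg_left hE0 hqtR this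
    linarith
  refine (Finset.sum_le_sum hb).trans ?_
  rw [Finset.sum_add_distrib, Finset.sum_const, Nat.card_Ico, ← Finset.mul_sum]
  have h2 : ∑ y ∈ Finset.Ico (q ^ t) (q ^ (t + 1)), ((1 : ℝ) / y - 1 / (y + 1)) ≤ 1 / (q : ℝ) ^ t := by
    have h3 := q13_tele (fun y : ℕ => - (1 / (y : ℝ))) hle
    have h4 : ∑ y ∈ Finset.Ico (q ^ t) (q ^ (t + 1)), ((1 : ℝ) / y - 1 / (y + 1)) =
        ∑ y ∈ Finset.Ico (q ^ t) (q ^ (t + 1)), (-(1 / ((y + 1 : ℕ) : ℝ)) - -(1 / (y : ℝ))) := by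
      refine Finset.sum_congr rfl fun y _ => ?_
      push_cast
      ring
    rw [h4, h3]
    push_cast
    have : (0 : ℝ) ≤ 1 / (q : ℝ) ^ (t + 1) := by positivity
    linarith
  have h5 : ((q ^ (t + 1) - q ^ t : ℕ) : ℝ) = (q - 1) * (q : ℝ) ^ t := by
    rw [Nat.cast_sub hle]
    push_cast
    ring
  rw [nsmul_eq_mul, h5]
  have h6 : ((q : ℝ) - 1) * (q : ℝ) ^ t * (E / (q : ℝ) ^ t) = (q - 1) * E := by
    field_simp
  have h7 := mul_le_mul_of_nonneg_left h2 hA
  rw [h6]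
  calc (q - 1) * E + A * ∑ y ∈ Finset.Ico (q ^ t) (q ^ (t + 1)), ((1 : ℝ) / y - 1 / (y + 1))
      ≤ (q - 1) * E + A * (1 / (q : ℝ) ^ t) := by linarith
    _ = (q - 1) * E + A / q ^ t := by ring

theorem q13_tail {u : ℕ → ℝ} {A : ℝ} (hu : ∀ n, |u n| ≤ A) {X Y : ℕ} (hX : 0 < X) (hXY : X ≤ Y) :
    |(∑ n ∈ Finset.range Y, u n / n) - ∑ n ∈ Finset.range X, u n / n| ≤
      A * ((Y - X) / X) := by
  have hA : 0 ≤ A := (abs_nonneg _).trans (hu 0)
  have hXR : (0 : ℝ) < X := by exact_mod_cast hX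
  rw [← Finset.sum_Ico_eq_sub _ hXY]
  refine (Finset.abs_sum_le_sum_abs _ _).trans ?_
  have hb : ∀ n ∈ Finset.Ico X Y, |u n / (n : ℝ)| ≤ A / X := by
    intro n hn
    rw [Finset.mem_Ico] at hn
    have hnR : (X : ℝ) ≤ n := by exact_mod_cast hn.1
    have hn0 : (0 : ℝ) < n := by linarith
    rw [abs_div, abs_of_pos hn0]
    exact div_le_div₀ hA (hu n) hXR hnR
  refine (Finset.sum_le_sum hb).trans ?_
  rw [Finset.sum_const, Nat.card_Ico, nsmul_eq_mul, Nat.cast_sub hXY]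
  apply le_of_eq
  ring

theorem block_log {q M : ℕ} (hq : 2 ≤ q) (hM : 1 ≤ M) {u : ℕ → ℝ} {A : ℝ} (hu : ∀ n, |u n| ≤ A)
    {η : ℝ} (hη : 0 ≤ η)
    (h : ∀ t : ℕ, ∀ ε : ℝ, 0 < ε → ∀ᶠ k : ℕ in atTop, ∀ y : ℕ, q ^ t ≤ y → y < q ^ (t + 1) →
      ∀ i < M, |av q k (fun n => u (M * (q ^ k * y + n) + i))| ≤ η + ε) {ε : ℝ} (hε : 0 < ε) :
    ∀ᶠ N : ℕ in atTop, |LogAvg u N| ≤ 2 * q * η + ε := by
  have hA : 0 ≤ A := (abs_nonneg _).trans (hu 0)
  have hqR : (2 : ℝ) ≤ q := by exact_mod_cast hq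
  -- choose `t`
  obtain ⟨t, ht⟩ : ∃ t : ℕ, A / (q : ℝ) ^ t ≤ ε / 8 := by
    have h1 : Tendsto (fun t : ℕ => A / (q : ℝ) ^ t) atTop (𝓝 0) := by
      have := (tendsto_inv_atTop_zero.comp
        (tendsto_pow_atTop_atTop_of_one_lt (by linarith : (1 : ℝ) < q))).const_mul A
      rw [mul_zero] at this
      refine this.congr fun t => ?_
      simp only [Function.comp_apply]
      rw [div_eq_mul_inv]
    have h2 : ∀ᶠ t : ℕ in atTop, A / (q : ℝ) ^ t < ε / 8 :=
      h1.eventually (gt_mem_nhds (by positivity))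
    obtain ⟨t, ht⟩ := h2.exists
    exact ⟨t, ht.le⟩
  set ε' : ℝ := ε / (8 * q) with hε'
  have hε'0 : 0 < ε' := by positivity
  obtain ⟨k₀, hk₀⟩ := eventually_atTop.mp (h t ε' hε'0)
  set S : ℕ → ℝ := fun x => ∑ n ∈ Finset.range x, u n / n with hS
  set B : ℝ := (q - 1) * (η + ε') + A / q ^ t with hB
  have hB0 : 0 ≤ B := by
    have : (0 : ℝ) ≤ (q - 1) * (η + ε') := mul_nonneg (by linarith) (by linarith)
    positivity
  have hB1 : 2 * B ≤ 2 * q * η + ε / 2 := by
    have h1 : (q - 1) * (η + ε') ≤ q * (η + ε') :=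
      mul_le_mul_of_nonneg_right (by linarith) (by linarith)
    have h2 : q * ε' = ε / 8 := by
      rw [hε']
      field_simp
    rw [hB]
    nlinarith
  have hstep : ∀ j, k₀ + t ≤ j → |S (M * q ^ (j + 1)) - S (M * q ^ j)| ≤ B := by
    intro j hj
    obtain ⟨k, rfl⟩ : ∃ k, j = k + t := ⟨j - t, by omega⟩
    exact q13_shell hM hq hu (by linarith) (hk₀ k (by omega))
  have hind : ∀ j, |S (M * q ^ (k₀ + t + j))| ≤ |S (M * q ^ (k₀ + t))| + j * B := by
    intro j
    induction j with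
    | zero => simp
    | succ j ih =>
      have h1 := hstep (k₀ + t + j) (by omega)
      have h2 := abs_sub_abs_le_abs_sub (S (M * q ^ (k₀ + t + j + 1))) (S (M * q ^ (k₀ + t + j)))
      rw [← add_assoc]
      push_cast
      linarith
  set D : ℝ := |S (M * q ^ (k₀ + t))| with hD
  have hD0 : 0 ≤ D := abs_nonneg _
  -- the total
  have hmain : ∀ N : ℕ, M * q ^ (k₀ + t) ≤ N → 3 ≤ N →
      |S (N + 1)| ≤ D + A * (q - 1) + 2 * B + 2 * B * Real.log N := by
    intro N hN hN3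
    have hdivpos : (N + 1) / M ≠ 0 := by
      have : M ≤ N + 1 := by
        have : M * 1 ≤ M * q ^ (k₀ + t) := Nat.mul_le_mul_left M (qpow_pos hq _)
        omega
      exact (Nat.div_pos this hM).ne'
    set j := Nat.log q ((N + 1) / M) with hj
    have hj1 : q ^ j ≤ (N + 1) / M := Nat.pow_log_le_self q hdivpos
    have hj2 : (N + 1) / M < q ^ (j + 1) := Nat.lt_pow_succ_log_self (by omega) _
    have hj3 : M * q ^ j ≤ N + 1 := by
      calc M * q ^ j ≤ M * ((N + 1) / M) := Nat.mul_le_mul_left M hj1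
        _ ≤ N + 1 := Nat.mul_div_le _ _
    have hj4 : N + 1 < M * q ^ (j + 1) := by
      rw [mul_comm]
      exact (Nat.div_lt_iff_lt_mul hM).mp hj2
    have hj5 : k₀ + t ≤ j := by
      by_contra hcon
      push Not at hcon
      have h1 : q ^ (j + 1) ≤ q ^ (k₀ + t) := Nat.pow_le_pow_right (by omega) hcon
      have h2 := Nat.mul_le_mul_left M h1
      omega
    obtain ⟨l, hl⟩ : ∃ l, j = k₀ + t + l := ⟨j - (k₀ + t), by omega⟩
    have hjR : (l : ℝ) ≤ 2 * Real.log N + 2 := by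
      have h1 : (j : ℝ) * Real.log q ≤ Real.log (N + 1) := by
        rw [← Real.log_pow]
        refine Real.log_le_log (by positivity) ?_
        have : q ^ j ≤ N + 1 := le_trans (Nat.le_mul_of_pos_left _ hM) hj3
        exact_mod_cast this
      have h2 : (1 : ℝ) / 2 ≤ Real.log q := by
        have h3 : Real.log 2 ≤ Real.log q := Real.log_le_log (by norm_num) hqR
        have := Real.log_two_gt_d9
        linarith
      have h4 : Real.log (N + 1) ≤ Real.log N + 1 := by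
        have hNR : (3 : ℝ) ≤ N := by exact_mod_cast hN3
        have h5 : Real.log (N + 1) ≤ Real.log (2 * N) :=
          Real.log_le_log (by linarith) (by linarith)
        rw [Real.log_mul (by norm_num) (by linarith)] at h5
        have := Real.log_two_lt_d9
        linarith
      have h6 : (j : ℝ) * (1 / 2) ≤ j * Real.log q :=
        mul_le_mul_of_nonneg_left h2 (Nat.cast_nonneg j)
      have h7 : (l : ℝ) ≤ j := by
        have : l ≤ j := by omega
        exact_mod_cast this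
      linarith
    have hX : 0 < M * q ^ j := Nat.mul_pos hM (qpow_pos hq j)
    have h1 := q13_tail hu hX hj3
    have hXR : (0 : ℝ) < ((M * q ^ j : ℕ) : ℝ) := by exact_mod_cast hX
    have h2 : (((N + 1 : ℕ) : ℝ) - ((M * q ^ j : ℕ) : ℝ)) / ((M * q ^ j : ℕ) : ℝ) ≤ q - 1 := by
      rw [div_le_iff₀ hXR]
      have h3 : ((N + 1 : ℕ) : ℝ) ≤ ((M * q ^ (j + 1) : ℕ) : ℝ) := by exact_mod_cast hj4.le
      have h4 : ((M * q ^ (j + 1) : ℕ) : ℝ) = q * ((M * q ^ j : ℕ) : ℝ) := by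
        push_cast
        ring
      linarith
    have h3 : A * ((((N + 1 : ℕ) : ℝ) - ((M * q ^ j : ℕ) : ℝ)) / ((M * q ^ j : ℕ) : ℝ)) ≤
        A * (q - 1) := mul_le_mul_of_nonneg_left h2 hA
    have h4 := hind l
    rw [← hl] at h4
    have h5 := abs_sub_abs_le_abs_sub (S (N + 1)) (S (M * q ^ j))
    have h6 : |S (N + 1) - S (M * q ^ j)| ≤ A * (q - 1) := h1.trans h3
    have h7 : (l : ℝ) * B ≤ (2 * Real.log N + 2) * B := mul_le_mul_of_nonneg_right hjR hB0
    linarith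
  -- conclusion
  have hlog : Tendsto (fun N : ℕ => (D + A * (q - 1) + 2 * B) / Real.log N) atTop (𝓝 0) :=
    Tendsto.div_atTop tendsto_const_nhds (Real.tendsto_log_atTop.comp tendsto_natCast_atTop_atTop)
  have hlog' : ∀ᶠ N : ℕ in atTop, (D + A * (q - 1) + 2 * B) / Real.log N < ε / 2 :=
    hlog.eventually (gt_mem_nhds (by positivity))
  filter_upwards [hlog', eventually_ge_atTop 3, eventually_ge_atTop (M * q ^ (k₀ + t))] with
    N h1 h2 h3
  have h4 := hmain N h3 h2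
  have hlogN := log_ge_one h2
  have e1 : LogAvg u N = (1 / Real.log N) * S (N + 1) := by
    unfold LogAvg
    congr 1
    rw [hS]
    simp only
    rw [Finset.range_eq_Ico, Finset.sum_eq_sum_Ico_succ_bot (Nat.succ_pos N)]
    simp
    rfl
  rw [e1, abs_mul, abs_of_pos (by positivity)]
  calc 1 / Real.log N * |S (N + 1)|
      ≤ 1 / Real.log N * (D + A * (q - 1) + 2 * B + 2 * B * Real.log N) :=
        mul_le_mul_of_nonneg_left h4 (by positivity)
    _ = (D + A * (q - 1) + 2 * B) / Real.log N + 2 * B := by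
        field_simp
    _ ≤ 2 * q * η + ε := by linarith

end Pool.Agent.Lib.MP_3e612f_nt.QA
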