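import Pool.Agent.Lib.MP_3e612f_nt.QBase
import Pool.Agent.Lib.MP_3e612f_nt.Katai

/-!
Katai's orthogonality criterion for logarithmic averages, under a hypothesis on pairs of
large primes which are not too close to each other.
-/

set_option autoImplicit false

namespace Pool.Agent.Lib.MP_3e612f_nt.QA

open Filter Topology
open Pool.Agent.Lib.MP_3e612f_nt.DS

theorem q12_exists_primes (p₀ : ℕ) (T : ℝ) :
    ∃ P : Finset ℕ, (∀ p ∈ P, p.Prime ∧ 3 ≤ p ∧ p₀ ≤ p) ∧ T ≤ ∑ p ∈ P, 1 / (p : ℝ) := by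
  obtain ⟨P, hP, hT⟩ := G_exists_primes (T + ∑ p ∈ Finset.range p₀, 1 / (p : ℝ))
  refine ⟨P.filter (fun p => p₀ ≤ p), fun p hp => ?_, ?_⟩
  · rw [Finset.mem_filter] at hp
    exact ⟨(hP p hp.1).1, (hP p hp.1).2, hp.2⟩
  · have h1 := Finset.sum_filter_add_sum_filter_not P (fun p => p₀ ≤ p) (fun p => 1 / (p : ℝ))
    have h2 : ∑ p ∈ P.filter (fun p => ¬ p₀ ≤ p), 1 / (p : ℝ) ≤
        ∑ p ∈ Finset.range p₀, 1 / (p : ℝ) := by
      refine Finset.sum_le_sum_of_subset_of_nonneg ?_ fun _ _ _ => by positivity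
      intro p hp
      rw [Finset.mem_filter] at hp
      rw [Finset.mem_range]
      omega
    linarith

/-- the pairs of nearby elements of `P` -/
theorem q12_near (P : Finset ℕ) (hP : ∀ p ∈ P, 1 ≤ p) (K : ℕ) :
    ∑ p ∈ P, ∑ r ∈ P, (if p < r ∧ r < K * p then 1 / (p : ℝ) * (1 / (r : ℝ)) else 0) ≤
      K * ∑ p ∈ P, 1 / (p : ℝ) := by
  rw [Finset.mul_sum]
  refine Finset.sum_le_sum fun p hp => ?_
  have hp0 : (0 : ℝ) < p := by exact_mod_cast hP p hp
  rw [← Finset.sum_filter]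
  have hcard : (P.filter (fun r => p < r ∧ r < K * p)).card ≤ K * p := by
    calc (P.filter (fun r => p < r ∧ r < K * p)).card ≤ (Finset.range (K * p)).card := by
          refine Finset.card_le_card fun r hr => ?_
          rw [Finset.mem_filter] at hr
          exact Finset.mem_range.mpr hr.2.2
      _ = K * p := Finset.card_range _
  have hcard' : ((P.filter (fun r => p < r ∧ r < K * p)).card : ℝ) ≤ K * p := by
    exact_mod_cast hcard
  calc ∑ r ∈ P.filter (fun r => p < r ∧ r < K * p), 1 / (p : ℝ) * (1 / (r : ℝ))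
      ≤ ∑ r ∈ P.filter (fun r => p < r ∧ r < K * p), 1 / (p : ℝ) * (1 / (p : ℝ)) := by
        refine Finset.sum_le_sum fun r hr => ?_
        rw [Finset.mem_filter] at hr
        refine mul_le_mul_of_nonneg_left ?_ (by positivity)
        refine one_div_le_one_div_of_le hp0 ?_
        exact_mod_cast hr.2.1.le
    _ = (P.filter (fun r => p < r ∧ r < K * p)).card * (1 / (p : ℝ) * (1 / (p : ℝ))) := by
        rw [Finset.sum_const, nsmul_eq_mul]
    _ ≤ (K * p) * (1 / (p : ℝ) * (1 / (p : ℝ))) :=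
        mul_le_mul_of_nonneg_right hcard' (by positivity)
    _ = K * (1 / (p : ℝ)) := by field_simp

/-- the second moment of the average of the dilates of `b` -/
theorem q12_second {b : ℕ → ℝ} (hb : ∀ n, |b n| ≤ 2) {K p₀ : ℕ} {ε : ℝ} (hε : 0 ≤ ε)
    (h : ∀ p r : ℕ, p.Prime → r.Prime → p₀ ≤ p → K * p ≤ r → p < r →
      ∀ᶠ N : ℕ in atTop, |LogAvg (fun n => b (p * n) * b (r * n)) N| ≤ ε)
    {P : Finset ℕ} (hP : ∀ p ∈ P, p.Prime ∧ 3 ≤ p ∧ p₀ ≤ p) :
    ∀ᶠ N : ℕ in atTop, LogAvg (fun n => (∑ p ∈ P, 1 / (p : ℝ) * b (p * n)) ^ 2) N ≤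
      8 * (∑' n : ℕ, 1 / (n : ℝ) ^ 2) + 16 * K * (∑ p ∈ P, 1 / (p : ℝ)) +
        ε * (∑ p ∈ P, 1 / (p : ℝ)) ^ 2 := by
  set W : ℝ := ∑ p ∈ P, 1 / (p : ℝ) with hWdef
  have h1 : ∀ᶠ N : ℕ in atTop, ∀ p ∈ P, ∀ r ∈ P, p < r → K * p ≤ r →
      |LogAvg (fun n => b (p * n) * b (r * n)) N| ≤ ε := by
    rw [Filter.eventually_all_finset]
    intro p hp
    rw [Filter.eventually_all_finset]
    intro r hr
    by_cases hpr : p < r ∧ K * p ≤ r
    · filter_upwards [h p r (hP p hp).1 (hP r hr).1 (hP p hp).2.2 hpr.2 hpr.1] with N hN _ _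
        using hN
    · exact Eventually.of_forall fun N h1 h2 => absurd ⟨h1, h2⟩ hpr
  have E1 : ∀ᶠ N in atTop, LogAvg (fun _ => (1 : ℝ)) N ≤ 2 :=
    G_one.eventually_le_const (by norm_num)
  filter_upwards [h1, E1] with N hN e1
  set c : ℕ → ℕ → ℝ := fun p r => LogAvg (fun n => b (p * n) * b (r * n)) N with hc
  have hcs : ∀ p r, c p r = c r p := by
    intro p r
    rw [hc]
    dsimp only
    exact LogAvg_congr fun n _ _ => mul_comm _ _
  have hcd : ∀ p r, c p r ≤ 8 := by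
    intro p r
    rw [hc]
    dsimp only
    calc LogAvg (fun n => b (p * n) * b (r * n)) N ≤ LogAvg (fun n => 4 * (1 : ℝ)) N := by
          refine LogAvg_mono fun n _ => ?_
          have h2 : |b (p * n) * b (r * n)| ≤ 2 * 2 := by
            rw [abs_mul]
            exact mul_le_mul (hb _) (hb _) (abs_nonneg _) zero_le_two
          linarith [le_abs_self (b (p * n) * b (r * n))]
      _ = 4 * LogAvg (fun _ => (1 : ℝ)) N := LogAvg_const_mul 4 (fun _ => 1) N
      _ ≤ 8 := by linarith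
  have e : LogAvg (fun n => (∑ p ∈ P, 1 / (p : ℝ) * b (p * n)) ^ 2) N =
      ∑ p ∈ P, ∑ r ∈ P, (1 / (p : ℝ)) * (1 / (r : ℝ)) * c p r := by
    have e1 : (fun n => (∑ p ∈ P, 1 / (p : ℝ) * b (p * n)) ^ 2) = fun n =>
        ∑ p ∈ P, ∑ r ∈ P, (1 / (p : ℝ)) * (1 / (r : ℝ)) * (b (p * n) * b (r * n)) := by
      funext n
      rw [sq, Finset.sum_mul_sum]
      refine Finset.sum_congr rfl fun p _ => Finset.sum_congr rfl fun r _ => ?_
      ring
    rw [e1, G_LogAvg_sum]
    refine Finset.sum_congr rfl fun p _ => ?_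
    rw [G_LogAvg_sum]
    refine Finset.sum_congr rfl fun r _ => ?_
    rw [LogAvg_const_mul]
  rw [e]
  have h2 : ∀ p ∈ P, ∀ r ∈ P, (1 / (p : ℝ)) * (1 / (r : ℝ)) * c p r ≤
      8 * (if p = r then 1 / (p : ℝ) ^ 2 else 0) +
        8 * (if p < r ∧ r < K * p then 1 / (p : ℝ) * (1 / (r : ℝ)) else 0) +
        8 * (if r < p ∧ p < K * r then 1 / (r : ℝ) * (1 / (p : ℝ)) else 0) +
        ε * ((1 / (p : ℝ)) * (1 / (r : ℝ))) := by
    intro p hp r hr
    have key : ∀ p r : ℕ, p ∈ P → r ∈ P → p < r → (1 / (p : ℝ)) * (1 / (r : ℝ)) * c p r ≤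
        8 * (if p < r ∧ r < K * p then 1 / (p : ℝ) * (1 / (r : ℝ)) else 0) +
          ε * ((1 / (p : ℝ)) * (1 / (r : ℝ))) := by
      intro p r hp hr hpr
      have hpr0 : 0 ≤ (1 / (p : ℝ)) * (1 / (r : ℝ)) := by positivity
      by_cases hK : r < K * p
      · rw [if_pos ⟨hpr, hK⟩]
        have h3 := mul_le_mul_of_nonneg_left (hcd p r) hpr0
        have h4 : 0 ≤ ε * ((1 / (p : ℝ)) * (1 / (r : ℝ))) := mul_nonneg hε hpr0
        linarith
      · rw [if_neg fun h => hK h.2]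
        have h3 : c p r ≤ ε := (le_abs_self _).trans (hN p hp r hr hpr (not_lt.mp hK))
        have h4 := mul_le_mul_of_nonneg_left h3 hpr0
        linarith
    have hpr0 : 0 ≤ (1 / (p : ℝ)) * (1 / (r : ℝ)) := by positivity
    rcases lt_trichotomy p r with hpr | hpr | hpr
    · have h3 := key p r hp hr hpr
      rw [if_neg hpr.ne, if_neg (fun h => absurd h.1 hpr.not_gt :
        ¬ (r < p ∧ p < K * r))]
      linarith
    · subst hpr
      simp only [lt_irrefl, if_true, false_and, if_false]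
      have h3 := mul_le_mul_of_nonneg_left (hcd p p) hpr0
      have h4 : (1 / (p : ℝ)) * (1 / (p : ℝ)) * 8 = 8 * (1 / (p : ℝ) ^ 2) := by
        rw [one_div_mul_one_div, ← sq, mul_comm]
      have h5 : 0 ≤ ε * ((1 / (p : ℝ)) * (1 / (p : ℝ))) := mul_nonneg hε hpr0
      linarith
    · have h3 := key r p hr hp hpr
      rw [hcs r p] at h3
      have h4 : (1 / (p : ℝ)) * (1 / (r : ℝ)) = (1 / (r : ℝ)) * (1 / (p : ℝ)) := mul_comm _ _
      rw [if_neg hpr.ne', if_neg (fun h => absurd h.1 hpr.not_gt :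
        ¬ (p < r ∧ r < K * p)), h4]
      linarith
  have h3 := Finset.sum_le_sum fun p hp => Finset.sum_le_sum fun r hr => h2 p hp r hr
  refine h3.trans ?_
  simp only [Finset.sum_add_distrib, ← Finset.mul_sum]
  have h4 : ∑ p ∈ P, ∑ r ∈ P, (if p = r then 1 / (p : ℝ) ^ 2 else 0) ≤
      ∑' n : ℕ, 1 / (n : ℝ) ^ 2 := by
    refine le_trans (le_of_eq ?_) (G_sq P)
    refine Finset.sum_congr rfl fun p hp => ?_
    rw [Finset.sum_ite_eq]
    simp [hp]
  have h5 := q12_near P (fun p hp => (hP p hp).1.one_le) K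
  have h6 : ∑ p ∈ P, ∑ r ∈ P, (if r < p ∧ p < K * r then 1 / (r : ℝ) * (1 / (p : ℝ)) else 0) ≤
      K * ∑ p ∈ P, 1 / (p : ℝ) := by
    rw [Finset.sum_comm]
    exact h5
  have h7 : ε * ∑ p ∈ P, 1 / (p : ℝ) * ∑ r ∈ P, 1 / (r : ℝ) = ε * W ^ 2 := by
    rw [← Finset.sum_mul, ← hWdef, sq]
  rw [← hWdef] at h5 h6
  linarith

/-- the main inequality for a finite set of primes -/
theorem q12_main {b : ℕ → ℝ} (hb : ∀ n, |b n| ≤ 2) {P : Finset ℕ}
    (hP : ∀ p ∈ P, p.Prime ∧ 3 ≤ p) (hW : 1 ≤ ∑ p ∈ P, 1 / (p : ℝ)) {M t : ℝ} (ht : 0 < t)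
    (hM : ∀ᶠ N : ℕ in atTop, LogAvg (fun n => (∑ p ∈ P, 1 / (p : ℝ) * b (p * n)) ^ 2) N ≤ M) :
    ∀ᶠ N : ℕ in atTop, (∑ p ∈ P, 1 / (p : ℝ)) * |LogAvg (fun n => mu n * b n) N| ≤
      4 * Real.sqrt (∑ p ∈ P, 1 / (p : ℝ)) + 1 + t + M / (2 * t) +
        2 * ((∑' n : ℕ, 1 / (n : ℝ) ^ 2) + 1) := by
  set W : ℝ := ∑ p ∈ P, 1 / (p : ℝ) with hWdef
  set Z : ℝ := ∑' n : ℕ, 1 / (n : ℝ) ^ 2 with hZdef
  have hZ0 : 0 ≤ Z := tsum_nonneg fun n => by positivity
  set s : ℝ := Real.sqrt W with hs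
  have hs2 : s * s = W := Real.mul_self_sqrt (by linarith)
  have hs1 : 1 ≤ s := by
    rw [hs]
    exact Real.one_le_sqrt.mpr hW
  have hs0 : 0 < s := by linarith
  set u : ℕ → ℝ := fun n => mu n * b n with hu
  have hub : ∀ n, |u n| ≤ 2 := by
    intro n
    rw [hu]
    dsimp only
    rw [abs_mul]
    calc |mu n| * |b n| ≤ 1 * 2 := mul_le_mul (abs_mu_le n) (hb n) (abs_nonneg _) zero_le_one
      _ = 2 := by norm_num
  set B : ℕ → ℝ := fun n => ∑ p ∈ P, 1 / (p : ℝ) * b (p * n) with hB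
  -- the four eventual bounds
  have E1 : ∀ᶠ N in atTop, LogAvg (fun _ => (1 : ℝ)) N ≤ 2 :=
    G_one.eventually_le_const (by norm_num)
  have E2 : ∀ᶠ N in atTop, LogAvg (fun n => (∑ p ∈ P, Gf p n) ^ 2) N ≤ W + 1 := by
    refine (G_TK fun p hp => (hP p hp).1).eventually_le_const ?_
    have : ∑ p ∈ P, (1 / (p:ℝ) - 1 / (p:ℝ) ^ 2) ≤ W := by
      refine Finset.sum_le_sum fun p _ => ?_
      have : (0 : ℝ) ≤ 1 / (p:ℝ) ^ 2 := by positivity
      linarith
    linarith
  have E4 : ∀ᶠ N in atTop,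
      ∑ p ∈ P, 1 / (p : ℝ) * LogAvg (fun n => if p ∣ n then (1 : ℝ) else 0) N ≤ Z + 1 := by
    have h1 : Tendsto (fun N => ∑ p ∈ P, 1 / (p : ℝ) *
        LogAvg (fun n => if p ∣ n then (1 : ℝ) else 0) N) atTop
        (𝓝 (∑ p ∈ P, 1 / (p : ℝ) * (1 / (p : ℝ)))) :=
      tendsto_finsetSum _ fun p hp => (G_dvd (hP p hp).1.one_le).const_mul _
    refine h1.eventually_le_const ?_
    have h2 := G_sq P
    have h3 : ∑ p ∈ P, 1 / (p : ℝ) * (1 / (p : ℝ)) = ∑ p ∈ P, 1 / (p : ℝ) ^ 2 :=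
      Finset.sum_congr rfl fun p _ => by rw [one_div_mul_one_div, ← sq]
    rw [h3]
    linarith
  have E5 : ∀ᶠ N : ℕ in atTop, (P.card : ℝ) * 2 / Real.log N ≤ 1 :=
    (G_small _).eventually_le_const (by norm_num)
  filter_upwards [E1, E2, hM, E4, E5, eventually_ge_atTop 3] with N e1 e2 e3 e4 e5 hN
  have hlog := log_ge_one hN
  -- decomposition
  have d1 : W * LogAvg u N = ∑ p ∈ P, LogAvg (fun n => if p ∣ n then u n else 0) N -
      LogAvg (fun n => (∑ p ∈ P, Gf p n) * u n) N := by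
    rw [← LogAvg_const_mul, ← G_LogAvg_sum, ← LogAvg_sub]
    refine LogAvg_congr fun n _ _ => ?_
    rw [hWdef, Finset.sum_mul, Finset.sum_mul, ← Finset.sum_sub_distrib]
    refine Finset.sum_congr rfl fun p _ => ?_
    unfold Gf
    split_ifs <;> ring
  have d2 : |∑ p ∈ P, LogAvg (fun n => if p ∣ n then u n else 0) N -
      ∑ p ∈ P, 1 / (p : ℝ) * LogAvg (fun n => u (p * n)) N| ≤ 1 := by
    rw [← Finset.sum_sub_distrib]
    refine (Finset.abs_sum_le_sum_abs _ _).trans ?_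
    calc _ ≤ ∑ p ∈ P, 2 / Real.log N := by
          refine Finset.sum_le_sum fun p hp => ?_
          have hp0 : (0 : ℝ) < p := by exact_mod_cast (hP p hp).1.pos
          have h1 := LogAvg_dilation hub (hP p hp).1.one_le hN
          have h2 : LogAvg (fun k => if p ∣ k then (p : ℝ) * u k else 0) N =
              p * LogAvg (fun n => if p ∣ n then u n else 0) N := by
            rw [← LogAvg_const_mul]
            refine LogAvg_congr fun n _ _ => ?_
            split_ifs <;> simp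
          rw [h2] at h1
          have h3 : LogAvg (fun n => if p ∣ n then u n else 0) N -
              1 / (p : ℝ) * LogAvg (fun n => u (p * n)) N =
              - (1 / (p : ℝ) * (LogAvg (fun n => u (p * n)) N -
                p * LogAvg (fun n => if p ∣ n then u n else 0) N)) := by
            field_simp
            ring
          rw [h3, abs_neg, abs_mul, abs_of_pos (by positivity : 0 < 1 / (p : ℝ))]
          calc _ ≤ 1 / (p : ℝ) * (2 * p / Real.log N) :=
                mul_le_mul_of_nonneg_left h1 (by positivity)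
            _ = 2 / Real.log N := by field_simp
      _ = P.card * 2 / Real.log N := by
          rw [Finset.sum_const, nsmul_eq_mul, mul_div_assoc]
      _ ≤ 1 := e5
  have d3 : |LogAvg (fun n => (∑ p ∈ P, Gf p n) * u n) N| ≤ 4 * s := by
    refine (G_abs _ N).trans ?_
    have h1 : LogAvg (fun n => |(∑ p ∈ P, Gf p n) * u n|) N ≤
        LogAvg (fun n => s * 1 + 1 / s * (∑ p ∈ P, Gf p n) ^ 2) N := by
      refine LogAvg_mono fun n _ => ?_
      rw [abs_mul]
      have h2 : |∑ p ∈ P, Gf p n| * |u n| ≤ |∑ p ∈ P, Gf p n| * 2 :=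
        mul_le_mul_of_nonneg_left (hub n) (abs_nonneg _)
      refine h2.trans ?_
      rw [mul_one, one_div, inv_mul_eq_div, ← sq_abs (∑ p ∈ P, Gf p n)]
      have h3 : |∑ p ∈ P, Gf p n| * 2 * s ≤ (s + |∑ p ∈ P, Gf p n| ^ 2 / s) * s := by
        rw [add_mul, div_mul_cancel₀ _ hs0.ne']
        nlinarith [sq_nonneg (|∑ p ∈ P, Gf p n| - s)]
      exact le_of_mul_le_mul_right h3 hs0
    refine h1.trans ?_
    rw [LogAvg_add (fun _ => s * 1) (fun n => 1 / s * (∑ p ∈ P, Gf p n) ^ 2),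
      LogAvg_const_mul s (fun _ => 1), LogAvg_const_mul (1 / s)]
    have h4 : 1 / s * LogAvg (fun n => (∑ p ∈ P, Gf p n) ^ 2) N ≤ 1 / s * (W + 1) :=
      mul_le_mul_of_nonneg_left e2 (by positivity)
    have h5 : 1 / s * (W + 1) ≤ 2 * s := by
      rw [one_div, inv_mul_eq_div, div_le_iff₀ hs0]
      nlinarith
    nlinarith
  have d4 : |∑ p ∈ P, 1 / (p : ℝ) * LogAvg (fun n => u (p * n)) N| ≤
      t + M / (2 * t) + 2 * (Z + 1) := by
    have h1 : ∑ p ∈ P, 1 / (p : ℝ) * LogAvg (fun n => u (p * n)) N =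
        LogAvg (fun n => ∑ p ∈ P, 1 / (p : ℝ) * u (p * n)) N := by
      rw [G_LogAvg_sum]
      exact Finset.sum_congr rfl fun p _ => (LogAvg_const_mul _ _ _).symm
    rw [h1]
    refine (G_abs _ N).trans ?_
    have h2 : LogAvg (fun n => |∑ p ∈ P, 1 / (p : ℝ) * u (p * n)|) N ≤
        LogAvg (fun n => (t / 2 * 1 + 1 / (2 * t) * B n ^ 2) +
          2 * ∑ p ∈ P, 1 / (p : ℝ) * (if p ∣ n then (1 : ℝ) else 0)) N := by
      refine LogAvg_mono fun n _ => ?_
      have h3 : ∑ p ∈ P, 1 / (p : ℝ) * u (p * n) = - (mu n * B n) +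
          ∑ p ∈ P, 1 / (p : ℝ) * (if p ∣ n then mu n * b (p * n) else 0) := by
        rw [hB]
        dsimp only
        rw [Finset.mul_sum, ← Finset.sum_neg_distrib, ← Finset.sum_add_distrib]
        refine Finset.sum_congr rfl fun p hp => ?_
        have hpp := (hP p hp).1
        rw [hu]
        dsimp only
        rw [mu_mul]
        have hmu : mu p = -1 := by
          unfold mu
          rw [ArithmeticFunction.moebius_apply_prime hpp]
          norm_num
        by_cases hd : p ∣ n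
        · have : ¬ Nat.Coprime p n := by
            rw [hpp.coprime_iff_not_dvd]
            exact not_not.mpr hd
          rw [if_neg this, if_pos hd]
          ring
        · have : Nat.Coprime p n := hpp.coprime_iff_not_dvd.mpr hd
          rw [if_pos this, if_neg hd, hmu]
          ring
      rw [h3]
      refine (abs_add_le _ _).trans (add_le_add ?_ ?_)
      · rw [abs_neg, abs_mul]
        have h4 : |mu n| * |B n| ≤ 1 * |B n| :=
          mul_le_mul_of_nonneg_right (abs_mu_le n) (abs_nonneg _)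
        refine h4.trans ?_
        rw [one_mul, mul_one, one_div, inv_mul_eq_div, ← sq_abs (B n)]
        have h5 : |B n| * (2 * t) ≤ (t / 2 + |B n| ^ 2 / (2 * t)) * (2 * t) := by
          rw [add_mul, div_mul_cancel₀ _ (by positivity)]
          nlinarith [sq_nonneg (|B n| - t)]
        exact le_of_mul_le_mul_right h5 (by positivity)
      · refine (Finset.abs_sum_le_sum_abs _ _).trans ?_
        rw [Finset.mul_sum]
        refine Finset.sum_le_sum fun p hp => ?_
        rw [abs_mul, abs_of_nonneg (by positivity : 0 ≤ 1 / (p : ℝ)), mul_left_comm]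
        refine mul_le_mul_of_nonneg_left ?_ (by positivity)
        split_ifs
        · rw [abs_mul]
          calc |mu n| * |b (p * n)| ≤ 1 * 2 :=
                mul_le_mul (abs_mu_le n) (hb _) (abs_nonneg _) zero_le_one
            _ = 2 * 1 := by norm_num
        · simp
    refine h2.trans ?_
    rw [LogAvg_add (fun n => t / 2 * 1 + 1 / (2 * t) * B n ^ 2)
        (fun n => 2 * ∑ p ∈ P, 1 / (p : ℝ) * (if p ∣ n then (1 : ℝ) else 0)),
      LogAvg_add (fun _ => t / 2 * 1) (fun n => 1 / (2 * t) * B n ^ 2),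
      LogAvg_const_mul (t / 2) (fun _ => 1), LogAvg_const_mul (1 / (2 * t)),
      LogAvg_const_mul 2, G_LogAvg_sum]
    have h6 : ∑ p ∈ P, LogAvg (fun n => 1 / (p : ℝ) * (if p ∣ n then (1 : ℝ) else 0)) N ≤ Z + 1 := by
      refine le_trans (le_of_eq ?_) e4
      exact Finset.sum_congr rfl fun p _ => LogAvg_const_mul _ _ _
    have h7 : 1 / (2 * t) * LogAvg (fun n => B n ^ 2) N ≤ 1 / (2 * t) * M :=
      mul_le_mul_of_nonneg_left e3 (by positivity)
    have h8 : t / 2 * LogAvg (fun _ => 1) N ≤ t / 2 * 2 :=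
      mul_le_mul_of_nonneg_left e1 (by positivity)
    have h9 : 1 / (2 * t) * M = M / (2 * t) := by
      rw [one_div, inv_mul_eq_div]
    linarith
  -- combine
  have h1 : W * |LogAvg u N| = |W * LogAvg u N| := by
    rw [abs_mul, abs_of_nonneg (by linarith : 0 ≤ W)]
  rw [h1, d1]
  have h2 := abs_le.mp d2
  have h3 := abs_le.mp d3
  have h4 := abs_le.mp d4
  rw [abs_le]
  constructor <;> linarith [h2.1, h2.2, h3.1, h3.2, h4.1, h4.2]

theorem katai_log' {b : ℕ → ℝ} (hb : ∀ n, |b n| ≤ 2) {K : ℕ}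
    (h : ∀ ε : ℝ, 0 < ε → ∃ p₀ : ℕ, ∀ p r : ℕ, p.Prime → r.Prime → p₀ ≤ p → K * p ≤ r → p < r →
      ∀ᶠ N : ℕ in atTop, |LogAvg (fun n => b (p * n) * b (r * n)) N| ≤ ε) :
    Tendsto (LogAvg fun n => mu n * b n) atTop (𝓝 0) := by
  set Z : ℝ := ∑' n : ℕ, 1 / (n : ℝ) ^ 2 with hZdef
  have hZ0 : 0 ≤ Z := tsum_nonneg fun n => by positivity
  set A : ℝ := 8 + 6 * Z + 8 * K with hA
  have hK0 : (0 : ℝ) ≤ K := Nat.cast_nonneg K
  have hA0 : 0 < A := by positivity
  rw [Metric.tendsto_nhds]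
  intro η hη
  set δ : ℝ := η / 3 with hδ
  have hδ0 : 0 < δ := by positivity
  obtain ⟨p₀, hp₀⟩ := h (δ ^ 2) (by positivity)
  obtain ⟨P, hP, hT⟩ := q12_exists_primes p₀ (max 1 ((2 * A / η + 1) ^ 2))
  have hW : 1 ≤ ∑ p ∈ P, 1 / (p : ℝ) := (le_max_left _ _).trans hT
  have hM := q12_second hb (by positivity : (0 : ℝ) ≤ δ ^ 2) hp₀ hP
  set W : ℝ := ∑ p ∈ P, 1 / (p : ℝ) with hWdef
  set s : ℝ := Real.sqrt W with hs
  have hs2 : s * s = W := Real.mul_self_sqrt (by linarith)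
  have hsA : 2 * A / η + 1 ≤ s := Real.le_sqrt_of_sq_le ((le_max_right _ _).trans hT)
  have hs1 : 1 ≤ s := by
    have : 0 < 2 * A / η := by positivity
    linarith
  have hs0 : 0 < s := by linarith
  have ht0 : 0 < s + δ * W := by positivity
  filter_upwards [q12_main hb (fun p hp => ⟨(hP p hp).1, (hP p hp).2.1⟩) hW ht0 hM] with N hN
  rw [← hWdef, ← hs, ← hZdef] at hN
  rw [Real.dist_eq, sub_zero]
  have h1 : (8 * Z + 16 * K * W + δ ^ 2 * W ^ 2) / (2 * (s + δ * W)) ≤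
      4 * Z * s + 8 * K * s + δ * W / 2 := by
    rw [div_le_iff₀ (by positivity)]
    have h2 : 0 ≤ Z * (s * s - 1) := mul_nonneg hZ0 (by nlinarith)
    have h3 : 0 ≤ Z * s * (δ * W) := by positivity
    have h4 : 0 ≤ (K : ℝ) * s * (δ * W) := by positivity
    have h5 : (K : ℝ) * W = K * (s * s) := by rw [hs2]
    have h6 : 0 ≤ δ * W * s := by positivity
    nlinarith
  have h2 : W * |LogAvg (fun n => mu n * b n) N| ≤ A * s + 3 / 2 * (δ * W) := by
    refine hN.trans ?_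
    have h3 : 0 ≤ Z * (s - 1) := mul_nonneg hZ0 (by linarith)
    rw [hA]
    nlinarith
  have h3 : A < s * (η / 2) := by
    have h4 : 2 * A / η < s := by linarith
    rw [div_lt_iff₀ hη] at h4
    linarith
  have h4 : A * s < W * (η / 2) := by
    rw [← hs2]
    nlinarith
  have h5 : W * |LogAvg (fun n => mu n * b n) N| < W * η := by
    have : 3 / 2 * (δ * W) = W * (η / 2) := by
      rw [hδ]
      ring
    linarith
  exact lt_of_mul_lt_mul_left h5 (by linarith)

end Pool.Agent.Lib.MP_3e612f_nt.QA
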