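import Pool.Agent.Lib.MP_3e612f_nt.QPair
import Pool.Agent.Lib.MP_3e612f_nt.QBlock
import Pool.Agent.Lib.MP_3e612f_nt.QKatai
import Pool.Agent.Lib.MP_3e612f_nt.QSlow

/-!
Centred functions of a quasi-additive function in a residue class.
-/

set_option autoImplicit false

namespace Pool.Agent.Lib.MP_3e612f_nt.QA

open Filter Topology

variable {d : ℕ}

/-- splitting off the highest digit -/
theorem av_top (q k : ℕ) (u : ℕ → ℝ) :
    av q (k + 1) u = av q 1 (fun y => av q k (fun n => u (q ^ k * y + n))) := by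
  rw [av_split q k 1]
  unfold cnd
  exact av_swap q k 1 (fun n y => u (q ^ k * y + n))

/-- the canonical means vary slowly -/
theorem mean_slow {q m : ℕ} (hq : 2 ≤ q) {e : ℕ → Fin d → ℤ} {C : ℝ} (he : QV q m e C)
    (hgen : AddSubgroup.closure (Set.range e) = ⊤) {ε : ℝ} (hε : 0 < ε) :
    ∀ᶠ k : ℕ in atTop, ∀ (g : (Fin d → ℤ) → ℝ) (a : ℕ), (∀ x, |g x| ≤ 1) →
      |mean q (k + 1) e g a - mean q k e g a| ≤ ε := by
  obtain ⟨Cm, hCm0, hCm⟩ := mean_smooth hq he.gap hgen
  obtain ⟨K₁, hK₁0, hK₁⟩ := defect_sq_left (q := q) (m := m) hq q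
  set C₀ : ℝ := 2 * Cm + 1 with hC₀
  have hC₀0 : 0 < C₀ := by positivity
  set ε₁ : ℝ := ε / (4 * C₀) with hε₁
  have hε₁0 : 0 < ε₁ := by positivity
  have q1 : C₀ * ε₁ = ε / 4 := by
    rw [hε₁]
    field_simp
  set B : ℝ := Real.sqrt (K₁ * C ^ 2) + C * 2 with hB
  have hB0 : 0 ≤ B := by
    have := he.nonneg
    positivity
  set K : ℝ := C₀ + 2 / ε₁ * (d * B) with hK
  filter_upwards [(tendsto_div_sqrt K).eventually_le_const
    (show (0 : ℝ) < ε / 4 by positivity)] with k hk2 g a hg
  set w : ℝ := Real.sqrt ((k : ℝ) + 1) with hw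
  have hw1 : 1 ≤ w := Real.one_le_sqrt.mpr (by linarith [(Nat.cast_nonneg k : (0 : ℝ) ≤ k)])
  have hw0 : 0 < w := by linarith
  set L : ℕ := ⌈ε₁ * w⌉₊ with hLdef
  have hL1 : ε₁ * w ≤ L := Nat.le_ceil _
  have hL2 : (L : ℝ) ≤ ε₁ * w + 1 := (Nat.ceil_lt_add_one (by positivity)).le
  have hL : 1 ≤ L := Nat.one_le_iff_ne_zero.mpr (Nat.ceil_pos.mpr (by positivity)).ne'
  have hLpos : (0 : ℝ) < L := by exact_mod_cast hL
  have hLw : (L : ℝ) / w ≤ ε₁ + 1 / w := by
    rw [div_le_iff₀ hw0, add_mul, one_div, inv_mul_cancel₀ hw0.ne']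
    exact hL2
  set δ : ℝ := 2 / L with hδ
  have hδ0 : 0 ≤ δ := by positivity
  have hδ1 : δ ≤ 2 / ε₁ / w := by
    rw [hδ, div_div, div_le_div_iff_of_pos_left (by norm_num) hLpos (by positivity)]
    exact hL1
  set u : Fin d → ℤ := a • e 1 with hu
  set G : (Fin d → ℤ) → ℝ := smo L (ext e u g) with hG
  have hGs : Slow δ G := smo_slow hL (fun x => ext_abs hg u x)
  have m1 := hCm k L hL (ext e u g) (fun x => ext_abs hg u x)
  have m2 := hCm (k + 1) L hL (ext e u g) (fun x => ext_abs hg u x)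
  have m2' : |av q (k + 1) (fun n => ext e u g (e n)) - av q (k + 1) (fun n => G (e n))| ≤
      Cm * L / w := by
    refine m2.trans ?_
    refine div_le_div_of_nonneg_left (by positivity) hw0 ?_
    refine Real.sqrt_le_sqrt ?_
    push_cast
    linarith
  -- the smoothed functions
  have s1 : |av q (k + 1) (fun n => G (e n)) - av q k (fun n => G (e n))| ≤ δ * (d * B) := by
    rw [av_top]
    have hc : av q k (fun n => G (e n)) = av q 1 (fun _ => av q k (fun n => G (e n))) :=
      (av_const hq 1 _).symm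
    rw [hc]
    refine av_close hq fun y hy => ?_
    rw [pow_one] at hy
    have hXY : ∀ i : Fin d, av q k (fun n => |((e (q ^ k * y + n) i : ℤ) : ℝ) -
        ((e n i : ℤ) : ℝ)|) ≤ B := by
      intro i
      have h1 := hK₁ _ C (he.coord i) k y hy.le
      have h2 := he.growth 1 y (by rwa [pow_one]) i
      have h3 : av q k (fun s => |dfc (fun n => ((e n i : ℤ) : ℝ)) q k y s|) ≤
          Real.sqrt (K₁ * C ^ 2) := by
        refine Real.le_sqrt_of_sq_le ?_
        refine (av_sq_le q hq k _).trans (le_trans (le_of_eq ?_) h1)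
        congr 1
        funext s
        rw [sq_abs]
      calc av q k (fun n => |((e (q ^ k * y + n) i : ℤ) : ℝ) - ((e n i : ℤ) : ℝ)|)
          ≤ av q k (fun s => |dfc (fun n => ((e n i : ℤ) : ℝ)) q k y s| + C * 2) := by
            refine av_mono fun n _ => ?_
            have e1 : ((e (q ^ k * y + n) i : ℤ) : ℝ) - ((e n i : ℤ) : ℝ) =
                dfc (fun n => ((e n i : ℤ) : ℝ)) q k y n + ((e y i : ℤ) : ℝ) := by
              unfold dfc
              ring
            rw [e1]
            refine (abs_add_le _ _).trans (add_le_add le_rfl ?_)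
            refine h2.trans (le_of_eq ?_)
            norm_num
        _ = av q k (fun s => |dfc (fun n => ((e n i : ℤ) : ℝ)) q k y s|) + C * 2 := by
            rw [av_add, av_const hq]
        _ ≤ B := by linarith
    have := slow_av_close hδ0 hGs hXY (f := fun _ => 1) (fun n => by simp)
    simpa only [mul_one] using this
  have hkey : Cm * L / w + Cm * L / w + δ * (d * B) ≤ ε := by
    have a1 : Cm * L / w + Cm * L / w ≤ C₀ * (ε₁ + 1 / w) := by
      have e1 : Cm * L / w + Cm * L / w = (2 * Cm) * (L / w) := by ring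
      rw [e1]
      refine mul_le_mul (by linarith) hLw (by positivity) hC₀0.le
    have a2 : δ * (d * B) ≤ 2 / ε₁ / w * (d * B) :=
      mul_le_mul_of_nonneg_right hδ1 (by positivity)
    have a3 : K / w = C₀ * (1 / w) + 2 / ε₁ / w * (d * B) := by
      rw [hK]
      ring
    have a4 : C₀ * (ε₁ + 1 / w) = C₀ * ε₁ + C₀ * (1 / w) := by ring
    linarith
  have t1 := abs_le.mp m1
  have t2 := abs_le.mp m2'
  have t3 := abs_le.mp s1
  have e1 : mean q (k + 1) e g a = av q (k + 1) (fun n => ext e u g (e n)) := rfl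
  have e2 : mean q k e g a = av q k (fun n => ext e u g (e n)) := rfl
  rw [e1, e2, abs_le]
  constructor
  · linarith [t1.1, t1.2, t2.1, t2.2, t3.1]
  · linarith [t1.1, t1.2, t2.1, t2.2, t3.2]

theorem mean_slow_add {q m : ℕ} (hq : 2 ≤ q) {e : ℕ → Fin d → ℤ} {C : ℝ} (he : QV q m e C)
    (hgen : AddSubgroup.closure (Set.range e) = ⊤) (T : ℕ) {ε : ℝ} (hε : 0 < ε) :
    ∀ᶠ k : ℕ in atTop, ∀ t ≤ T, ∀ (g : (Fin d → ℤ) → ℝ) (a : ℕ), (∀ x, |g x| ≤ 1) →
      |mean q (k + t) e g a - mean q k e g a| ≤ ε := by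
  have h1 := mean_slow hq he hgen (ε := ε / (T + 1)) (by positivity)
  obtain ⟨k₀, hk₀⟩ := eventually_atTop.mp h1
  filter_upwards [eventually_ge_atTop k₀] with k hk t ht g a hg
  have h2 : ∀ t : ℕ, |mean q (k + t) e g a - mean q k e g a| ≤ t * (ε / (T + 1)) := by
    intro t
    induction t with
    | zero => simp
    | succ t ih =>
      have h3 := hk₀ (k + t) (by omega) g a hg
      have e1 : mean q (k + (t + 1)) e g a - mean q k e g a =
          (mean q (k + t + 1) e g a - mean q (k + t) e g a) +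
          (mean q (k + t) e g a - mean q k e g a) := by
        rw [← add_assoc]
        ring
      rw [e1]
      refine (abs_add_le _ _).trans ((add_le_add h3 ih).trans (le_of_eq ?_))
      push_cast
      ring
  refine (h2 t).trans ?_
  rw [mul_div_assoc', div_le_iff₀ (by positivity)]
  have : (t : ℝ) ≤ T + 1 := by
    have : (t : ℝ) ≤ T := by exact_mod_cast ht
    linarith
  nlinarith

theorem mean_congr {q m k : ℕ} (hq : 2 ≤ q) {e : ℕ → Fin d → ℤ}
    (he : ∀ a y s : ℕ, s < q ^ a → e (q ^ (a + m) * y + s) = e y + e s) {a b : ℕ}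
    (hab : a ≡ b [MOD (q - 1)]) (g : (Fin d → ℤ) → ℝ) : mean q k e g a = mean q k e g b := by
  unfold mean
  have h1 : a • e 1 - b • e 1 ∈ Lam e := by
    have h2 := lam_mod hq he hab
    have h3 := lam_nsmul e a
    have h4 := lam_nsmul e b
    have e1 : a • e 1 - b • e 1 = (e a - e b) - (e a - a • e 1) + (e b - b • e 1) := by abel
    rw [e1]
    exact AddSubgroup.add_mem _ (AddSubgroup.sub_mem _ h2 h3) h4
  rw [ext_congr h1]

/-- the centred function in a residue class modulo `q ^ h * (q - 1)` -/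
noncomputable def cen (q h a : ℕ) (e : ℕ → Fin d → ℤ) (g : (Fin d → ℤ) → ℝ) (n : ℕ) : ℝ :=
  if n % (q ^ h * (q - 1)) = a then g (e n) - mean q (Nat.log q n) e g a else 0

theorem abs_cen_le {q h a : ℕ} (hq : 2 ≤ q) {e : ℕ → Fin d → ℤ} {g : (Fin d → ℤ) → ℝ}
    (hg : ∀ x, |g x| ≤ 1) (n : ℕ) : |cen q h a e g n| ≤ 2 := by
  unfold cen
  split_ifs
  · refine (abs_sub _ _).trans ?_
    linarith [hg (e n), mean_abs (k := Nat.log q n) (e := e) hq hg a]
  · simp

/-- the logarithm of a multiple of a number in a block -/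
theorem log_block {q p h k t y n i : ℕ} (hq : 2 ≤ q) (hp : 1 ≤ p) (hy : q ^ t ≤ y)
    (hy' : y < q ^ (t + 1)) (hn : n < q ^ k) (hi : i < q ^ h * (q - 1)) :
    ∃ s ≤ t + p + h + 3, Nat.log q (p * (q ^ h * (q - 1) * (q ^ k * y + n) + i)) = k + s := by
  set N := p * (q ^ h * (q - 1) * (q ^ k * y + n) + i) with hN
  have hq1 : 1 ≤ q - 1 := by omega
  have hqh : 1 ≤ q ^ h := Nat.one_le_pow _ _ (by omega)
  have hlow : q ^ (k + t) ≤ N := by
    have h1 : q ^ (k + t) ≤ q ^ k * y := by
      rw [pow_add]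
      exact Nat.mul_le_mul_left _ hy
    have h2 : q ^ k * y ≤ q ^ h * (q - 1) * (q ^ k * y + n) := by
      calc q ^ k * y ≤ q ^ k * y + n := Nat.le_add_right _ _
        _ ≤ q ^ h * (q - 1) * (q ^ k * y + n) :=
            Nat.le_mul_of_pos_left _ (Nat.mul_pos hqh hq1)
    calc q ^ (k + t) ≤ q ^ h * (q - 1) * (q ^ k * y + n) + i := by omega
      _ ≤ N := Nat.le_mul_of_pos_left _ hp
  have hup : N < q ^ (k + (t + p + h + 3) + 1) := by
    have h1 : q ^ k * y + n < q ^ (k + t + 1) := by
      calc q ^ k * y + n < q ^ k * y + q ^ k := by omega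
        _ = q ^ k * (y + 1) := by ring
        _ ≤ q ^ k * q ^ (t + 1) := Nat.mul_le_mul_left _ hy'
        _ = q ^ (k + t + 1) := by ring
    have h2 : q ^ h * (q - 1) * (q ^ k * y + n) + i < q ^ (k + t + h + 2) := by
      calc q ^ h * (q - 1) * (q ^ k * y + n) + i
          < q ^ h * (q - 1) * (q ^ k * y + n) + q ^ h * (q - 1) := by omega
        _ = q ^ h * (q - 1) * (q ^ k * y + n + 1) := by ring
        _ ≤ q ^ h * q * q ^ (k + t + 1) := by
            refine Nat.mul_le_mul (Nat.mul_le_mul_left _ (Nat.sub_le _ _)) h1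
        _ = q ^ (k + t + h + 2) := by ring
    have h3 : p < q ^ p := Nat.lt_pow_self (by omega)
    calc N < q ^ p * q ^ (k + t + h + 2) := Nat.mul_lt_mul_of_lt_of_lt h3 h2
      _ = q ^ (k + t + p + h + 2) := by ring
      _ ≤ q ^ (k + (t + p + h + 3) + 1) := Nat.pow_le_pow_right (by omega) (by omega)
  have hN0 : N ≠ 0 := by
    have : 0 < q ^ (k + t) := by positivity
    omega
  have l1 : k + t ≤ Nat.log q N := Nat.le_log_of_pow_le (by omega) hlow
  have l2 : Nat.log q N < k + (t + p + h + 3) + 1 := Nat.log_lt_of_lt_pow hN0 hup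
  exact ⟨Nat.log q N - k, by omega, by omega⟩

/-- the centred function at a multiple of a number in a block -/
theorem cen_block {q m h a p i k t y n : ℕ} (hq : 2 ≤ q) {e : ℕ → Fin d → ℤ}
    (he : ∀ a y s : ℕ, s < q ^ a → e (q ^ (a + m) * y + s) = e y + e s)
    (hp : 1 ≤ p) (hy : q ^ t ≤ y) (hy' : y < q ^ (t + 1))
    (hn : n < q ^ k) (hi : i < q ^ h * (q - 1)) (ha : (p * i) % (q ^ h * (q - 1)) = a)
    {g : (Fin d → ℤ) → ℝ} {ε : ℝ}
    (hmean : ∀ s ≤ t + p + h + 3, |mean q (k + s) e g a - mean q k e g a| ≤ ε) :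
    |cen q h a e g (p * (q ^ h * (q - 1) * (q ^ k * y + n) + i)) -
      (g (e (q ^ h * (p * (q - 1) * (q ^ k * y + n) + p * i / q ^ h) + p * i % q ^ h)) -
        mean q k e g (p * i / q ^ h + p * i % q ^ h))| ≤ ε := by
  obtain ⟨s, hs, hlog⟩ := log_block (p := p) hq hp hy hy' hn hi
  have e1 : p * (q ^ h * (q - 1) * (q ^ k * y + n) + i) =
      q ^ h * (p * (q - 1) * (q ^ k * y + n) + p * i / q ^ h) + p * i % q ^ h := by
    have := Nat.div_add_mod (p * i) (q ^ h)
    calc p * (q ^ h * (q - 1) * (q ^ k * y + n) + i)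
        = q ^ h * (p * (q - 1) * (q ^ k * y + n)) + p * i := by ring
      _ = q ^ h * (p * (q - 1) * (q ^ k * y + n)) +
          (q ^ h * (p * i / q ^ h) + p * i % q ^ h) := by rw [this]
      _ = _ := by ring
  have e2 : (p * (q ^ h * (q - 1) * (q ^ k * y + n) + i)) % (q ^ h * (q - 1)) = a := by
    have h1 : p * (q ^ h * (q - 1) * (q ^ k * y + n) + i) =
        p * i + q ^ h * (q - 1) * (p * (q ^ k * y + n)) := by ring
    rw [h1, Nat.add_mul_mod_self_left, ha]
  have hab : a ≡ p * i / q ^ h + p * i % q ^ h [MOD (q - 1)] := by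
    have hq1 : q ≡ 1 [MOD (q - 1)] := by
      have h3 : q = 1 + (q - 1) := by omega
      have h4 : 1 + (q - 1) ≡ 1 [MOD (q - 1)] := by
        show (1 + (q - 1)) % (q - 1) = 1 % (q - 1)
        exact Nat.add_mod_right 1 (q - 1)
      rwa [← h3] at h4
    have hqh : q ^ h ≡ 1 [MOD (q - 1)] := by
      have := hq1.pow h
      rwa [one_pow] at this
    have h1 : a ≡ p * i [MOD (q - 1)] := by
      have h2 : a ≡ p * i [MOD (q ^ h * (q - 1))] := by
        rw [← ha]
        exact Nat.mod_modEq _ _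
      exact h2.of_mul_left _
    have h2 : p * i ≡ 1 * (p * i / q ^ h) + p * i % q ^ h [MOD (q - 1)] := by
      have h3 := Nat.div_add_mod (p * i) (q ^ h)
      have h4 : q ^ h * (p * i / q ^ h) + p * i % q ^ h ≡
          1 * (p * i / q ^ h) + p * i % q ^ h [MOD (q - 1)] :=
        (hqh.mul_right _).add_right _
      rwa [h3] at h4
    rw [one_mul] at h2
    exact h1.trans h2
  have e3 := mean_congr (k := k) hq he hab g
  unfold cen
  rw [if_pos e2, hlog, ← e3, ← e1]
  have e4 : g (e (p * (q ^ h * (q - 1) * (q ^ k * y + n) + i))) - mean q (k + s) e g a -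
      (g (e (p * (q ^ h * (q - 1) * (q ^ k * y + n) + i))) - mean q k e g a) =
      -(mean q (k + s) e g a - mean q k e g a) := by ring
  rw [e4, abs_neg]
  exact hmean s hs

theorem abs_mul_sub_le {x y x' y' e : ℝ} (hx : |x| ≤ 2) (hy' : |y'| ≤ 2) (h1 : |x - x'| ≤ e)
    (h2 : |y - y'| ≤ e) : |x * y - x' * y'| ≤ 4 * e := by
  have e0 : x * y - x' * y' = x * (y - y') + (x - x') * y' := by ring
  rw [e0]
  refine (abs_add_le _ _).trans ?_
  rw [abs_mul, abs_mul]
  have h3 : 0 ≤ e := (abs_nonneg _).trans h1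
  have h4 : |x| * |y - y'| ≤ 2 * e := mul_le_mul hx h2 (abs_nonneg _) (by norm_num)
  have h5 : |x - x'| * |y'| ≤ e * 2 := mul_le_mul h1 hy' (abs_nonneg _) h3
  linarith

theorem cen_off {q h a p i N : ℕ} {e : ℕ → Fin d → ℤ} {g : (Fin d → ℤ) → ℝ}
    (ha : (p * i) % (q ^ h * (q - 1)) ≠ a) :
    cen q h a e g (p * (q ^ h * (q - 1) * N + i)) = 0 := by
  unfold cen
  rw [if_neg]
  intro h1
  apply ha
  have e1 : p * (q ^ h * (q - 1) * N + i) = p * i + q ^ h * (q - 1) * (p * N) := by ring
  rw [e1, Nat.add_mul_mod_self_left] at h1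
  exact h1

/-- the hypothesis of the Kátai criterion -/
theorem cen_katai {q m : ℕ} (hq : 2 ≤ q) {e : ℕ → Fin d → ℤ} {C : ℝ} (he : QV q m e C)
    (hgen : AddSubgroup.closure (Set.range e) = ⊤) (h a : ℕ) {g : (Fin d → ℤ) → ℝ}
    (hg : ∀ x, |g x| ≤ 1) {ε : ℝ} (hε : 0 < ε) :
    ∃ p₀ : ℕ, ∀ p r : ℕ, p.Prime → r.Prime → p₀ ≤ p → 2 * q ^ m * p ≤ r → p < r →
      ∀ᶠ N : ℕ in atTop,
        |LogAvg (fun n => cen q h a e g (p * n) * cen q h a e g (r * n)) N| ≤ ε := by
  set ε' : ℝ := ε / (4 * q) with hε'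
  have hqR : (2 : ℝ) ≤ q := by exact_mod_cast hq
  have hε'0 : 0 < ε' := by positivity
  obtain ⟨r₀, hr₀⟩ := pair_q hq he hgen (ε := ε' / 4) (by positivity)
  refine ⟨max r₀ (q + 1), fun p r hp hr hp₀ hK hpr => ?_⟩
  have hpq : p.Coprime q := by
    refine (Nat.Prime.coprime_iff_not_dvd hp).mpr fun hdvd => ?_
    have := Nat.le_of_dvd (by omega) hdvd
    have := (le_max_right r₀ (q + 1)).trans hp₀
    omega
  have hrq : r.Coprime q := by
    refine (Nat.Prime.coprime_iff_not_dvd hr).mpr fun hdvd => ?_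
    have := Nat.le_of_dvd (by omega) hdvd
    have := (le_max_right r₀ (q + 1)).trans hp₀
    omega
  have hcop : p.Coprime r := (Nat.coprime_primes hp hr).mpr hpr.ne
  have hr1 : r₀ ≤ r := (le_max_left _ _).trans (hp₀.trans hpr.le)
  have hpair := hr₀ p r hp.one_le hpq hrq hcop hr1 hK h
  have hM : 1 ≤ q ^ h * (q - 1) := Nat.mul_pos (by positivity) (by omega)
  have hblock := block_log (q := q) (M := q ^ h * (q - 1)) hq hM
    (u := fun n => cen q h a e g (p * n) * cen q h a e g (r * n)) (A := 4) (fun n => by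
      rw [abs_mul]
      calc |cen q h a e g (p * n)| * |cen q h a e g (r * n)| ≤ 2 * 2 :=
            mul_le_mul (abs_cen_le hq hg _) (abs_cen_le hq hg _) (abs_nonneg _) (by norm_num)
        _ = 4 := by norm_num) (η := ε') hε'0.le (fun t ε₂ hε₂ => by
      have hmean := mean_slow_add hq he hgen (t + r + h + 3) (ε := ε₂ / 4) (by positivity)
      filter_upwards [hpair (q ^ (t + 1)), hmean] with k hk1 hk2 y hy1 hy2 i hi
      by_cases hpi : (p * i) % (q ^ h * (q - 1)) = a
      swap
      · have hz : ∀ n, cen q h a e g (p * (q ^ h * (q - 1) * (q ^ k * y + n) + i)) = 0 := fun n =>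
          cen_off hpi
        simp only [hz, zero_mul]
        rw [av_const hq, abs_zero]
        positivity
      by_cases hri : (r * i) % (q ^ h * (q - 1)) = a
      swap
      · have hz : ∀ n, cen q h a e g (r * (q ^ h * (q - 1) * (q ^ k * y + n) + i)) = 0 := fun n =>
          cen_off hri
        simp only [hz, mul_zero]
        rw [av_const hq, abs_zero]
        positivity
      -- the main case
      set c := p * i / q ^ h with hc
      set z := p * i % q ^ h with hz
      set c' := r * i / q ^ h with hc'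
      set z' := r * i % q ^ h with hz'
      have hqh : 0 < q ^ h := by positivity
      have hcp : c ≤ p * (q - 1) := by
        refine Nat.div_le_of_le_mul ?_
        calc p * i ≤ p * (q ^ h * (q - 1)) := Nat.mul_le_mul_left _ hi.le
          _ = q ^ h * (p * (q - 1)) := by ring
      have hcr : c' ≤ r * (q - 1) := by
        refine Nat.div_le_of_le_mul ?_
        calc r * i ≤ r * (q ^ h * (q - 1)) := Nat.mul_le_mul_left _ hi.le
          _ = q ^ h * (r * (q - 1)) := by ring
      obtain ⟨k1, k2, k3⟩ := hk1 y hy2.le c hcp c' hcr z (Nat.mod_lt _ hqh) z' (Nat.mod_lt _ hqh)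
        g g hg hg
      set β := mean q k e g (c + z) with hβ
      set β' := mean q k e g (c' + z') with hβ'
      have hβ1 : |β| ≤ 1 := mean_abs hq hg _
      have hβ1' : |β'| ≤ 1 := mean_abs hq hg _
      set X : ℕ → ℝ := fun n => g (e (q ^ h * (p * (q - 1) * (q ^ k * y + n) + c) + z)) with hX
      set X' : ℕ → ℝ := fun n => g (e (q ^ h * (r * (q - 1) * (q ^ k * y + n) + c') + z'))
        with hX'
      have hclose : ∀ n < q ^ k, |cen q h a e g (p * (q ^ h * (q - 1) * (q ^ k * y + n) + i)) *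
          cen q h a e g (r * (q ^ h * (q - 1) * (q ^ k * y + n) + i)) -
          (X n - β) * (X' n - β')| ≤ ε₂ := by
        intro n hn
        have c1 := cen_block (m := m) hq he.gap hp.one_le hy1 hy2 hn hi hpi (g := g)
          (ε := ε₂ / 4) (fun s hs => hk2 s (by omega) g a hg)
        have c2 := cen_block (m := m) hq he.gap hr.one_le hy1 hy2 hn hi hri (g := g)
          (ε := ε₂ / 4) (fun s hs => hk2 s hs g a hg)
        have c3 := abs_mul_sub_le (abs_cen_le hq hg _) (y' := X' n - β')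
          ((abs_sub _ _).trans (by linarith [hg (e (q ^ h * (r * (q - 1) * (q ^ k * y + n) + c') +
            z'))])) c1 c2
        refine c3.trans (le_of_eq (by ring))
      have hmain : |av q k (fun n => (X n - β) * (X' n - β'))| ≤ ε' := by
        have e1 : av q k (fun n => (X n - β) * (X' n - β')) =
            (av q k (fun n => X n * X' n) - β * β') - β' * (av q k X - β) -
            β * (av q k X' - β') := by
          have e2 : (fun n => (X n - β) * (X' n - β')) = fun n =>
              X n * X' n - β' * X n - β * X' n + β * β' := by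
            funext n
            ring
          rw [e2, av_add, av_sub, av_sub, av_const_mul, av_const_mul, av_const hq]
          ring
        rw [e1]
        have b1 : |β' * (av q k X - β)| ≤ ε' / 4 := by
          rw [abs_mul]
          exact (mul_le_of_le_one_left (abs_nonneg _) hβ1').trans k2
        have b2 : |β * (av q k X' - β')| ≤ ε' / 4 := by
          rw [abs_mul]
          exact (mul_le_of_le_one_left (abs_nonneg _) hβ1).trans k3
        have b3 : |av q k (fun n => X n * X' n) - β * β'| ≤ ε' / 4 := k1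
        have t1 := abs_le.mp b3
        have t2 := abs_le.mp b1
        have t3 := abs_le.mp b2
        rw [abs_le]
        constructor
        · linarith [t1.1, t2.2, t3.2]
        · linarith [t1.2, t2.1, t3.1]
      have hcl := av_close hq hclose
      have t1 := abs_le.mp hcl
      have t2 := abs_le.mp hmain
      rw [abs_le]
      constructor
      · linarith [t1.1, t2.1]
      · linarith [t1.2, t2.2]) (ε := ε / 2) (by positivity)
  filter_upwards [hblock] with N hN
  refine hN.trans (le_of_eq ?_)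
  rw [hε']
  field_simp
  ring

end Pool.Agent.Lib.MP_3e612f_nt.QA
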