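import Pool.Agent.Lib.MP_3e612f_nt.QBase

/-!
Smoothing of bounded functions on the lattice.
-/

set_option autoImplicit false

namespace Pool.Agent.Lib.MP_3e612f_nt.QA

open Filter Topology

variable {d : ℕ}

/-- averaging in one direction -/
noncomputable def S1 (L : ℕ) (a : Fin d) (g : (Fin d → ℤ) → ℝ) (x : Fin d → ℤ) : ℝ :=
  (∑ i ∈ Finset.range L, g (x + Pi.single a (i : ℤ))) / L

/-- averaging in the directions of a list -/
noncomputable def SM (L : ℕ) : List (Fin d) → ((Fin d → ℤ) → ℝ) → (Fin d → ℤ) → ℝ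
  | [], g => g
  | a :: l, g => S1 L a (SM L l g)

/-- the difference in one direction -/
def D1 (a : Fin d) (g : (Fin d → ℤ) → ℝ) (x : Fin d → ℤ) : ℝ := g (x + Pi.single a 1) - g x

theorem S1_abs {L : ℕ} (hL : 1 ≤ L) {a : Fin d} {g : (Fin d → ℤ) → ℝ} {B : ℝ}
    (hg : ∀ x, |g x| ≤ B) (x : Fin d → ℤ) : |S1 L a g x| ≤ B := by
  have hL' : (0 : ℝ) < L := by exact_mod_cast hL
  unfold S1
  rw [abs_div, abs_of_pos hL', div_le_iff₀ hL']
  refine (Finset.abs_sum_le_sum_abs _ _).trans ?_
  refine (Finset.sum_le_sum fun i _ => hg _).trans (le_of_eq ?_)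
  rw [Finset.sum_const, Finset.card_range, nsmul_eq_mul, mul_comm]

theorem SM_abs {L : ℕ} (hL : 1 ≤ L) (l : List (Fin d)) {g : (Fin d → ℤ) → ℝ} {B : ℝ}
    (hg : ∀ x, |g x| ≤ B) (x : Fin d → ℤ) : |SM L l g x| ≤ B := by
  induction l generalizing x with
  | nil => exact hg x
  | cons a l ih => exact S1_abs hL ih x

theorem D1_S1 (L : ℕ) (a b : Fin d) (g : (Fin d → ℤ) → ℝ) :
    D1 b (S1 L a g) = S1 L a (D1 b g) := by
  funext x
  unfold D1 S1
  rw [← sub_div, ← Finset.sum_sub_distrib]
  refine congrArg (· / (L : ℝ)) (Finset.sum_congr rfl fun i _ => ?_)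
  rw [add_right_comm]

theorem D1_SM (L : ℕ) (b : Fin d) (l : List (Fin d)) (g : (Fin d → ℤ) → ℝ) :
    D1 b (SM L l g) = SM L l (D1 b g) := by
  induction l with
  | nil => rfl
  | cons a l ih =>
    show D1 b (S1 L a (SM L l g)) = S1 L a (SM L l (D1 b g))
    rw [D1_S1, ih]

theorem D1_S1_self {L : ℕ} (hL : 1 ≤ L) (a : Fin d) {g : (Fin d → ℤ) → ℝ} {B : ℝ}
    (hg : ∀ x, |g x| ≤ B) (x : Fin d → ℤ) : |D1 a (S1 L a g) x| ≤ 2 / L * B := by
  have hL' : (0 : ℝ) < L := by exact_mod_cast hL
  have e : D1 a (S1 L a g) x = (g (x + Pi.single a (L : ℤ)) - g x) / L := by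
    unfold D1 S1
    rw [← sub_div, ← Finset.sum_sub_distrib]
    congr 1
    have h := Finset.sum_range_sub (fun i : ℕ => g (x + Pi.single a (i : ℤ))) L
    simp only [Nat.cast_zero, Pi.single_zero, add_zero] at h
    rw [← h]
    refine Finset.sum_congr rfl fun i _ => ?_
    congr 2
    rw [add_assoc, ← Pi.single_add]
    congr 2
    push_cast
    ring
  rw [e, abs_div, abs_of_pos hL', div_le_iff₀ hL']
  have h1 := abs_sub (g (x + Pi.single a (L : ℤ))) (g x)
  have h2 : 2 / (L : ℝ) * B * L = 2 * B := by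
    field_simp
  rw [h2]
  linarith [hg (x + Pi.single a (L : ℤ)), hg x]

theorem D1_SM_mem {L : ℕ} (hL : 1 ≤ L) {b : Fin d} {l : List (Fin d)} (hb : b ∈ l)
    {g : (Fin d → ℤ) → ℝ} {B : ℝ} (hg : ∀ x, |g x| ≤ B) (x : Fin d → ℤ) :
    |D1 b (SM L l g) x| ≤ 2 / L * B := by
  induction l generalizing x with
  | nil => simp at hb
  | cons a l ih =>
    show |D1 b (S1 L a (SM L l g)) x| ≤ 2 / L * B
    rcases List.mem_cons.mp hb with h | h
    · subst h
      exact D1_S1_self hL b (SM_abs hL l hg) x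
    · rw [D1_S1]
      exact S1_abs hL (fun y => ih h y) x

theorem SM_append (L : ℕ) (l l' : List (Fin d)) (g : (Fin d → ℤ) → ℝ) :
    SM L (l ++ l') g = SM L l (SM L l' g) := by
  induction l with
  | nil => rfl
  | cons a l ih =>
    show S1 L a (SM L (l ++ l') g) = S1 L a (SM L l (SM L l' g))
    rw [ih]

/-- smoothing twice in every direction -/
noncomputable def smo (L : ℕ) (g : (Fin d → ℤ) → ℝ) : (Fin d → ℤ) → ℝ :=
  SM L (List.finRange d ++ List.finRange d) g

theorem smo_slow {L : ℕ} (hL : 1 ≤ L) {g : (Fin d → ℤ) → ℝ} (hg : ∀ x, |g x| ≤ 1) :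
    Slow (2 / L) (smo L g) := by
  refine ⟨fun x => SM_abs hL _ hg x, fun x i => ?_, fun x i j => ?_⟩
  · have h := D1_SM_mem hL (b := i) (l := List.finRange d ++ List.finRange d) (by simp) hg x
    rw [mul_one] at h
    exact h
  · have h1 : ∀ y, |D1 j (SM L (List.finRange d) g) y| ≤ 2 / L := fun y => by
      have h := D1_SM_mem hL (b := j) (l := List.finRange d) (by simp) hg y
      rwa [mul_one] at h
    have h2 := D1_SM_mem hL (b := i) (l := List.finRange d) (by simp) h1 x
    rw [← D1_SM, ← SM_append] at h2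
    have e : D1 i (D1 j (SM L (List.finRange d ++ List.finRange d) g)) x =
        smo L g (x + Pi.single i 1 + Pi.single j 1) - smo L g (x + Pi.single i 1) -
          smo L g (x + Pi.single j 1) + smo L g x := by
      unfold D1 smo
      ring
    rw [← e, sq]
    exact h2

theorem S1_shift (L : ℕ) (a : Fin d) (v : Fin d → ℤ) (g : (Fin d → ℤ) → ℝ) (x : Fin d → ℤ) :
    S1 L a g (x + v) = S1 L a (fun y => g (y + v)) x := by
  unfold S1
  refine congrArg (· / (L : ℝ)) (Finset.sum_congr rfl fun i _ => ?_)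
  rw [add_right_comm]

theorem SM_shift (L : ℕ) (l : List (Fin d)) (v : Fin d → ℤ) (g : (Fin d → ℤ) → ℝ)
    (x : Fin d → ℤ) : SM L l g (x + v) = SM L l (fun y => g (y + v)) x := by
  induction l generalizing x with
  | nil => rfl
  | cons a l ih =>
    show S1 L a (SM L l g) (x + v) = S1 L a (SM L l (fun y => g (y + v))) x
    rw [S1_shift]
    congr 1
    funext y
    exact ih y

theorem av_S1 (q k L : ℕ) (a : Fin d) (g : (Fin d → ℤ) → ℝ) (X : ℕ → Fin d → ℤ) (f : ℕ → ℝ) :
    av q k (fun n => S1 L a g (X n) * f n) =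
      (∑ i ∈ Finset.range L, av q k (fun n => g (X n + Pi.single a (i : ℤ)) * f n)) / L := by
  unfold av S1
  rw [← Finset.sum_div, div_right_comm, Finset.sum_comm]
  congr 1
  rw [Finset.sum_div]
  refine Finset.sum_congr rfl fun n _ => ?_
  dsimp only
  rw [div_mul_eq_mul_div, Finset.sum_mul, Finset.sum_div]

theorem avg_close' {L : ℕ} (hL : 1 ≤ L) {A c : ℝ} {T : ℕ → ℝ}
    (h : ∀ i < L, |A - T i| ≤ c) : |A - (∑ i ∈ Finset.range L, T i) / L| ≤ c := by
  have hL' : (0 : ℝ) < L := by exact_mod_cast hL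
  have e2 : A - (∑ i ∈ Finset.range L, T i) / L = (∑ i ∈ Finset.range L, (A - T i)) / L := by
    rw [Finset.sum_sub_distrib, Finset.sum_const, Finset.card_range, nsmul_eq_mul, sub_div]
    congr 1
    field_simp
  rw [e2, abs_div, abs_of_pos hL', div_le_iff₀ hL']
  refine (Finset.abs_sum_le_sum_abs _ _).trans ?_
  refine (Finset.sum_le_sum fun i hi => h i (Finset.mem_range.mp hi)).trans (le_of_eq ?_)
  rw [Finset.sum_const, Finset.card_range, nsmul_eq_mul, mul_comm]

/-- an average against the smoothed function is close to whatever is close to all the averages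
against the shifted functions -/
theorem SM_close {q k L : ℕ} (hL : 1 ≤ L) (X : ℕ → Fin d → ℤ) (f : ℕ → ℝ) {A c : ℝ}
    (l : List (Fin d)) (g : (Fin d → ℤ) → ℝ)
    (h : ∀ v : Fin d → ℤ, (∀ a, 0 ≤ v a) → (∀ a, v a ≤ L * (l.count a : ℤ)) →
      |A - av q k (fun n => g (X n + v) * f n)| ≤ c) :
    |A - av q k (fun n => SM L l g (X n) * f n)| ≤ c := by
  induction l generalizing g with
  | nil =>
    have h1 := h 0 (fun a => le_rfl) (fun a => by simp)
    simpa [SM] using h1
  | cons a l ih =>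
    show |A - av q k (fun n => S1 L a (SM L l g) (X n) * f n)| ≤ c
    rw [av_S1]
    refine avg_close' hL fun i hi => ?_
    have e3 : (fun n => SM L l g (X n + Pi.single a (i : ℤ)) * f n) =
        (fun n => SM L l (fun y => g (y + Pi.single a (i : ℤ))) (X n) * f n) := by
      funext n
      rw [SM_shift]
    rw [e3]
    apply ih
    intro v hv0 hv1
    have h1 := h (v + Pi.single a (i : ℤ)) (fun b => by
      by_cases hb : b = a
      · subst hb
        simp only [Pi.add_apply, Pi.single_eq_same]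
        have := hv0 b
        omega
      · simp only [Pi.add_apply, Pi.single_eq_of_ne hb, add_zero]
        exact hv0 b) (fun b => by
      by_cases hb : b = a
      · subst hb
        simp only [Pi.add_apply, Pi.single_eq_same, List.count_cons_self]
        have h2 := hv1 b
        push_cast
        have h3 : (i : ℤ) < L := by exact_mod_cast hi
        linarith
      · simp only [Pi.add_apply, Pi.single_eq_of_ne hb, add_zero]
        rw [List.count_cons_of_ne (Ne.symm hb)]
        exact hv1 b)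
    simpa only [add_assoc] using h1

theorem smo_close {q k L : ℕ} (hL : 1 ≤ L) (X : ℕ → Fin d → ℤ) (f : ℕ → ℝ) {A c : ℝ}
    (g : (Fin d → ℤ) → ℝ)
    (h : ∀ v : Fin d → ℤ, (∀ a, 0 ≤ v a) → (∀ a, v a ≤ 2 * (L : ℤ)) →
      |A - av q k (fun n => g (X n + v) * f n)| ≤ c) :
    |A - av q k (fun n => smo L g (X n) * f n)| ≤ c := by
  refine SM_close hL X f _ g fun v hv0 hv1 => h v hv0 fun a => ?_
  have h1 := hv1 a
  rw [List.count_append, List.count_eq_one_of_mem (List.nodup_finRange d) (List.mem_finRange a)]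
    at h1
  push_cast at h1
  linarith

end Pool.Agent.Lib.MP_3e612f_nt.QA
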