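import Pool.Agent.Lib.MP_3e612f_nt.QExt
import Pool.Agent.Lib.MP_3e612f_nt.QSmooth
import Pool.Agent.Lib.MP_3e612f_nt.QDefect
import Pool.Agent.Lib.MP_3e612f_nt.QDrop

/-!
The canonical means, and the replacement of bounded functions by slowly varying functions.
-/

set_option autoImplicit false

namespace Pool.Agent.Lib.MP_3e612f_nt.QA

open Filter Topology

variable {d : ℕ}

/-- the mean over `n < q ^ k` of the function `g` extended from the coset of `a` -/
noncomputable def mean (q k : ℕ) (e : ℕ → Fin d → ℤ) (g : (Fin d → ℤ) → ℝ) (a : ℕ) : ℝ :=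
  av q k (fun n => ext e (a • e 1) g (e n))

theorem ext_abs {e : ℕ → Fin d → ℤ} {g : (Fin d → ℤ) → ℝ} (hg : ∀ x, |g x| ≤ 1)
    (u x : Fin d → ℤ) : |ext e u g x| ≤ 1 := hg _

theorem mean_abs {q : ℕ} (hq : 2 ≤ q) {k : ℕ} {e : ℕ → Fin d → ℤ} {g : (Fin d → ℤ) → ℝ}
    (hg : ∀ x, |g x| ≤ 1) (a : ℕ) : |mean q k e g a| ≤ 1 :=
  abs_av_le hq fun _ _ => ext_abs hg _ _

theorem vec_cost {N : (Fin d → ℤ) → ℝ → Prop}
    (h0 : N 0 0) (hadd : ∀ v w c c', N v c → N w c' → N (v + w) (c + c'))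
    (hmono : ∀ v c c', N v c → c ≤ c' → N v c') (hN : ∀ v, ∃ c, 0 ≤ c ∧ N v c) :
    ∃ C : ℝ, 0 ≤ C ∧ ∀ L : ℕ, 1 ≤ L → ∀ v : Fin d → ℤ, (∀ a, 0 ≤ v a) →
      (∀ a, v a ≤ 2 * (L : ℤ)) → N v (C * L) := by
  classical
  have hA : ∀ a : Fin d, ∃ c, 0 ≤ c ∧ N (Pi.single a 1 : Fin d → ℤ) c := fun a => hN _
  choose cA hcA0 hcA using hA
  have hnsmul : ∀ (w : ℕ) (v : Fin d → ℤ) (c : ℝ), N v c → N (w • v) (w * c) := by
    intro w v c hv
    induction w with
    | zero => simpa using h0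
    | succ w ih =>
      rw [succ_nsmul]
      have := hadd _ _ _ _ ih hv
      push_cast
      rwa [add_mul, one_mul]
  have hsum : ∀ (s : Finset (Fin d)) (f : Fin d → Fin d → ℤ) (c : Fin d → ℝ),
      (∀ a, N (f a) (c a)) → N (∑ a ∈ s, f a) (∑ a ∈ s, c a) := by
    intro s f c hf
    induction s using Finset.induction_on with
    | empty => simpa using h0
    | insert a s ha ih =>
      rw [Finset.sum_insert ha, Finset.sum_insert ha]
      exact hadd _ _ _ _ (hf a) ih
  refine ⟨2 * ∑ a, cA a, by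
    have h1 : 0 ≤ ∑ a, cA a := Finset.sum_nonneg fun a _ => hcA0 a
    positivity, ?_⟩
  intro L hL v hv0 hv1
  have hdec : v = ∑ a, (v a).toNat • (Pi.single a 1 : Fin d → ℤ) := by
    funext b
    rw [Finset.sum_apply]
    have e1 : ∀ a, ((v a).toNat • (Pi.single a 1 : Fin d → ℤ)) b =
        if a = b then v a else 0 := by
      intro a
      rw [Pi.smul_apply, nsmul_eq_mul]
      by_cases hab : a = b
      · subst hab
        rw [Pi.single_eq_same, if_pos rfl, mul_one]
        exact Int.toNat_of_nonneg (hv0 a)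
      · rw [Pi.single_eq_of_ne (Ne.symm hab), if_neg hab, mul_zero]
    rw [Finset.sum_congr rfl fun a _ => e1 a, Finset.sum_ite_eq' Finset.univ b v,
      if_pos (Finset.mem_univ b)]
  rw [hdec]
  refine hmono _ _ _ (hsum Finset.univ _ (fun a => ((v a).toNat : ℝ) * cA a)
    (fun a => hnsmul _ _ _ (hcA a))) ?_
  have e : 2 * (∑ a, cA a) * (L : ℝ) = ∑ a, 2 * (L : ℝ) * cA a := by
    rw [Finset.mul_sum, Finset.sum_mul]
    exact Finset.sum_congr rfl fun a _ => by ring
  rw [e]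
  refine Finset.sum_le_sum fun a _ => mul_le_mul_of_nonneg_right ?_ (hcA0 a)
  have h3 : (((v a).toNat : ℕ) : ℤ) ≤ 2 * (L : ℤ) := by
    rw [Int.toNat_of_nonneg (hv0 a)]
    exact hv1 a
  exact_mod_cast h3

/-- smoothing in the canonical means -/
theorem mean_smooth {q m : ℕ} (hq : 2 ≤ q) {e : ℕ → Fin d → ℤ}
    (he : ∀ a y s : ℕ, s < q ^ a → e (q ^ (a + m) * y + s) = e y + e s)
    (hgen : AddSubgroup.closure (Set.range e) = ⊤) :
    ∃ C : ℝ, 0 ≤ C ∧ ∀ k L : ℕ, 1 ≤ L → ∀ g : (Fin d → ℤ) → ℝ, (∀ x, |g x| ≤ 1) →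
      |av q k (fun n => g (e n)) - av q k (fun n => smo L g (e n))| ≤
        C * L / Real.sqrt (k + 1) := by
  have hN : ∀ v : Fin d → ℤ, ∃ c, 0 ≤ c ∧ ∀ (k : ℕ) (g : (Fin d → ℤ) → ℝ), (∀ x, |g x| ≤ 1) →
      |av q k (fun n => g (e n)) - av q k (fun n => g (e n + v))| ≤ c / Real.sqrt (k + 1) := by
    intro v
    obtain ⟨c, hc, h⟩ := good_diag hq he hgen v
    refine ⟨c, hc, fun k g hg => ?_⟩
    have h1 := h 0 k 0 0 0 0 0 (by omega) (by omega) (by simp) (by simp) (fun x _ => g x)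
      (fun x _ => hg x)
    unfold Phi at h1
    simpa using h1
  obtain ⟨C, hC0, hC⟩ := vec_cost (d := d) (N := fun v c => ∀ (k : ℕ) (g : (Fin d → ℤ) → ℝ),
      (∀ x, |g x| ≤ 1) →
      |av q k (fun n => g (e n)) - av q k (fun n => g (e n + v))| ≤ c / Real.sqrt (k + 1))
    (fun k g _ => by simp)
    (fun v w c c' hv hw k g hg => by
      have h1 := hv k g hg
      have h2 := hw k (fun x => g (x + v)) (fun x => hg _)
      have e1 : (fun n => g (e n + (v + w))) = fun n => (fun x => g (x + v)) (e n + w) := by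
        funext n
        dsimp only
        congr 1
        abel
      rw [e1, add_div]
      refine (abs_sub_le _ _ _).trans (add_le_add h1 h2))
    (fun v c c' hv hcc k g hg => (hv k g hg).trans
      (div_le_div_of_nonneg_right hcc (Real.sqrt_nonneg _)))
    hN
  refine ⟨C, hC0, fun k L hL g hg => ?_⟩
  have h1 := smo_close (q := q) (k := k) hL e (fun _ => 1)
    (A := av q k (fun n => g (e n))) (c := C * L / Real.sqrt (k + 1)) g (fun v hv0 hv1 => by
      have := hC L hL v hv0 hv1 k g hg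
      simpa only [mul_one] using this)
  simpa only [mul_one] using h1

theorem slow_lip {δ : ℝ} {G : (Fin d → ℤ) → ℝ} (hG : Slow δ G) (x y : Fin d → ℤ) :
    |G y - G x| ≤ δ * ∑ i, |((y i : ℤ) : ℝ) - x i| := by
  classical
  -- one direction
  have h1 : ∀ (i : Fin d) (t : ℕ) (x : Fin d → ℤ),
      |G (x + Pi.single i (t : ℤ)) - G x| ≤ δ * t := by
    intro i t x
    induction t with
    | zero => simp
    | succ t ih =>
      have h2 := hG.2.1 (x + Pi.single i (t : ℤ)) i
      have e1 : x + Pi.single i (((t + 1 : ℕ)) : ℤ) = x + Pi.single i (t : ℤ) + Pi.single i 1 := by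
        rw [add_assoc, ← Pi.single_add]
        push_cast
        rfl
      rw [e1]
      refine (abs_sub_le _ _ _).trans ((add_le_add h2 ih).trans (le_of_eq ?_))
      push_cast
      ring
  have h2 : ∀ (i : Fin d) (t : ℤ) (x : Fin d → ℤ),
      |G (x + Pi.single i t) - G x| ≤ δ * |(t : ℝ)| := by
    intro i t x
    rcases le_total 0 t with ht | ht
    · obtain ⟨n, rfl⟩ := Int.eq_ofNat_of_zero_le ht
      have := h1 i n x
      rwa [Int.cast_natCast, abs_of_nonneg (Nat.cast_nonneg n : (0 : ℝ) ≤ n)]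
    · obtain ⟨n, hn⟩ := Int.eq_ofNat_of_zero_le (neg_nonneg.mpr ht)
      have ht' : t = -(n : ℤ) := by omega
      subst ht'
      have := h1 i n (x + Pi.single i (-(n : ℤ)))
      have e1 : x + Pi.single i (-(n : ℤ)) + Pi.single i (n : ℤ) = x := by
        rw [add_assoc, ← Pi.single_add]
        simp
      rw [e1, abs_sub_comm] at this
      push_cast
      rwa [abs_neg, abs_of_nonneg (Nat.cast_nonneg n : (0 : ℝ) ≤ n)]
  -- all directions
  have h3 : ∀ (s : Finset (Fin d)) (v : Fin d → ℤ) (x : Fin d → ℤ),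
      |G (x + ∑ i ∈ s, Pi.single i (v i)) - G x| ≤ δ * ∑ i ∈ s, |(v i : ℝ)| := by
    intro s v x
    induction s using Finset.induction_on with
    | empty => simp
    | insert a s ha ih =>
      rw [Finset.sum_insert ha, Finset.sum_insert ha, mul_add,
        add_comm (Pi.single a (v a) : Fin d → ℤ), ← add_assoc]
      refine (abs_sub_le _ _ _).trans (add_le_add (h2 a (v a) _) ih)
  have h4 := h3 Finset.univ (y - x) x
  have e1 : x + ∑ i, Pi.single i ((y - x) i) = y := by
    rw [Finset.univ_sum_single]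
    abel
  rw [e1] at h4
  refine h4.trans (le_of_eq ?_)
  congr 1
  refine Finset.sum_congr rfl fun i _ => ?_
  rw [Pi.sub_apply]
  push_cast
  rfl

/-- averages of slow functions of two sequences which are close in mean -/
theorem slow_av_close {q k : ℕ} {δ K : ℝ} (hδ : 0 ≤ δ) {G : (Fin d → ℤ) → ℝ}
    (hG : Slow δ G) {X Y : ℕ → Fin d → ℤ}
    (hXY : ∀ i, av q k (fun n => |((X n i : ℤ) : ℝ) - ((Y n i : ℤ) : ℝ)|) ≤ K) {f : ℕ → ℝ}
    (hf : ∀ n, |f n| ≤ 1) :
    |av q k (fun n => G (X n) * f n) - av q k (fun n => G (Y n) * f n)| ≤ δ * (d * K) := by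
  rw [← av_sub]
  refine (abs_av_le_av _ _ _).trans ?_
  calc av q k (fun n => |G (X n) * f n - G (Y n) * f n|)
      ≤ av q k (fun n => δ * ∑ i, |((X n i : ℤ) : ℝ) - ((Y n i : ℤ) : ℝ)|) := by
        refine av_mono fun n _ => ?_
        rw [← sub_mul, abs_mul]
        exact (mul_le_of_le_one_right (abs_nonneg _) (hf n)).trans (slow_lip hG (Y n) (X n))
    _ = δ * ∑ i, av q k (fun n => |((X n i : ℤ) : ℝ) - ((Y n i : ℤ) : ℝ)|) := by
        rw [av_const_mul, av_finset_sum Finset.univ q k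
          (fun (i : Fin d) (n : ℕ) => |((X n i : ℤ) : ℝ) - ((Y n i : ℤ) : ℝ)|)]
    _ ≤ δ * (d * K) := by
        refine mul_le_mul_of_nonneg_left ?_ hδ
        refine (Finset.sum_le_sum fun i _ => hXY i).trans (le_of_eq ?_)
        rw [Finset.sum_const, Finset.card_univ, Fintype.card_fin, nsmul_eq_mul]

/-- coordinates are real-valued quasi-additive functions -/
theorem QV.coord {q m : ℕ} {e : ℕ → Fin d → ℤ} {C : ℝ} (he : QV q m e C) (i : Fin d) :
    QR q m (fun n => ((e n i : ℤ) : ℝ)) C :=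
  ⟨he.nonneg, fun a y s hs => by
    rw [he.gap a y s hs, Pi.add_apply]
    push_cast
    rfl, fun a s hs => he.growth a s hs i⟩

theorem QV.lin {q m : ℕ} {e : ℕ → Fin d → ℤ} {C : ℝ} (he : QV q m e C) (a : Fin d → ℝ) :
    QR q m (lin a e) (C * ∑ i, |a i|) :=
  ⟨mul_nonneg he.nonneg (Finset.sum_nonneg fun i _ => abs_nonneg _), fun b y s hs => by
    unfold QA.lin
    rw [← Finset.sum_add_distrib]
    refine Finset.sum_congr rfl fun i _ => ?_
    rw [he.gap b y s hs, Pi.add_apply]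
    push_cast
    ring, fun b s hs => by
    unfold QA.lin
    refine (Finset.abs_sum_le_sum_abs _ _).trans ?_
    rw [mul_comm C, Finset.sum_mul, Finset.sum_mul]
    refine Finset.sum_le_sum fun i _ => ?_
    rw [abs_mul, mul_assoc]
    exact mul_le_mul_of_nonneg_left (he.growth b s hs i) (abs_nonneg _)⟩

end Pool.Agent.Lib.MP_3e612f_nt.QA
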