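import Pool.Agent.Lib.MP_3e612f_nt.MDefs
import Pool.Agent.Lib.MP_3e612f_nt.QMean
import Pool.Agent.Lib.MP_3e612f_nt.QCen

/-! MP_3e612f_nt (several coprime bases), M27b and M28a (helper39). -/

set_option autoImplicit false

namespace Pool.Agent.Lib.MP_3e612f_nt.MB

open Filter Topology
open Pool.Agent.Lib.MP_3e612f_nt.QA

section several

variable {ι : Type*} [Fintype ι] [DecidableEq ι] {q : ι → ℕ} {m : ℕ} {d : ι → ℕ}
  {e : ∀ i, ℕ → Fin (d i) → ℤ} {C : ℝ}

/-- averages over a product of intervals -/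
noncomputable def MA (q l : ι → ℕ) (G : (ι → ℕ) → ℝ) : ℝ :=
  (∑ x ∈ Fintype.piFinset (fun i => Finset.range (q i ^ l i)), G x) / ∏ i, (q i : ℝ) ^ l i

/-- the product of the other intervals -/
def MAo (q l : ι → ℕ) (i₀ : ι) : Finset (ι → ℕ) :=
  Fintype.piFinset (Function.update (fun i => Finset.range (q i ^ l i)) i₀ {0})

theorem MAo_card (q l : ι → ℕ) (i₀ : ι) :
    (MAo q l i₀).card * q i₀ ^ l i₀ = ∏ i, q i ^ l i := by
  unfold MAo
  rw [Fintype.card_piFinset]
  rw [← Finset.prod_erase_mul _ _ (Finset.mem_univ i₀),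
    ← Finset.prod_erase_mul (Finset.univ) (fun i => q i ^ l i) (Finset.mem_univ i₀)]
  simp only [Function.update_self, Finset.card_singleton, mul_one]
  congr 1
  apply Finset.prod_congr rfl
  intro i hi
  rw [Function.update_of_ne (Finset.ne_of_mem_erase hi), Finset.card_range]

theorem MA_sum (q l : ι → ℕ) (i₀ : ι) (G : (ι → ℕ) → ℝ) :
    ∑ x ∈ Fintype.piFinset (fun i => Finset.range (q i ^ l i)), G x =
      ∑ x ∈ MAo q l i₀, ∑ n ∈ Finset.range (q i₀ ^ l i₀), G (Function.update x i₀ n) := by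
  rw [← Finset.sum_product']
  refine Finset.sum_nbij' (fun x => (Function.update x i₀ 0, x i₀))
    (fun p => Function.update p.1 i₀ p.2) ?_ ?_ ?_ ?_ ?_
  · intro x hx
    rw [Fintype.mem_piFinset] at hx
    rw [Finset.mem_product]
    refine ⟨?_, hx i₀⟩
    unfold MAo
    rw [Fintype.mem_piFinset]
    intro i
    by_cases hi : i = i₀
    · subst hi
      simp
    · simp only [Function.update_of_ne hi]
      exact hx i
  · intro p hp
    rw [Finset.mem_product] at hp
    obtain ⟨h1, h2⟩ := hp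
    unfold MAo at h1
    rw [Fintype.mem_piFinset] at h1
    rw [Fintype.mem_piFinset]
    intro i
    by_cases hi : i = i₀
    · subst hi
      simpa using h2
    · have h3 := h1 i
      simp only [Function.update_of_ne hi] at h3 ⊢
      exact h3
  · intro x _
    simp
  · intro p hp
    rw [Finset.mem_product] at hp
    obtain ⟨h1, h2⟩ := hp
    unfold MAo at h1
    rw [Fintype.mem_piFinset] at h1
    have h3 := h1 i₀
    simp only [Function.update_self, Finset.mem_singleton] at h3
    ext1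
    · simp only [Function.update_idem]
      rw [← h3, Function.update_eq_self]
    · simp
  · intro x _
    simp

/-- one coordinate at a time -/
theorem MA_coord (l : ι → ℕ) (i₀ : ι) (G : (ι → ℕ) → ℝ) :
    MA q l G = (∑ x ∈ MAo q l i₀, av (q i₀) (l i₀) (fun n => G (Function.update x i₀ n))) /
      (MAo q l i₀).card := by
  unfold MA
  rw [MA_sum q l i₀ G]
  unfold av
  rw [← Finset.sum_div, div_div]
  congr 1
  have h := MAo_card q l i₀
  have h1 : (((MAo q l i₀).card * q i₀ ^ l i₀ : ℕ) : ℝ) = ((∏ i, q i ^ l i : ℕ) : ℝ) := by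
    rw [h]
  push_cast at h1
  rw [← h1]
  ring

theorem MAo_pos (hq : ∀ i, 2 ≤ q i) (l : ι → ℕ) (i₀ : ι) : 0 < (MAo q l i₀).card := by
  have h := MAo_card q l i₀
  have h1 : 0 < ∏ i, q i ^ l i := Finset.prod_pos (fun i _ => by
    have := hq i
    positivity)
  rw [← h] at h1
  exact Nat.pos_of_ne_zero (fun h3 => by simp [h3] at h1)

theorem MAo_update (q l : ι → ℕ) (i₀ : ι) (l' : ℕ) :
    MAo q (Function.update l i₀ l') i₀ = MAo q l i₀ := by
  unfold MAo
  congr 1
  funext i
  by_cases hi : i = i₀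
  · subst hi
    simp
  · simp only [Function.update_of_ne hi]

theorem MA_close (hq : ∀ i, 2 ≤ q i) (l : ι → ℕ) (i₀ : ι) (l' : ℕ) (G G' : (ι → ℕ) → ℝ) {c : ℝ}
    (h : ∀ x, |av (q i₀) (l i₀) (fun n => G (Function.update x i₀ n)) -
      av (q i₀) l' (fun n => G' (Function.update x i₀ n))| ≤ c) :
    |MA q l G - MA q (Function.update l i₀ l') G'| ≤ c := by
  rw [MA_coord l i₀, MA_coord (Function.update l i₀ l') i₀, MAo_update,
    Function.update_self, ← sub_div, ← Finset.sum_sub_distrib]
  have hpos : (0 : ℝ) < (MAo q l i₀).card := by exact_mod_cast MAo_pos hq l i₀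
  rw [abs_div, abs_of_pos hpos, div_le_iff₀ hpos]
  refine (Finset.abs_sum_le_sum_abs _ _).trans ?_
  refine (Finset.sum_le_sum fun x _ => h x).trans (le_of_eq ?_)
  rw [Finset.sum_const, nsmul_eq_mul, mul_comm]

theorem modelAv_eq (k : ℕ) (g : (∀ i, Fin (d i) → ℤ) → ℝ) :
    modelAv q e k g = MA q (fun i => lg (q i) k) (fun x => g (fun i => e i (x i))) := rfl

/-- the dyadic level is bounded by a multiple of the `q`-adic level -/
theorem level_le {q : ℕ} (hq : 2 ≤ q) (k : ℕ) : k + 1 ≤ q * (lg q k + 1) := by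
  have h1 : 2 ^ k < q ^ (lg q k + 1) := Nat.lt_pow_succ_log_self (by omega) _
  have h2 : q ^ (lg q k + 1) ≤ 2 ^ (q * (lg q k + 1)) := by
    rw [pow_mul]
    exact Nat.pow_le_pow_left (Nat.lt_two_pow_self).le _
  have h3 := (Nat.pow_lt_pow_iff_right (by norm_num : 1 < 2)).mp (h1.trans_le h2)
  omega

theorem level_sqrt {q : ℕ} (hq : 2 ≤ q) {c : ℝ} (hc : 0 ≤ c) (k : ℕ) :
    c / Real.sqrt (lg q k + 1) ≤ (c * Real.sqrt q) / Real.sqrt (k + 1) := by
  have h1 : (0 : ℝ) < Real.sqrt ((lg q k : ℝ) + 1) := Real.sqrt_pos.mpr (by positivity)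
  have h2 : (0 : ℝ) < Real.sqrt ((k : ℝ) + 1) := Real.sqrt_pos.mpr (by positivity)
  rw [div_le_div_iff₀ h1 h2, mul_assoc]
  refine mul_le_mul_of_nonneg_left ?_ hc
  rw [← Real.sqrt_mul (Nat.cast_nonneg _)]
  apply Real.sqrt_le_sqrt
  have := level_le hq k
  exact_mod_cast this

/-- the cost of a shift in one base -/
theorem model_shift_one (S : Sys q m e C) (i₀ : ι) (w : Fin (d i₀) → ℤ) :
    ∃ c : ℝ, 0 ≤ c ∧ ∀ (k : ℕ) (g : (∀ i, Fin (d i) → ℤ) → ℝ), (∀ x, |g x| ≤ 1) →
      |modelAv q e k g - modelAv q e k (fun x => g (x + Pi.single i₀ w))| ≤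
        c / Real.sqrt (k + 1) := by
  obtain ⟨c, hc, h⟩ := good_diag (S.base i₀) (S.qv i₀).gap (S.gen i₀) w
  refine ⟨c * Real.sqrt (q i₀), by positivity, fun k g hg => ?_⟩
  refine le_trans ?_ (level_sqrt (S.base i₀) hc k)
  rw [modelAv_eq, modelAv_eq]
  have hup : Function.update (fun i => lg (q i) k) i₀ (lg (q i₀) k) = fun i => lg (q i) k :=
    Function.update_eq_self i₀ _
  rw [← hup]
  conv_lhs => rw [hup]
  conv_lhs =>
    arg 1
    arg 2
    rw [← hup]
  apply MA_close S.base
  intro x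
  -- the function of one coordinate
  set g' : (Fin (d i₀) → ℤ) → ℝ := fun z =>
    g (Function.update (fun i => e i (x i)) i₀ z) with hg'
  have e1 : ∀ n : ℕ, (fun i => e i (Function.update x i₀ n i)) =
      Function.update (fun i => e i (x i)) i₀ (e i₀ n) := by
    intro n
    funext i
    by_cases hi : i = i₀
    · subst hi
      simp
    · simp only [Function.update_of_ne hi]
  have e2 : ∀ n : ℕ, Function.update (fun i => e i (x i)) i₀ (e i₀ n) + Pi.single i₀ w =
      Function.update (fun i => e i (x i)) i₀ (e i₀ n + w) := by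
    intro n
    funext i
    by_cases hi : i = i₀
    · subst hi
      simp
    · simp only [Pi.add_apply, Function.update_of_ne hi, Pi.single_eq_of_ne hi, add_zero]
  have h1 := h 0 (lg (q i₀) k) 0 0 0 0 0 (by omega) (by omega) (by simp) (by simp)
    (fun x _ => g' x) (fun x _ => hg _)
  unfold Phi at h1
  simp only [pow_zero, one_mul, mul_zero, zero_add, add_zero] at h1
  simp only [e1, e2]
  exact h1

/-- linear bound for the cost of the shifts in a box -/
theorem vec_costP {N : (∀ i, Fin (d i) → ℤ) → ℝ → Prop}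
    (h0 : N 0 0) (hadd : ∀ v w c c', N v c → N w c' → N (v + w) (c + c'))
    (hmono : ∀ v c c', N v c → c ≤ c' → N v c')
    (hA : ∀ (i : ι) (a : Fin (d i)), ∃ c, 0 ≤ c ∧
      N (Pi.single i (Pi.single a 1 : Fin (d i) → ℤ)) c) :
    ∃ K : ℝ, 0 ≤ K ∧ ∀ (L : ℕ) (v : ∀ i, Fin (d i) → ℤ), (∀ i a, 0 ≤ v i a ∧ v i a ≤ (L : ℤ)) →
      N v (K * L) := by
  choose cA hcA0 hcA using hA
  have hnsmul : ∀ (w : ℕ) (v : ∀ i, Fin (d i) → ℤ) (c : ℝ), N v c → N (w • v) (w * c) := by
    intro w v c hv
    induction w with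
    | zero => simpa using h0
    | succ w ih =>
      rw [succ_nsmul]
      have := hadd _ _ _ _ ih hv
      push_cast
      rwa [add_mul, one_mul]
  have hsum1 : ∀ (i : ι) (s : Finset (Fin (d i))) (f : Fin (d i) → ∀ i, Fin (d i) → ℤ)
      (c : Fin (d i) → ℝ), (∀ a, N (f a) (c a)) → N (∑ a ∈ s, f a) (∑ a ∈ s, c a) := by
    intro i s f c hf
    induction s using Finset.induction_on with
    | empty => simpa using h0
    | insert a s ha ih =>
      rw [Finset.sum_insert ha, Finset.sum_insert ha]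
      exact hadd _ _ _ _ (hf a) ih
  have hsum2 : ∀ (s : Finset ι) (f : ι → ∀ i, Fin (d i) → ℤ)
      (c : ι → ℝ), (∀ a, N (f a) (c a)) → N (∑ a ∈ s, f a) (∑ a ∈ s, c a) := by
    intro s f c hf
    induction s using Finset.induction_on with
    | empty => simpa using h0
    | insert a s ha ih =>
      rw [Finset.sum_insert ha, Finset.sum_insert ha]
      exact hadd _ _ _ _ (hf a) ih
  have hcS : 0 ≤ ∑ i, ∑ a, cA i a :=
    Finset.sum_nonneg fun i _ => Finset.sum_nonneg fun a _ => hcA0 i a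
  refine ⟨∑ i, ∑ a, cA i a, hcS, ?_⟩
  intro L v hv'
  have hdec : v = ∑ i, ∑ a, (v i a).toNat • (Pi.single i (Pi.single a 1 : Fin (d i) → ℤ)) := by
    funext i b
    rw [Finset.sum_apply, Finset.sum_apply]
    rw [Finset.sum_eq_single i]
    · rw [Finset.sum_apply, Finset.sum_apply]
      rw [Finset.sum_eq_single b]
      · rw [Pi.smul_apply, Pi.smul_apply, Pi.single_eq_same, Pi.single_eq_same, nsmul_eq_mul,
          mul_one]
        exact (Int.toNat_of_nonneg (hv' i b).1).symm
      · intro a _ hab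
        rw [Pi.smul_apply, Pi.smul_apply, Pi.single_eq_same, Pi.single_eq_of_ne (Ne.symm hab),
          smul_zero]
      · intro h1
        exact absurd (Finset.mem_univ b) h1
    · intro j _ hji
      rw [Finset.sum_apply, Finset.sum_apply]
      apply Finset.sum_eq_zero
      intro a _
      rw [Pi.smul_apply, Pi.smul_apply, Pi.single_eq_of_ne (Ne.symm hji), Pi.zero_apply,
        smul_zero]
    · intro h1
      exact absurd (Finset.mem_univ i) h1
  have h1 : N v (∑ i, ∑ a, ((v i a).toNat : ℝ) * cA i a) := by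
    have h3 : ∀ i, N (∑ a, (v i a).toNat • (Pi.single i (Pi.single a 1 : Fin (d i) → ℤ)))
        (∑ a, ((v i a).toNat : ℝ) * cA i a) := by
      intro i
      apply hsum1 i
      intro a
      exact hnsmul _ _ _ (hcA i a)
    have h2 := hsum2 Finset.univ
      (fun i => ∑ a, (v i a).toNat • (Pi.single i (Pi.single a 1 : Fin (d i) → ℤ)))
      (fun i => ∑ a, ((v i a).toNat : ℝ) * cA i a) h3
    rw [← hdec] at h2
    exact h2
  refine hmono _ _ _ h1 ?_
  rw [Finset.sum_mul]
  refine Finset.sum_le_sum fun i _ => ?_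
  rw [Finset.sum_mul]
  refine Finset.sum_le_sum fun a _ => ?_
  rw [mul_comm]
  refine mul_le_mul_of_nonneg_left ?_ (hcA0 i a)
  have h3 : (((v i a).toNat : ℕ) : ℤ) ≤ (L : ℤ) := by
    rw [Int.toNat_of_nonneg (hv' i a).1]
    exact (hv' i a).2
  exact_mod_cast h3

/-- M27b: smoothing in the model -/
theorem model_smooth (S : Sys q m e C) :
    ∃ K : ℝ, 0 ≤ K ∧ ∀ k L : ℕ, 1 ≤ L → ∀ g : (∀ i, Fin (d i) → ℤ) → ℝ, (∀ x, |g x| ≤ 1) →
      |modelAv q e k g - modelAv q e k (smoP L g)| ≤ K * L / Real.sqrt (k + 1) := by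
  obtain ⟨K, hK, hKL⟩ := vec_costP (d := d) (N := fun v c => ∀ (k : ℕ)
    (g : (∀ i, Fin (d i) → ℤ) → ℝ), (∀ x, |g x| ≤ 1) →
      |modelAv q e k g - modelAv q e k (fun x => g (x + v))| ≤ c / Real.sqrt (k + 1))
    (fun k g _ => by simp)
    (fun v w c c' hv hw k g hg => by
      have h1 := hv k g hg
      have h2 := hw k (fun x => g (x + v)) (fun x => hg _)
      have e1 : (fun x => g (x + (v + w))) = fun x => (fun x => g (x + v)) (x + w) := by
        funext x
        dsimp only
        congr 1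
        abel
      rw [e1, add_div]
      exact (abs_sub_le _ _ _).trans (add_le_add h1 h2))
    (fun v c c' hv hcc k g hg =>
      (hv k g hg).trans (div_le_div_of_nonneg_right hcc (Real.sqrt_nonneg _)))
    (fun i a => model_shift_one S i (Pi.single a 1))
  refine ⟨K, hK, ?_⟩
  intro k L hL g hg
  -- shifts in the box
  have hbox : ∀ v ∈ box d L, |modelAv q e k g - modelAv q e k (fun x => g (x + v))| ≤
      K * L / Real.sqrt (k + 1) := by
    intro v hv
    unfold box at hv
    rw [Fintype.mem_piFinset] at hv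
    have hv' : ∀ i a, 0 ≤ v i a ∧ v i a ≤ L := by
      intro i a
      have h1 := hv i
      rw [Fintype.mem_piFinset] at h1
      have h2 := Finset.mem_Ico.mp (h1 a)
      exact ⟨h2.1, h2.2.le⟩
    exact hKL L v hv' k g hg
  -- the average over the box
  have hcard : 0 < (box d L).card := by
    apply Finset.card_pos.mpr
    refine ⟨0, ?_⟩
    unfold box
    rw [Fintype.mem_piFinset]
    intro i
    rw [Fintype.mem_piFinset]
    intro a
    rw [Finset.mem_Ico]
    exact ⟨le_rfl, by simp; omega⟩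
  have hcard' : (0 : ℝ) < (box d L).card := by exact_mod_cast hcard
  have havg : modelAv q e k (smoP L g) =
      (∑ v ∈ box d L, modelAv q e k (fun x => g (x + v))) / (box d L).card := by
    unfold modelAv smoP
    generalize Fintype.piFinset (fun i => Finset.range (q i ^ lg (q i) k)) = A
    generalize ∏ i, (q i : ℝ) ^ lg (q i) k = D
    generalize box d L = B
    rw [← Finset.sum_div, ← Finset.sum_div, Finset.sum_comm, div_right_comm]
  rw [havg]
  have e2 : modelAv q e k g - (∑ v ∈ box d L, modelAv q e k (fun x => g (x + v))) /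
      (box d L).card = (∑ v ∈ box d L, (modelAv q e k g - modelAv q e k (fun x => g (x + v)))) /
      (box d L).card := by
    rw [Finset.sum_sub_distrib, Finset.sum_const, nsmul_eq_mul, sub_div,
      mul_div_cancel_left₀ _ hcard'.ne']
  rw [e2, abs_div, abs_of_pos hcard', div_le_iff₀ hcard']
  refine (Finset.abs_sum_le_sum_abs _ _).trans ?_
  refine (Finset.sum_le_sum fun v hv => hbox v hv).trans (le_of_eq ?_)
  rw [Finset.sum_const, nsmul_eq_mul, mul_comm]

/-- the levels grow by at most one -/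
theorem lg_succ {q : ℕ} (hq : 2 ≤ q) (k : ℕ) : lg q (k + 1) = lg q k ∨ lg q (k + 1) = lg q k + 1 := by
  unfold lg
  have h1 : Nat.log q (2 ^ k) ≤ Nat.log q (2 ^ (k + 1)) :=
    Nat.log_mono_right (Nat.pow_le_pow_right (by norm_num) (Nat.le_succ k))
  have h2 : Nat.log q (2 ^ (k + 1)) < Nat.log q (2 ^ k) + 2 := by
    apply Nat.log_lt_of_lt_pow (by positivity)
    have h3 : 2 ^ k < q ^ (Nat.log q (2 ^ k) + 1) := Nat.lt_pow_succ_log_self (by omega) _
    calc 2 ^ (k + 1) = 2 ^ k * 2 := pow_succ _ _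
      _ < q ^ (Nat.log q (2 ^ k) + 1) * 2 := by omega
      _ ≤ q ^ (Nat.log q (2 ^ k) + 1) * q := Nat.mul_le_mul_left _ hq
      _ = q ^ (Nat.log q (2 ^ k) + 2) := by rw [← pow_succ]
  omega

theorem lg_tendsto {q : ℕ} (hq : 2 ≤ q) : Tendsto (fun k => lg q k) atTop atTop := by
  rw [tendsto_atTop]
  intro b
  filter_upwards [eventually_ge_atTop (q * (b + 1))] with k hk
  have h1 := level_le hq k
  by_contra h2
  have h3 : lg q k + 1 ≤ b := by omega
  have h4 : q * (lg q k + 1) ≤ q * b := Nat.mul_le_mul_left _ h3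
  nlinarith

/-- changing the level of one base -/
theorem model_level_one (S : Sys q m e C) (i₀ : ι) {l l' : ℕ} {ε : ℝ}
    (h : ∀ (g : (Fin (d i₀) → ℤ) → ℝ) (a : ℕ), (∀ x, |g x| ≤ 1) →
      |mean (q i₀) l' (e i₀) g a - mean (q i₀) l (e i₀) g a| ≤ ε) (lv : ι → ℕ)
    (hlv : lv i₀ = l) (a : ι → ℕ) (g : (∀ i, Fin (d i) → ℤ) → ℝ) (hg : ∀ x, |g x| ≤ 1) :
    |MA q lv (fun x => extP e (fun i => a i • e i 1) g (fun i => e i (x i))) -
      MA q (Function.update lv i₀ l')
        (fun x => extP e (fun i => a i • e i 1) g (fun i => e i (x i)))| ≤ ε := by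
  apply MA_close S.base
  intro x
  rw [hlv]
  set g' : (Fin (d i₀) → ℤ) → ℝ := fun z =>
    g (Function.update (fun i => e i (x i) + jmin (e i) (a i • e i 1) (e i (x i)) • e i 1) i₀ z)
    with hg'
  have e1 : ∀ n : ℕ, extP e (fun i => a i • e i 1) g
      (fun i => e i (Function.update x i₀ n i)) =
      ext (e i₀) (a i₀ • e i₀ 1) g' (e i₀ n) := by
    intro n
    unfold extP ext
    rw [hg']
    dsimp only
    congr 1
    funext i
    by_cases hi : i = i₀
    · subst hi
      simp
    · simp only [Function.update_of_ne hi]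
  simp only [e1]
  have h1 := h g' (a i₀) (fun x => hg _)
  rw [abs_sub_comm] at h1
  exact h1

/-- M28a: the canonical means vary slowly -/
theorem mmean_slow (S : Sys q m e C) {ε : ℝ} (hε : 0 < ε) :
    ∀ᶠ k : ℕ in atTop, ∀ (g : (∀ i, Fin (d i) → ℤ) → ℝ) (a : ι → ℕ), (∀ x, |g x| ≤ 1) →
      |mmean q e (k + 1) a g - mmean q e k a g| ≤ ε := by
  set ε' : ℝ := ε / (Fintype.card ι + 1) with hε'
  have hε'0 : 0 < ε' := by positivity
  have h1 : ∀ i, ∀ᶠ k : ℕ in atTop, ∀ (g : (Fin (d i) → ℤ) → ℝ) (a : ℕ), (∀ x, |g x| ≤ 1) →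
      |mean (q i) (lg (q i) k + 1) (e i) g a - mean (q i) (lg (q i) k) (e i) g a| ≤ ε' :=
    fun i => (lg_tendsto (S.base i)).eventually
      (mean_slow (S.base i) (S.qv i) (S.gen i) hε'0)
  filter_upwards [eventually_all.mpr h1] with k hk g a hg
  set G : (ι → ℕ) → ℝ := fun x => extP e (fun i => a i • e i 1) g (fun i => e i (x i)) with hG
  set lv : Finset ι → ι → ℕ := fun s i => if i ∈ s then lg (q i) (k + 1) else lg (q i) k with hlv
  have h2 : ∀ s : Finset ι, |MA q (lv ∅) G - MA q (lv s) G| ≤ s.card * ε' := by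
    intro s
    induction s using Finset.induction_on with
    | empty => simp
    | insert i₀ s hi ih =>
      have e1 : lv (insert i₀ s) = Function.update (lv s) i₀ (lg (q i₀) (k + 1)) := by
        funext i
        rw [hlv]
        dsimp only
        by_cases h : i = i₀
        · subst h
          simp
        · rw [Function.update_of_ne h]
          simp [h]
      have e2 : lv s i₀ = lg (q i₀) k := by
        rw [hlv]
        dsimp only
        rw [if_neg hi]
      have h3 : |MA q (lv s) G - MA q (lv (insert i₀ s)) G| ≤ ε' := by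
        rw [e1]
        apply model_level_one S i₀ _ (lv s) e2 a g hg
        intro g' a' hg'
        rcases lg_succ (S.base i₀) k with h4 | h4
        · rw [h4, sub_self, abs_zero]
          exact hε'0.le
        · rw [h4]
          exact hk i₀ g' a' hg'
      rw [Finset.card_insert_of_notMem hi]
      push_cast
      calc _ ≤ |MA q (lv ∅) G - MA q (lv s) G| + |MA q (lv s) G - MA q (lv (insert i₀ s)) G| :=
            abs_sub_le _ _ _
        _ ≤ s.card * ε' + ε' := add_le_add ih h3
        _ = _ := by ring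
  have h5 := h2 Finset.univ
  have e3 : mmean q e k a g = MA q (lv ∅) G := by
    unfold mmean
    rw [modelAv_eq]
    simp [hlv, hG]
  have e4 : mmean q e (k + 1) a g = MA q (lv Finset.univ) G := by
    unfold mmean
    rw [modelAv_eq]
    simp [hlv, hG]
  rw [e3, e4, abs_sub_comm]
  refine h5.trans ?_
  rw [Finset.card_univ, hε', mul_div_assoc', div_le_iff₀ (by positivity)]
  nlinarith

end several

end Pool.Agent.Lib.MP_3e612f_nt.MB
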