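import Pool.Agent.Lib.MP_3e612f_nt.MSlowA

/-!
Slowly varying functions of quasi-additive functions in several coprime bases.
-/

set_option autoImplicit false

namespace Pool.Agent.Lib.MP_3e612f_nt.MB

open Filter Topology
open Pool.Agent.Lib.MP_3e612f_nt.QA

section several

variable {ι : Type*} [Fintype ι] [DecidableEq ι] {d : ι → ℕ}

/-- uncurrying -/
def unc (x : ∀ i, Fin (d i) → ℤ) (j : Σ i, Fin (d i)) : ℤ := x j.1 j.2

/-- currying -/
def cur (x : (Σ i, Fin (d i)) → ℤ) (i : ι) (a : Fin (d i)) : ℤ := x ⟨i, a⟩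

omit [Fintype ι] [DecidableEq ι] in
theorem cur_unc (x : ∀ i, Fin (d i) → ℤ) : cur (unc x) = x := rfl

omit [Fintype ι] in
theorem cur_single (x : (Σ i, Fin (d i)) → ℤ) (j : Σ i, Fin (d i)) :
    cur (x + Pi.single j 1) = cur x + Pi.single j.1 (Pi.single j.2 1) := by
  obtain ⟨i₀, a₀⟩ := j
  funext i a
  simp only [cur, Pi.add_apply]
  congr 1
  by_cases hi : i = i₀
  · subst hi
    rw [Pi.single_eq_same]
    by_cases ha : a = a₀
    · subst ha
      rw [Pi.single_eq_same, Pi.single_eq_same]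
    · rw [Pi.single_eq_of_ne ha, Pi.single_eq_of_ne]
      intro h
      apply ha
      simpa using h
  · rw [Pi.single_eq_of_ne hi, Pi.single_eq_of_ne]
    · rfl
    · intro h
      apply hi
      exact congrArg Sigma.fst h

/-- trigonometric polynomials -/
noncomputable def TP (N M : ℕ) (a : ((Σ i, Fin (d i)) → Fin (2 * M + 1)) → ℂ)
    (x : (Σ i, Fin (d i)) → ℤ) : ℂ :=
  ∑ u, a u * Complex.exp (2 * Real.pi * Complex.I *
    ((∑ j, (((u j : ℕ) : ℤ) - M) * x j : ℤ) : ℂ) / N)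

theorem TP_eq (N M : ℕ) (a : ((Σ i, Fin (d i)) → Fin (2 * M + 1)) → ℂ)
    (e : ∀ i, ℕ → Fin (d i) → ℤ) (x : ι → ℕ) :
    TP N M a (unc fun i => e i (x i)) =
      ∑ u, a u * Complex.exp (Complex.I * ((∑ i, lin (wv N M u i) (e i) (x i) : ℝ) : ℂ)) := by
  unfold TP
  apply Finset.sum_congr rfl
  intro u _
  rw [ms_trig]
  rfl

/-- the properties of an approximation -/
structure Apx (N M : ℕ) (ctr : (Σ i, Fin (d i)) → ℤ) (ε : ℝ)
    (a : ((Σ i, Fin (d i)) → Fin (2 * M + 1)) → ℂ) (G : (∀ i, Fin (d i) → ℤ) → ℝ) : Prop where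
  coef : ∀ u, ‖a u‖ ≤ 1
  le : ∀ x, ‖TP N M a x‖ ≤ 1
  close : ∀ x : (Σ i, Fin (d i)) → ℤ, (∀ j, 8 * |x j - ctr j| ≤ (N : ℤ)) →
    ‖TP N M a x - (G (cur x) : ℂ)‖ ≤ ε

theorem apx_point {N M : ℕ} (hN : 16 ≤ N) {ctr : (Σ i, Fin (d i)) → ℤ}
    {μ : (Σ i, Fin (d i)) → ℝ} (hμ : ∀ j, |(ctr j : ℝ) - μ j| ≤ 1) {ε : ℝ} (hε : 0 ≤ ε)
    {a : ((Σ i, Fin (d i)) → Fin (2 * M + 1)) → ℂ} {G : (∀ i, Fin (d i) → ℤ) → ℝ}
    (hA : Apx N M ctr ε a G) (hG : ∀ x, |G x| ≤ 1) (x : ∀ i, Fin (d i) → ℤ) :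
    ‖TP N M a (unc x) - (G x : ℂ)‖ ≤
      ε + 512 / (N : ℝ) ^ 2 * ∑ j : Σ i, Fin (d i), ((x j.1 j.2 : ℝ) - μ j) ^ 2 :=
  ms_point hN hμ hε (hA.le _) (hG _) (fun h => hA.close (unc x) h)

/-- the approximation of the joint average -/
theorem ms_actual {N M : ℕ} (hN : 16 ≤ N) {ctr : (Σ i, Fin (d i)) → ℤ}
    {μ : (Σ i, Fin (d i)) → ℝ} (hμ : ∀ j, |(ctr j : ℝ) - μ j| ≤ 1) {ε : ℝ} (hε : 0 ≤ ε)
    {a a' : ((Σ i, Fin (d i)) → Fin (2 * M + 1)) → ℂ} {G G' : (∀ i, Fin (d i) → ℤ) → ℝ}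
    (hA : Apx N M ctr ε a G) (hG : ∀ x, |G x| ≤ 1) (hA' : Apx N M ctr ε a' G')
    (hG' : ∀ x, |G' x| ≤ 1) (k : ℕ) (X X' : ℕ → ∀ i, Fin (d i) → ℤ) {V V' : ℝ}
    (hV : ∀ j : Σ i, Fin (d i), av 2 k (fun n => ((X n j.1 j.2 : ℝ) - μ j) ^ 2) ≤ V)
    (hV' : ∀ j : Σ i, Fin (d i), av 2 k (fun n => ((X' n j.1 j.2 : ℝ) - μ j) ^ 2) ≤ V') :
    ‖avc 2 k (fun n => TP N M a (unc (X n)) * TP N M a' (unc (X' n))) -
      ((av 2 k (fun n => G (X n) * G' (X' n)) : ℝ) : ℂ)‖ ≤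
      2 * ε + 512 / (N : ℝ) ^ 2 * (Fintype.card (Σ i, Fin (d i)) * (V + V')) := by
  rw [← ms_avc_ofReal, ← ms_avc_sub]
  refine (ms_norm_avc_le _ _ _).trans ?_
  have h1 : ∀ n, ‖TP N M a (unc (X n)) * TP N M a' (unc (X' n)) -
      ((G (X n) * G' (X' n) : ℝ) : ℂ)‖ ≤
      2 * ε + 512 / (N : ℝ) ^ 2 * (∑ j : Σ i, Fin (d i), (((X n j.1 j.2 : ℝ) - μ j) ^ 2 +
        ((X' n j.1 j.2 : ℝ) - μ j) ^ 2)) := by
    intro n
    have h2 := apx_point hN hμ hε hA hG (X n)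
    have h3 := apx_point hN hμ hε hA' hG' (X' n)
    have h4 := ms_prod (T := TP N M a (unc (X n))) (G' := G' (X' n))
      (hA'.le (unc (X' n))) (hG (X n))
    rw [Finset.sum_add_distrib, mul_add]
    linarith
  refine (av_mono (fun n _ => h1 n)).trans ?_
  rw [av_add, av_const le_rfl, av_const_mul, av_finset_sum]
  have h5 : ∑ j : Σ i, Fin (d i), av 2 k (fun n => ((X n j.1 j.2 : ℝ) - μ j) ^ 2 +
        ((X' n j.1 j.2 : ℝ) - μ j) ^ 2) ≤ Fintype.card (Σ i, Fin (d i)) * (V + V') := by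
    calc _ ≤ ∑ _j : Σ i, Fin (d i), (V + V') := by
          apply Finset.sum_le_sum
          intro j _
          rw [av_add]
          exact add_le_add (hV j) (hV' j)
      _ = _ := by
          rw [Finset.sum_const, nsmul_eq_mul, Finset.card_univ]
  have h6 : 0 ≤ 512 / (N : ℝ) ^ 2 := by positivity
  have h7 := mul_le_mul_of_nonneg_left h5 h6
  linarith

/-- the approximation of the average in the model -/
theorem ms_model {N M : ℕ} (hN : 16 ≤ N) {ctr : (Σ i, Fin (d i)) → ℤ}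
    {μ : (Σ i, Fin (d i)) → ℝ} (hμ : ∀ j, |(ctr j : ℝ) - μ j| ≤ 1) {ε : ℝ} (hε : 0 ≤ ε)
    {a : ((Σ i, Fin (d i)) → Fin (2 * M + 1)) → ℂ} {G : (∀ i, Fin (d i) → ℤ) → ℝ}
    (hA : Apx N M ctr ε a G) (hG : ∀ x, |G x| ≤ 1) {t : ι → ℕ} (ht : ∀ i, 0 < t i)
    (e : ∀ i, ℕ → Fin (d i) → ℤ) {V : ℝ}
    (hV : ∀ j : Σ i, Fin (d i),
      (∑ n ∈ Finset.range (t j.1), ((e j.1 n j.2 : ℝ) - μ j) ^ 2) / (t j.1 : ℝ) ≤ V) :
    ‖mavc t (fun x => TP N M a (unc fun i => e i (x i))) -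
      ((mav t (fun x => G (fun i => e i (x i))) : ℝ) : ℂ)‖ ≤
      ε + 512 / (N : ℝ) ^ 2 * (Fintype.card (Σ i, Fin (d i)) * V) := by
  rw [← ms_mavc_ofReal, ← ms_mavc_sub]
  refine (ms_norm_mavc_le _ _).trans ?_
  refine (ms_mav_mono t (fun x => apx_point hN hμ hε hA hG (fun i => e i (x i)))).trans ?_
  rw [ms_mav_add, ms_mav_const t ht, ms_mav_const_mul, ms_mav_sum]
  have h5 : ∑ j : Σ i, Fin (d i), mav t (fun x => ((e j.1 (x j.1) j.2 : ℝ) - μ j) ^ 2) ≤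
      Fintype.card (Σ i, Fin (d i)) * V := by
    calc _ ≤ ∑ _j : Σ i, Fin (d i), V := by
          apply Finset.sum_le_sum
          intro j _
          rw [ms_mav_one t ht j.1 (fun n => ((e j.1 n j.2 : ℝ) - μ j) ^ 2)]
          exact hV j
      _ = _ := by
          rw [Finset.sum_const, nsmul_eq_mul, Finset.card_univ]
  have h6 : 0 ≤ 512 / (N : ℝ) ^ 2 := by positivity
  have h7 := mul_le_mul_of_nonneg_left h5 h6
  linarith

/-- the difference of the trigonometric averages -/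
theorem ms_trigdiff {N M : ℕ} {a a' : ((Σ i, Fin (d i)) → Fin (2 * M + 1)) → ℂ}
    (ha : ∀ u, ‖a u‖ ≤ 1) (ha' : ∀ u, ‖a' u‖ ≤ 1) (e : ∀ i, ℕ → Fin (d i) → ℤ) (k : ℕ)
    (x x' : ℕ → ι → ℕ) (t : ι → ℕ) {B : ((Σ i, Fin (d i)) → Fin (2 * M + 1)) →
      ((Σ i, Fin (d i)) → Fin (2 * M + 1)) → ℝ}
    (hB : ∀ u u', ‖avc 2 k (fun n => Complex.exp (Complex.I *
        ((∑ i, lin (wv N M u i) (e i) (x n i) + ∑ i, lin (wv N M u' i) (e i) (x' n i) : ℝ) : ℂ))) -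
      (∏ i, (∑ n ∈ Finset.range (t i), Complex.exp (Complex.I *
        (lin (wv N M u i) (e i) n : ℂ))) / (t i : ℂ)) *
      (∏ i, (∑ n ∈ Finset.range (t i), Complex.exp (Complex.I *
        (lin (wv N M u' i) (e i) n : ℂ))) / (t i : ℂ))‖ ≤ B u u') :
    ‖avc 2 k (fun n => TP N M a (unc fun i => e i (x n i)) *
        TP N M a' (unc fun i => e i (x' n i))) -
      mavc t (fun x => TP N M a (unc fun i => e i (x i))) *
        mavc t (fun x => TP N M a' (unc fun i => e i (x i)))‖ ≤ ∑ u, ∑ u', B u u' := by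
  have hm : ∀ b : ((Σ i, Fin (d i)) → Fin (2 * M + 1)) → ℂ,
      mavc t (fun x => TP N M b (unc fun i => e i (x i))) = ∑ u, b u *
        ∏ i, (∑ n ∈ Finset.range (t i), Complex.exp (Complex.I *
        (lin (wv N M u i) (e i) n : ℂ))) / (t i : ℂ) := by
    intro b
    have h1 : (fun x : ι → ℕ => TP N M b (unc fun i => e i (x i))) = fun x => ∑ u, b u *
        ∏ i, Complex.exp (Complex.I * (lin (wv N M u i) (e i) (x i) : ℂ)) := by
      funext x
      rw [TP_eq]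
      apply Finset.sum_congr rfl
      intro u _
      rw [← Complex.exp_sum]
      push_cast
      rw [Finset.mul_sum]
    rw [h1, ms_mavc_sum]
    apply Finset.sum_congr rfl
    intro u _
    rw [ms_mavc_const_mul, ms_mavc_prod t (fun i n => Complex.exp (Complex.I *
      (lin (wv N M u i) (e i) n : ℂ)))]
  have hleft : avc 2 k (fun n => TP N M a (unc fun i => e i (x n i)) *
        TP N M a' (unc fun i => e i (x' n i))) = ∑ u, ∑ u', a u * a' u' *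
        avc 2 k (fun n => Complex.exp (Complex.I *
        ((∑ i, lin (wv N M u i) (e i) (x n i) +
          ∑ i, lin (wv N M u' i) (e i) (x' n i) : ℝ) : ℂ))) := by
    have h1 : (fun n => TP N M a (unc fun i => e i (x n i)) *
        TP N M a' (unc fun i => e i (x' n i))) = fun n => ∑ u, ∑ u', a u * a' u' *
        Complex.exp (Complex.I * ((∑ i, lin (wv N M u i) (e i) (x n i) +
          ∑ i, lin (wv N M u' i) (e i) (x' n i) : ℝ) : ℂ)) := by
      funext n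
      rw [TP_eq, TP_eq, Finset.sum_mul_sum]
      apply Finset.sum_congr rfl
      intro u _
      apply Finset.sum_congr rfl
      intro u' _
      push_cast
      rw [mul_add, Complex.exp_add]
      ring
    rw [h1, ms_avc_sum]
    apply Finset.sum_congr rfl
    intro u _
    rw [ms_avc_sum]
    apply Finset.sum_congr rfl
    intro u' _
    rw [ms_avc_const_mul]
  rw [hm a, hm a', hleft, Finset.sum_mul_sum, ← Finset.sum_sub_distrib]
  refine (norm_sum_le _ _).trans (Finset.sum_le_sum fun u _ => ?_)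
  rw [← Finset.sum_sub_distrib]
  refine (norm_sum_le _ _).trans (Finset.sum_le_sum fun u' _ => ?_)
  have h2 : a u * a' u' * avc 2 k (fun n => Complex.exp (Complex.I *
        ((∑ i, lin (wv N M u i) (e i) (x n i) +
          ∑ i, lin (wv N M u' i) (e i) (x' n i) : ℝ) : ℂ))) -
      a u * (∏ i, (∑ n ∈ Finset.range (t i), Complex.exp (Complex.I *
        (lin (wv N M u i) (e i) n : ℂ))) / (t i : ℂ)) *
      (a' u' * (∏ i, (∑ n ∈ Finset.range (t i), Complex.exp (Complex.I *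
        (lin (wv N M u' i) (e i) n : ℂ))) / (t i : ℂ))) =
      a u * a' u' * (avc 2 k (fun n => Complex.exp (Complex.I *
        ((∑ i, lin (wv N M u i) (e i) (x n i) + ∑ i, lin (wv N M u' i) (e i) (x' n i) : ℝ) : ℂ))) -
      (∏ i, (∑ n ∈ Finset.range (t i), Complex.exp (Complex.I *
        (lin (wv N M u i) (e i) n : ℂ))) / (t i : ℂ)) *
      (∏ i, (∑ n ∈ Finset.range (t i), Complex.exp (Complex.I *
        (lin (wv N M u' i) (e i) n : ℂ))) / (t i : ℂ))) := by ring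
  rw [h2, norm_mul, norm_mul]
  have h3 := hB u u'
  have h4 : ‖a u‖ * ‖a' u'‖ ≤ 1 := by
    calc ‖a u‖ * ‖a' u'‖ ≤ 1 * 1 := mul_le_mul (ha u) (ha' u') (norm_nonneg _) zero_le_one
      _ = 1 := one_mul 1
  calc _ ≤ 1 * ‖avc 2 k (fun n => Complex.exp (Complex.I *
        ((∑ i, lin (wv N M u i) (e i) (x n i) + ∑ i, lin (wv N M u' i) (e i) (x' n i) : ℝ) : ℂ))) -
      (∏ i, (∑ n ∈ Finset.range (t i), Complex.exp (Complex.I *
        (lin (wv N M u i) (e i) n : ℂ))) / (t i : ℂ)) *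
      (∏ i, (∑ n ∈ Finset.range (t i), Complex.exp (Complex.I *
        (lin (wv N M u' i) (e i) n : ℂ))) / (t i : ℂ))‖ :=
        mul_le_mul_of_nonneg_right h4 (norm_nonneg _)
    _ ≤ B u u' := by rw [one_mul]; exact h3

end several

end Pool.Agent.Lib.MP_3e612f_nt.MB
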