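import Pool.Agent.Lib.MP_3e612f_nt.MChar
import Pool.Agent.Lib.MP_3e612f_nt.MFej
import Pool.Agent.Lib.MP_3e612f_nt.MGauss
import Pool.Agent.Lib.MP_3e612f_nt.MDoob
import Pool.Agent.Lib.MP_3e612f_nt.MSlowB

/-!
Slowly varying functions of quasi-additive functions in several coprime bases.
-/

set_option autoImplicit false

namespace Pool.Agent.Lib.MP_3e612f_nt.MB

open Filter Topology
open Pool.Agent.Lib.MP_3e612f_nt.QA

section several

variable {ι : Type*} [Fintype ι] [DecidableEq ι] {q : ι → ℕ} {m : ℕ} {d : ι → ℕ}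
  {e : ∀ i, ℕ → Fin (d i) → ℤ} {C : ℝ}

/-- a double sum of products plus a constant -/
theorem ms_dsum {U : Type*} [Fintype U] (G : U → ℝ) (a b : ℝ) :
    ∑ u, ∑ u', (a * (G u * G u') + b) =
      a * ((∑ u, G u) * (∑ u, G u)) + (Fintype.card U : ℝ) * ((Fintype.card U : ℝ) * b) := by
  have h1 : ∀ u : U, ∑ u', (a * (G u * G u') + b) =
      a * (G u * ∑ u', G u') + (Fintype.card U : ℝ) * b := by
    intro u
    rw [Finset.sum_add_distrib, ← Finset.mul_sum, ← Finset.mul_sum]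
    simp
  rw [Finset.sum_congr rfl fun u _ => h1 u, Finset.sum_add_distrib, ← Finset.mul_sum,
    ← Finset.sum_mul]
  simp

/-- the square of a sum of absolute values -/
theorem ms_cs {J : Type*} [Fintype J] (v v' : J → ℝ) :
    (∑ j, |v j| + ∑ j, |v' j|) ^ 2 ≤
      2 * Fintype.card J * (∑ j, v j ^ 2 + ∑ j, v' j ^ 2) := by
  have h1 : (∑ j, |v j|) ^ 2 ≤ Fintype.card J * ∑ j, v j ^ 2 := by
    have := sq_sum_le_card_mul_sum_sq (s := Finset.univ) (f := fun j => |v j|)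
    simpa [Finset.card_univ, sq_abs] using this
  have h2 : (∑ j, |v' j|) ^ 2 ≤ Fintype.card J * ∑ j, v' j ^ 2 := by
    have := sq_sum_le_card_mul_sum_sq (s := Finset.univ) (f := fun j => |v' j|)
    simpa [Finset.card_univ, sq_abs] using this
  nlinarith [sq_nonneg (∑ j, |v j| - ∑ j, |v' j|)]

/-- the bound for one pair of frequencies -/
theorem ms_freq {J : Type*} [Fintype J] {C₁ c₀ T η : ℝ} (hc₀ : 0 < c₀)
    (hT : 1 ≤ T) (hη : 0 < η) {k N : ℕ} (hk : 1 ≤ k) (hN1 : T * Real.sqrt (k + 1) ≤ N)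
    (hN2 : (N : ℝ) ≤ (T + 1) * Real.sqrt (k + 1)) (v v' : J → ℝ) {SC Sl : ℝ}
    (hSC0 : 0 ≤ SC)
    (hSC : SC ≤ C₁ * (2 * Real.pi / N) * (∑ j, |v j| + ∑ j, |v' j|))
    (hSl : c₀ * (2 * Real.pi / N) ^ 2 * (∑ j, v j ^ 2 + ∑ j, v' j ^ 2) ≤ Sl)
    (hη1 : η * (8 * Real.pi ^ 2 * C₁ ^ 2 * Fintype.card J) ≤
      c₀ * Real.pi ^ 2 / (2 * (T + 1) ^ 2) / 2) :
    (Real.exp (η * k * SC ^ 2) - 1) * Real.exp (-(k * Sl) / 4) ≤
      η * (8 * Real.pi ^ 2 * C₁ ^ 2 * Fintype.card J) *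
        (4 / (c₀ * Real.pi ^ 2 / (2 * (T + 1) ^ 2))) *
        (Real.exp (-(c₀ * Real.pi ^ 2 / (2 * (T + 1) ^ 2) / 4 * ∑ j, v j ^ 2)) *
          Real.exp (-(c₀ * Real.pi ^ 2 / (2 * (T + 1) ^ 2) / 4 * ∑ j, v' j ^ 2))) := by
  set X := ∑ j, v j ^ 2 + ∑ j, v' j ^ 2 with hX
  set κ := c₀ * Real.pi ^ 2 / (2 * (T + 1) ^ 2) with hκ
  set K₁ := 8 * Real.pi ^ 2 * C₁ ^ 2 * (Fintype.card J : ℝ) with hK₁
  have hπ := Real.pi_pos
  have hκ0 : 0 < κ := by positivity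
  have hX0 : 0 ≤ X := add_nonneg (Finset.sum_nonneg fun _ _ => sq_nonneg _)
    (Finset.sum_nonneg fun _ _ => sq_nonneg _)
  have hk' : (1 : ℝ) ≤ k := by exact_mod_cast hk
  have hsq : Real.sqrt ((k : ℝ) + 1) ^ 2 = k + 1 := Real.sq_sqrt (by positivity)
  have hs0 : 0 < Real.sqrt ((k : ℝ) + 1) := Real.sqrt_pos.2 (by positivity)
  have hN0 : (0 : ℝ) < N := lt_of_lt_of_le (by positivity) hN1
  have hNsq1 : (k : ℝ) ≤ (N : ℝ) ^ 2 := by
    have h1 : Real.sqrt ((k : ℝ) + 1) ≤ N := by nlinarith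
    have h2 := pow_le_pow_left₀ hs0.le h1 2
    rw [hsq] at h2
    linarith
  have hNsq2 : (N : ℝ) ^ 2 ≤ 2 * (T + 1) ^ 2 * k := by
    have h2 := pow_le_pow_left₀ hN0.le hN2 2
    rw [mul_pow, hsq] at h2
    nlinarith [sq_nonneg (T + 1)]
  have h1 : η * k * SC ^ 2 ≤ η * K₁ * X := by
    have h2 : SC ^ 2 ≤ (C₁ * (2 * Real.pi / N) * (∑ j, |v j| + ∑ j, |v' j|)) ^ 2 :=
      pow_le_pow_left₀ hSC0 hSC 2
    have h3 := ms_cs v v'
    have h4 : (C₁ * (2 * Real.pi / N) * (∑ j, |v j| + ∑ j, |v' j|)) ^ 2 ≤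
        C₁ ^ 2 * (2 * Real.pi / N) ^ 2 * (2 * Fintype.card J * X) := by
      rw [mul_pow, mul_pow]
      exact mul_le_mul_of_nonneg_left h3 (by positivity)
    have h5 : (k : ℝ) * (C₁ ^ 2 * (2 * Real.pi / N) ^ 2 * (2 * Fintype.card J * X)) =
        (k / (N : ℝ) ^ 2) * (K₁ * X) := by
      rw [hK₁]
      field_simp
      ring
    have h6 : (k : ℝ) / (N : ℝ) ^ 2 ≤ 1 := (div_le_one (by positivity)).2 hNsq1
    have hK₁0 : 0 ≤ K₁ := by positivity
    calc η * k * SC ^ 2 ≤ η * k * (C₁ ^ 2 * (2 * Real.pi / N) ^ 2 * (2 * Fintype.card J * X)) :=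
          mul_le_mul_of_nonneg_left (h2.trans h4) (by positivity)
      _ = η * ((k : ℝ) * (C₁ ^ 2 * (2 * Real.pi / N) ^ 2 * (2 * Fintype.card J * X))) := by ring
      _ = η * ((k / (N : ℝ) ^ 2) * (K₁ * X)) := by rw [h5]
      _ ≤ η * (1 * (K₁ * X)) := by
          apply mul_le_mul_of_nonneg_left _ hη.le
          exact mul_le_mul_of_nonneg_right h6 (by positivity)
      _ = η * K₁ * X := by ring
  have h2 : -(k * Sl) / 4 ≤ -(κ * X) := by
    have h3 : κ * X ≤ k * (c₀ * (2 * Real.pi / N) ^ 2 * X) / 4 := by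
      have h4 : (k : ℝ) * (c₀ * (2 * Real.pi / N) ^ 2 * X) / 4 =
          c₀ * Real.pi ^ 2 * X * (k / (N : ℝ) ^ 2) := by
        field_simp
        ring
      have h5 : 1 / (2 * (T + 1) ^ 2) ≤ (k : ℝ) / (N : ℝ) ^ 2 := by
        rw [div_le_div_iff₀ (by positivity) (by positivity)]
        linarith
      rw [h4]
      calc κ * X = c₀ * Real.pi ^ 2 * X * (1 / (2 * (T + 1) ^ 2)) := by
            rw [hκ]
            ring
        _ ≤ _ := mul_le_mul_of_nonneg_left h5 (by positivity)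
    have h6 : (k : ℝ) * (c₀ * (2 * Real.pi / N) ^ 2 * X) ≤ k * Sl :=
      mul_le_mul_of_nonneg_left hSl (by positivity)
    linarith
  have h3 : 0 ≤ Real.exp (η * K₁ * X) - 1 := by
    have : 0 ≤ η * K₁ * X := by positivity
    linarith [Real.one_le_exp this]
  have h4 := ms_exp hκ0 hX0 (s := η * K₁) (by positivity) hη1
  have h5 : Real.exp (-(κ / 4 * ∑ j, v j ^ 2)) * Real.exp (-(κ / 4 * ∑ j, v' j ^ 2)) =
      Real.exp (-(κ / 4 * X)) := by
    rw [← Real.exp_add]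
    congr 1
    rw [hX]
    ring
  rw [h5]
  calc (Real.exp (η * k * SC ^ 2) - 1) * Real.exp (-(k * Sl) / 4)
      ≤ (Real.exp (η * K₁ * X) - 1) * Real.exp (-(k * Sl) / 4) :=
        mul_le_mul_of_nonneg_right (by linarith [Real.exp_le_exp.2 h1]) (Real.exp_pos _).le
    _ ≤ (Real.exp (η * K₁ * X) - 1) * Real.exp (-(κ * X)) :=
        mul_le_mul_of_nonneg_left (Real.exp_le_exp.2 h2) h3
    _ ≤ _ := h4

theorem ms_abs_le {M : ℕ} (u : Fin (2 * M + 1)) : |((u : ℕ) : ℝ) - M| ≤ M := by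
  have h1 : ((u : ℕ) : ℝ) ≤ 2 * M := by
    have := u.2
    exact_mod_cast (by omega : (u : ℕ) ≤ 2 * M)
  rw [abs_le]
  constructor
  · have : (0 : ℝ) ≤ ((u : ℕ) : ℝ) := by positivity
    linarith
  · linarith

theorem ms_wv_abs {N M : ℕ} (u : (Σ i, Fin (d i)) → Fin (2 * M + 1)) :
    ∑ i, ∑ a, |wv N M u i a| = 2 * Real.pi / N * ∑ j, |((u j : ℕ) : ℝ) - M| := by
  rw [Fintype.sum_sigma, Finset.mul_sum]
  apply Finset.sum_congr rfl
  intro i _
  rw [Finset.mul_sum]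
  apply Finset.sum_congr rfl
  intro a _
  unfold wv
  rw [abs_div, abs_mul, abs_of_pos Real.two_pi_pos, Nat.abs_cast]
  ring

theorem ms_wv_sq {N M : ℕ} (u : (Σ i, Fin (d i)) → Fin (2 * M + 1)) (i : ι) :
    ∑ a, wv N M u i a ^ 2 = (2 * Real.pi / N) ^ 2 * ∑ a, (((u ⟨i, a⟩ : ℕ) : ℝ) - M) ^ 2 := by
  rw [Finset.mul_sum]
  apply Finset.sum_congr rfl
  intro a _
  unfold wv
  ring

/-- the error of one pair of frequencies, from `charfun` -/
theorem ms_pair (S : Sys q m e C) (hC : 0 ≤ C) {cv : ι → ℝ} (hcv : ∀ i, 0 < cv i) {W₀ : ℕ}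
    (hvar : ∀ i, ∀ W ≥ W₀, ∀ a : Fin (d i) → ℝ,
      cv i * W * ∑ j, a j ^ 2 ≤ cov (q i) W (lin a (e i)) (lin a (e i)))
    {c₀ : ℝ} (hc₀ : 0 < c₀) (hc₀' : ∀ i, c₀ ≤ cv i / q i)
    {T η : ℝ} (hT : 1 ≤ T) (hη : 0 < η)
    (hη1 : η * (8 * Real.pi ^ 2 * C ^ 2 * Fintype.card (Σ i, Fin (d i))) ≤
      c₀ * Real.pi ^ 2 / (2 * (T + 1) ^ 2) / 2)
    {P R : ι → ℕ} (hP : ∀ i, (P i).Coprime (q i)) (hR : ∀ i, (R i).Coprime (q i)) {K₀ : ℝ}
    (hK : ∀ i (F F' : ℕ → ℝ) (C₁ C₂ : ℝ), QR (q i) m F C₁ → QR (q i) m F' C₂ →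
        ∀ w : ℕ, |cov (q i) w (fun n => F (P i * n % q i ^ w)) (fun n => F' (R i * n % q i ^ w))| ≤
          (η * w + K₀) * C₁ * C₂) (h Y M : ℕ) {ε : ℝ} (hε : 0 < ε) :
    ∀ᶠ k : ℕ in atTop, ∀ N : ℕ, T * Real.sqrt (k + 1) ≤ N →
      (N : ℝ) ≤ (T + 1) * Real.sqrt (k + 1) → ∀ y ≤ Y, ∀ c z c' z' : ι → ℕ, Bd q h P c z →
      Bd q h R c' z' → ∀ u u' : (Σ i, Fin (d i)) → Fin (2 * M + 1),
      ‖avc 2 k (fun n => Complex.exp (Complex.I *
        ((∑ i, lin (wv N M u i) (e i) (sd (q i) h (P i) (c i) (z i) (2 ^ k * y + n)) +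
          ∑ i, lin (wv N M u' i) (e i) (sd (q i) h (R i) (c' i) (z' i) (2 ^ k * y + n)) : ℝ) :
            ℂ))) -
      (∏ i, (∑ n ∈ Finset.range (q i ^ lg (q i) k), Complex.exp (Complex.I *
        (lin (wv N M u i) (e i) n : ℂ))) / ((q i ^ lg (q i) k : ℕ) : ℂ)) *
      (∏ i, (∑ n ∈ Finset.range (q i ^ lg (q i) k), Complex.exp (Complex.I *
        (lin (wv N M u' i) (e i) n : ℂ))) / ((q i ^ lg (q i) k : ℕ) : ℂ))‖ ≤
      η * (8 * Real.pi ^ 2 * C ^ 2 * Fintype.card (Σ i, Fin (d i))) *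
        (4 / (c₀ * Real.pi ^ 2 / (2 * (T + 1) ^ 2))) *
        (Real.exp (-(c₀ * Real.pi ^ 2 / (2 * (T + 1) ^ 2) / 4 *
            ∑ j, (((u j : ℕ) : ℝ) - M) ^ 2)) *
          Real.exp (-(c₀ * Real.pi ^ 2 / (2 * (T + 1) ^ 2) / 4 *
            ∑ j, (((u' j : ℕ) : ℝ) - M) ^ 2))) + ε := by
  have hch := charfun (J := ι ⊕ ι) (q := Sum.elim q q) (by
      rintro (i | i)
      · exact S.base i
      · exact S.base i) (by
      have key : ∀ i j, q i = q j ∨ (q i).Coprime (q j) := by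
        intro i j
        by_cases hij : i = j
        · left
          rw [hij]
        · right
          exact S.cop i j hij
      rintro (i | i) (j | j) <;> exact key i j) (m := m) (P := Sum.elim P R) (by
      rintro (i | i)
      · exact hP i
      · exact hR i) h Y (η := η) (K₀ := K₀) hη W₀ (ε := ε)
        (D := C * (2 * Real.pi * M * Fintype.card (Σ i, Fin (d i))) / T) hε
  filter_upwards [hch, eventually_ge_atTop 1] with k hk hk1 N hN1 hN2 y hy c z c' z' hB hB' u u'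
  have hs0 : 0 < Real.sqrt ((k : ℝ) + 1) := Real.sqrt_pos.2 (by positivity)
  have hT0 : 0 < T := by linarith
  have hN0 : (0 : ℝ) < N := lt_of_lt_of_le (by positivity) hN1
  have hinj : ∀ i j, q i = q j → i = j := by
    intro i j hij
    by_contra hne
    have h1 := S.cop i j hne
    rw [hij, Nat.coprime_self] at h1
    have := S.base j
    omega
  -- the data
  set Cα : ι ⊕ ι → ℝ := Sum.elim (fun i => C * ∑ a, |wv N M u i a|)
    (fun i => C * ∑ a, |wv N M u' i a|) with hCα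
  set lα : ι ⊕ ι → ℝ := Sum.elim (fun i => cv i * ∑ a, wv N M u i a ^ 2)
    (fun i => cv i * ∑ a, wv N M u' i a ^ 2) with hlα
  have hCle : ∀ (w : (Σ i, Fin (d i)) → Fin (2 * M + 1)) (i : ι),
      C * ∑ a, |wv N M w i a| ≤
        C * (2 * Real.pi * M * Fintype.card (Σ i, Fin (d i))) / T / Real.sqrt (k + 1) := by
    intro w i
    have h1 : ∑ a, |wv N M w i a| ≤ ∑ i, ∑ a, |wv N M w i a| :=
      Finset.single_le_sum (f := fun i => ∑ a, |wv N M w i a|)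
        (fun _ _ => Finset.sum_nonneg fun _ _ => abs_nonneg _) (Finset.mem_univ i)
    rw [ms_wv_abs] at h1
    have h2 : ∑ j, |((w j : ℕ) : ℝ) - M| ≤ Fintype.card (Σ i, Fin (d i)) * M := by
      calc _ ≤ ∑ _j : Σ i, Fin (d i), (M : ℝ) := Finset.sum_le_sum fun j _ => ms_abs_le (w j)
        _ = _ := by rw [Finset.sum_const, nsmul_eq_mul, Finset.card_univ]
    have h3 : 2 * Real.pi / N * ∑ j, |((w j : ℕ) : ℝ) - M| ≤
        2 * Real.pi / (T * Real.sqrt (k + 1)) * (Fintype.card (Σ i, Fin (d i)) * M) := by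
      apply mul_le_mul _ h2 (Finset.sum_nonneg fun _ _ => abs_nonneg _)
        (by have := Real.pi_pos; positivity)
      exact div_le_div_of_nonneg_left (by have := Real.pi_pos; positivity) (by positivity) hN1
    calc C * ∑ a, |wv N M w i a| ≤
          C * (2 * Real.pi / (T * Real.sqrt (k + 1)) * (Fintype.card (Σ i, Fin (d i)) * M)) :=
          mul_le_mul_of_nonneg_left (h1.trans h3) hC
      _ = _ := by
          field_simp
  have hcard : ∑ α, Cα α = C * (2 * Real.pi / N) *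
      (∑ j, |((u j : ℕ) : ℝ) - M| + ∑ j, |((u' j : ℕ) : ℝ) - M|) := by
    rw [hCα, Fintype.sum_sum_type]
    simp only [Sum.elim_inl, Sum.elim_inr]
    rw [← Finset.mul_sum, ← Finset.mul_sum, ms_wv_abs, ms_wv_abs]
    ring
  have hlow : c₀ * (2 * Real.pi / N) ^ 2 *
      (∑ j, (((u j : ℕ) : ℝ) - M) ^ 2 + ∑ j, (((u' j : ℕ) : ℝ) - M) ^ 2) ≤
      ∑ α, lα α / ((Sum.elim q q α : ℕ) : ℝ) := by
    rw [hlα, Fintype.sum_sum_type]
    simp only [Sum.elim_inl, Sum.elim_inr]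
    have key : ∀ w : (Σ i, Fin (d i)) → Fin (2 * M + 1),
        c₀ * (2 * Real.pi / N) ^ 2 * ∑ j, (((w j : ℕ) : ℝ) - M) ^ 2 ≤
          ∑ i, cv i * (∑ a, wv N M w i a ^ 2) / (q i : ℝ) := by
      intro w
      rw [Fintype.sum_sigma, Finset.mul_sum]
      apply Finset.sum_le_sum
      intro i _
      rw [ms_wv_sq]
      have h1 : 0 ≤ (2 * Real.pi / N) ^ 2 * ∑ a, (((w ⟨i, a⟩ : ℕ) : ℝ) - M) ^ 2 :=
        mul_nonneg (sq_nonneg _) (Finset.sum_nonneg fun _ _ => sq_nonneg _)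
      have h2 := mul_le_mul_of_nonneg_right (hc₀' i) h1
      calc c₀ * (2 * Real.pi / N) ^ 2 * ∑ a, (((w ⟨i, a⟩ : ℕ) : ℝ) - M) ^ 2
          = c₀ * ((2 * Real.pi / N) ^ 2 * ∑ a, (((w ⟨i, a⟩ : ℕ) : ℝ) - M) ^ 2) := by ring
        _ ≤ _ := h2
        _ = _ := by ring
    have := key u
    have := key u'
    rw [mul_add]
    linarith
  have hmain := hk y hy (Sum.elim c c') (Sum.elim z z') ⟨by
      rintro (i | i)
      · exact hB.cle i
      · exact hB'.cle i, by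
      rintro (i | i)
      · exact hB.zlt i
      · exact hB'.zlt i⟩
    (Sum.elim (fun i => lin (wv N M u i) (e i)) (fun i => lin (wv N M u' i) (e i))) Cα lα (by
      rintro (i | i)
      · exact (S.qv i).lin _
      · exact (S.qv i).lin _) (by
      rintro (i | i)
      · exact hCle u i
      · exact hCle u' i) (by
      rintro (i | i)
      · exact mul_nonneg (hcv i).le (Finset.sum_nonneg fun _ _ => sq_nonneg _)
      · exact mul_nonneg (hcv i).le (Finset.sum_nonneg fun _ _ => sq_nonneg _)) (by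
      rintro (i | i) w hw
      · have := hvar i w hw (wv N M u i)
        simp only [hlα, Sum.elim_inl]
        linarith
      · have := hvar i w hw (wv N M u' i)
        simp only [hlα, Sum.elim_inr]
        linarith) (by
      rintro (i | i) (j | j) hne hqe w
      · exact absurd (congrArg Sum.inl (hinj i j hqe)) hne
      · obtain rfl := hinj i j hqe
        exact hK i _ _ _ _ ((S.qv i).lin _) ((S.qv i).lin _) w
      · obtain rfl := hinj i j hqe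
        have := hK i _ _ _ _ ((S.qv i).lin (wv N M u i)) ((S.qv i).lin (wv N M u' i)) w
        rw [cov_comm] at this
        simp only [Sum.elim_inl, Sum.elim_inr, hCα]
        linarith
      · exact absurd (congrArg Sum.inr (hinj i j hqe)) hne)
  have hfreq := ms_freq (J := Σ i, Fin (d i)) (C₁ := C) hc₀ hT hη hk1 hN1 hN2
    (fun j => ((u j : ℕ) : ℝ) - M) (fun j => ((u' j : ℕ) : ℝ) - M) (SC := ∑ α, Cα α)
    (Sl := ∑ α, lα α / ((Sum.elim q q α : ℕ) : ℝ)) (by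
      rw [hcard]
      have h1 : 0 ≤ ∑ j, |((u j : ℕ) : ℝ) - M| + ∑ j, |((u' j : ℕ) : ℝ) - M| :=
        add_nonneg (Finset.sum_nonneg fun _ _ => abs_nonneg _)
          (Finset.sum_nonneg fun _ _ => abs_nonneg _)
      have := Real.pi_pos
      positivity) hcard.le hlow hη1
  have hcong : ∀ (A A' B B' : ℂ) (x x' y : ℝ), A = A' → B = B' → ‖A - B‖ ≤ x + y → x ≤ x' →
      ‖A' - B'‖ ≤ x' + y := by
    intro A A' B B' x x' y hA hB h1 h2
    rw [← hA, ← hB]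
    linarith
  refine hcong _ _ _ _ _ _ _ ?_ ?_ hmain hfreq
  · congr 1
    funext n
    rw [Fintype.sum_sum_type]
    rfl
  · rw [Fintype.prod_sum_type]
    simp only [Sum.elim_inl, Sum.elim_inr, avc]
    push_cast
    rfl

theorem ms_mavc_le_one {t : ι → ℕ} (ht : ∀ i, 0 < t i) {g : (ι → ℕ) → ℂ} (hg : ∀ x, ‖g x‖ ≤ 1) :
    ‖mavc t g‖ ≤ 1 := by
  refine (ms_norm_mavc_le t g).trans ((ms_mav_mono t hg).trans ?_)
  rw [ms_mav_const t ht]

/-- M26: slowly varying functions -/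
theorem slow_pair (S : Sys q m e C) {ε : ℝ} (hε : 0 < ε) :
    ∃ η : ℝ, 0 < η ∧ ∀ P R : ι → ℕ, (∀ i, (P i).Coprime (q i)) → (∀ i, (R i).Coprime (q i)) →
      ∀ K₀ : ℝ, (∀ i (F F' : ℕ → ℝ) (C₁ C₂ : ℝ), QR (q i) m F C₁ → QR (q i) m F' C₂ →
        ∀ w : ℕ, |cov (q i) w (fun n => F (P i * n % q i ^ w)) (fun n => F' (R i * n % q i ^ w))| ≤
          (η * w + K₀) * C₁ * C₂) →
      ∀ (D : ℝ) (h Y : ℕ), ∀ᶠ k : ℕ in atTop, ∀ y ≤ Y, ∀ c z c' z' : ι → ℕ, Bd q h P c z →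
        Bd q h R c' z' → ∀ G G' : (∀ i, Fin (d i) → ℤ) → ℝ,
        SlowP (D / Real.sqrt (k + 1)) G → SlowP (D / Real.sqrt (k + 1)) G' →
          |av 2 k (fun n => G (EE q e h P c z (2 ^ k * y + n)) *
            G' (EE q e h R c' z' (2 ^ k * y + n))) - modelAv q e k G * modelAv q e k G'| ≤ ε := by
  have hC₁ : (0 : ℝ) < |C| + 1 := by positivity
  obtain ⟨C₁, hC₁def⟩ : ∃ C₁ : ℝ, C₁ = |C| + 1 := ⟨_, rfl⟩
  rw [← hC₁def] at hC₁
  have hS : Sys q m e C₁ := ⟨S.base, S.cop, fun i => ⟨hC₁.le, (S.qv i).gap, fun a s hs j => by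
    refine ((S.qv i).growth a s hs j).trans ?_
    apply mul_le_mul_of_nonneg_right _ (by positivity)
    rw [hC₁def]
    linarith [le_abs_self C]⟩, S.gen⟩
  have hπ := Real.pi_pos
  -- the variances
  have hvar := fun i => var_ge (S.base i) (hS.qv i) (S.gen i)
  choose cv hcv W₀ hW₀ using hvar
  have hqpos : ∀ i, (0 : ℝ) < q i := fun i => by
    have := S.base i
    exact_mod_cast (by omega : 0 < q i)
  obtain ⟨c₀, hc₀, hc₀'⟩ : ∃ c₀ : ℝ, 0 < c₀ ∧ ∀ i, c₀ ≤ cv i / q i := by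
    have hsum : 0 ≤ ∑ i, (q i : ℝ) / cv i :=
      Finset.sum_nonneg fun i _ => div_nonneg (hqpos i).le (hcv i).le
    refine ⟨1 / (1 + ∑ i, (q i : ℝ) / cv i), by positivity, fun i => ?_⟩
    have h1 : (q i : ℝ) / cv i ≤ 1 + ∑ i, (q i : ℝ) / cv i := by
      have := Finset.single_le_sum (f := fun i => (q i : ℝ) / cv i)
        (fun i _ => div_nonneg (hqpos i).le (hcv i).le) (Finset.mem_univ i)
      linarith
    have h2 : 0 < (q i : ℝ) / cv i := div_pos (hqpos i) (hcv i)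
    calc 1 / (1 + ∑ i, (q i : ℝ) / cv i) ≤ 1 / ((q i : ℝ) / cv i) :=
          one_div_le_one_div_of_le h2 h1
      _ = cv i / q i := by rw [one_div_div]
  have hWle : ∀ i, W₀ i ≤ ∑ i, W₀ i := fun i =>
    Finset.single_le_sum (f := W₀) (fun _ _ => Nat.zero_le _) (Finset.mem_univ i)
  -- the second moments
  have h2 := fun i => second_moment (q := q i) (m := m) (S.base i)
  choose K2 hK2 h2 using h2
  have h3 := fun i => model_second (q := q i) (m := m) (S.base i)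
  choose K3 hK3 h3 using h3
  obtain ⟨K, hK0, hK2le, hK3le⟩ : ∃ K : ℝ, 0 ≤ K ∧ (∀ i, K2 i ≤ K) ∧ ∀ i, K3 i ≤ K := by
    have hs2 : 0 ≤ ∑ i, K2 i := Finset.sum_nonneg fun i _ => hK2 i
    have hs3 : 0 ≤ ∑ i, K3 i := Finset.sum_nonneg fun i _ => hK3 i
    refine ⟨∑ i, K2 i + ∑ i, K3 i, by linarith, fun i => ?_, fun i => ?_⟩
    · have := Finset.single_le_sum (f := K2) (fun i _ => hK2 i) (Finset.mem_univ i)
      linarith
    · have := Finset.single_le_sum (f := K3) (fun i _ => hK3 i) (Finset.mem_univ i)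
      linarith
  obtain ⟨Dt, hDt⟩ : ∃ Dt : ℝ, Dt = (Fintype.card (Σ i, Fin (d i)) : ℝ) := ⟨_, rfl⟩
  have hDt0 : 0 ≤ Dt := by rw [hDt]; positivity
  obtain ⟨T, hTdef⟩ : ∃ T : ℝ, T = 1 + 16384 * Dt * K * C₁ ^ 2 / ε := ⟨_, rfl⟩
  have hT1 : 1 ≤ T := by
    rw [hTdef]
    have : 0 ≤ 16384 * Dt * K * C₁ ^ 2 / ε := by positivity
    linarith
  have hT2 : 2048 * Dt * K * C₁ ^ 2 / T ^ 2 ≤ ε / 8 := by
    rw [div_le_iff₀ (by positivity)]
    have h4 : 16384 * Dt * K * C₁ ^ 2 ≤ ε * T := by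
      rw [hTdef]
      have : ε * (1 + 16384 * Dt * K * C₁ ^ 2 / ε) = ε + 16384 * Dt * K * C₁ ^ 2 := by
        field_simp
      rw [this]
      linarith
    have h5 : ε * T ≤ ε * T ^ 2 := by
      apply mul_le_mul_of_nonneg_left _ hε.le
      nlinarith
    linarith
  obtain ⟨κ, hκdef⟩ : ∃ κ : ℝ, κ = c₀ * Real.pi ^ 2 / (2 * (T + 1) ^ 2) := ⟨_, rfl⟩
  have hκ0 : 0 < κ := by rw [hκdef]; positivity
  obtain ⟨A, hAdef⟩ : ∃ A : ℝ, A = 8 * Real.pi ^ 2 * C₁ ^ 2 *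
      (Fintype.card (Σ i, Fin (d i)) : ℝ) := ⟨_, rfl⟩
  have hA0 : 0 ≤ A := by rw [hAdef]; positivity
  obtain ⟨KG, hKG0, hKG⟩ := gauss_sum (J := Σ i, Fin (d i)) (c := κ / 4) (by positivity)
  obtain ⟨η, hη0, hη1, hη2⟩ : ∃ η : ℝ, 0 < η ∧ η * A ≤ κ / 2 ∧
      η * A * (4 / κ) * (KG * KG) ≤ ε / 4 := by
    refine ⟨min (κ / 2 / (A + 1)) (ε / 4 / ((A + 1) * (4 / κ) * (KG * KG + 1))), ?_, ?_, ?_⟩
    · apply lt_min <;> positivity
    · calc min (κ / 2 / (A + 1)) (ε / 4 / ((A + 1) * (4 / κ) * (KG * KG + 1))) * A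
          ≤ (κ / 2 / (A + 1)) * (A + 1) :=
            mul_le_mul (min_le_left _ _) (by linarith) hA0 (by positivity)
        _ = κ / 2 := by field_simp
    · calc min (κ / 2 / (A + 1)) (ε / 4 / ((A + 1) * (4 / κ) * (KG * KG + 1))) * A * (4 / κ) *
            (KG * KG)
          = min (κ / 2 / (A + 1)) (ε / 4 / ((A + 1) * (4 / κ) * (KG * KG + 1))) *
            (A * (4 / κ) * (KG * KG)) := by ring
        _ ≤ (ε / 4 / ((A + 1) * (4 / κ) * (KG * KG + 1))) * ((A + 1) * (4 / κ) * (KG * KG + 1)) := by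
            apply mul_le_mul (min_le_right _ _) _ (by positivity) (by positivity)
            have h5 : 0 < 4 / κ := by positivity
            have h6 : A * (4 / κ) ≤ (A + 1) * (4 / κ) :=
              mul_le_mul_of_nonneg_right (by linarith) h5.le
            exact mul_le_mul h6 (by linarith) (by positivity) (by positivity)
        _ = ε / 4 := by field_simp
  refine ⟨η, hη0, fun P R hP hR K₀ hcov D h Y => ?_⟩
  obtain ⟨M, N₀, hfej⟩ := fejer (J := Σ i, Fin (d i)) (ε := ε / 32) (D := |D| * (T + 1))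
    (by positivity)
  obtain ⟨Nu, hNu⟩ : ∃ Nu : ℝ, Nu = (Fintype.card ((Σ i, Fin (d i)) → Fin (2 * M + 1)) : ℝ) :=
    ⟨_, rfl⟩
  have hNu0 : 0 ≤ Nu := by rw [hNu]; positivity
  obtain ⟨ε₂, hε₂0, hε₂⟩ : ∃ ε₂ : ℝ, 0 < ε₂ ∧ Nu * (Nu * ε₂) ≤ ε / 4 := by
    refine ⟨ε / 4 / (Nu * Nu + 1), by positivity, ?_⟩
    calc Nu * (Nu * (ε / 4 / (Nu * Nu + 1))) = (ε / 4) * ((Nu * Nu) / (Nu * Nu + 1)) := by ring
      _ ≤ (ε / 4) * 1 := by
          apply mul_le_mul_of_nonneg_left _ (by positivity)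
          exact (div_le_one (by positivity)).2 (by linarith)
      _ = ε / 4 := mul_one _
  have hpair := ms_pair hS hC₁.le hcv (W₀ := ∑ i, W₀ i)
    (fun i W hW a => hW₀ i W ((hWle i).trans hW) a) hc₀ hc₀' hT1 hη0
    (by rw [← hκdef, ← hAdef]; exact hη1) hP hR hcov h Y M hε₂0
  rw [← hκdef, ← hAdef] at hpair
  have hP2 : ∀ᶠ k : ℕ in atTop, ∀ i, ∀ (F : ℕ → ℝ) (C : ℝ), QR (q i) m F C → ∀ y c z : ℕ,
      y ≤ Y → c ≤ P i → z < q i ^ h →
      av 2 k (fun n => (F (sd (q i) h (P i) c z (2 ^ k * y + n)) -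
        av (q i) (lg (q i) k) F) ^ 2) ≤ K2 i * C ^ 2 * (k + 1) :=
    eventually_all.2 fun i => h2 i (P i) (hP i) h Y
  have hR2 : ∀ᶠ k : ℕ in atTop, ∀ i, ∀ (F : ℕ → ℝ) (C : ℝ), QR (q i) m F C → ∀ y c z : ℕ,
      y ≤ Y → c ≤ R i → z < q i ^ h →
      av 2 k (fun n => (F (sd (q i) h (R i) c z (2 ^ k * y + n)) -
        av (q i) (lg (q i) k) F) ^ 2) ≤ K2 i * C ^ 2 * (k + 1) :=
    eventually_all.2 fun i => h2 i (R i) (hR i) h Y
  filter_upwards [hpair, hP2, hR2, eventually_ge_atTop ((max N₀ 16) ^ 2)] with k hk hkP hkR hk16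
    y hy c z c' z' hB hB' G G' hG hG'
  have hs0 : 0 < Real.sqrt ((k : ℝ) + 1) := Real.sqrt_pos.2 (by positivity)
  have hsq : Real.sqrt ((k : ℝ) + 1) ^ 2 = k + 1 := Real.sq_sqrt (by positivity)
  have hs16 : ((max N₀ 16 : ℕ) : ℝ) ≤ Real.sqrt ((k : ℝ) + 1) := by
    apply Real.le_sqrt_of_sq_le
    have : (((max N₀ 16) ^ 2 : ℕ) : ℝ) ≤ k := by exact_mod_cast hk16
    push_cast at this ⊢
    linarith
  have hs1 : 1 ≤ Real.sqrt ((k : ℝ) + 1) := by
    apply Real.le_sqrt_of_sq_le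
    have : (0 : ℝ) ≤ k := by positivity
    linarith
  obtain ⟨N, hN1, hN2⟩ : ∃ N : ℕ, T * Real.sqrt (k + 1) ≤ N ∧
      (N : ℝ) ≤ (T + 1) * Real.sqrt (k + 1) := by
    refine ⟨⌈T * Real.sqrt (k + 1)⌉₊, Nat.le_ceil _, ?_⟩
    have := Nat.ceil_lt_add_one (a := T * Real.sqrt ((k : ℝ) + 1)) (by positivity)
    linarith
  have hNs : Real.sqrt ((k : ℝ) + 1) ≤ N := by nlinarith
  have hNN₀ : N₀ ≤ N := by
    have : ((max N₀ 16 : ℕ) : ℝ) ≤ N := hs16.trans hNs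
    have h5 : max N₀ 16 ≤ N := by exact_mod_cast this
    exact (le_max_left _ _).trans h5
  have hN16 : 16 ≤ N := by
    have : ((max N₀ 16 : ℕ) : ℝ) ≤ N := hs16.trans hNs
    have h5 : max N₀ 16 ≤ N := by exact_mod_cast this
    exact (le_max_right _ _).trans h5
  have hN0 : (0 : ℝ) < N := lt_of_lt_of_le hs0 hNs
  -- the centre
  obtain ⟨μ, hμdef⟩ : ∃ μ : (Σ i, Fin (d i)) → ℝ, μ = fun j =>
      av (q j.1) (lg (q j.1) k) (fun n => ((e j.1 n j.2 : ℤ) : ℝ)) := ⟨_, rfl⟩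
  have hμ : ∀ j, |((round (μ j) : ℤ) : ℝ) - μ j| ≤ 1 := fun j => by
    rw [abs_sub_comm]
    exact (abs_sub_round _).trans (by norm_num)
  have hinc : ∀ G : (∀ i, Fin (d i) → ℤ) → ℝ, SlowP (D / Real.sqrt (k + 1)) G →
      ∀ (x : (Σ i, Fin (d i)) → ℤ) (j : Σ i, Fin (d i)),
        |G (cur (x + Pi.single j 1)) - G (cur x)| ≤ |D| * (T + 1) / N := by
    intro G hG x j
    rw [cur_single]
    refine (hG.2 (cur x) j.1 j.2).trans ?_
    calc D / Real.sqrt (k + 1) ≤ |D| / Real.sqrt (k + 1) :=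
          div_le_div_of_nonneg_right (le_abs_self D) hs0.le
      _ ≤ |D| * (T + 1) / N := by
          rw [div_le_div_iff₀ hs0 hN0]
          calc |D| * (N : ℝ) ≤ |D| * ((T + 1) * Real.sqrt (k + 1)) :=
                mul_le_mul_of_nonneg_left hN2 (abs_nonneg _)
            _ = |D| * (T + 1) * Real.sqrt (k + 1) := by ring
  have hapx : ∀ G : (∀ i, Fin (d i) → ℤ) → ℝ, SlowP (D / Real.sqrt (k + 1)) G →
      ∃ a : ((Σ i, Fin (d i)) → Fin (2 * M + 1)) → ℂ,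
        Apx N M (fun j => round (μ j)) (ε / 32) a G := by
    intro G hG
    obtain ⟨a, ha1, ha2, ha3⟩ := hfej N hNN₀ (fun j => round (μ j)) (fun x => G (cur x))
      (fun x => hG.1 _) (hinc G hG)
    exact ⟨a, ha1, ha2, ha3⟩
  obtain ⟨a, ha⟩ := hapx G hG
  obtain ⟨a', ha'⟩ := hapx G' hG'
  -- the second moments
  obtain ⟨V, hVdef⟩ : ∃ V : ℝ, V = K * C₁ ^ 2 * (k + 1) := ⟨_, rfl⟩
  have hVle : ∀ x ≤ K, x * C₁ ^ 2 * (k + 1) ≤ V := by
    intro x hx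
    rw [hVdef]
    gcongr
  have hVP : ∀ j : Σ i, Fin (d i),
      av 2 k (fun n => ((EE q e h P c z (2 ^ k * y + n) j.1 j.2 : ℝ) - μ j) ^ 2) ≤ V := by
    intro j
    refine le_trans ?_ (hVle _ (hK2le j.1))
    rw [hμdef]
    exact hkP j.1 _ _ ((hS.qv j.1).coord j.2) y (c j.1) (z j.1) hy (hB.cle j.1) (hB.zlt j.1)
  have hVR : ∀ j : Σ i, Fin (d i),
      av 2 k (fun n => ((EE q e h R c' z' (2 ^ k * y + n) j.1 j.2 : ℝ) - μ j) ^ 2) ≤ V := by
    intro j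
    refine le_trans ?_ (hVle _ (hK2le j.1))
    rw [hμdef]
    exact hkR j.1 _ _ ((hS.qv j.1).coord j.2) y (c' j.1) (z' j.1) hy (hB'.cle j.1) (hB'.zlt j.1)
  obtain ⟨t, htdef⟩ : ∃ t : ι → ℕ, t = fun i => q i ^ lg (q i) k := ⟨_, rfl⟩
  have ht : ∀ i, 0 < t i := fun i => by
    rw [htdef]
    exact qpow_pos (S.base i) _
  have hVM : ∀ j : Σ i, Fin (d i),
      (∑ n ∈ Finset.range (t j.1), ((e j.1 n j.2 : ℝ) - μ j) ^ 2) / (t j.1 : ℝ) ≤ V := by
    intro j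
    refine le_trans ?_ (hVle _ (hK3le j.1))
    have := h3 j.1 _ _ ((hS.qv j.1).coord j.2) k
    rw [hμdef, htdef]
    unfold av at this ⊢
    push_cast
    exact this
  have hmodel : ∀ G : (∀ i, Fin (d i) → ℤ) → ℝ,
      mav t (fun x => G (fun i => e i (x i))) = modelAv q e k G := by
    intro G
    unfold mav modelAv
    rw [htdef]
    push_cast
    rfl
  -- the three comparisons
  have hE1 := ms_actual hN16 hμ (by positivity) ha hG.1 ha' hG'.1 k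
    (fun n => EE q e h P c z (2 ^ k * y + n)) (fun n => EE q e h R c' z' (2 ^ k * y + n)) hVP hVR
  have hE2 := ms_model hN16 hμ (by positivity) ha hG.1 ht e hVM
  have hE2' := ms_model hN16 hμ (by positivity) ha' hG'.1 ht e hVM
  have hE3 := ms_trigdiff ha.coef ha'.coef e k
    (fun n i => sd (q i) h (P i) (c i) (z i) (2 ^ k * y + n))
    (fun n i => sd (q i) h (R i) (c' i) (z' i) (2 ^ k * y + n)) t
    (B := fun u u' => η * A * (4 / κ) *
        (Real.exp (-(κ / 4 * ∑ j, (((u j : ℕ) : ℝ) - M) ^ 2)) *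
          Real.exp (-(κ / 4 * ∑ j, (((u' j : ℕ) : ℝ) - M) ^ 2))) + ε₂) (by
      intro u u'
      rw [htdef]
      exact hk N hN1 hN2 y hy c z c' z' hB hB' u u')
  rw [hmodel] at hE2 hE2'
  rw [← hDt] at hE1 hE2 hE2'
  -- the sum of the errors
  have hsumB : ∑ u : (Σ i, Fin (d i)) → Fin (2 * M + 1), ∑ u' : (Σ i, Fin (d i)) → Fin (2 * M + 1),
      (η * A * (4 / κ) *
        (Real.exp (-(κ / 4 * ∑ j, (((u j : ℕ) : ℝ) - M) ^ 2)) *
          Real.exp (-(κ / 4 * ∑ j, (((u' j : ℕ) : ℝ) - M) ^ 2))) + ε₂) ≤ ε / 2 := by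
    have h5 : ∑ u : (Σ i, Fin (d i)) → Fin (2 * M + 1),
        ∑ u' : (Σ i, Fin (d i)) → Fin (2 * M + 1),
        (η * A * (4 / κ) *
          (Real.exp (-(κ / 4 * ∑ j, (((u j : ℕ) : ℝ) - M) ^ 2)) *
            Real.exp (-(κ / 4 * ∑ j, (((u' j : ℕ) : ℝ) - M) ^ 2))) + ε₂) =
        η * A * (4 / κ) * ((∑ u : (Σ i, Fin (d i)) → Fin (2 * M + 1),
          Real.exp (-(κ / 4 * ∑ j, (((u j : ℕ) : ℝ) - M) ^ 2))) *
          (∑ u : (Σ i, Fin (d i)) → Fin (2 * M + 1),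
          Real.exp (-(κ / 4 * ∑ j, (((u j : ℕ) : ℝ) - M) ^ 2)))) + Nu * (Nu * ε₂) := by
      rw [hNu]
      exact ms_dsum _ _ _
    rw [h5]
    have h6 := hKG M
    have h7 : 0 ≤ ∑ u : (Σ i, Fin (d i)) → Fin (2 * M + 1),
          Real.exp (-(κ / 4 * ∑ j, (((u j : ℕ) : ℝ) - M) ^ 2)) :=
      Finset.sum_nonneg fun _ _ => (Real.exp_pos _).le
    have h8 := mul_le_mul h6 h6 h7 hKG0
    have h9 : 0 ≤ η * A * (4 / κ) := by positivity
    have h10 := mul_le_mul_of_nonneg_left h8 h9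
    linarith
  have hE3' := hE3.trans hsumB
  -- the variance term
  have hvt : 512 / (N : ℝ) ^ 2 * (Dt * V) ≤ ε / 32 := by
    have h5 : T ^ 2 * (k + 1) ≤ (N : ℝ) ^ 2 := by
      have := pow_le_pow_left₀ (by positivity) hN1 2
      rw [mul_pow, hsq] at this
      exact this
    have h6 : 512 / (N : ℝ) ^ 2 * (Dt * V) ≤ 512 / (T ^ 2 * (k + 1)) * (Dt * V) := by
      apply mul_le_mul_of_nonneg_right _ (by rw [hVdef]; positivity)
      exact div_le_div_of_nonneg_left (by norm_num) (by positivity) h5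
    have h7 : 512 / (T ^ 2 * ((k : ℝ) + 1)) * (Dt * V) =
        2048 * Dt * K * C₁ ^ 2 / T ^ 2 / 4 := by
      rw [hVdef]
      have h8 : (0 : ℝ) < (k : ℝ) + 1 := by positivity
      field_simp
      ring
    rw [h7] at h6
    linarith
  -- conclusion
  have hprod := ms_prod (T := mavc t (fun x => TP N M a (unc fun i => e i (x i))))
    (T' := mavc t (fun x => TP N M a' (unc fun i => e i (x i)))) (G := modelAv q e k G)
    (G' := modelAv q e k G') (ms_mavc_le_one ht fun x => ha'.le _) (by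
      rw [← hmodel, ← Real.norm_eq_abs, ← Complex.norm_real, ← ms_mavc_ofReal]
      apply ms_mavc_le_one ht
      intro x
      rw [Complex.norm_real, Real.norm_eq_abs]
      exact hG.1 _)
  rw [← Real.norm_eq_abs, ← Complex.norm_real]
  have htri : ∀ z₁ z₂ z₃ z₄ : ℂ, ‖z₁ - z₄‖ ≤ ‖z₂ - z₁‖ + ‖z₂ - z₃‖ + ‖z₃ - z₄‖ := by
    intro z₁ z₂ z₃ z₄
    have h5 : z₁ - z₄ = -(z₂ - z₁) + (z₂ - z₃) + (z₃ - z₄) := by ring
    rw [h5]
    refine (norm_add_le _ _).trans (add_le_add_left ?_ _)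
    refine (norm_add_le _ _).trans ?_
    rw [norm_neg]
  rw [Complex.ofReal_sub]
  refine (htri _ (avc 2 k (fun n => TP N M a (unc (EE q e h P c z (2 ^ k * y + n))) *
    TP N M a' (unc (EE q e h R c' z' (2 ^ k * y + n)))))
    (mavc t (fun x => TP N M a (unc fun i => e i (x i))) *
      mavc t (fun x => TP N M a' (unc fun i => e i (x i)))) _).trans ?_
  have hE3'' : ‖avc 2 k (fun n => TP N M a (unc (EE q e h P c z (2 ^ k * y + n))) *
    TP N M a' (unc (EE q e h R c' z' (2 ^ k * y + n)))) -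
    mavc t (fun x => TP N M a (unc fun i => e i (x i))) *
      mavc t (fun x => TP N M a' (unc fun i => e i (x i)))‖ ≤ ε / 2 := hE3'
  have hvt2 : 512 / (N : ℝ) ^ 2 * (Dt * (V + V)) = 2 * (512 / (N : ℝ) ^ 2 * (Dt * V)) := by ring
  rw [hvt2] at hE1
  linarith

end several

end Pool.Agent.Lib.MP_3e612f_nt.MB
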