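import Pool.Agent.Lib.MP_3e612f_nt.QBase

/-!
Correlation of step functions along `p n` and `r n` modulo `q ^ k`.
-/

set_option autoImplicit false

namespace Pool.Agent.Lib.MP_3e612f_nt.QA

open Filter Topology

/-- the number of `a < r` for which `y0 + a z` falls into a given box -/
theorem q7_count {p r N L z y0 : ℕ} (hN : 0 < N) (hL : 0 < L) (hr : 0 < r) (hpr : p.Coprime r)
    (hz : r * z ≡ p [MOD N]) (hrp : r * p ≤ N) (k : ℕ) :
    (((Finset.range r).filter fun a => (y0 + a * z) % N / L = k).card : ℝ) ≤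
      (r : ℝ) * L / N + 2 := by
  classical
  set S := (Finset.range r).filter fun a => (y0 + a * z) % N / L = k with hS
  rcases S.eq_empty_or_nonempty with h0 | hne
  · rw [h0]
    simp
    positivity
  -- the integer `m a`
  have hdvd : ∀ a : ℕ, (N : ℤ) ∣ (r * (((y0 + a * z) % N : ℕ) : ℤ) - a * p - r * y0) := by
    intro a
    have h1 : (((y0 + a * z) % N : ℕ) : ℤ) ≡ (y0 + a * z : ℤ) [ZMOD N] := by
      push_cast
      exact Int.mod_modEq _ _
    have h2 : ((r : ℤ) * z) ≡ p [ZMOD N] := by
      have := (Int.natCast_modEq_iff).mpr hz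
      push_cast at this
      exact this
    have h3 : (r : ℤ) * (((y0 + a * z) % N : ℕ) : ℤ) ≡ r * y0 + a * p [ZMOD N] := by
      calc (r : ℤ) * (((y0 + a * z) % N : ℕ) : ℤ) ≡ r * (y0 + a * z) [ZMOD N] := h1.mul_left _
        _ = r * y0 + a * (r * z) := by ring
        _ ≡ r * y0 + a * p [ZMOD N] := (h2.mul_left _).add_left _
    have h4 := h3.symm.dvd
    convert h4 using 1
    ring
  choose m hm using hdvd
  have hinj : Set.InjOn m S := by
    intro a ha b hb hab
    simp only [hS, Finset.coe_filter, Finset.mem_range, Set.mem_ofPred_eq] at ha hb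
    have h1 := hm a
    have h2 := hm b
    rw [hab] at h1
    have h3 : (r : ℤ) * (((y0 + a * z) % N : ℕ) : ℤ) - r * (((y0 + b * z) % N : ℕ) : ℤ) =
        (a - b) * p := by linarith
    have h4 : (r : ℤ) ∣ ((a : ℤ) - b) * p := by
      refine ⟨(((y0 + a * z) % N : ℕ) : ℤ) - (((y0 + b * z) % N : ℕ) : ℤ), ?_⟩
      rw [← h3]
      ring
    have h5 : (r : ℤ) ∣ (a : ℤ) - b := by
      refine IsCoprime.dvd_of_dvd_mul_right ?_ h4
      exact (Nat.isCoprime_iff_coprime.mpr hpr).symm
    have h6 : (a : ℤ) ≡ b [ZMOD r] := (Int.modEq_iff_dvd.mpr (by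
      have := (dvd_neg.mpr h5)
      rwa [neg_sub] at this))
    have h7 : a ≡ b [MOD r] := (Int.natCast_modEq_iff).mp h6
    have h8 : a % r = b % r := h7
    rwa [Nat.mod_eq_of_lt ha.1, Nat.mod_eq_of_lt hb.1] at h8
  -- differences
  have hdiff : ∀ a ∈ S, ∀ b ∈ S, (N : ℤ) * (m a - m b) ≤ r * L + r * p := by
    intro a ha b hb
    simp only [hS, Finset.mem_filter, Finset.mem_range] at ha hb
    have h1 := hm a
    have h2 := hm b
    have h3 : (N : ℤ) * (m a - m b) = (r : ℤ) * ((((y0 + a * z) % N : ℕ) : ℤ) -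
        (((y0 + b * z) % N : ℕ) : ℤ)) + (b - a) * p := by linarith
    have h4 := Nat.div_add_mod ((y0 + a * z) % N) L
    have h5 := Nat.div_add_mod ((y0 + b * z) % N) L
    have h6 := Nat.mod_lt ((y0 + a * z) % N) hL
    have h7 : (y0 + a * z) % N ≤ (y0 + b * z) % N + L := by
      rw [ha.2] at h4
      rw [hb.2] at h5
      omega
    have h8 : (((y0 + a * z) % N : ℕ) : ℤ) - (((y0 + b * z) % N : ℕ) : ℤ) ≤ L := by
      have : (((y0 + a * z) % N : ℕ) : ℤ) ≤ (((y0 + b * z) % N : ℕ) : ℤ) + L := by
        exact_mod_cast h7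
      linarith
    have h9 : ((b : ℤ) - a) * p ≤ r * p := by
      have h10 : (b : ℤ) - a ≤ r := by
        have := hb.1
        omega
      exact mul_le_mul_of_nonneg_right h10 (by positivity)
    have h10 : (r : ℤ) * ((((y0 + a * z) % N : ℕ) : ℤ) - (((y0 + b * z) % N : ℕ) : ℤ)) ≤ r * L :=
      mul_le_mul_of_nonneg_left h8 (by positivity)
    rw [h3]
    linarith
  set D : ℕ := (r * L + r * p) / N with hD
  have hcard : S.card ≤ D + 1 := by
    rw [← Finset.card_image_of_injOn hinj]
    have hne' : (S.image m).Nonempty := hne.image m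
    set m0 := (S.image m).min' hne' with hm0
    have hm0mem : m0 ∈ S.image m := Finset.min'_mem _ _
    obtain ⟨b, hb, hbm⟩ := Finset.mem_image.mp hm0mem
    have hsub : S.image m ⊆ Finset.Icc m0 (m0 + D) := by
      intro x hx
      rw [Finset.mem_Icc]
      refine ⟨Finset.min'_le _ _ hx, ?_⟩
      obtain ⟨a, ha, rfl⟩ := Finset.mem_image.mp hx
      have h1 := hdiff a ha b hb
      rw [hbm] at h1
      have h2 : m a - m0 ≤ ((r * L + r * p : ℕ) : ℤ) / N := by
        rw [Int.le_ediv_iff_mul_le (by exact_mod_cast hN)]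
        push_cast
        linarith
      have h3 : (((r * L + r * p : ℕ) : ℤ) / N) = (D : ℤ) := by
        rw [hD]
        push_cast
        rfl
      rw [h3] at h2
      linarith
    refine (Finset.card_le_card hsub).trans ?_
    rw [Int.card_Icc]
    have : (m0 + D + 1 - m0).toNat = D + 1 := by
      have h : m0 + (D : ℤ) + 1 - m0 = ((D + 1 : ℕ) : ℤ) := by
        push_cast
        ring
      rw [h]
      exact Int.toNat_natCast _
    rw [this]
  have hNR : (0 : ℝ) < N := by exact_mod_cast hN
  have h1 : (D : ℝ) ≤ ((r * L + r * p : ℕ) : ℝ) / N := by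
    rw [hD]
    exact Nat.cast_div_le
  have h2 : ((r * L + r * p : ℕ) : ℝ) / N ≤ (r : ℝ) * L / N + 1 := by
    push_cast
    rw [add_div]
    have h3 : (r : ℝ) * p / N ≤ 1 := by
      rw [div_le_one hNR]
      exact_mod_cast hrp
    linarith
  have h3 : (S.card : ℝ) ≤ D + 1 := by exact_mod_cast hcard
  linarith

/-- the sum over the orbit is small -/
theorem q7_orbit {q p r z y0 i j : ℕ} (hq : 2 ≤ q) (hr : 0 < r) (hpr : p.Coprime r)
    (hz : r * z ≡ p [MOD q ^ (i + j)]) (hrp : r * p ≤ q ^ (i + j)) (u : ℕ → ℝ) {A : ℝ}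
    (hu : ∀ z, |u z| ≤ A) (hmean : ∑ z ∈ Finset.range (q ^ j), u z = 0) :
    |∑ a ∈ Finset.range r, u ((y0 + a * z) % q ^ (i + j) / q ^ i)| ≤ 2 * A * q ^ j := by
  classical
  have hN := qpow_pos hq (i + j)
  have hL := qpow_pos hq i
  have hLR := qpow_posR hq i
  have hJR := qpow_posR hq j
  have hmaps : ∀ a ∈ Finset.range r, (y0 + a * z) % q ^ (i + j) / q ^ i ∈
      Finset.range (q ^ j) := by
    intro a _
    rw [Finset.mem_range, Nat.div_lt_iff_lt_mul hL, ← pow_add, add_comm j i]
    exact Nat.mod_lt _ hN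
  set c : ℕ → ℝ := fun k =>
    (((Finset.range r).filter fun a => (y0 + a * z) % q ^ (i + j) / q ^ i = k).card : ℝ) with hc
  have h1 : ∑ a ∈ Finset.range r, u ((y0 + a * z) % q ^ (i + j) / q ^ i) =
      ∑ k ∈ Finset.range (q ^ j), c k * u k := by
    rw [← Finset.sum_fiberwise_of_maps_to hmaps]
    refine Finset.sum_congr rfl fun k _ => ?_
    rw [Finset.sum_congr rfl (g := fun _ => u k) (fun a ha => by
      rw [(Finset.mem_filter.mp ha).2])]
    rw [Finset.sum_const, nsmul_eq_mul]
  have h2 : ∑ k ∈ Finset.range (q ^ j), c k = r := by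
    have h3 := Finset.card_eq_sum_card_fiberwise (s := Finset.range r)
      (f := fun a => (y0 + a * z) % q ^ (i + j) / q ^ i) (t := Finset.range (q ^ j))
      (fun a ha => hmaps a ha)
    rw [Finset.card_range] at h3
    rw [hc]
    conv_rhs => rw [h3]
    push_cast
    rfl
  set M : ℝ := (r : ℝ) / q ^ j + 2 with hM
  have h3 : ∀ k, c k ≤ M := by
    intro k
    have h := q7_count (y0 := y0) hN hL hr hpr hz hrp k
    have e : (r : ℝ) * (q ^ i : ℕ) / (q ^ (i + j) : ℕ) = r / q ^ j := by
      push_cast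
      rw [pow_add]
      field_simp
    rw [e] at h
    exact h
  have h4 : ∑ k ∈ Finset.range (q ^ j), c k * u k =
      - ∑ k ∈ Finset.range (q ^ j), (M - c k) * u k := by
    rw [← Finset.sum_neg_distrib]
    have : ∀ k ∈ Finset.range (q ^ j), -((M - c k) * u k) = c k * u k - M * u k := by
      intro k _
      ring
    rw [Finset.sum_congr rfl this, Finset.sum_sub_distrib, ← Finset.mul_sum, hmean]
    ring
  rw [h1, h4, abs_neg]
  calc |∑ k ∈ Finset.range (q ^ j), (M - c k) * u k|
      ≤ ∑ k ∈ Finset.range (q ^ j), |(M - c k) * u k| := Finset.abs_sum_le_sum_abs _ _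
    _ ≤ ∑ k ∈ Finset.range (q ^ j), (M - c k) * A := by
        refine Finset.sum_le_sum fun k _ => ?_
        rw [abs_mul, abs_of_nonneg (sub_nonneg.mpr (h3 k))]
        exact mul_le_mul_of_nonneg_left (hu k) (sub_nonneg.mpr (h3 k))
    _ = (q ^ j * M - r) * A := by
        rw [← Finset.sum_mul, Finset.sum_sub_distrib, h2, Finset.sum_const, Finset.card_range,
          nsmul_eq_mul]
        push_cast
        ring
    _ = 2 * A * q ^ j := by
        rw [hM]
        field_simp
        ring

theorem q7_box {q i j : ℕ} (hq : 2 ≤ q) {a : ℕ} (ha : a ≤ q ^ i) :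
    av q (i + j) (fun x => if q ^ i - a ≤ x % q ^ i then (1 : ℝ) else 0) = a / q ^ i := by
  have hL := qpow_pos hq i
  rw [av_split]
  have h1 : ∀ s < q ^ i, cnd q j i (fun x => if q ^ i - a ≤ x % q ^ i then (1 : ℝ) else 0) s =
      if q ^ i - a ≤ s then (1 : ℝ) else 0 := by
    intro s hs
    unfold cnd
    simp only [Nat.mul_add_mod, Nat.mod_eq_of_lt hs]
    exact av_const hq j _
  rw [av_congr h1]
  unfold av
  rw [← Finset.sum_filter, Finset.sum_const, nsmul_eq_mul, mul_one]
  congr 2
  have h2 : (Finset.range (q ^ i)).filter (fun s => q ^ i - a ≤ s) =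
      Finset.Ico (q ^ i - a) (q ^ i) := by
    ext s
    simp only [Finset.mem_filter, Finset.mem_range, Finset.mem_Ico]
    tauto
  rw [h2, Nat.card_Ico]
  omega

/-- correlation of step functions along `p n` and `r n` -/
theorem torus {q p r : ℕ} (hq : 2 ≤ q) (hpr : p.Coprime r) (hr : r.Coprime q) (hp1 : 1 ≤ p)
    {j i : ℕ} (u v : ℕ → ℝ) {A B : ℝ} (hu : ∀ z, |u z| ≤ A) (hv : ∀ z, |v z| ≤ B)
    (hmean : ∑ z ∈ Finset.range (q ^ j), u z = 0) (hi : r * p ≤ q ^ i) :
    |av q (i + j) (fun n => u (p * n % q ^ (i + j) / q ^ i) * v (r * n % q ^ (i + j) / q ^ i))| ≤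
      A * B * (2 * q ^ (2 * j) / r + 2 * q ^ j * r / q ^ (i + j)) := by
  classical
  have hN := qpow_pos hq (i + j)
  have hL := qpow_pos hq i
  have hLR := qpow_posR hq i
  have hJR := qpow_posR hq j
  have hA : 0 ≤ A := (abs_nonneg _).trans (hu 0)
  have hB : 0 ≤ B := (abs_nonneg _).trans (hv 0)
  have hr0 : 0 < r := by
    rcases Nat.eq_zero_or_pos r with h | h
    · rw [h, Nat.coprime_zero_left] at hr
      omega
    · exact h
  have hrR : (0 : ℝ) < r := by exact_mod_cast hr0
  have hrL : r ≤ q ^ i := by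
    calc r = r * 1 := (mul_one r).symm
      _ ≤ r * p := Nat.mul_le_mul_left r hp1
      _ ≤ q ^ i := hi
  -- the inverse of `r`
  obtain ⟨h, hh⟩ : ∃ h, r * h ≡ 1 [MOD q ^ (i + j)] := by
    have hco : r.Coprime (q ^ (i + j)) := Nat.Coprime.pow_right _ hr
    have : NeZero (q ^ (i + j)) := ⟨hN.ne'⟩
    refine ⟨((r : ZMod (q ^ (i + j)))⁻¹).val, ?_⟩
    rw [← ZMod.natCast_eq_natCast_iff]
    push_cast
    rw [ZMod.natCast_zmod_val]
    exact ZMod.coe_mul_inv_eq_one r hco
  set N := q ^ (i + j) with hNdef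
  set z := p * h with hz
  have hrz : r * z ≡ p [MOD N] := by
    calc r * z = p * (r * h) := by rw [hz]; ring
      _ ≡ p * 1 [MOD N] := hh.mul_left _
      _ = p := mul_one p
  set F : ℕ → ℝ := fun n => u (p * n % N / q ^ i) * v (r * n % N / q ^ i) with hF
  -- the shifted functions
  have hshift : ∀ a : ℕ, av q (i + j) F =
      av q (i + j) (fun n => u ((p * n + a * z) % N / q ^ i) * v ((r * n + a) % N / q ^ i)) := by
    intro a
    have h1 := av_perm (P := 1) hq (Nat.coprime_one_left q) (a * h) (i + j) F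
    rw [← h1]
    refine av_congr fun n _ => ?_
    have e1 : p * ((1 * n + a * h) % N) % N = (p * n + a * z) % N := by
      have : p * ((1 * n + a * h) % N) ≡ p * n + a * z [MOD N] := by
        calc p * ((1 * n + a * h) % N) ≡ p * (1 * n + a * h) [MOD N] :=
              (Nat.mod_modEq _ _).mul_left _
          _ = p * n + a * z := by rw [hz]; ring
      exact this
    have e2 : r * ((1 * n + a * h) % N) % N = (r * n + a) % N := by
      have : r * ((1 * n + a * h) % N) ≡ r * n + a [MOD N] := by
        calc r * ((1 * n + a * h) % N) ≡ r * (1 * n + a * h) [MOD N] :=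
              (Nat.mod_modEq _ _).mul_left _
          _ = r * n + a * (r * h) := by ring
          _ ≡ r * n + a * 1 [MOD N] := (hh.mul_left _).add_left _
          _ = r * n + a := by rw [mul_one]
      exact this
    simp only [hF]
    rw [← hNdef, e1, e2]
  -- the error of dropping the shift in `v`
  set D : ℕ → ℕ → ℝ := fun a n => v ((r * n + a) % N / q ^ i) - v (r * n % N / q ^ i) with hD
  have hDle : ∀ a < r, av q (i + j) (fun n => |D a n|) ≤ 2 * B * (r / q ^ i) := by
    intro a ha
    have haL : a ≤ q ^ i := (le_of_lt ha).trans hrL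
    set ind : ℕ → ℝ := fun x => if q ^ i - a ≤ x % q ^ i then (1 : ℝ) else 0 with hind
    have h1 : ∀ n < q ^ (i + j), |D a n| ≤ 2 * B * ind ((r * n + 0) % N) := by
      intro n _
      have hx := Nat.mod_lt (r * n) hN
      rw [add_zero]
      set x := r * n % N with hxdef
      have e1 : (r * n + a) % N = (x + a) % N := by
        rw [hxdef, Nat.mod_add_mod]
      by_cases hc : q ^ i - a ≤ x % q ^ i
      · simp only [hind, if_pos hc, mul_one]
        calc |D a n| ≤ |v ((r * n + a) % N / q ^ i)| + |v (x / q ^ i)| := abs_sub _ _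
          _ ≤ B + B := add_le_add (hv _) (hv _)
          _ = 2 * B := by ring
      · simp only [hind, if_neg hc, mul_zero]
        have hc' : x % q ^ i + a < q ^ i := by omega
        have h2 : x + a = q ^ i * (x / q ^ i) + (x % q ^ i + a) := by
          have := Nat.div_add_mod x (q ^ i)
          omega
        have h3 : x / q ^ i < q ^ j := by
          rw [Nat.div_lt_iff_lt_mul hL, ← pow_add, add_comm j i]
          exact hx
        have h4 : x + a < N := by
          rw [h2, hNdef, pow_add]
          calc q ^ i * (x / q ^ i) + (x % q ^ i + a) < q ^ i * (x / q ^ i) + q ^ i := by omega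
            _ = q ^ i * (x / q ^ i + 1) := by ring
            _ ≤ q ^ i * q ^ j := Nat.mul_le_mul_left _ h3
        have h5 : (r * n + a) % N / q ^ i = x / q ^ i := by
          rw [e1, Nat.mod_eq_of_lt h4, h2, Nat.mul_add_div hL, Nat.div_eq_of_lt hc', add_zero]
        simp only [hD]
        rw [h5, sub_self, abs_zero]
    calc av q (i + j) (fun n => |D a n|) ≤ av q (i + j) (fun n => 2 * B * ind ((r * n + 0) % N)) :=
          av_mono h1
      _ = 2 * B * av q (i + j) ind := by
          rw [av_const_mul]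
          rw [hNdef]
          rw [av_perm hq hr 0 (i + j) ind]
      _ = 2 * B * (a / q ^ i) := by rw [hind, q7_box hq haL]
      _ ≤ 2 * B * (r / q ^ i) := by
          have : (a : ℝ) ≤ r := by exact_mod_cast ha.le
          gcongr
  -- summing up
  have hsum : (r : ℝ) * av q (i + j) F =
      av q (i + j) (fun n => v (r * n % N / q ^ i) *
        ∑ a ∈ Finset.range r, u ((p * n + a * z) % N / q ^ i)) +
      ∑ a ∈ Finset.range r, av q (i + j) (fun n => u ((p * n + a * z) % N / q ^ i) * D a n) := by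
    have e1 : (fun n => v (r * n % N / q ^ i) *
        ∑ a ∈ Finset.range r, u ((p * n + a * z) % N / q ^ i)) = fun n =>
        ∑ a ∈ Finset.range r, u ((p * n + a * z) % N / q ^ i) * v (r * n % N / q ^ i) := by
      funext n
      rw [Finset.mul_sum]
      exact Finset.sum_congr rfl fun a _ => mul_comm _ _
    rw [e1, av_finset_sum, ← Finset.sum_add_distrib]
    have e2 : ∀ a ∈ Finset.range r, av q (i + j) (fun n => u ((p * n + a * z) % N / q ^ i) *
        v (r * n % N / q ^ i)) + av q (i + j) (fun n => u ((p * n + a * z) % N / q ^ i) * D a n) =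
        av q (i + j) F := by
      intro a _
      rw [← av_add, hshift a]
      congr 1
      funext n
      simp only [hD]
      ring
    rw [Finset.sum_congr rfl e2, Finset.sum_const, Finset.card_range, nsmul_eq_mul]
  have hb1 : |av q (i + j) (fun n => v (r * n % N / q ^ i) *
      ∑ a ∈ Finset.range r, u ((p * n + a * z) % N / q ^ i))| ≤ B * (2 * A * q ^ j) := by
    refine abs_av_le hq fun n _ => ?_
    rw [abs_mul]
    refine mul_le_mul (hv _) ?_ (abs_nonneg _) hB
    refine q7_orbit hq hr0 hpr hrz ?_ u hu hmean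
    exact hi.trans (Nat.pow_le_pow_right (by omega) (Nat.le_add_right _ _))
  have hb2 : |∑ a ∈ Finset.range r, av q (i + j) (fun n => u ((p * n + a * z) % N / q ^ i) *
      D a n)| ≤ r * (A * (2 * B * (r / q ^ i))) := by
    calc |∑ a ∈ Finset.range r, av q (i + j) (fun n => u ((p * n + a * z) % N / q ^ i) * D a n)|
        ≤ ∑ a ∈ Finset.range r, |av q (i + j) (fun n => u ((p * n + a * z) % N / q ^ i) * D a n)| :=
          Finset.abs_sum_le_sum_abs _ _
      _ ≤ ∑ a ∈ Finset.range r, A * (2 * B * (r / q ^ i)) := by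
          refine Finset.sum_le_sum fun a ha => ?_
          have ha' := Finset.mem_range.mp ha
          calc |av q (i + j) (fun n => u ((p * n + a * z) % N / q ^ i) * D a n)|
              ≤ av q (i + j) (fun n => |u ((p * n + a * z) % N / q ^ i) * D a n|) := abs_av_le_av _ _ _
            _ ≤ av q (i + j) (fun n => A * |D a n|) := by
                refine av_mono fun n _ => ?_
                rw [abs_mul]
                exact mul_le_mul_of_nonneg_right (hu _) (abs_nonneg _)
            _ = A * av q (i + j) (fun n => |D a n|) := av_const_mul _ _ _ _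
            _ ≤ A * (2 * B * (r / q ^ i)) := mul_le_mul_of_nonneg_left (hDle a ha') hA
      _ = r * (A * (2 * B * (r / q ^ i))) := by
          rw [Finset.sum_const, Finset.card_range, nsmul_eq_mul]
  have hmain : (r : ℝ) * |av q (i + j) F| ≤ B * (2 * A * q ^ j) + r * (A * (2 * B * (r / q ^ i))) := by
    rw [← abs_of_nonneg hrR.le, ← abs_mul, abs_of_nonneg hrR.le, hsum]
    exact (abs_add_le _ _).trans (add_le_add hb1 hb2)
  have hJ1 : (1 : ℝ) ≤ (q : ℝ) ^ j := one_le_pow₀ (by
    have : 1 ≤ q := by omega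
    exact_mod_cast this)
  have hfin : |av q (i + j) F| ≤ A * B * (2 * q ^ j / r + 2 * (r / q ^ i)) := by
    have h1 : |av q (i + j) F| ≤ (B * (2 * A * q ^ j) + r * (A * (2 * B * (r / q ^ i)))) / r := by
      rw [le_div_iff₀ hrR]
      linarith
    refine h1.trans (le_of_eq ?_)
    field_simp
  refine hfin.trans ?_
  have hAB : 0 ≤ A * B := mul_nonneg hA hB
  refine mul_le_mul_of_nonneg_left ?_ hAB
  refine add_le_add ?_ (le_of_eq ?_)
  · rw [two_mul j, pow_add]
    have : 2 * (q : ℝ) ^ j ≤ 2 * (q ^ j * q ^ j) := by nlinarith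
    gcongr
  · rw [pow_add]
    field_simp

end Pool.Agent.Lib.MP_3e612f_nt.QA
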