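import Pool.Agent.Lib.MP_3e612f_nt.QCov
import Pool.Agent.Lib.MP_3e612f_nt.QTorus

/-!
Upper bound for the covariance of `F (p s n % q ^ W)` and `F' (r s n % q ^ W)`.
-/

set_option autoImplicit false

namespace Pool.Agent.Lib.MP_3e612f_nt.QA

open Filter Topology

/-! ### Basic facts -/

theorem q8_zero {q m : ℕ} {F : ℕ → ℝ} {C : ℝ} (h : QR q m F C) : F 0 = 0 := by
  have h1 := h.gap 0 0 0 (by simp)
  simp only [mul_zero, add_zero] at h1
  linarith

theorem q8_mulq {q m : ℕ} (hq : 2 ≤ q) {F : ℕ → ℝ} {C : ℝ} (h : QR q m F C) (k y : ℕ) :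
    F (q ^ k * y) = F y := by
  have h0 := q8_zero h
  have step : ∀ y, F (q * y) = F y := by
    intro y
    have h1 := h.gap 0 (q * y) 0 (by simp)
    have h2 := h.gap 1 y 0 (by positivity)
    rw [h0, add_zero, add_zero] at h1 h2
    have e : q ^ (0 + m) * (q * y) = q ^ (1 + m) * y := by
      rw [zero_add, pow_add, pow_one]
      ring
    rw [e, h2] at h1
    exact h1.symm
  induction k with
  | zero => simp
  | succ k ih =>
    have e : q ^ (k + 1) * y = q * (q ^ k * y) := by rw [pow_succ]; ring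
    rw [e, step, ih]

theorem q8_mono {q m : ℕ} (hq : 2 ≤ q) {F : ℕ → ℝ} {C : ℝ} (h : QR q m F C) :
    QR q (m + 1) F C := by
  refine ⟨h.nonneg, ?_, h.growth⟩
  intro a y s hs
  have e : q ^ (a + (m + 1)) * y = q ^ (a + m) * (q * y) := by
    rw [← add_assoc, pow_succ]
    ring
  have h1 : F (q * y) = F y := by
    have := q8_mulq hq h 1 y
    rwa [pow_one] at this
  rw [e, h.gap a _ s hs, h1]

/-- splitting off the lowest digits -/
theorem q8_low (q a l : ℕ) (u : ℕ → ℝ) :
    av q (a + l) u = av q a (fun w => av q l (fun y => u (q ^ a * y + w))) := av_split q a l u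

/-- average over a block with a distinguished value `0` -/
theorem q8_split0 {q m : ℕ} (hq : 2 ≤ q) (g : ℕ → ℝ) {X₀ X₁ : ℝ} (h0 : g 0 ≤ X₀)
    (h1 : ∀ w, w < q ^ m → w ≠ 0 → g w ≤ X₁) :
    av q m g ≤ X₀ / q ^ m + (1 - 1 / q ^ m) * X₁ := by
  have hpos := qpow_pos hq m
  have hposR := qpow_posR hq m
  unfold av
  obtain ⟨M, hM⟩ : ∃ M, q ^ m = M + 1 := ⟨q ^ m - 1, by omega⟩
  have hMR : (q : ℝ) ^ m = M + 1 := by exact_mod_cast hM
  rw [hM, Finset.sum_range_succ', hMR]
  have h2 : ∑ k ∈ Finset.range M, g (k + 1) ≤ M * X₁ := by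
    calc ∑ k ∈ Finset.range M, g (k + 1) ≤ ∑ k ∈ Finset.range M, X₁ := by
          refine Finset.sum_le_sum fun k hk => h1 _ ?_ (by omega)
          have := Finset.mem_range.mp hk
          omega
      _ = M * X₁ := by rw [Finset.sum_const, Finset.card_range, nsmul_eq_mul]
  have hM1 : (0 : ℝ) < M + 1 := by positivity
  calc (∑ k ∈ Finset.range M, g (k + 1) + g 0) / ((M : ℝ) + 1) ≤ (M * X₁ + X₀) / (M + 1) := by
        gcongr
    _ = X₀ / (M + 1) + (1 - 1 / (M + 1)) * X₁ := by
        field_simp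
        ring

/-! ### Differences with a common upper part -/

/-- the constant in the first moment bound -/
noncomputable def q8K (q m : ℕ) : ℝ := (2 * m + 2) * q ^ m

theorem q8K_ge {q m : ℕ} (hq : 2 ≤ q) : (2 * m + 2 : ℝ) ≤ q8K q m := by
  unfold q8K
  have h1 : (1 : ℝ) ≤ (q : ℝ) ^ m := one_le_pow₀ (by
    have : 1 ≤ q := by omega
    exact_mod_cast this)
  have h2 : (0 : ℝ) ≤ 2 * m + 2 := by positivity
  nlinarith

theorem q8_H {q m : ℕ} (hq : 2 ≤ q) (hm : 1 ≤ m) {F : ℕ → ℝ} {C : ℝ} (h : QR q m F C) :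
    ∀ l a b n₁ n₂ : ℕ, n₁ < q ^ a → n₂ < q ^ b →
      av q l (fun y => |F (q ^ a * y + n₁) - F (q ^ b * y + n₂)|) ≤ C * (a + b + q8K q m) := by
  have hC := h.nonneg
  have hK := q8K_ge (q := q) (m := m) hq
  have hposR := qpow_posR hq m
  intro l
  induction l using Nat.strong_induction_on with
  | _ l ih =>
    intro a b n₁ n₂ h₁ h₂
    rcases lt_or_ge l m with hlm | hlm
    · -- few digits
      refine av_le hq fun y hy => ?_
      have hy1 : q ^ a * y + n₁ < q ^ (a + l) := by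
        rw [pow_add]
        calc q ^ a * y + n₁ < q ^ a * y + q ^ a := by omega
          _ = q ^ a * (y + 1) := by ring
          _ ≤ q ^ a * q ^ l := Nat.mul_le_mul_left _ hy
      have hy2 : q ^ b * y + n₂ < q ^ (b + l) := by
        rw [pow_add]
        calc q ^ b * y + n₂ < q ^ b * y + q ^ b := by omega
          _ = q ^ b * (y + 1) := by ring
          _ ≤ q ^ b * q ^ l := Nat.mul_le_mul_left _ hy
      have g1 := h.growth _ _ hy1
      have g2 := h.growth _ _ hy2
      push_cast at g1 g2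
      have hl : (l : ℝ) ≤ m := by exact_mod_cast hlm.le
      calc |F (q ^ a * y + n₁) - F (q ^ b * y + n₂)|
          ≤ |F (q ^ a * y + n₁)| + |F (q ^ b * y + n₂)| := abs_sub _ _
        _ ≤ C * (a + l + 1) + C * (b + l + 1) := add_le_add g1 g2
        _ = C * (a + b + (2 * l + 2)) := by ring
        _ ≤ C * (a + b + q8K q m) := by
            refine mul_le_mul_of_nonneg_left ?_ hC
            linarith
    · obtain ⟨l', rfl⟩ : ∃ l', l = m + l' := ⟨l - m, by omega⟩
      rw [q8_low]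
      have hw0 : av q l' (fun y => |F (q ^ a * (q ^ m * y + 0) + n₁) -
          F (q ^ b * (q ^ m * y + 0) + n₂)|) ≤ C * (a + b + 2) := by
        refine av_le hq fun y hy => ?_
        have e1 : q ^ a * (q ^ m * y + 0) + n₁ = q ^ (a + m) * y + n₁ := by
          rw [add_zero, ← mul_assoc, ← pow_add]
        have e2 : q ^ b * (q ^ m * y + 0) + n₂ = q ^ (b + m) * y + n₂ := by
          rw [add_zero, ← mul_assoc, ← pow_add]
        rw [e1, e2, h.gap a y n₁ h₁, h.gap b y n₂ h₂]
        have e3 : F y + F n₁ - (F y + F n₂) = F n₁ - F n₂ := by ring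
        rw [e3]
        have g1 := h.growth _ _ h₁
        have g2 := h.growth _ _ h₂
        calc |F n₁ - F n₂| ≤ |F n₁| + |F n₂| := abs_sub _ _
          _ ≤ C * (a + 1) + C * (b + 1) := add_le_add g1 g2
          _ = C * (a + b + 2) := by ring
      have hw1 : ∀ w, w < q ^ m → w ≠ 0 → av q l' (fun y => |F (q ^ a * (q ^ m * y + w) + n₁) -
          F (q ^ b * (q ^ m * y + w) + n₂)|) ≤ C * ((a + m) + (b + m) + q8K q m) := by
        intro w hw _
        have e1 : ∀ y, q ^ a * (q ^ m * y + w) + n₁ = q ^ (a + m) * y + (q ^ a * w + n₁) := by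
          intro y
          rw [pow_add]
          ring
        have e2 : ∀ y, q ^ b * (q ^ m * y + w) + n₂ = q ^ (b + m) * y + (q ^ b * w + n₂) := by
          intro y
          rw [pow_add]
          ring
        simp only [e1, e2]
        have hlt1 : q ^ a * w + n₁ < q ^ (a + m) := by
          rw [pow_add]
          calc q ^ a * w + n₁ < q ^ a * w + q ^ a := by omega
            _ = q ^ a * (w + 1) := by ring
            _ ≤ q ^ a * q ^ m := Nat.mul_le_mul_left _ hw
        have hlt2 : q ^ b * w + n₂ < q ^ (b + m) := by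
          rw [pow_add]
          calc q ^ b * w + n₂ < q ^ b * w + q ^ b := by omega
            _ = q ^ b * (w + 1) := by ring
            _ ≤ q ^ b * q ^ m := Nat.mul_le_mul_left _ hw
        have := ih l' (by omega) (a + m) (b + m) _ _ hlt1 hlt2
        push_cast at this
        exact this
      refine (q8_split0 hq _ hw0 hw1).trans ?_
      have hdiv : 1 / (q : ℝ) ^ m ≤ 1 := by
        rw [div_le_one hposR]
        exact one_le_pow₀ (by
          have : 1 ≤ q := by omega
          exact_mod_cast this)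
      have e1 : C * (a + b + 2) / (q : ℝ) ^ m + (1 - 1 / (q : ℝ) ^ m) *
          (C * ((a + m) + (b + m) + q8K q m)) =
          C * ((a + b) + 2 / (q : ℝ) ^ m + (1 - 1 / (q : ℝ) ^ m) * (2 * m) +
            (q8K q m - q8K q m / (q : ℝ) ^ m)) := by
        field_simp
        ring
      rw [e1]
      refine mul_le_mul_of_nonneg_left ?_ hC
      have e2 : q8K q m / (q : ℝ) ^ m = 2 * m + 2 := by
        unfold q8K
        field_simp
      rw [e2]
      have h3 : 2 / (q : ℝ) ^ m ≤ 2 := by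
        have : 2 / (q : ℝ) ^ m = 2 * (1 / (q : ℝ) ^ m) := by ring
        rw [this]
        linarith
      have h4 : (1 - 1 / (q : ℝ) ^ m) * (2 * m) ≤ 2 * m := by
        have h5 : 0 ≤ 1 / (q : ℝ) ^ m := by positivity
        have h6 : (0 : ℝ) ≤ 2 * m := by positivity
        nlinarith
      linarith

/-- the difference of the conditional averages for two prefixes -/
noncomputable def q8dl (q l : ℕ) (F : ℕ → ℝ) (a c c' i s : ℕ) : ℝ :=
  cnd q l (a + i) F (q ^ i * c + s) - cnd q l (a + i) F (q ^ i * c' + s)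

theorem q8_prefix_lt {q a c i s : ℕ} (hc : c < q ^ a) (hs : s < q ^ i) :
    q ^ i * c + s < q ^ (a + i) := by
  rw [add_comm a i, pow_add]
  calc q ^ i * c + s < q ^ i * c + q ^ i := by omega
    _ = q ^ i * (c + 1) := by ring
    _ ≤ q ^ i * q ^ a := Nat.mul_le_mul_left _ hc

theorem q8_dl_le {q m : ℕ} (hq : 2 ≤ q) (hm : 1 ≤ m) {F : ℕ → ℝ} {C : ℝ} (h : QR q m F C)
    (l : ℕ) {a c c' i s : ℕ} (hc : c < q ^ a) (hc' : c' < q ^ a) (hs : s < q ^ i) :
    |q8dl q l F a c c' i s| ≤ C * (2 * (a + i) + q8K q m) := by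
  have h1 := q8_H hq hm h l (a + i) (a + i) _ _ (q8_prefix_lt hc hs) (q8_prefix_lt hc' hs)
  unfold q8dl cnd
  rw [← av_sub]
  refine (abs_av_le_av _ _ _).trans (h1.trans (le_of_eq ?_))
  push_cast
  ring

/-- locality -/
theorem q8_local {q m : ℕ} (hq : 2 ≤ q) {F : ℕ → ℝ} {C : ℝ} (h : QR q m F C) (l a j c s : ℕ)
    (hs : s < q ^ j) : cnd q l (a + (m + j)) F (q ^ (m + j) * c + s) = cnd q l a F c + F s := by
  unfold cnd
  have e : ∀ y, F (q ^ (a + (m + j)) * y + (q ^ (m + j) * c + s)) = F (q ^ a * y + c) + F s := by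
    intro y
    have e1 : q ^ (a + (m + j)) * y + (q ^ (m + j) * c + s) = q ^ (j + m) * (q ^ a * y + c) + s := by
      rw [pow_add q a, add_comm m j]
      ring
    rw [e1, h.gap j _ s hs]
  simp only [e]
  rw [av_add, av_const hq]

theorem q8_dl_local {q m : ℕ} (hq : 2 ≤ q) {F : ℕ → ℝ} {C : ℝ} (h : QR q m F C)
    (l a j c c' s : ℕ) (hs : s < q ^ j) :
    q8dl q l F a c c' (m + j) s = cnd q l a F c - cnd q l a F c' := by
  unfold q8dl
  rw [q8_local hq h l a j c s hs, q8_local hq h l a j c' s hs]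
  ring

/-- moving the top block of the suffix to the prefix -/
theorem q8_dl_move (q l : ℕ) (F : ℕ → ℝ) (a c c' m i w s : ℕ) :
    q8dl q l F a c c' (m + i) (q ^ i * w + s) =
      q8dl q l F (a + m) (q ^ m * c + w) (q ^ m * c' + w) i s := by
  unfold q8dl
  have e : ∀ c, q ^ (m + i) * c + (q ^ i * w + s) = q ^ i * (q ^ m * c + w) + s := by
    intro c
    rw [pow_add]
    ring
  rw [e, e, add_assoc]

/-- the top `T` blocks of `z < q ^ (m T + k)` are nonzero -/
def q8nz (q m k : ℕ) : ℕ → ℕ → Prop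
  | 0, _ => True
  | T + 1, z => z / q ^ (m * T + k) % q ^ m ≠ 0 ∧ q8nz q m k T (z % q ^ (m * T + k))

theorem q8nz_shift {q m : ℕ} (hq : 2 ≤ q) (k : ℕ) : ∀ (T z s : ℕ), s < q ^ k →
    (q8nz q m k T (q ^ k * z + s) ↔ q8nz q m 0 T z) := by
  intro T
  induction T with
  | zero => intro z s _; simp [q8nz]
  | succ T ih =>
    intro z s hs
    have hk := qpow_pos hq k
    simp only [q8nz]
    have e1 : (q ^ k * z + s) / q ^ (m * T + k) = z / q ^ (m * T + 0) := by
      rw [add_zero, add_comm (m * T) k, pow_add, ← Nat.div_div_eq_div_mul, Nat.mul_add_div hk,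
        Nat.div_eq_of_lt hs, add_zero]
    have e2 : (q ^ k * z + s) % q ^ (m * T + k) = q ^ k * (z % q ^ (m * T + 0)) + s := by
      rw [add_zero, add_comm (m * T) k, pow_add, Nat.mod_mul, Nat.mul_add_mod,
        Nat.mod_eq_of_lt hs, Nat.mul_add_div hk, Nat.div_eq_of_lt hs, add_zero]
      ring
    rw [e1, e2, ih _ _ hs]

/-! ### Second moments -/

/-- the constant in the second moment bound -/
noncomputable def q8L (q m : ℕ) : ℝ := 6 * (m + 1) * q ^ m

theorem q8L_facts {q m : ℕ} (hq : 2 ≤ q) : (0 : ℝ) ≤ q8L q m ∧ q8K q m + 2 * m ≤ 2 * q8L q m ∧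
    (m : ℝ) ≤ q8L q m ∧ 6 * m ≤ (1 / (q : ℝ) ^ m) * q8L q m := by
  have hposR := qpow_posR hq m
  have h1 : (1 : ℝ) ≤ (q : ℝ) ^ m := one_le_pow₀ (by
    have : 1 ≤ q := by omega
    exact_mod_cast this)
  have hm0 : (0 : ℝ) ≤ m := by positivity
  have h2 : (m : ℝ) * 1 ≤ m * q ^ m := mul_le_mul_of_nonneg_left h1 hm0
  refine ⟨by unfold q8L; positivity, ?_, ?_, ?_⟩
  · unfold q8K q8L
    nlinarith
  · unfold q8L
    nlinarith
  · unfold q8L
    have e : (1 / (q : ℝ) ^ m) * (6 * (m + 1) * q ^ m) = 6 * (m + 1) := by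
      field_simp
    rw [e]
    linarith

/-- splitting off the top `m` digits -/
theorem q8_top (q m i : ℕ) (u : ℕ → ℝ) :
    av q (m + i) u = av q m (fun w => av q i (fun s => u (q ^ i * w + s))) := by
  rw [add_comm m i, av_split]
  unfold cnd
  rw [av_swap]

theorem q8_second {q m : ℕ} (hq : 2 ≤ q) (hm : 1 ≤ m) {F : ℕ → ℝ} {C : ℝ} (h : QR q m F C)
    (l : ℕ) : ∀ i a c c' : ℕ, c < q ^ a → c' < q ^ a →
      av q i (fun s => q8dl q l F a c c' i s ^ 2) ≤ 8 * C ^ 2 * (a + q8L q m) ^ 2 := by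
  obtain ⟨hL0, hL1, hL2, hL3⟩ := q8L_facts (q := q) (m := m) hq
  have hC := h.nonneg
  have hposR := qpow_posR hq m
  have hK0 : 0 ≤ q8K q m := by unfold q8K; positivity
  have small : ∀ i a c c' s : ℕ, i ≤ m → c < q ^ a → c' < q ^ a → s < q ^ i →
      q8dl q l F a c c' i s ^ 2 ≤ 4 * C ^ 2 * (a + q8L q m) ^ 2 := by
    intro i a c c' s hi hc hc' hs
    have h1 := q8_dl_le hq hm h l hc hc' hs
    have hi' : (i : ℝ) ≤ m := by exact_mod_cast hi
    have h2 : |q8dl q l F a c c' i s| ≤ C * (2 * (a + q8L q m)) := by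
      refine h1.trans (mul_le_mul_of_nonneg_left ?_ hC)
      linarith
    calc q8dl q l F a c c' i s ^ 2 = |q8dl q l F a c c' i s| ^ 2 := (sq_abs _).symm
      _ ≤ (C * (2 * (a + q8L q m))) ^ 2 := pow_le_pow_left₀ (abs_nonneg _) h2 2
      _ = 4 * C ^ 2 * (a + q8L q m) ^ 2 := by ring
  intro i
  induction i using Nat.strong_induction_on with
  | _ i ih =>
    intro a c c' hc hc'
    rcases lt_or_ge i m with him | him
    · refine av_le hq fun s hs => (small i a c c' s him.le hc hc' hs).trans ?_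
      have : 0 ≤ C ^ 2 * (a + q8L q m) ^ 2 := by positivity
      linarith
    · obtain ⟨i', rfl⟩ : ∃ i', i = m + i' := ⟨i - m, by omega⟩
      rw [q8_top]
      have hw0 : av q i' (fun s => q8dl q l F a c c' (m + i') (q ^ i' * 0 + s) ^ 2) ≤
          4 * C ^ 2 * (a + q8L q m) ^ 2 := by
        refine av_le hq fun s hs => ?_
        rw [mul_zero, zero_add, q8_dl_local hq h l a i' c c' s hs]
        have h1 := small 0 a c c' 0 (Nat.zero_le _) hc hc' (by simp)
        unfold q8dl at h1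
        simpa using h1
      have hw1 : ∀ w, w < q ^ m → w ≠ 0 →
          av q i' (fun s => q8dl q l F a c c' (m + i') (q ^ i' * w + s) ^ 2) ≤
          8 * C ^ 2 * ((a + m) + q8L q m) ^ 2 := by
        intro w hw _
        simp only [q8_dl_move]
        have h1 : q ^ m * c + w < q ^ (a + m) := q8_prefix_lt hc hw
        have h2 : q ^ m * c' + w < q ^ (a + m) := q8_prefix_lt hc' hw
        have := ih i' (by omega) (a + m) _ _ h1 h2
        push_cast at this
        exact this
      refine (q8_split0 hq _ hw0 hw1).trans ?_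
      set κ : ℝ := 1 / (q : ℝ) ^ m with hκ
      have hκ0 : 0 < κ := by positivity
      have hκ1 : κ ≤ 1 := by
        rw [hκ, div_le_one hposR]
        exact one_le_pow₀ (by
          have : 1 ≤ q := by omega
          exact_mod_cast this)
      set x : ℝ := a + q8L q m with hx
      have ha0 : (0 : ℝ) ≤ a := by positivity
      have hxm : (m : ℝ) ≤ x := by rw [hx]; linarith
      have hm0 : (0 : ℝ) ≤ m := by positivity
      have hx6 : 6 * m ≤ κ * x := by
        rw [hx]
        nlinarith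
      have e1 : 4 * C ^ 2 * x ^ 2 / (q : ℝ) ^ m = C ^ 2 * (κ * (4 * x ^ 2)) := by
        rw [hκ]
        ring
      have e2 : (a : ℝ) + m + q8L q m = x + m := by rw [hx]; ring
      rw [e1, e2]
      have hkey : κ * (4 * x ^ 2) + (1 - κ) * (8 * (x + m) ^ 2) ≤ 8 * x ^ 2 := by
        have h1 : (1 - κ) * (2 * x * m + m ^ 2) ≤ 2 * x * m + m ^ 2 := by
          have : 0 ≤ 2 * x * m + m ^ 2 := by
            have : 0 ≤ x := hm0.trans hxm
            positivity
          nlinarith
        have h2 : 2 * x * m + (m : ℝ) ^ 2 ≤ 3 * x * m := by nlinarith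
        have h3 : 6 * x * m ≤ κ * x ^ 2 := by nlinarith
        nlinarith
      calc C ^ 2 * (κ * (4 * x ^ 2)) + (1 - κ) * (8 * C ^ 2 * (x + m) ^ 2)
          = C ^ 2 * (κ * (4 * x ^ 2) + (1 - κ) * (8 * (x + m) ^ 2)) := by ring
        _ ≤ C ^ 2 * (8 * x ^ 2) := mul_le_mul_of_nonneg_left hkey (sq_nonneg _)
        _ = 8 * C ^ 2 * x ^ 2 := by ring

open Classical in
theorem q8_second_nz {q m : ℕ} (hq : 2 ≤ q) (hm : 1 ≤ m) {F : ℕ → ℝ} {C : ℝ} (h : QR q m F C)
    (l k : ℕ) : ∀ T a c c' : ℕ, c < q ^ a → c' < q ^ a →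
      av q (m * T + k) (fun s => if q8nz q m k T s then
        q8dl q l F a c c' (m * T + k) s ^ 2 else 0) ≤
        (1 - 1 / (q : ℝ) ^ m) ^ T * (8 * C ^ 2 * (a + m * T + q8L q m) ^ 2) := by
  have hposR := qpow_posR hq m
  have hκ1 : 1 / (q : ℝ) ^ m ≤ 1 := by
    rw [div_le_one hposR]
    exact one_le_pow₀ (by
      have : 1 ≤ q := by omega
      exact_mod_cast this)
  intro T
  induction T with
  | zero =>
    intro a c c' hc hc'
    have e0 : (fun s => if q8nz q m k 0 s then q8dl q l F a c c' (m * 0 + k) s ^ 2 else 0) =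
        fun s => q8dl q l F a c c' (m * 0 + k) s ^ 2 := by
      funext s
      exact if_pos trivial
    rw [e0]
    refine (q8_second hq hm h l (m * 0 + k) a c c' hc hc').trans (le_of_eq ?_)
    push_cast
    ring
  | succ T ih =>
    intro a c c' hc hc'
    have e : m * (T + 1) + k = m + (m * T + k) := by ring
    rw [e, q8_top]
    have hi := qpow_pos hq (m * T + k)
    have hw0 : av q (m * T + k) (fun s => if q8nz q m k (T + 1) (q ^ (m * T + k) * 0 + s) then
        q8dl q l F a c c' (m + (m * T + k)) (q ^ (m * T + k) * 0 + s) ^ 2 else 0) ≤ 0 := by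
      refine av_le hq fun s hs => ?_
      have hn : ¬ q8nz q m k (T + 1) (q ^ (m * T + k) * 0 + s) := by
        intro hn
        have h1 := hn.1
        rw [Nat.mul_add_div hi, Nat.div_eq_of_lt hs] at h1
        simp at h1
      rw [if_neg hn]
    have hw1 : ∀ w, w < q ^ m → w ≠ 0 →
        av q (m * T + k) (fun s => if q8nz q m k (T + 1) (q ^ (m * T + k) * w + s) then
          q8dl q l F a c c' (m + (m * T + k)) (q ^ (m * T + k) * w + s) ^ 2 else 0) ≤
        (1 - 1 / (q : ℝ) ^ m) ^ T * (8 * C ^ 2 * ((a + m) + m * T + q8L q m) ^ 2) := by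
      intro w hw hw'
      have h1 : q ^ m * c + w < q ^ (a + m) := q8_prefix_lt hc hw
      have h2 : q ^ m * c' + w < q ^ (a + m) := q8_prefix_lt hc' hw
      have h3 := ih (a + m) _ _ h1 h2
      push_cast at h3
      refine le_trans (le_of_eq ?_) h3
      refine av_congr fun s hs => ?_
      have hiff : q8nz q m k (T + 1) (q ^ (m * T + k) * w + s) ↔ q8nz q m k T s := by
        simp only [q8nz]
        rw [Nat.mul_add_div hi, Nat.div_eq_of_lt hs, add_zero, Nat.mod_eq_of_lt hw,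
          Nat.mul_add_mod, Nat.mod_eq_of_lt hs]
        exact ⟨fun h => h.2, fun h => ⟨hw', h⟩⟩
      simp only [hiff, q8_dl_move]
    refine (q8_split0 hq _ hw0 hw1).trans (le_of_eq ?_)
    rw [zero_div, zero_add, ← mul_assoc, ← pow_succ']
    push_cast
    ring

/-- locality of differences -/
theorem q8_dl_loc {q m : ℕ} (hq : 2 ≤ q) {F : ℕ → ℝ} {C : ℝ} (h : QR q m F C) (l k : ℕ) :
    ∀ T a c c' z s : ℕ, z < q ^ (m * T) → s < q ^ k → ¬ q8nz q m 0 T z →
      q8dl q l F a c c' (m * T + k) (q ^ k * z + s) = q8dl q l F a c c' (m * T) z := by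
  intro T
  induction T with
  | zero => intro a c c' z s _ _ hn; exact absurd trivial hn
  | succ T ih =>
    intro a c c' z s hz hs hn
    have hi := qpow_pos hq (m * T)
    obtain ⟨w, z'', hzw, hz'', hw⟩ : ∃ w z'', z = q ^ (m * T) * w + z'' ∧ z'' < q ^ (m * T) ∧
        w < q ^ m := by
      refine ⟨z / q ^ (m * T), z % q ^ (m * T), (Nat.div_add_mod _ _).symm, Nat.mod_lt _ hi, ?_⟩
      rw [Nat.div_lt_iff_lt_mul hi, ← pow_add]
      have e : m + m * T = m * (T + 1) := by ring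
      rwa [e]
    subst hzw
    have hlt : q ^ k * z'' + s < q ^ (m * T + k) := q8_prefix_lt hz'' hs
    have e1 : m * (T + 1) + k = m + (m * T + k) := by ring
    have e2 : m * (T + 1) = m + m * T := by ring
    have e3 : q ^ k * (q ^ (m * T) * w + z'') + s = q ^ (m * T + k) * w + (q ^ k * z'' + s) := by
      rw [pow_add]
      ring
    rw [e1, e2, e3]
    by_cases hw0 : w = 0
    · subst hw0
      have f1 : q ^ (m * T + k) * 0 + (q ^ k * z'' + s) = q ^ k * z'' + s := by ring
      have f2 : q ^ (m * T) * 0 + z'' = z'' := by ring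
      rw [f1, f2]
      have g1 := q8_dl_local hq h l a (m * T + k) c c' _ hlt
      have g2 := q8_dl_local hq h l a (m * T) c c' _ hz''
      rw [g1, g2]
    · rw [q8_dl_move q l F a c c' m (m * T + k) w, q8_dl_move q l F a c c' m (m * T) w]
      refine ih _ _ _ _ _ hz'' hs ?_
      intro hnz
      apply hn
      simp only [q8nz]
      rw [add_zero, Nat.mul_add_div hi, Nat.div_eq_of_lt hz'', add_zero, Nat.mod_eq_of_lt hw,
        Nat.mul_add_mod, Nat.mod_eq_of_lt hz'']
      exact ⟨hw0, hnz⟩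

/-! ### The martingale differences -/

/-- the martingale difference at digit `i` -/
noncomputable def q8D (q l : ℕ) (F : ℕ → ℝ) (i x : ℕ) : ℝ :=
  cnd q l (i + 1) F x - cnd q 1 i (cnd q l (i + 1) F) (x % q ^ i)

theorem q8D_eq {q : ℕ} (hq : 2 ≤ q) (l : ℕ) (F : ℕ → ℝ) {i ε s : ℕ} (hs : s < q ^ i) :
    q8D q l F i (q ^ i * ε + s) = av q 1 (fun ε' => q8dl q l F 1 ε ε' i s) := by
  unfold q8D q8dl
  rw [av_sub, av_const hq, Nat.mul_add_mod, Nat.mod_eq_of_lt hs, add_comm i 1]
  rfl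

theorem q8D_le {q m : ℕ} (hq : 2 ≤ q) (hm : 1 ≤ m) {F : ℕ → ℝ} {C : ℝ} (h : QR q m F C)
    (l : ℕ) {i x : ℕ} (hx : x < q ^ (i + 1)) :
    |q8D q l F i x| ≤ C * (2 * (1 + i) + q8K q m) := by
  have hi := qpow_pos hq i
  have e := Nat.div_add_mod x (q ^ i)
  rw [← e, q8D_eq hq l F (Nat.mod_lt _ hi)]
  refine abs_av_le hq fun ε' hε' => ?_
  have h1 : x / q ^ i < q ^ 1 := by
    rw [Nat.div_lt_iff_lt_mul hi, ← pow_add, add_comm 1 i]
    exact hx
  have := q8_dl_le hq hm h l h1 hε' (Nat.mod_lt x hi)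
  push_cast at this
  exact this

open Classical in
theorem q8D_second {q m : ℕ} (hq : 2 ≤ q) (hm : 1 ≤ m) {F : ℕ → ℝ} {C : ℝ} (h : QR q m F C)
    (l k T : ℕ) :
    av q (m * T + k + 1) (fun x => (if q8nz q m k T (x % q ^ (m * T + k)) then
      q8D q l F (m * T + k) x else 0) ^ 2) ≤
      (1 - 1 / (q : ℝ) ^ m) ^ T * (8 * C ^ 2 * (1 + m * T + q8L q m) ^ 2) := by
  rw [add_comm (m * T + k) 1, q8_top]
  have hi := qpow_pos hq (m * T + k)
  refine av_le hq fun ε hε => ?_
  have h1 : ∀ s < q ^ (m * T + k), (if q8nz q m k T ((q ^ (m * T + k) * ε + s) %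
      q ^ (m * T + k)) then q8D q l F (m * T + k) (q ^ (m * T + k) * ε + s) else 0) ^ 2 ≤
      av q 1 (fun ε' => if q8nz q m k T s then q8dl q l F 1 ε ε' (m * T + k) s ^ 2 else 0) := by
    intro s hs
    rw [Nat.mul_add_mod, Nat.mod_eq_of_lt hs]
    by_cases hn : q8nz q m k T s
    · simp only [if_pos hn]
      rw [q8D_eq hq l F hs]
      exact av_sq_le q hq 1 _
    · simp only [if_neg hn]
      rw [av_const hq]
      simp
  refine (av_mono h1).trans ?_
  rw [av_swap]
  refine av_le hq fun ε' hε' => ?_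
  have := q8_second_nz hq hm h l k T 1 ε ε' hε hε'
  push_cast at this
  exact this

/-- the local part of the martingale difference -/
noncomputable def q8g (q m T l : ℕ) (F : ℕ → ℝ) (z : ℕ) : ℝ :=
  open Classical in
  if z < q ^ (m * T + 1) ∧ ¬ q8nz q m 0 T (z % q ^ (m * T)) then q8D q l F (m * T) z else 0

theorem q8g_le {q m : ℕ} (hq : 2 ≤ q) (hm : 1 ≤ m) {F : ℕ → ℝ} {C : ℝ} (h : QR q m F C)
    (T l z : ℕ) : |q8g q m T l F z| ≤ C * (2 * (1 + m * T) + q8K q m) := by
  unfold q8g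
  split_ifs with hz
  · have := q8D_le hq hm h l hz.1
    push_cast at this
    exact this
  · rw [abs_zero]
    have := h.nonneg
    have hK0 : 0 ≤ q8K q m := by unfold q8K; positivity
    positivity

open Classical in
theorem q8g_mean {q m : ℕ} (hq : 2 ≤ q) (T l : ℕ) (F : ℕ → ℝ) :
    ∑ z ∈ Finset.range (q ^ (m * T + 1)), q8g q m T l F z = 0 := by
  have hposR := qpow_posR hq (m * T + 1)
  have h1 : av q (m * T + 1) (q8g q m T l F) = 0 := by
    rw [av_split]
    have h2 : ∀ s < q ^ (m * T), cnd q 1 (m * T) (q8g q m T l F) s = 0 := by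
      intro s hs
      unfold cnd
      have h3 : ∀ ε < q ^ 1, q8g q m T l F (q ^ (m * T) * ε + s) =
          if q8nz q m 0 T s then 0 else q8D q l F (m * T) (q ^ (m * T) * ε + s) := by
        intro ε hε
        have hlt : q ^ (m * T) * ε + s < q ^ (m * T + 1) := by
          have := q8_prefix_lt hε hs
          rwa [add_comm 1] at this
        unfold q8g
        rw [Nat.mul_add_mod, Nat.mod_eq_of_lt hs]
        by_cases hn : q8nz q m 0 T s
        · rw [if_pos hn, if_neg (fun h => h.2 hn)]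
        · rw [if_neg hn, if_pos ⟨hlt, hn⟩]
      rw [av_congr h3]
      by_cases hn : q8nz q m 0 T s
      · simp only [if_pos hn]
        exact av_const hq 1 0
      · simp only [if_neg hn]
        unfold q8D
        simp only [Nat.mul_add_mod, Nat.mod_eq_of_lt hs]
        rw [av_sub, av_const hq]
        unfold cnd
        ring
    rw [av_congr h2, av_const hq]
  unfold av at h1
  rw [div_eq_zero_iff] at h1
  rcases h1 with h1 | h1
  · exact h1
  · exact absurd h1 hposR.ne'

open Classical in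
/-- decomposition of the martingale difference -/
theorem q8_decomp {q m : ℕ} (hq : 2 ≤ q) {F : ℕ → ℝ} {C : ℝ} (h : QR q m F C) (T l k x : ℕ)
    (hx : x < q ^ (m * T + k + 1)) :
    q8D q l F (m * T + k) x = q8g q m T l F (x / q ^ k) +
      (if q8nz q m k T (x % q ^ (m * T + k)) then q8D q l F (m * T + k) x else 0) ∧
    (q8g q m T l F (x / q ^ k)) ^ 2 ≤ (q8D q l F (m * T + k) x) ^ 2 := by
  have hi := qpow_pos hq (m * T + k)
  have hk := qpow_pos hq k
  have hmT := qpow_pos hq (m * T)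
  obtain ⟨ε, z, s, hxe, hε, hz, hs⟩ : ∃ ε z s, x = q ^ (m * T + k) * ε + (q ^ k * z + s) ∧
      ε < q ^ 1 ∧ z < q ^ (m * T) ∧ s < q ^ k := by
    refine ⟨x / q ^ (m * T + k), x % q ^ (m * T + k) / q ^ k, x % q ^ (m * T + k) % q ^ k,
      ?_, ?_, ?_, Nat.mod_lt _ hk⟩
    · rw [Nat.div_add_mod, Nat.div_add_mod]
    · rw [Nat.div_lt_iff_lt_mul hi, ← pow_add, add_comm 1]
      exact hx
    · rw [Nat.div_lt_iff_lt_mul hk, ← pow_add]
      exact Nat.mod_lt _ hi
  subst hxe
  have hlt : q ^ k * z + s < q ^ (m * T + k) := q8_prefix_lt hz hs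
  have e1 : (q ^ (m * T + k) * ε + (q ^ k * z + s)) % q ^ (m * T + k) = q ^ k * z + s := by
    rw [Nat.mul_add_mod, Nat.mod_eq_of_lt hlt]
  have e2 : (q ^ (m * T + k) * ε + (q ^ k * z + s)) / q ^ k = q ^ (m * T) * ε + z := by
    have : q ^ (m * T + k) * ε + (q ^ k * z + s) = q ^ k * (q ^ (m * T) * ε + z) + s := by
      rw [pow_add]
      ring
    rw [this, Nat.mul_add_div hk, Nat.div_eq_of_lt hs, add_zero]
  have hlt2 : q ^ (m * T) * ε + z < q ^ (m * T + 1) := by
    have := q8_prefix_lt hε hz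
    rwa [add_comm 1] at this
  rw [e1, e2, q8nz_shift hq k T z s hs]
  unfold q8g
  rw [Nat.mul_add_mod, Nat.mod_eq_of_lt hz]
  by_cases hn : q8nz q m 0 T z
  · rw [if_pos hn, if_neg (fun h => h.2 hn)]
    refine ⟨by ring, ?_⟩
    rw [zero_pow two_ne_zero]
    exact sq_nonneg _
  · rw [if_neg hn, if_pos ⟨hlt2, hn⟩]
    have e3 : q8D q l F (m * T + k) (q ^ (m * T + k) * ε + (q ^ k * z + s)) =
        q8D q l F (m * T) (q ^ (m * T) * ε + z) := by
      rw [q8D_eq hq l F hlt, q8D_eq hq l F hz]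
      refine av_congr fun ε' _ => ?_
      exact q8_dl_loc hq h l k T 1 ε ε' z s hz hs hn
    rw [e3]
    exact ⟨by ring, le_rfl⟩

/-! ### The covariance as a sum over the digits -/

theorem q8_perm {q P : ℕ} (hq : 2 ≤ q) (hP : P.Coprime q) (k : ℕ) (u : ℕ → ℝ) :
    av q k (fun n => u (P * n % q ^ k)) = av q k u := by
  have h := av_perm hq hP 0 k u
  simpa only [add_zero] using h

theorem q8_cov_sum {q p r : ℕ} (hq : 2 ≤ q) (hp : p.Coprime q) (hr : r.Coprime q) (W : ℕ)
    (F F' : ℕ → ℝ) :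
    cov q W (fun n => F (p * n % q ^ W)) (fun n => F' (r * n % q ^ W)) =
      ∑ i ∈ Finset.range W, av q (i + 1) (fun n =>
        q8D q (W - (i + 1)) F i (p * n % q ^ (i + 1)) *
          q8D q (W - (i + 1)) F' i (r * n % q ^ (i + 1))) := by
  have h := cov_decomp hq 1 W (fun n => F (p * n % q ^ W)) (fun n => F' (r * n % q ^ W))
  simp only [one_mul] at h
  rw [h]
  refine Finset.sum_congr rfl fun i hi => ?_
  have hiW : i + 1 + (W - (i + 1)) = W := by
    have := Finset.mem_range.mp hi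
    omega
  have hc : ∀ (P : ℕ) (G : ℕ → ℝ), P.Coprime q → ∀ x s,
      cnd q (W - (i + 1)) (i + 1) (fun n => G (P * n % q ^ W)) (q ^ i * x + s) =
        cnd q (W - (i + 1)) (i + 1) G (P * (q ^ i * x + s) % q ^ (i + 1)) := by
    intro P G hP x s
    have h1 := cnd_mul hq hP (i + 1) (W - (i + 1)) G (q ^ i * x + s)
    rw [hiW] at h1
    exact h1
  have hD : ∀ (P : ℕ) (G : ℕ → ℝ), P.Coprime q → ∀ x s,
      cnd q (W - (i + 1)) (i + 1) G (P * (q ^ i * x + s) % q ^ (i + 1)) -
        av q 1 (fun x => cnd q (W - (i + 1)) (i + 1) G (P * (q ^ i * x + s) % q ^ (i + 1))) =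
      q8D q (W - (i + 1)) G i (P * (q ^ i * x + s) % q ^ (i + 1)) := by
    intro P G hP x s
    unfold q8D
    congr 1
    have h1 := cnd_mul hq hP i 1 (cnd q (W - (i + 1)) (i + 1) G) s
    have e : P * (q ^ i * x + s) % q ^ (i + 1) % q ^ i = P * s % q ^ i := by
      rw [pow_succ, Nat.mod_mul_right_mod]
      have : P * (q ^ i * x + s) = q ^ i * (P * x) + P * s := by ring
      rw [this, Nat.mul_add_mod]
    rw [e, ← h1]
    rfl
  have h2 : ∀ s, cov q 1 (fun x => cnd q (W - (i + 1)) (i + 1) (fun n => F (p * n % q ^ W))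
      (q ^ i * x + s)) (fun x => cnd q (W - (i + 1)) (i + 1) (fun n => F' (r * n % q ^ W))
      (q ^ i * x + s)) = av q 1 (fun x => q8D q (W - (i + 1)) F i
        (p * (q ^ i * x + s) % q ^ (i + 1)) * q8D q (W - (i + 1)) F' i
          (r * (q ^ i * x + s) % q ^ (i + 1))) := by
    intro s
    simp only [hc p F hp, hc r F' hr]
    rw [cov_eq hq]
    refine av_congr fun x _ => ?_
    rw [hD p F hp, hD r F' hr]
  simp only [h2]
  rw [av_split]
  rfl

/-! ### The main estimate for one digit -/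

theorem q8_term_all {q m : ℕ} (hq : 2 ≤ q) (hm : 1 ≤ m) {F F' : ℕ → ℝ} {C C' : ℝ}
    (h : QR q m F C) (h' : QR q m F' C') {p r : ℕ} (hp : p.Coprime q) (hr : r.Coprime q)
    (l i : ℕ) :
    |av q (i + 1) (fun n => q8D q l F i (p * n % q ^ (i + 1)) *
      q8D q l F' i (r * n % q ^ (i + 1)))| ≤ C * C' * (8 * (1 + q8L q m) ^ 2) := by
  classical
  obtain ⟨hL0, -, -, -⟩ := q8L_facts (q := q) (m := m) hq
  have hC := h.nonneg
  have hC' := h'.nonneg
  have h1 : ∀ (G : ℕ → ℝ) (E : ℝ), QR q m G E → ∀ P : ℕ, P.Coprime q → 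
      Real.sqrt (av q (i + 1) fun n => q8D q l G i (P * n % q ^ (i + 1)) ^ 2) ≤
        E * (Real.sqrt 8 * (1 + q8L q m)) := by
    intro G E hG P hP
    have e1 := q8_perm hq hP (i + 1) (fun x => q8D q l G i x ^ 2)
    rw [e1]
    have e2 := q8D_second hq hm hG l i 0
    simp only [q8nz, if_true, pow_zero, one_mul, mul_zero, zero_add, Nat.cast_zero,
      add_zero] at e2
    refine Real.sqrt_le_iff.mpr ⟨by have := hG.nonneg; positivity, ?_⟩
    refine e2.trans (le_of_eq ?_)
    rw [mul_pow, mul_pow, Real.sq_sqrt (by norm_num)]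
    ring
  refine (av_cs _ _ _ _).trans ?_
  refine (mul_le_mul (h1 F C h p hp) (h1 F' C' h' r hr) (Real.sqrt_nonneg _) (by positivity)).trans
    (le_of_eq ?_)
  have e8 : Real.sqrt 8 * Real.sqrt 8 = 8 := Real.mul_self_sqrt (by norm_num)
  calc C * (Real.sqrt 8 * (1 + q8L q m)) * (C' * (Real.sqrt 8 * (1 + q8L q m))) =
      C * C' * ((Real.sqrt 8 * Real.sqrt 8) * (1 + q8L q m) ^ 2) := by ring
    _ = _ := by rw [e8]

/-- the size of the nonlocal part -/
noncomputable def q8E (q m T : ℕ) : ℝ :=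
  8 * (1 + q8L q m) * (Real.sqrt ((1 - 1 / (q : ℝ) ^ m) ^ T) * (1 + m * T + q8L q m))

theorem q8_term {q m : ℕ} (hq : 2 ≤ q) (hm : 1 ≤ m) {F F' : ℕ → ℝ} {C C' : ℝ}
    (h : QR q m F C) (h' : QR q m F' C') {p r : ℕ} (hp : p.Coprime q) (hr : r.Coprime q)
    (hpr : p.Coprime r) (hp1 : 1 ≤ p) (l T k : ℕ) (hk : r * p ≤ q ^ k) :
    |av q (m * T + k + 1) (fun n => q8D q l F (m * T + k) (p * n % q ^ (m * T + k + 1)) *
      q8D q l F' (m * T + k) (r * n % q ^ (m * T + k + 1)))| ≤
      C * C' * ((2 * (1 + m * T) + q8K q m) ^ 2 * (2 * q ^ (2 * (m * T + 1)) / r + 2 * r / q ^ k) +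
        2 * q8E q m T) := by
  classical
  obtain ⟨hL0, -, -, -⟩ := q8L_facts (q := q) (m := m) hq
  have hC := h.nonneg
  have hC' := h'.nonneg
  have hK0 : 0 ≤ q8K q m := by unfold q8K; positivity
  have hposR := qpow_posR hq m
  have hN := qpow_pos hq (m * T + k + 1)
  set N := q ^ (m * T + k + 1) with hNdef
  set i := m * T + k with hi
  have hκ1 : 0 ≤ 1 - 1 / (q : ℝ) ^ m := by
    have : 1 / (q : ℝ) ^ m ≤ 1 := by
      rw [div_le_one hposR]
      exact one_le_pow₀ (by
        have : 1 ≤ q := by omega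
        exact_mod_cast this)
    linarith
  -- the pieces
  set D : ℕ → ℝ := q8D q l F i with hD
  set D' : ℕ → ℝ := q8D q l F' i with hD'
  set g : ℕ → ℝ := q8g q m T l F with hg
  set g' : ℕ → ℝ := q8g q m T l F' with hg'
  set b : ℕ → ℝ := fun x => if q8nz q m k T (x % q ^ i) then D x else 0 with hb
  set b' : ℕ → ℝ := fun x => if q8nz q m k T (x % q ^ i) then D' x else 0 with hb'
  have hsplit : av q (i + 1) (fun n => D (p * n % N) * D' (r * n % N)) =
      av q (i + 1) (fun n => g (p * n % N / q ^ k) * g' (r * n % N / q ^ k)) +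
      av q (i + 1) (fun n => g (p * n % N / q ^ k) * b' (r * n % N)) +
      av q (i + 1) (fun n => b (p * n % N) * D' (r * n % N)) := by
    rw [← av_add, ← av_add]
    refine av_congr fun n _ => ?_
    have h1 := (q8_decomp hq h T l k (p * n % N) (Nat.mod_lt _ hN)).1
    have h2 := (q8_decomp hq h' T l k (r * n % N) (Nat.mod_lt _ hN)).1
    have h1' : D (p * n % N) = g (p * n % N / q ^ k) + b (p * n % N) := h1
    have h2' : D' (r * n % N) = g' (r * n % N / q ^ k) + b' (r * n % N) := h2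
    calc D (p * n % N) * D' (r * n % N) = g (p * n % N / q ^ k) * D' (r * n % N) +
          b (p * n % N) * D' (r * n % N) := by rw [h1']; ring
      _ = g (p * n % N / q ^ k) * (g' (r * n % N / q ^ k) + b' (r * n % N)) +
          b (p * n % N) * D' (r * n % N) := by rw [← h2']
      _ = _ := by ring
  have hDb : ∀ (G : ℕ → ℝ) (E : ℝ), QR q m G E → ∀ P : ℕ, P.Coprime q →
      Real.sqrt (av q (i + 1) fun n => q8D q l G i (P * n % N) ^ 2) ≤
        E * (Real.sqrt 8 * (1 + q8L q m)) := by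
    intro G E hG P hP
    have e1 := q8_perm hq hP (i + 1) (fun x => q8D q l G i x ^ 2)
    rw [e1]
    have e2 := q8D_second hq hm hG l i 0
    simp only [q8nz, if_true, pow_zero, one_mul, mul_zero, zero_add, Nat.cast_zero,
      add_zero] at e2
    refine Real.sqrt_le_iff.mpr ⟨by have := hG.nonneg; positivity, ?_⟩
    refine e2.trans (le_of_eq ?_)
    rw [mul_pow, mul_pow, Real.sq_sqrt (by norm_num)]
    ring
  have hBb : ∀ (G : ℕ → ℝ) (E : ℝ), QR q m G E → ∀ P : ℕ, P.Coprime q →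
      Real.sqrt (av q (i + 1) fun n => (if q8nz q m k T (P * n % N % q ^ i) then
        q8D q l G i (P * n % N) else 0) ^ 2) ≤
        E * (Real.sqrt 8 * (Real.sqrt ((1 - 1 / (q : ℝ) ^ m) ^ T) * (1 + m * T + q8L q m))) := by
    intro G E hG P hP
    have e1 := q8_perm hq hP (i + 1) (fun x => (if q8nz q m k T (x % q ^ i) then
        q8D q l G i x else 0) ^ 2)
    rw [e1]
    have e2 := q8D_second hq hm hG l k T
    refine Real.sqrt_le_iff.mpr ⟨by have := hG.nonneg; positivity, ?_⟩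
    refine e2.trans (le_of_eq ?_)
    rw [mul_pow, mul_pow, mul_pow, Real.sq_sqrt (by norm_num), Real.sq_sqrt (by positivity)]
    ring
  have e8 : Real.sqrt 8 * Real.sqrt 8 = 8 := Real.mul_self_sqrt (by norm_num)
  -- the local part
  have h1 : |av q (i + 1) (fun n => g (p * n % N / q ^ k) * g' (r * n % N / q ^ k))| ≤
      C * C' * ((2 * (1 + m * T) + q8K q m) ^ 2 *
        (2 * q ^ (2 * (m * T + 1)) / r + 2 * r / q ^ k)) := by
    have ht := torus hq hpr hr hp1 (j := m * T + 1) (i := k) g g' (q8g_le hq hm h T l)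
      (q8g_le hq hm h' T l) (q8g_mean hq T l F) hk
    have e1 : k + (m * T + 1) = i + 1 := by rw [hi]; ring
    rw [e1] at ht
    refine ht.trans (le_of_eq ?_)
    have e2 : 2 * (q : ℝ) ^ (m * T + 1) * r / q ^ (i + 1) = 2 * r / q ^ k := by
      have e3 : (q : ℝ) ^ (i + 1) = q ^ k * q ^ (m * T + 1) := by
        rw [← pow_add, e1]
      have hk' := qpow_posR hq k
      have hmT' := qpow_posR hq (m * T + 1)
      rw [e3]
      field_simp
    rw [e2]
    ring
  -- the mixed parts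
  have h2 : |av q (i + 1) (fun n => g (p * n % N / q ^ k) * b' (r * n % N))| ≤
      C * C' * q8E q m T := by
    refine (av_cs _ _ _ _).trans ?_
    have hg1 : Real.sqrt (av q (i + 1) fun n => g (p * n % N / q ^ k) ^ 2) ≤
        C * (Real.sqrt 8 * (1 + q8L q m)) := by
      refine le_trans (Real.sqrt_le_sqrt (av_mono fun n _ => ?_)) (hDb F C h p hp)
      exact (q8_decomp hq h T l k (p * n % N) (Nat.mod_lt _ hN)).2
    refine (mul_le_mul hg1 (hBb F' C' h' r hr) (Real.sqrt_nonneg _) (by positivity)).trans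
      (le_of_eq ?_)
    unfold q8E
    calc C * (Real.sqrt 8 * (1 + q8L q m)) * (C' * (Real.sqrt 8 *
          (Real.sqrt ((1 - 1 / (q : ℝ) ^ m) ^ T) * (1 + m * T + q8L q m)))) =
        C * C' * ((Real.sqrt 8 * Real.sqrt 8) * (1 + q8L q m) *
          (Real.sqrt ((1 - 1 / (q : ℝ) ^ m) ^ T) * (1 + m * T + q8L q m))) := by ring
      _ = _ := by rw [e8]
  have h3 : |av q (i + 1) (fun n => b (p * n % N) * D' (r * n % N))| ≤ C * C' * q8E q m T := by
    refine (av_cs _ _ _ _).trans ?_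
    refine (mul_le_mul (hBb F C h p hp) (hDb F' C' h' r hr) (Real.sqrt_nonneg _)
      (by positivity)).trans (le_of_eq ?_)
    unfold q8E
    calc C * (Real.sqrt 8 * (Real.sqrt ((1 - 1 / (q : ℝ) ^ m) ^ T) * (1 + m * T + q8L q m))) *
          (C' * (Real.sqrt 8 * (1 + q8L q m))) =
        C * C' * ((Real.sqrt 8 * Real.sqrt 8) * (1 + q8L q m) *
          (Real.sqrt ((1 - 1 / (q : ℝ) ^ m) ^ T) * (1 + m * T + q8L q m))) := by ring
      _ = _ := by rw [e8]
  rw [hsplit]
  calc _ ≤ |av q (i + 1) (fun n => g (p * n % N / q ^ k) * g' (r * n % N / q ^ k))| +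
        |av q (i + 1) (fun n => g (p * n % N / q ^ k) * b' (r * n % N))| +
        |av q (i + 1) (fun n => b (p * n % N) * D' (r * n % N))| := abs_add_three _ _ _
    _ ≤ C * C' * ((2 * (1 + m * T) + q8K q m) ^ 2 *
        (2 * q ^ (2 * (m * T + 1)) / r + 2 * r / q ^ k)) + C * C' * q8E q m T +
        C * C' * q8E q m T := add_le_add (add_le_add h1 h2) h3
    _ = _ := by ring

theorem q8E_tendsto {q m : ℕ} (hq : 2 ≤ q) : Tendsto (fun T => q8E q m T) atTop (𝓝 0) := by
  have hposR := qpow_posR hq m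
  set κ : ℝ := 1 / (q : ℝ) ^ m with hκ
  have hκ0 : 0 < κ := by positivity
  have hκ1 : κ ≤ 1 := by
    rw [hκ, div_le_one hposR]
    exact one_le_pow₀ (by
      have : 1 ≤ q := by omega
      exact_mod_cast this)
  set ρ : ℝ := Real.sqrt (1 - κ) with hρ
  have hρ0 : 0 ≤ ρ := Real.sqrt_nonneg _
  have hρ1 : ρ < 1 := by
    rw [hρ, Real.sqrt_lt' one_pos]
    linarith
  have e : (fun T => q8E q m T) = fun T : ℕ => 8 * (1 + q8L q m) * ((1 + q8L q m) * ρ ^ T) +
      8 * (1 + q8L q m) * m * (T * ρ ^ T) := by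
    funext T
    unfold q8E
    have e1 : Real.sqrt ((1 - κ) ^ T) = ρ ^ T := by
      rw [hρ, Real.sqrt_eq_iff_mul_self_eq (by
        have : 0 ≤ 1 - κ := by linarith
        positivity) (by positivity), ← mul_pow, Real.mul_self_sqrt (by linarith)]
    rw [e1]
    ring
  rw [e]
  have h1 : Tendsto (fun T : ℕ => ρ ^ T) atTop (𝓝 0) :=
    tendsto_pow_atTop_nhds_zero_of_lt_one hρ0 hρ1
  have h2 : Tendsto (fun T : ℕ => (T : ℝ) * ρ ^ T) atTop (𝓝 0) :=
    tendsto_self_mul_const_pow_of_lt_one hρ0 hρ1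
  have h3 := ((h1.const_mul (1 + q8L q m)).const_mul (8 * (1 + q8L q m))).add
    (h2.const_mul (8 * (1 + q8L q m) * m))
  simpa using h3

theorem q8_main {q m : ℕ} (hq : 2 ≤ q) (hm : 1 ≤ m) {η : ℝ} (hη : 0 < η) :
    ∃ r₀ : ℕ, ∀ p r : ℕ, 1 ≤ p → p.Coprime q → r.Coprime q → p.Coprime r → r₀ ≤ r →
    ∃ K : ℝ, 0 ≤ K ∧
      ∀ (F F' : ℕ → ℝ) (C C' : ℝ), QR q m F C → QR q m F' C' → ∀ W : ℕ,
        |cov q W (fun n => F (p * n % q ^ W)) (fun n => F' (r * n % q ^ W))| ≤
          (η * W + K) * C * C' := by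
  obtain ⟨hL0, -, -, -⟩ := q8L_facts (q := q) (m := m) hq
  have hK0 : 0 ≤ q8K q m := by unfold q8K; positivity
  obtain ⟨T, hT⟩ : ∃ T, 2 * q8E q m T ≤ η / 2 := by
    have h1 := (q8E_tendsto (m := m) hq).eventually (gt_mem_nhds (show (0 : ℝ) < η / 4 by positivity))
    obtain ⟨T, hT⟩ := h1.exists
    exact ⟨T, by linarith⟩
  set A : ℝ := (2 * (1 + m * T) + q8K q m) ^ 2 with hA
  have hA0 : 0 ≤ A := sq_nonneg _
  obtain ⟨r₀, hr₀⟩ := exists_nat_gt (8 * A * q ^ (2 * (m * T + 1)) / η)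
  refine ⟨r₀, fun p r hp1 hp hr hpr hrr => ?_⟩
  have hr0R : 8 * A * q ^ (2 * (m * T + 1)) / η < r :=
    lt_of_lt_of_le hr₀ (by exact_mod_cast hrr)
  have hrpos : (0 : ℝ) < r := lt_of_le_of_lt (by positivity) hr0R
  have hb1 : A * (2 * q ^ (2 * (m * T + 1)) / r) ≤ η / 4 := by
    rw [div_lt_iff₀ hη] at hr0R
    rw [mul_div_assoc', div_le_iff₀ hrpos]
    linarith
  obtain ⟨k₀, hk₀⟩ : ∃ k₀ : ℕ, ∀ k ≥ k₀, ((r * p : ℕ) : ℝ) + 8 * A * r / η ≤ (q : ℝ) ^ k := by
    have h1 : Tendsto (fun k : ℕ => (q : ℝ) ^ k) atTop atTop :=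
      tendsto_pow_atTop_atTop_of_one_lt (by
        have : 1 < q := by omega
        exact_mod_cast this)
    exact eventually_atTop.mp (h1.eventually_ge_atTop _)
  refine ⟨(m * T + k₀) * (8 * (1 + q8L q m) ^ 2), by positivity, ?_⟩
  intro F F' C C' h h' W
  have hC := h.nonneg
  have hC' := h'.nonneg
  rw [q8_cov_sum hq hp hr W F F']
  have hterm : ∀ i ∈ Finset.range W, |av q (i + 1) (fun n =>
        q8D q (W - (i + 1)) F i (p * n % q ^ (i + 1)) *
          q8D q (W - (i + 1)) F' i (r * n % q ^ (i + 1)))| ≤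
      C * C' * η + (if i < m * T + k₀ then C * C' * (8 * (1 + q8L q m) ^ 2) else 0) := by
    intro i _
    split_ifs with hi
    · refine (q8_term_all hq hm h h' hp hr _ i).trans ?_
      have : 0 ≤ C * C' * η := by positivity
      linarith
    · obtain ⟨k, rfl⟩ : ∃ k, i = m * T + k := ⟨i - m * T, by omega⟩
      have hk : k₀ ≤ k := by omega
      have h1 := hk₀ k hk
      have hqk := qpow_posR hq k
      have hpos1 : 0 ≤ 8 * A * r / η := by positivity
      have hk1 : r * p ≤ q ^ k := by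
        have : ((r * p : ℕ) : ℝ) ≤ ((q ^ k : ℕ) : ℝ) := by
          push_cast at h1 ⊢
          linarith
        exact_mod_cast this
      have hb2 : A * (2 * r / q ^ k) ≤ η / 4 := by
        have h2 : 8 * A * r / η ≤ (q : ℝ) ^ k := by
          have : (0 : ℝ) ≤ ((r * p : ℕ) : ℝ) := by positivity
          linarith
        rw [div_le_iff₀ hη] at h2
        rw [mul_div_assoc', div_le_iff₀ hqk]
        linarith
      refine (q8_term hq hm h h' hp hr hpr hp1 _ T k hk1).trans ?_
      rw [add_zero]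
      refine mul_le_mul_of_nonneg_left ?_ (mul_nonneg hC hC')
      rw [← hA, mul_add]
      linarith
  calc |∑ i ∈ Finset.range W, av q (i + 1) (fun n =>
        q8D q (W - (i + 1)) F i (p * n % q ^ (i + 1)) *
          q8D q (W - (i + 1)) F' i (r * n % q ^ (i + 1)))|
      ≤ ∑ i ∈ Finset.range W, |av q (i + 1) (fun n =>
        q8D q (W - (i + 1)) F i (p * n % q ^ (i + 1)) *
          q8D q (W - (i + 1)) F' i (r * n % q ^ (i + 1)))| := Finset.abs_sum_le_sum_abs _ _
    _ ≤ ∑ i ∈ Finset.range W, (C * C' * η +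
        (if i < m * T + k₀ then C * C' * (8 * (1 + q8L q m) ^ 2) else 0)) :=
        Finset.sum_le_sum hterm
    _ ≤ W * (C * C' * η) + (m * T + k₀) * (C * C' * (8 * (1 + q8L q m) ^ 2)) := by
        rw [Finset.sum_add_distrib, Finset.sum_const, Finset.card_range, nsmul_eq_mul]
        refine add_le_add le_rfl ?_
        rw [← Finset.sum_filter, Finset.sum_const, nsmul_eq_mul]
        refine mul_le_mul_of_nonneg_right ?_ (by positivity)
        have h1 : ((Finset.range W).filter fun i => i < m * T + k₀) ⊆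
            Finset.range (m * T + k₀) := by
          intro i hi
          exact Finset.mem_range.mpr (Finset.mem_filter.mp hi).2
        have h2 := Finset.card_le_card h1
        rw [Finset.card_range] at h2
        calc (((Finset.range W).filter fun i => i < m * T + k₀).card : ℝ) ≤
            ((m * T + k₀ : ℕ) : ℝ) := by exact_mod_cast h2
          _ = m * T + k₀ := by push_cast; ring
    _ = (η * W + (m * T + k₀) * (8 * (1 + q8L q m) ^ 2)) * C * C' := by ring

/-- upper bound for the covariance -/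
theorem cov_small {q m : ℕ} (hq : 2 ≤ q) {η : ℝ} (hη : 0 < η) : ∃ r₀ : ℕ, ∀ p r s : ℕ, 1 ≤ p →
    1 ≤ s → p.Coprime q → r.Coprime q → s.Coprime q → p.Coprime r → r₀ ≤ r →
    ∃ K : ℝ, 0 ≤ K ∧
      ∀ (F F' : ℕ → ℝ) (C C' : ℝ), QR q m F C → QR q m F' C' → ∀ W : ℕ,
        |cov q W (fun n => F (p * s * n % q ^ W)) (fun n => F' (r * s * n % q ^ W))| ≤
          (η * W + K) * C * C' := by
  obtain ⟨r₀, hr₀⟩ := q8_main (m := m + 1) hq (Nat.le_add_left _ _) hη
  refine ⟨r₀, fun p r s hp1 _ hp hr hs hpr hrr => ?_⟩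
  obtain ⟨K, hK, hmain⟩ := hr₀ p r hp1 hp hr hpr hrr
  refine ⟨K, hK, fun F F' C C' h h' W => ?_⟩
  have h1 := hmain F F' C C' (q8_mono hq h) (q8_mono hq h') W
  have e : ∀ (P : ℕ) (G : ℕ → ℝ), (fun n => G (P * s * n % q ^ W)) =
      fun n => (fun x => G (P * x % q ^ W)) (s * n % q ^ W) := by
    intro P G
    funext n
    have : P * (s * n % q ^ W) % q ^ W = P * s * n % q ^ W := by
      rw [mul_assoc]
      exact (Nat.mod_modEq (s * n) (q ^ W)).mul_left P
    simp only [this]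
  rw [e p F, e r F']
  have h2 : cov q W (fun n => (fun x => F (p * x % q ^ W)) (s * n % q ^ W))
      (fun n => (fun x => F' (r * x % q ^ W)) (s * n % q ^ W)) =
      cov q W (fun n => F (p * n % q ^ W)) (fun n => F' (r * n % q ^ W)) := by
    unfold cov
    have f1 := q8_perm hq hs W (fun x => F (p * x % q ^ W) * F' (r * x % q ^ W))
    have f2 := q8_perm hq hs W (fun x => F (p * x % q ^ W))
    have f3 := q8_perm hq hs W (fun x => F' (r * x % q ^ W))
    rw [← f1, ← f2, ← f3]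
  rw [h2]
  exact h1

end Pool.Agent.Lib.MP_3e612f_nt.QA
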