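import Pool.Agent.Lib.MP_3e612f_nt.MBox
import Pool.Agent.Lib.MP_3e612f_nt.MSlow
import Pool.Agent.Lib.MP_3e612f_nt.MSmo
import Pool.Agent.Lib.MP_3e612f_nt.MModel
import Pool.Agent.Lib.MP_3e612f_nt.QCovUp

/-!
The values at multiples of `n` by two numbers are nearly independent.
-/

set_option autoImplicit false

namespace Pool.Agent.Lib.MP_3e612f_nt.MB

open Filter Topology
open Pool.Agent.Lib.MP_3e612f_nt.QA

section several

variable {ι : Type*} [Fintype ι] [DecidableEq ι] {q : ι → ℕ} {m : ℕ} {d : ι → ℕ}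
  {e : ∀ i, ℕ → Fin (d i) → ℤ} {C : ℝ}

theorem box_nonempty (d : ι → ℕ) {L : ℕ} (hL : 1 ≤ L) : (box d L).Nonempty := by
  refine ⟨0, ?_⟩
  unfold box
  rw [Fintype.mem_piFinset]
  intro i
  rw [Fintype.mem_piFinset]
  intro a
  rw [Finset.mem_Ico]
  refine ⟨le_rfl, ?_⟩
  show (0 : ℤ) < L
  exact_mod_cast hL

theorem mem_box {L : ℕ} {v : ∀ i, Fin (d i) → ℤ} (hv : v ∈ box d L) (i : ι) (a : Fin (d i)) :
    0 ≤ v i a ∧ v i a ≤ L := by
  unfold box at hv
  rw [Fintype.mem_piFinset] at hv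
  have h1 := hv i
  rw [Fintype.mem_piFinset] at h1
  have h2 := h1 a
  rw [Finset.mem_Ico] at h2
  exact ⟨h2.1, h2.2.le⟩

/-- the extension at the points of the coset -/
theorem extP_add {u x : ∀ i, Fin (d i) → ℤ} (h : ∀ i, x i - u i ∈ Lam (e i))
    (g : (∀ i, Fin (d i) → ℤ) → ℝ) (v : ∀ i, Fin (d i) → ℤ) :
    extP e u g (x + v) = g (x + lamP e v) := by
  unfold extP lamP
  congr 1
  funext i
  have h1 : jmin (e i) (u i) ((x + v) i) = jmin (e i) 0 (v i) := by
    refine jmin_congr ?_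
    have e1 : (x + v) i - u i - (v i - 0) = x i - u i := by
      rw [Pi.add_apply]
      abel
    rw [e1]
    exact h i
  rw [h1, Pi.add_apply, Pi.add_apply]
  unfold lamv
  rw [add_assoc]

theorem extP_abs {u : ∀ i, Fin (d i) → ℤ} {g : (∀ i, Fin (d i) → ℤ) → ℝ} (hg : ∀ x, |g x| ≤ 1)
    (x : ∀ i, Fin (d i) → ℤ) : |extP e u g x| ≤ 1 := hg _

/-- the values lie in a coset -/
theorem EE_coset (S : Sys q m e C) {P : ι → ℕ} (hP : ∀ i, (q i - 1) ∣ P i) (h : ℕ)
    (c z : ι → ℕ) (n : ℕ) (i : ι) :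
    EE q e h P c z n i - (c + z) i • e i 1 ∈ Lam (e i) :=
  coset_mem (S.base i) (S.qv i).gap h n (c i) (z i) (hP i)

/-- the averages in the model are bounded -/
theorem modelAv_abs {q : ι → ℕ} (hq : ∀ i, 2 ≤ q i) {k : ℕ} {g : (∀ i, Fin (d i) → ℤ) → ℝ} {B : ℝ}
    (hg : ∀ x, |g x| ≤ B) : |modelAv q e k g| ≤ B := by
  have hpos : (0 : ℝ) < ∏ i, (q i : ℝ) ^ lg (q i) k :=
    Finset.prod_pos fun i _ => qpow_posR (hq i) _
  unfold modelAv
  rw [abs_div, abs_of_pos hpos, div_le_iff₀ hpos]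
  refine (Finset.abs_sum_le_sum_abs _ _).trans ((Finset.sum_le_sum fun x _ => hg _).trans
    (le_of_eq ?_))
  rw [Finset.sum_const, Fintype.card_piFinset, nsmul_eq_mul, mul_comm]
  congr 1
  push_cast
  exact Finset.prod_congr rfl fun i _ => by rw [Finset.card_range]; push_cast; rfl

/-- averaging the approximate equalities -/
theorem avg_close_finset {β : Type*} (B : Finset β) (hB : B.Nonempty) {A c : ℝ} {T : β → ℝ}
    (h : ∀ v ∈ B, |A - T v| ≤ c) : |A - (∑ v ∈ B, T v) / B.card| ≤ c := by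
  have hc : (0 : ℝ) < B.card := by exact_mod_cast hB.card_pos
  have e1 : A - (∑ v ∈ B, T v) / B.card = (∑ v ∈ B, (A - T v)) / B.card := by
    rw [Finset.sum_sub_distrib, Finset.sum_const, nsmul_eq_mul]
    field_simp
  rw [e1, abs_div, abs_of_pos hc, div_le_iff₀ hc]
  refine (Finset.abs_sum_le_sum_abs _ _).trans ?_
  refine (Finset.sum_le_sum h).trans (le_of_eq ?_)
  rw [Finset.sum_const, nsmul_eq_mul, mul_comm]

/-- smoothing both sides -/
theorem smooth_both {k L : ℕ} (hL : 1 ≤ L) {u u' : ∀ i, Fin (d i) → ℤ}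
    {X X' : ℕ → ∀ i, Fin (d i) → ℤ} (hX : ∀ n i, X n i - u i ∈ Lam (e i))
    (hX' : ∀ n i, X' n i - u' i ∈ Lam (e i)) {g g' : (∀ i, Fin (d i) → ℤ) → ℝ} {ε : ℝ}
    (h : ∀ v v' : ∀ i, Fin (d i) → ℤ, (∀ i a, 0 ≤ v i a ∧ v i a ≤ L) →
      (∀ i a, 0 ≤ v' i a ∧ v' i a ≤ L) →
      |av 2 k (fun n => g (X n) * g' (X' n)) -
        av 2 k (fun n => g (X n + lamP e v) * g' (X' n + lamP e v'))| ≤ ε) :
    |av 2 k (fun n => g (X n) * g' (X' n)) -
      av 2 k (fun n => smoP L (extP e u g) (X n) * smoP L (extP e u' g') (X' n))| ≤ ε := by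
  have e1 : av 2 k (fun n => smoP L (extP e u g) (X n) * smoP L (extP e u' g') (X' n)) =
      (∑ v ∈ box d L, (∑ v' ∈ box d L, av 2 k (fun n => g (X n + lamP e v) *
        g' (X' n + lamP e v'))) / (box d L).card) / (box d L).card := by
    have e2 : (fun n => smoP L (extP e u g) (X n) * smoP L (extP e u' g') (X' n)) = fun n =>
        (∑ v ∈ box d L, (∑ v' ∈ box d L, g (X n + lamP e v) *
          g' (X' n + lamP e v')) / (box d L).card) / (box d L).card := by
      funext n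
      unfold smoP
      rw [div_mul_div_comm, Finset.sum_mul_sum, ← Finset.sum_div, div_div]
      congr 1
      refine Finset.sum_congr rfl fun v _ => Finset.sum_congr rfl fun v' _ => ?_
      rw [extP_add (hX n), extP_add (hX' n)]
    rw [e2, av_div, av_finset_sum]
    congr 1
    refine Finset.sum_congr rfl fun v _ => ?_
    rw [av_div, av_finset_sum]
  rw [e1]
  refine avg_close_finset _ (box_nonempty d hL) fun v hv => ?_
  refine avg_close_finset _ (box_nonempty d hL) fun v' hv' => ?_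
  exact h v v' (mem_box hv) (mem_box hv')

/-- M27: the values at multiples of `n` by two numbers are nearly independent -/
theorem pair_all' (S : Sys q m e C) {Q : ι → ℕ} (hQ : ∀ i, (Q i).Coprime (q i))
    (hQd : ∀ i, (q i - 1) ∣ Q i) {ε : ℝ} (hε : 0 < ε) :
    ∃ r₀ : ℕ, ∀ p r : ℕ, 1 ≤ p → (∀ i, p.Coprime (q i)) → (∀ i, r.Coprime (q i)) → p.Coprime r →
      r₀ ≤ r → (∀ i, 2 * q i ^ m * p ≤ r) → ∀ h Y : ℕ, ∀ᶠ k : ℕ in atTop, ∀ y ≤ Y,
      ∀ c z c' z' : ι → ℕ, Bd q h (fun i => p * Q i) c z → Bd q h (fun i => r * Q i) c' z' →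
      ∀ g g' : (∀ i, Fin (d i) → ℤ) → ℝ, (∀ x, |g x| ≤ 1) → (∀ x, |g' x| ≤ 1) →
        |av 2 k (fun n => g (EE q e h (fun i => p * Q i) c z (2 ^ k * y + n)) *
          g' (EE q e h (fun i => r * Q i) c' z' (2 ^ k * y + n))) -
          mmean q e k (c + z) g * mmean q e k (c' + z') g'| ≤ ε := by
  obtain ⟨η, hη, hslow⟩ := slow_pair S (ε := ε / 4) (by positivity)
  choose r₀ hr₀ using fun i => cov_small (q := q i) (m := m) (S.base i) hη
  obtain ⟨Km, hKm0, hKm⟩ := model_smooth S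
  refine ⟨∑ i, r₀ i, fun p r hp1 hpq hrq hpr hr hpr2 h Y => ?_⟩
  have hri : ∀ i, r₀ i ≤ r := fun i =>
    (Finset.single_le_sum (f := r₀) (fun _ _ => Nat.zero_le _) (Finset.mem_univ i)).trans hr
  have hQ1 : ∀ i, 1 ≤ Q i := by
    intro i
    rcases Nat.eq_zero_or_pos (Q i) with h0 | h0
    · have h1 := hQ i
      rw [h0, Nat.coprime_zero_left] at h1
      have := S.base i
      omega
    · exact h0
  have hmul : Mul q m (fun i => p * Q i) (fun i => r * Q i) := by
    refine ⟨fun i => Nat.Coprime.mul_left (hpq i) (hQ i),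
      fun i => Nat.Coprime.mul_left (hrq i) (hQ i), fun i => Nat.mul_pos hp1 (hQ1 i), fun i => ?_⟩
    calc 2 * q i ^ m * (p * Q i) = (2 * q i ^ m * p) * Q i := by ring
      _ ≤ r * Q i := Nat.mul_le_mul_right _ (hpr2 i)
  choose Kc hKc0 hKc using fun i =>
    hr₀ i p r (Q i) hp1 (hQ1 i) (hpq i) (hrq i) (hQ i) hpr (hri i)
  have hcov : ∀ i (F F' : ℕ → ℝ) (C₁ C₂ : ℝ), QR (q i) m F C₁ → QR (q i) m F' C₂ → ∀ w : ℕ,
      |cov (q i) w (fun n => F (p * Q i * n % q i ^ w)) (fun n => F' (r * Q i * n % q i ^ w))| ≤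
        (η * w + ∑ i, Kc i) * C₁ * C₂ := by
    intro i F F' C₁ C₂ h1 h2 w
    refine (hKc i F F' C₁ C₂ h1 h2 w).trans ?_
    refine mul_le_mul_of_nonneg_right (mul_le_mul_of_nonneg_right ?_ h1.nonneg) h2.nonneg
    have := Finset.single_le_sum (f := Kc) (fun i _ => hKc0 i) (Finset.mem_univ i)
    linarith
  obtain ⟨κ₁, hκ₁, htv⟩ := tv_box S hmul h Y (ε := ε / 4) (by positivity)
  set κ : ℝ := min κ₁ (ε / (16 * (Km + 1))) with hκ
  have hκ0 : 0 < κ := lt_min hκ₁ (by positivity)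
  have hκm : Km * κ ≤ ε / 16 := by
    have h1 : κ ≤ ε / (16 * (Km + 1)) := min_le_right _ _
    calc Km * κ ≤ (Km + 1) * (ε / (16 * (Km + 1))) :=
          mul_le_mul (by linarith) h1 hκ0.le (by linarith)
      _ = ε / 16 := by
          field_simp
  have hs := hslow (fun i => p * Q i) (fun i => r * Q i) hmul.cP hmul.cR _ hcov (4 / κ) h Y
  have hbig : ∀ᶠ k : ℕ in atTop, (2 / κ) / Real.sqrt ((k : ℝ) + 1) ≤ 1 :=
    (tendsto_div_sqrt (2 / κ)).eventually_le_const one_pos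
  filter_upwards [htv, hs, hbig] with k hk1 hk2 hk3 y hy c z c' z' hcz hcz' g g' hg hg'
  set w : ℝ := Real.sqrt ((k : ℝ) + 1) with hw
  have hw1 : 1 ≤ w := Real.one_le_sqrt.mpr (by linarith [(Nat.cast_nonneg k : (0 : ℝ) ≤ k)])
  have hw0 : 0 < w := by linarith
  have hκw : 2 ≤ κ * w := by
    rw [div_le_iff₀ hw0, div_le_iff₀ hκ0] at hk3
    linarith
  set L : ℕ := ⌊κ * w⌋₊ with hL
  have hL0 : (L : ℝ) ≤ κ * w := Nat.floor_le (by positivity)
  have hL1 : κ * w < L + 1 := Nat.lt_floor_add_one _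
  have hL2 : κ * w / 2 ≤ L := by linarith
  have hL3 : 1 ≤ L := by
    have : (1 : ℝ) < L + 1 := by linarith
    have h2 : (0 : ℝ) < L := by linarith
    exact_mod_cast h2
  have hLpos : (0 : ℝ) < L := by exact_mod_cast hL3
  have hδ : 2 / (L : ℝ) ≤ 4 / κ / w := by
    rw [div_div, div_le_div_iff₀ hLpos (by positivity)]
    linarith
  have hmono : ∀ {G : (∀ i, Fin (d i) → ℤ) → ℝ}, SlowP (2 / (L : ℝ)) G → SlowP (4 / κ / w) G :=
    fun h1 => ⟨h1.1, fun x i a => (h1.2 x i a).trans hδ⟩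
  have hPd : ∀ i, (q i - 1) ∣ p * Q i := fun i => (hQd i).mul_left p
  have hRd : ∀ i, (q i - 1) ∣ r * Q i := fun i => (hQd i).mul_left r
  set u : ∀ i, Fin (d i) → ℤ := fun i => (c + z) i • e i 1 with hu
  set u' : ∀ i, Fin (d i) → ℤ := fun i => (c' + z') i • e i 1 with hu'
  have s1 := smooth_both (e := e) (k := k) hL3 (u := u) (u' := u')
    (X := fun n => EE q e h (fun i => p * Q i) c z (2 ^ k * y + n))
    (X' := fun n => EE q e h (fun i => r * Q i) c' z' (2 ^ k * y + n))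
    (fun n i => EE_coset S hPd h c z _ i) (fun n i => EE_coset S hRd h c' z' _ i)
    (g := g) (g' := g') (ε := ε / 4) (fun v v' hv hv' => by
      refine hk1 y hy c z c' z' hcz hcz' L (hL0.trans ?_) v v' hv hv'
        (fun x x' => g x * g' x') (fun x x' => ?_)
      · exact mul_le_mul_of_nonneg_right (min_le_left _ _) hw0.le
      · rw [abs_mul]
        exact mul_le_one₀ (hg _) (abs_nonneg _) (hg' _))
  have hG : SlowP (2 / (L : ℝ)) (smoP L (extP e u g)) := smoP_slow hL3 (fun x => extP_abs hg x)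
  have hG' : SlowP (2 / (L : ℝ)) (smoP L (extP e u' g')) :=
    smoP_slow hL3 (fun x => extP_abs hg' x)
  have s2 := hk2 y hy c z c' z' hcz hcz' _ _ (hmono hG) (hmono hG')
  have hKL : Km * L / w ≤ ε / 16 := by
    rw [div_le_iff₀ hw0]
    calc Km * L ≤ Km * (κ * w) := mul_le_mul_of_nonneg_left hL0 hKm0
      _ = Km * κ * w := by ring
      _ ≤ ε / 16 * w := mul_le_mul_of_nonneg_right hκm hw0.le
  have s3 : |mmean q e k (c + z) g - modelAv q e k (smoP L (extP e u g))| ≤ ε / 16 :=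
    (hKm k L hL3 (extP e u g) (fun x => extP_abs hg x)).trans hKL
  have s4 : |mmean q e k (c' + z') g' - modelAv q e k (smoP L (extP e u' g'))| ≤ ε / 16 :=
    (hKm k L hL3 (extP e u' g') (fun x => extP_abs hg' x)).trans hKL
  set A := av 2 k (fun n => g (EE q e h (fun i => p * Q i) c z (2 ^ k * y + n)) *
    g' (EE q e h (fun i => r * Q i) c' z' (2 ^ k * y + n))) with hA
  set B := av 2 k (fun n => smoP L (extP e u g) (EE q e h (fun i => p * Q i) c z (2 ^ k * y + n)) *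
    smoP L (extP e u' g') (EE q e h (fun i => r * Q i) c' z' (2 ^ k * y + n))) with hB
  set α := mmean q e k (c + z) g with hα
  set α' := mmean q e k (c' + z') g' with hα'
  set β := modelAv q e k (smoP L (extP e u g)) with hβ
  set β' := modelAv q e k (smoP L (extP e u' g')) with hβ'
  have b1 : |β| ≤ 1 := modelAv_abs S.base hG.1
  have b2 : |α'| ≤ 1 := modelAv_abs S.base (fun x => extP_abs hg' x)
  have s5 : |α * α' - β * β'| ≤ ε / 8 := by
    have e1 : α * α' - β * β' = (α - β) * α' + β * (α' - β') := by ring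
    rw [e1]
    refine (abs_add_le _ _).trans ?_
    rw [abs_mul, abs_mul]
    have t1 := mul_le_of_le_one_right (abs_nonneg (α - β)) b2
    have t2 := mul_le_of_le_one_left (abs_nonneg (α' - β')) b1
    linarith
  have t1 := abs_le.mp s1
  have t2 := abs_le.mp s2
  have t3 := abs_le.mp s5
  rw [abs_le]
  constructor
  · linarith [t1.1, t2.1, t3.2]
  · linarith [t1.2, t2.2, t3.1]

end several

end Pool.Agent.Lib.MP_3e612f_nt.MB
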