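import Pool.Agent.Lib.MP_3e612f_nt.MDefs

/-!
Every pair of defects is a second difference.
-/

set_option autoImplicit false

namespace Pool.Agent.Lib.MP_3e612f_nt.MB

open Filter Topology
open Pool.Agent.Lib.MP_3e612f_nt.QA

section pairs

variable {H : Type*} [AddCommGroup H] {q m P R : ℕ} {e : ℕ → H}

/-- the set of the second differences is closed under addition -/
theorem m1_add (hq : 2 ≤ q) (he : ∀ a y s : ℕ, s < q ^ a → e (q ^ (a + m) * y + s) = e y + e s)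
    (P R ρ₁ x₁ x₁' ρ₂ x₂ x₂' : ℕ) : ∃ ρ x x' : ℕ,
      e (P * (x + ρ)) - e (P * x) - (e (P * (x' + ρ)) - e (P * x')) =
        e (P * (x₁ + ρ₁)) - e (P * x₁) - (e (P * (x₁' + ρ₁)) - e (P * x₁')) +
        (e (P * (x₂ + ρ₂)) - e (P * x₂) - (e (P * (x₂' + ρ₂)) - e (P * x₂'))) ∧
      e (R * (x + ρ)) - e (R * x) - (e (R * (x' + ρ)) - e (R * x')) =
        e (R * (x₁ + ρ₁)) - e (R * x₁) - (e (R * (x₁' + ρ₁)) - e (R * x₁')) +
        (e (R * (x₂ + ρ₂)) - e (R * x₂) - (e (R * (x₂' + ρ₂)) - e (R * x₂'))) := by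
  obtain ⟨b, hb⟩ : ∃ b, P * (x₁ + ρ₁) + P * (x₁' + ρ₁) + (R * (x₁ + ρ₁) + R * (x₁' + ρ₁)) < q ^ b :=
    ⟨_, Nat.lt_pow_self (by omega)⟩
  have hcat : ∀ M y s : ℕ, M * s < q ^ b →
      e (M * (q ^ (b + m) * y + s)) = e (M * y) + e (M * s) := by
    intro M y s hs
    rw [← he b (M * y) (M * s) hs]
    congr 1
    ring
  have hP1 : P * (x₁ + ρ₁) < q ^ b := by omega
  have hP2 : P * (x₁' + ρ₁) < q ^ b := by omega
  have hR1 : R * (x₁ + ρ₁) < q ^ b := by omega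
  have hR2 : R * (x₁' + ρ₁) < q ^ b := by omega
  have hP3 : P * x₁ < q ^ b := lt_of_le_of_lt (Nat.mul_le_mul_left _ (Nat.le_add_right _ _)) hP1
  have hP4 : P * x₁' < q ^ b := lt_of_le_of_lt (Nat.mul_le_mul_left _ (Nat.le_add_right _ _)) hP2
  have hR3 : R * x₁ < q ^ b := lt_of_le_of_lt (Nat.mul_le_mul_left _ (Nat.le_add_right _ _)) hR1
  have hR4 : R * x₁' < q ^ b := lt_of_le_of_lt (Nat.mul_le_mul_left _ (Nat.le_add_right _ _)) hR2
  have hx : q ^ (b + m) * x₂ + x₁ + (q ^ (b + m) * ρ₂ + ρ₁) =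
      q ^ (b + m) * (x₂ + ρ₂) + (x₁ + ρ₁) := by ring
  have hx' : q ^ (b + m) * x₂' + x₁' + (q ^ (b + m) * ρ₂ + ρ₁) =
      q ^ (b + m) * (x₂' + ρ₂) + (x₁' + ρ₁) := by ring
  refine ⟨q ^ (b + m) * ρ₂ + ρ₁, q ^ (b + m) * x₂ + x₁, q ^ (b + m) * x₂' + x₁', ?_, ?_⟩
  · rw [hx, hx', hcat P _ _ hP1, hcat P _ _ hP2, hcat P _ _ hP3, hcat P _ _ hP4]
    abel
  · rw [hx, hx', hcat R _ _ hR1, hcat R _ _ hR2, hcat R _ _ hR3, hcat R _ _ hR4]
    abel

/-- the group of the second differences -/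
def m1_S (hq : 2 ≤ q) (he : ∀ a y s : ℕ, s < q ^ a → e (q ^ (a + m) * y + s) = e y + e s)
    (P R : ℕ) : AddSubgroup (H × H) where
  carrier := {w | ∃ ρ x x' : ℕ,
    e (P * (x + ρ)) - e (P * x) - (e (P * (x' + ρ)) - e (P * x')) = w.1 ∧
    e (R * (x + ρ)) - e (R * x) - (e (R * (x' + ρ)) - e (R * x')) = w.2}
  add_mem' := by
    rintro w w' ⟨ρ₁, x₁, x₁', h1, h2⟩ ⟨ρ₂, x₂, x₂', h3, h4⟩
    obtain ⟨ρ, x, x', h5, h6⟩ := m1_add hq he P R ρ₁ x₁ x₁' ρ₂ x₂ x₂'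
    refine ⟨ρ, x, x', ?_, ?_⟩
    · rw [h5, h1, h3]
      rfl
    · rw [h6, h2, h4]
      rfl
  zero_mem' := ⟨0, 0, 0, by simp, by simp⟩
  neg_mem' := by
    rintro w ⟨ρ, x, x', h1, h2⟩
    refine ⟨ρ, x', x, ?_, ?_⟩
    · rw [Prod.fst_neg, ← h1]
      abel
    · rw [Prod.snd_neg, ← h2]
      abel

theorem m1_mem (hq : 2 ≤ q) (he : ∀ a y s : ℕ, s < q ^ a → e (q ^ (a + m) * y + s) = e y + e s)
    (P R x ρ : ℕ) : ((e (P * (x + ρ)) - e (P * x) - e (P * ρ),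
      e (R * (x + ρ)) - e (R * x) - e (R * ρ)) : H × H) ∈ m1_S hq he P R := by
  refine ⟨ρ, x, 0, ?_, ?_⟩
  · rw [zero_add, mul_zero, q1_zero he, sub_zero]
  · rw [zero_add, mul_zero, q1_zero he, sub_zero]

theorem m1_A {K : AddSubgroup (H × H)} (hK : ∀ x ρ, (e (P * (x + ρ)) - e (P * x) - e (P * ρ),
      e (R * (x + ρ)) - e (R * x) - e (R * ρ)) ∈ K) (hq : 2 ≤ q)
    (he : ∀ a y s : ℕ, s < q ^ a → e (q ^ (a + m) * y + s) = e y + e s)
    (hPR : 2 * q ^ m * P ≤ R) (hP1 : 1 ≤ P) (z : ℕ) :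
    ((0 : H), e (1 + R * z) - e 1 - e (R * z)) ∈ K := by
  have hqm := qpow_pos hq m
  have hR1 : 1 ≤ R := by
    have : 1 ≤ 2 * q ^ m * P := Nat.mul_pos (by omega) hP1
    omega
  obtain ⟨a, ha⟩ : ∃ a, 2 * P + R ≤ q ^ a := ⟨2 * P + R, (Nat.lt_pow_self (by omega)).le⟩
  obtain ⟨x0, s, hx0, hs⟩ := q2_ceil hR1 (q ^ (a + m))
  have hPx : P * x0 < q ^ a := by
    have h1 : R * (P * x0) < R * q ^ a := by
      calc R * (P * x0) = P * (R * x0) := by ring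
        _ = P * (q ^ (a + m) + s) := by rw [hx0]
        _ < P * (q ^ (a + m) + R) := Nat.mul_lt_mul_of_pos_left (by omega) hP1
        _ = (q ^ m * P) * q ^ a + P * R := by rw [pow_add]; ring
        _ ≤ R * q ^ a := by
          have h2 : 2 * ((q ^ m * P) * q ^ a) ≤ R * q ^ a := by
            calc 2 * ((q ^ m * P) * q ^ a) = (2 * q ^ m * P) * q ^ a := by ring
              _ ≤ R * q ^ a := Nat.mul_le_mul_right _ hPR
          have h3 : 2 * (P * R) ≤ R * q ^ a := by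
            calc 2 * (P * R) = R * (2 * P) := by ring
              _ ≤ R * q ^ a := Nat.mul_le_mul_left _ (by omega)
          omega
    exact Nat.lt_of_mul_lt_mul_left h1
  have g1 := hK x0 (q ^ (a + m) * z)
  have e1 : P * (x0 + q ^ (a + m) * z) = q ^ (a + m) * (P * z) + P * x0 := by ring
  have e2 : R * (x0 + q ^ (a + m) * z) = q ^ (a + m) * (1 + R * z) + s := by
    calc R * (x0 + q ^ (a + m) * z) = R * x0 + q ^ (a + m) * (R * z) := by ring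
      _ = _ := by rw [hx0]; ring
  have e3 : R * x0 = q ^ (a + m) * 1 + s := by rw [hx0, mul_one]
  have e4 : P * (q ^ (a + m) * z) = q ^ (a + m) * (P * z) := by ring
  have e5 : R * (q ^ (a + m) * z) = q ^ (a + m) * (R * z) := by ring
  rw [e1, e2, he a _ _ hPx, he a _ _ (by omega), e3, he a 1 _ (by omega), e4, e5,
    q2_pow_mul he hq, q2_pow_mul he hq] at g1
  have e6 : e (P * z) + e (P * x0) - e (P * x0) - e (P * z) = 0 := by abel
  have e7 : e (1 + R * z) + e s - (e 1 + e s) - e (R * z) = e (1 + R * z) - e 1 - e (R * z) := by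
    abel
  rwa [e6, e7] at g1

theorem m1_snd {K : AddSubgroup (H × H)} (hK : ∀ x ρ, (e (P * (x + ρ)) - e (P * x) - e (P * ρ),
      e (R * (x + ρ)) - e (R * x) - e (R * ρ)) ∈ K) (hq : 2 ≤ q)
    (he : ∀ a y s : ℕ, s < q ^ a → e (q ^ (a + m) * y + s) = e y + e s) (hR : R.Coprime q)
    (hPR : 2 * q ^ m * P ≤ R) (hP1 : 1 ≤ P) {v' : H} (hv' : v' ∈ Lam e) :
    ((0 : H), v') ∈ K := by
  have h := q2_gen (S := K.comap (AddMonoidHom.inr H H)) (q1_zero he) (by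
    intro n
    obtain ⟨z, hz⟩ := q2_inv hq he hR n
    rw [AddSubgroup.mem_comap, ← hz]
    exact m1_A hK hq he hPR hP1 z)
  exact h hv'

theorem m1_C {K : AddSubgroup (H × H)} (hK : ∀ x ρ, (e (P * (x + ρ)) - e (P * x) - e (P * ρ),
      e (R * (x + ρ)) - e (R * x) - e (R * ρ)) ∈ K) (hq : 2 ≤ q)
    (he : ∀ a y s : ℕ, s < q ^ a → e (q ^ (a + m) * y + s) = e y + e s) (hR : R.Coprime q)
    (hPR : 2 * q ^ m * P ≤ R) (hP1 : 1 ≤ P) (z : ℕ) :
    (e (1 + P * z) - e 1 - e (P * z), (0 : H)) ∈ K := by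
  have hqm := qpow_pos hq m
  obtain ⟨a, ha⟩ : ∃ a, P ≤ q ^ a := ⟨P, (Nat.lt_pow_self (by omega)).le⟩
  obtain ⟨x0, s, hx0, hs⟩ := q2_ceil hP1 (q ^ (a + m))
  have g1 := hK x0 (q ^ (a + m) * z)
  have e2 : P * (x0 + q ^ (a + m) * z) = q ^ (a + m) * (1 + P * z) + s := by
    calc P * (x0 + q ^ (a + m) * z) = P * x0 + q ^ (a + m) * (P * z) := by ring
      _ = _ := by rw [hx0]; ring
  have e3 : P * x0 = q ^ (a + m) * 1 + s := by rw [hx0, mul_one]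
  have e4 : P * (q ^ (a + m) * z) = q ^ (a + m) * (P * z) := by ring
  have h2 : e (R * (x0 + q ^ (a + m) * z)) - e (R * x0) - e (R * (q ^ (a + m) * z)) ∈ Lam e := by
    have h3 := lam_add e (R * x0) (R * (q ^ (a + m) * z))
    rwa [← mul_add] at h3
  have h4 := K.sub_mem g1 (m1_snd hK hq he hR hPR hP1 h2)
  rw [Prod.mk_sub_mk, sub_self, sub_zero, e2, e3, e4, he a _ _ (by omega), he a 1 _ (by omega),
    q2_pow_mul he hq] at h4
  have e7 : e (1 + P * z) + e s - (e 1 + e s) - e (P * z) = e (1 + P * z) - e 1 - e (P * z) := by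
    abel
  rwa [e7] at h4

theorem m1_fst {K : AddSubgroup (H × H)} (hK : ∀ x ρ, (e (P * (x + ρ)) - e (P * x) - e (P * ρ),
      e (R * (x + ρ)) - e (R * x) - e (R * ρ)) ∈ K) (hq : 2 ≤ q)
    (he : ∀ a y s : ℕ, s < q ^ a → e (q ^ (a + m) * y + s) = e y + e s) (hP : P.Coprime q)
    (hR : R.Coprime q) (hPR : 2 * q ^ m * P ≤ R) (hP1 : 1 ≤ P) {v : H} (hv : v ∈ Lam e) :
    (v, (0 : H)) ∈ K := by
  have h := q2_gen (S := K.comap (AddMonoidHom.inl H H)) (q1_zero he) (by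
    intro n
    obtain ⟨z, hz⟩ := q2_inv hq he hP n
    rw [AddSubgroup.mem_comap, ← hz]
    exact m1_C hK hq he hR hPR hP1 z)
  exact h hv

end pairs

/-- M1: every pair of defects is a second difference -/
theorem second_pair {H : Type*} [AddCommGroup H] {q m : ℕ} (hq : 2 ≤ q) {e : ℕ → H}
    (he : ∀ a y s : ℕ, s < q ^ a → e (q ^ (a + m) * y + s) = e y + e s) {P R : ℕ}
    (hP : P.Coprime q) (hR : R.Coprime q) (hPR : 2 * q ^ m * P ≤ R) (hP1 : 1 ≤ P) {v v' : H}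
    (hv : v ∈ Lam e) (hv' : v' ∈ Lam e) :
    ∃ ρ x x' : ℕ, x ≠ x' ∧
      e (P * (x + ρ)) - e (P * x) - (e (P * (x' + ρ)) - e (P * x')) = v ∧
      e (R * (x + ρ)) - e (R * x) - (e (R * (x' + ρ)) - e (R * x')) = v' := by
  have hK := m1_mem hq he P R
  have h := (m1_S hq he P R).add_mem (m1_fst hK hq he hP hR hPR hP1 hv)
    (m1_snd hK hq he hR hPR hP1 hv')
  rw [Prod.mk_add_mk, add_zero, zero_add] at h
  obtain ⟨ρ, x, x', h1, h2⟩ := h
  rcases eq_or_ne x x' with heq | hne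
  · subst heq
    rw [sub_self] at h1 h2
    refine ⟨0, 0, 1, by decide, ?_, ?_⟩
    · rw [add_zero, add_zero, sub_self, sub_self, sub_self]
      exact h1
    · rw [add_zero, add_zero, sub_self, sub_self, sub_self]
      exact h2
  · exact ⟨ρ, x, x', hne, h1, h2⟩

end Pool.Agent.Lib.MP_3e612f_nt.MB
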