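import Mathlib

/-!
Splitting a real polynomial into a part which is constant or has an irrational leading
coefficient and a part which is periodic modulo 1 (task T16 of MP_3e612f_nt).
-/

namespace Pool.Agent.Lib.MP_3e612f_nt.SA

open Polynomial in
theorem poly_split (P : Polynomial ℝ) : ∃ (P₁ P₂ : Polynomial ℝ) (Q : ℕ), P = P₁ + P₂ ∧
    1 ≤ Q ∧ (P₁.natDegree = 0 ∨ (1 ≤ P₁.natDegree ∧ Irrational P₁.leadingCoeff)) ∧
    ∀ n : ℕ, ∃ j : ℤ, P₂.eval (n : ℝ) = P₂.eval ((n % Q : ℕ) : ℝ) + j := by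
  induction hD : P.natDegree using Nat.strong_induction_on generalizing P with
  | _ D ih =>
    rcases Nat.eq_zero_or_pos D with h0 | h0
    · exact ⟨P, 0, 1, by simp, le_rfl, Or.inl (by rw [hD, h0]), fun n => ⟨0, by simp⟩⟩
    by_cases hirr : Irrational P.leadingCoeff
    · exact ⟨P, 0, 1, by simp, le_rfl, Or.inr ⟨by rw [hD]; exact h0, hirr⟩,
        fun n => ⟨0, by simp⟩⟩
    rw [Irrational, not_not] at hirr
    obtain ⟨q, hq⟩ := hirr
    have hlt : P.eraseLead.natDegree < D := by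
      have := P.eraseLead_natDegree_le
      omega
    obtain ⟨P₁, P₂, Q, hP, hQ, hP₁, hP₂⟩ := ih _ hlt P.eraseLead rfl
    refine ⟨P₁, P₂ + monomial P.natDegree P.leadingCoeff, Q * q.den, ?_, ?_, hP₁, ?_⟩
    · rw [← add_assoc, ← hP, P.eraseLead_add_monomial_natDegree_leadingCoeff]
    · exact Nat.mul_pos hQ q.den_pos
    · intro n
      obtain ⟨j1, hj1⟩ := hP₂ n
      obtain ⟨j2, hj2⟩ := hP₂ (n % (Q * q.den))
      rw [Nat.mod_mul_right_mod] at hj2
      have hdvd : ((q.den : ℤ)) ∣ (n : ℤ) ^ P.natDegree - ((n % (Q * q.den) : ℕ) : ℤ) ^ P.natDegree := by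
        refine dvd_trans ?_ (sub_dvd_pow_sub_pow _ _ _)
        refine dvd_trans (b := ((Q * q.den : ℕ) : ℤ)) ⟨Q, by push_cast; ring⟩ ?_
        rw [Int.natCast_mod]
        exact Int.dvd_self_sub_emod
      obtain ⟨c, hc⟩ := hdvd
      refine ⟨j1 - j2 + q.num * c, ?_⟩
      have hcR : (n : ℝ) ^ P.natDegree - ((n % (Q * q.den) : ℕ) : ℝ) ^ P.natDegree =
          q.den * c := by
        have := congrArg (Int.cast : ℤ → ℝ) hc
        push_cast at this ⊢
        exact_mod_cast this
      have hqR : P.leadingCoeff * q.den = q.num := by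
        rw [← hq]
        exact_mod_cast Rat.mul_den_eq_num q
      rw [eval_add, eval_add, eval_monomial, eval_monomial, hj1, hj2]
      have : P.leadingCoeff * (n : ℝ) ^ P.natDegree =
          P.leadingCoeff * ((n % (Q * q.den) : ℕ) : ℝ) ^ P.natDegree + q.num * c := by
        have h1 : (n : ℝ) ^ P.natDegree = ((n % (Q * q.den) : ℕ) : ℝ) ^ P.natDegree + q.den * c := by
          linarith
        rw [h1, mul_add, ← mul_assoc, hqR]
      rw [this]
      push_cast
      ring

end Pool.Agent.Lib.MP_3e612f_nt.SA
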