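import Pool.Agent.Lib.MP_3e612f_nt.PCore
import Pool.Agent.Lib.MP_3e612f_nt.PSplit
import Pool.Agent.Lib.MP_3e612f_nt.SSchur

/-!
Polynomial phases: the Möbius function is orthogonal, in logarithmic averages, to every bounded
function of a pair formed by an automatic sequence and a quasi-additive function, twisted by an
arbitrary polynomial phase.
-/

set_option autoImplicit false

namespace Pool.Agent.Lib.MP_3e612f_nt.SA

open Filter Topology QA

/-- passage from the classes modulo `q ^ h * (q - 1)` to the classes modulo `q ^ h` -/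
theorem core_cls {h : ℕ} {q : ℕ} (hq : 2 ≤ q) {G c : ℕ → ℝ}
    (hcl : ∀ b, Tendsto (LogAvg fun n => mu n * (c n *
      (if n % (q ^ h * (q - 1)) = b then G n else 0))) atTop (𝓝 0)) (a : ℕ) :
    Tendsto (LogAvg fun n => mu n * (c n * (if n % q ^ h = a then G n else 0))) atTop (𝓝 0) := by
  have hM : 0 < q ^ h * (q - 1) := Nat.mul_pos (by positivity) (by omega)
  have h1 := tendsto_finset ((Finset.range (q ^ h * (q - 1))).filter fun b => b % q ^ h = a)
    (fun b n => mu n * (c n * (if n % (q ^ h * (q - 1)) = b then G n else 0)))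
    (fun b _ => hcl b)
  refine h1.congr fun N => LogAvg_congr fun n _ _ => ?_
  rw [← Finset.mul_sum, ← Finset.mul_sum, Finset.sum_ite_eq]
  have hmem : n % (q ^ h * (q - 1)) ∈ (Finset.range (q ^ h * (q - 1))).filter
      (fun b => b % q ^ h = a) ↔ n % q ^ h = a := by
    rw [Finset.mem_filter, Finset.mem_range, Nat.mod_mod_of_dvd _ (Dvd.intro _ rfl)]
    exact ⟨fun h => h.2, fun h => ⟨Nat.mod_lt _ hM, h⟩⟩
  by_cases hn : n % q ^ h = a
  · rw [if_pos (hmem.mpr hn), if_pos hn]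
  · rw [if_neg (fun h => hn (hmem.mp h)), if_neg hn]

theorem real_poly {q m d : ℕ} (hq : 2 ≤ q) {A : Type*} {a : ℕ → A}
    (ha : {g : ℕ → A | ∃ k r : ℕ, r < q ^ k ∧ g = fun n => a (q ^ k * n + r)}.Finite)
    {e : ℕ → Fin d → ℤ} {C : ℝ} (he : QV q m e C) (P : Polynomial ℝ) {Ψ : A → (Fin d → ℤ) → ℝ}
    (hΨ : ∀ x v, |Ψ x v| ≤ 1) :
    Tendsto (LogAvg fun n => mu n * (Real.cos (2 * Real.pi * P.eval (n : ℝ)) * Ψ (a n) (e n)))
      atTop (𝓝 0) := by
  obtain ⟨P₁, P₂, Q₀, hP, hQ₀, hcase, hper⟩ := poly_split P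
  obtain ⟨w₁, h₁, hw₁, hdvd⟩ := exists_base hq hQ₀
  have hq₁ : 2 ≤ q ^ w₁ := by
    calc 2 ≤ q := hq
      _ = q ^ 1 := (pow_one q).symm
      _ ≤ q ^ w₁ := Nat.pow_le_pow_right (by omega) hw₁
  obtain ⟨C₁, he₁⟩ := QV.pow hq he hw₁
  obtain ⟨w, m', l, e', C', ι, S, _, β, ω, hw, hm', hβ, he', hι, hrep, hcl⟩ :=
    setup hq₁ (kernel_pow (w := w₁) ha) he₁
  have hQ : 2 ≤ (q ^ w₁) ^ w := by
    calc 2 ≤ q ^ w₁ := hq₁
      _ = (q ^ w₁) ^ 1 := (pow_one _).symm
      _ ≤ (q ^ w₁) ^ w := Nat.pow_le_pow_right (by omega) hw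
  have hd1 : q ^ w₁ - 1 ∣ (q ^ w₁) ^ w - 1 := Nat.sub_one_dvd_pow_sub_one _ _
  refine from_blocks hQ hm' hβ he' ω hι hrep
    (c := fun n => Real.cos (2 * Real.pi * P.eval (n : ℝ)))
    (fun n => Real.abs_cos_le_one _) h₁ (fun h r hh B hB => core_cls hQ (fun b => ?_) r) hΨ
  have hdvd' : Q₀ ∣ ((q ^ w₁) ^ w) ^ h * ((q ^ w₁) ^ w - 1) := by
    refine hdvd.trans (Nat.mul_dvd_mul ?_ hd1)
    rw [← pow_mul (q ^ w₁) w h]
    refine pow_dvd_pow _ ?_
    calc h₁ ≤ h := hh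
      _ ≤ w * h := Nat.le_mul_of_pos_left _ hw
  set M : ℕ := ((q ^ w₁) ^ w) ^ h * ((q ^ w₁) ^ w - 1) with hM
  set t : ℝ := P₂.eval ((b % Q₀ : ℕ) : ℝ) with ht
  -- on the class the second polynomial is constant modulo one
  have hcos : ∀ n : ℕ, n % M = b → Real.cos (2 * Real.pi * P.eval (n : ℝ)) =
      Real.cos (2 * Real.pi * (P₁ + Polynomial.C t).eval (n : ℝ)) := by
    intro n hn
    obtain ⟨j, hj⟩ := hper n
    have h1 : n % Q₀ = b % Q₀ := by
      rw [← hn, Nat.mod_mod_of_dvd _ hdvd']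
    rw [hP, Polynomial.eval_add, Polynomial.eval_add, Polynomial.eval_C, hj, h1, ← ht]
    have h2 : 2 * Real.pi * (P₁.eval (n : ℝ) + (t + j)) =
        2 * Real.pi * (P₁.eval (n : ℝ) + t) + (j : ℝ) * (2 * Real.pi) := by ring
    rw [h2, Real.cos_add_int_mul_two_pi]
  have hgoal : Tendsto (LogAvg fun n => mu n * (Real.cos (2 * Real.pi *
      (P₁ + Polynomial.C t).eval (n : ℝ)) * (if n % M = b then
        B (β (n / ((q ^ w₁) ^ w) ^ h) * β ω) (e' (n / ((q ^ w₁) ^ w) ^ h)) else 0)))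
      atTop (𝓝 0) := by
    rcases hcase with h0 | ⟨h1, h2⟩
    · have h3 : ∀ n : ℕ, P₁.eval (n : ℝ) = P₁.coeff 0 := by
        intro n
        rw [Polynomial.eq_C_of_natDegree_eq_zero h0]
        simp
      have h4 := (hcl h b B hB).const_mul (Real.cos (2 * Real.pi * (P₁.coeff 0 + t)))
      rw [mul_zero] at h4
      refine h4.congr fun N => ?_
      rw [← LogAvg_const_mul]
      refine LogAvg_congr fun n _ _ => ?_
      rw [Polynomial.eval_add, Polynomial.eval_C, h3]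
      ring
    · set γ : ℕ → S × Multiplicative (Fin l → ℤ) := fun n => (β n, Multiplicative.ofAdd (e' n))
        with hγ
      have hγg : ∀ a y s : ℕ, s < ((q ^ w₁) ^ w) ^ a →
          γ (((q ^ w₁) ^ w) ^ (a + m') * y + s) = γ y * γ s := by
        intro a y s hs
        simp only [hγ, Prod.mk_mul_mk]
        rw [hβ.gap a y s hs, he'.gap a y s hs, ofAdd_add]
      have h3 : (P₁ + Polynomial.C t).natDegree = P₁.natDegree := Polynomial.natDegree_add_C
      have h4 : (P₁ + Polynomial.C t).leadingCoeff = P₁.leadingCoeff := by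
        unfold Polynomial.leadingCoeff
        rw [h3, Polynomial.coeff_add, Polynomial.coeff_C, if_neg (by omega), add_zero]
      exact core_poly hQ hγg (p := P₁ + Polynomial.C t) (by rw [h3]; exact h1)
        (by rw [h4]; exact h2) h b
        (B := fun x => B (x.1 * β ω) (Multiplicative.toAdd x.2)) (fun x => hB _ _)
  refine hgoal.congr fun N => LogAvg_congr fun n _ _ => ?_
  by_cases hn : n % M = b
  · rw [if_pos hn, hcos n hn]
  · rw [if_neg hn]
    ring

theorem bound_poly {q m d : ℕ} (hq : 2 ≤ q) {A : Type*} {a : ℕ → A}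
    (ha : {g : ℕ → A | ∃ k r : ℕ, r < q ^ k ∧ g = fun n => a (q ^ k * n + r)}.Finite)
    {e : ℕ → Fin d → ℤ} {C : ℝ} (he : QV q m e C) (P : Polynomial ℝ) {Ψ : A → (Fin d → ℤ) → ℝ}
    {B : ℝ} (hΨ : ∀ x v, |Ψ x v| ≤ B) :
    Tendsto (LogAvg fun n => mu n * (Real.cos (2 * Real.pi * P.eval (n : ℝ)) * Ψ (a n) (e n)))
      atTop (𝓝 0) := by
  have hB : 0 ≤ B := (abs_nonneg _).trans (hΨ (a 0) 0)
  have h2 := (real_poly hq ha he P (Ψ := fun x v => Ψ x v / (B + 1)) (fun x v => by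
    rw [abs_div, abs_of_pos (by linarith : 0 < B + 1), div_le_one (by linarith)]
    linarith [hΨ x v])).const_mul (B + 1)
  rw [mul_zero] at h2
  refine h2.congr fun N => ?_
  rw [← LogAvg_const_mul]
  refine LogAvg_congr fun n _ _ => ?_
  have : B + 1 ≠ 0 := by linarith
  field_simp

/-- passage to complex values -/
theorem to_complex_poly {φ : ℕ → ℝ} {Z : ℕ → ℂ}
    (hre : ∀ θ : ℝ, Tendsto (LogAvg fun n => mu n * (Real.cos (2 * Real.pi * (φ n + θ)) *
      (Z n).re)) atTop (𝓝 0))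
    (him : ∀ θ : ℝ, Tendsto (LogAvg fun n => mu n * (Real.cos (2 * Real.pi * (φ n + θ)) *
      (Z n).im)) atTop (𝓝 0)) :
    Tendsto (fun N : ℕ => (1 / Real.log N : ℂ) * ∑ n ∈ Finset.Icc 1 N,
      Complex.exp (2 * Real.pi * Complex.I * φ n) * Z n *
        (ArithmeticFunction.moebius n : ℂ) / n) atTop (𝓝 0) := by
  have r1 := (hre 0).sub (him (-(1 / 4)))
  have r2 := (him 0).add (hre (-(1 / 4)))
  rw [sub_zero] at r1
  rw [add_zero] at r2
  have h1 : Tendsto (fun N : ℕ =>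
      ((LogAvg (fun n => mu n * (Real.cos (2 * Real.pi * (φ n + 0)) * (Z n).re)) N -
        LogAvg (fun n => mu n * (Real.cos (2 * Real.pi * (φ n + -(1 / 4))) *
          (Z n).im)) N : ℝ) : ℂ) +
      ((LogAvg (fun n => mu n * (Real.cos (2 * Real.pi * (φ n + 0)) * (Z n).im)) N +
        LogAvg (fun n => mu n * (Real.cos (2 * Real.pi * (φ n + -(1 / 4))) *
          (Z n).re)) N : ℝ) : ℂ) * Complex.I) atTop
      (𝓝 (((0 : ℝ) : ℂ) + ((0 : ℝ) : ℂ) * Complex.I)) :=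
    ((Complex.continuous_ofReal.tendsto _).comp r1).add
      (((Complex.continuous_ofReal.tendsto _).comp r2).mul_const _)
  simp only [Complex.ofReal_zero, zero_mul, add_zero] at h1
  refine h1.congr fun N => ?_
  rw [← LogAvg_sub, ← LogAvg_add]
  unfold LogAvg
  push_cast
  rw [mul_assoc, ← mul_add, Finset.sum_mul, ← Finset.sum_add_distrib]
  congr 1
  refine Finset.sum_congr rfl fun n _ => ?_
  have e1 : Real.cos (2 * Real.pi * (φ n + -(1 / 4))) = Real.sin (2 * Real.pi * φ n) := by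
    rw [← Real.cos_sub_pi_div_two]
    congr 1
    ring
  have e2 : Complex.exp (2 * Real.pi * Complex.I * φ n) =
      (Real.cos (2 * Real.pi * φ n) : ℂ) + (Real.sin (2 * Real.pi * φ n) : ℂ) *
        Complex.I := by
    have h2 : (2 * Real.pi * Complex.I * φ n : ℂ) =
        ((2 * Real.pi * φ n : ℝ) : ℂ) * Complex.I := by
      push_cast
      ring
    rw [h2, Complex.exp_mul_I, Complex.ofReal_cos, Complex.ofReal_sin]
  have e3 := Complex.re_add_im (Z n)
  have e4 : (mu n : ℂ) = (ArithmeticFunction.moebius n : ℂ) := by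
    unfold mu
    push_cast
    rfl
  have e5 : Complex.cos (2 * (Real.pi : ℂ) * ((φ n : ℂ) + -(1 / 4))) =
      (Real.sin (2 * Real.pi * φ n) : ℂ) := by
    rw [← e1]
    push_cast
    rfl
  have e6 : Complex.cos (2 * (Real.pi : ℂ) * (φ n : ℂ)) =
      (Real.cos (2 * Real.pi * φ n) : ℂ) := by
    push_cast
    rfl
  rw [e5, e6, e2, ← e4]
  conv_rhs => rw [← e3]
  set c : ℂ := (Real.cos (2 * Real.pi * φ n) : ℂ)
  set t : ℂ := (Real.sin (2 * Real.pi * φ n) : ℂ)
  set x : ℂ := ((Z n).re : ℂ)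
  set y : ℂ := ((Z n).im : ℂ)
  linear_combination (-((mu n : ℂ) * t * y / n)) * Complex.I_sq

/-- the theorem with polynomial phases -/
theorem complex_poly {q m d : ℕ} (hq : 2 ≤ q) {A : Type*} {a : ℕ → A}
    (ha : {g : ℕ → A | ∃ k r : ℕ, r < q ^ k ∧ g = fun n => a (q ^ k * n + r)}.Finite)
    {e : ℕ → Fin d → ℤ} {C : ℝ} (he : QV q m e C) (P : Polynomial ℝ)
    {Ψ : A → (Fin d → ℤ) → ℂ} {B : ℝ} (hΨ : ∀ x v, ‖Ψ x v‖ ≤ B) :
    Tendsto (fun N : ℕ => (1 / Real.log N : ℂ) * ∑ n ∈ Finset.Icc 1 N,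
      Complex.exp (2 * Real.pi * Complex.I * P.eval (n : ℝ)) * Ψ (a n) (e n) *
        (ArithmeticFunction.moebius n : ℂ) / n) atTop (𝓝 0) := by
  have hθ : ∀ (θ : ℝ) (n : ℕ), P.eval (n : ℝ) + θ = (P + Polynomial.C θ).eval (n : ℝ) := by
    intro θ n
    rw [Polynomial.eval_add, Polynomial.eval_C]
  refine to_complex_poly (φ := fun n => P.eval (n : ℝ)) (Z := fun n => Ψ (a n) (e n))
    (fun θ => ?_) (fun θ => ?_)
  · simp only [hθ]
    exact bound_poly hq ha he (P + Polynomial.C θ) (Ψ := fun x v => (Ψ x v).re)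
      fun x v => (Complex.abs_re_le_norm _).trans (hΨ x v)
  · simp only [hθ]
    exact bound_poly hq ha he (P + Polynomial.C θ) (Ψ := fun x v => (Ψ x v).im)
      fun x v => (Complex.abs_im_le_norm _).trans (hΨ x v)

/-- the theorem, with test functions which depend on `N` -/
theorem poly_seq {q m d : ℕ} (hq : 2 ≤ q) {A : Type*} {a : ℕ → A}
    (ha : {g : ℕ → A | ∃ k r : ℕ, r < q ^ k ∧ g = fun n => a (q ^ k * n + r)}.Finite)
    {e : ℕ → Fin d → ℤ} {C : ℝ} (he : QA.QV q m e C) (P : Polynomial ℝ)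
    {Ψ : ℕ → A → (Fin d → ℤ) → ℂ} {B : ℝ} (hΨ : ∀ N x v, ‖Ψ N x v‖ ≤ B) :
    Tendsto (fun N : ℕ => (1 / Real.log N : ℂ) * ∑ n ∈ Finset.Icc 1 N,
      Complex.exp (2 * Real.pi * Complex.I * P.eval (n : ℝ)) * Ψ N (a n) (e n) *
        (ArithmeticFunction.moebius n : ℂ) / n) atTop (𝓝 0) := by
  have h1 := schur (Z := A × (Fin d → ℤ)) (fun n => (a n, e n))
    (fun n => Complex.exp (2 * Real.pi * Complex.I * P.eval (n : ℝ)) *
      (ArithmeticFunction.moebius n : ℂ) / n) (fun N => (1 / Real.log N : ℂ))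
    (fun B' Φ hΦ => by
      refine (complex_poly hq ha he P (Ψ := fun x v => Φ (x, v)) fun x v => hΦ (x, v)).congr
        fun N => ?_
      unfold tst
      congr 1
      exact Finset.sum_congr rfl fun n _ => by ring)
    (fun N z => Ψ N z.1 z.2) (B := B) (fun N z => hΨ N z.1 z.2)
  refine h1.congr fun N => ?_
  unfold tst
  congr 1
  exact Finset.sum_congr rfl fun n _ => by ring

end Pool.Agent.Lib.MP_3e612f_nt.SA
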