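import Pool.Agent.Lib.MP_3e612f_nt.MFinal
import Pool.Agent.Lib.MP_3e612f_nt.PFinal
import Pool.Agent.Lib.MP_3e612f_nt.WPoly

/-!
Polynomial phases with an irrational leading coefficient, several bases.
-/

set_option autoImplicit false

namespace Pool.Agent.Lib.MP_3e612f_nt.MB

open Filter Topology Polynomial
open Pool.Agent.Lib.MP_3e612f_nt.QA

section several

variable {ι : Type*} [Fintype ι] [DecidableEq ι] {q : ι → ℕ} {m : ℕ} {d : ι → ℕ}
  {e : ∀ i, ℕ → Fin (d i) → ℤ} {C₀ : ℝ}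

theorem avc_re (q k : ℕ) (u : ℕ → ℂ) : (avc q k u).re = av q k (fun n => (u n).re) := by
  unfold avc av
  have h1 : ((q : ℂ) ^ k) = (((q : ℝ) ^ k : ℝ) : ℂ) := by push_cast; rfl
  rw [h1, Complex.div_ofReal_re, Complex.re_sum]

theorem exp_mul_re (φ : ℝ) (x : ℝ) :
    (Complex.exp (2 * Real.pi * Complex.I * (φ : ℂ)) * (x : ℂ)).re =
      Real.cos (2 * Real.pi * φ) * x := by
  have h2 : (2 * Real.pi * Complex.I * φ : ℂ) = ((2 * Real.pi * φ : ℝ) : ℂ) * Complex.I := by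
    push_cast
    ring
  rw [h2, Complex.re_mul_ofReal, Complex.exp_ofReal_mul_I_re]

theorem av_cos_le {k : ℕ} {φ x : ℕ → ℝ} {ε : ℝ}
    (h : ‖avc 2 k (fun n => Complex.exp (2 * Real.pi * Complex.I * ((φ n : ℝ) : ℂ)) *
      ((x n : ℝ) : ℂ))‖ ≤ ε) :
    |av 2 k (fun n => Real.cos (2 * Real.pi * φ n) * x n)| ≤ ε := by
  have h1 := (Complex.abs_re_le_norm _).trans h
  rw [avc_re] at h1
  have h2 : (fun n => (Complex.exp (2 * Real.pi * Complex.I * ((φ n : ℝ) : ℂ)) *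
      ((x n : ℝ) : ℂ)).re) = fun n => Real.cos (2 * Real.pi * φ n) * x n := by
    funext n
    exact exp_mul_re _ _
  rwa [h2] at h1

theorem irr_case (S : Sys q m e C₀) {Q : Polynomial ℝ} (hQ1 : 1 ≤ Q.natDegree)
    (hQ : Irrational Q.leadingCoeff) {g : (∀ i, Fin (d i) → ℤ) → ℝ} (hg : ∀ x, |g x| ≤ 1) :
    Tendsto (LogAvg fun n => mu n * (Real.cos (2 * Real.pi * Q.eval (n : ℝ)) *
      g (fun i => e i n))) atTop (𝓝 0) := by
  have hb : ∀ n : ℕ, |Real.cos (2 * Real.pi * Q.eval (n : ℝ)) * g (fun i => e i n)| ≤ 1 := by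
    intro n
    rw [abs_mul]
    exact mul_le_one₀ (Real.abs_cos_le_one _) (abs_nonneg _) (hg _)
  refine katai_log' (K := ∑ i, 2 * q i ^ m)
    (b := fun n : ℕ => Real.cos (2 * Real.pi * Q.eval (n : ℝ)) * g (fun i => e i n))
    (fun n => (hb n).trans (by norm_num)) fun ε hε => ⟨∑ i, q i + 1, fun p r hp hr hple hK hpr => ?_⟩
  have hqle : ∀ i, q i ≤ ∑ i, q i := fun i =>
    Finset.single_le_sum (f := q) (fun _ _ => Nat.zero_le _) (Finset.mem_univ i)
  have hpq : ∀ i, p.Coprime (q i) := by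
    intro i
    refine (Nat.Prime.coprime_iff_not_dvd hp).mpr fun hdvd => ?_
    have := Nat.le_of_dvd (by have := S.base i; omega) hdvd
    have := hqle i
    omega
  have hrq : ∀ i, r.Coprime (q i) := by
    intro i
    refine (Nat.Prime.coprime_iff_not_dvd hr).mpr fun hdvd => ?_
    have := Nat.le_of_dvd (by have := S.base i; omega) hdvd
    have := hqle i
    omega
  have hPR : Mul q m (fun _ => p) (fun _ => r) := ⟨hpq, hrq, fun _ => hp.one_le, fun i =>
    (Nat.mul_le_mul_right p (Finset.single_le_sum (f := fun i => 2 * q i ^ m)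
      (fun _ _ => Nat.zero_le _) (Finset.mem_univ i))).trans hK⟩
  set D : ℕ := Q.natDegree with hD
  have hpow : p ^ D < r ^ D := Nat.pow_lt_pow_left hpr (by omega)
  have e1 := SA.cast_sub_pow (M := 1) hpow.le
  have e2 := SA.cast_add_pow (r := r) (p := p) (M := 1) (D := D)
  have n1 : (r ^ D - p ^ D) * 1 ^ D ≠ 0 := Nat.mul_ne_zero (by omega) (by positivity)
  have n2 : (r ^ D + p ^ D) * 1 ^ D ≠ 0 := Nat.mul_ne_zero (by omega) (by positivity)
  have i1 : Irrational (Q.leadingCoeff * (((r : ℝ) * (1 : ℕ)) ^ D + (-1) * ((p : ℝ) * (1 : ℕ)) ^ D)) := by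
    rw [e1]
    exact hQ.mul_natCast n1
  have i2 : Irrational (Q.leadingCoeff * (((r : ℝ) * (1 : ℕ)) ^ D + 1 * ((p : ℝ) * (1 : ℕ)) ^ D)) := by
    rw [e2]
    exact hQ.mul_natCast n2
  have hQ0 : Q.leadingCoeff ≠ 0 := hQ.ne_zero
  have hpM : (p : ℝ) * (1 : ℕ) ≠ 0 := by
    have h1 : (0 : ℝ) < p := by exact_mod_cast hp.pos
    push_cast
    rw [mul_one]
    exact h1.ne'
  have hrM : (r : ℝ) * (1 : ℕ) ≠ 0 := by
    have h1 : (0 : ℝ) < r := by exact_mod_cast hr.pos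
    push_cast
    rw [mul_one]
    exact h1.ne'
  obtain ⟨d1, c1⟩ := SA.comp_pm (p := Q) (a := (r : ℝ) * (1 : ℕ)) (b := (p : ℝ) * (1 : ℕ)) (s := 0)
    (t := 0) (ε := -1) hrM hpM (by rw [← hD, e1]; exact_mod_cast n1) hQ0
  obtain ⟨d2, c2⟩ := SA.comp_pm (p := Q) (a := (r : ℝ) * (1 : ℕ)) (b := (p : ℝ) * (1 : ℕ)) (s := 0)
    (t := 0) (ε := 1) hrM hpM (by rw [← hD, e2]; exact_mod_cast n2) hQ0
  set R1 := Q.comp (C ((r : ℝ) * (1 : ℕ)) * X + C 0) + C (-1) * Q.comp (C ((p : ℝ) * (1 : ℕ)) * X + C 0)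
    with hR1
  set R2 := Q.comp (C ((r : ℝ) * (1 : ℕ)) * X + C 0) + C 1 * Q.comp (C ((p : ℝ) * (1 : ℕ)) * X + C 0)
    with hR2
  have hval : ∀ (s n : ℕ), (Q.comp (C ((s : ℝ) * (1 : ℕ)) * X + C 0)).eval (n : ℝ) =
      Q.eval ((s * n : ℕ) : ℝ) := by
    intro s n
    rw [eval_comp]
    congr 1
    simp only [eval_add, eval_mul, eval_C, eval_X]
    push_cast
    ring
  have hv1 : ∀ n : ℕ, R1.eval (n : ℝ) = Q.eval ((r * n : ℕ) : ℝ) - Q.eval ((p * n : ℕ) : ℝ) := by
    intro n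
    rw [hR1, eval_add, eval_mul, eval_C, hval r n, hval p n]
    ring
  have hv2 : ∀ n : ℕ, R2.eval (n : ℝ) = Q.eval ((r * n : ℕ) : ℝ) + Q.eval ((p * n : ℕ) : ℝ) := by
    intro n
    rw [hR2, eval_add, eval_mul, eval_C, hval r n, hval p n]
    ring
  have hBd : ∀ p : ℕ, Bd q 0 (fun _ : ι => p) (fun _ => 0) (fun _ => 0) := fun p =>
    ⟨fun _ => Nat.zero_le _, fun i => by simp⟩
  have hEE : ∀ s N : ℕ, EE q e 0 (fun _ => s) (fun _ => 0) (fun _ => 0) N =
      fun i => e i (s * N) := by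
    intro s N
    funext i
    unfold EE sd
    congr 1
    simp
  have hblock := block_log (q := 2) (M := 1) le_rfl le_rfl
    (u := fun n => (Real.cos (2 * Real.pi * Q.eval ((p * n : ℕ) : ℝ)) * g (fun i => e i (p * n))) *
      (Real.cos (2 * Real.pi * Q.eval ((r * n : ℕ) : ℝ)) * g (fun i => e i (r * n)))) (A := 1)
    (fun n => by
      rw [abs_mul]
      exact mul_le_one₀ (hb _) (abs_nonneg _) (hb _))
    (η := 0) le_rfl (fun t ε₂ hε₂ => by
      filter_upwards [tw_poly S hPR (Q := R1) (by rw [d1]; exact hQ1) (by rw [c1]; exact i1) 0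
          (2 ^ (t + 1)) hε₂,
        tw_poly S hPR (Q := R2) (by rw [d2]; exact hQ1) (by rw [c2]; exact i2) 0
          (2 ^ (t + 1)) hε₂] with k hk1 hk2 y hy1 hy2 i hi
      have hi0 : i = 0 := by omega
      subst hi0
      have k1 := av_cos_le (φ := fun n => R1.eval ((2 ^ k * y + n : ℕ) : ℝ))
        (x := fun n => g (EE q e 0 (fun _ => p) (fun _ => 0) (fun _ => 0) (2 ^ k * y + n)) *
          g (EE q e 0 (fun _ => r) (fun _ => 0) (fun _ => 0) (2 ^ k * y + n)))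
        (hk1 y hy2.le _ _ _ _ (hBd p) (hBd r) (fun x x' => g x * g x') (fun x x' => by
          rw [abs_mul]
          exact mul_le_one₀ (hg _) (abs_nonneg _) (hg _)))
      have k2 := av_cos_le (φ := fun n => R2.eval ((2 ^ k * y + n : ℕ) : ℝ))
        (x := fun n => g (EE q e 0 (fun _ => p) (fun _ => 0) (fun _ => 0) (2 ^ k * y + n)) *
          g (EE q e 0 (fun _ => r) (fun _ => 0) (fun _ => 0) (2 ^ k * y + n)))
        (hk2 y hy2.le _ _ _ _ (hBd p) (hBd r) (fun x x' => g x * g x') (fun x x' => by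
          rw [abs_mul]
          exact mul_le_one₀ (hg _) (abs_nonneg _) (hg _)))
      simp only [hEE, hv1, hv2] at k1 k2
      have e3 : (fun n => (Real.cos (2 * Real.pi * Q.eval ((p * (1 * (2 ^ k * y + n) + 0) : ℕ) : ℝ)) *
          g (fun i => e i (p * (1 * (2 ^ k * y + n) + 0)))) *
          (Real.cos (2 * Real.pi * Q.eval ((r * (1 * (2 ^ k * y + n) + 0) : ℕ) : ℝ)) *
          g (fun i => e i (r * (1 * (2 ^ k * y + n) + 0))))) = fun n : ℕ =>
          (Real.cos (2 * Real.pi * (Q.eval ((r * (2 ^ k * y + n) : ℕ) : ℝ) -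
            Q.eval ((p * (2 ^ k * y + n) : ℕ) : ℝ))) *
            (g (fun i => e i (p * (2 ^ k * y + n))) * g (fun i => e i (r * (2 ^ k * y + n)))) +
          Real.cos (2 * Real.pi * (Q.eval ((r * (2 ^ k * y + n) : ℕ) : ℝ) +
            Q.eval ((p * (2 ^ k * y + n) : ℕ) : ℝ))) *
            (g (fun i => e i (p * (2 ^ k * y + n))) * g (fun i => e i (r * (2 ^ k * y + n))))) / 2 := by
        funext n
        rw [one_mul, add_zero]
        have hc : ∀ A B : ℝ, Real.cos (2 * Real.pi * A) * Real.cos (2 * Real.pi * B) =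
            (Real.cos (2 * Real.pi * (B - A)) + Real.cos (2 * Real.pi * (B + A))) / 2 :=
          fun A B => by
            rw [mul_sub, mul_add, Real.cos_sub, Real.cos_add]
            ring
        rw [mul_mul_mul_comm, hc]
        ring
      show |av 2 k (fun n => (Real.cos (2 * Real.pi * Q.eval ((p * (1 * (2 ^ k * y + n) + 0) : ℕ) : ℝ)) *
          g (fun i => e i (p * (1 * (2 ^ k * y + n) + 0)))) *
          (Real.cos (2 * Real.pi * Q.eval ((r * (1 * (2 ^ k * y + n) + 0) : ℕ) : ℝ)) *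
          g (fun i => e i (r * (1 * (2 ^ k * y + n) + 0)))))| ≤ 0 + ε₂
      rw [e3, av_div, av_add, abs_div, abs_of_pos (by norm_num : (0 : ℝ) < 2),
        div_le_iff₀ (by norm_num)]
      refine (abs_add_le _ _).trans ?_
      linarith) hε
  filter_upwards [hblock] with N hN
  rw [mul_zero, zero_add] at hN
  exact hN

end several

end Pool.Agent.Lib.MP_3e612f_nt.MB
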