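import Pool.Agent.Lib.MP_3e612f_nt.MPolyCore

/-!
The Möbius function is orthogonal, in logarithmic averages, to every bounded function of
quasi-additive functions in pairwise coprime bases, twisted by an arbitrary polynomial phase.
-/

set_option autoImplicit false

namespace Pool.Agent.Lib.MP_3e612f_nt.MB

open Filter Topology Polynomial
open Pool.Agent.Lib.MP_3e612f_nt.QA

theorem irr_add {P : Polynomial ℝ} (h1 : 1 ≤ P.natDegree) (h2 : Irrational P.leadingCoeff)
    (r : ℚ) (s : ℝ) : 1 ≤ (P + (C (r : ℝ) * X + C s)).natDegree ∧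
      Irrational (P + (C (r : ℝ) * X + C s)).leadingCoeff := by
  set R : Polynomial ℝ := C (r : ℝ) * X + C s with hR
  have hRd : R.natDegree ≤ 1 := natDegree_linear_le
  have hRc : ∃ t : ℚ, R.coeff P.natDegree = t := by
    rcases Nat.lt_or_ge 1 P.natDegree with h | h
    · exact ⟨0, by rw [coeff_eq_zero_of_natDegree_lt (lt_of_le_of_lt hRd h)]; simp⟩
    · have h3 : P.natDegree = 1 := by omega
      refine ⟨r, ?_⟩
      rw [h3, hR]
      simp [coeff_add, coeff_C]
  obtain ⟨t, ht⟩ := hRc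
  have hc : (P + R).coeff P.natDegree = P.leadingCoeff + t := by
    rw [coeff_add, ht, leadingCoeff]
  have hirr : Irrational (P.leadingCoeff + t) := h2.add_ratCast t
  have hle : (P + R).natDegree ≤ P.natDegree :=
    (natDegree_add_le _ _).trans (max_le le_rfl (hRd.trans h1))
  have hge : P.natDegree ≤ (P + R).natDegree := by
    refine le_natDegree_of_ne_zero ?_
    rw [hc]
    exact hirr.ne_zero
  have heq := le_antisymm hle hge
  refine ⟨by rw [heq]; exact h1, ?_⟩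
  rw [leadingCoeff, heq, hc]
  exact hirr

/-- the orthogonality relation -/
theorem ind_sum {M : ℕ} (hM : 1 ≤ M) (x : ℤ) :
    ∑ j ∈ Finset.range M, Real.cos (2 * Real.pi * ((j : ℝ) * x / M)) =
      if (M : ℤ) ∣ x then (M : ℝ) else 0 := by
  have hM0 : (M : ℂ) ≠ 0 := by
    have : M ≠ 0 := by omega
    exact_mod_cast this
  set ζ : ℂ := Complex.exp (2 * Real.pi * Complex.I * x / M) with hζ
  have hpow : ∀ j : ℕ, ζ ^ j = Complex.exp (((2 * Real.pi * ((j : ℝ) * x / M) : ℝ) : ℂ) *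
      Complex.I) := by
    intro j
    rw [hζ, ← Complex.exp_nat_mul]
    congr 1
    push_cast
    ring
  have hre : ∀ j : ℕ, (ζ ^ j).re = Real.cos (2 * Real.pi * ((j : ℝ) * x / M)) := by
    intro j
    rw [hpow, Complex.exp_ofReal_mul_I_re]
  have hsum : ∑ j ∈ Finset.range M, Real.cos (2 * Real.pi * ((j : ℝ) * x / M)) =
      (∑ j ∈ Finset.range M, ζ ^ j).re := by
    rw [Complex.re_sum]
    exact Finset.sum_congr rfl fun j _ => (hre j).symm
  rw [hsum]
  have hone : ζ ^ M = 1 := by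
    rw [hζ, ← Complex.exp_nat_mul]
    have e1 : (M : ℂ) * (2 * Real.pi * Complex.I * x / M) = x * (2 * Real.pi * Complex.I) := by
      field_simp
    rw [e1, Complex.exp_int_mul_two_pi_mul_I]
  split_ifs with hd
  · obtain ⟨c, hc⟩ := hd
    have h1 : ζ = 1 := by
      rw [hζ]
      have e1 : (2 * Real.pi * Complex.I * x / M : ℂ) = c * (2 * Real.pi * Complex.I) := by
        rw [hc]
        push_cast
        field_simp
      rw [e1, Complex.exp_int_mul_two_pi_mul_I]
    rw [h1]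
    simp
  · have h1 : ζ ≠ 1 := by
      intro h1
      rw [hζ, Complex.exp_eq_one_iff] at h1
      obtain ⟨c, hc⟩ := h1
      apply hd
      refine ⟨c, ?_⟩
      have h2 : (2 * Real.pi * Complex.I : ℂ) ≠ 0 := Complex.two_pi_I_ne_zero
      have h3 : (x : ℂ) = M * c := by
        have h4 : (2 * Real.pi * Complex.I : ℂ) * x = (2 * Real.pi * Complex.I) * (M * c) := by
          calc (2 * Real.pi * Complex.I : ℂ) * x =
              M * (2 * Real.pi * Complex.I * x / M) := by field_simp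
            _ = M * (c * (2 * Real.pi * Complex.I)) := by rw [hc]
            _ = _ := by ring
        exact mul_left_cancel₀ h2 h4
      exact_mod_cast h3
    rw [geom_sum_eq h1, hone]
    simp

theorem ind_mod {M b : ℕ} (hM : 1 ≤ M) (hb : b < M) (n : ℕ) (t : ℝ) :
    (if n % M = b then t else 0) = 1 / (M : ℝ) *
      ∑ j ∈ Finset.range M, Real.cos (2 * Real.pi * ((j : ℝ) * ((n : ℤ) - (b : ℤ) : ℤ) / M)) * t := by
  have hM0 : (M : ℝ) ≠ 0 := by
    have : M ≠ 0 := by omega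
    exact_mod_cast this
  have h1 : ((M : ℤ) ∣ (n : ℤ) - b) ↔ n % M = b := by
    constructor
    · intro h
      have h2 : b ≡ n [MOD M] := (Nat.modEq_iff_dvd).mpr h
      have h3 : b % M = n % M := h2
      rw [← h3, Nat.mod_eq_of_lt hb]
    · intro h
      have h2 : b ≡ n [MOD M] := by
        show b % M = n % M
        rw [h, Nat.mod_eq_of_lt hb]
      exact (Nat.modEq_iff_dvd).mp h2
  rw [← Finset.sum_mul, ind_sum hM]
  by_cases hn : n % M = b
  · rw [if_pos hn, if_pos (h1.mpr hn)]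
    field_simp
  · rw [if_neg hn, if_neg (fun h => hn (h1.mp h))]
    ring

section several

variable {ι : Type*} [Fintype ι] [DecidableEq ι] {q : ι → ℕ} {m : ℕ} {d : ι → ℕ}
  {e : ∀ i, ℕ → Fin (d i) → ℤ} {C₀ : ℝ}

theorem irr_class (S : Sys q m e C₀) {Q : Polynomial ℝ} (hQ1 : 1 ≤ Q.natDegree)
    (hQ : Irrational Q.leadingCoeff) {M b : ℕ} (hM : 1 ≤ M) (hb : b < M)
    {g : (∀ i, Fin (d i) → ℤ) → ℝ} (hg : ∀ x, |g x| ≤ 1) :
    Tendsto (LogAvg fun n => mu n * (Real.cos (2 * Real.pi * Q.eval (n : ℝ)) *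
      (if n % M = b then g (fun i => e i n) else 0))) atTop (𝓝 0) := by
  have key : ∀ r : ℚ, ∀ s : ℝ, Tendsto (LogAvg fun n => mu n * (Real.cos (2 * Real.pi *
      (Q + (C (r : ℝ) * X + C s)).eval (n : ℝ)) * g (fun i => e i n))) atTop (𝓝 0) := by
    intro r s
    obtain ⟨h1, h2⟩ := irr_add hQ1 hQ r s
    exact irr_case S h1 h2 hg
  have h1 := tendsto_finset (Finset.range M) (fun j n => (mu n * (Real.cos (2 * Real.pi *
      (Q + (C (((j : ℚ) / M : ℚ) : ℝ) * X + C (-((j : ℝ) * b / M)))).eval (n : ℝ)) *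
      g (fun i => e i n)) + mu n * (Real.cos (2 * Real.pi *
      (Q + (C (((-((j : ℚ) / M) : ℚ)) : ℝ) * X + C ((j : ℝ) * b / M))).eval (n : ℝ)) *
      g (fun i => e i n)))) (fun j _ => by
        have h2 := (key ((j : ℚ) / M) (-((j : ℝ) * b / M))).add
          (key (-((j : ℚ) / M)) ((j : ℝ) * b / M))
        rw [add_zero] at h2
        refine h2.congr fun N => ?_
        rw [LogAvg_add])
  have h3 := h1.const_mul (1 / (2 * (M : ℝ)))
  rw [mul_zero] at h3
  refine h3.congr fun N => ?_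
  rw [← LogAvg_const_mul]
  refine LogAvg_congr fun n _ _ => ?_
  rw [ind_mod hM hb]
  have e1 : mu n * (Real.cos (2 * Real.pi * Q.eval (n : ℝ)) * (1 / (M : ℝ) *
      ∑ j ∈ Finset.range M, Real.cos (2 * Real.pi * ((j : ℝ) * ((n : ℤ) - (b : ℤ) : ℤ) / M)) *
        g (fun i => e i n))) = 1 / (2 * (M : ℝ)) * ∑ j ∈ Finset.range M,
        (2 * (Real.cos (2 * Real.pi * Q.eval (n : ℝ)) *
          Real.cos (2 * Real.pi * ((j : ℝ) * ((n : ℤ) - (b : ℤ) : ℤ) / M)))) *
        (mu n * g (fun i => e i n)) := by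
    rw [← Finset.sum_mul, ← Finset.sum_mul, ← Finset.mul_sum, ← Finset.mul_sum]
    ring
  rw [e1]
  congr 1
  refine Finset.sum_congr rfl fun j _ => ?_
  have hc : ∀ A B : ℝ, 2 * (Real.cos (2 * Real.pi * A) * Real.cos (2 * Real.pi * B)) =
      Real.cos (2 * Real.pi * (A + B)) + Real.cos (2 * Real.pi * (A - B)) := fun A B => by
    rw [mul_sub, mul_add, Real.cos_sub, Real.cos_add]
    ring
  rw [hc]
  simp only [eval_add, eval_mul, eval_C, eval_X]
  have e2 : Q.eval (n : ℝ) + (j : ℝ) * ((n : ℤ) - (b : ℤ) : ℤ) / M =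
      Q.eval (n : ℝ) + ((((j : ℚ) / M : ℚ) : ℝ) * n + -((j : ℝ) * b / M)) := by
    push_cast
    ring
  have e3 : Q.eval (n : ℝ) - (j : ℝ) * ((n : ℤ) - (b : ℤ) : ℤ) / M =
      Q.eval (n : ℝ) + (((-((j : ℚ) / M) : ℚ) : ℝ) * n + (j : ℝ) * b / M) := by
    push_cast
    ring
  rw [e2, e3]
  ring

/-- all polynomials, all residue classes -/
theorem poly_class (S : Sys q m e C₀) (P : Polynomial ℝ) {M₀ : ℕ} (hM₀ : 1 ≤ M₀) (a : ℕ)
    {g : (∀ i, Fin (d i) → ℤ) → ℝ} (hg : ∀ x, |g x| ≤ 1) :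
    Tendsto (LogAvg fun n => mu n * (Real.cos (2 * Real.pi * P.eval (n : ℝ)) *
      (if n % M₀ = a then g (fun i => e i n) else 0))) atTop (𝓝 0) := by
  obtain ⟨P₁, P₂, Q₀, hP, hQ₀, hcase, hper⟩ := SA.poly_split P
  set M : ℕ := Q₀ * M₀ with hMdef
  have hM : 1 ≤ M := Nat.mul_pos hQ₀ hM₀
  have hd1 : Q₀ ∣ M := Dvd.intro _ rfl
  have hd2 : M₀ ∣ M := Dvd.intro_left _ rfl
  have hcls : ∀ b ∈ (Finset.range M).filter (fun b => b % M₀ = a),
      Tendsto (LogAvg fun n => mu n * (Real.cos (2 * Real.pi * P.eval (n : ℝ)) *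
        (if n % M = b then g (fun i => e i n) else 0))) atTop (𝓝 0) := by
    intro b hb
    have hbM : b < M := Finset.mem_range.mp (Finset.mem_filter.mp hb).1
    set t : ℝ := P₂.eval ((b % Q₀ : ℕ) : ℝ) with ht
    have hcos : ∀ n : ℕ, n % M = b → Real.cos (2 * Real.pi * P.eval (n : ℝ)) =
        Real.cos (2 * Real.pi * (P₁.eval (n : ℝ) + t)) := by
      intro n hn
      obtain ⟨j, hj⟩ := hper n
      have h1 : n % Q₀ = b % Q₀ := by
        rw [← hn, Nat.mod_mod_of_dvd _ hd1]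
      rw [hP, eval_add, hj, h1, ← ht]
      have h2 : 2 * Real.pi * (P₁.eval (n : ℝ) + (t + j)) =
          2 * Real.pi * (P₁.eval (n : ℝ) + t) + (j : ℝ) * (2 * Real.pi) := by ring
      rw [h2, Real.cos_add_int_mul_two_pi]
    have hgoal : Tendsto (LogAvg fun n => mu n * (Real.cos (2 * Real.pi *
        (P₁.eval (n : ℝ) + t)) * (if n % M = b then g (fun i => e i n) else 0)))
        atTop (𝓝 0) := by
      rcases hcase with h0 | ⟨h1, h2⟩
      · have h3 : ∀ n : ℕ, P₁.eval (n : ℝ) = P₁.coeff 0 := by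
          intro n
          rw [eq_C_of_natDegree_eq_zero h0]
          simp
        have h4 := (class_all S hM b hg).const_mul (Real.cos (2 * Real.pi * (P₁.coeff 0 + t)))
        rw [mul_zero] at h4
        refine h4.congr fun N => ?_
        rw [← LogAvg_const_mul]
        refine LogAvg_congr fun n _ _ => ?_
        rw [h3]
        ring
      · obtain ⟨h3, h4⟩ := irr_add h1 h2 0 t
        refine (irr_class S h3 h4 hM hbM hg).congr fun N => LogAvg_congr fun n _ _ => ?_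
        have e1 : (P₁ + (C (((0 : ℚ)) : ℝ) * X + C t)).eval (n : ℝ) = P₁.eval (n : ℝ) + t := by
          simp
        rw [e1]
    refine hgoal.congr fun N => LogAvg_congr fun n _ _ => ?_
    by_cases hn : n % M = b
    · rw [if_pos hn, hcos n hn]
    · rw [if_neg hn]
      ring
  have h1 := tendsto_finset ((Finset.range M).filter fun b => b % M₀ = a)
    (fun b n => mu n * (Real.cos (2 * Real.pi * P.eval (n : ℝ)) *
        (if n % M = b then g (fun i => e i n) else 0))) hcls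
  refine h1.congr fun N => LogAvg_congr fun n _ _ => ?_
  rw [← Finset.mul_sum, ← Finset.mul_sum, Finset.sum_ite_eq]
  have hmem : n % M ∈ (Finset.range M).filter (fun b => b % M₀ = a) ↔ n % M₀ = a := by
    rw [Finset.mem_filter, Finset.mem_range, Nat.mod_mod_of_dvd _ hd2]
    exact ⟨fun h => h.2, fun h => ⟨Nat.mod_lt _ hM, h⟩⟩
  by_cases hn : n % M₀ = a
  · rw [if_pos (hmem.mpr hn), if_pos hn]
  · rw [if_neg (fun h => hn (hmem.mp h)), if_neg hn]

/-- functions of the residue class and of the values -/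
theorem poly_gen (S : Sys q m e C₀) (P : Polynomial ℝ) {M₀ : ℕ} (hM₀ : 1 ≤ M₀)
    {g : ℕ → (∀ i, Fin (d i) → ℤ) → ℝ} (hg : ∀ a x, |g a x| ≤ 1) :
    Tendsto (LogAvg fun n => mu n * (Real.cos (2 * Real.pi * P.eval (n : ℝ)) *
      g (n % M₀) (fun i => e i n))) atTop (𝓝 0) := by
  have h1 := tendsto_finset (Finset.range M₀)
    (fun a n => mu n * (Real.cos (2 * Real.pi * P.eval (n : ℝ)) *
      (if n % M₀ = a then g a (fun i => e i n) else 0)))
    (fun a _ => poly_class S P hM₀ a (hg a))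
  refine h1.congr fun N => LogAvg_congr fun n _ _ => ?_
  rw [← Finset.mul_sum, ← Finset.mul_sum]
  have e1 : ∀ a ∈ Finset.range M₀, (if n % M₀ = a then g a (fun i => e i n) else 0) =
      if n % M₀ = a then g (n % M₀) (fun i => e i n) else 0 := by
    intro a _
    split_ifs with h
    · rw [h]
    · rfl
  rw [Finset.sum_congr rfl e1, Finset.sum_ite_eq,
    if_pos (Finset.mem_range.mpr (Nat.mod_lt _ hM₀))]

/-- the general real case -/
theorem poly_real {q : ι → ℕ} (hq : ∀ i, 2 ≤ q i) (hc : ∀ i j, i ≠ j → (q i).Coprime (q j))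
    {m : ι → ℕ} {d : ι → ℕ} {e : ∀ i, ℕ → Fin (d i) → ℤ} {C : ι → ℝ}
    (he : ∀ i, QV (q i) (m i) (e i) (C i)) (P : Polynomial ℝ) {M₀ : ℕ} (hM₀ : 1 ≤ M₀)
    {g : ℕ → (∀ i, Fin (d i) → ℤ) → ℝ} {B : ℝ} (hg : ∀ a x, |g a x| ≤ B) :
    Tendsto (LogAvg fun n => mu n * (Real.cos (2 * Real.pi * P.eval (n : ℝ)) *
      g (n % M₀) (fun i => e i n))) atTop (𝓝 0) := by
  choose l e' C' φ he' hgen hφ using fun i => exists_coords (hq i) (he i)
  have hC' : ∀ i, C' i ≤ ∑ j, C' j := fun i =>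
    Finset.single_le_sum (f := C') (fun j _ => (he' j).nonneg) (Finset.mem_univ i)
  have hm : ∀ i, m i ≤ ∑ j, m j := fun i =>
    Finset.single_le_sum (f := m) (fun j _ => Nat.zero_le _) (Finset.mem_univ i)
  have S : Sys q (∑ j, m j) e' (∑ j, C' j) :=
    ⟨hq, hc, fun i => QV.mono (hq i) (he' i) (hm i) (hC' i), hgen⟩
  have hB : 0 ≤ B := (abs_nonneg _).trans (hg 0 (fun _ => 0))
  have h1 := (poly_gen S P hM₀ (g := fun a x => g a (fun i => φ i (x i)) / (B + 1))
    (fun a x => by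
      rw [abs_div, abs_of_pos (by linarith : 0 < B + 1), div_le_one (by linarith)]
      linarith [hg a (fun i => φ i (x i))])).const_mul (B + 1)
  rw [mul_zero] at h1
  refine h1.congr fun N => ?_
  rw [← LogAvg_const_mul]
  refine LogAvg_congr fun n _ _ => ?_
  have e1 : (fun i => φ i (e' i n)) = fun i => e i n := by
    funext i
    rw [hφ i]
  rw [e1]
  have : B + 1 ≠ 0 := by linarith
  field_simp

theorem poly_complex {q : ι → ℕ} (hq : ∀ i, 2 ≤ q i) (hc : ∀ i j, i ≠ j → (q i).Coprime (q j))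
    {m : ι → ℕ} {d : ι → ℕ} {e : ∀ i, ℕ → Fin (d i) → ℤ} {C₁ : ι → ℝ}
    (he : ∀ i, QV (q i) (m i) (e i) (C₁ i)) (P : Polynomial ℝ) {M₀ : ℕ} (hM₀ : 1 ≤ M₀)
    {g : ℕ → (∀ i, Fin (d i) → ℤ) → ℂ} {B : ℝ} (hg : ∀ a x, ‖g a x‖ ≤ B) :
    Tendsto (fun N : ℕ => (1 / Real.log N : ℂ) * ∑ n ∈ Finset.Icc 1 N,
      Complex.exp (2 * Real.pi * Complex.I * P.eval (n : ℝ)) * g (n % M₀) (fun i => e i n) *
        (ArithmeticFunction.moebius n : ℂ) / n) atTop (𝓝 0) := by
  have hθ : ∀ (θ : ℝ) (n : ℕ), P.eval (n : ℝ) + θ = (P + C θ).eval (n : ℝ) := by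
    intro θ n
    rw [eval_add, eval_C]
  refine SA.to_complex_poly (φ := fun n => P.eval (n : ℝ))
    (Z := fun n => g (n % M₀) (fun i => e i n)) (fun θ => ?_) (fun θ => ?_)
  · simp only [hθ]
    exact poly_real hq hc he (P + C θ) hM₀ (g := fun a x => (g a x).re)
      fun a x => (Complex.abs_re_le_norm _).trans (hg a x)
  · simp only [hθ]
    exact poly_real hq hc he (P + C θ) hM₀ (g := fun a x => (g a x).im)
      fun a x => (Complex.abs_im_le_norm _).trans (hg a x)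

/-- test functions which depend on `N` -/
theorem poly_seq {q : ι → ℕ} (hq : ∀ i, 2 ≤ q i) (hc : ∀ i j, i ≠ j → (q i).Coprime (q j))
    {m : ι → ℕ} {d : ι → ℕ} {e : ∀ i, ℕ → Fin (d i) → ℤ} {C₁ : ι → ℝ}
    (he : ∀ i, QV (q i) (m i) (e i) (C₁ i)) (P : Polynomial ℝ) {M₀ : ℕ} (hM₀ : 1 ≤ M₀)
    {Ψ : ℕ → ℕ → (∀ i, Fin (d i) → ℤ) → ℂ} {B : ℝ} (hΨ : ∀ N a x, ‖Ψ N a x‖ ≤ B) :
    Tendsto (fun N : ℕ => (1 / Real.log N : ℂ) * ∑ n ∈ Finset.Icc 1 N,
      Complex.exp (2 * Real.pi * Complex.I * P.eval (n : ℝ)) * Ψ N (n % M₀) (fun i => e i n) *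
        (ArithmeticFunction.moebius n : ℂ) / n) atTop (𝓝 0) := by
  have h1 := SA.schur (Z := ℕ × (∀ i, Fin (d i) → ℤ)) (fun n => (n % M₀, fun i => e i n))
    (fun n => Complex.exp (2 * Real.pi * Complex.I * P.eval (n : ℝ)) *
      (ArithmeticFunction.moebius n : ℂ) / n) (fun N => (1 / Real.log N : ℂ))
    (fun B' Φ hΦ => by
      refine (poly_complex hq hc he P hM₀ (g := fun a v => Φ (a, v)) fun a v =>
        hΦ (a, v)).congr fun N => ?_
      unfold SA.tst
      congr 1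
      exact Finset.sum_congr rfl fun n _ => by ring)
    (fun N z => Ψ N z.1 z.2) (B := B) (fun N z => hΨ N z.1 z.2)
  refine h1.congr fun N => ?_
  unfold SA.tst
  congr 1
  exact Finset.sum_congr rfl fun n _ => by ring

end several

/-- with a further sequence which is almost periodic -/
theorem rap_seq {ι : Type*} [Fintype ι] {q : ι → ℕ} (hq : ∀ i, 2 ≤ q i)
    (hc : ∀ i j, i ≠ j → (q i).Coprime (q j))
    {m : ι → ℕ} {d : ι → ℕ} {e : ∀ i, ℕ → Fin (d i) → ℤ} {C₁ : ι → ℝ}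
    (he : ∀ i, QV (q i) (m i) (e i) (C₁ i)) {A : Type*} [DecidableEq A] {b : ℕ → A}
    (hb : ∀ ε : ℝ, 0 < ε → ∃ (M : ℕ) (c : ℕ → A), 1 ≤ M ∧ ∀ᶠ N : ℕ in atTop,
      (1 / Real.log N) * ∑ n ∈ Finset.Icc 1 N, (if b n = c (n % M) then (0 : ℝ) else 1) / n ≤ ε)
    (P : Polynomial ℝ)
    {Ψ : ℕ → A → (∀ i, Fin (d i) → ℤ) → ℂ} {B : ℝ} (hΨ : ∀ N a x, ‖Ψ N a x‖ ≤ B) :
    Tendsto (fun N : ℕ => (1 / Real.log N : ℂ) * ∑ n ∈ Finset.Icc 1 N,
      Complex.exp (2 * Real.pi * Complex.I * P.eval (n : ℝ)) * Ψ N (b n) (fun i => e i n) *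
        (ArithmeticFunction.moebius n : ℂ) / n) atTop (𝓝 0) := by
  classical
  have hB : 0 ≤ B := (norm_nonneg _).trans (hΨ 0 (b 0) (fun _ => 0))
  rw [Metric.tendsto_nhds]
  intro ε hε
  obtain ⟨M, c, hM, hN⟩ := hb (ε / (4 * (B + 1))) (by positivity)
  have h1 := poly_seq hq hc he P hM (Ψ := fun N a x => Ψ N (c a) x) (B := B)
    (fun N a x => hΨ N (c a) x)
  rw [Metric.tendsto_nhds] at h1
  filter_upwards [h1 (ε / 2) (half_pos hε), hN, eventually_ge_atTop 3] with N h2 h3 h4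
  rw [dist_zero_right] at h2 ⊢
  set F : ℕ → ℂ := fun n => Complex.exp (2 * Real.pi * Complex.I * P.eval (n : ℝ)) *
    Ψ N (b n) (fun i => e i n) * (ArithmeticFunction.moebius n : ℂ) / n with hF
  set G : ℕ → ℂ := fun n => Complex.exp (2 * Real.pi * Complex.I * P.eval (n : ℝ)) *
    Ψ N (c (n % M)) (fun i => e i n) * (ArithmeticFunction.moebius n : ℂ) / n with hG
  have hlog : 0 < Real.log N := Real.log_pos (by exact_mod_cast (by omega : 1 < N))
  have hdiff : ∀ n, ‖F n - G n‖ ≤ 2 * B * ((if b n = c (n % M) then (0 : ℝ) else 1) / n) := by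
    intro n
    rw [hF, hG]
    simp only
    split_ifs with h
    · rw [h, sub_self, norm_zero]
      simp
    · have e1 : Complex.exp (2 * Real.pi * Complex.I * P.eval (n : ℝ)) *
          Ψ N (b n) (fun i => e i n) * (ArithmeticFunction.moebius n : ℂ) / n -
          Complex.exp (2 * Real.pi * Complex.I * P.eval (n : ℝ)) *
          Ψ N (c (n % M)) (fun i => e i n) * (ArithmeticFunction.moebius n : ℂ) / n =
          Complex.exp (2 * Real.pi * Complex.I * P.eval (n : ℝ)) *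
            ((Ψ N (b n) (fun i => e i n) - Ψ N (c (n % M)) (fun i => e i n)) *
              (ArithmeticFunction.moebius n : ℂ)) / n := by ring
      rw [e1, norm_div, norm_mul, norm_mul, Complex.norm_natCast]
      have hexp : ‖Complex.exp (2 * Real.pi * Complex.I * P.eval (n : ℝ))‖ = 1 := by
        have h2 : (2 * Real.pi * Complex.I * ((P.eval (n : ℝ) : ℝ) : ℂ) : ℂ) =
            ((2 * Real.pi * P.eval (n : ℝ) : ℝ) : ℂ) * Complex.I := by
          push_cast
          ring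
        rw [h2, Complex.norm_exp_ofReal_mul_I]
      have hmu : ‖(ArithmeticFunction.moebius n : ℂ)‖ ≤ 1 := by
        rw [Complex.norm_intCast]
        exact_mod_cast ArithmeticFunction.abs_moebius_le_one
      rw [hexp, one_mul, mul_one_div]
      refine div_le_div_of_nonneg_right ?_ (Nat.cast_nonneg n)
      calc ‖Ψ N (b n) (fun i => e i n) - Ψ N (c (n % M)) (fun i => e i n)‖ *
            ‖(ArithmeticFunction.moebius n : ℂ)‖ ≤ (B + B) * 1 := by
            refine mul_le_mul ?_ hmu (norm_nonneg _) (by linarith)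
            exact (norm_sub_le _ _).trans (add_le_add (hΨ _ _ _) (hΨ _ _ _))
        _ = 2 * B := by ring
  have hsum : ‖(1 / Real.log N : ℂ) * ∑ n ∈ Finset.Icc 1 N, F n -
      (1 / Real.log N : ℂ) * ∑ n ∈ Finset.Icc 1 N, G n‖ ≤
      2 * B * ((1 / Real.log N) * ∑ n ∈ Finset.Icc 1 N,
        (if b n = c (n % M) then (0 : ℝ) else 1) / n) := by
    rw [← mul_sub, ← Finset.sum_sub_distrib, norm_mul]
    have e1 : ‖(1 / Real.log N : ℂ)‖ = 1 / Real.log N := by
      rw [norm_div, norm_one, Complex.norm_real, Real.norm_of_nonneg hlog.le]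
    rw [e1]
    have e2 : ‖∑ n ∈ Finset.Icc 1 N, (F n - G n)‖ ≤ ∑ n ∈ Finset.Icc 1 N,
        2 * B * ((if b n = c (n % M) then (0 : ℝ) else 1) / n) :=
      (norm_sum_le _ _).trans (Finset.sum_le_sum fun n _ => hdiff n)
    rw [← Finset.mul_sum] at e2
    calc 1 / Real.log N * ‖∑ n ∈ Finset.Icc 1 N, (F n - G n)‖ ≤
        1 / Real.log N * (2 * B * ∑ n ∈ Finset.Icc 1 N,
          (if b n = c (n % M) then (0 : ℝ) else 1) / n) :=
          mul_le_mul_of_nonneg_left e2 (by positivity)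
      _ = _ := by ring
  have hsmall : 2 * B * ((1 / Real.log N) * ∑ n ∈ Finset.Icc 1 N,
      (if b n = c (n % M) then (0 : ℝ) else 1) / n) ≤ ε / 2 := by
    calc _ ≤ 2 * B * (ε / (4 * (B + 1))) := mul_le_mul_of_nonneg_left h3 (by positivity)
      _ ≤ 2 * (B + 1) * (ε / (4 * (B + 1))) :=
        mul_le_mul_of_nonneg_right (by linarith) (by positivity)
      _ = ε / 2 := by
        have : B + 1 ≠ 0 := by positivity
        field_simp
        ring
  have htri := norm_add_le ((1 / Real.log N : ℂ) * ∑ n ∈ Finset.Icc 1 N, F n -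
      (1 / Real.log N : ℂ) * ∑ n ∈ Finset.Icc 1 N, G n)
      ((1 / Real.log N : ℂ) * ∑ n ∈ Finset.Icc 1 N, G n)
  rw [sub_add_cancel] at htri
  linarith

end Pool.Agent.Lib.MP_3e612f_nt.MB
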