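import Pool.Agent.Lib.MP_3e612f_nt.MDefs

/-!
Few levels are resonant: `q ^ l / q' ^ l'` is rarely close to a rational number with a small
denominator.
-/

set_option autoImplicit false

namespace Pool.Agent.Lib.MP_3e612f_nt.MB

open Filter Topology
open Pool.Agent.Lib.MP_3e612f_nt.QA

theorem res_lg_le {q : ℕ} (b : ℕ) : q ^ lg q b ≤ 2 ^ b :=
  Nat.pow_log_le_self q (by positivity)

theorem res_lt_lg {q : ℕ} (hq : 2 ≤ q) (b : ℕ) : 2 ^ b < q ^ (lg q b + 1) :=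
  Nat.lt_pow_succ_log_self (by omega) _

theorem res_step {q : ℕ} (hq : 2 ≤ q) {W g : ℕ} (hW : q ≤ 2 ^ W) (hg : 1 ≤ g) (b : ℕ) :
    lg q b + 1 ≤ lg q (b + W * g) ∧ lg q (b + W * g) ≤ lg q b + W * g := by
  constructor
  · have h1 : q ^ (lg q b + 1) ≤ 2 ^ (b + W * g) := by
      calc q ^ (lg q b + 1) = q ^ lg q b * q := pow_succ _ _
        _ ≤ 2 ^ b * 2 ^ W := Nat.mul_le_mul (res_lg_le b) hW
        _ = 2 ^ (b + W) := (pow_add 2 b W).symm
        _ ≤ 2 ^ (b + W * g) := Nat.pow_le_pow_right (by norm_num)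
            (by nlinarith [Nat.zero_le W])
    exact Nat.le_log_of_pow_le (by omega) h1
  · have h1 : q ^ lg q (b + W * g) < 2 ^ (W * g) * q ^ (lg q b + 1) := by
      calc q ^ lg q (b + W * g) ≤ 2 ^ (b + W * g) := res_lg_le _
        _ = 2 ^ (W * g) * 2 ^ b := by rw [pow_add, mul_comm]
        _ < 2 ^ (W * g) * q ^ (lg q b + 1) :=
            Nat.mul_lt_mul_of_pos_left (res_lt_lg hq b) (by positivity)
    have h2 : 2 ^ (W * g) * q ^ (lg q b + 1) ≤ q ^ (W * g + (lg q b + 1)) := by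
      rw [pow_add q (W * g)]
      exact Nat.mul_le_mul_right _ (Nat.pow_le_pow_left hq _)
    have h3 := (Nat.pow_lt_pow_iff_right (show 1 < q by omega)).1 (lt_of_lt_of_le h1 h2)
    omega

/-- sparse sets -/
theorem res_sparse {A : Finset ℕ} {s G : ℕ} (hA : A ⊆ Finset.range s)
    (h : ∀ x ∈ A, ∀ y ∈ A, x < y → G < y - x) : (A.card : ℝ) ≤ s / (G + 1) + 1 := by
  have h1 : A.card ≤ (Finset.range (s / (G + 1) + 1)).card := by
    apply Finset.card_le_card_of_injOn (fun x => x / (G + 1))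
    · intro x hx
      have hx' : x < s := Finset.mem_range.1 (hA hx)
      simp only [Finset.coe_range, Set.mem_Iio]
      have := Nat.div_le_div_right (c := G + 1) hx'.le
      omega
    · intro x hx y hy hxy
      simp only at hxy
      by_contra hne
      have key : ∀ x ∈ A, ∀ y ∈ A, x / (G + 1) = y / (G + 1) → ¬ x < y := by
        intro x hx y hy hxy hlt
        have h2 := h x hx y hy hlt
        have h3 := Nat.div_add_mod x (G + 1)
        have h4 := Nat.div_add_mod y (G + 1)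
        have h5 := Nat.mod_lt y (show 0 < G + 1 by omega)
        rw [hxy] at h3
        omega
      rcases lt_or_gt_of_ne hne with h2 | h2
      · exact key x hx y hy hxy h2
      · exact key y hy x hx hxy.symm h2
  rw [Finset.card_range] at h1
  have h2 : (A.card : ℝ) ≤ ((s / (G + 1) + 1 : ℕ) : ℝ) := by exact_mod_cast h1
  refine h2.trans ?_
  push_cast
  have h3 : ((s / (G + 1) : ℕ) : ℝ) ≤ (s : ℝ) / ((G + 1 : ℕ) : ℝ) := Nat.cast_div_le
  push_cast at h3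
  linarith

/-- two values of the quotient -/
theorem res_gap {q q' : ℕ} (hq : 2 ≤ q) (hq' : 2 ≤ q') (hqq : q.Coprime q') {W : ℕ}
    (hW : q * q' ≤ 2 ^ W) {b g G : ℕ} (hg : 1 ≤ g) (hG : g ≤ G) {u : ℕ} (hu : 1 ≤ u) {t κ : ℝ}
    (hκ : 2 * q * (q' : ℝ) ^ (W * G) * κ ≤ 1)
    (h1 : |(u : ℝ) * ((q : ℝ) ^ lg q b / (q' : ℝ) ^ lg q' b) - t| < κ)
    (h2 : |(u : ℝ) * ((q : ℝ) ^ lg q (b + W * g) / (q' : ℝ) ^ lg q' (b + W * g)) - t| < κ) :
    False := by
  have hqW : q ≤ 2 ^ W := le_trans (Nat.le_mul_of_pos_right q (by omega)) hW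
  have hqW' : q' ≤ 2 ^ W := le_trans (Nat.le_mul_of_pos_left q' (by omega)) hW
  obtain ⟨ha, hb⟩ := res_step hq hqW hg b
  obtain ⟨ha', hb'⟩ := res_step hq' hqW' hg b
  set l := lg q b with hl
  set l' := lg q' b with hl'
  obtain ⟨D, hD⟩ := Nat.exists_eq_add_of_le ha
  obtain ⟨D', hD'⟩ := Nat.exists_eq_add_of_le ha'
  rw [hD, hD'] at h2
  have q0 : (0 : ℝ) < q := by positivity
  have q0' : (0 : ℝ) < q' := by positivity
  have u0 : (1 : ℝ) ≤ u := by exact_mod_cast hu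
  -- the first value is at least `1 / q`
  have hlow : 1 / (q : ℝ) ≤ (q : ℝ) ^ l / (q' : ℝ) ^ l' := by
    rw [div_le_div_iff₀ q0 (by positivity), one_mul]
    have e1 : q' ^ l' ≤ q ^ (l + 1) := le_trans (res_lg_le b) (res_lt_lg hq b).le
    have e2 : ((q' ^ l' : ℕ) : ℝ) ≤ ((q ^ (l + 1) : ℕ) : ℝ) := by exact_mod_cast e1
    push_cast at e2
    rwa [pow_succ] at e2
  -- the ratio is not one
  have hne : (q : ℤ) ^ (1 + D) ≠ (q' : ℤ) ^ (1 + D') := by
    intro h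
    have h' : q ^ (1 + D) = q' ^ (1 + D') := by exact_mod_cast h
    have h3 : (q ^ (1 + D)).Coprime (q' ^ (1 + D')) := Nat.Coprime.pow _ _ hqq
    rw [← h', Nat.coprime_self] at h3
    have h4 : 1 < q ^ (1 + D) := Nat.one_lt_pow (by omega) (by omega)
    omega
  have hint : (1 : ℝ) ≤ |(q : ℝ) ^ (1 + D) - (q' : ℝ) ^ (1 + D')| := by
    have h3 : (1 : ℤ) ≤ |(q : ℤ) ^ (1 + D) - (q' : ℤ) ^ (1 + D')| :=
      Int.one_le_abs (sub_ne_zero.2 hne)
    exact_mod_cast h3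
  set α : ℝ := (q : ℝ) ^ l / (q' : ℝ) ^ l' with hα
  have e0 : (q : ℝ) ^ (l + 1 + D) / (q' : ℝ) ^ (l' + 1 + D') =
      α * ((q : ℝ) ^ (1 + D) / (q' : ℝ) ^ (1 + D')) := by
    rw [hα, add_assoc, add_assoc, pow_add, pow_add (q' : ℝ), mul_div_mul_comm]
  rw [e0] at h2
  have h3 : |(u : ℝ) * (α * ((q : ℝ) ^ (1 + D) / (q' : ℝ) ^ (1 + D'))) - u * α| < 2 * κ := by
    have := abs_sub_lt_iff.1 h1
    have h5 := abs_sub_lt_iff.1 h2
    rw [abs_sub_lt_iff]
    constructor <;> linarith [this.1, this.2, h5.1, h5.2]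
  have h4 : |(u : ℝ) * (α * ((q : ℝ) ^ (1 + D) / (q' : ℝ) ^ (1 + D'))) - u * α| =
      u * α * (|(q : ℝ) ^ (1 + D) - (q' : ℝ) ^ (1 + D')| / (q' : ℝ) ^ (1 + D')) := by
    have p0 : (0 : ℝ) < (q' : ℝ) ^ (1 + D') := by positivity
    have e1 : (u : ℝ) * (α * ((q : ℝ) ^ (1 + D) / (q' : ℝ) ^ (1 + D'))) - u * α =
        u * α * (((q : ℝ) ^ (1 + D) - (q' : ℝ) ^ (1 + D')) / (q' : ℝ) ^ (1 + D')) := by
      field_simp
    rw [e1, abs_mul, abs_div, abs_of_pos p0, abs_of_nonneg (by positivity)]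
  rw [h4] at h3
  have p1 : (q' : ℝ) ^ (1 + D') ≤ (q' : ℝ) ^ (W * G) := by
    apply pow_le_pow_right₀ (by exact_mod_cast (by omega : 1 ≤ q'))
    have : W * g ≤ W * G := Nat.mul_le_mul_left _ hG
    omega
  have h5 : 1 / (q' : ℝ) ^ (W * G) ≤
      |(q : ℝ) ^ (1 + D) - (q' : ℝ) ^ (1 + D')| / (q' : ℝ) ^ (1 + D') :=
    div_le_div₀ (abs_nonneg _) hint (by positivity) p1
  have h6 : 1 / (q : ℝ) ≤ u * α := by
    have : (0 : ℝ) ≤ α := by positivity
    nlinarith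
  have h7 : 1 / (q : ℝ) * (1 / (q' : ℝ) ^ (W * G)) ≤
      u * α * (|(q : ℝ) ^ (1 + D) - (q' : ℝ) ^ (1 + D')| / (q' : ℝ) ^ (1 + D')) :=
    mul_le_mul h6 h5 (by positivity) (le_trans (by positivity) h6)
  have h8 : 1 / (q : ℝ) * (1 / (q' : ℝ) ^ (W * G)) < 2 * κ := lt_of_le_of_lt h7 h3
  have p2 : (0 : ℝ) < (q : ℝ) * (q' : ℝ) ^ (W * G) := by positivity
  have h9 : 1 < 2 * κ * ((q : ℝ) * (q' : ℝ) ^ (W * G)) := by
    have := mul_lt_mul_of_pos_right h8 p2
    have e2 : 1 / (q : ℝ) * (1 / (q' : ℝ) ^ (W * G)) * ((q : ℝ) * (q' : ℝ) ^ (W * G)) = 1 := by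
      field_simp
    rwa [e2] at this
  linarith

open Classical in
/-- M18: few levels are resonant -/
theorem resonance {q q' : ℕ} (hq : 2 ≤ q) (hq' : 2 ≤ q') (hqq : q.Coprime q') {W : ℕ}
    (hW : q * q' ≤ 2 ^ W) (M : ℕ) {ε : ℝ} (hε : 0 < ε) :
    ∃ κ K : ℝ, 0 < κ ∧ 0 ≤ K ∧ ∀ a s : ℕ,
      (((Finset.range s).filter (fun j => ∃ u : ℕ, 1 ≤ u ∧ u ≤ M ∧ ∃ u' : ℤ,
        |(u : ℝ) * ((q : ℝ) ^ lg q (a + W * (j + 1)) / (q' : ℝ) ^ lg q' (a + W * (j + 1))) - u'| <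
          κ)).card : ℝ) ≤ ε * s + K := by
  obtain ⟨G, hG⟩ := exists_nat_gt ((M * (M * q' + 2) : ℝ) / ε)
  have q0 : (0 : ℝ) < q := by positivity
  have q0' : (0 : ℝ) < q' := by positivity
  have hqW : q ≤ 2 ^ W := le_trans (Nat.le_mul_of_pos_right q (by omega)) hW
  have hqW' : q' ≤ 2 ^ W := le_trans (Nat.le_mul_of_pos_left q' (by omega)) hW
  have p0 : (0 : ℝ) < 2 * q * (q' : ℝ) ^ (W * G) := by positivity
  have p1 : (1 : ℝ) ≤ (q' : ℝ) ^ (W * G) := one_le_pow₀ (by exact_mod_cast (by omega : 1 ≤ q'))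
  refine ⟨1 / (2 * q * (q' : ℝ) ^ (W * G)), M * (M * q' + 2), by positivity, by positivity, ?_⟩
  intro a s
  set κ : ℝ := 1 / (2 * q * (q' : ℝ) ^ (W * G)) with hκ
  have hκ1 : 2 * q * (q' : ℝ) ^ (W * G) * κ ≤ 1 := by rw [hκ]; field_simp; rfl
  have hκ2 : κ ≤ 1 / (2 * q) := by
    rw [hκ]
    apply one_div_le_one_div_of_le (by positivity)
    nlinarith
  set α : ℕ → ℝ := fun j =>
    (q : ℝ) ^ lg q (a + W * (j + 1)) / (q' : ℝ) ^ lg q' (a + W * (j + 1)) with hα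
  have hlow : ∀ j, 1 / (q : ℝ) < α j := by
    intro j
    simp only [hα]
    rw [div_lt_div_iff₀ q0 (by positivity), one_mul]
    have e1 : q' ^ lg q' (a + W * (j + 1)) < q ^ (lg q (a + W * (j + 1)) + 1) :=
      lt_of_le_of_lt (res_lg_le _) (res_lt_lg hq _)
    have e2 : ((q' ^ lg q' (a + W * (j + 1)) : ℕ) : ℝ) <
      ((q ^ (lg q (a + W * (j + 1)) + 1) : ℕ) : ℝ) := by exact_mod_cast e1
    push_cast at e2
    rwa [pow_succ] at e2
  have hup : ∀ j, α j < q' := by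
    intro j
    simp only [hα]
    rw [div_lt_iff₀ (by positivity)]
    have e1 : q ^ lg q (a + W * (j + 1)) < q' ^ (lg q' (a + W * (j + 1)) + 1) :=
      lt_of_le_of_lt (res_lg_le _) (res_lt_lg hq' _)
    have e2 : ((q ^ lg q (a + W * (j + 1)) : ℕ) : ℝ) <
      ((q' ^ (lg q' (a + W * (j + 1)) + 1) : ℕ) : ℝ) := by exact_mod_cast e1
    push_cast at e2
    rw [pow_succ] at e2
    linarith
  let T : Finset (ℕ × ℤ) := Finset.Icc 1 M ×ˢ Finset.Icc (0 : ℤ) (M * q' + 1)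
  let F : ℕ × ℤ → Finset ℕ := fun p => (Finset.range s).filter
    (fun j => |(p.1 : ℝ) * α j - p.2| < κ)
  have hsub : (Finset.range s).filter (fun j => ∃ u : ℕ, 1 ≤ u ∧ u ≤ M ∧ ∃ u' : ℤ,
      |(u : ℝ) * ((q : ℝ) ^ lg q (a + W * (j + 1)) / (q' : ℝ) ^ lg q' (a + W * (j + 1))) - u'| <
        κ) ⊆ T.biUnion F := by
    intro j hj
    rw [Finset.mem_filter] at hj
    obtain ⟨hj, u, hu1, hu2, u', hu'⟩ := hj
    have hu' : |(u : ℝ) * α j - u'| < κ := hu'
    rw [Finset.mem_biUnion]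
    refine ⟨(u, u'), ?_, ?_⟩
    · simp only [T, Finset.mem_product, Finset.mem_Icc]
      have c1 : (1 : ℝ) ≤ u := by exact_mod_cast hu1
      have c2 : (u : ℝ) ≤ M := by exact_mod_cast hu2
      obtain ⟨c3, c4⟩ := abs_sub_lt_iff.1 hu'
      have c5 := hlow j
      have c6 := hup j
      have c7 : (0 : ℝ) < 1 / q := by positivity
      have c8 : κ ≤ 1 := by
        refine hκ2.trans ?_
        rw [div_le_one (by positivity)]
        have : (2 : ℝ) ≤ q := by exact_mod_cast hq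
        linarith
      have c9 : (1 : ℝ) / (2 * q) = 1 / q / 2 := by field_simp
      refine ⟨⟨hu1, hu2⟩, ?_, ?_⟩
      · have : (-1 : ℝ) < u' := by nlinarith
        have : (-1 : ℤ) < u' := by exact_mod_cast this
        omega
      · have c10 : (u : ℝ) * α j ≤ M * q' := mul_le_mul c2 c6.le (le_trans c7.le c5.le) (by positivity)
        have : (u' : ℝ) ≤ M * q' + 1 := by linarith
        exact_mod_cast this
    · simp only [F, Finset.mem_filter]
      exact ⟨hj, hu'⟩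
  have hcard : ∀ p ∈ T, ((F p).card : ℝ) ≤ s / (G + 1) + 1 := by
    intro p hp
    simp only [T, Finset.mem_product, Finset.mem_Icc] at hp
    apply res_sparse (Finset.filter_subset _ _)
    intro x hx y hy hxy
    by_contra hGxy
    simp only [Finset.mem_filter] at hx hy
    obtain ⟨g, rfl⟩ := Nat.exists_eq_add_of_lt hxy
    refine res_gap (b := a + W * (x + 1)) (g := g + 1) (G := G) hq hq' hqq hW (by omega)
      (by omega) hp.1.1 hκ1 hx.2 ?_
    have e1 : a + W * (x + 1) + W * (g + 1) = a + W * (x + g + 1 + 1) := by ring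
    rw [e1]
    exact hy.2
  calc _ ≤ ((T.biUnion F).card : ℝ) := by exact_mod_cast Finset.card_le_card hsub
    _ ≤ ((∑ p ∈ T, (F p).card : ℕ) : ℝ) := by exact_mod_cast Finset.card_biUnion_le
    _ = ∑ p ∈ T, ((F p).card : ℝ) := by push_cast; rfl
    _ ≤ ∑ _p ∈ T, ((s : ℝ) / (G + 1) + 1) := Finset.sum_le_sum hcard
    _ = (M * (M * q' + 2)) * ((s : ℝ) / (G + 1) + 1) := by
        rw [Finset.sum_const, nsmul_eq_mul]
        congr 1
        simp only [T, Finset.card_product, Nat.card_Icc, Int.card_Icc]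
        have : ((M : ℤ) * q' + 1 + 1 - 0).toNat = M * q' + 2 := by
          have : (M : ℤ) * q' + 1 + 1 - 0 = ((M * q' + 2 : ℕ) : ℤ) := by push_cast; ring
          rw [this, Int.toNat_natCast]
        rw [this]
        push_cast
        simp
    _ ≤ ε * s + M * (M * q' + 2) := by
        have hG1 : (M * (M * q' + 2) : ℝ) < G * ε := by rwa [div_lt_iff₀ hε] at hG
        have g0 : (0 : ℝ) < G + 1 := by positivity
        have e1 : (M * (M * q' + 2) : ℝ) * ((s : ℝ) / (G + 1)) ≤ ε * s := by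
          rw [mul_div_assoc', div_le_iff₀ g0]
          have s0 : (0 : ℝ) ≤ s := Nat.cast_nonneg s
          nlinarith
        nlinarith

end Pool.Agent.Lib.MP_3e612f_nt.MB
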