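import Pool.Agent.Lib.MP_3e612f_nt.MDefs

/-!
Slowly varying functions of quasi-additive functions in several coprime bases.
-/

set_option autoImplicit false

namespace Pool.Agent.Lib.MP_3e612f_nt.MB

open Filter Topology
open Pool.Agent.Lib.MP_3e612f_nt.QA

theorem ms_norm_avc_le (q k : ℕ) (u : ℕ → ℂ) : ‖avc q k u‖ ≤ av q k (fun n => ‖u n‖) := by
  unfold avc av
  rw [norm_div, norm_pow, Complex.norm_natCast]
  gcongr
  exact norm_sum_le _ _

theorem ms_avc_sub (q k : ℕ) (u v : ℕ → ℂ) :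
    avc q k (fun n => u n - v n) = avc q k u - avc q k v := by
  unfold avc
  rw [Finset.sum_sub_distrib, sub_div]

theorem ms_avc_ofReal (q k : ℕ) (u : ℕ → ℝ) : avc q k (fun n => (u n : ℂ)) = (av q k u : ℂ) := by
  unfold avc av
  push_cast
  rfl

theorem ms_avc_sum {σ : Type*} (s : Finset σ) (q k : ℕ) (g : σ → ℕ → ℂ) :
    avc q k (fun n => ∑ i ∈ s, g i n) = ∑ i ∈ s, avc q k (g i) := by
  unfold avc
  rw [Finset.sum_comm, Finset.sum_div]

theorem ms_avc_const_mul (q k : ℕ) (c : ℂ) (u : ℕ → ℂ) :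
    avc q k (fun n => c * u n) = c * avc q k u := by
  unfold avc
  rw [← Finset.mul_sum, mul_div_assoc]

/-- a pointwise bound for the error of an approximation in a box -/
theorem ms_point {J : Type*} [Fintype J] {N : ℕ} (hN : 16 ≤ N) {ctr : J → ℤ} {μ : J → ℝ}
    (hμ : ∀ j, |(ctr j : ℝ) - μ j| ≤ 1) {Tx : ℂ} {Gx : ℝ} {x : J → ℤ} {ε : ℝ} (hε : 0 ≤ ε)
    (hT : ‖Tx‖ ≤ 1) (hG : |Gx| ≤ 1)
    (hbox : (∀ j, 8 * |x j - ctr j| ≤ (N : ℤ)) → ‖Tx - (Gx : ℂ)‖ ≤ ε) :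
    ‖Tx - (Gx : ℂ)‖ ≤ ε + 512 / (N : ℝ) ^ 2 * ∑ j, ((x j : ℝ) - μ j) ^ 2 := by
  have hN' : (16 : ℝ) ≤ N := by exact_mod_cast hN
  have hS : 0 ≤ ∑ j, ((x j : ℝ) - μ j) ^ 2 := Finset.sum_nonneg fun _ _ => sq_nonneg _
  by_cases h : ∀ j, 8 * |x j - ctr j| ≤ (N : ℤ)
  · have h1 := hbox h
    have h2 : 0 ≤ 512 / (N : ℝ) ^ 2 * ∑ j, ((x j : ℝ) - μ j) ^ 2 := by positivity
    linarith
  · push Not at h
    obtain ⟨j, hj⟩ := h
    have h1 : (N : ℝ) < 8 * |(x j : ℝ) - ctr j| := by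
      have : ((N : ℤ) : ℝ) < ((8 * |x j - ctr j| : ℤ) : ℝ) := by exact_mod_cast hj
      push_cast at this
      exact this
    have h2 : |(x j : ℝ) - ctr j| ≤ |(x j : ℝ) - μ j| + 1 := by
      have := abs_sub_le (x j : ℝ) (μ j) (ctr j)
      have h3 : |μ j - (ctr j : ℝ)| ≤ 1 := by rw [abs_sub_comm]; exact hμ j
      linarith
    have h3 : (N : ℝ) / 16 ≤ |(x j : ℝ) - μ j| := by linarith
    have h4 : ((N : ℝ) / 16) ^ 2 ≤ ((x j : ℝ) - μ j) ^ 2 := by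
      rw [← sq_abs ((x j : ℝ) - μ j)]
      exact pow_le_pow_left₀ (by positivity) h3 2
    have h5 : ((x j : ℝ) - μ j) ^ 2 ≤ ∑ j, ((x j : ℝ) - μ j) ^ 2 :=
      Finset.single_le_sum (f := fun j => ((x j : ℝ) - μ j) ^ 2) (fun _ _ => sq_nonneg _)
        (Finset.mem_univ j)
    have h6 : 2 ≤ 512 / (N : ℝ) ^ 2 * ∑ j, ((x j : ℝ) - μ j) ^ 2 := by
      have h7 : 512 / (N : ℝ) ^ 2 * ((N : ℝ) / 16) ^ 2 = 2 := by
        field_simp
        norm_num
      calc (2 : ℝ) = 512 / (N : ℝ) ^ 2 * ((N : ℝ) / 16) ^ 2 := h7.symm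
        _ ≤ _ := mul_le_mul_of_nonneg_left (h4.trans h5) (by positivity)
    have h7 : ‖Tx - (Gx : ℂ)‖ ≤ 2 := by
      calc ‖Tx - (Gx : ℂ)‖ ≤ ‖Tx‖ + ‖(Gx : ℂ)‖ := norm_sub_le _ _
        _ ≤ 1 + 1 := by
          rw [Complex.norm_real, Real.norm_eq_abs]
          exact add_le_add hT hG
        _ = 2 := by norm_num
    linarith

/-- products -/
theorem ms_prod {T T' : ℂ} {G G' : ℝ} (hT' : ‖T'‖ ≤ 1) (hG : |G| ≤ 1) :
    ‖T * T' - ((G * G' : ℝ) : ℂ)‖ ≤ ‖T - (G : ℂ)‖ + ‖T' - (G' : ℂ)‖ := by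
  have h : T * T' - ((G * G' : ℝ) : ℂ) = (T - (G : ℂ)) * T' + (G : ℂ) * (T' - (G' : ℂ)) := by
    push_cast
    ring
  rw [h]
  refine (norm_add_le _ _).trans ?_
  rw [norm_mul, norm_mul, Complex.norm_real, Real.norm_eq_abs]
  have h1 := norm_nonneg (T - (G : ℂ))
  have h2 := norm_nonneg (T' - (G' : ℂ))
  have h3 : ‖T - (G : ℂ)‖ * ‖T'‖ ≤ ‖T - (G : ℂ)‖ * 1 := mul_le_mul_of_nonneg_left hT' h1
  have h4 : |G| * ‖T' - (G' : ℂ)‖ ≤ 1 * ‖T' - (G' : ℂ)‖ := mul_le_mul_of_nonneg_right hG h2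
  linarith

/-- the error of the characteristic functions -/
theorem ms_exp {κ s X : ℝ} (hκ : 0 < κ) (hX : 0 ≤ X) (hs0 : 0 ≤ s) (hs : s ≤ κ / 2) :
    (Real.exp (s * X) - 1) * Real.exp (-(κ * X)) ≤ s * (4 / κ) * Real.exp (-(κ / 4 * X)) := by
  have h1 : Real.exp (s * X) - 1 ≤ s * X * Real.exp (s * X) := by
    have h2 := Real.add_one_le_exp (-(s * X))
    have h3 : Real.exp (s * X) * (-(s * X) + 1) ≤ Real.exp (s * X) * Real.exp (-(s * X)) :=
      mul_le_mul_of_nonneg_left h2 (Real.exp_pos _).le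
    rw [← Real.exp_add, add_neg_cancel, Real.exp_zero] at h3
    linarith
  have h4 : X ≤ 4 / κ * Real.exp (κ / 4 * X) := by
    have h5 := Real.add_one_le_exp (κ / 4 * X)
    rw [div_mul_eq_mul_div, le_div_iff₀ hκ]
    linarith
  have h6 : s * X * Real.exp (s * X) ≤ s * (4 / κ * Real.exp (κ / 4 * X)) * Real.exp (κ / 2 * X) := by
    have h7 : s * X ≤ s * (4 / κ * Real.exp (κ / 4 * X)) := mul_le_mul_of_nonneg_left h4 hs0
    have h8 : Real.exp (s * X) ≤ Real.exp (κ / 2 * X) :=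
      Real.exp_le_exp.2 (mul_le_mul_of_nonneg_right hs hX)
    exact mul_le_mul h7 h8 (Real.exp_pos _).le (by positivity)
  calc (Real.exp (s * X) - 1) * Real.exp (-(κ * X))
      ≤ (s * (4 / κ * Real.exp (κ / 4 * X)) * Real.exp (κ / 2 * X)) * Real.exp (-(κ * X)) :=
        mul_le_mul_of_nonneg_right (h1.trans h6) (Real.exp_pos _).le
    _ = s * (4 / κ) * (Real.exp (κ / 4 * X) * Real.exp (κ / 2 * X) * Real.exp (-(κ * X))) := by ring
    _ = s * (4 / κ) * Real.exp (-(κ / 4 * X)) := by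
        rw [← Real.exp_add, ← Real.exp_add]
        congr 2
        ring

section several

variable {ι : Type*} [Fintype ι] [DecidableEq ι] {d : ι → ℕ}

/-- the frequencies -/
noncomputable def wv (N M : ℕ) (u : (Σ i, Fin (d i)) → Fin (2 * M + 1)) (i : ι) (a : Fin (d i)) :
    ℝ := 2 * Real.pi * (((u ⟨i, a⟩ : ℕ) : ℝ) - M) / N

theorem ms_trig (N M : ℕ) (u : (Σ i, Fin (d i)) → Fin (2 * M + 1)) (x : (Σ i, Fin (d i)) → ℤ) :
    Complex.exp (2 * Real.pi * Complex.I * ((∑ j, (((u j : ℕ) : ℤ) - M) * x j : ℤ) : ℂ) / N) =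
      Complex.exp (Complex.I * ((∑ i, ∑ a, wv N M u i a * (x ⟨i, a⟩ : ℝ) : ℝ) : ℂ)) := by
  congr 1
  rw [Fintype.sum_sigma]
  unfold wv
  push_cast
  rw [Finset.mul_sum, Finset.sum_div, Finset.mul_sum]
  apply Finset.sum_congr rfl
  intro i _
  rw [Finset.mul_sum, Finset.sum_div, Finset.mul_sum]
  apply Finset.sum_congr rfl
  intro a _
  ring

/-- the complex average in the model -/
noncomputable def mavc (t : ι → ℕ) (g : (ι → ℕ) → ℂ) : ℂ :=
  (∑ x ∈ Fintype.piFinset (fun i => Finset.range (t i)), g x) / ∏ i, (t i : ℂ)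

/-- the average in the model -/
noncomputable def mav (t : ι → ℕ) (g : (ι → ℕ) → ℝ) : ℝ :=
  (∑ x ∈ Fintype.piFinset (fun i => Finset.range (t i)), g x) / ∏ i, (t i : ℝ)

theorem ms_norm_mavc_le (t : ι → ℕ) (g : (ι → ℕ) → ℂ) : ‖mavc t g‖ ≤ mav t (fun x => ‖g x‖) := by
  unfold mavc mav
  rw [norm_div, norm_prod]
  simp only [Complex.norm_natCast]
  gcongr
  exact norm_sum_le _ _

theorem ms_mavc_sub (t : ι → ℕ) (g g' : (ι → ℕ) → ℂ) :
    mavc t (fun x => g x - g' x) = mavc t g - mavc t g' := by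
  unfold mavc
  rw [Finset.sum_sub_distrib, sub_div]

theorem ms_mavc_ofReal (t : ι → ℕ) (g : (ι → ℕ) → ℝ) :
    mavc t (fun x => (g x : ℂ)) = (mav t g : ℂ) := by
  unfold mavc mav
  push_cast
  rfl

theorem ms_mavc_sum {σ : Type*} (s : Finset σ) (t : ι → ℕ) (g : σ → (ι → ℕ) → ℂ) :
    mavc t (fun x => ∑ i ∈ s, g i x) = ∑ i ∈ s, mavc t (g i) := by
  unfold mavc
  rw [Finset.sum_comm, Finset.sum_div]

theorem ms_mavc_const_mul (t : ι → ℕ) (c : ℂ) (g : (ι → ℕ) → ℂ) :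
    mavc t (fun x => c * g x) = c * mavc t g := by
  unfold mavc
  rw [← Finset.mul_sum, mul_div_assoc]

theorem ms_mavc_prod (t : ι → ℕ) (f : ι → ℕ → ℂ) :
    mavc t (fun x => ∏ i, f i (x i)) = ∏ i, (∑ n ∈ Finset.range (t i), f i n) / (t i : ℂ) := by
  unfold mavc
  rw [Finset.prod_div_distrib, Finset.prod_univ_sum]

theorem ms_mav_prod (t : ι → ℕ) (f : ι → ℕ → ℝ) :
    mav t (fun x => ∏ i, f i (x i)) = ∏ i, (∑ n ∈ Finset.range (t i), f i n) / (t i : ℝ) := by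
  unfold mav
  rw [Finset.prod_div_distrib, Finset.prod_univ_sum]

theorem ms_mav_one (t : ι → ℕ) (ht : ∀ i, 0 < t i) (i₀ : ι) (f : ℕ → ℝ) :
    mav t (fun x => f (x i₀)) = (∑ n ∈ Finset.range (t i₀), f n) / (t i₀ : ℝ) := by
  have h := ms_mav_prod t (fun i n => if i = i₀ then f n else 1)
  have h1 : (fun x : ι → ℕ => ∏ i, (fun i n => if i = i₀ then f n else (1 : ℝ)) i (x i)) =
      fun x => f (x i₀) := by
    funext x
    simp only
    rw [Finset.prod_eq_single i₀]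
    · rw [if_pos rfl]
    · intro b _ hb
      rw [if_neg hb]
    · intro h
      exact absurd (Finset.mem_univ _) h
  rw [h1] at h
  rw [h, Finset.prod_eq_single i₀]
  · simp
  · intro b _ hb
    simp only [if_neg hb, Finset.sum_const, Finset.card_range, nsmul_eq_mul, mul_one]
    rw [div_self]
    exact_mod_cast (ht b).ne'
  · intro h
    exact absurd (Finset.mem_univ _) h

theorem ms_mav_mono (t : ι → ℕ) {g g' : (ι → ℕ) → ℝ} (h : ∀ x, g x ≤ g' x) :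
    mav t g ≤ mav t g' := by
  unfold mav
  gcongr
  exact h _

theorem ms_mav_add (t : ι → ℕ) (g g' : (ι → ℕ) → ℝ) :
    mav t (fun x => g x + g' x) = mav t g + mav t g' := by
  unfold mav
  rw [Finset.sum_add_distrib, add_div]

theorem ms_mav_const_mul (t : ι → ℕ) (c : ℝ) (g : (ι → ℕ) → ℝ) :
    mav t (fun x => c * g x) = c * mav t g := by
  unfold mav
  rw [← Finset.mul_sum, mul_div_assoc]

theorem ms_mav_sum {σ : Type*} (s : Finset σ) (t : ι → ℕ) (g : σ → (ι → ℕ) → ℝ) :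
    mav t (fun x => ∑ i ∈ s, g i x) = ∑ i ∈ s, mav t (g i) := by
  unfold mav
  rw [Finset.sum_comm, Finset.sum_div]

theorem ms_mav_const (t : ι → ℕ) (ht : ∀ i, 0 < t i) (c : ℝ) : mav t (fun _ => c) = c := by
  unfold mav
  rw [Finset.sum_const, Fintype.card_piFinset, nsmul_eq_mul]
  simp only [Finset.card_range]
  push_cast
  rw [mul_comm, mul_div_assoc, div_self, mul_one]
  exact Finset.prod_ne_zero_iff.2 fun i _ => by exact_mod_cast (ht i).ne'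

end several

end Pool.Agent.Lib.MP_3e612f_nt.MB
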