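import Pool.Agent.Lib.MP_3e612f_nt.QAlg
import Pool.Agent.Lib.MP_3e612f_nt.QSmooth

/-!
Definitions for the joint treatment of finite-state functions and quasi-additive functions.
-/

set_option autoImplicit false

namespace Pool.Agent.Lib.MP_3e612f_nt.SA

open Filter Topology QA

/-- `q`-quasi-multiplicative functions with values in a monoid -/
structure QM {S : Type*} [Monoid S] (q m : ℕ) (β : ℕ → S) : Prop where
  one : β 0 = 1
  gap : ∀ a y s : ℕ, s < q ^ a → β (q ^ (a + m) * y + s) = β y * β s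

/-- `β ω` is an idempotent in the minimal ideal, and `β n` determines `n` modulo `q - 1` -/
structure Core {S : Type*} [Monoid S] (q : ℕ) (β : ℕ → S) (ω : ℕ) : Prop where
  pos : 1 ≤ ω
  idem : β ω * β ω = β ω
  min : ∀ n, ∃ n', β n' * (β n * β ω) = β ω
  val : ∀ n n', β n = β n' → n ≡ n' [MOD (q - 1)]

/-- the elements of the maximal subgroup at `β ω` which come from multiples of `q - 1` -/
def LL {S : Type*} [Monoid S] (q : ℕ) (β : ℕ → S) (ω : ℕ) : Set S :=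
  {l | ∃ x, (q - 1) ∣ x ∧ l = β ω * β x * β ω}

/-- the two sides can be moved independently along `LL` -/
def Rch {S : Type*} [Monoid S] (q : ℕ) (β : ℕ → S) (ω P R : ℕ) : Prop :=
  ∀ n n' : ℕ, ∀ l ∈ LL q β ω, ∀ l' ∈ LL q β ω, ∃ u v : ℕ, 1 ≤ v ∧
    β (P * v) * (β (P * u) * (β n * β ω)) = β (P * u) * (β n * β ω) * l ∧
    β (R * v) * (β (R * u) * (β n' * β ω)) = β (R * u) * (β n' * β ω) * l'

/-- the pair of the two functions -/
def pr {S : Type*} {d : ℕ} (β : ℕ → S) (e : ℕ → Fin d → ℤ) (n : ℕ) : S × (Fin d → ℤ) := (β n, e n)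

/-- the joint law of the two sides is nearly invariant under the shift by `(v, v')` -/
def GoodS {S : Type*} {d : ℕ} (q P R : ℕ) (β : ℕ → S) (e : ℕ → Fin d → ℤ)
    (v v' : Fin d → ℤ) : Prop :=
  ∃ C : ℝ, 0 ≤ C ∧ ∀ h k y c d' z z' : ℕ, c ≤ P → d' ≤ R → z < q ^ h → z' < q ^ h →
    ∀ F : S × (Fin d → ℤ) → S × (Fin d → ℤ) → ℝ, (∀ x x', |F x x'| ≤ 1) →
      |Phi q P R (pr β e) h k y c d' z z' F - Phi q P R (pr β e) h k y c d' z z'
        (fun x x' => F (x.1, x.2 + v) (x'.1, x'.2 + v'))| ≤ C / Real.sqrt (k + 1)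

/-- functions which vary slowly in the second coordinates -/
structure SlowF {S : Type*} {d : ℕ} (δ : ℝ) (F : S × (Fin d → ℤ) → S × (Fin d → ℤ) → ℝ) :
    Prop where
  bd : ∀ x x', |F x x'| ≤ 1
  left : ∀ s v w x', |F (s, v + w) x' - F (s, v) x'| ≤ δ * ∑ i, |((w i : ℤ) : ℝ)|
  right : ∀ x s v w, |F x (s, v + w) - F x (s, v)| ≤ δ * ∑ i, |((w i : ℤ) : ℝ)|

/-- `Y` contains the word `ω` between zeros, with room below -/
def Gd (q m ω P Y : ℕ) : Prop :=
  ∃ a b Y₁ Y₂ : ℕ, ω < q ^ a ∧ Y₂ + P < q ^ b ∧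
    P * Y = q ^ (b + m) * (q ^ (a + m) * Y₁ + ω) + Y₂

/-- a section of the quotient map, with value `0` at `0` -/
noncomputable def sec {d : ℕ} (Λ : AddSubgroup (Fin d → ℤ)) (c : (Fin d → ℤ) ⧸ Λ) : Fin d → ℤ := by
  classical exact if c = 0 then 0 else c.out

/-- the extension to the whole lattice of the restriction of `g` to the coset `c` -/
noncomputable def extL {d : ℕ} (Λ : AddSubgroup (Fin d → ℤ)) (c : (Fin d → ℤ) ⧸ Λ)
    (g : (Fin d → ℤ) → ℝ) (v : Fin d → ℤ) : ℝ :=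
  g (v + sec Λ (c - (v : (Fin d → ℤ) ⧸ Λ)))

end Pool.Agent.Lib.MP_3e612f_nt.SA
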