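import Pool.Agent.Lib.MP_3e612f_nt.MuAP
import Pool.Agent.Lib.MP_3e612f_nt.SDefs

/-!
The prime number theorem for the Möbius function in residue classes (task T8).
-/

set_option autoImplicit false

namespace Pool.Agent.Lib.MP_3e612f_nt.SA

open Filter Topology
open Pool.Agent.Lib.MP_3e612f_nt
open Pool.Agent.Lib.MP_3e612f_nt.DS

/-- the statement of the Tauberian theorem (task T7) -/
def T8Taub : Prop := ∀ f : ℕ → ℂ, (∀ n, ‖f n‖ ≤ 1) → ∀ G : ℂ → ℂ,
    ContinuousOn G {s | 1 ≤ s.re} → (∀ s : ℂ, 1 < s.re → LSeries f s = G s) →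
    Tendsto (fun N : ℕ => (∑ n ∈ Finset.Icc 1 N, f n) / (N : ℂ)) atTop (𝓝 0)

/-- `∑_{n ≤ N} μ(n) χ(n) = o(N)` -/
theorem t8_char (hT : T8Taub) {q : ℕ} [NeZero q] (χ : DirichletCharacter ℂ q) :
    Tendsto (fun N : ℕ => (∑ n ∈ Finset.Icc 1 N,
      χ (n : ZMod q) * ((ArithmeticFunction.moebius n : ℤ) : ℂ)) / (N : ℂ)) atTop (𝓝 0) := by
  have hf : ∀ n : ℕ, ‖χ (n : ZMod q) * ((ArithmeticFunction.moebius n : ℤ) : ℂ)‖ ≤ 1 := by
    intro n
    rw [norm_mul]
    calc _ ≤ 1 * 1 := mul_le_mul (χ.norm_le_one _) (hH_mu_norm n) (norm_nonneg _) (by norm_num)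
      _ = 1 := one_mul _
  have hinv : ∀ s : ℂ, 1 < s.re → LSeries (fun n : ℕ => χ (n : ZMod q) *
      ((ArithmeticFunction.moebius n : ℤ) : ℂ)) s = (χ.LFunction s)⁻¹ := by
    intro s hs
    have h1 := DirichletCharacter.LSeries.mul_mu_eq_one χ hs
    have h2 := DirichletCharacter.LFunction_eq_LSeries χ hs
    have h3 : LSeries (fun n : ℕ => χ (n : ZMod q)) s *
        LSeries (fun n : ℕ => χ (n : ZMod q) * ((ArithmeticFunction.moebius n : ℤ) : ℂ)) s = 1 := h1
    rw [← h2] at h3
    exact (inv_eq_of_mul_eq_one_right h3).symm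
  by_cases hχ : χ = 1
  · subst hχ
    refine hT _ hf (fun s => (s - 1) / DirichletCharacter.LFunctionTrivChar₁ q s) ?_ ?_
    · refine ContinuousOn.div (by fun_prop)
        (DirichletCharacter.differentiable_LFunctionTrivChar₁ q).continuous.continuousOn ?_
      intro s hs
      rcases eq_or_ne s 1 with rfl | h
      · exact DirichletCharacter.LFunctionTrivChar₁_apply_one_ne_zero q
      · rw [DirichletCharacter.LFunctionTrivChar₁, Function.update_of_ne h]
        exact mul_ne_zero (sub_ne_zero_of_ne h)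
          (DirichletCharacter.LFunction_ne_zero_of_one_le_re _ (Or.inr h) hs)
    · intro s hs
      have h : s ≠ 1 := by
        rintro rfl
        simp at hs
      rw [hinv s hs, DirichletCharacter.LFunctionTrivChar₁, Function.update_of_ne h]
      have h0 : s - 1 ≠ 0 := sub_ne_zero_of_ne h
      have h1 : DirichletCharacter.LFunctionTrivChar q s ≠ 0 :=
        DirichletCharacter.LFunction_ne_zero_of_one_le_re _ (Or.inr h) hs.le
      change (DirichletCharacter.LFunctionTrivChar q s)⁻¹ =
        (s - 1) / ((s - 1) * DirichletCharacter.LFunctionTrivChar q s)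
      field_simp
  · refine hT _ hf (fun s => (χ.LFunction s)⁻¹) ?_ hinv
    refine ContinuousOn.inv₀
      (DirichletCharacter.differentiable_LFunction hχ).continuous.continuousOn ?_
    intro s hs
    exact DirichletCharacter.LFunction_ne_zero_of_one_le_re _ (Or.inl hχ) hs

/-- the sum over a residue class -/
noncomputable def t8G (q a x : ℕ) : ℝ :=
  ∑ n ∈ Finset.Ioc 0 x, (if n % q = a then mu n else 0)

theorem t8_unit (hT : T8Taub) (q a : ℕ) (hq : 1 ≤ q) (ha : a < q) (hc : a.Coprime q) :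
    Tendsto (fun N : ℕ => t8G q a N / N) atTop (𝓝 0) := by
  have : NeZero q := ⟨by omega⟩
  have hφ : (q.totient : ℂ) ≠ 0 := by exact_mod_cast (Nat.totient_pos.mpr (by omega)).ne'
  have hunit : IsUnit (a : ZMod q) := (ZMod.isUnit_iff_coprime a q).mpr hc
  have e : ∀ x : ℕ, (t8G q a x : ℂ) = (q.totient : ℂ)⁻¹ *
      ∑ χ : DirichletCharacter ℂ q, χ ((a : ZMod q)⁻¹) * ∑ n ∈ Finset.Icc 1 x,
        χ (n : ZMod q) * ((ArithmeticFunction.moebius n : ℤ) : ℂ) := by
    intro x
    rw [eq_inv_mul_iff_mul_eq₀ hφ]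
    unfold t8G
    push_cast
    rw [Finset.mul_sum]
    simp only [Finset.mul_sum]
    rw [Finset.sum_comm]
    refine Finset.sum_congr rfl fun n _ => ?_
    have h1 := DirichletCharacter.sum_char_inv_mul_char_eq ℂ hunit (n : ZMod q)
    have h2 : ∑ χ : DirichletCharacter ℂ q, χ ((a : ZMod q)⁻¹) *
          (χ (n : ZMod q) * ((ArithmeticFunction.moebius n : ℤ) : ℂ))
        = ((ArithmeticFunction.moebius n : ℤ) : ℂ) *
          ∑ χ : DirichletCharacter ℂ q, χ ((a : ZMod q)⁻¹) * χ (n : ZMod q) := by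
      rw [Finset.mul_sum]
      refine Finset.sum_congr rfl fun χ _ => by ring
    rw [h2, h1]
    have h3 : ((a : ZMod q) = (n : ZMod q)) ↔ n % q = a := by
      rw [ZMod.natCast_eq_natCast_iff', Nat.mod_eq_of_lt ha]
      exact eq_comm
    by_cases h : n % q = a
    · rw [if_pos h, if_pos (h3.mpr h)]
      unfold mu
      push_cast
      ring
    · rw [if_neg h, if_neg (fun h' => h (h3.mp h'))]
      push_cast
      ring
  have h1 : Tendsto (fun N : ℕ => (q.totient : ℂ)⁻¹ *
      ∑ χ : DirichletCharacter ℂ q, χ ((a : ZMod q)⁻¹) * ((∑ n ∈ Finset.Icc 1 N,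
        χ (n : ZMod q) * ((ArithmeticFunction.moebius n : ℤ) : ℂ)) / (N : ℂ))) atTop (𝓝 0) := by
    have h2 : Tendsto (fun N : ℕ => ∑ χ : DirichletCharacter ℂ q,
        χ ((a : ZMod q)⁻¹) * ((∑ n ∈ Finset.Icc 1 N,
        χ (n : ZMod q) * ((ArithmeticFunction.moebius n : ℤ) : ℂ)) / (N : ℂ))) atTop (𝓝 0) := by
      have h3 := tendsto_finsetSum (Finset.univ : Finset (DirichletCharacter ℂ q))
        (fun χ _ => (t8_char hT χ).const_mul (χ ((a : ZMod q)⁻¹)))
      simpa using h3
    simpa using h2.const_mul ((q.totient : ℂ)⁻¹)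
  have h4 : Tendsto (fun N : ℕ => ((t8G q a N / N : ℝ) : ℂ)) atTop (𝓝 0) := by
    refine h1.congr fun N => ?_
    push_cast
    rw [e N]
    simp only [Finset.mul_sum, Finset.sum_div]
    refine Finset.sum_congr rfl fun χ _ => Finset.sum_congr rfl fun n _ => ?_
    ring
  have h5 := (Complex.continuous_re.tendsto 0).comp h4
  rw [Complex.zero_re] at h5
  exact h5.congr fun N => Complex.ofReal_re _

theorem t8_general (q a x : ℕ) (hq : 1 ≤ q) :
    t8G q a x = mu (a.gcd q) *
      ∑ b ∈ (Finset.range q).filter (fun b => b.Coprime q ∧ (a.gcd q * b) % q = a),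
        t8G q b (x / a.gcd q) := by
  set g := a.gcd q with hg
  have hgpos : 0 < g := Nat.gcd_pos_of_pos_right a (by omega)
  have hga : g ∣ a := Nat.gcd_dvd_left a q
  have hgq : g ∣ q := Nat.gcd_dvd_right a q
  -- restrict to multiples of `g`
  have e1 : t8G q a x = ∑ m ∈ Finset.Ioc 0 (x / g),
      (if (g * m) % q = a then mu (g * m) else 0) := by
    unfold t8G
    symm
    have himg : ∑ m ∈ Finset.Ioc 0 (x / g),
        (if (g * m) % q = a then mu (g * m) else 0)
        = ∑ n ∈ (Finset.Ioc 0 (x / g)).image (fun m => g * m),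
          (if n % q = a then mu n else 0) := by
      rw [Finset.sum_image]
      intro m _ m' _ h
      exact Nat.eq_of_mul_eq_mul_left hgpos h
    rw [himg]
    apply Finset.sum_subset
    · intro n hn
      rw [Finset.mem_image] at hn
      obtain ⟨m, hm, rfl⟩ := hn
      rw [Finset.mem_Ioc] at hm ⊢
      constructor
      · exact Nat.mul_pos hgpos hm.1
      · calc g * m ≤ g * (x / g) := Nat.mul_le_mul_left g hm.2
          _ ≤ x := Nat.mul_div_le x g
    · intro n hn hn'
      by_cases h : n % q = a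
      · exfalso
        apply hn'
        have hgn : g ∣ n := by
          have h1 : n = q * (n / q) + n % q := (Nat.div_add_mod n q).symm
          rw [h1, h]
          exact dvd_add (dvd_mul_of_dvd_left hgq _) hga
        obtain ⟨m, rfl⟩ := hgn
        rw [Finset.mem_image]
        refine ⟨m, ?_, rfl⟩
        rw [Finset.mem_Ioc] at hn ⊢
        constructor
        · exact Nat.pos_of_mul_pos_left hn.1
        · rw [Nat.le_div_iff_mul_le hgpos, mul_comm]; exact hn.2
      · rw [if_neg h]
  rw [e1]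
  unfold t8G
  rw [Finset.sum_comm, Finset.mul_sum]
  refine Finset.sum_congr rfl fun m hm => ?_
  have hmpos : 0 < m := (Finset.mem_Ioc.mp hm).1
  -- the sum over `b`
  have e2 : ∑ b ∈ (Finset.range q).filter (fun b => b.Coprime q ∧ (g * b) % q = a),
      (if m % q = b then mu m else 0)
      = if m.Coprime q ∧ (g * m) % q = a then mu m else 0 := by
    rw [Finset.sum_ite_eq]
    have h1 : (m % q ∈ (Finset.range q).filter (fun b => b.Coprime q ∧ (g * b) % q = a))
        ↔ (m.Coprime q ∧ (g * m) % q = a) := by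
      rw [Finset.mem_filter, Finset.mem_range]
      have h2 : (g * (m % q)) % q = (g * m) % q := by
        rw [Nat.mul_mod, Nat.mod_mod, ← Nat.mul_mod]
      have h3 : (m % q).Coprime q ↔ m.Coprime q := by
        unfold Nat.Coprime
        rw [← Nat.gcd_rec, Nat.gcd_comm]
      rw [h2, h3]
      exact ⟨fun h => h.2, fun h => ⟨Nat.mod_lt _ (by omega), h⟩⟩
    by_cases h : m.Coprime q ∧ (g * m) % q = a
    · rw [if_pos h, if_pos (h1.mpr h)]
    · rw [if_neg h, if_neg (fun h' => h (h1.mp h'))]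
  rw [e2, hH_mu_mul]
  by_cases h : (g * m) % q = a
  · rw [if_pos h]
    have hiff : g.Coprime m ↔ m.Coprime q := by
      constructor
      · intro hc
        have h4 : (g * m).gcd q = g := by
          have h5 : Nat.gcd ((g * m) % q) q = Nat.gcd (g * m) q := by
            rw [← Nat.gcd_rec, Nat.gcd_comm]
          rw [← h5, h]
        obtain ⟨q', hq'⟩ := hgq
        rw [hq', Nat.gcd_mul_left] at h4
        have h6 : m.gcd q' = 1 := by
          have : g * m.gcd q' = g * 1 := by rw [h4, mul_one]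
          exact Nat.eq_of_mul_eq_mul_left hgpos this
        rw [hq']
        exact Nat.Coprime.mul_right hc.symm h6
      · intro hc
        exact (Nat.Coprime.coprime_dvd_right hgq hc).symm
    by_cases hc : g.Coprime m
    · rw [if_pos hc, if_pos ⟨hiff.mp hc, h⟩]
    · rw [if_neg hc, if_neg (fun h' => hc (hiff.mpr h'.1))]
      simp
  · rw [if_neg h, if_neg (fun h' => h h'.2)]
    simp

theorem t8_div {q b g : ℕ} (hg : 0 < g) (h : Tendsto (fun N : ℕ => t8G q b N / N) atTop (𝓝 0)) :
    Tendsto (fun N : ℕ => t8G q b (N / g) / N) atTop (𝓝 0) := by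
  have h1 : Tendsto (fun N : ℕ => N / g) atTop atTop := Nat.tendsto_div_const_atTop hg.ne'
  have h2 := h.comp h1
  refine squeeze_zero_norm (fun N => ?_) (tendsto_zero_iff_norm_tendsto_zero.1 h2)
  simp only [Function.comp_apply]
  rw [norm_div, norm_div]
  rcases Nat.eq_zero_or_pos (N / g) with h0 | h0
  · rw [h0]
    simp [t8G]
  · rw [Real.norm_natCast, Real.norm_natCast]
    refine div_le_div_of_nonneg_left (norm_nonneg _) (by exact_mod_cast h0) ?_
    exact_mod_cast Nat.div_le_self N g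

/-! Task T8: prime number theorem for the Möbius function in residue classes -/

theorem mu_ap_of_tauber (hT : T8Taub) (Q a : ℕ) (hQ : 1 ≤ Q) :
    Tendsto (fun N : ℕ => (∑ n ∈ Finset.Icc 1 N, (if n % Q = a then mu n else 0)) / N)
      atTop (𝓝 0) := by
  have h0 : (fun N : ℕ => (∑ n ∈ Finset.Icc 1 N, (if n % Q = a then mu n else 0)) / (N : ℝ)) =
      fun N : ℕ => mu (a.gcd Q) * ∑ b ∈ (Finset.range Q).filter
        (fun b => b.Coprime Q ∧ (a.gcd Q * b) % Q = a), t8G Q b (N / a.gcd Q) / N := by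
    funext N
    have h1 : ∑ n ∈ Finset.Icc 1 N, (if n % Q = a then mu n else 0) = t8G Q a N := rfl
    rw [h1, t8_general Q a N hQ, mul_div_assoc, Finset.sum_div]
  rw [h0]
  have h2 : Tendsto (fun N : ℕ => ∑ b ∈ (Finset.range Q).filter
        (fun b => b.Coprime Q ∧ (a.gcd Q * b) % Q = a), t8G Q b (N / a.gcd Q) / N)
        atTop (𝓝 0) := by
    have h3 := tendsto_finsetSum ((Finset.range Q).filter
        (fun b => b.Coprime Q ∧ (a.gcd Q * b) % Q = a))
        (f := fun b (N : ℕ) => t8G Q b (N / a.gcd Q) / N) (a := fun _ => 0) (x := atTop)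
        (fun b hb => by
          rw [Finset.mem_filter, Finset.mem_range] at hb
          exact t8_div (Nat.gcd_pos_of_pos_right a (by omega)) (t8_unit hT Q b hQ hb.1 hb.2.1))
    simpa using h3
  simpa using h2.const_mul (mu (a.gcd Q))

end Pool.Agent.Lib.MP_3e612f_nt.SA
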