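import Pool.Agent.Lib.MP_3e612f_nt.NLocal
import Pool.Agent.Lib.MP_3e612f_nt.MBound

/-!
Local bounds with finite parts for most increases of the argument (task N3).
-/

set_option autoImplicit false

namespace Pool.Agent.Lib.MP_3e612f_nt.NB

open Filter Topology
open Pool.Agent.Lib.MP_3e612f_nt.QA Pool.Agent.Lib.MP_3e612f_nt.SA Pool.Agent.Lib.MP_3e612f_nt.MB

/-- N3: local bounds for most increases of the argument -/
theorem local_boundB {S : Type*} [Monoid S] {q m d : ℕ} (hq : 2 ≤ q) {β : ℕ → S}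
    (hβ : QM q m β) {e : ℕ → Fin d → ℤ}
    (he : ∀ a y s : ℕ, s < q ^ a → e (q ^ (a + m) * y + s) = e y + e s)
    {Λ : AddSubgroup (Fin d → ℤ)} {N' : ℕ} (hN : 1 ≤ N') (hΛ : ∀ v : Fin d → ℤ, N' • v ∈ Λ)
    (hex : Exch q m β e Λ) {P R : ℕ} (hP : P.Coprime q) (hR : R.Coprime q)
    (hPR : 2 * q ^ m * P ≤ R) (hP1 : 1 ≤ P) (hPd : (q - 1) ∣ P) (hRd : (q - 1) ∣ R)
    {w w' : Fin d → ℤ} (hw : w ∈ Λ) (hw' : w' ∈ Λ) :
    ∃ (A : ℕ) (C ρ : ℝ), 1 ≤ A ∧ 0 ≤ C ∧ 0 < ρ ∧ ρ < 1 ∧ ∀ N X : ℕ, q ^ (A * N) ≤ X →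
      ∃ B : Finset ℕ, (B.card : ℝ) ≤ C * ρ ^ N * X ∧ ∀ r < X, r ∉ B → ∀ L : ℕ, A * N ≤ L →
      ∀ h y c c₁ d₀ d₁ z z₁ t t₁ : ℕ, St q P R h c c₁ d₀ d₁ z z₁ t t₁ →
      ∀ f : S → S → S → S → ℝ, (∀ x₁ x₂ x₃ x₄, |f x₁ x₂ x₃ x₄| ≤ 1) → ∀ u u' : Fin d → ℤ,
        |IncB q P R β e r h L y c c₁ d₀ d₁ z z₁ t t₁
          (fun x₁ x₂ x₃ x₄ v v' => f x₁ x₂ x₃ x₄ * ind u u' v v')| ≤
          C / Real.sqrt (N + 1) ^ (2 * d) ∧
        |IncB q P R β e r h L y c c₁ d₀ d₁ z z₁ t t₁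
          (fun x₁ x₂ x₃ x₄ v v' => f x₁ x₂ x₃ x₄ * ind u u' v v') -
          IncB q P R β e r h L y c c₁ d₀ d₁ z z₁ t t₁
          (fun x₁ x₂ x₃ x₄ v v' => f x₁ x₂ x₃ x₄ * ind (u + w) (u' + w') v v')| ≤
          C / Real.sqrt (N + 1) ^ (2 * d + 1) := by
  obtain ⟨W, ω, C0, hW, hω, hC0, hloc⟩ := local_fixedB hq hβ he hN hΛ hex hP hR hPR hP1 hPd hRd hw hw'
  choose cj ρj hcj hρj hρj1 htyp using fun j => typical hq hW (hω j)
  obtain ⟨j0, -, hj0⟩ := Finset.exists_min_image (Finset.univ : Finset (Fin (2 * d + 1))) cj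
    ⟨0, Finset.mem_univ _⟩
  obtain ⟨j1, -, hj1⟩ := Finset.exists_max_image (Finset.univ : Finset (Fin (2 * d + 1))) ρj
    ⟨0, Finset.mem_univ _⟩
  set c : ℝ := min (cj j0) 1 with hcdef
  have hc : 0 < c := lt_min (hcj j0) one_pos
  have hc1 : c ≤ 1 := min_le_right _ _
  have hccj : ∀ j, c ≤ cj j := fun j => (min_le_left _ _).trans (hj0 j (Finset.mem_univ _))
  set ρ : ℝ := ρj j1 with hρdef
  have hsc : 0 < Real.sqrt c := Real.sqrt_pos.2 hc
  have hsc1 : Real.sqrt c ≤ 1 := by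
    rw [Real.sqrt_le_one]
    exact hc1
  set C : ℝ := C0 / Real.sqrt c ^ (2 * d + 1) + 2 * (2 * d + 1) with hCdef
  have hCa : C0 / Real.sqrt c ^ (2 * d + 1) ≤ C := by
    rw [hCdef]
    have : (0 : ℝ) ≤ 2 * (2 * d + 1) := by positivity
    linarith
  have hCb : C0 / Real.sqrt c ^ (2 * d) ≤ C := by
    refine le_trans ?_ hCa
    refine div_le_div_of_nonneg_left hC0 (by positivity) ?_
    rw [pow_succ]
    exact mul_le_of_le_one_right (by positivity) hsc1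
  have hCn : 0 ≤ C := by positivity
  have hA1 : 1 ≤ W * (2 * d + 1) := Nat.mul_pos hW (by omega)
  refine ⟨W * (2 * d + 1), C, ρ, hA1, hCn, hρj j1, hρj1 j1, ?_⟩
  intro N X hX
  classical
  set B : Finset ℕ := Finset.univ.biUnion (fun j : Fin (2 * d + 1) =>
    (Finset.range X).filter (fun r => (cnt q W N (ω j) (r / q ^ (W * N * j)) : ℝ) < cj j * N))
    with hBdef
  refine ⟨B, ?_, ?_⟩
  · have h1 : (B.card : ℝ) ≤ ∑ j : Fin (2 * d + 1), (((Finset.range X).filter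
        (fun r => (cnt q W N (ω j) (r / q ^ (W * N * j)) : ℝ) < cj j * N)).card : ℝ) := by
      have := Finset.card_biUnion_le (s := (Finset.univ : Finset (Fin (2 * d + 1)))) (t := fun j =>
        (Finset.range X).filter (fun r => (cnt q W N (ω j) (r / q ^ (W * N * j)) : ℝ) < cj j * N))
      exact_mod_cast this
    refine h1.trans ?_
    have h2 : ∀ j : Fin (2 * d + 1), (((Finset.range X).filter
        (fun r => (cnt q W N (ω j) (r / q ^ (W * N * j)) : ℝ) < cj j * N)).card : ℝ) ≤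
        2 * ρ ^ N * X := by
      intro j
      have hle : q ^ (W * N * j + W * N) ≤ X := by
        refine le_trans (Nat.pow_le_pow_right (by omega) ?_) hX
        have hj : (j : ℕ) + 1 ≤ 2 * d + 1 := j.2
        calc W * N * j + W * N = (W * N) * (j + 1) := by ring
          _ ≤ (W * N) * (2 * d + 1) := Nat.mul_le_mul_left _ hj
          _ = W * (2 * d + 1) * N := by ring
      refine (htyp j (W * N * j) N X hle).trans ?_
      refine mul_le_mul_of_nonneg_right ?_ (Nat.cast_nonneg _)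
      refine mul_le_mul_of_nonneg_left ?_ (by norm_num)
      exact pow_le_pow_left₀ (hρj j).le (hj1 j (Finset.mem_univ _)) N
    refine (Finset.sum_le_sum fun j _ => h2 j).trans ?_
    rw [Finset.sum_const, Finset.card_univ, Fintype.card_fin, nsmul_eq_mul]
    have h3 : (2 * (2 * (d : ℝ) + 1)) ≤ C := by
      rw [hCdef]
      have : 0 ≤ C0 / Real.sqrt c ^ (2 * d + 1) := by positivity
      linarith
    have h4 : 0 ≤ ρ ^ N * (X : ℝ) := mul_nonneg (pow_nonneg (hρj j1).le _) (Nat.cast_nonneg _)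
    calc ((2 * d + 1 : ℕ) : ℝ) * (2 * ρ ^ N * X) = (2 * (2 * (d : ℝ) + 1)) * (ρ ^ N * X) := by
          push_cast
          ring
      _ ≤ C * (ρ ^ N * X) := mul_le_mul_of_nonneg_right h3 h4
      _ = C * ρ ^ N * X := by ring
  · intro r hr hrB L hL h y c' c₁ d₀ d₁ z z₁ t t₁ hSt f hf u u'
    have hK : ∀ j : Fin (2 * d + 1), ⌈c * N⌉₊ ≤ cnt q W N (ω j) (r / q ^ (W * N * j)) := by
      intro j
      have h1 : ¬ ((cnt q W N (ω j) (r / q ^ (W * N * j)) : ℝ) < cj j * N) := by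
        intro hlt
        exact hrB (Finset.mem_biUnion.2 ⟨j, Finset.mem_univ _,
          Finset.mem_filter.2 ⟨Finset.mem_range.2 hr, hlt⟩⟩)
      rw [not_lt] at h1
      refine Nat.ceil_le.2 (le_trans ?_ h1)
      exact mul_le_mul_of_nonneg_right (hccj j) (Nat.cast_nonneg _)
    have hL' : W * N * (2 * d + 1) ≤ L := by
      refine le_trans (le_of_eq ?_) hL
      ring
    obtain ⟨b1, b2⟩ := hloc N ⌈c * N⌉₊ L r hL' hK h y c' c₁ d₀ d₁ z z₁ t t₁ hSt f hf u u'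
    have hNp : 0 < Real.sqrt ((N : ℝ) + 1) := Real.sqrt_pos.2 (by positivity)
    refine ⟨b1.trans ?_, b2.trans ?_⟩
    · refine (m5_sqrt hc hc1 (Nat.le_ceil _) hC0 (2 * d)).trans ?_
      exact div_le_div_of_nonneg_right hCb (by positivity)
    · refine (m5_sqrt hc hc1 (Nat.le_ceil _) hC0 (2 * d + 1)).trans ?_
      exact div_le_div_of_nonneg_right hCa (by positivity)

end Pool.Agent.Lib.MP_3e612f_nt.NB
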