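import Pool.Agent.Lib.MP_3e612f_nt.SDefs
import Pool.Agent.Lib.MP_3e612f_nt.QMean

/-!
Smoothing along the lattice.
-/

set_option autoImplicit false

namespace Pool.Agent.Lib.MP_3e612f_nt.SA

open Filter Topology QA

section slow

variable {d : ℕ}

theorem t12_abs {Λ : AddSubgroup (Fin d → ℤ)} {L : ℕ} (hL : 1 ≤ L) {g : (Fin d → ℤ) → ℝ}
    (hg : ∀ v, |g v| ≤ 1) (c : (Fin d → ℤ) ⧸ Λ) (v : Fin d → ℤ) :
    |smo L (extL Λ c g) v| ≤ 1 :=
  SM_abs hL _ (fun _ => hg _) v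

theorem t12_lip {Λ : AddSubgroup (Fin d → ℤ)} {L : ℕ} (hL : 1 ≤ L) {g : (Fin d → ℤ) → ℝ}
    (hg : ∀ v, |g v| ≤ 1) (c : (Fin d → ℤ) ⧸ Λ) (v w : Fin d → ℤ) :
    |smo L (extL Λ c g) (v + w) - smo L (extL Λ c g) v| ≤ 2 / L * ∑ i, |((w i : ℤ) : ℝ)| := by
  have h := slow_lip (smo_slow hL (g := extL Λ c g) (fun _ => hg _)) v (v + w)
  refine h.trans (le_of_eq ?_)
  congr 1
  refine Finset.sum_congr rfl fun i _ => ?_
  rw [Pi.add_apply]
  push_cast
  congr 1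
  ring

end slow

theorem slow_smooth {S : Type*} {d : ℕ} {Λ : AddSubgroup (Fin d → ℤ)} {L : ℕ} (hL : 1 ≤ L)
    {u u' : S → (Fin d → ℤ) ⧸ Λ} {B B' : S → (Fin d → ℤ) → ℝ} (hB : ∀ x v, |B x v| ≤ 1)
    (hB' : ∀ x v, |B' x v| ≤ 1) :
    SlowF (2 / L) (fun x x' : S × (Fin d → ℤ) => smo L (extL Λ (u x.1) (B x.1)) x.2 *
      smo L (extL Λ (u' x'.1) (B' x'.1)) x'.2) := by
  refine ⟨fun x x' => ?_, fun s v w x' => ?_, fun x s v w => ?_⟩
  · rw [abs_mul]
    exact mul_le_one₀ (t12_abs hL (hB _) _ _) (abs_nonneg _) (t12_abs hL (hB' _) _ _)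
  · dsimp only
    rw [← sub_mul, abs_mul]
    exact (mul_le_of_le_one_right (abs_nonneg _) (t12_abs hL (hB' _) _ _)).trans
      (t12_lip hL (hB _) _ _ _)
  · dsimp only
    rw [← mul_sub, abs_mul]
    exact (mul_le_of_le_one_left (abs_nonneg _) (t12_abs hL (hB _) _ _)).trans
      (t12_lip hL (hB' _) _ _ _)

section close

variable {d : ℕ}

theorem t12_av_S1 (q k L : ℕ) (a : Fin d) (g : ℕ → (Fin d → ℤ) → ℝ) (X : ℕ → Fin d → ℤ)
    (f : ℕ → ℝ) :
    av q k (fun n => S1 L a (g n) (X n) * f n) =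
      (∑ i ∈ Finset.range L, av q k (fun n => g n (X n + Pi.single a (i : ℤ)) * f n)) / L := by
  unfold av S1
  rw [← Finset.sum_div, div_right_comm, Finset.sum_comm]
  congr 1
  rw [Finset.sum_div]
  refine Finset.sum_congr rfl fun n _ => ?_
  dsimp only
  rw [div_mul_eq_mul_div, Finset.sum_mul, Finset.sum_div]

/-- an average against the smoothed functions is close to whatever is close to all the averages
against the shifted functions -/
theorem t12_SM_close {q k L : ℕ} (hL : 1 ≤ L) (X : ℕ → Fin d → ℤ) (f : ℕ → ℝ) {A c : ℝ}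
    (l : List (Fin d)) (g : ℕ → (Fin d → ℤ) → ℝ)
    (h : ∀ v : Fin d → ℤ, (∀ a, 0 ≤ v a) → (∀ a, v a ≤ L * (l.count a : ℤ)) →
      |A - av q k (fun n => g n (X n + v) * f n)| ≤ c) :
    |A - av q k (fun n => SM L l (g n) (X n) * f n)| ≤ c := by
  induction l generalizing g with
  | nil =>
    have h1 := h 0 (fun a => le_rfl) (fun a => by simp)
    simpa [SM] using h1
  | cons a l ih =>
    show |A - av q k (fun n => S1 L a (SM L l (g n)) (X n) * f n)| ≤ c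
    rw [t12_av_S1]
    refine avg_close' hL fun i hi => ?_
    have e3 : (fun n => SM L l (g n) (X n + Pi.single a (i : ℤ)) * f n) =
        (fun n => SM L l (fun y => g n (y + Pi.single a (i : ℤ))) (X n) * f n) := by
      funext n
      rw [SM_shift]
    rw [e3]
    apply ih
    intro v hv0 hv1
    have h1 := h (v + Pi.single a (i : ℤ)) (fun b => by
      by_cases hb : b = a
      · subst hb
        simp only [Pi.add_apply, Pi.single_eq_same]
        have := hv0 b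
        omega
      · simp only [Pi.add_apply, Pi.single_eq_of_ne hb, add_zero]
        exact hv0 b) (fun b => by
      by_cases hb : b = a
      · subst hb
        simp only [Pi.add_apply, Pi.single_eq_same, List.count_cons_self]
        have h2 := hv1 b
        push_cast
        have h3 : (i : ℤ) < L := by exact_mod_cast hi
        linarith
      · simp only [Pi.add_apply, Pi.single_eq_of_ne hb, add_zero]
        rw [List.count_cons_of_ne (Ne.symm hb)]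
        exact hv1 b)
    simpa only [add_assoc] using h1

theorem t12_smo_close {q k L : ℕ} (hL : 1 ≤ L) (X : ℕ → Fin d → ℤ) (f : ℕ → ℝ) {A c : ℝ}
    (g : ℕ → (Fin d → ℤ) → ℝ)
    (h : ∀ v : Fin d → ℤ, (∀ a, 0 ≤ v a) → (∀ a, v a ≤ 2 * (L : ℤ)) →
      |A - av q k (fun n => g n (X n + v) * f n)| ≤ c) :
    |A - av q k (fun n => smo L (g n) (X n) * f n)| ≤ c := by
  refine t12_SM_close hL X f _ g fun v hv0 hv1 => h v hv0 fun a => ?_
  have h1 := hv1 a
  rw [List.count_append, List.count_eq_one_of_mem (List.nodup_finRange d) (List.mem_finRange a)]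
    at h1
  push_cast at h1
  linarith

end close

section lam

variable {d : ℕ} {Λ : AddSubgroup (Fin d → ℤ)}

theorem t12_sec (c : (Fin d → ℤ) ⧸ Λ) : ((sec Λ c : Fin d → ℤ) : (Fin d → ℤ) ⧸ Λ) = c := by
  unfold sec
  split_ifs with h
  · rw [h]
    rfl
  · exact QuotientAddGroup.out_eq' c

/-- the element of `Λ` attached to a shift -/
noncomputable def t12_lam (Λ : AddSubgroup (Fin d → ℤ)) (v : Fin d → ℤ) : Fin d → ℤ :=
  v + sec Λ (-(v : (Fin d → ℤ) ⧸ Λ))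

theorem t12_lam_mem (v : Fin d → ℤ) : t12_lam Λ v ∈ Λ := by
  unfold t12_lam
  rw [← QuotientAddGroup.eq_zero_iff, QuotientAddGroup.mk_add, t12_sec]
  exact add_neg_cancel _

theorem t12_lam_add {w : Fin d → ℤ} (hw : w ∈ Λ) (v : Fin d → ℤ) :
    t12_lam Λ (w + v) = w + t12_lam Λ v := by
  unfold t12_lam
  have h : ((w + v : Fin d → ℤ) : (Fin d → ℤ) ⧸ Λ) = (v : (Fin d → ℤ) ⧸ Λ) := by
    rw [QuotientAddGroup.mk_add, (QuotientAddGroup.eq_zero_iff w).mpr hw, zero_add]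
  rw [h, add_assoc]

theorem t12_extL {c : (Fin d → ℤ) ⧸ Λ} {x : Fin d → ℤ} (hx : c = (x : (Fin d → ℤ) ⧸ Λ))
    (g : (Fin d → ℤ) → ℝ) (v : Fin d → ℤ) : extL Λ c g (x + v) = g (x + t12_lam Λ v) := by
  unfold extL t12_lam
  have h : c - ((x + v : Fin d → ℤ) : (Fin d → ℤ) ⧸ Λ) = -(v : (Fin d → ℤ) ⧸ Λ) := by
    rw [QuotientAddGroup.mk_add, hx]
    abel
  rw [h, add_assoc]

/-- linear bound for the cost of the shifts -/
theorem t12_cost {N' : ℕ} (hN : 1 ≤ N') (hΛ : ∀ v : Fin d → ℤ, N' • v ∈ Λ)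
    {N : (Fin d → ℤ) → ℝ → Prop}
    (h0 : N 0 0) (hadd : ∀ v w c c', N v c → N w c' → N (v + w) (c + c'))
    (hmono : ∀ v c c', N v c → c ≤ c' → N v c') (hNN : ∀ v ∈ Λ, ∃ c, 0 ≤ c ∧ N v c) :
    ∃ C : ℝ, 0 ≤ C ∧ ∀ L : ℕ, 1 ≤ L → ∀ v : Fin d → ℤ, (∀ a, 0 ≤ v a) →
      (∀ a, v a ≤ 2 * (L : ℤ)) → N (t12_lam Λ v) (C * L) := by
  classical
  have hq1' : (0 : ℤ) < (N' : ℤ) := by exact_mod_cast hN
  -- the constants
  have hA : ∀ a : Fin d, ∃ c, 0 ≤ c ∧ N (N' • (Pi.single a 1 : Fin d → ℤ)) c := fun a =>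
    hNN _ (hΛ _)
  choose cA hcA0 hcA using hA
  have hB : ∀ ρ : Fin d → ℤ, ∃ c, 0 ≤ c ∧ N (t12_lam Λ ρ) c := fun ρ =>
    hNN _ (t12_lam_mem _)
  choose cB hcB0 hcB using hB
  set box : Finset (Fin d → ℤ) := Fintype.piFinset (fun _ => (Finset.range N').map
    ⟨fun n : ℕ => (n : ℤ), Nat.cast_injective⟩) with hbox
  have hnsmul : ∀ (w : ℕ) (v : Fin d → ℤ) (c : ℝ), N v c → N (w • v) (w * c) := by
    intro w v c hv
    induction w with
    | zero => simpa using h0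
    | succ w ih =>
      rw [succ_nsmul]
      have := hadd _ _ _ _ ih hv
      push_cast
      rwa [add_mul, one_mul]
  have hsum : ∀ (s : Finset (Fin d)) (f : Fin d → Fin d → ℤ) (c : Fin d → ℝ),
      (∀ a, N (f a) (c a)) → N (∑ a ∈ s, f a) (∑ a ∈ s, c a) := by
    intro s f c hf
    induction s using Finset.induction_on with
    | empty => simpa using h0
    | insert a s ha ih =>
      rw [Finset.sum_insert ha, Finset.sum_insert ha]
      exact hadd _ _ _ _ (hf a) ih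
  refine ⟨2 * ∑ a, cA a + ∑ ρ ∈ box, cB ρ, by
    have h1 : 0 ≤ ∑ a, cA a := Finset.sum_nonneg fun a _ => hcA0 a
    have h2 : 0 ≤ ∑ ρ ∈ box, cB ρ := Finset.sum_nonneg fun ρ _ => hcB0 ρ
    positivity, ?_⟩
  intro L hL v hv0 hv1
  set w : Fin d → ℕ := fun a => (v a / (N' : ℤ)).toNat with hw
  set ρ : Fin d → ℤ := fun a => v a % (N' : ℤ) with hρ
  have hw' : ∀ a, ((w a : ℕ) : ℤ) = v a / (N' : ℤ) := fun a =>
    Int.toNat_of_nonneg (Int.ediv_nonneg (hv0 a) hq1'.le)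
  have hdec : v = (∑ a, w a • (N' • (Pi.single a 1 : Fin d → ℤ))) + ρ := by
    funext b
    rw [Pi.add_apply, Finset.sum_apply]
    have e1 : ∀ a, (w a • (N' • (Pi.single a 1 : Fin d → ℤ))) b =
        if a = b then ((w a : ℕ) : ℤ) * (N' : ℤ) else 0 := by
      intro a
      rw [Pi.smul_apply, Pi.smul_apply, nsmul_eq_mul, nsmul_eq_mul]
      by_cases hab : a = b
      · subst hab
        rw [Pi.single_eq_same, if_pos rfl]
        ring
      · rw [Pi.single_eq_of_ne (Ne.symm hab), if_neg hab]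
        ring
    rw [Finset.sum_congr rfl fun a _ => e1 a, Finset.sum_ite_eq' Finset.univ b
      (fun a => ((w a : ℕ) : ℤ) * (N' : ℤ)), if_pos (Finset.mem_univ b), hw' b]
    have := Int.ediv_mul_add_emod (v b) (N' : ℤ)
    rw [hρ]
    linarith
  have hρbox : ρ ∈ box := by
    rw [hbox, Fintype.mem_piFinset]
    intro a
    rw [Finset.mem_map]
    have h1 : 0 ≤ ρ a := Int.emod_nonneg _ hq1'.ne'
    have h2 : ρ a < (N' : ℤ) := Int.emod_lt_of_pos _ hq1'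
    refine ⟨(ρ a).toNat, ?_, ?_⟩
    · rw [Finset.mem_range]
      omega
    · exact Int.toNat_of_nonneg h1
  have hmem : (∑ a, w a • (N' • (Pi.single a 1 : Fin d → ℤ))) ∈ Λ :=
    AddSubgroup.sum_mem _ fun a _ => AddSubgroup.nsmul_mem _ (hΛ _) _
  rw [hdec, t12_lam_add hmem]
  refine hmono _ _ _ (hadd _ _ _ _ (hsum Finset.univ _ (fun a => (w a : ℝ) * cA a)
    (fun a => hnsmul _ _ _ (hcA a))) (hcB ρ)) ?_
  have hL1 : (1 : ℝ) ≤ L := by exact_mod_cast hL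
  have h1 : ∑ a, (w a : ℝ) * cA a ≤ 2 * L * ∑ a, cA a := by
    rw [Finset.mul_sum]
    refine Finset.sum_le_sum fun a _ => mul_le_mul_of_nonneg_right ?_ (hcA0 a)
    have h2 : v a / (N' : ℤ) ≤ v a := Int.ediv_le_self _ (hv0 a)
    have h3 : ((w a : ℕ) : ℤ) ≤ 2 * (L : ℤ) := by
      rw [hw' a]
      exact h2.trans (hv1 a)
    exact_mod_cast h3
  have h2 : cB ρ ≤ ∑ ρ ∈ box, cB ρ := Finset.single_le_sum (fun ρ _ => hcB0 ρ) hρbox
  have h3 : 0 ≤ ∑ ρ ∈ box, cB ρ := Finset.sum_nonneg fun ρ _ => hcB0 ρ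
  nlinarith

end lam

section sides

variable {S : Type*} {q d P R N' : ℕ} {β : ℕ → S} {e : ℕ → Fin d → ℤ}
  {Λ : AddSubgroup (Fin d → ℤ)}

theorem t12_first (hN : 1 ≤ N') (hΛ : ∀ v : Fin d → ℤ, N' • v ∈ Λ)
    (hgood : ∀ v ∈ Λ, GoodS q P R β e v 0) {u : S → (Fin d → ℤ) ⧸ Λ}
    (hu : ∀ n, u (β n) = (e n : (Fin d → ℤ) ⧸ Λ)) :
    ∃ C : ℝ, 0 ≤ C ∧ ∀ L : ℕ, 1 ≤ L → ∀ h k y c d' z z' : ℕ, c ≤ P → d' ≤ R → z < q ^ h →
      z' < q ^ h → ∀ B B' : S → (Fin d → ℤ) → ℝ, (∀ x v, |B x v| ≤ 1) → (∀ x v, |B' x v| ≤ 1) →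
        |Phi q P R (pr β e) h k y c d' z z' (fun x x' => B x.1 x.2 * B' x'.1 x'.2) -
          Phi q P R (pr β e) h k y c d' z z' (fun x x' => smo L (extL Λ (u x.1) (B x.1)) x.2 *
            B' x'.1 x'.2)| ≤ C * L / Real.sqrt (k + 1) := by
  obtain ⟨C, hC0, hC⟩ := t12_cost hN hΛ (N := fun v c =>
      ∀ h k y c' d' z z' : ℕ, c' ≤ P → d' ≤ R → z < q ^ h → z' < q ^ h →
        ∀ B B' : S → (Fin d → ℤ) → ℝ, (∀ x v, |B x v| ≤ 1) → (∀ x v, |B' x v| ≤ 1) →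
          |Phi q P R (pr β e) h k y c' d' z z' (fun x x' => B x.1 x.2 * B' x'.1 x'.2) -
            Phi q P R (pr β e) h k y c' d' z z' (fun x x' => B x.1 (x.2 + v) * B' x'.1 x'.2)| ≤
            c / Real.sqrt (k + 1))
    (fun h k y c' d' z z' _ _ _ _ g f _ _ => by simp)
    (fun v w c c' hv hw h k y c'' d' z z' h1 h2 h3 h4 B B' hB hB' => by
      have b1 := hv h k y c'' d' z z' h1 h2 h3 h4 B B' hB hB'
      have b2 := hw h k y c'' d' z z' h1 h2 h3 h4 (fun s x => B s (x + v)) B'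
        (fun s x => hB _ _) hB'
      have e1 : (fun x x' : S × (Fin d → ℤ) => B x.1 (x.2 + (v + w)) * B' x'.1 x'.2) =
          fun x x' => (fun s x => B s (x + v)) x.1 (x.2 + w) * B' x'.1 x'.2 := by
        funext x x'
        dsimp only
        congr 2
        abel
      rw [e1, add_div]
      exact (abs_sub_le _ _ _).trans (add_le_add b1 b2))
    (fun v c c' hv hcc h k y c'' d' z z' h1 h2 h3 h4 B B' hB hB' =>
      (hv h k y c'' d' z z' h1 h2 h3 h4 B B' hB hB').trans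
        (div_le_div_of_nonneg_right hcc (Real.sqrt_nonneg _)))
    (fun v hv => by
      obtain ⟨c, hc, hh⟩ := hgood v hv
      refine ⟨c, hc, fun h k y c' d' z z' h1 h2 h3 h4 B B' hB hB' => ?_⟩
      have := hh h k y c' d' z z' h1 h2 h3 h4 (fun x x' => B x.1 x.2 * B' x'.1 x'.2)
        (fun x x' => by
          rw [abs_mul]
          exact mul_le_one₀ (hB _ _) (abs_nonneg _) (hB' _ _))
      simpa only [add_zero] using this)
  refine ⟨C, hC0, fun L hL h k y c d' z z' h1 h2 h3 h4 B B' hB hB' => ?_⟩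
  unfold Phi
  refine t12_smo_close (q := q) (k := k) hL
    (fun n => (pr β e (q ^ h * (P * (q ^ k * y + n) + c) + z)).2)
    (fun n => B' (pr β e (q ^ h * (R * (q ^ k * y + n) + d') + z')).1
      (pr β e (q ^ h * (R * (q ^ k * y + n) + d') + z')).2)
    (fun n => extL Λ (u (pr β e (q ^ h * (P * (q ^ k * y + n) + c) + z)).1)
      (B (pr β e (q ^ h * (P * (q ^ k * y + n) + c) + z)).1)) fun v hv0 hv1 => ?_
  have b1 := hC L hL v hv0 hv1 h k y c d' z z' h1 h2 h3 h4 B B' hB hB'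
  unfold Phi at b1
  refine le_of_eq_of_le ?_ b1
  congr 2
  refine av_congr fun n _ => ?_
  dsimp only
  congr 1
  exact t12_extL (hu _) _ _

theorem t12_second (hN : 1 ≤ N') (hΛ : ∀ v : Fin d → ℤ, N' • v ∈ Λ)
    (hgood : ∀ v ∈ Λ, GoodS q P R β e 0 v) {u : S → (Fin d → ℤ) ⧸ Λ}
    (hu : ∀ n, u (β n) = (e n : (Fin d → ℤ) ⧸ Λ)) :
    ∃ C : ℝ, 0 ≤ C ∧ ∀ L : ℕ, 1 ≤ L → ∀ h k y c d' z z' : ℕ, c ≤ P → d' ≤ R → z < q ^ h →
      z' < q ^ h → ∀ B B' : S → (Fin d → ℤ) → ℝ, (∀ x v, |B x v| ≤ 1) → (∀ x v, |B' x v| ≤ 1) →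
        |Phi q P R (pr β e) h k y c d' z z' (fun x x' => B x.1 x.2 * B' x'.1 x'.2) -
          Phi q P R (pr β e) h k y c d' z z' (fun x x' => B x.1 x.2 *
            smo L (extL Λ (u x'.1) (B' x'.1)) x'.2)| ≤ C * L / Real.sqrt (k + 1) := by
  obtain ⟨C, hC0, hC⟩ := t12_cost hN hΛ (N := fun v c =>
      ∀ h k y c' d' z z' : ℕ, c' ≤ P → d' ≤ R → z < q ^ h → z' < q ^ h →
        ∀ B B' : S → (Fin d → ℤ) → ℝ, (∀ x v, |B x v| ≤ 1) → (∀ x v, |B' x v| ≤ 1) →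
          |Phi q P R (pr β e) h k y c' d' z z' (fun x x' => B x.1 x.2 * B' x'.1 x'.2) -
            Phi q P R (pr β e) h k y c' d' z z' (fun x x' => B x.1 x.2 * B' x'.1 (x'.2 + v))| ≤
            c / Real.sqrt (k + 1))
    (fun h k y c' d' z z' _ _ _ _ g f _ _ => by simp)
    (fun v w c c' hv hw h k y c'' d' z z' h1 h2 h3 h4 B B' hB hB' => by
      have b1 := hv h k y c'' d' z z' h1 h2 h3 h4 B B' hB hB'
      have b2 := hw h k y c'' d' z z' h1 h2 h3 h4 B (fun s x => B' s (x + v)) hB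
        (fun s x => hB' _ _)
      have e1 : (fun x x' : S × (Fin d → ℤ) => B x.1 x.2 * B' x'.1 (x'.2 + (v + w))) =
          fun x x' => B x.1 x.2 * (fun s x => B' s (x + v)) x'.1 (x'.2 + w) := by
        funext x x'
        dsimp only
        congr 2
        abel
      rw [e1, add_div]
      exact (abs_sub_le _ _ _).trans (add_le_add b1 b2))
    (fun v c c' hv hcc h k y c'' d' z z' h1 h2 h3 h4 B B' hB hB' =>
      (hv h k y c'' d' z z' h1 h2 h3 h4 B B' hB hB').trans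
        (div_le_div_of_nonneg_right hcc (Real.sqrt_nonneg _)))
    (fun v hv => by
      obtain ⟨c, hc, hh⟩ := hgood v hv
      refine ⟨c, hc, fun h k y c' d' z z' h1 h2 h3 h4 B B' hB hB' => ?_⟩
      have := hh h k y c' d' z z' h1 h2 h3 h4 (fun x x' => B x.1 x.2 * B' x'.1 x'.2)
        (fun x x' => by
          rw [abs_mul]
          exact mul_le_one₀ (hB _ _) (abs_nonneg _) (hB' _ _))
      simpa only [add_zero] using this)
  refine ⟨C, hC0, fun L hL h k y c d' z z' h1 h2 h3 h4 B B' hB hB' => ?_⟩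
  have h5 := t12_smo_close (q := q) (k := k) hL
    (fun n => (pr β e (q ^ h * (R * (q ^ k * y + n) + d') + z')).2)
    (fun n => B (pr β e (q ^ h * (P * (q ^ k * y + n) + c) + z)).1
      (pr β e (q ^ h * (P * (q ^ k * y + n) + c) + z)).2)
    (A := Phi q P R (pr β e) h k y c d' z z' (fun x x' => B x.1 x.2 * B' x'.1 x'.2))
    (c := C * L / Real.sqrt (k + 1))
    (fun n => extL Λ (u (pr β e (q ^ h * (R * (q ^ k * y + n) + d') + z')).1)
      (B' (pr β e (q ^ h * (R * (q ^ k * y + n) + d') + z')).1)) (fun v hv0 hv1 => by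
      have b1 := hC L hL v hv0 hv1 h k y c d' z z' h1 h2 h3 h4 B B' hB hB'
      refine le_of_eq_of_le ?_ b1
      congr 2
      unfold Phi
      refine av_congr fun n _ => ?_
      dsimp only
      rw [mul_comm]
      congr 1
      exact t12_extL (hu _) _ _)
  refine le_of_eq_of_le ?_ h5
  congr 2
  unfold Phi
  refine av_congr fun n _ => ?_
  exact mul_comm _ _

end sides

theorem smooth_both {S : Type*} {q d P R N' : ℕ} (hq : 2 ≤ q) {β : ℕ → S} {e : ℕ → Fin d → ℤ}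
    {Λ : AddSubgroup (Fin d → ℤ)} (hN : 1 ≤ N') (hΛ : ∀ v : Fin d → ℤ, N' • v ∈ Λ)
    (hgood : ∀ v ∈ Λ, ∀ v' ∈ Λ, GoodS q P R β e v v') {u : S → (Fin d → ℤ) ⧸ Λ}
    (hu : ∀ n, u (β n) = (e n : (Fin d → ℤ) ⧸ Λ)) :
    ∃ C : ℝ, 0 ≤ C ∧ ∀ L : ℕ, 1 ≤ L → ∀ h k y c d' z z' : ℕ, c ≤ P → d' ≤ R → z < q ^ h →
      z' < q ^ h → ∀ B B' : S → (Fin d → ℤ) → ℝ, (∀ x v, |B x v| ≤ 1) → (∀ x v, |B' x v| ≤ 1) →
        |Phi q P R (pr β e) h k y c d' z z' (fun x x' => B x.1 x.2 * B' x'.1 x'.2) -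
          Phi q P R (pr β e) h k y c d' z z' (fun x x' => smo L (extL Λ (u x.1) (B x.1)) x.2 *
            smo L (extL Λ (u x'.1) (B' x'.1)) x'.2)| ≤ C * L / Real.sqrt (k + 1) := by
  have _ := hq
  obtain ⟨C₁, hC₁0, hC₁⟩ := t12_first hN hΛ (fun v hv => hgood v hv 0 Λ.zero_mem) hu
  obtain ⟨C₂, hC₂0, hC₂⟩ := t12_second hN hΛ (fun v hv => hgood 0 Λ.zero_mem v hv) hu
  refine ⟨C₁ + C₂, by positivity, fun L hL h k y c d' z z' h1 h2 h3 h4 B B' hB hB' => ?_⟩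
  have b1 := hC₁ L hL h k y c d' z z' h1 h2 h3 h4 B B' hB hB'
  have b2 := hC₂ L hL h k y c d' z z' h1 h2 h3 h4
    (fun s v => smo L (extL Λ (u s) (B s)) v) B' (fun s v => t12_abs hL (hB s) _ _) hB'
  refine (abs_sub_le _ _ _).trans ((add_le_add b1 b2).trans (le_of_eq ?_))
  ring

end Pool.Agent.Lib.MP_3e612f_nt.SA
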