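import Pool.Agent.Lib.MP_3e612f_nt.NDir
import Pool.Agent.Lib.MP_3e612f_nt.SSmooth

/-!
Near-invariance of the joint law, with the finite parts, under all shifts of a box along the
lattices, with a linear phase (task N8).
-/

set_option autoImplicit false

namespace Pool.Agent.Lib.MP_3e612f_nt.NB

open Filter Topology
open Pool.Agent.Lib.MP_3e612f_nt.QA Pool.Agent.Lib.MP_3e612f_nt.SA Pool.Agent.Lib.MP_3e612f_nt.MB

section abstr

variable {A G : Type*} [AddCommGroup G]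

/-- the weighted joint law of `s`, `X`, `s'`, `X'` is moved by at most `δ` by the shift
`(V, V')` -/
def n8_N (wt : ℕ → ℂ) (s s' : ℕ → A) (X X' : ℕ → G) (k : ℕ) (V V' : G) (δ : ℝ) : Prop :=
  ∀ Ψ : A → G → A → G → ℝ, (∀ t x t' x', |Ψ t x t' x'| ≤ 1) →
    ‖avc 2 k (fun n => wt n * ((Ψ (s n) (X n) (s' n) (X' n) -
      Ψ (s n) (X n + V) (s' n) (X' n + V') : ℝ) : ℂ))‖ ≤ δ

theorem n8_zero (wt : ℕ → ℂ) (s s' : ℕ → A) (X X' : ℕ → G) (k : ℕ) :
    n8_N wt s s' X X' k 0 0 0 := by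
  intro Ψ _
  unfold avc
  simp

theorem n8_add {wt : ℕ → ℂ} {s s' : ℕ → A} {X X' : ℕ → G} {k : ℕ} {V V' W W' : G} {δ δ' : ℝ}
    (h1 : n8_N wt s s' X X' k V V' δ) (h2 : n8_N wt s s' X X' k W W' δ') :
    n8_N wt s s' X X' k (V + W) (V' + W') (δ + δ') := by
  intro Ψ hΨ
  have a1 := h1 Ψ hΨ
  have a2 := h2 (fun t x t' x' => Ψ t (x + V) t' (x' + V')) (fun t x t' x' => hΨ _ _ _ _)
  have e1 : avc 2 k (fun n => wt n *
      ((Ψ (s n) (X n) (s' n) (X' n) -
        Ψ (s n) (X n + (V + W)) (s' n) (X' n + (V' + W')) : ℝ) : ℂ)) =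
      avc 2 k (fun n => wt n * ((Ψ (s n) (X n) (s' n) (X' n) -
        Ψ (s n) (X n + V) (s' n) (X' n + V') : ℝ) : ℂ)) +
      avc 2 k (fun n => wt n * ((Ψ (s n) (X n + V) (s' n) (X' n + V') -
        Ψ (s n) (X n + W + V) (s' n) (X' n + W' + V') : ℝ) : ℂ)) := by
    unfold avc
    rw [← add_div, ← Finset.sum_add_distrib]
    congr 1
    apply Finset.sum_congr rfl
    intro n _
    have b1 : X n + (V + W) = X n + W + V := by abel
    have b2 : X' n + (V' + W') = X' n + W' + V' := by abel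
    dsimp only
    rw [b1, b2]
    push_cast
    ring
  rw [e1]
  exact (norm_add_le _ _).trans (add_le_add a1 a2)

theorem n8_mono {wt : ℕ → ℂ} {s s' : ℕ → A} {X X' : ℕ → G} {k : ℕ} {V V' : G} {δ δ' : ℝ}
    (h1 : n8_N wt s s' X X' k V V' δ) (h2 : δ ≤ δ') : n8_N wt s s' X X' k V V' δ' :=
  fun Ψ hΨ => (h1 Ψ hΨ).trans h2

theorem n8_sum {wt : ℕ → ℂ} {s s' : ℕ → A} {X X' : ℕ → G} {k : ℕ} {α : Type*} (t : Finset α)
    (V V' : α → G) (δ : ℝ) (h : ∀ a ∈ t, n8_N wt s s' X X' k (V a) (V' a) δ) :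
    n8_N wt s s' X X' k (∑ a ∈ t, V a) (∑ a ∈ t, V' a) (t.card * δ) := by
  classical
  induction t using Finset.induction_on with
  | empty => simpa using n8_zero wt s s' X X' k
  | insert a t ha ih =>
    rw [Finset.sum_insert ha, Finset.sum_insert ha, Finset.card_insert_of_notMem ha]
    refine n8_mono (n8_add (h a (Finset.mem_insert_self _ _))
      (ih fun b hb => h b (Finset.mem_insert_of_mem hb))) (le_of_eq ?_)
    push_cast
    ring

end abstr

/-- the remainders -/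
noncomputable def n8_bx (N' d : ℕ) : Finset (Fin d → ℤ) :=
  Fintype.piFinset (fun _ => Finset.Ico (0 : ℤ) (N' : ℤ))

theorem n8_dec {N' d : ℕ} (hN : 1 ≤ N') {Λ : AddSubgroup (Fin d → ℤ)}
    (hΛ : ∀ v : Fin d → ℤ, N' • v ∈ Λ) (v : Fin d → ℤ) (L : ℕ)
    (hv0 : ∀ a, 0 ≤ v a) (hv1 : ∀ a, v a ≤ L) :
    ∃ (w : Fin d → ℕ) (ρ : Fin d → ℤ), (∀ a, w a ≤ L) ∧ ρ ∈ n8_bx N' d ∧
      t12_lam Λ v = (∑ a, w a • (N' • (Pi.single a 1 : Fin d → ℤ))) + t12_lam Λ ρ := by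
  have hq1' : (0 : ℤ) < (N' : ℤ) := by exact_mod_cast hN
  set w : Fin d → ℕ := fun a => (v a / (N' : ℤ)).toNat with hw
  set ρ : Fin d → ℤ := fun a => v a % (N' : ℤ) with hρ
  have hw' : ∀ a, ((w a : ℕ) : ℤ) = v a / (N' : ℤ) := fun a =>
    Int.toNat_of_nonneg (Int.ediv_nonneg (hv0 a) hq1'.le)
  have hdec : v = (∑ a, w a • (N' • (Pi.single a 1 : Fin d → ℤ))) + ρ := by
    funext b
    rw [Pi.add_apply, Finset.sum_apply]
    have e1 : ∀ a, (w a • (N' • (Pi.single a 1 : Fin d → ℤ))) b =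
        if a = b then ((w a : ℕ) : ℤ) * (N' : ℤ) else 0 := by
      intro a
      rw [Pi.smul_apply, Pi.smul_apply, nsmul_eq_mul, nsmul_eq_mul]
      by_cases hab : a = b
      · subst hab
        rw [Pi.single_eq_same, if_pos rfl]
        ring
      · rw [Pi.single_eq_of_ne (Ne.symm hab), if_neg hab]
        ring
    rw [Finset.sum_congr rfl fun a _ => e1 a, Finset.sum_ite_eq' Finset.univ b
      (fun a => ((w a : ℕ) : ℤ) * (N' : ℤ)), if_pos (Finset.mem_univ b), hw' b]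
    have := Int.ediv_mul_add_emod (v b) (N' : ℤ)
    rw [hρ]
    linarith
  refine ⟨w, ρ, ?_, ?_, ?_⟩
  · intro a
    have h2 : v a / (N' : ℤ) ≤ v a := Int.ediv_le_self _ (hv0 a)
    have h3 : ((w a : ℕ) : ℤ) ≤ (L : ℤ) := by
      rw [hw' a]
      exact h2.trans (hv1 a)
    exact_mod_cast h3
  · rw [n8_bx, Fintype.mem_piFinset]
    intro a
    rw [Finset.mem_Ico]
    exact ⟨Int.emod_nonneg _ hq1'.ne', Int.emod_lt_of_pos _ hq1'⟩
  · have hmem : (∑ a, w a • (N' • (Pi.single a 1 : Fin d → ℤ))) ∈ Λ :=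
      AddSubgroup.sum_mem _ fun a _ => AddSubgroup.nsmul_mem _ (hΛ _) _
    conv_lhs => rw [hdec]
    rw [t12_lam_add hmem]

section several

variable {ι : Type*} [Fintype ι] [DecidableEq ι] {q : ι → ℕ} {m : ℕ} {d : ι → ℕ}
  {S : ι → Type*} [∀ i, Monoid (S i)] [∀ i, Finite (S i)]
  {β : ∀ i, ℕ → S i} {ω : ι → ℕ} {e : ∀ i, ℕ → Fin (d i) → ℤ} {C : ℝ}
  {Λ : ∀ i, AddSubgroup (Fin (d i) → ℤ)} {N' : ℕ} {u : ∀ i, S i → (Fin (d i) → ℤ) ⧸ Λ i}

/-- the directions which are used -/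
noncomputable def n8_D (N' : ℕ) (Λ : ∀ i, AddSubgroup (Fin (d i) → ℤ)) :
    Finset (Σ i : ι, (Fin (d i) → ℤ) × (Fin (d i) → ℤ)) :=
  Finset.univ.sigma (fun i =>
    (Finset.univ.image (fun a : Fin (d i) =>
        ((N' • (Pi.single a 1 : Fin (d i) → ℤ), 0) :
          (Fin (d i) → ℤ) × (Fin (d i) → ℤ)))) ∪
      (Finset.univ.image (fun a : Fin (d i) =>
        ((0, N' • (Pi.single a 1 : Fin (d i) → ℤ)) :
          (Fin (d i) → ℤ) × (Fin (d i) → ℤ)))) ∪
      ((n8_bx N' (d i)).image (fun ρ => (t12_lam (Λ i) ρ, 0))) ∪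
      ((n8_bx N' (d i)).image (fun ρ => (0, t12_lam (Λ i) ρ))))

/-- finitely many directions at once -/
theorem n8_fin (Sy : NSys q m β ω e C Λ N' u) {P R : ι → ℕ} (hPR : MulN q m β ω P R) (h Y : ℕ) {ε : ℝ}
    (hε : 0 < ε) (D : Finset (Σ i : ι, (Fin (d i) → ℤ) × (Fin (d i) → ℤ)))
    (hD : ∀ x ∈ D, x.2.1 ∈ Λ x.1 ∧ x.2.2 ∈ Λ x.1) :
    ∃ κ : ℝ, 0 < κ ∧ ∀ᶠ k : ℕ in atTop, ∀ y ≤ Y, ∀ c z c' z' : ι → ℕ, Bd q h P c z →
      Bd q h R c' z' → ∀ s : ℕ, (s : ℝ) ≤ κ * Real.sqrt (k + 1) → ∀ θ : ℝ, ∀ x ∈ D,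
        n8_N (fun n => ew θ (2 ^ k * y + n)) (fun n => BW q β ω h P c z (2 ^ k * y + n))
          (fun n => BW q β ω h R c' z' (2 ^ k * y + n))
          (fun n => EE q e h P c z (2 ^ k * y + n)) (fun n => EE q e h R c' z' (2 ^ k * y + n))
          k (Pi.single x.1 (s • x.2.1)) (Pi.single x.1 (s • x.2.2)) ε := by
  classical
  induction D using Finset.induction_on with
  | empty => exact ⟨1, one_pos, Filter.Eventually.of_forall (by simp)⟩
  | insert x D hx ih =>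
    obtain ⟨κ1, hκ1, H1⟩ := ih (fun x hx => hD x (Finset.mem_insert_of_mem hx))
    have hxD := hD x (Finset.mem_insert_self _ _)
    obtain ⟨κ2, hκ2, H2⟩ := tv_dirB Sy hPR x.1 hxD.1 hxD.2 h Y hε
    refine ⟨min κ1 κ2, lt_min hκ1 hκ2, ?_⟩
    filter_upwards [H1, H2] with k h1 h2
    intro y hy c z c' z' hb hb' s hs θ x' hx'
    have hsq : 0 ≤ Real.sqrt ((k : ℝ) + 1) := Real.sqrt_nonneg _
    rcases Finset.mem_insert.1 hx' with hx' | hx'
    · subst hx'
      intro Ψ hΨ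
      exact h2 y hy c z c' z' hb hb' s
        (hs.trans (mul_le_mul_of_nonneg_right (min_le_right _ _) hsq)) θ Ψ hΨ
    · exact h1 y hy c z c' z' hb hb' s
        (hs.trans (mul_le_mul_of_nonneg_right (min_le_left _ _) hsq)) θ x' hx'

/-- N8: near-invariance under all shifts of a box along the lattices -/
theorem tv_boxB (Sy : NSys q m β ω e C Λ N' u) {P R : ι → ℕ} (hPR : MulN q m β ω P R)
    (h Y : ℕ) {ε : ℝ} (hε : 0 < ε) :
    ∃ κ : ℝ, 0 < κ ∧ ∀ᶠ k : ℕ in atTop, ∀ y ≤ Y, ∀ c z c' z' : ι → ℕ, Bd q h P c z →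
      Bd q h R c' z' → ∀ L : ℕ, (L : ℝ) ≤ κ * Real.sqrt (k + 1) →
      ∀ v v' : ∀ i, Fin (d i) → ℤ, (∀ i a, 0 ≤ v i a ∧ v i a ≤ L) →
      (∀ i a, 0 ≤ v' i a ∧ v' i a ≤ L) → ∀ θ : ℝ,
      ∀ Ψ : (∀ i, S i) → (∀ i, Fin (d i) → ℤ) → (∀ i, S i) → (∀ i, Fin (d i) → ℤ) → ℝ,
        (∀ s x s' x', |Ψ s x s' x'| ≤ 1) →
        ‖avc 2 k (fun n => ew θ (2 ^ k * y + n) *
          ((Ψ (BW q β ω h P c z (2 ^ k * y + n)) (EE q e h P c z (2 ^ k * y + n))
              (BW q β ω h R c' z' (2 ^ k * y + n)) (EE q e h R c' z' (2 ^ k * y + n)) -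
            Ψ (BW q β ω h P c z (2 ^ k * y + n))
              (EE q e h P c z (2 ^ k * y + n) + lamL Λ v)
              (BW q β ω h R c' z' (2 ^ k * y + n))
              (EE q e h R c' z' (2 ^ k * y + n) + lamL Λ v') : ℝ) : ℂ))‖ ≤ ε := by
  classical
  set dm : ℕ := Finset.univ.sup d with hdm
  have hdi : ∀ i, d i ≤ dm := fun i => Finset.le_sup (Finset.mem_univ i)
  set M : ℝ := Fintype.card ι * (2 * (dm + 1)) + 1 with hM
  have hMpos : 0 < M := by positivity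
  set δ : ℝ := ε / M with hδ
  have hδpos : 0 < δ := div_pos hε hMpos
  have hDmem : ∀ x ∈ n8_D N' Λ, x.2.1 ∈ Λ x.1 ∧ x.2.2 ∈ Λ x.1 := by
    rintro ⟨i, w, w'⟩ hx
    simp only [n8_D, Finset.mem_sigma, Finset.mem_univ, true_and, Finset.mem_union,
      Finset.mem_image, Prod.mk.injEq] at hx
    rcases hx with ((⟨a, h1, h2⟩ | ⟨a, h1, h2⟩) | ⟨ρ, _, h1, h2⟩) | ⟨ρ, _, h1, h2⟩
    · rw [← h1, ← h2]
      exact ⟨Sy.nmem i _, AddSubgroup.zero_mem _⟩
    · rw [← h1, ← h2]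
      exact ⟨AddSubgroup.zero_mem _, Sy.nmem i _⟩
    · rw [← h1, ← h2]
      exact ⟨t12_lam_mem _, AddSubgroup.zero_mem _⟩
    · rw [← h1, ← h2]
      exact ⟨AddSubgroup.zero_mem _, t12_lam_mem _⟩
  obtain ⟨κ, hκ, H⟩ := n8_fin Sy hPR h Y hδpos (n8_D N' Λ) hDmem
  refine ⟨κ, hκ, ?_⟩
  have hlarge : ∀ᶠ k : ℕ in atTop, (1 : ℝ) ≤ κ * Real.sqrt (k + 1) := by
    have h1 : Tendsto (fun k : ℕ => κ * Real.sqrt ((k : ℝ) + 1)) atTop atTop := by
      apply Filter.Tendsto.const_mul_atTop hκ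
      exact Real.tendsto_sqrt_atTop.comp
        (tendsto_atTop_add_const_right _ _ tendsto_natCast_atTop_atTop)
    exact h1.eventually_ge_atTop 1
  filter_upwards [H, hlarge] with k hk hk1
  intro y hy c z c' z' hb hb' L hL v v' hv hv' θ
  have key := hk y hy c z c' z' hb hb'
  set X : ℕ → ∀ i, Fin (d i) → ℤ := fun n => EE q e h P c z (2 ^ k * y + n) with hX
  set X' : ℕ → ∀ i, Fin (d i) → ℤ := fun n => EE q e h R c' z' (2 ^ k * y + n) with hX'
  set sB : ℕ → ∀ i, S i := fun n => BW q β ω h P c z (2 ^ k * y + n) with hsB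
  set sB' : ℕ → ∀ i, S i := fun n => BW q β ω h R c' z' (2 ^ k * y + n) with hsB'
  set wt : ℕ → ℂ := fun n => ew θ (2 ^ k * y + n) with hwt
  -- one base, one side
  have hone : ∀ (i : ι) (u : Fin (d i) → ℤ), (∀ a, 0 ≤ u a ∧ u a ≤ L) →
      n8_N wt sB sB' X X' k (Pi.single i (t12_lam (Λ i) u)) 0 ((dm + 1) * δ) ∧
      n8_N wt sB sB' X X' k 0 (Pi.single i (t12_lam (Λ i) u)) ((dm + 1) * δ) := by
    intro i u hu
    obtain ⟨w, ρ, hwL, hρ, hdec⟩ := n8_dec Sy.npos (Sy.nmem i) u L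
      (fun a => (hu a).1) (fun a => (hu a).2)
    have hws : ∀ a, ((w a : ℕ) : ℝ) ≤ κ * Real.sqrt (k + 1) := fun a =>
      le_trans (by exact_mod_cast hwL a) hL
    have hsum : ∀ (f : Fin (d i) → Fin (d i) → ℤ), (Pi.single i (∑ a, f a) :
        ∀ i, Fin (d i) → ℤ) = ∑ a, Pi.single i (f a) := by
      intro f
      exact map_sum (AddMonoidHom.single (fun i => Fin (d i) → ℤ) i) f Finset.univ
    have hcard : (Finset.univ : Finset (Fin (d i))).card * δ ≤ dm * δ := by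
      rw [Finset.card_univ, Fintype.card_fin]
      exact mul_le_mul_of_nonneg_right (by exact_mod_cast hdi i) hδpos.le
    rw [hdec, Pi.single_add, hsum]
    constructor
    · have h1 := n8_sum (wt := wt) (s := sB) (s' := sB') (X := X) (X' := X') (k := k) (Finset.univ : Finset (Fin (d i)))
        (fun a => (Pi.single i (w a • (N' • (Pi.single a 1 : Fin (d i) → ℤ))) :
          ∀ i, Fin (d i) → ℤ)) (fun _ => 0) δ (by
          intro a _
          have h2 := key (w a) (hws a) θ ⟨i, N' • (Pi.single a 1 : Fin (d i) → ℤ), 0⟩ (by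
            exact Finset.mem_sigma.2 ⟨Finset.mem_univ _, Finset.mem_union_left _
              (Finset.mem_union_left _ (Finset.mem_union_left _
                (Finset.mem_image.2 ⟨a, Finset.mem_univ _, rfl⟩)))⟩)
          simpa using h2)
      have h3 := key 1 (by simpa using hk1) θ ⟨i, t12_lam (Λ i) ρ, 0⟩ (by
            exact Finset.mem_sigma.2 ⟨Finset.mem_univ _, Finset.mem_union_left _
              (Finset.mem_union_right _ (Finset.mem_image.2 ⟨ρ, hρ, rfl⟩))⟩)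
      have h4 := n8_add h1 h3
      simp only [one_smul, smul_zero, Pi.single_zero, Finset.sum_const_zero, add_zero] at h4
      refine n8_mono h4 ?_
      linarith
    · have h1 := n8_sum (wt := wt) (s := sB) (s' := sB') (X := X) (X' := X') (k := k) (Finset.univ : Finset (Fin (d i)))
        (fun _ => 0) (fun a => (Pi.single i (w a • (N' • (Pi.single a 1 : Fin (d i) → ℤ))) :
          ∀ i, Fin (d i) → ℤ)) δ (by
          intro a _
          have h2 := key (w a) (hws a) θ ⟨i, 0, N' • (Pi.single a 1 : Fin (d i) → ℤ)⟩ (by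
            exact Finset.mem_sigma.2 ⟨Finset.mem_univ _, Finset.mem_union_left _
              (Finset.mem_union_left _ (Finset.mem_union_right _
                (Finset.mem_image.2 ⟨a, Finset.mem_univ _, rfl⟩)))⟩)
          simpa using h2)
      have h3 := key 1 (by simpa using hk1) θ ⟨i, 0, t12_lam (Λ i) ρ⟩ (by
            exact Finset.mem_sigma.2 ⟨Finset.mem_univ _, Finset.mem_union_right _
              (Finset.mem_image.2 ⟨ρ, hρ, rfl⟩)⟩)
      have h4 := n8_add h1 h3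
      simp only [one_smul, smul_zero, Pi.single_zero, Finset.sum_const_zero, add_zero] at h4
      refine n8_mono h4 ?_
      linarith
  have hall := n8_sum (wt := wt) (s := sB) (s' := sB') (X := X) (X' := X') (k := k) (Finset.univ : Finset ι)
    (fun i => Pi.single i (t12_lam (Λ i) (v i))) (fun i => Pi.single i (t12_lam (Λ i) (v' i)))
    (2 * (dm + 1) * δ) (by
      intro i _
      have h1 := n8_add (hone i (v i) (hv i)).1 (hone i (v' i) (hv' i)).2
      rw [add_zero, zero_add] at h1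
      refine n8_mono h1 (le_of_eq ?_)
      ring)
  have e1 : ∀ u : ∀ i, Fin (d i) → ℤ, ∑ i, (Pi.single i (t12_lam (Λ i) (u i)) :
      ∀ i, Fin (d i) → ℤ) = lamL Λ u := fun u =>
    Finset.univ_sum_single (fun i => t12_lam (Λ i) (u i))
  rw [e1, e1] at hall
  refine n8_mono hall ?_
  rw [Finset.card_univ]
  have h5 : (Fintype.card ι : ℝ) * (2 * (dm + 1) * δ) = (M - 1) * δ := by
    rw [hM]; ring
  rw [h5, hδ]
  have h6 : (M - 1) * (ε / M) ≤ M * (ε / M) :=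
    mul_le_mul_of_nonneg_right (by linarith) hδpos.le
  have h7 : M * (ε / M) = ε := by field_simp
  linarith

end several

end Pool.Agent.Lib.MP_3e612f_nt.NB
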