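import Pool.Agent.Lib.MP_3e612f_nt.SKer

/-!
The main algebraic fact: the two sides of a pair can be moved independently along `LL`.
-/

set_option autoImplicit false

namespace Pool.Agent.Lib.MP_3e612f_nt.SA

/-! ### Values of words -/

/-- `x` is the value of a word whose integer is `t` modulo `q - 1` -/
def t4_Vl {S : Type*} (q : ℕ) (β : ℕ → S) (x : S) (t : ℕ) : Prop :=
  ∃ N, β N = x ∧ N ≡ t [MOD (q - 1)]

section basic

variable {S : Type*} [Monoid S] {q m : ℕ} {β : ℕ → S} {ω : ℕ}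

omit [Monoid S] in
theorem t4_vl_base (n : ℕ) : t4_Vl q β (β n) n := ⟨n, rfl, rfl⟩

theorem t4_vl_mul (hq : 2 ≤ q) (hβ : QM q m β) {x y : S} {t u : ℕ} (hx : t4_Vl q β x t)
    (hy : t4_Vl q β y u) : t4_Vl q β (x * y) (t + u) := by
  obtain ⟨n, rfl, hn⟩ := hx
  obtain ⟨n', rfl, hn'⟩ := hy
  obtain ⟨N, hN, hN2⟩ := QM.concat hq hβ n n'
  exact ⟨N, hN, hN2.trans (hn.add hn')⟩

theorem t4_vl_pow (hq : 2 ≤ q) (hβ : QM q m β) {x : S} {t : ℕ} (hx : t4_Vl q β x t) (k : ℕ) :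
    t4_Vl q β (x ^ k) (k * t) := by
  induction k with
  | zero => exact ⟨0, by rw [hβ.one, pow_zero], by rw [Nat.zero_mul]⟩
  | succ k ih =>
    have := t4_vl_mul hq hβ ih hx
    rw [pow_succ, Nat.succ_mul]
    exact this

omit [Monoid S] in
theorem t4_vl_congr {x : S} {t u : ℕ} (h : t ≡ u [MOD (q - 1)]) (hx : t4_Vl q β x t) :
    t4_Vl q β x u := by
  obtain ⟨n, hn, hn2⟩ := hx
  exact ⟨n, hn, hn2.trans h⟩

theorem t4_vl_unique (hω : Core q β ω) {x : S} {t u : ℕ} (hx : t4_Vl q β x t)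
    (hy : t4_Vl q β x u) : t ≡ u [MOD (q - 1)] := by
  obtain ⟨n, rfl, hn⟩ := hx
  obtain ⟨n', hn', hn2⟩ := hy
  exact hn.symm.trans ((hω.val _ _ hn'.symm).trans hn2)

theorem t4_omega (hq : 2 ≤ q) (hβ : QM q m β) (hω : Core q β ω) : ω ≡ 0 [MOD (q - 1)] := by
  have h1 := t4_vl_mul hq hβ (t4_vl_base (q := q) (β := β) ω) (t4_vl_base ω)
  rw [hω.idem] at h1
  have h2 := t4_vl_unique hω h1 (t4_vl_base ω)
  have h3 : ω + ω ≡ ω + 0 [MOD (q - 1)] := by rw [add_zero]; exact h2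
  exact Nat.ModEq.add_left_cancel' ω h3

theorem t4_EE (hω : Core q β ω) (x : S) : β ω * (β ω * x) = β ω * x := by
  rw [← mul_assoc, hω.idem]

/-! ### The maximal subgroup -/

/-- the maximal subgroup at `β ω` -/
def t4_H (β : ℕ → S) (ω : ℕ) : Set S := {l | ∃ x, l = β ω * β x * β ω}

theorem t4_H_left (hω : Core q β ω) {l : S} (hl : l ∈ t4_H β ω) : β ω * l = l := by
  obtain ⟨x, rfl⟩ := hl
  rw [mul_assoc, t4_EE hω]

theorem t4_H_right (hω : Core q β ω) {l : S} (hl : l ∈ t4_H β ω) : l * β ω = l := by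
  obtain ⟨x, rfl⟩ := hl
  rw [mul_assoc, hω.idem]

theorem t4_H_mk {x : S} (hx : x ∈ Set.range β) : β ω * x * β ω ∈ t4_H β ω := by
  obtain ⟨n, rfl⟩ := hx
  exact ⟨n, rfl⟩

omit [Monoid S] in
theorem t4_rng (n : ℕ) : β n ∈ Set.range β := ⟨n, rfl⟩

theorem t4_rng_mul (hq : 2 ≤ q) (hβ : QM q m β) {x y : S} (hx : x ∈ Set.range β)
    (hy : y ∈ Set.range β) : x * y ∈ Set.range β := by
  obtain ⟨n, rfl⟩ := hx
  obtain ⟨n', rfl⟩ := hy
  obtain ⟨N, hN, _⟩ := QM.concat hq hβ n n'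
  exact ⟨N, hN⟩

theorem t4_rng_pow (hq : 2 ≤ q) (hβ : QM q m β) {x : S} (hx : x ∈ Set.range β) (k : ℕ) :
    x ^ k ∈ Set.range β := by
  induction k with
  | zero => exact ⟨0, by rw [hβ.one, pow_zero]⟩
  | succ k ih =>
    rw [pow_succ]
    exact t4_rng_mul hq hβ ih hx

theorem t4_H_rng (hq : 2 ≤ q) (hβ : QM q m β) {l : S} (hl : l ∈ t4_H β ω) : l ∈ Set.range β := by
  obtain ⟨x, rfl⟩ := hl
  exact t4_rng_mul hq hβ (t4_rng_mul hq hβ (t4_rng _) (t4_rng _)) (t4_rng _)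

theorem t4_H_one (hβ : QM q m β) (hω : Core q β ω) : β ω ∈ t4_H β ω :=
  ⟨0, by rw [hβ.one, mul_one, hω.idem]⟩

theorem t4_H_mul (hq : 2 ≤ q) (hβ : QM q m β) (hω : Core q β ω) {l l' : S} (hl : l ∈ t4_H β ω)
    (hl' : l' ∈ t4_H β ω) : l * l' ∈ t4_H β ω := by
  have h1 : l * l' = β ω * (l * l') * β ω := by
    rw [← mul_assoc, t4_H_left hω hl, mul_assoc, t4_H_right hω hl']
  rw [h1]
  exact t4_H_mk (t4_rng_mul hq hβ (t4_H_rng hq hβ hl) (t4_H_rng hq hβ hl'))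

theorem t4_H_linv (hq : 2 ≤ q) (hβ : QM q m β) (hω : Core q β ω) {l : S} (hl : l ∈ t4_H β ω) :
    ∃ l' ∈ t4_H β ω, l' * l = β ω := by
  obtain ⟨N, hN⟩ := t4_H_rng hq hβ hl
  obtain ⟨n', hn'⟩ := hω.min N
  rw [hN, t4_H_right hω hl] at hn'
  refine ⟨β ω * β n' * β ω, ⟨n', rfl⟩, ?_⟩
  rw [mul_assoc, t4_H_left hω hl, mul_assoc, hn', hω.idem]

theorem t4_H_inv (hq : 2 ≤ q) (hβ : QM q m β) (hω : Core q β ω) {l : S} (hl : l ∈ t4_H β ω) :
    ∃ l' ∈ t4_H β ω, l * l' = β ω ∧ l' * l = β ω := by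
  obtain ⟨l', hl', h1⟩ := t4_H_linv hq hβ hω hl
  obtain ⟨l'', hl'', h2⟩ := t4_H_linv hq hβ hω hl'
  refine ⟨l', hl', ?_, h1⟩
  have h3 : l'' = l := by
    calc l'' = l'' * β ω := (t4_H_right hω hl'').symm
      _ = l'' * (l' * l) := by rw [h1]
      _ = (l'' * l') * l := by rw [mul_assoc]
      _ = β ω * l := by rw [h2]
      _ = l := t4_H_left hω hl
  rw [← h3]
  exact h2

end basic

/-! ### Concatenation with control modulo `M`, and prefixes -/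

section prefix_

variable {S : Type*} [Monoid S] {q m : ℕ} {β : ℕ → S} {ω : ℕ}

theorem t4_pow_mod {q M a : ℕ} (hM : M.Coprime q) (ha : M.totient ∣ a) : q ^ a ≡ 1 [MOD M] := by
  obtain ⟨k, rfl⟩ := ha
  rw [pow_mul]
  have := (Nat.ModEq.pow_totient hM.symm).pow k
  rwa [one_pow] at this

theorem t4_cop_pos {q M : ℕ} (hq : 2 ≤ q) (hM : M.Coprime q) : 1 ≤ M := by
  rcases Nat.eq_zero_or_pos M with h | h
  · subst h
    rw [Nat.coprime_zero_left] at hM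
    omega
  · exact h

theorem t4_cat_mod (hq : 2 ≤ q) (hβ : QM q m β) {M : ℕ} (hM : M.Coprime q) (n n' : ℕ) :
    ∃ N, β N = β n * β n' ∧ N ≡ n + n' [MOD M] := by
  have hM1 := t4_cop_pos hq hM
  have hφ : 1 ≤ M.totient := Nat.totient_pos.mpr hM1
  obtain ⟨a, ha⟩ : ∃ a, (n' + m) * M.totient = a + m := by
    refine ⟨(n' + m) * M.totient - m, ?_⟩
    have : (n' + m) * 1 ≤ (n' + m) * M.totient := Nat.mul_le_mul_left _ hφ
    omega
  have ha2 : n' ≤ a := by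
    have : (n' + m) * 1 ≤ (n' + m) * M.totient := Nat.mul_le_mul_left _ hφ
    omega
  have hlt : n' < q ^ a := lt_of_lt_of_le (Nat.lt_pow_self (by omega : 1 < q))
    (Nat.pow_le_pow_right (by omega) ha2)
  refine ⟨q ^ (a + m) * n + n', hβ.gap a n n' hlt, ?_⟩
  have h1 : q ^ (a + m) ≡ 1 [MOD M] := t4_pow_mod hM (ha ▸ Dvd.intro_left _ rfl)
  have h2 := (h1.mul_right n).add_right n'
  rwa [one_mul] at h2

theorem t4_prefix (hq : 2 ≤ q) (hβ : QM q m β) (hω : Core q β ω) {M : ℕ} (hM : M.Coprime q)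
    (hMω : M.Coprime ω) (g ρ : ℕ) : ∃ V, β V = β g * β ω ∧ V ≡ ρ [MOD M] := by
  have h1 : ∀ j, ∃ V, β V = β g * β ω ∧ V ≡ g + (j + 1) * ω [MOD M] := by
    intro j
    induction j with
    | zero =>
      obtain ⟨V, hV, hV2⟩ := t4_cat_mod hq hβ hM g ω
      exact ⟨V, hV, by simpa using hV2⟩
    | succ j ih =>
      obtain ⟨V, hV, hV2⟩ := ih
      obtain ⟨V', hV', hV2'⟩ := t4_cat_mod hq hβ hM V ω
      refine ⟨V', ?_, ?_⟩
      · rw [hV', hV, mul_assoc, hω.idem]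
      · refine hV2'.trans ?_
        have := hV2.add_right ω
        have h3 : g + (j + 1) * ω + ω = g + (j + 1 + 1) * ω := by ring
        rwa [h3] at this
  have hM1 := t4_cop_pos hq hM
  have : NeZero M := ⟨by omega⟩
  obtain ⟨V, hV, hV2⟩ := h1 (((ρ : ZMod M) - g - ω) * (ω : ZMod M)⁻¹).val
  refine ⟨V, hV, hV2.trans ?_⟩
  rw [← ZMod.natCast_eq_natCast_iff]
  push_cast
  rw [ZMod.natCast_zmod_val]
  have hinv : (ω : ZMod M) * (ω : ZMod M)⁻¹ = 1 := ZMod.coe_mul_inv_eq_one ω hMω.symm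
  linear_combination ((ρ : ZMod M) - g - ω) * hinv

end prefix_

/-! ### The two words -/

section words

variable {S : Type*} [Monoid S] {q m : ℕ} {β : ℕ → S} {ω : ℕ}

/-- the constant -/
def t4_K (q m ω : ℕ) : ℕ := q ^ m * (q ^ (2 * (ω + m)) + ω + 1) + 1

theorem t4_gen (hq : 2 ≤ q) (hβ : QM q m β) (hω : Core q β ω) {r : ℕ} (hr : r.Coprime q)
    (hrω : r.Coprime ω) {n : ℕ} {l : S}
    (hl : β ω * β (n + 1) * β ω = (β ω * β n * β ω) * (β ω * β 1 * β ω) * l)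
    (hlH : l ∈ t4_H β ω) (nx : ℕ) :
    ∃ w₁ w₂ s, β (r * w₁) = β nx * β ω * l * β s ∧ β (r * w₂) = β nx * β ω * β s ∧
      w₁ ≡ w₂ [MOD (q - 1)] ∧ ∀ p, t4_K q m ω * p ≤ r → β (p * w₁) = β (p * w₂) := by
  have hq1 : 1 < q := by omega
  have hqpos : ∀ k, 0 < q ^ k := fun k => Nat.pow_pos (by omega)
  have hωq : ω < q ^ ω := Nat.lt_pow_self hq1
  have h3 : 2 * ω + m + m = 2 * (ω + m) := by ring
  obtain ⟨D, hD⟩ : ∃ D, D = q ^ (2 * (ω + m)) := ⟨_, rfl⟩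
  obtain ⟨b, hb⟩ : ∃ b, b = D + ω := ⟨_, rfl⟩
  obtain ⟨n', hn'⟩ : ∃ n', n' = D * n + q ^ (ω + m) * ω := ⟨_, rfl⟩
  have hlow : q ^ (ω + m) * ω + ω < q ^ (2 * ω + m) := by
    have e1 : q ^ (2 * ω + m) = q ^ (ω + m) * q ^ ω := by rw [← pow_add]; congr 1; ring
    have e2 : q ^ (ω + m) * (ω + 1) ≤ q ^ (ω + m) * q ^ ω := Nat.mul_le_mul_left _ hωq
    have e3 : q ^ ω ≤ q ^ (ω + m) := Nat.pow_le_pow_right (by omega) (by omega)
    rw [e1]
    rw [Nat.mul_add, Nat.mul_one] at e2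
    omega
  have hβn' : β n' = β n * β ω := by
    have h2 := hβ.gap (2 * ω + m) n (q ^ (ω + m) * ω) (by omega)
    rw [h3, QM.pow_mul hq hβ] at h2
    rw [hn', hD, h2]
  have hβb : β b = β 1 * β ω := by
    have h2 := hβ.gap (2 * ω + m) 1 ω (by omega)
    rw [h3, mul_one] at h2
    rw [hb, hD, h2]
  have hβnb : β (n' + b) = β (n + 1) * β ω := by
    have h0 : β (q ^ (ω + m) * ω + ω) = β ω := by rw [hβ.gap ω ω ω hωq, hω.idem]
    have h2 := hβ.gap (2 * ω + m) (n + 1) (q ^ (ω + m) * ω + ω) hlow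
    have h4 : n' + b = q ^ (2 * ω + m + m) * (n + 1) + (q ^ (ω + m) * ω + ω) := by
      rw [h3, hn', hb, hD]
      ring
    rw [h4, h2, h0]
  -- the inverse of `ψ n * ψ 1`
  have hψ : (β ω * β n * β ω) * (β ω * β 1 * β ω) ∈ t4_H β ω :=
    t4_H_mul hq hβ hω ⟨n, rfl⟩ ⟨1, rfl⟩
  obtain ⟨u, huH, hu1, hu2⟩ := t4_H_inv hq hβ hω hψ
  obtain ⟨g, hg⟩ : β nx * β ω * u ∈ Set.range β :=
    t4_rng_mul hq hβ (t4_rng_mul hq hβ (t4_rng _) (t4_rng _)) (t4_H_rng hq hβ huH)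
  have hr1 : 1 ≤ r := t4_cop_pos hq hr
  obtain ⟨V, hV, hVr⟩ := t4_prefix hq hβ hω hr hrω g ((r - 1) * n')
  have hV' : β V = β nx * β ω * u := by
    rw [hV, hg, mul_assoc, t4_H_right hω huH]
  obtain ⟨A, hA⟩ : ∃ A, (n' + b + m) * r.totient = A + m := by
    refine ⟨(n' + b + m) * r.totient - m, ?_⟩
    have : (n' + b + m) * 1 ≤ (n' + b + m) * r.totient :=
      Nat.mul_le_mul_left _ (Nat.totient_pos.mpr hr1)
    omega
  have hA2 : n' + b ≤ A := by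
    have : (n' + b + m) * 1 ≤ (n' + b + m) * r.totient :=
      Nat.mul_le_mul_left _ (Nat.totient_pos.mpr hr1)
    omega
  have hnbA : n' + b < q ^ A := lt_of_lt_of_le (Nat.lt_pow_self hq1)
    (Nat.pow_le_pow_right (by omega) hA2)
  have hmodA : q ^ (A + m) ≡ 1 [MOD r] := t4_pow_mod hr (hA ▸ Dvd.intro_left _ rfl)
  obtain ⟨z, hz⟩ : ∃ z, q ^ (A + m) * V + n' = r * z := by
    have e1 : q ^ (A + m) * V + n' ≡ 1 * ((r - 1) * n') + n' [MOD r] :=
      (hmodA.mul hVr).add_right n'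
    have e2 : 1 * ((r - 1) * n') + n' = r * n' := by
      obtain ⟨r', rfl⟩ : ∃ r', r = r' + 1 := ⟨r - 1, by omega⟩
      rw [Nat.add_sub_cancel]
      ring
    rw [e2] at e1
    have e3 : r * n' ≡ 0 [MOD r] := Nat.modEq_zero_iff_dvd.mpr (Dvd.intro _ rfl)
    exact (Nat.modEq_zero_iff_dvd.mp (e1.trans e3))
  have hβrz : β (r * z) = β nx * β ω * u * (β n * β ω) := by
    rw [← hz, hβ.gap A V n' (by omega), hV', hβn']
  have hβrzb : β (r * z + b) = β nx * β ω * l := by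
    have e1 : r * z + b = q ^ (A + m) * V + (n' + b) := by rw [← hz]; ring
    rw [e1, hβ.gap A V _ hnbA, hV', hβnb]
    calc β nx * β ω * u * (β (n + 1) * β ω)
        = β nx * β ω * (u * (β ω * β (n + 1) * β ω)) := by
          simp only [mul_assoc]
          rw [← mul_assoc u (β ω), t4_H_right hω huH]
      _ = β nx * β ω * (u * ((β ω * β n * β ω) * (β ω * β 1 * β ω)) * l) := by
          rw [hl]
          simp only [mul_assoc]
      _ = β nx * β ω * l := by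
          rw [hu2, t4_H_left hω hlH]
  -- the points
  obtain ⟨s, x₀, hs, hx₀⟩ : ∃ s x₀, s ≤ r ∧ r * x₀ = q ^ (r + m) * b + s := by
    refine ⟨r - (q ^ (r + m) * b) % r, (q ^ (r + m) * b) / r + 1, Nat.sub_le _ _, ?_⟩
    have e1 := Nat.div_add_mod (q ^ (r + m) * b) r
    have e2 := Nat.mod_lt (q ^ (r + m) * b) hr1
    rw [Nat.mul_add, Nat.mul_one]
    omega
  have hsr : s < q ^ r := lt_of_le_of_lt hs (Nat.lt_pow_self hq1)
  refine ⟨x₀ + q ^ (r + m) * z, x₀ + q ^ (r + m + (b + m)) * z, s, ?_, ?_, ?_, ?_⟩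
  · have e1 : r * (x₀ + q ^ (r + m) * z) = q ^ (r + m) * (r * z + b) + s := by
      rw [Nat.mul_add, hx₀]
      ring
    rw [e1, hβ.gap r _ s hsr, hβrzb]
  · have e1 : r * (x₀ + q ^ (r + m + (b + m)) * z) =
        q ^ (r + m + b + m) * (r * z) + (q ^ (r + m) * b + s) := by
      rw [Nat.mul_add, hx₀]
      ring
    have e2 : q ^ (r + m) * b + s < q ^ (r + m + b) := by
      have f1 : q ^ (r + m + b) = q ^ (r + m) * q ^ b := by rw [pow_add]
      have f2 : b + 1 ≤ q ^ b := Nat.lt_pow_self hq1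
      have f3 : q ^ (r + m) * (b + 1) ≤ q ^ (r + m) * q ^ b := Nat.mul_le_mul_left _ f2
      have f4 : q ^ r ≤ q ^ (r + m) := Nat.pow_le_pow_right (by omega) (by omega)
      rw [Nat.mul_add, Nat.mul_one] at f3
      omega
    rw [e1, hβ.gap (r + m + b) _ _ e2, hβ.gap r b s hsr, hβrz, hβb]
    calc β nx * β ω * u * (β n * β ω) * (β 1 * β ω * β s)
        = β nx * β ω * (u * ((β ω * β n * β ω) * (β ω * β 1 * β ω))) * β s := by
          simp only [mul_assoc]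
          rw [← mul_assoc u (β ω), t4_H_right hω huH, t4_EE hω]
      _ = β nx * β ω * β s := by
          rw [hu2, mul_assoc (β nx), hω.idem]
  · have e1 : ∀ k, q ^ k ≡ 1 [MOD (q - 1)] := by
      intro k
      have f1 : q ≡ 1 [MOD (q - 1)] := by
        have : q - 1 + 1 = q := by omega
        have f2 : q - 1 + 1 ≡ 0 + 1 [MOD (q - 1)] :=
          Nat.ModEq.add_right 1 (Nat.modEq_zero_iff_dvd.mpr dvd_rfl)
        rwa [this, zero_add] at f2
      have := f1.pow k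
      rwa [one_pow] at this
    exact Nat.ModEq.add_left _ (((e1 _).trans (e1 _).symm).mul_right z)
  · intro p hp
    have e1 : p * x₀ < q ^ r := by
      have f1 : t4_K q m ω * (p * x₀) ≤ q ^ (r + m) * b + s := by
        rw [← hx₀, ← mul_assoc]
        exact Nat.mul_le_mul_right _ hp
      have f2 : t4_K q m ω * q ^ r = q ^ (r + m) * (b + 1) + q ^ r := by
        unfold t4_K
        rw [← hD, ← hb]
        ring
      have f4 : q ^ r ≤ q ^ (r + m) := Nat.pow_le_pow_right (by omega) (by omega)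
      by_contra hcon
      have f3 : t4_K q m ω * q ^ r ≤ t4_K q m ω * (p * x₀) :=
        Nat.mul_le_mul_left _ (by omega)
      rw [f2, Nat.mul_add, Nat.mul_one] at f3
      omega
    have e2 : p * x₀ < q ^ (r + m + b) := lt_of_lt_of_le e1
      (Nat.pow_le_pow_right (by omega) (by omega))
    have e3 : p * (x₀ + q ^ (r + m) * z) = q ^ (r + m) * (p * z) + p * x₀ := by ring
    have e4 : p * (x₀ + q ^ (r + m + (b + m)) * z) =
        q ^ (r + m + b + m) * (p * z) + p * x₀ := by ring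
    rw [e3, e4, hβ.gap r _ _ e1, hβ.gap _ _ _ e2]

end words

/-! ### Group theory -/

section group

variable {S : Type*} [Monoid S] {q m : ℕ} {β : ℕ → S} {ω : ℕ}

theorem t4_LL_sub [Finite S] (hq : 2 ≤ q) (hβ : QM q m β) (hω : Core q β ω) {R : Set S}
    (hRH : R ⊆ t4_H β ω) (hE : β ω ∈ R) (hmul : ∀ l ∈ R, ∀ l' ∈ R, l * l' ∈ R)
    (hconj : ∀ l ∈ R, ∀ h ∈ t4_H β ω, ∀ h' ∈ t4_H β ω, h * h' = β ω → h' * h = β ω →
      h * l * h' ∈ R)
    (hgen : ∀ n, ∀ l ∈ t4_H β ω, β ω * β (n + 1) * β ω =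
      (β ω * β n * β ω) * (β ω * β 1 * β ω) * l → l ∈ R) : LL q β ω ⊆ R := by
  obtain ⟨τ, hτ⟩ : ∃ τ, τ = β ω * β 1 * β ω := ⟨_, rfl⟩
  have hτH : τ ∈ t4_H β ω := ⟨1, hτ⟩
  obtain ⟨τ', hτ'H, hττ', hτ'τ⟩ := t4_H_inv hq hβ hω hτH
  have ha : ∀ n, ∃ l ∈ R, β ω * β n * β ω = τ ^ n * l := by
    intro n
    induction n with
    | zero =>
      refine ⟨β ω, hE, ?_⟩
      rw [hβ.one, mul_one, hω.idem, pow_zero, one_mul]
    | succ n ih =>
      obtain ⟨l, hl, hln⟩ := ih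
      have hψ : (β ω * β n * β ω) * (β ω * β 1 * β ω) ∈ t4_H β ω :=
        t4_H_mul hq hβ hω ⟨n, rfl⟩ ⟨1, rfl⟩
      obtain ⟨u, huH, hu1, hu2⟩ := t4_H_inv hq hβ hω hψ
      have hψ1 : β ω * β (n + 1) * β ω ∈ t4_H β ω := ⟨n + 1, rfl⟩
      obtain ⟨l', hl'def⟩ : ∃ l', l' = u * (β ω * β (n + 1) * β ω) := ⟨_, rfl⟩
      have hl'H : l' ∈ t4_H β ω := by
        rw [hl'def]
        exact t4_H_mul hq hβ hω huH hψ1
      have hl' : β ω * β (n + 1) * β ω = (β ω * β n * β ω) * (β ω * β 1 * β ω) * l' := by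
        rw [hl'def, ← mul_assoc, hu1, t4_H_left hω hψ1]
      have hl'R := hgen n _ hl'H hl'
      refine ⟨τ' * l * τ * l', hmul _ (hconj l hl τ' hτ'H τ hτH hτ'τ hττ') _ hl'R, ?_⟩
      rw [← hτ, hln] at hl'
      rw [hl', pow_succ]
      have e1 : τ ^ n * τ * (τ' * l * τ * l') = τ ^ n * ((τ * τ') * l) * τ * l' := by
        simp only [mul_assoc]
      rw [e1, hττ', t4_H_left hω (hRH hl)]
  have hpow : ∀ l ∈ R, ∀ k, l ^ (k + 1) ∈ R := by
    intro l hl k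
    induction k with
    | zero => rw [zero_add, pow_one]; exact hl
    | succ k ih => rw [pow_succ]; exact hmul _ ih _ hl
  obtain ⟨M, hM1, _, hM⟩ := exists_exp hq hβ hω
  have hτq : τ ^ (q - 1) ∈ R := by
    obtain ⟨l, hl, hlq⟩ := ha q
    have hβq : β q = β 1 := by
      have := QM.pow_mul hq hβ 1 1
      rwa [pow_one, mul_one] at this
    rw [hβq, ← hτ] at hlq
    obtain ⟨k, hk⟩ : ∃ k, q = k + 2 := ⟨q - 2, by omega⟩
    have e0 : q - 1 = k + 1 := by omega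
    have e1 : τ ^ (q - 1) * l = β ω := by
      calc τ ^ (q - 1) * l = (β ω * τ) * τ ^ k * l := by
            rw [e0, pow_succ', t4_H_left hω hτH]
        _ = τ' * (τ ^ q * l) := by
            rw [← hτ'τ, hk, pow_succ', pow_succ']
            simp only [mul_assoc]
        _ = β ω := by rw [← hlq, hτ'τ]
    have e2 : l ^ M = β ω := by
      obtain ⟨x, hx⟩ := hRH hl
      rw [hx]
      exact hM x
    obtain ⟨M', hM'⟩ : ∃ M', M = M' + 1 := ⟨M - 1, by omega⟩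
    have e3 : l * l ^ (M' + M' + 1) = β ω := by
      rw [← pow_succ', show M' + M' + 1 + 1 = M + M by omega, pow_add, e2, hω.idem]
    have e4 : τ ^ (q - 1) = l ^ (M' + M' + 1) := by
      calc τ ^ (q - 1) = τ ^ (q - 1) * β ω := by
            rw [e0, pow_succ, mul_assoc, t4_H_right hω hτH]
        _ = τ ^ (q - 1) * l * l ^ (M' + M' + 1) := by rw [← e3, mul_assoc]
        _ = l ^ (M' + M' + 1) := by
            rw [e1, t4_H_left hω (hRH (hpow l hl _))]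
    rw [e4]
    exact hpow l hl _
  have hfin : ∀ k, ∀ l ∈ R, (τ ^ (q - 1)) ^ k * l ∈ R := by
    intro k
    induction k with
    | zero => intro l hl; rw [pow_zero, one_mul]; exact hl
    | succ k ih =>
      intro l hl
      rw [pow_succ, mul_assoc]
      exact ih _ (hmul _ hτq _ hl)
  rintro y ⟨x, ⟨k, rfl⟩, rfl⟩
  obtain ⟨l, hl, hlx⟩ := ha ((q - 1) * k)
  rw [hlx, pow_mul]
  exact hfin k l hl

theorem t4_coord (hq : 2 ≤ q) (hβ : QM q m β) (hω : Core q β ω) {ε κ l : S} {M₃ nx s : ℕ}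
    (hε : ε ∈ Set.range β) (hεε : ε * ε = ε) (hl : l ∈ t4_H β ω)
    (hG : (ε * (β nx * β ω * β s) * ε) ^ (M₃ + 1) = ε)
    (hκ : κ = ε * (β nx * β ω * l * β s) * ε * (ε * (β nx * β ω * β s) * ε) ^ M₃) :
    κ * (ε * β nx * β ω) = ε * β nx * β ω * l := by
  have hy : β ω * (β s * ε) * β ω ∈ t4_H β ω := t4_H_mk (t4_rng_mul hq hβ (t4_rng _) hε)
  obtain ⟨y', hy'H, hy1, _⟩ := t4_H_inv hq hβ hω hy
  have h1 : κ * (ε * (β nx * β ω * β s) * ε) = ε * (β nx * β ω * l * β s) * ε := by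
    rw [hκ, mul_assoc, ← pow_succ, hG, mul_assoc, hεε]
  have h2 : κ * (ε * (β nx * β ω * β s) * ε) * (β ω * y') = κ * (ε * β nx * β ω) := by
    calc κ * (ε * (β nx * β ω * β s) * ε) * (β ω * y')
        = κ * (ε * β nx) * ((β ω * (β s * ε) * β ω) * y') := by simp only [mul_assoc]
      _ = κ * (ε * β nx * β ω) := by rw [hy1]; simp only [mul_assoc]
  have h3 : ε * (β nx * β ω * l * β s) * ε * (β ω * y') = ε * β nx * β ω * l := by
    calc ε * (β nx * β ω * l * β s) * ε * (β ω * y')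
        = ε * (β nx * β ω * l) * (β s * ε * β ω * y') := by simp only [mul_assoc]
      _ = ε * (β nx * β ω * (l * β ω)) * (β s * ε * β ω * y') := by rw [t4_H_right hω hl]
      _ = ε * (β nx * β ω * l) * ((β ω * (β s * ε) * β ω) * y') := by simp only [mul_assoc]
      _ = ε * (β nx * β ω * (l * β ω)) := by rw [hy1]; simp only [mul_assoc]
      _ = ε * β nx * β ω * l := by rw [t4_H_right hω hl]; simp only [mul_assoc]
  rw [← h2, h1, h3]

theorem t4_trans (hq : 2 ≤ q) (hβ : QM q m β) (hω : Core q β ω) {ε A B : S}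
    (hB : B ∈ Set.range β) (hε : ε = A * β ω * B) (n n' : ℕ) :
    ∃ h ∈ t4_H β ω, ε * β n' * β ω = ε * β n * β ω * h := by
  have hk : β ω * (B * β n) * β ω ∈ t4_H β ω := t4_H_mk (t4_rng_mul hq hβ hB (t4_rng _))
  have hk' : β ω * (B * β n') * β ω ∈ t4_H β ω := t4_H_mk (t4_rng_mul hq hβ hB (t4_rng _))
  obtain ⟨u, huH, hu1, _⟩ := t4_H_inv hq hβ hω hk
  refine ⟨u * (β ω * (B * β n') * β ω), t4_H_mul hq hβ hω huH hk', ?_⟩
  calc ε * β n' * β ω = A * (β ω * (B * β n') * β ω) := by rw [hε]; simp only [mul_assoc]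
    _ = A * (β ω * (β ω * (B * β n') * β ω)) := by rw [t4_H_left hω hk']
    _ = A * ((β ω * (B * β n) * β ω) * u * (β ω * (B * β n') * β ω)) := by rw [hu1]
    _ = ε * β n * β ω * (u * (β ω * (B * β n') * β ω)) := by rw [hε]; simp only [mul_assoc]

/-- translates of `ε β(n) E` by the subgroup -/
theorem t4_shift (hq : 2 ≤ q) (hβ : QM q m β) (hω : Core q β ω) (ε : S) (n : ℕ) {h : S}
    (hh : h ∈ t4_H β ω) : ∃ n', ε * β n * β ω * h = ε * β n' * β ω := by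
  obtain ⟨n', hn'⟩ := t4_rng_mul hq hβ (t4_rng (β := β) n) (t4_H_rng hq hβ hh)
  refine ⟨n', ?_⟩
  rw [hn', mul_assoc (ε * β n), t4_H_left hω hh]
  simp only [mul_assoc]
  rw [t4_H_right hω hh]

end group

/-! ### The pair of the two sides -/

section pair

variable {S : Type*} [Monoid S] {q m : ℕ} {β : ℕ → S} {ω : ℕ}

/-- the two sides together -/
def t4_B (β : ℕ → S) (p r x : ℕ) : S × S := (β (p * x), β (r * x))

theorem t4_B_qm (hq : 2 ≤ q) (hβ : QM q m β) (p r : ℕ) :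
    QM q (m + (p + r)) (t4_B β p r) := by
  constructor
  · unfold t4_B
    rw [Nat.mul_zero, Nat.mul_zero, hβ.one]
    rfl
  · intro a y s hs
    have key : ∀ P, P ≤ p + r →
        β (P * (q ^ (a + (m + (p + r))) * y + s)) = β (P * y) * β (P * s) := by
      intro P hP
      have h1 : P * s < q ^ (a + (p + r)) := by
        have e1 : p + r < q ^ (p + r) := Nat.lt_pow_self (by omega)
        have e2 : P * s ≤ q ^ (p + r) * s := Nat.mul_le_mul_right _ (by omega)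
        have e3 : q ^ (p + r) * s < q ^ (p + r) * q ^ a :=
          Nat.mul_lt_mul_of_pos_left hs (Nat.pow_pos (by omega))
        have e4 : q ^ (a + (p + r)) = q ^ (p + r) * q ^ a := by rw [← pow_add, add_comm]
        omega
      have h2 : P * (q ^ (a + (m + (p + r))) * y + s) =
          q ^ (a + (p + r) + m) * (P * y) + P * s := by ring
      rw [h2, hβ.gap _ _ _ h1]
    unfold t4_B
    rw [key p (by omega), key r (by omega)]
    rfl

/-- everything we need about `ε = (β (p δ), β (r δ))` -/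
structure t4_Ctx (q : ℕ) (β : ℕ → S) (ω p r δ M₃ : ℕ) : Prop where
  pos : 1 ≤ δ
  id1 : β (p * δ) * β (p * δ) = β (p * δ)
  id2 : β (r * δ) * β (r * δ) = β (r * δ)
  ex1 : ∀ n, (β (p * δ) * β (p * n) * β (p * δ)) ^ (M₃ + 1) = β (p * δ)
  ex2 : ∀ n, (β (r * δ) * β (r * n) * β (r * δ)) ^ (M₃ + 1) = β (r * δ)
  fac1 : ∃ A B, B ∈ Set.range β ∧ β (p * δ) = A * β ω * B
  fac2 : ∃ A B, B ∈ Set.range β ∧ β (r * δ) = A * β ω * B
  cat : ∀ v v', ∃ w, v ≤ w ∧ β (p * w) = β (p * v) * β (p * v') ∧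
    β (r * w) = β (r * v) * β (r * v')
  word : ∀ w₁ w₂, w₁ ≡ w₂ [MOD (q - 1)] → ∃ v, (q - 1) ∣ v ∧
    β (p * v) = β (p * δ) * β (p * w₁) * β (p * δ) *
      (β (p * δ) * β (p * w₂) * β (p * δ)) ^ M₃ ∧
    β (r * v) = β (r * δ) * β (r * w₁) * β (r * δ) *
      (β (r * δ) * β (r * w₂) * β (r * δ)) ^ M₃

theorem t4_zero_word (hq : 2 ≤ q) (hβ : QM q m β) (hω : Core q β ω) {p : ℕ} (hpq : p.Coprime q)
    (hpω : p.Coprime ω) : ∃ x, β (p * x) = β ω := by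
  obtain ⟨V, hV, hV2⟩ := t4_prefix hq hβ hω hpq hpω 0 0
  obtain ⟨x, rfl⟩ := Nat.modEq_zero_iff_dvd.mp hV2
  exact ⟨x, by rw [hV, hβ.one, one_mul]⟩

theorem t4_ctx [Finite S] (hq : 2 ≤ q) (hβ : QM q m β) (hω : Core q β ω) {p r : ℕ}
    (hpq : p.Coprime q) (hrq : r.Coprime q) (hp' : p.Coprime (q - 1)) (hpω : p.Coprime ω)
    (hrω : r.Coprime ω) : ∃ δ M₃, t4_Ctx q β ω p r δ M₃ := by
  have hB := t4_B_qm hq hβ p r
  have hval : ∀ n n', t4_B β p r n = t4_B β p r n' → n ≡ n' [MOD (q - 1)] := by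
    intro n n' h
    have h1 : β (p * n) = β (p * n') := congrArg Prod.fst h
    exact Nat.ModEq.cancel_left_of_coprime (Nat.Coprime.symm hp') (hω.val _ _ h1)
  obtain ⟨δ, hδ⟩ := exists_core hq hB hval
  obtain ⟨M, hM1, hMd, hM⟩ := exists_exp hq hB hδ
  obtain ⟨M₃, rfl⟩ : ∃ M₃, M = M₃ + 1 := ⟨M - 1, by omega⟩
  have hid1 : β (p * δ) * β (p * δ) = β (p * δ) := congrArg Prod.fst hδ.idem
  have hid2 : β (r * δ) * β (r * δ) = β (r * δ) := congrArg Prod.snd hδ.idem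
  have hex1 : ∀ n, (β (p * δ) * β (p * n) * β (p * δ)) ^ (M₃ + 1) = β (p * δ) := by
    intro n
    have := congrArg Prod.fst (hM n)
    rwa [Prod.pow_fst] at this
  have hex2 : ∀ n, (β (r * δ) * β (r * n) * β (r * δ)) ^ (M₃ + 1) = β (r * δ) := by
    intro n
    have := congrArg Prod.snd (hM n)
    rwa [Prod.pow_snd] at this
  have hcat : ∀ v v', ∃ w, v ≤ w ∧ β (p * w) = β (p * v) * β (p * v') ∧
      β (r * w) = β (r * v) * β (r * v') := by
    intro v v'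
    have h1 := hB.gap v' v v' (Nat.lt_pow_self (by omega))
    refine ⟨q ^ (v' + (m + (p + r))) * v + v', ?_, congrArg Prod.fst h1, congrArg Prod.snd h1⟩
    have h2 : 1 * v ≤ q ^ (v' + (m + (p + r))) * v :=
      Nat.mul_le_mul_right _ (Nat.one_le_pow _ _ (by omega))
    omega
  obtain ⟨x₁, hx₁⟩ := t4_zero_word hq hβ hω hpq hpω
  obtain ⟨x₂, hx₂⟩ := t4_zero_word hq hβ hω hrq hrω
  obtain ⟨x, _, hx1, hx2⟩ := hcat x₁ x₂
  rw [hx₁] at hx1
  rw [hx₂] at hx2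
  refine ⟨δ, M₃, hδ.pos, hid1, hid2, hex1, hex2, ?_, ?_, hcat, ?_⟩
  · have h1 := hex1 x
    rw [hx1, pow_succ'] at h1
    refine ⟨β (p * δ), β (p * x₂) * β (p * δ) *
      (β (p * δ) * (β ω * β (p * x₂)) * β (p * δ)) ^ M₃, ?_, ?_⟩
    · refine t4_rng_mul hq hβ (t4_rng_mul hq hβ (t4_rng _) (t4_rng _)) (t4_rng_pow hq hβ ?_ _)
      exact t4_rng_mul hq hβ (t4_rng_mul hq hβ (t4_rng _)
        (t4_rng_mul hq hβ (t4_rng _) (t4_rng _))) (t4_rng _)
    · refine h1.symm.trans ?_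
      simp only [mul_assoc]
  · have h1 := hex2 x
    rw [hx2, pow_succ'] at h1
    refine ⟨β (r * δ) * β (r * x₁), β (r * δ) *
      (β (r * δ) * (β (r * x₁) * β ω) * β (r * δ)) ^ M₃, ?_, ?_⟩
    · refine t4_rng_mul hq hβ (t4_rng _) (t4_rng_pow hq hβ ?_ _)
      exact t4_rng_mul hq hβ (t4_rng_mul hq hβ (t4_rng _)
        (t4_rng_mul hq hβ (t4_rng _) (t4_rng _))) (t4_rng _)
    · refine h1.symm.trans ?_
      simp only [mul_assoc]
  · intro w₁ w₂ hw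
    have hb : ∀ n, t4_Vl q (t4_B β p r) (t4_B β p r n) n := fun n => t4_vl_base n
    have h1 := t4_vl_mul hq hB (t4_vl_mul hq hB (t4_vl_mul hq hB (hb δ) (hb w₁)) (hb δ))
      (t4_vl_pow hq hB (t4_vl_mul hq hB (t4_vl_mul hq hB (hb δ) (hb w₂)) (hb δ)) M₃)
    obtain ⟨v, hv, hv2⟩ := h1
    have hv1 := congrArg Prod.fst hv
    have hv3 := congrArg Prod.snd hv
    refine ⟨v, ?_, ?_, ?_⟩
    · have e1 : δ + w₁ + δ + M₃ * (δ + w₂ + δ) ≡ δ + w₂ + δ + M₃ * (δ + w₂ + δ)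
          [MOD (q - 1)] := ((hw.add_left δ).add_right δ).add_right _
      have e2 : δ + w₂ + δ + M₃ * (δ + w₂ + δ) = (M₃ + 1) * (δ + w₂ + δ) := by ring
      rw [e2] at e1
      have e3 : (M₃ + 1) * (δ + w₂ + δ) ≡ 0 [MOD (q - 1)] :=
        Nat.modEq_zero_iff_dvd.mpr (Dvd.dvd.mul_right hMd _)
      exact Nat.modEq_zero_iff_dvd.mp ((hv2.trans e1).trans e3)
    · rw [Prod.fst_mul, Prod.fst_mul, Prod.fst_mul, Prod.pow_fst] at hv1
      exact hv1
    · rw [Prod.snd_mul, Prod.snd_mul, Prod.snd_mul, Prod.pow_snd] at hv3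
      exact hv3

/-- moving the second side alone -/
def t4_R2 (β : ℕ → S) (ω p r δ : ℕ) : Set S :=
  {l | l ∈ t4_H β ω ∧ ∀ n, ∃ v, β (p * v) = β (p * δ) ∧
    β (r * v) * (β (r * δ) * β n * β ω) = β (r * δ) * β n * β ω * l}

theorem t4_LL_R2 [Finite S] (hq : 2 ≤ q) (hβ : QM q m β) (hω : Core q β ω) {p r δ M₃ : ℕ}
    (hrq : r.Coprime q) (hrω : r.Coprime ω) (hpr : t4_K q m ω * p ≤ r)
    (C : t4_Ctx q β ω p r δ M₃) : LL q β ω ⊆ t4_R2 β ω p r δ := by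
  apply t4_LL_sub hq hβ hω
  · exact fun l hl => hl.1
  · refine ⟨t4_H_one hβ hω, fun n => ⟨δ, rfl, ?_⟩⟩
    rw [mul_assoc (β (r * δ) * β n), hω.idem]
    simp only [← mul_assoc]
    rw [C.id2]
  · rintro l ⟨hl, h1⟩ l' ⟨hl', h2⟩
    refine ⟨t4_H_mul hq hβ hω hl hl', fun n => ?_⟩
    obtain ⟨v, hv1, hv2⟩ := h1 n
    obtain ⟨n', hn'⟩ := t4_shift hq hβ hω (β (r * δ)) n hl
    obtain ⟨v', hv1', hv2'⟩ := h2 n'
    obtain ⟨w, _, hw1, hw2⟩ := C.cat v' v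
    refine ⟨w, ?_, ?_⟩
    · rw [hw1, hv1, hv1', C.id1]
    · rw [hw2, mul_assoc, hv2, hn', hv2', ← hn', mul_assoc]
  · rintro l ⟨hl, h1⟩ h hh h' hh' hhh' hh'h
    refine ⟨t4_H_mul hq hβ hω (t4_H_mul hq hβ hω hh hl) hh', fun n => ?_⟩
    obtain ⟨n', hn'⟩ := t4_shift hq hβ hω (β (r * δ)) n hh
    obtain ⟨v, hv1, hv2⟩ := h1 n'
    refine ⟨v, hv1, ?_⟩
    rw [← hn'] at hv2
    calc β (r * v) * (β (r * δ) * β n * β ω)
        = β (r * v) * (β (r * δ) * β n * β ω * (h * h')) := by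
          rw [hhh', mul_assoc (β (r * δ) * β n) (β ω) (β ω), hω.idem]
      _ = β (r * v) * (β (r * δ) * β n * β ω * h) * h' := by simp only [mul_assoc]
      _ = β (r * δ) * β n * β ω * (h * l * h') := by
          rw [hv2]
          simp only [mul_assoc]
  · intro n l hl hgen
    refine ⟨hl, fun nx => ?_⟩
    obtain ⟨w₁, w₂, s, hw1, hw2, hmod, hK⟩ := t4_gen hq hβ hω hrq hrω hgen hl nx
    obtain ⟨v, _, hv1, hv2⟩ := C.word w₁ w₂ hmod
    refine ⟨v, ?_, ?_⟩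
    · rw [hv1, hK p hpr, ← pow_succ', C.ex1]
    · have hG := C.ex2 w₂
      rw [hw2] at hG
      rw [hw1, hw2] at hv2
      exact t4_coord hq hβ hω (t4_rng _) C.id2 hl hG hv2

/-- moving the first side alone -/
def t4_R1 (β : ℕ → S) (ω p r δ : ℕ) : Set S :=
  {l | l ∈ t4_H β ω ∧ ∀ n n', ∃ v,
    β (p * v) * (β (p * δ) * β n * β ω) = β (p * δ) * β n * β ω * l ∧
    β (r * v) * (β (r * δ) * β n' * β ω) = β (r * δ) * β n' * β ω}

theorem t4_LL_R1 [Finite S] (hq : 2 ≤ q) (hβ : QM q m β) (hω : Core q β ω) {p r δ M₃ : ℕ}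
    (hpq : p.Coprime q) (hpω : p.Coprime ω)
    (hrq : r.Coprime q) (hrω : r.Coprime ω) (hpr : t4_K q m ω * p ≤ r)
    (C : t4_Ctx q β ω p r δ M₃) : LL q β ω ⊆ t4_R1 β ω p r δ := by
  apply t4_LL_sub hq hβ hω
  · exact fun l hl => hl.1
  · refine ⟨t4_H_one hβ hω, fun n n' => ⟨δ, ?_, ?_⟩⟩
    · rw [mul_assoc (β (p * δ) * β n), hω.idem]
      simp only [← mul_assoc]
      rw [C.id1]
    · simp only [← mul_assoc]
      rw [C.id2]
  · rintro l ⟨hl, h1⟩ l' ⟨hl', h2⟩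
    refine ⟨t4_H_mul hq hβ hω hl hl', fun n n' => ?_⟩
    obtain ⟨v, hv1, hv2⟩ := h1 n n'
    obtain ⟨n'', hn''⟩ := t4_shift hq hβ hω (β (p * δ)) n hl
    obtain ⟨v', hv1', hv2'⟩ := h2 n'' n'
    obtain ⟨w, _, hw1, hw2⟩ := C.cat v' v
    refine ⟨w, ?_, ?_⟩
    · rw [hw1, mul_assoc, hv1, hn'', hv1', ← hn'', mul_assoc]
    · rw [hw2, mul_assoc, hv2, hv2']
  · rintro l ⟨hl, h1⟩ h hh h' hh' hhh' hh'h
    refine ⟨t4_H_mul hq hβ hω (t4_H_mul hq hβ hω hh hl) hh', fun n n' => ?_⟩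
    obtain ⟨n'', hn''⟩ := t4_shift hq hβ hω (β (p * δ)) n hh
    obtain ⟨v, hv1, hv2⟩ := h1 n'' n'
    refine ⟨v, ?_, hv2⟩
    rw [← hn''] at hv1
    calc β (p * v) * (β (p * δ) * β n * β ω)
        = β (p * v) * (β (p * δ) * β n * β ω * (h * h')) := by
          rw [hhh', mul_assoc (β (p * δ) * β n) (β ω) (β ω), hω.idem]
      _ = β (p * v) * (β (p * δ) * β n * β ω * h) * h' := by simp only [mul_assoc]
      _ = β (p * δ) * β n * β ω * (h * l * h') := by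
          rw [hv1]
          simp only [mul_assoc]
  · intro n₀ l hl hgen
    refine ⟨hl, fun nx nx' => ?_⟩
    obtain ⟨w₁, w₂, s, hw1, hw2, hmod, _⟩ := t4_gen hq hβ hω hpq hpω hgen hl nx
    obtain ⟨v, hvd, hv1, hv2⟩ := C.word w₁ w₂ hmod
    have hx : β (p * v) * (β (p * δ) * β nx * β ω) = β (p * δ) * β nx * β ω * l := by
      have hG := C.ex1 w₂
      rw [hw2] at hG
      rw [hw1, hw2] at hv1
      exact t4_coord hq hβ hω (t4_rng _) C.id1 hl hG hv1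
    -- the second side
    obtain ⟨A, B, hB, hAB⟩ := C.fac2
    obtain ⟨n₂, hn₂⟩ : β (r * w₁) * β (r * δ) *
        (β (r * δ) * β (r * w₂) * β (r * δ)) ^ M₃ * (β (r * δ) * β nx') ∈ Set.range β := by
      refine t4_rng_mul hq hβ (t4_rng_mul hq hβ (t4_rng_mul hq hβ (t4_rng _) (t4_rng _))
        (t4_rng_pow hq hβ ?_ _)) (t4_rng_mul hq hβ (t4_rng _) (t4_rng _))
      exact t4_rng_mul hq hβ (t4_rng_mul hq hβ (t4_rng _) (t4_rng _)) (t4_rng _)
    have hκ : β (r * v) * (β (r * δ) * β nx' * β ω) = β (r * δ) * β n₂ * β ω := by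
      rw [hv2, hn₂]
      simp only [mul_assoc]
    obtain ⟨h, hhH, hh⟩ := t4_trans hq hβ hω hB hAB nx' n₂
    have hhLL : h ∈ LL q β ω := by
      obtain ⟨k, hk⟩ := hhH
      refine ⟨k, ?_, hk⟩
      rw [hh] at hκ
      have hb : ∀ n, t4_Vl q β (β n) n := fun n => t4_vl_base n
      have hx' := t4_vl_mul hq hβ (t4_vl_mul hq hβ (hb (r * δ)) (hb nx')) (hb ω)
      have e1 := t4_vl_mul hq hβ (hb (r * v)) hx'
      have e2 := t4_vl_mul hq hβ hx' (t4_vl_mul hq hβ (t4_vl_mul hq hβ (hb ω) (hb k)) (hb ω))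
      rw [← hk, ← hκ] at e2
      have e3 := t4_vl_unique hω e1 e2
      have e4 : r * δ + nx' + ω + r * v ≡ r * δ + nx' + ω + (ω + k + ω) [MOD (q - 1)] := by
        rw [add_comm _ (r * v)]
        exact e3
      have e5 := Nat.ModEq.add_left_cancel' _ e4
      have e6 : ω + k + ω ≡ 0 + k + 0 [MOD (q - 1)] :=
        ((t4_omega hq hβ hω).add_right k).add (t4_omega hq hβ hω)
      have e7 : r * v ≡ k [MOD (q - 1)] := by
        have := e5.trans e6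
        rwa [zero_add, add_zero] at this
      have e8 : r * v ≡ 0 [MOD (q - 1)] :=
        Nat.modEq_zero_iff_dvd.mpr (Dvd.dvd.mul_left hvd r)
      exact Nat.modEq_zero_iff_dvd.mp (e7.symm.trans e8)
    obtain ⟨h', hh'LL, hhh', hh'h⟩ := LL_inv hq hβ hω hhLL
    obtain ⟨_, hR2⟩ := t4_LL_R2 hq hβ hω hrq hrω hpr C hh'LL
    obtain ⟨v'', hv1'', hv2''⟩ := hR2 n₂
    obtain ⟨w, _, hw1', hw2'⟩ := C.cat v'' v
    refine ⟨w, ?_, ?_⟩
    · rw [hw1', mul_assoc, hx, hv1'']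
      simp only [← mul_assoc]
      rw [C.id1]
    · rw [hw2', mul_assoc, hκ, hv2'', hh, mul_assoc _ h, hhh', mul_assoc, hω.idem]

end pair

theorem reach {S : Type*} [Monoid S] [Finite S] {q m : ℕ} (hq : 2 ≤ q) {β : ℕ → S}
    (hβ : QM q m β) {ω : ℕ} (hω : Core q β ω) : ∃ K₀ : ℕ, 1 ≤ K₀ ∧ ∀ p r : ℕ, 1 ≤ p →
      p.Coprime q → r.Coprime q → p.Coprime (q - 1) → r.Coprime (q - 1) → p.Coprime ω →
      r.Coprime ω → K₀ * p ≤ r → Rch q β ω (p * (q - 1)) (r * (q - 1)) := by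
  refine ⟨t4_K q m ω, ?_, ?_⟩
  · unfold t4_K
    omega
  intro p r _ hpq hrq hp' _ hpω hrω hpr
  obtain ⟨δ, M₃, C⟩ := t4_ctx hq hβ hω hpq hrq hp' hpω hrω
  have hb : ∀ n, t4_Vl q β (β n) n := fun n => t4_vl_base n
  have hcancel : ∀ x, p * x ≡ 0 [MOD (q - 1)] → (q - 1) ∣ x := by
    intro x hx
    have h1 : p * x ≡ p * 0 [MOD (q - 1)] := by rw [Nat.mul_zero]; exact hx
    exact Nat.modEq_zero_iff_dvd.mp
      (Nat.ModEq.cancel_left_of_coprime (Nat.Coprime.symm hp') h1)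
  have hδ : (q - 1) ∣ δ := by
    apply hcancel
    have e1 := t4_vl_mul hq hβ (hb (p * δ)) (hb (p * δ))
    rw [C.id1] at e1
    have e2 : p * δ + p * δ ≡ p * δ + 0 [MOD (q - 1)] := by
      rw [add_zero]
      exact t4_vl_unique hω e1 (hb (p * δ))
    exact Nat.ModEq.add_left_cancel' _ e2
  intro n n' l hl l' hl'
  obtain ⟨hlH, hR1⟩ := t4_LL_R1 hq hβ hω hpq hpω hrq hrω hpr C hl
  obtain ⟨_, hR2⟩ := t4_LL_R2 hq hβ hω hrq hrω hpr C hl'
  obtain ⟨va, hva1, hva2⟩ := hR1 n n'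
  obtain ⟨vb, hvb1, hvb2⟩ := hR2 n'
  obtain ⟨vc, _, hvc1, hvc2⟩ := C.cat vb va
  obtain ⟨v, hvδ, hv1, hv2⟩ := C.cat δ vc
  have hx : β (p * v) * (β (p * δ) * β n * β ω) = β (p * δ) * β n * β ω * l := by
    rw [hv1, hvc1, mul_assoc, mul_assoc (β (p * vb)), hva1, hvb1]
    simp only [← mul_assoc]
    rw [C.id1, C.id1]
  have hx' : β (r * v) * (β (r * δ) * β n' * β ω) = β (r * δ) * β n' * β ω * l' := by
    rw [hv2, hvc2, mul_assoc, mul_assoc (β (r * vb)), hva2, hvb2]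
    simp only [← mul_assoc]
    rw [C.id2]
  have hvd : (q - 1) ∣ v := by
    apply hcancel
    obtain ⟨k, hkd, hk⟩ := hl
    have hx0 := t4_vl_mul hq hβ (t4_vl_mul hq hβ (hb (p * δ)) (hb n)) (hb ω)
    have e1 := t4_vl_mul hq hβ (hb (p * v)) hx0
    have e2 := t4_vl_mul hq hβ hx0 (t4_vl_mul hq hβ (t4_vl_mul hq hβ (hb ω) (hb k)) (hb ω))
    rw [← hk, ← hx] at e2
    have e3 := t4_vl_unique hω e1 e2
    have e4 : p * δ + n + ω + p * v ≡ p * δ + n + ω + (ω + k + ω) [MOD (q - 1)] := by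
      rw [add_comm _ (p * v)]
      exact e3
    have e5 := Nat.ModEq.add_left_cancel' _ e4
    have e6 : ω + k + ω ≡ 0 + 0 + 0 [MOD (q - 1)] :=
      ((t4_omega hq hβ hω).add (Nat.modEq_zero_iff_dvd.mpr hkd)).add (t4_omega hq hβ hω)
    exact e5.trans e6
  obtain ⟨u', hu'⟩ := hδ
  obtain ⟨v', hv'⟩ := hvd
  have ep : ∀ P x, P * (q - 1) * x = P * ((q - 1) * x) := fun P x => mul_assoc P (q - 1) x
  refine ⟨u', v', ?_, ?_, ?_⟩
  · rcases Nat.eq_zero_or_pos v' with h | h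
    · exfalso
      rw [h, Nat.mul_zero] at hv'
      have := C.pos
      omega
    · exact h
  · rw [ep, ep, ← hu', ← hv', ← mul_assoc (β (p * δ))]
    exact hx
  · rw [ep, ep, ← hu', ← hv', ← mul_assoc (β (r * δ))]
    exact hx'

end Pool.Agent.Lib.MP_3e612f_nt.SA
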