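import Pool.Agent.Lib.MP_3e612f_nt.NDefs
import Pool.Agent.Lib.MP_3e612f_nt.SReach

/-!
Task N9: the main algebraic fact for general multipliers.
-/

set_option autoImplicit false

namespace Pool.Agent.Lib.MP_3e612f_nt.NB

open Pool.Agent.Lib.MP_3e612f_nt.QA Pool.Agent.Lib.MP_3e612f_nt.SA Pool.Agent.Lib.MP_3e612f_nt.MB

section basic

variable {S : Type*} [Monoid S] {q m : ℕ} {β : ℕ → S} {ω : ℕ}

theorem n9_qmod (hq : 2 ≤ q) (k : ℕ) : q ^ k ≡ 1 [MOD (q - 1)] := by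
  have f1 : q ≡ 1 [MOD (q - 1)] := by
    have : q - 1 + 1 = q := by omega
    have f2 : q - 1 + 1 ≡ 0 + 1 [MOD (q - 1)] :=
      Nat.ModEq.add_right 1 (Nat.modEq_zero_iff_dvd.mpr dvd_rfl)
    rwa [this, zero_add] at f2
  have := f1.pow k
  rwa [one_pow] at this

theorem n9_LL_H {l : S} (hl : l ∈ LL q β ω) : l ∈ t4_H β ω := by
  obtain ⟨x, _, h⟩ := hl
  exact ⟨x, h⟩

theorem n9_LL_vl (hq : 2 ≤ q) (hβ : QM q m β) (hω : Core q β ω) {l : S}
    (hl : l ∈ LL q β ω) : t4_Vl q β l 0 := by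
  obtain ⟨x, hx, rfl⟩ := hl
  have h1 := t4_vl_mul hq hβ (t4_vl_mul hq hβ (t4_vl_base (q := q) (β := β) ω) (t4_vl_base x))
    (t4_vl_base ω)
  refine t4_vl_congr ?_ h1
  have h2 := ((t4_omega hq hβ hω).add (Nat.modEq_zero_iff_dvd.mpr hx)).add (t4_omega hq hβ hω)
  exact h2

theorem n9_mem_LL (hq : 2 ≤ q) (hβ : QM q m β) (hω : Core q β ω) {x : S}
    (hx : x ∈ t4_H β ω) {t : ℕ} (ht : t4_Vl q β x t) (h0 : t ≡ 0 [MOD (q - 1)]) :
    x ∈ LL q β ω := by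
  obtain ⟨k, rfl⟩ := hx
  refine ⟨k, ?_, rfl⟩
  have h1 := t4_vl_mul hq hβ (t4_vl_mul hq hβ (t4_vl_base (q := q) (β := β) ω) (t4_vl_base k))
    (t4_vl_base ω)
  have h2 := t4_vl_unique hω h1 ht
  have h3 : ω + k + ω ≡ 0 + k + 0 [MOD (q - 1)] :=
    ((t4_omega hq hβ hω).add_right k).add (t4_omega hq hβ hω)
  rw [zero_add, add_zero] at h3
  exact Nat.modEq_zero_iff_dvd.mp (h3.symm.trans (h2.trans h0))

/-- translates of `ε β(n) E`, `n = 0` modulo `q - 1`, by `LL` -/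
theorem n9_shift (hq : 2 ≤ q) (hβ : QM q m β) (hω : Core q β ω) (ε : S) {n : ℕ}
    (hn : (q - 1) ∣ n) {h : S} (hh : h ∈ LL q β ω) :
    ∃ n', (q - 1) ∣ n' ∧ ε * β n * β ω * h = ε * β n' * β ω := by
  obtain ⟨N, hN, hN0⟩ := n9_LL_vl hq hβ hω hh
  obtain ⟨n', hn', hn'2⟩ := QM.concat hq hβ n N
  refine ⟨n', ?_, ?_⟩
  · have h1 := (Nat.modEq_zero_iff_dvd.mpr hn).add hN0
    exact Nat.modEq_zero_iff_dvd.mp (hn'2.trans h1)
  · rw [hn', hN, mul_assoc (ε * β n), t4_H_left hω (n9_LL_H hh)]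
    simp only [mul_assoc]
    rw [t4_H_right hω (n9_LL_H hh)]

end basic

/-! ### Prefixes -/

section prefix_

variable {S : Type*} [Monoid S] {q m : ℕ} {β : ℕ → S} {ω : ℕ}

theorem n9_prefix (hq : 2 ≤ q) (hβ : QM q m β) (hω : Core q β ω) {M : ℕ} (hM : M.Coprime q)
    (g ρ : ℕ) (hg : ρ ≡ g [MOD (q - 1)]) : ∃ V, β V = β g * β ω ∧ V ≡ ρ [MOD M] := by
  have hM1 := t4_cop_pos hq hM
  obtain ⟨l', hl', hll', _⟩ := t4_H_inv hq hβ hω (l := β ω * β 1 * β ω) ⟨1, rfl⟩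
  obtain ⟨y, rfl⟩ := hl'
  have hβq : β q = β 1 := by
    have := QM.pow_mul hq hβ 1 1
    rwa [pow_one, mul_one] at this
  have hstep : ∀ V t u, β V = β g * β ω → V ≡ t [MOD M] → β u = β 1 →
      ∃ V', β V' = β g * β ω ∧ V' ≡ t + (u + ω + y + ω) [MOD M] := by
    intro V t u hV hVt hu
    obtain ⟨V1, h1, h1'⟩ := t4_cat_mod hq hβ hM V u
    obtain ⟨V2, h2, h2'⟩ := t4_cat_mod hq hβ hM V1 ω
    obtain ⟨V3, h3, h3'⟩ := t4_cat_mod hq hβ hM V2 y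
    obtain ⟨V4, h4, h4'⟩ := t4_cat_mod hq hβ hM V3 ω
    refine ⟨V4, ?_, ?_⟩
    · rw [h4, h3, h2, h1, hV, hu]
      calc β g * β ω * β 1 * β ω * β y * β ω
          = β g * (β ω * β 1 * β ω * β y * β ω) := by simp only [mul_assoc]
        _ = β g * (β ω * β 1 * (β ω * β ω) * β y * β ω) := by rw [hω.idem]
        _ = β g * (β ω * β 1 * β ω * (β ω * β y * β ω)) := by simp only [mul_assoc]
        _ = β g * β ω := by rw [hll']
    · have e : t + (u + ω + y + ω) = t + u + ω + y + ω := by ring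
      rw [e]
      exact h4'.trans ((h3'.trans ((h2'.trans ((h1'.trans (hVt.add_right u)).add_right ω)).add_right
        y)).add_right ω)
  have h1 : ∀ J i, i ≤ J → ∃ V, β V = β g * β ω ∧
      V ≡ g + ω + J * (1 + ω + y + ω) + i * (q - 1) [MOD M] := by
    intro J
    induction J with
    | zero =>
      intro i hi
      obtain rfl : i = 0 := by omega
      obtain ⟨V, hV, hV2⟩ := t4_cat_mod hq hβ hM g ω
      exact ⟨V, hV, by simpa using hV2⟩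
    | succ J ih =>
      intro i hi
      rcases Nat.lt_or_ge i (J + 1) with h | h
      · obtain ⟨V, hV, hV2⟩ := ih i (by omega)
        obtain ⟨V', hV', hV2'⟩ := hstep V _ 1 hV hV2 rfl
        refine ⟨V', hV', ?_⟩
        have e : g + ω + (J + 1) * (1 + ω + y + ω) + i * (q - 1) =
            g + ω + J * (1 + ω + y + ω) + i * (q - 1) + (1 + ω + y + ω) := by ring
        rw [e]
        exact hV2'
      · obtain rfl : i = J + 1 := by omega
        obtain ⟨V, hV, hV2⟩ := ih J le_rfl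
        obtain ⟨V', hV', hV2'⟩ := hstep V _ q hV hV2 hβq
        refine ⟨V', hV', ?_⟩
        have e : g + ω + (J + 1) * (1 + ω + y + ω) + (J + 1) * (q - 1) =
            g + ω + J * (1 + ω + y + ω) + J * (q - 1) + ((1 + (q - 1)) + ω + y + ω) := by ring
        rw [e, show 1 + (q - 1) = q by omega]
        exact hV2'
  obtain ⟨ρ', hρ'⟩ : ∃ ρ', ρ' = ρ + (q - 1) * M * (g + ω) := ⟨_, rfl⟩
  have hle : g + ω ≤ ρ' := by
    have : 1 * (g + ω) ≤ (q - 1) * M * (g + ω) :=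
      Nat.mul_le_mul_right _ (Nat.mul_pos (by omega) hM1)
    omega
  have hρM : ρ' ≡ ρ [MOD M] := by
    rw [hρ']
    have : (q - 1) * M * (g + ω) ≡ 0 [MOD M] :=
      Nat.modEq_zero_iff_dvd.mpr (Dvd.dvd.mul_right (Dvd.intro_left _ rfl) _)
    have := this.add_left ρ
    rwa [add_zero] at this
  have hρq : g + ω ≡ ρ' [MOD (q - 1)] := by
    rw [hρ']
    have h2 : (q - 1) * M * (g + ω) ≡ 0 [MOD (q - 1)] :=
      Nat.modEq_zero_iff_dvd.mpr (Dvd.dvd.mul_right (Dvd.intro _ rfl) _)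
    have h3 := (hg.add h2).symm
    exact (Nat.ModEq.add_left g (t4_omega hq hβ hω)).trans h3
  obtain ⟨i, hi⟩ := (Nat.modEq_iff_dvd' hle).mp hρq
  obtain ⟨V, hV, hV2⟩ := h1 (M * i) i (by
    have : 1 * i ≤ M * i := Nat.mul_le_mul_right _ hM1
    omega)
  refine ⟨V, hV, hV2.trans (Nat.ModEq.trans ?_ hρM)⟩
  have e : g + ω + M * i * (1 + ω + y + ω) + i * (q - 1) =
      ρ' + M * (i * (1 + ω + y + ω)) := by
    have : ρ' = g + ω + (q - 1) * i := by omega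
    rw [this]
    ring
  rw [e]
  have h4 : M * (i * (1 + ω + y + ω)) ≡ 0 [MOD M] :=
    Nat.modEq_zero_iff_dvd.mpr (Dvd.intro _ rfl)
  have := h4.add_left ρ'
  rwa [add_zero] at this

end prefix_

/-! ### The two words -/

section words

variable {S : Type*} [Monoid S] {q m : ℕ} {β : ℕ → S} {ω : ℕ}

/-- the constant -/
def n9_K (q m ω : ℕ) : ℕ := q ^ m * (q ^ (2 * (ω + m)) * (q - 1) + ω + 1) + 1

theorem n9_gen (hq : 2 ≤ q) (hβ : QM q m β) (hω : Core q β ω) {r : ℕ} (hr : r.Coprime q)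
    (hrd : (q - 1) ∣ r) {n : ℕ} {l : S}
    (hl : β ω * β (n + (q - 1)) * β ω = (β ω * β n * β ω) * (β ω * β (q - 1) * β ω) * l)
    (hlH : l ∈ t4_H β ω) {nx : ℕ} (hnx : (q - 1) ∣ nx) :
    ∃ w₁ w₂ s, β (r * w₁) = β nx * β ω * l * β s ∧ β (r * w₂) = β nx * β ω * β s ∧
      w₁ ≡ w₂ [MOD (q - 1)] ∧ ∀ p, n9_K q m ω * p ≤ r → β (p * w₁) = β (p * w₂) := by
  have hq1 : 1 < q := by omega
  have hqpos : ∀ k, 0 < q ^ k := fun k => Nat.pow_pos (by omega)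
  have hωq : ω < q ^ ω := Nat.lt_pow_self hq1
  have h3 : 2 * ω + m + m = 2 * (ω + m) := by ring
  obtain ⟨D, hD⟩ : ∃ D, D = q ^ (2 * (ω + m)) := ⟨_, rfl⟩
  obtain ⟨b, hb⟩ : ∃ b, b = D * (q - 1) + ω := ⟨_, rfl⟩
  obtain ⟨n', hn'⟩ : ∃ n', n' = D * n + q ^ (ω + m) * ω := ⟨_, rfl⟩
  have hlow : q ^ (ω + m) * ω + ω < q ^ (2 * ω + m) := by
    have e1 : q ^ (2 * ω + m) = q ^ (ω + m) * q ^ ω := by rw [← pow_add]; congr 1; ring
    have e2 : q ^ (ω + m) * (ω + 1) ≤ q ^ (ω + m) * q ^ ω := Nat.mul_le_mul_left _ hωq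
    have e3 : q ^ ω ≤ q ^ (ω + m) := Nat.pow_le_pow_right (by omega) (by omega)
    rw [e1]
    rw [Nat.mul_add, Nat.mul_one] at e2
    omega
  have hβn' : β n' = β n * β ω := by
    have h2 := hβ.gap (2 * ω + m) n (q ^ (ω + m) * ω) (by omega)
    rw [h3, QM.pow_mul hq hβ] at h2
    rw [hn', hD, h2]
  have hβb : β b = β (q - 1) * β ω := by
    have h2 := hβ.gap (2 * ω + m) (q - 1) ω (by omega)
    rw [h3] at h2
    rw [hb, hD, h2]
  have hβnb : β (n' + b) = β (n + (q - 1)) * β ω := by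
    have h0 : β (q ^ (ω + m) * ω + ω) = β ω := by rw [hβ.gap ω ω ω hωq, hω.idem]
    have h2 := hβ.gap (2 * ω + m) (n + (q - 1)) (q ^ (ω + m) * ω + ω) hlow
    have h4 : n' + b = q ^ (2 * ω + m + m) * (n + (q - 1)) + (q ^ (ω + m) * ω + ω) := by
      rw [h3, hn', hb, hD]
      ring
    rw [h4, h2, h0]
  -- the inverse of `ψ n * ψ (q - 1)`
  have hψ : (β ω * β n * β ω) * (β ω * β (q - 1) * β ω) ∈ t4_H β ω :=
    t4_H_mul hq hβ hω ⟨n, rfl⟩ ⟨q - 1, rfl⟩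
  obtain ⟨u, huH, hu1, hu2⟩ := t4_H_inv hq hβ hω hψ
  obtain ⟨g, hg⟩ : β nx * β ω * u ∈ Set.range β :=
    t4_rng_mul hq hβ (t4_rng_mul hq hβ (t4_rng _) (t4_rng _)) (t4_H_rng hq hβ huH)
  have hr1 : 1 ≤ r := t4_cop_pos hq hr
  -- the residue of `g`
  have hω0 := t4_omega hq hβ hω
  have hgn : g + n' ≡ 0 [MOD (q - 1)] := by
    obtain ⟨k, hk⟩ := t4_H_rng hq hβ huH
    have hb0 : ∀ n, t4_Vl q β (β n) n := fun n => t4_vl_base n
    have e1 := t4_vl_mul hq hβ (t4_vl_mul hq hβ (hb0 nx) (hb0 ω)) (hb0 k)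
    rw [hk, ← hg] at e1
    have e2 : g ≡ nx + ω + k [MOD (q - 1)] := t4_vl_unique hω (hb0 g) e1
    have e3 := t4_vl_mul hq hβ (hb0 k) (t4_vl_mul hq hβ
      (t4_vl_mul hq hβ (t4_vl_mul hq hβ (hb0 ω) (hb0 n)) (hb0 ω))
      (t4_vl_mul hq hβ (t4_vl_mul hq hβ (hb0 ω) (hb0 (q - 1))) (hb0 ω)))
    rw [hk, hu2] at e3
    have e4 := t4_vl_unique hω e3 (hb0 ω)
    have e5 : k + (ω + n + ω + (ω + (q - 1) + ω)) ≡ k + (0 + n + 0 + (0 + 0 + 0))
        [MOD (q - 1)] := by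
      refine Nat.ModEq.add_left k (((hω0.add_right n).add hω0).add ((hω0.add ?_).add hω0))
      exact Nat.modEq_zero_iff_dvd.mpr dvd_rfl
    have e6 : k + n ≡ 0 [MOD (q - 1)] := by
      have := e5.symm.trans (e4.trans hω0)
      simpa using this
    have e7 : n' ≡ n [MOD (q - 1)] := by
      rw [hn', hD]
      have f1 := ((n9_qmod hq (2 * (ω + m))).mul_right n).add
        (hω0.mul_left (q ^ (ω + m)))
      simpa using f1
    have e8 : nx + ω + (k + n) ≡ 0 + 0 + 0 [MOD (q - 1)] :=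
      ((Nat.modEq_zero_iff_dvd.mpr hnx).add hω0).add e6
    rw [← add_assoc] at e8
    exact (e2.add e7).trans e8
  have hρg : (r - 1) * n' ≡ g [MOD (q - 1)] := by
    have e1 : (r - 1) * n' + n' = r * n' := by
      obtain ⟨r', rfl⟩ : ∃ r', r = r' + 1 := ⟨r - 1, by omega⟩
      rw [Nat.add_sub_cancel]
      ring
    have e2 : r * n' ≡ 0 [MOD (q - 1)] :=
      Nat.modEq_zero_iff_dvd.mpr (Dvd.dvd.mul_right hrd _)
    have e3 : (r - 1) * n' + n' ≡ g + n' [MOD (q - 1)] := by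
      rw [e1]
      exact e2.trans hgn.symm
    exact Nat.ModEq.add_right_cancel' _ e3
  obtain ⟨V, hV, hVr⟩ := n9_prefix hq hβ hω hr g ((r - 1) * n') hρg
  have hV' : β V = β nx * β ω * u := by
    rw [hV, hg, mul_assoc, t4_H_right hω huH]
  obtain ⟨A, hA⟩ : ∃ A, (n' + b + m) * r.totient = A + m := by
    refine ⟨(n' + b + m) * r.totient - m, ?_⟩
    have : (n' + b + m) * 1 ≤ (n' + b + m) * r.totient :=
      Nat.mul_le_mul_left _ (Nat.totient_pos.mpr hr1)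
    omega
  have hA2 : n' + b ≤ A := by
    have : (n' + b + m) * 1 ≤ (n' + b + m) * r.totient :=
      Nat.mul_le_mul_left _ (Nat.totient_pos.mpr hr1)
    omega
  have hnbA : n' + b < q ^ A := lt_of_lt_of_le (Nat.lt_pow_self hq1)
    (Nat.pow_le_pow_right (by omega) hA2)
  have hmodA : q ^ (A + m) ≡ 1 [MOD r] := t4_pow_mod hr (hA ▸ Dvd.intro_left _ rfl)
  obtain ⟨z, hz⟩ : ∃ z, q ^ (A + m) * V + n' = r * z := by
    have e1 : q ^ (A + m) * V + n' ≡ 1 * ((r - 1) * n') + n' [MOD r] :=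
      (hmodA.mul hVr).add_right n'
    have e2 : 1 * ((r - 1) * n') + n' = r * n' := by
      obtain ⟨r', rfl⟩ : ∃ r', r = r' + 1 := ⟨r - 1, by omega⟩
      rw [Nat.add_sub_cancel]
      ring
    rw [e2] at e1
    have e3 : r * n' ≡ 0 [MOD r] := Nat.modEq_zero_iff_dvd.mpr (Dvd.intro _ rfl)
    exact (Nat.modEq_zero_iff_dvd.mp (e1.trans e3))
  have hβrz : β (r * z) = β nx * β ω * u * (β n * β ω) := by
    rw [← hz, hβ.gap A V n' (by omega), hV', hβn']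
  have hβrzb : β (r * z + b) = β nx * β ω * l := by
    have e1 : r * z + b = q ^ (A + m) * V + (n' + b) := by rw [← hz]; ring
    rw [e1, hβ.gap A V _ hnbA, hV', hβnb]
    calc β nx * β ω * u * (β (n + (q - 1)) * β ω)
        = β nx * β ω * (u * (β ω * β (n + (q - 1)) * β ω)) := by
          simp only [mul_assoc]
          rw [← mul_assoc u (β ω), t4_H_right hω huH]
      _ = β nx * β ω * (u * ((β ω * β n * β ω) * (β ω * β (q - 1) * β ω)) * l) := by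
          rw [hl]
          simp only [mul_assoc]
      _ = β nx * β ω * l := by
          rw [hu2, t4_H_left hω hlH]
  -- the points
  obtain ⟨s, x₀, hs, hx₀⟩ : ∃ s x₀, s ≤ r ∧ r * x₀ = q ^ (r + m) * b + s := by
    refine ⟨r - (q ^ (r + m) * b) % r, (q ^ (r + m) * b) / r + 1, Nat.sub_le _ _, ?_⟩
    have e1 := Nat.div_add_mod (q ^ (r + m) * b) r
    have e2 := Nat.mod_lt (q ^ (r + m) * b) hr1
    rw [Nat.mul_add, Nat.mul_one]
    omega
  have hsr : s < q ^ r := lt_of_le_of_lt hs (Nat.lt_pow_self hq1)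
  refine ⟨x₀ + q ^ (r + m) * z, x₀ + q ^ (r + m + (b + m)) * z, s, ?_, ?_, ?_, ?_⟩
  · have e1 : r * (x₀ + q ^ (r + m) * z) = q ^ (r + m) * (r * z + b) + s := by
      rw [Nat.mul_add, hx₀]
      ring
    rw [e1, hβ.gap r _ s hsr, hβrzb]
  · have e1 : r * (x₀ + q ^ (r + m + (b + m)) * z) =
        q ^ (r + m + b + m) * (r * z) + (q ^ (r + m) * b + s) := by
      rw [Nat.mul_add, hx₀]
      ring
    have e2 : q ^ (r + m) * b + s < q ^ (r + m + b) := by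
      have f1 : q ^ (r + m + b) = q ^ (r + m) * q ^ b := by rw [pow_add]
      have f2 : b + 1 ≤ q ^ b := Nat.lt_pow_self hq1
      have f3 : q ^ (r + m) * (b + 1) ≤ q ^ (r + m) * q ^ b := Nat.mul_le_mul_left _ f2
      have f4 : q ^ r ≤ q ^ (r + m) := Nat.pow_le_pow_right (by omega) (by omega)
      rw [Nat.mul_add, Nat.mul_one] at f3
      omega
    rw [e1, hβ.gap (r + m + b) _ _ e2, hβ.gap r b s hsr, hβrz, hβb]
    calc β nx * β ω * u * (β n * β ω) * (β (q - 1) * β ω * β s)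
        = β nx * β ω * (u * ((β ω * β n * β ω) * (β ω * β (q - 1) * β ω))) * β s := by
          simp only [mul_assoc]
          rw [← mul_assoc u (β ω), t4_H_right hω huH, t4_EE hω]
      _ = β nx * β ω * β s := by
          rw [hu2, mul_assoc (β nx), hω.idem]
  · exact Nat.ModEq.add_left _ (((n9_qmod hq _).trans (n9_qmod hq _).symm).mul_right z)
  · intro p hp
    have e1 : p * x₀ < q ^ r := by
      have f1 : n9_K q m ω * (p * x₀) ≤ q ^ (r + m) * b + s := by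
        rw [← hx₀, ← mul_assoc]
        exact Nat.mul_le_mul_right _ hp
      have f2 : n9_K q m ω * q ^ r = q ^ (r + m) * (b + 1) + q ^ r := by
        unfold n9_K
        rw [← hD, ← hb]
        ring
      have f4 : q ^ r ≤ q ^ (r + m) := Nat.pow_le_pow_right (by omega) (by omega)
      by_contra hcon
      have f3 : n9_K q m ω * q ^ r ≤ n9_K q m ω * (p * x₀) :=
        Nat.mul_le_mul_left _ (by omega)
      rw [f2, Nat.mul_add, Nat.mul_one] at f3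
      omega
    have e2 : p * x₀ < q ^ (r + m + b) := lt_of_lt_of_le e1
      (Nat.pow_le_pow_right (by omega) (by omega))
    have e3 : p * (x₀ + q ^ (r + m) * z) = q ^ (r + m) * (p * z) + p * x₀ := by ring
    have e4 : p * (x₀ + q ^ (r + m + (b + m)) * z) =
        q ^ (r + m + b + m) * (p * z) + p * x₀ := by ring
    rw [e3, e4, hβ.gap r _ _ e1, hβ.gap _ _ _ e2]

end words

/-! ### Group theory -/

section group

variable {S : Type*} [Monoid S] {q m : ℕ} {β : ℕ → S} {ω : ℕ}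

theorem n9_LL_sub [Finite S] (hq : 2 ≤ q) (hβ : QM q m β) (hω : Core q β ω) {R : Set S}
    (hE : β ω ∈ R) (hRL : R ⊆ LL q β ω) (hmul : ∀ l ∈ R, ∀ l' ∈ R, l * l' ∈ R)
    (hgen : ∀ n, ∀ l ∈ LL q β ω, β ω * β (n + (q - 1)) * β ω =
      (β ω * β n * β ω) * (β ω * β (q - 1) * β ω) * l → l ∈ R) : LL q β ω ⊆ R := by
  obtain ⟨τ, hτ⟩ : ∃ τ, τ = β ω * β (q - 1) * β ω := ⟨_, rfl⟩
  have hτL : τ ∈ LL q β ω := ⟨q - 1, dvd_rfl, hτ⟩
  obtain ⟨τ', hτ'L, hττ', hτ'τ⟩ := LL_inv hq hβ hω hτL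
  have hpow : ∀ l ∈ R, ∀ k, l ^ (k + 1) ∈ R := by
    intro l hl k
    induction k with
    | zero => rw [zero_add, pow_one]; exact hl
    | succ k ih => rw [pow_succ]; exact hmul _ ih _ hl
  obtain ⟨M, hM1, _, hM⟩ := exists_exp hq hβ hω
  have hτ'R : τ' ∈ R := by
    apply hgen 1 τ' hτ'L
    have hβq : β (1 + (q - 1)) = β 1 := by
      have := QM.pow_mul hq hβ 1 1
      rwa [pow_one, mul_one, show q = 1 + (q - 1) by omega] at this
    rw [hβq, ← hτ, mul_assoc _ τ, hττ', mul_assoc (β ω * β 1), hω.idem]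
  have hτR : τ ∈ R := by
    have e2 : τ' ^ M = β ω := by
      obtain ⟨x, hx⟩ := n9_LL_H hτ'L
      rw [hx]
      exact hM x
    obtain ⟨M', hM'⟩ : ∃ M', M = M' + 1 := ⟨M - 1, by omega⟩
    have e3 : τ' * τ' ^ (M' + M' + 1) = β ω := by
      rw [← pow_succ', show M' + M' + 1 + 1 = M + M by omega, pow_add, e2, hω.idem]
    have e4 : τ = τ' ^ (M' + M' + 1) := by
      calc τ = τ * β ω := (LL_right hω hτL).symm
        _ = τ * τ' * τ' ^ (M' + M' + 1) := by rw [← e3, mul_assoc]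
        _ = τ' ^ (M' + M' + 1) := by
            rw [hττ', LL_left hω (hRL (hpow τ' hτ'R _))]
    rw [e4]
    exact hpow τ' hτ'R _
  have ha : ∀ j, β ω * β ((q - 1) * j) * β ω ∈ R := by
    intro j
    induction j with
    | zero =>
      rw [Nat.mul_zero, hβ.one, mul_one, hω.idem]
      exact hE
    | succ j ih =>
      have hψ : (β ω * β ((q - 1) * j) * β ω) * τ ∈ LL q β ω :=
        LL_mul hq hβ hω (hRL ih) hτL
      obtain ⟨u, huL, hu1, hu2⟩ := LL_inv hq hβ hω hψ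
      have hψ1 : β ω * β ((q - 1) * (j + 1)) * β ω ∈ LL q β ω :=
        ⟨_, Dvd.intro _ rfl, rfl⟩
      have hl'L : u * (β ω * β ((q - 1) * (j + 1)) * β ω) ∈ LL q β ω :=
        LL_mul hq hβ hω huL hψ1
      have hl' : β ω * β ((q - 1) * (j + 1)) * β ω = (β ω * β ((q - 1) * j) * β ω) * τ *
          (u * (β ω * β ((q - 1) * (j + 1)) * β ω)) := by
        rw [← mul_assoc _ u, hu1, LL_left hω hψ1]
      have hl'R := hgen ((q - 1) * j) _ hl'L (by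
        rw [← Nat.mul_succ, ← hτ]
        exact hl')
      rw [hl']
      exact hmul _ (hmul _ ih _ hτR) _ hl'R
  rintro y ⟨x, ⟨k, rfl⟩, rfl⟩
  exact ha k

end group

/-! ### The pair of the two sides -/

section pair

variable {S : Type*} [Monoid S] {q m : ℕ} {β : ℕ → S} {ω : ℕ}

/-- the two sides together, with the residue of the argument -/
def n9_B (q : ℕ) (β : ℕ → S) (p r x : ℕ) : (S × S) × Multiplicative (ZMod (q - 1)) :=
  (t4_B β p r x, Multiplicative.ofAdd (x : ZMod (q - 1)))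

theorem n9_B_qm (hq : 2 ≤ q) (hβ : QM q m β) (p r : ℕ) :
    QM q (m + (p + r)) (n9_B q β p r) := by
  have h0 := t4_B_qm hq hβ p r
  constructor
  · unfold n9_B
    rw [h0.one, Nat.cast_zero]
    rfl
  · intro a y s hs
    unfold n9_B
    rw [h0.gap a y s hs]
    have h1 : ((q ^ (a + (m + (p + r))) * y + s : ℕ) : ZMod (q - 1)) = (y : ZMod (q - 1)) + s := by
      have h2 : q ^ (a + (m + (p + r))) * y + s ≡ 1 * y + s [MOD (q - 1)] :=
        ((n9_qmod hq _).mul_right y).add_right s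
      have h3 := (ZMod.natCast_eq_natCast_iff _ _ _).mpr h2
      rw [h3]
      push_cast
      ring
    rw [h1]
    rfl

/-- everything we need about `ε = (β (p δ), β (r δ))` -/
structure n9_Ctx (q : ℕ) (β : ℕ → S) (ω p r δ M₃ : ℕ) : Prop where
  pos : 1 ≤ δ
  dvd : (q - 1) ∣ δ
  id1 : β (p * δ) * β (p * δ) = β (p * δ)
  id2 : β (r * δ) * β (r * δ) = β (r * δ)
  ex1 : ∀ n, (β (p * δ) * β (p * n) * β (p * δ)) ^ (M₃ + 1) = β (p * δ)
  ex2 : ∀ n, (β (r * δ) * β (r * n) * β (r * δ)) ^ (M₃ + 1) = β (r * δ)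
  fac1 : ∃ A B, B ∈ Set.range β ∧ β (p * δ) = A * β ω * B
  fac2 : ∃ A B, B ∈ Set.range β ∧ β (r * δ) = A * β ω * B
  cat : ∀ v v', ∃ w, v ≤ w ∧ w ≡ v + v' [MOD (q - 1)] ∧ β (p * w) = β (p * v) * β (p * v') ∧
    β (r * w) = β (r * v) * β (r * v')
  word : ∀ w₁ w₂, w₁ ≡ w₂ [MOD (q - 1)] → ∃ v, (q - 1) ∣ v ∧
    β (p * v) = β (p * δ) * β (p * w₁) * β (p * δ) *
      (β (p * δ) * β (p * w₂) * β (p * δ)) ^ M₃ ∧
    β (r * v) = β (r * δ) * β (r * w₁) * β (r * δ) *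
      (β (r * δ) * β (r * w₂) * β (r * δ)) ^ M₃

theorem n9_zero_word (hq : 2 ≤ q) (hβ : QM q m β) (hω : Core q β ω) {p : ℕ}
    (hpq : p.Coprime q) : ∃ x, β (p * x) = β ω := by
  obtain ⟨V, hV, hV2⟩ := n9_prefix hq hβ hω hpq 0 0 rfl
  obtain ⟨x, rfl⟩ := Nat.modEq_zero_iff_dvd.mp hV2
  exact ⟨x, by rw [hV, hβ.one, one_mul]⟩

theorem n9_ctx [Finite S] (hq : 2 ≤ q) (hβ : QM q m β) (hω : Core q β ω) {p r : ℕ}
    (hpq : p.Coprime q) (hrq : r.Coprime q) :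
    ∃ δ M₃, n9_Ctx q β ω p r δ M₃ ∧ ∀ l ∈ LL q β ω, l ^ (M₃ + 1) = β ω := by
  have hB := n9_B_qm hq hβ p r
  have hval : ∀ n n', n9_B q β p r n = n9_B q β p r n' → n ≡ n' [MOD (q - 1)] := by
    intro n n' h
    have h1 := congrArg Prod.snd h
    exact (ZMod.natCast_eq_natCast_iff _ _ _).mp (Multiplicative.ofAdd.injective h1)
  have : NeZero (q - 1) := ⟨by omega⟩
  have : Finite (Multiplicative (ZMod (q - 1))) := inferInstanceAs (Finite (ZMod (q - 1)))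
  obtain ⟨δ, hδ⟩ := exists_core hq hB hval
  obtain ⟨M, hM1, hMd, hM⟩ := exists_exp hq hB hδ
  obtain ⟨M₀, hM₀1, _, hM₀⟩ := exists_exp hq hβ hω
  have hδd : (q - 1) ∣ δ := Nat.modEq_zero_iff_dvd.mp (t4_omega hq hB hδ)
  have hid1 : β (p * δ) * β (p * δ) = β (p * δ) :=
    congrArg (fun x => x.1.1) hδ.idem
  have hid2 : β (r * δ) * β (r * δ) = β (r * δ) :=
    congrArg (fun x => x.1.2) hδ.idem
  have hpw : ∀ {x : S}, x * x = x → ∀ k, x ^ (k + 1) = x := by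
    intro x hx k
    induction k with
    | zero => rw [zero_add, pow_one]
    | succ k ih => rw [pow_succ, ih, hx]
  obtain ⟨M₃, hM₃⟩ : ∃ M₃, M * M₀ = M₃ + 1 :=
    ⟨M * M₀ - 1, by have := Nat.mul_pos hM1 hM₀1; omega⟩
  obtain ⟨k₀, rfl⟩ : ∃ k₀, M₀ = k₀ + 1 := ⟨M₀ - 1, by omega⟩
  have hex1 : ∀ n, (β (p * δ) * β (p * n) * β (p * δ)) ^ (M₃ + 1) = β (p * δ) := by
    intro n
    have := congrArg (fun x => x.1.1) (hM n)
    simp only [Prod.pow_fst] at this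
    have h2 : (β (p * δ) * β (p * n) * β (p * δ)) ^ M = β (p * δ) := this
    rw [← hM₃, pow_mul, h2, hpw hid1]
  have hex2 : ∀ n, (β (r * δ) * β (r * n) * β (r * δ)) ^ (M₃ + 1) = β (r * δ) := by
    intro n
    have := congrArg (fun x => x.1.2) (hM n)
    simp only [Prod.pow_fst, Prod.pow_snd] at this
    have h2 : (β (r * δ) * β (r * n) * β (r * δ)) ^ M = β (r * δ) := this
    rw [← hM₃, pow_mul, h2, hpw hid2]
  have hcat : ∀ v v', ∃ w, v ≤ w ∧ w ≡ v + v' [MOD (q - 1)] ∧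
      β (p * w) = β (p * v) * β (p * v') ∧ β (r * w) = β (r * v) * β (r * v') := by
    intro v v'
    have h1 := hB.gap v' v v' (Nat.lt_pow_self (by omega))
    refine ⟨q ^ (v' + (m + (p + r))) * v + v', ?_, ?_, congrArg (fun x => x.1.1) h1,
      congrArg (fun x => x.1.2) h1⟩
    · have h2 : 1 * v ≤ q ^ (v' + (m + (p + r))) * v :=
        Nat.mul_le_mul_right _ (Nat.one_le_pow _ _ (by omega))
      omega
    · have h2 := ((n9_qmod hq (v' + (m + (p + r)))).mul_right v).add_right v'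
      rwa [one_mul] at h2
  obtain ⟨x₁, hx₁⟩ := n9_zero_word hq hβ hω hpq
  obtain ⟨x₂, hx₂⟩ := n9_zero_word hq hβ hω hrq
  obtain ⟨x, _, _, hx1, hx2⟩ := hcat x₁ x₂
  rw [hx₁] at hx1
  rw [hx₂] at hx2
  refine ⟨δ, M₃, ⟨hδ.pos, hδd, hid1, hid2, hex1, hex2, ?_, ?_, hcat, ?_⟩, ?_⟩
  · have h1 := hex1 x
    rw [hx1, pow_succ'] at h1
    refine ⟨β (p * δ), β (p * x₂) * β (p * δ) *
      (β (p * δ) * (β ω * β (p * x₂)) * β (p * δ)) ^ M₃, ?_, ?_⟩
    · refine t4_rng_mul hq hβ (t4_rng_mul hq hβ (t4_rng _) (t4_rng _)) (t4_rng_pow hq hβ ?_ _)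
      exact t4_rng_mul hq hβ (t4_rng_mul hq hβ (t4_rng _)
        (t4_rng_mul hq hβ (t4_rng _) (t4_rng _))) (t4_rng _)
    · refine h1.symm.trans ?_
      simp only [mul_assoc]
  · have h1 := hex2 x
    rw [hx2, pow_succ'] at h1
    refine ⟨β (r * δ) * β (r * x₁), β (r * δ) *
      (β (r * δ) * (β (r * x₁) * β ω) * β (r * δ)) ^ M₃, ?_, ?_⟩
    · refine t4_rng_mul hq hβ (t4_rng _) (t4_rng_pow hq hβ ?_ _)
      exact t4_rng_mul hq hβ (t4_rng_mul hq hβ (t4_rng _)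
        (t4_rng_mul hq hβ (t4_rng _) (t4_rng _))) (t4_rng _)
    · refine h1.symm.trans ?_
      simp only [mul_assoc]
  · intro w₁ w₂ hw
    have hb : ∀ n, t4_Vl q (n9_B q β p r) (n9_B q β p r n) n := fun n => t4_vl_base n
    have h1 := t4_vl_mul hq hB (t4_vl_mul hq hB (t4_vl_mul hq hB (hb δ) (hb w₁)) (hb δ))
      (t4_vl_pow hq hB (t4_vl_mul hq hB (t4_vl_mul hq hB (hb δ) (hb w₂)) (hb δ)) M₃)
    obtain ⟨v, hv, hv2⟩ := h1
    have hv1 := congrArg (fun x => x.1.1) hv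
    have hv3 := congrArg (fun x => x.1.2) hv
    refine ⟨v, ?_, ?_, ?_⟩
    · have e1 : δ + w₁ + δ + M₃ * (δ + w₂ + δ) ≡ δ + w₂ + δ + M₃ * (δ + w₂ + δ)
          [MOD (q - 1)] := ((hw.add_left δ).add_right δ).add_right _
      have e2 : δ + w₂ + δ + M₃ * (δ + w₂ + δ) = (M₃ + 1) * (δ + w₂ + δ) := by ring
      rw [e2, ← hM₃] at e1
      have e3 : M * (k₀ + 1) * (δ + w₂ + δ) ≡ 0 [MOD (q - 1)] :=
        Nat.modEq_zero_iff_dvd.mpr (Dvd.dvd.mul_right (Dvd.dvd.mul_right hMd _) _)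
      exact Nat.modEq_zero_iff_dvd.mp ((hv2.trans e1).trans e3)
    · simp only [Prod.fst_mul, Prod.pow_fst] at hv1
      exact hv1
    · simp only [Prod.fst_mul, Prod.snd_mul, Prod.pow_fst, Prod.pow_snd] at hv3
      exact hv3
  · rintro l ⟨x, _, rfl⟩
    rw [← hM₃, mul_comm M, pow_mul, hM₀ x]
    obtain ⟨k, rfl⟩ : ∃ k, M = k + 1 := ⟨M - 1, by omega⟩
    exact hpw hω.idem k

/-- moving the second side alone -/
def n9_R2 (q : ℕ) (β : ℕ → S) (ω p r δ : ℕ) : Set S :=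
  {l | l ∈ LL q β ω ∧ ∀ n, (q - 1) ∣ n → ∃ v, (q - 1) ∣ v ∧ β (p * v) = β (p * δ) ∧
    β (r * v) * (β (r * δ) * β n * β ω) = β (r * δ) * β n * β ω * l}

theorem n9_LL_R2 [Finite S] (hq : 2 ≤ q) (hβ : QM q m β) (hω : Core q β ω) {p r δ M₃ : ℕ}
    (hrq : r.Coprime q) (hrd : (q - 1) ∣ r) (hpr : n9_K q m ω * p ≤ r)
    (C : n9_Ctx q β ω p r δ M₃) : LL q β ω ⊆ n9_R2 q β ω p r δ := by
  apply n9_LL_sub hq hβ hω
  · refine ⟨LL_one hβ hω, fun n _ => ⟨δ, C.dvd, rfl, ?_⟩⟩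
    rw [mul_assoc (β (r * δ) * β n), hω.idem]
    simp only [← mul_assoc]
    rw [C.id2]
  · exact fun l hl => hl.1
  · rintro l ⟨hl, h1⟩ l' ⟨hl', h2⟩
    refine ⟨LL_mul hq hβ hω hl hl', fun n hn => ?_⟩
    obtain ⟨v, hvd, hv1, hv2⟩ := h1 n hn
    obtain ⟨n', hn'd, hn'⟩ := n9_shift hq hβ hω (β (r * δ)) hn hl
    obtain ⟨v', hvd', hv1', hv2'⟩ := h2 n' hn'd
    obtain ⟨w, _, hwd, hw1, hw2⟩ := C.cat v' v
    refine ⟨w, ?_, ?_, ?_⟩
    · have e1 : v' + v ≡ 0 + 0 [MOD (q - 1)] :=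
        (Nat.modEq_zero_iff_dvd.mpr hvd').add (Nat.modEq_zero_iff_dvd.mpr hvd)
      exact Nat.modEq_zero_iff_dvd.mp (hwd.trans e1)
    · rw [hw1, hv1, hv1', C.id1]
    · rw [hw2, mul_assoc, hv2, hn', hv2', ← hn', mul_assoc]
  · intro n l hl hgen
    refine ⟨hl, fun nx hnx => ?_⟩
    obtain ⟨w₁, w₂, s, hw1, hw2, hmod, hK⟩ :=
      n9_gen hq hβ hω hrq hrd hgen (n9_LL_H hl) hnx
    obtain ⟨v, hvd, hv1, hv2⟩ := C.word w₁ w₂ hmod
    refine ⟨v, hvd, ?_, ?_⟩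
    · rw [hv1, hK p hpr, ← pow_succ', C.ex1]
    · have hG := C.ex2 w₂
      rw [hw2] at hG
      rw [hw1, hw2] at hv2
      exact t4_coord hq hβ hω (t4_rng _) C.id2 (n9_LL_H hl) hG hv2

/-- moving the first side alone -/
def n9_R1 (q : ℕ) (β : ℕ → S) (ω p r δ : ℕ) : Set S :=
  {l | l ∈ LL q β ω ∧ ∀ n n', (q - 1) ∣ n → (q - 1) ∣ n' → ∃ v, (q - 1) ∣ v ∧
    β (p * v) * (β (p * δ) * β n * β ω) = β (p * δ) * β n * β ω * l ∧
    β (r * v) * (β (r * δ) * β n' * β ω) = β (r * δ) * β n' * β ω}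

theorem n9_LL_R1 [Finite S] (hq : 2 ≤ q) (hβ : QM q m β) (hω : Core q β ω) {p r δ M₃ : ℕ}
    (hpq : p.Coprime q) (hpd : (q - 1) ∣ p)
    (hrq : r.Coprime q) (hrd : (q - 1) ∣ r) (hpr : n9_K q m ω * p ≤ r)
    (C : n9_Ctx q β ω p r δ M₃) : LL q β ω ⊆ n9_R1 q β ω p r δ := by
  apply n9_LL_sub hq hβ hω
  · refine ⟨LL_one hβ hω, fun n n' _ _ => ⟨δ, C.dvd, ?_, ?_⟩⟩
    · rw [mul_assoc (β (p * δ) * β n), hω.idem]
      simp only [← mul_assoc]
      rw [C.id1]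
    · simp only [← mul_assoc]
      rw [C.id2]
  · exact fun l hl => hl.1
  · rintro l ⟨hl, h1⟩ l' ⟨hl', h2⟩
    refine ⟨LL_mul hq hβ hω hl hl', fun n n' hn hn' => ?_⟩
    obtain ⟨v, hvd, hv1, hv2⟩ := h1 n n' hn hn'
    obtain ⟨n'', hn''d, hn''⟩ := n9_shift hq hβ hω (β (p * δ)) hn hl
    obtain ⟨v', hvd', hv1', hv2'⟩ := h2 n'' n' hn''d hn'
    obtain ⟨w, _, hwd, hw1, hw2⟩ := C.cat v' v
    refine ⟨w, ?_, ?_, ?_⟩
    · have e1 : v' + v ≡ 0 + 0 [MOD (q - 1)] :=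
        (Nat.modEq_zero_iff_dvd.mpr hvd').add (Nat.modEq_zero_iff_dvd.mpr hvd)
      exact Nat.modEq_zero_iff_dvd.mp (hwd.trans e1)
    · rw [hw1, mul_assoc, hv1, hn'', hv1', ← hn'', mul_assoc]
    · rw [hw2, mul_assoc, hv2, hv2']
  · intro n₀ l hl hgen
    refine ⟨hl, fun nx nx' hnx hnx' => ?_⟩
    obtain ⟨w₁, w₂, s, hw1, hw2, hmod, _⟩ :=
      n9_gen hq hβ hω hpq hpd hgen (n9_LL_H hl) hnx
    obtain ⟨v, hvd, hv1, hv2⟩ := C.word w₁ w₂ hmod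
    have hx : β (p * v) * (β (p * δ) * β nx * β ω) = β (p * δ) * β nx * β ω * l := by
      have hG := C.ex1 w₂
      rw [hw2] at hG
      rw [hw1, hw2] at hv1
      exact t4_coord hq hβ hω (t4_rng _) C.id1 (n9_LL_H hl) hG hv1
    -- the second side
    obtain ⟨A, B, hB, hAB⟩ := C.fac2
    obtain ⟨n₂, hn₂⟩ : β (r * w₁) * β (r * δ) *
        (β (r * δ) * β (r * w₂) * β (r * δ)) ^ M₃ * (β (r * δ) * β nx') ∈ Set.range β := by
      refine t4_rng_mul hq hβ (t4_rng_mul hq hβ (t4_rng_mul hq hβ (t4_rng _) (t4_rng _))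
        (t4_rng_pow hq hβ ?_ _)) (t4_rng_mul hq hβ (t4_rng _) (t4_rng _))
      exact t4_rng_mul hq hβ (t4_rng_mul hq hβ (t4_rng _) (t4_rng _)) (t4_rng _)
    have hκ : β (r * v) * (β (r * δ) * β nx' * β ω) = β (r * δ) * β n₂ * β ω := by
      rw [hv2, hn₂]
      simp only [mul_assoc]
    obtain ⟨h, hhH, hh⟩ := t4_trans hq hβ hω hB hAB nx' n₂
    have hhLL : h ∈ LL q β ω := by
      obtain ⟨k, hk⟩ := hhH
      refine ⟨k, ?_, hk⟩
      rw [hh] at hκ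
      have hb : ∀ n, t4_Vl q β (β n) n := fun n => t4_vl_base n
      have hx' := t4_vl_mul hq hβ (t4_vl_mul hq hβ (hb (r * δ)) (hb nx')) (hb ω)
      have e1 := t4_vl_mul hq hβ (hb (r * v)) hx'
      have e2 := t4_vl_mul hq hβ hx' (t4_vl_mul hq hβ (t4_vl_mul hq hβ (hb ω) (hb k)) (hb ω))
      rw [← hk, ← hκ] at e2
      have e3 := t4_vl_unique hω e1 e2
      have e4 : r * δ + nx' + ω + r * v ≡ r * δ + nx' + ω + (ω + k + ω) [MOD (q - 1)] := by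
        rw [add_comm _ (r * v)]
        exact e3
      have e5 := Nat.ModEq.add_left_cancel' _ e4
      have e6 : ω + k + ω ≡ 0 + k + 0 [MOD (q - 1)] :=
        ((t4_omega hq hβ hω).add_right k).add (t4_omega hq hβ hω)
      have e7 : r * v ≡ k [MOD (q - 1)] := by
        have := e5.trans e6
        rwa [zero_add, add_zero] at this
      have e8 : r * v ≡ 0 [MOD (q - 1)] :=
        Nat.modEq_zero_iff_dvd.mpr (Dvd.dvd.mul_left hvd r)
      exact Nat.modEq_zero_iff_dvd.mp (e7.symm.trans e8)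
    obtain ⟨h', hh'LL, hhh', hh'h⟩ := LL_inv hq hβ hω hhLL
    obtain ⟨n₃, hn₃d, hn₃⟩ := n9_shift hq hβ hω (β (r * δ)) hnx' hhLL
    obtain ⟨_, hR2⟩ := n9_LL_R2 hq hβ hω hrq hrd hpr C hh'LL
    obtain ⟨v'', hvd'', hv1'', hv2''⟩ := hR2 n₃ hn₃d
    obtain ⟨w, _, hwd, hw1', hw2'⟩ := C.cat v'' v
    refine ⟨w, ?_, ?_, ?_⟩
    · have e1 : v'' + v ≡ 0 + 0 [MOD (q - 1)] :=
        (Nat.modEq_zero_iff_dvd.mpr hvd'').add (Nat.modEq_zero_iff_dvd.mpr hvd)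
      exact Nat.modEq_zero_iff_dvd.mp (hwd.trans e1)
    · rw [hw1', mul_assoc, hx, hv1'']
      simp only [← mul_assoc]
      rw [C.id1]
    · rw [hw2', mul_assoc, hκ, hh, hn₃, hv2'', ← hn₃, mul_assoc _ h, hhh', mul_assoc, hω.idem]

end pair

/-- conjugates of elements of `LL` -/
theorem n9_conj {S : Type*} [Monoid S] {q m : ℕ} (hq : 2 ≤ q) {β : ℕ → S}
    (hβ : QM q m β) {ω : ℕ} (hω : Core q β ω) {l h h' : S} (hl : l ∈ LL q β ω)
    (hh : h ∈ t4_H β ω) (hh' : h' ∈ t4_H β ω) (hhh' : h * h' = β ω) :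
    h * l * h' ∈ LL q β ω := by
  obtain ⟨a, ha⟩ := t4_H_rng hq hβ hh
  obtain ⟨b, hb⟩ := t4_H_rng hq hβ hh'
  have hb0 : ∀ n, t4_Vl q β (β n) n := fun n => t4_vl_base n
  have e1 := t4_vl_mul hq hβ (hb0 a) (hb0 b)
  rw [ha, hb, hhh'] at e1
  have e2 : a + b ≡ 0 [MOD (q - 1)] := (t4_vl_unique hω e1 (hb0 ω)).trans (t4_omega hq hβ hω)
  have e3 := t4_vl_mul hq hβ (t4_vl_mul hq hβ (hb0 a) (n9_LL_vl hq hβ hω hl)) (hb0 b)
  rw [ha, hb] at e3
  refine n9_mem_LL hq hβ hω (t4_H_mul hq hβ hω (t4_H_mul hq hβ hω hh (n9_LL_H hl)) hh') e3 ?_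
  rw [add_zero]
  exact e2

/-- N9: the main algebraic fact, for general multipliers -/
theorem reach2 {S : Type*} [Monoid S] [Finite S] {q m : ℕ} (hq : 2 ≤ q) {β : ℕ → S}
    (hβ : QM q m β) {ω : ℕ} (hω : Core q β ω) : ∃ K₀ : ℕ, 1 ≤ K₀ ∧ ∀ P R : ℕ, 1 ≤ P →
      P.Coprime q → R.Coprime q → (q - 1) ∣ P → (q - 1) ∣ R → K₀ * P ≤ R → Rch2 q β ω P R := by
  refine ⟨n9_K q m ω, ?_, ?_⟩
  · unfold n9_K
    omega
  intro p r _ hpq hrq hpd hrd hpr
  obtain ⟨δ, M₃, C, hexp⟩ := n9_ctx hq hβ hω hpq hrq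
  refine ⟨δ, M₃ + 1, by omega, C.id1, C.id2, C.ex1, C.ex2, hexp, ?_⟩
  intro n n' l hl l' hl'
  -- reduction to `n = n' = 0`
  obtain ⟨A₁, B₁, hB₁, hAB₁⟩ := C.fac1
  obtain ⟨A₂, B₂, hB₂, hAB₂⟩ := C.fac2
  obtain ⟨h, hhH, hh⟩ := t4_trans hq hβ hω hB₁ hAB₁ 0 n
  obtain ⟨h', hh'H, hh'⟩ := t4_trans hq hβ hω hB₂ hAB₂ 0 n'
  obtain ⟨g, hgH, hhg, hgh⟩ := t4_H_inv hq hβ hω hhH
  obtain ⟨g', hg'H, hhg', hgh'⟩ := t4_H_inv hq hβ hω hh'H
  obtain ⟨_, hR1⟩ := n9_LL_R1 hq hβ hω hpq hpd hrq hrd hpr C (n9_conj hq hβ hω hl hhH hgH hhg)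
  obtain ⟨_, hR2⟩ := n9_LL_R2 hq hβ hω hrq hrd hpr C (n9_conj hq hβ hω hl' hh'H hg'H hhg')
  obtain ⟨va, hvad, hva1, hva2⟩ := hR1 0 0 (dvd_zero _) (dvd_zero _)
  obtain ⟨vb, hvbd, hvb1, hvb2⟩ := hR2 0 (dvd_zero _)
  obtain ⟨vc, _, hvcd, hvc1, hvc2⟩ := C.cat vb va
  obtain ⟨v, hvδ, hvd, hv1, hv2⟩ := C.cat δ vc
  have hx : β (p * v) * (β (p * δ) * β 0 * β ω) = β (p * δ) * β 0 * β ω * (h * l * g) := by
    rw [hv1, hvc1, mul_assoc, mul_assoc (β (p * vb)), hva1, hvb1]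
    simp only [← mul_assoc]
    rw [C.id1, C.id1]
  have hx' : β (r * v) * (β (r * δ) * β 0 * β ω) = β (r * δ) * β 0 * β ω * (h' * l' * g') := by
    rw [hv2, hvc2, mul_assoc, mul_assoc (β (r * vb)), hva2, hvb2]
    simp only [← mul_assoc]
    rw [C.id2]
  have hvdvd : (q - 1) ∣ v := by
    have e1 : vb + va ≡ 0 + 0 [MOD (q - 1)] :=
      (Nat.modEq_zero_iff_dvd.mpr hvbd).add (Nat.modEq_zero_iff_dvd.mpr hvad)
    have e2 : δ + vc ≡ 0 + 0 [MOD (q - 1)] :=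
      (Nat.modEq_zero_iff_dvd.mpr C.dvd).add (hvcd.trans e1)
    exact Nat.modEq_zero_iff_dvd.mp (hvd.trans e2)
  obtain ⟨v', hv'⟩ := hvdvd
  refine ⟨v', ?_, ?_, ?_⟩
  · rcases Nat.eq_zero_or_pos v' with h0 | h0
    · exfalso
      rw [h0, Nat.mul_zero] at hv'
      have := C.pos
      omega
    · exact h0
  · rw [← hv', hh, ← mul_assoc, hx]
    calc β (p * δ) * β 0 * β ω * (h * l * g) * h
        = β (p * δ) * β 0 * β ω * (h * (l * (g * h))) := by simp only [mul_assoc]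
      _ = β (p * δ) * β 0 * β ω * h * l := by
          rw [hgh, LL_right hω hl]
          simp only [mul_assoc]
  · rw [← hv', hh', ← mul_assoc, hx']
    calc β (r * δ) * β 0 * β ω * (h' * l' * g') * h'
        = β (r * δ) * β 0 * β ω * (h' * (l' * (g' * h'))) := by simp only [mul_assoc]
      _ = β (r * δ) * β 0 * β ω * h' * l' := by
          rw [hgh', LL_right hω hl']
          simp only [mul_assoc]

end Pool.Agent.Lib.MP_3e612f_nt.NB
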