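import Pool.Agent.Lib.MP_3e612f_nt.MDefs
import Pool.Agent.Lib.MP_3e612f_nt.SDefs

/-!
Definitions for the joint treatment of finite-state functions and quasi-additive functions in
several coprime bases.
-/

set_option autoImplicit false

namespace Pool.Agent.Lib.MP_3e612f_nt.NB

open Filter Topology
open Pool.Agent.Lib.MP_3e612f_nt.QA Pool.Agent.Lib.MP_3e612f_nt.SA Pool.Agent.Lib.MP_3e612f_nt.MB

/-- words with equal finite parts and prescribed second differences of the lattice parts -/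
def Exch {S : Type*} {d : ℕ} (q m : ℕ) (β : ℕ → S) (e : ℕ → Fin d → ℤ)
    (Λ : AddSubgroup (Fin d → ℤ)) : Prop :=
  ∀ P R : ℕ, P.Coprime q → R.Coprime q → 2 * q ^ m * P ≤ R → 1 ≤ P → (q - 1) ∣ P → (q - 1) ∣ R →
    ∀ v ∈ Λ, ∀ v' ∈ Λ, ∃ ρ x x' : ℕ, x ≠ x' ∧ β (P * x) = β (P * x') ∧ β (R * x) = β (R * x') ∧
      β (P * (x + ρ)) = β (P * (x' + ρ)) ∧ β (R * (x + ρ)) = β (R * (x' + ρ)) ∧
      e (P * (x + ρ)) - e (P * x) - (e (P * (x' + ρ)) - e (P * x')) = v ∧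
      e (R * (x + ρ)) - e (R * x) - (e (R * (x' + ρ)) - e (R * x')) = v'

/-- the average of `φ` over the pairs of values at `n + r` and at `n` -/
noncomputable def IncB {S H : Type*} [AddCommGroup H] (q P R : ℕ) (β : ℕ → S) (e : ℕ → H)
    (r h L y c c₁ d d₁ z z₁ t t₁ : ℕ) (φ : S → S → S → S → H → H → ℝ) : ℝ :=
  av q L (fun n =>
    φ (β (sd q h P c z (q ^ L * y + n + r))) (β (sd q h P c₁ z₁ (q ^ L * y + n)))
      (β (sd q h R d t (q ^ L * y + n + r))) (β (sd q h R d₁ t₁ (q ^ L * y + n)))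
      (e (sd q h P c z (q ^ L * y + n + r)) - e (sd q h P c₁ z₁ (q ^ L * y + n)))
      (e (sd q h R d t (q ^ L * y + n + r)) - e (sd q h R d₁ t₁ (q ^ L * y + n))))

/-- the average of `f` over the pairs of finite parts at `n + r` and at `n` -/
noncomputable def IncF {S : Type*} (q P R : ℕ) (β : ℕ → S)
    (r h L y c c₁ d d₁ z z₁ t t₁ : ℕ) (f : S → S → S → S → ℝ) : ℝ :=
  av q L (fun n =>
    f (β (sd q h P c z (q ^ L * y + n + r))) (β (sd q h P c₁ z₁ (q ^ L * y + n)))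
      (β (sd q h R d t (q ^ L * y + n + r))) (β (sd q h R d₁ t₁ (q ^ L * y + n))))

/-- the two sides can be moved independently along `LL`, from states which are stable under an
idempotent -/
def Rch2 {S : Type*} [Monoid S] (q : ℕ) (β : ℕ → S) (ω P R : ℕ) : Prop :=
  ∃ δ M : ℕ, 1 ≤ M ∧ β (P * δ) * β (P * δ) = β (P * δ) ∧ β (R * δ) * β (R * δ) = β (R * δ) ∧
    (∀ n, (β (P * δ) * β (P * n) * β (P * δ)) ^ M = β (P * δ)) ∧
    (∀ n, (β (R * δ) * β (R * n) * β (R * δ)) ^ M = β (R * δ)) ∧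
    (∀ l ∈ LL q β ω, l ^ M = β ω) ∧
    ∀ n n' : ℕ, ∀ l ∈ LL q β ω, ∀ l' ∈ LL q β ω, ∃ v : ℕ, 1 ≤ v ∧
      β (P * ((q - 1) * v)) * (β (P * δ) * β n * β ω) = β (P * δ) * β n * β ω * l ∧
      β (R * ((q - 1) * v)) * (β (R * δ) * β n' * β ω) = β (R * δ) * β n' * β ω * l'

open Classical in
/-- the indicator of a proposition -/
noncomputable def bi (p : Prop) : ℝ := if p then 1 else 0

/-- on the dyadic interval of length `2 ^ k` with index `y` the multiples by `P` have the word `ω`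
at the same place -/
def Gk (q m ω P k y : ℕ) : Prop :=
  ∃ a b Y : ℕ, ω < q ^ a ∧ q ^ (b + m) * (q ^ (a + m) * Y + ω) ≤ P * (2 ^ k * y) ∧
    P * (2 ^ k * (y + 1)) + P < q ^ (b + m) * (q ^ (a + m) * Y + ω) + q ^ b

section several

variable {ι : Type*} {d : ι → ℕ} {S : ι → Type*}

section monoid

variable [∀ i, Monoid (S i)]

/-- finite-state functions and quasi-additive functions in pairwise coprime bases -/
structure NSys (q : ι → ℕ) (m : ℕ) (β : ∀ i, ℕ → S i) (ω : ι → ℕ) (e : ∀ i, ℕ → Fin (d i) → ℤ)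
    (C : ℝ) (Λ : ∀ i, AddSubgroup (Fin (d i) → ℤ)) (N' : ℕ)
    (u : ∀ i, S i → (Fin (d i) → ℤ) ⧸ Λ i) : Prop where
  sys : Sys q m e C
  qm : ∀ i, QM (q i) m (β i)
  core : ∀ i, Core (q i) (β i) (ω i)
  npos : 1 ≤ N'
  nmem : ∀ i (v : Fin (d i) → ℤ), N' • v ∈ Λ i
  hu : ∀ i n, u i (β i n) = (e i n : (Fin (d i) → ℤ) ⧸ Λ i)
  huω : ∀ i n, u i (β i n * β i (ω i)) = (e i n : (Fin (d i) → ℤ) ⧸ Λ i)
  exch : ∀ i, Exch (q i) m (β i) (e i) (Λ i)

/-- the admissible multipliers -/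
structure MulN (q : ι → ℕ) (m : ℕ) (β : ∀ i, ℕ → S i) (ω : ι → ℕ) (P R : ι → ℕ) : Prop where
  mul : Mul q m P R
  dP : ∀ i, (q i - 1) ∣ P i
  dR : ∀ i, (q i - 1) ∣ R i
  reach : ∀ i, Rch2 (q i) (β i) (ω i) (P i) (R i)

/-- the vector of all finite parts -/
def BW (q : ι → ℕ) (β : ∀ i, ℕ → S i) (ω : ι → ℕ) (h : ℕ) (P c z : ι → ℕ) (n : ℕ) : ∀ i, S i :=
  fun i => β i (sd (q i) h (P i) (c i) (z i) n) * β i (ω i)

end monoid

/-- the element of the product of the lattices next to `v` -/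
noncomputable def lamL (Λ : ∀ i, AddSubgroup (Fin (d i) → ℤ)) (v : ∀ i, Fin (d i) → ℤ) :
    ∀ i, Fin (d i) → ℤ := fun i => v i + sec (Λ i) (-((v i : (Fin (d i) → ℤ)) :
      (Fin (d i) → ℤ) ⧸ Λ i))

/-- the extension of a function from the product of the cosets `c i` -/
noncomputable def extN (Λ : ∀ i, AddSubgroup (Fin (d i) → ℤ)) (c : ∀ i, (Fin (d i) → ℤ) ⧸ Λ i)
    (g : (∀ i, Fin (d i) → ℤ) → ℝ) (x : ∀ i, Fin (d i) → ℤ) : ℝ :=
  g (fun i => x i + sec (Λ i) (c i - ((x i : (Fin (d i) → ℤ)) : (Fin (d i) → ℤ) ⧸ Λ i)))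

end several

end Pool.Agent.Lib.MP_3e612f_nt.NB
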