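import Pool.Agent.Lib.MP_3e612f_nt.SStruct
import Pool.Agent.Lib.MP_3e612f_nt.NDefs

/-!
Functions of the top digits and of the residue class are logarithmically orthogonal to the Möbius
function, with a condition on the cells which depends on the level.
-/

set_option autoImplicit false

namespace Pool.Agent.Lib.MP_3e612f_nt.NB

open Filter Topology
open Pool.Agent.Lib.MP_3e612f_nt.QA Pool.Agent.Lib.MP_3e612f_nt.SA Pool.Agent.Lib.MP_3e612f_nt.MB

open Classical in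
/-- functions of the top digits and of the residue class -/
theorem struct2 {Q a k₀ : ℕ} (hQ : 1 ≤ Q) {M : ℕ → ℝ} (hM : ∀ n, |M n| ≤ 1)
    {Good : ℕ → ℕ → Prop}
    (hcell : ∀ k Y s s' : ℕ, k₀ ≤ k → Good k Y → s < 2 ^ k → s' < 2 ^ k →
      (2 ^ k * Y + s) % Q = a → (2 ^ k * Y + s') % Q = a →
      M (2 ^ k * Y + s) = M (2 ^ k * Y + s'))
    (hdens : ∀ ε : ℝ, 0 < ε → ∃ t : ℕ, ∀ k ≥ k₀,
      (((Finset.Ico (2 ^ t) (2 ^ (t + 1))).filter (fun Y => ¬ Good k Y)).card : ℝ) ≤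
        ε * 2 ^ t) :
    Tendsto (LogAvg fun n => mu n * (if n % Q = a then M n else 0)) atTop (𝓝 0) := by
  have hap : Tendsto (fun N : ℕ => (∑ n ∈ Finset.Icc 1 N, (if n % Q = a then mu n else 0)) / N)
      atTop (𝓝 0) := mu_ap Q a hQ
  set u : ℕ → ℝ := fun n => if n % Q = a then mu n else 0 with hu
  set g : ℕ → ℝ := fun n => mu n * (if n % Q = a then M n else 0) with hg
  have hu1 : ∀ n, |u n| ≤ 1 := by
    intro n
    simp only [hu]
    split_ifs
    · exact abs_mu_le n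
    · simp
  have hg1 : ∀ n, |g n| ≤ 1 := by
    intro n
    simp only [hg]
    rw [abs_mul]
    split_ifs
    · exact mul_le_one₀ (abs_mu_le n) (abs_nonneg _) (hM n)
    · simp
  have hq0 : 0 < 2 := by norm_num
  rw [Metric.tendsto_atTop]
  intro ε' hε'
  set ε := ε' / 8 with hε
  have hε0 : 0 < ε := by positivity
  obtain ⟨t, ht⟩ := hdens ε hε0
  have hqt : (0 : ℝ) < (2 : ℝ) ^ t := by positivity
  -- the scale of the prime number theorem
  set η := ε / (3 * (2 : ℝ) ^ (t + 1)) with hη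
  have hη0 : 0 < η := by positivity
  obtain ⟨x₀, hx₀⟩ := Metric.tendsto_atTop.1 hap η hη0
  have hS : ∀ x : ℕ, x₀ + 1 ≤ x → |∑ n ∈ Finset.Icc 1 x, u n| ≤ η * x := by
    intro x hx
    have h1 := hx₀ x (by omega)
    rw [Real.dist_eq, sub_zero, abs_div, Nat.abs_cast] at h1
    have hx1 : (0 : ℝ) < x := by exact_mod_cast (by omega : 0 < x)
    rw [div_lt_iff₀ hx1] at h1
    exact h1.le
  set k₁ := max k₀ (x₀ + 2) with hk₁
  -- one cell
  have hcell1 : ∀ k Y : ℕ, k₁ ≤ k → 1 ≤ Y → |∑ s ∈ Finset.range (2 ^ k), u (2 ^ k * Y + s) /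
      ((2 ^ k * Y + s : ℕ) : ℝ)| ≤ 3 * η := by
    intro k Y hk hY
    have hk2 : k < 2 ^ k := Nat.lt_pow_self (by omega)
    have hkx : x₀ + 2 ≤ k := (le_max_right _ _).trans hk
    have hqY : 2 ^ k ≤ 2 ^ k * Y := Nat.le_mul_of_pos_right _ hY
    obtain ⟨A, hA⟩ : ∃ A, 2 ^ k * Y = A + 1 := ⟨2 ^ k * Y - 1, by omega⟩
    have h1 := t10_abel hS (A := A) (by omega) (by omega) (2 ^ k)
    rw [← hA] at h1
    rw [Finset.sum_Ico_eq_sum_range, Nat.add_sub_cancel_left] at h1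
    refine h1.trans ?_
    have h2 : |∑ n ∈ Finset.Ico (2 ^ k * Y) (2 ^ k * Y + 2 ^ k), (1 : ℝ) / (n : ℝ)| ≤
        ((2 ^ k : ℕ) : ℝ) / ((2 ^ k * Y : ℕ) : ℝ) :=
      t10_triv (g := fun _ => 1) (fun _ => by simp) (by omega) _
    have h3 : ((2 ^ k : ℕ) : ℝ) / ((2 ^ k * Y : ℕ) : ℝ) ≤ 1 := by
      rw [div_le_one (by exact_mod_cast (by omega : 0 < 2 ^ k * Y))]
      exact_mod_cast hqY
    have h4 := (le_abs_self _).trans (h2.trans h3)
    nlinarith [h4, hη0]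
  -- good cells
  have hgood : ∀ k Y : ℕ, k₁ ≤ k → 1 ≤ Y → Good k Y →
      |∑ s ∈ Finset.range (2 ^ k), g (2 ^ k * Y + s) / ((2 ^ k * Y + s : ℕ) : ℝ)| ≤ 3 * η := by
    intro k Y hk hY hG
    obtain ⟨c, hc1, hc⟩ : ∃ c : ℝ, |c| ≤ 1 ∧ ∀ s < 2 ^ k, g (2 ^ k * Y + s) =
        c * u (2 ^ k * Y + s) := by
      by_cases h : ∃ s₀ < 2 ^ k, (2 ^ k * Y + s₀) % Q = a
      · obtain ⟨s₀, hs₀, hs₀a⟩ := h
        refine ⟨M (2 ^ k * Y + s₀), hM _, ?_⟩
        intro s hs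
        simp only [hg, hu]
        by_cases hsa : (2 ^ k * Y + s) % Q = a
        · rw [if_pos hsa, if_pos hsa,
            hcell k Y s s₀ ((le_max_left _ _).trans hk) hG hs hs₀ hsa hs₀a]
          ring
        · rw [if_neg hsa, if_neg hsa]
          ring
      · push Not at h
        refine ⟨0, by simp, ?_⟩
        intro s hs
        simp only [hg]
        rw [if_neg (h s hs)]
        ring
    have h1 : ∑ s ∈ Finset.range (2 ^ k), g (2 ^ k * Y + s) / ((2 ^ k * Y + s : ℕ) : ℝ) =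
        c * ∑ s ∈ Finset.range (2 ^ k), u (2 ^ k * Y + s) / ((2 ^ k * Y + s : ℕ) : ℝ) := by
      rw [Finset.mul_sum]
      refine Finset.sum_congr rfl fun s hs => ?_
      rw [hc s (Finset.mem_range.1 hs)]
      ring
    rw [h1, abs_mul]
    exact (mul_le_of_le_one_left (abs_nonneg _) hc1).trans (hcell1 k Y hk hY)
  -- all cells
  have hbad : ∀ k Y : ℕ, 1 ≤ Y → |∑ s ∈ Finset.range (2 ^ k), g (2 ^ k * Y + s) /
      ((2 ^ k * Y + s : ℕ) : ℝ)| ≤ 1 / Y := by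
    intro k Y hY
    have hqk : 0 < 2 ^ k := pow_pos hq0 k
    have h1 := t10_triv hg1 (A := 2 ^ k * Y) (Nat.mul_pos hqk hY) (2 ^ k)
    rw [Finset.sum_Ico_eq_sum_range, Nat.add_sub_cancel_left] at h1
    refine h1.trans (le_of_eq ?_)
    have h2 : ((2 ^ k : ℕ) : ℝ) ≠ 0 := by exact_mod_cast hqk.ne'
    have h3 : ((Y : ℕ) : ℝ) ≠ 0 := by exact_mod_cast (by omega : Y ≠ 0)
    push_cast at h2 ⊢
    field_simp
  -- one block
  have hqt1 : 2 ^ t ≤ 2 ^ (t + 1) := Nat.pow_le_pow_right hq0 (by omega)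
  obtain ⟨m, hm⟩ : ∃ m, 2 ^ (t + 1) = 2 ^ t + m := ⟨2 ^ (t + 1) - 2 ^ t, by omega⟩
  have hblock : ∀ k, k₁ ≤ k →
      |∑ n ∈ Finset.Ico (2 ^ (k + t)) (2 ^ (k + t + 1)), g n / n| ≤ 2 * ε := by
    intro k hk
    have e1 : 2 ^ (k + t) = 2 ^ k * 2 ^ t := pow_add _ _ _
    have e2 : 2 ^ (k + t + 1) = 2 ^ k * (2 ^ t + m) := by
      rw [← hm, ← pow_add, add_assoc]
    rw [e1, e2, t10_cells (fun n => g n / (n : ℝ))]
    refine (Finset.abs_sum_le_sum_abs _ _).trans ?_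
    rw [← Finset.sum_filter_add_sum_filter_not _ (Good k)]
    have h1 : ∑ Y ∈ (Finset.Ico (2 ^ t) (2 ^ t + m)).filter (Good k),
        |∑ s ∈ Finset.range (2 ^ k), g (2 ^ k * Y + s) / ((2 ^ k * Y + s : ℕ) : ℝ)| ≤ ε := by
      have h2 : ∀ Y ∈ (Finset.Ico (2 ^ t) (2 ^ t + m)).filter (Good k),
          |∑ s ∈ Finset.range (2 ^ k), g (2 ^ k * Y + s) / ((2 ^ k * Y + s : ℕ) : ℝ)| ≤
            3 * η := by
        intro Y hY
        rw [Finset.mem_filter, Finset.mem_Ico] at hY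
        have : 0 < 2 ^ t := pow_pos hq0 t
        exact hgood k Y hk (by omega) hY.2
      refine (Finset.sum_le_card_nsmul _ _ _ h2).trans ?_
      rw [nsmul_eq_mul]
      have h3 : (((Finset.Ico (2 ^ t) (2 ^ t + m)).filter (Good k)).card : ℝ) ≤ (2 : ℝ) ^ (t + 1) := by
        have h4 := Finset.card_filter_le (Finset.Ico (2 ^ t) (2 ^ t + m)) (Good k)
        rw [Nat.card_Ico, Nat.add_sub_cancel_left] at h4
        have h5 : ((Finset.Ico (2 ^ t) (2 ^ t + m)).filter (Good k)).card ≤ 2 ^ (t + 1) := by omega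
        exact_mod_cast h5
      have h6 : (2 : ℝ) ^ (t + 1) * (3 * η) = ε := by
        rw [hη]
        field_simp
      rw [← h6]
      exact mul_le_mul_of_nonneg_right h3 (by positivity)
    have h7 : ∑ Y ∈ (Finset.Ico (2 ^ t) (2 ^ t + m)).filter (fun Y => ¬ Good k Y),
        |∑ s ∈ Finset.range (2 ^ k), g (2 ^ k * Y + s) / ((2 ^ k * Y + s : ℕ) : ℝ)| ≤ ε := by
      have h2 : ∀ Y ∈ (Finset.Ico (2 ^ t) (2 ^ t + m)).filter (fun Y => ¬ Good k Y),
          |∑ s ∈ Finset.range (2 ^ k), g (2 ^ k * Y + s) / ((2 ^ k * Y + s : ℕ) : ℝ)| ≤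
            1 / (2 : ℝ) ^ t := by
        intro Y hY
        rw [Finset.mem_filter, Finset.mem_Ico] at hY
        have h8 : 0 < 2 ^ t := pow_pos hq0 t
        refine (hbad k Y (by omega)).trans ?_
        have h9 : (2 : ℝ) ^ t ≤ Y := by exact_mod_cast hY.1.1
        exact one_div_le_one_div_of_le hqt h9
      refine (Finset.sum_le_card_nsmul _ _ _ h2).trans ?_
      rw [nsmul_eq_mul]
      have ht' := ht k ((le_max_left _ _).trans hk)
      rw [hm] at ht'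
      calc (((Finset.Ico (2 ^ t) (2 ^ t + m)).filter (fun Y => ¬ Good k Y)).card : ℝ) *
            (1 / (2 : ℝ) ^ t) ≤ (ε * (2 : ℝ) ^ t) * (1 / (2 : ℝ) ^ t) :=
            mul_le_mul_of_nonneg_right ht' (by positivity)
        _ = ε := by field_simp
    calc _ ≤ ε + ε := add_le_add h1 h7
      _ = 2 * ε := by ring
  -- all full blocks
  set C₁ := ∑ n ∈ Finset.Ico 1 (2 ^ (k₁ + t)), (1 : ℝ) with hC₁
  have hfull : ∀ j : ℕ, |∑ n ∈ Finset.Ico 1 (2 ^ (k₁ + j + t)), g n / n| ≤ C₁ + j * (2 * ε) := by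
    intro j
    induction j with
    | zero =>
      rw [add_zero, Nat.cast_zero, zero_mul, add_zero, hC₁]
      refine (Finset.abs_sum_le_sum_abs _ _).trans (Finset.sum_le_sum fun n hn => ?_)
      rw [Finset.mem_Ico] at hn
      have hn1 : (1 : ℝ) ≤ n := by exact_mod_cast hn.1
      rw [abs_div, abs_of_pos (by linarith : (0 : ℝ) < n), div_le_one (by linarith)]
      exact (hg1 n).trans hn1
    | succ j ih =>
      have e1 : k₁ + (j + 1) + t = (k₁ + j) + t + 1 := by ring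
      rw [e1]
      have h1 : 1 ≤ 2 ^ (k₁ + j + t) := Nat.one_le_pow _ _ hq0
      have h2 : 2 ^ (k₁ + j + t) ≤ 2 ^ (k₁ + j + t + 1) := Nat.pow_le_pow_right hq0 (by omega)
      rw [← Finset.sum_Ico_consecutive _ h1 h2]
      refine (abs_add_le _ _).trans ?_
      have h3 := hblock (k₁ + j) (by omega)
      push_cast
      linarith
  have hC₁0 : 0 ≤ C₁ := Finset.sum_nonneg fun _ _ => by norm_num
  -- the average
  have hlogN : Tendsto (fun N : ℕ => Real.log N) atTop atTop :=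
    Real.tendsto_log_atTop.comp tendsto_natCast_atTop_atTop
  have hinv : Tendsto (fun N : ℕ => (C₁ + 2) / Real.log N) atTop (𝓝 0) :=
    tendsto_const_nhds.div_atTop hlogN
  obtain ⟨N₀, hN₀⟩ := Metric.tendsto_atTop.1 hinv (ε' / 4) (by positivity)
  refine ⟨max N₀ (max 3 (2 ^ (k₁ + t))), ?_⟩
  intro N hN
  have hN1 : N₀ ≤ N := (le_max_left _ _).trans hN
  have hN2 : 3 ≤ N := (le_max_left _ _).trans ((le_max_right _ _).trans hN)
  have hN3 : 2 ^ (k₁ + t) ≤ N := (le_max_right _ _).trans ((le_max_right _ _).trans hN)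
  have hlog1 : 1 ≤ Real.log N := by
    have hNr : (3 : ℝ) ≤ N := by exact_mod_cast hN2
    have h1 : Real.exp 1 ≤ N := by linarith [Real.exp_one_lt_d9]
    calc (1 : ℝ) = Real.log (Real.exp 1) := (Real.log_exp 1).symm
      _ ≤ Real.log N := Real.log_le_log (Real.exp_pos 1) h1
  have h1 := hN₀ N hN1
  rw [Real.dist_eq, sub_zero] at h1 ⊢
  have h1' := lt_of_le_of_lt (le_abs_self _) h1
  -- the position of `N`
  set L := Nat.log 2 N with hL
  have hL1 : 2 ^ L ≤ N := Nat.pow_log_le_self 2 (by omega)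
  have hL2 : N < 2 ^ (L + 1) := Nat.lt_pow_succ_log_self (by omega) N
  have hL3 : k₁ + t ≤ L := Nat.le_log_of_pow_le (by omega) hN3
  obtain ⟨j, hj⟩ : ∃ j, L = k₁ + j + t := ⟨L - k₁ - t, by omega⟩
  have hsum : |∑ n ∈ Finset.Icc 1 N, g n / n| ≤ C₁ + j * (2 * ε) + 2 := by
    have e1 : Finset.Icc 1 N = Finset.Ico 1 (N + 1) := by
      ext n
      simp only [Finset.mem_Icc, Finset.mem_Ico]
      omega
    have h2 : 1 ≤ 2 ^ L := Nat.one_le_pow _ _ hq0
    rw [e1, ← Finset.sum_Ico_consecutive _ h2 (by omega : 2 ^ L ≤ N + 1)]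
    refine (abs_add_le _ _).trans ?_
    have h3 := hfull j
    rw [← hj] at h3
    refine add_le_add h3 ?_
    obtain ⟨r, hr⟩ : ∃ r, N + 1 = 2 ^ L + r := ⟨N + 1 - 2 ^ L, by omega⟩
    rw [hr]
    refine (t10_triv hg1 h2 r).trans ?_
    have h4 : (0 : ℝ) < ((2 ^ L : ℕ) : ℝ) := by exact_mod_cast h2
    rw [div_le_iff₀ h4]
    have h5 : r ≤ 2 * 2 ^ L := by
      have : 2 ^ (L + 1) = 2 * 2 ^ L := by rw [pow_succ]; ring
      omega
    exact_mod_cast h5
  have hj2 : (j : ℝ) ≤ 2 * Real.log N := by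
    have h2 : 2 ^ j ≤ N := by
      calc 2 ^ j ≤ 2 ^ L := Nat.pow_le_pow_right hq0 (by omega)
        _ ≤ N := hL1
    have h3 : Real.log ((2 : ℝ) ^ j) ≤ Real.log N :=
      Real.log_le_log (by positivity) (by exact_mod_cast h2)
    rw [Real.log_pow] at h3
    have h4 : (1 : ℝ) / 2 < Real.log 2 := by linarith [Real.log_two_gt_d9]
    nlinarith [(Nat.cast_nonneg j : (0 : ℝ) ≤ (j : ℝ))]
  unfold LogAvg
  rw [abs_mul, abs_of_nonneg (by positivity : 0 ≤ 1 / Real.log N)]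
  have h6 : 1 / Real.log N * |∑ n ∈ Finset.Icc 1 N, g n / n| ≤
      1 / Real.log N * (C₁ + (2 * Real.log N) * (2 * ε) + 2) := by
    refine mul_le_mul_of_nonneg_left (hsum.trans ?_) (by positivity)
    have : (j : ℝ) * (2 * ε) ≤ (2 * Real.log N) * (2 * ε) :=
      mul_le_mul_of_nonneg_right hj2 (by positivity)
    linarith
  have h7 : 1 / Real.log N * (C₁ + (2 * Real.log N) * (2 * ε) + 2) =
      (C₁ + 2) / Real.log N + 4 * ε := by
    have : Real.log N ≠ 0 := by linarith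
    field_simp
    ring
  rw [h7] at h6
  have h8 : 4 * ε = ε' / 2 := by rw [hε]; ring
  linarith

end Pool.Agent.Lib.MP_3e612f_nt.NB
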