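import Pool.Agent.Lib.MP_3e612f_nt.NPairAll
import Pool.Agent.Lib.MP_3e612f_nt.NReach
import Pool.Agent.Lib.MP_3e612f_nt.NStruct
import Pool.Agent.Lib.MP_3e612f_nt.MCen

/-!
Centred functions in a residue class: finite parts and lattice parts in several bases.
-/

set_option autoImplicit false

namespace Pool.Agent.Lib.MP_3e612f_nt.NB

open Filter Topology
open Pool.Agent.Lib.MP_3e612f_nt.QA Pool.Agent.Lib.MP_3e612f_nt.SA Pool.Agent.Lib.MP_3e612f_nt.MB

section several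

variable {ι : Type*} [Fintype ι] [DecidableEq ι] {q : ι → ℕ} {m : ℕ} {d : ι → ℕ}
  {S : ι → Type*} [∀ i, Monoid (S i)] [∀ i, Finite (S i)]
  {β : ∀ i, ℕ → S i} {ω : ι → ℕ} {e : ∀ i, ℕ → Fin (d i) → ℤ} {C : ℝ}
  {Λ : ∀ i, AddSubgroup (Fin (d i) → ℤ)} {N' : ℕ} {u : ∀ i, S i → (Fin (d i) → ℤ) ⧸ Λ i}

/-- admissible moduli -/
structure MdH (q H : ι → ℕ) (M h : ℕ) (Q : ι → ℕ) : Prop where
  pos : 1 ≤ M
  eq : ∀ i, M = q i ^ (h + H i) * Q i
  cop : ∀ i, (Q i).Coprime (q i)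
  dv : ∀ i, (q i - 1) ∣ Q i

theorem exists_modulusH (hq : ∀ i, 2 ≤ q i) (hc : ∀ i j, i ≠ j → (q i).Coprime (q j))
    (H : ι → ℕ) {M₀ : ℕ} (hM₀ : 1 ≤ M₀) :
    ∃ (M h : ℕ) (Q : ι → ℕ), M₀ ∣ M ∧ MdH q H M h Q := by
  have hB : 0 < ∏ i, q i := Finset.prod_pos fun i _ => lt_of_lt_of_le two_pos (hq i)
  have hN : 1 ≤ M₀ * ∏ i, (q i - 1) :=
    Nat.mul_pos hM₀ (Finset.prod_pos fun i _ => Nat.sub_pos_of_lt (hq i))
  obtain ⟨h, Q, hQ1, hQc, hdvd⟩ := modulus_aux _ _ hN
  have hQi : ∀ i, Q.Coprime (q i) := fun i =>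
    Nat.Coprime.coprime_dvd_right (Finset.dvd_prod_of_mem q (Finset.mem_univ i)) hQc
  set M : ℕ := Q * (∏ j, q j) ^ h * ∏ j, q j ^ H j with hM
  have hsplit : ∀ i, M = q i ^ (h + H i) *
      (Q * (∏ j ∈ Finset.univ.erase i, q j) ^ h * ∏ j ∈ Finset.univ.erase i, q j ^ H j) := by
    intro i
    rw [hM, ← Finset.mul_prod_erase Finset.univ q (Finset.mem_univ i),
      ← Finset.mul_prod_erase Finset.univ (fun j => q j ^ H j) (Finset.mem_univ i), mul_pow,
      pow_add]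
    ring
  have hcop : ∀ i, (Q * (∏ j ∈ Finset.univ.erase i, q j) ^ h *
      ∏ j ∈ Finset.univ.erase i, q j ^ H j).Coprime (q i) := by
    intro i
    refine Nat.Coprime.mul_left (Nat.Coprime.mul_left (hQi i) (Nat.Coprime.pow_left _ ?_)) ?_
    · exact Nat.Coprime.prod_left fun j hj => hc j i (Finset.ne_of_mem_erase hj)
    · exact Nat.Coprime.prod_left fun j hj =>
        Nat.Coprime.pow_left _ (hc j i (Finset.ne_of_mem_erase hj))
  refine ⟨M, h, fun i => Q * (∏ j ∈ Finset.univ.erase i, q j) ^ h *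
    ∏ j ∈ Finset.univ.erase i, q j ^ H j, ((Dvd.intro _ rfl).trans hdvd).mul_right _,
    ⟨Nat.mul_pos (Nat.mul_pos hQ1 (pow_pos hB h)) (Finset.prod_pos fun i _ =>
      qpow_pos (hq i) _), hsplit, hcop, fun i => ?_⟩⟩
  have h1 : (q i - 1) ∣ q i ^ (h + H i) *
      (Q * (∏ j ∈ Finset.univ.erase i, q j) ^ h * ∏ j ∈ Finset.univ.erase i, q j ^ H j) := by
    rw [← hsplit i, hM]
    refine Dvd.dvd.mul_right (Dvd.dvd.trans ?_ hdvd) _
    exact Dvd.dvd.mul_left (Finset.dvd_prod_of_mem (fun i => q i - 1) (Finset.mem_univ i)) _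
  refine Nat.Coprime.dvd_of_dvd_mul_left ?_ h1
  refine Nat.Coprime.pow_right _ ?_
  have h3 : Nat.Coprime (q i - 1) (q i - 1 + 1) := by simp
  have h4 : q i - 1 + 1 = q i := by
    have := hq i
    omega
  rwa [h4] at h3

/-- the finite parts of the upper digits -/
def bH (q H : ι → ℕ) (β : ∀ i, ℕ → S i) (ω : ι → ℕ) (n : ℕ) : ∀ i, S i :=
  fun i => β i (n / q i ^ H i) * β i (ω i)

/-- the lattice parts of the upper digits -/
def eH (q H : ι → ℕ) (e : ∀ i, ℕ → Fin (d i) → ℤ) (n : ℕ) : ∀ i, Fin (d i) → ℤ :=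
  fun i => e i (n / q i ^ H i)

/-- the centred function -/
noncomputable def cN (q H : ι → ℕ) (β : ∀ i, ℕ → S i) (ω : ι → ℕ)
    (e : ∀ i, ℕ → Fin (d i) → ℤ) (Λ : ∀ i, AddSubgroup (Fin (d i) → ℤ))
    (u : ∀ i, S i → (Fin (d i) → ℤ) ⧸ Λ i) (M a : ℕ)
    (g : (∀ i, S i) → (∀ i, Fin (d i) → ℤ) → ℝ) (n : ℕ) : ℝ :=
  if n % M = a then g (bH q H β ω n) (eH q H e n) -
    mN q (Nat.log 2 n) β ω e Λ u g (bH q H β ω n) else 0

theorem abs_cN_le (Sy : NSys q m β ω e C Λ N' u) {H : ι → ℕ} {M a : ℕ}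
    {g : (∀ i, S i) → (∀ i, Fin (d i) → ℤ) → ℝ} (hg : ∀ s x, |g s x| ≤ 1) (n : ℕ) :
    |cN q H β ω e Λ u M a g n| ≤ 2 := by
  unfold cN
  split_ifs
  · refine (abs_sub _ _).trans ?_
    linarith [hg (bH q H β ω n) (eH q H e n),
      mN_abs Sy (k := Nat.log 2 n) hg (bH q H β ω n)]
  · simp

/-- the arguments at multiples -/
theorem sd_mul (hq : ∀ i, 2 ≤ q i) {H : ι → ℕ} {M h : ℕ} {Q : ι → ℕ} (hM : MdH q H M h Q)
    (p N i : ℕ) (j : ι) :
    (p * (M * N + i)) / q j ^ H j = sd (q j) h (p * Q j) (p * i / q j ^ H j / q j ^ h)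
      (p * i / q j ^ H j % q j ^ h) N := by
  have h0 : 0 < q j ^ H j := qpow_pos (hq j) _
  have h1 : p * (M * N + i) = q j ^ H j * (q j ^ h * (p * Q j * N)) + p * i := by
    calc p * (M * N + i) = M * (p * N) + p * i := by ring
      _ = q j ^ (h + H j) * Q j * (p * N) + p * i := by rw [← hM.eq j]
      _ = _ := by
        rw [pow_add]
        ring
  rw [h1, Nat.mul_add_div h0]
  unfold sd
  have h2 := Nat.div_add_mod (p * i / q j ^ H j) (q j ^ h)
  calc q j ^ h * (p * Q j * N) + p * i / q j ^ H j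
      = q j ^ h * (p * Q j * N) + (q j ^ h * (p * i / q j ^ H j / q j ^ h) +
        p * i / q j ^ H j % q j ^ h) := by rw [h2]
    _ = _ := by ring

theorem bH_mul (hq : ∀ i, 2 ≤ q i) {H : ι → ℕ} {M h : ℕ} {Q : ι → ℕ} (hM : MdH q H M h Q)
    (p N i : ℕ) :
    bH q H β ω (p * (M * N + i)) = BW q β ω h (fun j => p * Q j)
      (fun j => p * i / q j ^ H j / q j ^ h) (fun j => p * i / q j ^ H j % q j ^ h) N := by
  funext j
  unfold bH BW
  rw [sd_mul hq hM]

theorem eH_mul (hq : ∀ i, 2 ≤ q i) {H : ι → ℕ} {M h : ℕ} {Q : ι → ℕ} (hM : MdH q H M h Q)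
    (p N i : ℕ) :
    eH q H e (p * (M * N + i)) = EE q e h (fun j => p * Q j)
      (fun j => p * i / q j ^ H j / q j ^ h) (fun j => p * i / q j ^ H j % q j ^ h) N := by
  funext j
  unfold eH EE
  rw [sd_mul hq hM]

theorem bd_mul (hq : ∀ i, 2 ≤ q i) {H : ι → ℕ} {M h : ℕ} {Q : ι → ℕ} (hM : MdH q H M h Q)
    (p : ℕ) {i : ℕ} (hi : i < M) :
    Bd q h (fun j => p * Q j) (fun j => p * i / q j ^ H j / q j ^ h)
      (fun j => p * i / q j ^ H j % q j ^ h) := by
  refine ⟨fun j => ?_, fun j => Nat.mod_lt _ (qpow_pos (hq j) h)⟩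
  show p * i / q j ^ H j / q j ^ h ≤ p * Q j
  rw [Nat.div_div_eq_div_mul]
  refine Nat.div_le_of_le_mul ?_
  calc p * i ≤ p * M := Nat.mul_le_mul_left _ hi.le
    _ = p * (q j ^ (h + H j) * Q j) := by rw [← hM.eq j]
    _ = q j ^ H j * q j ^ h * (p * Q j) := by
      rw [pow_add]
      ring

/-- the centred function at a multiple of a number in a block -/
theorem cN_block (Sy : NSys q m β ω e C Λ N' u) {H : ι → ℕ} {M h : ℕ} {Q : ι → ℕ}
    (hM : MdH q H M h Q) {a p i k t y n : ℕ} (hp : 1 ≤ p) (hy : 2 ^ t ≤ y)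
    (hy' : y < 2 ^ (t + 1)) (hn : n < 2 ^ k) (hi : i < M) (ha : (p * i) % M = a)
    {g : (∀ i, S i) → (∀ i, Fin (d i) → ℤ) → ℝ} {ε : ℝ}
    (hmean : ∀ s ≤ t + p + M + 2, ∀ x,
      |mN q (k + s) β ω e Λ u g x - mN q k β ω e Λ u g x| ≤ ε) :
    |cN q H β ω e Λ u M a g (p * (M * (2 ^ k * y + n) + i)) -
      (g (BW q β ω h (fun j => p * Q j) (fun j => p * i / q j ^ H j / q j ^ h)
          (fun j => p * i / q j ^ H j % q j ^ h) (2 ^ k * y + n))
        (EE q e h (fun j => p * Q j) (fun j => p * i / q j ^ H j / q j ^ h)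
          (fun j => p * i / q j ^ H j % q j ^ h) (2 ^ k * y + n)) -
        mN q k β ω e Λ u g (BW q β ω h (fun j => p * Q j) (fun j => p * i / q j ^ H j / q j ^ h)
          (fun j => p * i / q j ^ H j % q j ^ h) (2 ^ k * y + n)))| ≤ ε := by
  obtain ⟨s, hs, hlog⟩ := log_block (p := p) hM.pos hp hy hy' hn hi
  have e2 : (p * (M * (2 ^ k * y + n) + i)) % M = a := by
    have h1 : p * (M * (2 ^ k * y + n) + i) = p * i + M * (p * (2 ^ k * y + n)) := by ring
    rw [h1, Nat.add_mul_mod_self_left, ha]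
  unfold cN
  rw [if_pos e2, hlog, bH_mul Sy.sys.base hM, eH_mul Sy.sys.base hM]
  have e4 : ∀ A B C : ℝ, A - B - (A - C) = -(B - C) := fun A B C => by ring
  rw [e4, abs_neg]
  exact hmean s hs _

theorem cN_off {H : ι → ℕ} {M a p i N : ℕ} {g : (∀ i, S i) → (∀ i, Fin (d i) → ℤ) → ℝ}
    (ha : (p * i) % M ≠ a) : cN q H β ω e Λ u M a g (p * (M * N + i)) = 0 := by
  unfold cN
  rw [if_neg]
  intro h1
  apply ha
  have e1 : p * (M * N + i) = p * i + M * (p * N) := by ring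
  rw [e1, Nat.add_mul_mod_self_left] at h1
  exact h1

/-- large primes are coprime to the bases -/
theorem cop_prime (hq : ∀ i, 2 ≤ q i) {p : ℕ} (hp : p.Prime) (hp₀ : ∑ i, q i + 1 ≤ p) (i : ι) :
    p.Coprime (q i) := by
  refine (Nat.Prime.coprime_iff_not_dvd hp).mpr fun hdvd => ?_
  have h1 := Nat.le_of_dvd (by have := hq i; omega) hdvd
  have h2 : q i ≤ ∑ i, q i :=
    Finset.single_le_sum (f := q) (fun _ _ => Nat.zero_le _) (Finset.mem_univ i)
  omega

/-- the multipliers of the Kátai criterion are admissible -/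
theorem exists_mulN (Sy : NSys q m β ω e C Λ N' u) : ∃ K : ℕ, ∀ {H : ι → ℕ} {M h : ℕ}
    {Q : ι → ℕ}, MdH q H M h Q → ∀ p r : ℕ, p.Prime → r.Prime → ∑ i, q i + 1 ≤ p →
    K * p ≤ r → p < r → MulN q m β ω (fun i => p * Q i) (fun i => r * Q i) := by
  choose K₀ _ hK₀ using fun i => reach2 (Sy.sys.base i) (Sy.qm i) (Sy.core i)
  refine ⟨∑ i, (K₀ i + 2 * q i ^ m), fun {H M h Q} hM p r hp hr hp₀ hK hpr => ?_⟩
  have hle : ∀ i, (K₀ i + 2 * q i ^ m) * p ≤ r := fun i =>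
    (Nat.mul_le_mul_right p (Finset.single_le_sum (f := fun i => K₀ i + 2 * q i ^ m)
      (fun _ _ => Nat.zero_le _) (Finset.mem_univ i))).trans hK
  have hQ1 : ∀ i, 1 ≤ Q i := by
    intro i
    rcases Nat.eq_zero_or_pos (Q i) with h0 | h0
    · have h1 := hM.cop i
      rw [h0, Nat.coprime_zero_left] at h1
      have := Sy.sys.base i
      omega
    · exact h0
  have hpq := cop_prime Sy.sys.base hp hp₀
  have hrq := cop_prime Sy.sys.base hr (hp₀.trans hpr.le)
  have hPc : ∀ i, (p * Q i).Coprime (q i) := fun i => Nat.Coprime.mul_left (hpq i) (hM.cop i)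
  have hRc : ∀ i, (r * Q i).Coprime (q i) := fun i => Nat.Coprime.mul_left (hrq i) (hM.cop i)
  have hP1 : ∀ i, 1 ≤ p * Q i := fun i => Nat.mul_pos hp.pos (hQ1 i)
  refine ⟨⟨hPc, hRc, hP1, fun i => ?_⟩, fun i => (hM.dv i).mul_left p,
    fun i => (hM.dv i).mul_left r, fun i => ?_⟩
  · calc 2 * q i ^ m * (p * Q i) = (2 * q i ^ m * p) * Q i := by ring
      _ ≤ r * Q i := Nat.mul_le_mul_right _ (le_trans
        (Nat.mul_le_mul_right _ (Nat.le_add_left _ _)) (hle i))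
  · refine hK₀ i _ _ (hP1 i) (hPc i) (hRc i) ((hM.dv i).mul_left p) ((hM.dv i).mul_left r) ?_
    calc K₀ i * (p * Q i) = (K₀ i * p) * Q i := by ring
      _ ≤ r * Q i := Nat.mul_le_mul_right _ (le_trans
        (Nat.mul_le_mul_right _ (Nat.le_add_right _ _)) (hle i))

/-- the hypothesis of the Kátai criterion -/
theorem cN_katai (Sy : NSys q m β ω e C Λ N' u) {K : ℕ} (hKm : ∀ {H : ι → ℕ} {M h : ℕ}
    {Q : ι → ℕ}, MdH q H M h Q → ∀ p r : ℕ, p.Prime → r.Prime → ∑ i, q i + 1 ≤ p →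
    K * p ≤ r → p < r → MulN q m β ω (fun i => p * Q i) (fun i => r * Q i)) {H : ι → ℕ}
    {M h : ℕ} {Q : ι → ℕ} (hM : MdH q H M h Q) (a : ℕ)
    {g : (∀ i, S i) → (∀ i, Fin (d i) → ℤ) → ℝ} (hg : ∀ s x, |g s x| ≤ 1) {ε : ℝ}
    (hε : 0 < ε) :
    ∃ p₀ : ℕ, ∀ p r : ℕ, p.Prime → r.Prime → p₀ ≤ p → K * p ≤ r → p < r →
      ∀ᶠ N : ℕ in atTop, |LogAvg (fun n => cN q H β ω e Λ u M a g (p * n) *
        cN q H β ω e Λ u M a g (r * n)) N| ≤ ε := by
  set ε' : ℝ := ε / 8 with hε'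
  have hε'0 : 0 < ε' := by positivity
  obtain ⟨r₀, hr₀⟩ := pairN Sy hM.cop (ε := ε' / 4) (by positivity)
  refine ⟨max r₀ (∑ i, q i + 1), fun p r hp hr hp₀ hK hpr => ?_⟩
  have hp₁ := (le_max_right r₀ (∑ i, q i + 1)).trans hp₀
  have hcop : p.Coprime r := (Nat.coprime_primes hp hr).mpr hpr.ne
  have hr1 : r₀ ≤ r := (le_max_left _ _).trans (hp₀.trans hpr.le)
  have hmul := hKm hM p r hp hr hp₁ hK hpr
  have hpair := hr₀ p r hp.one_le (cop_prime Sy.sys.base hp hp₁)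
    (cop_prime Sy.sys.base hr (hp₁.trans hpr.le)) hcop hr1 hmul h
  have hblock := block_log (q := 2) (M := M) le_rfl hM.pos
    (u := fun n => cN q H β ω e Λ u M a g (p * n) * cN q H β ω e Λ u M a g (r * n)) (A := 4)
    (fun n => by
      rw [abs_mul]
      calc |cN q H β ω e Λ u M a g (p * n)| * |cN q H β ω e Λ u M a g (r * n)| ≤ 2 * 2 :=
            mul_le_mul (abs_cN_le Sy hg _) (abs_cN_le Sy hg _) (abs_nonneg _) (by norm_num)
        _ = 4 := by norm_num) (η := ε') hε'0.le (fun t ε₂ hε₂ => by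
      have hmean := mN_slow Sy (t + r + M + 2) (ε := ε₂ / 4) (by positivity)
      filter_upwards [hpair (2 ^ (t + 1)), hmean] with k hk1 hk2 y hy1 hy2 i hi
      by_cases hpi : (p * i) % M = a
      swap
      · have hz : ∀ n, cN q H β ω e Λ u M a g (p * (M * (2 ^ k * y + n) + i)) = 0 :=
          fun n => cN_off hpi
        simp only [hz, zero_mul]
        rw [av_const le_rfl, abs_zero]
        positivity
      by_cases hri : (r * i) % M = a
      swap
      · have hz : ∀ n, cN q H β ω e Λ u M a g (r * (M * (2 ^ k * y + n) + i)) = 0 :=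
          fun n => cN_off hri
        simp only [hz, mul_zero]
        rw [av_const le_rfl, abs_zero]
        positivity
      -- the main case
      have hbd := fun p : ℕ => bd_mul Sy.sys.base hM p hi
      set m₀ : (∀ i, S i) → ℝ := mN q k β ω e Λ u g with hm₀
      have hm₀a : ∀ x, |m₀ x| ≤ 1 := fun x => mN_abs Sy hg x
      set gh : (∀ i, S i) → (∀ i, Fin (d i) → ℤ) → ℝ := fun s x => (g s x - m₀ s) / 2 with hgh
      have hgh1 : ∀ s x, |gh s x| ≤ 1 := by
        intro s x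
        rw [hgh]
        simp only
        rw [abs_div, abs_of_pos (by norm_num : (0 : ℝ) < 2), div_le_iff₀ (by norm_num)]
        have := abs_sub (g s x) (m₀ s)
        linarith [hg s x, hm₀a s]
      have hgh0 : ∀ x, mN q k β ω e Λ u gh x = 0 := fun x => mN_centred Sy g x
      have k1 := hk1 y hy2.le _ _ _ _ (hbd p) (hbd r) gh gh hgh1 hgh1
      simp only [hgh0, mul_zero, sub_zero] at k1
      set Z : ℕ → ℝ := fun n => g (BW q β ω h (fun j => p * Q j)
          (fun j => p * i / q j ^ H j / q j ^ h) (fun j => p * i / q j ^ H j % q j ^ h)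
          (2 ^ k * y + n)) (EE q e h (fun j => p * Q j) (fun j => p * i / q j ^ H j / q j ^ h)
          (fun j => p * i / q j ^ H j % q j ^ h) (2 ^ k * y + n)) -
        m₀ (BW q β ω h (fun j => p * Q j) (fun j => p * i / q j ^ H j / q j ^ h)
          (fun j => p * i / q j ^ H j % q j ^ h) (2 ^ k * y + n)) with hZ
      set Z' : ℕ → ℝ := fun n => g (BW q β ω h (fun j => r * Q j)
          (fun j => r * i / q j ^ H j / q j ^ h) (fun j => r * i / q j ^ H j % q j ^ h)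
          (2 ^ k * y + n)) (EE q e h (fun j => r * Q j) (fun j => r * i / q j ^ H j / q j ^ h)
          (fun j => r * i / q j ^ H j % q j ^ h) (2 ^ k * y + n)) -
        m₀ (BW q β ω h (fun j => r * Q j) (fun j => r * i / q j ^ H j / q j ^ h)
          (fun j => r * i / q j ^ H j % q j ^ h) (2 ^ k * y + n)) with hZ'
      have hZa' : ∀ n, |Z' n| ≤ 2 := fun n => (abs_sub _ _).trans (by
        linarith [hg (BW q β ω h (fun j => r * Q j)
          (fun j => r * i / q j ^ H j / q j ^ h) (fun j => r * i / q j ^ H j % q j ^ h)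
          (2 ^ k * y + n)) (EE q e h (fun j => r * Q j) (fun j => r * i / q j ^ H j / q j ^ h)
          (fun j => r * i / q j ^ H j % q j ^ h) (2 ^ k * y + n)),
          hm₀a (BW q β ω h (fun j => r * Q j) (fun j => r * i / q j ^ H j / q j ^ h)
          (fun j => r * i / q j ^ H j % q j ^ h) (2 ^ k * y + n))])
      have hclose : ∀ n < 2 ^ k, |cN q H β ω e Λ u M a g (p * (M * (2 ^ k * y + n) + i)) *
          cN q H β ω e Λ u M a g (r * (M * (2 ^ k * y + n) + i)) - Z n * Z' n| ≤ ε₂ := by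
        intro n hn
        have c1 := cN_block Sy hM hp.one_le hy1 hy2 hn hi hpi (g := g)
          (ε := ε₂ / 4) (fun s hs x => hk2 s (by omega) g hg x)
        have c2 := cN_block Sy hM hr.one_le hy1 hy2 hn hi hri (g := g)
          (ε := ε₂ / 4) (fun s hs x => hk2 s hs g hg x)
        have c3 := abs_mul_sub_le (abs_cN_le Sy hg _) (hZa' n) c1 c2
        refine c3.trans (le_of_eq (by ring))
      have hmain : |av 2 k (fun n => Z n * Z' n)| ≤ ε' := by
        have e1 : av 2 k (fun n => Z n * Z' n) = 4 * av 2 k (fun n =>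
            gh (BW q β ω h (fun j => p * Q j) (fun j => p * i / q j ^ H j / q j ^ h)
              (fun j => p * i / q j ^ H j % q j ^ h) (2 ^ k * y + n))
              (EE q e h (fun j => p * Q j) (fun j => p * i / q j ^ H j / q j ^ h)
              (fun j => p * i / q j ^ H j % q j ^ h) (2 ^ k * y + n)) *
            gh (BW q β ω h (fun j => r * Q j) (fun j => r * i / q j ^ H j / q j ^ h)
              (fun j => r * i / q j ^ H j % q j ^ h) (2 ^ k * y + n))
              (EE q e h (fun j => r * Q j) (fun j => r * i / q j ^ H j / q j ^ h)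
              (fun j => r * i / q j ^ H j % q j ^ h) (2 ^ k * y + n))) := by
          rw [← av_const_mul]
          congr 1
          funext n
          simp only [hZ, hZ', hgh]
          ring
        rw [e1, abs_mul, abs_of_pos (by norm_num : (0 : ℝ) < 4)]
        linarith
      have hcl := av_close (q := 2) le_rfl hclose
      have t1 := abs_le.mp hcl
      have t2 := abs_le.mp hmain
      rw [abs_le]
      constructor
      · linarith [t1.1, t2.1]
      · linarith [t1.2, t2.2]) (ε := ε / 2) (by positivity)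
  filter_upwards [hblock] with N hN
  refine hN.trans (le_of_eq ?_)
  rw [hε']
  push_cast
  ring

theorem log_cell {k Y s : ℕ} (hY : 1 ≤ Y) (hs : s < 2 ^ k) :
    Nat.log 2 (2 ^ k * Y + s) = k + Nat.log 2 Y := by
  have hY0 : Y ≠ 0 := by omega
  have l1 : 2 ^ Nat.log 2 Y ≤ Y := Nat.pow_log_le_self 2 hY0
  have l2 : Y < 2 ^ (Nat.log 2 Y + 1) := Nat.lt_pow_succ_log_self (by omega) Y
  refine (Nat.log_eq_iff (Or.inr ⟨by omega, ?_⟩)).mpr ⟨?_, ?_⟩
  · have : 0 < 2 ^ k * Y := Nat.mul_pos (by positivity) hY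
    omega
  · calc 2 ^ (k + Nat.log 2 Y) = 2 ^ k * 2 ^ Nat.log 2 Y := pow_add _ _ _
      _ ≤ 2 ^ k * Y := Nat.mul_le_mul_left _ l1
      _ ≤ 2 ^ k * Y + s := Nat.le_add_right _ _
  · calc 2 ^ k * Y + s < 2 ^ k * Y + 2 ^ k := by omega
      _ = 2 ^ k * (Y + 1) := by ring
      _ ≤ 2 ^ k * 2 ^ (Nat.log 2 Y + 1) := Nat.mul_le_mul_left _ l2
      _ = 2 ^ (k + Nat.log 2 Y + 1) := by ring

open Classical in
/-- the structured part -/
theorem cN_struct (Sy : NSys q m β ω e C Λ N' u) {H : ι → ℕ} {M h : ℕ} {Q : ι → ℕ}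
    (hM : MdH q H M h Q) (a : ℕ) {g : (∀ i, S i) → (∀ i, Fin (d i) → ℤ) → ℝ}
    (hg : ∀ s x, |g s x| ≤ 1) :
    Tendsto (LogAvg fun n => mu n * (if n % M = a then
      mN q (Nat.log 2 n) β ω e Λ u g (bH q H β ω n) else 0)) atTop (𝓝 0) := by
  refine struct2 (Q := M) (a := a) (k₀ := ∑ i, q i ^ H i) hM.pos
    (M := fun n => mN q (Nat.log 2 n) β ω e Λ u g (bH q H β ω n))
    (Good := fun k Y => 1 ≤ Y ∧ ∀ i, Gk (q i) m (ω i) 1 k Y) (fun n => mN_abs Sy hg _) ?_ ?_
  · rintro k Y s s' hk ⟨hY1, hgd⟩ hs hs' h1 h2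
    have hpow : ∀ i, q i ^ H i ≤ 2 ^ k := by
      intro i
      have h3 := Finset.single_le_sum (f := fun i => q i ^ H i) (fun _ _ => Nat.zero_le _)
        (Finset.mem_univ i)
      calc q i ^ H i ≤ ∑ i, q i ^ H i := h3
        _ ≤ k := hk
        _ ≤ 2 ^ k := (Nat.lt_two_pow_self).le
    have hmod : ∀ i, 2 ^ k * Y + s ≡ 2 ^ k * Y + s' [MOD (q i ^ H i * (q i - 1))] := by
      intro i
      have h3 : 2 ^ k * Y + s ≡ 2 ^ k * Y + s' [MOD M] := by
        show _ % _ = _ % _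
        rw [h1, h2]
      refine h3.of_dvd ?_
      rw [hM.eq i, pow_add, mul_comm (q i ^ h), mul_assoc]
      exact Nat.mul_dvd_mul_left _ ((hM.dv i).mul_left _)
    choose l hl hle using fun i => struct_constN (Sy.sys.base i) (Sy.qm i) (Sy.core i) (hgd i)
      (hpow i) hs hs' (hmod i)
    have hb : bH q H β ω (2 ^ k * Y + s') = bH q H β ω (2 ^ k * Y + s) * l := by
      funext i
      exact hle i
    simp only [log_cell hY1 hs, log_cell hY1 hs']
    rw [hb, mN_shift Sy (mem_PL.mpr hl)]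
  · intro ε hε
    obtain ⟨j, hj⟩ := gk_all Sy.sys.base m ω (P := fun _ => 1) (R := fun _ => 1)
      (fun _ => le_rfl) (fun _ => le_rfl) hε
    refine ⟨j, fun k _ => ?_⟩
    have h1 := hj k 1
    refine le_trans ?_ h1
    have hinj : ((Finset.Ico (2 ^ j) (2 ^ (j + 1))).filter
        (fun Y => ¬ (1 ≤ Y ∧ ∀ i, Gk (q i) m (ω i) 1 k Y))) ⊆
        ((Finset.range (2 ^ j)).filter (fun n => ¬ ∀ i,
          Gk (q i) m (ω i) 1 k (2 ^ j * 1 + n) ∧ Gk (q i) m (ω i) 1 k (2 ^ j * 1 + n))).image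
          (fun n => 2 ^ j * 1 + n) := by
      intro Y hY
      rw [Finset.mem_filter, Finset.mem_Ico] at hY
      obtain ⟨⟨hY1, hY2⟩, hY3⟩ := hY
      rw [Finset.mem_image]
      have hpos : 0 < 2 ^ j := by positivity
      have e1 : 2 ^ j * 1 + (Y - 2 ^ j) = Y := by omega
      refine ⟨Y - 2 ^ j, ?_, e1⟩
      rw [Finset.mem_filter, Finset.mem_range, e1]
      refine ⟨?_, fun h => hY3 ⟨by omega, fun i => (h i).1⟩⟩
      rw [pow_succ] at hY2
      omega
    have h4 := (Finset.card_le_card hinj).trans Finset.card_image_le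
    refine le_trans (le_of_eq ?_) ((Nat.cast_le.mpr h4).trans (le_of_eq ?_)) <;> congr

/-- functions of the upper digits in a class, admissible moduli -/
theorem class_gen (Sy : NSys q m β ω e C Λ N' u) {H : ι → ℕ} {M h : ℕ} {Q : ι → ℕ}
    (hM : MdH q H M h Q) (a : ℕ) {g : (∀ i, S i) → (∀ i, Fin (d i) → ℤ) → ℝ}
    (hg : ∀ s x, |g s x| ≤ 1) :
    Tendsto (LogAvg fun n => mu n * (if n % M = a then
      g (bH q H β ω n) (eH q H e n) else 0)) atTop (𝓝 0) := by
  obtain ⟨K, hK⟩ := exists_mulN Sy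
  have h1 : Tendsto (LogAvg fun n => mu n * cN q H β ω e Λ u M a g n) atTop (𝓝 0) :=
    katai_log' (abs_cN_le Sy hg) (K := K) fun ε hε => cN_katai Sy hK hM a hg hε
  have h2 := cN_struct Sy hM a hg
  have h3 := h1.add h2
  rw [add_zero] at h3
  refine h3.congr fun N => ?_
  rw [← LogAvg_add]
  refine LogAvg_congr fun n _ _ => ?_
  unfold cN
  split_ifs
  · ring
  · ring

end several

end Pool.Agent.Lib.MP_3e612f_nt.NB
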