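import Pool.Agent.Lib.MP_3e612f_nt.NDefs
import Pool.Agent.Lib.MP_3e612f_nt.MIncr

/-!
MP_3e612f_nt (NB), N5: collisions in coprime bases are independent (helper84).
-/

set_option autoImplicit false

namespace Pool.Agent.Lib.MP_3e612f_nt.NB

open Filter Topology
open Pool.Agent.Lib.MP_3e612f_nt.QA Pool.Agent.Lib.MP_3e612f_nt.SA Pool.Agent.Lib.MP_3e612f_nt.MB

/-- the average of a product of functions in coprime bases -/
theorem nc_approx {ι : Type*} [Fintype ι] [DecidableEq ι] {q : ι → ℕ} (hq : ∀ i, 2 ≤ q i)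
    (hc : ∀ i j, i ≠ j → (q i).Coprime (q j)) {a k : ℕ}
    (hk : (4 * Fintype.card ι + 4) * a ≤ k) {g : ι → ℕ → ℝ}
    (hg : ∀ i n, 0 ≤ g i n ∧ g i n ≤ 1) (D : ι → Finset ℕ) {η : ℝ} (hη : 0 ≤ η)
    (hD : ∀ i n, n % q i ^ (lg (q i) (2 * a) + 1) ∉ D i →
      g i n = g i (n % q i ^ (lg (q i) (2 * a) + 1)))
    (hDc : ∀ i, ((D i).card : ℝ) ≤ η * (q i ^ (lg (q i) (2 * a) + 1) : ℕ)) (u : ℕ) :
    |av 2 k (fun n => ∏ i, g i (u + n)) - ∏ i, av (q i) (lg (q i) (2 * a) + 1) (g i)| ≤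
      (∑ i, (1 + (q i : ℝ))) * η + 2 * (∏ i, (q i : ℝ)) * (1 / 2) ^ a := by
  set N : ι → ℕ := fun i => q i ^ (lg (q i) (2 * a) + 1) with hN
  have hN1 : ∀ i, 1 ≤ N i := fun i => Nat.one_le_pow _ _ (by have := hq i; omega)
  have hNc : ∀ i j, i ≠ j → (N i).Coprime (N j) := fun i j hij =>
    Nat.Coprime.pow _ _ (hc i j hij)
  have hNle : ∀ i, (N i : ℝ) ≤ q i * 2 ^ (2 * a) := by
    intro i
    have h1 : q i ^ lg (q i) (2 * a) ≤ 2 ^ (2 * a) := Nat.pow_log_le_self _ (by positivity)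
    have h2 : N i ≤ q i * 2 ^ (2 * a) := by
      simp only [hN]
      rw [pow_succ, mul_comm]
      exact Nat.mul_le_mul_left _ h1
    exact_mod_cast h2
  have hT1 : 1 ≤ 2 ^ k := Nat.one_le_two_pow
  have hT0 : (0 : ℝ) < (2 : ℝ) ^ k := by positivity
  have hf0 : ∀ i x, 0 ≤ g i x := fun i x => (hg i x).1
  have hf1 : ∀ i x, g i x ≤ 1 := fun i x => (hg i x).2
  have hfa : ∀ i x, |g i x| ≤ 1 := fun i x => abs_le.2 ⟨by linarith [hf0 i x], hf1 i x⟩
  have hcrt := crt_av hN1 hNc hfa hT1 u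
  -- the products
  have hprod : ∏ i, av (q i) (lg (q i) (2 * a) + 1) (g i) =
      ∏ i, (∑ n ∈ Finset.range (N i), g i n) / N i := by
    refine Finset.prod_congr rfl fun i _ => ?_
    unfold av
    simp only [hN]
    push_cast
    rfl
  rw [hprod]
  have hav : av 2 k (fun n => ∏ i, g i (u + n)) =
      (∑ n ∈ Finset.range (2 ^ k), ∏ i, g i (u + n)) / ((2 ^ k : ℕ) : ℝ) := by
    unfold av
    push_cast
    rfl
  rw [hav]
  -- first error
  have herr : |(∑ n ∈ Finset.range (2 ^ k), ∏ i, g i (u + n)) / ((2 ^ k : ℕ) : ℝ) -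
      (∑ n ∈ Finset.range (2 ^ k), ∏ i, g i ((u + n) % N i)) / ((2 ^ k : ℕ) : ℝ)| ≤
      (∑ i, (1 + (q i : ℝ))) * η := by
    have hpt : ∀ n, |∏ i, g i (u + n) - ∏ i, g i ((u + n) % N i)| ≤
        ∑ i, (if (u + n) % N i ∈ D i then (1 : ℝ) else 0) := by
      intro n
      by_cases hall : ∀ i, (u + n) % N i ∉ D i
      · have : ∏ i, g i (u + n) = ∏ i, g i ((u + n) % N i) :=
          Finset.prod_congr rfl fun i _ => hD i (u + n) (hall i)
        rw [this, sub_self, abs_zero]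
        exact Finset.sum_nonneg fun i _ => by split_ifs <;> norm_num
      · push Not at hall
        obtain ⟨i, hi⟩ := hall
        have h1 : (1 : ℝ) ≤ ∑ i, (if (u + n) % N i ∈ D i then (1 : ℝ) else 0) := by
          refine le_trans (le_of_eq ?_) (Finset.single_le_sum
            (f := fun i => if (u + n) % N i ∈ D i then (1 : ℝ) else 0)
            (fun i _ => by split_ifs <;> norm_num) (Finset.mem_univ i))
          simp only [if_pos hi]
        refine le_trans ?_ h1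
        have a1 : 0 ≤ ∏ i, g i (u + n) := Finset.prod_nonneg fun i _ => hf0 i _
        have a2 : ∏ i, g i (u + n) ≤ 1 := Finset.prod_le_one (fun i _ => hf0 i _) fun i _ => hf1 i _
        have a3 : 0 ≤ ∏ i, g i ((u + n) % N i) := Finset.prod_nonneg fun i _ => hf0 i _
        have a4 : ∏ i, g i ((u + n) % N i) ≤ 1 :=
          Finset.prod_le_one (fun i _ => hf0 i _) fun i _ => hf1 i _
        rw [abs_le]
        constructor <;> linarith
    rw [← sub_div, ← Finset.sum_sub_distrib, abs_div, abs_of_pos (by positivity :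
      (0 : ℝ) < ((2 ^ k : ℕ) : ℝ))]
    calc |∑ n ∈ Finset.range (2 ^ k), (∏ i, g i (u + n) - ∏ i, g i ((u + n) % N i))| /
          ((2 ^ k : ℕ) : ℝ)
        ≤ (∑ n ∈ Finset.range (2 ^ k), ∑ i, (if (u + n) % N i ∈ D i then (1 : ℝ) else 0)) /
          ((2 ^ k : ℕ) : ℝ) := by
          refine div_le_div_of_nonneg_right ?_ (by positivity)
          exact (Finset.abs_sum_le_sum_abs _ _).trans (Finset.sum_le_sum fun n _ => hpt n)
      _ = ∑ i, (((Finset.range (2 ^ k)).filter (fun n => (u + n) % N i ∈ D i)).card : ℝ) /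
          ((2 ^ k : ℕ) : ℝ) := by
          rw [Finset.sum_comm, Finset.sum_div]
          refine Finset.sum_congr rfl fun i _ => ?_
          rw [Finset.card_filter]
          push_cast
          rfl
      _ ≤ ∑ i, (1 + (q i : ℝ)) * η := by
          refine Finset.sum_le_sum fun i _ => ?_
          refine (mi_prop (hN1 i) hT1 (D i) u).trans ?_
          have hNi : (0 : ℝ) < N i := by exact_mod_cast hN1 i
          have b1 : ((D i).card : ℝ) / N i ≤ η := by
            rw [div_le_iff₀ hNi]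
            exact hDc i
          have b2 : ((D i).card : ℝ) / ((2 ^ k : ℕ) : ℝ) ≤ η * q i := by
            rw [div_le_iff₀ (by positivity)]
            refine (hDc i).trans ?_
            push_cast
            rw [mul_assoc η (q i : ℝ)]
            refine mul_le_mul_of_nonneg_left ?_ hη
            have b3 := hNle i
            simp only [hN] at b3
            push_cast at b3
            refine b3.trans ?_
            have b4 : (2 : ℝ) ^ (2 * a) ≤ 2 ^ k := by
              refine pow_le_pow_right₀ (by norm_num) ?_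
              nlinarith
            gcongr
          calc ((D i).card : ℝ) / N i + ((D i).card : ℝ) / ((2 ^ k : ℕ) : ℝ)
              ≤ η + η * q i := add_le_add b1 b2
            _ = (1 + q i) * η := by ring
      _ = (∑ i, (1 + (q i : ℝ))) * η := by rw [Finset.sum_mul]
  -- second error
  have hfin : 2 * (∏ i, (N i : ℝ)) / ((2 ^ k : ℕ) : ℝ) ≤ 2 * (∏ i, (q i : ℝ)) * (1 / 2) ^ a := by
    rw [div_le_iff₀ (by positivity), mul_assoc, mul_assoc]
    refine mul_le_mul_of_nonneg_left ?_ (by norm_num)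
    have b1 : ∏ i, (N i : ℝ) ≤ ∏ i, ((q i : ℝ) * 2 ^ (2 * a)) :=
      Finset.prod_le_prod (fun i _ => Nat.cast_nonneg _) fun i _ => hNle i
    rw [Finset.prod_mul_distrib, Finset.prod_const, Finset.card_univ, ← pow_mul] at b1
    refine b1.trans ?_
    have b2 : 0 ≤ ∏ i, (q i : ℝ) := Finset.prod_nonneg fun i _ => Nat.cast_nonneg _
    refine mul_le_mul_of_nonneg_left ?_ b2
    push_cast
    rw [one_div, inv_pow, inv_mul_eq_div, le_div_iff₀ (by positivity), ← pow_add]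
    refine pow_le_pow_right₀ (by norm_num) ?_
    nlinarith
  have htri := abs_sub_le ((∑ n ∈ Finset.range (2 ^ k), ∏ i, g i (u + n)) / ((2 ^ k : ℕ) : ℝ))
    ((∑ n ∈ Finset.range (2 ^ k), ∏ i, g i ((u + n) % N i)) / ((2 ^ k : ℕ) : ℝ))
    (∏ i, (∑ n ∈ Finset.range (N i), g i n) / N i)
  linarith

/-- N5 (NColl.lean): collisions in coprime bases are independent -/
theorem coll_law {ι : Type*} [Fintype ι] [DecidableEq ι] {q : ι → ℕ} (hq : ∀ i, 2 ≤ q i)
    (hc : ∀ i j, i ≠ j → (q i).Coprime (q j)) (i₀ : ι) {a k : ℕ}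
    (hk : (4 * Fintype.card ι + 4) * a ≤ k) {g g' : ι → ℕ → ℝ}
    (hg : ∀ i n, 0 ≤ g i n ∧ g i n ≤ 1) (hg' : ∀ i n, 0 ≤ g' i n ∧ g' i n ≤ 1)
    (hgg : ∀ i, i ≠ i₀ → g i = g' i) (D : ι → Finset ℕ) {η : ℝ} (hη : 0 ≤ η)
    (hD : ∀ i n, n % q i ^ (lg (q i) (2 * a) + 1) ∉ D i →
      g i n = g i (n % q i ^ (lg (q i) (2 * a) + 1)) ∧
      g' i n = g' i (n % q i ^ (lg (q i) (2 * a) + 1)))
    (hDc : ∀ i, ((D i).card : ℝ) ≤ η * (q i ^ (lg (q i) (2 * a) + 1) : ℕ)) (u : ℕ) :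
    |av 2 k (fun n => ∏ i, g i (u + n)) - av 2 k (fun n => ∏ i, g' i (u + n))| ≤
      (∏ i ∈ Finset.univ.erase i₀, av (q i) (lg (q i) (2 * a) + 1) (g i)) *
        |av (q i₀) (lg (q i₀) (2 * a) + 1) (g i₀) -
          av (q i₀) (lg (q i₀) (2 * a) + 1) (g' i₀)| +
      2 * ((∑ i, (1 + (q i : ℝ))) * η + 2 * (∏ i, (q i : ℝ)) * (1 / 2) ^ a) := by
  have h1 := nc_approx hq hc hk hg D hη (fun i n hn => (hD i n hn).1) hDc u
  have h2 := nc_approx hq hc hk hg' D hη (fun i n hn => (hD i n hn).2) hDc u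
  set A : ι → ℝ := fun i => av (q i) (lg (q i) (2 * a) + 1) (g i) with hA
  set A' : ι → ℝ := fun i => av (q i) (lg (q i) (2 * a) + 1) (g' i) with hA'
  set I₁ := av 2 k (fun n => ∏ i, g i (u + n))
  set I₂ := av 2 k (fun n => ∏ i, g' i (u + n))
  have hpos : 0 ≤ ∏ i ∈ Finset.univ.erase i₀, A i := by
    refine Finset.prod_nonneg fun i _ => ?_
    simp only [hA]
    unfold av
    exact div_nonneg (Finset.sum_nonneg fun n _ => (hg i n).1) (by positivity)
  have hdiff : |∏ i, A i - ∏ i, A' i| = (∏ i ∈ Finset.univ.erase i₀, A i) * |A i₀ - A' i₀| := by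
    have e1 : ∏ i ∈ Finset.univ.erase i₀, A' i = ∏ i ∈ Finset.univ.erase i₀, A i := by
      refine Finset.prod_congr rfl fun i hi => ?_
      have hne : i ≠ i₀ := Finset.ne_of_mem_erase hi
      simp only [hA, hA', hgg i hne]
    rw [← Finset.mul_prod_erase Finset.univ A (Finset.mem_univ i₀),
      ← Finset.mul_prod_erase Finset.univ A' (Finset.mem_univ i₀), e1, ← sub_mul, abs_mul,
      abs_of_nonneg hpos, mul_comm]
  have h3 : |I₁ - I₂| ≤ |I₁ - ∏ i, A i| + |∏ i, A i - ∏ i, A' i| + |I₂ - ∏ i, A' i| := by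
    rw [abs_sub_comm I₂]
    exact (abs_sub_le _ (∏ i, A' i) _).trans (add_le_add (abs_sub_le _ _ _) le_rfl)
  rw [hdiff] at h3
  change |I₁ - I₂| ≤ (∏ i ∈ Finset.univ.erase i₀, A i) * |A i₀ - A' i₀| + _
  linarith

end Pool.Agent.Lib.MP_3e612f_nt.NB
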