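import Pool.Agent.Lib.MP_3e612f_nt.SDefs

/-!
Task T3: the minimal ideal and the maximal subgroup.
-/

set_option autoImplicit false

namespace Pool.Agent.Lib.MP_3e612f_nt.SA

open Filter Topology QA

private theorem t3_idem {S : Type*} [Monoid S] [Finite S] (x : S) :
    x ^ (Nat.card S).factorial * x ^ (Nat.card S).factorial = x ^ (Nat.card S).factorial := by
  classical
  have hne : ∃ i j : Fin (Nat.card S + 1), i ≠ j ∧ x ^ (i : ℕ) = x ^ (j : ℕ) := by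
    have : Fintype S := Fintype.ofFinite S
    apply Fintype.exists_ne_map_eq_of_card_lt (fun i : Fin (Nat.card S + 1) => x ^ (i : ℕ))
    rw [Fintype.card_fin, Nat.card_eq_fintype_card]
    exact Nat.lt_succ_self _
  have hlt : ∃ i j : ℕ, i < j ∧ j ≤ Nat.card S ∧ x ^ i = x ^ j := by
    obtain ⟨i, j, hij, h⟩ := hne
    rcases lt_or_gt_of_ne (fun h' => hij (Fin.ext h') : (i : ℕ) ≠ j) with h1 | h1
    · exact ⟨i, j, h1, Nat.lt_succ_iff.mp j.2, h⟩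
    · exact ⟨j, i, h1, Nat.lt_succ_iff.mp i.2, h.symm⟩
  obtain ⟨i, j, hij, hj, h⟩ := hlt
  obtain ⟨p, rfl⟩ : ∃ p, j = i + p := ⟨j - i, by omega⟩
  have hp : p ∣ (Nat.card S).factorial := Nat.dvd_factorial (by omega) (by omega)
  obtain ⟨r, hr⟩ := hp
  have hrep : ∀ r, x ^ (i + p * r) = x ^ i := by
    intro r
    induction r with
    | zero => simp
    | succ r ih =>
      have e : i + p * (r + 1) = (i + p * r) + p := by ring
      rw [e, pow_add, ih, ← pow_add, ← h]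
  obtain ⟨t, ht⟩ : ∃ t, (Nat.card S).factorial = t + i :=
    ⟨(Nat.card S).factorial - i, by have := Nat.self_le_factorial (Nat.card S); omega⟩
  calc x ^ (Nat.card S).factorial * x ^ (Nat.card S).factorial
      = x ^ t * x ^ (i + p * r) := by
        rw [← hr, ← pow_add, ← pow_add]
        congr 1
        omega
    _ = x ^ (Nat.card S).factorial := by rw [hrep, ← pow_add, ← ht]

private theorem t3_qmod {q : ℕ} (hq : 2 ≤ q) (a : ℕ) : q ^ a ≡ 1 [MOD (q - 1)] := by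
  have h1 : q ≡ 1 [MOD (q - 1)] := by
    have h2 : (q - 1) + 1 ≡ 0 + 1 [MOD (q - 1)] :=
      Nat.ModEq.add_right 1 (Nat.modEq_zero_iff_dvd.mpr dvd_rfl)
    have e : q - 1 + 1 = q := by omega
    rwa [e, zero_add] at h2
  simpa using h1.pow a

private theorem t3_concat {S : Type*} [Monoid S] {q m : ℕ} (hq : 2 ≤ q) {β : ℕ → S}
    (hβ : QM q m β) (n n' : ℕ) :
    ∃ N, β N = β n * β n' ∧ N ≡ n + n' [MOD (q - 1)] ∧ n ≤ N := by
  refine ⟨q ^ (n' + m) * n + n', hβ.gap n' n n' (Nat.lt_pow_self (by omega)), ?_, ?_⟩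
  · have h1 := (t3_qmod hq (n' + m)).mul_right n
    rw [one_mul] at h1
    exact h1.add_right n'
  · have h1 : 1 ≤ q ^ (n' + m) := Nat.one_le_pow _ _ (by omega)
    have h2 : 1 * n ≤ q ^ (n' + m) * n := Nat.mul_le_mul_right n h1
    omega

theorem QM.concat {S : Type*} [Monoid S] {q m : ℕ} (hq : 2 ≤ q) {β : ℕ → S} (hβ : QM q m β)
    (n n' : ℕ) : ∃ N, β N = β n * β n' ∧ N ≡ n + n' [MOD (q - 1)] := by
  obtain ⟨N, h1, h2, _⟩ := t3_concat hq hβ n n'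
  exact ⟨N, h1, h2⟩

theorem QM.pow_mul {S : Type*} [Monoid S] {q m : ℕ} (hq : 2 ≤ q) {β : ℕ → S} (hβ : QM q m β)
    (a y : ℕ) : β (q ^ a * y) = β y := by
  have hq' : 0 < q := by omega
  have h1 : ∀ a y, β (q ^ (a + m) * y) = β y := by
    intro a y
    have h2 := hβ.gap a y 0 (Nat.pos_of_ne_zero (pow_ne_zero _ hq'.ne'))
    rwa [add_zero, hβ.one, mul_one] at h2
  have h3 := h1 0 (q ^ a * y)
  rw [← h3, ← mul_assoc, ← pow_add, show 0 + m + a = a + m by ring, h1]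

private theorem t3_pow {S : Type*} [Monoid S] {q m : ℕ} (hq : 2 ≤ q) {β : ℕ → S}
    (hβ : QM q m β) (n k : ℕ) : ∃ N, β N = β n ^ (k + 1) ∧ n ≤ N := by
  induction k with
  | zero => exact ⟨n, by simp, le_rfl⟩
  | succ k ih =>
    obtain ⟨N, h1, h2⟩ := ih
    obtain ⟨N', h3, _, h5⟩ := t3_concat hq hβ N n
    exact ⟨N', by rw [h3, h1, pow_succ _ (k + 1)], h2.trans h5⟩

theorem exists_core {S : Type*} [Monoid S] [Finite S] {q m : ℕ} (hq : 2 ≤ q) {β : ℕ → S}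
    (hβ : QM q m β) (hval : ∀ n n', β n = β n' → n ≡ n' [MOD (q - 1)]) :
    ∃ ω, Core q β ω := by
  classical
  -- the left ideals
  let I : ℕ → Set S := fun n => Set.range fun t => β t * β n
  obtain ⟨n0, hn0⟩ : ∃ n0, ∀ n, (I n0).ncard ≤ (I n).ncard := by
    have hex : ∃ k n, (I n).ncard = k := ⟨_, 0, rfl⟩
    obtain ⟨n0, h0⟩ := Nat.find_spec hex
    refine ⟨n0, fun n => ?_⟩
    rw [h0]
    exact Nat.find_min' hex ⟨n, rfl⟩
  have hmin : ∀ n t, β n = β t * β n0 → I n = I n0 := by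
    intro n t h
    apply Set.eq_of_subset_of_ncard_le _ (hn0 n) (Set.toFinite _)
    rintro _ ⟨u, rfl⟩
    obtain ⟨N, hN, _⟩ := QM.concat hq hβ u t
    exact ⟨N, by dsimp only; rw [hN, h, mul_assoc]⟩
  -- a positive index
  obtain ⟨n1, hn1, _, hn1'⟩ := t3_concat hq hβ 1 n0
  -- an idempotent power
  have hfac : 1 ≤ (Nat.card S).factorial := Nat.factorial_pos _
  obtain ⟨ω, hω, hω'⟩ := t3_pow hq hβ n1 ((Nat.card S).factorial - 1)
  rw [show (Nat.card S).factorial - 1 + 1 = (Nat.card S).factorial by omega] at hω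
  have hIω : I ω = I n0 := by
    have h1 : ∃ t, β ω = β t * β n0 := by
      rcases Nat.lt_or_ge 1 (Nat.card S).factorial with h2 | h2
      · obtain ⟨t, ht, _⟩ := t3_pow hq hβ n1 ((Nat.card S).factorial - 2)
        obtain ⟨t', ht', _⟩ := QM.concat hq hβ t 1
        refine ⟨t', ?_⟩
        rw [ht', ht, hω, mul_assoc, ← hn1, ← pow_succ]
        congr 1
        omega
      · have h3 : (Nat.card S).factorial = 1 := by omega
        refine ⟨1, ?_⟩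
        rw [hω, h3, pow_one, hn1]
    obtain ⟨t, ht⟩ := h1
    exact hmin ω t ht
  refine ⟨ω, by omega, by rw [hω]; exact t3_idem _, ?_, hval⟩
  intro n
  obtain ⟨N, hN, _⟩ := QM.concat hq hβ n ω
  have h1 : I N = I n0 := by
    have h2 : β ω ∈ I ω := ⟨0, by dsimp only; rw [hβ.one, one_mul]⟩
    rw [hIω] at h2
    obtain ⟨t, ht⟩ := h2
    obtain ⟨N', hN', _⟩ := QM.concat hq hβ n t
    apply hmin N N'
    rw [hN, hN', mul_assoc]
    dsimp only at ht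
    rw [ht]
  have h3 : β ω ∈ I N := by
    rw [h1, ← hIω]
    exact ⟨0, by dsimp only; rw [hβ.one, one_mul]⟩
  obtain ⟨n', hn'⟩ := h3
  exact ⟨n', by rw [← hN]; exact hn'⟩

theorem LL_left {S : Type*} [Monoid S] {q : ℕ} {β : ℕ → S} {ω : ℕ} (hω : Core q β ω) {l : S}
    (hl : l ∈ LL q β ω) : β ω * l = l := by
  obtain ⟨x, _, rfl⟩ := hl
  rw [← mul_assoc, ← mul_assoc, hω.idem]

theorem LL_right {S : Type*} [Monoid S] {q : ℕ} {β : ℕ → S} {ω : ℕ} (hω : Core q β ω) {l : S}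
    (hl : l ∈ LL q β ω) : l * β ω = l := by
  obtain ⟨x, _, rfl⟩ := hl
  rw [mul_assoc, hω.idem]

theorem LL_one {S : Type*} [Monoid S] {q m : ℕ} {β : ℕ → S} (hβ : QM q m β) {ω : ℕ}
    (hω : Core q β ω) : β ω ∈ LL q β ω :=
  ⟨0, dvd_zero _, by rw [hβ.one, mul_one, hω.idem]⟩

private theorem t3_dvd {S : Type*} [Monoid S] {q m : ℕ} (hq : 2 ≤ q) {β : ℕ → S}
    (hβ : QM q m β) {ω : ℕ} (hω : Core q β ω) : ω ≡ 0 [MOD (q - 1)] := by
  obtain ⟨N, h1, h2⟩ := QM.concat hq hβ ω ω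
  rw [hω.idem] at h1
  have h3 : ω + 0 ≡ ω + ω [MOD (q - 1)] := (hω.val _ _ h1).symm.trans h2
  exact (Nat.ModEq.add_left_cancel' ω h3).symm

/-- products in the local monoid -/
private theorem t3_psi_mul {S : Type*} [Monoid S] {q m : ℕ} (hq : 2 ≤ q) {β : ℕ → S}
    (hβ : QM q m β) {ω : ℕ} (hω : Core q β ω) (n n' : ℕ) :
    ∃ N, β ω * β N * β ω = (β ω * β n * β ω) * (β ω * β n' * β ω) ∧
      N ≡ n + n' [MOD (q - 1)] := by
  obtain ⟨N1, h1, h2⟩ := QM.concat hq hβ n ω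
  obtain ⟨N, h3, h4⟩ := QM.concat hq hβ N1 n'
  refine ⟨N, ?_, ?_⟩
  · rw [h3, h1]
    calc β ω * (β n * β ω * β n') * β ω = β ω * β n * β ω * β n' * β ω := by
          simp only [mul_assoc]
      _ = β ω * β n * (β ω * β ω) * β n' * β ω := by rw [hω.idem]
      _ = _ := by simp only [mul_assoc]
  · have h5 : n + ω ≡ n + 0 [MOD (q - 1)] := (t3_dvd hq hβ hω).add_left n
    exact h4.trans ((h2.trans h5).add_right n')

private theorem t3_psi_pow {S : Type*} [Monoid S] {q m : ℕ} (hq : 2 ≤ q) {β : ℕ → S}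
    (hβ : QM q m β) {ω : ℕ} (hω : Core q β ω) (n k : ℕ) :
    ∃ N, β ω * β N * β ω = (β ω * β n * β ω) ^ (k + 1) ∧ N ≡ (k + 1) * n [MOD (q - 1)] := by
  induction k with
  | zero => exact ⟨n, by rw [zero_add, pow_one], by rw [zero_add, one_mul]⟩
  | succ k ih =>
    obtain ⟨N, h1, h2⟩ := ih
    obtain ⟨N', h3, h4⟩ := t3_psi_mul hq hβ hω N n
    refine ⟨N', by rw [h3, h1, pow_succ _ (k + 1)], ?_⟩
    have e : (k + 1 + 1) * n = (k + 1) * n + n := by ring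
    rw [e]
    exact h4.trans (h2.add_right n)

theorem LL_mul {S : Type*} [Monoid S] {q m : ℕ} (hq : 2 ≤ q) {β : ℕ → S} (hβ : QM q m β) {ω : ℕ}
    (hω : Core q β ω) {l l' : S} (hl : l ∈ LL q β ω) (hl' : l' ∈ LL q β ω) :
    l * l' ∈ LL q β ω := by
  obtain ⟨x, hx, rfl⟩ := hl
  obtain ⟨x', hx', rfl⟩ := hl'
  obtain ⟨N, h1, h2⟩ := t3_psi_mul hq hβ hω x x'
  refine ⟨N, ?_, h1.symm⟩
  rw [← Nat.modEq_zero_iff_dvd]
  exact h2.trans (Nat.modEq_zero_iff_dvd.mpr (dvd_add hx hx'))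

/-- the maximal subgroup has exponent `M` -/
theorem exists_exp {S : Type*} [Monoid S] [Finite S] {q m : ℕ} (hq : 2 ≤ q) {β : ℕ → S}
    (hβ : QM q m β) {ω : ℕ} (hω : Core q β ω) : ∃ M : ℕ, 1 ≤ M ∧ (q - 1) ∣ M ∧
      ∀ n, (β ω * β n * β ω) ^ M = β ω := by
  have hfac : 1 ≤ (Nat.card S).factorial := Nat.factorial_pos _
  refine ⟨(Nat.card S).factorial * (q - 1), Nat.mul_pos hfac (by omega), dvd_mul_left _ _, ?_⟩
  intro n
  have hE : ∀ k, β ω ^ (k + 1) = β ω := by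
    intro k
    induction k with
    | zero => simp
    | succ k ih => rw [pow_succ, ih, hω.idem]
  set g := β ω * β n * β ω with hg
  have hgl : β ω * g = g := by rw [hg, ← mul_assoc, ← mul_assoc, hω.idem]
  -- a left inverse
  obtain ⟨n1, hn1, _⟩ := QM.concat hq hβ ω n
  obtain ⟨n2, hn2⟩ := hω.min n1
  rw [hn1, ← hg] at hn2
  have hinv : ∀ k, β n2 ^ (k + 1) * g ^ (k + 1) = β ω := by
    intro k
    induction k with
    | zero => rw [zero_add, pow_one, pow_one, hn2]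
    | succ k ih =>
      rw [pow_succ _ (k + 1), pow_succ' _ (k + 1), mul_assoc, ← mul_assoc (β n2) g, hn2,
        pow_succ' g k, ← mul_assoc (β ω) g, hgl, ← pow_succ' g k, ih]
  have hidem := t3_idem g
  have h1 : g ^ (Nat.card S).factorial = β ω := by
    obtain ⟨k, hk⟩ : ∃ k, (Nat.card S).factorial = k + 1 := ⟨(Nat.card S).factorial - 1, by omega⟩
    rw [hk] at hidem ⊢
    have h2 : β ω * g ^ (k + 1) = g ^ (k + 1) := by
      rw [pow_succ', ← mul_assoc, hgl]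
    rw [← h2, ← hinv k, mul_assoc, hidem]
  obtain ⟨k, hk⟩ : ∃ k, q - 1 = k + 1 := ⟨q - 2, by omega⟩
  rw [hk, pow_mul, h1, hE]

private theorem t3_exp2 {S : Type*} [Monoid S] {q : ℕ} {β : ℕ → S} {ω : ℕ} (hω : Core q β ω)
    {M : ℕ} (hM : 1 ≤ M) {g : S} (hg : g ^ M = β ω) :
    g * g ^ (2 * M - 1) = β ω ∧ g ^ (2 * M - 1) * g = β ω := by
  have h1 : g ^ (2 * M) = β ω := by rw [two_mul, pow_add, hg, hω.idem]
  constructor
  · rw [← pow_succ', show 2 * M - 1 + 1 = 2 * M by omega, h1]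
  · rw [← pow_succ, show 2 * M - 1 + 1 = 2 * M by omega, h1]

theorem LL_inv {S : Type*} [Monoid S] [Finite S] {q m : ℕ} (hq : 2 ≤ q) {β : ℕ → S}
    (hβ : QM q m β) {ω : ℕ} (hω : Core q β ω) {l : S} (hl : l ∈ LL q β ω) :
    ∃ l' ∈ LL q β ω, l * l' = β ω ∧ l' * l = β ω := by
  obtain ⟨M, hM, hMq, hexp⟩ := exists_exp hq hβ hω
  obtain ⟨x, hx, rfl⟩ := hl
  obtain ⟨N, h1, h2⟩ := t3_psi_pow hq hβ hω x (2 * M - 2)
  rw [show 2 * M - 2 + 1 = 2 * M - 1 by omega] at h1 h2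
  refine ⟨(β ω * β x * β ω) ^ (2 * M - 1), ⟨N, ?_, h1.symm⟩, t3_exp2 hω hM (hexp x)⟩
  rw [← Nat.modEq_zero_iff_dvd]
  exact h2.trans (Nat.modEq_zero_iff_dvd.mpr (Dvd.dvd.mul_left hx _))

/-- sums over `LL` are invariant -/
theorem LL_sum {S : Type*} [Monoid S] [Finite S] {q m : ℕ} (hq : 2 ≤ q) {β : ℕ → S}
    (hβ : QM q m β) {ω : ℕ} (hω : Core q β ω) {l : S} (hl : l ∈ LL q β ω) (f : S → ℝ) :
    ∑ x ∈ (Set.toFinite (LL q β ω)).toFinset, f (l * x) =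
      ∑ x ∈ (Set.toFinite (LL q β ω)).toFinset, f x := by
  obtain ⟨l', hl', h1, h2⟩ := LL_inv hq hβ hω hl
  refine Finset.sum_nbij' (fun x => l * x) (fun x => l' * x) ?_ ?_ ?_ ?_ ?_
  · intro x hx
    rw [Set.Finite.mem_toFinset] at hx ⊢
    exact LL_mul hq hβ hω hl hx
  · intro x hx
    rw [Set.Finite.mem_toFinset] at hx ⊢
    exact LL_mul hq hβ hω hl' hx
  · intro x hx
    rw [Set.Finite.mem_toFinset] at hx
    rw [← mul_assoc, h2, LL_left hω hx]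
  · intro x hx
    rw [Set.Finite.mem_toFinset] at hx
    rw [← mul_assoc, h1, LL_left hω hx]
  · intro x _
    rfl

/-- splitting off the lower digits -/
private theorem t3_split {S : Type*} [Monoid S] {q m : ℕ} {β : ℕ → S}
    (hβ : QM q m β) {ω : ℕ} {a b Y₁ Y₂ k s : ℕ} (ha : ω < q ^ a) (hY : Y₂ < q ^ b)
    (hs : s < q ^ k) :
    β (q ^ k * (q ^ (b + m) * (q ^ (a + m) * Y₁ + ω) + Y₂) + s) =
      β Y₁ * β ω * β (q ^ k * Y₂ + s) := by
  have e : q ^ k * (q ^ (b + m) * (q ^ (a + m) * Y₁ + ω) + Y₂) + s =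
      q ^ (k + b + m) * (q ^ (a + m) * Y₁ + ω) + (q ^ k * Y₂ + s) := by
    rw [show k + b + m = k + (b + m) by ring, pow_add q k (b + m)]
    ring
  have hlt : q ^ k * Y₂ + s < q ^ (k + b) := by
    calc q ^ k * Y₂ + s < q ^ k * Y₂ + q ^ k := by omega
      _ = q ^ k * (Y₂ + 1) := by ring
      _ ≤ q ^ k * q ^ b := Nat.mul_le_mul_left _ hY
      _ = q ^ (k + b) := (pow_add _ _ _).symm
  rw [e, hβ.gap (k + b) _ _ hlt, hβ.gap a _ _ ha]

private theorem t3_mod {q m : ℕ} (hq : 2 ≤ q) {W Y₂ k b s : ℕ} :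
    q ^ k * (q ^ (b + m) * W + Y₂) + s ≡ W + (q ^ k * Y₂ + s) [MOD (q - 1)] := by
  have e : q ^ k * (q ^ (b + m) * W + Y₂) + s = q ^ (k + (b + m)) * W + (q ^ k * Y₂ + s) := by
    rw [pow_add q k (b + m)]
    ring
  rw [e]
  have h1 := (t3_qmod hq (k + (b + m))).mul_right W
  rw [one_mul] at h1
  exact h1.add_right _

/-- the value modulo `q - 1` and the top digits determine the finite part modulo `LL` -/
theorem arith {S : Type*} [Monoid S] [Finite S] {q m : ℕ} (hq : 2 ≤ q) {β : ℕ → S}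
    (hβ : QM q m β) {ω : ℕ} (hω : Core q β ω) {a b Y₁ Y₂ Y₂' k k' s s' : ℕ} (ha : ω < q ^ a)
    (hY : Y₂ < q ^ b) (hY' : Y₂' < q ^ b) (hs : s < q ^ k) (hs' : s' < q ^ k')
    (hmod : q ^ k * (q ^ (b + m) * (q ^ (a + m) * Y₁ + ω) + Y₂) + s ≡
      q ^ k' * (q ^ (b + m) * (q ^ (a + m) * Y₁ + ω) + Y₂') + s' [MOD (q - 1)]) :
    ∃ l ∈ LL q β ω, β (q ^ k' * (q ^ (b + m) * (q ^ (a + m) * Y₁ + ω) + Y₂') + s') * β ω =
      β (q ^ k * (q ^ (b + m) * (q ^ (a + m) * Y₁ + ω) + Y₂) + s) * β ω * l := by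
  obtain ⟨M, hM, hMq, hexp⟩ := exists_exp hq hβ hω
  rw [t3_split hβ ha hY hs, t3_split hβ ha hY' hs']
  set s₁ := q ^ k * Y₂ + s with hs₁
  set s₂ := q ^ k' * Y₂' + s' with hs₂
  have hmod2 : s₁ ≡ s₂ [MOD (q - 1)] := by
    have h1 := (t3_mod (m := m) hq (W := q ^ (a + m) * Y₁ + ω) (Y₂ := Y₂) (k := k) (b := b)
      (s := s)).symm.trans (hmod.trans (t3_mod hq))
    exact Nat.ModEq.add_left_cancel' _ h1
  obtain ⟨N, h1, h2⟩ := t3_psi_pow hq hβ hω s₁ (2 * M - 2)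
  rw [show 2 * M - 2 + 1 = 2 * M - 1 by omega] at h1 h2
  obtain ⟨N', h3, h4⟩ := t3_psi_mul hq hβ hω N s₂
  rw [h1] at h3
  refine ⟨(β ω * β s₁ * β ω) ^ (2 * M - 1) * (β ω * β s₂ * β ω), ⟨N', ?_, h3.symm⟩, ?_⟩
  · rw [← Nat.modEq_zero_iff_dvd]
    have h5 : N + s₂ ≡ (2 * M - 1) * s₁ + s₁ [MOD (q - 1)] := h2.add hmod2.symm
    have h6 : (2 * M - 1) * s₁ + s₁ = M * (2 * s₁) := by
      obtain ⟨c, rfl⟩ : ∃ c, M = c + 1 := ⟨M - 1, by omega⟩
      rw [show 2 * (c + 1) - 1 = 2 * c + 1 by omega]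
      ring
    rw [h6] at h5
    exact (h4.trans h5).trans (Nat.modEq_zero_iff_dvd.mpr (Dvd.dvd.mul_right hMq _))
  · have h7 := (t3_exp2 hω hM (hexp s₁)).1
    calc β Y₁ * β ω * β s₂ * β ω = β Y₁ * (β ω * β s₂ * β ω) := by simp only [mul_assoc]
      _ = β Y₁ * (β ω * (β ω * β s₂ * β ω)) := by
          rw [← mul_assoc (β ω) (β ω * β s₂), ← mul_assoc (β ω) (β ω), hω.idem]
      _ = β Y₁ * (((β ω * β s₁ * β ω) * (β ω * β s₁ * β ω) ^ (2 * M - 1)) *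
          (β ω * β s₂ * β ω)) := by rw [h7]
      _ = _ := by simp only [mul_assoc]

end Pool.Agent.Lib.MP_3e612f_nt.SA
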