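import Pool.Agent.Lib.MP_3e612f_nt.NDefs
import Pool.Agent.Lib.MP_3e612f_nt.SKer

/-!
Task N16: on good intervals the finite part is constant modulo `LL`.
-/

set_option autoImplicit false

namespace Pool.Agent.Lib.MP_3e612f_nt.NB

open Filter Topology
open Pool.Agent.Lib.MP_3e612f_nt.QA Pool.Agent.Lib.MP_3e612f_nt.SA Pool.Agent.Lib.MP_3e612f_nt.MB

theorem n16_qmod {q : ℕ} (hq : 2 ≤ q) (k : ℕ) : q ^ k ≡ 1 [MOD (q - 1)] := by
  have f1 : q ≡ 1 [MOD (q - 1)] := by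
    have : q - 1 + 1 = q := by omega
    have f2 : q - 1 + 1 ≡ 0 + 1 [MOD (q - 1)] :=
      Nat.ModEq.add_right 1 (Nat.modEq_zero_iff_dvd.mpr dvd_rfl)
    rwa [this, zero_add] at f2
  have := f1.pow k
  rwa [one_pow] at this

/-- N16a (NConst.lean): on good intervals the finite part is constant modulo `LL` -/
theorem block_constN {S : Type*} [Monoid S] [Finite S] {q m : ℕ} (hq : 2 ≤ q) {β : ℕ → S}
    (hβ : QM q m β) {ω : ℕ} (hω : Core q β ω) {P k y h c z : ℕ} (hPd : (q - 1) ∣ P)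
    (hg : Gk q m ω P k y) (hc : c ≤ P) (hz : z < q ^ h) {n n' : ℕ} (hn : n < 2 ^ k)
    (hn' : n' < 2 ^ k) :
    ∃ l ∈ LL q β ω, β (sd q h P c z (2 ^ k * y + n')) * β ω =
      β (sd q h P c z (2 ^ k * y + n)) * β ω * l := by
  obtain ⟨a, b, Y, ha, h1, h2⟩ := hg
  have key : ∀ n, n < 2 ^ k → ∃ Y₂, Y₂ < q ^ b ∧
      P * (2 ^ k * y + n) + c = q ^ (b + m) * (q ^ (a + m) * Y + ω) + Y₂ := by
    intro n hn
    refine ⟨P * (2 ^ k * y + n) + c - q ^ (b + m) * (q ^ (a + m) * Y + ω), ?_, ?_⟩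
    · have h3 : P * (2 ^ k * y + n) + c ≤ P * (2 ^ k * (y + 1)) + P := by
        have h4 : 2 ^ k * y + n ≤ 2 ^ k * (y + 1) := by
          rw [Nat.mul_add, Nat.mul_one]
          omega
        have := Nat.mul_le_mul_left P h4
        omega
      have h5 : P * (2 ^ k * y) ≤ P * (2 ^ k * y + n) := Nat.mul_le_mul_left P (by omega)
      omega
    · have h5 : P * (2 ^ k * y) ≤ P * (2 ^ k * y + n) := Nat.mul_le_mul_left P (by omega)
      omega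
  obtain ⟨Y₂, hY, e1⟩ := key n hn
  obtain ⟨Y₂', hY', e1'⟩ := key n' hn'
  unfold sd
  rw [e1, e1']
  refine arith hq hβ hω ha hY hY' hz hz ?_
  rw [← e1, ← e1']
  have hP : ∀ x, P * x ≡ 0 [MOD (q - 1)] := fun x =>
    Nat.modEq_zero_iff_dvd.mpr (Dvd.dvd.mul_right hPd x)
  have h6 : P * (2 ^ k * y + n) + c ≡ P * (2 ^ k * y + n') + c [MOD (q - 1)] :=
    ((hP _).trans (hP _).symm).add_right c
  exact (h6.mul_left _).add_right z

/-- N16b (NConst.lean) -/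
theorem struct_constN {S : Type*} [Monoid S] [Finite S] {q m : ℕ} (hq : 2 ≤ q) {β : ℕ → S}
    (hβ : QM q m β) {ω : ℕ} (hω : Core q β ω) {k Y h : ℕ} (hg : Gk q m ω 1 k Y)
    (hk : q ^ h ≤ 2 ^ k) {s s' : ℕ} (hs : s < 2 ^ k) (hs' : s' < 2 ^ k)
    (hmod : 2 ^ k * Y + s ≡ 2 ^ k * Y + s' [MOD (q ^ h * (q - 1))]) :
    ∃ l ∈ LL q β ω, β ((2 ^ k * Y + s') / q ^ h) * β ω =
      β ((2 ^ k * Y + s) / q ^ h) * β ω * l := by
  obtain ⟨a, b, Z, ha, h1, h2⟩ := hg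
  have hq0 : ∀ i, 0 < q ^ i := fun i => Nat.pow_pos (by omega)
  have hbh : h < b := by
    by_contra hcon
    have h3 : q ^ b ≤ q ^ h := Nat.pow_le_pow_right (by omega) (by omega)
    rw [Nat.mul_add, Nat.mul_one] at h2
    omega
  obtain ⟨b', rfl⟩ : ∃ b', b = h + b' := ⟨b - h, by omega⟩
  have key : ∀ n, n < 2 ^ k → ∃ Y₂, Y₂ < q ^ b' ∧
      (2 ^ k * Y + n) / q ^ h = q ^ 0 * (q ^ (b' + m) * (q ^ (a + m) * Z + ω) + Y₂) + 0 := by
    intro n hn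
    have h5 : 2 ^ k * Y + n < q ^ (h + b' + m) * (q ^ (a + m) * Z + ω) + q ^ (h + b') := by
      rw [Nat.mul_add, Nat.mul_one] at h2
      omega
    obtain ⟨X, hX⟩ : ∃ X, 2 ^ k * Y + n = q ^ (h + b' + m) * (q ^ (a + m) * Z + ω) + X :=
      ⟨2 ^ k * Y + n - q ^ (h + b' + m) * (q ^ (a + m) * Z + ω), by omega⟩
    refine ⟨X / q ^ h, ?_, ?_⟩
    · rw [Nat.div_lt_iff_lt_mul (hq0 h), ← pow_add, add_comm b' h]
      omega
    · rw [hX, show h + b' + m = h + (b' + m) by ring, pow_add q h, mul_assoc,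
        Nat.mul_add_div (hq0 h), pow_zero, one_mul, add_zero]
  obtain ⟨Y₂, hY, e1⟩ := key s hs
  obtain ⟨Y₂', hY', e1'⟩ := key s' hs'
  have hmod' : (2 ^ k * Y + s) / q ^ h ≡ (2 ^ k * Y + s') / q ^ h [MOD (q - 1)] := by
    unfold Nat.ModEq
    rw [← Nat.mod_mul_right_div_self, ← Nat.mod_mul_right_div_self, hmod]
  rw [e1, e1'] at hmod' ⊢
  exact arith hq hβ hω ha hY hY' (hq0 0) (hq0 0) hmod'

end Pool.Agent.Lib.MP_3e612f_nt.NB
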