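import Pool.Agent.Lib.MP_3e612f_nt.NDefs
import Pool.Agent.Lib.MP_3e612f_nt.MDep

/-!
N4: relations between the values depend on few digits.
-/

set_option autoImplicit false

namespace Pool.Agent.Lib.MP_3e612f_nt.NB

open Filter Topology
open Pool.Agent.Lib.MP_3e612f_nt.QA Pool.Agent.Lib.MP_3e612f_nt.SA Pool.Agent.Lib.MP_3e612f_nt.MB

/-- numbers below `q ^ L` without the block `v` among `k` blocks of length `M` above level `t` -/
theorem n4_count {q M v : ℕ} (hq : 2 ≤ q) (hv : v < q ^ M) : ∀ k t L : ℕ, t + M * k ≤ L →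
    ((Finset.range (q ^ L)).filter
      (fun u => ∀ i < k, u / q ^ (t + M * i) % q ^ M ≠ v)).card ≤
      (q ^ M - 1) ^ k * q ^ (L - M * k) := by
  intro k
  induction k with
  | zero =>
    intro t L _
    refine (Finset.card_filter_le _ _).trans ?_
    simp
  | succ k ih =>
    intro t L hL
    have hL' : t + M * k + M ≤ L := by
      have : M * (k + 1) = M * k + M := by ring
      omega
    have hpos : 0 < q := by omega
    obtain ⟨L₁, hL₁⟩ : ∃ L₁, L = t + M + L₁ := ⟨L - (t + M), by omega⟩
    have hk₁ : 0 + M * k ≤ L₁ := by omega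
    have ih' := ih 0 L₁ hk₁
    set S := (Finset.range (q ^ L)).filter
      (fun u => ∀ i < k + 1, u / q ^ (t + M * i) % q ^ M ≠ v) with hS
    set V := (Finset.range (q ^ L₁)).filter
      (fun u => ∀ i < k, u / q ^ (0 + M * i) % q ^ M ≠ v) with hV
    set T : Finset (ℕ × ℕ × ℕ) :=
      (Finset.range (q ^ t)) ×ˢ ((Finset.range (q ^ M)).erase v) ×ˢ V with hT
    have hcard : S.card ≤ T.card := by
      refine Finset.card_le_card_of_injOn
        (fun u => (u % q ^ t, u / q ^ t % q ^ M, u / q ^ (t + M))) ?_ ?_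
      · intro u hu
        rw [hS, Finset.mem_coe, Finset.mem_filter, Finset.mem_range] at hu
        rw [hT, Finset.mem_coe, Finset.mem_product, Finset.mem_product, Finset.mem_range,
          Finset.mem_erase, Finset.mem_range, hV, Finset.mem_filter, Finset.mem_range]
        refine ⟨Nat.mod_lt _ (by positivity), ⟨?_, Nat.mod_lt _ (by positivity)⟩, ?_, ?_⟩
        · have := hu.2 0 (by omega)
          simpa using this
        · rw [Nat.div_lt_iff_lt_mul (by positivity), ← pow_add]
          rw [show L₁ + (t + M) = L by omega]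
          exact hu.1
        · intro i hi
          have := hu.2 (i + 1) (by omega)
          rw [Nat.div_div_eq_div_mul, ← pow_add]
          rw [show t + M + (0 + M * i) = t + M * (i + 1) by ring]
          exact this
      · intro u hu v' hv' huv
        simp only [Prod.mk.injEq] at huv
        obtain ⟨h1, h2, h3⟩ := huv
        have e1 : u / q ^ t = v' / q ^ t := by
          have hu' := Nat.div_add_mod (u / q ^ t) (q ^ M)
          have hv' := Nat.div_add_mod (v' / q ^ t) (q ^ M)
          rw [Nat.div_div_eq_div_mul, ← pow_add] at hu' hv'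
          rw [← hu', ← hv', h2, h3]
        have hu' := Nat.div_add_mod u (q ^ t)
        have hv' := Nat.div_add_mod v' (q ^ t)
        rw [← hu', ← hv', h1, e1]
    refine hcard.trans ?_
    rw [hT, Finset.card_product, Finset.card_product, Finset.card_range,
      Finset.card_erase_of_mem (Finset.mem_range.mpr hv), Finset.card_range]
    calc q ^ t * ((q ^ M - 1) * V.card)
        ≤ q ^ t * ((q ^ M - 1) * ((q ^ M - 1) ^ k * q ^ (L₁ - M * k))) := by gcongr
      _ = (q ^ M - 1) ^ (k + 1) * (q ^ t * q ^ (L₁ - M * k)) := by ring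
      _ = (q ^ M - 1) ^ (k + 1) * q ^ (L - M * (k + 1)) := by
          rw [← pow_add]
          congr 2
          have : M * (k + 1) = M * k + M := by ring
          omega

/-- the gap property of `β`: the word `ω` between zeros separates -/
theorem n4_split {S : Type*} [Monoid S] {q m : ℕ} {β : ℕ → S} (hβ : QM q m β)
    {h b A B₀ z D w ω N : ℕ} (hω : ω < q ^ w) (hz : z < q ^ h) (hD : B₀ + D < q ^ (b + 1))
    (hN : N = q ^ (b + m + 1) * (q ^ (w + m) * A + ω) + B₀ + D) :
    β (q ^ h * N + z) = β A * (β ω * β (q ^ h * (B₀ + D) + z)) := by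
  have hlt : q ^ h * (B₀ + D) + z < q ^ (h + (b + 1)) := by
    calc q ^ h * (B₀ + D) + z < q ^ h * (B₀ + D) + q ^ h := by omega
      _ = q ^ h * (B₀ + D + 1) := by ring
      _ ≤ q ^ h * q ^ (b + 1) := Nat.mul_le_mul_left _ hD
      _ = q ^ (h + (b + 1)) := by rw [← pow_add]
  have h1 := hβ.gap (h + (b + 1)) (q ^ (w + m) * A + ω) _ hlt
  have h2 := hβ.gap w A ω hω
  rw [h2, mul_assoc] at h1
  rw [← h1]
  congr 1
  rw [hN]
  rw [show h + (b + 1) + m = h + (b + m + 1) by ring, pow_add q h (b + m + 1)]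
  ring

/-- cancellation of an element of the minimal ideal does not depend on the element -/
theorem n4_cancel {S : Type*} [Monoid S] {q : ℕ} {β : ℕ → S} {ω : ℕ} (hω : Core q β ω)
    (A : ℕ) (y y' : S) :
    β A * (β ω * y) = β A * (β ω * y') ↔ β ω * y = β ω * y' := by
  constructor
  · intro h
    obtain ⟨n', hn'⟩ := hω.min A
    have h2 : β n' * (β A * (β ω * y)) = β n' * (β A * (β ω * y')) := by rw [h]
    calc β ω * y = β n' * (β A * β ω) * y := by rw [hn']
      _ = β n' * (β A * (β ω * y)) := by simp only [mul_assoc]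
      _ = β n' * (β A * (β ω * y')) := h2
      _ = β n' * (β A * β ω) * y' := by simp only [mul_assoc]
      _ = β ω * y' := by rw [hn']
  · intro h
    rw [h]

/-- N4 (NDep.lean): relations between the values depend on few digits -/
theorem local_depB {S H : Type*} [Monoid S] [AddCommGroup H] {q m : ℕ} (hq : 2 ≤ q) {β : ℕ → S}
    (hβ : QM q m β) {ω : ℕ} (hω : Core q β ω) {e : ℕ → H}
    (he : ∀ a y s : ℕ, s < q ^ a → e (q ^ (a + m) * y + s) = e y + e s) {P : ℕ}
    (hP : P.Coprime q) :
    ∃ C ρ : ℝ, 0 ≤ C ∧ 0 < ρ ∧ ρ < 1 ∧ ∀ a L : ℕ, a ≤ L → ∃ B : Finset ℕ,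
      (B.card : ℝ) ≤ C * ρ ^ (L - a) * q ^ L ∧ ∀ n r h c z : ℕ, r ≤ q ^ a → n % q ^ L ∉ B →
        c ≤ P → z < q ^ h →
        e (sd q h P c z (n + r)) - e (sd q h P c z n) =
          e (sd q h P c z (n % q ^ L + r)) - e (sd q h P c z (n % q ^ L)) ∧
        ∀ x x' : S, β (sd q h P c z (n + r)) * x = β (sd q h P c z n) * x' ↔
          β (sd q h P c z (n % q ^ L + r)) * x = β (sd q h P c z (n % q ^ L)) * x' := by
  -- the window: `m + 1` zeros, then `ω` with `ω` digits, then `m` zeros
  set M := (m + 1) + (ω + m) with hM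
  have hq0 : 0 < q := by omega
  have hωq : ω < q ^ ω := Nat.lt_pow_self (by omega)
  set v := q ^ (m + 1) * ω with hv
  have hvM : v < q ^ M := by
    rw [hv, hM, pow_add q (m + 1) (ω + m), pow_add q ω m]
    have h1 : ω < q ^ ω * q ^ m := by
      calc ω < q ^ ω := hωq
        _ ≤ q ^ ω * q ^ m := Nat.le_mul_of_pos_right _ (by positivity)
    exact Nat.mul_lt_mul_of_pos_left h1 (by positivity)
  have hqR : (2 : ℝ) ≤ q := by exact_mod_cast hq
  have hqM : (1 : ℝ) < (q : ℝ) ^ M := one_lt_pow₀ (by linarith) (by omega)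
  set θ : ℝ := 1 - 1 / (q : ℝ) ^ M with hθ
  have hθ0 : 0 < θ := by
    have : 1 / (q : ℝ) ^ M < 1 := by
      rw [div_lt_one (by positivity)]
      exact hqM
    rw [hθ]; linarith
  have hθ1 : θ < 1 := by
    have : 0 < 1 / (q : ℝ) ^ M := by positivity
    rw [hθ]; linarith
  set ρ : ℝ := θ ^ (1 / (M : ℝ)) with hρ
  have hM0 : (0 : ℝ) < M := by
    have : 0 < M := by omega
    exact_mod_cast this
  have hρ0 : 0 < ρ := Real.rpow_pos_of_pos hθ0 _
  have hρ1 : ρ < 1 := Real.rpow_lt_one hθ0.le hθ1 (by positivity)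
  have hρM : ρ ^ M = θ := by
    rw [hρ, ← Real.rpow_natCast, ← Real.rpow_mul hθ0.le]
    rw [one_div, inv_mul_cancel₀ hM0.ne', Real.rpow_one]
  have hPq : P ≤ q ^ P := (Nat.lt_pow_self (by omega)).le
  refine ⟨(P + 1) * (ρ ^ (P + M))⁻¹, ρ, by positivity, hρ0, hρ1, fun a L haL => ?_⟩
  -- the number of blocks
  set k := (L - a - P) / M with hk
  set G : ℕ → Prop := fun u => ∀ i < k, u / q ^ (a + P + M * i) % q ^ M ≠ v with hG
  classical
  by_cases hcase : a + P ≤ L
  swap
  · -- few digits: everything is exceptional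
    refine ⟨Finset.range (q ^ L), ?_, fun n r h c z _ hn => ?_⟩
    · rw [Finset.card_range]
      push_cast
      have h1 : ρ ^ (P + M) ≤ ρ ^ (L - a) :=
        pow_le_pow_of_le_one hρ0.le hρ1.le (by omega)
      have h2 : 1 ≤ (ρ ^ (P + M))⁻¹ * ρ ^ (L - a) := by
        rw [inv_mul_eq_div, one_le_div (by positivity)]
        exact h1
      have h3 : (1 : ℝ) ≤ P + 1 := by
        have : (0 : ℝ) ≤ P := Nat.cast_nonneg _
        linarith
      have h4 : (1 : ℝ) ≤ (P + 1) * (ρ ^ (P + M))⁻¹ * ρ ^ (L - a) := by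
        rw [mul_assoc]
        nlinarith
      have h5 : (0 : ℝ) ≤ (q : ℝ) ^ L := by positivity
      nlinarith
    · exact absurd (Finset.mem_range.mpr (Nat.mod_lt _ (by positivity))) hn
  have hkL : a + P + M * k ≤ L := by
    have := Nat.mul_div_le (L - a - P) M
    rw [← hk] at this
    omega
  have hkL' : L - a ≤ P + M + M * k := by
    have := Nat.lt_mul_div_succ (L - a - P) (show 0 < M by omega)
    rw [← hk] at this
    have h2 : M * (k + 1) = M * k + M := by ring
    omega
  refine ⟨(Finset.range (P + 1)).biUnion (fun c => (Finset.range (q ^ L)).filter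
    (fun s => G ((P * s + c) % q ^ L))), ?_, ?_⟩
  · -- the count
    have hc : ∀ c ∈ Finset.range (P + 1), ((Finset.range (q ^ L)).filter
        (fun s => G ((P * s + c) % q ^ L))).card ≤ (q ^ M - 1) ^ k * q ^ (L - M * k) := by
      intro c _
      refine le_trans ?_ (n4_count hq hvM k (a + P) L hkL)
      refine Finset.card_le_card_of_injOn (fun s => (P * s + c) % q ^ L) ?_ ?_
      · intro s hs
        rw [Finset.mem_coe, Finset.mem_filter, Finset.mem_range] at hs
        rw [Finset.mem_coe, Finset.mem_filter, Finset.mem_range]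
        exact ⟨Nat.mod_lt _ (by positivity), hs.2⟩
      · intro x hx y hy hxy
        rw [Finset.mem_coe, Finset.mem_filter, Finset.mem_range] at hx hy
        have h1 : P * x + c ≡ P * y + c [MOD q ^ L] := hxy
        have h2 : P * x ≡ P * y [MOD q ^ L] := Nat.ModEq.add_right_cancel' c h1
        have h3 : x ≡ y [MOD q ^ L] := by
          refine Nat.ModEq.cancel_left_of_coprime ?_ h2
          exact Nat.Coprime.symm (Nat.Coprime.pow_right L hP)
        have h4 : x % q ^ L = y % q ^ L := h3
        rwa [Nat.mod_eq_of_lt hx.1, Nat.mod_eq_of_lt hy.1] at h4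
    have h1 := (Finset.card_biUnion_le (s := Finset.range (P + 1)) (t := fun c =>
      (Finset.range (q ^ L)).filter (fun s => G ((P * s + c) % q ^ L)))).trans
      (Finset.sum_le_sum hc)
    rw [Finset.sum_const, Finset.card_range, smul_eq_mul] at h1
    have h2 : ((((Finset.range (P + 1)).biUnion (fun c => (Finset.range (q ^ L)).filter
        (fun s => G ((P * s + c) % q ^ L)))).card : ℕ) : ℝ) ≤
        (P + 1) * (((q : ℝ) ^ M - 1) ^ k * (q : ℝ) ^ (L - M * k)) := by
      calc ((((Finset.range (P + 1)).biUnion (fun c => (Finset.range (q ^ L)).filter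
          (fun s => G ((P * s + c) % q ^ L)))).card : ℕ) : ℝ)
          ≤ (((P + 1) * ((q ^ M - 1) ^ k * q ^ (L - M * k)) : ℕ) : ℝ) := by exact_mod_cast h1
        _ = _ := by
          push_cast [Nat.cast_sub (Nat.one_le_pow M q hq0)]
          ring
    refine h2.trans ?_
    have h3 : ((q : ℝ) ^ M - 1) ^ k * (q : ℝ) ^ (L - M * k) = θ ^ k * (q : ℝ) ^ L := by
      have e1 : (q : ℝ) ^ M - 1 = θ * (q : ℝ) ^ M := by
        rw [hθ]
        field_simp
      rw [e1, mul_pow, ← pow_mul, mul_assoc, ← pow_add]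
      congr 2
      omega
    rw [h3]
    have h4 : θ ^ k ≤ (ρ ^ (P + M))⁻¹ * ρ ^ (L - a) := by
      rw [inv_mul_eq_div, le_div_iff₀ (by positivity), ← hρM, ← pow_mul, ← pow_add]
      exact pow_le_pow_of_le_one hρ0.le hρ1.le (by omega)
    have h5 : (0 : ℝ) ≤ (q : ℝ) ^ L := by positivity
    have h6 : (0 : ℝ) ≤ P + 1 := by positivity
    calc ((P : ℝ) + 1) * (θ ^ k * (q : ℝ) ^ L)
        ≤ (P + 1) * (((ρ ^ (P + M))⁻¹ * ρ ^ (L - a)) * (q : ℝ) ^ L) := by gcongr
      _ = _ := by ring
  · -- the increments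
    intro n r h c z hr hn hcP hz
    set s := n % q ^ L with hs
    have hsL : s < q ^ L := Nat.mod_lt _ (by positivity)
    have hG' : ¬ G ((P * s + c) % q ^ L) := by
      intro hcon
      apply hn
      rw [Finset.mem_biUnion]
      exact ⟨c, Finset.mem_range.mpr (by omega),
        Finset.mem_filter.mpr ⟨Finset.mem_range.mpr hsL, hcon⟩⟩
    rw [hG] at hG'
    push Not at hG'
    obtain ⟨i, hi, hi0⟩ := hG'
    set b := a + P + M * i with hb
    have hMi : M * i + M ≤ M * k := by
      calc M * i + M = M * (i + 1) := by ring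
        _ ≤ M * k := Nat.mul_le_mul_left _ hi
    have hbL : b + M ≤ L := by omega
    -- the window of the full number
    have hw : (P * s + c) / q ^ b % q ^ M = v := by
      have e1 : (P * s + c) % q ^ L / q ^ b % q ^ M = (P * s + c) / q ^ b % q ^ M := by
        obtain ⟨t, ht⟩ : ∃ t, L = b + M + t := ⟨L - (b + M), by omega⟩
        rw [ht, pow_add, pow_add]
        rw [show q ^ b * q ^ M * q ^ t = q ^ b * (q ^ M * q ^ t) by ring]
        rw [Nat.mod_mul_right_div_self]
        rw [Nat.mod_mul_right_mod]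
      rw [← e1]
      exact hi0
    set N₀ := P * s + c with hN₀
    set A := N₀ / q ^ (b + M) with hA
    set B₀ := N₀ % q ^ b with hB₀
    have hdec : N₀ = q ^ (b + m + 1) * (q ^ (ω + m) * A + ω) + B₀ := by
      have h1 := Nat.div_add_mod N₀ (q ^ b)
      have h2 := Nat.div_add_mod (N₀ / q ^ b) (q ^ M)
      rw [hw, Nat.div_div_eq_div_mul, ← pow_add] at h2
      rw [← h2] at h1
      rw [← h1, hM, hv, pow_add q (m + 1) (ω + m), show b + m + 1 = b + (m + 1) by ring,
        pow_add q b (m + 1)]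
      ring
    have hBlt : B₀ < q ^ b := Nat.mod_lt _ (by positivity)
    have hPr : P * r ≤ q ^ b := by
      calc P * r ≤ q ^ P * q ^ a := Nat.mul_le_mul hPq hr
        _ = q ^ (P + a) := by rw [pow_add]
        _ ≤ q ^ b := Nat.pow_le_pow_right hq0 (by omega)
    have hD : ∀ D ≤ q ^ b, B₀ + D < q ^ (b + 1) := by
      intro D hD
      calc B₀ + D < q ^ b + q ^ b := by omega
        _ = q ^ b * 2 := by ring
        _ ≤ q ^ b * q := Nat.mul_le_mul_left _ hq
        _ = q ^ (b + 1) := by rw [pow_succ]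
    set y := n / q ^ L with hy
    have hn' : n = q ^ L * y + s := (Nat.div_add_mod n (q ^ L)).symm
    obtain ⟨t, ht⟩ : ∃ t, L = b + m + 1 + (ω + m) + t := ⟨L - (b + m + 1 + (ω + m)), by omega⟩
    set A' := P * q ^ t * y + A with hA'
    have hfull : ∀ D : ℕ, P * n + c + D =
        q ^ (b + m + 1) * (q ^ (ω + m) * A' + ω) + B₀ + D := by
      intro D
      have : P * n + c = P * q ^ L * y + N₀ := by rw [hn', hN₀]; ring
      rw [this, hdec, ht, pow_add q (b + m + 1 + (ω + m)) t, pow_add q (b + m + 1) (ω + m), hA']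
      ring
    have hpart : ∀ D : ℕ, N₀ + D = q ^ (b + m + 1) * (q ^ (ω + m) * A + ω) + B₀ + D := by
      intro D
      rw [← hdec]
    have n1 : P * (n + r) + c = q ^ (b + m + 1) * (q ^ (ω + m) * A' + ω) + B₀ + P * r := by
      rw [← hfull]; ring
    have n2 : P * n + c = q ^ (b + m + 1) * (q ^ (ω + m) * A' + ω) + B₀ + 0 := by
      rw [← hfull]; ring
    have n3 : P * (s + r) + c = q ^ (b + m + 1) * (q ^ (ω + m) * A + ω) + B₀ + P * r := by
      rw [← hpart, hN₀]; ring
    have n4 : P * s + c = q ^ (b + m + 1) * (q ^ (ω + m) * A + ω) + B₀ + 0 := by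
      rw [← hpart, hN₀]; ring
    constructor
    · have e1 : e (sd q h P c z (n + r)) =
          e (0 + (q ^ (ω + m) * A' + ω)) + e (q ^ h * (B₀ + P * r) + z) :=
        mdep_split he hz (hD _ hPr) (by rw [n1, zero_add])
      have e2 : e (sd q h P c z n) =
          e (0 + (q ^ (ω + m) * A' + ω)) + e (q ^ h * (B₀ + 0) + z) :=
        mdep_split he hz (hD _ (Nat.zero_le _)) (by rw [n2, zero_add])
      have e3 : e (sd q h P c z (s + r)) =
          e (0 + (q ^ (ω + m) * A + ω)) + e (q ^ h * (B₀ + P * r) + z) :=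
        mdep_split he hz (hD _ hPr) (by rw [n3, zero_add])
      have e4 : e (sd q h P c z s) =
          e (0 + (q ^ (ω + m) * A + ω)) + e (q ^ h * (B₀ + 0) + z) :=
        mdep_split he hz (hD _ (Nat.zero_le _)) (by rw [n4, zero_add])
      rw [e1, e2, e3, e4]
      abel
    · intro x x'
      have e1 : β (sd q h P c z (n + r)) = β A' * (β ω * β (q ^ h * (B₀ + P * r) + z)) :=
        n4_split hβ hωq hz (hD _ hPr) n1
      have e2 : β (sd q h P c z n) = β A' * (β ω * β (q ^ h * (B₀ + 0) + z)) :=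
        n4_split hβ hωq hz (hD _ (Nat.zero_le _)) n2
      have e3 : β (sd q h P c z (s + r)) = β A * (β ω * β (q ^ h * (B₀ + P * r) + z)) :=
        n4_split hβ hωq hz (hD _ hPr) n3
      have e4 : β (sd q h P c z s) = β A * (β ω * β (q ^ h * (B₀ + 0) + z)) :=
        n4_split hβ hωq hz (hD _ (Nat.zero_le _)) n4
      rw [e1, e2, e3, e4]
      simp only [mul_assoc]
      rw [n4_cancel hω, n4_cancel hω]

end Pool.Agent.Lib.MP_3e612f_nt.NB
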