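import Pool.Agent.Lib.MP_3e612f_nt.NIncrB
import Pool.Agent.Lib.MP_3e612f_nt.WDir

/-!
Near-invariance of the joint law, with the finite parts, under shifts in one direction of the
lattice in one base, with a linear phase (task N7).
-/

set_option autoImplicit false

namespace Pool.Agent.Lib.MP_3e612f_nt.NB

open Filter Topology
open Pool.Agent.Lib.MP_3e612f_nt.QA Pool.Agent.Lib.MP_3e612f_nt.SA Pool.Agent.Lib.MP_3e612f_nt.MB

theorem bi_eq (p : Prop) [Decidable p] : bi p = if p then 1 else 0 := by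
  unfold bi
  split_ifs <;> rfl

/-- the average of the weighted double sum -/
theorem n7_double {α : Type*} [DecidableEq α] {W : ℕ → ℂ} (hW : ∀ r, ‖W r‖ ≤ 1) {k a : ℕ}
    {B : Finset ℕ} {b : ℝ} (hb : 0 ≤ b) (u : ℕ) (σ : α → α) (Z : ℕ → α)
    (hp : ∀ r < 2 ^ a, ∀ r' < 2 ^ a, (r - r') + (r' - r) ∉ B → |av 2 k (fun n =>
        (if Z (u + n + r) = Z (u + n + r') then (1 : ℝ) else 0) -
        (if Z (u + n + r) = σ (Z (u + n + r')) then (1 : ℝ) else 0))| ≤ b) :
    av 2 k (fun n => (∑ r ∈ Finset.range (2 ^ a), ∑ r' ∈ Finset.range (2 ^ a),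
      2 * (W r * (starRingEnd ℂ) (W r')).re *
        ((if Z (u + n + r) = Z (u + n + r') then (1 : ℝ) else 0) -
        (if Z (u + n + r) = σ (Z (u + n + r')) then (1 : ℝ) else 0))) / ((2 ^ a : ℕ) : ℝ) ^ 2) ≤
      2 * (b + 2 * (B.card / 2 ^ a)) := by
  have e1 : av 2 k (fun n => (∑ r ∈ Finset.range (2 ^ a), ∑ r' ∈ Finset.range (2 ^ a),
      2 * (W r * (starRingEnd ℂ) (W r')).re *
        ((if Z (u + n + r) = Z (u + n + r') then (1 : ℝ) else 0) -
        (if Z (u + n + r) = σ (Z (u + n + r')) then (1 : ℝ) else 0))) / ((2 ^ a : ℕ) : ℝ) ^ 2) ≤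
      2 * (∑ r ∈ Finset.range (2 ^ a), ∑ r' ∈ Finset.range (2 ^ a), |av 2 k (fun n =>
        (if Z (u + n + r) = Z (u + n + r') then (1 : ℝ) else 0) -
        (if Z (u + n + r) = σ (Z (u + n + r')) then (1 : ℝ) else 0))|) / ((2 ^ a : ℕ) : ℝ) ^ 2 := by
    rw [av_div, av_finset_sum]
    refine div_le_div_of_nonneg_right ?_ (by positivity)
    rw [Finset.mul_sum]
    refine Finset.sum_le_sum fun r _ => ?_
    rw [av_finset_sum, Finset.mul_sum]
    refine Finset.sum_le_sum fun r' _ => ?_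
    rw [av_const_mul]
    have hre : |(W r * (starRingEnd ℂ) (W r')).re| ≤ 1 := by
      refine (Complex.abs_re_le_norm _).trans ?_
      rw [norm_mul, RCLike.norm_conj]
      exact mul_le_one₀ (hW r) (norm_nonneg _) (hW r')
    set T : ℝ := av 2 k (fun n => (if Z (u + n + r) = Z (u + n + r') then (1 : ℝ) else 0) -
        (if Z (u + n + r) = σ (Z (u + n + r')) then (1 : ℝ) else 0)) with hT
    calc 2 * (W r * (starRingEnd ℂ) (W r')).re * T ≤
        |2 * (W r * (starRingEnd ℂ) (W r')).re * T| := le_abs_self _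
      _ = 2 * (|(W r * (starRingEnd ℂ) (W r')).re| * |T|) := by
        rw [abs_mul, abs_mul, abs_of_pos (by norm_num : (0 : ℝ) < 2)]
        ring
      _ ≤ 2 * (1 * |T|) := by gcongr
      _ = 2 * |T| := by ring
  refine e1.trans ?_
  have hpair := m10_pairs (2 ^ a) B (g := fun r r' => |av 2 k (fun n =>
        (if Z (u + n + r) = Z (u + n + r') then (1 : ℝ) else 0) -
        (if Z (u + n + r) = σ (Z (u + n + r')) then (1 : ℝ) else 0))|) hb ?_ ?_
  · have h2 : (0 : ℝ) < ((2 ^ a : ℕ) : ℝ) := by positivity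
    rw [div_le_iff₀ (by positivity)]
    have h3 : 2 * (b + 2 * ((B.card : ℝ) / 2 ^ a)) * ((2 ^ a : ℕ) : ℝ) ^ 2 =
        2 * (((2 ^ a : ℕ) : ℝ) * (((2 ^ a : ℕ) : ℝ) * b + 2 * B.card)) := by
      push_cast
      field_simp
    rw [h3]
    linarith
  · intro r r'
    refine abs_av_le le_rfl fun n _ => ?_
    split_ifs <;> norm_num
  · intro r hr r' hr' hδ
    exact hp r hr r' hr' hδ

/-- the general estimate -/
theorem n7_gen {α : Type*} [DecidableEq α] (θ : ℝ) {k a : ℕ} {B : Finset ℕ} {b : ℝ} (hb : 0 ≤ b)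
    (u : ℕ) {σ : α → α} (hσ : Function.Injective σ) (Z : ℕ → α)
    (hp : ∀ r < 2 ^ a, ∀ r' < 2 ^ a, (r - r') + (r' - r) ∉ B → |av 2 k (fun n =>
        (if Z (u + n + r) = Z (u + n + r') then (1 : ℝ) else 0) -
        (if Z (u + n + r) = σ (Z (u + n + r')) then (1 : ℝ) else 0))| ≤ b)
    {Ψ : α → ℝ} (hΨ : ∀ x, |Ψ x| ≤ 1) (U : ℕ → Finset α) {M : ℝ}
    (hM : ∀ n, ((U n).card : ℝ) ≤ M) (O : ℕ → ℝ)
    (h1 : ∀ n, (((Finset.range (2 ^ a)).filter (fun r => Z (u + n + r) ∉ U n)).card : ℝ) /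
      2 ^ a ≤ O n)
    (h2 : ∀ n, (((Finset.range (2 ^ a)).filter (fun r => σ (Z (u + n + r)) ∉ U n)).card : ℝ) /
      2 ^ a ≤ O n) :
    ‖avc 2 k (fun n => ew θ (u + n) * ((Ψ (Z (u + n)) - Ψ (σ (Z (u + n))) : ℝ) : ℂ))‖ ≤
      4 * 2 ^ a / 2 ^ k + Real.sqrt (M * (2 * (b + 2 * (B.card / 2 ^ a)))) + 2 * av 2 k O := by
  have hew1 : ∀ r, ‖ew θ r‖ ≤ 1 := fun r => (norm_ew θ r).le
  set f : ℕ → ℂ := fun n => ew θ (u + n) * ((Ψ (Z (u + n)) - Ψ (σ (Z (u + n))) : ℝ) : ℂ) with hf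
  have hf2 : ∀ n, ‖f n‖ ≤ 2 := by
    intro n
    rw [hf]
    simp only
    rw [norm_mul, norm_ew, one_mul, Complex.norm_real, Real.norm_eq_abs]
    calc |Ψ (Z (u + n)) - Ψ (σ (Z (u + n)))| ≤ |Ψ (Z (u + n))| + |Ψ (σ (Z (u + n)))| :=
          abs_sub _ _
      _ ≤ 1 + 1 := add_le_add (hΨ _) (hΨ _)
      _ = 2 := by norm_num
  set DS : ℕ → ℝ := fun n => (∑ r ∈ Finset.range (2 ^ a), ∑ r' ∈ Finset.range (2 ^ a),
      2 * (ew θ r * (starRingEnd ℂ) (ew θ r')).re *
        ((if Z (u + n + r) = Z (u + n + r') then (1 : ℝ) else 0) -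
        (if Z (u + n + r) = σ (Z (u + n + r')) then (1 : ℝ) else 0))) / ((2 ^ a : ℕ) : ℝ) ^ 2
    with hDS
  have hDSnn : ∀ n, 0 ≤ DS n := fun n =>
    div_nonneg (w2_nonneg (2 ^ a) (fun r => Z (u + n + r)) hσ (ew θ)) (by positivity)
  have hM0 : 0 ≤ M := (Nat.cast_nonneg _).trans (hM 0)
  have hpt : ∀ n, ‖avc 2 a (fun r => f (n + r))‖ ≤ Real.sqrt (M * DS n) + 2 * O n := by
    intro n
    have hcoll := coll_w (X := 2 ^ a) (Nat.one_le_two_pow) (fun r => Z (u + n + r)) hσ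
      (U n) hΨ hew1
    have e1 : avc 2 a (fun r => f (n + r)) = ew θ (u + n) * ((∑ r ∈ Finset.range (2 ^ a),
        ew θ r * ((Ψ (Z (u + n + r)) - Ψ (σ (Z (u + n + r))) : ℝ) : ℂ)) / ((2 ^ a : ℕ) : ℂ)) := by
      unfold avc
      push_cast
      rw [← mul_div_assoc, Finset.mul_sum]
      congr 1
      refine Finset.sum_congr rfl fun r _ => ?_
      simp only [hf]
      rw [← add_assoc, ew_add]
      push_cast
      ring
    rw [e1, norm_mul, norm_ew, one_mul]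
    refine hcoll.trans ?_
    have hsq : Real.sqrt (((U n).card : ℝ) * DS n) ≤ Real.sqrt (M * DS n) :=
      Real.sqrt_le_sqrt (mul_le_mul_of_nonneg_right (hM n) (hDSnn n))
    have ho1' : (((Finset.range (2 ^ a)).filter (fun r => Z (u + n + r) ∉ U n)).card : ℝ) /
        ((2 ^ a : ℕ) : ℝ) ≤ O n := by
      push_cast
      exact h1 n
    have ho2' : (((Finset.range (2 ^ a)).filter (fun r => σ (Z (u + n + r)) ∉ U n)).card : ℝ) /
        ((2 ^ a : ℕ) : ℝ) ≤ O n := by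
      push_cast
      exact h2 n
    have hsum := add_le_add (add_le_add hsq ho1') ho2'
    refine le_trans hsum ?_
    linarith
  have hav : ‖avc 2 k (fun n => avc 2 a (fun r => f (n + r)))‖ ≤
      Real.sqrt (M * (2 * (b + 2 * (B.card / 2 ^ a)))) + 2 * av 2 k O := by
    refine (avc_norm_le _ _).trans ?_
    refine (av_mono fun n _ => hpt n).trans ?_
    have e2 : av 2 k (fun n => Real.sqrt (M * DS n) + 2 * O n) =
        av 2 k (fun n => Real.sqrt (M * DS n)) + 2 * av 2 k O := by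
      rw [av_add, av_const_mul]
    rw [e2]
    have h1 : av 2 k (fun n => Real.sqrt (M * DS n)) ≤
        Real.sqrt (M * (2 * (b + 2 * (B.card / 2 ^ a)))) := by
      refine (m10_jensen k (fun n => mul_nonneg hM0 (hDSnn n))).trans ?_
      refine Real.sqrt_le_sqrt ?_
      rw [av_const_mul]
      refine mul_le_mul_of_nonneg_left ?_ hM0
      exact n7_double hew1 hb u σ Z hp
    linarith
  have hshift := w2_shift_av hf2 k a
  have h6 : (2 : ℝ) * 2 * 2 ^ a / 2 ^ k = 4 * 2 ^ a / 2 ^ k := by ring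
  rw [h6] at hshift
  have h5 : ‖avc 2 k f‖ ≤ ‖avc 2 k f - avc 2 k (fun n => avc 2 a (fun r => f (n + r)))‖ +
      ‖avc 2 k (fun n => avc 2 a (fun r => f (n + r)))‖ := by
    have := norm_add_le (avc 2 k f - avc 2 k (fun n => avc 2 a (fun r => f (n + r))))
      (avc 2 k (fun n => avc 2 a (fun r => f (n + r))))
    simpa using this
  show ‖avc 2 k f‖ ≤ _
  linarith

section several

variable {ι : Type*} [Fintype ι] [DecidableEq ι] {q : ι → ℕ} {m : ℕ} {d : ι → ℕ}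
  {S : ι → Type*} [∀ i, Monoid (S i)] [∀ i, Finite (S i)]
  {β : ∀ i, ℕ → S i} {ω : ι → ℕ} {e : ∀ i, ℕ → Fin (d i) → ℤ} {C : ℝ}
  {Λ : ∀ i, AddSubgroup (Fin (d i) → ℤ)} {N' : ℕ} {u : ∀ i, S i → (Fin (d i) → ℤ) ⧸ Λ i}

/-- the estimate for one direction of the lattice in one base -/
theorem n7_est (θ : ℝ) {k a : ℕ} {B : Finset ℕ} {b : ℝ} (hb : 0 ≤ b) {i₀ : ι}
    {w w' : Fin (d i₀) → ℤ} {h : ℕ} {P R c z c' z' : ι → ℕ} {s : ℕ}
    (hB : ∀ r < 2 ^ a, r ∉ B → ∀ (u : ℕ) (t : ℤ), (t = s ∨ t = -s) →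
        |av 2 k (fun n =>
          bi (BW q β ω h P c z (u + n + r) = BW q β ω h P c z (u + n) ∧
            BW q β ω h R c' z' (u + n + r) = BW q β ω h R c' z' (u + n) ∧
            EE q e h P c z (u + n + r) - EE q e h P c z (u + n) = 0 ∧
            EE q e h R c' z' (u + n + r) - EE q e h R c' z' (u + n) = 0) -
          bi (BW q β ω h P c z (u + n + r) = BW q β ω h P c z (u + n) ∧
            BW q β ω h R c' z' (u + n + r) = BW q β ω h R c' z' (u + n) ∧
            EE q e h P c z (u + n + r) - EE q e h P c z (u + n) = Pi.single i₀ (t • w) ∧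
            EE q e h R c' z' (u + n + r) - EE q e h R c' z' (u + n) =
              Pi.single i₀ (t • w')))| ≤ b)
    (u : ℕ) (ctr ctr' : ℕ → ∀ i, Fin (d i) → ℝ) {VP VR : ι → ℝ}
    (hctr : ∀ i j, av 2 k (fun n => av 2 a (fun r =>
      ((EE q e h P c z (u + n + r) i j : ℝ) - ctr n i j) ^ 2)) ≤ VP i)
    (hctr' : ∀ i j, av 2 k (fun n => av 2 a (fun r =>
      ((EE q e h R c' z' (u + n + r) i j : ℝ) - ctr' n i j) ^ 2)) ≤ VR i)
    {ρ ρ' : ℝ} (hρ : 0 < ρ) (hw : ∀ j, |(((s • w) j : ℤ) : ℝ)| ≤ ρ')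
    (hw' : ∀ j, |(((s • w') j : ℤ) : ℝ)| ≤ ρ') (hρ' : 0 ≤ ρ')
    {Ψ : (∀ i, S i) → (∀ i, Fin (d i) → ℤ) → (∀ i, S i) → (∀ i, Fin (d i) → ℤ) → ℝ}
    (hΨ : ∀ s x s' x', |Ψ s x s' x'| ≤ 1) :
    ‖avc 2 k (fun n => ew θ (u + n) *
      ((Ψ (BW q β ω h P c z (u + n)) (EE q e h P c z (u + n))
          (BW q β ω h R c' z' (u + n)) (EE q e h R c' z' (u + n)) -
        Ψ (BW q β ω h P c z (u + n)) (EE q e h P c z (u + n) + Pi.single i₀ (s • w))
          (BW q β ω h R c' z' (u + n))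
          (EE q e h R c' z' (u + n) + Pi.single i₀ (s • w')) : ℝ) : ℂ))‖ ≤
      4 * 2 ^ a / 2 ^ k + Real.sqrt (((Nat.card (∀ i, S i) : ℝ) ^ 2 *
        ((2 * (ρ + ρ') + 1) ^ (∑ i, d i)) ^ 2) * (2 * (b + 2 * (B.card / 2 ^ a)))) +
      2 * ((∑ i, d i * VP i + ∑ i, d i * VR i) / ρ ^ 2) := by
  classical
  haveI : Fintype (∀ i, S i) := Fintype.ofFinite _
  set V : ∀ i, Fin (d i) → ℤ := Pi.single i₀ (s • w) with hV
  set V' : ∀ i, Fin (d i) → ℤ := Pi.single i₀ (s • w') with hV'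
  set σ : ((∀ i, S i) × (∀ i, S i)) × ((∀ i, Fin (d i) → ℤ) × (∀ i, Fin (d i) → ℤ)) →
      ((∀ i, S i) × (∀ i, S i)) × ((∀ i, Fin (d i) → ℤ) × (∀ i, Fin (d i) → ℤ)) :=
    fun x => (x.1, (x.2.1 + V, x.2.2 + V')) with hσ
  set Z : ℕ → ((∀ i, S i) × (∀ i, S i)) × ((∀ i, Fin (d i) → ℤ) × (∀ i, Fin (d i) → ℤ)) :=
    fun n => ((BW q β ω h P c z n, BW q β ω h R c' z' n), (EE q e h P c z n, EE q e h R c' z' n))
    with hZ
  have hVb : ∀ i j, |(V i j : ℝ)| ≤ ρ' := by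
    intro i j
    by_cases hi : i = i₀
    · subst hi
      rw [hV, Pi.single_eq_same]
      exact hw j
    · rw [hV, Pi.single_eq_of_ne hi]
      simpa using hρ'
  have hVb' : ∀ i j, |(V' i j : ℝ)| ≤ ρ' := by
    intro i j
    by_cases hi : i = i₀
    · subst hi
      rw [hV', Pi.single_eq_same]
      exact hw' j
    · rw [hV', Pi.single_eq_of_ne hi]
      simpa using hρ'
  have hσinj : Function.Injective σ := by
    rintro ⟨⟨s, s'⟩, ⟨x, x'⟩⟩ ⟨⟨t, t'⟩, ⟨y, y'⟩⟩ hxy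
    simp only [hσ, Prod.mk.injEq, add_left_inj] at hxy
    obtain ⟨⟨h1, h2⟩, ⟨h3, h4⟩⟩ := hxy
    rw [h1, h2, h3, h4]
  set OP : ℕ → ℝ := fun n => ∑ i, ∑ j, av 2 a (fun r =>
    ((EE q e h P c z (u + n + r) i j : ℝ) - ctr n i j) ^ 2) / ρ ^ 2 with hOP
  set OR : ℕ → ℝ := fun n => ∑ i, ∑ j, av 2 a (fun r =>
    ((EE q e h R c' z' (u + n + r) i j : ℝ) - ctr' n i j) ^ 2) / ρ ^ 2 with hOR
  set M : ℝ := (Nat.card (∀ i, S i) : ℝ) ^ 2 * ((2 * (ρ + ρ') + 1) ^ (∑ i, d i)) ^ 2 with hM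
  set U : ℕ → Finset (((∀ i, S i) × (∀ i, S i)) ×
      ((∀ i, Fin (d i) → ℤ) × (∀ i, Fin (d i) → ℤ))) := fun n =>
    Finset.univ ×ˢ (m10_box d (ctr n) (ρ + ρ') ×ˢ m10_box d (ctr' n) (ρ + ρ')) with hU
  have hcard : ∀ n, ((U n).card : ℝ) ≤ M := by
    intro n
    rw [hU]
    simp only
    rw [Finset.card_product, Finset.card_product, Finset.card_univ, Fintype.card_prod, hM, sq, sq,
      Nat.card_eq_fintype_card]
    push_cast
    refine mul_le_mul_of_nonneg_left ?_ (by positivity)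
    exact mul_le_mul (m10_card_box _ (by positivity)) (m10_card_box _ (by positivity))
        (by positivity) (by positivity)
  have hmemU : ∀ n x, x ∈ U n ↔
      x.2 ∈ m10_box d (ctr n) (ρ + ρ') ×ˢ m10_box d (ctr' n) (ρ + ρ') := by
    intro n x
    rw [hU]
    simp only
    rw [Finset.mem_product]
    simp
  have ho1 : ∀ n, (((Finset.range (2 ^ a)).filter (fun r => Z (u + n + r) ∉ U n)).card : ℝ) /
      2 ^ a ≤ OP n + OR n := by
    intro n
    have h1 := m10_out2 a (fun r => EE q e h P c z (u + n + r))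
      (fun r => EE q e h R c' z' (u + n + r)) (ctr n) (ctr' n) 0 0 hρ
      (by intro i j; simpa using hρ') (by intro i j; simpa using hρ')
    simp only [add_zero] at h1
    simp only [hmemU]
    exact h1
  have ho2 : ∀ n, (((Finset.range (2 ^ a)).filter (fun r => σ (Z (u + n + r)) ∉ U n)).card : ℝ) /
      2 ^ a ≤ OP n + OR n := by
    intro n
    have h1 := m10_out2 a (fun r => EE q e h P c z (u + n + r))
      (fun r => EE q e h R c' z' (u + n + r)) (ctr n) (ctr' n) V V' hρ hVb hVb'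
    simp only [hmemU]
    exact h1
  have hgen := n7_gen (θ := θ) (k := k) (a := a) (B := B) hb u hσinj Z ?_
    (Ψ := fun x => Ψ x.1.1 x.2.1 x.1.2 x.2.2) (fun x => hΨ _ _ _ _) U hcard
    (fun n => OP n + OR n) (fun n => by convert ho1 n) (fun n => by convert ho2 n)
  · refine hgen.trans ?_
    have hVsum : ∀ (O : ℕ → ℝ) (g : ℕ → ∀ i, Fin (d i) → ℝ) (VV : ι → ℝ),
        (∀ n, O n = ∑ i, ∑ j, g n i j / ρ ^ 2) → (∀ i j, av 2 k (fun n => g n i j) ≤ VV i) →
        av 2 k O ≤ (∑ i, d i * VV i) / ρ ^ 2 := by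
      intro O g VV hO hg
      have e3 : av 2 k O = ∑ i, ∑ j, av 2 k (fun n => g n i j) / ρ ^ 2 := by
        have : O = fun n => ∑ i, ∑ j, g n i j / ρ ^ 2 := funext hO
        rw [this, av_finset_sum]
        refine Finset.sum_congr rfl fun i _ => ?_
        rw [av_finset_sum]
        refine Finset.sum_congr rfl fun j _ => ?_
        rw [av_div]
      rw [e3, Finset.sum_div]
      refine Finset.sum_le_sum fun i _ => ?_
      refine (Finset.sum_le_sum fun j _ => div_le_div_of_nonneg_right (hg i j)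
        (by positivity : (0 : ℝ) ≤ ρ ^ 2)).trans ?_
      rw [Finset.sum_const, Finset.card_univ, Fintype.card_fin, nsmul_eq_mul, mul_div_assoc]
    have h2 := hVsum OP (fun n i j => av 2 a (fun r =>
      ((EE q e h P c z (u + n + r) i j : ℝ) - ctr n i j) ^ 2)) VP (fun n => rfl) hctr
    have h3 := hVsum OR (fun n i j => av 2 a (fun r =>
      ((EE q e h R c' z' (u + n + r) i j : ℝ) - ctr' n i j) ^ 2)) VR (fun n => rfl) hctr'
    have h4 : av 2 k (fun n => OP n + OR n) = av 2 k OP + av 2 k OR := av_add _ _ _ _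
    rw [h4, add_div]
    linarith
  · intro r hr r' hr' hδ
    rcases le_total r' r with hle | hle
    · have hB' := hB (r - r') (by omega) (by
        have : (r - r') + (r' - r) = r - r' := by omega
        rwa [this] at hδ) (u + r') s (Or.inl rfl)
      refine le_trans (le_of_eq (congrArg abs ?_)) hB'
      refine av_congr fun n _ => ?_
      have e2 : u + r' + n + (r - r') = u + n + r := by omega
      have e3 : u + r' + n = u + n + r' := by omega
      rw [e2, e3, ← bi_eq, ← bi_eq]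
      have e4 : ∀ (x y v : ∀ i, Fin (d i) → ℤ), x = y + v ↔ x - y = v := by
        intro x y v
        rw [sub_eq_iff_eq_add, add_comm]
      have e6 : ∀ (x y : ∀ i, Fin (d i) → ℤ), x = y ↔ x - y = 0 := fun x y => sub_eq_zero.symm
      have e7 : (Z (u + n + r) = Z (u + n + r')) ↔
          (BW q β ω h P c z (u + n + r) = BW q β ω h P c z (u + n + r') ∧
            BW q β ω h R c' z' (u + n + r) = BW q β ω h R c' z' (u + n + r') ∧
            EE q e h P c z (u + n + r) - EE q e h P c z (u + n + r') = 0 ∧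
            EE q e h R c' z' (u + n + r) - EE q e h R c' z' (u + n + r') = 0) := by
        simp only [hZ, Prod.mk.injEq, and_assoc]
        rw [e6 (EE q e h P c z (u + n + r)), e6 (EE q e h R c' z' (u + n + r))]
      have e8 : (Z (u + n + r) = σ (Z (u + n + r'))) ↔
          (BW q β ω h P c z (u + n + r) = BW q β ω h P c z (u + n + r') ∧
            BW q β ω h R c' z' (u + n + r) = BW q β ω h R c' z' (u + n + r') ∧
            EE q e h P c z (u + n + r) - EE q e h P c z (u + n + r') =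
              Pi.single i₀ ((s : ℤ) • w) ∧
            EE q e h R c' z' (u + n + r) - EE q e h R c' z' (u + n + r') =
              Pi.single i₀ ((s : ℤ) • w')) := by
        simp only [hZ, hσ, Prod.mk.injEq, and_assoc, natCast_zsmul]
        rw [e4 (EE q e h P c z (u + n + r)), e4 (EE q e h R c' z' (u + n + r))]
      rw [bi_congr e7, bi_congr e8]
    · have hB' := hB (r' - r) (by omega) (by
        have : (r - r') + (r' - r) = r' - r := by omega
        rwa [this] at hδ) (u + r) (-s) (Or.inr rfl)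
      refine le_trans (le_of_eq (congrArg abs ?_)) hB'
      refine av_congr fun n _ => ?_
      have e2 : u + r + n + (r' - r) = u + n + r' := by omega
      have e3 : u + r + n = u + n + r := by omega
      rw [e2, e3, ← bi_eq, ← bi_eq]
      have e4 : ∀ (x y v : ∀ i, Fin (d i) → ℤ), x = y + v ↔ y - x = -v := by
        intro x y v
        constructor
        · rintro rfl; abel
        · intro h
          have : x = y - (y - x) := by abel
          rw [this, h]; abel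
      have e5 : ∀ v : Fin (d i₀) → ℤ, (Pi.single i₀ ((-(s : ℤ)) • v) : ∀ i, Fin (d i) → ℤ) =
          -Pi.single i₀ (s • v) := by
        intro v
        rw [neg_smul, natCast_zsmul, Pi.single_neg]
      have e6 : ∀ (x y : ∀ i, Fin (d i) → ℤ), x = y ↔ y - x = 0 := by
        intro x y
        rw [sub_eq_zero]
        exact eq_comm
      have e7 : (Z (u + n + r) = Z (u + n + r')) ↔
          (BW q β ω h P c z (u + n + r') = BW q β ω h P c z (u + n + r) ∧
            BW q β ω h R c' z' (u + n + r') = BW q β ω h R c' z' (u + n + r) ∧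
            EE q e h P c z (u + n + r') - EE q e h P c z (u + n + r) = 0 ∧
            EE q e h R c' z' (u + n + r') - EE q e h R c' z' (u + n + r) = 0) := by
        simp only [hZ, Prod.mk.injEq, and_assoc]
        rw [e6 (EE q e h P c z (u + n + r)), e6 (EE q e h R c' z' (u + n + r)),
          eq_comm (a := BW q β ω h P c z (u + n + r)),
          eq_comm (a := BW q β ω h R c' z' (u + n + r))]
      have e8 : (Z (u + n + r) = σ (Z (u + n + r'))) ↔
          (BW q β ω h P c z (u + n + r') = BW q β ω h P c z (u + n + r) ∧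
            BW q β ω h R c' z' (u + n + r') = BW q β ω h R c' z' (u + n + r) ∧
            EE q e h P c z (u + n + r') - EE q e h P c z (u + n + r) =
              Pi.single i₀ ((-(s : ℤ)) • w) ∧
            EE q e h R c' z' (u + n + r') - EE q e h R c' z' (u + n + r) =
              Pi.single i₀ ((-(s : ℤ)) • w')) := by
        simp only [hZ, hσ, Prod.mk.injEq, and_assoc]
        rw [e4 (EE q e h P c z (u + n + r)), e4 (EE q e h R c' z' (u + n + r)), e5, e5,
          eq_comm (a := BW q β ω h P c z (u + n + r)),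
          eq_comm (a := BW q β ω h R c' z' (u + n + r))]
      rw [bi_congr e7, bi_congr e8]

/-- N7: near-invariance in one direction of the lattice in one base -/
theorem tv_dirB (Sy : NSys q m β ω e C Λ N' u) {P R : ι → ℕ} (hPR : MulN q m β ω P R) (i₀ : ι)
    {w w' : Fin (d i₀) → ℤ} (hw : w ∈ Λ i₀) (hw' : w' ∈ Λ i₀) (h Y : ℕ) {ε : ℝ} (hε : 0 < ε) :
    ∃ κ : ℝ, 0 < κ ∧ ∀ᶠ k : ℕ in atTop, ∀ y ≤ Y, ∀ c z c' z' : ι → ℕ, Bd q h P c z →
      Bd q h R c' z' → ∀ s : ℕ, (s : ℝ) ≤ κ * Real.sqrt (k + 1) → ∀ θ : ℝ,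
      ∀ Ψ : (∀ i, S i) → (∀ i, Fin (d i) → ℤ) → (∀ i, S i) → (∀ i, Fin (d i) → ℤ) → ℝ,
        (∀ s x s' x', |Ψ s x s' x'| ≤ 1) →
        ‖avc 2 k (fun n => ew θ (2 ^ k * y + n) *
          ((Ψ (BW q β ω h P c z (2 ^ k * y + n)) (EE q e h P c z (2 ^ k * y + n))
              (BW q β ω h R c' z' (2 ^ k * y + n)) (EE q e h R c' z' (2 ^ k * y + n)) -
            Ψ (BW q β ω h P c z (2 ^ k * y + n))
              (EE q e h P c z (2 ^ k * y + n) + Pi.single i₀ (s • w))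
              (BW q β ω h R c' z' (2 ^ k * y + n))
              (EE q e h R c' z' (2 ^ k * y + n) + Pi.single i₀ (s • w')) : ℝ) : ℂ))‖ ≤ ε := by
  have Ss := Sy.sys
  obtain ⟨K, θ₁, hK, hθ0, hθ1, hinc⟩ := incr_lawB Sy hPR i₀ hw hw'
  choose KP hKP0 hKP using fun i => var_short (m := m) (Ss.base i) (hPR.mul.cP i) h Y
  choose KR hKR0 hKR using fun i => var_short (m := m) (Ss.base i) (hPR.mul.cR i) h Y
  set c0 : ℕ := 4 * Fintype.card ι + 4 with hc0
  set D := ∑ i, d i with hD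
  set K3 : ℝ := ∑ i, d i * (KP i * C ^ 2) + ∑ i, d i * (KR i * C ^ 2) with hK3
  have hK30 : 0 ≤ K3 := by
    have h1 : ∀ i, 0 ≤ (d i : ℝ) * (KP i * C ^ 2) := fun i => by
      have := hKP0 i; positivity
    have h2 : ∀ i, 0 ≤ (d i : ℝ) * (KR i * C ^ 2) := fun i => by
      have := hKR0 i; positivity
    exact add_nonneg (Finset.sum_nonneg fun i _ => h1 i) (Finset.sum_nonneg fun i _ => h2 i)
  set T : ℝ := 8 * K3 / ε + 1 with hT
  have hT1 : 1 ≤ T := by
    have : 0 ≤ 8 * K3 / ε := by positivity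
    linarith
  set Wm : ℝ := ∑ j, |(w j : ℝ)| + ∑ j, |(w' j : ℝ)| with hWm
  have hWm0 : 0 ≤ Wm := by positivity
  have hwj : ∀ j, |(w j : ℝ)| ≤ Wm := by
    intro j
    have h1 := Finset.single_le_sum (f := fun j => |(w j : ℝ)|) (fun j _ => abs_nonneg _)
      (Finset.mem_univ j)
    have h2 : 0 ≤ ∑ j, |(w' j : ℝ)| := Finset.sum_nonneg fun j _ => abs_nonneg _
    linarith
  have hwj' : ∀ j, |(w' j : ℝ)| ≤ Wm := by
    intro j
    have h1 := Finset.single_le_sum (f := fun j => |(w' j : ℝ)|) (fun j _ => abs_nonneg _)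
      (Finset.mem_univ j)
    have h2 : 0 ≤ ∑ j, |(w j : ℝ)| := Finset.sum_nonneg fun j _ => abs_nonneg _
    linarith
  set Ns : ℝ := (Nat.card (∀ i, S i) : ℝ) with hNs
  have hNs0 : 0 ≤ Ns := Nat.cast_nonneg _
  set Q : ℝ := 2 * K * ((2 * T + 3) ^ D) ^ 2 with hQ
  have hQ0 : 0 ≤ Q := by positivity
  have hc0pos : (0 : ℝ) < Real.sqrt c0 := Real.sqrt_pos.2 (by
    have : 0 < c0 := by omega
    exact_mod_cast this)
  set Q' : ℝ := Ns ^ 2 * Q with hQ'
  have hQ'0 : 0 ≤ Q' := by positivity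
  set δ : ℝ := (ε / 4) ^ 2 / (2 * (Q' + 1)) with hδ
  have hδ0 : 0 < δ := by positivity
  set κ : ℝ := min (1 / (Real.sqrt c0 * (Wm + 1))) (δ / Real.sqrt c0) with hκ
  have hκ0 : 0 < κ := lt_min (by positivity) (by positivity)
  refine ⟨κ, hκ0, ?_⟩
  have hκ1 : κ ≤ 1 / (Real.sqrt c0 * (Wm + 1)) := min_le_left _ _
  have hκ2 : κ ≤ δ / Real.sqrt c0 := min_le_right _ _
  clear_value κ δ Q' Q Wm T K3
  have hdiv : Tendsto (fun k : ℕ => k / c0) atTop atTop :=
    Nat.tendsto_div_const_atTop (by omega)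
  have hP2 : ∀ᶠ a : ℕ in atTop, (4 : ℝ) * (1 / 2) ^ a ≤ ε / 4 := by
    have h1 : Tendsto (fun a : ℕ => (4 : ℝ) * (1 / 2) ^ a) atTop (𝓝 (4 * 0)) :=
      (tendsto_pow_atTop_nhds_zero_of_lt_one (by norm_num) (by norm_num)).const_mul 4
    rw [mul_zero] at h1
    exact (h1.eventually (gt_mem_nhds (by positivity))).mono fun a ha => ha.le
  filter_upwards [hdiv.eventually (m10_decay hθ0 hθ1 D hδ0), hdiv.eventually hP2]
    with k hk1 hk2 y hy c z c' z' hb hb' s hs θ Ψ hΨ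
  set a := k / c0 with ha
  have hak : c0 * a ≤ k := Nat.mul_div_le k c0
  have hka : k + 1 ≤ c0 * (a + 1) := by
    have := Nat.lt_mul_div_succ k (show 0 < c0 by omega)
    exact this
  have hsa1 : 1 ≤ Real.sqrt ((a : ℝ) + 1) := by
    rw [Real.one_le_sqrt]
    linarith [(Nat.cast_nonneg a : (0 : ℝ) ≤ a)]
  have hsa0 : 0 < Real.sqrt ((a : ℝ) + 1) := by linarith
  have hsqk : Real.sqrt ((k : ℝ) + 1) ≤ Real.sqrt c0 * Real.sqrt ((a : ℝ) + 1) := by
    rw [← Real.sqrt_mul (Nat.cast_nonneg _)]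
    refine Real.sqrt_le_sqrt ?_
    exact_mod_cast hka
  have hs2 : (s : ℝ) ≤ κ * (Real.sqrt c0 * Real.sqrt ((a : ℝ) + 1)) :=
    hs.trans (mul_le_mul_of_nonneg_left hsqk hκ0.le)
  have hs3 : (s : ℝ) * (Wm + 1) ≤ Real.sqrt ((a : ℝ) + 1) := by
    have h1 : κ * Real.sqrt c0 * (Wm + 1) ≤ 1 := by
      calc κ * Real.sqrt c0 * (Wm + 1) ≤
            (1 / (Real.sqrt c0 * (Wm + 1))) * Real.sqrt c0 * (Wm + 1) := by gcongr
        _ = 1 := by field_simp
    calc (s : ℝ) * (Wm + 1) ≤ κ * (Real.sqrt c0 * Real.sqrt ((a : ℝ) + 1)) * (Wm + 1) := by gcongr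
      _ = (κ * Real.sqrt c0 * (Wm + 1)) * Real.sqrt ((a : ℝ) + 1) := by ring
      _ ≤ 1 * Real.sqrt ((a : ℝ) + 1) := by gcongr
      _ = _ := one_mul _
  have hs4 : (s : ℝ) / Real.sqrt ((a : ℝ) + 1) ≤ δ := by
    rw [div_le_iff₀ hsa0]
    have h1 : κ * Real.sqrt c0 ≤ δ := by
      calc κ * Real.sqrt c0 ≤ (δ / Real.sqrt c0) * Real.sqrt c0 := by gcongr
        _ = δ := by field_simp
    calc (s : ℝ) ≤ κ * (Real.sqrt c0 * Real.sqrt ((a : ℝ) + 1)) := hs2
      _ = (κ * Real.sqrt c0) * Real.sqrt ((a : ℝ) + 1) := by ring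
      _ ≤ _ := by gcongr
  obtain ⟨B, hBcard, hBr⟩ := hinc h a k hak
  set b : ℝ := K * ((s : ℝ) / Real.sqrt (a + 1) ^ (2 * D + 1) + θ₁ ^ a) with hbdef
  have hb0 : 0 ≤ b := by positivity
  choose ctr hctr using fun (i : ι) (j : Fin (d i)) => hKP i (fun n => (e i n j : ℝ)) C
    (m10_coord (Ss.qv i) j) a k y (c i) (z i) (by
      calc a ≤ c0 * a := Nat.le_mul_of_pos_left a (by omega)
        _ ≤ k := hak) hy (hb.cle i) (hb.zlt i)
  choose ctr' hctr' using fun (i : ι) (j : Fin (d i)) => hKR i (fun n => (e i n j : ℝ)) C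
    (m10_coord (Ss.qv i) j) a k y (c' i) (z' i) (by
      calc a ≤ c0 * a := Nat.le_mul_of_pos_left a (by omega)
        _ ≤ k := hak) hy (hb'.cle i) (hb'.zlt i)
  have hest := n7_est θ (q := q) (e := e) (β := β) (ω := ω) (k := k) (a := a) (B := B) hb0 (i₀ := i₀) (w := w)
    (w' := w') (h := h) (P := P) (R := R) (c := c) (z := z) (c' := c') (z' := z') (s := s) ?_
    (2 ^ k * y) (fun n i j => ctr i j n) (fun n i j => ctr' i j n)
    (VP := fun i => KP i * C ^ 2 * (a + 1)) (VR := fun i => KR i * C ^ 2 * (a + 1))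
    (fun i j => hctr i j) (fun i j => hctr' i j)
    (ρ := T * Real.sqrt ((a : ℝ) + 1)) (ρ' := Real.sqrt ((a : ℝ) + 1)) (by positivity) ?_ ?_
    hsa0.le hΨ
  · refine hest.trans ?_
    -- first term
    have h1 : (4 : ℝ) * 2 ^ a / 2 ^ k ≤ ε / 4 := by
      refine le_trans ?_ hk2
      have h2a : a + a ≤ k := by
        have : 2 * a ≤ c0 * a := Nat.mul_le_mul_right a (by omega)
        omega
      have h3 : (2 : ℝ) ^ a * 2 ^ a ≤ 2 ^ k := by
        rw [← pow_add]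
        exact pow_le_pow_right₀ (by norm_num) h2a
      rw [div_le_iff₀ (by positivity), one_div, inv_pow]
      have h4 : (0 : ℝ) < 2 ^ a := by positivity
      calc (4 : ℝ) * 2 ^ a = 4 * (2 ^ a)⁻¹ * (2 ^ a * 2 ^ a) := by field_simp
        _ ≤ 4 * (2 ^ a)⁻¹ * 2 ^ k := by gcongr
    -- third term
    have h3 : 2 * ((∑ i, (d i : ℝ) * (KP i * C ^ 2 * (a + 1)) +
        ∑ i, (d i : ℝ) * (KR i * C ^ 2 * (a + 1))) / (T * Real.sqrt ((a : ℝ) + 1)) ^ 2) ≤
        ε / 4 := by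
      have e1 : ∑ i, (d i : ℝ) * (KP i * C ^ 2 * (a + 1)) +
        ∑ i, (d i : ℝ) * (KR i * C ^ 2 * (a + 1)) = K3 * (a + 1) := by
        rw [hK3, add_mul, Finset.sum_mul, Finset.sum_mul]
        congr 1 <;> refine Finset.sum_congr rfl fun i _ => by ring
      have ha1 : (0 : ℝ) < (a : ℝ) + 1 := by positivity
      rw [e1, mul_pow, Real.sq_sqrt ha1.le, mul_div_mul_right _ _ ha1.ne']
      have h4 : K3 / T ^ 2 ≤ K3 / T := by
        exact div_le_div_of_nonneg_left hK30 (by linarith) (le_self_pow₀ hT1 (by norm_num))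
      have h5 : 2 * (K3 / T) ≤ ε / 4 := by
        rw [← mul_div_assoc, div_le_iff₀ (by linarith)]
        have : ε * T = 8 * K3 + ε := by rw [hT]; field_simp
        linarith
      linarith
    -- second term
    have h2 : Real.sqrt ((Ns ^ 2 *
        ((2 * (T * Real.sqrt ((a : ℝ) + 1) + Real.sqrt ((a : ℝ) + 1)) + 1) ^
        (∑ i, d i)) ^ 2) * (2 * (b + 2 * ((B.card : ℝ) / 2 ^ a)))) ≤ ε / 4 := by
      rw [← hD]
      refine Real.sqrt_le_iff.2 ⟨by positivity, ?_⟩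
      have hB2 : (B.card : ℝ) / 2 ^ a ≤ K * θ₁ ^ a := by
        rw [div_le_iff₀ (by positivity)]
        exact hBcard
      have h4 : 2 * (T * Real.sqrt ((a : ℝ) + 1) + Real.sqrt ((a : ℝ) + 1)) + 1 ≤
          (2 * T + 3) * Real.sqrt ((a : ℝ) + 1) := by linarith
      have h5 : ((2 * (T * Real.sqrt ((a : ℝ) + 1) + Real.sqrt ((a : ℝ) + 1)) + 1) ^ D) ^ 2 ≤
          (((2 * T + 3) * Real.sqrt ((a : ℝ) + 1)) ^ D) ^ 2 := by gcongr
      have h6 : 2 * (b + 2 * ((B.card : ℝ) / 2 ^ a)) ≤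
          2 * K * ((s : ℝ) / Real.sqrt (a + 1) ^ (2 * D + 1) + 3 * θ₁ ^ a) := by
        rw [hbdef]; linarith
      have h7 : 0 ≤ 2 * (b + 2 * ((B.card : ℝ) / 2 ^ a)) := by positivity
      calc _ ≤ (Ns ^ 2 * (((2 * T + 3) * Real.sqrt ((a : ℝ) + 1)) ^ D) ^ 2) *
            (2 * K * ((s : ℝ) / Real.sqrt (a + 1) ^ (2 * D + 1) + 3 * θ₁ ^ a)) := by gcongr
        _ = Ns ^ 2 * ((((2 * T + 3) * Real.sqrt ((a : ℝ) + 1)) ^ D) ^ 2 *
            (2 * K * ((s : ℝ) / Real.sqrt (a + 1) ^ (2 * D + 1) + 3 * θ₁ ^ a))) := mul_assoc _ _ _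
        _ = Ns ^ 2 * (Q * ((s : ℝ) / Real.sqrt ((a : ℝ) + 1) +
              3 * (θ₁ ^ a * ((a : ℝ) + 1) ^ D))) := by
            have e2 : Real.sqrt ((a : ℝ) + 1) ^ (2 * D) = ((a : ℝ) + 1) ^ D := by
              rw [pow_mul, Real.sq_sqrt (by linarith [(Nat.cast_nonneg a : (0 : ℝ) ≤ a)])]
            rw [hQ, ← e2]
            congr 1
            exact m10_alg hsa0 _ _ _ _ _
        _ = Q' * ((s : ℝ) / Real.sqrt ((a : ℝ) + 1) +
              3 * (θ₁ ^ a * ((a : ℝ) + 1) ^ D)) := by rw [hQ']; ring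
        _ ≤ Q' * (δ + δ) := by gcongr
        _ ≤ (ε / 4) ^ 2 := by
            rw [hδ]
            exact m10_alg2 hQ'0 _
    calc _ ≤ ε / 4 + ε / 4 + ε / 4 := add_le_add (add_le_add h1 h2) h3
      _ ≤ ε := by linarith
  · intro r hr hrB u t ht
    refine (hBr r hr hrB u c z c' z' hb hb' t).trans ?_
    have : |(t : ℝ)| = s := by
      rcases ht with rfl | rfl
      · simp
      · simp
    rw [this]
  · intro j
    simp only [Pi.smul_apply, nsmul_eq_mul]
    push_cast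
    rw [abs_mul, Nat.abs_cast]
    calc (s : ℝ) * |(w j : ℝ)| ≤ s * (Wm + 1) := by
          gcongr; linarith [hwj j]
      _ ≤ _ := hs3
  · intro j
    simp only [Pi.smul_apply, nsmul_eq_mul]
    push_cast
    rw [abs_mul, Nat.abs_cast]
    calc (s : ℝ) * |(w' j : ℝ)| ≤ s * (Wm + 1) := by
          gcongr; linarith [hwj' j]
      _ ≤ _ := hs3

end several

end Pool.Agent.Lib.MP_3e612f_nt.NB
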