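import Pool.Agent.Lib.MP_3e612f_nt.SDefs

/-!
Automatic sequences are functions of quasi-multiplicative functions with values in finite monoids.
-/

set_option autoImplicit false

namespace Pool.Agent.Lib.MP_3e612f_nt.SA

open Filter Topology QA

/-- some positive iterate of a self-map of a finite type is idempotent -/
theorem t9_idem {N : ℕ} (f : Fin N → Fin N) : ∃ w : ℕ, 1 ≤ w ∧ f^[w] ∘ f^[w] = f^[w] := by
  obtain ⟨i, j, hij, h⟩ : ∃ i j : ℕ, i < j ∧ f^[i] = f^[j] := by
    obtain ⟨i, j, hne, h⟩ := Finite.exists_ne_map_eq_of_infinite (fun k : ℕ => f^[k])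
    rcases lt_or_gt_of_ne hne with h1 | h1
    · exact ⟨i, j, h1, h⟩
    · exact ⟨j, i, h1, h.symm⟩
  obtain ⟨p, rfl⟩ := Nat.exists_eq_add_of_lt hij
  have h1 : ∀ k, i ≤ k → f^[k + (p + 1)] = f^[k] := by
    intro k hk
    obtain ⟨l, rfl⟩ := Nat.exists_eq_add_of_le hk
    rw [show i + l + (p + 1) = l + (i + p + 1) by ring, Function.iterate_add, ← h,
      ← Function.iterate_add, add_comm]
  have h2 : ∀ c k, i ≤ k → f^[k + (p + 1) * c] = f^[k] := by
    intro c
    induction c with
    | zero => intro k _; simp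
    | succ c ih =>
      intro k hk
      rw [show k + (p + 1) * (c + 1) = (k + (p + 1) * c) + (p + 1) by ring, h1 _ (by omega), ih k hk]
  refine ⟨(p + 1) * (i + 1), ?_, ?_⟩
  · exact Nat.succ_le_of_lt (by positivity)
  · rw [← Function.iterate_add]
    apply h2
    have : 1 * (i + 1) ≤ (p + 1) * (i + 1) := Nat.mul_le_mul_right _ (by omega)
    omega

/-- the monoid of the self-maps `φ` with `Z φ Z = φ` -/
abbrev t9_S {N : ℕ} (Z : Fin N → Fin N) : Type := {φ : Fin N → Fin N // Z ∘ φ = φ ∧ φ ∘ Z = φ}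

/-- composition of maps -/
@[reducible] def t9_monoid {N : ℕ} (Z : Fin N → Fin N) (hZ : Z ∘ Z = Z) : Monoid (t9_S Z) where
  mul φ ψ := ⟨φ.1 ∘ ψ.1, by rw [← Function.comp_assoc, φ.2.1], by rw [Function.comp_assoc, ψ.2.2]⟩
  one := ⟨Z, hZ, hZ⟩
  mul_assoc _ _ _ := rfl
  one_mul φ := Subtype.ext φ.2.1
  mul_one φ := Subtype.ext φ.2.2

theorem auto_core {q : ℕ} (hq : 2 ≤ q) {A : Type*} {a : ℕ → A}
    (ha : {g : ℕ → A | ∃ k r : ℕ, r < q ^ k ∧ g = fun n => a (q ^ k * n + r)}.Finite) :
    ∃ (w : ℕ) (S : Type) (_ : Monoid S) (_ : Finite S) (β : ℕ → S), 1 ≤ w ∧ QM (q ^ w) 1 β ∧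
      ∀ j z : ℕ, z < (q ^ w) ^ j → ∃ Φ : S → A, ∀ n, a ((q ^ w) ^ (j + 1) * n + z) = Φ (β n) := by
  classical
  set K : Set (ℕ → A) := {g : ℕ → A | ∃ k r : ℕ, r < q ^ k ∧ g = fun n => a (q ^ k * n + r)} with hK
  have : Finite K := ha.to_subtype
  obtain ⟨N, ⟨e⟩⟩ := Finite.exists_equiv_fin K
  let κ : Fin N → ℕ → A := fun i => (e.symm i : ℕ → A)
  have hκ : Function.Injective κ := fun i j h => e.symm.injective (Subtype.ext h)
  have hκK : ∀ i, κ i ∈ K := fun i => (e.symm i).2
  have hKκ : ∀ g ∈ K, ∃ i, κ i = g := fun g hg => ⟨e ⟨g, hg⟩, by simp [κ]⟩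
  -- the operators on the kernel
  have hT : ∀ k r i, ∃ i', r < q ^ k → κ i' = fun n => κ i (q ^ k * n + r) := by
    intro k r i
    by_cases hr : r < q ^ k
    · obtain ⟨k', r', hr', h⟩ := hκK i
      have h1 : (fun n => κ i (q ^ k * n + r)) ∈ K := by
        refine ⟨k' + k, q ^ k' * r + r', ?_, ?_⟩
        · calc q ^ k' * r + r' < q ^ k' * r + q ^ k' := by omega
            _ = q ^ k' * (r + 1) := by ring
            _ ≤ q ^ k' * q ^ k := Nat.mul_le_mul_left _ hr
            _ = q ^ (k' + k) := by rw [pow_add]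
        · funext n
          rw [h]
          have e1 : q ^ k' * (q ^ k * n + r) + r' = q ^ (k' + k) * n + (q ^ k' * r + r') := by
            rw [pow_add]; ring
          beta_reduce
          rw [e1]
      obtain ⟨i', h2⟩ := hKκ _ h1
      exact ⟨i', fun _ => h2⟩
    · exact ⟨i, fun h => absurd h hr⟩
  choose T hT using hT
  obtain ⟨w, hw, hidem⟩ := t9_idem (T 1 0)
  have hq0 : 0 < q := by omega
  have hiter : ∀ c i, κ ((T 1 0)^[c] i) = fun n => κ i (q ^ c * n) := by
    intro c
    induction c with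
    | zero => intro i; simp
    | succ c ih =>
      intro i
      rw [Function.iterate_succ_apply', hT 1 0 _ (by simpa using hq0), ih]
      funext n
      beta_reduce
      congr 1
      rw [pow_succ]
      ring
  set Z := (T 1 0)^[w] with hZ
  set Q := q ^ w with hQ
  have hQ2 : 2 ≤ Q := by
    calc 2 ≤ q := hq
      _ = q ^ 1 := (pow_one q).symm
      _ ≤ q ^ w := Nat.pow_le_pow_right hq0 hw
  let D : ℕ → ℕ → Fin N → Fin N := fun j x => T (w * j) x
  have hD : ∀ j x i, x < Q ^ j → κ (D j x i) = fun n => κ i (Q ^ j * n + x) := by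
    intro j x i hx
    have h1 := hT (w * j) x i (by rw [pow_mul]; exact hx)
    rw [pow_mul] at h1
    exact h1
  have hZκ : ∀ i, κ (Z i) = fun n => κ i (Q * n) := fun i => hiter w i
  have hZκc : ∀ c i, κ (Z^[c] i) = fun n => κ i (Q ^ c * n) := by
    intro c
    induction c with
    | zero => intro i; simp
    | succ c ih =>
      intro i
      rw [Function.iterate_succ_apply', hZκ, ih]
      funext n
      beta_reduce
      congr 1
      rw [pow_succ]
      ring
  have hZc : ∀ c, Z ∘ Z^[c] = Z := by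
    intro c
    induction c with
    | zero => rfl
    | succ c ih => rw [Function.iterate_succ', ← Function.comp_assoc, hidem, ih]
  -- leading zeros
  have hlead : ∀ j c x, x < Q ^ j → D (j + c) x = Z^[c] ∘ D j x := by
    intro j c x hx
    funext i
    apply hκ
    rw [hD _ _ _ (lt_of_lt_of_le hx (Nat.pow_le_pow_right (by omega) (by omega))),
      Function.comp_apply, hZκc, hD _ _ _ hx]
    funext n
    beta_reduce
    congr 1
    rw [pow_add]
    ring
  have hlt : ∀ x : ℕ, x < Q ^ x := fun x => Nat.lt_pow_self (by omega)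
  let b : ℕ → Fin N → Fin N := fun x => Z ∘ D x x ∘ Z
  have hb : ∀ j x, x < Q ^ j → Z ∘ D j x ∘ Z = b x := by
    intro j x hx
    have h1 := hlead j x x hx
    have h2 := hlead x j x (hlt x)
    have h3 : Z ∘ D (j + x) x ∘ Z = Z ∘ D j x ∘ Z := by
      rw [h1, ← Function.comp_assoc, ← Function.comp_assoc, hZc, Function.comp_assoc]
    have h4 : Z ∘ D (x + j) x ∘ Z = b x := by
      rw [h2, ← Function.comp_assoc, ← Function.comp_assoc, hZc, Function.comp_assoc]
    rw [← h3, add_comm, h4]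
  have hbS : ∀ x, Z ∘ b x = b x ∧ b x ∘ Z = b x := by
    intro x
    constructor
    · change Z ∘ (Z ∘ D x x ∘ Z) = _
      rw [← Function.comp_assoc, hidem]
    · change (Z ∘ D x x ∘ Z) ∘ Z = _
      rw [Function.comp_assoc, Function.comp_assoc, hidem]
  refine ⟨w, t9_S Z, t9_monoid Z hidem, inferInstance, fun x => ⟨b x, hbS x⟩, hw, ?_, ?_⟩
  · refine @QM.mk _ (t9_monoid Z hidem) _ _ _ ?_ ?_
    · apply Subtype.ext
      change b 0 = Z
      rw [← hb 0 0 (by simp)]
      have h1 : D 0 0 = id := by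
        funext i
        apply hκ
        rw [hD 0 0 i (by simp)]
        funext n
        simp
      rw [h1, Function.id_comp, hidem]
    · intro c y s hs
      apply Subtype.ext
      change b (Q ^ (c + 1) * y + s) = b y ∘ b s
      have hlt2 : Q ^ (c + 1) * y + s < Q ^ (c + 1 + y) := by
        have h1 : s < Q ^ (c + 1) := lt_of_lt_of_le hs (Nat.pow_le_pow_right (by omega) (by omega))
        calc Q ^ (c + 1) * y + s < Q ^ (c + 1) * y + Q ^ (c + 1) := by omega
          _ = Q ^ (c + 1) * (y + 1) := by ring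
          _ ≤ Q ^ (c + 1) * Q ^ y := Nat.mul_le_mul_left _ (hlt y)
          _ = Q ^ (c + 1 + y) := (pow_add _ _ _).symm
      have h1 : D (c + 1 + y) (Q ^ (c + 1) * y + s) = D y y ∘ Z ∘ D c s := by
        funext i
        apply hκ
        rw [hD _ _ _ hlt2, Function.comp_apply, Function.comp_apply, hD _ _ _ (hlt y), hZκ,
          hD _ _ _ hs]
        funext n
        beta_reduce
        congr 1
        rw [pow_add, pow_succ]
        ring
      rw [← hb _ _ hlt2, h1, ← hb c s hs]
      funext i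
      have h2 : ∀ i, Z (Z i) = Z i := fun i => congrFun hidem i
      simp only [Function.comp_apply, b, h2]
  · intro j z hz
    obtain ⟨i₀, hi₀⟩ := hKκ a ⟨0, 0, by simp, by simp⟩
    refine ⟨fun φ => κ (φ.1 (D j z i₀)) 0, ?_⟩
    intro n
    change _ = κ (b n (D j z i₀)) 0
    rw [← hb n n (hlt n)]
    simp only [Function.comp_apply]
    rw [hZκ]
    beta_reduce
    rw [mul_zero, hD n n _ (hlt n)]
    beta_reduce
    rw [mul_zero, zero_add, hZκ, hD j z _ hz, hi₀]
    beta_reduce
    congr 1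
    rw [pow_succ]
    ring

theorem kernel_pow {q w : ℕ} {A : Type*} {a : ℕ → A}
    (ha : {g : ℕ → A | ∃ k r : ℕ, r < q ^ k ∧ g = fun n => a (q ^ k * n + r)}.Finite) :
    {g : ℕ → A | ∃ k r : ℕ, r < (q ^ w) ^ k ∧ g = fun n => a ((q ^ w) ^ k * n + r)}.Finite := by
  refine ha.subset ?_
  rintro g ⟨k, r, hr, rfl⟩
  refine ⟨w * k, r, ?_, ?_⟩
  · rw [pow_mul]
    exact hr
  · rw [pow_mul]

end Pool.Agent.Lib.MP_3e612f_nt.SA
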