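import Pool.Agent.Lib.MP_3e612f_nt.QWin

/-!
The algebra of the near-invariance: all shifts by pairs of elements of `Lam e`.
-/

set_option autoImplicit false

namespace Pool.Agent.Lib.MP_3e612f_nt.QA

open Filter Topology

theorem lam_add {H : Type*} [AddCommGroup H] (e : ℕ → H) (a b : ℕ) :
    e (a + b) - e a - e b ∈ Lam e :=
  AddSubgroup.subset_closure ⟨a, b, rfl⟩

theorem lam_nsmul {H : Type*} [AddCommGroup H] (e : ℕ → H) (n : ℕ) :
    e n - n • e 1 ∈ Lam e := by
  induction n with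
  | zero =>
    have h := (Lam e).neg_mem (lam_add e 0 0)
    have e1 : -(e (0 + 0) - e 0 - e 0) = e 0 - 0 • e 1 := by
      rw [zero_smul, add_zero]
      abel
    rwa [e1] at h
  | succ n ih =>
    have h := (Lam e).add_mem (lam_add e n 1) ih
    have e1 : e (n + 1) - e n - e 1 + (e n - n • e 1) = e (n + 1) - (n + 1) • e 1 := by
      rw [succ_nsmul]
      abel
    rwa [e1] at h

section base

variable {H : Type*} [AddCommGroup H] {q m : ℕ} {e : ℕ → H}

theorem q2_mul (he : ∀ a y s : ℕ, s < q ^ a → e (q ^ (a + m) * y + s) = e y + e s)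
    (hq : 2 ≤ q) (y : ℕ) : e (q * y) = e y := by
  have h0 := q1_zero he
  have h1 := he 0 (q * y) 0 (by simp)
  have h2 := he 1 y 0 (by simp; omega)
  rw [h0, add_zero, add_zero] at h1 h2
  rw [← h1, ← h2]
  congr 1
  rw [zero_add, add_comm 1 m, pow_succ]
  ring

theorem q2_pow_mul (he : ∀ a y s : ℕ, s < q ^ a → e (q ^ (a + m) * y + s) = e y + e s)
    (hq : 2 ≤ q) (a y : ℕ) : e (q ^ a * y) = e y := by
  induction a with
  | zero => rw [pow_zero, one_mul]
  | succ a ih => rw [pow_succ', mul_assoc, q2_mul he hq, ih]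

end base

theorem lam_mod {H : Type*} [AddCommGroup H] {q m : ℕ} (hq : 2 ≤ q) {e : ℕ → H}
    (he : ∀ a y s : ℕ, s < q ^ a → e (q ^ (a + m) * y + s) = e y + e s) {x y : ℕ}
    (hxy : x ≡ y [MOD (q - 1)]) : e x - e y ∈ Lam e := by
  have h1 : ((q - 1 : ℕ) : ℤ) • e 1 ∈ Lam e := by
    have h2 := (Lam e).neg_mem (lam_nsmul e q)
    have h3 : e q = e 1 := by
      have := q2_mul he hq 1
      rwa [mul_one] at this
    have e1 : -(e q - q • e 1) = ((q - 1 : ℕ) : ℤ) • e 1 := by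
      rw [h3, neg_sub, natCast_zsmul]
      obtain ⟨q', rfl⟩ : ∃ q', q = q' + 1 := ⟨q - 1, by omega⟩
      rw [Nat.add_sub_cancel, succ_nsmul]
      abel
    rwa [e1] at h2
  obtain ⟨t, ht⟩ := (Nat.modEq_iff_dvd.mp hxy.symm)
  have h4 : (x : ℤ) • e 1 - (y : ℤ) • e 1 ∈ Lam e := by
    rw [← sub_smul, ht, mul_comm, mul_smul]
    exact (Lam e).zsmul_mem h1 t
  have h5 := (Lam e).add_mem ((Lam e).sub_mem (lam_nsmul e x) (lam_nsmul e y)) h4
  have e2 : e x - x • e 1 - (e y - y • e 1) + ((x : ℤ) • e 1 - (y : ℤ) • e 1) = e x - e y := by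
    rw [natCast_zsmul, natCast_zsmul]
    abel
  rwa [e2] at h5

section group

variable {H : Type*} [AddCommGroup H] {q P R : ℕ} {e : ℕ → H}

theorem q2_add {v v' w w' : H} (h1 : Good q P R e v v') (h2 : Good q P R e w w') :
    Good q P R e (v + w) (v' + w') := by
  obtain ⟨C1, hC1, h1⟩ := h1
  obtain ⟨C2, hC2, h2⟩ := h2
  refine ⟨C1 + C2, by positivity, ?_⟩
  intro h k y c d z z' hc hd hz hz' F hF
  have a1 := h1 h k y c d z z' hc hd hz hz' F hF
  have a2 := h2 h k y c d z z' hc hd hz hz' (fun x x' => F (x + v) (x' + v')) (fun x x' => hF _ _)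
  have e1 : (fun x x' : H => F (x + w + v) (x' + w' + v')) =
      fun x x' => F (x + (v + w)) (x' + (v' + w')) := by
    funext x x'
    rw [add_assoc, add_assoc, add_comm w v, add_comm w' v']
  simp only [e1] at a2
  rw [add_div]
  refine le_trans ?_ (add_le_add a1 a2)
  refine le_trans (le_of_eq ?_) (abs_add_le _ _)
  congr 1
  ring

theorem q2_neg {v v' : H} (h1 : Good q P R e v v') : Good q P R e (-v) (-v') := by
  obtain ⟨C, hC, h1⟩ := h1
  refine ⟨C, hC, ?_⟩
  intro h k y c d z z' hc hd hz hz' F hF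
  have a1 := h1 h k y c d z z' hc hd hz hz' (fun x x' => F (x + -v) (x' + -v')) (fun x x' => hF _ _)
  have e1 : (fun x x' : H => F (x + v + -v) (x' + v' + -v')) = F := by
    funext x x'
    rw [add_neg_cancel_right, add_neg_cancel_right]
  simp only [e1] at a1
  rw [abs_sub_comm]
  exact a1

theorem q2_zero : Good q P R e (0 : H) (0 : H) := by
  refine ⟨0, le_rfl, ?_⟩
  intro h k y c d z z' _ _ _ _ F _
  simp

/-- the group of good pairs -/
def q2_G (q P R : ℕ) (e : ℕ → H) : AddSubgroup (H × H) where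
  carrier := {w | Good q P R e w.1 w.2}
  add_mem' := fun h1 h2 => q2_add h1 h2
  zero_mem' := q2_zero
  neg_mem' := fun h1 => q2_neg h1

theorem q2_mem {w : H × H} : w ∈ q2_G q P R e ↔ Good q P R e w.1 w.2 := Iff.rfl

end group

section main

variable {H : Type*} [AddCommGroup H] {q m P R : ℕ} {e : ℕ → H}

theorem q2_alg1 (a b c d f g : H) :
    ((a + b, c + d) : H × H) - (b, f + d) - (a, g) = (0, c - f - g) := by
  refine Prod.ext ?_ ?_
  · change a + b - b - a = 0
    abel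
  · change c + d - (f + d) - g = c - f - g
    abel

theorem q2_alg2 (a b c d f g k : H) :
    ((a + b, c) : H × H) - (d + b, f) - (g, k) - (0, c - f - k) = (a - d - g, 0) := by
  refine Prod.ext ?_ ?_
  · change a + b - (d + b) - g - 0 = a - d - g
    abel
  · change c - f - k - (c - f - k) = 0
    abel

/-- the ceiling of `q ^ a / R` -/
theorem q2_ceil {R : ℕ} (hR : 1 ≤ R) (N : ℕ) : ∃ x s, R * x = N + s ∧ s < R := by
  refine ⟨(N + R - 1) / R, R * ((N + R - 1) / R) - N, ?_, ?_⟩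
  · have h1 := Nat.div_add_mod (N + R - 1) R
    have h2 := Nat.mod_lt (N + R - 1) hR
    omega
  · have h1 := Nat.div_add_mod (N + R - 1) R
    have h2 := Nat.mod_lt (N + R - 1) hR
    omega

/-- elementary defects at arbitrary places from those at multiples of `R` -/
theorem q2_inv (hq : 2 ≤ q)
    (he : ∀ a y s : ℕ, s < q ^ a → e (q ^ (a + m) * y + s) = e y + e s) (hR : R.Coprime q)
    (n : ℕ) : ∃ z, e (1 + R * z) - e 1 - e (R * z) = e (n + 1) - e n - e 1 := by
  obtain ⟨A, hA⟩ : ∃ A, n + 2 ≤ q ^ A := ⟨n + 2, (Nat.lt_pow_self (by omega)).le⟩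
  have hlt : n < q ^ (A + m) := by
    have : q ^ A ≤ q ^ (A + m) := Nat.pow_le_pow_right (by omega) (Nat.le_add_right _ _)
    omega
  have hcop : R.Coprime (q ^ (A + m)) := Nat.Coprime.pow_right _ hR
  have h1q : 1 < q ^ (A + m) := by
    have : q ^ A ≤ q ^ (A + m) := Nat.pow_le_pow_right (by omega) (Nat.le_add_right _ _)
    omega
  obtain ⟨r, -, hr⟩ := Nat.exists_mul_mod_eq_one_of_coprime hcop h1q
  have hz : R * (r * n) % q ^ (A + m) = n := by
    rw [← mul_assoc, Nat.mul_mod, hr, one_mul, Nat.mod_mod, Nat.mod_eq_of_lt hlt]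
  have hdiv := Nat.div_add_mod (R * (r * n)) (q ^ (A + m))
  rw [hz] at hdiv
  set y := R * (r * n) / q ^ (A + m)
  refine ⟨r * n, ?_⟩
  rw [← hdiv]
  have e1 : 1 + (q ^ (A + m) * y + n) = q ^ (A + m) * y + (n + 1) := by ring
  rw [e1, he A y (n + 1) (by omega), he A y n (by omega)]
  abel

/-- the defects are generated by the elementary ones -/
theorem q2_gen (h0 : e 0 = 0) {S : AddSubgroup H} (hS : ∀ n, e (n + 1) - e n - e 1 ∈ S) :
    Lam e ≤ S := by
  unfold Lam
  rw [AddSubgroup.closure_le]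
  rintro w ⟨a, b, rfl⟩
  rw [SetLike.mem_coe]
  induction b with
  | zero =>
    rw [add_zero, h0, sub_self, sub_zero]
    exact S.zero_mem
  | succ b ih =>
    have h := S.sub_mem (S.add_mem (hS (a + b)) ih) (hS b)
    have e1 : e (a + b + 1) - e (a + b) - e 1 + (e (a + b) - e a - e b) -
        (e (b + 1) - e b - e 1) = e (a + (b + 1)) - e a - e (b + 1) := by
      rw [← add_assoc]
      abel
    rwa [e1] at h

theorem q2_A (hq : 2 ≤ q)
    (he : ∀ a y s : ℕ, s < q ^ a → e (q ^ (a + m) * y + s) = e y + e s)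
    (hPR : 2 * q ^ m * P ≤ R) (hP1 : 1 ≤ P) (z : ℕ) :
    ((0 : H), e (1 + R * z) - e 1 - e (R * z)) ∈ q2_G q P R e := by
  have hqm := qpow_pos hq m
  have hR1 : 1 ≤ R := by
    have : 1 ≤ 2 * q ^ m * P := Nat.mul_pos (by omega) hP1
    omega
  obtain ⟨a, ha⟩ : ∃ a, 2 * P + R ≤ q ^ a := ⟨2 * P + R, (Nat.lt_pow_self (by omega)).le⟩
  obtain ⟨x0, s, hx0, hs⟩ := q2_ceil hR1 (q ^ (a + m))
  have hPx : P * x0 < q ^ a := by
    have h1 : R * (P * x0) < R * q ^ a := by
      calc R * (P * x0) = P * (R * x0) := by ring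
        _ = P * (q ^ (a + m) + s) := by rw [hx0]
        _ < P * (q ^ (a + m) + R) := Nat.mul_lt_mul_of_pos_left (by omega) hP1
        _ = (q ^ m * P) * q ^ a + P * R := by rw [pow_add]; ring
        _ ≤ R * q ^ a := by
          have h2 : 2 * ((q ^ m * P) * q ^ a) ≤ R * q ^ a := by
            calc 2 * ((q ^ m * P) * q ^ a) = (2 * q ^ m * P) * q ^ a := by ring
              _ ≤ R * q ^ a := Nat.mul_le_mul_right _ hPR
          have h3 : 2 * (P * R) ≤ R * q ^ a := by
            calc 2 * (P * R) = R * (2 * P) := by ring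
              _ ≤ R * q ^ a := Nat.mul_le_mul_left _ (by omega)
          omega
    exact Nat.lt_of_mul_lt_mul_left h1
  have g1 : ((e (P * (x0 + q ^ (a + m) * z)), e (R * (x0 + q ^ (a + m) * z))) : H × H) ∈
      q2_G q P R e := good_base hq he hP1 hR1 _
  have g2 : ((e (P * x0), e (R * x0)) : H × H) ∈ q2_G q P R e := good_base hq he hP1 hR1 _
  have g3 : ((e (P * z), e (R * z)) : H × H) ∈ q2_G q P R e := good_base hq he hP1 hR1 _
  have e1 : P * (x0 + q ^ (a + m) * z) = q ^ (a + m) * (P * z) + P * x0 := by ring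
  have e2 : R * (x0 + q ^ (a + m) * z) = q ^ (a + m) * (1 + R * z) + s := by
    calc R * (x0 + q ^ (a + m) * z) = R * x0 + q ^ (a + m) * (R * z) := by ring
      _ = _ := by rw [hx0]; ring
  have e3 : R * x0 = q ^ (a + m) * 1 + s := by rw [hx0, mul_one]
  rw [e1, e2, he a _ _ hPx, he a _ _ (by omega)] at g1
  rw [e3, he a _ _ (by omega)] at g2
  have h := (q2_G q P R e).sub_mem ((q2_G q P R e).sub_mem g1 g2) g3
  rwa [q2_alg1] at h

theorem q2_snd (hq : 2 ≤ q)
    (he : ∀ a y s : ℕ, s < q ^ a → e (q ^ (a + m) * y + s) = e y + e s) (hR : R.Coprime q)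
    (hPR : 2 * q ^ m * P ≤ R) (hP1 : 1 ≤ P) {v' : H} (hv' : v' ∈ Lam e) :
    ((0 : H), v') ∈ q2_G q P R e := by
  have h := q2_gen (S := (q2_G q P R e).comap (AddMonoidHom.inr H H)) (q1_zero he) (by
    intro n
    obtain ⟨z, hz⟩ := q2_inv hq he hR n
    rw [AddSubgroup.mem_comap, ← hz]
    exact q2_A hq he hPR hP1 z)
  exact h hv'

theorem q2_C (hq : 2 ≤ q)
    (he : ∀ a y s : ℕ, s < q ^ a → e (q ^ (a + m) * y + s) = e y + e s) (hR : R.Coprime q)
    (hPR : 2 * q ^ m * P ≤ R) (hP1 : 1 ≤ P) (z : ℕ) :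
    (e (1 + P * z) - e 1 - e (P * z), (0 : H)) ∈ q2_G q P R e := by
  have hqm := qpow_pos hq m
  have hR1 : 1 ≤ R := by
    have : 1 ≤ 2 * q ^ m * P := Nat.mul_pos (by omega) hP1
    omega
  obtain ⟨a, ha⟩ : ∃ a, P ≤ q ^ a := ⟨P, (Nat.lt_pow_self (by omega)).le⟩
  obtain ⟨x0, s, hx0, hs⟩ := q2_ceil hP1 (q ^ (a + m))
  have g1 : ((e (P * (x0 + q ^ (a + m) * z)), e (R * (x0 + q ^ (a + m) * z))) : H × H) ∈
      q2_G q P R e := good_base hq he hP1 hR1 _
  have g2 : ((e (P * x0), e (R * x0)) : H × H) ∈ q2_G q P R e := good_base hq he hP1 hR1 _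
  have g3 : ((e (P * z), e (R * z)) : H × H) ∈ q2_G q P R e := good_base hq he hP1 hR1 _
  have e2 : P * (x0 + q ^ (a + m) * z) = q ^ (a + m) * (1 + P * z) + s := by
    calc P * (x0 + q ^ (a + m) * z) = P * x0 + q ^ (a + m) * (P * z) := by ring
      _ = _ := by rw [hx0]; ring
  have e3 : P * x0 = q ^ (a + m) * 1 + s := by rw [hx0, mul_one]
  rw [e2, he a _ _ (by omega)] at g1
  rw [e3, he a _ _ (by omega)] at g2
  have h := (q2_G q P R e).sub_mem ((q2_G q P R e).sub_mem g1 g2) g3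
  -- the second coordinate
  have h2 : e (R * (x0 + q ^ (a + m) * z)) - e (R * x0) - e (R * z) ∈ Lam e := by
    have h3 := lam_add e (R * x0) (q ^ (a + m) * (R * z))
    rw [q2_pow_mul he hq] at h3
    have e5 : R * x0 + q ^ (a + m) * (R * z) = R * (x0 + q ^ (a + m) * z) := by ring
    rwa [e5] at h3
  have h4 := (q2_G q P R e).sub_mem h (q2_snd hq he hR hPR hP1 h2)
  rwa [q2_alg2] at h4

theorem q2_fst (hq : 2 ≤ q)
    (he : ∀ a y s : ℕ, s < q ^ a → e (q ^ (a + m) * y + s) = e y + e s) (hP : P.Coprime q)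
    (hR : R.Coprime q) (hPR : 2 * q ^ m * P ≤ R) (hP1 : 1 ≤ P) {v : H} (hv : v ∈ Lam e) :
    (v, (0 : H)) ∈ q2_G q P R e := by
  have h := q2_gen (S := (q2_G q P R e).comap (AddMonoidHom.inl H H)) (q1_zero he) (by
    intro n
    obtain ⟨z, hz⟩ := q2_inv hq he hP n
    rw [AddSubgroup.mem_comap, ← hz]
    exact q2_C hq he hR hPR hP1 z)
  exact h hv

end main

theorem good_all {H : Type*} [AddCommGroup H] {q m : ℕ} (hq : 2 ≤ q) {e : ℕ → H}
    (he : ∀ a y s : ℕ, s < q ^ a → e (q ^ (a + m) * y + s) = e y + e s) {P R : ℕ}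
    (hP : P.Coprime q) (hR : R.Coprime q) (hPR : 2 * q ^ m * P ≤ R) (hP1 : 1 ≤ P) {v v' : H}
    (hv : v ∈ Lam e) (hv' : v' ∈ Lam e) : Good q P R e v v' := by
  have h := (q2_G q P R e).add_mem (q2_fst hq he hP hR hPR hP1 hv) (q2_snd hq he hR hPR hP1 hv')
  rw [Prod.mk_add_mk, add_zero, zero_add] at h
  exact h

theorem good_diag {H : Type*} [AddCommGroup H] {q m : ℕ} (hq : 2 ≤ q) {e : ℕ → H}
    (he : ∀ a y s : ℕ, s < q ^ a → e (q ^ (a + m) * y + s) = e y + e s)
    (hgen : AddSubgroup.closure (Set.range e) = ⊤) (v : H) : Good q 1 1 e v v := by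
  have h : AddSubgroup.closure (Set.range e) ≤
      (q2_G q 1 1 e).comap ((AddMonoidHom.id H).prod (AddMonoidHom.id H)) := by
    rw [AddSubgroup.closure_le]
    rintro w ⟨x, rfl⟩
    rw [SetLike.mem_coe, AddSubgroup.mem_comap]
    have h1 := good_base hq he (P := 1) (R := 1) le_rfl le_rfl x
    rw [one_mul] at h1
    exact h1
  have h2 : v ∈ AddSubgroup.closure (Set.range e) := by
    rw [hgen]
    exact AddSubgroup.mem_top v
  exact h h2

end Pool.Agent.Lib.MP_3e612f_nt.QA
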