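import Pool.Agent.Lib.MP_3e612f_nt.SWin
import Pool.Agent.Lib.MP_3e612f_nt.QAlg

/-!
Shifts in the lattice which keep the finite part.
-/

set_option autoImplicit false

namespace Pool.Agent.Lib.MP_3e612f_nt.SA

open Filter Topology QA

section pairs

variable {H : Type*} [AddCommGroup H] {q m P R : ℕ} {e : ℕ → H} {K : AddSubgroup (H × H)}

theorem t2_A (hK : ∀ x, (e (P * x), e (R * x)) ∈ K) (hq : 2 ≤ q)
    (he : ∀ a y s : ℕ, s < q ^ a → e (q ^ (a + m) * y + s) = e y + e s)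
    (hPR : 2 * q ^ m * P ≤ R) (hP1 : 1 ≤ P) (z : ℕ) :
    ((0 : H), e (1 + R * z) - e 1 - e (R * z)) ∈ K := by
  have hqm := qpow_pos hq m
  have hR1 : 1 ≤ R := by
    have : 1 ≤ 2 * q ^ m * P := Nat.mul_pos (by omega) hP1
    omega
  obtain ⟨a, ha⟩ : ∃ a, 2 * P + R ≤ q ^ a := ⟨2 * P + R, (Nat.lt_pow_self (by omega)).le⟩
  obtain ⟨x0, s, hx0, hs⟩ := q2_ceil hR1 (q ^ (a + m))
  have hPx : P * x0 < q ^ a := by
    have h1 : R * (P * x0) < R * q ^ a := by
      calc R * (P * x0) = P * (R * x0) := by ring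
        _ = P * (q ^ (a + m) + s) := by rw [hx0]
        _ < P * (q ^ (a + m) + R) := Nat.mul_lt_mul_of_pos_left (by omega) hP1
        _ = (q ^ m * P) * q ^ a + P * R := by rw [pow_add]; ring
        _ ≤ R * q ^ a := by
          have h2 : 2 * ((q ^ m * P) * q ^ a) ≤ R * q ^ a := by
            calc 2 * ((q ^ m * P) * q ^ a) = (2 * q ^ m * P) * q ^ a := by ring
              _ ≤ R * q ^ a := Nat.mul_le_mul_right _ hPR
          have h3 : 2 * (P * R) ≤ R * q ^ a := by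
            calc 2 * (P * R) = R * (2 * P) := by ring
              _ ≤ R * q ^ a := Nat.mul_le_mul_left _ (by omega)
          omega
    exact Nat.lt_of_mul_lt_mul_left h1
  have g1 := hK (x0 + q ^ (a + m) * z)
  have g2 := hK x0
  have g3 := hK z
  have e1 : P * (x0 + q ^ (a + m) * z) = q ^ (a + m) * (P * z) + P * x0 := by ring
  have e2 : R * (x0 + q ^ (a + m) * z) = q ^ (a + m) * (1 + R * z) + s := by
    calc R * (x0 + q ^ (a + m) * z) = R * x0 + q ^ (a + m) * (R * z) := by ring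
      _ = _ := by rw [hx0]; ring
  have e3 : R * x0 = q ^ (a + m) * 1 + s := by rw [hx0, mul_one]
  rw [e1, e2, he a _ _ hPx, he a _ _ (by omega)] at g1
  rw [e3, he a _ _ (by omega)] at g2
  have h := K.sub_mem (K.sub_mem g1 g2) g3
  rwa [q2_alg1] at h

theorem t2_snd (hK : ∀ x, (e (P * x), e (R * x)) ∈ K) (hq : 2 ≤ q)
    (he : ∀ a y s : ℕ, s < q ^ a → e (q ^ (a + m) * y + s) = e y + e s) (hR : R.Coprime q)
    (hPR : 2 * q ^ m * P ≤ R) (hP1 : 1 ≤ P) {v' : H} (hv' : v' ∈ Lam e) :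
    ((0 : H), v') ∈ K := by
  have h := q2_gen (S := K.comap (AddMonoidHom.inr H H)) (q1_zero he) (by
    intro n
    obtain ⟨z, hz⟩ := q2_inv hq he hR n
    rw [AddSubgroup.mem_comap, ← hz]
    exact t2_A hK hq he hPR hP1 z)
  exact h hv'

theorem t2_C (hK : ∀ x, (e (P * x), e (R * x)) ∈ K) (hq : 2 ≤ q)
    (he : ∀ a y s : ℕ, s < q ^ a → e (q ^ (a + m) * y + s) = e y + e s) (hR : R.Coprime q)
    (hPR : 2 * q ^ m * P ≤ R) (hP1 : 1 ≤ P) (z : ℕ) :
    (e (1 + P * z) - e 1 - e (P * z), (0 : H)) ∈ K := by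
  have hqm := qpow_pos hq m
  have hR1 : 1 ≤ R := by
    have : 1 ≤ 2 * q ^ m * P := Nat.mul_pos (by omega) hP1
    omega
  obtain ⟨a, ha⟩ : ∃ a, P ≤ q ^ a := ⟨P, (Nat.lt_pow_self (by omega)).le⟩
  obtain ⟨x0, s, hx0, hs⟩ := q2_ceil hP1 (q ^ (a + m))
  have g1 := hK (x0 + q ^ (a + m) * z)
  have g2 := hK x0
  have g3 := hK z
  have e2 : P * (x0 + q ^ (a + m) * z) = q ^ (a + m) * (1 + P * z) + s := by
    calc P * (x0 + q ^ (a + m) * z) = P * x0 + q ^ (a + m) * (P * z) := by ring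
      _ = _ := by rw [hx0]; ring
  have e3 : P * x0 = q ^ (a + m) * 1 + s := by rw [hx0, mul_one]
  rw [e2, he a _ _ (by omega)] at g1
  rw [e3, he a _ _ (by omega)] at g2
  have h := K.sub_mem (K.sub_mem g1 g2) g3
  -- the second coordinate
  have h2 : e (R * (x0 + q ^ (a + m) * z)) - e (R * x0) - e (R * z) ∈ Lam e := by
    have h3 := lam_add e (R * x0) (q ^ (a + m) * (R * z))
    rw [q2_pow_mul he hq] at h3
    have e5 : R * x0 + q ^ (a + m) * (R * z) = R * (x0 + q ^ (a + m) * z) := by ring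
    rwa [e5] at h3
  have h4 := K.sub_mem h (t2_snd hK hq he hR hPR hP1 h2)
  rwa [q2_alg2] at h4

theorem t2_fst (hK : ∀ x, (e (P * x), e (R * x)) ∈ K) (hq : 2 ≤ q)
    (he : ∀ a y s : ℕ, s < q ^ a → e (q ^ (a + m) * y + s) = e y + e s) (hP : P.Coprime q)
    (hR : R.Coprime q) (hPR : 2 * q ^ m * P ≤ R) (hP1 : 1 ≤ P) {v : H} (hv : v ∈ Lam e) :
    (v, (0 : H)) ∈ K := by
  have h := q2_gen (S := K.comap (AddMonoidHom.inl H H)) (q1_zero he) (by
    intro n
    obtain ⟨z, hz⟩ := q2_inv hq he hP n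
    rw [AddSubgroup.mem_comap, ← hz]
    exact t2_C hK hq he hR hPR hP1 z)
  exact h hv

end pairs

theorem lam_pair {H : Type*} [AddCommGroup H] {q m : ℕ} (hq : 2 ≤ q) {e : ℕ → H}
    (he : ∀ a y s : ℕ, s < q ^ a → e (q ^ (a + m) * y + s) = e y + e s) {P R : ℕ}
    (hP : P.Coprime q) (hR : R.Coprime q) (hPR : 2 * q ^ m * P ≤ R) (hP1 : 1 ≤ P) {v v' : H}
    (hv : v ∈ Lam e) (hv' : v' ∈ Lam e) :
    (v, v') ∈ AddSubgroup.closure (Set.range fun x : ℕ => (e (P * x), e (R * x))) := by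
  set K := AddSubgroup.closure (Set.range fun x : ℕ => (e (P * x), e (R * x))) with hKdef
  have hK : ∀ x, (e (P * x), e (R * x)) ∈ K := fun x =>
    AddSubgroup.subset_closure ⟨x, rfl⟩
  have h := K.add_mem (t2_fst hK hq he hP hR hPR hP1 hv) (t2_snd hK hq he hR hPR hP1 hv')
  rw [Prod.mk_add_mk, add_zero, zero_add] at h
  exact h

section finite

variable {K : Type*} [Monoid K] [Finite K]

theorem t2_idem (x : K) : x ^ (Nat.card K).factorial * x ^ (Nat.card K).factorial =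
    x ^ (Nat.card K).factorial := by
  set N := (Nat.card K).factorial with hN
  have hc : Nat.card K ≤ N := Nat.self_le_factorial _
  have : Fintype K := Fintype.ofFinite K
  obtain ⟨i, j, hij, hxx⟩ : ∃ i j : ℕ, i < j ∧ j ≤ Nat.card K ∧ x ^ i = x ^ j := by
    obtain ⟨a, b, hab, h⟩ := Fintype.exists_ne_map_eq_of_card_lt
      (fun i : Fin (Nat.card K + 1) => x ^ (i : ℕ)) (by
        rw [Fintype.card_fin, Nat.card_eq_fintype_card]
        exact Nat.lt_succ_self _)
    have hne : (a : ℕ) ≠ b := fun h => hab (Fin.ext h)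
    rcases lt_or_gt_of_ne hne with h1 | h1
    · exact ⟨a, b, h1, Nat.lt_succ_iff.mp b.2, h⟩
    · exact ⟨b, a, h1, Nat.lt_succ_iff.mp a.2, h.symm⟩
  obtain ⟨hj, hx⟩ := hxx
  have hper : ∀ k, x ^ (i + k * (j - i)) = x ^ i := by
    intro k
    induction k with
    | zero => simp
    | succ k ih =>
      have e1 : i + (k + 1) * (j - i) = (i + k * (j - i)) + (j - i) := by ring
      rw [e1, pow_add, ih, ← pow_add]
      have e2 : i + (j - i) = j := by omega
      rw [e2, hx]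
  obtain ⟨k, hk⟩ : (j - i) ∣ N := Nat.dvd_factorial (by omega) (by omega)
  have hiN : i ≤ N := by omega
  obtain ⟨r, hr⟩ := Nat.exists_eq_add_of_le hiN
  have e3 : N + N = (i + k * (j - i)) + r := by
    rw [mul_comm k]
    omega
  rw [← pow_add, e3, pow_add, hper, ← pow_add, ← hr]

omit [Finite K] in
theorem t2_pow_left {a y ε : K} (hay : a * y = ε) (hε : ε * y = y) (n : ℕ) (hn : 1 ≤ n) :
    a ^ n * y ^ n = ε := by
  induction n, hn using Nat.le_induction with
  | base => simpa using hay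
  | succ n hn ih =>
    have h1 : ε * y ^ n = y ^ n := by
      obtain ⟨k, rfl⟩ := Nat.exists_eq_add_of_le' hn
      rw [pow_succ', ← mul_assoc, hε]
    rw [pow_succ a, pow_succ' y, mul_assoc, ← mul_assoc a y, hay, h1, ih]

/-- an idempotent `ε` in a submonoid such that all `ε d ε` have the same idempotent power -/
theorem t2_kernel (D : Submonoid K) : ∃ ε ∈ D, ε * ε = ε ∧
    ∀ d ∈ D, (ε * d * ε) ^ (Nat.card K).factorial = ε := by
  set N := (Nat.card K).factorial with hN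
  have hN1 : 1 ≤ N := Nat.factorial_pos _
  obtain ⟨x, hxD, hx⟩ := Set.exists_min_image (D : Set K)
    (fun x => ((fun d => d * x) '' (D : Set K)).ncard) (Set.toFinite _) ⟨1, D.one_mem⟩
  have hεD : x ^ N ∈ D := D.pow_mem hxD N
  have hεε : x ^ N * x ^ N = x ^ N := t2_idem x
  set ε := x ^ N with hε
  refine ⟨ε, hεD, hεε, ?_⟩
  intro d hd
  set y := ε * d * ε with hy
  have hyD : y ∈ D := D.mul_mem (D.mul_mem hεD hd) hεD
  have hsub1 : (fun d => d * y) '' (D : Set K) ⊆ (fun d => d * ε) '' (D : Set K) := by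
    rintro w ⟨d', hd', rfl⟩
    exact ⟨d' * (ε * d), D.mul_mem hd' (D.mul_mem hεD hd), by
      simp only [hy, mul_assoc]⟩
  have hsub2 : (fun d => d * ε) '' (D : Set K) ⊆ (fun d => d * x) '' (D : Set K) := by
    rintro w ⟨d', hd', rfl⟩
    refine ⟨d' * x ^ (N - 1), D.mul_mem hd' (D.pow_mem hxD _), ?_⟩
    have e1 : x ^ N = x ^ (N - 1) * x := by
      rw [← pow_succ]
      congr 1
      omega
    simp only [hε, e1, mul_assoc]
  have heq : (fun d => d * y) '' (D : Set K) = (fun d => d * ε) '' (D : Set K) := by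
    refine Set.eq_of_subset_of_ncard_le hsub1 ?_ (Set.toFinite _)
    exact (Set.ncard_le_ncard hsub2 (Set.toFinite _)).trans (hx y hyD)
  have hmem : ε ∈ (fun d => d * y) '' (D : Set K) := by
    rw [heq]
    exact ⟨1, D.one_mem, one_mul _⟩
  obtain ⟨g, -, hg⟩ := hmem
  have hg' : g * y = ε := hg
  have h1 : (ε * g) * y = ε := by rw [mul_assoc, hg', hεε]
  have h2 : ε * y = y := by
    rw [hy, ← mul_assoc, ← mul_assoc, hεε]
  have h3 := t2_pow_left h1 h2 N hN1
  have h4 : y ^ N * y ^ N = y ^ N := t2_idem y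
  have h5 : ε * y ^ N = y ^ N := by
    obtain ⟨k, hk⟩ := Nat.exists_eq_add_of_le' hN1
    rw [hk, pow_succ', ← mul_assoc, h2]
  rw [← h5]
  nth_rewrite 1 [← h3]
  rw [mul_assoc, h4, h3]

end finite

section concat

variable {G : Type*} [Monoid G] {q m : ℕ} {γ : ℕ → G}

theorem t2_concat (hq : 2 ≤ q)
    (hγ : ∀ a y s : ℕ, s < q ^ a → γ (q ^ (a + m) * y + s) = γ y * γ s) (P R x y : ℕ) :
    ∃ w, γ (P * w) = γ (P * x) * γ (P * y) ∧ γ (R * w) = γ (R * x) * γ (R * y) := by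
  obtain ⟨a, ha⟩ : ∃ a, P * y + R * y < q ^ a := ⟨P * y + R * y, Nat.lt_pow_self (by omega)⟩
  refine ⟨q ^ (a + m) * x + y, ?_, ?_⟩
  · rw [← hγ a (P * x) (P * y) (by omega)]
    congr 1
    ring
  · rw [← hγ a (R * x) (R * y) (by omega)]
    congr 1
    ring

theorem t2_cpow (hq : 2 ≤ q)
    (hγ : ∀ a y s : ℕ, s < q ^ a → γ (q ^ (a + m) * y + s) = γ y * γ s) (P R x n : ℕ)
    (hn : 1 ≤ n) : ∃ w, γ (P * w) = γ (P * x) ^ n ∧ γ (R * w) = γ (R * x) ^ n := by
  induction n, hn using Nat.le_induction with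
  | base => exact ⟨x, by rw [pow_one], by rw [pow_one]⟩
  | succ n _ ih =>
    obtain ⟨w, h1, h2⟩ := ih
    obtain ⟨w', h3, h4⟩ := t2_concat hq hγ P R w x
    exact ⟨w', by rw [h3, h1, pow_succ], by rw [h4, h2, pow_succ]⟩

end concat

/-- every element of the group generated by the pairs is a difference of two words -/
theorem t2_diff {H : Type*} [AddCommGroup H] {q m : ℕ} (hq : 2 ≤ q) {e : ℕ → H}
    (he : ∀ a y s : ℕ, s < q ^ a → e (q ^ (a + m) * y + s) = e y + e s) (P R : ℕ) {w : H × H}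
    (hw : w ∈ AddSubgroup.closure (Set.range fun x : ℕ => (e (P * x), e (R * x)))) :
    ∃ u v : ℕ, e (P * u) = e (P * v) + w.1 ∧ e (R * u) = e (R * v) + w.2 := by
  have hγ : ∀ a y s : ℕ, s < q ^ a → (fun n => Multiplicative.ofAdd (e n)) (q ^ (a + m) * y + s) =
      (fun n => Multiplicative.ofAdd (e n)) y * (fun n => Multiplicative.ofAdd (e n)) s := by
    intro a y s hs
    change Multiplicative.ofAdd (e _) = Multiplicative.ofAdd (e _) * Multiplicative.ofAdd (e _)
    rw [he a y s hs]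
    rfl
  have hcc : ∀ x y : ℕ, ∃ w, e (P * w) = e (P * x) + e (P * y) ∧
      e (R * w) = e (R * x) + e (R * y) := fun x y => t2_concat hq hγ P R x y
  induction hw using AddSubgroup.closure_induction with
  | mem w hw =>
    obtain ⟨x, rfl⟩ := hw
    exact ⟨x, 0, by rw [mul_zero, q1_zero he, zero_add], by rw [mul_zero, q1_zero he, zero_add]⟩
  | zero => exact ⟨0, 0, by simp, by simp⟩
  | add w w' _ _ ih ih' =>
    obtain ⟨u, v, h1, h2⟩ := ih
    obtain ⟨u', v', h1', h2'⟩ := ih'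
    obtain ⟨a, ha1, ha2⟩ := hcc u u'
    obtain ⟨b, hb1, hb2⟩ := hcc v v'
    refine ⟨a, b, ?_, ?_⟩
    · rw [ha1, hb1, h1, h1', Prod.fst_add]
      abel
    · rw [ha2, hb2, h2, h2', Prod.snd_add]
      abel
  | neg w _ ih =>
    obtain ⟨u, v, h1, h2⟩ := ih
    refine ⟨v, u, ?_, ?_⟩
    · rw [h1, Prod.fst_neg]
      abel
    · rw [h2, Prod.snd_neg]
      abel

theorem goodS_all {S : Type*} [Monoid S] [Finite S] {q m d : ℕ} (hq : 2 ≤ q) {β : ℕ → S}
    (hβ : QM q m β) : ∃ N : ℕ, 1 ≤ N ∧ ∀ e : ℕ → Fin d → ℤ,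
      (∀ a y s : ℕ, s < q ^ a → e (q ^ (a + m) * y + s) = e y + e s) → ∀ P R : ℕ,
      P.Coprime q → R.Coprime q → 2 * q ^ m * P ≤ R → 1 ≤ P → ∀ v ∈ Lam e, ∀ v' ∈ Lam e,
        GoodS q P R β e (N • v) (N • v') := by
  set N := (Nat.card (S × S)).factorial with hN
  have hN1 : 1 ≤ N := Nat.factorial_pos _
  refine ⟨N, hN1, ?_⟩
  intro e he P R hP hR hPR hP1 v hv v' hv'
  have hR1 : 1 ≤ R := by
    have hqm := qpow_pos hq m
    have : 1 ≤ 2 * q ^ m * P := Nat.mul_pos (by omega) hP1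
    omega
  obtain ⟨vp, vm, hvP, hvR⟩ := t2_diff hq he P R (lam_pair hq he hP hR hPR hP1 hv hv')
  -- the submonoid of the finite parts
  set D : Submonoid (S × S) :=
    { carrier := Set.range fun x : ℕ => (β (P * x), β (R * x))
      mul_mem' := by
        rintro _ _ ⟨x, rfl⟩ ⟨y, rfl⟩
        obtain ⟨w, h1, h2⟩ := t2_concat hq hβ.gap P R x y
        exact ⟨w, Prod.ext h1 h2⟩
      one_mem' := ⟨0, by simp only [mul_zero, hβ.one]; rfl⟩ } with hD
  obtain ⟨ε, ⟨δ, hδ⟩, hεε, hε⟩ := t2_kernel D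
  set γ : ℕ → S × Multiplicative (Fin d → ℤ) := fun n => (β n, Multiplicative.ofAdd (e n)) with hγd
  have hγ : ∀ a y s : ℕ, s < q ^ a → γ (q ^ (a + m) * y + s) = γ y * γ s := by
    intro a y s hs
    refine Prod.ext (hβ.gap a y s hs) ?_
    change Multiplicative.ofAdd (e _) = Multiplicative.ofAdd (e _) * Multiplicative.ofAdd (e _)
    rw [he a y s hs]
    rfl
  -- the words
  have hword : ∀ u : ℕ, ∃ w : ℕ, β (P * w) = ε.1 ∧ β (R * w) = ε.2 ∧
      e (P * w) = N • (e (P * δ) + e (P * u) + e (P * δ)) ∧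
      e (R * w) = N • (e (R * δ) + e (R * u) + e (R * δ)) := by
    intro u
    obtain ⟨w1, a1, a2⟩ := t2_concat hq hγ P R δ u
    obtain ⟨w2, b1, b2⟩ := t2_concat hq hγ P R w1 δ
    obtain ⟨w, c1, c2⟩ := t2_cpow hq hγ P R w2 N hN1
    have hd : (β (P * u), β (R * u)) ∈ D := ⟨u, rfl⟩
    have hk := hε _ hd
    have hδ' : (β (P * δ), β (R * δ)) = ε := hδ
    rw [b1, a1] at c1
    rw [b2, a2] at c2
    refine ⟨w, ?_, ?_, ?_, ?_⟩
    · have := congrArg Prod.fst c1
      rw [← hk, ← hδ']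
      exact this
    · have := congrArg Prod.fst c2
      rw [← hk, ← hδ']
      exact this
    · exact congrArg Prod.snd c1
    · exact congrArg Prod.snd c2
  obtain ⟨wp, p1, p2, p3, p4⟩ := hword vp
  obtain ⟨wm, m1, m2, m3, m4⟩ := hword vm
  have hdP : e (P * wp) = N • v + e (P * wm) := by
    rw [p3, m3, hvP]
    simp only [smul_add]
    abel
  have hdR : e (R * wp) = N • v' + e (R * wm) := by
    rw [p4, m4, hvR]
    simp only [smul_add]
    abel
  rcases eq_or_ne wm wp with heq | hne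
  · have hv0 : N • v = 0 := by
      rw [heq] at hdP
      simpa using hdP
    have hv0' : N • v' = 0 := by
      rw [heq] at hdR
      simpa using hdR
    rw [hv0, hv0']
    refine ⟨0, le_rfl, ?_⟩
    intro h k y c d' z z' _ _ _ _ F _
    simp
  · set t : S × Multiplicative (Fin d → ℤ) := (1, Multiplicative.ofAdd (N • v)) with ht
    set t' : S × Multiplicative (Fin d → ℤ) := (1, Multiplicative.ofAdd (N • v')) with ht'
    have hcen : ∀ (u : Fin d → ℤ) (x : S × Multiplicative (Fin d → ℤ)),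
        ((1, Multiplicative.ofAdd u) : S × Multiplicative (Fin d → ℤ)) * x =
          x * (1, Multiplicative.ofAdd u) := by
      intro u x
      refine Prod.ext ?_ ?_
      · change 1 * x.1 = x.1 * 1
        rw [one_mul, mul_one]
      · exact mul_comm _ _
    obtain ⟨C, hC, hgood⟩ := goodm hq hγ hP1 hR1 (t := t) (t' := t') (hcen _) (hcen _) hne
      (Prod.ext (by change β (P * wp) = 1 * β (P * wm); rw [one_mul, p1, m1]) hdP)
      (Prod.ext (by change β (R * wp) = 1 * β (R * wm); rw [one_mul, p2, m2]) hdR)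
    refine ⟨C, hC, ?_⟩
    intro h k y c d' z z' hc hd hz hz' F hF
    have h1 := hgood h k y c d' z z' hc hd hz hz' F hF
    have hx : ∀ (u : Fin d → ℤ) (x : S × (Fin d → ℤ)),
        (HMul.hMul (α := S × Multiplicative (Fin d → ℤ)) (β := S × Multiplicative (Fin d → ℤ))
          (1, Multiplicative.ofAdd u) x : S × Multiplicative (Fin d → ℤ)) = (x.1, x.2 + u) := by
      intro u x
      refine Prod.ext ?_ ?_
      · change 1 * x.1 = x.1
        rw [one_mul]
      · exact add_comm u x.2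
    have e1 : (fun x x' : S × Multiplicative (Fin d → ℤ) => F (t * x) (t' * x')) =
        fun (x x' : S × (Fin d → ℤ)) => F (x.1, x.2 + N • v) (x'.1, x'.2 + N • v') := by
      funext x x'
      exact congrArg₂ F (hx _ x) (hx _ x')
    rw [e1] at h1
    exact h1

end Pool.Agent.Lib.MP_3e612f_nt.SA
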