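import Pool.Agent.Lib.MP_3e612f_nt.SRot
import Pool.Agent.Lib.MP_3e612f_nt.SExch
import Pool.Agent.Lib.MP_3e612f_nt.SAuto

/-!
The Möbius function is orthogonal, in logarithmic averages, to every bounded function of a pair
formed by an automatic sequence and a quasi-additive function, twisted by a rotation.
-/

set_option autoImplicit false

namespace Pool.Agent.Lib.MP_3e612f_nt.SA

open Filter Topology QA

theorem QM.gap_add {S : Type*} [Monoid S] {q m : ℕ} (hq : 2 ≤ q) {β : ℕ → S} (hβ : QM q m β)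
    (j : ℕ) : QM q (m + j) β := by
  refine ⟨hβ.one, fun a y s hs => ?_⟩
  have h1 := hβ.gap (a + j) y s (lt_of_lt_of_le hs (Nat.pow_le_pow_right (by omega) (by omega)))
  have e1 : a + (m + j) = a + j + m := by ring
  rw [e1]
  exact h1

theorem QV.gap_add {q m d : ℕ} (hq : 2 ≤ q) {e : ℕ → Fin d → ℤ} {C : ℝ} (he : QV q m e C)
    (j : ℕ) : QV q (m + j) e C := by
  refine ⟨he.nonneg, fun a y s hs => ?_, he.growth⟩
  have h1 := he.gap (a + j) y s (lt_of_lt_of_le hs (Nat.pow_le_pow_right (by omega) (by omega)))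
  have e1 : a + (m + j) = a + j + m := by ring
  rw [e1]
  exact h1

theorem q_one {q : ℕ} (hq : 2 ≤ q) : ((q : ℕ) : ZMod (q - 1)) = 1 := by
  obtain ⟨s, rfl⟩ : ∃ s, q = s + 1 := ⟨q - 1, by omega⟩
  show ((s + 1 : ℕ) : ZMod s) = 1
  push_cast
  rw [ZMod.natCast_self, zero_add]

/-- the enlarged finite part: the class of `e` and the residue modulo `q - 1` are added -/
def enl {S₀ : Type} {l : ℕ} (q : ℕ) (β₀ : ℕ → S₀) (e : ℕ → Fin l → ℤ)
    (Λ : AddSubgroup (Fin l → ℤ)) (n : ℕ) :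
    S₀ × Multiplicative ((Fin l → ℤ) ⧸ Λ) × Multiplicative (ZMod (q - 1)) :=
  (β₀ n, Multiplicative.ofAdd (e n : (Fin l → ℤ) ⧸ Λ), Multiplicative.ofAdd (n : ZMod (q - 1)))

theorem enl_qm {S₀ : Type} [Monoid S₀] {l q m : ℕ} (hq : 2 ≤ q) {β₀ : ℕ → S₀}
    (hβ : QM q m β₀) {e : ℕ → Fin l → ℤ}
    (he : ∀ a y s : ℕ, s < q ^ a → e (q ^ (a + m) * y + s) = e y + e s)
    (Λ : AddSubgroup (Fin l → ℤ)) : QM q m (enl q β₀ e Λ) := by
  have he0 : e 0 = 0 := by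
    have h1 := he 0 0 0 (by simp)
    simp only [mul_zero, add_zero] at h1
    exact left_eq_add.mp h1
  constructor
  · unfold enl
    rw [hβ.one, he0, QuotientAddGroup.mk_zero, Nat.cast_zero, ofAdd_zero, ofAdd_zero]
    rfl
  · intro a y s hs
    unfold enl
    rw [Prod.mk_mul_mk, Prod.mk_mul_mk, hβ.gap a y s hs, he a y s hs, QuotientAddGroup.mk_add,
      ofAdd_add]
    congr 2
    rw [← ofAdd_add]
    congr 1
    push_cast
    rw [q_one hq, one_pow, one_mul]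

theorem enl_val {S₀ : Type} {l q : ℕ} {β₀ : ℕ → S₀} {e : ℕ → Fin l → ℤ}
    {Λ : AddSubgroup (Fin l → ℤ)} {n n' : ℕ} (h : enl q β₀ e Λ n = enl q β₀ e Λ n') :
    n ≡ n' [MOD (q - 1)] := by
  unfold enl at h
  have h1 := (Prod.mk.inj (Prod.mk.inj h).2).2
  have h2 := Multiplicative.ofAdd.injective h1
  exact (ZMod.natCast_eq_natCast_iff n n' (q - 1)).mp h2

/-- near invariance for the enlarged finite part -/
theorem enl_good {S₀ : Type} {l q P R : ℕ} (hq : 2 ≤ q) (hP : (q - 1) ∣ P) (hR : (q - 1) ∣ R)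
    {β₀ : ℕ → S₀} {e : ℕ → Fin l → ℤ} {Λ : AddSubgroup (Fin l → ℤ)} {v v' : Fin l → ℤ}
    (hv : v ∈ Λ) (hv' : v' ∈ Λ) (h : GoodS q P R β₀ e v v') :
    GoodS q P R (enl q β₀ e Λ) e v v' := by
  obtain ⟨C, hC, hb⟩ := h
  refine ⟨C, hC, fun h k y c d' z z' hc hd hz hz' F hF => ?_⟩
  set F₀ : S₀ × (Fin l → ℤ) → S₀ × (Fin l → ℤ) → ℝ := fun x x' =>
    F ((x.1, Multiplicative.ofAdd (x.2 : (Fin l → ℤ) ⧸ Λ),
      Multiplicative.ofAdd ((c + z : ℕ) : ZMod (q - 1))), x.2)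
      ((x'.1, Multiplicative.ofAdd (x'.2 : (Fin l → ℤ) ⧸ Λ),
      Multiplicative.ofAdd ((d' + z' : ℕ) : ZMod (q - 1))), x'.2) with hF₀
  have h1 := hb h k y c d' z z' hc hd hz hz' F₀ fun x x' => hF _ _
  have hval : ∀ P : ℕ, (q - 1) ∣ P → ∀ c z n : ℕ,
      ((q ^ h * (P * (q ^ k * y + n) + c) + z : ℕ) : ZMod (q - 1)) =
        ((c + z : ℕ) : ZMod (q - 1)) := by
    intro P hP c z n
    have hP0 : ((P : ℕ) : ZMod (q - 1)) = 0 := (ZMod.natCast_eq_zero_iff _ _).mpr hP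
    push_cast
    rw [q_one hq, hP0, one_pow, one_mul, zero_mul, zero_add]
  have hcos : ∀ w ∈ Λ, ∀ x : Fin l → ℤ, ((x + w : Fin l → ℤ) : (Fin l → ℤ) ⧸ Λ) =
      (x : (Fin l → ℤ) ⧸ Λ) := by
    intro w hw x
    rw [QuotientAddGroup.mk_add, (QuotientAddGroup.eq_zero_iff w).mpr hw, add_zero]
  have e1 : Phi q P R (pr (enl q β₀ e Λ) e) h k y c d' z z' F =
      Phi q P R (pr β₀ e) h k y c d' z z' F₀ := by
    unfold Phi
    refine av_congr fun n _ => ?_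
    rw [hF₀]
    unfold pr enl
    rw [hval P hP c z n, hval R hR d' z' n]
  have e2 : Phi q P R (pr (enl q β₀ e Λ) e) h k y c d' z z'
      (fun x x' => F (x.1, x.2 + v) (x'.1, x'.2 + v')) =
      Phi q P R (pr β₀ e) h k y c d' z z'
      (fun x x' => F₀ (x.1, x.2 + v) (x'.1, x'.2 + v')) := by
    unfold Phi
    refine av_congr fun n _ => ?_
    rw [hF₀]
    unfold pr enl
    simp only
    rw [hval P hP c z n, hval R hR d' z' n, hcos v hv, hcos v' hv']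
  rw [e1, e2]
  exact h1

theorem finite_quot {l : ℕ} {Λ : AddSubgroup (Fin l → ℤ)} {N : ℕ} (hN : 1 ≤ N)
    (h : ∀ v : Fin l → ℤ, N • v ∈ Λ) : Finite ((Fin l → ℤ) ⧸ Λ) := by
  have hfg : AddGroup.FG (Fin l → ℤ) := Module.Finite.iff_addGroup_fg.mp inferInstance
  have hfg' : AddGroup.FG ((Fin l → ℤ) ⧸ Λ) := inferInstance
  refine AddCommGroup.finite_of_fg_isAddTorsion _ fun x => ?_
  obtain ⟨v, rfl⟩ := QuotientAddGroup.mk_surjective x
  refine isOfFinAddOrder_iff_nsmul_eq_zero.mpr ⟨N, hN, ?_⟩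
  rw [← QuotientAddGroup.mk_nsmul]
  exact (QuotientAddGroup.eq_zero_iff _).mpr (h v)

/-- the data attached to an automatic sequence and a quasi-additive function -/
theorem setup {q m d : ℕ} (hq : 2 ≤ q) {A : Type*} {a : ℕ → A}
    (ha : {g : ℕ → A | ∃ k r : ℕ, r < q ^ k ∧ g = fun n => a (q ^ k * n + r)}.Finite)
    {e : ℕ → Fin d → ℤ} {C : ℝ} (he : QV q m e C) :
    ∃ (w m' l : ℕ) (e' : ℕ → Fin l → ℤ) (C' : ℝ) (ι : (Fin l → ℤ) → (Fin d → ℤ)) (S : Type)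
      (_ : Monoid S) (β : ℕ → S) (ω : ℕ), 1 ≤ w ∧ 1 ≤ m' ∧ QM (q ^ w) m' β ∧
      QV (q ^ w) m' e' C' ∧ (∀ n, e n = ι (e' n)) ∧
      (∀ j z : ℕ, z < (q ^ w) ^ j → ∃ Φ : S → A, ∀ n, a ((q ^ w) ^ (j + 1) * n + z) = Φ (β n)) ∧
      ∀ (h b : ℕ) (B : S → (Fin l → ℤ) → ℝ), (∀ x v, |B x v| ≤ 1) →
        Tendsto (LogAvg fun n => mu n * (if n % ((q ^ w) ^ h * (q ^ w - 1)) = b then
          B (β (n / (q ^ w) ^ h) * β ω) (e' (n / (q ^ w) ^ h)) else 0)) atTop (𝓝 0) := by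
  obtain ⟨w, S₀, _, _, β₀, hw, hβ₀, hrep⟩ := auto_core hq ha
  have hQ : 2 ≤ q ^ w := by
    calc 2 ≤ q := hq
      _ = q ^ 1 := (pow_one q).symm
      _ ≤ q ^ w := Nat.pow_le_pow_right (by omega) hw
  obtain ⟨C₁, he₁⟩ := QV.pow hq he hw
  obtain ⟨l, e', C', ι, he', hgen, hι⟩ := exists_coords hQ he₁
  have hβ₁ : QM (q ^ w) (m + 1) β₀ := by
    have := hβ₀.gap_add hQ m
    rwa [add_comm] at this
  have he₂ : QV (q ^ w) (m + 1) e' C' := QV.gap_add hQ he' 1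
  set Q : ℕ := q ^ w with hQdef
  obtain ⟨N, hN1, hN⟩ := goodS_all (d := l) hQ hβ₁
  set Λ : AddSubgroup (Fin l → ℤ) := (Lam e').map (nsmulAddMonoidHom N) with hΛdef
  have hmem : ∀ v, v ∈ Λ ↔ ∃ x ∈ Lam e', N • x = v := by
    intro v
    rw [hΛdef, AddSubgroup.mem_map]
    rfl
  have hN' : 1 ≤ N * (Q - 1) := Nat.mul_pos hN1 (by omega)
  have hΛ : ∀ v : Fin l → ℤ, (N * (Q - 1)) • v ∈ Λ := by
    intro v
    rw [hmem]
    exact ⟨(Q - 1) • v, smul_mem_lam hQ he₂.gap hgen v, by rw [mul_smul]⟩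
  have : Finite ((Fin l → ℤ) ⧸ Λ) := finite_quot hN' hΛ
  have : NeZero (Q - 1) := ⟨by omega⟩
  have hfin1 : Finite (Multiplicative ((Fin l → ℤ) ⧸ Λ)) := inferInstance
  have hfin2 : Finite (Multiplicative (ZMod (Q - 1))) := inferInstance
  have hqm := enl_qm hQ hβ₁ he₂.gap Λ
  obtain ⟨ω, hω⟩ := exists_core hQ hqm fun n n' h => enl_val h
  refine ⟨w, m + 1, l, e', C', ι, _, inferInstance, enl Q β₀ e' Λ, ω, hw, by omega, hqm, he₂, hι,
    fun j z hz => ?_, fun h b B hB => ?_⟩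
  · obtain ⟨Φ, hΦ⟩ := hrep j z hz
    exact ⟨fun x => Φ x.1, hΦ⟩
  · have hu : ∀ n, Multiplicative.toAdd ((enl Q β₀ e' Λ n).2.1) =
        ((e' n : Fin l → ℤ) : (Fin l → ℤ) ⧸ Λ) := fun n => rfl
    have hωe : ((e' ω : Fin l → ℤ) : (Fin l → ℤ) ⧸ Λ) = 0 := by
      have h1 := congrArg (fun x => Multiplicative.toAdd x.2.1) hω.idem
      have h2 : ((e' ω : Fin l → ℤ) : (Fin l → ℤ) ⧸ Λ) + ((e' ω : Fin l → ℤ) :
          (Fin l → ℤ) ⧸ Λ) = ((e' ω : Fin l → ℤ) : (Fin l → ℤ) ⧸ Λ) := h1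
      exact left_eq_add.mp h2.symm
    have huω : ∀ n, Multiplicative.toAdd ((enl Q β₀ e' Λ n * enl Q β₀ e' Λ ω).2.1) =
        ((e' n : Fin l → ℤ) : (Fin l → ℤ) ⧸ Λ) := by
      intro n
      have h1 : Multiplicative.toAdd ((enl Q β₀ e' Λ n * enl Q β₀ e' Λ ω).2.1) =
          ((e' n : Fin l → ℤ) : (Fin l → ℤ) ⧸ Λ) + ((e' ω : Fin l → ℤ) : (Fin l → ℤ) ⧸ Λ) := rfl
      rw [h1, hωe, add_zero]
    refine class_s (u := fun x => Multiplicative.toAdd x.2.1) hQ hqm hω he₂ hgen hN' hΛ hu huω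
      (fun P R hP hR hPR hP1 hPd hRd v hv v' hv' => ?_) h b hB
    obtain ⟨x, hx, hxv⟩ := (hmem v).mp hv
    obtain ⟨x', hx', hxv'⟩ := (hmem v').mp hv'
    have h1 := hN e' he₂.gap P R hP hR hPR hP1 x hx x' hx'
    rw [hxv, hxv'] at h1
    exact enl_good hQ hPd hRd hv hv' h1

/-- reduction to functions of the upper digits -/
theorem from_blocks {Q m l : ℕ} (hQ : 2 ≤ Q) (hm : 1 ≤ m) {S : Type*} [Monoid S] {β : ℕ → S}
    (hβ : QM Q m β) {e' : ℕ → Fin l → ℤ} {C' : ℝ} (he' : QV Q m e' C') (ω : ℕ) {A E : Type*}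
    {a : ℕ → A} {e : ℕ → E} {ι : (Fin l → ℤ) → E} (hι : ∀ n, e n = ι (e' n))
    (hrep : ∀ j z : ℕ, z < Q ^ j → ∃ Φ : S → A, ∀ n, a (Q ^ (j + 1) * n + z) = Φ (β n))
    {c : ℕ → ℝ} (hc : ∀ n, |c n| ≤ 1) (h₁ : ℕ)
    (hcl : ∀ h r : ℕ, h₁ ≤ h → ∀ B : S → (Fin l → ℤ) → ℝ, (∀ x v, |B x v| ≤ 1) →
      Tendsto (LogAvg fun n => mu n * (c n * (if n % Q ^ h = r then
        B (β (n / Q ^ h) * β ω) (e' (n / Q ^ h)) else 0))) atTop (𝓝 0))
    {Ψ : A → E → ℝ} (hΨ : ∀ x v, |Ψ x v| ≤ 1) :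
    Tendsto (LogAvg fun n => mu n * (c n * Ψ (a n) (e n))) atTop (𝓝 0) := by
  obtain ⟨b, hb⟩ : ∃ b : ℕ, ω < Q ^ b := ⟨ω, Nat.lt_pow_self (by omega)⟩
  set W : ℕ := m + (b + m) with hW
  have hg : Q ^ m * ω < Q ^ W := by
    calc Q ^ m * ω < Q ^ m * Q ^ b := (Nat.mul_lt_mul_left (by positivity)).mpr hb
      _ = Q ^ (m + b) := (pow_add _ _ _).symm
      _ ≤ Q ^ W := Nat.pow_le_pow_right (by omega) (by omega)
  refine first_block (W := W) (g := Q ^ m * ω) (h := h₁) hQ hg (fun n => ?_)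
    fun t r hr hrg => ?_
  · rw [abs_mul]
    exact mul_le_one₀ (hc n) (abs_nonneg _) (hΨ _ _)
  · set H : ℕ := h₁ + W * t with hH
    have hH1 : h₁ + W * (t + 1) = H + W := by
      rw [hH]
      ring
    rw [hH1] at hr ⊢
    have hQH : 0 < Q ^ H := by positivity
    have hrd : r / Q ^ H = Q ^ m * ω := by
      rw [Nat.mod_eq_of_lt] at hrg
      · exact hrg
      · rw [Nat.div_lt_iff_lt_mul hQH]
        calc r < Q ^ (H + W) := hr
          _ = Q ^ W * Q ^ H := by ring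
    set z : ℕ := r % Q ^ H with hz
    have hzl : z < Q ^ H := Nat.mod_lt _ hQH
    have hrz : r = Q ^ H * (Q ^ m * ω) + z := by
      rw [← hrd]
      exact (Nat.div_add_mod _ _).symm
    obtain ⟨Φ, hΦ⟩ := hrep (H + m - 1) z (lt_of_lt_of_le hzl
      (Nat.pow_le_pow_right (by omega) (by omega)))
    have hj : H + m - 1 + 1 = H + m := by omega
    rw [hj] at hΦ
    have h2 := hcl (H + W) r (by omega) (fun x v => Ψ (Φ x) (ι (v + e' ω + e' z)))
      (fun x v => hΨ _ _)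
    refine h2.congr fun N => LogAvg_congr fun n _ _ => ?_
    by_cases hn : n % Q ^ (H + W) = r
    · rw [if_pos hn, if_pos hn]
      set n' : ℕ := n / Q ^ (H + W) with hn'
      have e1 : n = Q ^ (H + m) * (Q ^ (b + m) * n' + ω) + z := by
        have h3 := Nat.div_add_mod n (Q ^ (H + W))
        rw [hn, hrz, ← hn'] at h3
        calc n = Q ^ (H + W) * n' + (Q ^ H * (Q ^ m * ω) + z) := h3.symm
          _ = Q ^ (H + m) * (Q ^ (b + m) * n' + ω) + z := by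
            rw [hW]
            ring
      have e2 : a n = Φ (β n' * β ω) := by
        conv_lhs => rw [e1]
        rw [hΦ, hβ.gap b n' ω hb]
      have e3 : e n = ι (e' n' + e' ω + e' z) := by
        rw [hι]
        congr 1
        conv_lhs => rw [e1]
        rw [he'.gap H _ z hzl, he'.gap b n' ω hb]
      rw [← e2, ← e3]
    · rw [if_neg hn, if_neg hn, mul_zero]

/-- the real form of the theorem -/
theorem real_main {q m d : ℕ} (hq : 2 ≤ q) {A : Type*} {a : ℕ → A}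
    (ha : {g : ℕ → A | ∃ k r : ℕ, r < q ^ k ∧ g = fun n => a (q ^ k * n + r)}.Finite)
    {e : ℕ → Fin d → ℤ} {C : ℝ} (he : QV q m e C) (α θ : ℝ) {Ψ : A → (Fin d → ℤ) → ℝ}
    (hΨ : ∀ x v, |Ψ x v| ≤ 1) :
    Tendsto (LogAvg fun n => mu n * (Real.cos (2 * Real.pi * (α * n + θ)) * Ψ (a n) (e n)))
      atTop (𝓝 0) := by
  by_cases hα : Irrational α
  · obtain ⟨w, m', l, e', C', ι, S, _, β, ω, hw, hm', hβ, he', hι, hrep, _⟩ := setup hq ha he
    have hQ : 2 ≤ q ^ w := by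
      calc 2 ≤ q := hq
        _ = q ^ 1 := (pow_one q).symm
        _ ≤ q ^ w := Nat.pow_le_pow_right (by omega) hw
    exact from_blocks hQ hm' hβ he' ω hι hrep (c := fun n => Real.cos (2 * Real.pi * (α * n + θ)))
      (fun n => Real.abs_cos_le_one _) 0
      (fun h r _ B hB => core_irr hQ hβ he' hα θ h r ω hB) hΨ
  · unfold Irrational at hα
    push Not at hα
    obtain ⟨x, hx⟩ := hα
    rw [← hx]
    obtain ⟨w₁, h₁, hw₁, hdvd⟩ := exists_base hq (Q := x.den) x.den_pos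
    have hq₁ : 2 ≤ q ^ w₁ := by
      calc 2 ≤ q := hq
        _ = q ^ 1 := (pow_one q).symm
        _ ≤ q ^ w₁ := Nat.pow_le_pow_right (by omega) hw₁
    obtain ⟨C₁, he₁⟩ := QV.pow hq he hw₁
    obtain ⟨w, m', l, e', C', ι, S, _, β, ω, hw, hm', hβ, he', hι, hrep, hcl⟩ :=
      setup hq₁ (kernel_pow (w := w₁) ha) he₁
    have hQ : 2 ≤ (q ^ w₁) ^ w := by
      calc 2 ≤ q ^ w₁ := hq₁
        _ = (q ^ w₁) ^ 1 := (pow_one _).symm
        _ ≤ (q ^ w₁) ^ w := Nat.pow_le_pow_right (by omega) hw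
    have hd1 : q ^ w₁ - 1 ∣ (q ^ w₁) ^ w - 1 := Nat.sub_one_dvd_pow_sub_one _ _
    refine from_blocks hQ hm' hβ he' ω hι hrep
      (c := fun n => Real.cos (2 * Real.pi * ((x : ℝ) * n + θ)))
      (fun n => Real.abs_cos_le_one _) h₁ (fun h r hh B hB => ?_) hΨ
    refine core_per (Q := x.den) (h := h) hQ ?_ (G := fun n => B (β (n / ((q ^ w₁) ^ w) ^ h) * β ω)
      (e' (n / ((q ^ w₁) ^ w) ^ h))) (fun b => hcl h b B hB)
      (fun n => Real.cos (2 * Real.pi * ((x : ℝ) * n + θ))) (fun n => cos_per x θ n) r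
    refine hdvd.trans (Nat.mul_dvd_mul ?_ hd1)
    rw [← pow_mul (q ^ w₁) w h]
    refine pow_dvd_pow _ ?_
    calc h₁ ≤ h := hh
      _ ≤ w * h := Nat.le_mul_of_pos_left _ hw

/-- all bounds -/
theorem bound_main {q m d : ℕ} (hq : 2 ≤ q) {A : Type*} {a : ℕ → A}
    (ha : {g : ℕ → A | ∃ k r : ℕ, r < q ^ k ∧ g = fun n => a (q ^ k * n + r)}.Finite)
    {e : ℕ → Fin d → ℤ} {C : ℝ} (he : QV q m e C) (α θ : ℝ) {Ψ : A → (Fin d → ℤ) → ℝ} {B : ℝ}
    (hΨ : ∀ x v, |Ψ x v| ≤ B) :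
    Tendsto (LogAvg fun n => mu n * (Real.cos (2 * Real.pi * (α * n + θ)) * Ψ (a n) (e n)))
      atTop (𝓝 0) := by
  have hB : 0 ≤ B := (abs_nonneg _).trans (hΨ (a 0) 0)
  have h2 := (real_main hq ha he α θ (Ψ := fun x v => Ψ x v / (B + 1)) (fun x v => by
    rw [abs_div, abs_of_pos (by linarith : 0 < B + 1), div_le_one (by linarith)]
    linarith [hΨ x v])).const_mul (B + 1)
  rw [mul_zero] at h2
  refine h2.congr fun N => ?_
  rw [← LogAvg_const_mul]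
  refine LogAvg_congr fun n _ _ => ?_
  have : B + 1 ≠ 0 := by linarith
  field_simp

/-- passage to complex values -/
theorem to_complex {α : ℝ} {Z : ℕ → ℂ}
    (hre : ∀ θ : ℝ, Tendsto (LogAvg fun n => mu n * (Real.cos (2 * Real.pi * (α * n + θ)) *
      (Z n).re)) atTop (𝓝 0))
    (him : ∀ θ : ℝ, Tendsto (LogAvg fun n => mu n * (Real.cos (2 * Real.pi * (α * n + θ)) *
      (Z n).im)) atTop (𝓝 0)) :
    Tendsto (fun N : ℕ => (1 / Real.log N : ℂ) * ∑ n ∈ Finset.Icc 1 N,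
      Complex.exp (2 * Real.pi * Complex.I * (α * n)) * Z n *
        (ArithmeticFunction.moebius n : ℂ) / n) atTop (𝓝 0) := by
  have r1 := (hre 0).sub (him (-(1 / 4)))
  have r2 := (him 0).add (hre (-(1 / 4)))
  rw [sub_zero] at r1
  rw [add_zero] at r2
  have h1 : Tendsto (fun N : ℕ =>
      ((LogAvg (fun n => mu n * (Real.cos (2 * Real.pi * (α * n + 0)) * (Z n).re)) N -
        LogAvg (fun n => mu n * (Real.cos (2 * Real.pi * (α * n + -(1 / 4))) *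
          (Z n).im)) N : ℝ) : ℂ) +
      ((LogAvg (fun n => mu n * (Real.cos (2 * Real.pi * (α * n + 0)) * (Z n).im)) N +
        LogAvg (fun n => mu n * (Real.cos (2 * Real.pi * (α * n + -(1 / 4))) *
          (Z n).re)) N : ℝ) : ℂ) * Complex.I) atTop
      (𝓝 (((0 : ℝ) : ℂ) + ((0 : ℝ) : ℂ) * Complex.I)) :=
    ((Complex.continuous_ofReal.tendsto _).comp r1).add
      (((Complex.continuous_ofReal.tendsto _).comp r2).mul_const _)
  simp only [Complex.ofReal_zero, zero_mul, add_zero] at h1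
  refine h1.congr fun N => ?_
  rw [← LogAvg_sub, ← LogAvg_add]
  unfold LogAvg
  push_cast
  rw [mul_assoc, ← mul_add, Finset.sum_mul, ← Finset.sum_add_distrib]
  congr 1
  refine Finset.sum_congr rfl fun n _ => ?_
  have e1 : Real.cos (2 * Real.pi * (α * n + -(1 / 4))) = Real.sin (2 * Real.pi * (α * n)) := by
    rw [← Real.cos_sub_pi_div_two]
    congr 1
    ring
  have e2 : Complex.exp (2 * Real.pi * Complex.I * (α * n)) =
      (Real.cos (2 * Real.pi * (α * n)) : ℂ) + (Real.sin (2 * Real.pi * (α * n)) : ℂ) *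
        Complex.I := by
    have h2 : (2 * Real.pi * Complex.I * (α * n) : ℂ) =
        ((2 * Real.pi * (α * n) : ℝ) : ℂ) * Complex.I := by
      push_cast
      ring
    rw [h2, Complex.exp_mul_I, Complex.ofReal_cos, Complex.ofReal_sin]
  have e3 := Complex.re_add_im (Z n)
  have e4 : (mu n : ℂ) = (ArithmeticFunction.moebius n : ℂ) := by
    unfold mu
    push_cast
    rfl
  have e5 : Complex.cos (2 * (Real.pi : ℂ) * ((α : ℂ) * (n : ℂ) + -(1 / 4))) =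
      (Real.sin (2 * Real.pi * (α * n)) : ℂ) := by
    rw [← e1]
    push_cast
    rfl
  have e6 : Complex.cos (2 * (Real.pi : ℂ) * ((α : ℂ) * (n : ℂ))) =
      (Real.cos (2 * Real.pi * (α * n)) : ℂ) := by
    push_cast
    rfl
  rw [e5, e6, e2, ← e4]
  conv_rhs => rw [← e3]
  set c : ℂ := (Real.cos (2 * Real.pi * (α * n)) : ℂ)
  set t : ℂ := (Real.sin (2 * Real.pi * (α * n)) : ℂ)
  set x : ℂ := ((Z n).re : ℂ)
  set y : ℂ := ((Z n).im : ℂ)
  linear_combination (-((mu n : ℂ) * t * y / n)) * Complex.I_sq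

/-- the theorem -/
theorem complex_main {q m d : ℕ} (hq : 2 ≤ q) {A : Type*} {a : ℕ → A}
    (ha : {g : ℕ → A | ∃ k r : ℕ, r < q ^ k ∧ g = fun n => a (q ^ k * n + r)}.Finite)
    {e : ℕ → Fin d → ℤ} {C : ℝ} (he : QV q m e C) (α : ℝ) {Ψ : A → (Fin d → ℤ) → ℂ} {B : ℝ}
    (hΨ : ∀ x v, ‖Ψ x v‖ ≤ B) :
    Tendsto (fun N : ℕ => (1 / Real.log N : ℂ) * ∑ n ∈ Finset.Icc 1 N,
      Complex.exp (2 * Real.pi * Complex.I * (α * n)) * Ψ (a n) (e n) *
        (ArithmeticFunction.moebius n : ℂ) / n) atTop (𝓝 0) :=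
  to_complex (α := α) (Z := fun n => Ψ (a n) (e n))
    (fun θ => bound_main hq ha he α θ (Ψ := fun x v => (Ψ x v).re)
      fun x v => (Complex.abs_re_le_norm _).trans (hΨ x v))
    (fun θ => bound_main hq ha he α θ (Ψ := fun x v => (Ψ x v).im)
      fun x v => (Complex.abs_im_le_norm _).trans (hΨ x v))

end Pool.Agent.Lib.MP_3e612f_nt.SA
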