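import Pool.Agent.Lib.MP_3e612f_nt.NDefs
import Pool.Agent.Lib.MP_3e612f_nt.MPairs
import Pool.Agent.Lib.MP_3e612f_nt.SFinal

/-!
Task N15: exchange words for the enlarged finite part.
-/

set_option autoImplicit false

namespace Pool.Agent.Lib.MP_3e612f_nt.NB

open Filter Topology
open Pool.Agent.Lib.MP_3e612f_nt.QA Pool.Agent.Lib.MP_3e612f_nt.SA Pool.Agent.Lib.MP_3e612f_nt.MB

section words

variable {G : Type*} [Monoid G]

/-- the eight values -/
def n15_F (γ : ℕ → G) (P R x x' ρ : ℕ) : Bool → Bool → Bool → G := fun i j k =>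
  γ ((if i then P else R) * ((if j then x else x') + (if k then ρ else 0)))

theorem n15_cat {q m : ℕ} (hq : 2 ≤ q) {γ : ℕ → G}
    (hγ : ∀ a y s : ℕ, s < q ^ a → γ (q ^ (a + m) * y + s) = γ y * γ s) (P R : ℕ)
    (x x' ρ y y' σ : ℕ) : ∃ X X' τ, n15_F γ P R X X' τ =
      n15_F γ P R x x' ρ * n15_F γ P R y y' σ := by
  obtain ⟨b, hb⟩ : ∃ b, (P + R) * (y + y' + σ) < q ^ b := ⟨_, Nat.lt_pow_self (by omega)⟩
  refine ⟨q ^ (b + m) * x + y, q ^ (b + m) * x' + y', q ^ (b + m) * ρ + σ, ?_⟩
  funext i j k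
  simp only [Pi.mul_apply]
  unfold n15_F
  have key : ∀ M z s, M ≤ P + R → s ≤ y + y' + σ →
      γ (M * (q ^ (b + m) * z + s)) = γ (M * z) * γ (M * s) := by
    intro M z s hM hs
    rw [← hγ b (M * z) (M * s) (lt_of_le_of_lt (Nat.mul_le_mul hM hs) hb)]
    congr 1
    ring
  have hM : (if i then P else R) ≤ P + R := by
    split_ifs <;> omega
  have hs : (if j then y else y') + (if k then σ else 0) ≤ y + y' + σ := by
    split_ifs <;> omega
  rw [← key _ _ _ hM hs]
  congr 2
  split_ifs <;> ring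

theorem n15_pow {q m : ℕ} (hq : 2 ≤ q) {γ : ℕ → G}
    (hγ : ∀ a y s : ℕ, s < q ^ a → γ (q ^ (a + m) * y + s) = γ y * γ s) (P R : ℕ)
    (x x' ρ n : ℕ) (hn : 1 ≤ n) : ∃ X X' τ, n15_F γ P R X X' τ = n15_F γ P R x x' ρ ^ n := by
  induction n, hn using Nat.le_induction with
  | base => exact ⟨x, x', ρ, by rw [pow_one]⟩
  | succ n _ ih =>
    obtain ⟨X, X', τ, h⟩ := ih
    obtain ⟨Y, Y', σ, h'⟩ := n15_cat hq hγ P R X X' τ x x' ρ
    exact ⟨Y, Y', σ, by rw [h', h, pow_succ]⟩

end words

/-- N15 (NExch.lean): exchange words for the enlarged finite part -/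
theorem exch_enl {S₀ : Type} [Monoid S₀] [Finite S₀] {q m l : ℕ} (hq : 2 ≤ q) {β₀ : ℕ → S₀}
    (hβ : QM q m β₀) {e : ℕ → Fin l → ℤ}
    (he : ∀ a y s : ℕ, s < q ^ a → e (q ^ (a + m) * y + s) = e y + e s) :
    ∃ N : ℕ, 1 ≤ N ∧ Exch q m (enl q β₀ e ((Lam e).map (nsmulAddMonoidHom N))) e
      ((Lam e).map (nsmulAddMonoidHom N)) := by
  set N := (Nat.card (S₀ × S₀)).factorial with hN
  have hN1 : 1 ≤ N := Nat.factorial_pos _
  refine ⟨N, hN1, ?_⟩
  intro P R hP hR hPR hP1 hPd hRd v hv v' hv'
  obtain ⟨v₀, hv₀, rfl⟩ := hv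
  obtain ⟨v₀', hv₀', rfl⟩ := hv'
  obtain ⟨ρ, x, x', hxx, hs, hs'⟩ := second_pair hq he hP hR hPR hP1 hv₀ hv₀'
  -- the submonoid of the finite parts
  set D : Submonoid (S₀ × S₀) :=
    { carrier := Set.range fun x : ℕ => (β₀ (P * x), β₀ (R * x))
      mul_mem' := by
        rintro _ _ ⟨x, rfl⟩ ⟨y, rfl⟩
        obtain ⟨w, h1, h2⟩ := t2_concat hq hβ.gap P R x y
        exact ⟨w, Prod.ext h1 h2⟩
      one_mem' := ⟨0, by simp only [mul_zero, hβ.one]; rfl⟩ } with hD
  obtain ⟨ε, ⟨δ, hδ⟩, hεε, hε⟩ := t2_kernel D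
  set γ : ℕ → S₀ × Multiplicative (Fin l → ℤ) :=
    fun n => (β₀ n, Multiplicative.ofAdd (e n)) with hγd
  have hγ : ∀ a y s : ℕ, s < q ^ a → γ (q ^ (a + m) * y + s) = γ y * γ s := by
    intro a y s hs
    refine Prod.ext (hβ.gap a y s hs) ?_
    change Multiplicative.ofAdd (e _) = Multiplicative.ofAdd (e _) * Multiplicative.ofAdd (e _)
    rw [he a y s hs]
    rfl
  obtain ⟨x1, x1', ρ1, h1⟩ := n15_cat hq hγ P R δ δ 0 x x' ρ
  obtain ⟨x2, x2', ρ2, h2⟩ := n15_cat hq hγ P R x1 x1' ρ1 δ δ 0
  obtain ⟨X, X', τ, h3⟩ := n15_pow hq hγ P R x2 x2' ρ2 N hN1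
  rw [h2, h1] at h3
  have hcomp : ∀ i j k : Bool,
      γ ((if i then P else R) * ((if j then X else X') + (if k then τ else 0))) =
        (γ ((if i then P else R) * δ) *
          γ ((if i then P else R) * ((if j then x else x') + (if k then ρ else 0))) *
          γ ((if i then P else R) * δ)) ^ N := by
    intro i j k
    have h4 := congrFun (congrFun (congrFun h3 i) j) k
    simp only [Pi.mul_apply, Pi.pow_apply] at h4
    unfold n15_F at h4
    have h5 : ((if j then δ else δ) + (if k then 0 else 0) : ℕ) = δ := by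
      split_ifs <;> rfl
    rw [h5] at h4
    exact h4
  have hδ' : (β₀ (P * δ), β₀ (R * δ)) = ε := hδ
  have hpow : ∀ z : ℕ, (β₀ (P * δ) * β₀ (P * z) * β₀ (P * δ)) ^ N = ε.1 ∧
      (β₀ (R * δ) * β₀ (R * z) * β₀ (R * δ)) ^ N = ε.2 := by
    intro z
    have hd : (β₀ (P * z), β₀ (R * z)) ∈ D := ⟨z, rfl⟩
    have hk := hε _ hd
    rw [← hδ'] at hk
    have hk1 := congrArg Prod.fst hk
    have hk2 := congrArg Prod.snd hk
    rw [← hδ']
    exact ⟨hk1, hk2⟩
  -- finite parts
  have hβP : ∀ j k : Bool, β₀ (P * ((if j then X else X') + (if k then τ else 0))) = ε.1 := by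
    intro j k
    have h4 := congrArg Prod.fst (hcomp true j k)
    rw [Prod.pow_fst] at h4
    simp only [if_true] at h4
    exact h4.trans (hpow _).1
  have hβR : ∀ j k : Bool, β₀ (R * ((if j then X else X') + (if k then τ else 0))) = ε.2 := by
    intro j k
    have h4 := congrArg Prod.fst (hcomp false j k)
    rw [Prod.pow_fst] at h4
    simp only [Bool.false_eq_true, if_false] at h4
    exact h4.trans (hpow _).2
  have heP : ∀ j k : Bool, e (P * ((if j then X else X') + (if k then τ else 0))) =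
      N • (e (P * δ) + e (P * ((if j then x else x') + (if k then ρ else 0))) + e (P * δ)) := by
    intro j k
    have h4 := congrArg Prod.snd (hcomp true j k)
    rw [Prod.pow_snd] at h4
    simp only [if_true] at h4
    exact h4
  have heR : ∀ j k : Bool, e (R * ((if j then X else X') + (if k then τ else 0))) =
      N • (e (R * δ) + e (R * ((if j then x else x') + (if k then ρ else 0))) + e (R * δ)) := by
    intro j k
    have h4 := congrArg Prod.snd (hcomp false j k)
    rw [Prod.pow_snd] at h4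
    simp only [Bool.false_eq_true, if_false] at h4
    exact h4
  have b1 : β₀ (P * X) = ε.1 := by simpa using hβP true false
  have b2 : β₀ (P * X') = ε.1 := by simpa using hβP false false
  have b3 : β₀ (P * (X + τ)) = ε.1 := by simpa using hβP true true
  have b4 : β₀ (P * (X' + τ)) = ε.1 := by simpa using hβP false true
  have c1 : β₀ (R * X) = ε.2 := by simpa using hβR true false
  have c2 : β₀ (R * X') = ε.2 := by simpa using hβR false false
  have c3 : β₀ (R * (X + τ)) = ε.2 := by simpa using hβR true true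
  have c4 : β₀ (R * (X' + τ)) = ε.2 := by simpa using hβR false true
  have d1 : e (P * X) = N • (e (P * δ) + e (P * x) + e (P * δ)) := by
    have := heP true false
    simp only [if_true, Bool.false_eq_true, if_false, add_zero] at this
    exact this
  have d2 : e (P * X') = N • (e (P * δ) + e (P * x') + e (P * δ)) := by
    have := heP false false
    simp only [Bool.false_eq_true, if_false, add_zero] at this
    exact this
  have d3 : e (P * (X + τ)) = N • (e (P * δ) + e (P * (x + ρ)) + e (P * δ)) := by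
    have := heP true true
    simp only [if_true] at this
    exact this
  have d4 : e (P * (X' + τ)) = N • (e (P * δ) + e (P * (x' + ρ)) + e (P * δ)) := by
    have := heP false true
    simp only [if_true, Bool.false_eq_true, if_false] at this
    exact this
  have f1 : e (R * X) = N • (e (R * δ) + e (R * x) + e (R * δ)) := by
    have := heR true false
    simp only [if_true, Bool.false_eq_true, if_false, add_zero] at this
    exact this
  have f2 : e (R * X') = N • (e (R * δ) + e (R * x') + e (R * δ)) := by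
    have := heR false false
    simp only [Bool.false_eq_true, if_false, add_zero] at this
    exact this
  have f3 : e (R * (X + τ)) = N • (e (R * δ) + e (R * (x + ρ)) + e (R * δ)) := by
    have := heR true true
    simp only [if_true] at this
    exact this
  have f4 : e (R * (X' + τ)) = N • (e (R * δ) + e (R * (x' + ρ)) + e (R * δ)) := by
    have := heR false true
    simp only [if_true, Bool.false_eq_true, if_false] at this
    exact this
  have hv1 : e (P * (X + τ)) - e (P * X) - (e (P * (X' + τ)) - e (P * X')) = N • v₀ := by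
    rw [d1, d2, d3, d4, ← hs]
    simp only [smul_add, smul_sub]
    abel
  have hv2 : e (R * (X + τ)) - e (R * X) - (e (R * (X' + τ)) - e (R * X')) = N • v₀' := by
    rw [f1, f2, f3, f4, ← hs']
    simp only [smul_add, smul_sub]
    abel
  -- equality of the enlarged finite parts
  have hM : ∀ M, (q - 1) ∣ M → ∀ z z' : ℕ, β₀ (M * z) = β₀ (M * z') →
      ∀ w w' : ℕ, e (M * z) - e (M * z') = N • (e (M * w) - e (M * w')) →
      enl q β₀ e ((Lam e).map (nsmulAddMonoidHom N)) (M * z) =
        enl q β₀ e ((Lam e).map (nsmulAddMonoidHom N)) (M * z') := by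
    intro M hM z z' h4 w w' h5
    have hz : ∀ z, M * z ≡ 0 [MOD (q - 1)] := fun z =>
      Nat.modEq_zero_iff_dvd.mpr (Dvd.dvd.mul_right hM z)
    unfold enl
    have h6 : ((M * z : ℕ) : ZMod (q - 1)) = ((M * z' : ℕ) : ZMod (q - 1)) :=
      (ZMod.natCast_eq_natCast_iff _ _ _).mpr ((hz z).trans (hz z').symm)
    have h7 : ((e (M * z) : Fin l → ℤ) : (Fin l → ℤ) ⧸ (Lam e).map (nsmulAddMonoidHom N)) =
        (e (M * z') : Fin l → ℤ) := by
      rw [QuotientAddGroup.eq_iff_sub_mem, h5]
      exact ⟨_, lam_mod hq he ((hz w).trans (hz w').symm), rfl⟩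
    rw [h4, h6, h7]
  rcases eq_or_ne X X' with heq | hne
  · subst heq
    rw [sub_self] at hv1 hv2
    have hqm := enl_qm hq hβ he ((Lam e).map (nsmulAddMonoidHom N))
    have hpw : ∀ M, enl q β₀ e ((Lam e).map (nsmulAddMonoidHom N)) (M * 1) =
        enl q β₀ e ((Lam e).map (nsmulAddMonoidHom N)) (M * q) := by
      intro M
      have := QM.pow_mul hq hqm 1 M
      rw [pow_one] at this
      rw [mul_one, mul_comm M q, this]
    refine ⟨0, 1, q, by omega, hpw P, hpw R, by simpa using hpw P, by simpa using hpw R, ?_, ?_⟩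
    · simp only [add_zero, sub_self]
      exact hv1
    · simp only [add_zero, sub_self]
      exact hv2
  · refine ⟨τ, X, X', hne, ?_, ?_, ?_, ?_, hv1, hv2⟩
    · refine hM P hPd X X' (by rw [b1, b2]) x x' ?_
      rw [d1, d2]
      simp only [smul_add, smul_sub]
      abel
    · refine hM R hRd X X' (by rw [c1, c2]) x x' ?_
      rw [f1, f2]
      simp only [smul_add, smul_sub]
      abel
    · refine hM P hPd (X + τ) (X' + τ) (by rw [b3, b4]) (x + ρ) (x' + ρ) ?_
      rw [d3, d4]
      simp only [smul_add, smul_sub]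
      abel
    · refine hM R hRd (X + τ) (X' + τ) (by rw [c3, c4]) (x + ρ) (x' + ρ) ?_
      rw [f3, f4]
      simp only [smul_add, smul_sub]
      abel

end Pool.Agent.Lib.MP_3e612f_nt.NB
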