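import Pool.Agent.Lib.MP_3e612f_nt.NDefs
import Pool.Agent.Lib.MP_3e612f_nt.MWin
import Pool.Agent.Lib.MP_3e612f_nt.SKer

/-!
Near-invariance of the finite parts in one base (task N10).
-/

set_option autoImplicit false

namespace Pool.Agent.Lib.MP_3e612f_nt.NB

open Filter Topology
open Pool.Agent.Lib.MP_3e612f_nt.QA Pool.Agent.Lib.MP_3e612f_nt.SA Pool.Agent.Lib.MP_3e612f_nt.MB

section monoid

variable {S : Type*} [Monoid S]

theorem n10_flat {A B : Type*} (L : List A) (x y : A → B) (f : B → S) :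
    ((L.flatMap (fun i => [x i, y i])).map f).prod = (L.map (fun i => f (x i) * f (y i))).prod := by
  induction L with
  | nil => simp
  | cons a L ih =>
    simp only [List.flatMap_cons, List.map_append, List.prod_append, ih, List.map_cons,
      List.prod_cons, List.map_nil, List.prod_nil, mul_one]

theorem n10_range (u w : S) (M j : ℕ) :
    ((List.range M).map (fun i => if i < j then u else w)).prod = u ^ (min j M) * w ^ (M - j) := by
  induction M with
  | zero => simp
  | succ M ih =>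
    rw [List.range_succ, List.map_append, List.prod_append, ih]
    simp only [List.map_cons, List.map_nil, List.prod_cons, List.prod_nil, mul_one]
    by_cases h : M < j
    · rw [if_pos h, min_eq_right h.le, min_eq_right (by omega : M + 1 ≤ j)]
      rw [show M - j = 0 by omega, show M + 1 - j = 0 by omega, pow_zero, mul_one, mul_one,
        pow_succ]
    · push Not at h
      rw [if_neg (by omega), min_eq_left h, min_eq_left (by omega : j ≤ M + 1),
        show M + 1 - j = (M - j) + 1 by omega, pow_succ, mul_assoc]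

theorem n10_abs {E b : S} (hE : E * E = E) (k : ℕ) : E * ((E * b) ^ k * E) = (E * b) ^ k * E := by
  cases k with
  | zero => rw [pow_zero, one_mul, hE]
  | succ k => rw [pow_succ', ← mul_assoc, ← mul_assoc, ← mul_assoc, hE]

theorem n10_powE {E : S} (hE : E * E = E) {x : S} (hx : E * x = x) (k : ℕ) : E ^ k * x = x := by
  induction k with
  | zero => rw [pow_zero, one_mul]
  | succ k ih => rw [pow_succ, mul_assoc, hx, ih]

theorem n10_powE' {E : S} (hE : E * E = E) (k : ℕ) : E ^ k * E = E := n10_powE hE hE k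

theorem n10_sand {E b : S} (hE : E * E = E) (k : ℕ) : (E * b * E) ^ k * E = (E * b) ^ k * E := by
  induction k with
  | zero => rw [pow_zero, pow_zero]
  | succ k ih =>
    rw [pow_succ', mul_assoc, ih, pow_succ', mul_assoc (E * b) E, n10_abs hE, mul_assoc (E * b)]

/-- the product of a block, first form -/
theorem n10_blk1 {E b : S} (hE : E * E = E) {M : ℕ} (hb : (E * b * E) ^ M = E) {j : ℕ}
    (hj : j < M) : ((E * b) ^ j * E ^ (M - j)) * ((E * b) ^ (M - j) * E ^ j) * E = E := by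
  have h1 : E ^ j * E = E := n10_powE' hE j
  have h2 : (E * b) ^ M * E = E := by rw [← n10_sand hE, hb, hE]
  calc ((E * b) ^ j * E ^ (M - j)) * ((E * b) ^ (M - j) * E ^ j) * E
      = (E * b) ^ j * (E ^ (M - j) * ((E * b) ^ (M - j) * (E ^ j * E))) := by
        simp only [mul_assoc]
    _ = (E * b) ^ j * (E ^ (M - j) * ((E * b) ^ (M - j) * E)) := by rw [h1]
    _ = (E * b) ^ j * ((E * b) ^ (M - j) * E) := by
        rw [n10_powE hE (n10_abs hE _)]
    _ = (E * b) ^ M * E := by
        rw [← mul_assoc, ← pow_add]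
        congr 2
        omega
    _ = E := h2

/-- the product of a block, second form -/
theorem n10_blk2 {E b g : S} (hE : E * E = E) {M : ℕ} (hb : (E * b * E) ^ M = E) {j : ℕ}
    (hj : j < M) :
    ((E * b) ^ j * E ^ (M - j)) * ((E * b) ^ (M - j) * (E * g) ^ j) * E = (E * g) ^ j * E := by
  have h2 : (E * b) ^ M * E = E := by rw [← n10_sand hE, hb, hE]
  have h3 : E * ((E * g) ^ j * E) = (E * g) ^ j * E := n10_abs hE j
  calc ((E * b) ^ j * E ^ (M - j)) * ((E * b) ^ (M - j) * (E * g) ^ j) * E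
      = (E * b) ^ j * (E ^ (M - j) * ((E * b) ^ (M - j) * ((E * g) ^ j * E))) := by
        simp only [mul_assoc]
    _ = (E * b) ^ j * (E ^ (M - j) * ((E * b) ^ (M - j) * (E * ((E * g) ^ j * E)))) := by rw [h3]
    _ = (E * b) ^ j * (E ^ (M - j) * ((E * b) ^ (M - j) * E) * ((E * g) ^ j * E)) := by
        simp only [mul_assoc]
    _ = (E * b) ^ j * ((E * b) ^ (M - j) * E * ((E * g) ^ j * E)) := by
        rw [n10_powE hE (n10_abs hE _)]
    _ = ((E * b) ^ j * (E * b) ^ (M - j)) * E * ((E * g) ^ j * E) := by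
        simp only [mul_assoc]
    _ = (E * b) ^ M * E * ((E * g) ^ j * E) := by
        rw [← pow_add, show j + (M - j) = M by omega]
    _ = (E * g) ^ j * E := by rw [h2, h3]

/-- the product of a block, third form -/
theorem n10_blk3 {E b : S} (hE : E * E = E) {M : ℕ} (hb : (E * b * E) ^ M = E) :
    E ^ M * (E * b) ^ M * E = E := by
  rw [mul_assoc, n10_powE hE (n10_abs hE _), ← n10_sand hE, hb, hE]

theorem n10_act {E g y l : S} (hE : E * E = E) (hy : E * y = y) (hg : g * y = y * l) (j : ℕ) :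
    (E * g) ^ j * y = y * l ^ j := by
  induction j with
  | zero => rw [pow_zero, pow_zero, one_mul, mul_one]
  | succ j ih =>
    rw [pow_succ, mul_assoc, mul_assoc E g y, hg, ← mul_assoc E, hy, ← mul_assoc, ih, mul_assoc,
      ← pow_succ]

end monoid

section words

variable {S : Type*} [Monoid S] {q m : ℕ}

/-- concatenation of a list of words -/
theorem n10_concat (hq : 2 ≤ q) {β : ℕ → S} (hβ : QM q m β) {J : Type*} [Finite J] (B : ℕ)
    (Ls : List (ℕ × (J → ℕ))) : ∃ (ρ : ℕ) (X : J → ℕ), ∀ T ≤ B, ∀ j,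
      β (T * X j) = (Ls.map (fun a => β (T * a.2 j))).prod ∧
      β (T * (X j + ρ)) = (Ls.map (fun a => β (T * (a.2 j + a.1)))).prod := by
  induction Ls with
  | nil => exact ⟨0, fun _ => 0, fun T _ j => by simp [hβ.one]⟩
  | cons a Ls ih =>
    obtain ⟨ρ, X, h⟩ := ih
    cases nonempty_fintype J
    obtain ⟨b, hb⟩ : ∃ b, ∀ T ≤ B, ∀ j, T * (X j + ρ) < q ^ b := by
      refine ⟨B * (∑ j, X j + ρ), fun T hT j => ?_⟩
      have h1 : X j ≤ ∑ j, X j := Finset.single_le_sum (fun _ _ => Nat.zero_le _)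
        (Finset.mem_univ j)
      calc T * (X j + ρ) ≤ B * (∑ j, X j + ρ) := Nat.mul_le_mul hT (by omega)
        _ < q ^ (B * (∑ j, X j + ρ)) := Nat.lt_pow_self (by omega)
    refine ⟨q ^ (b + m) * a.1 + ρ, fun j => q ^ (b + m) * a.2 j + X j, fun T hT j => ⟨?_, ?_⟩⟩
    · have e1 : T * (q ^ (b + m) * a.2 j + X j) = q ^ (b + m) * (T * a.2 j) + T * X j := by ring
      have h2 : T * X j < q ^ b := lt_of_le_of_lt (Nat.mul_le_mul_left _ (by omega)) (hb T hT j)
      rw [e1, hβ.gap b _ _ h2, (h T hT j).1, List.map_cons, List.prod_cons]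
    · have e1 : T * (q ^ (b + m) * a.2 j + X j + (q ^ (b + m) * a.1 + ρ)) =
          q ^ (b + m) * (T * (a.2 j + a.1)) + T * (X j + ρ) := by ring
      rw [e1, hβ.gap b _ _ (hb T hT j), (h T hT j).2, List.map_cons, List.prod_cons]

open Classical in
/-- the special words -/
theorem n10_words [Finite S] (hq : 2 ≤ q) {β : ℕ → S} (hβ : QM q m β) {ω : ℕ}
    {P R : ℕ} (hr : Rch2 q β ω P R) :
    ∃ (δ M : ℕ) (ρ : ℕ) (X : (S × S × S × S) × Fin M → ℕ) (A A' : S), 1 ≤ M ∧
      (∀ l ∈ LL q β ω, l ^ M = β ω) ∧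
      (∀ τ j, β (P * X (τ, j)) = A ∧ β (R * X (τ, j)) = A') ∧
      ∀ n n' : ℕ, ∀ l ∈ LL q β ω, ∀ l' ∈ LL q β ω, ∀ j : Fin M,
        β (P * (X ((β n, β n', l, l'), j) + ρ)) * (β n * β ω) =
          β (P * δ) * β n * β ω * l ^ (j : ℕ) ∧
        β (R * (X ((β n, β n', l, l'), j) + ρ)) * (β n' * β ω) =
          β (R * δ) * β n' * β ω * l' ^ (j : ℕ) := by
  obtain ⟨δ, M, hM, hEP, hER, hP, hR, hLM, hv⟩ := hr
  cases nonempty_fintype S
  -- the choice of the words v
  let good : (S × S × S × S) → ℕ → Prop := fun τ v =>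
    β (P * ((q - 1) * v)) * (β (P * δ) * τ.1 * β ω) = β (P * δ) * τ.1 * β ω * τ.2.2.1 ∧
    β (R * ((q - 1) * v)) * (β (R * δ) * τ.2.1 * β ω) = β (R * δ) * τ.2.1 * β ω * τ.2.2.2
  let V : (S × S × S × S) → ℕ := fun τ => if h : ∃ v, good τ v then h.choose else 0
  have hV : ∀ n n' : ℕ, ∀ l ∈ LL q β ω, ∀ l' ∈ LL q β ω, good (β n, β n', l, l')
      (V (β n, β n', l, l')) := by
    intro n n' l hl l' hl'
    have h : ∃ v, good (β n, β n', l, l') v := by
      obtain ⟨v, _, h1, h2⟩ := hv n n' l hl l' hl'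
      exact ⟨v, h1, h2⟩
    simp only [V, dif_pos h]
    exact h.choose_spec
  let J := (S × S × S × S) × Fin M
  let sp : ℕ × (J → ℕ) := (0, fun _ => δ)
  let aa : (S × S × S × S) → ℕ → ℕ × (J → ℕ) := fun τ i =>
    (0, fun x => if x.1 = τ ∧ i < (x.2 : ℕ) then V τ else 0)
  let bb : (S × S × S × S) → ℕ → ℕ × (J → ℕ) := fun τ i =>
    ((q - 1) * V τ, fun x => if x.1 = τ → i < M - (x.2 : ℕ) then V τ else 0)
  let blk : (S × S × S × S) → List (ℕ × (J → ℕ)) := fun τ =>
    (List.range M).flatMap (fun i => [sp, aa τ i]) ++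
      ((List.range M).flatMap (fun i => [sp, bb τ i]) ++ [sp])
  obtain ⟨ρ, X, hX⟩ := n10_concat hq hβ (J := J) (P + R)
    ((Finset.univ : Finset (S × S × S × S)).toList.flatMap blk)
  have hqb : ∀ T v : ℕ, β (T * (v + (q - 1) * v)) = β (T * v) := by
    intro T v
    have e : T * (v + (q - 1) * v) = q ^ 1 * (T * v) := by
      have : v + (q - 1) * v = q * v := by
        rw [Nat.sub_mul]
        have : v ≤ q * v := Nat.le_mul_of_pos_left _ (by omega)
        omega
      rw [this]; ring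
    rw [e, QM.pow_mul hq hβ]
  -- products over one block
  have hblk : ∀ T : ℕ, β (T * δ) * β (T * δ) = β (T * δ) →
      (∀ n, (β (T * δ) * β (T * n) * β (T * δ)) ^ M = β (T * δ)) →
      ∀ (τ' : S × S × S × S) (x : J),
      ((blk τ').map (fun a => β (T * a.2 x))).prod = β (T * δ) ∧
      ((blk τ').map (fun a => β (T * (a.2 x + a.1)))).prod =
        if x.1 = τ' then (β (T * δ) * β (T * ((q - 1) * V τ'))) ^ (x.2 : ℕ) * β (T * δ)
          else β (T * δ) := by
    intro T hE hT τ' x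
    have hj : (x.2 : ℕ) < M := x.2.isLt
    have hTv := hT (V τ')
    set E := β (T * δ) with hEdef
    have s1 : ∀ i, β (T * (sp.2 x)) * β (T * (aa τ' i).2 x) =
        if x.1 = τ' then (if i < (x.2 : ℕ) then E * β (T * V τ') else E) else E := by
      intro i
      simp only [sp, aa]
      by_cases h1 : x.1 = τ'
      · by_cases h2 : i < (x.2 : ℕ)
        · simp only [h1, h2, and_self, if_true, hEdef]
        · simp only [h1, h2, and_false, if_false, if_true, mul_zero, hβ.one, mul_one, hEdef]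
      · simp only [h1, false_and, if_false, mul_zero, hβ.one, mul_one, hEdef]
    have s2 : ∀ i, β (T * (sp.2 x + sp.1)) * β (T * ((aa τ' i).2 x + (aa τ' i).1)) =
        if x.1 = τ' then (if i < (x.2 : ℕ) then E * β (T * V τ') else E) else E := by
      intro i
      rw [← s1 i]
      simp only [sp, aa, add_zero]
    have s3 : ∀ i, β (T * (sp.2 x)) * β (T * (bb τ' i).2 x) =
        if x.1 = τ' then (if i < M - (x.2 : ℕ) then E * β (T * V τ') else E)
          else E * β (T * V τ') := by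
      intro i
      simp only [sp, bb]
      by_cases h1 : x.1 = τ'
      · by_cases h2 : i < M - (x.2 : ℕ)
        · simp only [h1, h2, if_true, forall_const, hEdef]
        · simp only [h1, h2, if_false, if_true, forall_const, mul_zero, hβ.one, mul_one, hEdef]
      · simp only [h1, if_false, false_imp_iff, if_true, hEdef]
    have s4 : ∀ i, β (T * (sp.2 x + sp.1)) * β (T * ((bb τ' i).2 x + (bb τ' i).1)) =
        if x.1 = τ' then (if i < M - (x.2 : ℕ) then E * β (T * V τ')
          else E * β (T * ((q - 1) * V τ'))) else E * β (T * V τ') := by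
      intro i
      simp only [sp, bb, add_zero]
      by_cases h1 : x.1 = τ'
      · by_cases h2 : i < M - (x.2 : ℕ)
        · simp only [h1, h2, if_true, forall_const, hqb, hEdef]
        · simp only [h1, h2, if_false, if_true, forall_const, zero_add, hEdef]
      · simp only [h1, if_false, false_imp_iff, if_true, hqb, hEdef]
    have e0 : min (x.2 : ℕ) M = x.2 := min_eq_left hj.le
    have e1 : min (M - (x.2 : ℕ)) M = M - x.2 := min_eq_left (Nat.sub_le _ _)
    have e2 : M - (M - (x.2 : ℕ)) = x.2 := by omega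
    have hcst : ∀ (u : S), ((List.range M).map (fun _ => u)).prod = u ^ M := by
      intro u
      rw [List.map_const', List.prod_replicate, List.length_range]
    constructor
    · simp only [blk, List.map_append, List.prod_append, n10_flat, s1, s3, List.map_cons,
        List.map_nil, List.prod_cons, List.prod_nil, mul_one]
      by_cases h1 : x.1 = τ'
      · simp only [h1, if_true, n10_range, e0, e1, e2]
        have := n10_blk1 hE hTv hj
        simp only [mul_assoc] at this ⊢
        exact this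
      · simp only [h1, if_false, hcst]
        have := n10_blk3 hE hTv
        simp only [mul_assoc] at this ⊢
        exact this
    · simp only [blk, List.map_append, List.prod_append, n10_flat, s2, s4, List.map_cons,
        List.map_nil, List.prod_cons, List.prod_nil, mul_one]
      by_cases h1 : x.1 = τ'
      · simp only [h1, if_true, n10_range, e0, e1, e2]
        have := n10_blk2 (g := β (T * ((q - 1) * V τ'))) hE hTv hj
        simp only [mul_assoc] at this ⊢
        exact this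
      · simp only [h1, if_false, hcst]
        have := n10_blk3 hE hTv
        simp only [mul_assoc] at this ⊢
        exact this
  -- products over all blocks
  have hall1 : ∀ T : ℕ, β (T * δ) * β (T * δ) = β (T * δ) →
      (∀ n, (β (T * δ) * β (T * n) * β (T * δ)) ^ M = β (T * δ)) → ∀ x : J,
      ∀ Ls : List (S × S × S × S),
      ((Ls.flatMap blk).map (fun a => β (T * a.2 x))).prod = β (T * δ) ^ Ls.length := by
    intro T hE hT x Ls
    induction Ls with
    | nil => simp
    | cons τ' Ls ih =>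
      rw [List.flatMap_cons, List.map_append, List.prod_append, ih, (hblk T hE hT τ' x).1,
        List.length_cons, pow_succ']
  have hall2 : ∀ T : ℕ, β (T * δ) * β (T * δ) = β (T * δ) →
      (∀ n, (β (T * δ) * β (T * n) * β (T * δ)) ^ M = β (T * δ)) → ∀ x : J,
      ∀ Ls : List (S × S × S × S), Ls.Nodup → x.1 ∈ Ls → ∀ y l : S, β (T * δ) * y = y →
      β (T * ((q - 1) * V x.1)) * y = y * l →
      ((Ls.flatMap blk).map (fun a => β (T * (a.2 x + a.1)))).prod * y = y * l ^ (x.2 : ℕ) := by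
    intro T hE hT x Ls
    have hno : ∀ Ls : List (S × S × S × S), x.1 ∉ Ls →
        ((Ls.flatMap blk).map (fun a => β (T * (a.2 x + a.1)))).prod =
          β (T * δ) ^ Ls.length := by
      intro Ls
      induction Ls with
      | nil => intro _; simp
      | cons τ' Ls ih =>
        intro h
        rw [List.mem_cons, not_or] at h
        rw [List.flatMap_cons, List.map_append, List.prod_append, ih h.2,
          (hblk T hE hT τ' x).2, if_neg h.1, List.length_cons, pow_succ']
    induction Ls with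
    | nil => intro _ h; simp at h
    | cons τ' Ls ih =>
      intro hnd hmem y l hy hg
      rw [List.nodup_cons] at hnd
      rw [List.flatMap_cons, List.map_append, List.prod_append, (hblk T hE hT τ' x).2]
      by_cases h1 : x.1 = τ'
      · rw [if_pos h1, hno Ls (by rw [h1]; exact hnd.1), mul_assoc, mul_assoc, ← mul_assoc (β (T * δ)),
          ← pow_succ', n10_powE hE hy, ← h1]
        exact n10_act hE hy hg _
      · rw [if_neg h1, mul_assoc, ih hnd.2 ((List.mem_cons.1 hmem).resolve_left h1) y l hy hg,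
          ← mul_assoc, hy]
  have hall3 : ∀ T : ℕ, β (T * δ) * β (T * δ) = β (T * δ) →
      (∀ n, (β (T * δ) * β (T * n) * β (T * δ)) ^ M = β (T * δ)) → ∀ x : J,
      ∀ y l : S, β (T * ((q - 1) * V x.1)) * (β (T * δ) * y) = β (T * δ) * y * l →
      (((Finset.univ : Finset (S × S × S × S)).toList.flatMap blk).map
        (fun a => β (T * (a.2 x + a.1)))).prod * y = β (T * δ) * y * l ^ (x.2 : ℕ) := by
    intro T hE hT x y l hg
    have h1 := hall2 T hE hT x (Finset.univ : Finset (S × S × S × S)).toList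
      (Finset.nodup_toList _) (Finset.mem_toList.2 (Finset.mem_univ _)) (β (T * δ) * y) l
      (by rw [← mul_assoc, hE]) hg
    rw [← h1, ← mul_assoc]
    congr 1
    -- the product ends with the idempotent
    have hend : ∀ Ls : List (S × S × S × S), Ls ≠ [] →
        ((Ls.flatMap blk).map (fun a => β (T * (a.2 x + a.1)))).prod * β (T * δ) =
        ((Ls.flatMap blk).map (fun a => β (T * (a.2 x + a.1)))).prod := by
      intro Ls
      induction Ls with
      | nil => intro h; exact absurd rfl h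
      | cons τ' Ls ih =>
        intro _
        rw [List.flatMap_cons, List.map_append, List.prod_append]
        by_cases h : Ls = []
        · subst h
          simp only [List.flatMap_nil, List.map_nil, List.prod_nil, mul_one]
          rw [(hblk T hE hT τ' x).2]
          split_ifs
          · rw [mul_assoc, hE]
          · exact hE
        · rw [mul_assoc, ih h]
    refine (hend _ ?_).symm
    intro h
    have : x.1 ∈ (Finset.univ : Finset (S × S × S × S)).toList :=
      Finset.mem_toList.2 (Finset.mem_univ _)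
    rw [h] at this
    simp at this
  refine ⟨δ, M, ρ, X, β (P * δ) ^ (Finset.univ : Finset (S × S × S × S)).toList.length,
    β (R * δ) ^ (Finset.univ : Finset (S × S × S × S)).toList.length, hM, hLM,
    fun τ j => ⟨?_, ?_⟩, fun n n' l hl l' hl' j => ⟨?_, ?_⟩⟩
  · rw [(hX P (by omega) (τ, j)).1, hall1 P hEP hP]
  · rw [(hX R (by omega) (τ, j)).1, hall1 R hER hR]
  · rw [(hX P (by omega) _).2, hall3 P hEP hP ((β n, β n', l, l'), j) (β n * β ω) l]
    · simp only [mul_assoc]
    · have := (hV n n' l hl l' hl').1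
      simp only [mul_assoc] at this ⊢
      exact this
  · rw [(hX R (by omega) _).2, hall3 R hER hR ((β n, β n', l, l'), j) (β n' * β ω) l']
    · simp only [mul_assoc]
    · have := (hV n n' l hl l' hl').2
      simp only [mul_assoc] at this ⊢
      exact this

/-- the output of a word which is short enough -/
theorem n10_word (hq : 2 ≤ q) {β : ℕ → S} (hβ : QM q m β) {P b W h c z x M : ℕ}
    (hb : m ≤ b) (hPb : 2 * P + 1 ≤ q ^ (b - m)) (hW : m ≤ W)
    (hPW : P * (q ^ b * x) + 2 * P + 1 ≤ q ^ (W - m)) (hc : c ≤ 2 * P) (hz : z < q ^ h) :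
    β (sd q (h + W) P ((P * (q ^ b * x) + c) / q ^ W)
      (q ^ h * ((P * (q ^ b * x) + c) % q ^ W) + z) M) =
        β (P * M) * (β (P * x) * β (q ^ h * c + z)) := by
  have hWm : q ^ (W - m) ≤ q ^ W := Nat.pow_le_pow_right (by omega) (Nat.sub_le _ _)
  have hlt : P * (q ^ b * x) + c < q ^ W := by omega
  unfold sd
  rw [Nat.div_eq_of_lt hlt, Nat.mod_eq_of_lt hlt, add_zero]
  have hs : ∀ {r B : ℕ}, r + 1 ≤ q ^ B → q ^ h * r + z < q ^ (h + B) := by
    intro r B hr
    calc q ^ h * r + z < q ^ h * r + q ^ h := by omega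
      _ = q ^ h * (r + 1) := by ring
      _ ≤ q ^ h * q ^ B := Nat.mul_le_mul_left _ hr
      _ = q ^ (h + B) := by rw [pow_add]
  have h1 := hβ.gap (h + (W - m)) (P * M) (q ^ h * (P * (q ^ b * x) + c) + z) (hs (by omega))
  have e1 : h + (W - m) + m = h + W := by omega
  rw [e1] at h1
  rw [h1]
  congr 1
  have h2 := hβ.gap (h + (b - m)) (P * x) (q ^ h * c + z) (hs (by omega))
  have e2 : h + (b - m) + m = h + b := by omega
  rw [e2] at h2
  rw [← h2]
  congr 1
  rw [pow_add]
  ring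

/-- splitting off the lowest `W` digits -/
theorem n10_split (q P R : ℕ) (β : ℕ → S)
    (r h W l y c c₁ d d₁ z z₁ t t₁ : ℕ) (f : S → S → S → S → ℝ) :
    IncF q P R β r h (W + l) y c c₁ d d₁ z z₁ t t₁ f = av q W (fun w =>
      IncF q P R β (r / q ^ W) (h + W) l y ((P * (w + r % q ^ W) + c) / q ^ W)
        ((P * w + c₁) / q ^ W) ((R * (w + r % q ^ W) + d) / q ^ W) ((R * w + d₁) / q ^ W)
        (q ^ h * ((P * (w + r % q ^ W) + c) % q ^ W) + z)
        (q ^ h * ((P * w + c₁) % q ^ W) + z₁)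
        (q ^ h * ((R * (w + r % q ^ W) + d) % q ^ W) + t)
        (q ^ h * ((R * w + d₁) % q ^ W) + t₁) f) := by
  unfold IncF
  rw [av_split]
  unfold cnd
  refine av_congr fun w _ => ?_
  refine av_congr fun n _ => ?_
  beta_reduce
  rw [m2_sd1, m2_sd1, m2_sd0, m2_sd0]

theorem n10_abs_IncF (hq : 2 ≤ q) (P R : ℕ) (β : ℕ → S)
    (r h L y c c₁ d d₁ z z₁ t t₁ : ℕ) {f : S → S → S → S → ℝ}
    (hf : ∀ x₁ x₂ x₃ x₄, |f x₁ x₂ x₃ x₄| ≤ 1) :
    |IncF q P R β r h L y c c₁ d d₁ z z₁ t t₁ f| ≤ 1 := by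
  unfold IncF
  exact abs_av_le hq fun n _ => hf _ _ _ _

end words

/-- averaging with a family of words on which the total vanishes -/
theorem n10_avg {q W M : ℕ} (hq : 2 ≤ q) (hM : 1 ≤ M) {D : ℕ → ℝ} {X : Fin M → ℕ} {B : ℝ}
    (hX : ∀ j, X j < q ^ W) (hD : ∀ w < q ^ W, |D w| ≤ B) (hB : 0 ≤ B)
    (hsum : ∑ j, D (X j) = 0) : |av q W D| ≤ (1 - 1 / (q : ℝ) ^ W) * B := by
  have hpos : (0 : ℝ) < (q : ℝ) ^ W := qpow_posR hq W
  have hMpos : (0 : ℝ) < M := by exact_mod_cast hM
  have e1 : ∀ j, D (X j) = ∑ w ∈ Finset.range (q ^ W), if w = X j then D w else 0 := by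
    intro j
    rw [Finset.sum_ite_eq' (Finset.range (q ^ W)) (X j) D, if_pos (Finset.mem_range.2 (hX j))]
  have e2 : ∑ w ∈ Finset.range (q ^ W), D w =
      ∑ w ∈ Finset.range (q ^ W), (1 - (∑ j, if w = X j then (1 : ℝ) else 0) / M) * D w := by
    have h1 : ∑ w ∈ Finset.range (q ^ W), (∑ j, if w = X j then (1 : ℝ) else 0) * D w = 0 := by
      have h0 : ∑ j, D (X j) =
          ∑ j, ∑ w ∈ Finset.range (q ^ W), if w = X j then D w else 0 :=
        Finset.sum_congr rfl fun j _ => e1 j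
      rw [Finset.sum_comm] at h0
      refine Eq.trans ?_ (h0.symm.trans hsum)
      refine Finset.sum_congr rfl fun w _ => ?_
      rw [Finset.sum_mul]
      refine Finset.sum_congr rfl fun j _ => ?_
      split_ifs <;> simp
    have h2 : ∀ w, (1 - (∑ j, if w = X j then (1 : ℝ) else 0) / M) * D w =
        D w - 1 / M * ((∑ j, if w = X j then (1 : ℝ) else 0) * D w) := by
      intro w
      ring
    simp only [h2]
    rw [Finset.sum_sub_distrib, ← Finset.mul_sum, h1, mul_zero, sub_zero]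
  have hc : ∀ w, 0 ≤ 1 - (∑ j : Fin M, if w = X j then (1 : ℝ) else 0) / M := by
    intro w
    rw [sub_nonneg, div_le_one hMpos]
    calc (∑ j : Fin M, if w = X j then (1 : ℝ) else 0) ≤ ∑ j : Fin M, (1 : ℝ) := by
          refine Finset.sum_le_sum fun j _ => ?_
          split_ifs <;> norm_num
      _ = M := by simp
  have e3 : ∑ w ∈ Finset.range (q ^ W), (1 - (∑ j : Fin M, if w = X j then (1 : ℝ) else 0) / M) =
      (q : ℝ) ^ W - 1 := by
    rw [Finset.sum_sub_distrib, ← Finset.sum_div, Finset.sum_comm]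
    have : ∀ j : Fin M, ∑ w ∈ Finset.range (q ^ W), (if w = X j then (1 : ℝ) else 0) = 1 := by
      intro j
      rw [Finset.sum_ite_eq' (Finset.range (q ^ W)) (X j) (fun _ => (1 : ℝ)),
        if_pos (Finset.mem_range.2 (hX j))]
    simp only [this, Finset.sum_const, Finset.card_range, Finset.card_univ, Fintype.card_fin,
      nsmul_eq_mul, mul_one]
    rw [div_self hMpos.ne']
    push_cast
    ring
  have e4 : |∑ w ∈ Finset.range (q ^ W), D w| ≤ ((q : ℝ) ^ W - 1) * B := by
    rw [e2]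
    refine (Finset.abs_sum_le_sum_abs _ _).trans ?_
    rw [← e3, Finset.sum_mul]
    refine Finset.sum_le_sum fun w hw => ?_
    rw [abs_mul, abs_of_nonneg (hc w)]
    exact mul_le_mul_of_nonneg_left (hD w (Finset.mem_range.1 hw)) (hc w)
  unfold av
  rw [abs_div, abs_of_pos hpos, div_le_iff₀ hpos]
  refine e4.trans (le_of_eq ?_)
  field_simp

/-- N10: near-invariance of the finite parts -/
theorem fin_local {S : Type*} [Monoid S] [Finite S] {q m : ℕ} (hq : 2 ≤ q) {β : ℕ → S}
    (hβ : QM q m β) {ω : ℕ} (hω : Core q β ω) {P R : ℕ} (hP1 : 1 ≤ P) (hR1 : 1 ≤ R)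
    (hr : Rch2 q β ω P R) :
    ∃ (W w : ℕ) (κ : ℝ), 1 ≤ W ∧ w < q ^ W ∧ 0 < κ ∧ κ < 1 ∧ ∀ N L r : ℕ, W * N ≤ L →
      ∀ h y c c₁ d d₁ z z₁ t t₁ : ℕ, St q P R h c c₁ d d₁ z z₁ t t₁ →
      ∀ f : S → S → S → S → ℝ, (∀ x₁ x₂ x₃ x₄, |f x₁ x₂ x₃ x₄| ≤ 1) →
      ∀ l ∈ LL q β ω, ∀ l' ∈ LL q β ω,
        |IncF q P R β r h L y c c₁ d d₁ z z₁ t t₁
            (fun x₁ x₂ x₃ x₄ => f (x₁ * β ω) (x₂ * β ω) (x₃ * β ω) (x₄ * β ω)) -
          IncF q P R β r h L y c c₁ d d₁ z z₁ t t₁
            (fun x₁ x₂ x₃ x₄ => f (x₁ * β ω * l) (x₂ * β ω) (x₃ * β ω * l') (x₄ * β ω))| ≤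
          2 * (1 - κ) ^ cnt q W N w r := by
  classical
  obtain ⟨δ, M, ρ, X, A, A', hM, hLM, hXA, hXB⟩ := n10_words hq hβ hr
  cases nonempty_fintype S
  obtain ⟨B, hB⟩ : ∃ B, 2 * (P + R) + 1 ≤ q ^ B :=
    ⟨2 * (P + R) + 1, (Nat.lt_pow_self (by omega)).le⟩
  set b := B + m with hb
  have ebm : b - m = B := by omega
  have hmb : m ≤ b := by omega
  obtain ⟨Z, hZ⟩ : ∃ Z, ∀ x, X x + ρ ≤ Z := by
    refine ⟨∑ x, X x + ρ, fun x => ?_⟩
    have := Finset.single_le_sum (f := X) (fun _ _ => Nat.zero_le _) (Finset.mem_univ x)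
    omega
  obtain ⟨T, hT⟩ : ∃ T, (P + R) * (q ^ b * Z) + 2 * (P + R) + 1 ≤ q ^ T :=
    ⟨(P + R) * (q ^ b * Z) + 2 * (P + R) + 1, (Nat.lt_pow_self (by omega)).le⟩
  set W := T + m + 1 with hW
  have hWm : m ≤ W := by omega
  have hTW : q ^ T ≤ q ^ (W - m) := Nat.pow_le_pow_right (by omega) (by omega)
  have hWW : q ^ (W - m) ≤ q ^ W := Nat.pow_le_pow_right (by omega) (Nat.sub_le _ _)
  have hbound : ∀ ξ, ξ ≤ Z → P * (q ^ b * ξ) + 2 * P + 1 ≤ q ^ (W - m) ∧
      R * (q ^ b * ξ) + 2 * R + 1 ≤ q ^ (W - m) := by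
    intro ξ hξ
    have h1 : P * (q ^ b * ξ) ≤ P * (q ^ b * Z) :=
      Nat.mul_le_mul_left _ (Nat.mul_le_mul_left _ hξ)
    have h2 : R * (q ^ b * ξ) ≤ R * (q ^ b * Z) :=
      Nat.mul_le_mul_left _ (Nat.mul_le_mul_left _ hξ)
    have h3 : (P + R) * (q ^ b * Z) = P * (q ^ b * Z) + R * (q ^ b * Z) := by ring
    constructor <;> omega
  have hsmall : ∀ ξ, ξ ≤ Z → q ^ b * ξ < q ^ W := by
    intro ξ hξ
    have h1 := (hbound ξ hξ).1
    have h2 : q ^ b * ξ ≤ P * (q ^ b * ξ) := Nat.le_mul_of_pos_left _ hP1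
    omega
  have h0W : 0 < q ^ W := qpow_pos hq W
  have hpos : (0 : ℝ) < (q : ℝ) ^ W := qpow_posR hq W
  have hPb : 2 * P + 1 ≤ q ^ (b - m) := by rw [ebm]; omega
  have hRb : 2 * R + 1 ≤ q ^ (b - m) := by rw [ebm]; omega
  have hW2 : (1 : ℝ) < (q : ℝ) ^ W := by
    have : 1 < q ^ W := Nat.one_lt_pow (by omega) (by omega)
    exact_mod_cast this
  have hρZ : ρ ≤ Z := by
    have hx : (((1, 1, 1, 1), ⟨0, by omega⟩) : (S × S × S × S) × Fin M) ∈
      (Set.univ : Set ((S × S × S × S) × Fin M)) := trivial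
    have := hZ ((1, 1, 1, 1), ⟨0, by omega⟩)
    omega
  refine ⟨W, q ^ b * ρ, 1 / (q : ℝ) ^ W, by omega, hsmall ρ hρZ, by positivity,
    (div_lt_one hpos).2 hW2, ?_⟩
  have hκ1 : 0 ≤ 1 - 1 / (q : ℝ) ^ W := by
    rw [sub_nonneg, div_le_one hpos]; exact hW2.le
  -- the general statement
  have key : ∀ N L r : ℕ, W * N ≤ L → ∀ h y c c₁ d d₁ z z₁ t t₁ : ℕ,
      St q P R h c c₁ d d₁ z z₁ t t₁ → ∀ f : S → S → S → S → ℝ,
      (∀ x₁ x₂ x₃ x₄, |f x₁ x₂ x₃ x₄| ≤ 1) → ∀ l ∈ LL q β ω, ∀ l' ∈ LL q β ω,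
      ∀ (n₁ n₃ : ℕ) (b₂ b₄ : S),
        |IncF q P R β r h L y c c₁ d d₁ z z₁ t t₁
            (fun x₁ x₂ x₃ x₄ => f (x₁ * (β n₁ * β ω)) (x₂ * b₂) (x₃ * (β n₃ * β ω)) (x₄ * b₄)) -
          IncF q P R β r h L y c c₁ d d₁ z z₁ t t₁
            (fun x₁ x₂ x₃ x₄ => f (x₁ * (β n₁ * β ω) * l) (x₂ * b₂) (x₃ * (β n₃ * β ω) * l')
              (x₄ * b₄))| ≤
          2 * (1 - 1 / (q : ℝ) ^ W) ^ cnt q W N (q ^ b * ρ) r := by
    intro N
    induction N with
    | zero =>
      intro L r _ h y c c₁ d d₁ z z₁ t t₁ hS f hf l hl l' hl' n₁ n₃ b₂ b₄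
      have e0 : cnt q W 0 (q ^ b * ρ) r = 0 := by simp [cnt]
      rw [e0, pow_zero, mul_one]
      have h1 := n10_abs_IncF hq P R β r h L y c c₁ d d₁ z z₁ t t₁
        (f := fun x₁ x₂ x₃ x₄ => f (x₁ * (β n₁ * β ω)) (x₂ * b₂) (x₃ * (β n₃ * β ω)) (x₄ * b₄))
        (fun _ _ _ _ => hf _ _ _ _)
      have h2 := n10_abs_IncF hq P R β r h L y c c₁ d d₁ z z₁ t t₁
        (f := fun x₁ x₂ x₃ x₄ => f (x₁ * (β n₁ * β ω) * l) (x₂ * b₂) (x₃ * (β n₃ * β ω) * l')
              (x₄ * b₄))
        (fun _ _ _ _ => hf _ _ _ _)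
      refine (abs_sub _ _).trans ?_
      linarith
    | succ N ih =>
      intro L r hL h y c c₁ d d₁ z z₁ t t₁ hS f hf l hl l' hl' n₁ n₃ b₂ b₄
      have hLe : W * (N + 1) = W * N + W := by ring
      obtain ⟨l₀, rfl⟩ : ∃ l₀, L = W + l₀ := ⟨L - W, by omega⟩
      have hl₀ : W * N ≤ l₀ := by omega
      have hcnt := m2_cnt q W N (q ^ b * ρ) r
      have hrW : r % q ^ W < q ^ W := Nat.mod_lt _ h0W
      rw [n10_split, n10_split, ← av_sub]
      have hother : ∀ w < q ^ W, |IncF q P R β (r / q ^ W) (h + W) l₀ y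
          ((P * (w + r % q ^ W) + c) / q ^ W)
          ((P * w + c₁) / q ^ W) ((R * (w + r % q ^ W) + d) / q ^ W) ((R * w + d₁) / q ^ W)
          (q ^ h * ((P * (w + r % q ^ W) + c) % q ^ W) + z)
          (q ^ h * ((P * w + c₁) % q ^ W) + z₁)
          (q ^ h * ((R * (w + r % q ^ W) + d) % q ^ W) + t)
          (q ^ h * ((R * w + d₁) % q ^ W) + t₁)
            (fun x₁ x₂ x₃ x₄ => f (x₁ * (β n₁ * β ω)) (x₂ * b₂) (x₃ * (β n₃ * β ω)) (x₄ * b₄)) -
          IncF q P R β (r / q ^ W) (h + W) l₀ y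
          ((P * (w + r % q ^ W) + c) / q ^ W)
          ((P * w + c₁) / q ^ W) ((R * (w + r % q ^ W) + d) / q ^ W) ((R * w + d₁) / q ^ W)
          (q ^ h * ((P * (w + r % q ^ W) + c) % q ^ W) + z)
          (q ^ h * ((P * w + c₁) % q ^ W) + z₁)
          (q ^ h * ((R * (w + r % q ^ W) + d) % q ^ W) + t)
          (q ^ h * ((R * w + d₁) % q ^ W) + t₁)
            (fun x₁ x₂ x₃ x₄ => f (x₁ * (β n₁ * β ω) * l) (x₂ * b₂) (x₃ * (β n₃ * β ω) * l')
              (x₄ * b₄))| ≤
          2 * (1 - 1 / (q : ℝ) ^ W) ^ cnt q W N (q ^ b * ρ) (r / q ^ W) := fun w hw =>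
        ih l₀ (r / q ^ W) hl₀ _ _ _ _ _ _ _ _ _ _ (m2_St hq hS hw hrW) f hf l hl l' hl' n₁ n₃
          b₂ b₄
      by_cases hact : r % q ^ W = q ^ b * ρ
      · rw [if_pos hact] at hcnt
        rw [hcnt, pow_add (1 - 1 / (q : ℝ) ^ W) 1, pow_one]
        -- the state
        obtain ⟨N₁, hN₁, -⟩ := QM.concat hq hβ (q ^ h * c + z) n₁
        obtain ⟨N₃, hN₃, -⟩ := QM.concat hq hβ (q ^ h * d + t) n₃
        set τ : S × S × S × S := (β N₁, β N₃, l, l') with hτ
        have hXlt : ∀ j, q ^ b * X (τ, j) < q ^ W := fun j => hsmall _ (by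
          have := hZ (τ, j); omega)
        have hmain := n10_avg (X := fun j : Fin M => q ^ b * X (τ, j)) hq hM hXlt hother
          (by positivity) ?_
        · refine hmain.trans (le_of_eq ?_)
          exact mul_left_comm (1 - 1 / (q : ℝ) ^ W) 2 _
        · -- the total over the special words
          set y₁ : S := β (P * δ) * β N₁ * β ω with hy₁
          set y₃ : S := β (R * δ) * β N₃ * β ω with hy₃
          set B₂ : S := A * β (q ^ h * c₁ + z₁) * b₂ with hB₂
          set B₄ : S := A' * β (q ^ h * d₁ + t₁) * b₄ with hB₄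
          set F : ℕ → ℝ := fun j => IncF q P R β (r / q ^ W) 0 l₀ y 0 0 0 0 0 0 0 0
            (fun x₁ x₂ x₃ x₄ => f (x₁ * (y₁ * l ^ j)) (x₂ * B₂) (x₃ * (y₃ * l' ^ j)) (x₄ * B₄))
            with hF
          have hterm : ∀ j : Fin M, IncF q P R β (r / q ^ W) (h + W) l₀ y
              ((P * (q ^ b * X (τ, j) + r % q ^ W) + c) / q ^ W)
              ((P * (q ^ b * X (τ, j)) + c₁) / q ^ W)
              ((R * (q ^ b * X (τ, j) + r % q ^ W) + d) / q ^ W)
              ((R * (q ^ b * X (τ, j)) + d₁) / q ^ W)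
              (q ^ h * ((P * (q ^ b * X (τ, j) + r % q ^ W) + c) % q ^ W) + z)
              (q ^ h * ((P * (q ^ b * X (τ, j)) + c₁) % q ^ W) + z₁)
              (q ^ h * ((R * (q ^ b * X (τ, j) + r % q ^ W) + d) % q ^ W) + t)
              (q ^ h * ((R * (q ^ b * X (τ, j)) + d₁) % q ^ W) + t₁)
              (fun x₁ x₂ x₃ x₄ => f (x₁ * (β n₁ * β ω)) (x₂ * b₂) (x₃ * (β n₃ * β ω))
                (x₄ * b₄)) -
            IncF q P R β (r / q ^ W) (h + W) l₀ y
              ((P * (q ^ b * X (τ, j) + r % q ^ W) + c) / q ^ W)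
              ((P * (q ^ b * X (τ, j)) + c₁) / q ^ W)
              ((R * (q ^ b * X (τ, j) + r % q ^ W) + d) / q ^ W)
              ((R * (q ^ b * X (τ, j)) + d₁) / q ^ W)
              (q ^ h * ((P * (q ^ b * X (τ, j) + r % q ^ W) + c) % q ^ W) + z)
              (q ^ h * ((P * (q ^ b * X (τ, j)) + c₁) % q ^ W) + z₁)
              (q ^ h * ((R * (q ^ b * X (τ, j) + r % q ^ W) + d) % q ^ W) + t)
              (q ^ h * ((R * (q ^ b * X (τ, j)) + d₁) % q ^ W) + t₁)
              (fun x₁ x₂ x₃ x₄ => f (x₁ * (β n₁ * β ω) * l) (x₂ * b₂) (x₃ * (β n₃ * β ω) * l')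
                (x₄ * b₄)) = F j - F (j + 1) := by
            intro j
            have hXZ : X (τ, j) + ρ ≤ Z := hZ (τ, j)
            have hXZ' : X (τ, j) ≤ Z := by omega
            have w1 : q ^ b * X (τ, j) + q ^ b * ρ = q ^ b * (X (τ, j) + ρ) := by ring
            have z0 : ∀ P' N' : ℕ, sd q 0 P' 0 0 N' = P' * N' := by
              intro P' N'
              simp [sd]
            obtain ⟨hA, hA'⟩ := hXA τ j
            obtain ⟨hb1, hb3⟩ := hXB N₁ N₃ l hl l' hl' j
            rw [← hτ] at hb1 hb3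
            have v1 : ∀ x : S, x * (β (P * (X (τ, j) + ρ)) * β (q ^ h * c + z)) * (β n₁ * β ω) =
                x * (y₁ * l ^ (j : ℕ)) := by
              intro x
              rw [hy₁, ← hb1, hN₁]
              simp only [mul_assoc]
            have v3 : ∀ x : S, x * (β (R * (X (τ, j) + ρ)) * β (q ^ h * d + t)) * (β n₃ * β ω) =
                x * (y₃ * l' ^ (j : ℕ)) := by
              intro x
              rw [hy₃, ← hb3, hN₃]
              simp only [mul_assoc]
            have v2 : ∀ x : S, x * (β (P * X (τ, j)) * β (q ^ h * c₁ + z₁)) * b₂ = x * B₂ := by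
              intro x
              rw [hB₂, hA]
              simp only [mul_assoc]
            have v4 : ∀ x : S, x * (β (R * X (τ, j)) * β (q ^ h * d₁ + t₁)) * b₄ = x * B₄ := by
              intro x
              rw [hB₄, hA']
              simp only [mul_assoc]
            rw [hF]
            dsimp only
            unfold IncF
            rw [← av_sub, ← av_sub]
            refine av_congr fun n _ => ?_
            beta_reduce
            rw [hact, w1, z0, z0, z0, z0,
              n10_word hq hβ hmb hPb hWm (hbound _ hXZ).1 hS.c0 hS.z0,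
              n10_word hq hβ hmb hPb hWm (hbound _ hXZ').1 hS.c1 hS.z1,
              n10_word hq hβ hmb hRb hWm (hbound _ hXZ).2 hS.d0 hS.t0,
              n10_word hq hβ hmb hRb hWm (hbound _ hXZ').2 hS.d1 hS.t1,
              v1, v2, v3, v4]
            have u1 : ∀ (x y₀ g : S) (k : ℕ), x * (y₀ * g ^ k) * g = x * (y₀ * g ^ (k + 1)) := by
              intro x y₀ g k
              rw [pow_succ]
              simp only [mul_assoc]
            rw [u1, u1]
          simp only [hterm]
          have htel : ∑ j : Fin M, (F (j : ℕ) - F ((j : ℕ) + 1)) = F 0 - F M := by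
            rw [Fin.sum_univ_eq_sum_range (fun j => F j - F (j + 1)), Finset.sum_range_sub']
          rw [htel]
          have hF0 : F M = F 0 := by
            rw [hF]
            dsimp only
            rw [hLM l hl, hLM l' hl', pow_zero, pow_zero, mul_one, mul_one]
            have g1 : y₁ * β ω = y₁ := by rw [hy₁, mul_assoc, hω.idem]
            have g3 : y₃ * β ω = y₃ := by rw [hy₃, mul_assoc, hω.idem]
            rw [g1, g3]
          rw [hF0, sub_self]
      · rw [if_neg hact, zero_add] at hcnt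
        rw [hcnt]
        exact abs_av_le hq hother
  intro N L r hL h y c c₁ d d₁ z z₁ t t₁ hS f hf l hl l' hl'
  have := key N L r hL h y c c₁ d d₁ z z₁ t t₁ hS f hf l hl l' hl' 0 0 (β ω) (β ω)
  simpa only [hβ.one, one_mul] using this

end Pool.Agent.Lib.MP_3e612f_nt.NB
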