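import Pool.Agent.Lib.MP_3e612f_nt.NExch

/-!
Task N21: the data attached to an automatic sequence and a quasi-additive function.
-/

set_option autoImplicit false

namespace Pool.Agent.Lib.MP_3e612f_nt.NB

open Filter Topology
open Pool.Agent.Lib.MP_3e612f_nt.QA Pool.Agent.Lib.MP_3e612f_nt.SA Pool.Agent.Lib.MP_3e612f_nt.MB

/-- N21 (NSetup.lean): the data attached to an automatic sequence and a quasi-additive function -/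
theorem setupN {q m d : ℕ} (hq : 2 ≤ q) {A : Type*} {a : ℕ → A}
    (ha : {g : ℕ → A | ∃ k r : ℕ, r < q ^ k ∧ g = fun n => a (q ^ k * n + r)}.Finite)
    {e : ℕ → Fin d → ℤ} {C : ℝ} (he : QV q m e C) :
    ∃ (w m' l : ℕ) (e' : ℕ → Fin l → ℤ) (C' : ℝ) (φ : (Fin l → ℤ) → (Fin d → ℤ)) (S : Type)
      (_ : Monoid S) (_ : Finite S) (β : ℕ → S) (ω : ℕ) (Λ : AddSubgroup (Fin l → ℤ)) (N' : ℕ)
      (u : S → (Fin l → ℤ) ⧸ Λ), 1 ≤ w ∧ 1 ≤ m' ∧ QM (q ^ w) m' β ∧ Core (q ^ w) β ω ∧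
      QV (q ^ w) m' e' C' ∧ AddSubgroup.closure (Set.range e') = ⊤ ∧ (∀ n, e n = φ (e' n)) ∧
      (∀ j z : ℕ, z < (q ^ w) ^ j → ∃ Φ : S → A, ∀ n, a ((q ^ w) ^ (j + 1) * n + z) = Φ (β n)) ∧
      1 ≤ N' ∧ (∀ v : Fin l → ℤ, N' • v ∈ Λ) ∧
      (∀ n, u (β n) = (e' n : (Fin l → ℤ) ⧸ Λ)) ∧
      (∀ n, u (β n * β ω) = (e' n : (Fin l → ℤ) ⧸ Λ)) ∧ Exch (q ^ w) m' β e' Λ := by
  obtain ⟨w, S₀, _, _, β₀, hw, hβ₀, hrep⟩ := auto_core hq ha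
  have hQ : 2 ≤ q ^ w := by
    calc 2 ≤ q := hq
      _ = q ^ 1 := (pow_one q).symm
      _ ≤ q ^ w := Nat.pow_le_pow_right (by omega) hw
  obtain ⟨C₁, he₁⟩ := QV.pow hq he hw
  obtain ⟨l, e', C', ι, he', hgen, hι⟩ := exists_coords hQ he₁
  have hβ₁ : QM (q ^ w) (m + 1) β₀ := by
    have := hβ₀.gap_add hQ m
    rwa [add_comm] at this
  have he₂ : QV (q ^ w) (m + 1) e' C' := QV.gap_add hQ he' 1
  set Q : ℕ := q ^ w with hQdef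
  obtain ⟨N, hN1, hN⟩ := exch_enl hQ hβ₁ he₂.gap
  set Λ : AddSubgroup (Fin l → ℤ) := (Lam e').map (nsmulAddMonoidHom N) with hΛdef
  have hmem : ∀ v, v ∈ Λ ↔ ∃ x ∈ Lam e', N • x = v := by
    intro v
    rw [hΛdef, AddSubgroup.mem_map]
    rfl
  have hN' : 1 ≤ N * (Q - 1) := Nat.mul_pos hN1 (by omega)
  have hΛ : ∀ v : Fin l → ℤ, (N * (Q - 1)) • v ∈ Λ := by
    intro v
    rw [hmem]
    exact ⟨(Q - 1) • v, smul_mem_lam hQ he₂.gap hgen v, by rw [mul_smul]⟩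
  have : Finite ((Fin l → ℤ) ⧸ Λ) := finite_quot hN' hΛ
  have : NeZero (Q - 1) := ⟨by omega⟩
  have hfin1 : Finite (Multiplicative ((Fin l → ℤ) ⧸ Λ)) := inferInstance
  have hfin2 : Finite (Multiplicative (ZMod (Q - 1))) := inferInstance
  have hqm := enl_qm hQ hβ₁ he₂.gap Λ
  obtain ⟨ω, hω⟩ := exists_core hQ hqm fun n n' h => enl_val h
  have hωe : ((e' ω : Fin l → ℤ) : (Fin l → ℤ) ⧸ Λ) = 0 := by
    have h1 := congrArg (fun x => Multiplicative.toAdd x.2.1) hω.idem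
    have h2 : ((e' ω : Fin l → ℤ) : (Fin l → ℤ) ⧸ Λ) + ((e' ω : Fin l → ℤ) :
        (Fin l → ℤ) ⧸ Λ) = ((e' ω : Fin l → ℤ) : (Fin l → ℤ) ⧸ Λ) := h1
    exact left_eq_add.mp h2.symm
  refine ⟨w, m + 1, l, e', C', ι, _, inferInstance, inferInstance, enl Q β₀ e' Λ, ω, Λ,
    N * (Q - 1), fun x => Multiplicative.toAdd x.2.1, hw, by omega, hqm, hω, he₂, hgen, hι,
    fun j z hz => ?_, hN', hΛ, fun n => rfl, fun n => ?_, hN⟩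
  · obtain ⟨Φ, hΦ⟩ := hrep j z hz
    exact ⟨fun x => Φ x.1, hΦ⟩
  · have h1 : Multiplicative.toAdd ((enl Q β₀ e' Λ n * enl Q β₀ e' Λ ω).2.1) =
        ((e' n : Fin l → ℤ) : (Fin l → ℤ) ⧸ Λ) + ((e' ω : Fin l → ℤ) : (Fin l → ℤ) ⧸ Λ) := rfl
    refine h1.trans ?_
    rw [hωe, add_zero]

end Pool.Agent.Lib.MP_3e612f_nt.NB
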