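import Pool.Agent.Lib.MP_3e612f_nt.NPoly
import Pool.Agent.Lib.MP_3e612f_nt.NSetup

/-!
The Möbius function is orthogonal, in logarithmic averages, to every bounded function of automatic
sequences and quasi-additive functions in pairwise coprime bases, twisted by an arbitrary
polynomial phase.
-/

set_option autoImplicit false

namespace Pool.Agent.Lib.MP_3e612f_nt.NB

open Filter Topology
open Pool.Agent.Lib.MP_3e612f_nt.QA Pool.Agent.Lib.MP_3e612f_nt.SA Pool.Agent.Lib.MP_3e612f_nt.MB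

/-- reduction to the classes in which a block is given in every base -/
theorem first_blocks {ι : Type*} [DecidableEq ι] {q W g h : ι → ℕ} (hq : ∀ i, 2 ≤ q i)
    (hg : ∀ i, g i < q i ^ W i) {f : ℕ → ℝ} (hf : ∀ n, |f n| ≤ 1) (T : Finset ι)
    (hcl : ∀ t r : ι → ℕ, (∀ i ∈ T, r i < q i ^ (h i + W i * (t i + 1)) ∧
      (r i / q i ^ (h i + W i * t i)) % q i ^ W i = g i) →
      Tendsto (LogAvg fun n => mu n * (if ∀ i ∈ T, n % q i ^ (h i + W i * (t i + 1)) = r i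
        then f n else 0)) atTop (𝓝 0)) :
    Tendsto (LogAvg fun n => mu n * f n) atTop (𝓝 0) := by
  induction T using Finset.induction_on with
  | empty =>
    refine (hcl (fun _ => 0) (fun _ => 0) (fun i hi => absurd hi (Finset.notMem_empty i))).congr
      fun N => LogAvg_congr fun n _ _ => ?_
    rw [if_pos (fun i hi => absurd hi (Finset.notMem_empty i))]
  | insert i₀ T hi ih =>
    refine ih fun t r htr => ?_
    refine first_block (q := q i₀) (W := W i₀) (g := g i₀) (h := h i₀) (hq i₀) (hg i₀)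
      (fun n => ?_) fun t₀ r₀ hr₀ hr₀' => ?_
    · split_ifs
      · exact hf n
      · simp
    · have hne : ∀ i ∈ T, i ≠ i₀ := fun i hiT h => hi (h ▸ hiT)
      have h1 := hcl (Function.update t i₀ t₀) (Function.update r i₀ r₀) (fun i hiT => by
        rcases Finset.mem_insert.mp hiT with rfl | h
        · rw [Function.update_self, Function.update_self]
          exact ⟨hr₀, hr₀'⟩
        · rw [Function.update_of_ne (hne i h), Function.update_of_ne (hne i h)]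
          exact htr i h)
      refine h1.congr fun N => LogAvg_congr fun n _ _ => ?_
      have hiff : (∀ i ∈ insert i₀ T, n % q i ^ (h i + W i * (Function.update t i₀ t₀ i + 1)) =
          Function.update r i₀ r₀ i) ↔ n % q i₀ ^ (h i₀ + W i₀ * (t₀ + 1)) = r₀ ∧
          ∀ i ∈ T, n % q i ^ (h i + W i * (t i + 1)) = r i := by
        rw [Finset.forall_mem_insert, Function.update_self, Function.update_self]
        refine and_congr_right fun _ => forall_congr' fun i => forall_congr' fun hiT => ?_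
        rw [Function.update_of_ne (hne i hiT), Function.update_of_ne (hne i hiT)]
      by_cases c1 : n % q i₀ ^ (h i₀ + W i₀ * (t₀ + 1)) = r₀
      · by_cases c2 : ∀ i ∈ T, n % q i ^ (h i + W i * (t i + 1)) = r i
        · rw [if_pos (hiff.mpr ⟨c1, c2⟩), if_pos c1, if_pos c2]
        · rw [if_neg (fun h => c2 (hiff.mp h).2), if_pos c1, if_neg c2]
      · rw [if_neg (fun h => c1 (hiff.mp h).1), if_neg c1]

section several

variable {ι : Type*} [Fintype ι] [DecidableEq ι]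

/-- reduction to functions of the upper digits -/
theorem from_blocksN {q : ι → ℕ} (hq : ∀ i, 2 ≤ q i) (hqc : ∀ i j, i ≠ j → (q i).Coprime (q j))
    {m : ℕ} (hm : 1 ≤ m) {l d : ι → ℕ} {S : ι → Type*} [∀ i, Monoid (S i)]
    {β : ∀ i, ℕ → S i} (hβ : ∀ i, QM (q i) m (β i)) {e' : ∀ i, ℕ → Fin (l i) → ℤ} {C' : ℝ}
    (he' : ∀ i, QV (q i) m (e' i) C') (ω : ι → ℕ) {A : ι → Type*} {a : ∀ i, ℕ → A i}
    {e : ∀ i, ℕ → Fin (d i) → ℤ} {φ : ∀ i, (Fin (l i) → ℤ) → (Fin (d i) → ℤ)}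
    (hφ : ∀ i n, e i n = φ i (e' i n))
    (hrep : ∀ i, ∀ j z : ℕ, z < q i ^ j → ∃ Φ : S i → A i, ∀ n,
      a i (q i ^ (j + 1) * n + z) = Φ (β i n))
    {c : ℕ → ℝ} (hc : ∀ n, |c n| ≤ 1) {M₀ : ℕ} (hM₀ : 1 ≤ M₀)
    (hcl : ∀ (H : ι → ℕ) (M h : ℕ) (Q : ι → ℕ), M₀ ∣ M → MdH q H M h Q → ∀ b : ℕ,
      ∀ B : (∀ i, S i) → (∀ i, Fin (l i) → ℤ) → ℝ, (∀ s x, |B s x| ≤ 1) →
      Tendsto (LogAvg fun n => mu n * (c n * (if n % M = b then
        B (bH q H β ω n) (eH q H e' n) else 0))) atTop (𝓝 0))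
    {Ψ : ℕ → (∀ i, A i) → (∀ i, Fin (d i) → ℤ) → ℝ} (hΨ : ∀ b x v, |Ψ b x v| ≤ 1) :
    Tendsto (LogAvg fun n => mu n * (c n * Ψ (n % M₀) (fun i => a i n) (fun i => e i n)))
      atTop (𝓝 0) := by
  have hbω : ∀ i, ∃ b : ℕ, ω i < q i ^ b := fun i => ⟨ω i, Nat.lt_pow_self (hq i)⟩
  choose b hb using hbω
  set W : ι → ℕ := fun i => m + (b i + m) with hW
  have hg : ∀ i, q i ^ m * ω i < q i ^ W i := by
    intro i
    have hqi := hq i
    calc q i ^ m * ω i < q i ^ m * q i ^ b i :=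
          (Nat.mul_lt_mul_left (by positivity)).mpr (hb i)
      _ = q i ^ (m + b i) := (pow_add _ _ _).symm
      _ ≤ q i ^ W i := Nat.pow_le_pow_right (by omega) (by simp only [hW]; omega)
  refine first_blocks (W := W) (g := fun i => q i ^ m * ω i) (h := fun _ => 0) hq hg
    (fun n => ?_) Finset.univ fun t r htr => ?_
  · rw [abs_mul]
    exact mul_le_one₀ (hc n) (abs_nonneg _) (hΨ _ _ _)
  set H : ι → ℕ := fun i => W i * t i with hH
  set H' : ι → ℕ := fun i => H i + W i with hH'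
  have hH1 : ∀ i, 0 + W i * (t i + 1) = H' i := by
    intro i
    simp only [hH', hH]
    ring
  have hqH : ∀ i, 0 < q i ^ H i := fun i => qpow_pos (hq i) _
  have hr : ∀ i, r i < q i ^ H' i := by
    intro i
    have := (htr i (Finset.mem_univ i)).1
    rwa [hH1] at this
  have hrd : ∀ i, r i / q i ^ H i = q i ^ m * ω i := by
    intro i
    have h1 := (htr i (Finset.mem_univ i)).2
    rw [zero_add] at h1
    rw [Nat.mod_eq_of_lt] at h1
    · exact h1
    · rw [Nat.div_lt_iff_lt_mul (hqH i)]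
      calc r i < q i ^ H' i := hr i
        _ = q i ^ W i * q i ^ H i := by
          simp only [hH']
          rw [pow_add]
          ring
  set z : ι → ℕ := fun i => r i % q i ^ H i with hz
  have hzl : ∀ i, z i < q i ^ H i := fun i => Nat.mod_lt _ (hqH i)
  have hrz : ∀ i, r i = q i ^ H i * (q i ^ m * ω i) + z i := by
    intro i
    rw [← hrd i]
    exact (Nat.div_add_mod _ _).symm
  have hrep' : ∀ i, ∃ Φ : S i → A i, ∀ n, a i (q i ^ (H i + m) * n + z i) = Φ (β i n) := by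
    intro i
    have hqi := hq i
    obtain ⟨Φ, hΦ⟩ := hrep i (H i + m - 1) (z i) (lt_of_lt_of_le (hzl i)
      (Nat.pow_le_pow_right (by omega) (by omega)))
    have hj : H i + m - 1 + 1 = H i + m := by omega
    rw [hj] at hΦ
    exact ⟨Φ, hΦ⟩
  choose Φ hΦ using hrep'
  -- the values
  have hval : ∀ n, (∀ i, n % q i ^ H' i = r i) → (fun i => a i n) =
      (fun i => Φ i (bH q H' β ω n i)) ∧ (fun i => e i n) =
      fun i => φ i (eH q H' e' n i + e' i (ω i) + e' i (z i)) := by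
    intro n hn
    have e1 : ∀ i, n = q i ^ (H i + m) * (q i ^ (b i + m) * (n / q i ^ H' i) + ω i) + z i := by
      intro i
      have h3 := Nat.div_add_mod n (q i ^ H' i)
      rw [hn i, hrz i] at h3
      calc n = q i ^ H' i * (n / q i ^ H' i) + (q i ^ H i * (q i ^ m * ω i) + z i) := h3.symm
        _ = _ := by
          simp only [hH', hW]
          ring
    constructor
    · funext i
      unfold bH
      rw [← (hβ i).gap (b i) _ (ω i) (hb i), ← hΦ i, ← e1 i]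
    · funext i
      rw [hφ i]
      congr 1
      unfold eH
      rw [← (he' i).gap (b i) _ (ω i) (hb i), ← (he' i).gap (H i) _ (z i) (hzl i), ← e1 i]
  -- an admissible modulus
  obtain ⟨M, h, Q, hdvd, hM⟩ := exists_modulusH hq hqc H'
    (M₀ := M₀ * ∏ i, q i ^ H' i) (Nat.mul_pos hM₀ (Finset.prod_pos fun i _ => qpow_pos (hq i) _))
  have hd1 : M₀ ∣ M := (Dvd.intro _ rfl).trans hdvd
  have hd2 : ∀ i, q i ^ H' i ∣ M := fun i =>
    ((Finset.dvd_prod_of_mem (fun i => q i ^ H' i) (Finset.mem_univ i)).mul_left M₀).trans hdvd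
  classical
  have h1 := tendsto_finset ((Finset.range M).filter fun b₁ => ∀ i, b₁ % q i ^ H' i = r i)
    (fun b₁ n => mu n * (c n * (if n % M = b₁ then
      Ψ (b₁ % M₀) (fun i => Φ i (bH q H' β ω n i))
        (fun i => φ i (eH q H' e' n i + e' i (ω i) + e' i (z i))) else 0)))
    (fun b₁ _ => hcl H' M h Q hd1 hM b₁ (fun s x => Ψ (b₁ % M₀) (fun i => Φ i (s i))
        (fun i => φ i (x i + e' i (ω i) + e' i (z i)))) (fun s x => hΨ _ _ _))
  refine h1.congr fun N => LogAvg_congr fun n _ _ => ?_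
  rw [← Finset.mul_sum, ← Finset.mul_sum, Finset.sum_ite_eq]
  have hmem : n % M ∈ (Finset.range M).filter (fun b₁ => ∀ i, b₁ % q i ^ H' i = r i) ↔
      ∀ i, n % q i ^ H' i = r i := by
    rw [Finset.mem_filter, Finset.mem_range]
    constructor
    · intro h i
      rw [← h.2 i, Nat.mod_mod_of_dvd _ (hd2 i)]
    · intro h
      refine ⟨Nat.mod_lt _ hM.pos, fun i => ?_⟩
      rw [Nat.mod_mod_of_dvd _ (hd2 i)]
      exact h i
  have hiff : (∀ i ∈ Finset.univ, n % q i ^ (0 + W i * (t i + 1)) = r i) ↔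
      ∀ i, n % q i ^ H' i = r i := by
    constructor
    · intro h i
      have := h i (Finset.mem_univ i)
      rwa [hH1] at this
    · intro h i _
      rw [hH1]
      exact h i
  by_cases hn : ∀ i, n % q i ^ H' i = r i
  · rw [if_pos (hmem.mpr hn), if_pos (hiff.mpr hn), Nat.mod_mod_of_dvd _ hd1, (hval n hn).1,
      (hval n hn).2]
  · rw [if_neg (fun h => hn (hmem.mp h)), if_neg (fun h => hn (hiff.mp h)), mul_zero]

/-- all polynomials, admissible classes -/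
theorem poly_clsN {q : ι → ℕ} {m : ℕ} {d : ι → ℕ} {S : ι → Type*} [∀ i, Monoid (S i)]
    [∀ i, Finite (S i)] {β : ∀ i, ℕ → S i} {ω : ι → ℕ} {e : ∀ i, ℕ → Fin (d i) → ℤ} {C₀ : ℝ}
    {Λ : ∀ i, AddSubgroup (Fin (d i) → ℤ)} {N' : ℕ} {u : ∀ i, S i → (Fin (d i) → ℤ) ⧸ Λ i}
    (Sy : NSys q m β ω e C₀ Λ N' u) {P P₁ P₂ : Polynomial ℝ} {Q₀ : ℕ} (hP : P = P₁ + P₂)
    (hcase : P₁.natDegree = 0 ∨ (1 ≤ P₁.natDegree ∧ Irrational P₁.leadingCoeff))
    (hper : ∀ n : ℕ, ∃ j : ℤ, P₂.eval (n : ℝ) = P₂.eval ((n % Q₀ : ℕ) : ℝ) + j)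
    {H : ι → ℕ} {M h : ℕ} {Q : ι → ℕ} (hQM : Q₀ ∣ M) (hM : MdH q H M h Q) (b : ℕ)
    {g : (∀ i, S i) → (∀ i, Fin (d i) → ℤ) → ℝ} (hg : ∀ s x, |g s x| ≤ 1) :
    Tendsto (LogAvg fun n => mu n * (Real.cos (2 * Real.pi * P.eval (n : ℝ)) *
      (if n % M = b then g (bH q H β ω n) (eH q H e n) else 0))) atTop (𝓝 0) := by
  set t : ℝ := P₂.eval ((b % Q₀ : ℕ) : ℝ) with ht
  have hcos : ∀ n : ℕ, n % M = b → Real.cos (2 * Real.pi * P.eval (n : ℝ)) =
      Real.cos (2 * Real.pi * (P₁.eval (n : ℝ) + t)) := by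
    intro n hn
    obtain ⟨j, hj⟩ := hper n
    have h1 : n % Q₀ = b % Q₀ := by
      rw [← hn, Nat.mod_mod_of_dvd _ hQM]
    rw [hP, Polynomial.eval_add, hj, h1, ← ht]
    have h2 : 2 * Real.pi * (P₁.eval (n : ℝ) + (t + j)) =
        2 * Real.pi * (P₁.eval (n : ℝ) + t) + (j : ℝ) * (2 * Real.pi) := by ring
    rw [h2, Real.cos_add_int_mul_two_pi]
  have hgoal : Tendsto (LogAvg fun n => mu n * (Real.cos (2 * Real.pi *
      (P₁.eval (n : ℝ) + t)) * (if n % M = b then g (bH q H β ω n) (eH q H e n) else 0)))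
      atTop (𝓝 0) := by
    rcases hcase with h0 | ⟨h1, h2⟩
    · have h3 : ∀ n : ℕ, P₁.eval (n : ℝ) = P₁.coeff 0 := by
        intro n
        rw [Polynomial.eq_C_of_natDegree_eq_zero h0]
        simp
      have h4 := (class_gen Sy hM b hg).const_mul (Real.cos (2 * Real.pi * (P₁.coeff 0 + t)))
      rw [mul_zero] at h4
      refine h4.congr fun N => ?_
      rw [← LogAvg_const_mul]
      refine LogAvg_congr fun n _ _ => ?_
      rw [h3]
      ring
    · obtain ⟨h3, h4⟩ := irr_add h1 h2 0 t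
      refine (irr_gen Sy hM h3 h4 b hg).congr fun N => LogAvg_congr fun n _ _ => ?_
      have e1 : (P₁ + (Polynomial.C (((0 : ℚ)) : ℝ) * Polynomial.X + Polynomial.C t)).eval
          (n : ℝ) = P₁.eval (n : ℝ) + t := by
        simp
      rw [e1]
  refine hgoal.congr fun N => LogAvg_congr fun n _ _ => ?_
  by_cases hn : n % M = b
  · rw [if_pos hn, hcos n hn]
  · rw [if_neg hn]
    ring

theorem exch_mono {S : Type*} {d : ℕ} {q m m' : ℕ} (hq : 2 ≤ q) (hm : m ≤ m') {β : ℕ → S}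
    {e : ℕ → Fin d → ℤ} {Λ : AddSubgroup (Fin d → ℤ)} (h : Exch q m β e Λ) :
    Exch q m' β e Λ := by
  intro P R hP hR hPR
  refine h P R hP hR (le_trans ?_ hPR)
  exact Nat.mul_le_mul_right _ (Nat.mul_le_mul_left _ (Nat.pow_le_pow_right (by omega) hm))

/-- the real form of the theorem -/
theorem real_N {q : ι → ℕ} (hq : ∀ i, 2 ≤ q i) (hqc : ∀ i j, i ≠ j → (q i).Coprime (q j))
    {A : ι → Type*} {a : ∀ i, ℕ → A i}
    (ha : ∀ i, {g : ℕ → A i | ∃ k r : ℕ, r < q i ^ k ∧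
      g = fun n => a i (q i ^ k * n + r)}.Finite)
    {m d : ι → ℕ} {e : ∀ i, ℕ → Fin (d i) → ℤ} {C : ι → ℝ}
    (he : ∀ i, QV (q i) (m i) (e i) (C i)) (P : Polynomial ℝ) {M₀ : ℕ} (hM₀ : 1 ≤ M₀)
    {Ψ : ℕ → (∀ i, A i) → (∀ i, Fin (d i) → ℤ) → ℝ} (hΨ : ∀ b x v, |Ψ b x v| ≤ 1) :
    Tendsto (LogAvg fun n => mu n * (Real.cos (2 * Real.pi * P.eval (n : ℝ)) *
      Ψ (n % M₀) (fun i => a i n) (fun i => e i n))) atTop (𝓝 0) := by
  obtain ⟨P₁, P₂, Q₀, hP, hQ₀, hcase, hper⟩ := poly_split P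
  choose w m' l e' C' φ S instM instF β ω Λ N' u hw hm' hβ hω he' hgen hφ hrep hN hΛ hu huω hex
    using fun i => setupN (hq i) (ha i) (he i)
  have hQ : ∀ i, 2 ≤ q i ^ w i := by
    intro i
    have hqi := hq i
    calc 2 ≤ q i := hqi
      _ = q i ^ 1 := (pow_one _).symm
      _ ≤ q i ^ w i := Nat.pow_le_pow_right (by omega) (hw i)
  have hQc : ∀ i j, i ≠ j → (q i ^ w i).Coprime (q j ^ w j) := fun i j hij =>
    Nat.Coprime.pow _ _ (hqc i j hij)
  have hmle : ∀ i, m' i ≤ 1 + ∑ j, m' j := fun i =>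
    (Finset.single_le_sum (f := m') (fun j _ => Nat.zero_le _) (Finset.mem_univ i)).trans
      (Nat.le_add_left _ _)
  have hCle : ∀ i, C' i ≤ ∑ j, C' j := fun i =>
    Finset.single_le_sum (f := C') (fun j _ => (he' j).nonneg) (Finset.mem_univ i)
  have hqm : ∀ i, QM (q i ^ w i) (1 + ∑ j, m' j) (β i) := by
    intro i
    have h1 := (hβ i).gap_add (hQ i) (1 + ∑ j, m' j - m' i)
    have h2 : m' i + (1 + ∑ j, m' j - m' i) = 1 + ∑ j, m' j := by
      have := hmle i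
      omega
    rwa [h2] at h1
  have hqv : ∀ i, QV (q i ^ w i) (1 + ∑ j, m' j) (e' i) (∑ j, C' j) := fun i =>
    QV.mono (hQ i) (he' i) (hmle i) (hCle i)
  have Sy : NSys (fun i => q i ^ w i) (1 + ∑ j, m' j) β ω e' (∑ j, C' j) Λ (∏ j, N' j) u := by
    refine ⟨⟨hQ, hQc, hqv, hgen⟩, hqm, hω,
      Nat.succ_le_of_lt (Finset.prod_pos fun i _ => hN i), fun i v => ?_, hu, huω,
      fun i => exch_mono (hQ i) (hmle i) (hex i)⟩
    rw [← Finset.prod_erase_mul Finset.univ N' (Finset.mem_univ i), mul_smul]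
    exact AddSubgroup.nsmul_mem _ (hΛ i v) _
  have h1 := from_blocksN hQ hQc (Nat.le_add_right 1 _) hqm hqv ω (a := a) (e := e) hφ hrep
    (c := fun n => Real.cos (2 * Real.pi * P.eval (n : ℝ))) (fun n => Real.abs_cos_le_one _)
    (M₀ := Q₀ * M₀) (Nat.mul_pos hQ₀ hM₀)
    (fun H M h Q hdvd hM b B hB => poly_clsN Sy hP hcase hper
      ((Dvd.intro _ rfl).trans hdvd) hM b hB)
    (Ψ := fun b x v => Ψ (b % M₀) x v) (fun b x v => hΨ _ _ _)
  refine h1.congr fun N => LogAvg_congr fun n _ _ => ?_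
  rw [Nat.mod_mod_of_dvd _ (Dvd.intro_left _ rfl)]

/-- all bounds -/
theorem bound_N {q : ι → ℕ} (hq : ∀ i, 2 ≤ q i) (hqc : ∀ i j, i ≠ j → (q i).Coprime (q j))
    {A : ι → Type*} {a : ∀ i, ℕ → A i}
    (ha : ∀ i, {g : ℕ → A i | ∃ k r : ℕ, r < q i ^ k ∧
      g = fun n => a i (q i ^ k * n + r)}.Finite)
    {m d : ι → ℕ} {e : ∀ i, ℕ → Fin (d i) → ℤ} {C : ι → ℝ}
    (he : ∀ i, QV (q i) (m i) (e i) (C i)) (P : Polynomial ℝ) {M₀ : ℕ} (hM₀ : 1 ≤ M₀)
    {Ψ : ℕ → (∀ i, A i) → (∀ i, Fin (d i) → ℤ) → ℝ} {B : ℝ} (hΨ : ∀ b x v, |Ψ b x v| ≤ B) :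
    Tendsto (LogAvg fun n => mu n * (Real.cos (2 * Real.pi * P.eval (n : ℝ)) *
      Ψ (n % M₀) (fun i => a i n) (fun i => e i n))) atTop (𝓝 0) := by
  have hB : 0 ≤ B := (abs_nonneg _).trans (hΨ 0 (fun i => a i 0) (fun _ => 0))
  have h2 := (real_N hq hqc ha he P hM₀ (Ψ := fun b x v => Ψ b x v / (B + 1)) (fun b x v => by
    rw [abs_div, abs_of_pos (by linarith : 0 < B + 1), div_le_one (by linarith)]
    linarith [hΨ b x v])).const_mul (B + 1)
  rw [mul_zero] at h2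
  refine h2.congr fun N => ?_
  rw [← LogAvg_const_mul]
  refine LogAvg_congr fun n _ _ => ?_
  have : B + 1 ≠ 0 := by linarith
  field_simp

theorem complex_N {q : ι → ℕ} (hq : ∀ i, 2 ≤ q i) (hqc : ∀ i j, i ≠ j → (q i).Coprime (q j))
    {A : ι → Type*} {a : ∀ i, ℕ → A i}
    (ha : ∀ i, {g : ℕ → A i | ∃ k r : ℕ, r < q i ^ k ∧
      g = fun n => a i (q i ^ k * n + r)}.Finite)
    {m d : ι → ℕ} {e : ∀ i, ℕ → Fin (d i) → ℤ} {C : ι → ℝ}
    (he : ∀ i, QV (q i) (m i) (e i) (C i)) (P : Polynomial ℝ) {M₀ : ℕ} (hM₀ : 1 ≤ M₀)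
    {Ψ : ℕ → (∀ i, A i) → (∀ i, Fin (d i) → ℤ) → ℂ} {B : ℝ} (hΨ : ∀ b x v, ‖Ψ b x v‖ ≤ B) :
    Tendsto (fun N : ℕ => (1 / Real.log N : ℂ) * ∑ n ∈ Finset.Icc 1 N,
      Complex.exp (2 * Real.pi * Complex.I * P.eval (n : ℝ)) *
        Ψ (n % M₀) (fun i => a i n) (fun i => e i n) *
        (ArithmeticFunction.moebius n : ℂ) / n) atTop (𝓝 0) := by
  have hθ : ∀ (θ : ℝ) (n : ℕ), P.eval (n : ℝ) + θ = (P + Polynomial.C θ).eval (n : ℝ) := by
    intro θ n
    rw [Polynomial.eval_add, Polynomial.eval_C]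
  refine to_complex_poly (φ := fun n => P.eval (n : ℝ))
    (Z := fun n => Ψ (n % M₀) (fun i => a i n) (fun i => e i n)) (fun θ => ?_) (fun θ => ?_)
  · simp only [hθ]
    exact bound_N hq hqc ha he (P + Polynomial.C θ) hM₀ (Ψ := fun b x v => (Ψ b x v).re)
      fun b x v => (Complex.abs_re_le_norm _).trans (hΨ b x v)
  · simp only [hθ]
    exact bound_N hq hqc ha he (P + Polynomial.C θ) hM₀ (Ψ := fun b x v => (Ψ b x v).im)
      fun b x v => (Complex.abs_im_le_norm _).trans (hΨ b x v)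

/-- test functions which depend on `N` -/
theorem seq_N {q : ι → ℕ} (hq : ∀ i, 2 ≤ q i) (hqc : ∀ i j, i ≠ j → (q i).Coprime (q j))
    {A : ι → Type*} {a : ∀ i, ℕ → A i}
    (ha : ∀ i, {g : ℕ → A i | ∃ k r : ℕ, r < q i ^ k ∧
      g = fun n => a i (q i ^ k * n + r)}.Finite)
    {m d : ι → ℕ} {e : ∀ i, ℕ → Fin (d i) → ℤ} {C : ι → ℝ}
    (he : ∀ i, QV (q i) (m i) (e i) (C i)) (P : Polynomial ℝ) {M₀ : ℕ} (hM₀ : 1 ≤ M₀)
    {Ψ : ℕ → ℕ → (∀ i, A i) → (∀ i, Fin (d i) → ℤ) → ℂ} {B : ℝ}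
    (hΨ : ∀ N b x v, ‖Ψ N b x v‖ ≤ B) :
    Tendsto (fun N : ℕ => (1 / Real.log N : ℂ) * ∑ n ∈ Finset.Icc 1 N,
      Complex.exp (2 * Real.pi * Complex.I * P.eval (n : ℝ)) *
        Ψ N (n % M₀) (fun i => a i n) (fun i => e i n) *
        (ArithmeticFunction.moebius n : ℂ) / n) atTop (𝓝 0) := by
  have h1 := SA.schur (Z := ℕ × (∀ i, A i) × (∀ i, Fin (d i) → ℤ))
    (fun n => (n % M₀, fun i => a i n, fun i => e i n))
    (fun n => Complex.exp (2 * Real.pi * Complex.I * P.eval (n : ℝ)) *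
      (ArithmeticFunction.moebius n : ℂ) / n) (fun N => (1 / Real.log N : ℂ))
    (fun B' Φ hΦ => by
      refine (complex_N hq hqc ha he P hM₀ (Ψ := fun b x v => Φ (b, x, v)) fun b x v =>
        hΦ (b, x, v)).congr fun N => ?_
      unfold SA.tst
      congr 1
      exact Finset.sum_congr rfl fun n _ => by ring)
    (fun N z => Ψ N z.1 z.2.1 z.2.2) (B := B) (fun N z => hΨ N z.1 z.2.1 z.2.2)
  refine h1.congr fun N => ?_
  unfold SA.tst
  congr 1
  exact Finset.sum_congr rfl fun n _ => by ring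

end several

/-- the theorem, with a rationally almost periodic factor -/
theorem rap_N {ι : Type*} [Fintype ι] {q : ι → ℕ} (hq : ∀ i, 2 ≤ q i)
    (hqc : ∀ i j, i ≠ j → (q i).Coprime (q j))
    {A : ι → Type*} {a : ∀ i, ℕ → A i}
    (ha : ∀ i, {g : ℕ → A i | ∃ k r : ℕ, r < q i ^ k ∧
      g = fun n => a i (q i ^ k * n + r)}.Finite)
    {m d : ι → ℕ} {e : ∀ i, ℕ → Fin (d i) → ℤ} {C : ι → ℝ}
    (he : ∀ i, QV (q i) (m i) (e i) (C i)) {A₀ : Type*} [DecidableEq A₀] {b : ℕ → A₀}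
    (hb : ∀ ε : ℝ, 0 < ε → ∃ (M : ℕ) (c : ℕ → A₀), 1 ≤ M ∧ ∀ᶠ N : ℕ in atTop,
      (1 / Real.log N) * ∑ n ∈ Finset.Icc 1 N, (if b n = c (n % M) then (0 : ℝ) else 1) / n ≤ ε)
    (P : Polynomial ℝ)
    {Ψ : ℕ → A₀ → (∀ i, A i) → (∀ i, Fin (d i) → ℤ) → ℂ} {B : ℝ}
    (hΨ : ∀ N b x v, ‖Ψ N b x v‖ ≤ B) :
    Tendsto (fun N : ℕ => (1 / Real.log N : ℂ) * ∑ n ∈ Finset.Icc 1 N,
      Complex.exp (2 * Real.pi * Complex.I * P.eval (n : ℝ)) *
        Ψ N (b n) (fun i => a i n) (fun i => e i n) *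
        (ArithmeticFunction.moebius n : ℂ) / n) atTop (𝓝 0) := by
  classical
  have hB : 0 ≤ B := (norm_nonneg _).trans (hΨ 0 (b 0) (fun i => a i 0) (fun _ => 0))
  rw [Metric.tendsto_nhds]
  intro ε hε
  obtain ⟨M, c, hM, hN⟩ := hb (ε / (4 * (B + 1))) (by positivity)
  have h1 := seq_N hq hqc ha he P hM (Ψ := fun N b x v => Ψ N (c b) x v) (B := B)
    (fun N b x v => hΨ N (c b) x v)
  rw [Metric.tendsto_nhds] at h1
  filter_upwards [h1 (ε / 2) (half_pos hε), hN, eventually_ge_atTop 3] with N h2 h3 h4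
  rw [dist_zero_right] at h2 ⊢
  set F : ℕ → ℂ := fun n => Complex.exp (2 * Real.pi * Complex.I * P.eval (n : ℝ)) *
    Ψ N (b n) (fun i => a i n) (fun i => e i n) * (ArithmeticFunction.moebius n : ℂ) / n with hF
  set G : ℕ → ℂ := fun n => Complex.exp (2 * Real.pi * Complex.I * P.eval (n : ℝ)) *
    Ψ N (c (n % M)) (fun i => a i n) (fun i => e i n) * (ArithmeticFunction.moebius n : ℂ) / n with hG
  have hlog : 0 < Real.log N := Real.log_pos (by exact_mod_cast (by omega : 1 < N))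
  have hdiff : ∀ n, ‖F n - G n‖ ≤ 2 * B * ((if b n = c (n % M) then (0 : ℝ) else 1) / n) := by
    intro n
    rw [hF, hG]
    simp only
    split_ifs with h
    · rw [h, sub_self, norm_zero]
      simp
    · have e1 : Complex.exp (2 * Real.pi * Complex.I * P.eval (n : ℝ)) *
          Ψ N (b n) (fun i => a i n) (fun i => e i n) * (ArithmeticFunction.moebius n : ℂ) / n -
          Complex.exp (2 * Real.pi * Complex.I * P.eval (n : ℝ)) *
          Ψ N (c (n % M)) (fun i => a i n) (fun i => e i n) * (ArithmeticFunction.moebius n : ℂ) / n =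
          Complex.exp (2 * Real.pi * Complex.I * P.eval (n : ℝ)) *
            ((Ψ N (b n) (fun i => a i n) (fun i => e i n) - Ψ N (c (n % M)) (fun i => a i n) (fun i => e i n)) *
              (ArithmeticFunction.moebius n : ℂ)) / n := by ring
      rw [e1, norm_div, norm_mul, norm_mul, Complex.norm_natCast]
      have hexp : ‖Complex.exp (2 * Real.pi * Complex.I * P.eval (n : ℝ))‖ = 1 := by
        have h2 : (2 * Real.pi * Complex.I * ((P.eval (n : ℝ) : ℝ) : ℂ) : ℂ) =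
            ((2 * Real.pi * P.eval (n : ℝ) : ℝ) : ℂ) * Complex.I := by
          push_cast
          ring
        rw [h2, Complex.norm_exp_ofReal_mul_I]
      have hmu : ‖(ArithmeticFunction.moebius n : ℂ)‖ ≤ 1 := by
        rw [Complex.norm_intCast]
        exact_mod_cast ArithmeticFunction.abs_moebius_le_one
      rw [hexp, one_mul, mul_one_div]
      refine div_le_div_of_nonneg_right ?_ (Nat.cast_nonneg n)
      calc ‖Ψ N (b n) (fun i => a i n) (fun i => e i n) - Ψ N (c (n % M)) (fun i => a i n) (fun i => e i n)‖ *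
            ‖(ArithmeticFunction.moebius n : ℂ)‖ ≤ (B + B) * 1 := by
            refine mul_le_mul ?_ hmu (norm_nonneg _) (by linarith)
            exact (norm_sub_le _ _).trans (add_le_add (hΨ _ _ _ _) (hΨ _ _ _ _))
        _ = 2 * B := by ring
  have hsum : ‖(1 / Real.log N : ℂ) * ∑ n ∈ Finset.Icc 1 N, F n -
      (1 / Real.log N : ℂ) * ∑ n ∈ Finset.Icc 1 N, G n‖ ≤
      2 * B * ((1 / Real.log N) * ∑ n ∈ Finset.Icc 1 N,
        (if b n = c (n % M) then (0 : ℝ) else 1) / n) := by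
    rw [← mul_sub, ← Finset.sum_sub_distrib, norm_mul]
    have e1 : ‖(1 / Real.log N : ℂ)‖ = 1 / Real.log N := by
      rw [norm_div, norm_one, Complex.norm_real, Real.norm_of_nonneg hlog.le]
    rw [e1]
    have e2 : ‖∑ n ∈ Finset.Icc 1 N, (F n - G n)‖ ≤ ∑ n ∈ Finset.Icc 1 N,
        2 * B * ((if b n = c (n % M) then (0 : ℝ) else 1) / n) :=
      (norm_sum_le _ _).trans (Finset.sum_le_sum fun n _ => hdiff n)
    rw [← Finset.mul_sum] at e2
    calc 1 / Real.log N * ‖∑ n ∈ Finset.Icc 1 N, (F n - G n)‖ ≤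
        1 / Real.log N * (2 * B * ∑ n ∈ Finset.Icc 1 N,
          (if b n = c (n % M) then (0 : ℝ) else 1) / n) :=
          mul_le_mul_of_nonneg_left e2 (by positivity)
      _ = _ := by ring
  have hsmall : 2 * B * ((1 / Real.log N) * ∑ n ∈ Finset.Icc 1 N,
      (if b n = c (n % M) then (0 : ℝ) else 1) / n) ≤ ε / 2 := by
    calc _ ≤ 2 * B * (ε / (4 * (B + 1))) := mul_le_mul_of_nonneg_left h3 (by positivity)
      _ ≤ 2 * (B + 1) * (ε / (4 * (B + 1))) :=
        mul_le_mul_of_nonneg_right (by linarith) (by positivity)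
      _ = ε / 2 := by
        have : B + 1 ≠ 0 := by positivity
        field_simp
        ring
  have htri := norm_add_le ((1 / Real.log N : ℂ) * ∑ n ∈ Finset.Icc 1 N, F n -
      (1 / Real.log N : ℂ) * ∑ n ∈ Finset.Icc 1 N, G n)
      ((1 / Real.log N : ℂ) * ∑ n ∈ Finset.Icc 1 N, G n)
  rw [sub_add_cancel] at htri
  linarith

end Pool.Agent.Lib.MP_3e612f_nt.NB
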