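import Pool.Agent.Lib.MP_3e612f_nt.NBound
import Pool.Agent.Lib.MP_3e612f_nt.NDep
import Pool.Agent.Lib.MP_3e612f_nt.NColl
import Pool.Agent.Lib.MP_3e612f_nt.MIncr

/-!
The law of the increments of all values, with the finite parts: lattice directions (task N6).
-/

set_option autoImplicit false

namespace Pool.Agent.Lib.MP_3e612f_nt.NB

open Filter Topology
open Pool.Agent.Lib.MP_3e612f_nt.QA Pool.Agent.Lib.MP_3e612f_nt.SA Pool.Agent.Lib.MP_3e612f_nt.MB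

theorem bi_bd (p : Prop) : 0 ≤ bi p ∧ bi p ≤ 1 := by
  unfold bi
  split_ifs <;> norm_num

theorem bi_abs (p : Prop) : |bi p| ≤ 1 :=
  abs_le.2 ⟨by linarith [(bi_bd p).1], (bi_bd p).2⟩

theorem bi_congr {p p' : Prop} (h : p ↔ p') : bi p = bi p' := by
  rw [propext h]

theorem bi_forall {ι : Type*} [Fintype ι] (p : ι → Prop) : bi (∀ i, p i) = ∏ i, bi (p i) := by
  classical
  unfold bi
  rw [Finset.prod_ite_zero, Finset.prod_const_one]
  simp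

/-- collisions of the finite parts on both sides -/
noncomputable def col {S : Type*} [Monoid S] (E₀ : S) (x₁ x₂ x₃ x₄ : S) : ℝ :=
  bi (x₁ * E₀ = x₂ * E₀ ∧ x₃ * E₀ = x₄ * E₀)

/-- all the information about one base -/
theorem n6_base {S : Type*} [Monoid S] {q m d : ℕ} (hq : 2 ≤ q) {β : ℕ → S}
    (hβ : QM q m β) {ω : ℕ} (hω : Core q β ω) {e : ℕ → Fin d → ℤ}
    (he : ∀ a y s : ℕ, s < q ^ a → e (q ^ (a + m) * y + s) = e y + e s)
    {Λ : AddSubgroup (Fin d → ℤ)} {N' : ℕ} (hN : 1 ≤ N') (hΛ : ∀ v : Fin d → ℤ, N' • v ∈ Λ)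
    (hex : Exch q m β e Λ) {P R : ℕ} (hP : P.Coprime q) (hR : R.Coprime q)
    (hPR : 2 * q ^ m * P ≤ R) (hP1 : 1 ≤ P) (hPd : (q - 1) ∣ P) (hRd : (q - 1) ∣ R)
    {w w' : Fin d → ℤ} (hw : w ∈ Λ) (hw' : w' ∈ Λ) :
    ∃ K θ : ℝ, 0 ≤ K ∧ 0 < θ ∧ θ < 1 ∧ ∀ a : ℕ, ∃ B D : Finset ℕ,
      (B.card : ℝ) ≤ K * θ ^ a * 2 ^ a ∧
      (D.card : ℝ) ≤ K * θ ^ a * (q ^ (lg q (2 * a) + 1) : ℕ) ∧
      (∀ n r h c z c' z' : ℕ, r ≤ 2 ^ a → n % q ^ (lg q (2 * a) + 1) ∉ D → c ≤ P → z < q ^ h →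
        c' ≤ R → z' < q ^ h →
        (e (sd q h P c z (n + r)) - e (sd q h P c z n) =
          e (sd q h P c z (n % q ^ (lg q (2 * a) + 1) + r)) -
            e (sd q h P c z (n % q ^ (lg q (2 * a) + 1))) ∧
          ∀ x x' : S, β (sd q h P c z (n + r)) * x = β (sd q h P c z n) * x' ↔
            β (sd q h P c z (n % q ^ (lg q (2 * a) + 1) + r)) * x =
              β (sd q h P c z (n % q ^ (lg q (2 * a) + 1))) * x') ∧
        (e (sd q h R c' z' (n + r)) - e (sd q h R c' z' n) =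
          e (sd q h R c' z' (n % q ^ (lg q (2 * a) + 1) + r)) -
            e (sd q h R c' z' (n % q ^ (lg q (2 * a) + 1))) ∧
          ∀ x x' : S, β (sd q h R c' z' (n + r)) * x = β (sd q h R c' z' n) * x' ↔
            β (sd q h R c' z' (n % q ^ (lg q (2 * a) + 1) + r)) * x =
              β (sd q h R c' z' (n % q ^ (lg q (2 * a) + 1))) * x')) ∧
      ∀ r < 2 ^ a, r ∉ B → ∀ h c z c' z' : ℕ, c ≤ P → z < q ^ h → c' ≤ R → z' < q ^ h →
        |IncB q P R β e r h (lg q (2 * a) + 1) 0 c c c' c' z z z' z'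
          (fun x₁ x₂ x₃ x₄ v v' => col (β ω) x₁ x₂ x₃ x₄ * ind 0 0 v v')| ≤
          K / Real.sqrt (a + 1) ^ (2 * d) ∧
        ∀ s : ℤ, |IncB q P R β e r h (lg q (2 * a) + 1) 0 c c c' c' z z z' z'
            (fun x₁ x₂ x₃ x₄ v v' => col (β ω) x₁ x₂ x₃ x₄ * ind 0 0 v v') -
          IncB q P R β e r h (lg q (2 * a) + 1) 0 c c c' c' z z z' z'
            (fun x₁ x₂ x₃ x₄ v v' => col (β ω) x₁ x₂ x₃ x₄ * ind (s • w) (s • w') v v')| ≤
          K * |(s : ℝ)| / Real.sqrt (a + 1) ^ (2 * d + 1) := by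
  obtain ⟨A, C, ρ, hA, hC, hρ0, hρ1, hB⟩ := local_boundB hq hβ he hN hΛ hex hP hR hPR hP1
    hPd hRd hw hw'
  obtain ⟨C₁, ρ₁, hC₁, hρ₁0, hρ₁1, hD₁⟩ := local_depB hq hβ hω he hP
  obtain ⟨C₂, ρ₂, hC₂, hρ₂0, hρ₂1, hD₂⟩ := local_depB hq hβ hω he hR
  set g := Nat.clog 2 q with hg
  have hqg : q ≤ 2 ^ g := Nat.le_pow_clog (by norm_num) q
  have hg1 : 1 ≤ g := by
    by_contra h
    have : g = 0 := by omega
    rw [this] at hqg
    omega
  set G := A * g with hG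
  have hG1 : 1 ≤ G := Nat.mul_pos hA hg1
  obtain ⟨θ, hθ0, hθ1, hθ⟩ := mi_rate hρ0 hρ1 hG1
  obtain ⟨θ₁, hθ₁0, hθ₁1, hθ₁⟩ := mi_rate hρ₁0 hρ₁1 hg1
  obtain ⟨θ₂, hθ₂0, hθ₂1, hθ₂⟩ := mi_rate hρ₂0 hρ₂1 hg1
  set Θ := max θ (max θ₁ θ₂) with hΘ
  have hΘ0 : 0 < Θ := lt_max_of_lt_left hθ0
  have hΘ1 : Θ < 1 := max_lt hθ1 (max_lt hθ₁1 hθ₂1)
  have hpw : ∀ a : ℕ, θ ^ a ≤ Θ ^ a ∧ θ₁ ^ a ≤ Θ ^ a ∧ θ₂ ^ a ≤ Θ ^ a := fun a =>
    ⟨pow_le_pow_left₀ hθ0.le (le_max_left _ _) a,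
      pow_le_pow_left₀ hθ₁0.le ((le_max_left _ _).trans (le_max_right _ _)) a,
      pow_le_pow_left₀ hθ₂0.le ((le_max_right _ _).trans (le_max_right _ _)) a⟩
  have hsG : 0 ≤ Real.sqrt G := Real.sqrt_nonneg _
  set K₀ := C * ρ⁻¹ with hK₀
  set K₁ := C₁ * ρ₁⁻¹ + C₂ * ρ₂⁻¹ with hK₁
  set K₂ := C * Real.sqrt G ^ (2 * d) with hK₂
  set K₃ := C * Real.sqrt G ^ (2 * d + 1) with hK₃
  have h0 : 0 ≤ K₀ := by positivity
  have h1 : 0 ≤ K₁ := by positivity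
  have h2 : 0 ≤ K₂ := by positivity
  have h3 : 0 ≤ K₃ := by positivity
  refine ⟨K₀ + K₁ + K₂ + K₃, Θ, by positivity, hΘ0, hΘ1, ?_⟩
  intro a
  have hN : a + 1 ≤ G * (a / G + 1) := by
    have := Nat.lt_mul_div_succ a (show 0 < G by omega)
    omega
  have hX : q ^ (A * (a / G)) ≤ 2 ^ a := by
    calc q ^ (A * (a / G)) ≤ (2 ^ g) ^ (A * (a / G)) := Nat.pow_le_pow_left hqg _
      _ = 2 ^ (G * (a / G)) := by rw [← pow_mul, hG]; congr 1; ring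
      _ ≤ 2 ^ a := Nat.pow_le_pow_right (by norm_num) (Nat.mul_div_le a G)
  obtain ⟨B, hBc, hB⟩ := hB (a / G) (2 ^ a) hX
  obtain ⟨l1, l2, l3, l4⟩ := mi_lg hq hqg a
  obtain ⟨D₁, hD₁c, hD₁⟩ := hD₁ (lg q a + 1) (lg q (2 * a) + 1) l1
  obtain ⟨D₂, hD₂c, hD₂⟩ := hD₂ (lg q a + 1) (lg q (2 * a) + 1) l1
  refine ⟨B, D₁ ∪ D₂, ?_, ?_, ?_, ?_⟩
  · refine hBc.trans ?_
    push_cast
    have e1 := hθ a (a / G) hN
    have e2 := (hpw a).1
    calc C * ρ ^ (a / G) * 2 ^ a ≤ C * (ρ⁻¹ * θ ^ a) * 2 ^ a := by gcongr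
      _ ≤ C * (ρ⁻¹ * Θ ^ a) * 2 ^ a := by gcongr
      _ = K₀ * Θ ^ a * 2 ^ a := by rw [hK₀]; ring
      _ ≤ (K₀ + K₁ + K₂ + K₃) * Θ ^ a * 2 ^ a := by gcongr; linarith
  · have e1 := hθ₁ a _ l2
    have e2 := hθ₂ a _ l2
    have e3 := (hpw a).2.1
    have e4 := (hpw a).2.2
    have e5 : ((D₁ ∪ D₂).card : ℝ) ≤ D₁.card + D₂.card := by
      exact_mod_cast Finset.card_union_le _ _
    push_cast
    have e6 : (0 : ℝ) ≤ (q : ℝ) ^ (lg q (2 * a) + 1) := by positivity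
    calc ((D₁ ∪ D₂).card : ℝ) ≤ D₁.card + D₂.card := e5
      _ ≤ C₁ * ρ₁ ^ (lg q (2 * a) + 1 - (lg q a + 1)) * q ^ (lg q (2 * a) + 1) +
          C₂ * ρ₂ ^ (lg q (2 * a) + 1 - (lg q a + 1)) * q ^ (lg q (2 * a) + 1) :=
          add_le_add hD₁c hD₂c
      _ ≤ C₁ * (ρ₁⁻¹ * Θ ^ a) * q ^ (lg q (2 * a) + 1) +
          C₂ * (ρ₂⁻¹ * Θ ^ a) * q ^ (lg q (2 * a) + 1) := by
          have f1 := e1.trans (mul_le_mul_of_nonneg_left e3 (inv_nonneg.2 hρ₁0.le))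
          have f2 := e2.trans (mul_le_mul_of_nonneg_left e4 (inv_nonneg.2 hρ₂0.le))
          gcongr
      _ = K₁ * Θ ^ a * q ^ (lg q (2 * a) + 1) := by rw [hK₁]; ring
      _ ≤ (K₀ + K₁ + K₂ + K₃) * Θ ^ a * q ^ (lg q (2 * a) + 1) := by gcongr; linarith
  · intro n r h c z c' z' hr hn hc hz hc' hz'
    rw [Finset.mem_union, not_or] at hn
    exact ⟨hD₁ n r h c z (hr.trans l3) hn.1 hc hz, hD₂ n r h c' z' (hr.trans l3) hn.2 hc' hz'⟩
  · intro r hr hrB h c z c' z' hc hz hc' hz'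
    have hL : A * (a / G) ≤ lg q (2 * a) + 1 := by
      have : A * (a / G) ≤ lg q (2 * a) := by
        unfold lg
        refine Nat.le_log_of_pow_le (by omega) (hX.trans ?_)
        exact Nat.pow_le_pow_right (by norm_num) (by omega)
      omega
    have hSt : St q P R h c c c' c' z z z' z' :=
      ⟨by omega, by omega, by omega, by omega, hz, hz, hz', hz'⟩
    have hb := hB r hr hrB (lg q (2 * a) + 1) hL h 0 c c c' c' z z z' z' hSt (col (β ω))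
      (fun x₁ x₂ x₃ x₄ => bi_abs _)
    constructor
    · refine ((hb 0 0).1.trans (mi_sqrt hN hC)).trans ?_
      have : (0 : ℝ) ≤ Real.sqrt (a + 1) ^ (2 * d) := by positivity
      refine div_le_div_of_nonneg_right ?_ this
      rw [← hK₂]
      linarith
    · intro s
      have e1 := mi_tele (fun u u' => IncB q P R β e r h (lg q (2 * a) + 1) 0 c c c' c' z z z' z'
        (fun x₁ x₂ x₃ x₄ v v' => col (β ω) x₁ x₂ x₃ x₄ * ind u u' v v')) (fun u u' => ((hb u u').2.trans (mi_sqrt hN hC))) s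
      refine e1.trans ?_
      have : (0 : ℝ) ≤ Real.sqrt (a + 1) ^ (2 * d + 1) := by positivity
      rw [← mul_div_assoc, mul_comm]
      refine div_le_div_of_nonneg_right ?_ this
      refine mul_le_mul_of_nonneg_right ?_ (abs_nonneg _)
      rw [← hK₃]
      linarith

section several

variable {ι : Type*} [Fintype ι] [DecidableEq ι] {q : ι → ℕ} {m : ℕ} {d : ι → ℕ}
  {S : ι → Type*} [∀ i, Monoid (S i)] [∀ i, Finite (S i)]
  {β : ∀ i, ℕ → S i} {ω : ι → ℕ} {e : ∀ i, ℕ → Fin (d i) → ℤ} {C : ℝ}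
  {Λ : ∀ i, AddSubgroup (Fin (d i) → ℤ)} {N' : ℕ} {u : ∀ i, S i → (Fin (d i) → ℤ) ⧸ Λ i}

/-- one base: the indicator function -/
noncomputable def n6_g {S : Type*} [Monoid S] (q P R h c z c' z' r : ℕ) (β : ℕ → S) (ω : ℕ) {d : ℕ}
    (e : ℕ → Fin d → ℤ) (v v' : Fin d → ℤ) (x : ℕ) : ℝ :=
  col (β ω) (β (sd q h P c z (x + r))) (β (sd q h P c z x)) (β (sd q h R c' z' (x + r)))
      (β (sd q h R c' z' x)) *
    ind v v' (e (sd q h P c z (x + r)) - e (sd q h P c z x))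
      (e (sd q h R c' z' (x + r)) - e (sd q h R c' z' x))

omit [Fintype ι] [DecidableEq ι] [∀ i, Finite (S i)] [∀ i, Monoid (S i)] in
theorem n6_g_eq {S : Type*} [Monoid S] (q P R h c z c' z' r : ℕ) (β : ℕ → S) (ω : ℕ) {d : ℕ}
    (e : ℕ → Fin d → ℤ) (v v' : Fin d → ℤ) (x : ℕ) :
    n6_g q P R h c z c' z' r β ω e v v' x =
      bi (β (sd q h P c z (x + r)) * β ω = β (sd q h P c z x) * β ω ∧
        β (sd q h R c' z' (x + r)) * β ω = β (sd q h R c' z' x) * β ω ∧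
        e (sd q h P c z (x + r)) - e (sd q h P c z x) = v ∧
        e (sd q h R c' z' (x + r)) - e (sd q h R c' z' x) = v') := by
  unfold n6_g col ind bi
  rw [ite_zero_mul_ite_zero, one_mul]
  congr 1
  rw [eq_iff_iff]
  exact and_assoc

theorem n6_g_bd {S : Type*} [Monoid S] (q P R h c z c' z' r : ℕ) (β : ℕ → S) (ω : ℕ) {d : ℕ}
    (e : ℕ → Fin d → ℤ) (v v' : Fin d → ℤ) (x : ℕ) :
    0 ≤ n6_g q P R h c z c' z' r β ω e v v' x ∧ n6_g q P R h c z c' z' r β ω e v v' x ≤ 1 := by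
  rw [n6_g_eq]
  exact bi_bd _

theorem n6_g_av {S : Type*} [Monoid S] (q P R h c z c' z' r L : ℕ) (β : ℕ → S) (ω : ℕ) {d : ℕ}
    (e : ℕ → Fin d → ℤ) (v v' : Fin d → ℤ) :
    av q L (n6_g q P R h c z c' z' r β ω e v v') =
      IncB q P R β e r h L 0 c c c' c' z z z' z'
        (fun x₁ x₂ x₃ x₄ u u' => col (β ω) x₁ x₂ x₃ x₄ * ind v v' u u') := by
  unfold IncB
  refine av_congr fun n _ => ?_
  simp only [mul_zero, zero_add]
  rfl

theorem n6_prod (h r : ℕ) (P R c z c' z' : ι → ℕ) (V V' : ∀ i, Fin (d i) → ℤ) (x : ℕ) :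
    bi (BW q β ω h P c z (x + r) = BW q β ω h P c z x ∧
      BW q β ω h R c' z' (x + r) = BW q β ω h R c' z' x ∧
      EE q e h P c z (x + r) - EE q e h P c z x = V ∧
      EE q e h R c' z' (x + r) - EE q e h R c' z' x = V') =
    ∏ i, n6_g (q i) (P i) (R i) h (c i) (z i) (c' i) (z' i) r (β i) (ω i) (e i) (V i) (V' i) x := by
  simp only [n6_g_eq]
  rw [← bi_forall]
  apply bi_congr
  constructor
  · rintro ⟨h1, h2, h3, h4⟩ i
    exact ⟨congrFun h1 i, congrFun h2 i, congrFun h3 i, congrFun h4 i⟩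
  · intro h1
    exact ⟨funext fun i => (h1 i).1, funext fun i => (h1 i).2.1, funext fun i => (h1 i).2.2.1,
      funext fun i => (h1 i).2.2.2⟩

/-- N6: collisions, lattice directions -/
theorem incr_lawB (Sy : NSys q m β ω e C Λ N' u) {P R : ι → ℕ} (hPR : MulN q m β ω P R) (i₀ : ι)
    {w w' : Fin (d i₀) → ℤ} (hw : w ∈ Λ i₀) (hw' : w' ∈ Λ i₀) :
    ∃ K θ : ℝ, 0 ≤ K ∧ 0 < θ ∧ θ < 1 ∧ ∀ h a k : ℕ, (4 * Fintype.card ι + 4) * a ≤ k →
      ∃ B : Finset ℕ, (B.card : ℝ) ≤ K * θ ^ a * 2 ^ a ∧ ∀ r < 2 ^ a, r ∉ B →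
      ∀ (u₀ : ℕ) (c z c' z' : ι → ℕ), Bd q h P c z → Bd q h R c' z' → ∀ s : ℤ,
        |av 2 k (fun n =>
          bi (BW q β ω h P c z (u₀ + n + r) = BW q β ω h P c z (u₀ + n) ∧
            BW q β ω h R c' z' (u₀ + n + r) = BW q β ω h R c' z' (u₀ + n) ∧
            EE q e h P c z (u₀ + n + r) - EE q e h P c z (u₀ + n) = 0 ∧
            EE q e h R c' z' (u₀ + n + r) - EE q e h R c' z' (u₀ + n) = 0) -
          bi (BW q β ω h P c z (u₀ + n + r) = BW q β ω h P c z (u₀ + n) ∧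
            BW q β ω h R c' z' (u₀ + n + r) = BW q β ω h R c' z' (u₀ + n) ∧
            EE q e h P c z (u₀ + n + r) - EE q e h P c z (u₀ + n) = Pi.single i₀ (s • w) ∧
            EE q e h R c' z' (u₀ + n + r) - EE q e h R c' z' (u₀ + n) =
              Pi.single i₀ (s • w')))| ≤
          K * (|(s : ℝ)| / Real.sqrt (a + 1) ^ (2 * (∑ i, d i) + 1) + θ ^ a) := by
  have S := Sy.sys
  have hmem : ∀ i, (Pi.single i₀ w : ∀ i, Fin (d i) → ℤ) i ∈ Λ i := by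
    intro i
    by_cases hi : i = i₀
    · subst hi
      rw [Pi.single_eq_same]
      exact hw
    · rw [Pi.single_eq_of_ne hi]
      exact AddSubgroup.zero_mem _
  have hmem' : ∀ i, (Pi.single i₀ w' : ∀ i, Fin (d i) → ℤ) i ∈ Λ i := by
    intro i
    by_cases hi : i = i₀
    · subst hi
      rw [Pi.single_eq_same]
      exact hw'
    · rw [Pi.single_eq_of_ne hi]
      exact AddSubgroup.zero_mem _
  choose K θ₀ hK hθ₀ hθ₁ hbase using fun i => n6_base (S.base i) (Sy.qm i) (Sy.core i)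
    (S.qv i).gap Sy.npos (Sy.nmem i) (Sy.exch i) (hPR.mul.cP i)
    (hPR.mul.cR i) (hPR.mul.le i) (hPR.mul.one i) (hPR.dP i) (hPR.dR i) (hmem i) (hmem' i)
  obtain ⟨θ, hθh, hθ1, hθ⟩ := mi_unif θ₀ hθ₁
  have hθ0 : 0 < θ := by linarith
  have hpw : ∀ i (a : ℕ), θ₀ i ^ a ≤ θ ^ a := fun i a => pow_le_pow_left₀ (hθ₀ i).le (hθ i) a
  set T₀ := ∑ i, K i with hT₀
  set T₁ := ∑ i, (1 + (q i : ℝ)) with hT₁
  set T₂ := ∏ i, (q i : ℝ) with hT₂
  set T₃ := ∏ i, K i with hT₃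
  have t0 : 0 ≤ T₀ := Finset.sum_nonneg fun i _ => hK i
  have t1 : 0 ≤ T₁ := Finset.sum_nonneg fun i _ => by positivity
  have t2 : 0 ≤ T₂ := Finset.prod_nonneg fun i _ => Nat.cast_nonneg _
  have t3 : 0 ≤ T₃ := Finset.prod_nonneg fun i _ => hK i
  have t01 : 0 ≤ T₁ * T₀ := mul_nonneg t1 t0
  refine ⟨T₀ + 2 * (T₁ * T₀) + 4 * T₂ + T₃, θ, by positivity, hθ0, hθ1, ?_⟩
  intro h a k hk
  choose B D hBc hDc hDeq hInc using fun i => hbase i a
  refine ⟨Finset.univ.biUnion B, ?_, ?_⟩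
  · have e1 : ((Finset.univ.biUnion B).card : ℝ) ≤ ∑ i, ((B i).card : ℝ) := by
      exact_mod_cast Finset.card_biUnion_le
    calc ((Finset.univ.biUnion B).card : ℝ) ≤ ∑ i, ((B i).card : ℝ) := e1
      _ ≤ ∑ i, K i * θ ^ a * 2 ^ a := by
          refine Finset.sum_le_sum fun i _ => (hBc i).trans ?_
          have := hpw i a
          have := hK i
          gcongr
      _ = T₀ * θ ^ a * 2 ^ a := by rw [hT₀, Finset.sum_mul, Finset.sum_mul]
      _ ≤ (T₀ + 2 * (T₁ * T₀) + 4 * T₂ + T₃) * θ ^ a * 2 ^ a := by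
          gcongr
          linarith
  · intro r hr hrB u₀ c z c' z' hc hc' s
    have hrB' : ∀ i, r ∉ B i := by
      intro i hi
      exact hrB (Finset.mem_biUnion.2 ⟨i, Finset.mem_univ i, hi⟩)
    have hDc' : ∀ i, ((D i).card : ℝ) ≤ (T₀ * θ ^ a) * (q i ^ (lg (q i) (2 * a) + 1) : ℕ) := by
      intro i
      refine (hDc i).trans ?_
      have := hpw i a
      have := hK i
      have := hθ₀ i
      have h1 : K i ≤ T₀ := Finset.single_le_sum (f := K) (fun i _ => hK i) (Finset.mem_univ i)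
      gcongr
    have hD' : ∀ i n, n % q i ^ (lg (q i) (2 * a) + 1) ∉ D i → ∀ v v' : Fin (d i) → ℤ,
        n6_g (q i) (P i) (R i) h (c i) (z i) (c' i) (z' i) r (β i) (ω i) (e i) v v' n =
        n6_g (q i) (P i) (R i) h (c i) (z i) (c' i) (z' i) r (β i) (ω i) (e i) v v'
          (n % q i ^ (lg (q i) (2 * a) + 1)) := by
      intro i n hn v v'
      obtain ⟨⟨e1, f1⟩, ⟨e2, f2⟩⟩ := hDeq i n r h (c i) (z i) (c' i) (z' i) hr.le hn (hc.cle i)
        (hc.zlt i) (hc'.cle i) (hc'.zlt i)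
      rw [n6_g_eq, n6_g_eq]
      apply bi_congr
      rw [e1, e2, f1, f2]
    set V : ∀ i, Fin (d i) → ℤ := Pi.single i₀ (s • w) with hV
    set V' : ∀ i, Fin (d i) → ℤ := Pi.single i₀ (s • w') with hV'
    have happ := coll_law S.base S.cop i₀ hk
      (g := fun i => n6_g (q i) (P i) (R i) h (c i) (z i) (c' i) (z' i) r (β i) (ω i) (e i) 0 0)
      (g' := fun i => n6_g (q i) (P i) (R i) h (c i) (z i) (c' i) (z' i) r (β i) (ω i) (e i)
        (V i) (V' i))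
      (fun i n => n6_g_bd _ _ _ _ _ _ _ _ _ _ _ _ _ _ _)
      (fun i n => n6_g_bd _ _ _ _ _ _ _ _ _ _ _ _ _ _ _)
      (fun i hi => by
        simp only [hV, hV', Pi.single_eq_of_ne hi])
      D (η := T₀ * θ ^ a) (by positivity)
      (fun i n hn => ⟨hD' i n hn 0 0, hD' i n hn (V i) (V' i)⟩) hDc' u₀
    rw [av_sub]
    have hI1 : av 2 k (fun n => bi (BW q β ω h P c z (u₀ + n + r) = BW q β ω h P c z (u₀ + n) ∧
            BW q β ω h R c' z' (u₀ + n + r) = BW q β ω h R c' z' (u₀ + n) ∧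
            EE q e h P c z (u₀ + n + r) - EE q e h P c z (u₀ + n) = 0 ∧
            EE q e h R c' z' (u₀ + n + r) - EE q e h R c' z' (u₀ + n) = 0)) =
        av 2 k (fun n => ∏ i, n6_g (q i) (P i) (R i) h (c i) (z i) (c' i) (z' i) r (β i) (ω i)
          (e i) 0 0 (u₀ + n)) := by
      refine av_congr fun n _ => ?_
      rw [n6_prod]
      rfl
    have hI2 : av 2 k (fun n => bi (BW q β ω h P c z (u₀ + n + r) = BW q β ω h P c z (u₀ + n) ∧
            BW q β ω h R c' z' (u₀ + n + r) = BW q β ω h R c' z' (u₀ + n) ∧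
            EE q e h P c z (u₀ + n + r) - EE q e h P c z (u₀ + n) = V ∧
            EE q e h R c' z' (u₀ + n + r) - EE q e h R c' z' (u₀ + n) = V')) =
        av 2 k (fun n => ∏ i, n6_g (q i) (P i) (R i) h (c i) (z i) (c' i) (z' i) r (β i) (ω i)
          (e i) (V i) (V' i) (u₀ + n)) := by
      refine av_congr fun n _ => ?_
      rw [n6_prod]
    rw [hI1, hI2]
    refine happ.trans ?_
    simp only [n6_g_av]
    set X : ∀ i, (Fin (d i) → ℤ) → (Fin (d i) → ℤ) → ℝ := fun i v v' =>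
      IncB (q i) (P i) (R i) (β i) (e i) r h (lg (q i) (2 * a) + 1) 0 (c i) (c i) (c' i) (c' i)
        (z i) (z i) (z' i) (z' i)
        (fun x₁ x₂ x₃ x₄ u u' => col (β i (ω i)) x₁ x₂ x₃ x₄ * ind v v' u u') with hX
    have hXn : ∀ i, 0 ≤ X i 0 0 := by
      intro i
      simp only [hX]
      rw [← n6_g_av]
      exact av_nonneg fun n _ => (n6_g_bd _ _ _ _ _ _ _ _ _ _ _ _ _ _ _).1
    have hXb : ∀ i, X i 0 0 ≤ K i / Real.sqrt (a + 1) ^ (2 * d i) := fun i =>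
      (le_abs_self _).trans (hInc i r hr (hrB' i) h (c i) (z i) (c' i) (z' i) (hc.cle i) (hc.zlt i)
        (hc'.cle i) (hc'.zlt i)).1
    have hXs : |X i₀ 0 0 - X i₀ (V i₀) (V' i₀)| ≤
        K i₀ * |(s : ℝ)| / Real.sqrt (a + 1) ^ (2 * d i₀ + 1) := by
      have := (hInc i₀ r hr (hrB' i₀) h (c i₀) (z i₀) (c' i₀) (z' i₀) (hc.cle i₀) (hc.zlt i₀)
        (hc'.cle i₀) (hc'.zlt i₀)).2 s
      simpa only [hV, hV', Pi.single_eq_same] using this
    change (∏ i ∈ Finset.univ.erase i₀, X i 0 0) * |X i₀ 0 0 - X i₀ (V i₀) (V' i₀)| +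
      2 * (T₁ * (T₀ * θ ^ a) + 2 * T₂ * (1 / 2) ^ a) ≤ _
    have hdiff : (∏ i ∈ Finset.univ.erase i₀, X i 0 0) * |X i₀ 0 0 - X i₀ (V i₀) (V' i₀)| ≤
        T₃ * (|(s : ℝ)| / Real.sqrt (a + 1) ^ (2 * (∑ i, d i) + 1)) := by
      have hsq : (0 : ℝ) < Real.sqrt (a + 1) := Real.sqrt_pos.2 (by positivity)
      have e2 : ∏ i ∈ Finset.univ.erase i₀, X i 0 0 ≤
          ∏ i ∈ Finset.univ.erase i₀, (K i / Real.sqrt (a + 1) ^ (2 * d i)) :=
        Finset.prod_le_prod (fun i _ => hXn i) fun i _ => hXb i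
      have e3 : ∏ i ∈ Finset.univ.erase i₀, (K i / Real.sqrt (a + 1) ^ (2 * d i)) =
          (∏ i ∈ Finset.univ.erase i₀, K i) /
            Real.sqrt (a + 1) ^ (∑ i ∈ Finset.univ.erase i₀, 2 * d i) := by
        rw [Finset.prod_div_distrib, Finset.prod_pow_eq_pow_sum]
      have e4 : T₃ = K i₀ * ∏ i ∈ Finset.univ.erase i₀, K i :=
        (Finset.mul_prod_erase Finset.univ K (Finset.mem_univ i₀)).symm
      have e5 : 2 * (∑ i, d i) + 1 = (2 * d i₀ + 1) + ∑ i ∈ Finset.univ.erase i₀, 2 * d i := by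
        rw [← Finset.add_sum_erase Finset.univ d (Finset.mem_univ i₀), ← Finset.mul_sum]
        ring
      have e6 : 0 ≤ ∏ i ∈ Finset.univ.erase i₀, (K i / Real.sqrt (a + 1) ^ (2 * d i)) :=
        Finset.prod_nonneg fun i _ => div_nonneg (hK i) (by positivity)
      calc (∏ i ∈ Finset.univ.erase i₀, X i 0 0) * |X i₀ 0 0 - X i₀ (V i₀) (V' i₀)|
          ≤ ((∏ i ∈ Finset.univ.erase i₀, K i) /
            Real.sqrt (a + 1) ^ (∑ i ∈ Finset.univ.erase i₀, 2 * d i)) *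
            (K i₀ * |(s : ℝ)| / Real.sqrt (a + 1) ^ (2 * d i₀ + 1)) := by
            rw [← e3]
            exact mul_le_mul e2 hXs (abs_nonneg _) e6
        _ = T₃ * (|(s : ℝ)| / Real.sqrt (a + 1) ^ (2 * (∑ i, d i) + 1)) := by
            rw [e5, pow_add (Real.sqrt ((a : ℝ) + 1)), e4, div_mul_div_comm]
            ring
    have hhalf : (1 / 2 : ℝ) ^ a ≤ θ ^ a := pow_le_pow_left₀ (by norm_num) hθh a
    set σ := |(s : ℝ)| / Real.sqrt (a + 1) ^ (2 * (∑ i, d i) + 1) with hσ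
    have hsn : 0 ≤ σ := by positivity
    have hθa : 0 ≤ θ ^ a := by positivity
    have q1 : T₂ * (1 / 2) ^ a ≤ T₂ * θ ^ a := mul_le_mul_of_nonneg_left hhalf t2
    have q2 : 0 ≤ T₀ * σ := mul_nonneg t0 hsn
    have q3 : 0 ≤ (T₁ * T₀) * σ := mul_nonneg t01 hsn
    have q4 : 0 ≤ T₂ * σ := mul_nonneg t2 hsn
    have q5 : 0 ≤ T₀ * θ ^ a := mul_nonneg t0 hθa
    have q6 : 0 ≤ T₃ * θ ^ a := mul_nonneg t3 hθa
    have q7 : 0 ≤ T₂ * θ ^ a := mul_nonneg t2 hθa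
    nlinarith

end several

end Pool.Agent.Lib.MP_3e612f_nt.NB
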