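import Pool.Agent.Lib.MP_3e612f_nt.NColl
import Pool.Agent.Lib.MP_3e612f_nt.NDep
import Pool.Agent.Lib.MP_3e612f_nt.NFin
import Pool.Agent.Lib.MP_3e612f_nt.MIncr
import Pool.Agent.Lib.MP_3e612f_nt.MTyp
import Pool.Agent.Lib.MP_3e612f_nt.SKer

/-!
Collisions, finite directions.
-/

set_option autoImplicit false

namespace Pool.Agent.Lib.MP_3e612f_nt.NB

open Filter Topology
open Pool.Agent.Lib.MP_3e612f_nt.QA Pool.Agent.Lib.MP_3e612f_nt.SA Pool.Agent.Lib.MP_3e612f_nt.MB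

theorem nf_bi_bd (p : Prop) : 0 ≤ bi p ∧ bi p ≤ 1 := by
  unfold bi
  split_ifs <;> norm_num

theorem nf_bi_congr {p p' : Prop} (h : p ↔ p') : bi p = bi p' := by
  rw [propext h]

/-- dependence on few digits, for both sides -/
theorem nf_dep {S H : Type*} [Monoid S] [AddCommGroup H] {q m : ℕ} (hq : 2 ≤ q) {β : ℕ → S}
    (hβ : QM q m β) {ω : ℕ} (hω : Core q β ω) {e : ℕ → H}
    (he : ∀ a y s : ℕ, s < q ^ a → e (q ^ (a + m) * y + s) = e y + e s) {P R : ℕ}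
    (hP : P.Coprime q) (hR : R.Coprime q) :
    ∃ K θ : ℝ, 0 ≤ K ∧ 0 < θ ∧ θ < 1 ∧ ∀ a : ℕ, ∃ D : Finset ℕ,
      (D.card : ℝ) ≤ K * θ ^ a * (q ^ (lg q (2 * a) + 1) : ℕ) ∧
      ∀ n r h c z c' z' : ℕ, r ≤ 2 ^ a → n % q ^ (lg q (2 * a) + 1) ∉ D → c ≤ P → z < q ^ h →
        c' ≤ R → z' < q ^ h → ∀ x x' : S,
        (β (sd q h P c z (n + r)) * x = β (sd q h P c z n) * x' ↔
          β (sd q h P c z (n % q ^ (lg q (2 * a) + 1) + r)) * x =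
            β (sd q h P c z (n % q ^ (lg q (2 * a) + 1))) * x') ∧
        (β (sd q h R c' z' (n + r)) * x = β (sd q h R c' z' n) * x' ↔
          β (sd q h R c' z' (n % q ^ (lg q (2 * a) + 1) + r)) * x =
            β (sd q h R c' z' (n % q ^ (lg q (2 * a) + 1))) * x') := by
  obtain ⟨C₁, ρ₁, hC₁, hρ₁0, hρ₁1, hD₁⟩ := local_depB hq hβ hω he hP
  obtain ⟨C₂, ρ₂, hC₂, hρ₂0, hρ₂1, hD₂⟩ := local_depB hq hβ hω he hR
  set g := Nat.clog 2 q with hg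
  have hqg : q ≤ 2 ^ g := Nat.le_pow_clog (by norm_num) q
  have hg1 : 1 ≤ g := by
    by_contra h
    have : g = 0 := by omega
    rw [this] at hqg
    omega
  obtain ⟨θ₁, hθ₁0, hθ₁1, hθ₁⟩ := mi_rate hρ₁0 hρ₁1 hg1
  obtain ⟨θ₂, hθ₂0, hθ₂1, hθ₂⟩ := mi_rate hρ₂0 hρ₂1 hg1
  set Θ := max θ₁ θ₂ with hΘ
  have hΘ0 : 0 < Θ := lt_max_of_lt_left hθ₁0
  have hΘ1 : Θ < 1 := max_lt hθ₁1 hθ₂1
  set K₁ := C₁ * ρ₁⁻¹ + C₂ * ρ₂⁻¹ with hK₁
  have h1 : 0 ≤ K₁ := by positivity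
  refine ⟨K₁, Θ, h1, hΘ0, hΘ1, ?_⟩
  intro a
  obtain ⟨l1, l2, l3, l4⟩ := mi_lg hq hqg a
  obtain ⟨D₁, hD₁c, hD₁⟩ := hD₁ (lg q a + 1) (lg q (2 * a) + 1) l1
  obtain ⟨D₂, hD₂c, hD₂⟩ := hD₂ (lg q a + 1) (lg q (2 * a) + 1) l1
  refine ⟨D₁ ∪ D₂, ?_, ?_⟩
  · have e1 := hθ₁ a _ l2
    have e2 := hθ₂ a _ l2
    have e3 : θ₁ ^ a ≤ Θ ^ a := pow_le_pow_left₀ hθ₁0.le (le_max_left _ _) a
    have e4 : θ₂ ^ a ≤ Θ ^ a := pow_le_pow_left₀ hθ₂0.le (le_max_right _ _) a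
    have e5 : ((D₁ ∪ D₂).card : ℝ) ≤ D₁.card + D₂.card := by
      exact_mod_cast Finset.card_union_le _ _
    push_cast
    have e6 : (0 : ℝ) ≤ (q : ℝ) ^ (lg q (2 * a) + 1) := by positivity
    calc ((D₁ ∪ D₂).card : ℝ) ≤ D₁.card + D₂.card := e5
      _ ≤ C₁ * ρ₁ ^ (lg q (2 * a) + 1 - (lg q a + 1)) * q ^ (lg q (2 * a) + 1) +
          C₂ * ρ₂ ^ (lg q (2 * a) + 1 - (lg q a + 1)) * q ^ (lg q (2 * a) + 1) :=
          add_le_add hD₁c hD₂c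
      _ ≤ C₁ * (ρ₁⁻¹ * Θ ^ a) * q ^ (lg q (2 * a) + 1) +
          C₂ * (ρ₂⁻¹ * Θ ^ a) * q ^ (lg q (2 * a) + 1) := by
          have f1 := e1.trans (mul_le_mul_of_nonneg_left e3 (inv_nonneg.2 hρ₁0.le))
          have f2 := e2.trans (mul_le_mul_of_nonneg_left e4 (inv_nonneg.2 hρ₂0.le))
          gcongr
      _ = K₁ * Θ ^ a * q ^ (lg q (2 * a) + 1) := by rw [hK₁]; ring
  · intro n r h c z c' z' hr hn hc hz hc' hz' x x'
    rw [Finset.mem_union, not_or] at hn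
    exact ⟨(hD₁ n r h c z (hr.trans l3) hn.1 hc hz).2 x x',
      (hD₂ n r h c' z' (hr.trans l3) hn.2 hc' hz').2 x x'⟩

/-- one base: the indicator of a collision, with factors on the right -/
noncomputable def nf_g {S : Type*} [Monoid S] (q P R h c z c' z' r : ℕ) (β : ℕ → S)
    (E l l' : S) (n : ℕ) : ℝ :=
  bi (β (sd q h P c z (n + r)) * E = β (sd q h P c z n) * E * l ∧
    β (sd q h R c' z' (n + r)) * E = β (sd q h R c' z' n) * E * l')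

/-- the finite parts of one base -/
theorem nf_fin {S : Type*} [Monoid S] [Finite S] {q m : ℕ} (hq : 2 ≤ q) {β : ℕ → S}
    (hβ : QM q m β) {ω : ℕ} (hω : Core q β ω) {P R : ℕ} (hP1 : 1 ≤ P) (hR1 : 1 ≤ R)
    (hr : Rch2 q β ω P R) :
    ∃ K θ : ℝ, 0 ≤ K ∧ 0 < θ ∧ θ < 1 ∧ ∀ a : ℕ, ∃ B : Finset ℕ,
      (B.card : ℝ) ≤ K * θ ^ a * 2 ^ a ∧ ∀ r < 2 ^ a, r ∉ B → ∀ h c z c' z' : ℕ, c ≤ P →
        z < q ^ h → c' ≤ R → z' < q ^ h → ∀ l ∈ LL q β ω, ∀ l' ∈ LL q β ω,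
        |av q (lg q (2 * a) + 1) (nf_g q P R h c z c' z' r β (β ω) 1 1) -
          av q (lg q (2 * a) + 1) (nf_g q P R h c z c' z' r β (β ω) l l')| ≤ K * θ ^ a := by
  obtain ⟨W, w, κ, hW, hw, hκ0, hκ1, hfin⟩ := fin_local hq hβ hω hP1 hR1 hr
  obtain ⟨cc, ρ, hcc, hρ0, hρ1, htyp⟩ := typical hq hW hw
  set g := Nat.clog 2 q with hg
  have hqg : q ≤ 2 ^ g := Nat.le_pow_clog (by norm_num) q
  have hg1 : 1 ≤ g := by
    by_contra h
    have : g = 0 := by omega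
    rw [this] at hqg
    omega
  set G := W * g with hG
  have hG1 : 1 ≤ G := Nat.mul_pos hW hg1
  have hκ' : 0 < (1 - κ) ^ cc ∧ (1 - κ) ^ cc < 1 :=
    ⟨Real.rpow_pos_of_pos (by linarith) _, Real.rpow_lt_one (by linarith) (by linarith) hcc⟩
  obtain ⟨θ₁, hθ₁0, hθ₁1, hθ₁⟩ := mi_rate hρ0 hρ1 hG1
  obtain ⟨θ₂, hθ₂0, hθ₂1, hθ₂⟩ := mi_rate hκ'.1 hκ'.2 hG1
  set Θ := max θ₁ θ₂ with hΘ
  have hΘ0 : 0 < Θ := lt_max_of_lt_left hθ₁0
  have hΘ1 : Θ < 1 := max_lt hθ₁1 hθ₂1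
  set K₁ := 2 * ρ⁻¹ with hK₁
  set K₂ := 2 * ((1 - κ) ^ cc)⁻¹ with hK₂
  have h1 : 0 ≤ K₁ := by positivity
  have h2 : 0 ≤ K₂ := by
    have := hκ'.1
    positivity
  refine ⟨K₁ + K₂, Θ, by positivity, hΘ0, hΘ1, ?_⟩
  intro a
  have hN : a + 1 ≤ G * (a / G + 1) := by
    have := Nat.lt_mul_div_succ a (show 0 < G by omega)
    omega
  have hX : q ^ (W * (a / G)) ≤ 2 ^ a := by
    calc q ^ (W * (a / G)) ≤ (2 ^ g) ^ (W * (a / G)) := Nat.pow_le_pow_left hqg _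
      _ = 2 ^ (G * (a / G)) := by rw [← pow_mul, hG]; congr 1; ring
      _ ≤ 2 ^ a := Nat.pow_le_pow_right (by norm_num) (Nat.mul_div_le a G)
  have e3 : θ₁ ^ a ≤ Θ ^ a := pow_le_pow_left₀ hθ₁0.le (le_max_left _ _) a
  have e4 : θ₂ ^ a ≤ Θ ^ a := pow_le_pow_left₀ hθ₂0.le (le_max_right _ _) a
  refine ⟨(Finset.range (2 ^ a)).filter (fun r => (cnt q W (a / G) w (r / q ^ 0) : ℝ) <
    cc * ((a / G : ℕ) : ℝ)), ?_, ?_⟩
  · refine (htyp 0 (a / G) (2 ^ a) (by rw [zero_add]; exact hX)).trans ?_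
    push_cast
    have e1 := hθ₁ a (a / G) hN
    calc 2 * ρ ^ (a / G) * 2 ^ a ≤ 2 * (ρ⁻¹ * θ₁ ^ a) * 2 ^ a := by gcongr
      _ ≤ 2 * (ρ⁻¹ * Θ ^ a) * 2 ^ a := by gcongr
      _ = K₁ * Θ ^ a * 2 ^ a := by rw [hK₁]; ring
      _ ≤ (K₁ + K₂) * Θ ^ a * 2 ^ a := by gcongr; linarith
  · intro r hr hrB h c z c' z' hc hz hc' hz' l hl l' hl'
    have hcnt : cc * ((a / G : ℕ) : ℝ) ≤ cnt q W (a / G) w r := by
      by_contra hcon
      push Not at hcon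
      apply hrB
      rw [Finset.mem_filter, Finset.mem_range]
      refine ⟨hr, ?_⟩
      rw [pow_zero, Nat.div_one]
      exact hcon
    have hL : W * (a / G) ≤ lg q (2 * a) + 1 := by
      have : W * (a / G) ≤ lg q (2 * a) := by
        unfold lg
        refine Nat.le_log_of_pow_le (by omega) (hX.trans ?_)
        exact Nat.pow_le_pow_right (by norm_num) (by omega)
      omega
    have hSt : St q P R h c c c' c' z z z' z' :=
      ⟨by omega, by omega, by omega, by omega, hz, hz, hz', hz'⟩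
    obtain ⟨k, hk, hlk, hkl⟩ := LL_inv hq hβ hω hl
    obtain ⟨k', hk', hlk', hkl'⟩ := LL_inv hq hβ hω hl'
    have key := hfin (a / G) (lg q (2 * a) + 1) r hL h 0 c c c' c' z z z' z' hSt
      (fun x₁ x₂ x₃ x₄ => bi (x₁ = x₂ ∧ x₃ = x₄))
      (fun x₁ x₂ x₃ x₄ => by
        obtain ⟨b1, b2⟩ := nf_bi_bd (x₁ = x₂ ∧ x₃ = x₄)
        exact abs_le.2 ⟨by linarith, b2⟩) k hk k' hk'
    have E1 : IncF q P R β r h (lg q (2 * a) + 1) 0 c c c' c' z z z' z'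
        (fun x₁ x₂ x₃ x₄ => bi (x₁ * β ω = x₂ * β ω ∧ x₃ * β ω = x₄ * β ω)) =
        av q (lg q (2 * a) + 1) (nf_g q P R h c z c' z' r β (β ω) 1 1) := by
      unfold IncF nf_g
      refine av_congr fun n _ => ?_
      simp only [mul_zero, zero_add, mul_one]
    have E2 : IncF q P R β r h (lg q (2 * a) + 1) 0 c c c' c' z z z' z'
        (fun x₁ x₂ x₃ x₄ => bi (x₁ * β ω * k = x₂ * β ω ∧ x₃ * β ω * k' = x₄ * β ω)) =
        av q (lg q (2 * a) + 1) (nf_g q P R h c z c' z' r β (β ω) l l') := by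
      unfold IncF nf_g
      refine av_congr fun n _ => nf_bi_congr ?_
      simp only [mul_zero, zero_add]
      have hinv : ∀ {l k : S}, l * k = β ω → k * l = β ω → l ∈ LL q β ω → ∀ x y : S,
          (x * β ω * k = y * β ω ↔ x * β ω = y * β ω * l) := by
        intro l k h1 h2 h3 x y
        constructor
        · intro e
          rw [← e, mul_assoc (x * β ω), h2, mul_assoc, hω.idem]
        · intro e
          rw [e, mul_assoc (y * β ω), h1, mul_assoc, hω.idem]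
      rw [hinv hlk hkl hl, hinv hlk' hkl' hl']
    rw [E1, E2] at key
    refine key.trans ?_
    have hpow : (1 - κ) ^ cnt q W (a / G) w r ≤ ((1 - κ) ^ cc) ^ (a / G) := by
      rw [← Real.rpow_natCast (1 - κ), ← Real.rpow_natCast ((1 - κ) ^ cc),
        ← Real.rpow_mul (by linarith)]
      exact Real.rpow_le_rpow_of_exponent_ge (by linarith) (by linarith) hcnt
    have e1 := hθ₂ a (a / G) hN
    have hk2 : 0 < ((1 - κ) ^ cc)⁻¹ := inv_pos.2 hκ'.1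
    calc 2 * (1 - κ) ^ cnt q W (a / G) w r ≤ 2 * ((1 - κ) ^ cc) ^ (a / G) := by gcongr
      _ ≤ 2 * (((1 - κ) ^ cc)⁻¹ * θ₂ ^ a) := by gcongr
      _ ≤ 2 * (((1 - κ) ^ cc)⁻¹ * Θ ^ a) := by gcongr
      _ = K₂ * Θ ^ a := by rw [hK₂]; ring
      _ ≤ (K₁ + K₂) * Θ ^ a := by gcongr; linarith

section several

variable {ι : Type*} [Fintype ι] [DecidableEq ι] {q : ι → ℕ} {m : ℕ} {d : ι → ℕ}
  {S : ι → Type*} [∀ i, Monoid (S i)] [∀ i, Finite (S i)]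
  {β : ∀ i, ℕ → S i} {ω : ι → ℕ} {e : ∀ i, ℕ → Fin (d i) → ℤ} {C : ℝ}
  {Λ : ∀ i, AddSubgroup (Fin (d i) → ℤ)} {N' : ℕ} {u : ∀ i, S i → (Fin (d i) → ℤ) ⧸ Λ i}

theorem nf_prod (h r : ℕ) (P R c z c' z' : ι → ℕ) (V V' : ∀ i, S i) (x : ℕ) :
    bi (BW q β ω h P c z (x + r) = BW q β ω h P c z x * V ∧
      BW q β ω h R c' z' (x + r) = BW q β ω h R c' z' x * V') =
    ∏ i, nf_g (q i) (P i) (R i) h (c i) (z i) (c' i) (z' i) r (β i) (β i (ω i)) (V i) (V' i) x := by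
  classical
  by_cases hall : BW q β ω h P c z (x + r) = BW q β ω h P c z x * V ∧
      BW q β ω h R c' z' (x + r) = BW q β ω h R c' z' x * V'
  · have h1 : ∀ i ∈ Finset.univ, nf_g (q i) (P i) (R i) h (c i) (z i) (c' i) (z' i) r (β i)
        (β i (ω i)) (V i) (V' i) x = 1 := by
      intro i _
      unfold nf_g bi
      rw [if_pos]
      exact ⟨congrFun hall.1 i, congrFun hall.2 i⟩
    rw [Finset.prod_eq_one h1]
    unfold bi
    rw [if_pos hall]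
  · have h1 : ∃ i, ¬ (β i (sd (q i) h (P i) (c i) (z i) (x + r)) * β i (ω i) =
        β i (sd (q i) h (P i) (c i) (z i) x) * β i (ω i) * V i ∧
        β i (sd (q i) h (R i) (c' i) (z' i) (x + r)) * β i (ω i) =
        β i (sd (q i) h (R i) (c' i) (z' i) x) * β i (ω i) * V' i) := by
      by_contra hcon
      push Not at hcon
      exact hall ⟨funext fun i => (hcon i).1, funext fun i => (hcon i).2⟩
    obtain ⟨i, hi⟩ := h1
    rw [Finset.prod_eq_zero (Finset.mem_univ i)]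
    · unfold bi
      rw [if_neg hall]
    · unfold nf_g bi
      rw [if_neg hi]

/-- N11 (NIncrF.lean): collisions, finite directions -/
theorem incr_lawF (Sy : NSys q m β ω e C Λ N' u) {P R : ι → ℕ} (hPR : MulN q m β ω P R)
    (i₀ : ι) :
    ∃ K θ : ℝ, 0 ≤ K ∧ 0 < θ ∧ θ < 1 ∧ ∀ h a k : ℕ, (4 * Fintype.card ι + 4) * a ≤ k →
      ∃ B : Finset ℕ, (B.card : ℝ) ≤ K * θ ^ a * 2 ^ a ∧ ∀ r < 2 ^ a, r ∉ B →
      ∀ (u₀ : ℕ) (c z c' z' : ι → ℕ), Bd q h P c z → Bd q h R c' z' →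
      ∀ l ∈ LL (q i₀) (β i₀) (ω i₀), ∀ l' ∈ LL (q i₀) (β i₀) (ω i₀),
        |av 2 k (fun n =>
          bi (BW q β ω h P c z (u₀ + n + r) = BW q β ω h P c z (u₀ + n) ∧
            BW q β ω h R c' z' (u₀ + n + r) = BW q β ω h R c' z' (u₀ + n)) -
          bi (BW q β ω h P c z (u₀ + n + r) = BW q β ω h P c z (u₀ + n) * Pi.mulSingle i₀ l ∧
            BW q β ω h R c' z' (u₀ + n + r) =
              BW q β ω h R c' z' (u₀ + n) * Pi.mulSingle i₀ l'))| ≤ K * θ ^ a := by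
  have hq := Sy.sys.base
  have hdep := fun i => nf_dep (hq i) (Sy.qm i) (Sy.core i) (e := e i)
    (fun a y s hs => (Sy.sys.qv i).gap a y s hs) (hPR.mul.cP i) (hPR.mul.cR i)
  choose K θ hK hθ0 hθ1 hD using hdep
  have hR1 : ∀ i, 1 ≤ R i := by
    intro i
    have h1 := hPR.mul.le i
    have h2 := hPR.mul.one i
    have h3 : 1 ≤ q i ^ m := Nat.one_le_pow _ _ (by have := hq i; omega)
    have h4 : 1 ≤ 2 * q i ^ m * P i := Nat.mul_pos (by omega) h2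
    omega
  obtain ⟨K₀, θ₀, hK₀, hθ₀0, hθ₀1, hB⟩ := nf_fin (hq i₀) (Sy.qm i₀) (Sy.core i₀)
    (hPR.mul.one i₀) (hR1 i₀) (hPR.reach i₀)
  obtain ⟨T, hT, hT1, hTi⟩ := mi_unif θ hθ1
  set Θ := max T θ₀ with hΘ
  have hΘ0 : 0 < Θ := lt_max_of_lt_right hθ₀0
  have hΘ1 : Θ < 1 := max_lt hT1 hθ₀1
  have hΘh : (1 : ℝ) / 2 ≤ Θ := hT.trans (le_max_left _ _)
  set K₁ := ∑ i, K i with hK₁
  have hK₁0 : 0 ≤ K₁ := Finset.sum_nonneg fun i _ => hK i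
  have hKi : ∀ i, K i ≤ K₁ := fun i => Finset.single_le_sum (fun j _ => hK j) (Finset.mem_univ i)
  have hs0 : (0 : ℝ) ≤ ∑ i, (1 + (q i : ℝ)) := Finset.sum_nonneg fun i _ => by positivity
  have hp0 : (0 : ℝ) ≤ ∏ i, (q i : ℝ) := Finset.prod_nonneg fun i _ => Nat.cast_nonneg _
  refine ⟨K₀ + 2 * ((∑ i, (1 + (q i : ℝ))) * K₁ + 2 * ∏ i, (q i : ℝ)), Θ, by positivity, hΘ0,
    hΘ1, ?_⟩
  intro h a k hk
  obtain ⟨B, hBc, hB⟩ := hB a
  choose D hDc hD using fun i => hD i a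
  have hθa : θ₀ ^ a ≤ Θ ^ a := pow_le_pow_left₀ hθ₀0.le (le_max_right _ _) a
  refine ⟨B, ?_, ?_⟩
  · refine hBc.trans ?_
    have h2 : (0 : ℝ) ≤ 2 * ((∑ i, (1 + (q i : ℝ))) * K₁ + 2 * ∏ i, (q i : ℝ)) := by positivity
    calc K₀ * θ₀ ^ a * 2 ^ a ≤ K₀ * Θ ^ a * 2 ^ a := by gcongr
      _ ≤ _ := by gcongr; linarith
  · intro r hr hrB u₀ c z c' z' hc hc' l hl l' hl'
    set g : ι → ℕ → ℝ := fun i => nf_g (q i) (P i) (R i) h (c i) (z i) (c' i) (z' i) r (β i)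
      (β i (ω i)) 1 1 with hg
    set g' : ι → ℕ → ℝ := fun i => nf_g (q i) (P i) (R i) h (c i) (z i) (c' i) (z' i) r (β i)
      (β i (ω i)) ((Pi.mulSingle i₀ l : ∀ i, S i) i) ((Pi.mulSingle i₀ l' : ∀ i, S i) i) with hg'
    have hDD : ∀ i n, n % q i ^ (lg (q i) (2 * a) + 1) ∉ D i → ∀ E l l' : S i,
        nf_g (q i) (P i) (R i) h (c i) (z i) (c' i) (z' i) r (β i) E l l' n =
        nf_g (q i) (P i) (R i) h (c i) (z i) (c' i) (z' i) r (β i) E l l'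
          (n % q i ^ (lg (q i) (2 * a) + 1)) := by
      intro i n hn E l l'
      unfold nf_g
      refine nf_bi_congr ?_
      have h1 := hD i n r h (c i) (z i) (c' i) (z' i) hr.le hn (hc.cle i) (hc.zlt i) (hc'.cle i)
        (hc'.zlt i)
      rw [mul_assoc, mul_assoc, mul_assoc, mul_assoc, (h1 E (E * l)).1, (h1 E (E * l')).2]
    have key := coll_law hq Sy.sys.cop i₀ hk (g := g) (g' := g')
      (fun i n => nf_bi_bd _) (fun i n => nf_bi_bd _)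
      (fun i hi => by
        simp only [hg, hg']
        rw [Pi.mulSingle_eq_of_ne hi, Pi.mulSingle_eq_of_ne hi])
      D (η := K₁ * Θ ^ a) (by positivity)
      (fun i n hn => ⟨hDD i n hn _ _ _, hDD i n hn _ _ _⟩)
      (fun i => (hDc i).trans (by
        have h1 : θ i ^ a ≤ Θ ^ a :=
          pow_le_pow_left₀ (hθ0 i).le ((hTi i).trans (le_max_left _ _)) a
        have h2 := hKi i
        have h3 := hK i
        have h4 : 0 ≤ θ i ^ a := pow_nonneg (hθ0 i).le a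
        refine mul_le_mul_of_nonneg_right ?_ (Nat.cast_nonneg _)
        exact mul_le_mul h2 h1 h4 hK₁0)) u₀
    have E1 : av 2 k (fun n =>
          bi (BW q β ω h P c z (u₀ + n + r) = BW q β ω h P c z (u₀ + n) ∧
            BW q β ω h R c' z' (u₀ + n + r) = BW q β ω h R c' z' (u₀ + n)) -
          bi (BW q β ω h P c z (u₀ + n + r) = BW q β ω h P c z (u₀ + n) * Pi.mulSingle i₀ l ∧
            BW q β ω h R c' z' (u₀ + n + r) =
              BW q β ω h R c' z' (u₀ + n) * Pi.mulSingle i₀ l')) =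
        av 2 k (fun n => ∏ i, g i (u₀ + n)) - av 2 k (fun n => ∏ i, g' i (u₀ + n)) := by
      rw [← av_sub]
      refine av_congr fun n _ => ?_
      rw [nf_prod h r P R c z c' z' (Pi.mulSingle i₀ l) (Pi.mulSingle i₀ l') (u₀ + n)]
      congr 1
      have := nf_prod (q := q) (β := β) (ω := ω) h r P R c z c' z' 1 1 (u₀ + n)
      rw [mul_one, mul_one] at this
      exact this
    rw [E1]
    refine key.trans ?_
    have hfst : (∏ i ∈ Finset.univ.erase i₀, av (q i) (lg (q i) (2 * a) + 1) (g i)) *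
        |av (q i₀) (lg (q i₀) (2 * a) + 1) (g i₀) -
          av (q i₀) (lg (q i₀) (2 * a) + 1) (g' i₀)| ≤ K₀ * Θ ^ a := by
      have h1 : ∏ i ∈ Finset.univ.erase i₀, av (q i) (lg (q i) (2 * a) + 1) (g i) ≤ 1 := by
        refine Finset.prod_le_one (fun i _ => av_nonneg fun n _ => (nf_bi_bd _).1) fun i _ => ?_
        exact av_le (hq i) fun n _ => (nf_bi_bd _).2
      have h2 : |av (q i₀) (lg (q i₀) (2 * a) + 1) (g i₀) -
          av (q i₀) (lg (q i₀) (2 * a) + 1) (g' i₀)| ≤ K₀ * θ₀ ^ a := by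
        have := hB r hr hrB h (c i₀) (z i₀) (c' i₀) (z' i₀) (hc.cle i₀) (hc.zlt i₀) (hc'.cle i₀)
          (hc'.zlt i₀) l hl l' hl'
        simp only [hg, hg']
        rw [Pi.mulSingle_eq_same, Pi.mulSingle_eq_same]
        exact this
      calc _ ≤ 1 * |av (q i₀) (lg (q i₀) (2 * a) + 1) (g i₀) -
          av (q i₀) (lg (q i₀) (2 * a) + 1) (g' i₀)| := by gcongr
        _ ≤ 1 * (K₀ * θ₀ ^ a) := by gcongr
        _ ≤ K₀ * Θ ^ a := by rw [one_mul]; gcongr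
    have hhalf : (1 / 2 : ℝ) ^ a ≤ Θ ^ a := pow_le_pow_left₀ (by norm_num) hΘh a
    have hsec : 2 * ((∑ i, (1 + (q i : ℝ))) * (K₁ * Θ ^ a) + 2 * (∏ i, (q i : ℝ)) * (1 / 2) ^ a) ≤
        2 * ((∑ i, (1 + (q i : ℝ))) * K₁ + 2 * ∏ i, (q i : ℝ)) * Θ ^ a := by
      have : 2 * (∏ i, (q i : ℝ)) * (1 / 2) ^ a ≤ 2 * (∏ i, (q i : ℝ)) * Θ ^ a := by gcongr
      nlinarith
    calc _ ≤ K₀ * Θ ^ a + 2 * ((∑ i, (1 + (q i : ℝ))) * K₁ + 2 * ∏ i, (q i : ℝ)) * Θ ^ a :=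
          add_le_add hfst hsec
      _ = _ := by ring

end several

end Pool.Agent.Lib.MP_3e612f_nt.NB
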