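import Pool.Agent.Lib.MP_3e612f_nt.NWin
import Pool.Agent.Lib.MP_3e612f_nt.MLocal

/-!
Local bounds for the law of the increments with finite parts, for a fixed increase of the argument
(task N2).
-/

set_option autoImplicit false

namespace Pool.Agent.Lib.MP_3e612f_nt.NB

open Filter Topology
open Pool.Agent.Lib.MP_3e612f_nt.QA Pool.Agent.Lib.MP_3e612f_nt.SA Pool.Agent.Lib.MP_3e612f_nt.MB

namespace LocalB

open Pool.Agent.Lib.MP_3e612f_nt.MB.Local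

section ops

variable {H : Type*} [AddCommGroup H]

theorem B_smul (v v' : H) (a : ℝ) (F : H → H → ℝ) :
    q1_B v v' (fun x x' => a * F x x') = fun x x' => a * q1_B v v' F x x' := by
  funext x x'
  unfold q1_B
  ring

theorem Biter_smul (v v' : H) (j : ℕ) (a : ℝ) (F : H → H → ℝ) :
    (q1_B v v')^[j] (fun x x' => a * F x x') = fun x x' => a * (q1_B v v')^[j] F x x' := by
  induction j with
  | zero => rfl
  | succ j ih => rw [Function.iterate_succ_apply', ih, B_smul, Function.iterate_succ_apply']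

theorem it_smul (V : ℕ → H × H) (J : ℕ → ℕ) (n : ℕ) (a : ℝ) (F : H → H → ℝ) :
    it V J n (fun x x' => a * F x x') = fun x x' => a * it V J n F x x' := by
  induction n with
  | zero => rfl
  | succ n ih => rw [it_succ, it_succ, ih, Biter_smul]

end ops

section multi

variable {S H : Type*} [Monoid S] [AddCommGroup H]

/-- the conclusion of the lemma on windows -/
def WinPB (q P R : ℕ) (β : ℕ → S) (e : ℕ → H) (W ω : ℕ) (κ : ℝ) (v v' : H) : Prop :=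
  ∀ (N L r : ℕ) (φ : S → S → S → S → H → H → ℝ) (β₀ : ℝ), 0 ≤ β₀ → W * N ≤ L →
      (∀ j h y c c₁ d d₁ z z₁ t t₁ : ℕ, St q P R h c c₁ d d₁ z z₁ t t₁ →
        ∀ (b₁ b₂ b₃ b₄ : S) (s s' : H),
        |IncB q P R β e (r / q ^ (W * N)) h (L - W * N) y c c₁ d d₁ z z₁ t t₁
          (fun x₁ x₂ x₃ x₄ => q1_T s s' ((q1_B v v')^[j]
            (φ (x₁ * b₁) (x₂ * b₂) (x₃ * b₃) (x₄ * b₄))))| ≤ β₀ * Real.sqrt (1 / (j + 1))) →
      ∀ j h y c c₁ d d₁ z z₁ t t₁ : ℕ, St q P R h c c₁ d d₁ z z₁ t t₁ →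
        ∀ (b₁ b₂ b₃ b₄ : S) (s s' : H),
        |IncB q P R β e r h L y c c₁ d d₁ z z₁ t t₁
          (fun x₁ x₂ x₃ x₄ => q1_T s s' ((q1_B v v')^[j]
            (φ (x₁ * b₁) (x₂ * b₂) (x₃ * b₃) (x₄ * b₄))))| ≤
          β₀ * Real.sqrt (1 / (j + 1 + κ * cnt q W N ω r))

theorem multiB {q P R : ℕ} (hq : 2 ≤ q) {β : ℕ → S} {e : ℕ → H} {W N : ℕ} (n : ℕ) :
    ∀ (V : ℕ → H × H) (ω : ℕ → ℕ) (κ : ℕ → ℝ) (φ : S → S → S → S → H → H → ℝ) (β₀ : ℝ) (L r : ℕ),
      0 ≤ β₀ →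
      (∀ i < n, 0 ≤ κ i) → (∀ i < n, WinPB q P R β e W (ω i) (κ i) (V i).1 (V i).2) →
      W * N * n ≤ L →
      (∀ J x₁ x₂ x₃ x₄ x x', |it V J n (φ x₁ x₂ x₃ x₄) x x'| ≤
        β₀ * ∏ i ∈ Finset.range n, Real.sqrt (1 / (J i + 1))) →
      ∀ h y c c₁ d d₁ z z₁ t t₁ : ℕ, St q P R h c c₁ d d₁ z z₁ t t₁ →
        ∀ (b₁ b₂ b₃ b₄ : S) (s s' : H),
        |IncB q P R β e r h L y c c₁ d d₁ z z₁ t t₁
          (fun x₁ x₂ x₃ x₄ => q1_T s s' (φ (x₁ * b₁) (x₂ * b₂) (x₃ * b₃) (x₄ * b₄)))| ≤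
          β₀ * ∏ i ∈ Finset.range n,
            Real.sqrt (1 / (1 + κ i * cnt q W N (ω i) (r / q ^ (W * N * i)))) := by
  induction n with
  | zero =>
    intro V ω κ φ β₀ L r hβ₀ _ _ _ hbase h y c c₁ d d₁ z z₁ t t₁ _ b₁ b₂ b₃ b₄ s s'
    have hb := fun x₁ x₂ x₃ x₄ x x' => hbase (fun _ => 0) x₁ x₂ x₃ x₄ x x'
    simp only [it_zero, Finset.range_zero, Finset.prod_empty, mul_one] at hb ⊢
    exact abs_av_le hq fun n _ => hb _ _ _ _ _ _
  | succ n ih =>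
    intro V ω κ φ β₀ L r hβ₀ hκ hV hL hbase h y c c₁ d d₁ z z₁ t t₁ hS b₁ b₂ b₃ b₄ s s'
    have hL1 : W * N ≤ L := by
      refine le_trans ?_ hL
      exact Nat.le_mul_of_pos_right _ (Nat.succ_pos n)
    set β₁ : ℝ := β₀ * ∏ i ∈ Finset.range n, Real.sqrt (1 / (1 + κ (i + 1) *
      cnt q W N (ω (i + 1)) (r / q ^ (W * N) / q ^ (W * N * i)))) with hβ₁
    have hβ₁n : 0 ≤ β₁ := mul_nonneg hβ₀ (Finset.prod_nonneg fun i _ => Real.sqrt_nonneg _)
    have key := hV 0 (Nat.succ_pos n) N L r φ β₁ hβ₁n hL1 ?_ 0 h y c c₁ d d₁ z z₁ t t₁ hS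
      b₁ b₂ b₃ b₄ s s'
    · simp only [Function.iterate_zero_apply] at key
      refine key.trans (le_of_eq ?_)
      rw [Finset.prod_range_succ', hβ₁, ← mul_assoc]
      have e1 : ∀ i, r / q ^ (W * N) / q ^ (W * N * i) = r / q ^ (W * N * (i + 1)) := by
        intro i
        rw [Nat.div_div_eq_div_mul, ← pow_add]
        congr 2
        ring
      simp only [e1, mul_zero, pow_zero, Nat.div_one, Nat.cast_zero, zero_add]
    · intro j h y c c₁ d d₁ z z₁ t t₁ hS b₁ b₂ b₃ b₄ s s'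
      have h0 : 0 ≤ β₀ * Real.sqrt (1 / (j + 1)) := mul_nonneg hβ₀ (Real.sqrt_nonneg _)
      refine (ih (fun i => V (i + 1)) (fun i => ω (i + 1)) (fun i => κ (i + 1))
        (fun x₁ x₂ x₃ x₄ => (q1_B (V 0).1 (V 0).2)^[j] (φ x₁ x₂ x₃ x₄))
        (β₀ * Real.sqrt (1 / (j + 1))) (L - W * N)
        (r / q ^ (W * N)) h0 (fun i hi => hκ _ (by omega)) (fun i hi => hV _ (by omega)) ?_ ?_
        h y c c₁ d d₁ z z₁ t t₁ hS b₁ b₂ b₃ b₄ s s').trans (le_of_eq ?_)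
      · have : W * N * (n + 1) = W * N * n + W * N := by ring
        omega
      · intro J x₁ x₂ x₃ x₄ x x'
        have := hbase (fun i => if i = 0 then j else J (i - 1)) x₁ x₂ x₃ x₄ x x'
        rw [it_succ'] at this
        simp only [Nat.add_eq_zero_iff, one_ne_zero, and_false, if_false, Nat.add_sub_cancel,
          if_true] at this
        rw [Finset.prod_range_succ'] at this
        simp only [Nat.add_eq_zero_iff, one_ne_zero, and_false, if_false, Nat.add_sub_cancel,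
          if_true] at this
        refine this.trans (le_of_eq ?_)
        ring
      · rw [hβ₁]
        ring

end multi

end LocalB

open LocalB Pool.Agent.Lib.MP_3e612f_nt.MB.Local

/-- N2: local bounds for a fixed increase of the argument -/
theorem local_fixedB {S : Type*} [Monoid S] {q m d : ℕ} (hq : 2 ≤ q) {β : ℕ → S}
    (hβ : QM q m β) {e : ℕ → Fin d → ℤ}
    (he : ∀ a y s : ℕ, s < q ^ a → e (q ^ (a + m) * y + s) = e y + e s)
    {Λ : AddSubgroup (Fin d → ℤ)} {N' : ℕ} (hN : 1 ≤ N') (hΛ : ∀ v : Fin d → ℤ, N' • v ∈ Λ)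
    (hex : Exch q m β e Λ) {P R : ℕ} (hP : P.Coprime q) (hR : R.Coprime q)
    (hPR : 2 * q ^ m * P ≤ R) (hP1 : 1 ≤ P) (hPd : (q - 1) ∣ P) (hRd : (q - 1) ∣ R)
    {w w' : Fin d → ℤ} (hw : w ∈ Λ) (hw' : w' ∈ Λ) :
    ∃ (W : ℕ) (ω : Fin (2 * d + 1) → ℕ) (C : ℝ), 1 ≤ W ∧ (∀ j, ω j < q ^ W) ∧ 0 ≤ C ∧
      ∀ N K L r : ℕ, W * N * (2 * d + 1) ≤ L →
      (∀ j : Fin (2 * d + 1), K ≤ cnt q W N (ω j) (r / q ^ (W * N * j))) →
      ∀ h y c c₁ d₀ d₁ z z₁ t t₁ : ℕ, St q P R h c c₁ d₀ d₁ z z₁ t t₁ →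
      ∀ f : S → S → S → S → ℝ, (∀ x₁ x₂ x₃ x₄, |f x₁ x₂ x₃ x₄| ≤ 1) → ∀ u u' : Fin d → ℤ,
        |IncB q P R β e r h L y c c₁ d₀ d₁ z z₁ t t₁
          (fun x₁ x₂ x₃ x₄ v v' => f x₁ x₂ x₃ x₄ * ind u u' v v')| ≤
          C / Real.sqrt (K + 1) ^ (2 * d) ∧
        |IncB q P R β e r h L y c c₁ d₀ d₁ z z₁ t t₁
          (fun x₁ x₂ x₃ x₄ v v' => f x₁ x₂ x₃ x₄ * ind u u' v v') -
          IncB q P R β e r h L y c c₁ d₀ d₁ z z₁ t t₁
          (fun x₁ x₂ x₃ x₄ v v' => f x₁ x₂ x₃ x₄ * ind (u + w) (u' + w') v v')| ≤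
          C / Real.sqrt (K + 1) ^ (2 * d + 1) := by
  have hqm : 1 ≤ q ^ m := Nat.one_le_pow _ _ (by omega)
  have hR1 : 1 ≤ R := by
    refine le_trans ?_ hPR
    have : 1 * 1 * 1 ≤ 2 * q ^ m * P := Nat.mul_le_mul (Nat.mul_le_mul (by omega) hqm) hP1
    simpa using this
  -- the directions lie in the group of defects
  have hdir : ∀ i, (dir N' w w' i).1 ∈ Λ ∧ (dir N' w w' i).2 ∈ Λ := by
    have hcv : ∀ i, cv d N' i ∈ Λ := by
      intro i
      have := hΛ (fun a : Fin d => if (a : ℕ) = i then (1 : ℤ) else 0)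
      convert this using 1
      funext a
      simp [cv]
    intro i
    unfold dir
    split_ifs
    · exact ⟨hcv _, AddSubgroup.zero_mem _⟩
    · exact ⟨AddSubgroup.zero_mem _, hcv _⟩
    · exact ⟨hw, hw'⟩
  have hwin : ∀ i, ∃ W₀ : ℕ, ∀ W ≥ W₀, ∃ ω < q ^ W, ∃ κ : ℝ, 0 < κ ∧ κ ≤ 1 ∧
      WinPB q P R β e W ω κ (dir N' w w' i).1 (dir N' w w' i).2 := by
    intro i
    obtain ⟨ρ, x, x', hx, h1, h2, h3, h4, hv, hv'⟩ := hex P R hP hR hPR hP1 hPd hRd
      _ (hdir i).1 _ (hdir i).2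
    exact windowsB hq hβ he hP1 hR1 hx h1 h2 h3 h4 hv hv'
  choose W₀ hW₀ using hwin
  set W := (∑ i ∈ Finset.range (2 * d + 1), W₀ i) + 1 with hW
  have hWle : ∀ i < 2 * d + 1, W₀ i ≤ W := by
    intro i hi
    have := Finset.single_le_sum (f := W₀) (fun j _ => Nat.zero_le _) (Finset.mem_range.2 hi)
    omega
  have hex' : ∀ i, ∃ ω : ℕ, ∃ κ : ℝ, i < 2 * d + 1 → ω < q ^ W ∧ 0 < κ ∧ κ ≤ 1 ∧
      WinPB q P R β e W ω κ (dir N' w w' i).1 (dir N' w w' i).2 := by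
    intro i
    by_cases hi : i < 2 * d + 1
    · obtain ⟨ω, h1, κ, h2, h3, h4⟩ := hW₀ i W (hWle i hi)
      exact ⟨ω, κ, fun _ => ⟨h1, h2, h3, h4⟩⟩
    · exact ⟨0, 0, fun h => absurd h hi⟩
  choose ω κ hωκ using hex'
  set C : ℝ := 2 ^ (2 * d + 1) * ∏ i ∈ Finset.range (2 * d + 1), (1 / Real.sqrt (κ i)) with hC
  have hC0 : 0 ≤ C := by positivity
  refine ⟨W, fun j => ω j, C, by omega, fun j => (hωκ j j.2).1, hC0, ?_⟩
  intro N K L r hL hK h y c c₁ d₀ d₁ z z₁ t t₁ hS f hf u u'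
  -- the numerical bound
  have hnum : ∀ i < 2 * d + 1, Real.sqrt (1 / (1 + κ i * cnt q W N (ω i) (r / q ^ (W * N * i)))) ≤
      1 / Real.sqrt (κ i) * (1 / Real.sqrt (K + 1)) := by
    intro i hi
    obtain ⟨-, h1, h2, -⟩ := hωκ i hi
    have h3 : (K : ℝ) ≤ cnt q W N (ω i) (r / q ^ (W * N * i)) := by
      exact_mod_cast hK ⟨i, hi⟩
    have hK0 : (0 : ℝ) ≤ K := Nat.cast_nonneg K
    have e1 : 1 / Real.sqrt (κ i) * (1 / Real.sqrt (K + 1)) = Real.sqrt (1 / (κ i * (K + 1))) := by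
      rw [Real.sqrt_div zero_le_one, Real.sqrt_one, Real.sqrt_mul h1.le, one_div_mul_one_div]
    rw [e1]
    refine Real.sqrt_le_sqrt (one_div_le_one_div_of_le (by positivity) ?_)
    nlinarith
  have hnum' : ∀ n ≤ 2 * d + 1, ∏ i ∈ Finset.range n,
      Real.sqrt (1 / (1 + κ i * cnt q W N (ω i) (r / q ^ (W * N * i)))) ≤
      (∏ i ∈ Finset.range (2 * d + 1), (1 / Real.sqrt (κ i))) / Real.sqrt (K + 1) ^ n := by
    intro n hn
    have h1 : ∏ i ∈ Finset.range n,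
        Real.sqrt (1 / (1 + κ i * cnt q W N (ω i) (r / q ^ (W * N * i)))) ≤
        ∏ i ∈ Finset.range n, (1 / Real.sqrt (κ i) * (1 / Real.sqrt (K + 1))) :=
      Finset.prod_le_prod (fun i _ => Real.sqrt_nonneg _)
        fun i hi => hnum i (by have := Finset.mem_range.1 hi; omega)
    refine h1.trans ?_
    rw [Finset.prod_mul_distrib, Finset.prod_const, Finset.card_range, one_div_pow,
      mul_one_div]
    refine div_le_div_of_nonneg_right ?_ (by positivity)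
    rw [← Finset.prod_range_mul_prod_Ico _ hn]
    refine le_mul_of_one_le_right (Finset.prod_nonneg fun i _ => by positivity) ?_
    have h2 : ∏ i ∈ Finset.Ico n (2 * d + 1), (1 : ℝ) ≤
        ∏ i ∈ Finset.Ico n (2 * d + 1), (1 / Real.sqrt (κ i)) := by
      refine Finset.prod_le_prod (fun _ _ => zero_le_one) fun i hi => ?_
      obtain ⟨-, h3, h4, -⟩ := hωκ i (Finset.mem_Ico.1 hi).2
      rw [one_le_div (Real.sqrt_pos.2 h3)]
      exact Real.sqrt_le_one.2 h4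
    rwa [Finset.prod_const_one] at h2
  have hprod : ∀ (n : ℕ) (J : ℕ → ℕ), ∏ i ∈ Finset.range n, (2 / Real.sqrt (J i + 1)) =
      2 ^ n * ∏ i ∈ Finset.range n, Real.sqrt (1 / (J i + 1)) := by
    intro n J
    have e1 : ∀ i, 2 / Real.sqrt ((J i : ℝ) + 1) = 2 * Real.sqrt (1 / (J i + 1)) := by
      intro i
      rw [Real.sqrt_div zero_le_one, Real.sqrt_one, mul_one_div]
    simp only [e1]
    rw [Finset.prod_mul_distrib, Finset.prod_const, Finset.card_range]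
  have hT : ∀ φ : (Fin d → ℤ) → (Fin d → ℤ) → ℝ, q1_T 0 0 φ = φ := by
    intro φ
    funext x x'
    simp [q1_T]
  have hfun : ∀ (F : (Fin d → ℤ) → (Fin d → ℤ) → ℝ),
      (fun x₁ x₂ x₃ x₄ => q1_T (0 : Fin d → ℤ) 0 ((fun x₁ x₂ x₃ x₄ v v' =>
        f x₁ x₂ x₃ x₄ * F v v') (x₁ * 1) (x₂ * 1) (x₃ * 1) (x₄ * 1))) =
      fun x₁ x₂ x₃ x₄ v v' => f x₁ x₂ x₃ x₄ * F v v' := by
    intro F
    funext x₁ x₂ x₃ x₄
    rw [hT]
    simp only [mul_one]
  constructor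
  · have key := multiB (P := P) (R := R) (N := N) hq (2 * d) (dir N' w w') ω κ
      (fun x₁ x₂ x₃ x₄ v v' => f x₁ x₂ x₃ x₄ * ind u u' v v')
      (2 ^ (2 * d)) L r (by positivity) (fun i hi => (hωκ i (by omega)).2.1.le)
      (fun i hi => (hωκ i (by omega)).2.2.2) (le_trans (Nat.mul_le_mul_left _ (by omega)) hL)
      (fun J x₁ x₂ x₃ x₄ x x' => by
        rw [← hprod, it_smul, abs_mul]
        refine le_trans (mul_le_of_le_one_left (abs_nonneg _) (hf _ _ _ _)) ?_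
        exact (coord_base hN w w' u u' J (2 * d) le_rfl x x').1)
      h y c c₁ d₀ d₁ z z₁ t t₁ hS 1 1 1 1 0 0
    rw [hfun] at key
    refine key.trans ?_
    refine (mul_le_mul_of_nonneg_left (hnum' (2 * d) (by omega)) (by positivity)).trans ?_
    rw [hC, mul_div_assoc]
    refine mul_le_mul_of_nonneg_right ?_ (by positivity)
    exact pow_le_pow_right₀ (by norm_num) (by omega)
  · have key := multiB (P := P) (R := R) (N := N) hq (2 * d + 1) (dir N' w w') ω κ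
      (fun x₁ x₂ x₃ x₄ v v' => f x₁ x₂ x₃ x₄ * q1_D w w' (ind (u + w) (u' + w')) v v')
      (2 ^ (2 * d + 1)) L r (by positivity)
      (fun i hi => (hωκ i (by omega)).2.1.le) (fun i hi => (hωκ i (by omega)).2.2.2) hL
      (fun J x₁ x₂ x₃ x₄ x x' => by
        rw [it_smul]
        dsimp only
        rw [abs_mul]
        refine le_trans (mul_le_of_le_one_left (abs_nonneg _) (hf _ _ _ _)) ?_
        rw [← hprod, it_succ, it_D, Finset.prod_range_succ]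
        have e1 : dir N' w w' (2 * d) = (w, w') := by
          unfold dir
          rw [if_neg (by omega), if_neg (by omega)]
        rw [e1]
        refine iter_D (Finset.prod_pos fun i _ => by positivity) ?_ _ _ _
        intro x x'
        exact (coord_base hN w w' (u + w) (u' + w') J (2 * d) le_rfl x x').1)
      h y c c₁ d₀ d₁ z z₁ t t₁ hS 1 1 1 1 0 0
    rw [hfun] at key
    have e2 : IncB q P R β e r h L y c c₁ d₀ d₁ z z₁ t t₁
          (fun x₁ x₂ x₃ x₄ v v' => f x₁ x₂ x₃ x₄ * ind u u' v v') -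
        IncB q P R β e r h L y c c₁ d₀ d₁ z z₁ t t₁
          (fun x₁ x₂ x₃ x₄ v v' => f x₁ x₂ x₃ x₄ * ind (u + w) (u' + w') v v') =
        -IncB q P R β e r h L y c c₁ d₀ d₁ z z₁ t t₁
          (fun x₁ x₂ x₃ x₄ v v' => f x₁ x₂ x₃ x₄ * q1_D w w' (ind (u + w) (u' + w')) v v') := by
      unfold IncB
      rw [← av_sub, ← av_neg]
      refine av_congr fun n _ => ?_
      simp only [q1_D, ind, add_left_inj]
      ring
    rw [e2, abs_neg]
    refine key.trans ?_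
    refine (mul_le_mul_of_nonneg_left (hnum' (2 * d + 1) le_rfl) (by positivity)).trans ?_
    rw [hC, mul_div_assoc]

end Pool.Agent.Lib.MP_3e612f_nt.NB
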