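import Pool.Agent.Lib.MP_3e612f_nt.SWin
import Pool.Agent.Lib.MP_3e612f_nt.SKer

/-!
Equidistribution of the finite part, for functions which vary slowly in the other part.
-/

set_option autoImplicit false

namespace Pool.Agent.Lib.MP_3e612f_nt.SA

open Filter Topology QA

theorem t5_unif {S : Type*} [Monoid S] [Finite S] {q : ℕ} {β : ℕ → S} {ω : ℕ} {P R : ℕ}
    (hrch : Rch q β ω P R) : ∃ U : ℕ, ∀ n n' : ℕ, ∀ l ∈ LL q β ω, ∀ l' ∈ LL q β ω,
      ∃ u v : ℕ, u ≤ U ∧ v ≤ U ∧ 1 ≤ v ∧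
        β (P * v) * (β (P * u) * (β n * β ω)) = β (P * u) * (β n * β ω) * l ∧
        β (R * v) * (β (R * u) * (β n' * β ω)) = β (R * u) * (β n' * β ω) * l' := by
  have H : ∀ x : S × S × S × S, ∃ U : ℕ, ∀ n n' : ℕ, β n = x.1 → β n' = x.2.1 →
      x.2.2.1 ∈ LL q β ω → x.2.2.2 ∈ LL q β ω → ∃ u v : ℕ, u ≤ U ∧ v ≤ U ∧ 1 ≤ v ∧
        β (P * v) * (β (P * u) * (β n * β ω)) = β (P * u) * (β n * β ω) * x.2.2.1 ∧
        β (R * v) * (β (R * u) * (β n' * β ω)) = β (R * u) * (β n' * β ω) * x.2.2.2 := by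
    rintro ⟨s, s', l, l'⟩
    by_cases h : ∃ n n', β n = s ∧ β n' = s' ∧ l ∈ LL q β ω ∧ l' ∈ LL q β ω
    · obtain ⟨n, n', hn, hn', hl, hl'⟩ := h
      obtain ⟨u, v, hv, h1, h2⟩ := hrch n n' l hl l' hl'
      refine ⟨u + v, fun n₁ n₁' hn₁ hn₁' _ _ => ⟨u, v, by omega, by omega, hv, ?_, ?_⟩⟩
      · rw [show β n₁ = β n from hn₁.trans hn.symm]; exact h1
      · rw [show β n₁' = β n' from hn₁'.trans hn'.symm]; exact h2
    · exact ⟨0, fun n n' hn hn' hl hl' => absurd ⟨n, n', hn, hn', hl, hl'⟩ h⟩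
  choose f hf using H
  obtain ⟨U, hU⟩ := (Set.finite_range f).bddAbove
  refine ⟨U, fun n n' l hl l' hl' => ?_⟩
  obtain ⟨u, v, h1, h2, h3, h4, h5⟩ := hf (β n, β n', l, l') n n' rfl rfl hl hl'
  have h6 : f (β n, β n', l, l') ≤ U := hU ⟨_, rfl⟩
  exact ⟨u, v, h1.trans h6, h2.trans h6, h3, h4, h5⟩

/-- copies of the word `v` -/
def t5_t (Q v : ℕ) : ℕ → ℕ
  | 0 => 0
  | j + 1 => Q * t5_t Q v j + v

theorem t5_t_lt {Q v : ℕ} (hv : v < Q) (j : ℕ) : t5_t Q v j < Q ^ j := by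
  induction j with
  | zero => simp [t5_t]
  | succ j ih =>
    show Q * t5_t Q v j + v < Q ^ (j + 1)
    have h1 : t5_t Q v j + 1 ≤ Q ^ j := ih
    calc Q * t5_t Q v j + v < Q * t5_t Q v j + Q := by omega
      _ = Q * (t5_t Q v j + 1) := by ring
      _ ≤ Q * Q ^ j := Nat.mul_le_mul_left _ h1
      _ = Q ^ (j + 1) := by rw [pow_succ']

theorem t5_t_mono {Q v : ℕ} (hQ : 1 ≤ Q) (hv : 1 ≤ v) : StrictMono (t5_t Q v) := by
  refine strictMono_nat_of_lt_succ fun j => ?_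
  show t5_t Q v j < Q * t5_t Q v j + v
  have := Nat.le_mul_of_pos_left (t5_t Q v j) hQ
  omega

theorem t5_word_β {G : Type*} [Monoid G] {q m a P u v : ℕ} {γ : ℕ → G} (h0 : γ 0 = 1)
    (hγ : ∀ a y s : ℕ, s < q ^ a → γ (q ^ (a + m) * y + s) = γ y * γ s)
    (hu : P * u < q ^ a) (hv : P * v < q ^ a) (j : ℕ) :
    γ (P * (q ^ (a + m) * t5_t (q ^ (a + m)) v j + u)) = γ (P * v) ^ j * γ (P * u) := by
  have h1 : ∀ j, γ (P * t5_t (q ^ (a + m)) v j) = γ (P * v) ^ j := by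
    intro j
    induction j with
    | zero => simp [t5_t, h0]
    | succ j ih =>
      have e1 : P * t5_t (q ^ (a + m)) v (j + 1) =
          q ^ (a + m) * (P * t5_t (q ^ (a + m)) v j) + P * v := by
        show P * (q ^ (a + m) * t5_t (q ^ (a + m)) v j + v) = _
        ring
      rw [e1, hγ _ _ _ hv, ih, pow_succ]
  have e1 : P * (q ^ (a + m) * t5_t (q ^ (a + m)) v j + u) =
      q ^ (a + m) * (P * t5_t (q ^ (a + m)) v j) + P * u := by ring
  rw [e1, hγ _ _ _ hu, h1]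

theorem t5_word_e {H : Type*} [AddCommGroup H] {q m a P u v : ℕ} {γ : ℕ → H}
    (hγ : ∀ a y s : ℕ, s < q ^ a → γ (q ^ (a + m) * y + s) = γ y + γ s)
    (hu : P * u < q ^ a) (hv : P * v < q ^ a) (j : ℕ) :
    γ (P * (q ^ (a + m) * t5_t (q ^ (a + m)) v j + u)) = j • γ (P * v) + γ (P * u) := by
  have h1 : ∀ j, γ (P * t5_t (q ^ (a + m)) v j) = j • γ (P * v) := by
    intro j
    induction j with
    | zero => simpa [t5_t] using q1_zero hγ
    | succ j ih =>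
      have e1 : P * t5_t (q ^ (a + m)) v (j + 1) =
          q ^ (a + m) * (P * t5_t (q ^ (a + m)) v j) + P * v := by
        show P * (q ^ (a + m) * t5_t (q ^ (a + m)) v j + v) = _
        ring
      rw [e1, hγ _ _ _ hv, ih, succ_nsmul]
  have e1 : P * (q ^ (a + m) * t5_t (q ^ (a + m)) v j + u) =
      q ^ (a + m) * (P * t5_t (q ^ (a + m)) v j) + P * u := by ring
  rw [e1, hγ _ _ _ hu, h1]

/-- the length of a vector -/
noncomputable def t5_n {d : ℕ} (w : Fin d → ℤ) : ℝ := ∑ i, |((w i : ℤ) : ℝ)|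

theorem t5_n_nonneg {d : ℕ} (w : Fin d → ℤ) : 0 ≤ t5_n w :=
  Finset.sum_nonneg fun _ _ => abs_nonneg _

theorem t5_n_neg {d : ℕ} (w : Fin d → ℤ) : t5_n (-w) = t5_n w := by
  unfold t5_n
  refine Finset.sum_congr rfl fun i _ => ?_
  simp

theorem t5_n_nsmul {d : ℕ} (j : ℕ) (w : Fin d → ℤ) : t5_n (j • w) = j * t5_n w := by
  unfold t5_n
  rw [Finset.mul_sum]
  refine Finset.sum_congr rfl fun i _ => ?_
  simp [abs_mul]

theorem t5_slow {S : Type*} {d : ℕ} {δ : ℝ} {F : S × (Fin d → ℤ) → S × (Fin d → ℤ) → ℝ}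
    (hF : SlowF δ F) (s s' : S) (v v' w w' : Fin d → ℤ) :
    |F (s, v + w) (s', v' + w') - F (s, v) (s', v')| ≤ δ * (t5_n w + t5_n w') := by
  have h1 := hF.left s v w (s', v' + w')
  have h2 := hF.right (s, v) s' v' w'
  have h3 : F (s, v + w) (s', v' + w') - F (s, v) (s', v') =
      (F (s, v + w) (s', v' + w') - F (s, v) (s', v' + w')) +
        (F (s, v) (s', v' + w') - F (s, v) (s', v')) := by ring
  rw [h3]
  refine (abs_add_le _ _).trans ?_
  rw [mul_add]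
  exact add_le_add h1 h2

theorem t5_cycle {a b : ℕ → ℝ} {M : ℕ} {B : ℝ} (h : ∀ j < M, |a (j + 1) - b j| ≤ B)
    (h0 : |a 0 - b M| ≤ B) :
    |∑ j ∈ Finset.range (M + 1), (a j - b j)| ≤ (M + 1) * B := by
  have e : ∑ j ∈ Finset.range (M + 1), (a j - b j) =
      ∑ j ∈ Finset.range M, (a (j + 1) - b j) + (a 0 - b M) := by
    rw [Finset.sum_sub_distrib, Finset.sum_range_succ' a, Finset.sum_range_succ b,
      Finset.sum_sub_distrib]
    ring
  rw [e]
  refine (abs_add_le _ _).trans ?_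
  have h1 : |∑ j ∈ Finset.range M, (a (j + 1) - b j)| ≤ M * B := by
    refine (Finset.abs_sum_le_sum_abs _ _).trans ?_
    refine (Finset.sum_le_sum fun j hj => h j (Finset.mem_range.mp hj)).trans ?_
    rw [Finset.sum_const, Finset.card_range, nsmul_eq_mul]
  linarith

/-- one step of the induction -/
theorem t5_av {q W M : ℕ} (hq : 2 ≤ q) {a b : ℕ → ℝ} {w : ℕ → ℕ} (hw : StrictMono w)
    (hwW : ∀ j ≤ M, w j < q ^ W) {B D : ℝ} (hD : ∀ n < q ^ W, |a n - b n| ≤ D) (hD0 : 0 ≤ D)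
    (h : ∀ j < M, |a (w (j + 1)) - b (w j)| ≤ B) (h0 : |a (w 0) - b (w M)| ≤ B) :
    |av q W a - av q W b| ≤ (1 - 1 / (q : ℝ) ^ W) * D + (M + 1) * B := by
  have hqW := qpow_posR hq W
  have hqW1 : (1 : ℝ) ≤ (q : ℝ) ^ W := one_le_pow₀ (by exact_mod_cast (by omega : 1 ≤ q))
  rw [← av_sub]
  unfold av
  rw [abs_div, abs_of_pos hqW, div_le_iff₀ hqW]
  set T := (Finset.range (M + 1)).image w with hT
  have hTsub : T ⊆ Finset.range (q ^ W) := by
    intro x hx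
    obtain ⟨j, hj, rfl⟩ := Finset.mem_image.mp hx
    exact Finset.mem_range.mpr (hwW j (Nat.lt_succ_iff.mp (Finset.mem_range.mp hj)))
  have hTcard : T.card = M + 1 := by
    rw [hT, Finset.card_image_of_injective _ hw.injective, Finset.card_range]
  rw [← Finset.sum_sdiff hTsub]
  have hB0 : 0 ≤ B := (abs_nonneg _).trans h0
  have h1 : |∑ n ∈ Finset.range (q ^ W) \ T, (a n - b n)| ≤ ((q : ℝ) ^ W - 1) * D := by
    refine (Finset.abs_sum_le_sum_abs _ _).trans ?_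
    refine (Finset.sum_le_sum fun n hn =>
      hD n (Finset.mem_range.mp (Finset.mem_sdiff.mp hn).1)).trans ?_
    rw [Finset.sum_const, nsmul_eq_mul]
    refine mul_le_mul_of_nonneg_right ?_ hD0
    have h2 := Finset.card_sdiff_add_card_eq_card hTsub
    rw [hTcard, Finset.card_range] at h2
    have h3 : (Finset.range (q ^ W) \ T).card + 1 ≤ q ^ W := by omega
    have h4 : (((Finset.range (q ^ W) \ T).card : ℕ) : ℝ) + 1 ≤ (q : ℝ) ^ W := by
      exact_mod_cast h3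
    linarith
  have h2 : |∑ n ∈ T, (a n - b n)| ≤ (M + 1) * B := by
    rw [hT, Finset.sum_image (fun _ _ _ _ h => hw.injective h)]
    exact t5_cycle (a := fun j => a (w j)) (b := fun j => b (w j)) h h0
  refine (abs_add_le _ _).trans ((add_le_add h1 h2).trans ?_)
  have h3 : ((1 - 1 / (q : ℝ) ^ W) * D + (M + 1) * B) * (q : ℝ) ^ W =
      ((q : ℝ) ^ W - 1) * D + (M + 1) * B * (q : ℝ) ^ W := by
    field_simp
  rw [h3]
  have h4 : (M + 1) * B * 1 ≤ (M + 1) * B * (q : ℝ) ^ W :=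
    mul_le_mul_of_nonneg_left hqW1 (by positivity)
  linarith

/-- the contraction -/
theorem t5_contr {S : Type*} [Monoid S] [Finite S] {q m d : ℕ} (hq : 2 ≤ q) {β : ℕ → S}
    (hβ : QM q m β) {ω : ℕ} (hω : Core q β ω) {e : ℕ → Fin d → ℤ}
    (he : ∀ a y s : ℕ, s < q ^ a → e (q ^ (a + m) * y + s) = e y + e s) {P R : ℕ} (hP : 1 ≤ P)
    (hR : 1 ≤ R) (hrch : Rch q β ω P R) :
    ∃ (W : ℕ) (C : ℝ), 1 ≤ W ∧ 0 ≤ C ∧ ∀ δ : ℝ, 0 ≤ δ →
      ∀ F : S × (Fin d → ℤ) → S × (Fin d → ℤ) → ℝ, SlowF δ F → ∀ l ∈ LL q β ω, ∀ l' ∈ LL q β ω,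
      ∀ (k : ℕ) (D : ℝ), 0 ≤ D →
      (∀ h y c d' z z' : ℕ, c ≤ P → d' ≤ R → z < q ^ h → z' < q ^ h →
        |Phi q P R (pr β e) h k y c d' z z'
            (fun x x' => F (x.1 * β ω, x.2) (x'.1 * β ω, x'.2)) -
          Phi q P R (pr β e) h k y c d' z z'
            (fun x x' => F (x.1 * β ω * l, x.2) (x'.1 * β ω * l', x'.2))| ≤ D) →
      ∀ h y c d' z z' : ℕ, c ≤ P → d' ≤ R → z < q ^ h → z' < q ^ h →
        |Phi q P R (pr β e) h (W + k) y c d' z z'
            (fun x x' => F (x.1 * β ω, x.2) (x'.1 * β ω, x'.2)) -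
          Phi q P R (pr β e) h (W + k) y c d' z z'
            (fun x x' => F (x.1 * β ω * l, x.2) (x'.1 * β ω * l', x'.2))| ≤
          (1 - 1 / (q : ℝ) ^ W) * D + C * δ := by
  obtain ⟨U, hU⟩ := t5_unif hrch
  obtain ⟨M, hM1, -, hM⟩ := exists_exp hq hβ hω
  obtain ⟨M, rfl⟩ : ∃ M', M = M' + 1 := ⟨M - 1, by omega⟩
  set a := (P + R) * U with ha
  set Q := q ^ (a + m) with hQ
  set b := m + (P + R) with hb
  set W := m + ((P + R) * (q ^ b * Q ^ (M + 1)) + P + R + 1) with hW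
  set c₁ : ℝ := ∑ v ∈ Finset.range (U + 1), (t5_n (e (P * v)) + t5_n (e (R * v))) with hc₁
  have hq0 : 0 < q := by omega
  have hc₁0 : 0 ≤ c₁ := Finset.sum_nonneg fun v _ => add_nonneg (t5_n_nonneg _) (t5_n_nonneg _)
  have hlt : ∀ n : ℕ, n < q ^ n := fun n => Nat.lt_pow_self (by omega)
  refine ⟨W, (M + 1) * ((M + 1) * c₁), by omega, by positivity, ?_⟩
  intro δ hδ F hF l hl l' hl' k D hD0 hD h y c d' z z' hc hd hz hz'
  obtain ⟨u, v, hu, hv, hv1, h1, h2⟩ := hU (q ^ h * c + z) (q ^ h * d' + z') l hl l' hl'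
  have hPu : P * u < q ^ a := lt_of_le_of_lt (by rw [ha]; nlinarith) (hlt a)
  have hPv : P * v < q ^ a := lt_of_le_of_lt (by rw [ha]; nlinarith) (hlt a)
  have hRu : R * u < q ^ a := lt_of_le_of_lt (by rw [ha]; nlinarith) (hlt a)
  have hRv : R * v < q ^ a := lt_of_le_of_lt (by rw [ha]; nlinarith) (hlt a)
  have hQa : q ^ a ≤ Q := Nat.pow_le_pow_right hq0 (by omega)
  have hvQ : v < Q := lt_of_lt_of_le (lt_of_le_of_lt (Nat.le_mul_of_pos_left v hP) hPv) hQa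
  have huQ : u < Q := lt_of_lt_of_le (lt_of_le_of_lt (Nat.le_mul_of_pos_left u hP) hPu) hQa
  have hQ0 : 1 ≤ Q := by omega
  -- the words
  let w : ℕ → ℕ := fun j => Q * t5_t Q v j + u
  have hwlt : ∀ j ≤ M, w j < Q ^ (M + 1) := by
    intro j hj
    have h3 : t5_t Q v j + 1 ≤ Q ^ j := t5_t_lt hvQ j
    calc Q * t5_t Q v j + u < Q * t5_t Q v j + Q := by omega
      _ = Q * (t5_t Q v j + 1) := by ring
      _ ≤ Q * Q ^ j := Nat.mul_le_mul_left _ h3
      _ = Q ^ (j + 1) := by rw [pow_succ']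
      _ ≤ Q ^ (M + 1) := Nat.pow_le_pow_right hQ0 (by omega)
  have hwmono : StrictMono (fun j => q ^ b * w j) := by
    intro i j hij
    have h3 := t5_t_mono hQ0 hv1 hij
    have h4 : Q * t5_t Q v i < Q * t5_t Q v j := Nat.mul_lt_mul_of_pos_left h3 hQ0
    exact Nat.mul_lt_mul_of_pos_left (Nat.add_lt_add_right h4 u) (qpow_pos hq b)
  have hWm : W - m = (P + R) * (q ^ b * Q ^ (M + 1)) + P + R + 1 := by omega
  have hPW : ∀ j ≤ M, P * (q ^ b * w j) + P + 1 ≤ q ^ (W - m) := by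
    intro j hj
    have h3 : q ^ b * w j ≤ q ^ b * Q ^ (M + 1) := Nat.mul_le_mul_left _ (hwlt j hj).le
    have h4 : P * (q ^ b * w j) ≤ (P + R) * (q ^ b * Q ^ (M + 1)) :=
      Nat.mul_le_mul (by omega) h3
    have h5 := hlt (W - m)
    omega
  have hRW : ∀ j ≤ M, R * (q ^ b * w j) + R + 1 ≤ q ^ (W - m) := by
    intro j hj
    have h3 : q ^ b * w j ≤ q ^ b * Q ^ (M + 1) := Nat.mul_le_mul_left _ (hwlt j hj).le
    have h4 : R * (q ^ b * w j) ≤ (P + R) * (q ^ b * Q ^ (M + 1)) :=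
      Nat.mul_le_mul (by omega) h3
    have h5 := hlt (W - m)
    omega
  have hwW : ∀ j ≤ M, q ^ b * w j < q ^ W := by
    intro j hj
    have h3 := hPW j hj
    have h4 : q ^ b * w j ≤ P * (q ^ b * w j) := Nat.le_mul_of_pos_left _ hP
    have h5 : q ^ (W - m) ≤ q ^ W := Nat.pow_le_pow_right hq0 (Nat.sub_le _ _)
    omega
  have hbP : P + 1 ≤ q ^ (b - m) := by
    have h3 : b - m = P + R := by omega
    rw [h3]
    have := hlt (P + R)
    omega
  have hbR : R + 1 ≤ q ^ (b - m) := by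
    have h3 : b - m = P + R := by omega
    rw [h3]
    have := hlt (P + R)
    omega
  -- the value on the words
  have hev : ∀ j ≤ M, ∀ G : S × (Fin d → ℤ) → S × (Fin d → ℤ) → ℝ,
      Phi q P R (pr β e) (h + W) k y ((P * (q ^ b * w j) + c) / q ^ W)
        ((R * (q ^ b * w j) + d') / q ^ W) (q ^ h * ((P * (q ^ b * w j) + c) % q ^ W) + z)
        (q ^ h * ((R * (q ^ b * w j) + d') % q ^ W) + z') G =
      av q k (fun n =>
        G (β (P * (q ^ k * y + n)) * (β (P * v) ^ j * (β (P * u) * β (q ^ h * c + z))),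
          e (P * (q ^ k * y + n)) + e (P * u) + e (q ^ h * c + z) + j • e (P * v))
          (β (R * (q ^ k * y + n)) * (β (R * v) ^ j * (β (R * u) * β (q ^ h * d' + z'))),
          e (R * (q ^ k * y + n)) + e (R * u) + e (q ^ h * d' + z') + j • e (R * v))) := by
    intro j hj G
    unfold Phi
    refine av_congr fun n _ => ?_
    unfold pr
    rw [t1_word hq hβ.gap (by omega) hbP (by omega) (hPW j hj) hc hz,
      t1_word hq hβ.gap (by omega) hbR (by omega) (hRW j hj) hd hz',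
      q1_word hq he (by omega) hbP (by omega) (hPW j hj) hc hz,
      q1_word hq he (by omega) hbR (by omega) (hRW j hj) hd hz',
      t5_word_β hβ.one hβ.gap hPu hPv, t5_word_β hβ.one hβ.gap hRu hRv,
      t5_word_e he hPu hPv, t5_word_e he hRu hRv]
    congr 2
    · rw [mul_assoc (β (P * v) ^ j)]
    · abel
    · rw [mul_assoc (β (R * v) ^ j)]
    · abel
  have hlp : ∀ {c₀ b₀ l₀ : S}, c₀ * b₀ = b₀ * l₀ → ∀ j : ℕ, c₀ ^ j * b₀ = b₀ * l₀ ^ j := by
    intro c₀ b₀ l₀ h3 j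
    induction j with
    | zero => simp
    | succ j ih => rw [pow_succ', mul_assoc, ih, ← mul_assoc, h3, mul_assoc, ← pow_succ']
  have hlP := hlp h1
  have hlR := hlp h2
  have hlM : l ^ (M + 1) = β ω := by
    obtain ⟨x, -, rfl⟩ := hl
    exact hM x
  have hlM' : l' ^ (M + 1) = β ω := by
    obtain ⟨x, -, rfl⟩ := hl'
    exact hM x
  have hcv : t5_n (e (P * v)) + t5_n (e (R * v)) ≤ c₁ :=
    Finset.single_le_sum (f := fun v => t5_n (e (P * v)) + t5_n (e (R * v)))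
      (fun v _ => add_nonneg (t5_n_nonneg _) (t5_n_nonneg _)) (Finset.mem_range.mpr (by omega))
  have hcv0 : 0 ≤ t5_n (e (P * v)) + t5_n (e (R * v)) :=
    add_nonneg (t5_n_nonneg _) (t5_n_nonneg _)
  rw [q1_split, q1_split]
  refine (t5_av hq hwmono hwW (D := D) (B := (M + 1) * c₁ * δ) ?_ hD0 ?_ ?_).trans ?_
  · intro n hn
    exact hD _ _ _ _ _ _ (q1_carry hq hc hn) (q1_carry hq hd hn) (q1_low hq hz) (q1_low hq hz')
  · intro j hj
    rw [hev _ (by omega), hev _ (by omega)]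
    refine av_close hq fun n _ => ?_
    have e1 : β (P * (q ^ k * y + n)) * (β (P * v) ^ (j + 1) * (β (P * u) * β (q ^ h * c + z))) *
        β ω = β (P * (q ^ k * y + n)) * (β (P * u) * (β (q ^ h * c + z) * β ω) * l ^ (j + 1)) := by
      rw [← hlP (j + 1)]; simp only [mul_assoc]
    have e2 : β (R * (q ^ k * y + n)) * (β (R * v) ^ (j + 1) * (β (R * u) *
        β (q ^ h * d' + z'))) * β ω =
        β (R * (q ^ k * y + n)) * (β (R * u) * (β (q ^ h * d' + z') * β ω) * l' ^ (j + 1)) := by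
      rw [← hlR (j + 1)]; simp only [mul_assoc]
    have e3 : β (P * (q ^ k * y + n)) * (β (P * v) ^ j * (β (P * u) * β (q ^ h * c + z))) *
        β ω * l = β (P * (q ^ k * y + n)) * (β (P * u) * (β (q ^ h * c + z) * β ω) *
          l ^ (j + 1)) := by
      rw [pow_succ, ← mul_assoc _ (l ^ j) l, ← hlP j]; simp only [mul_assoc]
    have e4 : β (R * (q ^ k * y + n)) * (β (R * v) ^ j * (β (R * u) * β (q ^ h * d' + z'))) *
        β ω * l' = β (R * (q ^ k * y + n)) * (β (R * u) * (β (q ^ h * d' + z') * β ω) *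
          l' ^ (j + 1)) := by
      rw [pow_succ, ← mul_assoc _ (l' ^ j) l', ← hlR j]; simp only [mul_assoc]
    rw [e1, e2, e3, e4, succ_nsmul, succ_nsmul, ← add_assoc _ (j • e (P * v)),
      ← add_assoc _ (j • e (R * v))]
    refine (t5_slow hF _ _ _ _ _ _).trans ?_
    have h3 : δ * (t5_n (e (P * v)) + t5_n (e (R * v))) ≤ δ * c₁ :=
      mul_le_mul_of_nonneg_left hcv hδ
    have h4 : 0 ≤ (M : ℝ) * (δ * c₁) := by positivity
    have h5 : (M + 1 : ℝ) * c₁ * δ = M * (δ * c₁) + δ * c₁ := by ring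
    linarith
  · rw [hev _ (by omega), hev _ (by omega)]
    refine av_close hq fun n _ => ?_
    have e1 : β (P * (q ^ k * y + n)) * (β (P * v) ^ 0 * (β (P * u) * β (q ^ h * c + z))) *
        β ω = β (P * (q ^ k * y + n)) * (β (P * u) * (β (q ^ h * c + z) * β ω)) := by
      rw [pow_zero, one_mul]; simp only [mul_assoc]
    have e2 : β (R * (q ^ k * y + n)) * (β (R * v) ^ 0 * (β (R * u) *
        β (q ^ h * d' + z'))) * β ω =
        β (R * (q ^ k * y + n)) * (β (R * u) * (β (q ^ h * d' + z') * β ω)) := by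
      rw [pow_zero, one_mul]; simp only [mul_assoc]
    have e3 : β (P * (q ^ k * y + n)) * (β (P * v) ^ M * (β (P * u) * β (q ^ h * c + z))) *
        β ω * l = β (P * (q ^ k * y + n)) * (β (P * u) * (β (q ^ h * c + z) * β ω)) := by
      have e5 : β (P * u) * (β (q ^ h * c + z) * β ω) * l ^ (M + 1) =
          β (P * u) * (β (q ^ h * c + z) * β ω) := by
        rw [hlM]; simp only [mul_assoc, hω.idem]
      rw [← e5, pow_succ, ← mul_assoc _ (l ^ M) l, ← hlP M]; simp only [mul_assoc]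
    have e4 : β (R * (q ^ k * y + n)) * (β (R * v) ^ M * (β (R * u) * β (q ^ h * d' + z'))) *
        β ω * l' = β (R * (q ^ k * y + n)) * (β (R * u) * (β (q ^ h * d' + z') * β ω)) := by
      have e5 : β (R * u) * (β (q ^ h * d' + z') * β ω) * l' ^ (M + 1) =
          β (R * u) * (β (q ^ h * d' + z') * β ω) := by
        rw [hlM']; simp only [mul_assoc, hω.idem]
      rw [← e5, pow_succ, ← mul_assoc _ (l' ^ M) l', ← hlR M]; simp only [mul_assoc]
    rw [e1, e2, e3, e4, zero_nsmul, zero_nsmul, add_zero, add_zero, abs_sub_comm]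
    refine (t5_slow hF _ _ _ _ _ _).trans ?_
    rw [t5_n_nsmul, t5_n_nsmul, ← mul_add]
    have h3 : δ * (M * (t5_n (e (P * v)) + t5_n (e (R * v)))) ≤ δ * (M * c₁) :=
      mul_le_mul_of_nonneg_left (mul_le_mul_of_nonneg_left hcv (Nat.cast_nonneg M)) hδ
    have h4 : 0 ≤ δ * c₁ := by positivity
    have h5 : (M + 1 : ℝ) * c₁ * δ = δ * (M * c₁) + δ * c₁ := by ring
    linarith
  · refine le_of_eq ?_
    ring

theorem equid {S : Type*} [Monoid S] [Finite S] {q m d : ℕ} (hq : 2 ≤ q) {β : ℕ → S}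
    (hβ : QM q m β) {ω : ℕ} (hω : Core q β ω) {e : ℕ → Fin d → ℤ}
    (he : ∀ a y s : ℕ, s < q ^ a → e (q ^ (a + m) * y + s) = e y + e s) {P R : ℕ} (hP : 1 ≤ P)
    (hR : 1 ≤ R) (hrch : Rch q β ω P R) :
    ∃ C ρ : ℝ, 0 ≤ C ∧ 0 ≤ ρ ∧ ρ < 1 ∧ ∀ h k y c d' z z' : ℕ, c ≤ P → d' ≤ R → z < q ^ h →
      z' < q ^ h → ∀ δ : ℝ, 0 ≤ δ → ∀ F : S × (Fin d → ℤ) → S × (Fin d → ℤ) → ℝ,
      SlowF δ F → ∀ l ∈ LL q β ω, ∀ l' ∈ LL q β ω,
        |Phi q P R (pr β e) h k y c d' z z'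
            (fun x x' => F (x.1 * β ω, x.2) (x'.1 * β ω, x'.2)) -
          Phi q P R (pr β e) h k y c d' z z'
            (fun x x' => F (x.1 * β ω * l, x.2) (x'.1 * β ω * l', x'.2))| ≤
          C * (ρ ^ k + δ) := by
  obtain ⟨W, C, hW, hC, hcon⟩ := t5_contr hq hβ hω he hP hR hrch
  have hqW2 : (2 : ℝ) ≤ (q : ℝ) ^ W := by
    calc (2 : ℝ) ≤ (q : ℝ) := by exact_mod_cast hq
      _ = (q : ℝ) ^ 1 := (pow_one _).symm
      _ ≤ (q : ℝ) ^ W := pow_le_pow_right₀ (by exact_mod_cast (by omega : 1 ≤ q)) hW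
  have hW' : (1 : ℝ) ≤ W := by exact_mod_cast hW
  set x : ℝ := 1 / (W * (q : ℝ) ^ W) with hx
  have hx0 : 0 < x := by positivity
  have hx1 : x ≤ 1 / 2 := by
    rw [hx]
    apply one_div_le_one_div_of_le (by norm_num)
    nlinarith
  have hWx : (W : ℝ) * x = 1 / (q : ℝ) ^ W := by
    rw [hx]; field_simp
  set ρ : ℝ := 1 - x with hρ
  have hρ0 : 0 < ρ := by linarith
  have hρ1 : ρ < 1 := by linarith
  have hρW : 1 - 1 / (q : ℝ) ^ W ≤ ρ ^ W := by
    have h1 := one_add_mul_le_pow (a := -x) (by linarith) W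
    have h2 : 1 + (W : ℝ) * (-x) = 1 - 1 / (q : ℝ) ^ W := by rw [mul_neg, hWx]; ring
    have h3 : (1 + -x) = ρ := by rw [hρ]; ring
    rw [h2, h3] at h1
    exact h1
  have hρWp : 0 < ρ ^ W := pow_pos hρ0 W
  refine ⟨2 / ρ ^ W + C * (q : ℝ) ^ W, ρ, by positivity, hρ0.le, hρ1, ?_⟩
  intro h k y c d' z z' hc hd hz hz' δ hδ F hF l hl l' hl'
  have main : ∀ k h y c d' z z' : ℕ, c ≤ P → d' ≤ R → z < q ^ h → z' < q ^ h →
      |Phi q P R (pr β e) h k y c d' z z'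
            (fun x x' => F (x.1 * β ω, x.2) (x'.1 * β ω, x'.2)) -
          Phi q P R (pr β e) h k y c d' z z'
            (fun x x' => F (x.1 * β ω * l, x.2) (x'.1 * β ω * l', x'.2))| ≤
          2 / ρ ^ W * ρ ^ k + C * (q : ℝ) ^ W * δ := by
    intro k
    induction k using Nat.strong_induction_on with
    | _ k ih =>
      intro h y c d' z z' hc hd hz hz'
      rcases lt_or_ge k W with hk | hk
      · have h1 : |Phi q P R (pr β e) h k y c d' z z'
            (fun x x' => F (x.1 * β ω, x.2) (x'.1 * β ω, x'.2))| ≤ 1 := by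
          unfold Phi
          exact abs_av_le hq fun n _ => hF.bd _ _
        have h2 : |Phi q P R (pr β e) h k y c d' z z'
            (fun x x' => F (x.1 * β ω * l, x.2) (x'.1 * β ω * l', x'.2))| ≤ 1 := by
          unfold Phi
          exact abs_av_le hq fun n _ => hF.bd _ _
        refine (abs_sub _ _).trans ?_
        have h3 : ρ ^ W ≤ ρ ^ k := pow_le_pow_of_le_one hρ0.le hρ1.le hk.le
        have h4 : (2 : ℝ) ≤ 2 / ρ ^ W * ρ ^ k := by
          calc (2 : ℝ) = 2 / ρ ^ W * ρ ^ W := by field_simp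
            _ ≤ 2 / ρ ^ W * ρ ^ k := mul_le_mul_of_nonneg_left h3 (by positivity)
        have h5 : 0 ≤ C * (q : ℝ) ^ W * δ := by positivity
        linarith
      · obtain ⟨k', rfl⟩ : ∃ k', k = W + k' := ⟨k - W, by omega⟩
        refine (hcon δ hδ F hF l hl l' hl' k' (2 / ρ ^ W * ρ ^ k' + C * (q : ℝ) ^ W * δ)
          (by positivity) (ih k' (by omega)) h y c d' z z' hc hd hz hz').trans ?_
        have h1 : (1 - 1 / (q : ℝ) ^ W) * (C * (q : ℝ) ^ W * δ) + C * δ =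
            C * (q : ℝ) ^ W * δ := by field_simp; ring
        have h2 : (1 - 1 / (q : ℝ) ^ W) * (2 / ρ ^ W * ρ ^ k') ≤
            ρ ^ W * (2 / ρ ^ W * ρ ^ k') := mul_le_mul_of_nonneg_right hρW (by positivity)
        have h3 : 2 / ρ ^ W * ρ ^ (W + k') = ρ ^ W * (2 / ρ ^ W * ρ ^ k') := by
          rw [pow_add]; ring
        rw [h3, mul_add]
        linarith
  refine (main k h y c d' z z' hc hd hz hz').trans ?_
  have h1 : 0 ≤ 2 / ρ ^ W * δ := by positivity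
  have h2 : 0 ≤ C * (q : ℝ) ^ W * ρ ^ k := by positivity
  have h3 : (2 / ρ ^ W + C * (q : ℝ) ^ W) * (ρ ^ k + δ) =
      2 / ρ ^ W * ρ ^ k + C * (q : ℝ) ^ W * δ + 2 / ρ ^ W * δ + C * (q : ℝ) ^ W * ρ ^ k := by ring
  rw [h3]
  linarith

end Pool.Agent.Lib.MP_3e612f_nt.SA
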