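import Pool.Agent.Lib.MP_3e612f_nt.SDefs

/-!
Most numbers contain the word `ω` between zeros.
-/

set_option autoImplicit false

namespace Pool.Agent.Lib.MP_3e612f_nt.SA

open Filter Topology QA

/-- a good block makes the number good -/
theorem t6_block {q m ω P : ℕ} (hq : 2 ≤ q) (hP : P.Coprime q) (hP1 : 1 ≤ P) :
    ∃ g v : ℕ, 1 ≤ g ∧ v < q ^ g ∧ ∀ s Z r : ℕ, r < q ^ s →
      Gd q m ω P (q ^ s * (q ^ g * Z + v) + r) := by
  obtain ⟨a, ha⟩ : ∃ a, ω < q ^ a := ⟨ω, Nat.lt_pow_self (by omega)⟩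
  obtain ⟨l, hl⟩ : ∃ l, 2 * P < q ^ l := ⟨2 * P, Nat.lt_pow_self (by omega)⟩
  have hl1 : 1 ≤ l := by
    rcases Nat.eq_zero_or_pos l with h | h
    · subst h; simp at hl; omega
    · exact h
  have hpos : 0 < q ^ (a + m) := Nat.pow_pos (by omega)
  have hco : Nat.Coprime P (q ^ (a + m)) := Nat.Coprime.pow_right _ hP
  have hωlt : ω < q ^ (a + m) := lt_of_lt_of_le ha (Nat.pow_le_pow_right (by omega) (by omega))
  obtain ⟨v', hv', hPv⟩ : ∃ v' < q ^ (a + m), (P * v') % q ^ (a + m) = ω := by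
    obtain ⟨x, hx⟩ := (Nat.exists_mul_mod_eq_of_coprime ω hco hpos.ne')
    refine ⟨x % q ^ (a + m), Nat.mod_lt _ hpos, ?_⟩
    have h1 : P * (x % q ^ (a + m)) % q ^ (a + m) = P * x % q ^ (a + m) := by
      rw [Nat.mul_mod, Nat.mod_mod, ← Nat.mul_mod]
    rw [h1]
    exact hx.2.trans (Nat.mod_eq_of_lt hωlt)
  have hU := Nat.div_add_mod (P * v') (q ^ (a + m))
  rw [hPv] at hU
  set U := P * v' / q ^ (a + m) with hUdef
  refine ⟨(m + l) + (a + m), q ^ (m + l) * v', by omega, ?_, ?_⟩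
  · rw [pow_add q (m + l)]
    exact Nat.mul_lt_mul_of_pos_left hv' (Nat.pow_pos (by omega))
  · intro s Z r hr
    have hs : 0 < q ^ s := Nat.pow_pos (by omega)
    have h1 := Nat.div_add_mod (P * r) (q ^ s)
    have h2 : P * r % q ^ s < q ^ s := Nat.mod_lt _ hs
    have h3 : P * r / q ^ s < P := by
      rw [Nat.div_lt_iff_lt_mul hs]
      exact Nat.mul_lt_mul_of_pos_left hr hP1
    refine ⟨a, s + l, P * Z + U, q ^ s * (P * r / q ^ s) + P * r % q ^ s, ha, ?_, ?_⟩
    · rw [h1]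
      have h4 : P * r + P ≤ P * q ^ s := by
        have : r + 1 ≤ q ^ s := hr
        nlinarith
      have h5 : P * q ^ s < q ^ l * q ^ s := by
        apply Nat.mul_lt_mul_of_pos_right _ hs
        omega
      rw [pow_add, mul_comm (q ^ s)]
      omega
    · have e1 : q ^ (s + l + m) = q ^ s * q ^ (m + l) := by rw [← pow_add]; congr 1; omega
      calc P * (q ^ s * (q ^ (m + l + (a + m)) * Z + q ^ (m + l) * v') + r)
          = q ^ s * q ^ (m + l) * (q ^ (a + m) * (P * Z) + P * v') + P * r := by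
            rw [pow_add q (m + l)]; ring
        _ = q ^ s * q ^ (m + l) * (q ^ (a + m) * (P * Z) + (q ^ (a + m) * U + ω)) +
              (q ^ s * (P * r / q ^ s) + P * r % q ^ s) := by rw [hU, h1]
        _ = _ := by rw [e1]; ring

/-- the count without a good block -/
theorem t6_count {q g v : ℕ} (hq : 2 ≤ q) (hv : v < q ^ g) (G : ℕ → Prop)
    (hG : ∀ s Z r : ℕ, r < q ^ s → G (q ^ s * (q ^ g * Z + v) + r)) (t : ℕ) : ∀ j y : ℕ,
      Nat.card {n : ℕ | n < q ^ (j + g * t) ∧ ¬ G (q ^ (j + g * t) * y + n)} ≤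
        (q ^ g - 1) ^ t * q ^ j := by
  classical
  have hcard : ∀ j y : ℕ, Nat.card {n : ℕ | n < q ^ j ∧ ¬ G (q ^ j * y + n)} =
      ((Finset.range (q ^ j)).filter fun n => ¬ G (q ^ j * y + n)).card := by
    intro j y
    rw [Nat.card_coe_set_eq, ← Set.ncard_coe_finset]
    congr 1
    ext n
    simp
  induction t with
  | zero =>
    intro j y
    rw [hcard]
    simp only [mul_zero, add_zero, pow_zero, one_mul]
    calc _ ≤ (Finset.range (q ^ j)).card := Finset.card_filter_le _ _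
      _ = q ^ j := Finset.card_range _
  | succ t ih =>
    intro j y
    rw [hcard]
    have hsub : ((Finset.range (q ^ (j + g * (t + 1)))).filter
        fun n => ¬ G (q ^ (j + g * (t + 1)) * y + n)) ⊆
        ((Finset.range (q ^ g)).erase v).biUnion fun u =>
          (((Finset.range (q ^ (j + g * t))).filter
            fun n => ¬ G (q ^ (j + g * t) * (q ^ g * y + u) + n)).image
              fun n => q ^ (j + g * t) * u + n) := by
      intro n hn
      rw [Finset.mem_filter, Finset.mem_range] at hn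
      have hpos : 0 < q ^ (j + g * t) := Nat.pow_pos (by omega)
      have hdm := Nat.div_add_mod n (q ^ (j + g * t))
      have hmod : n % q ^ (j + g * t) < q ^ (j + g * t) := Nat.mod_lt _ hpos
      have hpe : q ^ (j + g * (t + 1)) = q ^ g * q ^ (j + g * t) := by
        rw [← pow_add]; congr 1; ring
      have heq : q ^ (j + g * (t + 1)) * y + n = q ^ (j + g * t) *
          (q ^ g * y + n / q ^ (j + g * t)) + n % q ^ (j + g * t) := by
        conv_lhs => rw [← hdm, hpe]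
        ring
      rw [Finset.mem_biUnion]
      refine ⟨n / q ^ (j + g * t), ?_, ?_⟩
      · rw [Finset.mem_erase, Finset.mem_range]
        refine ⟨?_, ?_⟩
        · intro huv
          apply hn.2
          rw [heq, huv]
          exact hG _ _ _ hmod
        · rw [Nat.div_lt_iff_lt_mul hpos, ← hpe]
          exact hn.1
      · rw [Finset.mem_image]
        refine ⟨n % q ^ (j + g * t), ?_, hdm⟩
        rw [Finset.mem_filter, Finset.mem_range]
        refine ⟨hmod, ?_⟩
        rw [← heq]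
        exact hn.2
    calc _ ≤ _ := Finset.card_le_card hsub
      _ ≤ ∑ u ∈ (Finset.range (q ^ g)).erase v,
          (((Finset.range (q ^ (j + g * t))).filter
            fun n => ¬ G (q ^ (j + g * t) * (q ^ g * y + u) + n)).image
              fun n => q ^ (j + g * t) * u + n).card := Finset.card_biUnion_le
      _ ≤ ∑ _u ∈ (Finset.range (q ^ g)).erase v, (q ^ g - 1) ^ t * q ^ j := by
          apply Finset.sum_le_sum
          intro u _
          refine Finset.card_image_le.trans ?_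
          rw [← hcard]
          exact ih j _
      _ = _ := by
          rw [Finset.sum_const, Finset.card_erase_of_mem (Finset.mem_range.2 hv),
            Finset.card_range, smul_eq_mul]
          ring

theorem gd_density {q m ω P : ℕ} (hq : 2 ≤ q) (hP : P.Coprime q) (hP1 : 1 ≤ P) {ε : ℝ}
    (hε : 0 < ε) : ∃ j₀ : ℕ, ∀ j ≥ j₀, ∀ y : ℕ,
      (Nat.card {n : ℕ | n < q ^ j ∧ ¬ Gd q m ω P (q ^ j * y + n)} : ℝ) ≤ ε * q ^ j := by
  obtain ⟨g, v, hg, hv, hG⟩ := t6_block (m := m) (ω := ω) hq hP hP1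
  have hqg : (1 : ℝ) ≤ (q : ℝ) ^ g := one_le_pow₀ (by exact_mod_cast (by omega : 1 ≤ q))
  have hqp : (0 : ℝ) < (q : ℝ) ^ g := by linarith
  obtain ⟨t, ht⟩ := exists_pow_lt_of_lt_one hε
    (show (((q : ℝ) ^ g - 1) / (q : ℝ) ^ g) < 1 by rw [div_lt_one hqp]; linarith)
  refine ⟨g * t, fun j hj y => ?_⟩
  obtain ⟨i, rfl⟩ := Nat.exists_eq_add_of_le' hj
  have h1 := t6_count hq hv (Gd q m ω P) hG t i y
  have h2 : (Nat.card {n : ℕ | n < q ^ (i + g * t) ∧ ¬ Gd q m ω P (q ^ (i + g * t) * y + n)} : ℝ)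
      ≤ (((q ^ g - 1) ^ t * q ^ i : ℕ) : ℝ) := by exact_mod_cast h1
  refine h2.trans ?_
  have h3 : (((q ^ g - 1) ^ t * q ^ i : ℕ) : ℝ) = ((q : ℝ) ^ g - 1) ^ t * (q : ℝ) ^ i := by
    have : 1 ≤ q ^ g := Nat.one_le_pow _ _ (by omega)
    push_cast [Nat.cast_sub this]
    ring
  rw [h3, pow_add (q : ℝ) i, pow_mul (q : ℝ) g t]
  have h4 : ((q : ℝ) ^ g - 1) ^ t ≤ ε * ((q : ℝ) ^ g) ^ t := by
    rw [div_pow] at ht
    have hpt : (0 : ℝ) < ((q : ℝ) ^ g) ^ t := by positivity
    have := (div_lt_iff₀ hpt).1 ht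
    exact this.le
  have h5 : (0 : ℝ) ≤ (q : ℝ) ^ i := by positivity
  calc ((q : ℝ) ^ g - 1) ^ t * (q : ℝ) ^ i ≤ (ε * ((q : ℝ) ^ g) ^ t) * (q : ℝ) ^ i :=
        mul_le_mul_of_nonneg_right h4 h5
    _ = _ := by ring

end Pool.Agent.Lib.MP_3e612f_nt.SA
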