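import Pool.Agent.Lib.MP_3e612f_nt.SMean
import Pool.Agent.Lib.MP_3e612f_nt.SKer
import Pool.Agent.Lib.MP_3e612f_nt.SEquid
import Pool.Agent.Lib.MP_3e612f_nt.STop
import Pool.Agent.Lib.MP_3e612f_nt.SSmooth

/-!
The values at multiples of `n` by two primes are nearly independent: joint functions of a
finite-state function and a quasi-additive function.
-/

set_option autoImplicit false

namespace Pool.Agent.Lib.MP_3e612f_nt.SA

open Filter Topology QA

variable {S : Type*} [Monoid S] [Finite S] {d : ℕ}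

/-- the set `LL` as a finite set -/
noncomputable def LF (q : ℕ) (β : ℕ → S) (ω : ℕ) : Finset S := (Set.toFinite (LL q β ω)).toFinset

theorem mem_LF {q : ℕ} {β : ℕ → S} {ω : ℕ} {l : S} : l ∈ LF q β ω ↔ l ∈ LL q β ω := by
  unfold LF
  exact Set.Finite.mem_toFinset _

/-- average over `LL` -/
noncomputable def AL (q : ℕ) (β : ℕ → S) (ω : ℕ) (f : S → ℝ) (x : S) : ℝ :=
  (∑ l ∈ LF q β ω, f (x * l)) / (LF q β ω).card

theorem card_LF_pos {q m : ℕ} {β : ℕ → S} (hβ : QM q m β) {ω : ℕ} (hω : Core q β ω) :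
    0 < (LF q β ω).card := Finset.card_pos.mpr ⟨β ω, mem_LF.mpr (LL_one hβ hω)⟩

theorem AL_const {q m : ℕ} {β : ℕ → S} (hβ : QM q m β) {ω : ℕ} (hω : Core q β ω) (c : ℝ) (x : S) :
    AL q β ω (fun _ => c) x = c := by
  have h := card_LF_pos hβ hω
  have h' : ((LF q β ω).card : ℝ) ≠ 0 := by positivity
  unfold AL
  rw [Finset.sum_const, nsmul_eq_mul, mul_div_cancel_left₀ _ h']

theorem AL_sub {q : ℕ} {β : ℕ → S} {ω : ℕ} (f g : S → ℝ) (x : S) :
    AL q β ω (fun y => f y - g y) x = AL q β ω f x - AL q β ω g x := by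
  unfold AL
  rw [← sub_div, ← Finset.sum_sub_distrib]

theorem AL_div {q : ℕ} {β : ℕ → S} {ω : ℕ} (f : S → ℝ) (c : ℝ) (x : S) :
    AL q β ω (fun y => f y / c) x = AL q β ω f x / c := by
  unfold AL
  rw [← Finset.sum_div, div_right_comm]

theorem AL_close {q m : ℕ} {β : ℕ → S} (hβ : QM q m β) {ω : ℕ} (hω : Core q β ω)
    {f g : S → ℝ} {x : S} {ε : ℝ} (h : ∀ l ∈ LL q β ω, |f (x * l) - g (x * l)| ≤ ε) :
    |AL q β ω f x - AL q β ω g x| ≤ ε := by
  have hc := card_LF_pos hβ hω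
  have hc' : (0 : ℝ) < (LF q β ω).card := by exact_mod_cast hc
  unfold AL
  rw [← sub_div, ← Finset.sum_sub_distrib, abs_div, abs_of_pos hc', div_le_iff₀ hc']
  refine (Finset.abs_sum_le_sum_abs _ _).trans ?_
  refine (Finset.sum_le_sum fun l hl => h l (mem_LF.mp hl)).trans (le_of_eq ?_)
  rw [Finset.sum_const, nsmul_eq_mul, mul_comm]

theorem AL_abs {q m : ℕ} {β : ℕ → S} (hβ : QM q m β) {ω : ℕ} (hω : Core q β ω)
    {f : S → ℝ} {x : S} {B : ℝ} (h : ∀ y, |f y| ≤ B) : |AL q β ω f x| ≤ B := by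
  have h1 := AL_close hβ hω (f := f) (g := fun _ => 0) (x := x) (ε := B) (fun l _ => by
    rw [sub_zero]
    exact h _)
  rwa [AL_const hβ hω, sub_zero] at h1

theorem AL_shift {q m : ℕ} (hq : 2 ≤ q) {β : ℕ → S} (hβ : QM q m β) {ω : ℕ} (hω : Core q β ω)
    {l : S} (hl : l ∈ LL q β ω) (f : S → ℝ) (x : S) :
    AL q β ω f (x * l) = AL q β ω f x := by
  unfold AL
  congr 1
  have h := LL_sum hq hβ hω hl (fun y => f (x * y))
  unfold LF
  rw [← h]
  refine Finset.sum_congr rfl fun y _ => ?_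
  rw [mul_assoc]

/-- the mean of `B` attached to the finite part `x` -/
noncomputable def mS (q k : ℕ) (β : ℕ → S) (ω : ℕ) (e : ℕ → Fin d → ℤ)
    (Λ : AddSubgroup (Fin d → ℤ)) (u : S → (Fin d → ℤ) ⧸ Λ) (B : S → (Fin d → ℤ) → ℝ) (x : S) : ℝ :=
  AL q β ω (fun y => av q k (fun n => extL Λ (u y) (B y) (e n))) x

theorem extL_abs {Λ : AddSubgroup (Fin d → ℤ)} {c : (Fin d → ℤ) ⧸ Λ} {g : (Fin d → ℤ) → ℝ} {B : ℝ}
    (hg : ∀ v, |g v| ≤ B) (v : Fin d → ℤ) : |extL Λ c g v| ≤ B := hg _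

theorem mS_abs {q m k : ℕ} (hq : 2 ≤ q) {β : ℕ → S} (hβ : QM q m β) {ω : ℕ} (hω : Core q β ω)
    {e : ℕ → Fin d → ℤ} {Λ : AddSubgroup (Fin d → ℤ)} {u : S → (Fin d → ℤ) ⧸ Λ}
    {B : S → (Fin d → ℤ) → ℝ} {b : ℝ} (hB : ∀ x v, |B x v| ≤ b) (x : S) :
    |mS q k β ω e Λ u B x| ≤ b :=
  AL_abs hβ hω fun _ => abs_av_le hq fun _ _ => extL_abs (hB _) _

theorem mS_shift {q m k : ℕ} (hq : 2 ≤ q) {β : ℕ → S} (hβ : QM q m β) {ω : ℕ} (hω : Core q β ω)
    {e : ℕ → Fin d → ℤ} {Λ : AddSubgroup (Fin d → ℤ)} {u : S → (Fin d → ℤ) ⧸ Λ}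
    {B : S → (Fin d → ℤ) → ℝ} {l : S} (hl : l ∈ LL q β ω) (x : S) :
    mS q k β ω e Λ u B (x * l) = mS q k β ω e Λ u B x := AL_shift hq hβ hω hl _ _

/-- the means vary slowly with the scale -/
theorem mS_slow {q m : ℕ} (hq : 2 ≤ q) {β : ℕ → S} (hβ : QM q m β) {ω : ℕ} (hω : Core q β ω)
    {e : ℕ → Fin d → ℤ} {C : ℝ} (he : QV q m e C) (hgen : AddSubgroup.closure (Set.range e) = ⊤)
    (Λ : AddSubgroup (Fin d → ℤ)) (u : S → (Fin d → ℤ) ⧸ Λ) (T : ℕ) {ε : ℝ} (hε : 0 < ε) :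
    ∀ᶠ k : ℕ in atTop, ∀ t ≤ T, ∀ B : S → (Fin d → ℤ) → ℝ, (∀ x v, |B x v| ≤ 1) → ∀ x,
      |mS q (k + t) β ω e Λ u B x - mS q k β ω e Λ u B x| ≤ ε := by
  filter_upwards [av_slow hq he hgen T hε] with k hk t ht B hB x
  exact AL_close hβ hω fun l _ => hk t ht _ fun v => extL_abs (hB _) v

theorem AL_slow {q m : ℕ} {β : ℕ → S} (hβ : QM q m β) {ω : ℕ} (hω : Core q β ω) {δ : ℝ}
    {G : S → (Fin d → ℤ) → ℝ} (hG : ∀ y, Slow δ (G y)) (x : S) :
    Slow δ (fun v => AL q β ω (fun y => G y v) x) := by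
  refine ⟨fun v => AL_abs hβ hω fun y => (hG y).1 v, fun v i => ?_, fun v i j => ?_⟩
  · exact AL_close hβ hω fun l _ => (hG (x * l)).2.1 v i
  · have h1 : AL q β ω (fun y => G y (v + Pi.single i 1 + Pi.single j 1)) x -
        AL q β ω (fun y => G y (v + Pi.single i 1)) x -
        AL q β ω (fun y => G y (v + Pi.single j 1)) x + AL q β ω (fun y => G y v) x =
        AL q β ω (fun y => G y (v + Pi.single i 1 + Pi.single j 1) - G y (v + Pi.single i 1)) x -
        AL q β ω (fun y => G y (v + Pi.single j 1) - G y v) x := by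
      rw [AL_sub, AL_sub]
      ring
    rw [h1]
    refine AL_close hβ hω fun l _ => ?_
    have h2 := (hG (x * l)).2.2 v i j
    refine le_trans (le_of_eq ?_) h2
    congr 1
    ring

theorem av_AL_one {q : ℕ} {β : ℕ → S} {ω : ℕ} (k : ℕ) (f : ℕ → S → ℝ) (x : S) :
    av q k (fun n => AL q β ω (f n) x) = AL q β ω (fun y => av q k (fun n => f n y)) x := by
  unfold AL
  rw [av_div, av_finset_sum (LF q β ω) q k (fun l n => f n (x * l))]

theorem av_AL {q : ℕ} {β : ℕ → S} {ω : ℕ} (k : ℕ) (f g : ℕ → S → ℝ) (x y : ℕ → S) :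
    av q k (fun n => AL q β ω (f n) (x n) * AL q β ω (g n) (y n)) =
      (∑ l ∈ LF q β ω, ∑ l' ∈ LF q β ω, av q k (fun n => f n (x n * l) * g n (y n * l'))) /
        ((LF q β ω).card * (LF q β ω).card) := by
  have h1 : (fun n => AL q β ω (f n) (x n) * AL q β ω (g n) (y n)) = fun n =>
      (∑ l ∈ LF q β ω, ∑ l' ∈ LF q β ω, f n (x n * l) * g n (y n * l')) /
        ((LF q β ω).card * (LF q β ω).card) := by
    funext n
    unfold AL
    rw [div_mul_div_comm, Finset.sum_mul_sum]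
  rw [h1, av_div]
  congr 1
  rw [av_finset_sum (LF q β ω) q k (fun l n => ∑ l' ∈ LF q β ω, f n (x n * l) * g n (y n * l'))]
  refine Finset.sum_congr rfl fun l _ => ?_
  exact av_finset_sum (LF q β ω) q k (fun l' n => f n (x n * l) * g n (y n * l'))

theorem av_AL_close {q m : ℕ} {β : ℕ → S} (hβ : QM q m β) {ω : ℕ} (hω : Core q β ω) {k : ℕ}
    {f g : ℕ → S → ℝ} {x y : ℕ → S} {T ε : ℝ} (h : ∀ l ∈ LL q β ω, ∀ l' ∈ LL q β ω,
      |T - av q k (fun n => f n (x n * l) * g n (y n * l'))| ≤ ε) :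
    |T - av q k (fun n => AL q β ω (f n) (x n) * AL q β ω (g n) (y n))| ≤ ε := by
  have hc := card_LF_pos hβ hω
  have hc' : (0 : ℝ) < (LF q β ω).card := by exact_mod_cast hc
  have hcc : (0 : ℝ) < (LF q β ω).card * (LF q β ω).card := by positivity
  rw [av_AL]
  have h1 : T = (∑ l ∈ LF q β ω, ∑ l' ∈ LF q β ω, T) /
      ((LF q β ω).card * (LF q β ω).card) := by
    rw [Finset.sum_const, Finset.sum_const, nsmul_eq_mul, nsmul_eq_mul, ← mul_assoc,
      mul_div_cancel_left₀ _ hcc.ne']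
  rw [h1, ← sub_div, abs_div, abs_of_pos hcc, div_le_iff₀ hcc, ← Finset.sum_sub_distrib]
  refine (Finset.abs_sum_le_sum_abs _ _).trans ?_
  have h2 : ∀ l ∈ LF q β ω, |∑ l' ∈ LF q β ω, T - ∑ l' ∈ LF q β ω,
      av q k (fun n => f n (x n * l) * g n (y n * l'))| ≤ (LF q β ω).card * ε := by
    intro l hl
    rw [← Finset.sum_sub_distrib]
    refine (Finset.abs_sum_le_sum_abs _ _).trans ?_
    refine (Finset.sum_le_sum fun l' hl' => h l (mem_LF.mp hl) l' (mem_LF.mp hl')).trans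
      (le_of_eq ?_)
    rw [Finset.sum_const, nsmul_eq_mul]
  refine (Finset.sum_le_sum h2).trans (le_of_eq ?_)
  rw [Finset.sum_const, nsmul_eq_mul]
  ring

/-- averages with a small exceptional set -/
theorem av_bad {q : ℕ} (hq : 2 ≤ q) {j : ℕ} {h : ℕ → ℝ} {a b ε : ℝ} {G : ℕ → Prop} (ha : 0 ≤ a)
    (hb : 0 ≤ b) (h1 : ∀ n < q ^ j, G n → |h n| ≤ a) (h2 : ∀ n < q ^ j, |h n| ≤ b)
    (h3 : (Nat.card {n : ℕ | n < q ^ j ∧ ¬ G n} : ℝ) ≤ ε * q ^ j) :
    |av q j h| ≤ a + b * ε := by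
  classical
  have hqj : (0 : ℝ) < (q : ℝ) ^ j := qpow_posR hq j
  refine (abs_av_le_av _ _ _).trans ?_
  unfold av
  rw [div_le_iff₀ hqj]
  have hset : {n : ℕ | n < q ^ j ∧ ¬ G n} = ((Finset.range (q ^ j)).filter (fun n => ¬ G n) :
      Finset ℕ) := by
    ext n
    simp
  have hcard : (Nat.card {n : ℕ | n < q ^ j ∧ ¬ G n} : ℝ) =
      (((Finset.range (q ^ j)).filter (fun n => ¬ G n)).card : ℝ) := by
    rw [hset, Nat.card_coe_set_eq, Set.ncard_coe_finset]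
  rw [hcard] at h3
  calc ∑ n ∈ Finset.range (q ^ j), |h n|
      ≤ ∑ n ∈ Finset.range (q ^ j), (a + if ¬ G n then b else 0) := by
        refine Finset.sum_le_sum fun n hn => ?_
        have hn' := Finset.mem_range.mp hn
        by_cases hG : G n
        · rw [if_neg (by simpa using hG), add_zero]
          exact h1 n hn' hG
        · rw [if_pos hG]
          linarith [h2 n hn']
    _ = a * q ^ j + b * (((Finset.range (q ^ j)).filter (fun n => ¬ G n)).card : ℝ) := by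
        rw [Finset.sum_add_distrib, Finset.sum_const, Finset.card_range, nsmul_eq_mul,
          ← Finset.sum_filter, Finset.sum_const, nsmul_eq_mul]
        push_cast
        ring
    _ ≤ a * q ^ j + b * (ε * q ^ j) := by
        have := mul_le_mul_of_nonneg_left h3 hb
        linarith
    _ = (a + b * ε) * q ^ j := by ring

/-- in a block with good top digits the finite part is constant modulo `LL` -/
theorem block_const {q m : ℕ} (hq : 2 ≤ q) {β : ℕ → S} (hβ : QM q m β) {ω : ℕ}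
    (hω : Core q β ω) {P y k c : ℕ} (hP : (q - 1) ∣ P) (hgd : Gd q m ω P y) (hc : c ≤ P) {n : ℕ}
    (hn : n < q ^ k) :
    ∃ l ∈ LL q β ω, β (P * (q ^ k * y + n) + c) * β ω = β (P * (q ^ k * y) + c) * β ω * l := by
  obtain ⟨a, b, Y₁, Y₂, ha, hb, hY⟩ := hgd
  have hqk : 0 < q ^ k := by positivity
  have key : ∀ n < q ^ k, ∃ t s, t ≤ P ∧ s < q ^ k ∧ P * (q ^ k * y + n) + c =
      q ^ k * (q ^ (b + m) * (q ^ (a + m) * Y₁ + ω) + (Y₂ + t)) + s := by
    intro n hn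
    refine ⟨(P * n + c) / q ^ k, (P * n + c) % q ^ k, ?_, Nat.mod_lt _ hqk, ?_⟩
    · refine Nat.div_le_of_le_mul ?_
      calc P * n + c ≤ P * n + P := by omega
        _ = P * (n + 1) := by ring
        _ ≤ P * q ^ k := Nat.mul_le_mul_left _ hn
        _ = q ^ k * P := by ring
    · have h1 := Nat.div_add_mod (P * n + c) (q ^ k)
      calc P * (q ^ k * y + n) + c = q ^ k * (P * y) + (P * n + c) := by ring
        _ = q ^ k * (P * y) + (q ^ k * ((P * n + c) / q ^ k) + (P * n + c) % q ^ k) := by rw [h1]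
        _ = _ := by
          rw [hY]
          ring
  obtain ⟨t, s, ht, hs, h1⟩ := key n hn
  obtain ⟨t₀, s₀, ht₀, hs₀, h₀⟩ := key 0 hqk
  rw [add_zero] at h₀
  rw [h1, h₀]
  refine arith hq hβ hω ha (Y₂ := Y₂ + t₀) (Y₂' := Y₂ + t) (by omega) (by omega) hs₀ hs ?_
  rw [← h1, ← h₀]
  have h2 : ∀ N, P * N + c ≡ 0 + c [MOD (q - 1)] := fun N =>
    (Nat.modEq_zero_iff_dvd.mpr (hP.mul_right N)).add_right c
  exact (h2 _).trans (h2 _).symm

theorem abs_mul_close {x y x' y' e₁ e₂ : ℝ} (hx : |x| ≤ 1) (hy' : |y'| ≤ 1)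
    (h1 : |x - x'| ≤ e₁) (h2 : |y - y'| ≤ e₂) : |x * y - x' * y'| ≤ e₁ + e₂ := by
  have e0 : x * y - x' * y' = x * (y - y') + (x - x') * y' := by ring
  rw [e0]
  refine (abs_add_le _ _).trans ?_
  rw [abs_mul, abs_mul]
  have h4 : |x| * |y - y'| ≤ 1 * e₂ := mul_le_mul hx h2 (abs_nonneg _) (by norm_num)
  have h5 : |x - x'| * |y'| ≤ e₁ * 1 := mul_le_mul h1 hy' (abs_nonneg _)
    ((abs_nonneg _).trans h1)
  linarith

/-- the values at multiples of `n` by `p (q - 1)` and `r (q - 1)` are nearly independent -/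
theorem pair_s {q m : ℕ} (hq : 2 ≤ q) {β : ℕ → S} (hβ : QM q m β) {ω : ℕ} (hω : Core q β ω)
    {e : ℕ → Fin d → ℤ} {C : ℝ} (he : QV q m e C) (hgen : AddSubgroup.closure (Set.range e) = ⊤)
    {Λ : AddSubgroup (Fin d → ℤ)} {N' : ℕ} (hN : 1 ≤ N') (hΛ : ∀ v : Fin d → ℤ, N' • v ∈ Λ)
    {u : S → (Fin d → ℤ) ⧸ Λ} (hu : ∀ n, u (β n) = (e n : (Fin d → ℤ) ⧸ Λ))
    (huω : ∀ n, u (β n * β ω) = (e n : (Fin d → ℤ) ⧸ Λ)) {ε : ℝ} (hε : 0 < ε) :
    ∃ r₀ : ℕ, ∀ p r : ℕ, 1 ≤ p → p.Coprime q → r.Coprime q → p.Coprime r → r₀ ≤ r →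
      2 * q ^ m * p ≤ r → Rch q β ω (p * (q - 1)) (r * (q - 1)) →
      (∀ v ∈ Λ, ∀ v' ∈ Λ, GoodS q (p * (q - 1)) (r * (q - 1)) β e v v') → ∀ Y : ℕ,
      ∀ᶠ k : ℕ in atTop, ∀ y ≤ Y, ∀ c ≤ p * (q - 1), ∀ d' ≤ r * (q - 1),
      ∀ B B' : S → (Fin d → ℤ) → ℝ, (∀ x v, |B x v| ≤ 1) → (∀ x v, |B' x v| ≤ 1) →
        |av q k (fun n =>
          B (β (p * (q - 1) * (q ^ k * y + n) + c) * β ω) (e (p * (q - 1) * (q ^ k * y + n) + c)) *
          B' (β (r * (q - 1) * (q ^ k * y + n) + d') * β ω)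
            (e (r * (q - 1) * (q ^ k * y + n) + d')) -
          mS q k β ω e Λ u B (β (p * (q - 1) * (q ^ k * y + n) + c) * β ω) *
          mS q k β ω e Λ u B' (β (r * (q - 1) * (q ^ k * y + n) + d') * β ω))| ≤ ε := by
  obtain ⟨r₀, hr₀⟩ := pair_q hq he hgen (ε := ε / 16) (by positivity)
  obtain ⟨Cm, hCm0, hCm⟩ := mean_smooth hq he.gap hgen
  refine ⟨r₀, fun p r hp1 hpq hrq hpr hr hpr2 hrch hgood Y => ?_⟩
  have hpair := hr₀ p r hp1 hpq hrq hpr hr hpr2 0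
  have hsq : (q - 1).Coprime q := by
    have h1 : Nat.Coprime (q - 1) (q - 1 + 1) := by simp
    have h2 : q - 1 + 1 = q := by omega
    rwa [h2] at h1
  have hs1 : 1 ≤ q - 1 := by omega
  set P : ℕ := p * (q - 1) with hP
  set R : ℕ := r * (q - 1) with hR
  have hPq : P.Coprime q := Nat.Coprime.mul_left hpq hsq
  have hRq : R.Coprime q := Nat.Coprime.mul_left hrq hsq
  have hP1 : 1 ≤ P := Nat.mul_pos hp1 hs1
  have hr1 : 1 ≤ r := by
    have h1 : 1 ≤ 2 * q ^ m * p := Nat.mul_pos (by positivity) hp1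
    omega
  have hR1 : 1 ≤ R := Nat.mul_pos hr1 hs1
  have hPd : (q - 1) ∣ P := Dvd.intro_left p rfl
  have hRd : (q - 1) ∣ R := Dvd.intro_left r rfl
  obtain ⟨Cs, hCs0, hCs⟩ := smooth_both hq hN hΛ hgood hu
  obtain ⟨Ce, ρ, hCe0, hρ0, hρ1, hCe⟩ := equid hq hβ hω he.gap hP1 hR1 hrch
  obtain ⟨j₁, hj₁⟩ := gd_density (m := m) (ω := ω) hq hPq hP1 (ε := ε / 32) (by positivity)
  obtain ⟨j₂, hj₂⟩ := gd_density (m := m) (ω := ω) hq hRq hR1 (ε := ε / 32) (by positivity)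
  set j : ℕ := max j₁ j₂ with hj
  have hslow := mS_slow hq hβ hω he hgen Λ u j (ε := ε / 64) (by positivity)
  -- constants
  set D₁ : ℝ := q * ∑ i, |((e 1 i : ℤ) : ℝ)| with hD₁
  have hD₁0 : 0 ≤ D₁ := mul_nonneg (Nat.cast_nonneg q) (Finset.sum_nonneg fun i _ => abs_nonneg _)
  set C₀ : ℝ := Cs + 4 * Cm + 1 with hC₀
  have hC₀0 : 0 < C₀ := by positivity
  set ε₁ : ℝ := ε / (8 * C₀) with hε₁
  have hε₁0 : 0 < ε₁ := by positivity
  have q1 : C₀ * ε₁ = ε / 8 := by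
    rw [hε₁]
    field_simp
  set K : ℝ := C₀ + (Ce + 2 * D₁) * (2 / ε₁) with hK
  -- the eventual conditions
  obtain ⟨k₁, hk₁⟩ := eventually_atTop.mp (hpair (q ^ j * (Y + 1)))
  obtain ⟨k₂, hk₂⟩ := eventually_atTop.mp hslow
  have hρt : ∀ᶠ k : ℕ in atTop, Ce * ρ ^ k ≤ ε / 8 := by
    have h1 : Tendsto (fun k : ℕ => Ce * ρ ^ k) atTop (𝓝 (Ce * 0)) :=
      (tendsto_pow_atTop_nhds_zero_of_lt_one hρ0 hρ1).const_mul Ce
    rw [mul_zero] at h1
    exact h1.eventually_le_const (by positivity)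
  filter_upwards [eventually_ge_atTop (max k₁ k₂ + 2 * j), hρt,
    (tendsto_div_sqrt K).eventually_le_const (show (0 : ℝ) < ε / 8 by positivity)]
    with k hk hkρ hkK y hy c hc d' hd' B B' hB hB'
  obtain ⟨k', rfl⟩ : ∃ k', k = k' + j := ⟨k - j, by omega⟩
  have hk1' : k₁ ≤ k' := by
    have := le_max_left k₁ k₂
    omega
  have hk2' : k₂ ≤ k' := by
    have := le_max_right k₁ k₂
    omega
  have hjk : j ≤ k' := by omega
  -- the scale
  set w : ℝ := Real.sqrt (((k' + j : ℕ) : ℝ) + 1) with hw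
  have hw1 : 1 ≤ w := Real.one_le_sqrt.mpr (by
    linarith [(Nat.cast_nonneg (k' + j) : (0 : ℝ) ≤ ((k' + j : ℕ) : ℝ))])
  have hw0 : 0 < w := by linarith
  obtain ⟨hL, hLw, hδ1⟩ := scale hε₁0 hw1
  set L : ℕ := ⌈ε₁ * w⌉₊ with hLdef
  set δ : ℝ := 2 / L with hδ
  have hδ0 : 0 ≤ δ := by positivity
  have hL0 : (0 : ℝ) ≤ L := Nat.cast_nonneg L
  set w' : ℝ := Real.sqrt ((k' : ℝ) + 1) with hw'
  have hw'0 : 0 < w' := Real.sqrt_pos.mpr (by positivity)
  have hww : w ≤ 2 * w' := by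
    rw [hw, hw']
    have h1 : (2 : ℝ) = Real.sqrt 4 := by
      rw [show (4 : ℝ) = 2 ^ 2 by norm_num, Real.sqrt_sq (by norm_num)]
    rw [h1, ← Real.sqrt_mul (by norm_num)]
    refine Real.sqrt_le_sqrt ?_
    have h2 : (j : ℝ) ≤ k' := by exact_mod_cast hjk
    have h3 : (0 : ℝ) ≤ k' := Nat.cast_nonneg k'
    push_cast
    linarith
  have hLw' : (L : ℝ) / w' ≤ 2 * (L / w) := by
    rw [div_le_iff₀ hw'0, mul_assoc, div_mul_eq_mul_div, ← mul_div_assoc, le_div_iff₀ hw0]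
    have := mul_le_mul_of_nonneg_left hww hL0
    linarith
  -- the functions
  set G : S → (Fin d → ℤ) → ℝ := fun x v => smo L (extL Λ (u x) (B x)) v with hG
  set G' : S → (Fin d → ℤ) → ℝ := fun x v => smo L (extL Λ (u x) (B' x)) v with hG'
  have hGs : ∀ x, Slow δ (G x) := fun x => smo_slow hL (fun v => extL_abs (hB x) v)
  have hGs' : ∀ x, Slow δ (G' x) := fun x => smo_slow hL (fun v => extL_abs (hB' x) v)
  set Gb : S → (Fin d → ℤ) → ℝ := fun x v => AL q β ω (fun y => G y v) x with hGb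
  set Gb' : S → (Fin d → ℤ) → ℝ := fun x v => AL q β ω (fun y => G' y v) x with hGb'
  have hGbs : ∀ x, Slow δ (Gb x) := fun x => AL_slow hβ hω hGs x
  have hGbs' : ∀ x, Slow δ (Gb' x) := fun x => AL_slow hβ hω hGs' x
  set X : ℕ → ℕ := fun n => P * (q ^ (k' + j) * y + n) + c with hX
  set X' : ℕ → ℕ := fun n => R * (q ^ (k' + j) * y + n) + d' with hX'
  set M : S → ℝ := mS q (k' + j) β ω e Λ u B with hM
  set M' : S → ℝ := mS q (k' + j) β ω e Λ u B' with hM'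
  have hMa : ∀ x, |M x| ≤ 1 := fun x => mS_abs hq hβ hω hB x
  have hMa' : ∀ x, |M' x| ≤ 1 := fun x => mS_abs hq hβ hω hB' x
  -- first step: smoothing
  have s1 : |av q (k' + j) (fun n => B (β (X n) * β ω) (e (X n)) * B' (β (X' n) * β ω) (e (X' n))) -
      av q (k' + j) (fun n => G (β (X n) * β ω) (e (X n)) * G' (β (X' n) * β ω) (e (X' n)))| ≤
      Cs * L / w := by
    have h1 := hCs L hL 0 (k' + j) y c d' 0 0 hc hd' (by simp) (by simp)
      (fun x => B (x * β ω)) (fun x => B' (x * β ω)) (fun x v => hB _ v) (fun x v => hB' _ v)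
    unfold Phi pr at h1
    simp only [pow_zero, one_mul, add_zero, hu] at h1
    have e1 : (fun n => G (β (X n) * β ω) (e (X n)) * G' (β (X' n) * β ω) (e (X' n))) = fun n =>
        smo L (extL Λ (e (X n) : (Fin d → ℤ) ⧸ Λ) (B (β (X n) * β ω))) (e (X n)) *
        smo L (extL Λ (e (X' n) : (Fin d → ℤ) ⧸ Λ) (B' (β (X' n) * β ω))) (e (X' n)) := by
      funext n
      simp only [hG, hG', huω]
    rw [e1]
    exact h1
  -- second step: equidistribution of the finite part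
  have s2 : |av q (k' + j) (fun n => G (β (X n) * β ω) (e (X n)) *
      G' (β (X' n) * β ω) (e (X' n))) -
      av q (k' + j) (fun n => Gb (β (X n) * β ω) (e (X n)) *
      Gb' (β (X' n) * β ω) (e (X' n)))| ≤ Ce * (ρ ^ (k' + j) + δ) := by
    refine av_AL_close hβ hω (f := fun n y => G y (e (X n))) (g := fun n y => G' y (e (X' n)))
      (x := fun n => β (X n) * β ω) (y := fun n => β (X' n) * β ω) fun l hl l' hl' => ?_
    have h1 := hCe 0 (k' + j) y c d' 0 0 hc hd' (by simp) (by simp) δ hδ0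
      (fun x x' : S × (Fin d → ℤ) => smo L (extL Λ (u x.1) (B x.1)) x.2 *
        smo L (extL Λ (u x'.1) (B' x'.1)) x'.2) (slow_smooth hL hB hB') l hl l' hl'
    unfold Phi pr at h1
    simp only [pow_zero, one_mul, add_zero] at h1
    exact h1
  -- third step: the blocks
  have s3 : |av q (k' + j) (fun n => Gb (β (X n) * β ω) (e (X n)) *
      Gb' (β (X' n) * β ω) (e (X' n)) - M (β (X n) * β ω) * M' (β (X' n) * β ω))| ≤
      (ε / 16 + 2 * (δ * D₁ + Cm * L / w' + ε / 64)) + 2 * (ε / 16) := by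
    rw [av_tops]
    refine av_bad hq (G := fun n₁ => Gd q m ω P (q ^ j * y + n₁) ∧ Gd q m ω R (q ^ j * y + n₁))
      (by positivity) (by norm_num) (fun n₁ hn₁ hgd => ?_) (fun n₁ _ => ?_) ?_
    · obtain ⟨hgd1, hgd2⟩ := hgd
      set y' : ℕ := q ^ j * y + n₁ with hy'
      have hy'Y : y' ≤ q ^ j * (Y + 1) := by
        calc y' ≤ q ^ j * y + q ^ j := by omega
          _ = q ^ j * (y + 1) := by ring
          _ ≤ q ^ j * (Y + 1) := Nat.mul_le_mul_left _ (by omega)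
      have hXe : ∀ n, X (q ^ k' * n₁ + n) = P * (q ^ k' * y' + n) + c := by
        intro n
        simp only [hX, hy']
        rw [pow_add]
        ring
      have hXe' : ∀ n, X' (q ^ k' * n₁ + n) = R * (q ^ k' * y' + n) + d' := by
        intro n
        simp only [hX', hy']
        rw [pow_add]
        ring
      set x₁ : S := β (P * (q ^ k' * y') + c) * β ω with hx₁
      set x₁' : S := β (R * (q ^ k' * y') + d') * β ω with hx₁'
      have hc1 : ∀ n < q ^ k', Gb (β (X (q ^ k' * n₁ + n)) * β ω)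
          (e (X (q ^ k' * n₁ + n))) = Gb x₁ (e (P * (q ^ k' * y' + n) + c)) ∧
          M (β (X (q ^ k' * n₁ + n)) * β ω) = M x₁ := by
        intro n hn
        obtain ⟨l, hl, hle⟩ := block_const hq hβ hω hPd hgd1 hc hn
        rw [hXe, hle]
        exact ⟨AL_shift hq hβ hω hl _ _, mS_shift hq hβ hω hl _⟩
      have hc1' : ∀ n < q ^ k', Gb' (β (X' (q ^ k' * n₁ + n)) * β ω)
          (e (X' (q ^ k' * n₁ + n))) = Gb' x₁' (e (R * (q ^ k' * y' + n) + d')) ∧
          M' (β (X' (q ^ k' * n₁ + n)) * β ω) = M' x₁' := by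
        intro n hn
        obtain ⟨l, hl, hle⟩ := block_const hq hβ hω hRd hgd2 hd' hn
        rw [hXe', hle]
        exact ⟨AL_shift hq hβ hω hl _ _, mS_shift hq hβ hω hl _⟩
      have e1 : av q k' (fun n => Gb (β (X (q ^ k' * n₁ + n)) * β ω)
          (e (X (q ^ k' * n₁ + n))) * Gb' (β (X' (q ^ k' * n₁ + n)) * β ω)
          (e (X' (q ^ k' * n₁ + n))) - M (β (X (q ^ k' * n₁ + n)) * β ω) *
          M' (β (X' (q ^ k' * n₁ + n)) * β ω)) =
          av q k' (fun n => Gb x₁ (e (P * (q ^ k' * y' + n) + c)) *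
            Gb' x₁' (e (R * (q ^ k' * y' + n) + d'))) - M x₁ * M' x₁' := by
        rw [← av_const hq k' (M x₁ * M' x₁'), ← av_sub]
        refine av_congr fun n hn => ?_
        rw [(hc1 n hn).1, (hc1 n hn).2, (hc1' n hn).1, (hc1' n hn).2]
      rw [e1]
      -- the pair
      have h1 := (hk₁ k' hk1' y' hy'Y c hc d' hd' 0 (by simp) 0 (by simp) (Gb x₁) (Gb' x₁')
        (hGbs x₁).1 (hGbs' x₁').1).1
      unfold Phi at h1
      simp only [pow_zero, one_mul, add_zero] at h1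
      -- the means
      have hmean : ∀ (B : S → (Fin d → ℤ) → ℝ), (∀ x v, |B x v| ≤ 1) → ∀ (c : ℕ) (x : S),
          |mean q k' e (fun v => AL q β ω (fun y => smo L (extL Λ (u y) (B y)) v) x) c -
            mS q (k' + j) β ω e Λ u B x| ≤ δ * D₁ + Cm * L / w' + ε / 64 := by
        intro B hB c x
        have hsl : Slow δ (fun v => AL q β ω (fun y => smo L (extL Λ (u y) (B y)) v) x) :=
          AL_slow hβ hω (fun x => smo_slow hL (fun v => extL_abs (hB x) v)) x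
        have t1 := mean_slow_eq (k := k') hq he.gap hgen hδ0 hsl c
        have t2 : |av q k' (fun n => AL q β ω (fun y => smo L (extL Λ (u y) (B y)) (e n)) x) -
            mS q k' β ω e Λ u B x| ≤ Cm * L / w' := by
          rw [av_AL_one k' (fun n y => smo L (extL Λ (u y) (B y)) (e n)) x]
          refine AL_close hβ hω fun l _ => ?_
          rw [abs_sub_comm]
          exact hCm k' L hL _ fun v => extL_abs (hB _) v
        have t3 := hk₂ k' hk2' j le_rfl B hB x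
        have a1 := abs_le.mp t1
        have a2 := abs_le.mp t2
        have a3 := abs_le.mp t3
        rw [abs_le]
        constructor
        · linarith [a1.1, a2.1, a3.2]
        · linarith [a1.2, a2.2, a3.1]
      have m1 := hmean B hB c x₁
      have m2 := hmean B' hB' d' x₁'
      have m3 := abs_mul_close (mean_abs (k := k') (e := e) hq (hGbs x₁).1 c) (hMa' x₁') m1 m2
      have a1 := abs_le.mp h1
      have a3 := abs_le.mp m3
      rw [abs_le]
      constructor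
      · linarith [a1.1, a3.1]
      · linarith [a1.2, a3.2]
    · refine abs_av_le hq fun n _ => ?_
      refine (abs_sub _ _).trans ?_
      rw [abs_mul, abs_mul]
      have h1 := mul_le_one₀ ((hGbs (β (X (q ^ k' * n₁ + n)) * β ω)).1
        (e (X (q ^ k' * n₁ + n)))) (abs_nonneg _) ((hGbs' (β (X' (q ^ k' * n₁ + n)) * β ω)).1
        (e (X' (q ^ k' * n₁ + n))))
      have h2 := mul_le_one₀ (hMa (β (X (q ^ k' * n₁ + n)) * β ω)) (abs_nonneg _)
        (hMa' (β (X' (q ^ k' * n₁ + n)) * β ω))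
      linarith
    · have h1 := hj₁ j (le_max_left _ _) y
      have h2 := hj₂ j (le_max_right _ _) y
      have hfin1 : {n : ℕ | n < q ^ j ∧ ¬ Gd q m ω P (q ^ j * y + n)}.Finite :=
        (Set.finite_lt_nat (q ^ j)).subset fun n hn => hn.1
      have hfin2 : {n : ℕ | n < q ^ j ∧ ¬ Gd q m ω R (q ^ j * y + n)}.Finite :=
        (Set.finite_lt_nat (q ^ j)).subset fun n hn => hn.1
      have hsub : {n : ℕ | n < q ^ j ∧ ¬ (Gd q m ω P (q ^ j * y + n) ∧
          Gd q m ω R (q ^ j * y + n))} ⊆ {n : ℕ | n < q ^ j ∧ ¬ Gd q m ω P (q ^ j * y + n)} ∪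
          {n : ℕ | n < q ^ j ∧ ¬ Gd q m ω R (q ^ j * y + n)} := by
        rintro n ⟨hn1, hn2⟩
        by_cases h : Gd q m ω P (q ^ j * y + n)
        · exact Or.inr ⟨hn1, fun h' => hn2 ⟨h, h'⟩⟩
        · exact Or.inl ⟨hn1, h⟩
      have h3 : (Nat.card {n : ℕ | n < q ^ j ∧ ¬ (Gd q m ω P (q ^ j * y + n) ∧
          Gd q m ω R (q ^ j * y + n))} : ℝ) ≤
          (Nat.card {n : ℕ | n < q ^ j ∧ ¬ Gd q m ω P (q ^ j * y + n)} : ℝ) +
          (Nat.card {n : ℕ | n < q ^ j ∧ ¬ Gd q m ω R (q ^ j * y + n)} : ℝ) := by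
        rw [Nat.card_coe_set_eq, Nat.card_coe_set_eq, Nat.card_coe_set_eq]
        have h4 := Set.ncard_le_ncard hsub (hfin1.union hfin2)
        have h5 := Set.ncard_union_le {n : ℕ | n < q ^ j ∧ ¬ Gd q m ω P (q ^ j * y + n)}
          {n : ℕ | n < q ^ j ∧ ¬ Gd q m ω R (q ^ j * y + n)}
        exact_mod_cast h4.trans h5
      refine h3.trans ?_
      have : ε / 16 * (q : ℝ) ^ j = ε / 32 * (q : ℝ) ^ j + ε / 32 * (q : ℝ) ^ j := by ring
      rw [this]
      exact add_le_add h1 h2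
  -- conclusion
  have hfin : Cs * L / w + Ce * (ρ ^ (k' + j) + δ) +
      ((ε / 16 + 2 * (δ * D₁ + Cm * L / w' + ε / 64)) + 2 * (ε / 16)) ≤ ε := by
    have b1 : Cm * L / w' ≤ 2 * (Cm * (L / w)) := by
      have := mul_le_mul_of_nonneg_left hLw' hCm0
      rw [mul_div_assoc]
      linarith
    have b2 : Cs * L / w + 4 * (Cm * (L / w)) ≤ C₀ * (ε₁ + 1 / w) := by
      have e1 : Cs * L / w + 4 * (Cm * (L / w)) = (Cs + 4 * Cm) * (L / w) := by ring
      rw [e1]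
      exact mul_le_mul (by linarith) hLw (by positivity) hC₀0.le
    have b3 : (Ce + 2 * D₁) * δ ≤ (Ce + 2 * D₁) * (2 / ε₁ / w) :=
      mul_le_mul_of_nonneg_left hδ1 (by positivity)
    have b4 : K / w = C₀ * (1 / w) + (Ce + 2 * D₁) * (2 / ε₁ / w) := by
      rw [hK]
      ring
    have b5 : C₀ * (ε₁ + 1 / w) = C₀ * ε₁ + C₀ * (1 / w) := by ring
    have b6 : Ce * (ρ ^ (k' + j) + δ) = Ce * ρ ^ (k' + j) + Ce * δ := by ring
    have b7 : (Ce + 2 * D₁) * δ = Ce * δ + 2 * (δ * D₁) := by ring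
    linarith
  rw [av_sub] at s3 ⊢
  have a1 := abs_le.mp s1
  have a2 := abs_le.mp s2
  have a3 := abs_le.mp s3
  refine le_trans ?_ hfin
  rw [abs_le]
  constructor
  · linarith [a1.1, a2.1, a3.1]
  · linarith [a1.2, a2.2, a3.2]

end Pool.Agent.Lib.MP_3e612f_nt.SA
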