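import Pool.Agent.Lib.MP_3e612f_nt.NSlow
import Pool.Agent.Lib.MP_3e612f_nt.MPairAll
import Pool.Agent.Lib.MP_3e612f_nt.SPair

/-!
Averages over the products of the groups `LL` and the means attached to the finite parts.
-/

set_option autoImplicit false

namespace Pool.Agent.Lib.MP_3e612f_nt.NB

open Filter Topology
open Pool.Agent.Lib.MP_3e612f_nt.QA Pool.Agent.Lib.MP_3e612f_nt.SA Pool.Agent.Lib.MP_3e612f_nt.MB

section several

variable {ι : Type*} [Fintype ι] [DecidableEq ι] {q : ι → ℕ} {m : ℕ} {d : ι → ℕ}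
  {S : ι → Type*} [∀ i, Monoid (S i)] [∀ i, Finite (S i)]
  {β : ∀ i, ℕ → S i} {ω : ι → ℕ} {e : ∀ i, ℕ → Fin (d i) → ℤ} {C : ℝ}
  {Λ : ∀ i, AddSubgroup (Fin (d i) → ℤ)} {N' : ℕ} {u : ∀ i, S i → (Fin (d i) → ℤ) ⧸ Λ i}

/-- the product of the sets `LL` -/
noncomputable def PL (q : ι → ℕ) (β : ∀ i, ℕ → S i) (ω : ι → ℕ) : Finset (∀ i, S i) :=
  Fintype.piFinset fun i => LF (q i) (β i) (ω i)

theorem mem_PL {l : ∀ i, S i} : l ∈ PL q β ω ↔ ∀ i, l i ∈ LL (q i) (β i) (ω i) := by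
  unfold PL
  rw [Fintype.mem_piFinset]
  exact forall_congr' fun i => mem_LF

/-- average over the product of the sets `LL` -/
noncomputable def AP (q : ι → ℕ) (β : ∀ i, ℕ → S i) (ω : ι → ℕ) (f : (∀ i, S i) → ℝ)
    (x : ∀ i, S i) : ℝ :=
  (∑ l ∈ PL q β ω, f (x * l)) / (PL q β ω).card

theorem PL_nonempty (Sy : NSys q m β ω e C Λ N' u) : (PL q β ω).Nonempty :=
  ⟨fun i => β i (ω i), mem_PL.mpr fun i => LL_one (Sy.qm i) (Sy.core i)⟩

theorem AP_close (Sy : NSys q m β ω e C Λ N' u) {f g : (∀ i, S i) → ℝ} {x y : ∀ i, S i} {ε : ℝ}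
    (h : ∀ l ∈ PL q β ω, |f (x * l) - g (y * l)| ≤ ε) :
    |AP q β ω f x - AP q β ω g y| ≤ ε := by
  have hc' : (0 : ℝ) < (PL q β ω).card := by exact_mod_cast (PL_nonempty Sy).card_pos
  unfold AP
  rw [← sub_div, ← Finset.sum_sub_distrib, abs_div, abs_of_pos hc', div_le_iff₀ hc']
  refine (Finset.abs_sum_le_sum_abs _ _).trans ?_
  refine (Finset.sum_le_sum fun l hl => h l hl).trans (le_of_eq ?_)
  rw [Finset.sum_const, nsmul_eq_mul, mul_comm]

theorem AP_const (Sy : NSys q m β ω e C Λ N' u) (c : ℝ) (x : ∀ i, S i) :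
    AP q β ω (fun _ => c) x = c := by
  have hc' : (0 : ℝ) < (PL q β ω).card := by exact_mod_cast (PL_nonempty Sy).card_pos
  unfold AP
  rw [Finset.sum_const, nsmul_eq_mul, mul_div_cancel_left₀ _ hc'.ne']

theorem AP_abs (Sy : NSys q m β ω e C Λ N' u) {f : (∀ i, S i) → ℝ} {x : ∀ i, S i} {B : ℝ}
    (h : ∀ y, |f y| ≤ B) : |AP q β ω f x| ≤ B := by
  have h1 := AP_close Sy (f := f) (g := fun _ => 0) (x := x) (y := x) (ε := B) (fun l _ => by
    rw [sub_zero]
    exact h _)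
  rwa [AP_const Sy, sub_zero] at h1

theorem AP_sub (f g : (∀ i, S i) → ℝ) (x : ∀ i, S i) :
    AP q β ω (fun y => f y - g y) x = AP q β ω f x - AP q β ω g x := by
  unfold AP
  rw [← sub_div, ← Finset.sum_sub_distrib]

theorem AP_div (f : (∀ i, S i) → ℝ) (c : ℝ) (x : ∀ i, S i) :
    AP q β ω (fun y => f y / c) x = AP q β ω f x / c := by
  unfold AP
  rw [← Finset.sum_div, div_right_comm]

/-- the product of the sets `LL` is invariant under the left multiplication by its elements -/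
theorem PL_sum (Sy : NSys q m β ω e C Λ N' u) {l : ∀ i, S i} (hl : l ∈ PL q β ω)
    (f : (∀ i, S i) → ℝ) : ∑ x ∈ PL q β ω, f (l * x) = ∑ x ∈ PL q β ω, f x := by
  have hl' := mem_PL.mp hl
  choose k hk h1 h2 using fun i =>
    LL_inv (Sy.sys.base i) (Sy.qm i) (Sy.core i) (hl' i)
  have hkm : (k : ∀ i, S i) ∈ PL q β ω := mem_PL.mpr hk
  have hmul : ∀ {a b : ∀ i, S i}, a ∈ PL q β ω → b ∈ PL q β ω → a * b ∈ PL q β ω := by
    intro a b ha hb
    exact mem_PL.mpr fun i => LL_mul (Sy.sys.base i) (Sy.qm i) (Sy.core i)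
      (mem_PL.mp ha i) (mem_PL.mp hb i)
  have hid : ∀ {x : ∀ i, S i}, x ∈ PL q β ω → (fun i => β i (ω i)) * x = x := by
    intro x hx
    funext i
    exact LL_left (Sy.core i) (mem_PL.mp hx i)
  have hkl : k * l = fun i => β i (ω i) := by
    funext i
    exact h2 i
  have hlk : l * k = fun i => β i (ω i) := by
    funext i
    exact h1 i
  refine Finset.sum_nbij' (fun x => l * x) (fun x => k * x) (fun x hx => hmul hl hx)
    (fun x hx => hmul hkm hx) (fun x hx => ?_) (fun x hx => ?_) (fun x hx => rfl)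
  · rw [← mul_assoc, hkl]
    exact hid hx
  · rw [← mul_assoc, hlk]
    exact hid hx

theorem AP_shift (Sy : NSys q m β ω e C Λ N' u) {l : ∀ i, S i} (hl : l ∈ PL q β ω)
    (f : (∀ i, S i) → ℝ) (x : ∀ i, S i) : AP q β ω f (x * l) = AP q β ω f x := by
  unfold AP
  congr 1
  rw [← PL_sum Sy hl (fun y => f (x * y))]
  refine Finset.sum_congr rfl fun y _ => ?_
  rw [mul_assoc]

theorem AP_AP (Sy : NSys q m β ω e C Λ N' u) (f : (∀ i, S i) → ℝ) (x : ∀ i, S i) :
    AP q β ω (fun y => AP q β ω f y) x = AP q β ω f x := by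
  have h1 := AP_close Sy (f := fun y => AP q β ω f y) (g := fun _ => AP q β ω f x) (x := x)
    (y := x) (ε := 0) (fun l hl => by
      rw [AP_shift Sy hl, sub_self, abs_zero])
  rw [AP_const Sy] at h1
  exact sub_eq_zero.mp (abs_eq_zero.mp (le_antisymm h1 (abs_nonneg _)))

/-- the mean of `g` attached to the finite part `x` -/
noncomputable def mN (q : ι → ℕ) (k : ℕ) (β : ∀ i, ℕ → S i) (ω : ι → ℕ)
    (e : ∀ i, ℕ → Fin (d i) → ℤ) (Λ : ∀ i, AddSubgroup (Fin (d i) → ℤ))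
    (u : ∀ i, S i → (Fin (d i) → ℤ) ⧸ Λ i) (g : (∀ i, S i) → (∀ i, Fin (d i) → ℤ) → ℝ)
    (x : ∀ i, S i) : ℝ :=
  AP q β ω (fun y => modelAv q e k (extN Λ (fun i => u i (y i)) (g y))) x

theorem extN_abs {c : ∀ i, (Fin (d i) → ℤ) ⧸ Λ i} {g : (∀ i, Fin (d i) → ℤ) → ℝ} {B : ℝ}
    (hg : ∀ v, |g v| ≤ B) (v : ∀ i, Fin (d i) → ℤ) : |extN Λ c g v| ≤ B := hg _

theorem mN_abs (Sy : NSys q m β ω e C Λ N' u) {k : ℕ}
    {g : (∀ i, S i) → (∀ i, Fin (d i) → ℤ) → ℝ} {b : ℝ} (hg : ∀ s x, |g s x| ≤ b)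
    (x : ∀ i, S i) : |mN q k β ω e Λ u g x| ≤ b :=
  AP_abs Sy fun _ => modelAv_abs Sy.sys.base fun _ => extN_abs (hg _) _

theorem mN_shift (Sy : NSys q m β ω e C Λ N' u) {k : ℕ}
    {g : (∀ i, S i) → (∀ i, Fin (d i) → ℤ) → ℝ} {l : ∀ i, S i} (hl : l ∈ PL q β ω)
    (x : ∀ i, S i) : mN q k β ω e Λ u g (x * l) = mN q k β ω e Λ u g x := AP_shift Sy hl _ _

/-- the averages in the model vary slowly, several steps -/
theorem modelAv_slow_add (Sy : NSys q m β ω e C Λ N' u) (T : ℕ) {ε : ℝ} (hε : 0 < ε) :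
    ∀ᶠ k : ℕ in atTop, ∀ t ≤ T, ∀ g : (∀ i, Fin (d i) → ℤ) → ℝ, (∀ x, |g x| ≤ 1) →
      |modelAv q e (k + t) g - modelAv q e k g| ≤ ε := by
  have h1 := modelAv_slow Sy.sys (ε := ε / (T + 1)) (by positivity)
  obtain ⟨k₀, hk₀⟩ := eventually_atTop.mp h1
  filter_upwards [eventually_ge_atTop k₀] with k hk t ht g hg
  have h2 : ∀ t : ℕ, |modelAv q e (k + t) g - modelAv q e k g| ≤ t * (ε / (T + 1)) := by
    intro t
    induction t with
    | zero => simp
    | succ t ih =>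
      have h3 := hk₀ (k + t) (by omega) g hg
      have e1 : modelAv q e (k + (t + 1)) g - modelAv q e k g =
          (modelAv q e (k + t + 1) g - modelAv q e (k + t) g) +
          (modelAv q e (k + t) g - modelAv q e k g) := by
        rw [← add_assoc]
        ring
      rw [e1]
      refine (abs_add_le _ _).trans ((add_le_add h3 ih).trans (le_of_eq ?_))
      push_cast
      ring
  refine (h2 t).trans ?_
  rw [mul_div_assoc', div_le_iff₀ (by positivity)]
  have : (t : ℝ) ≤ T + 1 := by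
    have : (t : ℝ) ≤ T := by exact_mod_cast ht
    linarith
  nlinarith

/-- the means vary slowly with the scale -/
theorem mN_slow (Sy : NSys q m β ω e C Λ N' u) (T : ℕ) {ε : ℝ} (hε : 0 < ε) :
    ∀ᶠ k : ℕ in atTop, ∀ t ≤ T, ∀ g : (∀ i, S i) → (∀ i, Fin (d i) → ℤ) → ℝ,
      (∀ s x, |g s x| ≤ 1) → ∀ x,
      |mN q (k + t) β ω e Λ u g x - mN q k β ω e Λ u g x| ≤ ε := by
  filter_upwards [modelAv_slow_add Sy T hε] with k hk t ht g hg x
  exact AP_close Sy fun l _ => hk t ht _ fun v => extN_abs (hg _) v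

theorem modelAv_affine {q : ι → ℕ} (hq : ∀ i, 2 ≤ q i) {k : ℕ} (g : (∀ i, Fin (d i) → ℤ) → ℝ)
    (c b : ℝ) : modelAv q e k (fun x => (g x - c) / b) = (modelAv q e k g - c) / b := by
  have hpos : (0 : ℝ) < ∏ i, (q i : ℝ) ^ lg (q i) k :=
    Finset.prod_pos fun i _ => qpow_posR (hq i) _
  have hcard : ((Fintype.piFinset (fun i => Finset.range (q i ^ lg (q i) k))).card : ℝ) =
      ∏ i, (q i : ℝ) ^ lg (q i) k := by
    rw [Fintype.card_piFinset]
    push_cast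
    exact Finset.prod_congr rfl fun i _ => by rw [Finset.card_range]; push_cast; rfl
  unfold modelAv
  rw [← Finset.sum_div, Finset.sum_sub_distrib, Finset.sum_const, nsmul_eq_mul, hcard,
    div_right_comm, sub_div, mul_div_cancel_left₀ _ hpos.ne']

/-- the centred function has mean zero -/
theorem mN_centred (Sy : NSys q m β ω e C Λ N' u) {k : ℕ}
    (g : (∀ i, S i) → (∀ i, Fin (d i) → ℤ) → ℝ) (x : ∀ i, S i) :
    mN q k β ω e Λ u (fun s v => (g s v - mN q k β ω e Λ u g s) / 2) x = 0 := by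
  have h1 : ∀ y : ∀ i, S i, modelAv q e k (extN Λ (fun i => u i (y i))
      ((fun s v => (g s v - mN q k β ω e Λ u g s) / 2) y)) =
      (modelAv q e k (extN Λ (fun i => u i (y i)) (g y)) - mN q k β ω e Λ u g y) / 2 :=
    fun y => modelAv_affine Sy.sys.base (extN Λ (fun i => u i (y i)) (g y)) _ _
  unfold mN at h1 ⊢
  simp only [h1]
  rw [AP_div, AP_sub]
  have h2 := AP_AP Sy (fun y => modelAv q e k (extN Λ (fun i => u i (y i)) (g y))) x
  rw [h2, sub_self, zero_div]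

/-- averages of slowly varying functions -/
theorem AP_slowP (Sy : NSys q m β ω e C Λ N' u) {δ : ℝ}
    {G : (∀ i, S i) → (∀ i, Fin (d i) → ℤ) → ℝ} (hG : ∀ y, SlowP δ (G y)) (x : ∀ i, S i) :
    SlowP δ (fun v => AP q β ω (fun y => G y v) x) :=
  ⟨fun v => AP_abs Sy fun y => (hG y).1 v, fun v i a => AP_close Sy fun l _ => (hG (x * l)).2 v i a⟩

theorem modelAv_AP {k : ℕ} (G : (∀ i, S i) → (∀ i, Fin (d i) → ℤ) → ℝ) (x : ∀ i, S i) :
    modelAv q e k (fun v => AP q β ω (fun y => G y v) x) =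
      AP q β ω (fun y => modelAv q e k (G y)) x := by
  unfold modelAv AP
  rw [← Finset.sum_div, Finset.sum_comm, ← Finset.sum_div, div_right_comm]

end several

end Pool.Agent.Lib.MP_3e612f_nt.NB
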