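import Pool.Agent.Lib.MP_3e612f_nt.NDefs
import Pool.Agent.Lib.MP_3e612f_nt.STop

/-!
Most dyadic intervals are good.
-/

set_option autoImplicit false

namespace Pool.Agent.Lib.MP_3e612f_nt.NB

open Filter Topology
open Pool.Agent.Lib.MP_3e612f_nt.QA Pool.Agent.Lib.MP_3e612f_nt.SA Pool.Agent.Lib.MP_3e612f_nt.MB

/-- a number containing the word `v` of length `g` -/
def n13_G (q g v Z : ℕ) : Prop := ∃ s Y r : ℕ, r < q ^ s ∧ Z = q ^ s * (q ^ g * Y + v) + r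

theorem n13_gk {q m ω P k a b₀ y : ℕ} (hq : 2 ≤ q) (ha : ω < q ^ a)
    (hb : 2 * (P * 2 ^ k) ≤ q ^ b₀)
    (h : n13_G q (a + 2 * m + 1) (q ^ (m + 1) * ω) (P * (2 ^ k * y) / q ^ b₀)) :
    Gk q m ω P k y := by
  obtain ⟨s, Y, r, hr, hZ⟩ := h
  have hb0 : 0 < q ^ b₀ := Nat.pow_pos (by omega)
  have hs0 : 0 < q ^ s := Nat.pow_pos (by omega)
  have hdm := Nat.div_add_mod (P * (2 ^ k * y)) (q ^ b₀)
  have hmod : P * (2 ^ k * y) % q ^ b₀ < q ^ b₀ := Nat.mod_lt _ hb0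
  rw [hZ] at hdm
  have e : q ^ (b₀ + s + 1 + m) * (q ^ (a + m) * Y + ω) =
      q ^ b₀ * (q ^ s * (q ^ (a + 2 * m + 1) * Y + q ^ (m + 1) * ω)) := by
    have e1 : q ^ (a + 2 * m + 1) = q ^ (m + 1) * q ^ (a + m) := by
      rw [← pow_add]; congr 1; omega
    have e2 : q ^ (b₀ + s + 1 + m) = q ^ b₀ * q ^ s * q ^ (m + 1) := by
      rw [← pow_add, ← pow_add]; congr 1; omega
    rw [e1, e2]
    ring
  have e3 : q ^ (b₀ + s + 1) = q ^ b₀ * (q * q ^ s) := by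
    rw [← pow_succ', ← pow_add]; congr 1
  rw [Nat.mul_add (q ^ b₀)] at hdm
  refine ⟨a, b₀ + s + 1, Y, ha, ?_, ?_⟩
  · rw [e, ← hdm]
    exact (Nat.le_add_right _ _).trans (Nat.le_add_right _ _)
  · rw [e, e3]
    have h1 : r + 2 ≤ q * q ^ s := by nlinarith
    have h2 : q ^ b₀ * (r + 2) ≤ q ^ b₀ * (q * q ^ s) := Nat.mul_le_mul_left _ h1
    have h3 : P * (2 ^ k * (y + 1)) + P ≤ P * (2 ^ k * y) + 2 * (P * 2 ^ k) := by
      have : P ≤ P * 2 ^ k := Nat.le_mul_of_pos_right _ (by positivity)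
      nlinarith
    rw [Nat.mul_add (q ^ b₀)] at h2
    generalize q ^ b₀ * (q ^ s * (q ^ (a + 2 * m + 1) * Y + q ^ (m + 1) * ω)) = A at *
    generalize q ^ b₀ * (q * q ^ s) = B at *
    generalize q ^ b₀ * r = D at *
    generalize P * (2 ^ k * y) = F at *
    generalize F % q ^ b₀ = F' at *
    generalize q ^ b₀ = G at *
    generalize P * 2 ^ k = H at *
    omega

/-- the number of arguments with the same value -/
theorem n13_fib {c Q b : ℕ} (hQ0 : 0 < Q) (hQ : Q < c * b) (y N z : ℕ) :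
    ((Finset.range N).filter (fun n => c * (y + n) / Q = z)).card ≤ b := by
  rcases ((Finset.range N).filter (fun n => c * (y + n) / Q = z)).eq_empty_or_nonempty with h | h
  · rw [h]; simp
  · obtain ⟨n₀, hn₀, hmin⟩ := Finset.exists_min_image _ id h
    have hsub : ((Finset.range N).filter (fun n => c * (y + n) / Q = z)) ⊆
        Finset.Ico n₀ (n₀ + b) := by
      intro n hn
      have h1 := hmin n hn
      simp only [id] at h1
      rw [Finset.mem_Ico]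
      refine ⟨h1, ?_⟩
      have h2 := (Finset.mem_filter.1 hn).2
      have h3 := (Finset.mem_filter.1 hn₀).2
      by_contra hcon
      push Not at hcon
      have h4 := Nat.div_add_mod (c * (y + n)) Q
      have h5 := Nat.div_add_mod (c * (y + n₀)) Q
      have h6 : c * (y + n) % Q < Q := Nat.mod_lt _ hQ0
      rw [h2] at h4
      rw [h3] at h5
      have h7 : c * (y + n₀) + c * b ≤ c * (y + n) := by
        rw [← Nat.mul_add]
        exact Nat.mul_le_mul_left _ (by omega)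
      omega
    calc _ ≤ (Finset.Ico n₀ (n₀ + b)).card := Finset.card_le_card hsub
      _ = b := by rw [Nat.card_Ico]; omega

open Classical in
/-- the main count -/
theorem n13_count {q g v m ω P k a b₀ : ℕ} (hq : 2 ≤ q) (hv : v < q ^ g)
    (ha : ω < q ^ a) (hg : g = a + 2 * m + 1) (hv' : v = q ^ (m + 1) * ω)
    (hb : 2 * (P * 2 ^ k) ≤ q ^ b₀) (hb' : q ^ b₀ < P * 2 ^ k * (2 * q)) (t j y : ℕ) :
    ((Finset.range (2 ^ j)).filter (fun n => ¬ Gk q m ω P k (2 ^ j * y + n))).card ≤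
      2 * q * ((2 ^ j / q ^ (g * t) + 2) * (q ^ g - 1) ^ t) := by
  have hQ0 : 0 < q ^ b₀ := Nat.pow_pos (by omega)
  have hB0 : 0 < q ^ (g * t) := Nat.pow_pos (by omega)
  set Zf : ℕ → ℕ := fun n => P * 2 ^ k * (2 ^ j * y + n) / q ^ b₀ with hZf
  set Z₀ : ℕ := Zf 0 with hZ₀
  have hZle : ∀ n < 2 ^ j, Z₀ ≤ Zf n ∧ Zf n ≤ Z₀ + 2 ^ j := by
    intro n hn
    constructor
    · exact Nat.div_le_div_right (Nat.mul_le_mul_left _ (by omega))
    · have h1 : P * 2 ^ k * (2 ^ j * y + n) ≤ P * 2 ^ k * (2 ^ j * y + 0) + q ^ b₀ * n := by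
        have : P * 2 ^ k * n ≤ q ^ b₀ * n := Nat.mul_le_mul_right _ (by omega)
        rw [Nat.mul_add, Nat.mul_add]
        omega
      have h2 : Zf n ≤ (P * 2 ^ k * (2 ^ j * y + 0) + q ^ b₀ * n) / q ^ b₀ :=
        Nat.div_le_div_right h1
      rw [Nat.add_mul_div_left _ _ hQ0] at h2
      have h3 : Zf n ≤ Z₀ + n := h2
      omega
  have hbad : ∀ n, ¬ Gk q m ω P k (2 ^ j * y + n) → ¬ n13_G q g v (Zf n) := by
    intro n hn hG
    apply hn
    subst hg hv'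
    apply n13_gk hq ha hb
    have e : P * (2 ^ k * (2 ^ j * y + n)) = P * 2 ^ k * (2 ^ j * y + n) := by ring
    rw [e]
    exact hG
  -- the bad values
  set T : Finset ℕ := (Finset.Icc (Z₀ / q ^ (g * t)) ((Z₀ + 2 ^ j) / q ^ (g * t))).biUnion
    (fun w => ((Finset.range (q ^ (g * t))).filter
      (fun u => ¬ n13_G q g v (q ^ (g * t) * w + u))).image (fun u => q ^ (g * t) * w + u)) with hT
  have hTc : T.card ≤ (2 ^ j / q ^ (g * t) + 2) * (q ^ g - 1) ^ t := by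
    have h1 : ∀ w : ℕ, (((Finset.range (q ^ (g * t))).filter
      (fun u => ¬ n13_G q g v (q ^ (g * t) * w + u))).image
        (fun u => q ^ (g * t) * w + u)).card ≤ (q ^ g - 1) ^ t := by
      intro w
      refine Finset.card_image_le.trans ?_
      have h2 := t6_count hq hv (n13_G q g v) (fun s Z r hr => ⟨s, Z, r, hr, rfl⟩) t 0 w
      rw [zero_add, pow_zero, mul_one, Nat.card_coe_set_eq] at h2
      refine le_trans (le_of_eq ?_) h2
      rw [← Set.ncard_coe_finset]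
      congr 1
      ext n
      simp
    have h3 : T.card ≤ ∑ w ∈ Finset.Icc (Z₀ / q ^ (g * t)) ((Z₀ + 2 ^ j) / q ^ (g * t)),
        (q ^ g - 1) ^ t :=
      Finset.card_biUnion_le.trans (Finset.sum_le_sum fun w _ => h1 w)
    rw [Finset.sum_const, smul_eq_mul, Nat.card_Icc] at h3
    refine h3.trans (Nat.mul_le_mul_right _ ?_)
    have h4 : (Z₀ + 2 ^ j) / q ^ (g * t) ≤ Z₀ / q ^ (g * t) + 2 ^ j / q ^ (g * t) + 1 := by
      have h6 := Nat.div_add_mod Z₀ (q ^ (g * t))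
      have h7 := Nat.div_add_mod (2 ^ j) (q ^ (g * t))
      have h8 : Z₀ % q ^ (g * t) < q ^ (g * t) := Nat.mod_lt _ hB0
      have h9 : 2 ^ j % q ^ (g * t) < q ^ (g * t) := Nat.mod_lt _ hB0
      rw [← Nat.lt_succ_iff, Nat.div_lt_iff_lt_mul hB0]
      nlinarith
    generalize (Z₀ + 2 ^ j) / q ^ (g * t) = A at h4 ⊢
    generalize Z₀ / q ^ (g * t) = B at h4 ⊢
    generalize 2 ^ j / q ^ (g * t) = D at h4 ⊢
    omega
  have hmaps : ∀ n ∈ (Finset.range (2 ^ j)).filter (fun n => ¬ Gk q m ω P k (2 ^ j * y + n)),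
      Zf n ∈ T := by
    intro n hn
    obtain ⟨hn1, hn2⟩ := Finset.mem_filter.1 hn
    obtain ⟨h1, h2⟩ := hZle n (Finset.mem_range.1 hn1)
    have h3 := hbad n hn2
    have h4 := Nat.div_add_mod (Zf n) (q ^ (g * t))
    rw [hT, Finset.mem_biUnion]
    refine ⟨Zf n / q ^ (g * t), ?_, ?_⟩
    · rw [Finset.mem_Icc]
      exact ⟨Nat.div_le_div_right h1, Nat.div_le_div_right h2⟩
    · rw [Finset.mem_image]
      refine ⟨Zf n % q ^ (g * t), ?_, h4⟩
      rw [Finset.mem_filter, Finset.mem_range, h4]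
      exact ⟨Nat.mod_lt _ hB0, h3⟩
  have hfib : ∀ z ∈ T, (((Finset.range (2 ^ j)).filter
      (fun n => ¬ Gk q m ω P k (2 ^ j * y + n))).filter (fun n => Zf n = z)).card ≤ 2 * q := by
    intro z _
    refine le_trans (Finset.card_le_card ?_)
      (n13_fib (c := P * 2 ^ k) hQ0 hb' (2 ^ j * y) (2 ^ j) z)
    intro n hn
    obtain ⟨hn1, hn2⟩ := Finset.mem_filter.1 hn
    exact Finset.mem_filter.2 ⟨(Finset.mem_filter.1 hn1).1, hn2⟩
  have hfin := Finset.card_le_mul_card_image_of_maps_to hmaps (2 * q) hfib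
  exact hfin.trans (Nat.mul_le_mul_left _ hTc)

open Classical in
/-- N13 (NTop.lean): most intervals are good -/
theorem gk_density {q m ω P : ℕ} (hq : 2 ≤ q) (hP1 : 1 ≤ P) {ε : ℝ} (hε : 0 < ε) :
    ∃ j₀ : ℕ, ∀ j ≥ j₀, ∀ k y : ℕ,
      (((Finset.range (2 ^ j)).filter (fun n => ¬ Gk q m ω P k (2 ^ j * y + n))).card : ℝ) ≤
        ε * 2 ^ j := by
  obtain ⟨a, ha⟩ : ∃ a, ω < q ^ a := ⟨ω, Nat.lt_pow_self (by omega)⟩
  obtain ⟨g, hg⟩ : ∃ g, g = a + 2 * m + 1 := ⟨_, rfl⟩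
  obtain ⟨v, hv'⟩ : ∃ v, v = q ^ (m + 1) * ω := ⟨_, rfl⟩
  have hv : v < q ^ g := by
    have e : q ^ g = q ^ (m + 1) * q ^ (a + m) := by
      rw [hg, ← pow_add]; congr 1; omega
    rw [hv', e]
    refine Nat.mul_lt_mul_of_pos_left (lt_of_lt_of_le ha ?_) (Nat.pow_pos (by omega))
    exact Nat.pow_le_pow_right (by omega) (by omega)
  have hq1 : (1 : ℝ) ≤ q := by exact_mod_cast (by omega : 1 ≤ q)
  have hqg : (1 : ℝ) ≤ (q : ℝ) ^ g := one_le_pow₀ hq1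
  have hqp : (0 : ℝ) < (q : ℝ) ^ g := by linarith
  have hq0 : (0 : ℝ) < 2 * q := by linarith
  obtain ⟨t, ht⟩ := exists_pow_lt_of_lt_one (show 0 < ε / 2 / (2 * q) by positivity)
    (show (((q : ℝ) ^ g - 1) / (q : ℝ) ^ g) < 1 by rw [div_lt_one hqp]; linarith)
  obtain ⟨j₀, hj₀⟩ := pow_unbounded_of_one_lt
    (2 * q * (2 * ((q : ℝ) ^ g - 1) ^ t) / (ε / 2)) (one_lt_two : (1 : ℝ) < 2)
  refine ⟨j₀, fun j hj k y => ?_⟩
  have hP2 : 1 < 2 * (P * 2 ^ k) := by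
    have : 1 ≤ P * 2 ^ k := Nat.mul_pos hP1 (by positivity)
    omega
  have hb : 2 * (P * 2 ^ k) ≤ q ^ Nat.clog q (2 * (P * 2 ^ k)) := Nat.le_pow_clog (by omega) _
  have hb' : q ^ Nat.clog q (2 * (P * 2 ^ k)) < P * 2 ^ k * (2 * q) := by
    have h1 := Nat.pow_pred_clog_lt_self (b := q) (by omega) hP2
    have h2 : 0 < Nat.clog q (2 * (P * 2 ^ k)) := Nat.clog_pos (by omega) hP2
    have h3 : q ^ Nat.clog q (2 * (P * 2 ^ k)) =
        q ^ (Nat.clog q (2 * (P * 2 ^ k))).pred * q := by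
      rw [← pow_succ]
      congr 1
      exact (Nat.succ_pred_eq_of_pos h2).symm
    rw [h3]
    calc _ < 2 * (P * 2 ^ k) * q := Nat.mul_lt_mul_of_pos_right h1 (by omega)
      _ = _ := by ring
  have hc := n13_count hq hv ha hg hv' hb hb' t j y
  have hc' : (((Finset.range (2 ^ j)).filter
      (fun n => ¬ Gk q m ω P k (2 ^ j * y + n))).card : ℝ) ≤
      2 * q * ((2 ^ j / (q : ℝ) ^ (g * t) + 2) * ((q : ℝ) ^ g - 1) ^ t) := by
    have h1 : (((Finset.range (2 ^ j)).filter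
      (fun n => ¬ Gk q m ω P k (2 ^ j * y + n))).card : ℝ) ≤
      ((2 * q * ((2 ^ j / q ^ (g * t) + 2) * (q ^ g - 1) ^ t) : ℕ) : ℝ) := by
      exact_mod_cast hc
    refine h1.trans ?_
    have h2 : 1 ≤ q ^ g := Nat.one_le_pow _ _ (by omega)
    push_cast [Nat.cast_sub h2]
    have h3 : (((2 ^ j / q ^ (g * t) : ℕ)) : ℝ) ≤ 2 ^ j / (q : ℝ) ^ (g * t) := by
      have := Nat.cast_div_le (α := ℝ) (m := 2 ^ j) (n := q ^ (g * t))
      push_cast at this
      exact this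
    have h4 : (0 : ℝ) ≤ ((q : ℝ) ^ g - 1) ^ t := pow_nonneg (by linarith) _
    gcongr
  refine hc'.trans ?_
  have h5 : ((q : ℝ) ^ g - 1) ^ t / (q : ℝ) ^ (g * t) < ε / 2 / (2 * q) := by
    rw [pow_mul, ← div_pow]
    exact ht
  have h6 : 2 * q * (2 * ((q : ℝ) ^ g - 1) ^ t) ≤ ε / 2 * 2 ^ j := by
    have h7 : (2 : ℝ) ^ j₀ ≤ 2 ^ j := pow_le_pow_right₀ (by norm_num) hj
    have h8 := (div_lt_iff₀ (by positivity : (0 : ℝ) < ε / 2)).1 hj₀
    nlinarith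
  have h9 : 2 * q * (((q : ℝ) ^ g - 1) ^ t / (q : ℝ) ^ (g * t)) ≤ ε / 2 := by
    have := (lt_div_iff₀ hq0).1 h5
    linarith
  have h10 : (0 : ℝ) < 2 ^ j := by positivity
  calc 2 * q * ((2 ^ j / (q : ℝ) ^ (g * t) + 2) * ((q : ℝ) ^ g - 1) ^ t)
      = (2 * q * (((q : ℝ) ^ g - 1) ^ t / (q : ℝ) ^ (g * t))) * 2 ^ j +
          2 * q * (2 * ((q : ℝ) ^ g - 1) ^ t) := by ring
    _ ≤ ε / 2 * 2 ^ j + ε / 2 * 2 ^ j := add_le_add (mul_le_mul_of_nonneg_right h9 h10.le) h6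
    _ = ε * 2 ^ j := by ring

end Pool.Agent.Lib.MP_3e612f_nt.NB
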