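import Pool.Agent.Lib.MP_3e612f_nt.NIncrF
import Pool.Agent.Lib.MP_3e612f_nt.WOne

/-!
Near-invariance of the finite parts for slowly varying functions.
-/

set_option autoImplicit false

namespace Pool.Agent.Lib.MP_3e612f_nt.NB

open Filter Topology
open Pool.Agent.Lib.MP_3e612f_nt.QA Pool.Agent.Lib.MP_3e612f_nt.SA Pool.Agent.Lib.MP_3e612f_nt.MB

theorem nt_bi (p : Prop) [Decidable p] : bi p = if p then 1 else 0 := by
  unfold bi
  split_ifs <;> rfl

/-- the average of the weighted double sum -/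
theorem nt_double {α : Type*} [DecidableEq α] {W : ℕ → ℂ} (hW : ∀ r, ‖W r‖ ≤ 1) {k a : ℕ}
    {B : Finset ℕ} {b : ℝ} (hb : 0 ≤ b) (Z : ℕ → α) (σ : α → α)
    (h1 : ∀ r < 2 ^ a, r ∉ B → ∀ u : ℕ, |av 2 k (fun n =>
      (if Z (u + n + r) = Z (u + n) then (1 : ℝ) else 0) -
      (if Z (u + n + r) = σ (Z (u + n)) then (1 : ℝ) else 0))| ≤ b)
    (h2 : ∀ r < 2 ^ a, r ∉ B → ∀ u : ℕ, |av 2 k (fun n =>
      (if Z (u + n) = Z (u + n + r) then (1 : ℝ) else 0) -
      (if Z (u + n) = σ (Z (u + n + r)) then (1 : ℝ) else 0))| ≤ b) (u : ℕ) :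
    av 2 k (fun n => (∑ r ∈ Finset.range (2 ^ a), ∑ r' ∈ Finset.range (2 ^ a),
      2 * (W r * (starRingEnd ℂ) (W r')).re *
        ((if Z (u + n + r) = Z (u + n + r') then (1 : ℝ) else 0) -
        (if Z (u + n + r) = σ (Z (u + n + r')) then (1 : ℝ) else 0))) / ((2 ^ a : ℕ) : ℝ) ^ 2) ≤
      2 * (b + 2 * (B.card / 2 ^ a)) := by
  have e1 : av 2 k (fun n => (∑ r ∈ Finset.range (2 ^ a), ∑ r' ∈ Finset.range (2 ^ a),
      2 * (W r * (starRingEnd ℂ) (W r')).re *
        ((if Z (u + n + r) = Z (u + n + r') then (1 : ℝ) else 0) -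
        (if Z (u + n + r) = σ (Z (u + n + r')) then (1 : ℝ) else 0))) / ((2 ^ a : ℕ) : ℝ) ^ 2) ≤
      2 * (∑ r ∈ Finset.range (2 ^ a), ∑ r' ∈ Finset.range (2 ^ a), |av 2 k (fun n =>
        (if Z (u + n + r) = Z (u + n + r') then (1 : ℝ) else 0) -
        (if Z (u + n + r) = σ (Z (u + n + r')) then (1 : ℝ) else 0))|) / ((2 ^ a : ℕ) : ℝ) ^ 2 := by
    rw [av_div, av_finset_sum]
    refine div_le_div_of_nonneg_right ?_ (by positivity)
    rw [Finset.mul_sum]
    refine Finset.sum_le_sum fun r _ => ?_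
    rw [av_finset_sum, Finset.mul_sum]
    refine Finset.sum_le_sum fun r' _ => ?_
    rw [av_const_mul]
    have hre : |(W r * (starRingEnd ℂ) (W r')).re| ≤ 1 := by
      refine (Complex.abs_re_le_norm _).trans ?_
      rw [norm_mul, RCLike.norm_conj]
      exact mul_le_one₀ (hW r) (norm_nonneg _) (hW r')
    set T : ℝ := av 2 k (fun n => (if Z (u + n + r) = Z (u + n + r') then (1 : ℝ) else 0) -
        (if Z (u + n + r) = σ (Z (u + n + r')) then (1 : ℝ) else 0)) with hT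
    calc 2 * (W r * (starRingEnd ℂ) (W r')).re * T ≤
        |2 * (W r * (starRingEnd ℂ) (W r')).re * T| := le_abs_self _
      _ = 2 * (|(W r * (starRingEnd ℂ) (W r')).re| * |T|) := by
        rw [abs_mul, abs_mul, abs_of_pos (by norm_num : (0 : ℝ) < 2)]
        ring
      _ ≤ 2 * (1 * |T|) := by gcongr
      _ = 2 * |T| := by ring
  refine e1.trans ?_
  have hpair := m10_pairs (2 ^ a) B (g := fun r r' => |av 2 k (fun n =>
        (if Z (u + n + r) = Z (u + n + r') then (1 : ℝ) else 0) -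
        (if Z (u + n + r) = σ (Z (u + n + r')) then (1 : ℝ) else 0))|) hb ?_ ?_
  · have h2 : (0 : ℝ) < ((2 ^ a : ℕ) : ℝ) := by positivity
    rw [div_le_iff₀ (by positivity)]
    have h3 : 2 * (b + 2 * ((B.card : ℝ) / 2 ^ a)) * ((2 ^ a : ℕ) : ℝ) ^ 2 =
        2 * (((2 ^ a : ℕ) : ℝ) * (((2 ^ a : ℕ) : ℝ) * b + 2 * B.card)) := by
      push_cast
      field_simp
    rw [h3]
    linarith
  · intro r r'
    refine abs_av_le le_rfl fun n _ => ?_
    split_ifs <;> norm_num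
  · intro r hr r' hr' hδ
    rcases le_total r' r with hle | hle
    · have hB' := h1 (r - r') (by omega) (by
        have : (r - r') + (r' - r) = r - r' := by omega
        rwa [this] at hδ) (u + r')
      refine le_trans (le_of_eq (congrArg abs ?_)) hB'
      refine av_congr fun n _ => ?_
      have e2 : u + r' + n + (r - r') = u + n + r := by omega
      have e3 : u + r' + n = u + n + r' := by omega
      rw [e2, e3]
    · have hB' := h2 (r' - r) (by omega) (by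
        have : (r - r') + (r' - r) = r' - r := by omega
        rwa [this] at hδ) (u + r)
      refine le_trans (le_of_eq (congrArg abs ?_)) hB'
      refine av_congr fun n _ => ?_
      have e2 : u + r + n + (r' - r) = u + n + r' := by omega
      have e3 : u + r + n = u + n + r := by omega
      rw [e2, e3]

section several

variable {ι : Type*} [Fintype ι] [DecidableEq ι] {q : ι → ℕ} {m : ℕ} {d : ι → ℕ}
  {S : ι → Type*} [∀ i, Monoid (S i)] [∀ i, Finite (S i)]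
  {β : ∀ i, ℕ → S i} {ω : ι → ℕ} {e : ∀ i, ℕ → Fin (d i) → ℤ} {C : ℝ}
  {Λ : ∀ i, AddSubgroup (Fin (d i) → ℤ)} {N' : ℕ} {u : ∀ i, S i → (Fin (d i) → ℤ) ⧸ Λ i}

open Classical in
/-- multiplication on the right in one coordinate, on the stable elements -/
noncomputable def nt_tau (i₀ : ι) (E l : S i₀) (x : ∀ i, S i) : ∀ i, S i :=
  if x i₀ * E = x i₀ then x * Pi.mulSingle i₀ l else x

theorem nt_tau_inv {i₀ : ι} {E l k : S i₀} (hl : l * E = l) (hlk : l * k = E)
    (x : ∀ i, S i) : nt_tau i₀ E k (nt_tau i₀ E l x) = x := by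
  unfold nt_tau
  by_cases hx : x i₀ * E = x i₀
  · rw [if_pos hx]
    have h1 : (x * Pi.mulSingle i₀ l : ∀ i, S i) i₀ = x i₀ * l := by
      rw [Pi.mul_apply, Pi.mulSingle_eq_same]
    rw [h1, if_pos (by rw [mul_assoc, hl]), mul_assoc, ← Pi.mulSingle_mul, hlk]
    funext j
    rw [Pi.mul_apply]
    by_cases hj : j = i₀
    · subst hj
      rw [Pi.mulSingle_eq_same, hx]
    · rw [Pi.mulSingle_eq_of_ne hj, mul_one]
  · rw [if_neg hx, if_neg hx]

theorem nt_tau_BW (i₀ : ι) (hω : Core (q i₀) (β i₀) (ω i₀)) (l : S i₀) (h : ℕ) (P c z : ι → ℕ)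
    (n : ℕ) : nt_tau i₀ (β i₀ (ω i₀)) l (BW q β ω h P c z n) =
      BW q β ω h P c z n * Pi.mulSingle i₀ l := by
  unfold nt_tau
  rw [if_pos]
  unfold BW
  rw [mul_assoc, hω.idem]

/-- near-invariance of the finite part in one base -/
theorem nt_one (Sy : NSys q m β ω e C Λ N' u) {P R : ι → ℕ} (hPR : MulN q m β ω P R)
    (h Y : ℕ) {ε D : ℝ} (hε : 0 < ε) (i₀ : ι) :
    ∀ᶠ k : ℕ in atTop, ∀ y ≤ Y, ∀ c z c' z' : ι → ℕ, Bd q h P c z → Bd q h R c' z' → ∀ θ : ℝ,
      ∀ Ψ : (∀ i, S i) → (∀ i, Fin (d i) → ℤ) → (∀ i, S i) → (∀ i, Fin (d i) → ℤ) → ℝ,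
        (∀ s x s' x', |Ψ s x s' x'| ≤ 1) →
        (∀ s x s' x' i a, |Ψ s (x + Pi.single i (Pi.single a 1)) s' x' - Ψ s x s' x'| ≤
          D / Real.sqrt (k + 1)) →
        (∀ s x s' x' i a, |Ψ s x s' (x' + Pi.single i (Pi.single a 1)) - Ψ s x s' x'| ≤
          D / Real.sqrt (k + 1)) →
        ∀ l ∈ LL (q i₀) (β i₀) (ω i₀), ∀ l' ∈ LL (q i₀) (β i₀) (ω i₀),
        ‖avc 2 k (fun n => ew θ (2 ^ k * y + n) *
          ((Ψ (BW q β ω h P c z (2 ^ k * y + n)) (EE q e h P c z (2 ^ k * y + n))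
              (BW q β ω h R c' z' (2 ^ k * y + n)) (EE q e h R c' z' (2 ^ k * y + n)) -
            Ψ (BW q β ω h P c z (2 ^ k * y + n) * Pi.mulSingle i₀ l)
              (EE q e h P c z (2 ^ k * y + n))
              (BW q β ω h R c' z' (2 ^ k * y + n) * Pi.mulSingle i₀ l')
              (EE q e h R c' z' (2 ^ k * y + n)) : ℝ) : ℂ))‖ ≤ ε := by
  classical
  have : ∀ i, Fintype (S i) := fun i => Fintype.ofFinite _
  obtain ⟨K, ϑ, hK, hϑ0, hϑ1, hinc⟩ := incr_lawF Sy hPR i₀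
  set NN : ℝ := (Fintype.card ((∀ i, S i) × (∀ i, S i)) : ℝ) with hNN
  have hNN0 : 0 ≤ NN := Nat.cast_nonneg _
  -- the length of the window
  have hlim : Tendsto (fun a : ℕ => Real.sqrt (NN * (2 * (K * ϑ ^ a + 2 * (K * ϑ ^ a))))) atTop
      (𝓝 (Real.sqrt (NN * (2 * (K * 0 + 2 * (K * 0)))))) := by
    have h1 := tendsto_pow_atTop_nhds_zero_of_lt_one hϑ0.le hϑ1
    have h2 := h1.const_mul K
    exact (Real.continuous_sqrt.tendsto _).comp
      (((h2.add (h2.const_mul 2)).const_mul 2).const_mul NN)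
  have h0 : Real.sqrt (NN * (2 * (K * 0 + 2 * (K * 0)))) = 0 := by simp
  rw [h0] at hlim
  obtain ⟨a, ha⟩ := (hlim.eventually (gt_mem_nhds (show (0 : ℝ) < ε / 3 by positivity))).exists
  -- the increments
  choose KP hKP0 hKP using fun i => inc_l1 (Sy.sys.base i) (Sy.sys.qv i) (hPR.mul.cP i) h Y (2 ^ a)
  choose KR hKR0 hKR using fun i => inc_l1 (Sy.sys.base i) (Sy.sys.qv i) (hPR.mul.cR i) h Y (2 ^ a)
  set KK : ℝ := ∑ i, (d i : ℝ) * KP i + ∑ i, (d i : ℝ) * KR i with hKK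
  have hKK0 : 0 ≤ KK := by
    have h1 : ∀ i, 0 ≤ (d i : ℝ) * KP i := fun i => mul_nonneg (Nat.cast_nonneg _) (hKP0 i)
    have h2 : ∀ i, 0 ≤ (d i : ℝ) * KR i := fun i => mul_nonneg (Nat.cast_nonneg _) (hKR0 i)
    exact add_nonneg (Finset.sum_nonneg fun i _ => h1 i) (Finset.sum_nonneg fun i _ => h2 i)
  have hev1 : ∀ᶠ k : ℕ in atTop, (2 : ℝ) * 2 * 2 ^ a / 2 ^ k ≤ ε / 3 := by
    have h1 : Tendsto (fun k : ℕ => (2 : ℝ) * 2 * 2 ^ a * (1 / 2) ^ k) atTop
        (𝓝 (2 * 2 * 2 ^ a * 0)) :=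
      (tendsto_pow_atTop_nhds_zero_of_lt_one (by norm_num) (by norm_num)).const_mul _
    rw [mul_zero] at h1
    refine (h1.eventually (gt_mem_nhds (show (0 : ℝ) < ε / 3 by positivity))).mono
      fun k hk => le_trans (le_of_eq ?_) hk.le
    rw [one_div, inv_pow, div_eq_mul_inv]
  have hev2 : ∀ᶠ k : ℕ in atTop, 2 * (|D| / Real.sqrt (k + 1)) * KK ≤ ε / 3 := by
    have h1 : Tendsto (fun k : ℕ => Real.sqrt ((k : ℝ) + 1)) atTop atTop :=
      Real.tendsto_sqrt_atTop.comp (tendsto_atTop_add_const_right _ _ tendsto_natCast_atTop_atTop)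
    have h2 : Tendsto (fun k : ℕ => 2 * (|D| / Real.sqrt ((k : ℝ) + 1)) * KK) atTop
        (𝓝 (2 * 0 * KK)) :=
      ((h1.const_div_atTop |D|).const_mul 2).mul_const KK
    rw [mul_zero, zero_mul] at h2
    exact (h2.eventually (gt_mem_nhds (show (0 : ℝ) < ε / 3 by positivity))).mono
      fun k hk => hk.le
  filter_upwards [hev1, hev2, eventually_ge_atTop ((4 * Fintype.card ι + 4) * a)]
    with k hk1 hk2 hk3 y hy c z c' z' hc hc' θ Ψ hΨ hs1 hs2 l hl l' hl'
  obtain ⟨B, hBc, hB⟩ := hinc h a k hk3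
  set u₀ := 2 ^ k * y with hu₀
  set δ : ℝ := |D| / Real.sqrt (k + 1) with hδ
  have hsq : (0 : ℝ) < Real.sqrt (k + 1) := Real.sqrt_pos.2 (by positivity)
  have hδ0 : 0 ≤ δ := div_nonneg (abs_nonneg _) hsq.le
  have hDδ : D / Real.sqrt (k + 1) ≤ δ := div_le_div_of_nonneg_right (le_abs_self D) hsq.le
  have hlip : ∀ s x s' x' w w', |Ψ s w s' w' - Ψ s x s' x'| ≤
      δ * (w4_l1 (w - x) + w4_l1 (w' - x')) := by
    intro s x s' x' w w'
    have h1 := w4_slow_lip (δ := δ) (G := fun x => Ψ s x s' w')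
      ⟨fun x => hΨ _ _ _ _, fun x i a => (hs1 _ _ _ _ _ _).trans hDδ⟩ x w
    have h2 := w4_slow_lip (δ := δ) (G := fun x' => Ψ s x s' x')
      ⟨fun x => hΨ _ _ _ _, fun x i a => (hs2 _ _ _ _ _ _).trans hDδ⟩ x' w'
    calc |Ψ s w s' w' - Ψ s x s' x'| ≤ |Ψ s w s' w' - Ψ s x s' w'| +
          |Ψ s x s' w' - Ψ s x s' x'| := abs_sub_le _ _ _
      _ ≤ δ * w4_l1 (w - x) + δ * w4_l1 (w' - x') := add_le_add h1 h2
      _ = _ := by ring
  set f : ℕ → ℂ := fun n => ew θ (u₀ + n) *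
          ((Ψ (BW q β ω h P c z (u₀ + n)) (EE q e h P c z (u₀ + n))
              (BW q β ω h R c' z' (u₀ + n)) (EE q e h R c' z' (u₀ + n)) -
            Ψ (BW q β ω h P c z (u₀ + n) * Pi.mulSingle i₀ l)
              (EE q e h P c z (u₀ + n))
              (BW q β ω h R c' z' (u₀ + n) * Pi.mulSingle i₀ l')
              (EE q e h R c' z' (u₀ + n)) : ℝ) : ℂ) with hf
  have hf2 : ∀ n, ‖f n‖ ≤ 2 := by
    intro n
    simp only [hf]
    rw [norm_mul, norm_ew, one_mul, Complex.norm_real, Real.norm_eq_abs]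
    refine (abs_sub _ _).trans ?_
    linarith [hΨ (BW q β ω h P c z (u₀ + n)) (EE q e h P c z (u₀ + n))
              (BW q β ω h R c' z' (u₀ + n)) (EE q e h R c' z' (u₀ + n)),
      hΨ (BW q β ω h P c z (u₀ + n) * Pi.mulSingle i₀ l)
              (EE q e h P c z (u₀ + n))
              (BW q β ω h R c' z' (u₀ + n) * Pi.mulSingle i₀ l')
              (EE q e h R c' z' (u₀ + n))]
  have hshift := w2_shift_av hf2 k a
  -- the frozen lattice parts
  set ft : ℕ → ℕ → ℂ := fun n r => ew θ (u₀ + n + r) *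
          ((Ψ (BW q β ω h P c z (u₀ + n + r)) (EE q e h P c z (u₀ + n))
              (BW q β ω h R c' z' (u₀ + n + r)) (EE q e h R c' z' (u₀ + n)) -
            Ψ (BW q β ω h P c z (u₀ + n + r) * Pi.mulSingle i₀ l)
              (EE q e h P c z (u₀ + n))
              (BW q β ω h R c' z' (u₀ + n + r) * Pi.mulSingle i₀ l')
              (EE q e h R c' z' (u₀ + n)) : ℝ) : ℂ) with hft
  set LLn : ℕ → ℕ → ℝ := fun n r => w4_l1 (EE q e h P c z (u₀ + n + r) - EE q e h P c z (u₀ + n)) +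
    w4_l1 (EE q e h R c' z' (u₀ + n + r) - EE q e h R c' z' (u₀ + n)) with hLLn
  have hclose : ∀ n r, ‖f (n + r) - ft n r‖ ≤ 2 * δ * LLn n r := by
    intro n r
    simp only [hf, hft, hLLn]
    rw [← add_assoc, ← mul_sub, norm_mul, norm_ew, one_mul, ← Complex.ofReal_sub,
      Complex.norm_real, Real.norm_eq_abs]
    have h1 := hlip (BW q β ω h P c z (u₀ + n + r)) (EE q e h P c z (u₀ + n))
      (BW q β ω h R c' z' (u₀ + n + r)) (EE q e h R c' z' (u₀ + n))
      (EE q e h P c z (u₀ + n + r)) (EE q e h R c' z' (u₀ + n + r))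
    have h2 := hlip (BW q β ω h P c z (u₀ + n + r) * Pi.mulSingle i₀ l)
      (EE q e h P c z (u₀ + n))
      (BW q β ω h R c' z' (u₀ + n + r) * Pi.mulSingle i₀ l') (EE q e h R c' z' (u₀ + n))
      (EE q e h P c z (u₀ + n + r)) (EE q e h R c' z' (u₀ + n + r))
    rw [abs_le] at h1 h2 ⊢
    constructor <;> linarith [h1.1, h1.2, h2.1, h2.2]
  -- the transformation of the finite parts
  obtain ⟨g, hg, hlg, hgl⟩ := LL_inv (Sy.sys.base i₀) (Sy.qm i₀) (Sy.core i₀) hl
  obtain ⟨g', hg', hlg', hgl'⟩ := LL_inv (Sy.sys.base i₀) (Sy.qm i₀) (Sy.core i₀) hl'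
  have hlE := LL_right (Sy.core i₀) hl
  have hlE' := LL_right (Sy.core i₀) hl'
  have hgE := LL_right (Sy.core i₀) hg
  have hgE' := LL_right (Sy.core i₀) hg'
  set σ : (∀ i, S i) × (∀ i, S i) → (∀ i, S i) × (∀ i, S i) := fun p =>
    (nt_tau i₀ (β i₀ (ω i₀)) l p.1, nt_tau i₀ (β i₀ (ω i₀)) l' p.2) with hσ
  set Z : ℕ → (∀ i, S i) × (∀ i, S i) := fun n =>
    (BW q β ω h P c z n, BW q β ω h R c' z' n) with hZ
  have hσinj : Function.Injective σ := by
    refine Function.LeftInverse.injective (g := fun p =>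
      (nt_tau i₀ (β i₀ (ω i₀)) g p.1, nt_tau i₀ (β i₀ (ω i₀)) g' p.2)) fun p => ?_
    simp only [hσ]
    rw [nt_tau_inv hlE hlg, nt_tau_inv hlE' hlg']
  have hσZ : ∀ n, σ (Z n) = (BW q β ω h P c z n * Pi.mulSingle i₀ l,
      BW q β ω h R c' z' n * Pi.mulSingle i₀ l') := by
    intro n
    simp only [hσ, hZ]
    rw [nt_tau_BW i₀ (Sy.core i₀), nt_tau_BW i₀ (Sy.core i₀)]
  have hew1 : ∀ r, ‖ew θ r‖ ≤ 1 := fun r => (norm_ew θ r).le
  set DS : ℕ → ℝ := fun n => (∑ r ∈ Finset.range (2 ^ a), ∑ r' ∈ Finset.range (2 ^ a),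
      2 * (ew θ r * (starRingEnd ℂ) (ew θ r')).re *
        ((if Z (u₀ + n + r) = Z (u₀ + n + r') then (1 : ℝ) else 0) -
        (if Z (u₀ + n + r) = σ (Z (u₀ + n + r')) then (1 : ℝ) else 0))) / ((2 ^ a : ℕ) : ℝ) ^ 2
    with hDS
  have hDSnn : ∀ n, 0 ≤ DS n := fun n =>
    div_nonneg (w2_nonneg (2 ^ a) (fun r => Z (u₀ + n + r)) hσinj (ew θ)) (by positivity)
  have hcollf : ∀ n, ‖avc 2 a (fun r => ft n r)‖ ≤ Real.sqrt (NN * DS n) := by
    intro n
    have hcoll := coll_w (X := 2 ^ a) (Nat.one_le_two_pow) (fun r => Z (u₀ + n + r)) hσinj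
      Finset.univ (Ψ := fun p => Ψ p.1 (EE q e h P c z (u₀ + n)) p.2 (EE q e h R c' z' (u₀ + n)))
      (fun p => hΨ _ _ _ _) hew1
    have e1 : avc 2 a (fun r => ft n r) = ew θ (u₀ + n) * ((∑ r ∈ Finset.range (2 ^ a),
        ew θ r * (((fun p : (∀ i, S i) × (∀ i, S i) =>
          Ψ p.1 (EE q e h P c z (u₀ + n)) p.2 (EE q e h R c' z' (u₀ + n))) (Z (u₀ + n + r)) -
        (fun p : (∀ i, S i) × (∀ i, S i) =>
          Ψ p.1 (EE q e h P c z (u₀ + n)) p.2 (EE q e h R c' z' (u₀ + n)))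
          (σ (Z (u₀ + n + r))) : ℝ) : ℂ)) / ((2 ^ a : ℕ) : ℂ)) := by
      unfold avc
      push_cast
      rw [← mul_div_assoc, Finset.mul_sum]
      congr 1
      refine Finset.sum_congr rfl fun r _ => ?_
      rw [hσZ]
      simp only [hft, hZ]
      rw [ew_add θ (u₀ + n) r]
      push_cast
      ring
    rw [e1, norm_mul, norm_ew, one_mul]
    refine hcoll.trans ?_
    simp only [Finset.mem_univ, not_true_eq_false, Finset.filter_false, Finset.card_empty,
      Nat.cast_zero, zero_div, add_zero]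
    rw [Finset.card_univ]
  -- the averages
  have hd := nt_double (W := ew θ) hew1 (k := k) (a := a) (B := B) (b := K * ϑ ^ a)
    (by positivity) Z σ
    (fun r hr hrB u => by
      have := hB r hr hrB u c z c' z' hc hc' l hl l' hl'
      refine le_trans (le_of_eq (congrArg abs ?_)) this
      refine av_congr fun n _ => ?_
      rw [nt_bi, nt_bi, hσZ]
      simp only [hZ, Prod.mk.injEq])
    (fun r hr hrB u => by
      have := hB r hr hrB u c z c' z' hc hc' g hg g' hg'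
      refine le_trans (le_of_eq (congrArg abs ?_)) this
      refine av_congr fun n _ => ?_
      rw [nt_bi, nt_bi]
      have key : ∀ (l g : S i₀), l * β i₀ (ω i₀) = l → g * β i₀ (ω i₀) = g →
          l * g = β i₀ (ω i₀) → g * l = β i₀ (ω i₀) → ∀ (P c z : ι → ℕ),
          (BW q β ω h P c z (u + n) = nt_tau i₀ (β i₀ (ω i₀)) l (BW q β ω h P c z (u + n + r)) ↔
            BW q β ω h P c z (u + n + r) =
              BW q β ω h P c z (u + n) * Pi.mulSingle i₀ g) := by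
        intro l g hl hg hlg hgl P c z
        rw [← nt_tau_BW i₀ (Sy.core i₀)]
        constructor
        · intro e1
          rw [e1, nt_tau_inv hl hlg]
        · intro e1
          rw [e1, nt_tau_inv hg hgl]
      congr 1
      · refine if_congr ?_ rfl rfl
        simp only [hZ, Prod.mk.injEq]
        exact ⟨fun e => ⟨e.1.symm, e.2.symm⟩, fun e => ⟨e.1.symm, e.2.symm⟩⟩
      · refine if_congr ?_ rfl rfl
        simp only [hZ, hσ, Prod.mk.injEq]
        rw [key l g hlE hgE hlg hgl, key l' g' hlE' hgE' hlg' hgl']) u₀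
  have hB2 : (B.card : ℝ) / 2 ^ a ≤ K * ϑ ^ a := by
    rw [div_le_iff₀ (by positivity)]
    exact hBc
  have hav1 : av 2 k (fun n => Real.sqrt (NN * DS n)) ≤ ε / 3 := by
    refine (m10_jensen k (fun n => mul_nonneg hNN0 (hDSnn n))).trans ?_
    refine le_trans (Real.sqrt_le_sqrt ?_) ha.le
    rw [av_const_mul]
    refine mul_le_mul_of_nonneg_left (hd.trans ?_) hNN0
    linarith
  have hav2 : av 2 k (fun n => av 2 a (fun r => 2 * δ * LLn n r)) ≤ ε / 3 := by
    refine le_trans ?_ hk2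
    rw [av_swap 2 k a (fun n r => 2 * δ * LLn n r)]
    refine av_le le_rfl fun r hr => ?_
    rw [av_const_mul]
    refine mul_le_mul_of_nonneg_left ?_ (by positivity)
    simp only [hLLn]
    rw [av_add, hKK]
    have hside : ∀ (P c z : ι → ℕ) (KP : ι → ℝ), (∀ i j, av 2 k (fun n =>
        |((e i (sd (q i) h (P i) (c i) (z i) (2 ^ k * y + n + r)) j : ℤ) : ℝ) -
        ((e i (sd (q i) h (P i) (c i) (z i) (2 ^ k * y + n)) j : ℤ) : ℝ)|) ≤ KP i) →
        av 2 k (fun n => w4_l1 (EE q e h P c z (u₀ + n + r) - EE q e h P c z (u₀ + n))) ≤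
          ∑ i, (d i : ℝ) * KP i := by
      intro P c z KP hK
      unfold w4_l1
      rw [av_finset_sum]
      refine Finset.sum_le_sum fun i _ => ?_
      rw [av_finset_sum]
      calc _ ≤ ∑ _j : Fin (d i), KP i := by
            refine Finset.sum_le_sum fun j _ => ?_
            refine le_trans (le_of_eq ?_) (hK i j)
            refine av_congr fun n _ => ?_
            rw [Pi.sub_apply, Pi.sub_apply]
            push_cast
            rfl
        _ = _ := by rw [Finset.sum_const, Finset.card_univ, Fintype.card_fin, nsmul_eq_mul]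
    refine add_le_add (hside P c z KP fun i j => ?_) (hside R c' z' KR fun i j => ?_)
    · exact hKP i k y (c i) (z i) r hy (hc.cle i) (hc.zlt i) hr.le j
    · exact hKR i k y (c' i) (z' i) r hy (hc'.cle i) (hc'.zlt i) hr.le j
  have hpt : ∀ n, ‖avc 2 a (fun r => f (n + r))‖ ≤ Real.sqrt (NN * DS n) +
      av 2 a (fun r => 2 * δ * LLn n r) := by
    intro n
    have h1 : avc 2 a (fun r => f (n + r)) = avc 2 a (fun r => ft n r) +
        avc 2 a (fun r => f (n + r) - ft n r) := by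
      have h2 := w4_avc_sub 2 a (fun r => f (n + r)) (fun r => ft n r)
      rw [h2]
      ring
    rw [h1]
    refine (norm_add_le _ _).trans (add_le_add (hcollf n) ?_)
    refine (w4_avc_norm _ _ _).trans (av_mono fun r _ => hclose n r)
  have hav : ‖avc 2 k (fun n => avc 2 a (fun r => f (n + r)))‖ ≤ ε / 3 + ε / 3 := by
    refine (avc_norm_le _ _).trans ?_
    refine (av_mono fun n _ => hpt n).trans ?_
    rw [av_add]
    exact add_le_add hav1 hav2
  have h5 : ‖avc 2 k f‖ ≤ ‖avc 2 k f - avc 2 k (fun n => avc 2 a (fun r => f (n + r)))‖ +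
      ‖avc 2 k (fun n => avc 2 a (fun r => f (n + r)))‖ := by
    have := norm_add_le (avc 2 k f - avc 2 k (fun n => avc 2 a (fun r => f (n + r))))
      (avc 2 k (fun n => avc 2 a (fun r => f (n + r))))
    simpa using this
  show ‖avc 2 k f‖ ≤ ε
  linarith

/-- N12 (NTvF.lean): near-invariance of the finite parts for slowly varying functions -/
theorem tv_fin (Sy : NSys q m β ω e C Λ N' u) {P R : ι → ℕ} (hPR : MulN q m β ω P R)
    (h Y : ℕ) {ε D : ℝ} (hε : 0 < ε) :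
    ∀ᶠ k : ℕ in atTop, ∀ y ≤ Y, ∀ c z c' z' : ι → ℕ, Bd q h P c z → Bd q h R c' z' → ∀ θ : ℝ,
      ∀ Ψ : (∀ i, S i) → (∀ i, Fin (d i) → ℤ) → (∀ i, S i) → (∀ i, Fin (d i) → ℤ) → ℝ,
        (∀ s x s' x', |Ψ s x s' x'| ≤ 1) →
        (∀ s x s' x' i a, |Ψ s (x + Pi.single i (Pi.single a 1)) s' x' - Ψ s x s' x'| ≤
          D / Real.sqrt (k + 1)) →
        (∀ s x s' x' i a, |Ψ s x s' (x' + Pi.single i (Pi.single a 1)) - Ψ s x s' x'| ≤
          D / Real.sqrt (k + 1)) →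
        ∀ i₀, ∀ l ∈ LL (q i₀) (β i₀) (ω i₀), ∀ l' ∈ LL (q i₀) (β i₀) (ω i₀),
        ‖avc 2 k (fun n => ew θ (2 ^ k * y + n) *
          ((Ψ (BW q β ω h P c z (2 ^ k * y + n)) (EE q e h P c z (2 ^ k * y + n))
              (BW q β ω h R c' z' (2 ^ k * y + n)) (EE q e h R c' z' (2 ^ k * y + n)) -
            Ψ (BW q β ω h P c z (2 ^ k * y + n) * Pi.mulSingle i₀ l)
              (EE q e h P c z (2 ^ k * y + n))
              (BW q β ω h R c' z' (2 ^ k * y + n) * Pi.mulSingle i₀ l')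
              (EE q e h R c' z' (2 ^ k * y + n)) : ℝ) : ℂ))‖ ≤ ε := by
  have hall := Filter.eventually_all.2 fun i₀ => nt_one Sy hPR h Y (D := D) hε i₀
  filter_upwards [hall] with k hk y hy c z c' z' hc hc' θ Ψ hΨ hs1 hs2 i₀ l hl l' hl'
  exact hk i₀ y hy c z c' z' hc hc' θ Ψ hΨ hs1 hs2 l hl l' hl'

end several

end Pool.Agent.Lib.MP_3e612f_nt.NB
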