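import Pool.Agent.Lib.MP_3e612f_nt.NMean
import Pool.Agent.Lib.MP_3e612f_nt.NBox
import Pool.Agent.Lib.MP_3e612f_nt.NTvF
import Pool.Agent.Lib.MP_3e612f_nt.NTop
import Pool.Agent.Lib.MP_3e612f_nt.NConst

/-!
The values at multiples of `n` by two numbers are nearly independent: finite parts and lattice
parts in several bases.
-/

set_option autoImplicit false

namespace Pool.Agent.Lib.MP_3e612f_nt.NB

open Filter Topology
open Pool.Agent.Lib.MP_3e612f_nt.QA Pool.Agent.Lib.MP_3e612f_nt.SA Pool.Agent.Lib.MP_3e612f_nt.MB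

section several

variable {ι : Type*} [Fintype ι] [DecidableEq ι] {q : ι → ℕ} {m : ℕ} {d : ι → ℕ}
  {S : ι → Type*} [∀ i, Monoid (S i)] [∀ i, Finite (S i)]
  {β : ∀ i, ℕ → S i} {ω : ι → ℕ} {e : ∀ i, ℕ → Fin (d i) → ℤ} {C : ℝ}
  {Λ : ∀ i, AddSubgroup (Fin (d i) → ℤ)} {N' : ℕ} {u : ∀ i, S i → (Fin (d i) → ℤ) ⧸ Λ i}

/-- the class of the lattice part is given by the finite part -/
theorem BW_class (Sy : NSys q m β ω e C Λ N' u) (h : ℕ) (P c z : ι → ℕ) (n : ℕ) (i : ι) :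
    ((EE q e h P c z n i : (Fin (d i) → ℤ)) : (Fin (d i) → ℤ) ⧸ Λ i) =
      u i (BW q β ω h P c z n i) := (Sy.huω i _).symm

/-- at the point zero the complex averages are real averages -/
theorem avc_zero {k : ℕ} {F : ℕ → ℝ} {a : ℕ → ℕ} {ε : ℝ}
    (h : ‖avc 2 k (fun n => ew 0 (a n) * ((F n : ℝ) : ℂ))‖ ≤ ε) : |av 2 k F| ≤ ε := by
  have h1 : avc 2 k (fun n => ew 0 (a n) * ((F n : ℝ) : ℂ)) = ((av 2 k F : ℝ) : ℂ) := by
    unfold avc av ew
    push_cast
    congr 1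
    refine Finset.sum_congr rfl fun n _ => ?_
    simp
  rw [h1, Complex.norm_real, Real.norm_eq_abs] at h
  exact h

/-- the smoothed functions -/
noncomputable def GG (L : ℕ) (Λ : ∀ i, AddSubgroup (Fin (d i) → ℤ))
    (u : ∀ i, S i → (Fin (d i) → ℤ) ⧸ Λ i) (g : (∀ i, S i) → (∀ i, Fin (d i) → ℤ) → ℝ)
    (s : ∀ i, S i) : (∀ i, Fin (d i) → ℤ) → ℝ :=
  smoP L (extN Λ (fun i => u i (s i)) (g s))

/-- smoothing both sides -/
theorem smooth_bothN (Sy : NSys q m β ω e C Λ N' u) {k L : ℕ} (hL : 1 ≤ L)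
    {s s' : ℕ → ∀ i, S i} {X X' : ℕ → ∀ i, Fin (d i) → ℤ}
    (hX : ∀ n i, ((X n i : (Fin (d i) → ℤ)) : (Fin (d i) → ℤ) ⧸ Λ i) = u i (s n i))
    (hX' : ∀ n i, ((X' n i : (Fin (d i) → ℤ)) : (Fin (d i) → ℤ) ⧸ Λ i) = u i (s' n i))
    {g g' : (∀ i, S i) → (∀ i, Fin (d i) → ℤ) → ℝ} (hg : ∀ s x, |g s x| ≤ 1)
    (hg' : ∀ s x, |g' s x| ≤ 1) {ε : ℝ}
    (h : ∀ v v' : ∀ i, Fin (d i) → ℤ, (∀ i a, 0 ≤ v i a ∧ v i a ≤ L) →
      (∀ i a, 0 ≤ v' i a ∧ v' i a ≤ L) →
      |av 2 k (fun n => g (s n) (X n) * g' (s' n) (X' n)) -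
        av 2 k (fun n => g (s n) (X n + lamL Λ v) * g' (s' n) (X' n + lamL Λ v'))| ≤ ε) :
    |av 2 k (fun n => g (s n) (X n) * g' (s' n) (X' n)) -
      av 2 k (fun n => GG L Λ u g (s n) (X n) * GG L Λ u g' (s' n) (X' n))| ≤ ε := by
  have e1 : av 2 k (fun n => GG L Λ u g (s n) (X n) * GG L Λ u g' (s' n) (X' n)) =
      (∑ v ∈ box d L, (∑ v' ∈ box d L, av 2 k (fun n => g (s n) (X n + lamL Λ v) *
        g' (s' n) (X' n + lamL Λ v'))) / (box d L).card) / (box d L).card := by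
    have e2 : (fun n => GG L Λ u g (s n) (X n) * GG L Λ u g' (s' n) (X' n)) = fun n =>
        (∑ v ∈ box d L, (∑ v' ∈ box d L, g (s n) (X n + lamL Λ v) *
          g' (s' n) (X' n + lamL Λ v')) / (box d L).card) / (box d L).card := by
      funext n
      unfold GG smoP
      rw [div_mul_div_comm, Finset.sum_mul_sum, ← Finset.sum_div, div_div]
      congr 1
      refine Finset.sum_congr rfl fun v _ => Finset.sum_congr rfl fun v' _ => ?_
      rw [((extN_slow hL Λ (fun i => u i (s n i)) (hg (s n))).2 (X n) (hX n)).2 v,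
        ((extN_slow hL Λ (fun i => u i (s' n i)) (hg' (s' n))).2 (X' n) (hX' n)).2 v']
    rw [e2, av_div, av_finset_sum]
    congr 1
    refine Finset.sum_congr rfl fun v _ => ?_
    rw [av_div, av_finset_sum]
  rw [e1]
  refine avg_close_finset _ (box_nonempty d hL) fun v hv => ?_
  refine avg_close_finset _ (box_nonempty d hL) fun v' hv' => ?_
  exact h v v' (mem_box hv) (mem_box hv')

/-- the element of the product with the coordinates of `l` on `T` and one elsewhere -/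
def rs (T : Finset ι) (l : ∀ i, S i) (i : ι) : S i := if i ∈ T then l i else 1

theorem rs_empty (l : ∀ i, S i) : rs ∅ l = 1 := by
  funext i
  unfold rs
  rw [if_neg (Finset.notMem_empty i)]
  rfl

theorem rs_univ (l : ∀ i, S i) : rs Finset.univ l = l := by
  funext i
  unfold rs
  rw [if_pos (Finset.mem_univ i)]

theorem rs_insert {T : Finset ι} {i₀ : ι} (hi : i₀ ∉ T) (l : ∀ i, S i) :
    Pi.mulSingle i₀ (l i₀) * rs T l = rs (insert i₀ T) l := by
  funext i
  rw [Pi.mul_apply]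
  unfold rs
  by_cases h : i = i₀
  · subst h
    rw [Pi.mulSingle_eq_same, if_neg hi, if_pos (Finset.mem_insert_self _ _), mul_one]
  · rw [Pi.mulSingle_eq_of_ne h, one_mul]
    by_cases h' : i ∈ T
    · rw [if_pos h', if_pos (Finset.mem_insert_of_mem h')]
    · rw [if_neg h', if_neg (by
        rw [Finset.mem_insert]
        push Not
        exact ⟨h, h'⟩)]

/-- moving all the finite parts -/
theorem fin_all {k : ℕ} {s s' : ℕ → ∀ i, S i} {X X' : ℕ → ∀ i, Fin (d i) → ℤ}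
    {Good : ((∀ i, S i) → (∀ i, Fin (d i) → ℤ) → (∀ i, S i) → (∀ i, Fin (d i) → ℤ) → ℝ) → Prop}
    (hGood : ∀ Ψ, Good Ψ → ∀ l l' : ∀ i, S i, Good (fun s x s' x' => Ψ (s * l) x (s' * l') x'))
    {ε : ℝ} (h : ∀ Ψ, Good Ψ → ∀ i₀, ∀ l ∈ LL (q i₀) (β i₀) (ω i₀), ∀ l' ∈ LL (q i₀) (β i₀) (ω i₀),
      |av 2 k (fun n => Ψ (s n) (X n) (s' n) (X' n) -
        Ψ (s n * Pi.mulSingle i₀ l) (X n) (s' n * Pi.mulSingle i₀ l') (X' n))| ≤ ε)
    {Ψ : (∀ i, S i) → (∀ i, Fin (d i) → ℤ) → (∀ i, S i) → (∀ i, Fin (d i) → ℤ) → ℝ}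
    (hΨ : Good Ψ) {l l' : ∀ i, S i} (hl : l ∈ PL q β ω) (hl' : l' ∈ PL q β ω) :
    |av 2 k (fun n => Ψ (s n) (X n) (s' n) (X' n)) -
      av 2 k (fun n => Ψ (s n * l) (X n) (s' n * l') (X' n))| ≤ Fintype.card ι * ε := by
  have key : ∀ T : Finset ι, |av 2 k (fun n => Ψ (s n) (X n) (s' n) (X' n)) -
      av 2 k (fun n => Ψ (s n * rs T l) (X n) (s' n * rs T l') (X' n))| ≤ T.card * ε := by
    intro T
    induction T using Finset.induction_on with
    | empty =>
      rw [rs_empty, rs_empty]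
      simp
    | insert i₀ T hi ih =>
      have h1 := h _ (hGood Ψ hΨ (rs T l) (rs T l')) i₀ (l i₀) (mem_PL.mp hl i₀) (l' i₀)
        (mem_PL.mp hl' i₀)
      simp only [mul_assoc, rs_insert hi] at h1
      rw [av_sub] at h1
      rw [Finset.card_insert_of_notMem hi]
      push_cast
      have a1 := abs_le.mp h1
      have a2 := abs_le.mp ih
      rw [abs_le]
      constructor
      · linarith [a1.1, a2.1]
      · linarith [a1.2, a2.2]
  have h1 := key Finset.univ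
  rwa [rs_univ, rs_univ, Finset.card_univ] at h1

/-- averaging both finite parts -/
theorem AP_both (Sy : NSys q m β ω e C Λ N' u) {k : ℕ} {f f' : ℕ → (∀ i, S i) → ℝ}
    {s s' : ℕ → ∀ i, S i} {T ε : ℝ} (h : ∀ l ∈ PL q β ω, ∀ l' ∈ PL q β ω,
      |T - av 2 k (fun n => f n (s n * l) * f' n (s' n * l'))| ≤ ε) :
    |T - av 2 k (fun n => AP q β ω (f n) (s n) * AP q β ω (f' n) (s' n))| ≤ ε := by
  have e1 : av 2 k (fun n => AP q β ω (f n) (s n) * AP q β ω (f' n) (s' n)) =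
      (∑ l ∈ PL q β ω, (∑ l' ∈ PL q β ω, av 2 k (fun n => f n (s n * l) * f' n (s' n * l'))) /
        (PL q β ω).card) / (PL q β ω).card := by
    have e2 : (fun n => AP q β ω (f n) (s n) * AP q β ω (f' n) (s' n)) = fun n =>
        (∑ l ∈ PL q β ω, (∑ l' ∈ PL q β ω, f n (s n * l) * f' n (s' n * l')) /
          (PL q β ω).card) / (PL q β ω).card := by
      funext n
      unfold AP
      rw [div_mul_div_comm, Finset.sum_mul_sum, ← Finset.sum_div, div_div]
    rw [e2, av_div, av_finset_sum]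
    congr 1
    refine Finset.sum_congr rfl fun l _ => ?_
    rw [av_div, av_finset_sum]
  rw [e1]
  refine avg_close_finset _ (PL_nonempty Sy) fun l hl => ?_
  refine avg_close_finset _ (PL_nonempty Sy) fun l' hl' => ?_
  exact h l hl l' hl'

open Classical in
/-- averages with a small exceptional set -/
theorem av_bad2 {q : ℕ} (hq : 2 ≤ q) {j : ℕ} {h : ℕ → ℝ} {a b ε : ℝ} {G : ℕ → Prop} (ha : 0 ≤ a)
    (hb : 0 ≤ b) (h1 : ∀ n < q ^ j, G n → |h n| ≤ a) (h2 : ∀ n < q ^ j, |h n| ≤ b)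
    (h3 : (((Finset.range (q ^ j)).filter (fun n => ¬ G n)).card : ℝ) ≤ ε * q ^ j) :
    |av q j h| ≤ a + b * ε := by
  refine av_bad hq ha hb h1 h2 ?_
  have hset : {n : ℕ | n < q ^ j ∧ ¬ G n} = ((Finset.range (q ^ j)).filter (fun n => ¬ G n) :
      Finset ℕ) := by
    ext n
    simp
  rw [hset, Nat.card_coe_set_eq, Set.ncard_coe_finset]
  exact h3

open Classical in
/-- most intervals are good for all bases and both sides -/
theorem gk_all (hq : ∀ i, 2 ≤ q i) (m : ℕ) (ω : ι → ℕ) {P R : ι → ℕ} (hP1 : ∀ i, 1 ≤ P i)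
    (hR1 : ∀ i, 1 ≤ R i) {ε : ℝ} (hε : 0 < ε) :
    ∃ j : ℕ, ∀ k y : ℕ, (((Finset.range (2 ^ j)).filter (fun n => ¬ ∀ i,
      Gk (q i) m (ω i) (P i) k (2 ^ j * y + n) ∧
      Gk (q i) m (ω i) (R i) k (2 ^ j * y + n))).card : ℝ) ≤ ε * 2 ^ j := by
  set ε' : ℝ := ε / (2 * (Fintype.card ι + 1)) with hε'
  have hε'0 : 0 < ε' := by positivity
  choose j₁ hj₁ using fun i => gk_density (q := q i) (m := m) (ω := ω i) (hq i) (hP1 i) hε'0
  choose j₂ hj₂ using fun i => gk_density (q := q i) (m := m) (ω := ω i) (hq i) (hR1 i) hε'0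
  refine ⟨∑ i, j₁ i + ∑ i, j₂ i, fun k y => ?_⟩
  set j : ℕ := ∑ i, j₁ i + ∑ i, j₂ i with hj
  have g1 : ∀ i, j₁ i ≤ j := fun i =>
    (Finset.single_le_sum (f := j₁) (fun _ _ => Nat.zero_le _) (Finset.mem_univ i)).trans
      (Nat.le_add_right _ _)
  have g2 : ∀ i, j₂ i ≤ j := fun i =>
    (Finset.single_le_sum (f := j₂) (fun _ _ => Nat.zero_le _) (Finset.mem_univ i)).trans
      (Nat.le_add_left _ _)
  have hsub : (Finset.range (2 ^ j)).filter (fun n => ¬ ∀ i,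
      Gk (q i) m (ω i) (P i) k (2 ^ j * y + n) ∧ Gk (q i) m (ω i) (R i) k (2 ^ j * y + n)) ⊆
      Finset.univ.biUnion (fun i : ι =>
        (Finset.range (2 ^ j)).filter (fun n => ¬ Gk (q i) m (ω i) (P i) k (2 ^ j * y + n)) ∪
        (Finset.range (2 ^ j)).filter (fun n => ¬ Gk (q i) m (ω i) (R i) k (2 ^ j * y + n))) := by
    intro n hn
    rw [Finset.mem_filter] at hn
    obtain ⟨hn1, hn2⟩ := hn
    rw [Finset.mem_biUnion]
    by_contra hcon
    push Not at hcon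
    apply hn2
    intro i
    have h1 := hcon i (Finset.mem_univ i)
    rw [Finset.mem_union, Finset.mem_filter, Finset.mem_filter] at h1
    push Not at h1
    exact ⟨h1.1 hn1, h1.2 hn1⟩
  have hcard : (((Finset.range (2 ^ j)).filter (fun n => ¬ ∀ i,
      Gk (q i) m (ω i) (P i) k (2 ^ j * y + n) ∧
      Gk (q i) m (ω i) (R i) k (2 ^ j * y + n))).card : ℝ) ≤
      ∑ i : ι, ((((Finset.range (2 ^ j)).filter
        (fun n => ¬ Gk (q i) m (ω i) (P i) k (2 ^ j * y + n))).card : ℝ) +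
        (((Finset.range (2 ^ j)).filter
        (fun n => ¬ Gk (q i) m (ω i) (R i) k (2 ^ j * y + n))).card : ℝ)) := by
    have h1 := (Finset.card_le_card hsub).trans Finset.card_biUnion_le
    have h2 : ∑ i : ι, ((Finset.range (2 ^ j)).filter
        (fun n => ¬ Gk (q i) m (ω i) (P i) k (2 ^ j * y + n)) ∪
        (Finset.range (2 ^ j)).filter
        (fun n => ¬ Gk (q i) m (ω i) (R i) k (2 ^ j * y + n))).card ≤
        ∑ i : ι, (((Finset.range (2 ^ j)).filter
        (fun n => ¬ Gk (q i) m (ω i) (P i) k (2 ^ j * y + n))).card +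
        ((Finset.range (2 ^ j)).filter
        (fun n => ¬ Gk (q i) m (ω i) (R i) k (2 ^ j * y + n))).card) :=
      Finset.sum_le_sum fun i _ => Finset.card_union_le _ _
    exact_mod_cast h1.trans h2
  refine hcard.trans ?_
  calc ∑ i : ι, ((((Finset.range (2 ^ j)).filter
        (fun n => ¬ Gk (q i) m (ω i) (P i) k (2 ^ j * y + n))).card : ℝ) +
        (((Finset.range (2 ^ j)).filter
        (fun n => ¬ Gk (q i) m (ω i) (R i) k (2 ^ j * y + n))).card : ℝ))
      ≤ ∑ _i : ι, (ε' * 2 ^ j + ε' * 2 ^ j) := Finset.sum_le_sum fun i _ =>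
        add_le_add (hj₁ i j (g1 i) k y) (hj₂ i j (g2 i) k y)
    _ = Fintype.card ι * (ε' * 2 ^ j + ε' * 2 ^ j) := by
        rw [Finset.sum_const, Finset.card_univ, nsmul_eq_mul]
    _ ≤ ε * 2 ^ j := by
        have h1 : (Fintype.card ι : ℝ) * (2 * ε') ≤ ε := by
          rw [hε', mul_div_assoc', mul_div_assoc', div_le_iff₀ (by positivity)]
          nlinarith [(Nat.cast_nonneg (Fintype.card ι) : (0 : ℝ) ≤ (Fintype.card ι : ℝ))]
        have h2 : (0 : ℝ) < 2 ^ j := by positivity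
        nlinarith

/-- on good intervals the vector of the finite parts is constant modulo `LL` -/
theorem BW_block (Sy : NSys q m β ω e C Λ N' u) {P : ι → ℕ} (hPd : ∀ i, (q i - 1) ∣ P i)
    {k y h : ℕ} {c z : ι → ℕ} (hcz : Bd q h P c z) (hg : ∀ i, Gk (q i) m (ω i) (P i) k y) {n : ℕ}
    (hn : n < 2 ^ k) :
    ∃ l ∈ PL q β ω, BW q β ω h P c z (2 ^ k * y + n) = BW q β ω h P c z (2 ^ k * y) * l := by
  choose l hl hle using fun i => block_constN (Sy.sys.base i) (Sy.qm i) (Sy.core i) (hPd i)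
    (hg i) (hcz.cle i) (hcz.zlt i) (n := 0) (n' := n) (by positivity) hn
  refine ⟨l, mem_PL.mpr hl, ?_⟩
  funext i
  exact hle i

/-- the values at multiples of `n` by two numbers are nearly independent -/
theorem pairN (Sy : NSys q m β ω e C Λ N' u) {Q : ι → ℕ} (hQ : ∀ i, (Q i).Coprime (q i))
    {ε : ℝ} (hε : 0 < ε) :
    ∃ r₀ : ℕ, ∀ p r : ℕ, 1 ≤ p → (∀ i, p.Coprime (q i)) → (∀ i, r.Coprime (q i)) → p.Coprime r →
      r₀ ≤ r → MulN q m β ω (fun i => p * Q i) (fun i => r * Q i) → ∀ h Y : ℕ,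
      ∀ᶠ k : ℕ in atTop, ∀ y ≤ Y, ∀ c z c' z' : ι → ℕ, Bd q h (fun i => p * Q i) c z →
      Bd q h (fun i => r * Q i) c' z' →
      ∀ g g' : (∀ i, S i) → (∀ i, Fin (d i) → ℤ) → ℝ, (∀ s x, |g s x| ≤ 1) →
      (∀ s x, |g' s x| ≤ 1) →
        |av 2 k (fun n => g (BW q β ω h (fun i => p * Q i) c z (2 ^ k * y + n))
            (EE q e h (fun i => p * Q i) c z (2 ^ k * y + n)) *
          g' (BW q β ω h (fun i => r * Q i) c' z' (2 ^ k * y + n))
            (EE q e h (fun i => r * Q i) c' z' (2 ^ k * y + n)) -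
          mN q k β ω e Λ u g (BW q β ω h (fun i => p * Q i) c z (2 ^ k * y + n)) *
          mN q k β ω e Λ u g' (BW q β ω h (fun i => r * Q i) c' z' (2 ^ k * y + n)))| ≤ ε := by
  obtain ⟨η, hη, hslow⟩ := slow_pair Sy.sys (ε := ε / 8) (by positivity)
  choose r₀ hr₀ using fun i => cov_small (q := q i) (m := m) (Sy.sys.base i) hη
  obtain ⟨Km, hKm0, hKm⟩ := model_smooth Sy.sys
  refine ⟨∑ i, r₀ i, fun p r hp1 hpq hrq hpr hr hmulN h Y => ?_⟩
  have hri : ∀ i, r₀ i ≤ r := fun i =>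
    (Finset.single_le_sum (f := r₀) (fun _ _ => Nat.zero_le _) (Finset.mem_univ i)).trans hr
  have hmul := hmulN.mul
  have hQ1 : ∀ i, 1 ≤ Q i := fun i => by
    have := hmul.one i
    exact Nat.pos_of_mul_pos_left (show 0 < p * Q i from this)
  have hR1 : ∀ i, 1 ≤ r * Q i := fun i => by
    have h1 := hmul.le i
    have h2 := hmul.one i
    have h3 : 0 < 2 * q i ^ m * (p * Q i) :=
      Nat.mul_pos (Nat.mul_pos two_pos (qpow_pos (Sy.sys.base i) m)) h2
    exact lt_of_lt_of_le h3 h1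
  choose Kc hKc0 hKc using fun i =>
    hr₀ i p r (Q i) hp1 (hQ1 i) (hpq i) (hrq i) (hQ i) hpr (hri i)
  have hcov : ∀ i (F F' : ℕ → ℝ) (C₁ C₂ : ℝ), QR (q i) m F C₁ → QR (q i) m F' C₂ → ∀ w : ℕ,
      |cov (q i) w (fun n => F (p * Q i * n % q i ^ w)) (fun n => F' (r * Q i * n % q i ^ w))| ≤
        (η * w + ∑ i, Kc i) * C₁ * C₂ := by
    intro i F F' C₁ C₂ h1 h2 w
    refine (hKc i F F' C₁ C₂ h1 h2 w).trans ?_
    refine mul_le_mul_of_nonneg_right (mul_le_mul_of_nonneg_right ?_ h1.nonneg) h2.nonneg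
    have := Finset.single_le_sum (f := Kc) (fun i _ => hKc0 i) (Finset.mem_univ i)
    linarith
  obtain ⟨κ₁, hκ₁, htv⟩ := tv_boxB Sy hmulN h Y (ε := ε / 8) (by positivity)
  set κ : ℝ := min κ₁ (ε / (64 * (Km + 1))) with hκ
  have hκ0 : 0 < κ := lt_min hκ₁ (by positivity)
  have hκm : Km * κ ≤ ε / 64 := by
    have h1 : κ ≤ ε / (64 * (Km + 1)) := min_le_right _ _
    calc Km * κ ≤ (Km + 1) * (ε / (64 * (Km + 1))) :=
          mul_le_mul (by linarith) h1 hκ0.le (by linarith)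
      _ = ε / 64 := by
          field_simp
  obtain ⟨j, hj⟩ := gk_all Sy.sys.base m ω hmul.one hR1 (ε := ε / 32) (by positivity)
  have hs := hslow (fun i => p * Q i) (fun i => r * Q i) hmul.cP hmul.cR _ hcov (4 / κ) h
    (2 ^ j * (Y + 1))
  have htf := tv_fin Sy hmulN h Y (ε := ε / (8 * (Fintype.card ι + 1))) (D := 4 / κ)
    (by positivity)
  have hbig : ∀ᶠ k : ℕ in atTop, (2 / κ) / Real.sqrt ((k : ℝ) + 1) ≤ 1 :=
    (tendsto_div_sqrt (2 / κ)).eventually_le_const one_pos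
  obtain ⟨k₁, hk₁⟩ := eventually_atTop.mp hs
  obtain ⟨k₂, hk₂⟩ := eventually_atTop.mp (mN_slow Sy j (ε := ε / 64) (by positivity))
  filter_upwards [htv, htf, hbig, eventually_ge_atTop (max k₁ k₂ + 2 * j)]
    with k hk1 hk2 hk3 hk y hy c z c' z' hcz hcz' g g' hg hg'
  obtain ⟨k', rfl⟩ : ∃ k', k = k' + j := ⟨k - j, by omega⟩
  have hk1' : k₁ ≤ k' := by
    have := le_max_left k₁ k₂
    omega
  have hk2' : k₂ ≤ k' := by
    have := le_max_right k₁ k₂
    omega
  have hjk : j ≤ k' := by omega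
  set w : ℝ := Real.sqrt (((k' + j : ℕ) : ℝ) + 1) with hw
  have hw1 : 1 ≤ w := Real.one_le_sqrt.mpr (by
    linarith [(Nat.cast_nonneg (k' + j) : (0 : ℝ) ≤ ((k' + j : ℕ) : ℝ))])
  have hw0 : 0 < w := by linarith
  set w' : ℝ := Real.sqrt ((k' : ℝ) + 1) with hw'
  have hw'0 : 0 < w' := Real.sqrt_pos.mpr (by positivity)
  have hw'w : w' ≤ w := by
    rw [hw, hw']
    refine Real.sqrt_le_sqrt ?_
    push_cast
    linarith [(Nat.cast_nonneg j : (0 : ℝ) ≤ (j : ℝ))]
  have hww : w ≤ 2 * w' := by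
    rw [hw, hw']
    have h1 : (2 : ℝ) = Real.sqrt 4 := by
      rw [show (4 : ℝ) = 2 ^ 2 by norm_num, Real.sqrt_sq (by norm_num)]
    rw [h1, ← Real.sqrt_mul (by norm_num)]
    refine Real.sqrt_le_sqrt ?_
    have h2 : (j : ℝ) ≤ k' := by exact_mod_cast hjk
    have h3 : (0 : ℝ) ≤ k' := Nat.cast_nonneg k'
    push_cast
    linarith
  have hκw : 2 ≤ κ * w := by
    rw [div_le_iff₀ hw0, div_le_iff₀ hκ0] at hk3
    linarith
  set L : ℕ := ⌊κ * w⌋₊ with hL
  have hL0 : (L : ℝ) ≤ κ * w := Nat.floor_le (by positivity)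
  have hL1 : κ * w < L + 1 := Nat.lt_floor_add_one _
  have hL2 : κ * w / 2 ≤ L := by linarith
  have hL3 : 1 ≤ L := by
    have : (1 : ℝ) < L + 1 := by linarith
    have h2 : (0 : ℝ) < L := by linarith
    exact_mod_cast h2
  have hLpos : (0 : ℝ) < L := by exact_mod_cast hL3
  have hδ : 2 / (L : ℝ) ≤ 4 / κ / w := by
    rw [div_div, div_le_div_iff₀ hLpos (by positivity)]
    linarith
  have hδ' : 2 / (L : ℝ) ≤ 4 / κ / w' :=
    hδ.trans (div_le_div_of_nonneg_left (by positivity) hw'0 hw'w)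
  have hmono : ∀ {G : (∀ i, Fin (d i) → ℤ) → ℝ}, SlowP (2 / (L : ℝ)) G →
      SlowP (4 / κ / w') G :=
    fun h1 => ⟨h1.1, fun x i a => (h1.2 x i a).trans hδ'⟩
  have hPd := hmulN.dP
  have hRd := hmulN.dR
  set s : ℕ → ∀ i, S i := fun n => BW q β ω h (fun i => p * Q i) c z (2 ^ (k' + j) * y + n)
    with hsdef
  set s' : ℕ → ∀ i, S i := fun n => BW q β ω h (fun i => r * Q i) c' z' (2 ^ (k' + j) * y + n)
    with hs'def
  set X : ℕ → ∀ i, Fin (d i) → ℤ := fun n =>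
    EE q e h (fun i => p * Q i) c z (2 ^ (k' + j) * y + n) with hX
  set X' : ℕ → ∀ i, Fin (d i) → ℤ := fun n =>
    EE q e h (fun i => r * Q i) c' z' (2 ^ (k' + j) * y + n) with hX'
  set M : (∀ i, S i) → ℝ := mN q (k' + j) β ω e Λ u g with hM
  set M' : (∀ i, S i) → ℝ := mN q (k' + j) β ω e Λ u g' with hM'
  have hMa : ∀ x, |M x| ≤ 1 := fun x => mN_abs Sy hg x
  have hMa' : ∀ x, |M' x| ≤ 1 := fun x => mN_abs Sy hg' x
  have hG : ∀ x, SlowP (2 / (L : ℝ)) (GG L Λ u g x) := fun x =>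
    smoP_slow hL3 (fun v => extN_abs (hg x) v)
  have hG' : ∀ x, SlowP (2 / (L : ℝ)) (GG L Λ u g' x) := fun x =>
    smoP_slow hL3 (fun v => extN_abs (hg' x) v)
  -- first step: smoothing
  have s1 : |av 2 (k' + j) (fun n => g (s n) (X n) * g' (s' n) (X' n)) -
      av 2 (k' + j) (fun n => GG L Λ u g (s n) (X n) * GG L Λ u g' (s' n) (X' n))| ≤ ε / 8 := by
    refine smooth_bothN Sy hL3 (fun n i => BW_class Sy h _ c z _ i)
      (fun n i => BW_class Sy h _ c' z' _ i) hg hg' fun v v' hv hv' => ?_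
    have h1 := avc_zero (hk1 y hy c z c' z' hcz hcz' L
      (hL0.trans (mul_le_mul_of_nonneg_right (min_le_left _ _) hw0.le)) v v' hv hv' 0
      (fun s x s' x' => g s x * g' s' x') (fun s x s' x' => by
        rw [abs_mul]
        exact mul_le_one₀ (hg _ _) (abs_nonneg _) (hg' _ _)))
    rwa [av_sub] at h1
  -- second step: the finite parts
  have s2 : |av 2 (k' + j) (fun n => GG L Λ u g (s n) (X n) * GG L Λ u g' (s' n) (X' n)) -
      av 2 (k' + j) (fun n => AP q β ω (fun y => GG L Λ u g y (X n)) (s n) *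
        AP q β ω (fun y => GG L Λ u g' y (X' n)) (s' n))| ≤ ε / 8 := by
    refine AP_both Sy (f := fun n y => GG L Λ u g y (X n))
      (f' := fun n y => GG L Λ u g' y (X' n)) (s := s) (s' := s') fun l hl l' hl' => ?_
    have h1 := fin_all (k := k' + j) (s := s) (s' := s') (X := X) (X' := X')
      (Good := fun Ψ : (∀ i, S i) → (∀ i, Fin (d i) → ℤ) → (∀ i, S i) →
          (∀ i, Fin (d i) → ℤ) → ℝ =>
        (∀ s x s' x', |Ψ s x s' x'| ≤ 1) ∧
        (∀ s x s' x' i a, |Ψ s (x + Pi.single i (Pi.single a 1)) s' x' - Ψ s x s' x'| ≤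
          4 / κ / w) ∧
        (∀ s x s' x' i a, |Ψ s x s' (x' + Pi.single i (Pi.single a 1)) - Ψ s x s' x'| ≤
          4 / κ / w))
      (fun Ψ hΨ l l' => ⟨fun s x s' x' => hΨ.1 _ _ _ _, fun s x s' x' i a => hΨ.2.1 _ _ _ _ _ _,
        fun s x s' x' i a => hΨ.2.2 _ _ _ _ _ _⟩)
      (ε := ε / (8 * (Fintype.card ι + 1)))
      (fun Ψ hΨ i₀ l hl l' hl' => avc_zero (hk2 y hy c z c' z' hcz hcz' 0 Ψ hΨ.1 hΨ.2.1 hΨ.2.2
        i₀ l hl l' hl'))
      (Ψ := fun s x s' x' => GG L Λ u g s x * GG L Λ u g' s' x')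
      ⟨fun s x s' x' => by
          rw [abs_mul]
          exact mul_le_one₀ ((hG s).1 x) (abs_nonneg _) ((hG' s').1 x'),
        fun s x s' x' i a => by
          rw [← sub_mul, abs_mul]
          exact (mul_le_of_le_one_right (abs_nonneg _) ((hG' s').1 x')).trans
            (((hG s).2 x i a).trans hδ),
        fun s x s' x' i a => by
          rw [← mul_sub, abs_mul]
          exact (mul_le_of_le_one_left (abs_nonneg _) ((hG s).1 x)).trans
            (((hG' s').2 x' i a).trans hδ)⟩ hl hl'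
    refine h1.trans ?_
    rw [mul_div_assoc', div_le_div_iff₀ (by positivity) (by norm_num)]
    nlinarith [(Nat.cast_nonneg (Fintype.card ι) : (0 : ℝ) ≤ (Fintype.card ι : ℝ))]
  -- third step: the blocks
  have hKL : Km * L / w' ≤ ε / 32 := by
    rw [div_le_iff₀ hw'0]
    calc Km * L ≤ Km * (κ * w) := mul_le_mul_of_nonneg_left hL0 hKm0
      _ = Km * κ * w := by ring
      _ ≤ ε / 64 * (2 * w') := mul_le_mul hκm hww hw0.le (by positivity)
      _ = ε / 32 * w' := by ring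
  have s3 : |av 2 (k' + j) (fun n => AP q β ω (fun y => GG L Λ u g y (X n)) (s n) *
        AP q β ω (fun y => GG L Λ u g' y (X' n)) (s' n) - M (s n) * M' (s' n))| ≤
      (ε / 8 + 2 * (ε / 32 + ε / 64)) + 2 * (ε / 32) := by
    rw [av_tops]
    refine av_bad2 le_rfl (G := fun n₁ => ∀ i, Gk (q i) m (ω i) (p * Q i) k' (2 ^ j * y + n₁) ∧
      Gk (q i) m (ω i) (r * Q i) k' (2 ^ j * y + n₁))
      (by positivity) (by norm_num) (fun n₁ hn₁ hgd => ?_) (fun n₁ _ => ?_) ?_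
    · set y' : ℕ := 2 ^ j * y + n₁ with hy'
      have hy'Y : y' ≤ 2 ^ j * (Y + 1) := by
        calc y' ≤ 2 ^ j * y + 2 ^ j := by omega
          _ = 2 ^ j * (y + 1) := by ring
          _ ≤ 2 ^ j * (Y + 1) := Nat.mul_le_mul_left _ (by omega)
      have hidx : ∀ n, 2 ^ (k' + j) * y + (2 ^ k' * n₁ + n) = 2 ^ k' * y' + n := by
        intro n
        rw [hy', pow_add]
        ring
      set x₁ : ∀ i, S i := BW q β ω h (fun i => p * Q i) c z (2 ^ k' * y') with hx₁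
      set x₁' : ∀ i, S i := BW q β ω h (fun i => r * Q i) c' z' (2 ^ k' * y') with hx₁'
      have hc1 : ∀ n < 2 ^ k', AP q β ω (fun y => GG L Λ u g y (X (2 ^ k' * n₁ + n)))
          (s (2 ^ k' * n₁ + n)) = AP q β ω (fun v => GG L Λ u g v
            (EE q e h (fun i => p * Q i) c z (2 ^ k' * y' + n))) x₁ ∧
          M (s (2 ^ k' * n₁ + n)) = M x₁ := by
        intro n hn
        obtain ⟨l, hl, hle⟩ := BW_block Sy hPd hcz (fun i => (hgd i).1) hn
        simp only [hsdef, hX, hidx]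
        rw [hle]
        exact ⟨AP_shift Sy hl _ _, mN_shift Sy hl _⟩
      have hc1' : ∀ n < 2 ^ k', AP q β ω (fun y => GG L Λ u g' y (X' (2 ^ k' * n₁ + n)))
          (s' (2 ^ k' * n₁ + n)) = AP q β ω (fun v => GG L Λ u g' v
            (EE q e h (fun i => r * Q i) c' z' (2 ^ k' * y' + n))) x₁' ∧
          M' (s' (2 ^ k' * n₁ + n)) = M' x₁' := by
        intro n hn
        obtain ⟨l, hl, hle⟩ := BW_block Sy hRd hcz' (fun i => (hgd i).2) hn
        simp only [hs'def, hX', hidx]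
        rw [hle]
        exact ⟨AP_shift Sy hl _ _, mN_shift Sy hl _⟩
      have e1 : av 2 k' (fun n => AP q β ω (fun y => GG L Λ u g y (X (2 ^ k' * n₁ + n)))
          (s (2 ^ k' * n₁ + n)) * AP q β ω (fun y => GG L Λ u g' y (X' (2 ^ k' * n₁ + n)))
          (s' (2 ^ k' * n₁ + n)) - M (s (2 ^ k' * n₁ + n)) * M' (s' (2 ^ k' * n₁ + n))) =
          av 2 k' (fun n => AP q β ω (fun v => GG L Λ u g v
            (EE q e h (fun i => p * Q i) c z (2 ^ k' * y' + n))) x₁ *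
            AP q β ω (fun v => GG L Λ u g' v
            (EE q e h (fun i => r * Q i) c' z' (2 ^ k' * y' + n))) x₁') - M x₁ * M' x₁' := by
        rw [← av_const le_rfl k' (M x₁ * M' x₁'), ← av_sub]
        refine av_congr fun n hn => ?_
        rw [(hc1 n hn).1, (hc1 n hn).2, (hc1' n hn).1, (hc1' n hn).2]
      rw [e1]
      have hGb := AP_slowP Sy hG x₁
      have hGb' := AP_slowP Sy hG' x₁'
      have h1 := hk₁ k' hk1' y' hy'Y c z c' z' hcz hcz' _ _ (hmono hGb) (hmono hGb')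
      have hmean : ∀ (g : (∀ i, S i) → (∀ i, Fin (d i) → ℤ) → ℝ), (∀ s x, |g s x| ≤ 1) →
          ∀ x : ∀ i, S i, |modelAv q e k' (fun v => AP q β ω (fun y => GG L Λ u g y v) x) -
            mN q (k' + j) β ω e Λ u g x| ≤ ε / 32 + ε / 64 := by
        intro g hg x
        have t2 : |modelAv q e k' (fun v => AP q β ω (fun y => GG L Λ u g y v) x) -
            mN q k' β ω e Λ u g x| ≤ ε / 32 := by
          rw [modelAv_AP]
          refine AP_close Sy fun l _ => ?_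
          rw [abs_sub_comm]
          exact (hKm k' L hL3 _ fun v => extN_abs (hg _) v).trans hKL
        have t3 := hk₂ k' hk2' j le_rfl g hg x
        have a2 := abs_le.mp t2
        have a3 := abs_le.mp t3
        rw [abs_le]
        constructor
        · linarith [a2.1, a3.2]
        · linarith [a2.2, a3.1]
      have m1 := hmean g hg x₁
      have m2 := hmean g' hg' x₁'
      have m3 := abs_mul_close (modelAv_abs (k := k') (e := e) Sy.sys.base hGb.1) (hMa' x₁')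
        m1 m2
      have a1 := abs_le.mp h1
      have a3 := abs_le.mp m3
      rw [abs_le]
      constructor
      · linarith [a1.1, a3.1]
      · linarith [a1.2, a3.2]
    · refine abs_av_le le_rfl fun n _ => ?_
      refine (abs_sub _ _).trans ?_
      rw [abs_mul, abs_mul]
      have h1 := mul_le_one₀ ((AP_slowP Sy hG (s (2 ^ k' * n₁ + n))).1
        (X (2 ^ k' * n₁ + n))) (abs_nonneg _) ((AP_slowP Sy hG' (s' (2 ^ k' * n₁ + n))).1
        (X' (2 ^ k' * n₁ + n)))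
      have h2 := mul_le_one₀ (hMa (s (2 ^ k' * n₁ + n))) (abs_nonneg _)
        (hMa' (s' (2 ^ k' * n₁ + n)))
      linarith
    · refine le_trans (le_of_eq ?_) ((hj k' y).trans (le_of_eq ?_))
      · congr
      · push_cast
        rfl
  -- conclusion
  rw [av_sub] at s3 ⊢
  have a1 := abs_le.mp s1
  have a2 := abs_le.mp s2
  have a3 := abs_le.mp s3
  rw [abs_le]
  constructor
  · linarith [a1.1, a2.1, a3.1]
  · linarith [a1.2, a2.2, a3.2]

end several

end Pool.Agent.Lib.MP_3e612f_nt.NB
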