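import Pool.Agent.Lib.MP_3e612f_nt.NDefs
import Pool.Agent.Lib.MP_3e612f_nt.WOne
import Pool.Agent.Lib.MP_3e612f_nt.WDir
import Pool.Agent.Lib.MP_3e612f_nt.SKer
import Pool.Agent.Lib.MP_3e612f_nt.NTop
import Pool.Agent.Lib.MP_3e612f_nt.NConst
import Pool.Agent.Lib.MP_3e612f_nt.NBox
import Pool.Agent.Lib.MP_3e612f_nt.NTvF

/-!
Irrational rotations (task N18, helper78).
-/

set_option autoImplicit false

namespace Pool.Agent.Lib.MP_3e612f_nt.NB

open Filter Topology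
open Pool.Agent.Lib.MP_3e612f_nt.QA Pool.Agent.Lib.MP_3e612f_nt.SA Pool.Agent.Lib.MP_3e612f_nt.MB

/-- averaging over a finite family -/
theorem n18_avg {γ : Type*} {B : Finset γ} (hB : (0 : ℝ) < B.card) (k : ℕ) (w : ℕ → ℂ)
    (g : ℕ → ℝ) (G : γ → ℕ → ℝ) {ε : ℝ}
    (h : ∀ b ∈ B, ‖avc 2 k (fun n => w n * ((g n - G b n : ℝ) : ℂ))‖ ≤ ε) :
    ‖avc 2 k (fun n => w n * ((g n - (∑ b ∈ B, G b n) / B.card : ℝ) : ℂ))‖ ≤ ε := by
  have hBc : (B.card : ℂ) ≠ 0 := by exact_mod_cast hB.ne'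
  have hBr : (B.card : ℝ) ≠ 0 := hB.ne'
  have e1 : ∀ n, w n * ((g n - (∑ b ∈ B, G b n) / B.card : ℝ) : ℂ) =
      ((B.card : ℂ)⁻¹) * ∑ b ∈ B, w n * ((g n - G b n : ℝ) : ℂ) := by
    intro n
    rw [← Finset.mul_sum]
    push_cast
    rw [Finset.sum_sub_distrib, Finset.sum_const, nsmul_eq_mul]
    field_simp
  simp_rw [e1]
  rw [w4_avc_mul, w4_avc_sum, norm_mul, norm_inv, Complex.norm_natCast]
  have h2 : ‖∑ b ∈ B, avc 2 k (fun n => w n * ((g n - G b n : ℝ) : ℂ))‖ ≤ B.card * ε := by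
    refine (norm_sum_le _ _).trans ((Finset.sum_le_sum fun b hb => h b hb).trans (le_of_eq ?_))
    rw [Finset.sum_const, nsmul_eq_mul]
  calc _ ≤ ((B.card : ℝ)⁻¹) * (B.card * ε) := mul_le_mul_of_nonneg_left h2 (by positivity)
    _ = ε := by field_simp

theorem n18_avg_abs {γ : Type*} {B : Finset γ} (hB : (0 : ℝ) < B.card) {f : γ → ℝ} {c : ℝ}
    (hf : ∀ b ∈ B, |f b| ≤ c) : |(∑ b ∈ B, f b) / B.card| ≤ c := by
  rw [abs_div, abs_of_pos hB, div_le_iff₀ hB]
  refine (Finset.abs_sum_le_sum_abs _ _).trans ?_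
  refine (Finset.sum_le_sum hf).trans (le_of_eq ?_)
  rw [Finset.sum_const, nsmul_eq_mul, mul_comm]

theorem n18_avg_sub {γ : Type*} {B : Finset γ} (hB : (0 : ℝ) < B.card) {f g : γ → ℝ} {c : ℝ}
    (hf : ∀ b ∈ B, |f b - g b| ≤ c) :
    |(∑ b ∈ B, f b) / B.card - (∑ b ∈ B, g b) / B.card| ≤ c := by
  rw [← sub_div, ← Finset.sum_sub_distrib]
  exact n18_avg_abs hB hf

section several

variable {ι : Type*} [Fintype ι] [DecidableEq ι] {q : ι → ℕ} {m : ℕ} {d : ι → ℕ}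
  {S : ι → Type*} [∀ i, Monoid (S i)] [∀ i, Finite (S i)]
  {β : ∀ i, ℕ → S i} {ω : ι → ℕ} {e : ∀ i, ℕ → Fin (d i) → ℤ} {C : ℝ}
  {Λ : ∀ i, AddSubgroup (Fin (d i) → ℤ)} {N' : ℕ} {u : ∀ i, S i → (Fin (d i) → ℤ) ⧸ Λ i}

/-! ### the box average -/

/-- box averages in two lattice arguments -/
noncomputable def n18_av (L : ℕ) (g : (∀ i, Fin (d i) → ℤ) → (∀ i, Fin (d i) → ℤ) → ℝ)
    (x x' : ∀ i, Fin (d i) → ℤ) : ℝ :=
  (∑ p ∈ box d L ×ˢ box d L, g (x + p.1) (x' + p.2)) / ((box d L ×ˢ box d L).card : ℕ)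

theorem n18_box_pos {L : ℕ} (hL : 1 ≤ L) : (0 : ℝ) < ((box d L ×ˢ box d L).card : ℕ) := by
  rw [Finset.card_product]
  push_cast
  exact mul_pos (w4_box_pos hL) (w4_box_pos hL)

theorem n18_av_abs {L : ℕ} (hL : 1 ≤ L)
    {g : (∀ i, Fin (d i) → ℤ) → (∀ i, Fin (d i) → ℤ) → ℝ} (hg : ∀ x x', |g x x'| ≤ 1)
    (x x' : ∀ i, Fin (d i) → ℤ) : |n18_av L g x x'| ≤ 1 :=
  n18_avg_abs (n18_box_pos hL) fun _ _ => hg _ _

theorem n18_av_eq (L : ℕ) (g : (∀ i, Fin (d i) → ℤ) → (∀ i, Fin (d i) → ℤ) → ℝ)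
    (x x' : ∀ i, Fin (d i) → ℤ) :
    n18_av L g x x' = smoP L (fun a => (∑ v ∈ box d L, g a (x' + v)) / (box d L).card) x := by
  unfold n18_av smoP
  rw [Finset.sum_product, Finset.card_product, ← Finset.sum_div, div_div]
  push_cast
  rfl

theorem n18_av_swap (L : ℕ) (g : (∀ i, Fin (d i) → ℤ) → (∀ i, Fin (d i) → ℤ) → ℝ)
    (x x' : ∀ i, Fin (d i) → ℤ) :
    n18_av L g x x' = n18_av L (fun a b => g b a) x' x := by
  unfold n18_av
  rw [Finset.sum_product, Finset.sum_product, Finset.sum_comm]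

theorem n18_av_slow {L : ℕ} (hL : 1 ≤ L)
    {g : (∀ i, Fin (d i) → ℤ) → (∀ i, Fin (d i) → ℤ) → ℝ} (hg : ∀ x x', |g x x'| ≤ 1)
    (x' : ∀ i, Fin (d i) → ℤ) : SlowP (2 / L) (fun x => n18_av L g x x') := by
  have h1 := smoP_slow (g := fun a => (∑ v ∈ box d L, g a (x' + v)) / (box d L).card) hL
    (fun a => n18_avg_abs (w4_box_pos hL) fun _ _ => hg _ _)
  have h2 : (fun x => n18_av L g x x') =
      smoP L (fun a => (∑ v ∈ box d L, g a (x' + v)) / (box d L).card) := by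
    funext x
    exact n18_av_eq L g x x'
  rw [h2]
  exact h1

theorem n18_av_slow' {L : ℕ} (hL : 1 ≤ L)
    {g : (∀ i, Fin (d i) → ℤ) → (∀ i, Fin (d i) → ℤ) → ℝ} (hg : ∀ x x', |g x x'| ≤ 1)
    (x : ∀ i, Fin (d i) → ℤ) : SlowP (2 / L) (fun x' => n18_av L g x x') := by
  have h1 := n18_av_slow (g := fun a b => g b a) hL (fun a b => hg b a) x
  have h2 : (fun x' => n18_av L g x x') = fun x' => n18_av L (fun a b => g b a) x' x := by
    funext x'
    exact n18_av_swap L g x x'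
  rw [h2]
  exact h1

/-! ### the extension from the cosets -/

/-- the point of the coset `c` next to `x` -/
noncomputable def n18_ext (Λ : ∀ i, AddSubgroup (Fin (d i) → ℤ))
    (c : ∀ i, (Fin (d i) → ℤ) ⧸ Λ i) (x : ∀ i, Fin (d i) → ℤ) : ∀ i, Fin (d i) → ℤ :=
  fun i => x i + sec (Λ i) (c i - ((x i : (Fin (d i) → ℤ)) : (Fin (d i) → ℤ) ⧸ Λ i))

omit [Fintype ι] [DecidableEq ι] in
theorem n18_ext_add {c : ∀ i, (Fin (d i) → ℤ) ⧸ Λ i} {x : ∀ i, Fin (d i) → ℤ}
    (hx : ∀ i, ((x i : (Fin (d i) → ℤ)) : (Fin (d i) → ℤ) ⧸ Λ i) = c i)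
    (v : ∀ i, Fin (d i) → ℤ) : n18_ext Λ c (x + v) = x + lamL Λ v := by
  funext i
  unfold n18_ext lamL
  have h1 : c i - (((x + v) i : (Fin (d i) → ℤ)) : (Fin (d i) → ℤ) ⧸ Λ i) =
      -((v i : (Fin (d i) → ℤ)) : (Fin (d i) → ℤ) ⧸ Λ i) := by
    rw [Pi.add_apply, QuotientAddGroup.mk_add, hx i]
    abel
  rw [h1, Pi.add_apply, Pi.add_apply, add_assoc]

/-- the smoothed function -/
noncomputable def n18_psi1 (Λ : ∀ i, AddSubgroup (Fin (d i) → ℤ))
    (u : ∀ i, S i → (Fin (d i) → ℤ) ⧸ Λ i) (L : ℕ)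
    (Ψ : (∀ i, S i) → (∀ i, Fin (d i) → ℤ) → (∀ i, S i) → (∀ i, Fin (d i) → ℤ) → ℝ)
    (s : ∀ i, S i) (x : ∀ i, Fin (d i) → ℤ) (s' : ∀ i, S i) (x' : ∀ i, Fin (d i) → ℤ) : ℝ :=
  n18_av L (fun a a' => Ψ s (n18_ext Λ (fun i => u i (s i)) a) s'
    (n18_ext Λ (fun i => u i (s' i)) a')) x x'

/-! ### the average over the finite parts -/

/-- the product of the groups -/
noncomputable def n18_T (q : ι → ℕ) (β : ∀ i, ℕ → S i) (ω : ι → ℕ) : Finset (∀ i, S i) :=
  Fintype.piFinset (fun i => (Set.toFinite (LL (q i) (β i) (ω i))).toFinset)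

theorem n18_mem_T (l : ∀ i, S i) :
    l ∈ n18_T q β ω ↔ ∀ i, l i ∈ LL (q i) (β i) (ω i) := by
  unfold n18_T
  simp [Fintype.mem_piFinset]

theorem n18_T_pos (Sy : NSys q m β ω e C Λ N' u) :
    (0 : ℝ) < ((n18_T q β ω ×ˢ n18_T q β ω).card : ℕ) := by
  have h1 : 0 < (n18_T q β ω).card := Finset.card_pos.mpr ⟨fun i => β i (ω i), by
    rw [n18_mem_T]
    exact fun i => LL_one (Sy.qm i) (Sy.core i)⟩
  rw [Finset.card_product]
  exact_mod_cast Nat.mul_pos h1 h1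

theorem n18_T_sum (Sy : NSys q m β ω e C Λ N' u) {l : ∀ i, S i} (hl : l ∈ n18_T q β ω)
    (f : (∀ i, S i) → ℝ) :
    ∑ x ∈ n18_T q β ω, f (l * x) = ∑ x ∈ n18_T q β ω, f x := by
  rw [n18_mem_T] at hl
  choose l' hl' h1 h2 using fun i => LL_inv (Sy.sys.base i) (Sy.qm i) (Sy.core i) (hl i)
  refine Finset.sum_nbij' (fun x => l * x) (fun x => l' * x) ?_ ?_ ?_ ?_ ?_
  · intro x hx
    rw [n18_mem_T] at hx ⊢
    exact fun i => LL_mul (Sy.sys.base i) (Sy.qm i) (Sy.core i) (hl i) (hx i)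
  · intro x hx
    rw [n18_mem_T] at hx ⊢
    exact fun i => LL_mul (Sy.sys.base i) (Sy.qm i) (Sy.core i) (hl' i) (hx i)
  · intro x hx
    rw [n18_mem_T] at hx
    funext i
    rw [Pi.mul_apply, Pi.mul_apply, ← mul_assoc, h2, LL_left (Sy.core i) (hx i)]
  · intro x hx
    rw [n18_mem_T] at hx
    funext i
    rw [Pi.mul_apply, Pi.mul_apply, ← mul_assoc, h1, LL_left (Sy.core i) (hx i)]
  · intro x _
    rfl

/-- the average over the finite parts -/
noncomputable def n18_psi2 (q : ι → ℕ) (β : ∀ i, ℕ → S i) (ω : ι → ℕ)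
    (F : (∀ i, S i) → (∀ i, Fin (d i) → ℤ) → (∀ i, S i) → (∀ i, Fin (d i) → ℤ) → ℝ)
    (s : ∀ i, S i) (x : ∀ i, Fin (d i) → ℤ) (s' : ∀ i, S i) (x' : ∀ i, Fin (d i) → ℤ) : ℝ :=
  (∑ p ∈ n18_T q β ω ×ˢ n18_T q β ω, F (s * p.1) x (s' * p.2) x') /
    ((n18_T q β ω ×ˢ n18_T q β ω).card : ℕ)

theorem n18_psi2_inv (Sy : NSys q m β ω e C Λ N' u) {l l' : ∀ i, S i} (hl : l ∈ n18_T q β ω)
    (hl' : l' ∈ n18_T q β ω)
    (F : (∀ i, S i) → (∀ i, Fin (d i) → ℤ) → (∀ i, S i) → (∀ i, Fin (d i) → ℤ) → ℝ)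
    (s : ∀ i, S i) (x : ∀ i, Fin (d i) → ℤ) (s' : ∀ i, S i) (x' : ∀ i, Fin (d i) → ℤ) :
    n18_psi2 q β ω F (s * l) x (s' * l') x' = n18_psi2 q β ω F s x s' x' := by
  unfold n18_psi2
  congr 1
  rw [Finset.sum_product, Finset.sum_product]
  have h1 : ∀ a, ∑ b ∈ n18_T q β ω, F (s * l * a) x (s' * l' * b) x' =
      ∑ b ∈ n18_T q β ω, F (s * l * a) x (s' * b) x' := by
    intro a
    have := n18_T_sum Sy hl' (fun b => F (s * l * a) x (s' * b) x')
    rw [← this]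
    refine Finset.sum_congr rfl fun b _ => ?_
    rw [mul_assoc s' l' b]
  simp_rw [h1]
  have := n18_T_sum Sy hl (fun a => ∑ b ∈ n18_T q β ω, F (s * a) x (s' * b) x')
  rw [← this]
  refine Finset.sum_congr rfl fun a _ => ?_
  refine Finset.sum_congr rfl fun b _ => ?_
  rw [mul_assoc s l a]

/-- all finite parts at once -/
theorem n18_fin (Sy : NSys q m β ω e C Λ N' u) {P R : ι → ℕ} (hPR : MulN q m β ω P R)
    (h Y : ℕ) {ε D : ℝ} (hε : 0 < ε) :
    ∀ᶠ k : ℕ in atTop, ∀ y ≤ Y, ∀ c z c' z' : ι → ℕ, Bd q h P c z → Bd q h R c' z' → ∀ θ : ℝ,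
      ∀ Ψ : (∀ i, S i) → (∀ i, Fin (d i) → ℤ) → (∀ i, S i) → (∀ i, Fin (d i) → ℤ) → ℝ,
        (∀ s x s' x', |Ψ s x s' x'| ≤ 1) →
        (∀ s x s' x' i a, |Ψ s (x + Pi.single i (Pi.single a 1)) s' x' - Ψ s x s' x'| ≤
          D / Real.sqrt (k + 1)) →
        (∀ s x s' x' i a, |Ψ s x s' (x' + Pi.single i (Pi.single a 1)) - Ψ s x s' x'| ≤
          D / Real.sqrt (k + 1)) →
        ∀ l ∈ n18_T q β ω, ∀ l' ∈ n18_T q β ω,
        ‖avc 2 k (fun n => ew θ (2 ^ k * y + n) *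
          ((Ψ (BW q β ω h P c z (2 ^ k * y + n)) (EE q e h P c z (2 ^ k * y + n))
              (BW q β ω h R c' z' (2 ^ k * y + n)) (EE q e h R c' z' (2 ^ k * y + n)) -
            Ψ (BW q β ω h P c z (2 ^ k * y + n) * l)
              (EE q e h P c z (2 ^ k * y + n))
              (BW q β ω h R c' z' (2 ^ k * y + n) * l')
              (EE q e h R c' z' (2 ^ k * y + n)) : ℝ) : ℂ))‖ ≤ ε := by
  have hε1 : 0 < ε / (Fintype.card ι + 1) := by positivity
  filter_upwards [tv_fin Sy hPR h Y (ε := ε / (Fintype.card ι + 1)) (D := D) hε1] with k hk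
  intro y hy c z c' z' hb hb' θ Ψ hΨ hs1 hs2 l hl l' hl'
  rw [n18_mem_T] at hl hl'
  have key : ∀ T : Finset ι, ‖avc 2 k (fun n => ew θ (2 ^ k * y + n) *
          ((Ψ (BW q β ω h P c z (2 ^ k * y + n)) (EE q e h P c z (2 ^ k * y + n))
              (BW q β ω h R c' z' (2 ^ k * y + n)) (EE q e h R c' z' (2 ^ k * y + n)) -
            Ψ (BW q β ω h P c z (2 ^ k * y + n) * (fun i => if i ∈ T then l i else 1))
              (EE q e h P c z (2 ^ k * y + n))
              (BW q β ω h R c' z' (2 ^ k * y + n) * (fun i => if i ∈ T then l' i else 1))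
              (EE q e h R c' z' (2 ^ k * y + n)) : ℝ) : ℂ))‖ ≤
          T.card * (ε / (Fintype.card ι + 1)) := by
    intro T
    induction T using Finset.induction_on with
    | empty =>
      have e1 : (fun i => if i ∈ (∅ : Finset ι) then l i else 1) = (1 : ∀ i, S i) := by
        funext i
        simp
      have e2 : (fun i => if i ∈ (∅ : Finset ι) then l' i else 1) = (1 : ∀ i, S i) := by
        funext i
        simp
      rw [e1, e2]
      simp only [mul_one, sub_self, Complex.ofReal_zero, mul_zero, Finset.card_empty,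
        Nat.cast_zero, zero_mul]
      unfold avc
      simp
    | insert i₀ T hi ih =>
      have hmul : ∀ (l : ∀ i, S i), (Pi.mulSingle i₀ (l i₀) : ∀ i, S i) *
          (fun i => if i ∈ T then l i else 1) =
          (fun i => if i ∈ insert i₀ T then l i else 1) := by
        intro l
        funext i
        rw [Pi.mul_apply]
        by_cases h1 : i = i₀
        · subst h1
          rw [Pi.mulSingle_eq_same]
          simp [hi]
        · rw [Pi.mulSingle_eq_of_ne h1, one_mul]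
          simp [Finset.mem_insert, h1]
      have h1 := hk y hy c z c' z' hb hb' θ
        (fun s x s' x' => Ψ (s * (fun i => if i ∈ T then l i else 1)) x
          (s' * (fun i => if i ∈ T then l' i else 1)) x')
        (fun _ _ _ _ => hΨ _ _ _ _) (fun _ _ _ _ _ _ => hs1 _ _ _ _ _ _)
        (fun _ _ _ _ _ _ => hs2 _ _ _ _ _ _) i₀ (l i₀) (hl i₀) (l' i₀) (hl' i₀)
      simp only [mul_assoc, hmul] at h1
      rw [Finset.card_insert_of_notMem hi]
      have e3 : ∀ (A B D : ℕ → ℝ) (w : ℕ → ℂ), ‖avc 2 k (fun n => w n * ((A n - B n : ℝ) : ℂ))‖ ≤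
          T.card * (ε / (Fintype.card ι + 1)) →
          ‖avc 2 k (fun n => w n * ((B n - D n : ℝ) : ℂ))‖ ≤ ε / (Fintype.card ι + 1) →
          ‖avc 2 k (fun n => w n * ((A n - D n : ℝ) : ℂ))‖ ≤
            ((T.card + 1 : ℕ) : ℝ) * (ε / (Fintype.card ι + 1)) := by
        intro A B D w hA hB
        have e4 : avc 2 k (fun n => w n * ((A n - D n : ℝ) : ℂ)) =
            avc 2 k (fun n => w n * ((A n - B n : ℝ) : ℂ)) +
            avc 2 k (fun n => w n * ((B n - D n : ℝ) : ℂ)) := by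
          unfold avc
          rw [← add_div, ← Finset.sum_add_distrib]
          congr 1
          refine Finset.sum_congr rfl fun n _ => ?_
          push_cast
          ring
        rw [e4]
        refine (norm_add_le _ _).trans ?_
        rw [Nat.cast_add, Nat.cast_one, add_mul, one_mul]
        exact add_le_add hA hB
      exact e3 _ _ _ _ ih h1
  have h1 := key Finset.univ
  simp only [Finset.mem_univ, if_true] at h1
  refine h1.trans ?_
  rw [Finset.card_univ]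
  have h2 : (0 : ℝ) < Fintype.card ι + 1 := by positivity
  rw [← mul_div_assoc, div_le_iff₀ h2]
  nlinarith

/-! ### good intervals -/

/-- on good intervals the finite parts are constant modulo the groups -/
theorem n18_close (Sy : NSys q m β ω e C Λ N' u) {P : ι → ℕ} (hdP : ∀ i, (q i - 1) ∣ P i)
    {h : ℕ} {c z : ι → ℕ} (hb : Bd q h P c z) {k Y n n' : ℕ}
    (hg : ∀ i, Gk (q i) m (ω i) (P i) k Y) (hn : n < 2 ^ k) (hn' : n' < 2 ^ k) :
    ∃ l ∈ n18_T q β ω, BW q β ω h P c z (2 ^ k * Y + n') = BW q β ω h P c z (2 ^ k * Y + n) * l := by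
  choose l hl h1 using fun i => block_constN (Sy.sys.base i) (Sy.qm i) (Sy.core i) (hdP i) (hg i)
    (hb.cle i) (hb.zlt i) hn hn'
  refine ⟨l, by rw [n18_mem_T]; exact hl, ?_⟩
  funext i
  exact h1 i

open Classical in
theorem n18_dens (Sy : NSys q m β ω e C Λ N' u) {P R : ι → ℕ} (hP1 : ∀ i, 1 ≤ P i)
    (hR1 : ∀ i, 1 ≤ R i) {ε : ℝ} (hε : 0 < ε) : ∃ J₀ : ℕ, ∀ k y : ℕ,
    av 2 J₀ (fun a => if (∀ i, Gk (q i) m (ω i) (P i) k (2 ^ J₀ * y + a)) ∧
      (∀ i, Gk (q i) m (ω i) (R i) k (2 ^ J₀ * y + a)) then 0 else 1) ≤ ε := by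
  set ε₁ : ℝ := ε / (2 * Fintype.card ι + 1) with hε₁
  have hε₁0 : 0 < ε₁ := by positivity
  choose jP hjP using fun i => gk_density (m := m) (ω := ω i) (Sy.sys.base i) (hP1 i) hε₁0
  choose jR hjR using fun i => gk_density (m := m) (ω := ω i) (Sy.sys.base i) (hR1 i) hε₁0
  set J₀ : ℕ := ∑ i, jP i + ∑ i, jR i with hJ₀
  have hP0 : ∀ i, jP i ≤ J₀ := fun i =>
    (Finset.single_le_sum (f := jP) (fun _ _ => Nat.zero_le _) (Finset.mem_univ i)).trans
      (Nat.le_add_right _ _)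
  have hR0 : ∀ i, jR i ≤ J₀ := fun i =>
    (Finset.single_le_sum (f := jR) (fun _ _ => Nat.zero_le _) (Finset.mem_univ i)).trans
      (Nat.le_add_left _ _)
  refine ⟨J₀, fun k y => ?_⟩
  have h1 : ∀ a < 2 ^ J₀, (if (∀ i, Gk (q i) m (ω i) (P i) k (2 ^ J₀ * y + a)) ∧
      (∀ i, Gk (q i) m (ω i) (R i) k (2 ^ J₀ * y + a)) then (0 : ℝ) else 1) ≤
      ∑ i, (if ¬ Gk (q i) m (ω i) (P i) k (2 ^ J₀ * y + a) then (1 : ℝ) else 0) +
      ∑ i, (if ¬ Gk (q i) m (ω i) (R i) k (2 ^ J₀ * y + a) then (1 : ℝ) else 0) := by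
    intro a _
    have n1 : ∀ i, (0 : ℝ) ≤ (if ¬ Gk (q i) m (ω i) (P i) k (2 ^ J₀ * y + a) then (1 : ℝ)
      else 0) := fun i => by split_ifs <;> norm_num
    have n2 : ∀ i, (0 : ℝ) ≤ (if ¬ Gk (q i) m (ω i) (R i) k (2 ^ J₀ * y + a) then (1 : ℝ)
      else 0) := fun i => by split_ifs <;> norm_num
    have s1 := Finset.sum_nonneg fun i (_ : i ∈ Finset.univ) => n1 i
    have s2 := Finset.sum_nonneg fun i (_ : i ∈ Finset.univ) => n2 i
    split_ifs with hc
    · linarith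
    · rw [not_and_or] at hc
      rcases hc with hc | hc
      · push Not at hc
        obtain ⟨i, hi⟩ := hc
        have := Finset.single_le_sum (fun i _ => n1 i) (Finset.mem_univ i)
        rw [if_pos hi] at this
        linarith
      · push Not at hc
        obtain ⟨i, hi⟩ := hc
        have := Finset.single_le_sum (fun i _ => n2 i) (Finset.mem_univ i)
        rw [if_pos hi] at this
        linarith
  refine (av_mono h1).trans ?_
  rw [av_add, av_finset_sum, av_finset_sum]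
  have h3 : ∀ (G : ℕ → Prop), (((Finset.range (2 ^ J₀)).filter (fun n => ¬ G n)).card : ℝ) ≤
      ε₁ * 2 ^ J₀ → av 2 J₀ (fun n => if ¬ G n then (1 : ℝ) else 0) ≤ ε₁ := by
    intro G hG
    unfold av
    rw [div_le_iff₀ (by positivity), Finset.sum_ite, Finset.sum_const, Finset.sum_const_zero,
      nsmul_eq_mul, mul_one, add_zero]
    exact_mod_cast hG
  have h4 : ∑ i, av 2 J₀ (fun a => if ¬ Gk (q i) m (ω i) (P i) k (2 ^ J₀ * y + a) then (1 : ℝ)
      else 0) ≤ Fintype.card ι * ε₁ := by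
    refine (Finset.sum_le_sum fun i _ => h3 (fun a => Gk (q i) m (ω i) (P i) k (2 ^ J₀ * y + a))
      (hjP i J₀ (hP0 i) k y)).trans (le_of_eq ?_)
    rw [Finset.sum_const, Finset.card_univ, nsmul_eq_mul]
  have h5 : ∑ i, av 2 J₀ (fun a => if ¬ Gk (q i) m (ω i) (R i) k (2 ^ J₀ * y + a) then (1 : ℝ)
      else 0) ≤ Fintype.card ι * ε₁ := by
    refine (Finset.sum_le_sum fun i _ => h3 (fun a => Gk (q i) m (ω i) (R i) k (2 ^ J₀ * y + a))
      (hjR i J₀ (hR0 i) k y)).trans (le_of_eq ?_)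
    rw [Finset.sum_const, Finset.card_univ, nsmul_eq_mul]
  have h6 : (2 * Fintype.card ι + 1) * ε₁ = ε := by
    rw [hε₁]
    field_simp
  nlinarith

/-- near the right end of an interval -/
theorem n18_edge (k' J₀ j : ℕ) :
    av 2 (k' + J₀) (fun n => if n % 2 ^ k' + j < 2 ^ k' then 0 else 1) ≤ (j : ℝ) / 2 ^ k' := by
  have h1 := Split.av_mid (q := 2) (by norm_num) 0 k' J₀
    (fun b => if b + j < 2 ^ k' then (0 : ℝ) else 1)
  simp only [pow_zero, Nat.div_one, zero_add] at h1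
  rw [h1]
  unfold av
  push_cast
  refine div_le_div_of_nonneg_right ?_ (by positivity)
  rw [Finset.sum_ite, Finset.sum_const_zero, Finset.sum_const, nsmul_eq_mul, mul_one, zero_add]
  have h2 : ((Finset.range (2 ^ k')).filter (fun x => ¬ x + j < 2 ^ k')).card ≤ j := by
    calc ((Finset.range (2 ^ k')).filter (fun x => ¬ x + j < 2 ^ k')).card
        ≤ (Finset.Ico (2 ^ k' - j) (2 ^ k')).card := by
          apply Finset.card_le_card
          intro x hx
          rw [Finset.mem_filter, Finset.mem_range] at hx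
          rw [Finset.mem_Ico]
          omega
      _ ≤ j := by
          rw [Nat.card_Ico]
          omega
  exact_mod_cast h2

/-- the sum of the increments -/
theorem n18_l1 {P : ι → ℕ} {h Y J : ℕ} {KP : ι → ℝ}
    (hKP : ∀ i, ∀ k y c z j : ℕ, y ≤ Y → c ≤ P i → z < q i ^ h → j ≤ J → ∀ a : Fin (d i),
      av 2 k (fun n => |((e i (sd (q i) h (P i) c z (2 ^ k * y + n + j)) a : ℤ) : ℝ) -
        ((e i (sd (q i) h (P i) c z (2 ^ k * y + n)) a : ℤ) : ℝ)|) ≤ KP i)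
    {k y j : ℕ} (hy : y ≤ Y) (hj : j ≤ J) {c z : ι → ℕ} (hb : Bd q h P c z) :
    av 2 k (fun n => w4_l1 (EE q e h P c z (2 ^ k * y + n + j) -
      EE q e h P c z (2 ^ k * y + n))) ≤ ∑ i, (d i : ℝ) * KP i := by
  unfold w4_l1
  rw [av_finset_sum]
  refine Finset.sum_le_sum fun i _ => ?_
  rw [av_finset_sum]
  refine (Finset.sum_le_sum fun a _ => (?_ : _ ≤ KP i)).trans (le_of_eq ?_)
  · have h3 := hKP i k y (c i) (z i) j hy (hb.cle i) (hb.zlt i) hj a
    refine le_trans (le_of_eq ?_) h3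
    congr 1
    funext n
    rw [Pi.sub_apply, Pi.sub_apply, Int.cast_sub]
    rfl
  · rw [Finset.sum_const, Finset.card_univ, Fintype.card_fin, nsmul_eq_mul]

/-- N18: irrational rotations -/
theorem tw_oneB (Sy : NSys q m β ω e C Λ N' u) {P R : ι → ℕ} (hPR : MulN q m β ω P R) {θ : ℝ}
    (hθ : Irrational θ) (h Y : ℕ) {ε : ℝ} (hε : 0 < ε) :
    ∀ᶠ k : ℕ in atTop, ∀ y ≤ Y, ∀ c z c' z' : ι → ℕ, Bd q h P c z → Bd q h R c' z' →
      ∀ Ψ : (∀ i, S i) → (∀ i, Fin (d i) → ℤ) → (∀ i, S i) → (∀ i, Fin (d i) → ℤ) → ℝ,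
        (∀ s x s' x', |Ψ s x s' x'| ≤ 1) →
        ‖avc 2 k (fun n => ew θ (2 ^ k * y + n) *
          (Ψ (BW q β ω h P c z (2 ^ k * y + n)) (EE q e h P c z (2 ^ k * y + n))
            (BW q β ω h R c' z' (2 ^ k * y + n)) (EE q e h R c' z' (2 ^ k * y + n)) : ℂ))‖ ≤
          ε := by
  classical
  obtain ⟨κ, hκ, H⟩ := tv_boxB Sy hPR h Y (ε := ε / 6) (by positivity)
  have H2 := n18_fin Sy hPR h Y (ε := ε / 6) (D := 4 / κ) (by positivity)
  -- the rotation
  set ρ : ℂ := ew θ 1 with hρdef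
  have hρ : ‖ρ‖ = 1 := norm_ew θ 1
  have hρ1 : ρ ≠ 1 := by
    intro hcon
    rw [hρdef, ew, Complex.exp_eq_one_iff] at hcon
    obtain ⟨n, hn⟩ := hcon
    have h2 : (2 * (Real.pi : ℂ) * Complex.I) * ((θ * ((1 : ℕ) : ℝ) : ℝ) : ℂ) =
        (2 * (Real.pi : ℂ) * Complex.I) * (n : ℂ) := by
      rw [hn]
      ring
    have h3 := mul_left_cancel₀ Complex.two_pi_I_ne_zero h2
    have h4 : θ * ((1 : ℕ) : ℝ) = n := by exact_mod_cast h3
    rw [Nat.cast_one, mul_one] at h4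
    exact hθ.ne_int n h4
  have hρj : ∀ n j : ℕ, ew θ (n + j) = ρ ^ j * ew θ n := by
    intro n j
    induction j with
    | zero => simp
    | succ j ih => rw [← add_assoc, ew_add, ih, pow_succ, hρdef]; ring
  obtain ⟨J, hJ1, hJ⟩ := w4_rot hρ hρ1 (ε := ε / 6) (by positivity)
  -- the increments
  choose KP hKP0 hKP using fun i => inc_l1 (Sy.sys.base i) (Sy.sys.qv i) (hPR.mul.cP i) h Y J
  choose KR hKR0 hKR using fun i => inc_l1 (Sy.sys.base i) (Sy.sys.qv i) (hPR.mul.cR i) h Y J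
  set K : ℝ := ∑ i, (d i : ℝ) * KP i + ∑ i, (d i : ℝ) * KR i with hK
  have hK0 : 0 ≤ K := add_nonneg
    (Finset.sum_nonneg fun i _ => mul_nonneg (Nat.cast_nonneg _) (hKP0 i))
    (Finset.sum_nonneg fun i _ => mul_nonneg (Nat.cast_nonneg _) (hKR0 i))
  -- the good intervals
  have hP1 : ∀ i, 1 ≤ P i := hPR.mul.one
  have hR1 : ∀ i, 1 ≤ R i := fun i => by
    have h1 := hPR.mul.le i
    have h2 : 1 ≤ q i ^ m := Nat.one_le_pow _ _ (by have := Sy.sys.base i; omega)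
    have h3 := hP1 i
    nlinarith
  obtain ⟨J₀, hJ₀⟩ := n18_dens Sy hP1 hR1 (ε := ε / 24) (by positivity)
  -- the choice of `k`
  have hsqrt : Tendsto (fun k : ℕ => κ * Real.sqrt ((k : ℝ) + 1)) atTop atTop := by
    apply Filter.Tendsto.const_mul_atTop hκ
    exact Real.tendsto_sqrt_atTop.comp
      (tendsto_atTop_add_const_right _ _ tendsto_natCast_atTop_atTop)
  have hlarge := hsqrt.eventually_ge_atTop (24 * K / ε + 2)
  have hpow : Tendsto (fun k : ℕ => (2 : ℝ) ^ k) atTop atTop :=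
    tendsto_pow_atTop_atTop_of_one_lt (by norm_num)
  have hlarge2 := hpow.eventually_ge_atTop (24 * J * 2 ^ J₀ / ε)
  filter_upwards [H, H2, hlarge, hlarge2, eventually_ge_atTop J₀] with k hk hk' hk1 hk2 hk3
  intro y hy c z c' z' hb hb' Ψ hΨ
  obtain ⟨k', rfl⟩ : ∃ k', k = k' + J₀ := ⟨k - J₀, by omega⟩
  set k := k' + J₀ with hkdef
  set L : ℕ := ⌊κ * Real.sqrt ((k : ℝ) + 1)⌋₊ with hL
  have hLle : (L : ℝ) ≤ κ * Real.sqrt (k + 1) := Nat.floor_le (by positivity)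
  have hLge : κ * Real.sqrt (k + 1) - 1 ≤ L := (Nat.sub_one_lt_floor _).le
  have h12 : 0 ≤ 24 * K / ε := by positivity
  have hL1r : (1 : ℝ) ≤ L := by linarith
  have hL1 : 1 ≤ L := by exact_mod_cast hL1r
  have hLK : 2 / (L : ℝ) * K ≤ ε / 12 := by
    have h1 : 24 * K / ε ≤ L := by linarith
    rw [div_le_iff₀ hε] at h1
    rw [div_mul_eq_mul_div, div_le_iff₀ (by linarith)]
    linarith
  have hsq : (0 : ℝ) < Real.sqrt (k + 1) := Real.sqrt_pos.mpr (by positivity)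
  have hLD : 2 / (L : ℝ) ≤ 4 / κ / Real.sqrt (k + 1) := by
    rw [div_div, div_le_div_iff₀ (by linarith) (by positivity)]
    linarith
  have h2k' : 2 * ((J : ℝ) / 2 ^ k') ≤ ε / 12 := by
    rw [div_le_iff₀ hε, hkdef, pow_add] at hk2
    have h1 : 24 * (J : ℝ) ≤ 2 ^ k' * ε := by
      have h0 : (0 : ℝ) < 2 ^ J₀ := by positivity
      have : 24 * (J : ℝ) * 2 ^ J₀ ≤ (2 ^ k' * ε) * 2 ^ J₀ := by linarith
      exact le_of_mul_le_mul_right this h0
    rw [← mul_div_assoc, div_le_iff₀ (by positivity)]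
    linarith
  have h2k : 2 * (J : ℝ) / 2 ^ k ≤ ε / 12 := by
    refine le_trans ?_ h2k'
    rw [mul_div_assoc]
    refine mul_le_mul_of_nonneg_left ?_ (by norm_num)
    refine div_le_div_of_nonneg_left (by positivity) (by positivity) ?_
    exact pow_le_pow_right₀ (by norm_num) (by omega)
  set B : ℕ → ∀ i, S i := fun n => BW q β ω h P c z (2 ^ k * y + n) with hB
  set B' : ℕ → ∀ i, S i := fun n => BW q β ω h R c' z' (2 ^ k * y + n) with hB'
  set X : ℕ → ∀ i, Fin (d i) → ℤ := fun n => EE q e h P c z (2 ^ k * y + n) with hX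
  set X' : ℕ → ∀ i, Fin (d i) → ℤ := fun n => EE q e h R c' z' (2 ^ k * y + n) with hX'
  set w : ℕ → ℂ := fun n => ew θ (2 ^ k * y + n) with hw
  have hw1 : ∀ n, ‖w n‖ = 1 := fun n => norm_ew _ _
  have hwj : ∀ n j, w (n + j) = ρ ^ j * w n := by
    intro n j
    rw [hw]
    dsimp only
    rw [← add_assoc]
    exact hρj _ _
  -- smoothing in the lattices
  set Ψ₁ := n18_psi1 Λ u L Ψ with hΨ₁
  have hg1 : ∀ (s s' : ∀ i, S i) (a a' : ∀ i, Fin (d i) → ℤ),
      |Ψ s (n18_ext Λ (fun i => u i (s i)) a) s' (n18_ext Λ (fun i => u i (s' i)) a')| ≤ 1 :=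
    fun _ _ _ _ => hΨ _ _ _ _
  have hΨ₁1 : ∀ s x s' x', |Ψ₁ s x s' x'| ≤ 1 := fun s x s' x' =>
    n18_av_abs hL1 (hg1 s s') x x'
  have hslow1 : ∀ s s' x', SlowP (2 / L) (fun x => Ψ₁ s x s' x') := fun s s' x' =>
    n18_av_slow hL1 (hg1 s s') x'
  have hslow2 : ∀ s s' x, SlowP (2 / L) (fun x' => Ψ₁ s x s' x') := fun s s' x =>
    n18_av_slow' hL1 (hg1 s s') x
  have hcos : ∀ n i, ((X n i : (Fin (d i) → ℤ)) : (Fin (d i) → ℤ) ⧸ Λ i) = u i (B n i) :=
    fun n i => (Sy.huω i _).symm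
  have hcos' : ∀ n i, ((X' n i : (Fin (d i) → ℤ)) : (Fin (d i) → ℤ) ⧸ Λ i) = u i (B' n i) :=
    fun n i => (Sy.huω i _).symm
  have hsm1 : ‖avc 2 k (fun n => w n * ((Ψ (B n) (X n) (B' n) (X' n) -
      Ψ₁ (B n) (X n) (B' n) (X' n) : ℝ) : ℂ))‖ ≤ ε / 6 := by
    refine n18_avg (B := box d L ×ˢ box d L) (n18_box_pos hL1) k w
      (fun n => Ψ (B n) (X n) (B' n) (X' n))
      (fun p n => Ψ (B n) (n18_ext Λ (fun i => u i (B n i)) (X n + p.1)) (B' n)
        (n18_ext Λ (fun i => u i (B' n i)) (X' n + p.2))) ?_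
    intro p hp
    rw [Finset.mem_product, m27_mem_box, m27_mem_box] at hp
    have h1 := hk y hy c z c' z' hb hb' L hLle p.1 p.2
      (fun i a => ⟨(hp.1 i a).1, (hp.1 i a).2.le⟩)
      (fun i a => ⟨(hp.2 i a).1, (hp.2 i a).2.le⟩) θ Ψ hΨ
    refine le_trans (le_of_eq ?_) h1
    congr 2
    funext n
    rw [n18_ext_add (hcos n), n18_ext_add (hcos' n)]
  -- the average over the finite parts
  set Ψ₂ := n18_psi2 q β ω Ψ₁ with hΨ₂
  have hTpos := n18_T_pos Sy
  have hΨ₂1 : ∀ s x s' x', |Ψ₂ s x s' x'| ≤ 1 := fun s x s' x' =>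
    n18_avg_abs hTpos fun _ _ => hΨ₁1 _ _ _ _
  have hsm2 : ‖avc 2 k (fun n => w n * ((Ψ₁ (B n) (X n) (B' n) (X' n) -
      Ψ₂ (B n) (X n) (B' n) (X' n) : ℝ) : ℂ))‖ ≤ ε / 6 := by
    refine n18_avg (B := n18_T q β ω ×ˢ n18_T q β ω) hTpos k w
      (fun n => Ψ₁ (B n) (X n) (B' n) (X' n))
      (fun p n => Ψ₁ (B n * p.1) (X n) (B' n * p.2) (X' n)) ?_
    intro p hp
    rw [Finset.mem_product] at hp
    exact hk' y hy c z c' z' hb hb' θ Ψ₁ hΨ₁1
      (fun s x s' x' i a => ((hslow1 s s' x').2 x i a).trans hLD)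
      (fun s x s' x' i a => ((hslow2 s s' x).2 x' i a).trans hLD) p.1 hp.1 p.2 hp.2
  have hlip : ∀ s s' x x' y y', |Ψ₂ s y s' y' - Ψ₂ s x s' x'| ≤
      2 / L * (w4_l1 (y - x) + w4_l1 (y' - x')) := by
    intro s s' x x' y y'
    refine n18_avg_sub hTpos fun p _ => ?_
    have h1 := w4_slow_lip (hslow1 (s * p.1) (s' * p.2) y') x y
    have h2 := w4_slow_lip (hslow2 (s * p.1) (s' * p.2) x) x' y'
    refine (abs_sub_le _ (Ψ₁ (s * p.1) x (s' * p.2) y') _).trans ?_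
    rw [mul_add]
    exact add_le_add h1 h2
  -- the shifts
  set F : ℕ → ℝ := fun n => Ψ₂ (B n) (X n) (B' n) (X' n) with hF
  have hF1 : ∀ n, |F n| ≤ 1 := fun n => hΨ₂1 _ _ _ _
  set v : ℕ → ℂ := fun n => w n * (F n : ℂ) with hv
  have hv1 : ∀ n, ‖v n‖ ≤ 1 := by
    intro n
    rw [hv]
    dsimp only
    rw [norm_mul, hw1, one_mul, Complex.norm_real, Real.norm_eq_abs]
    exact hF1 n
  have hFj : ∀ j < J, av 2 k (fun n => |F (n + j) - F n|) ≤ ε / 4 := by
    intro j hj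
    have hpt : ∀ n < 2 ^ k, |F (n + j) - F n| ≤
        2 / L * (w4_l1 (EE q e h P c z (2 ^ k * y + n + j) - EE q e h P c z (2 ^ k * y + n)) +
          w4_l1 (EE q e h R c' z' (2 ^ k * y + n + j) - EE q e h R c' z' (2 ^ k * y + n))) +
        (2 * (if (∀ i, Gk (q i) m (ω i) (P i) k' (2 ^ J₀ * y + n / 2 ^ k')) ∧
          (∀ i, Gk (q i) m (ω i) (R i) k' (2 ^ J₀ * y + n / 2 ^ k')) then 0 else 1) +
        2 * (if n % 2 ^ k' + j < 2 ^ k' then 0 else 1)) := by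
      intro n hn
      have hl0 : 0 ≤ 2 / (L : ℝ) * (w4_l1 (EE q e h P c z (2 ^ k * y + n + j) -
          EE q e h P c z (2 ^ k * y + n)) + w4_l1 (EE q e h R c' z' (2 ^ k * y + n + j) -
          EE q e h R c' z' (2 ^ k * y + n))) :=
        mul_nonneg (by positivity) (add_nonneg (w4_l1_nonneg _) (w4_l1_nonneg _))
      have hb2 : |F (n + j) - F n| ≤ 2 := by
        have h1 := abs_sub (F (n + j)) (F n)
        have h2 := hF1 (n + j)
        have h3 := hF1 n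
        linarith
      by_cases hc1 : (∀ i, Gk (q i) m (ω i) (P i) k' (2 ^ J₀ * y + n / 2 ^ k')) ∧
          (∀ i, Gk (q i) m (ω i) (R i) k' (2 ^ J₀ * y + n / 2 ^ k'))
      · by_cases hc2 : n % 2 ^ k' + j < 2 ^ k'
        · rw [if_pos hc1, if_pos hc2]
          have e1 : 2 ^ k * y + n = 2 ^ k' * (2 ^ J₀ * y + n / 2 ^ k') + n % 2 ^ k' := by
            have h1 := Nat.div_add_mod n (2 ^ k')
            rw [hkdef, pow_add]
            calc 2 ^ k' * 2 ^ J₀ * y + n = 2 ^ k' * 2 ^ J₀ * y +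
                  (2 ^ k' * (n / 2 ^ k') + n % 2 ^ k') := by rw [h1]
              _ = _ := by ring
          have e2 : 2 ^ k * y + (n + j) =
              2 ^ k' * (2 ^ J₀ * y + n / 2 ^ k') + (n % 2 ^ k' + j) := by
            rw [← add_assoc, e1, add_assoc]
          obtain ⟨l, hl, hl1⟩ := n18_close Sy hPR.dP hb hc1.1
            (n := n % 2 ^ k') (n' := n % 2 ^ k' + j) (by omega) hc2
          obtain ⟨l', hl', hl1'⟩ := n18_close Sy hPR.dR hb' hc1.2
            (n := n % 2 ^ k') (n' := n % 2 ^ k' + j) (by omega) hc2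
          have e3 : B (n + j) = B n * l := by
            rw [hB]
            dsimp only
            rw [e2, e1, hl1]
          have e4 : B' (n + j) = B' n * l' := by
            rw [hB']
            dsimp only
            rw [e2, e1, hl1']
          have e5 : F (n + j) = Ψ₂ (B n) (X (n + j)) (B' n) (X' (n + j)) := by
            rw [hF]
            dsimp only
            rw [e3, e4, hΨ₂, n18_psi2_inv Sy hl hl']
          rw [e5]
          have h1 := hlip (B n) (B' n) (X n) (X' n) (X (n + j)) (X' (n + j))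
          simp only [mul_zero, add_zero]
          refine h1.trans (le_of_eq ?_)
          rw [hX, hX']
          dsimp only
          rw [← add_assoc]
        · rw [if_neg hc2]
          have : (0 : ℝ) ≤ 2 * (if (∀ i, Gk (q i) m (ω i) (P i) k' (2 ^ J₀ * y + n / 2 ^ k')) ∧
            (∀ i, Gk (q i) m (ω i) (R i) k' (2 ^ J₀ * y + n / 2 ^ k')) then 0 else 1) := by
            split_ifs <;> norm_num
          linarith
      · rw [if_neg hc1]
        have : (0 : ℝ) ≤ 2 * (if n % 2 ^ k' + j < 2 ^ k' then 0 else 1) := by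
          split_ifs <;> norm_num
        linarith
    refine (av_mono hpt).trans ?_
    rw [av_add, av_const_mul, av_add, av_add, av_const_mul, av_const_mul]
    have s1 := n18_l1 (e := e) hKP hy hj.le hb (k := k)
    have s2 := n18_l1 (e := e) hKR hy hj.le hb' (k := k)
    have s3 : 2 / (L : ℝ) * (av 2 k (fun n => w4_l1 (EE q e h P c z (2 ^ k * y + n + j) -
        EE q e h P c z (2 ^ k * y + n))) + av 2 k (fun n => w4_l1
        (EE q e h R c' z' (2 ^ k * y + n + j) - EE q e h R c' z' (2 ^ k * y + n)))) ≤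
        2 / L * K := by
      refine mul_le_mul_of_nonneg_left ?_ (by positivity)
      rw [hK]
      exact add_le_add s1 s2
    have s4 : av 2 k (fun n =>
        if (∀ i, Gk (q i) m (ω i) (P i) k' (2 ^ J₀ * y + n / 2 ^ k')) ∧
          (∀ i, Gk (q i) m (ω i) (R i) k' (2 ^ J₀ * y + n / 2 ^ k')) then (0 : ℝ) else 1) ≤
        ε / 24 := by
      have h1 := Split.av_top (q := 2) (by norm_num) k' J₀ (fun a =>
        if (∀ i, Gk (q i) m (ω i) (P i) k' (2 ^ J₀ * y + a)) ∧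
          (∀ i, Gk (q i) m (ω i) (R i) k' (2 ^ J₀ * y + a)) then (0 : ℝ) else 1)
      rw [← hkdef] at h1
      exact (le_of_eq h1).trans (hJ₀ k' y)
    have s5 : av 2 k (fun n => if n % 2 ^ k' + j < 2 ^ k' then (0 : ℝ) else 1) ≤
        (J : ℝ) / 2 ^ k' := by
      refine (n18_edge k' J₀ j).trans ?_
      refine div_le_div_of_nonneg_right ?_ (by positivity)
      exact_mod_cast hj.le
    linarith
  have hj : ∀ j < J, ‖avc 2 k v - ρ ^ j * avc 2 k v‖ ≤ ε / 3 := by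
    intro j hj
    have s1 := w4_shift k j hv1
    have s2 : ‖avc 2 k (fun n => v (n + j)) - ρ ^ j * avc 2 k v‖ ≤ ε / 4 := by
      rw [← w4_avc_mul, ← w4_avc_sub]
      refine (w4_avc_norm 2 k _).trans (le_trans (le_of_eq ?_) (hFj j hj))
      congr 1
      funext n
      have e2 : v (n + j) - ρ ^ j * v n = (ρ ^ j * w n) * ((F (n + j) - F n : ℝ) : ℂ) := by
        rw [hv]
        dsimp only
        rw [hwj]
        push_cast
        ring
      rw [e2, norm_mul, norm_mul, norm_pow, hρ, one_pow, hw1, one_mul, one_mul,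
        Complex.norm_real, Real.norm_eq_abs]
    have s3 : 2 * (j : ℝ) / 2 ^ k ≤ ε / 12 := by
      refine le_trans ?_ h2k
      have : (j : ℝ) ≤ (J : ℝ) := by exact_mod_cast hj.le
      exact div_le_div_of_nonneg_right (by linarith) (by positivity)
    calc ‖avc 2 k v - ρ ^ j * avc 2 k v‖
        = ‖(avc 2 k (fun n => v (n + j)) - ρ ^ j * avc 2 k v) -
          (avc 2 k (fun n => v (n + j)) - avc 2 k v)‖ := by
          congr 1
          ring
      _ ≤ ‖avc 2 k (fun n => v (n + j)) - ρ ^ j * avc 2 k v‖ +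
          ‖avc 2 k (fun n => v (n + j)) - avc 2 k v‖ := norm_sub_le _ _
      _ ≤ ε / 4 + 2 * (j : ℝ) / 2 ^ k := add_le_add s2 s1
      _ ≤ ε / 3 := by linarith
  -- the average over the shifts
  have hJr : (0 : ℝ) < J := by exact_mod_cast hJ1
  have hJc : (J : ℂ) ≠ 0 := by exact_mod_cast hJr.ne'
  have havg : ‖avc 2 k v - ((∑ j ∈ Finset.range J, ρ ^ j) / J) * avc 2 k v‖ ≤ ε / 3 := by
    have e1 : avc 2 k v - ((∑ j ∈ Finset.range J, ρ ^ j) / J) * avc 2 k v =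
        (∑ j ∈ Finset.range J, (avc 2 k v - ρ ^ j * avc 2 k v)) / J := by
      rw [Finset.sum_sub_distrib, Finset.sum_const, Finset.card_range, nsmul_eq_mul, sub_div,
        mul_div_cancel_left₀ _ hJc, ← Finset.sum_mul, div_mul_eq_mul_div]
    rw [e1, norm_div, Complex.norm_natCast, div_le_iff₀ hJr]
    refine (norm_sum_le _ _).trans ((Finset.sum_le_sum fun j hj' =>
      hj j (Finset.mem_range.mp hj')).trans (le_of_eq ?_))
    rw [Finset.sum_const, Finset.card_range, nsmul_eq_mul, mul_comm]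
  have hfin : ‖avc 2 k v‖ ≤ ε / 3 + ε / 6 := by
    have h3 : ‖((∑ j ∈ Finset.range J, ρ ^ j) / J) * avc 2 k v‖ ≤ ε / 6 := by
      rw [norm_mul]
      calc _ ≤ ε / 6 * 1 := mul_le_mul hJ (w4_avc_le (by norm_num) hv1) (norm_nonneg _)
            (by positivity)
        _ = ε / 6 := mul_one _
    calc ‖avc 2 k v‖ = ‖(avc 2 k v - ((∑ j ∈ Finset.range J, ρ ^ j) / J) * avc 2 k v) +
          ((∑ j ∈ Finset.range J, ρ ^ j) / J) * avc 2 k v‖ := by
          congr 1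
          ring
      _ ≤ _ := (norm_add_le _ _).trans (add_le_add havg h3)
  have hdec : avc 2 k (fun n => w n * (Ψ (B n) (X n) (B' n) (X' n) : ℂ)) =
      avc 2 k (fun n => w n * ((Ψ (B n) (X n) (B' n) (X' n) -
        Ψ₁ (B n) (X n) (B' n) (X' n) : ℝ) : ℂ)) +
      (avc 2 k (fun n => w n * ((Ψ₁ (B n) (X n) (B' n) (X' n) -
        Ψ₂ (B n) (X n) (B' n) (X' n) : ℝ) : ℂ)) + avc 2 k v) := by
    unfold avc
    rw [← add_div, ← add_div, ← Finset.sum_add_distrib, ← Finset.sum_add_distrib]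
    congr 1
    refine Finset.sum_congr rfl fun n _ => ?_
    rw [hv, hF]
    push_cast
    ring
  calc ‖avc 2 k (fun n => w n * (Ψ (B n) (X n) (B' n) (X' n) : ℂ))‖
      ≤ ε / 6 + (ε / 6 + (ε / 3 + ε / 6)) := by
        rw [hdec]
        exact (norm_add_le _ _).trans (add_le_add hsm1
          ((norm_add_le _ _).trans (add_le_add hsm2 hfin)))
    _ ≤ ε := by linarith

end several

end Pool.Agent.Lib.MP_3e612f_nt.NB
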