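import Pool.Agent.Lib.MP_3e612f_nt.NDep
import Pool.Agent.Lib.MP_3e612f_nt.NTwOne
import Pool.Agent.Lib.MP_3e612f_nt.SKer
import Pool.Agent.Lib.MP_3e612f_nt.WPoly

/-!
N19: polynomial phases, several bases, finite parts and lattice parts together. Induction on the
degree by the inequality of van der Corput with bounded shifts.
-/

set_option autoImplicit false

namespace Pool.Agent.Lib.MP_3e612f_nt.NB

open Filter Topology
open Pool.Agent.Lib.MP_3e612f_nt.QA Pool.Agent.Lib.MP_3e612f_nt.SA Pool.Agent.Lib.MP_3e612f_nt.MB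
open Pool.Agent.Lib.MP_3e612f_nt.MB.WP

/-! ### families of functions -/

/-- orthogonality of a family of functions to one polynomial phase, uniformly -/
def n19_TW (F : Set (ℕ → ℝ)) (Y : ℕ) (Q : Polynomial ℝ) : Prop :=
  ∀ ε : ℝ, 0 < ε → ∀ᶠ k : ℕ in atTop, ∀ y ≤ Y, ∀ f ∈ F,
    ‖avc 2 k (fun n => e1 (Q.eval ((2 ^ k * y + n : ℕ) : ℝ)) *
      (f (2 ^ k * y + n) : ℂ))‖ ≤ ε

/-- the shifted products of a family agree, outside a sparse set and on residue classes, with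
members of the family -/
def n19_Cl (F : Set (ℕ → ℝ)) (Y s : ℕ) : Prop :=
  ∀ η : ℝ, 0 < η → ∃ (M : ℕ) (g : ℕ → ℝ), 1 ≤ M ∧
    (∀ᶠ k : ℕ in atTop, ∀ y ≤ Y, ∑ n ∈ Finset.range (2 ^ k), g (2 ^ k * y + n) ≤
      η * (2 ^ k : ℕ)) ∧
    ∀ f ∈ F, ∃ G : ℕ → ℕ → ℝ, (∀ b, G b ∈ F ∨ G b = fun _ => 0) ∧
      ∀ N, |f (N + s) * f N - G (N % M) N| ≤ g N

theorem n19_class {F : Set (ℕ → ℝ)} {Y : ℕ} {Q : Polynomial ℝ} {M : ℕ} (hM : 1 ≤ M)
    (hQ : ∀ j < M, n19_TW F Y (Q + Polynomial.C ((j : ℝ) / M) * Polynomial.X))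
    {ε : ℝ} (hε : 0 < ε) : ∀ᶠ k : ℕ in atTop, ∀ y ≤ Y, ∀ f ∈ F, ∀ a < M,
      ‖avc 2 k (fun n => (if (2 ^ k * y + n) % M = a then (1 : ℂ) else 0) *
        (e1 (Q.eval ((2 ^ k * y + n : ℕ) : ℝ)) * (f (2 ^ k * y + n) : ℂ)))‖ ≤ ε := by
  have hall : ∀ᶠ k : ℕ in atTop, ∀ j ∈ Finset.range M, ∀ y ≤ Y, ∀ f ∈ F,
      ‖avc 2 k (fun n => e1 ((Q + Polynomial.C ((j : ℝ) / M) * Polynomial.X).eval
        ((2 ^ k * y + n : ℕ) : ℝ)) * (f (2 ^ k * y + n) : ℂ))‖ ≤ ε := by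
    rw [Filter.eventually_all_finset]
    intro j hj
    exact hQ j (Finset.mem_range.1 hj) ε hε
  filter_upwards [hall] with k hk y hy f hf a ha
  have hM0 : (M : ℝ) ≠ 0 := by exact_mod_cast (by omega : M ≠ 0)
  have hMc : (M : ℂ) ≠ 0 := by exact_mod_cast (by omega : M ≠ 0)
  have hind : ∀ N : ℕ, (if N % M = a then (1 : ℂ) else 0) =
      (1 / (M : ℂ)) * ∑ j ∈ Finset.range M, e1 (j * ((((N : ℤ) - a : ℤ) : ℝ) / M)) := by
    intro N
    rw [orth hM]
    have hiff : ((M : ℤ) ∣ (N : ℤ) - a) ↔ N % M = a := by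
      rw [← Int.modEq_iff_dvd, Int.natCast_modEq_iff]
      unfold Nat.ModEq
      rw [Nat.mod_eq_of_lt ha]
      exact eq_comm
    by_cases hN : N % M = a
    · rw [if_pos hN, if_pos (hiff.2 hN)]
      field_simp
    · rw [if_neg hN, if_neg (fun h => hN (hiff.1 h)), mul_zero]
  have hexp : avc 2 k (fun n => (if (2 ^ k * y + n) % M = a then (1 : ℂ) else 0) *
        (e1 (Q.eval ((2 ^ k * y + n : ℕ) : ℝ)) * (f (2 ^ k * y + n) : ℂ))) =
      (1 / (M : ℂ)) * ∑ j ∈ Finset.range M, e1 (-(j * (a / M))) *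
        avc 2 k (fun n => e1 ((Q + Polynomial.C ((j : ℝ) / M) * Polynomial.X).eval
          ((2 ^ k * y + n : ℕ) : ℝ)) * (f (2 ^ k * y + n) : ℂ)) := by
    simp only [← avc_const_mul]
    rw [← avc_sum, ← avc_const_mul]
    congr 1
    funext n
    rw [hind, mul_assoc, Finset.sum_mul]
    congr 1
    refine Finset.sum_congr rfl fun j _ => ?_
    rw [← mul_assoc, ← mul_assoc, ← e1_add, ← e1_add]
    congr 2
    simp only [Polynomial.eval_add, Polynomial.eval_mul, Polynomial.eval_C, Polynomial.eval_X]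
    push_cast
    ring
  rw [hexp, norm_mul, norm_div, norm_one, Complex.norm_natCast, one_div_mul_eq_div,
    div_le_iff₀ (by positivity : (0 : ℝ) < M)]
  refine (norm_sum_le _ _).trans ?_
  refine (Finset.sum_le_card_nsmul _ _ ε fun j hj => ?_).trans (le_of_eq ?_)
  · rw [norm_mul, norm_e1, one_mul]
    exact hk j hj y hy f hf
  · rw [Finset.card_range, nsmul_eq_mul, mul_comm]

/-- the correlations -/
theorem n19_corr {F : Set (ℕ → ℝ)} {Y s : ℕ} {Q : Polynomial ℝ} (hcl : n19_Cl F Y s)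
    (hQ : ∀ M : ℕ, 1 ≤ M → ∀ j < M, n19_TW F Y
      ((Polynomial.taylor (s : ℝ) Q - Q) + Polynomial.C ((j : ℝ) / M) * Polynomial.X))
    {δ : ℝ} (hδ : 0 < δ) : ∀ᶠ k : ℕ in atTop, ∀ y ≤ Y, ∀ f ∈ F,
      ‖∑ n ∈ Finset.range (2 ^ k), (e1 (Q.eval ((2 ^ k * y + (n + s) : ℕ) : ℝ)) *
        (f (2 ^ k * y + (n + s)) : ℂ)) *
        (starRingEnd ℂ) (e1 (Q.eval ((2 ^ k * y + n : ℕ) : ℝ)) *
          (f (2 ^ k * y + n) : ℂ))‖ ≤ δ * (2 ^ k : ℕ) := by
  obtain ⟨M, g, hM1, hg, hF⟩ := hcl (δ / 2) (by positivity)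
  have hMr : (0 : ℝ) < M := by exact_mod_cast hM1
  set ε : ℝ := δ / (2 * M) with hε
  have hε0 : 0 < ε := by positivity
  filter_upwards [n19_class hM1 (hQ M hM1) hε0, hg] with k hk hgk y hy f hf
  obtain ⟨G, hGF, hG⟩ := hF f hf
  have hXr : (0 : ℝ) < ((2 ^ k : ℕ) : ℝ) := by
    have : 1 ≤ 2 ^ k := Nat.one_le_two_pow
    exact_mod_cast this
  set Qs : Polynomial ℝ := Polynomial.taylor (s : ℝ) Q - Q with hQs
  -- the phase of the correlation
  have hphase : ∀ n, (e1 (Q.eval ((2 ^ k * y + (n + s) : ℕ) : ℝ)) *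
        (f (2 ^ k * y + (n + s)) : ℂ)) *
        (starRingEnd ℂ) (e1 (Q.eval ((2 ^ k * y + n : ℕ) : ℝ)) * (f (2 ^ k * y + n) : ℂ)) =
      e1 (Qs.eval ((2 ^ k * y + n : ℕ) : ℝ)) *
        ((f (2 ^ k * y + n + s) * f (2 ^ k * y + n) : ℝ) : ℂ) := by
    intro n
    rw [map_mul, conj_e1, Complex.conj_ofReal, hQs]
    simp only [Polynomial.eval_sub, Polynomial.taylor_eval]
    have e0 : (((2 ^ k * y + n : ℕ) : ℝ) + (s : ℝ)) = ((2 ^ k * y + (n + s) : ℕ) : ℝ) := by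
      push_cast
      ring
    rw [e0, sub_eq_add_neg, e1_add, ← add_assoc]
    push_cast
    ring
  -- the main part
  have hmain : ‖∑ n ∈ Finset.range (2 ^ k), e1 (Qs.eval ((2 ^ k * y + n : ℕ) : ℝ)) *
      (G ((2 ^ k * y + n) % M) (2 ^ k * y + n) : ℂ)‖ ≤ δ / 2 * (2 ^ k : ℕ) := by
    have e1' : ∀ n, e1 (Qs.eval ((2 ^ k * y + n : ℕ) : ℝ)) *
        (G ((2 ^ k * y + n) % M) (2 ^ k * y + n) : ℂ) = ∑ b ∈ Finset.range M,
        (if (2 ^ k * y + n) % M = b then (1 : ℂ) else 0) *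
          (e1 (Qs.eval ((2 ^ k * y + n : ℕ) : ℝ)) * (G b (2 ^ k * y + n) : ℂ)) := by
      intro n
      simp only [ite_mul, one_mul, zero_mul]
      rw [Finset.sum_ite_eq, if_pos (Finset.mem_range.2 (Nat.mod_lt _ (by omega)))]
    simp only [e1']
    rw [Finset.sum_comm]
    refine (norm_sum_le _ _).trans ?_
    refine (Finset.sum_le_card_nsmul _ _ (ε * (2 ^ k : ℕ)) fun b hb => ?_).trans (le_of_eq ?_)
    · rcases hGF b with hGb | hGb
      · have h1 := hk y hy (G b) hGb b (Finset.mem_range.1 hb)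
        unfold avc at h1
        rw [norm_div, norm_pow, Complex.norm_natCast, div_le_iff₀ (by positivity)] at h1
        refine h1.trans (le_of_eq ?_)
        push_cast
        ring
      · simp only [hGb, Complex.ofReal_zero, mul_zero, Finset.sum_const_zero, norm_zero]
        positivity
    · rw [Finset.card_range, nsmul_eq_mul, hε]
      field_simp
  have hsplit : ∑ n ∈ Finset.range (2 ^ k), (e1 (Q.eval ((2 ^ k * y + (n + s) : ℕ) : ℝ)) *
        (f (2 ^ k * y + (n + s)) : ℂ)) *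
        (starRingEnd ℂ) (e1 (Q.eval ((2 ^ k * y + n : ℕ) : ℝ)) * (f (2 ^ k * y + n) : ℂ)) =
      ∑ n ∈ Finset.range (2 ^ k), e1 (Qs.eval ((2 ^ k * y + n : ℕ) : ℝ)) *
        ((f (2 ^ k * y + n + s) * f (2 ^ k * y + n) -
          G ((2 ^ k * y + n) % M) (2 ^ k * y + n) : ℝ) : ℂ) +
      ∑ n ∈ Finset.range (2 ^ k), e1 (Qs.eval ((2 ^ k * y + n : ℕ) : ℝ)) *
        (G ((2 ^ k * y + n) % M) (2 ^ k * y + n) : ℂ) := by
    rw [← Finset.sum_add_distrib]
    refine Finset.sum_congr rfl fun n _ => ?_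
    rw [hphase]
    push_cast
    ring
  rw [hsplit]
  refine (norm_add_le _ _).trans ?_
  have h1 : ‖∑ n ∈ Finset.range (2 ^ k), e1 (Qs.eval ((2 ^ k * y + n : ℕ) : ℝ)) *
        ((f (2 ^ k * y + n + s) * f (2 ^ k * y + n) -
          G ((2 ^ k * y + n) % M) (2 ^ k * y + n) : ℝ) : ℂ)‖ ≤ δ / 2 * (2 ^ k : ℕ) := by
    refine ((norm_sum_le _ _).trans (Finset.sum_le_sum fun n _ => ?_)).trans (hgk y hy)
    rw [norm_mul, norm_e1, one_mul, Complex.norm_real, Real.norm_eq_abs]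
    exact hG _
  linarith

/-- the induction step -/
theorem n19_step {F : Set (ℕ → ℝ)} {Y : ℕ} (hF1 : ∀ f ∈ F, ∀ n, |f n| ≤ 1)
    (hcl : ∀ s : ℕ, 1 ≤ s → n19_Cl F Y s) {Q : Polynomial ℝ}
    (hQ : ∀ s : ℕ, 1 ≤ s → ∀ M : ℕ, 1 ≤ M → ∀ j < M, n19_TW F Y
      ((Polynomial.taylor (s : ℝ) Q - Q) + Polynomial.C ((j : ℝ) / M) * Polynomial.X)) :
    n19_TW F Y Q := by
  intro ε hε
  obtain ⟨H, hH⟩ : ∃ H : ℕ, 16 / ε ^ 2 + 1 ≤ H := exists_nat_ge _
  have hHr : (0 : ℝ) < H := by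
    have : 0 < 16 / ε ^ 2 := by positivity
    linarith
  have hH1 : 1 ≤ H := by exact_mod_cast hHr
  have hHinv : 1 / (H : ℝ) ≤ ε ^ 2 / 16 := by
    rw [div_le_iff₀ hHr]
    have h1 : 16 / ε ^ 2 ≤ H := by linarith
    rw [div_le_iff₀ (by positivity)] at h1
    linarith
  set δ : ℝ := ε ^ 2 / 16 with hδ
  have hδ0 : 0 < δ := by positivity
  have hall : ∀ᶠ k : ℕ in atTop, ∀ s ∈ Finset.Ico 1 H, ∀ y ≤ Y, ∀ f ∈ F,
      ‖∑ n ∈ Finset.range (2 ^ k), (e1 (Q.eval ((2 ^ k * y + (n + s) : ℕ) : ℝ)) *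
        (f (2 ^ k * y + (n + s)) : ℂ)) *
        (starRingEnd ℂ) (e1 (Q.eval ((2 ^ k * y + n : ℕ) : ℝ)) *
          (f (2 ^ k * y + n) : ℂ))‖ ≤ δ * (2 ^ k : ℕ) := by
    rw [Filter.eventually_all_finset]
    intro s hs
    exact n19_corr (hcl s (Finset.mem_Ico.1 hs).1) (hQ s (Finset.mem_Ico.1 hs).1) hδ0
  have hlarge : ∀ᶠ k : ℕ in atTop, 2 * (H : ℝ) ≤ min (ε / 2) (ε ^ 2 / 16) * (2 ^ k : ℕ) := by
    have h1 : Tendsto (fun k : ℕ => min (ε / 2) (ε ^ 2 / 16) * ((2 ^ k : ℕ) : ℝ)) atTop atTop := by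
      refine Tendsto.const_mul_atTop (by positivity) ?_
      push_cast
      exact tendsto_pow_atTop_atTop_of_one_lt (by norm_num)
    exact h1.eventually_ge_atTop _
  filter_upwards [hall, hlarge] with k hk hk2 y hy f hf
  have hX1 : 1 ≤ 2 ^ k := Nat.one_le_two_pow
  have hXr : (0 : ℝ) < ((2 ^ k : ℕ) : ℝ) := by exact_mod_cast hX1
  have hv := vdc hX1 hH1 (U := fun n => e1 (Q.eval ((2 ^ k * y + n : ℕ) : ℝ)) *
    (f (2 ^ k * y + n) : ℂ)) (fun n => by
      rw [norm_mul, norm_e1, one_mul, Complex.norm_real, Real.norm_eq_abs]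
      exact hF1 f hf _) hδ0.le
    (fun s hs1 hs2 => hk s (Finset.mem_Ico.2 ⟨hs1, hs2⟩) y hy f hf)
  unfold avc
  rw [norm_div, norm_pow, Complex.norm_natCast, div_le_iff₀ (by positivity)]
  have e2 : (((2 : ℕ) : ℝ)) ^ k = ((2 ^ k : ℕ) : ℝ) := by push_cast; ring
  rw [e2]
  refine hv.trans ?_
  have m1 : 2 * (H : ℝ) ≤ ε / 2 * (2 ^ k : ℕ) :=
    hk2.trans (mul_le_mul_of_nonneg_right (min_le_left _ _) hXr.le)
  have m2 : 2 * (H : ℝ) ≤ ε ^ 2 / 16 * (2 ^ k : ℕ) :=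
    hk2.trans (mul_le_mul_of_nonneg_right (min_le_right _ _) hXr.le)
  have m3 : 2 * (H : ℝ) / (2 ^ k : ℕ) ≤ ε ^ 2 / 16 := by
    rw [div_le_iff₀ hXr]
    exact m2
  have m4 : Real.sqrt (1 / H + δ + 2 * H / (2 ^ k : ℕ)) ≤ ε / 2 := by
    apply Real.sqrt_le_iff.2
    refine ⟨by positivity, ?_⟩
    have : (ε / 2) ^ 2 = ε ^ 2 / 4 := by ring
    rw [this]
    have : 0 < ε ^ 2 := by positivity
    linarith
  have m5 := mul_le_mul_of_nonneg_left m4 hXr.le
  linarith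

/-- all degrees, from the linear phases -/
theorem n19_all {F : Set (ℕ → ℝ)} {Y : ℕ} (hF1 : ∀ f ∈ F, ∀ n, |f n| ≤ 1)
    (hcl : ∀ s : ℕ, 1 ≤ s → n19_Cl F Y s)
    (hlin : ∀ θ : ℝ, Irrational θ → ∀ ε : ℝ, 0 < ε → ∀ᶠ k : ℕ in atTop, ∀ y ≤ Y, ∀ f ∈ F,
      ‖avc 2 k (fun n => ew θ (2 ^ k * y + n) * (f (2 ^ k * y + n) : ℂ))‖ ≤ ε) :
    ∀ D ≥ 1, ∀ Q : Polynomial ℝ, Q.natDegree ≤ D → Irrational (Q.coeff D) →
      n19_TW F Y Q := by
  intro D hD
  induction D, hD using Nat.le_induction with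
  | base =>
    intro Q hd hQ ε hε
    filter_upwards [hlin _ hQ ε hε] with k hk y hy f hf
    have h1 := hk y hy f hf
    have e0 : (fun n : ℕ => e1 (Q.eval ((2 ^ k * y + n : ℕ) : ℝ)) * (f (2 ^ k * y + n) : ℂ)) =
        fun n : ℕ => e1 (Q.coeff 0) * (ew (Q.coeff 1) (2 ^ k * y + n) *
          (f (2 ^ k * y + n) : ℂ)) := by
      funext n
      rw [Polynomial.eval_eq_sum_range' (Nat.lt_succ_of_le hd)]
      simp only [Finset.sum_range_succ, Finset.range_zero, Finset.sum_empty, zero_add,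
        pow_zero, mul_one, pow_one]
      rw [e1_add, mul_assoc]
      rfl
    rw [e0, avc_const_mul, norm_mul, norm_e1, one_mul]
    exact h1
  | succ D hD ih =>
    intro Q hd hQ
    refine n19_step hF1 hcl fun s hs M _ j _ => ?_
    obtain ⟨a1, a2⟩ := diff_poly hd hQ hs
    obtain ⟨b1, b2⟩ := lin_poly hD a1 a2 j M
    exact ih _ b1 b2

/-! ### one base -/

/-- at some integer of each residue class the two finite parts differ by an element on the
right -/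
theorem n19_exists {S : Type*} [Monoid S] [Finite S] {q m : ℕ} (hq : 2 ≤ q) {β : ℕ → S}
    (hβ : QM q m β) {ω : ℕ} (hω : Core q β ω) {P : ℕ} (hP : P.Coprime q)
    (L s h c z b : ℕ) : ∃ (y : ℕ) (l : S),
      β (sd q h P c z (q ^ L * y + b + s)) * β ω =
        β (sd q h P c z (q ^ L * y + b)) * (β ω * l) := by
  obtain ⟨M, hM, _, hexp⟩ := exists_exp hq hβ hω
  have hq0 : 0 < q := by omega
  have hωq : ω < q ^ ω := Nat.lt_pow_self (by omega)
  -- the multiplier has a multiple with the word `ω`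
  obtain ⟨y', A, hy'⟩ : ∃ y' A : ℕ, P * y' = q ^ (ω + m) * A + ω := by
    have hcop : P.Coprime (q ^ (ω + m)) := Nat.Coprime.pow_right _ hP
    have h1 : q ^ ω ≤ q ^ (ω + m) := Nat.pow_le_pow_right hq0 (by omega)
    obtain ⟨y', _, hy'⟩ := Nat.exists_mul_mod_eq_of_coprime ω hcop (by positivity)
    rw [Nat.mod_eq_of_lt (hωq.trans_le h1)] at hy'
    refine ⟨y', P * y' / q ^ (ω + m), ?_⟩
    have h2 := Nat.div_add_mod (P * y') (q ^ (ω + m))
    rw [hy'] at h2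
    exact h2.symm
  set D₁ := q ^ h * (P * b + c) + z with hD₁
  set D₂ := q ^ h * (P * (b + s) + c) + z with hD₂
  set K := D₁ + D₂ with hK
  have hKlt : K < q ^ (h + L + K) := by
    have h1 : K < q ^ K := Nat.lt_pow_self (by omega)
    have h2 : q ^ K ≤ q ^ (h + L + K) := Nat.pow_le_pow_right hq0 (by omega)
    omega
  set y := q ^ (K + m) * y' with hy
  have hβ1 : ∀ D : ℕ, D ≤ K → β (q ^ (h + L + K + m) * (P * y') + D) =
      β A * (β ω * β D) := by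
    intro D hD
    rw [hβ.gap (h + L + K) _ D (by omega), hy', hβ.gap ω A ω hωq, mul_assoc]
  have e1 : sd q h P c z (q ^ L * y + b) = q ^ (h + L + K + m) * (P * y') + D₁ := by
    unfold sd
    rw [hy, hD₁, show h + L + K + m = h + (L + (K + m)) by ring, pow_add q h, pow_add q L]
    ring
  have e2 : sd q h P c z (q ^ L * y + b + s) = q ^ (h + L + K + m) * (P * y') + D₂ := by
    unfold sd
    rw [hy, hD₂, show h + L + K + m = h + (L + (K + m)) by ring, pow_add q h, pow_add q L]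
    ring
  refine ⟨y, (β ω * β D₁ * β ω) ^ (2 * M - 1) * (β ω * β D₂ * β ω), ?_⟩
  rw [e1, e2, hβ1 D₁ (by omega), hβ1 D₂ (by omega)]
  have h7 : (β ω * β D₁ * β ω) * (β ω * β D₁ * β ω) ^ (2 * M - 1) = β ω := by
    rw [← pow_succ', show 2 * M - 1 + 1 = M + M by omega, pow_add, hexp, hω.idem]
  calc β A * (β ω * β D₂) * β ω = β A * (β ω * β D₂ * β ω) := by simp only [mul_assoc]
    _ = β A * (β ω * (β ω * β D₂ * β ω)) := by
        rw [← mul_assoc (β ω) (β ω * β D₂), ← mul_assoc (β ω) (β ω), hω.idem]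
    _ = β A * (((β ω * β D₁ * β ω) * (β ω * β D₁ * β ω) ^ (2 * M - 1)) *
          (β ω * β D₂ * β ω)) := by rw [h7]
    _ = _ := by simp only [mul_assoc]

/-- the data of the lemma on few digits, for one multiplier -/
theorem n19_one {S H : Type*} [Monoid S] [Finite S] [AddCommGroup H] {q m : ℕ} (hq : 2 ≤ q)
    {β : ℕ → S} (hβ : QM q m β) {ω : ℕ} (hω : Core q β ω) {e : ℕ → H}
    (he : ∀ a y s : ℕ, s < q ^ a → e (q ^ (a + m) * y + s) = e y + e s) {P : ℕ}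
    (hP : P.Coprime q) (s : ℕ) :
    ∃ C ρ : ℝ, 0 ≤ C ∧ 0 < ρ ∧ ρ < 1 ∧ ∀ L : ℕ, s ≤ L → ∃ B : Finset ℕ,
      (B.card : ℝ) ≤ C * ρ ^ (L - s) * q ^ L ∧ ∀ h c z b : ℕ, b < q ^ L → b ∉ B →
        c ≤ P → z < q ^ h → ∃ (l : S) (v : H), ∀ n : ℕ, n % q ^ L = b →
          e (sd q h P c z (n + s)) = e (sd q h P c z n) + v ∧
          β (sd q h P c z (n + s)) * β ω = β (sd q h P c z n) * β ω * l := by
  obtain ⟨C, ρ, hC, hρ, hρ', hd⟩ := local_depB hq hβ hω he hP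
  refine ⟨C, ρ, hC, hρ, hρ', fun L hL => ?_⟩
  obtain ⟨B, hB, hdep⟩ := hd s L hL
  refine ⟨B, hB, fun h c z b hb hbB hc hz => ?_⟩
  have hs : s ≤ q ^ s := (Nat.lt_pow_self (by omega)).le
  obtain ⟨y, l, hl⟩ := n19_exists hq hβ hω hP L s h c z b
  have hyb : (q ^ L * y + b) % q ^ L = b := by
    rw [Nat.mul_add_mod, Nat.mod_eq_of_lt hb]
  have h0 := ((hdep (q ^ L * y + b) s h c z hs (by rw [hyb]; exact hbB) hc hz).2 _ _).1 hl
  rw [hyb] at h0
  refine ⟨l, e (sd q h P c z (b + s)) - e (sd q h P c z b), fun n hn => ?_⟩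
  have h1 := hdep n s h c z hs (by rw [hn]; exact hbB) hc hz
  rw [hn] at h1
  constructor
  · rw [← h1.1]
    abel
  · rw [mul_assoc]
    exact (h1.2 _ _).2 h0

section several

variable {ι : Type*} [Fintype ι] [DecidableEq ι] {q : ι → ℕ} {m : ℕ} {d : ι → ℕ}
  {S : ι → Type*} [∀ i, Monoid (S i)] [∀ i, Finite (S i)]
  {β : ∀ i, ℕ → S i} {ω : ι → ℕ} {e : ∀ i, ℕ → Fin (d i) → ℤ} {C : ℝ}
  {Λ : ∀ i, AddSubgroup (Fin (d i) → ℤ)} {N' : ℕ} {u : ∀ i, S i → (Fin (d i) → ℤ) ⧸ Λ i}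

omit [Fintype ι] [DecidableEq ι] in
/-- the data of the lemma on few digits, for both multipliers -/
theorem n19_data (Sy : NSys q m β ω e C Λ N' u) {P R : ι → ℕ} (hPR : MulN q m β ω P R)
    (s : ℕ) {η : ℝ} (hη : 0 < η) (i : ι) : ∃ L : ℕ, ∃ B : Finset ℕ,
      (B.card : ℝ) ≤ η * (q i : ℝ) ^ L ∧ ∀ h b : ℕ, b < q i ^ L → b ∉ B →
        (∀ c z : ℕ, c ≤ P i → z < q i ^ h → ∃ (l : S i) (v : Fin (d i) → ℤ), ∀ n : ℕ,
          n % q i ^ L = b →
          e i (sd (q i) h (P i) c z (n + s)) = e i (sd (q i) h (P i) c z n) + v ∧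
          β i (sd (q i) h (P i) c z (n + s)) * β i (ω i) =
            β i (sd (q i) h (P i) c z n) * β i (ω i) * l) ∧
        (∀ c z : ℕ, c ≤ R i → z < q i ^ h → ∃ (l : S i) (v : Fin (d i) → ℤ), ∀ n : ℕ,
          n % q i ^ L = b →
          e i (sd (q i) h (R i) c z (n + s)) = e i (sd (q i) h (R i) c z n) + v ∧
          β i (sd (q i) h (R i) c z (n + s)) * β i (ω i) =
            β i (sd (q i) h (R i) c z n) * β i (ω i) * l) := by
  obtain ⟨C₁, ρ₁, hC₁, hρ₁, hρ₁', hd₁⟩ := n19_one (Sy.sys.base i) (Sy.qm i) (Sy.core i)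
    (Sy.sys.qv i).gap (hPR.mul.cP i) s
  obtain ⟨C₂, ρ₂, hC₂, hρ₂, hρ₂', hd₂⟩ := n19_one (Sy.sys.base i) (Sy.qm i) (Sy.core i)
    (Sy.sys.qv i).gap (hPR.mul.cR i) s
  obtain ⟨n₁, hn₁⟩ := exists_pow_lt_of_lt_one (show 0 < η / 2 / (C₁ + 1) by positivity) hρ₁'
  obtain ⟨n₂, hn₂⟩ := exists_pow_lt_of_lt_one (show 0 < η / 2 / (C₂ + 1) by positivity) hρ₂'
  set L := s + (n₁ + n₂) with hL
  obtain ⟨B₁, hB₁, h₁⟩ := hd₁ L (by omega)
  obtain ⟨B₂, hB₂, h₂⟩ := hd₂ L (by omega)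
  have hqL := qpow_posR (Sy.sys.base i) L
  have b₁ : C₁ * ρ₁ ^ (L - s) ≤ η / 2 := by
    have e0 : L - s = n₁ + n₂ := by omega
    rw [e0]
    have h3 : ρ₁ ^ (n₁ + n₂) ≤ ρ₁ ^ n₁ := pow_le_pow_of_le_one hρ₁.le hρ₁'.le (by omega)
    have h4 : ρ₁ ^ (n₁ + n₂) ≤ η / 2 / (C₁ + 1) := h3.trans hn₁.le
    rw [le_div_iff₀ (by positivity)] at h4
    have h5 : 0 ≤ ρ₁ ^ (n₁ + n₂) := by positivity
    nlinarith
  have b₂ : C₂ * ρ₂ ^ (L - s) ≤ η / 2 := by
    have e0 : L - s = n₁ + n₂ := by omega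
    rw [e0]
    have h3 : ρ₂ ^ (n₁ + n₂) ≤ ρ₂ ^ n₂ := pow_le_pow_of_le_one hρ₂.le hρ₂'.le (by omega)
    have h4 : ρ₂ ^ (n₁ + n₂) ≤ η / 2 / (C₂ + 1) := h3.trans hn₂.le
    rw [le_div_iff₀ (by positivity)] at h4
    have h5 : 0 ≤ ρ₂ ^ (n₁ + n₂) := by positivity
    nlinarith
  refine ⟨L, B₁ ∪ B₂, ?_, ?_⟩
  · have h3 : ((B₁ ∪ B₂).card : ℝ) ≤ B₁.card + B₂.card := by
      exact_mod_cast Finset.card_union_le _ _
    have h4 := mul_le_mul_of_nonneg_right b₁ hqL.le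
    have h5 := mul_le_mul_of_nonneg_right b₂ hqL.le
    linarith
  · intro h b hb hbB
    rw [Finset.mem_union, not_or] at hbB
    exact ⟨fun c z hc hz => h₁ h c z b hb hbB.1 hc hz,
      fun c z hc hz => h₂ h c z b hb hbB.2 hc hz⟩

/-- the family of all functions of the finite parts and of the lattice parts -/
def n19_F (q : ι → ℕ) (β : ∀ i, ℕ → S i) (ω : ι → ℕ) (e : ∀ i, ℕ → Fin (d i) → ℤ)
    (P R : ι → ℕ) (h : ℕ) : Set (ℕ → ℝ) :=
  {f | ∃ c z c' z' : ι → ℕ, Bd q h P c z ∧ Bd q h R c' z' ∧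
    ∃ Ψ : (∀ i, S i) → (∀ i, Fin (d i) → ℤ) → (∀ i, S i) → (∀ i, Fin (d i) → ℤ) → ℝ,
      (∀ s x s' x', |Ψ s x s' x'| ≤ 1) ∧
      f = fun n => Ψ (BW q β ω h P c z n) (EE q e h P c z n) (BW q β ω h R c' z' n)
        (EE q e h R c' z' n)}

omit [Fintype ι] [DecidableEq ι] [∀ i, Finite (S i)] in
theorem n19_F_le {P R : ι → ℕ} {h : ℕ} : ∀ f ∈ n19_F q β ω e P R h, ∀ n, |f n| ≤ 1 := by
  rintro f ⟨c, z, c', z', _, _, Ψ, hΨ, rfl⟩ n
  exact hΨ _ _ _ _

/-- the family is closed under shifted products -/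
theorem n19_F_cl (Sy : NSys q m β ω e C Λ N' u) {P R : ι → ℕ} (hPR : MulN q m β ω P R)
    (h Y s : ℕ) : n19_Cl (n19_F q β ω e P R h) Y s := by
  classical
  intro δ hδ
  set η : ℝ := δ / (2 * (Fintype.card ι + 1)) with hη
  have hη0 : 0 < η := by positivity
  choose L B hBcard hBdep using fun i => n19_data Sy hPR s hη0 i
  set M : ℕ := ∏ i, q i ^ L i with hM
  have hM1 : 1 ≤ M := Finset.prod_pos fun i _ => qpow_pos (Sy.sys.base i) _
  have hMdvd : ∀ i, q i ^ L i ∣ M := fun i => Finset.dvd_prod_of_mem _ (Finset.mem_univ i)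
  set g : ι → ℕ → ℝ := fun i b => if b ∈ B i then 1 else 0 with hg
  have hg0 : ∀ i b, 0 ≤ g i b := by
    intro i b
    rw [hg]
    simp only
    split_ifs <;> norm_num
  refine ⟨M, fun N => ∑ i, g i (N % q i ^ L i), hM1, ?_, ?_⟩
  · -- the number of bad integers
    have hlarge : ∀ᶠ k : ℕ in atTop, (∑ i, 2 * (q i : ℝ) ^ L i) ≤ δ / 2 * (2 ^ k : ℕ) := by
      have h1 : Tendsto (fun k : ℕ => δ / 2 * ((2 ^ k : ℕ) : ℝ)) atTop atTop := by
        refine Tendsto.const_mul_atTop (by positivity) ?_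
        push_cast
        exact tendsto_pow_atTop_atTop_of_one_lt (by norm_num)
      exact h1.eventually_ge_atTop _
    filter_upwards [hlarge] with k hk2 y _
    have hX1 : 1 ≤ 2 ^ k := Nat.one_le_two_pow
    have hXr : (0 : ℝ) < ((2 ^ k : ℕ) : ℝ) := by exact_mod_cast hX1
    rw [Finset.sum_comm]
    have h1 : ∀ i, ∑ n ∈ Finset.range (2 ^ k), g i ((2 ^ k * y + n) % q i ^ L i) ≤
        η * (2 ^ k : ℕ) + 2 * (q i : ℝ) ^ L i := by
      intro i
      have h2 := per_av (Sy.sys.base i) (g := g i) (A := 1) 0 (L i) (fun n _ => by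
        rw [abs_of_nonneg (hg0 i n), hg]
        simp only
        split_ifs <;> norm_num) hX1 (2 ^ k * y)
      simp only [pow_zero, Nat.div_one, zero_add] at h2
      have h3 : av (q i) (L i) (g i) ≤ η := by
        unfold av
        rw [div_le_iff₀ (qpow_posR (Sy.sys.base i) _)]
        refine le_trans ?_ (hBcard i)
        rw [hg]
        simp only
        rw [Finset.sum_ite_mem, Finset.sum_const, nsmul_eq_mul, mul_one]
        exact_mod_cast Finset.card_le_card Finset.inter_subset_right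
      have h4 := (abs_le.1 h2).2
      have h5 : (∑ n ∈ Finset.range (2 ^ k), g i ((2 ^ k * y + n) % q i ^ L i)) /
          ((2 ^ k : ℕ) : ℝ) ≤ η + 2 * 1 * (q i : ℝ) ^ L i / ((2 ^ k : ℕ) : ℝ) := by linarith
      rw [div_le_iff₀ hXr, add_mul, div_mul_cancel₀ _ hXr.ne'] at h5
      linarith
    refine (Finset.sum_le_sum fun i _ => h1 i).trans ?_
    rw [Finset.sum_add_distrib, Finset.sum_const, Finset.card_univ, nsmul_eq_mul]
    have h6 : (Fintype.card ι : ℝ) * (η * (2 ^ k : ℕ)) ≤ δ / 2 * (2 ^ k : ℕ) := by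
      rw [← mul_assoc]
      refine mul_le_mul_of_nonneg_right ?_ hXr.le
      rw [hη, mul_div_assoc', div_le_iff₀ (by positivity)]
      nlinarith
    linarith
  · rintro f ⟨c, z, c', z', hB, hB', Ψ, hΨ, rfl⟩
    -- the elements on the right and the increments
    have hdat : ∀ b : ℕ, (∀ i, b % q i ^ L i ∉ B i) → ∀ i,
        (∃ (l : S i) (v : Fin (d i) → ℤ), ∀ n : ℕ, n % q i ^ L i = b % q i ^ L i →
          e i (sd (q i) h (P i) (c i) (z i) (n + s)) =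
            e i (sd (q i) h (P i) (c i) (z i) n) + v ∧
          β i (sd (q i) h (P i) (c i) (z i) (n + s)) * β i (ω i) =
            β i (sd (q i) h (P i) (c i) (z i) n) * β i (ω i) * l) ∧
        (∃ (l : S i) (v : Fin (d i) → ℤ), ∀ n : ℕ, n % q i ^ L i = b % q i ^ L i →
          e i (sd (q i) h (R i) (c' i) (z' i) (n + s)) =
            e i (sd (q i) h (R i) (c' i) (z' i) n) + v ∧
          β i (sd (q i) h (R i) (c' i) (z' i) (n + s)) * β i (ω i) =
            β i (sd (q i) h (R i) (c' i) (z' i) n) * β i (ω i) * l) := by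
      intro b hb i
      have h1 := hBdep i h (b % q i ^ L i) (Nat.mod_lt _ (qpow_pos (Sy.sys.base i) _)) (hb i)
      exact ⟨h1.1 (c i) (z i) (hB.cle i) (hB.zlt i), h1.2 (c' i) (z' i) (hB'.cle i) (hB'.zlt i)⟩
    have hfun : ∀ b : ℕ, ∃ G : ℕ → ℝ, (G ∈ n19_F q β ω e P R h ∨ G = fun _ => 0) ∧
        ∀ N, N % M = b →
          |Ψ (BW q β ω h P c z (N + s)) (EE q e h P c z (N + s)) (BW q β ω h R c' z' (N + s))
              (EE q e h R c' z' (N + s)) *
            Ψ (BW q β ω h P c z N) (EE q e h P c z N) (BW q β ω h R c' z' N)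
              (EE q e h R c' z' N) - G N| ≤ ∑ i, g i (N % q i ^ L i) := by
      intro b
      by_cases hgood : ∀ i, b % q i ^ L i ∉ B i
      · have h1 := hdat b hgood
        choose lP vP hP lR vR hR using fun i => (show
          (∃ (l : S i) (v : Fin (d i) → ℤ), (∀ n : ℕ, n % q i ^ L i = b % q i ^ L i →
          e i (sd (q i) h (P i) (c i) (z i) (n + s)) =
            e i (sd (q i) h (P i) (c i) (z i) n) + v ∧
          β i (sd (q i) h (P i) (c i) (z i) (n + s)) * β i (ω i) =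
            β i (sd (q i) h (P i) (c i) (z i) n) * β i (ω i) * l) ∧
          (∃ (l' : S i) (v' : Fin (d i) → ℤ), ∀ n : ℕ, n % q i ^ L i = b % q i ^ L i →
          e i (sd (q i) h (R i) (c' i) (z' i) (n + s)) =
            e i (sd (q i) h (R i) (c' i) (z' i) n) + v' ∧
          β i (sd (q i) h (R i) (c' i) (z' i) (n + s)) * β i (ω i) =
            β i (sd (q i) h (R i) (c' i) (z' i) n) * β i (ω i) * l')) from by
              obtain ⟨⟨l, v, hl⟩, h2⟩ := h1 i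
              exact ⟨l, v, hl, h2⟩)
        refine ⟨fun n => Ψ (BW q β ω h P c z n * lP) (EE q e h P c z n + vP)
            (BW q β ω h R c' z' n * lR) (EE q e h R c' z' n + vR) *
          Ψ (BW q β ω h P c z n) (EE q e h P c z n) (BW q β ω h R c' z' n)
              (EE q e h R c' z' n), Or.inl ?_, ?_⟩
        · refine ⟨c, z, c', z', hB, hB', fun s x s' x' =>
            Ψ (s * lP) (x + vP) (s' * lR) (x' + vR) * Ψ s x s' x', ?_, rfl⟩
          intro s x s' x'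
          rw [abs_mul]
          have := mul_le_mul (hΨ (s * lP) (x + vP) (s' * lR) (x' + vR)) (hΨ s x s' x')
            (abs_nonneg _) zero_le_one
          simpa using this
        · intro N hN
          have hmod : ∀ i, N % q i ^ L i = b % q i ^ L i := by
            intro i
            rw [← hN, Nat.mod_mod_of_dvd _ (hMdvd i)]
          have eP : EE q e h P c z (N + s) = EE q e h P c z N + vP := by
            funext i
            exact (hP i N (hmod i)).1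
          have eR : EE q e h R c' z' (N + s) = EE q e h R c' z' N + vR := by
            funext i
            exact (hR i N (hmod i)).1
          have bP : BW q β ω h P c z (N + s) = BW q β ω h P c z N * lP := by
            funext i
            exact (hP i N (hmod i)).2
          have bR : BW q β ω h R c' z' (N + s) = BW q β ω h R c' z' N * lR := by
            funext i
            exact (hR i N (hmod i)).2
          rw [eP, eR, bP, bR, sub_self, abs_zero]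
          exact Finset.sum_nonneg fun i _ => hg0 i _
      · refine ⟨fun _ => 0, Or.inr rfl, ?_⟩
        intro N hN
        rw [sub_zero]
        push Not at hgood
        obtain ⟨i, hi⟩ := hgood
        have h1 : g i (N % q i ^ L i) = 1 := by
          rw [hg]
          refine if_pos ?_
          rw [← Nat.mod_mod_of_dvd N (hMdvd i), hN]
          exact hi
        have h2 : g i (N % q i ^ L i) ≤ ∑ i, g i (N % q i ^ L i) :=
          Finset.single_le_sum (f := fun i => g i (N % q i ^ L i))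
            (fun i _ => hg0 i _) (Finset.mem_univ i)
        rw [h1] at h2
        refine le_trans ?_ h2
        rw [abs_mul]
        have := mul_le_mul (hΨ (BW q β ω h P c z (N + s)) (EE q e h P c z (N + s))
          (BW q β ω h R c' z' (N + s)) (EE q e h R c' z' (N + s)))
          (hΨ (BW q β ω h P c z N) (EE q e h P c z N) (BW q β ω h R c' z' N)
              (EE q e h R c' z' N)) (abs_nonneg _) zero_le_one
        simpa using this
    choose G hG1 hG2 using hfun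
    exact ⟨G, hG1, fun N => hG2 (N % M) N rfl⟩

/-- N19 (NTwPoly.lean): irrational polynomials -/
theorem tw_polyB (Sy : NSys q m β ω e C Λ N' u) {P R : ι → ℕ} (hPR : MulN q m β ω P R)
    {Q : Polynomial ℝ} (hQ1 : 1 ≤ Q.natDegree) (hQ : Irrational Q.leadingCoeff) (h Y : ℕ)
    {ε : ℝ} (hε : 0 < ε) :
    ∀ᶠ k : ℕ in atTop, ∀ y ≤ Y, ∀ c z c' z' : ι → ℕ, Bd q h P c z → Bd q h R c' z' →
      ∀ Ψ : (∀ i, S i) → (∀ i, Fin (d i) → ℤ) → (∀ i, S i) → (∀ i, Fin (d i) → ℤ) → ℝ,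
        (∀ s x s' x', |Ψ s x s' x'| ≤ 1) →
        ‖avc 2 k (fun n => Complex.exp (2 * Real.pi * Complex.I *
            ((Q.eval ((2 ^ k * y + n : ℕ) : ℝ) : ℝ) : ℂ)) *
          (Ψ (BW q β ω h P c z (2 ^ k * y + n)) (EE q e h P c z (2 ^ k * y + n))
            (BW q β ω h R c' z' (2 ^ k * y + n)) (EE q e h R c' z' (2 ^ k * y + n)) : ℂ))‖ ≤
          ε := by
  have key := n19_all (F := n19_F q β ω e P R h) (Y := Y) n19_F_le
    (fun s _ => n19_F_cl Sy hPR h Y s) (by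
      intro θ hθ ε hε
      filter_upwards [tw_oneB Sy hPR hθ h Y hε] with k hk y hy f hf
      obtain ⟨c, z, c', z', hB, hB', Ψ, hΨ, rfl⟩ := hf
      exact hk y hy c z c' z' hB hB' Ψ hΨ) Q.natDegree hQ1 Q le_rfl hQ ε hε
  filter_upwards [key] with k hk y hy c z c' z' hB hB' Ψ hΨ
  exact hk y hy _ ⟨c, z, c', z', hB, hB', Ψ, hΨ, rfl⟩

end several

end Pool.Agent.Lib.MP_3e612f_nt.NB
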