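import Pool.Agent.Lib.MP_3e612f_nt.NCen
import Pool.Agent.Lib.MP_3e612f_nt.NTwPoly
import Pool.Agent.Lib.MP_3e612f_nt.MPolyFinal

/-!
Polynomial phases with an irrational leading coefficient: finite parts and lattice parts in
several bases.
-/

set_option autoImplicit false

namespace Pool.Agent.Lib.MP_3e612f_nt.NB

open Filter Topology Polynomial
open Pool.Agent.Lib.MP_3e612f_nt.QA Pool.Agent.Lib.MP_3e612f_nt.SA Pool.Agent.Lib.MP_3e612f_nt.MB

section several

variable {ι : Type*} [Fintype ι] [DecidableEq ι] {q : ι → ℕ} {m : ℕ} {d : ι → ℕ}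
  {S : ι → Type*} [∀ i, Monoid (S i)] [∀ i, Finite (S i)]
  {β : ∀ i, ℕ → S i} {ω : ι → ℕ} {e : ∀ i, ℕ → Fin (d i) → ℤ} {C₀ : ℝ}
  {Λ : ∀ i, AddSubgroup (Fin (d i) → ℤ)} {N' : ℕ} {u : ∀ i, S i → (Fin (d i) → ℤ) ⧸ Λ i}

/-- the function in the class `a` modulo `M` with a polynomial phase -/
noncomputable def pN (q H : ι → ℕ) (β : ∀ i, ℕ → S i) (ω : ι → ℕ)
    (e : ∀ i, ℕ → Fin (d i) → ℤ) (M a : ℕ)
    (g : (∀ i, S i) → (∀ i, Fin (d i) → ℤ) → ℝ) (P : Polynomial ℝ) (n : ℕ) : ℝ :=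
  Real.cos (2 * Real.pi * P.eval (n : ℝ)) *
    (if n % M = a then g (bH q H β ω n) (eH q H e n) else 0)

theorem pN_abs {H : ι → ℕ} {M a : ℕ} {g : (∀ i, S i) → (∀ i, Fin (d i) → ℤ) → ℝ}
    (hg : ∀ s x, |g s x| ≤ 1) (P : Polynomial ℝ) (n : ℕ) :
    |pN q H β ω e M a g P n| ≤ 1 := by
  unfold pN
  rw [abs_mul]
  refine mul_le_one₀ (Real.abs_cos_le_one _) (abs_nonneg _) ?_
  split_ifs
  · exact hg _ _
  · simp

/-- blocks of the product of the values at the multiples by two primes -/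
theorem pN_blocks (Sy : NSys q m β ω e C₀ Λ N' u) {H : ι → ℕ} {M h : ℕ} {Q : ι → ℕ}
    (hM : MdH q H M h Q) {P : Polynomial ℝ} (hdeg : 1 ≤ P.natDegree)
    (hP : Irrational P.leadingCoeff) (a : ℕ)
    {g : (∀ i, S i) → (∀ i, Fin (d i) → ℤ) → ℝ} (hg : ∀ s x, |g s x| ≤ 1) {p r : ℕ}
    (hp : 1 ≤ p) (hpr : p < r)
    (hmul : MulN q m β ω (fun i => p * Q i) (fun i => r * Q i)) (t : ℕ) {ε : ℝ} (hε : 0 < ε)
    {i : ℕ} (hi : i < M) :
    ∀ᶠ k : ℕ in atTop, ∀ y : ℕ, 2 ^ t ≤ y → y < 2 ^ (t + 1) →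
      |av 2 k (fun n => pN q H β ω e M a g P (p * (M * (2 ^ k * y + n) + i)) *
        pN q H β ω e M a g P (r * (M * (2 ^ k * y + n) + i)))| ≤ 0 + ε := by
  set D : ℕ := P.natDegree with hD
  have hr : 1 ≤ r := by omega
  have hM1 : 0 < M := hM.pos
  have hpow : p ^ D < r ^ D := Nat.pow_lt_pow_left hpr (by omega)
  have e1 := cast_sub_pow (M := M) hpow.le
  have e2 := cast_add_pow (r := r) (p := p) (M := M) (D := D)
  have n1 : (r ^ D - p ^ D) * M ^ D ≠ 0 := Nat.mul_ne_zero (by omega) (by positivity)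
  have n2 : (r ^ D + p ^ D) * M ^ D ≠ 0 := Nat.mul_ne_zero (by omega) (by positivity)
  have i1 : Irrational (P.leadingCoeff * (((r : ℝ) * M) ^ D + (-1) * ((p : ℝ) * M) ^ D)) := by
    rw [e1]
    exact hP.mul_natCast n1
  have i2 : Irrational (P.leadingCoeff * (((r : ℝ) * M) ^ D + 1 * ((p : ℝ) * M) ^ D)) := by
    rw [e2]
    exact hP.mul_natCast n2
  have hP0 : P.leadingCoeff ≠ 0 := hP.ne_zero
  have hpM : (p : ℝ) * M ≠ 0 := by
    have h1 : (0 : ℝ) < p := by exact_mod_cast hp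
    have h2 : (0 : ℝ) < M := by exact_mod_cast hM1
    positivity
  have hrM : (r : ℝ) * M ≠ 0 := by
    have h1 : (0 : ℝ) < r := by exact_mod_cast hr
    have h2 : (0 : ℝ) < M := by exact_mod_cast hM1
    positivity
  -- the two polynomials
  obtain ⟨d1, c1⟩ := comp_pm (p := P) (a := (r : ℝ) * M) (b := (p : ℝ) * M)
    (s := (r : ℝ) * i) (t := (p : ℝ) * i)
    (ε := -1) hrM hpM (by rw [← hD, e1]; exact_mod_cast n1) hP0
  obtain ⟨d2, c2⟩ := comp_pm (p := P) (a := (r : ℝ) * M) (b := (p : ℝ) * M)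
    (s := (r : ℝ) * i) (t := (p : ℝ) * i)
    (ε := 1) hrM hpM (by rw [← hD, e2]; exact_mod_cast n2) hP0
  set R1 := P.comp (C ((r : ℝ) * M) * X + C ((r : ℝ) * i)) +
    C (-1) * P.comp (C ((p : ℝ) * M) * X + C ((p : ℝ) * i)) with hR1
  set R2 := P.comp (C ((r : ℝ) * M) * X + C ((r : ℝ) * i)) +
    C 1 * P.comp (C ((p : ℝ) * M) * X + C ((p : ℝ) * i)) with hR2
  have hval : ∀ (s n : ℕ), (P.comp (C ((s : ℝ) * M) * X + C ((s : ℝ) * i))).eval
      (n : ℝ) = P.eval ((s * (M * n + i) : ℕ) : ℝ) := by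
    intro s n
    rw [eval_comp]
    congr 1
    simp only [eval_add, eval_mul, eval_C, eval_X]
    push_cast
    ring
  have hv1 : ∀ n : ℕ, R1.eval (n : ℝ) = P.eval ((r * (M * n + i) : ℕ) : ℝ) -
      P.eval ((p * (M * n + i) : ℕ) : ℝ) := by
    intro n
    rw [hR1, eval_add, eval_mul, eval_C, hval r n, hval p n]
    ring
  have hv2 : ∀ n : ℕ, R2.eval (n : ℝ) = P.eval ((r * (M * n + i) : ℕ) : ℝ) +
      P.eval ((p * (M * n + i) : ℕ) : ℝ) := by
    intro n
    rw [hR2, eval_add, eval_mul, eval_C, hval r n, hval p n]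
    ring
  filter_upwards [tw_polyB Sy hmul (Q := R1) (by rw [d1]; exact hdeg) (by rw [c1]; exact i1) h
      (2 ^ (t + 1)) hε,
    tw_polyB Sy hmul (Q := R2) (by rw [d2]; exact hdeg) (by rw [c2]; exact i2) h
      (2 ^ (t + 1)) hε] with k hk1 hk2 y _ hy2
  set F : (∀ i, S i) → (∀ i, Fin (d i) → ℤ) → (∀ i, S i) → (∀ i, Fin (d i) → ℤ) → ℝ :=
    fun s x s' x' => (if (p * i) % M = a then g s x else 0) *
      (if (r * i) % M = a then g s' x' else 0) with hF
  have hF1 : ∀ s x s' x', |F s x s' x'| ≤ 1 := by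
    intro s x s' x'
    rw [hF]
    simp only
    rw [abs_mul]
    refine mul_le_one₀ ?_ (abs_nonneg _) ?_
    · split_ifs
      · exact hg _ _
      · simp
    · split_ifs
      · exact hg _ _
      · simp
  have hbd := fun p : ℕ => bd_mul Sy.sys.base hM p hi
  have k1 := av_cos_le (φ := fun n => R1.eval ((2 ^ k * y + n : ℕ) : ℝ))
    (hk1 y hy2.le _ _ _ _ (hbd p) (hbd r) F hF1)
  have k2 := av_cos_le (φ := fun n => R2.eval ((2 ^ k * y + n : ℕ) : ℝ))
    (hk2 y hy2.le _ _ _ _ (hbd p) (hbd r) F hF1)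
  have hgs : ∀ s N : ℕ, (if (s * (M * N + i)) % M = a then
      g (bH q H β ω (s * (M * N + i))) (eH q H e (s * (M * N + i))) else 0) =
      if (s * i) % M = a then g (BW q β ω h (fun j => s * Q j)
        (fun j => s * i / q j ^ H j / q j ^ h) (fun j => s * i / q j ^ H j % q j ^ h) N)
        (EE q e h (fun j => s * Q j) (fun j => s * i / q j ^ H j / q j ^ h)
        (fun j => s * i / q j ^ H j % q j ^ h) N) else 0 := by
    intro s N
    have e1 : (s * (M * N + i)) % M = (s * i) % M := by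
      have h1 : s * (M * N + i) = s * i + M * (s * N) := by ring
      rw [h1, Nat.add_mul_mod_self_left]
    rw [e1, bH_mul Sy.sys.base hM, eH_mul Sy.sys.base hM]
  have e3 : (fun n => pN q H β ω e M a g P (p * (M * (2 ^ k * y + n) + i)) *
      pN q H β ω e M a g P (r * (M * (2 ^ k * y + n) + i))) = fun n : ℕ =>
      (Real.cos (2 * Real.pi * R1.eval ((2 ^ k * y + n : ℕ) : ℝ)) *
        F (BW q β ω h (fun j => p * Q j)
          (fun j => p * i / q j ^ H j / q j ^ h) (fun j => p * i / q j ^ H j % q j ^ h)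
          (2 ^ k * y + n))
          (EE q e h (fun j => p * Q j) (fun j => p * i / q j ^ H j / q j ^ h)
          (fun j => p * i / q j ^ H j % q j ^ h) (2 ^ k * y + n))
          (BW q β ω h (fun j => r * Q j)
          (fun j => r * i / q j ^ H j / q j ^ h) (fun j => r * i / q j ^ H j % q j ^ h)
          (2 ^ k * y + n))
          (EE q e h (fun j => r * Q j) (fun j => r * i / q j ^ H j / q j ^ h)
          (fun j => r * i / q j ^ H j % q j ^ h) (2 ^ k * y + n)) +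
      Real.cos (2 * Real.pi * R2.eval ((2 ^ k * y + n : ℕ) : ℝ)) *
        F (BW q β ω h (fun j => p * Q j)
          (fun j => p * i / q j ^ H j / q j ^ h) (fun j => p * i / q j ^ H j % q j ^ h)
          (2 ^ k * y + n))
          (EE q e h (fun j => p * Q j) (fun j => p * i / q j ^ H j / q j ^ h)
          (fun j => p * i / q j ^ H j % q j ^ h) (2 ^ k * y + n))
          (BW q β ω h (fun j => r * Q j)
          (fun j => r * i / q j ^ H j / q j ^ h) (fun j => r * i / q j ^ H j % q j ^ h)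
          (2 ^ k * y + n))
          (EE q e h (fun j => r * Q j) (fun j => r * i / q j ^ H j / q j ^ h)
          (fun j => r * i / q j ^ H j % q j ^ h) (2 ^ k * y + n))) / 2 := by
    funext n
    unfold pN
    rw [hgs p (2 ^ k * y + n), hgs r (2 ^ k * y + n), hv1, hv2]
    have hc : ∀ A B : ℝ, Real.cos (2 * Real.pi * A) * Real.cos (2 * Real.pi * B) =
        (Real.cos (2 * Real.pi * (B - A)) + Real.cos (2 * Real.pi * (B + A))) / 2 := fun A B => by
      rw [mul_sub, mul_add, Real.cos_sub, Real.cos_add]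
      ring
    rw [mul_mul_mul_comm, hc]
    simp only [hF]
    ring
  rw [e3, av_div, av_add, abs_div, abs_of_pos (by norm_num : (0 : ℝ) < 2),
    div_le_iff₀ (by norm_num)]
  refine (abs_add_le _ _).trans ?_
  linarith

theorem irr_gen (Sy : NSys q m β ω e C₀ Λ N' u) {H : ι → ℕ} {M h : ℕ} {Q : ι → ℕ}
    (hM : MdH q H M h Q) {P : Polynomial ℝ} (hdeg : 1 ≤ P.natDegree)
    (hP : Irrational P.leadingCoeff) (a : ℕ)
    {g : (∀ i, S i) → (∀ i, Fin (d i) → ℤ) → ℝ} (hg : ∀ s x, |g s x| ≤ 1) :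
    Tendsto (LogAvg fun n => mu n * (Real.cos (2 * Real.pi * P.eval (n : ℝ)) *
      (if n % M = a then g (bH q H β ω n) (eH q H e n) else 0))) atTop (𝓝 0) := by
  obtain ⟨K, hK⟩ := exists_mulN Sy
  refine katai_log' (K := K) (b := pN q H β ω e M a g P)
    (fun n => (pN_abs hg P n).trans (by norm_num)) fun ε hε =>
      ⟨∑ i, q i + 1, fun p r hp hr hp₀ hKp hpr => ?_⟩
  have hmul := hK hM p r hp hr hp₀ hKp hpr
  have hblock := block_log (q := 2) (M := M) le_rfl hM.pos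
    (u := fun n => pN q H β ω e M a g P (p * n) * pN q H β ω e M a g P (r * n)) (A := 1)
    (fun n => by
      rw [abs_mul]
      exact mul_le_one₀ (pN_abs hg P _) (abs_nonneg _) (pN_abs hg P _))
    (η := 0) le_rfl (fun t ε₂ hε₂ => by
      have h1 : ∀ᶠ k : ℕ in atTop, ∀ i ∈ Finset.range M, ∀ y : ℕ, 2 ^ t ≤ y → y < 2 ^ (t + 1) →
          |av 2 k (fun n => pN q H β ω e M a g P (p * (M * (2 ^ k * y + n) + i)) *
            pN q H β ω e M a g P (r * (M * (2 ^ k * y + n) + i)))| ≤ 0 + ε₂ :=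
        (Filter.eventually_all_finset (Finset.range M)).mpr fun i hi =>
          pN_blocks Sy hM hdeg hP a hg hp.one_le hpr hmul t hε₂ (Finset.mem_range.mp hi)
      filter_upwards [h1] with k hk y hy1 hy2 i hi
      exact hk i (Finset.mem_range.mpr hi) y hy1 hy2) hε
  filter_upwards [hblock] with N hN
  rw [mul_zero, zero_add] at hN
  exact hN

end several

end Pool.Agent.Lib.MP_3e612f_nt.NB
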