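import Pool.Agent.Lib.MP_3e612f_nt.QCen
import Pool.Agent.Lib.MP_3e612f_nt.SDefs

/-!
Slow variation of the means of bounded functions of a quasi-additive function.
-/

set_option autoImplicit false

namespace Pool.Agent.Lib.MP_3e612f_nt.SA

open Filter Topology QA

variable {d : ℕ}

/-- splitting off the highest digits -/
theorem av_tops (q k j : ℕ) (u : ℕ → ℝ) :
    av q (k + j) u = av q j (fun y => av q k (fun n => u (q ^ k * y + n))) := by
  rw [av_split q k j]
  unfold cnd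
  exact av_swap q k j (fun n y => u (q ^ k * y + n))

/-- the choice of the scale of smoothing -/
theorem scale {ε₁ w : ℝ} (hε₁ : 0 < ε₁) (hw1 : 1 ≤ w) :
    1 ≤ ⌈ε₁ * w⌉₊ ∧ ((⌈ε₁ * w⌉₊ : ℕ) : ℝ) / w ≤ ε₁ + 1 / w ∧
      2 / ((⌈ε₁ * w⌉₊ : ℕ) : ℝ) ≤ 2 / ε₁ / w := by
  have hw0 : 0 < w := by linarith
  have hL1 : ε₁ * w ≤ (⌈ε₁ * w⌉₊ : ℕ) := Nat.le_ceil _
  have hL2 : ((⌈ε₁ * w⌉₊ : ℕ) : ℝ) ≤ ε₁ * w + 1 := (Nat.ceil_lt_add_one (by positivity)).le
  have hL : 1 ≤ ⌈ε₁ * w⌉₊ := Nat.one_le_iff_ne_zero.mpr (Nat.ceil_pos.mpr (by positivity)).ne'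
  have hLpos : (0 : ℝ) < (⌈ε₁ * w⌉₊ : ℕ) := by exact_mod_cast hL
  refine ⟨hL, ?_, ?_⟩
  · rw [div_le_iff₀ hw0, add_mul, one_div, inv_mul_cancel₀ hw0.ne']
    exact hL2
  · rw [div_div, div_le_div_iff_of_pos_left (by norm_num) hLpos (by positivity)]
    exact hL1

theorem av_slow_one {q m : ℕ} (hq : 2 ≤ q) {e : ℕ → Fin d → ℤ} {C : ℝ} (he : QV q m e C)
    (hgen : AddSubgroup.closure (Set.range e) = ⊤) {ε : ℝ} (hε : 0 < ε) :
    ∀ᶠ k : ℕ in atTop, ∀ (g : (Fin d → ℤ) → ℝ), (∀ x, |g x| ≤ 1) →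
      |av q (k + 1) (fun n => g (e n)) - av q k (fun n => g (e n))| ≤ ε := by
  obtain ⟨Cm, hCm0, hCm⟩ := mean_smooth hq he.gap hgen
  obtain ⟨K₁, hK₁0, hK₁⟩ := defect_sq_left (q := q) (m := m) hq q
  set C₀ : ℝ := 2 * Cm + 1 with hC₀
  have hC₀0 : 0 < C₀ := by positivity
  set ε₁ : ℝ := ε / (4 * C₀) with hε₁
  have hε₁0 : 0 < ε₁ := by positivity
  have q1 : C₀ * ε₁ = ε / 4 := by
    rw [hε₁]
    field_simp
  set B : ℝ := Real.sqrt (K₁ * C ^ 2) + C * 2 with hB
  have hB0 : 0 ≤ B := by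
    have := he.nonneg
    positivity
  set K : ℝ := C₀ + 2 / ε₁ * (d * B) with hK
  filter_upwards [(tendsto_div_sqrt K).eventually_le_const
    (show (0 : ℝ) < ε / 4 by positivity)] with k hk2 g hg
  set w : ℝ := Real.sqrt ((k : ℝ) + 1) with hw
  have hw1 : 1 ≤ w := Real.one_le_sqrt.mpr (by linarith [(Nat.cast_nonneg k : (0 : ℝ) ≤ k)])
  have hw0 : 0 < w := by linarith
  obtain ⟨hL, hLw, hδ1⟩ := scale hε₁0 hw1
  set L : ℕ := ⌈ε₁ * w⌉₊ with hLdef
  set δ : ℝ := 2 / L with hδ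
  have hδ0 : 0 ≤ δ := by positivity
  set G : (Fin d → ℤ) → ℝ := smo L g with hG
  have hGs : Slow δ G := smo_slow hL hg
  have m1 := hCm k L hL g hg
  have m2 := hCm (k + 1) L hL g hg
  have m2' : |av q (k + 1) (fun n => g (e n)) - av q (k + 1) (fun n => G (e n))| ≤
      Cm * L / w := by
    refine m2.trans ?_
    refine div_le_div_of_nonneg_left (by positivity) hw0 ?_
    refine Real.sqrt_le_sqrt ?_
    push_cast
    linarith
  -- the smoothed functions
  have s1 : |av q (k + 1) (fun n => G (e n)) - av q k (fun n => G (e n))| ≤ δ * (d * B) := by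
    rw [av_top]
    have hc : av q k (fun n => G (e n)) = av q 1 (fun _ => av q k (fun n => G (e n))) :=
      (av_const hq 1 _).symm
    rw [hc]
    refine av_close hq fun y hy => ?_
    rw [pow_one] at hy
    have hXY : ∀ i : Fin d, av q k (fun n => |((e (q ^ k * y + n) i : ℤ) : ℝ) -
        ((e n i : ℤ) : ℝ)|) ≤ B := by
      intro i
      have h1 := hK₁ _ C (he.coord i) k y hy.le
      have h2 := he.growth 1 y (by rwa [pow_one]) i
      have h3 : av q k (fun s => |dfc (fun n => ((e n i : ℤ) : ℝ)) q k y s|) ≤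
          Real.sqrt (K₁ * C ^ 2) := by
        refine Real.le_sqrt_of_sq_le ?_
        refine (av_sq_le q hq k _).trans (le_trans (le_of_eq ?_) h1)
        congr 1
        funext s
        rw [sq_abs]
      calc av q k (fun n => |((e (q ^ k * y + n) i : ℤ) : ℝ) - ((e n i : ℤ) : ℝ)|)
          ≤ av q k (fun s => |dfc (fun n => ((e n i : ℤ) : ℝ)) q k y s| + C * 2) := by
            refine av_mono fun n _ => ?_
            have e1 : ((e (q ^ k * y + n) i : ℤ) : ℝ) - ((e n i : ℤ) : ℝ) =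
                dfc (fun n => ((e n i : ℤ) : ℝ)) q k y n + ((e y i : ℤ) : ℝ) := by
              unfold dfc
              ring
            rw [e1]
            refine (abs_add_le _ _).trans (add_le_add le_rfl ?_)
            refine h2.trans (le_of_eq ?_)
            norm_num
        _ = av q k (fun s => |dfc (fun n => ((e n i : ℤ) : ℝ)) q k y s|) + C * 2 := by
            rw [av_add, av_const hq]
        _ ≤ B := by linarith
    have := slow_av_close hδ0 hGs hXY (f := fun _ => 1) (fun n => by simp)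
    simpa only [mul_one] using this
  have hkey : Cm * L / w + Cm * L / w + δ * (d * B) ≤ ε := by
    have a1 : Cm * L / w + Cm * L / w ≤ C₀ * (ε₁ + 1 / w) := by
      have e1 : Cm * L / w + Cm * L / w = (2 * Cm) * (L / w) := by ring
      rw [e1]
      refine mul_le_mul (by linarith) hLw (by positivity) hC₀0.le
    have a2 : δ * (d * B) ≤ 2 / ε₁ / w * (d * B) :=
      mul_le_mul_of_nonneg_right hδ1 (by positivity)
    have a3 : K / w = C₀ * (1 / w) + 2 / ε₁ / w * (d * B) := by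
      rw [hK]
      ring
    have a4 : C₀ * (ε₁ + 1 / w) = C₀ * ε₁ + C₀ * (1 / w) := by ring
    linarith
  have t1 := abs_le.mp m1
  have t2 := abs_le.mp m2'
  have t3 := abs_le.mp s1
  rw [abs_le]
  constructor
  · linarith [t1.1, t1.2, t2.1, t2.2, t3.1]
  · linarith [t1.1, t1.2, t2.1, t2.2, t3.2]

theorem av_slow {q m : ℕ} (hq : 2 ≤ q) {e : ℕ → Fin d → ℤ} {C : ℝ} (he : QV q m e C)
    (hgen : AddSubgroup.closure (Set.range e) = ⊤) (T : ℕ) {ε : ℝ} (hε : 0 < ε) :
    ∀ᶠ k : ℕ in atTop, ∀ t ≤ T, ∀ (g : (Fin d → ℤ) → ℝ), (∀ x, |g x| ≤ 1) →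
      |av q (k + t) (fun n => g (e n)) - av q k (fun n => g (e n))| ≤ ε := by
  have h1 := av_slow_one hq he hgen (ε := ε / (T + 1)) (by positivity)
  obtain ⟨k₀, hk₀⟩ := eventually_atTop.mp h1
  filter_upwards [eventually_ge_atTop k₀] with k hk t ht g hg
  have h2 : ∀ t : ℕ, |av q (k + t) (fun n => g (e n)) - av q k (fun n => g (e n))| ≤
      t * (ε / (T + 1)) := by
    intro t
    induction t with
    | zero => simp
    | succ t ih =>
      have h3 := hk₀ (k + t) (by omega) g hg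
      have e1 : av q (k + (t + 1)) (fun n => g (e n)) - av q k (fun n => g (e n)) =
          (av q (k + t + 1) (fun n => g (e n)) - av q (k + t) (fun n => g (e n))) +
          (av q (k + t) (fun n => g (e n)) - av q k (fun n => g (e n))) := by
        rw [← add_assoc]
        ring
      rw [e1]
      refine (abs_add_le _ _).trans ((add_le_add h3 ih).trans (le_of_eq ?_))
      push_cast
      ring
  refine (h2 t).trans ?_
  rw [mul_div_assoc', div_le_iff₀ (by positivity)]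
  have : (t : ℝ) ≤ T + 1 := by
    have : (t : ℝ) ≤ T := by exact_mod_cast ht
    linarith
  nlinarith

/-- for slow functions the mean over a class is the mean -/
theorem mean_slow_eq {q m k : ℕ} (hq : 2 ≤ q) {e : ℕ → Fin d → ℤ}
    (he : ∀ a y s : ℕ, s < q ^ a → e (q ^ (a + m) * y + s) = e y + e s)
    (hgen : AddSubgroup.closure (Set.range e) = ⊤) {δ : ℝ} (hδ : 0 ≤ δ)
    {G : (Fin d → ℤ) → ℝ} (hG : Slow δ G) (a : ℕ) :
    |mean q k e G a - av q k (fun n => G (e n))| ≤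
      δ * (q * ∑ i, |((e 1 i : ℤ) : ℝ)|) := by
  unfold mean
  refine av_close hq fun n _ => ?_
  unfold ext
  have h1 := slow_lip hG (e n) (e n + jmin e (a • e 1) (e n) • e 1)
  refine h1.trans (mul_le_mul_of_nonneg_left ?_ hδ)
  rw [Finset.mul_sum]
  refine Finset.sum_le_sum fun i _ => ?_
  have h2 : (((e n + jmin e (a • e 1) (e n) • e 1) i : ℤ) : ℝ) - ((e n i : ℤ) : ℝ) =
      (jmin e (a • e 1) (e n) : ℝ) * ((e 1 i : ℤ) : ℝ) := by
    rw [Pi.add_apply, Pi.smul_apply, nsmul_eq_mul]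
    push_cast
    ring
  rw [h2, abs_mul, abs_of_nonneg (Nat.cast_nonneg _ : (0 : ℝ) ≤ (jmin e (a • e 1) (e n) : ℕ))]
  refine mul_le_mul_of_nonneg_right ?_ (abs_nonneg _)
  exact_mod_cast jmin_le hq he hgen _ _

end Pool.Agent.Lib.MP_3e612f_nt.SA
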