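import Pool.Agent.Lib.MP_3e612f_nt.NDefs
import Pool.Agent.Lib.MP_3e612f_nt.MSmo
import Pool.Agent.Lib.MP_3e612f_nt.MModel
import Pool.Agent.Lib.MP_3e612f_nt.SMean

/-!
Tasks N17 and N20: slow variation of the smoothed extension and of the averages in the model.
-/

set_option autoImplicit false

namespace Pool.Agent.Lib.MP_3e612f_nt.NB

open Filter Topology
open Pool.Agent.Lib.MP_3e612f_nt.QA Pool.Agent.Lib.MP_3e612f_nt.SA Pool.Agent.Lib.MP_3e612f_nt.MB

section several

variable {ι : Type*} [Fintype ι] [DecidableEq ι] {q : ι → ℕ} {m : ℕ} {d : ι → ℕ}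
  {e : ∀ i, ℕ → Fin (d i) → ℤ} {C : ℝ}

/-- N17a (NSlow.lean): the smoothed extension varies slowly, and at points of the coset it is the
average over the shifts along the lattice -/
theorem extN_slow {L : ℕ} (hL : 1 ≤ L) (Λ : ∀ i, AddSubgroup (Fin (d i) → ℤ))
    (c : ∀ i, (Fin (d i) → ℤ) ⧸ Λ i) {g : (∀ i, Fin (d i) → ℤ) → ℝ} (hg : ∀ x, |g x| ≤ 1) :
    SlowP (2 / L) (smoP L (extN Λ c g)) ∧
      ∀ x : ∀ i, Fin (d i) → ℤ, (∀ i, ((x i : (Fin (d i) → ℤ)) : (Fin (d i) → ℤ) ⧸ Λ i) = c i) →
        extN Λ c g x = g x ∧ ∀ v, extN Λ c g (x + v) = g (x + lamL Λ v) := by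
  refine ⟨smoP_slow hL fun x => hg _, fun x hx => ⟨?_, fun v => ?_⟩⟩
  · unfold extN
    congr 1
    funext i
    rw [hx i, sub_self]
    unfold sec
    rw [if_pos rfl, add_zero]
  · unfold extN lamL
    congr 1
    funext i
    have h1 : c i - (((x + v) i : (Fin (d i) → ℤ)) : (Fin (d i) → ℤ) ⧸ Λ i) =
        -((v i : (Fin (d i) → ℤ)) : (Fin (d i) → ℤ) ⧸ Λ i) := by
      rw [Pi.add_apply, QuotientAddGroup.mk_add, hx i]
      abel
    rw [h1]
    simp only [Pi.add_apply]
    rw [add_assoc]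

/-- changing the level of one base -/
theorem n20_level_one (S : Sys q m e C) (i₀ : ι) {l l' : ℕ} {ε : ℝ}
    (h : ∀ (g : (Fin (d i₀) → ℤ) → ℝ), (∀ x, |g x| ≤ 1) →
      |av (q i₀) l' (fun n => g (e i₀ n)) - av (q i₀) l (fun n => g (e i₀ n))| ≤ ε) (lv : ι → ℕ)
    (hlv : lv i₀ = l) (g : (∀ i, Fin (d i) → ℤ) → ℝ) (hg : ∀ x, |g x| ≤ 1) :
    |MA q lv (fun x => g (fun i => e i (x i))) -
      MA q (Function.update lv i₀ l') (fun x => g (fun i => e i (x i)))| ≤ ε := by
  apply MA_close S.base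
  intro x
  rw [hlv]
  set g' : (Fin (d i₀) → ℤ) → ℝ := fun z =>
    g (Function.update (fun i => e i (x i)) i₀ z) with hg'
  have e1 : ∀ n : ℕ, g (fun i => e i (Function.update x i₀ n i)) = g' (e i₀ n) := by
    intro n
    rw [hg']
    dsimp only
    congr 1
    funext i
    by_cases hi : i = i₀
    · subst hi
      simp
    · simp only [Function.update_of_ne hi]
  simp only [e1]
  have h1 := h g' (fun x => hg _)
  rw [abs_sub_comm] at h1
  exact h1

/-- N20 (NSlow.lean): the averages in the model vary slowly -/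
theorem modelAv_slow (S : Sys q m e C) {ε : ℝ} (hε : 0 < ε) :
    ∀ᶠ k : ℕ in atTop, ∀ g : (∀ i, Fin (d i) → ℤ) → ℝ, (∀ x, |g x| ≤ 1) →
      |modelAv q e (k + 1) g - modelAv q e k g| ≤ ε := by
  set ε' : ℝ := ε / (Fintype.card ι + 1) with hε'
  have hε'0 : 0 < ε' := by positivity
  have h1 : ∀ i, ∀ᶠ k : ℕ in atTop, ∀ (g : (Fin (d i) → ℤ) → ℝ), (∀ x, |g x| ≤ 1) →
      |av (q i) (lg (q i) k + 1) (fun n => g (e i n)) -
        av (q i) (lg (q i) k) (fun n => g (e i n))| ≤ ε' :=
    fun i => (lg_tendsto (S.base i)).eventually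
      (av_slow_one (S.base i) (S.qv i) (S.gen i) hε'0)
  filter_upwards [eventually_all.mpr h1] with k hk g hg
  set G : (ι → ℕ) → ℝ := fun x => g (fun i => e i (x i)) with hG
  set lv : Finset ι → ι → ℕ := fun s i => if i ∈ s then lg (q i) (k + 1) else lg (q i) k with hlv
  have h2 : ∀ s : Finset ι, |MA q (lv ∅) G - MA q (lv s) G| ≤ s.card * ε' := by
    intro s
    induction s using Finset.induction_on with
    | empty => simp
    | insert i₀ s hi ih =>
      have e1 : lv (insert i₀ s) = Function.update (lv s) i₀ (lg (q i₀) (k + 1)) := by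
        funext i
        rw [hlv]
        dsimp only
        by_cases h : i = i₀
        · subst h
          simp
        · rw [Function.update_of_ne h]
          simp [h]
      have e2 : lv s i₀ = lg (q i₀) k := by
        rw [hlv]
        dsimp only
        rw [if_neg hi]
      have h3 : |MA q (lv s) G - MA q (lv (insert i₀ s)) G| ≤ ε' := by
        rw [e1]
        apply n20_level_one S i₀ _ (lv s) e2 g hg
        intro g' hg'
        rcases lg_succ (S.base i₀) k with h4 | h4
        · rw [h4, sub_self, abs_zero]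
          exact hε'0.le
        · rw [h4]
          exact hk i₀ g' hg'
      rw [Finset.card_insert_of_notMem hi]
      push_cast
      calc _ ≤ |MA q (lv ∅) G - MA q (lv s) G| + |MA q (lv s) G - MA q (lv (insert i₀ s)) G| :=
            abs_sub_le _ _ _
        _ ≤ s.card * ε' + ε' := add_le_add ih h3
        _ = _ := by ring
  have h5 := h2 Finset.univ
  have e3 : modelAv q e k g = MA q (lv ∅) G := by
    rw [modelAv_eq]
    simp [hlv, hG]
  have e4 : modelAv q e (k + 1) g = MA q (lv Finset.univ) G := by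
    rw [modelAv_eq]
    simp [hlv, hG]
  rw [e3, e4, abs_sub_comm]
  refine h5.trans ?_
  rw [Finset.card_univ, hε', mul_div_assoc', div_le_iff₀ (by positivity)]
  nlinarith

end several

end Pool.Agent.Lib.MP_3e612f_nt.NB
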