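import Pool.Agent.Lib.MP_3e612f_nt.NDefs
import Pool.Agent.Lib.MP_3e612f_nt.MWin

/-!
Windows for the increments with finite parts in several coprime bases (task N1).
-/

set_option autoImplicit false

namespace Pool.Agent.Lib.MP_3e612f_nt.NB

open Filter Topology
open Pool.Agent.Lib.MP_3e612f_nt.QA Pool.Agent.Lib.MP_3e612f_nt.SA Pool.Agent.Lib.MP_3e612f_nt.MB

/-- splitting off the lowest `W` digits -/
theorem n1_split {S H : Type*} [AddCommGroup H] (q P R : ℕ) (β : ℕ → S) (e : ℕ → H)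
    (r h W l y c c₁ d d₁ z z₁ t t₁ : ℕ) (φ : S → S → S → S → H → H → ℝ) :
    IncB q P R β e r h (W + l) y c c₁ d d₁ z z₁ t t₁ φ = av q W (fun w =>
      IncB q P R β e (r / q ^ W) (h + W) l y ((P * (w + r % q ^ W) + c) / q ^ W)
        ((P * w + c₁) / q ^ W) ((R * (w + r % q ^ W) + d) / q ^ W) ((R * w + d₁) / q ^ W)
        (q ^ h * ((P * (w + r % q ^ W) + c) % q ^ W) + z)
        (q ^ h * ((P * w + c₁) % q ^ W) + z₁)
        (q ^ h * ((R * (w + r % q ^ W) + d) % q ^ W) + t)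
        (q ^ h * ((R * w + d₁) % q ^ W) + t₁) φ) := by
  unfold IncB
  rw [av_split]
  unfold cnd
  refine av_congr fun w _ => ?_
  refine av_congr fun n _ => ?_
  beta_reduce
  rw [m2_sd1, m2_sd1, m2_sd0, m2_sd0]

/-- the finite part of a word which is short enough -/
theorem n1_word {S : Type*} [Monoid S] {q m : ℕ} (hq : 2 ≤ q) {β : ℕ → S}
    (hβ : QM q m β) {P b W h c z x M : ℕ}
    (hb : m ≤ b) (hPb : 2 * P + 1 ≤ q ^ (b - m)) (hW : m ≤ W)
    (hPW : P * (q ^ b * x) + 2 * P + 1 ≤ q ^ (W - m)) (hc : c ≤ 2 * P) (hz : z < q ^ h) :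
    β (sd q (h + W) P ((P * (q ^ b * x) + c) / q ^ W)
      (q ^ h * ((P * (q ^ b * x) + c) % q ^ W) + z) M) =
        β (P * M) * (β (P * x) * β (q ^ h * c + z)) := by
  have hWm : q ^ (W - m) ≤ q ^ W := Nat.pow_le_pow_right (by omega) (Nat.sub_le _ _)
  have hlt : P * (q ^ b * x) + c < q ^ W := by omega
  unfold sd
  rw [Nat.div_eq_of_lt hlt, Nat.mod_eq_of_lt hlt, add_zero]
  have hs : ∀ {r B : ℕ}, r + 1 ≤ q ^ B → q ^ h * r + z < q ^ (h + B) := by
    intro r B hr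
    calc q ^ h * r + z < q ^ h * r + q ^ h := by omega
      _ = q ^ h * (r + 1) := by ring
      _ ≤ q ^ h * q ^ B := Nat.mul_le_mul_left _ hr
      _ = q ^ (h + B) := by rw [pow_add]
  have h1 := hβ.gap (h + (W - m)) (P * M) (q ^ h * (P * (q ^ b * x) + c) + z) (hs (by omega))
  have e1 : h + (W - m) + m = h + W := by omega
  rw [e1] at h1
  rw [h1]
  congr 1
  have h2 := hβ.gap (h + (b - m)) (P * x) (q ^ h * c + z) (hs (by omega))
  have e2 : h + (b - m) + m = h + b := by omega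
  rw [e2] at h2
  rw [← h2]
  congr 1
  rw [pow_add]
  ring

/-- N1: the windows -/
theorem windowsB {S H : Type*} [Monoid S] [AddCommGroup H] {q m : ℕ} (hq : 2 ≤ q) {β : ℕ → S}
    (hβ : QM q m β) {e : ℕ → H}
    (he : ∀ a y s : ℕ, s < q ^ a → e (q ^ (a + m) * y + s) = e y + e s) {P R : ℕ}
    (hP1 : 1 ≤ P) (hR1 : 1 ≤ R) {ρ x x' : ℕ} (hx : x ≠ x') (h1 : β (P * x) = β (P * x'))
    (h2 : β (R * x) = β (R * x')) (h3 : β (P * (x + ρ)) = β (P * (x' + ρ)))
    (h4 : β (R * (x + ρ)) = β (R * (x' + ρ))) {v v' : H}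
    (hv : e (P * (x + ρ)) - e (P * x) - (e (P * (x' + ρ)) - e (P * x')) = v)
    (hv' : e (R * (x + ρ)) - e (R * x) - (e (R * (x' + ρ)) - e (R * x')) = v') :
    ∃ W₀ : ℕ, ∀ W ≥ W₀, ∃ w < q ^ W, ∃ κ : ℝ, 0 < κ ∧ κ ≤ 1 ∧
      ∀ (N L r : ℕ) (φ : S → S → S → S → H → H → ℝ) (β₀ : ℝ), 0 ≤ β₀ → W * N ≤ L →
      (∀ j h y c c₁ d d₁ z z₁ t t₁ : ℕ, St q P R h c c₁ d d₁ z z₁ t t₁ →
        ∀ (b₁ b₂ b₃ b₄ : S) (s s' : H),
        |IncB q P R β e (r / q ^ (W * N)) h (L - W * N) y c c₁ d d₁ z z₁ t t₁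
          (fun x₁ x₂ x₃ x₄ => q1_T s s' ((q1_B v v')^[j]
            (φ (x₁ * b₁) (x₂ * b₂) (x₃ * b₃) (x₄ * b₄))))| ≤ β₀ * Real.sqrt (1 / (j + 1))) →
      ∀ j h y c c₁ d d₁ z z₁ t t₁ : ℕ, St q P R h c c₁ d d₁ z z₁ t t₁ →
        ∀ (b₁ b₂ b₃ b₄ : S) (s s' : H),
        |IncB q P R β e r h L y c c₁ d d₁ z z₁ t t₁
          (fun x₁ x₂ x₃ x₄ => q1_T s s' ((q1_B v v')^[j]
            (φ (x₁ * b₁) (x₂ * b₂) (x₃ * b₃) (x₄ * b₄))))| ≤
          β₀ * Real.sqrt (1 / (j + 1 + κ * cnt q W N w r)) := by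
  obtain ⟨B, hB⟩ : ∃ B, 2 * (P + R) + 1 ≤ q ^ B :=
    ⟨2 * (P + R) + 1, (Nat.lt_pow_self (by omega)).le⟩
  set b := B + m with hb
  have ebm : b - m = B := by omega
  have hmb : m ≤ b := by omega
  set X := x + x' + ρ with hX
  obtain ⟨T, hT⟩ : ∃ T, (P + R) * (q ^ b * X) + 2 * (P + R) + 1 ≤ q ^ T :=
    ⟨(P + R) * (q ^ b * X) + 2 * (P + R) + 1, (Nat.lt_pow_self (by omega)).le⟩
  refine ⟨T + m, fun W hW => ?_⟩
  have hWm : m ≤ W := by omega
  have hTW : q ^ T ≤ q ^ (W - m) := Nat.pow_le_pow_right (by omega) (by omega)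
  have hWW : q ^ (W - m) ≤ q ^ W := Nat.pow_le_pow_right (by omega) (Nat.sub_le _ _)
  have hbound : ∀ ξ, ξ ≤ X → P * (q ^ b * ξ) + 2 * P + 1 ≤ q ^ (W - m) ∧
      R * (q ^ b * ξ) + 2 * R + 1 ≤ q ^ (W - m) := by
    intro ξ hξ
    have h1 : P * (q ^ b * ξ) ≤ P * (q ^ b * X) :=
      Nat.mul_le_mul_left _ (Nat.mul_le_mul_left _ hξ)
    have h2 : R * (q ^ b * ξ) ≤ R * (q ^ b * X) :=
      Nat.mul_le_mul_left _ (Nat.mul_le_mul_left _ hξ)
    have h3 : (P + R) * (q ^ b * X) = P * (q ^ b * X) + R * (q ^ b * X) := by ring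
    constructor <;> omega
  have hsmall : ∀ ξ, ξ ≤ X → q ^ b * ξ < q ^ W := by
    intro ξ hξ
    have h1 := (hbound ξ hξ).1
    have h2 : q ^ b * ξ ≤ P * (q ^ b * ξ) := Nat.le_mul_of_pos_left _ hP1
    omega
  have h0W : 0 < q ^ W := qpow_pos hq W
  have hpos : (0 : ℝ) < (q : ℝ) ^ W := qpow_posR hq W
  have h1W : (1 : ℝ) ≤ (q : ℝ) ^ W := by exact_mod_cast h0W
  refine ⟨q ^ b * ρ, hsmall ρ (by omega), 1 / (q : ℝ) ^ W, by positivity,
    (div_le_one hpos).2 h1W, ?_⟩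
  have hxW := hsmall x (by omega)
  have hxW' := hsmall x' (by omega)
  have hne : q ^ b * x ≠ q ^ b * x' := fun h => hx (Nat.eq_of_mul_eq_mul_left (qpow_pos hq b) h)
  have hW2 : 2 ≤ q ^ W := by
    rcases Nat.lt_or_ge (q ^ W) 2 with h | h
    · exfalso
      apply hne
      omega
    · exact h
  have hWr : (2 : ℝ) ≤ (q : ℝ) ^ W := by exact_mod_cast hW2
  have hPb : 2 * P + 1 ≤ q ^ (b - m) := by rw [ebm]; omega
  have hRb : 2 * R + 1 ≤ q ^ (b - m) := by rw [ebm]; omega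
  intro N
  induction N with
  | zero =>
    intro L r φ β₀ hβ₀ _ hyp j h y c c₁ d d₁ z z₁ t t₁ hS b₁ b₂ b₃ b₄ s s'
    have h1 := hyp j h y c c₁ d d₁ z z₁ t t₁ hS b₁ b₂ b₃ b₄ s s'
    have e0 : cnt q W 0 (q ^ b * ρ) r = 0 := by simp [cnt]
    rw [e0]
    simpa using h1
  | succ N ih =>
    intro L r φ β₀ hβ₀ hL hyp j h y c c₁ d d₁ z z₁ t t₁ hS b₁ b₂ b₃ b₄ s s'
    have hLe : W * (N + 1) = W * N + W := by ring
    obtain ⟨l, rfl⟩ : ∃ l, L = W + l := ⟨L - W, by omega⟩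
    have hl : W * N ≤ l := by omega
    have hyp' : ∀ j h y c c₁ d d₁ z z₁ t t₁ : ℕ, St q P R h c c₁ d d₁ z z₁ t t₁ →
        ∀ (b₁ b₂ b₃ b₄ : S) (s s' : H),
        |IncB q P R β e (r / q ^ W / q ^ (W * N)) h (l - W * N) y c c₁ d d₁ z z₁ t t₁
          (fun x₁ x₂ x₃ x₄ => q1_T s s' ((q1_B v v')^[j]
            (φ (x₁ * b₁) (x₂ * b₂) (x₃ * b₃) (x₄ * b₄))))| ≤ β₀ * Real.sqrt (1 / (j + 1)) := by
      intro j h y c c₁ d d₁ z z₁ t t₁ hS b₁ b₂ b₃ b₄ s s'
      have h1 := hyp j h y c c₁ d d₁ z z₁ t t₁ hS b₁ b₂ b₃ b₄ s s'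
      have e1 : r / q ^ (W * (N + 1)) = r / q ^ W / q ^ (W * N) := by
        rw [Nat.div_div_eq_div_mul, ← pow_add]
        congr 2
        ring
      have e2 : W + l - W * (N + 1) = l - W * N := by omega
      rw [e1, e2] at h1
      exact h1
    have IH := ih l (r / q ^ W) φ β₀ hβ₀ hl hyp'
    set C0 := cnt q W N (q ^ b * ρ) (r / q ^ W) with hC0
    have hcnt := m2_cnt q W N (q ^ b * ρ) r
    rw [← hC0] at hcnt
    have hrW : r % q ^ W < q ^ W := Nat.mod_lt _ h0W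
    rw [n1_split]
    by_cases hact : r % q ^ W = q ^ b * ρ
    · rw [if_pos hact] at hcnt
      rw [hcnt]
      set D0 : ℝ := 1 / (j + 1 + 1 / (q : ℝ) ^ W * C0) with hD0
      set D1 : ℝ := 1 / ((j + 1 : ℕ) + 1 + 1 / (q : ℝ) ^ W * C0) with hD1
      have hD0n : 0 ≤ D0 := by positivity
      have hD1n : 0 ≤ D1 := by positivity
      set u : ℕ → ℝ := fun w => IncB q P R β e (r / q ^ W) (h + W) l y
        ((P * (w + r % q ^ W) + c) / q ^ W)
        ((P * w + c₁) / q ^ W) ((R * (w + r % q ^ W) + d) / q ^ W) ((R * w + d₁) / q ^ W)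
        (q ^ h * ((P * (w + r % q ^ W) + c) % q ^ W) + z)
        (q ^ h * ((P * w + c₁) % q ^ W) + z₁)
        (q ^ h * ((R * (w + r % q ^ W) + d) % q ^ W) + t)
        (q ^ h * ((R * w + d₁) % q ^ W) + t₁) (fun x₁ x₂ x₃ x₄ => q1_T s s' ((q1_B v v')^[j]
            (φ (x₁ * b₁) (x₂ * b₂) (x₃ * b₃) (x₄ * b₄)))) with hu
      have hpair : |u (q ^ b * x) + u (q ^ b * x')| ≤ 2 * (β₀ * Real.sqrt D1) := by
        set σ : H := e (P * (x' + ρ)) - e (P * x') + (e (q ^ h * c + z) - e (q ^ h * c₁ + z₁))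
          with hσ
        set σ' : H := e (R * (x' + ρ)) - e (R * x') + (e (q ^ h * d + t) - e (q ^ h * d₁ + t₁))
          with hσ'
        have e5 : u (q ^ b * x) + u (q ^ b * x') =
            2 * IncB q P R β e (r / q ^ W) 0 l y 0 0 0 0 0 0 0 0
              (fun x₁ x₂ x₃ x₄ => q1_T (s + σ) (s' + σ') ((q1_B v v')^[j + 1]
                (φ (x₁ * (β (P * (x' + ρ)) * β (q ^ h * c + z) * b₁))
                  (x₂ * (β (P * x') * β (q ^ h * c₁ + z₁) * b₂))
                  (x₃ * (β (R * (x' + ρ)) * β (q ^ h * d + t) * b₃))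
                  (x₄ * (β (R * x') * β (q ^ h * d₁ + t₁) * b₄))))) := by
          rw [hu]
          dsimp only
          unfold IncB
          rw [← av_add, ← av_const_mul]
          refine av_congr fun n _ => ?_
          rw [hact]
          have w1 : q ^ b * x + q ^ b * ρ = q ^ b * (x + ρ) := by ring
          have w2 : q ^ b * x' + q ^ b * ρ = q ^ b * (x' + ρ) := by ring
          rw [w1, w2]
          have z0 : ∀ P' N' : ℕ, sd q 0 P' 0 0 N' = P' * N' := by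
            intro P' N'
            simp [sd]
          rw [z0, z0, z0, z0]
          rw [m2_word hq he hmb hPb hWm (hbound (x + ρ) (by omega)).1 hS.c0 hS.z0,
            m2_word hq he hmb hPb hWm (hbound x (by omega)).1 hS.c1 hS.z1,
            m2_word hq he hmb hRb hWm (hbound (x + ρ) (by omega)).2 hS.d0 hS.t0,
            m2_word hq he hmb hRb hWm (hbound x (by omega)).2 hS.d1 hS.t1,
            m2_word hq he hmb hPb hWm (hbound (x' + ρ) (by omega)).1 hS.c0 hS.z0,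
            m2_word hq he hmb hPb hWm (hbound x' (by omega)).1 hS.c1 hS.z1,
            m2_word hq he hmb hRb hWm (hbound (x' + ρ) (by omega)).2 hS.d0 hS.t0,
            m2_word hq he hmb hRb hWm (hbound x' (by omega)).2 hS.d1 hS.t1]
          rw [n1_word hq hβ hmb hPb hWm (hbound (x + ρ) (by omega)).1 hS.c0 hS.z0,
            n1_word hq hβ hmb hPb hWm (hbound x (by omega)).1 hS.c1 hS.z1,
            n1_word hq hβ hmb hRb hWm (hbound (x + ρ) (by omega)).2 hS.d0 hS.t0,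
            n1_word hq hβ hmb hRb hWm (hbound x (by omega)).2 hS.d1 hS.t1,
            n1_word hq hβ hmb hPb hWm (hbound (x' + ρ) (by omega)).1 hS.c0 hS.z0,
            n1_word hq hβ hmb hPb hWm (hbound x' (by omega)).1 hS.c1 hS.z1,
            n1_word hq hβ hmb hRb hWm (hbound (x' + ρ) (by omega)).2 hS.d0 hS.t0,
            n1_word hq hβ hmb hRb hWm (hbound x' (by omega)).2 hS.d1 hS.t1]
          rw [h1, h2, h3, h4]
          simp only [← mul_assoc]
          apply m2_pair_alg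
          · rw [hσ, ← hv]; abel
          · rw [hσ', ← hv']; abel
          · rw [hσ]; abel
          · rw [hσ']; abel
        rw [e5, abs_mul, abs_of_pos (by norm_num : (0 : ℝ) < 2)]
        have hS0 : St q P R 0 0 0 0 0 0 0 0 0 :=
          ⟨Nat.zero_le _, Nat.zero_le _, Nat.zero_le _, Nat.zero_le _, by simp, by simp,
            by simp, by simp⟩
        exact mul_le_mul_of_nonneg_left (IH (j + 1) 0 y 0 0 0 0 0 0 0 0 hS0 _ _ _ _ _ _)
          (by norm_num)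
      have hother : ∀ w < q ^ W, |u w| ≤ β₀ * Real.sqrt D0 := fun w hw =>
        IH j _ _ _ _ _ _ _ _ _ _ (m2_St hq hS hw hrW) _ _ _ _ _ _
      have hsum : |∑ w ∈ Finset.range (q ^ W), u w| ≤
          2 * (β₀ * Real.sqrt D1) + ((q : ℝ) ^ W - 2) * (β₀ * Real.sqrt D0) := by
        have hm1 : q ^ b * x ∈ Finset.range (q ^ W) := Finset.mem_range.mpr hxW
        have hm2 : q ^ b * x' ∈ (Finset.range (q ^ W)).erase (q ^ b * x) :=
          Finset.mem_erase.mpr ⟨hne.symm, Finset.mem_range.mpr hxW'⟩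
        rw [← Finset.add_sum_erase _ _ hm1, ← Finset.add_sum_erase _ _ hm2, ← add_assoc]
        refine (abs_add_le _ _).trans (add_le_add hpair ?_)
        refine (Finset.abs_sum_le_sum_abs _ _).trans ?_
        calc ∑ w ∈ ((Finset.range (q ^ W)).erase (q ^ b * x)).erase (q ^ b * x'), |u w|
            ≤ ∑ w ∈ ((Finset.range (q ^ W)).erase (q ^ b * x)).erase (q ^ b * x'),
                β₀ * Real.sqrt D0 := by
              refine Finset.sum_le_sum fun w hw => hother w ?_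
              exact Finset.mem_range.mp (Finset.mem_of_mem_erase (Finset.mem_of_mem_erase hw))
          _ = ((q : ℝ) ^ W - 2) * (β₀ * Real.sqrt D0) := by
              rw [Finset.sum_const, Finset.card_erase_of_mem hm2, Finset.card_erase_of_mem hm1,
                Finset.card_range, nsmul_eq_mul]
              congr 1
              have : q ^ W - 1 - 1 = q ^ W - 2 := by omega
              rw [this, Nat.cast_sub hW2]
              push_cast
              ring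
      have hav : |av q W u| ≤ 2 / (q : ℝ) ^ W * (β₀ * Real.sqrt D1) +
          (1 - 2 / (q : ℝ) ^ W) * (β₀ * Real.sqrt D0) := by
        unfold av
        rw [abs_div, abs_of_pos hpos, div_le_iff₀ hpos]
        refine hsum.trans (le_of_eq ?_)
        field_simp
      refine hav.trans ?_
      have hκ0 : (0 : ℝ) ≤ 2 / (q : ℝ) ^ W := by positivity
      have hκ1 : (2 : ℝ) / (q : ℝ) ^ W ≤ 1 := by
        rw [div_le_one hpos]
        exact hWr
      have h3 := DS.A_concave hκ0 hκ1 hD1n hD0n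
      have h4 : 2 / (q : ℝ) ^ W * D1 + (1 - 2 / (q : ℝ) ^ W) * D0 ≤
          1 / (j + 1 + 1 / (q : ℝ) ^ W * ((1 + C0 : ℕ) : ℝ)) := by
        have h5 := DS.A_rat (κ := 2 / (q : ℝ) ^ W) (z := j + 1 + 1 / (q : ℝ) ^ W * C0) hκ0 (by
          have : (0 : ℝ) ≤ 1 / (q : ℝ) ^ W * C0 := by positivity
          have : (0 : ℝ) ≤ (j : ℝ) := Nat.cast_nonneg j
          linarith)
        refine le_trans (le_of_eq ?_) (h5.trans (le_of_eq ?_))
        · rw [hD0, hD1]
          push_cast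
          congr 3
          ring
        · push_cast
          congr 1
          ring
      calc 2 / (q : ℝ) ^ W * (β₀ * Real.sqrt D1) + (1 - 2 / (q : ℝ) ^ W) * (β₀ * Real.sqrt D0)
          = β₀ * (2 / (q : ℝ) ^ W * Real.sqrt D1 + (1 - 2 / (q : ℝ) ^ W) * Real.sqrt D0) := by ring
        _ ≤ β₀ * Real.sqrt (2 / (q : ℝ) ^ W * D1 + (1 - 2 / (q : ℝ) ^ W) * D0) :=
            mul_le_mul_of_nonneg_left h3 hβ₀
        _ ≤ _ := mul_le_mul_of_nonneg_left (Real.sqrt_le_sqrt h4) hβ₀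
    · rw [if_neg hact, zero_add] at hcnt
      rw [hcnt]
      refine abs_av_le hq fun w hw => ?_
      exact IH j _ _ _ _ _ _ _ _ _ _ (m2_St hq hS hw hrW) _ _ _ _ _ _

end Pool.Agent.Lib.MP_3e612f_nt.NB
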