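import Pool.Agent.Lib.MP_3e612f_nt.QBase

/-!
The decomposition of a covariance along windows of digits.
-/

set_option autoImplicit false

namespace Pool.Agent.Lib.MP_3e612f_nt.QA

open Filter Topology

theorem q3_step {q : ℕ} (W l i : ℕ) (U : ℕ → ℝ) (s : ℕ) :
    cnd q (W + l) (W * i) U s =
      av q W (fun x => cnd q l (W * (i + 1)) U (q ^ (W * i) * x + s)) := by
  have h : cnd q (W + l) (W * i) U s = av q (W + l) (fun y => U (q ^ (W * i) * y + s)) := rfl
  rw [h, av_split]
  unfold cnd
  have e : ∀ x y : ℕ, q ^ (W * i) * (q ^ W * y + x) + s =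
      q ^ (W * (i + 1)) * y + (q ^ (W * i) * x + s) := by
    intro x y
    rw [mul_add W i 1, mul_one, pow_add]
    ring
  simp only [e]

/-- the telescoping term -/
noncomputable def q3_T (q W K : ℕ) (U V : ℕ → ℝ) (i : ℕ) : ℝ :=
  av q (W * i) (fun s => cnd q (W * (K - i)) (W * i) U s * cnd q (W * (K - i)) (W * i) V s)

theorem cov_decomp {q : ℕ} (hq : 2 ≤ q) (W K : ℕ) (U V : ℕ → ℝ) :
    cov q (W * K) U V = ∑ i ∈ Finset.range K, av q (W * i) (fun s =>
      cov q W (fun x => cnd q (W * (K - (i + 1))) (W * (i + 1)) U (q ^ (W * i) * x + s))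
        (fun x => cnd q (W * (K - (i + 1))) (W * (i + 1)) V (q ^ (W * i) * x + s))) := by
  have h1 : ∀ i ∈ Finset.range K, av q (W * i) (fun s =>
      cov q W (fun x => cnd q (W * (K - (i + 1))) (W * (i + 1)) U (q ^ (W * i) * x + s))
        (fun x => cnd q (W * (K - (i + 1))) (W * (i + 1)) V (q ^ (W * i) * x + s))) =
      q3_T q W K U V (i + 1) - q3_T q W K U V i := by
    intro i hi
    rw [Finset.mem_range] at hi
    obtain ⟨l, hl⟩ : ∃ l, K - i = 1 + l := ⟨K - i - 1, by omega⟩
    have hl' : K - (i + 1) = l := by omega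
    unfold q3_T cov
    rw [av_sub, hl, hl', mul_add W 1 l, mul_one]
    congr 1
    · rw [mul_add W i 1, mul_one, av_split]
      rfl
    · congr 1
      funext s
      rw [q3_step W (W * l) i U s, q3_step W (W * l) i V s]
  rw [Finset.sum_congr rfl h1, Finset.sum_range_sub]
  unfold cov q3_T
  congr 1
  · rw [Nat.sub_self, mul_zero]
    unfold cnd
    simp only [av_zero, mul_zero, zero_add]
  · rw [mul_zero, av_zero, Nat.sub_zero]
    unfold cnd
    simp only [pow_zero, one_mul, add_zero]

end Pool.Agent.Lib.MP_3e612f_nt.QA
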