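import Pool.Agent.Lib.MP_3e612f_nt.QBase

/-!
Choice of coordinates: a quasi-additive function with values in `ℤ ^ d` may be replaced by one whose
values generate the whole lattice.
-/

set_option autoImplicit false

namespace Pool.Agent.Lib.MP_3e612f_nt.QA

open Filter Topology

theorem exists_coords {q m d : ℕ} (hq : 2 ≤ q) {e : ℕ → Fin d → ℤ} {C : ℝ} (he : QV q m e C) :
    ∃ (l : ℕ) (e' : ℕ → Fin l → ℤ) (C' : ℝ) (ι : (Fin l → ℤ) →+ (Fin d → ℤ)),
      QV q m e' C' ∧ AddSubgroup.closure (Set.range e') = ⊤ ∧ ∀ n, e n = ι (e' n) := by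
  classical
  let N : Submodule ℤ (Fin d → ℤ) := Submodule.span ℤ (Set.range e)
  obtain ⟨l, S⟩ := N.smithNormalForm (Pi.basisFun ℤ (Fin d))
  have hmem : ∀ n, e n ∈ N := fun n => Submodule.subset_span ⟨n, rfl⟩
  let E : ℕ → N := fun n => ⟨e n, hmem n⟩
  let e' : ℕ → Fin l → ℤ := fun n => S.bN.equivFun (E n)
  have ha : ∀ i, S.a i ≠ 0 := by
    intro i hi
    have h1 := S.snf i
    rw [hi, zero_smul] at h1
    exact S.bN.ne_zero i (Subtype.ext h1)
  have key : ∀ (n : ℕ) (i : Fin l), S.bM.coord (S.f i) (e n) = S.a i * e' n i := by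
    intro n i
    have h1 := S.repr_apply_embedding_eq_repr_smul (E n) (i := i)
    rw [map_smul, Finsupp.smul_apply, smul_eq_mul] at h1
    exact h1
  let g : Fin l → Fin d → ℤ := fun i j => S.bM.coord (S.f i) (fun k => if j = k then 1 else 0)
  have key2 : ∀ (n : ℕ) (i : Fin l), S.bM.coord (S.f i) (e n) = ∑ j, e n j * g i j := by
    intro n i
    rw [LinearMap.pi_apply_eq_sum_univ]
    rfl
  let K : ℝ := ∑ i, ∑ j, |(g i j : ℝ)|
  have hK : 0 ≤ K := Finset.sum_nonneg fun i _ => Finset.sum_nonneg fun j _ => abs_nonneg _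
  refine ⟨l, e', K * C, (N.subtype.comp S.bN.equivFun.symm.toLinearMap).toAddMonoidHom, ?_, ?_, ?_⟩
  · refine ⟨mul_nonneg hK he.nonneg, ?_, ?_⟩
    · intro a y s hs
      have h1 : E (q ^ (a + m) * y + s) = E y + E s := Subtype.ext (he.gap a y s hs)
      show S.bN.equivFun (E (q ^ (a + m) * y + s)) = S.bN.equivFun (E y) + S.bN.equivFun (E s)
      rw [h1, map_add]
    · intro a s hs i
      have h1 : |(e' s i : ℝ)| ≤ |((S.a i * e' s i : ℤ) : ℝ)| := by
        have h2 : 1 ≤ |S.a i| := Int.one_le_abs (ha i)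
        have h3 : |e' s i| ≤ |S.a i * e' s i| := by
          rw [abs_mul]
          nlinarith [abs_nonneg (e' s i)]
        exact_mod_cast h3
      rw [← key, key2] at h1
      refine h1.trans ?_
      push_cast
      calc |∑ j, (e s j : ℝ) * (g i j : ℝ)| ≤ ∑ j, |(e s j : ℝ) * (g i j : ℝ)| :=
            Finset.abs_sum_le_sum_abs _ _
        _ ≤ ∑ j, (C * (a + 1)) * |(g i j : ℝ)| := by
            refine Finset.sum_le_sum fun j _ => ?_
            rw [abs_mul]
            exact mul_le_mul_of_nonneg_right (he.growth a s hs j) (abs_nonneg _)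
        _ = (∑ j, |(g i j : ℝ)|) * (C * (a + 1)) := by rw [← Finset.mul_sum, mul_comm]
        _ ≤ K * (C * (a + 1)) := by
            refine mul_le_mul_of_nonneg_right ?_ (mul_nonneg he.nonneg (by positivity))
            exact Finset.single_le_sum (f := fun i => ∑ j, |(g i j : ℝ)|)
              (fun i _ => Finset.sum_nonneg fun j _ => abs_nonneg _) (Finset.mem_univ i)
        _ = K * C * (a + 1) := by ring
  · -- generation
    have h1 : Submodule.span ℤ (Set.range E) = ⊤ := by
      have h2 : (Submodule.span ℤ (Set.range E)).map N.subtype = N := by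
        rw [Submodule.map_span]
        have h3 : N.subtype '' Set.range E = Set.range e := by
          rw [← Set.range_comp]
          rfl
        rw [h3]
      apply Submodule.map_injective_of_injective N.injective_subtype
      rw [h2, Submodule.map_top, Submodule.range_subtype]
    have h2 : Submodule.span ℤ (Set.range e') = ⊤ := by
      have h3 : (Submodule.span ℤ (Set.range E)).map S.bN.equivFun.toLinearMap =
          Submodule.span ℤ (Set.range e') := by
        rw [Submodule.map_span]
        congr 1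
        rw [← Set.range_comp]
        rfl
      rw [← h3, h1, Submodule.map_top]
      exact LinearEquiv.range _
    have h4 := Submodule.span_int_eq_addSubgroupClosure (Set.range e')
    rw [← h4, h2]
    rfl
  · intro n
    show e n = ((S.bN.equivFun.symm (S.bN.equivFun (E n)) : N) : Fin d → ℤ)
    rw [LinearEquiv.symm_apply_apply]

theorem QV.pow {q m d : ℕ} (hq : 2 ≤ q) {e : ℕ → Fin d → ℤ} {C : ℝ} (he : QV q m e C) {w : ℕ}
    (hw : 1 ≤ w) : ∃ C' : ℝ, QV (q ^ w) m e C' := by
  refine ⟨C * w, mul_nonneg he.nonneg (by positivity), ?_, ?_⟩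
  · intro a y s hs
    obtain ⟨v, rfl⟩ : ∃ v, w = v + 1 := ⟨w - 1, by omega⟩
    have h1 : (q ^ (v + 1)) ^ (a + m) = q ^ (((v + 1) * a + v * m) + m) := by
      rw [← pow_mul]
      congr 1
      ring
    rw [h1]
    apply he.gap
    rw [← pow_mul] at hs
    refine hs.trans_le (Nat.pow_le_pow_right (by omega) (by omega))
  · intro a s hs i
    rw [← pow_mul] at hs
    refine (he.growth (w * a) s hs i).trans ?_
    have hw' : (1 : ℝ) ≤ w := by exact_mod_cast hw
    have := he.nonneg
    push_cast
    have h2 : C * ((w : ℝ) * a + 1) ≤ C * (w * a + w) := by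
      apply mul_le_mul_of_nonneg_left _ this
      linarith
    linarith

theorem QV.of_log {q m d : ℕ} (hq : 2 ≤ q) {e : ℕ → Fin d → ℤ}
    (he : ∀ a y s : ℕ, s < q ^ a → e (q ^ (a + m) * y + s) = e y + e s) {C : ℝ}
    (hC : ∀ n i, |(e n i : ℝ)| ≤ C * (1 + Real.log (n + 1))) : ∃ C' : ℝ, QV q m e C' := by
  have hq1 : (1 : ℝ) ≤ q := by
    have : 1 ≤ q := by omega
    exact_mod_cast this
  have hlog : 0 ≤ Real.log q := Real.log_nonneg hq1
  refine ⟨|C| * (1 + Real.log q), by positivity, he, ?_⟩
  intro a s hs i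
  refine (hC s i).trans ?_
  have h1 : Real.log ((s : ℝ) + 1) ≤ a * Real.log q := by
    rw [← Real.log_pow]
    apply Real.log_le_log (by positivity)
    have : s + 1 ≤ q ^ a := hs
    exact_mod_cast this
  have h0 : 0 ≤ Real.log ((s : ℝ) + 1) := Real.log_nonneg (by
    have : (0 : ℝ) ≤ s := by positivity
    linarith)
  have ha : (0 : ℝ) ≤ a := by positivity
  calc C * (1 + Real.log (s + 1)) ≤ |C| * (1 + Real.log (s + 1)) :=
        mul_le_mul_of_nonneg_right (le_abs_self C) (by linarith)
    _ ≤ |C| * (1 + a * Real.log q) := by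
        apply mul_le_mul_of_nonneg_left _ (abs_nonneg C)
        linarith
    _ ≤ |C| * ((1 + Real.log q) * (a + 1)) := by
        apply mul_le_mul_of_nonneg_left _ (abs_nonneg C)
        nlinarith
    _ = |C| * (1 + Real.log q) * (a + 1) := by ring

end Pool.Agent.Lib.MP_3e612f_nt.QA
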