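import Pool.Agent.Lib.MP_3e612f_nt.QBase

/-!
# Task Q15: irrational rotations
-/

set_option autoImplicit false

namespace Pool.Agent.Lib.MP_3e612f_nt.QA

open Filter Topology

/-- averages with two special words -/
theorem q15_avg {q W : ℕ} (hq : 2 ≤ q) {T : ℕ → ℝ} {w w' : ℕ} (hw : w < q ^ W) (hw' : w' < q ^ W)
    (hne : w ≠ w') {B s : ℝ} (hT : ∀ v < q ^ W, |T v| ≤ B) (h2 : |T w + T w'| ≤ 2 * s * B) :
    |av q W T| ≤ (1 - 2 / (q : ℝ) ^ W + 2 / (q : ℝ) ^ W * s) * B := by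
  have hpos := qpow_posR hq W
  set S := ((Finset.range (q ^ W)).erase w).erase w' with hS
  have hm : w ∈ Finset.range (q ^ W) := Finset.mem_range.2 hw
  have hm' : w' ∈ (Finset.range (q ^ W)).erase w :=
    Finset.mem_erase.2 ⟨hne.symm, Finset.mem_range.2 hw'⟩
  have hsum : ∑ v ∈ Finset.range (q ^ W), T v = (T w + T w') + ∑ v ∈ S, T v := by
    rw [← Finset.add_sum_erase _ T hm, ← Finset.add_sum_erase _ T hm', add_assoc]
  have hcard : (S.card : ℝ) = (q : ℝ) ^ W - 2 := by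
    have h1 : S.card + 2 = q ^ W := by
      have e1 : S.card + 1 = ((Finset.range (q ^ W)).erase w).card :=
        Finset.card_erase_add_one hm'
      have e2 := Finset.card_erase_add_one hm
      rw [Finset.card_range] at e2
      omega
    have h3 : (S.card : ℝ) + 2 = (q : ℝ) ^ W := by exact_mod_cast h1
    linarith
  have hrest : |∑ v ∈ S, T v| ≤ ((q : ℝ) ^ W - 2) * B := by
    calc |∑ v ∈ S, T v| ≤ ∑ v ∈ S, |T v| := Finset.abs_sum_le_sum_abs _ _
      _ ≤ ∑ v ∈ S, B := Finset.sum_le_sum fun v hv => by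
          refine hT v ?_
          have := Finset.mem_of_mem_erase (Finset.mem_of_mem_erase hv)
          exact Finset.mem_range.1 this
      _ = ((q : ℝ) ^ W - 2) * B := by
          rw [Finset.sum_const, nsmul_eq_mul, hcard]
  have htot : |∑ v ∈ Finset.range (q ^ W), T v| ≤ 2 * s * B + ((q : ℝ) ^ W - 2) * B := by
    rw [hsum]
    exact (abs_add_le _ _).trans (add_le_add h2 hrest)
  unfold av
  rw [abs_div, abs_of_pos hpos, div_le_iff₀ hpos]
  refine htot.trans (le_of_eq ?_)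
  field_simp
  ring

/-- uniform bound for the twisted averages -/
def q15_Bd {H : Type*} (q P R : ℕ) (e : ℕ → H) (k : ℕ) (γ B : ℝ) : Prop :=
  ∀ h y c d z z' : ℕ, c ≤ P → d ≤ R → z < q ^ h → z' < q ^ h →
    ∀ F : H → H → ℝ, (∀ x x', |F x x'| ≤ 1) → ∀ θ : ℝ,
      |av q k (fun n => Real.cos (2 * Real.pi * (γ * n + θ)) *
        F (e (q ^ h * (P * (q ^ k * y + n) + c) + z))
          (e (q ^ h * (R * (q ^ k * y + n) + d) + z')))| ≤ B

theorem q15_zero {H : Type*} (q P R : ℕ) (e : ℕ → H) (γ : ℝ) : q15_Bd q P R e 0 γ 1 := by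
  intro h y c d z z' _ _ _ _ F hF θ
  rw [av_zero, abs_mul]
  exact mul_le_one₀ (Real.abs_cos_le_one _) (abs_nonneg _) (hF _ _)

/-- splitting off the lowest digits -/
theorem q15_nat {q : ℕ} (h W k y P n w c z : ℕ) :
    q ^ h * (P * (q ^ (W + k) * y + (q ^ W * n + w)) + c) + z
      = q ^ (h + W) * (P * (q ^ k * y + n) + (P * w + c) / q ^ W)
        + (q ^ h * ((P * w + c) % q ^ W) + z) := by
  have h1 := Nat.div_add_mod (P * w + c) (q ^ W)
  have h2 : q ^ (h + W) * (P * (q ^ k * y + n) + (P * w + c) / q ^ W)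
        + (q ^ h * ((P * w + c) % q ^ W) + z)
      = q ^ h * (q ^ W * (P * (q ^ k * y + n))
        + (q ^ W * ((P * w + c) / q ^ W) + (P * w + c) % q ^ W)) + z := by
    ring
  rw [h2, h1]
  ring

theorem q15_div {q : ℕ} {W P w c : ℕ} (hw : w < q ^ W) (hc : c ≤ P) :
    (P * w + c) / q ^ W ≤ P := by
  refine Nat.div_le_of_le_mul ?_
  calc P * w + c ≤ P * w + P := by omega
    _ = P * (w + 1) := by ring
    _ ≤ P * q ^ W := Nat.mul_le_mul_left _ hw
    _ = q ^ W * P := Nat.mul_comm _ _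

theorem q15_mod {q : ℕ} (hq : 2 ≤ q) {h W P w c z : ℕ} (hz : z < q ^ h) :
    q ^ h * ((P * w + c) % q ^ W) + z < q ^ (h + W) := by
  have h1 := Nat.mod_lt (P * w + c) (qpow_pos hq W)
  calc q ^ h * ((P * w + c) % q ^ W) + z < q ^ h * ((P * w + c) % q ^ W) + q ^ h := by omega
    _ = q ^ h * ((P * w + c) % q ^ W + 1) := by ring
    _ ≤ q ^ h * q ^ W := Nat.mul_le_mul_left _ h1
    _ = q ^ (h + W) := (pow_add q h W).symm

/-- the value of `e` on a special word -/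
theorem q15_word {H : Type*} [AddCommGroup H] {q m : ℕ} (hq : 2 ≤ q) {e : ℕ → H}
    (he : ∀ a y s : ℕ, s < q ^ a → e (q ^ (a + m) * y + s) = e y + e s)
    {P b W h k c z y n : ℕ} (hc : c ≤ P) (hz : z < q ^ h) (hb : P + 1 ≤ q ^ b)
    (hW : P * q ^ (m + b) + P + 1 ≤ q ^ W) :
    e (q ^ h * (P * (q ^ (W + m + k) * y + (q ^ (W + m) * n + q ^ (m + b))) + c) + z)
      = e (P * (q ^ k * y + n)) + (e P + e (q ^ h * c + z)) := by
  have hh := qpow_pos hq h
  have e1 : q ^ h * (P * (q ^ (W + m + k) * y + (q ^ (W + m) * n + q ^ (m + b))) + c) + z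
      = q ^ ((h + W) + m) * (P * (q ^ k * y + n)) + (q ^ h * (P * q ^ (m + b) + c) + z) := by
    ring
  have e2 : q ^ h * (P * q ^ (m + b) + c) + z = q ^ ((h + b) + m) * P + (q ^ h * c + z) := by
    ring
  have l1 : q ^ h * (P * q ^ (m + b) + c) + z < q ^ (h + W) := by
    calc q ^ h * (P * q ^ (m + b) + c) + z < q ^ h * (P * q ^ (m + b) + c) + q ^ h := by omega
      _ = q ^ h * (P * q ^ (m + b) + c + 1) := by ring
      _ ≤ q ^ h * q ^ W := Nat.mul_le_mul_left _ (by omega)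
      _ = q ^ (h + W) := (pow_add q h W).symm
  have l2 : q ^ h * c + z < q ^ (h + b) := by
    calc q ^ h * c + z < q ^ h * c + q ^ h := by omega
      _ = q ^ h * (c + 1) := by ring
      _ ≤ q ^ h * q ^ b := Nat.mul_le_mul_left _ (by omega)
      _ = q ^ (h + b) := (pow_add q h b).symm
  rw [e1, he _ _ _ l1, e2, he _ _ _ l2]

/-- one window -/
theorem q15_step {H : Type*} [AddCommGroup H] {q m : ℕ} (hq : 2 ≤ q) {e : ℕ → H}
    (he : ∀ a y s : ℕ, s < q ^ a → e (q ^ (a + m) * y + s) = e y + e s) {P R b W k : ℕ}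
    (hbP : P + 1 ≤ q ^ b) (hbR : R + 1 ≤ q ^ b)
    (hWP : P * q ^ (m + (b + 1)) + P + 1 ≤ q ^ W) (hWR : R * q ^ (m + (b + 1)) + R + 1 ≤ q ^ W)
    (hW : m + (b + 1) < W + m) {γ B : ℝ} (_ : 0 ≤ B)
    (hk : q15_Bd q P R e k (γ * q ^ (W + m)) B) :
    q15_Bd q P R e (W + m + k) γ ((1 - 2 / (q : ℝ) ^ (W + m) + 2 / (q : ℝ) ^ (W + m) *
      |Real.cos (Real.pi * (γ * (q ^ (m + b) * (q - 1))))|) * B) := by
  intro h y c d z z' hc hd hz hz' F hF θ
  rw [av_split]
  have hq1 : 1 ≤ q := by omega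
  have hbb : q ^ b ≤ q ^ (b + 1) := Nat.pow_le_pow_right hq1 (by omega)
  have hmb : q ^ (m + b) ≤ q ^ (m + (b + 1)) := Nat.pow_le_pow_right hq1 (by omega)
  have hPb := Nat.mul_le_mul_left P hmb
  have hRb := Nat.mul_le_mul_left R hmb
  -- the value at a special word
  set F' : H → H → ℝ := fun x x' => F (x + (e P + e (q ^ h * c + z))) (x' + (e R + e (q ^ h * d + z')))
    with hF'
  have hword : ∀ b' : ℕ, P + 1 ≤ q ^ b' → R + 1 ≤ q ^ b' → P * q ^ (m + b') + P + 1 ≤ q ^ W →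
      R * q ^ (m + b') + R + 1 ≤ q ^ W →
      cnd q k (W + m) (fun n => Real.cos (2 * Real.pi * (γ * n + θ)) *
        F (e (q ^ h * (P * (q ^ (W + m + k) * y + n) + c) + z))
          (e (q ^ h * (R * (q ^ (W + m + k) * y + n) + d) + z'))) (q ^ (m + b'))
      = av q k (fun n => Real.cos (2 * Real.pi * (γ * q ^ (W + m) * n + (γ * q ^ (m + b') + θ))) *
          F' (e (P * (q ^ k * y + n))) (e (R * (q ^ k * y + n)))) := by
    intro b' h1 h2 h3 h4
    unfold cnd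
    refine av_congr fun n _ => ?_
    beta_reduce
    rw [q15_word hq he hc hz h1 h3, q15_word hq he hd hz' h2 h4]
    simp only [hF']
    congr 2
    push_cast
    ring
  refine q15_avg hq (w := q ^ (m + b)) (w' := q ^ (m + (b + 1))) ?_ ?_ ?_ ?_ ?_
  · exact Nat.pow_lt_pow_right (by omega) (by omega)
  · exact Nat.pow_lt_pow_right (by omega) (by omega)
  · intro h0
    have := Nat.pow_right_injective hq h0
    omega
  · intro w hw
    unfold cnd
    have h1 := hk (h + (W + m)) y ((P * w + c) / q ^ (W + m)) ((R * w + d) / q ^ (W + m))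
      (q ^ h * ((P * w + c) % q ^ (W + m)) + z) (q ^ h * ((R * w + d) % q ^ (W + m)) + z')
      (q15_div hw hc) (q15_div hw hd) (q15_mod hq hz) (q15_mod hq hz') F hF (γ * w + θ)
    refine le_of_eq_of_le ?_ h1
    congr 1
    refine av_congr fun n _ => ?_
    beta_reduce
    rw [q15_nat, q15_nat]
    congr 2
    push_cast
    ring
  · rw [hword b hbP hbR (by omega) (by omega),
      hword (b + 1) (by omega) (by omega) hWP hWR, ← av_add]
    have h1 := hk 0 y 0 0 0 0 (Nat.zero_le _) (Nat.zero_le _) (by simp) (by simp) F'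
      (fun x x' => hF _ _) (γ * (q ^ (m + b) + q ^ (m + (b + 1))) / 2 + θ)
    have h2 : ∀ n : ℕ, Real.cos (2 * Real.pi * (γ * q ^ (W + m) * n + (γ * q ^ (m + b) + θ))) *
          F' (e (P * (q ^ k * y + n))) (e (R * (q ^ k * y + n)))
        + Real.cos (2 * Real.pi * (γ * q ^ (W + m) * n + (γ * q ^ (m + (b + 1)) + θ))) *
          F' (e (P * (q ^ k * y + n))) (e (R * (q ^ k * y + n)))
        = 2 * Real.cos (Real.pi * (γ * (q ^ (m + b) * (q - 1)))) *
          (Real.cos (2 * Real.pi * (γ * q ^ (W + m) * n +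
            (γ * (q ^ (m + b) + q ^ (m + (b + 1))) / 2 + θ))) *
            F' (e (q ^ 0 * (P * (q ^ k * y + n) + 0) + 0))
              (e (q ^ 0 * (R * (q ^ k * y + n) + 0) + 0))) := by
      intro n
      have h3 : (q ^ 0 * (P * (q ^ k * y + n) + 0) + 0) = P * (q ^ k * y + n) := by ring
      have h4 : (q ^ 0 * (R * (q ^ k * y + n) + 0) + 0) = R * (q ^ k * y + n) := by ring
      rw [h3, h4, ← add_mul, Real.cos_add_cos]
      have h5 : (2 * Real.pi * (γ * q ^ (W + m) * n + (γ * q ^ (m + b) + θ))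
          + 2 * Real.pi * (γ * q ^ (W + m) * n + (γ * q ^ (m + (b + 1)) + θ))) / 2
          = 2 * Real.pi * (γ * q ^ (W + m) * n +
            (γ * (q ^ (m + b) + q ^ (m + (b + 1))) / 2 + θ)) := by ring
      have h6 : (2 * Real.pi * (γ * q ^ (W + m) * n + (γ * q ^ (m + b) + θ))
          - 2 * Real.pi * (γ * q ^ (W + m) * n + (γ * q ^ (m + (b + 1)) + θ))) / 2
          = - (Real.pi * (γ * (q ^ (m + b) * (q - 1)))) := by ring
      rw [h5, h6, Real.cos_neg]
      ring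
    rw [av_congr (fun n _ => h2 n), av_const_mul, abs_mul, abs_mul, abs_two]
    have h7 := mul_le_mul_of_nonneg_left h1
      (mul_nonneg (by norm_num : (0 : ℝ) ≤ 2)
        (abs_nonneg (Real.cos (Real.pi * (γ * (q ^ (m + b) * (q - 1)))))))
    exact h7

/-- the contraction factors -/
noncomputable def q15_fac (q W : ℕ) (x : ℝ) : ℝ :=
  1 - 2 / (q : ℝ) ^ W + 2 / (q : ℝ) ^ W * |Real.cos (Real.pi * x)|

theorem q15_fac_nonneg {q W : ℕ} (hq : 2 ≤ q) (hW : 1 ≤ W) (x : ℝ) : 0 ≤ q15_fac q W x := by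
  have h1 : (2 : ℝ) ≤ (q : ℝ) ^ W := by
    have h2 : q ^ 1 ≤ q ^ W := Nat.pow_le_pow_right (by omega) hW
    have h3 : 2 ≤ q ^ W := by
      rw [pow_one] at h2
      omega
    exact_mod_cast h3
  have h2 : 2 / (q : ℝ) ^ W ≤ 1 := (div_le_one (by linarith)).2 h1
  unfold q15_fac
  have h3 : 0 ≤ 2 / (q : ℝ) ^ W * |Real.cos (Real.pi * x)| := by positivity
  linarith

theorem q15_fac_le_one {q W : ℕ} (x : ℝ) : q15_fac q W x ≤ 1 := by
  unfold q15_fac
  have h1 : 2 / (q : ℝ) ^ W * |Real.cos (Real.pi * x)| ≤ 2 / (q : ℝ) ^ W * 1 :=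
    mul_le_mul_of_nonneg_left (Real.abs_cos_le_one _) (by positivity)
  linarith

theorem q15_prod {H : Type*} [AddCommGroup H] {q m : ℕ} (hq : 2 ≤ q) {e : ℕ → H}
    (he : ∀ a y s : ℕ, s < q ^ a → e (q ^ (a + m) * y + s) = e y + e s) {P R b W : ℕ}
    (hbP : P + 1 ≤ q ^ b) (hbR : R + 1 ≤ q ^ b)
    (hWP : P * q ^ (m + (b + 1)) + P + 1 ≤ q ^ W) (hWR : R * q ^ (m + (b + 1)) + R + 1 ≤ q ^ W)
    (hW : m + (b + 1) < W + m) (n : ℕ) : ∀ γ : ℝ,
    q15_Bd q P R e ((W + m) * n) γ (∏ i ∈ Finset.range n,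
      q15_fac q (W + m) (γ * q ^ ((W + m) * i) * (q ^ (m + b) * (q - 1)))) := by
  induction n with
  | zero =>
    intro γ
    simpa using q15_zero q P R e γ
  | succ n ih =>
    intro γ
    have h1 := q15_step hq he hbP hbR hWP hWR hW
      (Finset.prod_nonneg fun i _ => q15_fac_nonneg hq (by omega) _) (ih (γ * q ^ (W + m)))
    have e1 : (W + m) * (n + 1) = W + m + (W + m) * n := by ring
    rw [e1, Finset.prod_range_succ']
    have e2 : q15_fac q (W + m) (γ * q ^ ((W + m) * 0) * (q ^ (m + b) * (q - 1)))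
        = 1 - 2 / (q : ℝ) ^ (W + m) + 2 / (q : ℝ) ^ (W + m) *
          |Real.cos (Real.pi * (γ * (q ^ (m + b) * (q - 1))))| := by
      unfold q15_fac
      simp
    have e3 : ∏ i ∈ Finset.range n,
        q15_fac q (W + m) (γ * q ^ ((W + m) * (i + 1)) * (q ^ (m + b) * (q - 1)))
        = ∏ i ∈ Finset.range n,
        q15_fac q (W + m) (γ * q ^ (W + m) * q ^ ((W + m) * i) * (q ^ (m + b) * (q - 1))) := by
      refine Finset.prod_congr rfl fun i _ => ?_
      congr 1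
      ring
    rw [e2, e3]
    rw [mul_comm (1 - 2 / (q : ℝ) ^ (W + m) + 2 / (q : ℝ) ^ (W + m) *
      |Real.cos (Real.pi * (γ * (q ^ (m + b) * (q - 1))))|)] at h1
    exact h1

/-- an irrational number times powers of `Q` is infinitely often far from the integers -/
theorem q15_far {Q : ℕ} (hQ : 2 ≤ Q) {γ : ℝ} (hγ : Irrational γ) (i₀ : ℕ) :
    ∃ i ≥ i₀, 1 / (2 * (Q : ℝ)) ≤ |γ * Q ^ i - round (γ * Q ^ i)| := by
  by_contra hcon
  push Not at hcon
  have hQ0 : (0 : ℝ) < Q := by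
    have : 0 < Q := by omega
    exact_mod_cast this
  set x : ℝ := γ * Q ^ i₀ with hx
  have key : ∀ j : ℕ, |γ * Q ^ (i₀ + j) - round (γ * Q ^ (i₀ + j))| = Q ^ j * |x - round x| := by
    intro j
    induction j with
    | zero => simp [hx]
    | succ j ih =>
      have h1 := hcon (i₀ + j) (by omega)
      set t : ℝ := γ * Q ^ (i₀ + j) with ht
      have h2 : γ * Q ^ (i₀ + (j + 1)) = Q * t := by
        rw [ht]
        ring
      have h3 : |(Q : ℝ) * t - ((Q * round t : ℤ) : ℝ)| < 1 / 2 := by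
        have : (Q : ℝ) * t - ((Q * round t : ℤ) : ℝ) = Q * (t - round t) := by
          push_cast
          ring
        rw [this, abs_mul, abs_of_pos hQ0]
        calc (Q : ℝ) * |t - round t| < Q * (1 / (2 * Q)) := mul_lt_mul_of_pos_left h1 hQ0
          _ = 1 / 2 := by
            field_simp
      have h4 : round ((Q : ℝ) * t) = Q * round t := by
        rw [round_eq, Int.floor_eq_iff]
        have := abs_lt.1 h3
        constructor <;> linarith
      rw [h2, h4]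
      have : (Q : ℝ) * t - ((Q * round t : ℤ) : ℝ) = Q * (t - round t) := by
        push_cast
        ring
      rw [this, abs_mul, abs_of_pos hQ0, ih, pow_succ]
      ring
  have h0 : |x - round x| = 0 := by
    by_contra hne
    have hpos : 0 < |x - round x| := lt_of_le_of_ne (abs_nonneg _) (Ne.symm hne)
    obtain ⟨j, hj⟩ := pow_unbounded_of_one_lt (1 / |x - round x|)
      (show (1 : ℝ) < Q by
        have : 1 < Q := by omega
        exact_mod_cast this)
    have h1 : 1 < (Q : ℝ) ^ j * |x - round x| := (div_lt_iff₀ hpos).1 hj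
    rw [← key j] at h1
    have h2 := abs_sub_round (γ * (Q : ℝ) ^ (i₀ + j))
    linarith
  have h1 : x = round x := by
    have := abs_eq_zero.1 h0
    linarith
  have hirr : Irrational x := by
    rw [hx]
    have : ((Q ^ i₀ : ℕ) : ℝ) = (Q : ℝ) ^ i₀ := by push_cast; rfl
    rw [← this]
    exact hγ.mul_natCast (by positivity)
  exact hirr ⟨(round x : ℚ), by
    rw [h1]
    push_cast
    simp⟩

theorem q15_cos {x δ : ℝ} (hδ0 : 0 ≤ δ) (hδ : δ ≤ |x - round x|) :
    |Real.cos (Real.pi * x)| ≤ Real.cos (Real.pi * δ) := by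
  have h1 : |Real.cos (Real.pi * x)| = |Real.cos (Real.pi * |x - round x|)| := by
    have h2 : Real.cos (Real.pi * |x - round x|) = Real.cos (Real.pi * x - round x * Real.pi) := by
      rw [← Real.cos_abs (Real.pi * x - round x * Real.pi)]
      congr 1
      rw [show Real.pi * x - round x * Real.pi = Real.pi * (x - round x) by ring, abs_mul,
        abs_of_pos Real.pi_pos]
    rw [h2, Real.cos_sub_int_mul_pi, abs_mul]
    simp
  have h3 := abs_sub_round x
  have h4 : 0 ≤ |x - round x| := abs_nonneg _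
  have h5 : 0 ≤ Real.cos (Real.pi * |x - round x|) := by
    refine Real.cos_nonneg_of_mem_Icc ⟨?_, ?_⟩
    · have := Real.pi_pos
      nlinarith
    · have := Real.pi_pos
      nlinarith
  rw [h1, abs_of_nonneg h5]
  refine Real.cos_le_cos_of_nonneg_of_le_pi ?_ ?_ ?_
  · have := Real.pi_pos
    positivity
  · have := Real.pi_pos
    nlinarith
  · exact mul_le_mul_of_nonneg_left hδ Real.pi_pos.le

theorem q15_tend {Q : ℕ} (hQ : 2 ≤ Q) {γ : ℝ} (hγ : Irrational γ) {ρ : ℝ} {f : ℝ → ℝ}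
    (hf0 : ∀ x, 0 ≤ f x) (hf1 : ∀ x, f x ≤ 1) (hρ0 : 0 ≤ ρ)
    (hf : ∀ x : ℝ, 1 / (2 * (Q : ℝ)) ≤ |x - round x| → f x ≤ ρ) (j : ℕ) :
    ∃ n₀ : ℕ, ∀ n ≥ n₀, ∏ i ∈ Finset.range n, f (γ * Q ^ i) ≤ ρ ^ j := by
  have hmono : ∀ a b : ℕ, a ≤ b →
      ∏ i ∈ Finset.range b, f (γ * Q ^ i) ≤ ∏ i ∈ Finset.range a, f (γ * Q ^ i) := by
    intro a b hab
    induction b, hab using Nat.le_induction with
    | base => exact le_rfl
    | succ b _ ih =>
      rw [Finset.prod_range_succ]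
      have h1 : 0 ≤ ∏ i ∈ Finset.range b, f (γ * Q ^ i) := Finset.prod_nonneg fun i _ => hf0 _
      calc (∏ i ∈ Finset.range b, f (γ * Q ^ i)) * f (γ * Q ^ b)
          ≤ (∏ i ∈ Finset.range b, f (γ * Q ^ i)) * 1 := mul_le_mul_of_nonneg_left (hf1 _) h1
        _ = ∏ i ∈ Finset.range b, f (γ * Q ^ i) := mul_one _
        _ ≤ _ := ih
  induction j with
  | zero =>
    refine ⟨0, fun n _ => ?_⟩
    rw [pow_zero]
    exact Finset.prod_le_one (fun i _ => hf0 _) (fun i _ => hf1 _)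
  | succ j ih =>
    obtain ⟨n₀, hn₀⟩ := ih
    obtain ⟨i, hi, hfar⟩ := q15_far hQ hγ n₀
    refine ⟨i + 1, fun n hn => (hmono _ _ hn).trans ?_⟩
    rw [Finset.prod_range_succ, pow_succ]
    exact mul_le_mul (hn₀ i hi) (hf _ hfar) (hf0 _) (pow_nonneg hρ0 _)

theorem twist {H : Type*} [AddCommGroup H] {q m : ℕ} (hq : 2 ≤ q) {e : ℕ → H}
    (he : ∀ a y s : ℕ, s < q ^ a → e (q ^ (a + m) * y + s) = e y + e s) {P R : ℕ} (hP : 1 ≤ P)
    (hR : 1 ≤ R) {β : ℝ} (hβ : Irrational β) {ε : ℝ} (hε : 0 < ε) :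
    ∀ᶠ k : ℕ in atTop, ∀ y : ℕ, ∀ F : H → H → ℝ, (∀ x x', |F x x'| ≤ 1) → ∀ θ : ℝ,
      |av q k (fun n => Real.cos (2 * Real.pi * (β * n + θ)) *
        F (e (P * (q ^ k * y + n))) (e (R * (q ^ k * y + n))))| ≤ ε := by
  have _ := hP
  have _ := hR
  -- parameters
  obtain ⟨b, hb⟩ : ∃ b, b = P + R := ⟨_, rfl⟩
  obtain ⟨W, hW⟩ : ∃ W, W = m + (b + 1) + (P + R + 1) := ⟨_, rfl⟩
  have hpw : ∀ t : ℕ, t + 1 ≤ q ^ t := fun t => Nat.lt_pow_self (by omega)
  have hbP : P + 1 ≤ q ^ b := by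
    have := hpw b
    omega
  have hbR : R + 1 ≤ q ^ b := by
    have := hpw b
    omega
  have hpos := qpow_pos hq (m + (b + 1))
  have hWW : q ^ (m + (b + 1)) * (P + R + 1 + 1) ≤ q ^ W := by
    rw [hW, pow_add q (m + (b + 1))]
    exact Nat.mul_le_mul_left _ (hpw (P + R + 1))
  have hX : P + R + 2 ≤ q ^ (m + (b + 1)) := by
    have := hpw (m + (b + 1))
    omega
  have hWP : P * q ^ (m + (b + 1)) + P + 1 ≤ q ^ W := by
    refine le_trans ?_ hWW
    nlinarith
  have hWR : R * q ^ (m + (b + 1)) + R + 1 ≤ q ^ W := by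
    refine le_trans ?_ hWW
    nlinarith
  have hWm : m + (b + 1) < W + m := by omega
  -- contraction
  obtain ⟨Q, hQ⟩ : ∃ Q, Q = q ^ (W + m) := ⟨_, rfl⟩
  have hQ2 : 2 ≤ Q := by
    have := hpw (W + m)
    omega
  obtain ⟨γ, hγ⟩ : ∃ γ : ℝ, γ = β * (q ^ (m + b) * (q - 1)) := ⟨_, rfl⟩
  have hγi : Irrational γ := by
    have h1 : ((q ^ (m + b) * (q - 1) : ℕ) : ℝ) = (q : ℝ) ^ (m + b) * (q - 1) := by
      have : ((q - 1 : ℕ) : ℝ) = (q : ℝ) - 1 := by
        rw [Nat.cast_sub (by omega)]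
        simp
      push_cast
      rw [this]
    rw [hγ, ← h1]
    refine hβ.mul_natCast ?_
    have h2 := qpow_pos hq (m + b)
    have h3 : 0 < q - 1 := by omega
    positivity
  obtain ⟨δ, hδ⟩ : ∃ δ : ℝ, δ = 1 / (2 * (Q : ℝ)) := ⟨_, rfl⟩
  have hQR : (2 : ℝ) ≤ Q := by exact_mod_cast hQ2
  have hδ0 : 0 < δ := by
    rw [hδ]
    positivity
  have hδ1 : δ ≤ 1 := by
    rw [hδ, div_le_one (by positivity)]
    linarith
  obtain ⟨ρ, hρ⟩ : ∃ ρ : ℝ, ρ = 1 - 2 / (Q : ℝ) + 2 / (Q : ℝ) * Real.cos (Real.pi * δ) :=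
    ⟨_, rfl⟩
  have hcos1 : Real.cos (Real.pi * δ) < 1 := by
    have h1 := Real.cos_lt_cos_of_nonneg_of_le_pi (x := 0) (y := Real.pi * δ) le_rfl
      (by nlinarith [Real.pi_pos]) (by positivity)
    rwa [Real.cos_zero] at h1
  have hcos0 : 0 ≤ Real.cos (Real.pi * δ) := by
    refine Real.cos_nonneg_of_mem_Icc ⟨?_, ?_⟩
    · nlinarith [Real.pi_pos]
    · have : δ ≤ 1 / 2 := by
        rw [hδ]
        exact div_le_div_of_nonneg_left (by norm_num) (by norm_num) (by linarith)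
      nlinarith [Real.pi_pos]
  have hρ0 : 0 ≤ ρ := by
    have h1 : 2 / (Q : ℝ) ≤ 1 := (div_le_one (by linarith)).2 hQR
    have h2 : 0 ≤ 2 / (Q : ℝ) * Real.cos (Real.pi * δ) := by positivity
    rw [hρ]
    linarith
  have hρ1 : ρ < 1 := by
    have h2 : 2 / (Q : ℝ) * Real.cos (Real.pi * δ) < 2 / (Q : ℝ) * 1 :=
      mul_lt_mul_of_pos_left hcos1 (by positivity)
    rw [hρ]
    linarith
  have hQcast : (Q : ℝ) = (q : ℝ) ^ (W + m) := by
    rw [hQ]
    push_cast
    rfl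
  obtain ⟨j, hj⟩ := exists_pow_lt_of_lt_one hε hρ1
  obtain ⟨n₀, hn₀⟩ := q15_tend hQ2 hγi (f := q15_fac q (W + m))
    (fun x => q15_fac_nonneg hq (by omega) x) (fun x => q15_fac_le_one x) hρ0
    (fun x hx => by
      unfold q15_fac
      rw [hρ, ← hQcast]
      rw [← hδ] at hx
      have := q15_cos hδ0.le hx
      have h2 : 2 / (Q : ℝ) * |Real.cos (Real.pi * x)| ≤ 2 / (Q : ℝ) * Real.cos (Real.pi * δ) :=
        mul_le_mul_of_nonneg_left this (by positivity)
      linarith) j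
  filter_upwards [eventually_ge_atTop ((W + m) * n₀)] with k hk y F hF θ
  -- split off the top digits
  obtain ⟨n, hn⟩ : ∃ n, n = k / (W + m) := ⟨_, rfl⟩
  have hWm0 : 0 < W + m := by omega
  have hnn : n₀ ≤ n := by
    rw [hn, Nat.le_div_iff_mul_le hWm0, Nat.mul_comm]
    exact hk
  obtain ⟨l, hl⟩ : ∃ l, k = (W + m) * n + l :=
    ⟨k % (W + m), by rw [hn]; exact (Nat.div_add_mod k (W + m)).symm⟩
  have hbd := q15_prod hq he hbP hbR hWP hWR hWm n β
  have hprod : ∏ i ∈ Finset.range n,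
      q15_fac q (W + m) (β * q ^ ((W + m) * i) * (q ^ (m + b) * (q - 1))) ≤ ε := by
    refine le_trans (le_of_eq ?_) ((hn₀ n hnn).trans hj.le)
    refine Finset.prod_congr rfl fun i _ => ?_
    congr 1
    rw [hγ, hQcast, ← pow_mul]
    ring
  rw [hl, av_split]
  unfold cnd
  rw [av_swap]
  refine abs_av_le hq fun t _ => ?_
  refine le_trans (le_of_eq ?_) ((hbd 0 (q ^ l * y + t) 0 0 0 0 (Nat.zero_le _) (Nat.zero_le _)
    (by simp) (by simp) F hF (β * q ^ ((W + m) * n) * t + θ)).trans hprod)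
  congr 1
  refine av_congr fun s _ => ?_
  have e1 : q ^ 0 * (P * (q ^ ((W + m) * n) * (q ^ l * y + t) + s) + 0) + 0
      = P * (q ^ ((W + m) * n + l) * y + (q ^ ((W + m) * n) * t + s)) := by
    rw [pow_add q ((W + m) * n) l]
    ring
  have e2 : q ^ 0 * (R * (q ^ ((W + m) * n) * (q ^ l * y + t) + s) + 0) + 0
      = R * (q ^ ((W + m) * n + l) * y + (q ^ ((W + m) * n) * t + s)) := by
    rw [pow_add q ((W + m) * n) l]
    ring
  have e3 : 2 * Real.pi * (β * ((q ^ ((W + m) * n) * t + s : ℕ) : ℝ) + θ)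
      = 2 * Real.pi * (β * (s : ℝ) + (β * q ^ ((W + m) * n) * t + θ)) := by
    push_cast
    ring
  beta_reduce
  rw [e1, e2, e3]

end Pool.Agent.Lib.MP_3e612f_nt.QA
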