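import Pool.Agent.Lib.MP_3e612f_nt.QCen
import Pool.Agent.Lib.MP_3e612f_nt.QTwist
import Pool.Agent.Lib.MP_3e612f_nt.QLattice
import Pool.Agent.Lib.MP_3e612f_nt.MuAP

/-!
The Möbius function is orthogonal, in logarithmic averages, to every bounded function of a
quasi-additive function, twisted by an arbitrary rotation.
-/

set_option autoImplicit false

namespace Pool.Agent.Lib.MP_3e612f_nt.QA

open Filter Topology

variable {d : ℕ}

theorem class_gen {q m : ℕ} (hq : 2 ≤ q) {e : ℕ → Fin d → ℤ} {C : ℝ} (he : QV q m e C)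
    (hgen : AddSubgroup.closure (Set.range e) = ⊤) (h a : ℕ) {g : (Fin d → ℤ) → ℝ}
    (hg : ∀ x, |g x| ≤ 1) :
    Tendsto (LogAvg fun n => mu n * (if n % (q ^ h * (q - 1)) = a then g (e n) else 0))
      atTop (𝓝 0) := by
  have h1 : Tendsto (LogAvg fun n => mu n * cen q h a e g n) atTop (𝓝 0) :=
    katai_log' (abs_cen_le hq hg) (K := 2 * q ^ m) fun ε hε => cen_katai hq he hgen h a hg hε
  have hslow : Tendsto (fun κ => |mean q (κ + 1) e g a - mean q κ e g a|) atTop (𝓝 0) := by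
    rw [Metric.tendsto_nhds]
    intro ε hε
    filter_upwards [mean_slow hq he hgen (half_pos hε)] with k hk
    rw [Real.dist_eq, sub_zero, abs_abs]
    linarith [hk g a hg]
  have hM : 1 ≤ q ^ h * (q - 1) := Nat.mul_pos (by positivity) (by omega)
  have h2 := slow_tendsto_q (q := q) (Q := q ^ h * (q - 1)) (a := a) hq
    (DS.mu_ap_bounded _ _ hM) (M := fun κ => mean q κ e g a)
    (fun κ => mean_abs hq hg a) hslow
  have h3 := h1.add h2
  rw [add_zero] at h3
  refine h3.congr fun N => ?_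
  rw [← LogAvg_add]
  refine LogAvg_congr fun n _ _ => ?_
  unfold cen
  split_ifs
  · ring
  · ring

theorem class_main {q m : ℕ} (hq : 2 ≤ q) {e : ℕ → Fin d → ℤ} {C : ℝ} (he : QV q m e C)
    (h a : ℕ) {g : (Fin d → ℤ) → ℝ} (hg : ∀ x, |g x| ≤ 1) :
    Tendsto (LogAvg fun n => mu n * (if n % (q ^ h * (q - 1)) = a then g (e n) else 0))
      atTop (𝓝 0) := by
  obtain ⟨l, e', C', ι, he', hgen, hι⟩ := exists_coords hq he
  have := class_gen hq he' hgen h a (g := fun x => g (ι x)) (fun x => hg _)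
  simpa only [← hι] using this

theorem exists_base {q Q : ℕ} (hq : 2 ≤ q) (hQ : 1 ≤ Q) :
    ∃ w h : ℕ, 1 ≤ w ∧ Q ∣ (q ^ w) ^ h * (q ^ w - 1) := by
  have hni : ¬ Function.Injective (fun i : ℕ => (⟨q ^ i % Q, Nat.mod_lt _ hQ⟩ : Fin Q)) :=
    not_injective_infinite_finite _
  rw [Function.not_injective_iff] at hni
  obtain ⟨i, j, hij, hne⟩ := hni
  have hij' : q ^ i % Q = q ^ j % Q := by
    have := congrArg Fin.val hij
    exact this
  -- order the two exponents
  have key : ∀ i j : ℕ, i < j → q ^ i % Q = q ^ j % Q →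
      ∃ w h : ℕ, 1 ≤ w ∧ Q ∣ (q ^ w) ^ h * (q ^ w - 1) := by
    intro i j hlt heq
    refine ⟨j - i, i, by omega, ?_⟩
    have h1 : Q ∣ q ^ j - q ^ i := (Nat.modEq_iff_dvd' (Nat.pow_le_pow_right (by omega)
      hlt.le)).mp heq
    have h2 : q ^ j - q ^ i = q ^ i * (q ^ (j - i) - 1) := by
      rw [Nat.mul_sub, ← pow_add, mul_one]
      congr 2
      omega
    rw [h2] at h1
    refine h1.trans (Nat.mul_dvd_mul_right ?_ _)
    rw [← pow_mul]
    refine pow_dvd_pow q ?_
    have : 1 ≤ j - i := by omega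
    nlinarith
  rcases lt_or_gt_of_ne hne with h1 | h1
  · exact key i j h1 hij'
  · exact key j i h1 hij'.symm

theorem LogAvg_finset_sum {ι : Type*} (s : Finset ι) (u : ι → ℕ → ℝ) (N : ℕ) :
    LogAvg (fun n => ∑ i ∈ s, u i n) N = ∑ i ∈ s, LogAvg (u i) N := by
  unfold LogAvg
  rw [← Finset.mul_sum]
  congr 1
  rw [Finset.sum_comm]
  refine Finset.sum_congr rfl fun n _ => ?_
  rw [Finset.sum_div]

theorem tendsto_finset {ι : Type*} (s : Finset ι) (u : ι → ℕ → ℝ)
    (h : ∀ i ∈ s, Tendsto (LogAvg (u i)) atTop (𝓝 0)) :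
    Tendsto (LogAvg fun n => ∑ i ∈ s, u i n) atTop (𝓝 0) := by
  have h1 : Tendsto (fun N => ∑ i ∈ s, LogAvg (u i) N) atTop (𝓝 (∑ i ∈ s, 0)) :=
    tendsto_finsetSum _ fun i hi => h i hi
  rw [Finset.sum_const_zero] at h1
  exact h1.congr fun N => (LogAvg_finset_sum s u N).symm

/-- all residue classes -/
theorem class_all {q m : ℕ} (hq : 2 ≤ q) {e : ℕ → Fin d → ℤ} {C : ℝ} (he : QV q m e C)
    {Q : ℕ} (hQ : 1 ≤ Q) (a : ℕ) {g : (Fin d → ℤ) → ℝ} (hg : ∀ x, |g x| ≤ 1) :
    Tendsto (LogAvg fun n => mu n * (if n % Q = a then g (e n) else 0)) atTop (𝓝 0) := by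
  obtain ⟨w, h, hw, hdvd⟩ := exists_base hq hQ
  obtain ⟨C', he'⟩ := QV.pow hq he hw
  have hqw : 2 ≤ q ^ w := by
    calc 2 ≤ q := hq
      _ = q ^ 1 := (pow_one q).symm
      _ ≤ q ^ w := Nat.pow_le_pow_right (by omega) hw
  set M := (q ^ w) ^ h * (q ^ w - 1) with hM
  have hM1 : 0 < M := Nat.mul_pos (by positivity) (by omega)
  have h1 := tendsto_finset ((Finset.range M).filter fun a' => a' % Q = a)
    (fun a' n => mu n * (if n % M = a' then g (e n) else 0))
    (fun a' _ => class_main hqw he' h a' hg)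
  refine h1.congr fun N => LogAvg_congr fun n _ _ => ?_
  rw [← Finset.mul_sum, Finset.sum_ite_eq]
  congr 1
  have hmem : n % M ∈ (Finset.range M).filter (fun a' => a' % Q = a) ↔ n % Q = a := by
    rw [Finset.mem_filter, Finset.mem_range, Nat.mod_mod_of_dvd _ hdvd]
    exact ⟨fun h => h.2, fun h => ⟨Nat.mod_lt _ hM1, h⟩⟩
  by_cases hn : n % Q = a
  · rw [if_pos (hmem.mpr hn), if_pos hn]
  · rw [if_neg (fun h => hn (hmem.mp h)), if_neg hn]

/-- irrational rotations -/
theorem twist_irr {q m : ℕ} (hq : 2 ≤ q) {e : ℕ → Fin d → ℤ} {C : ℝ} (he : QV q m e C)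
    {α : ℝ} (hα : Irrational α) (θ : ℝ) {g : (Fin d → ℤ) → ℝ} (hg : ∀ x, |g x| ≤ 1) :
    Tendsto (LogAvg fun n => mu n * (Real.cos (2 * Real.pi * (α * n + θ)) * g (e n)))
      atTop (𝓝 0) := by
  have hqR : (2 : ℝ) ≤ q := by exact_mod_cast hq
  refine katai_log' (K := 0) (b := fun n => Real.cos (2 * Real.pi * (α * n + θ)) * g (e n))
    (fun n => ?_) fun ε hε => ⟨1, fun p r hp hr _ _ hpr => ?_⟩
  · rw [abs_mul]
    have h1 := Real.abs_cos_le_one (2 * Real.pi * (α * n + θ))
    have h2 := mul_le_one₀ h1 (abs_nonneg _) (hg (e n))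
    linarith
  · have hpr' : r - p ≠ 0 := by omega
    have hβ : Irrational (α * ((r - p : ℕ) : ℝ)) := hα.mul_natCast hpr'
    have hβ' : Irrational (α * ((r + p : ℕ) : ℝ)) := hα.mul_natCast (by omega)
    have hblock := block_log (q := q) (M := 1) hq le_rfl
      (u := fun n => (Real.cos (2 * Real.pi * (α * ((p * n : ℕ) : ℝ) + θ)) * g (e (p * n))) *
        (Real.cos (2 * Real.pi * (α * ((r * n : ℕ) : ℝ) + θ)) * g (e (r * n)))) (A := 1)
      (fun n => by
        rw [abs_mul, abs_mul, abs_mul]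
        exact mul_le_one₀ (mul_le_one₀ (Real.abs_cos_le_one _) (abs_nonneg _) (hg _))
          (by positivity) (mul_le_one₀ (Real.abs_cos_le_one _) (abs_nonneg _) (hg _)))
      (η := 0) le_rfl (fun t ε₂ hε₂ => by
        filter_upwards [twist hq he.gap hp.one_le hr.one_le hβ hε₂,
          twist hq he.gap hp.one_le hr.one_le hβ' hε₂] with k hk1 hk2 y _ _ i hi
        have hi0 : i = 0 := by omega
        subst hi0
        have k1 := hk1 y (fun x x' => g x * g x') (fun x x' => by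
          rw [abs_mul]
          exact mul_le_one₀ (hg _) (abs_nonneg _) (hg _))
          (α * ((r - p : ℕ) : ℝ) * (q ^ k * y))
        have k2 := hk2 y (fun x x' => g x * g x') (fun x x' => by
          rw [abs_mul]
          exact mul_le_one₀ (hg _) (abs_nonneg _) (hg _))
          (α * ((r + p : ℕ) : ℝ) * (q ^ k * y) + 2 * θ)
        have e1 : (fun n : ℕ => (Real.cos (2 * Real.pi * (α * ((p * (1 * (q ^ k * y + n) + 0) : ℕ) : ℝ)
            + θ)) * g (e (p * (1 * (q ^ k * y + n) + 0)))) *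
            (Real.cos (2 * Real.pi * (α * ((r * (1 * (q ^ k * y + n) + 0) : ℕ) : ℝ) + θ)) *
              g (e (r * (1 * (q ^ k * y + n) + 0))))) = fun n : ℕ =>
            (Real.cos (2 * Real.pi * (α * ((r - p : ℕ) : ℝ) * n +
              α * ((r - p : ℕ) : ℝ) * (q ^ k * y))) *
              (g (e (p * (q ^ k * y + n))) * g (e (r * (q ^ k * y + n)))) +
            Real.cos (2 * Real.pi * (α * ((r + p : ℕ) : ℝ) * n +
              (α * ((r + p : ℕ) : ℝ) * (q ^ k * y) + 2 * θ))) *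
              (g (e (p * (q ^ k * y + n))) * g (e (r * (q ^ k * y + n))))) / 2 := by
          funext n
          have hc : ∀ A B : ℝ, Real.cos A * Real.cos B =
              (Real.cos (B - A) + Real.cos (B + A)) / 2 := fun A B => by
            rw [Real.cos_sub, Real.cos_add]
            ring
          rw [one_mul, add_zero, mul_mul_mul_comm, hc]
          have e2 : 2 * Real.pi * (α * ((r * (q ^ k * y + n) : ℕ) : ℝ) + θ) -
              2 * Real.pi * (α * ((p * (q ^ k * y + n) : ℕ) : ℝ) + θ) =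
              2 * Real.pi * (α * ((r - p : ℕ) : ℝ) * n + α * ((r - p : ℕ) : ℝ) * (q ^ k * y)) := by
            rw [Nat.cast_sub hpr.le]
            push_cast
            ring
          have e3 : 2 * Real.pi * (α * ((r * (q ^ k * y + n) : ℕ) : ℝ) + θ) +
              2 * Real.pi * (α * ((p * (q ^ k * y + n) : ℕ) : ℝ) + θ) =
              2 * Real.pi * (α * ((r + p : ℕ) : ℝ) * n +
                (α * ((r + p : ℕ) : ℝ) * (q ^ k * y) + 2 * θ)) := by
            push_cast
            ring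
          rw [e2, e3]
          ring
        rw [e1, av_div, av_add, abs_div, abs_of_pos (by norm_num : (0 : ℝ) < 2),
          div_le_iff₀ (by norm_num)]
        refine (abs_add_le _ _).trans ?_
        linarith) hε
    filter_upwards [hblock] with N hN
    rw [mul_zero, zero_add] at hN
    exact hN

/-- rational rotations -/
theorem twist_rat {q m : ℕ} (hq : 2 ≤ q) {e : ℕ → Fin d → ℤ} {C : ℝ} (he : QV q m e C)
    (α : ℚ) (θ : ℝ) {g : (Fin d → ℤ) → ℝ} (hg : ∀ x, |g x| ≤ 1) :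
    Tendsto (LogAvg fun n => mu n * (Real.cos (2 * Real.pi * (α * n + θ)) * g (e n)))
      atTop (𝓝 0) := by
  have hQ : 1 ≤ α.den := α.den_pos
  have h1 := tendsto_finset (Finset.range α.den)
    (fun a n => Real.cos (2 * Real.pi * (α * a + θ)) *
      (mu n * (if n % α.den = a then g (e n) else 0)))
    (fun a _ => by
      have h2 := (class_all hq he hQ a hg).const_mul (Real.cos (2 * Real.pi * (α * a + θ)))
      rw [mul_zero] at h2
      refine h2.congr fun N => ?_
      rw [LogAvg_const_mul])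
  refine h1.congr fun N => LogAvg_congr fun n _ _ => ?_
  have e1 : ∀ a : ℕ, Real.cos (2 * Real.pi * (α * a + θ)) *
      (mu n * (if n % α.den = a then g (e n) else 0)) =
      if n % α.den = a then mu n * (Real.cos (2 * Real.pi * (α * (n % α.den : ℕ) + θ)) * g (e n))
        else 0 := by
    intro a
    split_ifs with h
    · rw [h]
      ring
    · ring
  rw [Finset.sum_congr rfl fun a _ => e1 a, Finset.sum_ite_eq,
    if_pos (Finset.mem_range.mpr (Nat.mod_lt _ hQ))]
  congr 2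
  -- periodicity of the cosine
  obtain ⟨b, hb⟩ : ∃ b : ℕ, b = n / α.den := ⟨_, rfl⟩
  obtain ⟨c, hc⟩ : ∃ c : ℕ, c = n % α.den := ⟨_, rfl⟩
  have h3 : (n : ℝ) = α.den * b + c := by
    have := Nat.div_add_mod n α.den
    rw [← hb, ← hc] at this
    exact_mod_cast this.symm
  have h4 : (α : ℝ) * α.den = α.num := by
    exact_mod_cast Rat.mul_den_eq_num α
  rw [← hc]
  have h5 : 2 * Real.pi * (α * n + θ) = 2 * Real.pi * (α * c + θ) +
      ((α.num * (b : ℤ) : ℤ) : ℝ) * (2 * Real.pi) := by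
    rw [h3]
    push_cast
    have : (α : ℝ) * (α.den * b + c) = (α * α.den) * b + α * c := by ring
    rw [this, h4]
    ring
  rw [h5, Real.cos_add_int_mul_two_pi]

theorem twist_all {q m : ℕ} (hq : 2 ≤ q) {e : ℕ → Fin d → ℤ} {C : ℝ} (he : QV q m e C)
    (α θ : ℝ) {g : (Fin d → ℤ) → ℝ} {B : ℝ} (hg : ∀ x, |g x| ≤ B) :
    Tendsto (LogAvg fun n => mu n * (Real.cos (2 * Real.pi * (α * n + θ)) * g (e n)))
      atTop (𝓝 0) := by
  have hB : 0 ≤ B := (abs_nonneg _).trans (hg 0)
  have h1 : ∀ g' : (Fin d → ℤ) → ℝ, (∀ x, |g' x| ≤ 1) → Tendsto (LogAvg fun n =>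
      mu n * (Real.cos (2 * Real.pi * (α * n + θ)) * g' (e n))) atTop (𝓝 0) := by
    intro g' hg'
    by_cases hα : Irrational α
    · exact twist_irr hq he hα θ hg'
    · unfold Irrational at hα
      push Not at hα
      obtain ⟨x, hx⟩ := hα
      rw [← hx]
      exact twist_rat hq he x θ hg'
  have h2 := (h1 (fun x => g x / (B + 1)) (fun x => by
    rw [abs_div, abs_of_pos (by linarith : 0 < B + 1), div_le_one (by linarith)]
    linarith [hg x])).const_mul (B + 1)
  rw [mul_zero] at h2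
  refine h2.congr fun N => ?_
  rw [← LogAvg_const_mul]
  refine LogAvg_congr fun n _ _ => ?_
  have : B + 1 ≠ 0 := by linarith
  field_simp

theorem complex_main {q m : ℕ} (hq : 2 ≤ q) {e : ℕ → Fin d → ℤ} {C : ℝ} (he : QV q m e C)
    (α : ℝ) {Ψ : (Fin d → ℤ) → ℂ} {B : ℝ} (hΨ : ∀ x, ‖Ψ x‖ ≤ B) :
    Tendsto (fun N : ℕ => (1 / Real.log N : ℂ) * ∑ n ∈ Finset.Icc 1 N,
      Complex.exp (2 * Real.pi * Complex.I * (α * n)) * Ψ (e n) *
        (ArithmeticFunction.moebius n : ℂ) / n) atTop (𝓝 0) := by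
  have hre : ∀ x, |(Ψ x).re| ≤ B := fun x => (Complex.abs_re_le_norm _).trans (hΨ x)
  have him : ∀ x, |(Ψ x).im| ≤ B := fun x => (Complex.abs_im_le_norm _).trans (hΨ x)
  have t1 := twist_all hq he α 0 (g := fun x => (Ψ x).re) hre
  have t2 := twist_all hq he α (-(1 / 4)) (g := fun x => (Ψ x).im) him
  have t3 := twist_all hq he α 0 (g := fun x => (Ψ x).im) him
  have t4 := twist_all hq he α (-(1 / 4)) (g := fun x => (Ψ x).re) hre
  have r1 := t1.sub t2
  have r2 := t3.add t4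
  rw [sub_zero] at r1
  rw [add_zero] at r2
  have h1 : Tendsto (fun N : ℕ =>
      ((LogAvg (fun n => mu n * (Real.cos (2 * Real.pi * (α * n + 0)) * (Ψ (e n)).re)) N -
        LogAvg (fun n => mu n * (Real.cos (2 * Real.pi * (α * n + -(1 / 4))) *
          (Ψ (e n)).im)) N : ℝ) : ℂ) +
      ((LogAvg (fun n => mu n * (Real.cos (2 * Real.pi * (α * n + 0)) * (Ψ (e n)).im)) N +
        LogAvg (fun n => mu n * (Real.cos (2 * Real.pi * (α * n + -(1 / 4))) *
          (Ψ (e n)).re)) N : ℝ) : ℂ) * Complex.I) atTop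
      (𝓝 (((0 : ℝ) : ℂ) + ((0 : ℝ) : ℂ) * Complex.I)) :=
    ((Complex.continuous_ofReal.tendsto _).comp r1).add
      (((Complex.continuous_ofReal.tendsto _).comp r2).mul_const _)
  simp only [Complex.ofReal_zero, zero_mul, add_zero] at h1
  refine h1.congr fun N => ?_
  rw [← LogAvg_sub, ← LogAvg_add]
  unfold LogAvg
  push_cast
  rw [mul_assoc, ← mul_add, Finset.sum_mul, ← Finset.sum_add_distrib]
  congr 1
  refine Finset.sum_congr rfl fun n _ => ?_
  have e1 : Real.cos (2 * Real.pi * (α * n + -(1 / 4))) = Real.sin (2 * Real.pi * (α * n)) := by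
    rw [← Real.cos_sub_pi_div_two]
    congr 1
    ring
  have e2 : Complex.exp (2 * Real.pi * Complex.I * (α * n)) =
      (Real.cos (2 * Real.pi * (α * n)) : ℂ) + (Real.sin (2 * Real.pi * (α * n)) : ℂ) *
        Complex.I := by
    have h2 : (2 * Real.pi * Complex.I * (α * n) : ℂ) =
        ((2 * Real.pi * (α * n) : ℝ) : ℂ) * Complex.I := by
      push_cast
      ring
    rw [h2, Complex.exp_mul_I, Complex.ofReal_cos, Complex.ofReal_sin]
  have e3 := Complex.re_add_im (Ψ (e n))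
  have e4 : (mu n : ℂ) = (ArithmeticFunction.moebius n : ℂ) := by
    unfold mu
    push_cast
    rfl
  have e5 : Complex.cos (2 * (Real.pi : ℂ) * ((α : ℂ) * (n : ℂ) + -(1 / 4))) =
      (Real.sin (2 * Real.pi * (α * n)) : ℂ) := by
    rw [← e1]
    push_cast
    rfl
  have e6 : Complex.cos (2 * (Real.pi : ℂ) * ((α : ℂ) * (n : ℂ))) =
      (Real.cos (2 * Real.pi * (α * n)) : ℂ) := by
    push_cast
    rfl
  rw [e5, e6, e2, ← e4]
  conv_rhs => rw [← e3]
  set c : ℂ := (Real.cos (2 * Real.pi * (α * n)) : ℂ)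
  set t : ℂ := (Real.sin (2 * Real.pi * (α * n)) : ℂ)
  set x : ℂ := ((Ψ (e n)).re : ℂ)
  set y : ℂ := ((Ψ (e n)).im : ℂ)
  linear_combination (-((mu n : ℂ) * t * y / n)) * Complex.I_sq

end Pool.Agent.Lib.MP_3e612f_nt.QA
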