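import Pool.Agent.Lib.MP_3e612f_nt.QCov
import Pool.Agent.Lib.MP_3e612f_nt.QDefect

/-!
Task Q9: asymptotic independence of slowly varying functions of the two sides.
-/

set_option autoImplicit false

namespace Pool.Agent.Lib.MP_3e612f_nt.QA

open Filter Topology

/-- coordinates are quasi-additive -/
theorem q9_coord {q m d : ℕ} {e : ℕ → Fin d → ℤ} {C : ℝ} (he : QV q m e C) (i : Fin d) :
    QR q m (fun n => (e n i : ℝ)) C := by
  refine ⟨he.nonneg, ?_, ?_⟩
  · intro a y s hs
    have := he.gap a y s hs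
    simp only [this, Pi.add_apply, Int.cast_add]
  · intro a s hs
    exact he.growth a s hs i

/-- one step towards the origin -/
theorem q9_step {d : ℕ} (v : Fin d → ℤ) {N : ℕ} (hv : ∑ i, (v i).natAbs = N + 1) :
    ∃ (j : Fin d) (σ : ℤ), (σ = 1 ∨ σ = -1) ∧ ∑ i, ((v - Pi.single j σ : Fin d → ℤ) i).natAbs = N := by
  obtain ⟨j, hj⟩ : ∃ j, v j ≠ 0 := by
    by_contra h
    push Not at h
    simp [h] at hv
  have key : ∀ σ : ℤ, ((v j - σ).natAbs + 1 = (v j).natAbs) →
      ∑ i, ((v - Pi.single j σ : Fin d → ℤ) i).natAbs = N := by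
    intro σ hσ
    have h1 := Finset.add_sum_erase Finset.univ (fun i => (v i).natAbs) (Finset.mem_univ j)
    have h2 := Finset.add_sum_erase Finset.univ (fun i => ((v - Pi.single j σ : Fin d → ℤ) i).natAbs)
      (Finset.mem_univ j)
    have h3 : ∑ i ∈ Finset.univ.erase j, ((v - Pi.single j σ : Fin d → ℤ) i).natAbs =
        ∑ i ∈ Finset.univ.erase j, (v i).natAbs := by
      refine Finset.sum_congr rfl fun i hi => ?_
      have hij : i ≠ j := Finset.ne_of_mem_erase hi
      simp [hij]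
    simp only [Pi.sub_apply, Pi.single_eq_same] at h2
    have h3' : ∑ i ∈ Finset.univ.erase j, (v i - (Pi.single j σ : Fin d → ℤ) i).natAbs =
        ∑ i ∈ Finset.univ.erase j, (v i).natAbs := h3
    have h4 : ∑ i, (v i - (Pi.single j σ : Fin d → ℤ) i).natAbs = N := by omega
    exact h4
  rcases lt_or_gt_of_ne hj with hneg | hpos
  · exact ⟨j, -1, Or.inr rfl, key (-1) (by omega)⟩
  · exact ⟨j, 1, Or.inl rfl, key 1 (by omega)⟩

theorem q9_lip_gen {d : ℕ} {κ : ℝ} {f : (Fin d → ℤ) → ℝ}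
    (hf : ∀ x i, |f (x + Pi.single i 1) - f x| ≤ κ) (N : ℕ) : ∀ (x v : Fin d → ℤ),
    ∑ i, (v i).natAbs = N → |f (x + v) - f x| ≤ κ * N := by
  induction N with
  | zero =>
    intro x v hv
    have hv0 : v = 0 := by
      funext i
      have := Finset.sum_eq_zero_iff.mp hv i (Finset.mem_univ i)
      simpa using this
    simp [hv0]
  | succ N ih =>
    intro x v hv
    obtain ⟨j, σ, hσ, hN⟩ := q9_step v hv
    have h1 := ih x (v - Pi.single j σ) hN
    have h2 : |f (x + v) - f (x + (v - Pi.single j σ))| ≤ κ := by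
      rcases hσ with rfl | rfl
      · have h := hf (x + (v - Pi.single j 1)) j
        have e : x + (v - Pi.single j 1) + Pi.single j 1 = x + v := by abel
        rwa [e] at h
      · have h := hf (x + v) j
        have e : x + (v - Pi.single j (-1)) = x + v + Pi.single j 1 := by
          rw [Pi.single_neg]
          abel
        rw [e, abs_sub_comm]
        exact h
    have e : f (x + v) - f x = (f (x + v) - f (x + (v - Pi.single j σ))) +
        (f (x + (v - Pi.single j σ)) - f x) := by ring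
    rw [e]
    refine (abs_add_le _ _).trans ?_
    push_cast
    linarith

theorem q9_natAbs {d : ℕ} (v : Fin d → ℤ) :
    ((∑ i, (v i).natAbs : ℕ) : ℝ) = ∑ i, |(v i : ℝ)| := by
  push_cast
  refine Finset.sum_congr rfl fun i _ => ?_
  rw [Nat.cast_natAbs]
  push_cast
  rfl

theorem q9_lip {d : ℕ} {κ : ℝ} {f : (Fin d → ℤ) → ℝ}
    (hf : ∀ x i, |f (x + Pi.single i 1) - f x| ≤ κ) (x v : Fin d → ℤ) :
    |f (x + v) - f x| ≤ κ * ∑ i, |(v i : ℝ)| := by
  have h := q9_lip_gen hf _ x v rfl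
  rwa [q9_natAbs] at h

theorem q9_taylor_gen {d : ℕ} {δ : ℝ} {f : (Fin d → ℤ) → ℝ} (hf : Slow δ f) (N : ℕ) :
    ∀ (x v : Fin d → ℤ), ∑ i, (v i).natAbs = N →
    |f (x + v) - f x - ∑ j, (f (x + Pi.single j 1) - f x) * (v j : ℝ)| ≤ δ ^ 2 * N ^ 2 := by
  induction N with
  | zero =>
    intro x v hv
    have hv0 : v = 0 := by
      funext i
      have := Finset.sum_eq_zero_iff.mp hv i (Finset.mem_univ i)
      simpa using this
    simp [hv0]
  | succ N ih =>
    intro x v hv
    obtain ⟨j, σ, hσ, hN⟩ := q9_step v hv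
    have h1 := ih x (v - Pi.single j σ) hN
    -- the first difference in direction j
    have hfj : ∀ y i, |(fun y => f (y + Pi.single j 1) - f y) (y + Pi.single i 1) -
        (fun y => f (y + Pi.single j 1) - f y) y| ≤ δ ^ 2 := by
      intro y i
      have h := hf.2.2 y i j
      have e : (fun y => f (y + Pi.single j 1) - f y) (y + Pi.single i 1) -
        (fun y => f (y + Pi.single j 1) - f y) y =
        f (y + Pi.single i 1 + Pi.single j 1) - f (y + Pi.single i 1) -
        f (y + Pi.single j 1) + f y := by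
        simp only
        ring
      rw [e]
      exact h
    have hsum : ∑ i, (f (x + Pi.single i 1) - f x) * (v i : ℝ) =
        ∑ i, (f (x + Pi.single i 1) - f x) * (((v - Pi.single j σ : Fin d → ℤ) i : ℤ) : ℝ) +
          (f (x + Pi.single j 1) - f x) * (σ : ℝ) := by
      have h2 : ∀ i, (f (x + Pi.single i 1) - f x) * (v i : ℝ) =
          (f (x + Pi.single i 1) - f x) * (((v - Pi.single j σ : Fin d → ℤ) i : ℤ) : ℝ) +
          (if i = j then (f (x + Pi.single j 1) - f x) * (σ : ℝ) else 0) := by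
        intro i
        by_cases hij : i = j
        · subst hij
          simp only [Pi.sub_apply, Pi.single_eq_same, if_true]
          push_cast
          ring
        · simp [hij]
      rw [Finset.sum_congr rfl fun i _ => h2 i, Finset.sum_add_distrib]
      simp
    have hδ : 0 ≤ δ ^ 2 := sq_nonneg _
    have h3 : |f (x + v) - f (x + (v - Pi.single j σ)) -
        (f (x + Pi.single j 1) - f x) * (σ : ℝ)| ≤ δ ^ 2 * (N + 1) := by
      rcases hσ with rfl | rfl
      · have h := q9_lip_gen (f := fun y => f (y + Pi.single j 1) - f y) hfj N x (v - Pi.single j 1) hN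
        have e : x + (v - Pi.single j 1) + Pi.single j 1 = x + v := by abel
        rw [e] at h
        have e2 : f (x + v) - f (x + (v - Pi.single j 1)) -
            (f (x + Pi.single j 1) - f x) * ((1 : ℤ) : ℝ) =
            f (x + v) - f (x + (v - Pi.single j 1)) - (f (x + Pi.single j 1) - f x) := by
          push_cast
          ring
        rw [e2]
        nlinarith
      · have h := q9_lip_gen (f := fun y => f (y + Pi.single j 1) - f y) hfj (N + 1) x v hv
        have e : x + (v - Pi.single j (-1)) = x + v + Pi.single j 1 := by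
          rw [Pi.single_neg]
          abel
        rw [e]
        have e2 : f (x + v) - f (x + v + Pi.single j 1) -
            (f (x + Pi.single j 1) - f x) * ((-1 : ℤ) : ℝ) =
            -(f (x + v + Pi.single j 1) - f (x + v) - (f (x + Pi.single j 1) - f x)) := by
          push_cast
          ring
        rw [e2, abs_neg]
        push_cast at h
        exact h
    rw [hsum]
    have e : f (x + v) - f x - (∑ i, (f (x + Pi.single i 1) - f x) *
        (((v - Pi.single j σ : Fin d → ℤ) i : ℤ) : ℝ) + (f (x + Pi.single j 1) - f x) * (σ : ℝ)) =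
        (f (x + (v - Pi.single j σ)) - f x - ∑ i, (f (x + Pi.single i 1) - f x) *
        (((v - Pi.single j σ : Fin d → ℤ) i : ℤ) : ℝ)) + (f (x + v) - f (x + (v - Pi.single j σ)) -
        (f (x + Pi.single j 1) - f x) * (σ : ℝ)) := by ring
    rw [e]
    refine (abs_add_le _ _).trans ?_
    push_cast
    nlinarith

theorem q9_taylor {d : ℕ} {δ : ℝ} {f : (Fin d → ℤ) → ℝ} (hf : Slow δ f) (x v : Fin d → ℤ) :
    |f (x + v) - f x - ∑ j, (f (x + Pi.single j 1) - f x) * (v j : ℝ)| ≤
      δ ^ 2 * (∑ i, |(v i : ℝ)|) ^ 2 := by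
  have h := q9_taylor_gen hf _ x v rfl
  rwa [q9_natAbs] at h

/-- averages of translates are slowly varying -/
theorem q9_slow_av {q d : ℕ} (hq : 2 ≤ q) {δ : ℝ} {G : (Fin d → ℤ) → ℝ} (hG : Slow δ G)
    (l : ℕ) (e : ℕ → Fin d → ℤ) : Slow δ (fun z => av q l (fun y => G (e y + z))) := by
  refine ⟨?_, ?_, ?_⟩
  · intro x
    exact abs_av_le hq fun n _ => hG.1 _
  · intro x i
    simp only
    rw [← av_sub]
    refine abs_av_le hq fun n _ => ?_
    rw [← add_assoc]
    exact hG.2.1 _ _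
  · intro x i j
    simp only
    rw [← av_sub, ← av_sub, ← av_add]
    refine abs_av_le hq fun n _ => ?_
    simp only [← add_assoc]
    exact hG.2.2 _ _ _


/-- digits of a multiple -/
theorem q9_digits {q : ℕ} (hq : 2 ≤ q) (P a W x s : ℕ) :
    P * (q ^ a * x + s) % q ^ (a + W) =
      q ^ a * ((P * x + P * s / q ^ a) % q ^ W) + P * s % q ^ a := by
  have hpos := qpow_pos hq a
  have h1 : P * (q ^ a * x + s) = q ^ a * (P * x + P * s / q ^ a) + P * s % q ^ a := by
    have := Nat.div_add_mod (P * s) (q ^ a)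
    calc P * (q ^ a * x + s) = q ^ a * (P * x) + P * s := by ring
      _ = q ^ a * (P * x) + (q ^ a * (P * s / q ^ a) + P * s % q ^ a) := by rw [this]
      _ = _ := by ring
  rw [h1, pow_add, Nat.mod_mul, Nat.mul_add_mod, Nat.mod_mod,
    Nat.mul_add_div hpos, Nat.div_eq_of_lt (Nat.mod_lt _ hpos), add_zero, add_comm]

theorem q9_pointwise {q m d : ℕ} (hq : 2 ≤ q) {e : ℕ → Fin d → ℤ} {C : ℝ} (he : QV q m e C)
    {δ : ℝ} (hδ : 0 ≤ δ) {G : (Fin d → ℤ) → ℝ} (hG : Slow δ G) (a W l x' s1 v : ℕ)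
    (hv : v < q ^ W) :
    |av q l (fun y => G (e (q ^ (a + W) * y + (q ^ a * x' + s1)))) -
        av q l (fun y => G (e y + e s1)) -
        ∑ j, (av q l (fun y => G (e y + (e s1 + Pi.single j 1))) -
          av q l (fun y => G (e y + e s1))) * (e v j : ℝ)| ≤
      δ * ∑ j, av q l (fun y => |dfc (fun n => (e n j : ℝ)) q (a + W) y (q ^ a * x' + s1)|) +
        δ * ∑ j, |dfc (fun n => (e n j : ℝ)) q a x' s1| +
        δ * ∑ j, |(e x' j : ℝ) - (e v j : ℝ)| + δ ^ 2 * (d * (C * (W + 1))) ^ 2 := by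
  set Wc : (Fin d → ℤ) → ℝ := fun z => av q l (fun y => G (e y + z)) with hWc
  have hW : Slow δ Wc := q9_slow_av hq hG l e
  have t1 : |av q l (fun y => G (e (q ^ (a + W) * y + (q ^ a * x' + s1)))) -
      Wc (e x' + e s1)| ≤
      δ * ∑ j, av q l (fun y => |dfc (fun n => (e n j : ℝ)) q (a + W) y (q ^ a * x' + s1)|) +
        δ * ∑ j, |dfc (fun n => (e n j : ℝ)) q a x' s1| := by
    have h1 : |av q l (fun y => G (e (q ^ (a + W) * y + (q ^ a * x' + s1)))) -
        Wc (e x' + e s1)| ≤ av q l (fun y => δ * ∑ j,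
          (|dfc (fun n => (e n j : ℝ)) q (a + W) y (q ^ a * x' + s1)| +
            |dfc (fun n => (e n j : ℝ)) q a x' s1|)) := by
      rw [hWc]
      simp only
      rw [← av_sub]
      refine (abs_av_le_av _ _ _).trans (av_mono fun y _ => ?_)
      have h2 := q9_lip hG.2.1 (e y + (e x' + e s1))
        (e (q ^ (a + W) * y + (q ^ a * x' + s1)) - (e y + (e x' + e s1)))
      rw [add_sub_cancel] at h2
      refine h2.trans (mul_le_mul_of_nonneg_left (Finset.sum_le_sum fun j _ => ?_) hδ)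
      have h3 : (((e (q ^ (a + W) * y + (q ^ a * x' + s1)) - (e y + (e x' + e s1)) : Fin d → ℤ)
          j : ℤ) : ℝ) = dfc (fun n => (e n j : ℝ)) q (a + W) y (q ^ a * x' + s1) +
          dfc (fun n => (e n j : ℝ)) q a x' s1 := by
        simp only [dfc, Pi.sub_apply, Pi.add_apply]
        push_cast
        ring
      rw [h3]
      exact abs_add_le _ _
    refine h1.trans (le_of_eq ?_)
    rw [av_const_mul, av_finset_sum, ← mul_add, ← Finset.sum_add_distrib]
    congr 1
    refine Finset.sum_congr rfl fun j _ => ?_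
    rw [av_add, av_const hq]
  have t2 : |Wc (e x' + e s1) - Wc (e s1 + e v)| ≤ δ * ∑ j, |(e x' j : ℝ) - (e v j : ℝ)| := by
    have h2 := q9_lip hW.2.1 (e s1 + e v) (e x' - e v)
    have h3 : e s1 + e v + (e x' - e v) = e x' + e s1 := by abel
    rw [h3] at h2
    refine h2.trans (le_of_eq ?_)
    congr 1
    refine Finset.sum_congr rfl fun j _ => ?_
    simp only [Pi.sub_apply]
    push_cast
    rfl
  have t3 : |Wc (e s1 + e v) - Wc (e s1) - ∑ j, (Wc (e s1 + Pi.single j 1) - Wc (e s1)) *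
      (e v j : ℝ)| ≤ δ ^ 2 * (d * (C * (W + 1))) ^ 2 := by
    refine (q9_taylor hW (e s1) (e v)).trans ?_
    refine mul_le_mul_of_nonneg_left ?_ (sq_nonneg _)
    refine pow_le_pow_left₀ (Finset.sum_nonneg fun i _ => abs_nonneg _) ?_ 2
    calc ∑ i, |(e v i : ℝ)| ≤ ∑ _i : Fin d, C * (W + 1) :=
          Finset.sum_le_sum fun i _ => he.growth W v hv i
      _ = d * (C * (W + 1)) := by simp
  have e1 : av q l (fun y => G (e (q ^ (a + W) * y + (q ^ a * x' + s1)))) - Wc (e s1) -
      ∑ j, (Wc (e s1 + Pi.single j 1) - Wc (e s1)) * (e v j : ℝ) =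
      (av q l (fun y => G (e (q ^ (a + W) * y + (q ^ a * x' + s1)))) - Wc (e x' + e s1)) +
      (Wc (e x' + e s1) - Wc (e s1 + e v)) + (Wc (e s1 + e v) - Wc (e s1) -
      ∑ j, (Wc (e s1 + Pi.single j 1) - Wc (e s1)) * (e v j : ℝ)) := by ring
  have e2 : |av q l (fun y => G (e (q ^ (a + W) * y + (q ^ a * x' + s1)))) - Wc (e s1) -
      ∑ j, (Wc (e s1 + Pi.single j 1) - Wc (e s1)) * (e v j : ℝ)| ≤
      (δ * ∑ j, av q l (fun y => |dfc (fun n => (e n j : ℝ)) q (a + W) y (q ^ a * x' + s1)|) +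
        δ * ∑ j, |dfc (fun n => (e n j : ℝ)) q a x' s1|) +
        δ * ∑ j, |(e x' j : ℝ) - (e v j : ℝ)| + δ ^ 2 * (d * (C * (W + 1))) ^ 2 := by
    rw [e1]
    exact (abs_add_le _ _).trans (add_le_add ((abs_add_le _ _).trans (add_le_add t1 t2)) t3)
  exact e2

/-- the square of a sum over the coordinates -/
theorem q9_sqsum {d : ℕ} (δ : ℝ) (f : Fin d → ℝ) :
    (δ * ∑ j, f j) ^ 2 ≤ δ ^ 2 * (d * ∑ j, f j ^ 2) := by
  rw [mul_pow]
  refine mul_le_mul_of_nonneg_left ?_ (sq_nonneg _)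
  have h := sq_sum_le_card_mul_sum_sq (s := (Finset.univ : Finset (Fin d))) (f := f)
  simpa using h

theorem q9_four (a b c d : ℝ) : (a + b + c + d) ^ 2 ≤ 4 * (a ^ 2 + b ^ 2 + c ^ 2 + d ^ 2) := by
  nlinarith [sq_nonneg (a - b), sq_nonneg (a - c), sq_nonneg (a - d), sq_nonneg (b - c),
    sq_nonneg (b - d), sq_nonneg (c - d)]

/-- the linearisation of one window, with error bound -/
theorem q9_err {q m d : ℕ} (hq : 2 ≤ q) {e : ℕ → Fin d → ℤ} {C : ℝ} (he : QV q m e C) {P : ℕ}
    (hP : P.Coprime q) : ∃ KP : ℝ, 0 ≤ KP ∧ ∀ W a l : ℕ, ∀ δ : ℝ, 0 ≤ δ →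
      ∀ G : (Fin d → ℤ) → ℝ, Slow δ G → ∃ (b : ℕ → ℝ) (g : ℕ → Fin d → ℝ),
        av q a (fun s => av q W (fun x =>
          (cnd q l (a + W) (fun n => G (e n)) (P * (q ^ a * x + s) % q ^ (a + W)) - b s -
            lin (g s) e (P * x % q ^ W)) ^ 2)) ≤
          KP * δ ^ 2 + (4 * (d * (C * (W + 1))) ^ 4) * δ ^ 4 := by
  obtain ⟨K1, hK1, hdef⟩ := defect_sq (q := q) (m := m) hq
  choose K2 hK2 hcar using fun t => carry_sq (q := q) (m := m) hq t
  set K3 : ℝ := ∑ t ∈ Finset.range (P + 1), K2 t with hK3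
  have hK3n : 0 ≤ K3 := Finset.sum_nonneg fun t _ => hK2 t
  refine ⟨4 * (d * (d * ((2 * K1 + K3) * C ^ 2))), by positivity, ?_⟩
  intro W a l δ hδ G hG
  obtain ⟨b, hb⟩ : ∃ b : ℕ → ℝ, b = fun s => av q l (fun y => G (e y + e (P * s % q ^ a))) :=
    ⟨_, rfl⟩
  obtain ⟨g, hg⟩ : ∃ g : ℕ → Fin d → ℝ, g = fun s j =>
      av q l (fun y => G (e y + (e (P * s % q ^ a) + Pi.single j 1))) -
      av q l (fun y => G (e y + e (P * s % q ^ a))) := ⟨_, rfl⟩
  refine ⟨b, g, ?_⟩
  have hqW := qpow_pos hq W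
  have hqa := qpow_pos hq a
  -- the three error terms
  set E1 : ℕ → ℝ := fun s' =>
    δ * ∑ j, av q l (fun y => |dfc (fun n => (e n j : ℝ)) q (a + W) y s'|) with hE1
  set E2 : ℕ → ℕ → ℝ := fun s1 x' => δ * ∑ j, |dfc (fun n => (e n j : ℝ)) q a x' s1| with hE2
  set E3 : ℕ → ℕ → ℝ := fun t N => δ * ∑ j, |(e ((N + t) % q ^ W) j : ℝ) - (e N j : ℝ)| with hE3
  set B : ℝ := δ ^ 2 * (d * (C * (W + 1))) ^ 2 with hB
  have hpt : ∀ s x : ℕ, (cnd q l (a + W) (fun n => G (e n)) (P * (q ^ a * x + s) % q ^ (a + W)) -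
      b s - lin (g s) e (P * x % q ^ W)) ^ 2 ≤
      4 * (E1 (P * (q ^ a * x + s) % q ^ (a + W)) ^ 2 +
        E2 (P * s % q ^ a) ((P * x + P * s / q ^ a) % q ^ W) ^ 2 +
        E3 (P * s / q ^ a) (P * x % q ^ W) ^ 2 + B ^ 2) := by
    intro s x
    have h1 := q9_pointwise hq he hδ hG a W l ((P * x + P * s / q ^ a) % q ^ W) (P * s % q ^ a)
      (P * x % q ^ W) (Nat.mod_lt _ hqW)
    rw [← q9_digits hq] at h1
    have h2 : ∀ j, |(e ((P * x + P * s / q ^ a) % q ^ W) j : ℝ) - (e (P * x % q ^ W) j : ℝ)| =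
        |(e ((P * x % q ^ W + P * s / q ^ a) % q ^ W) j : ℝ) - (e (P * x % q ^ W) j : ℝ)| := by
      intro j
      rw [Nat.mod_add_mod]
    rw [Finset.sum_congr rfl fun j _ => h2 j] at h1
    have h3 : |cnd q l (a + W) (fun n => G (e n)) (P * (q ^ a * x + s) % q ^ (a + W)) -
        b s - lin (g s) e (P * x % q ^ W)| ≤
        E1 (P * (q ^ a * x + s) % q ^ (a + W)) +
        E2 (P * s % q ^ a) ((P * x + P * s / q ^ a) % q ^ W) +
        E3 (P * s / q ^ a) (P * x % q ^ W) + B := by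
      rw [hb, hg]
      exact h1
    rw [← sq_abs]
    exact (pow_le_pow_left₀ (abs_nonneg _) h3 2).trans (q9_four _ _ _ _)
  -- averages of the error terms
  have a1 : av q a (fun s => av q W (fun x => E1 (P * (q ^ a * x + s) % q ^ (a + W)) ^ 2)) ≤
      d * (d * (K1 * C ^ 2)) * δ ^ 2 := by
    have h1 := av_split q a W (fun n => E1 (P * n % q ^ (a + W)) ^ 2)
    have h2 := av_perm hq hP 0 (a + W) (fun n => E1 n ^ 2)
    simp only [add_zero] at h2
    have h3 : av q a (fun s => av q W (fun x => E1 (P * (q ^ a * x + s) % q ^ (a + W)) ^ 2)) =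
        av q (a + W) (fun n => E1 n ^ 2) := by
      rw [← h2, h1]
      rfl
    rw [h3]
    have h4 : av q (a + W) (fun n => E1 n ^ 2) ≤ av q (a + W) (fun n => δ ^ 2 * (d * ∑ j,
        av q l (fun y => dfc (fun n => (e n j : ℝ)) q (a + W) y n ^ 2))) := by
      refine av_mono fun n _ => ?_
      refine (q9_sqsum δ _).trans ?_
      refine mul_le_mul_of_nonneg_left (mul_le_mul_of_nonneg_left ?_ (by positivity))
        (sq_nonneg _)
      refine Finset.sum_le_sum fun j _ => ?_
      have h5 := av_sq_le q hq l (fun y => |dfc (fun n => (e n j : ℝ)) q (a + W) y n|)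
      simp only [sq_abs] at h5
      exact h5
    refine h4.trans ?_
    rw [av_const_mul, av_const_mul, av_finset_sum]
    have h6 : ∑ j, av q (a + W) (fun n =>
        av q l (fun y => dfc (fun n => (e n j : ℝ)) q (a + W) y n ^ 2)) ≤ d * (K1 * C ^ 2) := by
      calc ∑ j, av q (a + W) (fun n =>
            av q l (fun y => dfc (fun n => (e n j : ℝ)) q (a + W) y n ^ 2))
          ≤ ∑ _j : Fin d, K1 * C ^ 2 := by
            refine Finset.sum_le_sum fun j _ => ?_
            rw [av_swap]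
            exact hdef _ C (q9_coord he j) (a + W) l
        _ = d * (K1 * C ^ 2) := by simp
    have h7 := mul_le_mul_of_nonneg_left h6 (by positivity : (0 : ℝ) ≤ δ ^ 2 * d)
    linarith
  have a2 : av q a (fun s => av q W (fun x =>
      E2 (P * s % q ^ a) ((P * x + P * s / q ^ a) % q ^ W) ^ 2)) ≤
      d * (d * (K1 * C ^ 2)) * δ ^ 2 := by
    have h1 : av q a (fun s => av q W (fun x =>
        E2 (P * s % q ^ a) ((P * x + P * s / q ^ a) % q ^ W) ^ 2)) =
        av q a (fun s => av q W (fun x => E2 s x ^ 2)) := by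
      have h2 := av_perm hq hP 0 a (fun s => av q W (fun x => E2 s x ^ 2))
      simp only [add_zero] at h2
      rw [← h2]
      refine av_congr fun s _ => ?_
      exact av_perm hq hP (P * s / q ^ a) W (fun x => E2 (P * s % q ^ a) x ^ 2)
    rw [h1]
    have h4 : av q a (fun s => av q W (fun x => E2 s x ^ 2)) ≤ av q a (fun s => av q W (fun x =>
        δ ^ 2 * (d * ∑ j, dfc (fun n => (e n j : ℝ)) q a x s ^ 2))) := by
      refine av_mono fun s _ => av_mono fun x _ => ?_
      have h5 := q9_sqsum δ (fun j => |dfc (fun n => (e n j : ℝ)) q a x s|)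
      simp only [sq_abs] at h5
      exact h5
    refine h4.trans ?_
    have h8 : av q a (fun s => av q W (fun x =>
        δ ^ 2 * (d * ∑ j, dfc (fun n => (e n j : ℝ)) q a x s ^ 2))) =
        δ ^ 2 * (d * ∑ j, av q a (fun s => av q W (fun x =>
          dfc (fun n => (e n j : ℝ)) q a x s ^ 2))) := by
      simp only [av_const_mul, av_finset_sum]
    rw [h8]
    have h6 : ∑ j, av q a (fun s => av q W (fun x => dfc (fun n => (e n j : ℝ)) q a x s ^ 2)) ≤
        d * (K1 * C ^ 2) := by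
      calc ∑ j, av q a (fun s => av q W (fun x => dfc (fun n => (e n j : ℝ)) q a x s ^ 2))
          ≤ ∑ _j : Fin d, K1 * C ^ 2 := by
            refine Finset.sum_le_sum fun j _ => ?_
            rw [av_swap]
            exact hdef _ C (q9_coord he j) a W
        _ = d * (K1 * C ^ 2) := by simp
    have h7 := mul_le_mul_of_nonneg_left h6 (by positivity : (0 : ℝ) ≤ δ ^ 2 * d)
    linarith
  have a3 : av q a (fun s => av q W (fun x => E3 (P * s / q ^ a) (P * x % q ^ W) ^ 2)) ≤
      d * (d * (K3 * C ^ 2)) * δ ^ 2 := by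
    refine av_le hq fun s hs => ?_
    have ht : P * s / q ^ a ≤ P := by
      refine Nat.div_le_of_le_mul ?_
      rw [mul_comm]
      exact Nat.mul_le_mul_right P hs.le
    set t := P * s / q ^ a with ht'
    have h2 := av_perm hq hP 0 W (fun N => E3 t N ^ 2)
    simp only [add_zero] at h2
    rw [h2]
    have h4 : av q W (fun N => E3 t N ^ 2) ≤ av q W (fun N => δ ^ 2 * (d * ∑ j,
        ((e ((N + t) % q ^ W) j : ℝ) - (e N j : ℝ)) ^ 2)) := by
      refine av_mono fun N _ => ?_
      have h5 := q9_sqsum δ (fun j => |(e ((N + t) % q ^ W) j : ℝ) - (e N j : ℝ)|)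
      simp only [sq_abs] at h5
      exact h5
    refine h4.trans ?_
    rw [av_const_mul, av_const_mul, av_finset_sum]
    have hKt : K2 t ≤ K3 :=
      Finset.single_le_sum (f := K2) (fun t _ => hK2 t) (Finset.mem_range.mpr (by omega))
    have h6 : ∑ j, av q W (fun N => ((e ((N + t) % q ^ W) j : ℝ) - (e N j : ℝ)) ^ 2) ≤
        d * (K3 * C ^ 2) := by
      calc ∑ j, av q W (fun N => ((e ((N + t) % q ^ W) j : ℝ) - (e N j : ℝ)) ^ 2)
          ≤ ∑ _j : Fin d, K3 * C ^ 2 := by
            refine Finset.sum_le_sum fun j _ => ?_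
            exact (hcar t _ C (q9_coord he j) W).trans
              (mul_le_mul_of_nonneg_right hKt (sq_nonneg _))
        _ = d * (K3 * C ^ 2) := by simp
    have h7 := mul_le_mul_of_nonneg_left h6 (by positivity : (0 : ℝ) ≤ δ ^ 2 * d)
    linarith
  refine (av_mono fun s _ => av_mono fun x _ => hpt s x).trans ?_
  have h9 : av q a (fun s => av q W (fun x =>
      4 * (E1 (P * (q ^ a * x + s) % q ^ (a + W)) ^ 2 +
        E2 (P * s % q ^ a) ((P * x + P * s / q ^ a) % q ^ W) ^ 2 +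
        E3 (P * s / q ^ a) (P * x % q ^ W) ^ 2 + B ^ 2))) =
      4 * (av q a (fun s => av q W (fun x => E1 (P * (q ^ a * x + s) % q ^ (a + W)) ^ 2)) +
        av q a (fun s => av q W (fun x =>
          E2 (P * s % q ^ a) ((P * x + P * s / q ^ a) % q ^ W) ^ 2)) +
        av q a (fun s => av q W (fun x => E3 (P * s / q ^ a) (P * x % q ^ W) ^ 2)) + B ^ 2) := by
    simp only [av_const_mul, av_add, av_const hq]
  rw [h9]
  have hB2 : B ^ 2 = (d * (C * (W + 1))) ^ 4 * δ ^ 4 := by
    rw [hB]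
    ring
  rw [hB2]
  nlinarith [a1, a2, a3]

theorem q9_amgm {q : ℕ} (hq : 2 ≤ q) (W : ℕ) (u v : ℕ → ℝ) {θ : ℝ} (hθ : 0 < θ) :
    |cov q W u v| ≤ θ * cov q W u u + (1 / θ) * cov q W v v := by
  refine (cov_cs hq W u v).trans ?_
  have hx := cov_self_nonneg hq W u
  have hy := cov_self_nonneg hq W v
  have ha := Real.sq_sqrt hx
  have hb := Real.sq_sqrt hy
  have ha0 := Real.sqrt_nonneg (cov q W u u)
  have hb0 := Real.sqrt_nonneg (cov q W v v)
  set a := Real.sqrt (cov q W u u) with hadef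
  set b := Real.sqrt (cov q W v v) with hbdef
  rw [← ha, ← hb]
  have e : θ * a ^ 2 + (1 / θ) * b ^ 2 - a * b = (1 / θ) * ((θ * a - b) ^ 2 + θ * (a * b)) := by
    field_simp
    ring
  have h : 0 ≤ (1 / θ) * ((θ * a - b) ^ 2 + θ * (a * b)) := by positivity
  linarith

theorem q9_cov_add_const {q : ℕ} (hq : 2 ≤ q) (W : ℕ) (u v : ℕ → ℝ) (b : ℝ) :
    cov q W (fun x => u x + b) v = cov q W u v := by
  rw [cov_add_left, cov_const_left hq, add_zero]

theorem q9_cov_add_const' {q : ℕ} (hq : 2 ≤ q) (W : ℕ) (u v : ℕ → ℝ) (b : ℝ) :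
    cov q W u (fun x => v x + b) = cov q W u v := by
  rw [cov_comm, q9_cov_add_const hq, cov_comm]

theorem q9_cov_LL {q : ℕ} (hq : 2 ≤ q) (W : ℕ) (u L : ℕ → ℝ) (b : ℝ) :
    cov q W L L ≤ 2 * cov q W u u + 2 * av q W (fun x => (u x - b - L x) ^ 2) := by
  set E : ℕ → ℝ := fun x => -(u x - b - L x) with hE
  have e1 : L = fun x => (u x + E x) + (-b) := by
    funext x
    simp only [hE]
    ring
  have h1 : cov q W L L = cov q W (fun x => u x + E x) (fun x => u x + E x) := by
    conv_lhs => rw [e1]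
    rw [q9_cov_add_const hq, q9_cov_add_const' hq]
  have h2 : cov q W (fun x => u x + E x) (fun x => u x + E x) =
      cov q W u u + 2 * cov q W u E + cov q W E E := by
    rw [cov_add_left, cov_add_right, cov_add_right, cov_comm q W E u]
    ring
  have h3 : cov q W (fun x => u x + (-1) * E x) (fun x => u x + (-1) * E x) =
      cov q W u u - 2 * cov q W u E + cov q W E E := by
    rw [cov_add_left, cov_add_right, cov_add_right, cov_const_mul_left, cov_const_mul_left,
      cov_comm q W u (fun x => (-1) * E x), cov_comm q W E (fun x => (-1) * E x),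
      cov_const_mul_left, cov_const_mul_left, cov_comm q W E u]
    ring
  have h4 := cov_self_nonneg hq W (fun x => u x + (-1) * E x)
  have h5 : cov q W E E ≤ av q W (fun x => (u x - b - L x) ^ 2) := by
    refine (cov_self_le W E).trans (le_of_eq ?_)
    congr 1
    funext x
    simp only [hE]
    ring
  rw [h1, h2]
  rw [h3] at h4
  linarith

theorem q9_cov_ineq {q : ℕ} (hq : 2 ≤ q) (W : ℕ) (u u' L L' : ℕ → ℝ) (b b' : ℝ) {θ : ℝ}
    (hθ : 0 < θ) :
    |cov q W u u'| ≤ |cov q W L L'| + θ * (cov q W L L + cov q W L' L') +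
      (1 / θ + 1) * (av q W (fun x => (u x - b - L x) ^ 2) +
        av q W (fun x => (u' x - b' - L' x) ^ 2)) := by
  set E : ℕ → ℝ := fun x => u x - b - L x with hE
  set E' : ℕ → ℝ := fun x => u' x - b' - L' x with hE'
  have e1 : u = fun x => (L x + E x) + b := by
    funext x
    simp only [hE]
    ring
  have e1' : u' = fun x => (L' x + E' x) + b' := by
    funext x
    simp only [hE']
    ring
  have h1 : cov q W u u' = cov q W L L' + cov q W L E' + (cov q W E L' + cov q W E E') := by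
    conv_lhs => rw [e1, e1']
    rw [q9_cov_add_const hq, q9_cov_add_const' hq, cov_add_left, cov_add_right, cov_add_right]
  have h2 := q9_amgm hq W L E' hθ
  have h3 : |cov q W E L'| ≤ θ * cov q W L' L' + (1 / θ) * cov q W E E := by
    rw [cov_comm]
    exact q9_amgm hq W L' E hθ
  have h4 := q9_amgm hq W E E' one_pos
  have h5 : cov q W E E ≤ av q W (fun x => (u x - b - L x) ^ 2) := cov_self_le W E
  have h5' : cov q W E' E' ≤ av q W (fun x => (u' x - b' - L' x) ^ 2) := cov_self_le W E'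
  have h6 : |cov q W u u'| ≤ |cov q W L L'| + |cov q W L E'| +
      (|cov q W E L'| + |cov q W E E'|) := by
    rw [h1]
    exact (abs_add_le _ _).trans (add_le_add (abs_add_le _ _) (abs_add_le _ _))
  have h7 : (0 : ℝ) < 1 / θ := by positivity
  have h8 : (1 / θ + 1) * (cov q W E E + cov q W E' E') ≤ (1 / θ + 1) *
      (av q W (fun x => (u x - b - L x) ^ 2) + av q W (fun x => (u' x - b' - L' x) ^ 2)) :=
    mul_le_mul_of_nonneg_left (add_le_add h5 h5') (by linarith)
  rw [one_mul, div_one, one_mul] at h4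
  have h9 : (1 / θ + 1) * (cov q W E E + cov q W E' E') =
      (1 / θ) * cov q W E E + (1 / θ) * cov q W E' E' + (cov q W E E + cov q W E' E') := by ring
  linarith

/-- the main estimate for whole windows -/
theorem q9_main {q d : ℕ} (hq : 2 ≤ q) {e : ℕ → Fin d → ℤ} {P R : ℕ}
    (hP : P.Coprime q) (hR : R.Coprime q) {c η : ℝ} (hc : 0 < c) (hη : 0 ≤ η) {W : ℕ}
    (hvar : ∀ a : Fin d → ℝ, c * W * ∑ i, a i ^ 2 ≤ cov q W (lin a e) (lin a e))
    (hcov : ∀ a b : Fin d → ℝ,
      |cov q W (fun n => lin a e (P * n % q ^ W)) (fun n => lin b e (R * n % q ^ W))| ≤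
        η * W * (Real.sqrt (∑ i, a i ^ 2) * Real.sqrt (∑ i, b i ^ 2)))
    {θ T : ℝ} (hθ : 0 < θ) (K : ℕ) {G G' : (Fin d → ℤ) → ℝ} (hG : ∀ x, |G x| ≤ 1)
    (hG' : ∀ x, |G' x| ≤ 1) {ρ : ℝ} (hρ : K * ρ ≤ T)
    (herr : ∀ i : ℕ, ∃ (b : ℕ → ℝ) (g : ℕ → Fin d → ℝ),
        av q (W * i) (fun s => av q W (fun x =>
          (cnd q (W * (K - (i + 1))) (W * i + W) (fun n => G (e n))
            (P * (q ^ (W * i) * x + s) % q ^ (W * i + W)) - b s -
            lin (g s) e (P * x % q ^ W)) ^ 2)) ≤ ρ)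
    (herr' : ∀ i : ℕ, ∃ (b : ℕ → ℝ) (g : ℕ → Fin d → ℝ),
        av q (W * i) (fun s => av q W (fun x =>
          (cnd q (W * (K - (i + 1))) (W * i + W) (fun n => G' (e n))
            (R * (q ^ (W * i) * x + s) % q ^ (W * i + W)) - b s -
            lin (g s) e (R * x % q ^ W)) ^ 2)) ≤ ρ) :
    |cov q (W * K) (fun n => G (e (P * n % q ^ (W * K))))
        (fun n => G' (e (R * n % q ^ (W * K))))| ≤
      (η / (2 * c) + θ) * (4 + 4 * T) + (1 / θ + 1) * (2 * T) := by
  choose b g hbg using herr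
  choose b' g' hbg' using herr'
  set U : ℕ → ℝ := fun n => G (e (P * n % q ^ (W * K))) with hU
  set V : ℕ → ℝ := fun n => G' (e (R * n % q ^ (W * K))) with hV
  -- the conditional averages in one window
  set A : ℕ → ℕ → ℕ → ℝ := fun i s x =>
    cnd q (W * (K - (i + 1))) (W * (i + 1)) U (q ^ (W * i) * x + s) with hA
  set A' : ℕ → ℕ → ℕ → ℝ := fun i s x =>
    cnd q (W * (K - (i + 1))) (W * (i + 1)) V (q ^ (W * i) * x + s) with hA'
  set L : ℕ → ℕ → ℕ → ℝ := fun i s x => lin (g i s) e (P * x % q ^ W) with hL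
  set L' : ℕ → ℕ → ℕ → ℝ := fun i s x => lin (g' i s) e (R * x % q ^ W) with hL'
  set r : ℕ → ℕ → ℝ := fun i s => av q W (fun x => (A i s x - b i s - L i s x) ^ 2) with hr
  set r' : ℕ → ℕ → ℝ := fun i s => av q W (fun x => (A' i s x - b' i s - L' i s x) ^ 2) with hr'
  have hexp : ∀ i ∈ Finset.range K, W * K = W * (i + 1) + W * (K - (i + 1)) := by
    intro i hi
    have hi' : i < K := Finset.mem_range.mp hi
    rw [← Nat.mul_add]
    congr 1
    omega
  have hr1 : ∀ i ∈ Finset.range K, av q (W * i) (r i) ≤ ρ := by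
    intro i hi
    have h1 := hbg i
    have h2 : ∀ s x, A i s x = cnd q (W * (K - (i + 1))) (W * i + W) (fun n => G (e n))
        (P * (q ^ (W * i) * x + s) % q ^ (W * i + W)) := by
      intro s x
      have h3 := cnd_mul hq hP (W * (i + 1)) (W * (K - (i + 1))) (fun n => G (e n))
        (q ^ (W * i) * x + s)
      rw [← hexp i hi] at h3
      exact h3
    simp only [hr, hL, h2]
    exact h1
  have hr1' : ∀ i ∈ Finset.range K, av q (W * i) (r' i) ≤ ρ := by
    intro i hi
    have h1 := hbg' i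
    have h2 : ∀ s x, A' i s x = cnd q (W * (K - (i + 1))) (W * i + W) (fun n => G' (e n))
        (R * (q ^ (W * i) * x + s) % q ^ (W * i + W)) := by
      intro s x
      have h3 := cnd_mul hq hR (W * (i + 1)) (W * (K - (i + 1))) (fun n => G' (e n))
        (q ^ (W * i) * x + s)
      rw [← hexp i hi] at h3
      exact h3
    simp only [hr', hL', h2]
    exact h1
  -- the pointwise inequality
  have hLL : ∀ i s, c * W * ∑ j, g i s j ^ 2 ≤ cov q W (L i s) (L i s) := by
    intro i s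
    refine (hvar (g i s)).trans (le_of_eq ?_)
    have h1 : ∀ u : ℕ → ℝ, av q W (fun x => u (P * x % q ^ W)) = av q W u := by
      intro u
      have h2 := av_perm hq hP 0 W u
      simpa only [add_zero] using h2
    unfold cov
    have h3 := h1 (fun n => lin (g i s) e n * lin (g i s) e n)
    have h4 := h1 (lin (g i s) e)
    simp only [hL]
    rw [h3, h4]
  have hLL' : ∀ i s, c * W * ∑ j, g' i s j ^ 2 ≤ cov q W (L' i s) (L' i s) := by
    intro i s
    refine (hvar (g' i s)).trans (le_of_eq ?_)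
    have h1 : ∀ u : ℕ → ℝ, av q W (fun x => u (R * x % q ^ W)) = av q W u := by
      intro u
      have h2 := av_perm hq hR 0 W u
      simpa only [add_zero] using h2
    unfold cov
    have h3 := h1 (fun n => lin (g' i s) e n * lin (g' i s) e n)
    have h4 := h1 (lin (g' i s) e)
    simp only [hL']
    rw [h3, h4]
  have hpt : ∀ i s, |cov q W (A i s) (A' i s)| ≤
      (η / (2 * c) + θ) * (2 * cov q W (A i s) (A i s) + 2 * cov q W (A' i s) (A' i s) +
        2 * r i s + 2 * r' i s) + (1 / θ + 1) * (r i s + r' i s) := by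
    intro i s
    have h1 := q9_cov_ineq hq W (A i s) (A' i s) (L i s) (L' i s) (b i s) (b' i s) hθ
    have h2 : |cov q W (L i s) (L' i s)| ≤
        η / (2 * c) * (cov q W (L i s) (L i s) + cov q W (L' i s) (L' i s)) := by
      have h3 := hcov (g i s) (g' i s)
      have ha := Real.sq_sqrt (Finset.sum_nonneg fun j (_ : j ∈ Finset.univ) =>
        sq_nonneg (g i s j))
      have hb := Real.sq_sqrt (Finset.sum_nonneg fun j (_ : j ∈ Finset.univ) =>
        sq_nonneg (g' i s j))
      have h4 : Real.sqrt (∑ j, g i s j ^ 2) * Real.sqrt (∑ j, g' i s j ^ 2) ≤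
          (∑ j, g i s j ^ 2 + ∑ j, g' i s j ^ 2) / 2 := by
        nlinarith [sq_nonneg (Real.sqrt (∑ j, g i s j ^ 2) - Real.sqrt (∑ j, g' i s j ^ 2))]
      have h5 : η * W * (Real.sqrt (∑ j, g i s j ^ 2) * Real.sqrt (∑ j, g' i s j ^ 2)) ≤
          η * W * ((∑ j, g i s j ^ 2 + ∑ j, g' i s j ^ 2) / 2) :=
        mul_le_mul_of_nonneg_left h4 (by positivity)
      have h6 : η * W * ((∑ j, g i s j ^ 2 + ∑ j, g' i s j ^ 2) / 2) =
          η / (2 * c) * (c * W * ∑ j, g i s j ^ 2 + c * W * ∑ j, g' i s j ^ 2) := by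
        field_simp
      have h7 : η / (2 * c) * (c * W * ∑ j, g i s j ^ 2 + c * W * ∑ j, g' i s j ^ 2) ≤
          η / (2 * c) * (cov q W (L i s) (L i s) + cov q W (L' i s) (L' i s)) :=
        mul_le_mul_of_nonneg_left (add_le_add (hLL i s) (hLL' i s)) (by positivity)
      refine (h3.trans h5).trans ?_
      rw [h6]
      exact h7
    have h8 := q9_cov_LL hq W (A i s) (L i s) (b i s)
    have h8' := q9_cov_LL hq W (A' i s) (L' i s) (b' i s)
    have h9 : (η / (2 * c) + θ) * (cov q W (L i s) (L i s) + cov q W (L' i s) (L' i s)) ≤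
        (η / (2 * c) + θ) * (2 * cov q W (A i s) (A i s) + 2 * cov q W (A' i s) (A' i s) +
        2 * r i s + 2 * r' i s) := by
      refine mul_le_mul_of_nonneg_left ?_ (by positivity)
      simp only [hr, hr']
      linarith
    have h10 : |cov q W (A i s) (A' i s)| ≤ |cov q W (L i s) (L' i s)| +
        θ * (cov q W (L i s) (L i s) + cov q W (L' i s) (L' i s)) +
        (1 / θ + 1) * (r i s + r' i s) := h1
    have h11 : (η / (2 * c) + θ) * (cov q W (L i s) (L i s) + cov q W (L' i s) (L' i s)) =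
        η / (2 * c) * (cov q W (L i s) (L i s) + cov q W (L' i s) (L' i s)) +
        θ * (cov q W (L i s) (L i s) + cov q W (L' i s) (L' i s)) := by ring
    linarith
  -- total variances
  have hone : ∀ (H : (Fin d → ℤ) → ℝ), (∀ x, |H x| ≤ 1) → ∀ Q : ℕ,
      cov q (W * K) (fun n => H (e (Q * n % q ^ (W * K))))
        (fun n => H (e (Q * n % q ^ (W * K)))) ≤ 1 := by
    intro H hH Q
    refine (cov_self_le _ _).trans (av_le hq fun n _ => ?_)
    have h1 := hH (e (Q * n % q ^ (W * K)))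
    rw [← sq_abs]
    exact pow_le_one₀ (abs_nonneg _) h1
  have hVU : ∑ i ∈ Finset.range K, av q (W * i) (fun s => cov q W (A i s) (A i s)) ≤ 1 := by
    rw [← cov_decomp hq W K U U]
    exact hone G hG P
  have hVV : ∑ i ∈ Finset.range K, av q (W * i) (fun s => cov q W (A' i s) (A' i s)) ≤ 1 := by
    rw [← cov_decomp hq W K V V]
    exact hone G' hG' R
  have hsr : ∑ i ∈ Finset.range K, av q (W * i) (r i) ≤ T := by
    refine (Finset.sum_le_sum hr1).trans ?_
    simpa using hρ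
  have hsr' : ∑ i ∈ Finset.range K, av q (W * i) (r' i) ≤ T := by
    refine (Finset.sum_le_sum hr1').trans ?_
    simpa using hρ
  rw [cov_decomp hq W K U V]
  have hstep : |∑ i ∈ Finset.range K, av q (W * i) (fun s => cov q W (A i s) (A' i s))| ≤
      ∑ i ∈ Finset.range K, av q (W * i) (fun s =>
      (η / (2 * c) + θ) * (2 * cov q W (A i s) (A i s) + 2 * cov q W (A' i s) (A' i s) +
        2 * r i s + 2 * r' i s) + (1 / θ + 1) * (r i s + r' i s)) := by
    refine (Finset.abs_sum_le_sum_abs _ _).trans (Finset.sum_le_sum fun i _ => ?_)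
    exact (abs_av_le_av _ _ _).trans (av_mono fun s _ => hpt i s)
  refine hstep.trans ?_
  have hexpand : ∑ i ∈ Finset.range K, av q (W * i) (fun s =>
      (η / (2 * c) + θ) * (2 * cov q W (A i s) (A i s) + 2 * cov q W (A' i s) (A' i s) +
        2 * r i s + 2 * r' i s) + (1 / θ + 1) * (r i s + r' i s)) =
      (η / (2 * c) + θ) * (2 * ∑ i ∈ Finset.range K, av q (W * i) (fun s =>
          cov q W (A i s) (A i s)) + 2 * ∑ i ∈ Finset.range K, av q (W * i) (fun s =>
          cov q W (A' i s) (A' i s)) + 2 * ∑ i ∈ Finset.range K, av q (W * i) (r i) +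
          2 * ∑ i ∈ Finset.range K, av q (W * i) (r' i)) +
        (1 / θ + 1) * (∑ i ∈ Finset.range K, av q (W * i) (r i) +
          ∑ i ∈ Finset.range K, av q (W * i) (r' i)) := by
    simp only [av_add, av_const_mul, Finset.sum_add_distrib, ← Finset.mul_sum]
  rw [hexpand]
  have hθ' : (0 : ℝ) < 1 / θ := by positivity
  refine add_le_add (mul_le_mul_of_nonneg_left ?_ (by positivity))
    (mul_le_mul_of_nonneg_left ?_ (by positivity))
  · linarith
  · linarith

theorem q9_cov_bdd {q : ℕ} (hq : 2 ≤ q) (k : ℕ) (w v : ℕ → ℝ) (hv : ∀ n, |v n| ≤ 1) :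
    |cov q k w v| ≤ 2 * av q k (fun n => |w n|) := by
  unfold cov
  have h1 : |av q k (fun n => w n * v n)| ≤ av q k (fun n => |w n|) := by
    refine (abs_av_le_av _ _ _).trans (av_mono fun n _ => ?_)
    rw [abs_mul]
    exact mul_le_of_le_one_right (abs_nonneg _) (hv n)
  have h2 : |av q k w * av q k v| ≤ av q k (fun n => |w n|) := by
    rw [abs_mul]
    have h3 : |av q k v| ≤ 1 := abs_av_le hq fun n _ => hv n
    calc |av q k w| * |av q k v| ≤ |av q k w| * 1 := mul_le_mul_of_nonneg_left h3 (abs_nonneg _)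
      _ = |av q k w| := mul_one _
      _ ≤ _ := abs_av_le_av _ _ _
  have h3 := abs_sub (av q k (fun n => w n * v n)) (av q k w * av q k v)
  linarith

theorem q9_cov_close {q : ℕ} (hq : 2 ≤ q) (k : ℕ) (u v u' v' : ℕ → ℝ) (hv : ∀ n, |v n| ≤ 1)
    (hu' : ∀ n, |u' n| ≤ 1) : |cov q k u v - cov q k u' v'| ≤
      2 * av q k (fun n => |u n - u' n|) + 2 * av q k (fun n => |v n - v' n|) := by
  have h1 : cov q k u v = cov q k (fun n => u n - u' n) v + cov q k u' v := by
    rw [← cov_add_left]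
    congr 1
    funext n
    ring
  have h2 : cov q k u' v = cov q k (fun n => v n - v' n) u' + cov q k u' v' := by
    rw [cov_comm q k u' v', ← cov_add_left, cov_comm]
    congr 1
    funext n
    ring
  have h3 := q9_cov_bdd hq k (fun n => u n - u' n) v hv
  have h4 := q9_cov_bdd hq k (fun n => v n - v' n) u' hu'
  have h5 : cov q k u v - cov q k u' v' = cov q k (fun n => u n - u' n) v +
      cov q k (fun n => v n - v' n) u' := by
    rw [h1, h2]
    ring
  rw [h5]
  exact (abs_add_le _ _).trans (add_le_add h3 h4)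

theorem q9_cov_low {q : ℕ} (hq : 2 ≤ q) (a l : ℕ) (u v : ℕ → ℝ) :
    cov q (a + l) (fun n => u (n % q ^ a)) (fun n => v (n % q ^ a)) = cov q a u v := by
  have h : ∀ w : ℕ → ℝ, av q (a + l) (fun n => w (n % q ^ a)) = av q a w := by
    intro w
    rw [av_split]
    refine av_congr fun s hs => ?_
    unfold cnd
    have e : ∀ y, (q ^ a * y + s) % q ^ a = s := by
      intro y
      rw [Nat.mul_add_mod, Nat.mod_eq_of_lt hs]
    simp only [e]
    exact av_const hq l _
  unfold cov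
  rw [h u, h v]
  have h2 := h (fun n => u n * v n)
  rw [h2]

/-- dropping the top digits -/
theorem q9_drop {q m d : ℕ} (hq : 2 ≤ q) {e : ℕ → Fin d → ℤ} {C : ℝ} (he : QV q m e C) {P : ℕ}
    (hP : P.Coprime q) {K1 : ℝ} (hdef : ∀ (F : ℕ → ℝ) (C : ℝ),
    QR q m F C → ∀ a A : ℕ,
      av q A (fun y => av q a (fun s => dfc F q a y s ^ 2)) ≤ K1 * C ^ 2) {δ : ℝ}
    (hδ : 0 ≤ δ) {G : (Fin d → ℤ) → ℝ} (hG : Slow δ G) (a l : ℕ) :
    av q (a + l) (fun n => |G (e (P * n % q ^ (a + l))) - G (e (P * (n % q ^ a) % q ^ a))|) ≤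
      δ * (d * (C * (l + 1) + 1 + K1 * C ^ 2)) := by
  have h1 : av q (a + l) (fun n => |G (e (P * n % q ^ (a + l))) -
      G (e (P * (n % q ^ a) % q ^ a))|) = av q (a + l) (fun N => |G (e N) -
      G (e (N % q ^ a))|) := by
    have h2 := av_perm hq hP 0 (a + l) (fun N => |G (e N) - G (e (N % q ^ a))|)
    simp only [add_zero] at h2
    rw [← h2]
    refine av_congr fun n _ => ?_
    have h3 : P * (n % q ^ a) % q ^ a = P * n % q ^ (a + l) % q ^ a := by
      rw [Nat.mul_mod_mod, Nat.mod_mod_of_dvd _ (pow_dvd_pow q (Nat.le_add_right a l))]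
    rw [h3]
  rw [h1, av_split]
  have h4 : av q a (cnd q l a (fun N => |G (e N) - G (e (N % q ^ a))|)) ≤
      av q a (fun s => av q l (fun y => δ * ∑ j : Fin d, (C * (l + 1) + 1 +
        dfc (fun n => (e n j : ℝ)) q a y s ^ 2))) := by
    refine av_mono fun s hs => ?_
    unfold cnd
    refine av_mono fun y hy => ?_
    have e1 : (q ^ a * y + s) % q ^ a = s := by
      rw [Nat.mul_add_mod, Nat.mod_eq_of_lt hs]
    simp only [e1]
    have h5 := q9_lip hG.2.1 (e s) (e (q ^ a * y + s) - e s)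
    rw [add_sub_cancel] at h5
    refine h5.trans (mul_le_mul_of_nonneg_left (Finset.sum_le_sum fun j _ => ?_) hδ)
    have h6 : (((e (q ^ a * y + s) - e s : Fin d → ℤ) j : ℤ) : ℝ) =
        (e y j : ℝ) + dfc (fun n => (e n j : ℝ)) q a y s := by
      simp only [dfc, Pi.sub_apply]
      push_cast
      ring
    rw [h6]
    have h7 := he.growth l y hy j
    have h8 : |dfc (fun n => (e n j : ℝ)) q a y s| ≤
        1 + dfc (fun n => (e n j : ℝ)) q a y s ^ 2 := by
      rw [← sq_abs (dfc (fun n => (e n j : ℝ)) q a y s)]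
      nlinarith [sq_nonneg (|dfc (fun n => (e n j : ℝ)) q a y s| - 1),
        abs_nonneg (dfc (fun n => (e n j : ℝ)) q a y s)]
    have h9 := abs_add_le (e y j : ℝ) (dfc (fun n => (e n j : ℝ)) q a y s)
    linarith
  refine h4.trans ?_
  have h10 : av q a (fun s => av q l (fun y => δ * ∑ j : Fin d, (C * (l + 1) + 1 +
        dfc (fun n => (e n j : ℝ)) q a y s ^ 2))) = δ * ∑ j : Fin d, (C * (l + 1) + 1 +
        av q a (fun s => av q l (fun y => dfc (fun n => (e n j : ℝ)) q a y s ^ 2))) := by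
    simp only [av_const_mul, av_finset_sum, av_add, av_const hq]
  rw [h10]
  refine mul_le_mul_of_nonneg_left ?_ hδ
  calc ∑ j : Fin d, (C * (l + 1) + 1 +
        av q a (fun s => av q l (fun y => dfc (fun n => (e n j : ℝ)) q a y s ^ 2)))
      ≤ ∑ _j : Fin d, (C * (l + 1) + 1 + K1 * C ^ 2) := by
        refine Finset.sum_le_sum fun j _ => ?_
        have h11 := hdef _ C (q9_coord he j) a l
        rw [av_swap] at h11
        linarith
    _ = d * (C * (l + 1) + 1 + K1 * C ^ 2) := by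
        rw [Finset.sum_const, Finset.card_univ, Fintype.card_fin, nsmul_eq_mul]

theorem indep {q m d : ℕ} (hq : 2 ≤ q) {e : ℕ → Fin d → ℤ} {C : ℝ} (he : QV q m e C) {P R : ℕ}
    (hP : P.Coprime q) (hR : R.Coprime q) {c η : ℝ} (hc : 0 < c) (hη : 0 ≤ η) {W₀ : ℕ}
    (hvar : ∀ W ≥ W₀, ∀ a : Fin d → ℝ, c * W * ∑ i, a i ^ 2 ≤ cov q W (lin a e) (lin a e))
    (hcov : ∀ W ≥ W₀, ∀ a b : Fin d → ℝ,
      |cov q W (fun n => lin a e (P * n % q ^ W)) (fun n => lin b e (R * n % q ^ W))| ≤
        η * W * (Real.sqrt (∑ i, a i ^ 2) * Real.sqrt (∑ i, b i ^ 2)))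
    {ε D : ℝ} (hε : 0 < ε) (hD : 0 < D) :
    ∀ᶠ k : ℕ in atTop, ∀ δ : ℝ, 0 ≤ δ → k * δ ^ 2 ≤ D → ∀ G G' : (Fin d → ℤ) → ℝ,
      Slow δ G → Slow δ G' →
        |cov q k (fun n => G (e (P * n % q ^ k))) (fun n => G' (e (R * n % q ^ k)))| ≤
          3 * η / c + ε := by
  obtain ⟨K1, hK1, hdef⟩ := defect_sq (q := q) (m := m) hq
  obtain ⟨KP, hKP, herr⟩ := q9_err hq he hP
  obtain ⟨KR, hKR, herr'⟩ := q9_err hq he hR
  have hC := he.nonneg
  -- parameters
  set θ : ℝ := ε / 24 with hθ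
  have hθ0 : 0 < θ := by positivity
  have hθi : 0 < 1 / θ + 1 := by positivity
  set T : ℝ := min (1 / 2) (ε / (8 * (1 / θ + 1))) with hT
  have hT0 : 0 < T := by positivity
  have hT1 : T ≤ 1 / 2 := min_le_left _ _
  have hT2 : (1 / θ + 1) * (2 * T) ≤ ε / 4 := by
    have h1 : T ≤ ε / (8 * (1 / θ + 1)) := min_le_right _ _
    have h2 : (1 / θ + 1) * (2 * T) ≤ (1 / θ + 1) * (2 * (ε / (8 * (1 / θ + 1)))) := by
      gcongr
    refine h2.trans (le_of_eq ?_)
    field_simp
    ring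
  set Kmax : ℝ := KP + KR with hKmax
  have hKm : 0 ≤ Kmax := by positivity
  -- the window length
  obtain ⟨W, hW1, hW2⟩ : ∃ W : ℕ, W₀ + 1 ≤ W ∧ Kmax * D * 2 / T ≤ W := by
    obtain ⟨n, hn⟩ := exists_nat_ge (Kmax * D * 2 / T)
    refine ⟨max (W₀ + 1) n, le_max_left _ _, hn.trans ?_⟩
    exact_mod_cast le_max_right _ _
  have hWpos : 0 < W := by omega
  have hWR : (0 : ℝ) < W := by exact_mod_cast hWpos
  have hKD : Kmax * (D / W) ≤ T / 2 := by
    rw [div_le_iff₀ hT0] at hW2
    rw [← mul_div_assoc, div_le_iff₀ hWR]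
    linarith
  set CW : ℝ := 4 * (d * (C * (W + 1))) ^ 4 with hCW
  have hCW0 : 0 ≤ CW := by positivity
  set B : ℝ := d * (C * (W + 1) + 1 + K1 * C ^ 2) with hB
  have hB0 : 0 ≤ B := by positivity
  -- the length of the block
  obtain ⟨k₀, hk₀⟩ := exists_nat_ge (CW * (D / W) * D / (T / 2) + D * (8 * B / ε) ^ 2 + 1)
  filter_upwards [eventually_ge_atTop k₀] with k hk δ hδ hkδ G G' hG hG'
  have hkR : CW * (D / W) * D / (T / 2) + D * (8 * B / ε) ^ 2 + 1 ≤ (k : ℝ) := by
    refine hk₀.trans ?_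
    exact_mod_cast hk
  have hp1 : 0 ≤ CW * (D / W) * D / (T / 2) := by positivity
  have hp2 : 0 ≤ D * (8 * B / ε) ^ 2 := by positivity
  have hk1 : (0 : ℝ) < k := by linarith
  -- `B δ ≤ ε / 8`
  have hBδ : δ * B ≤ ε / 8 := by
    have h1 : (δ * B) ^ 2 ≤ (ε / 8) ^ 2 := by
      have h2 : D * (8 * B / ε) ^ 2 ≤ k := by linarith
      have h3 : D * (8 * B / ε) ^ 2 * δ ^ 2 ≤ k * δ ^ 2 :=
        mul_le_mul_of_nonneg_right h2 (sq_nonneg _)
      have h4 : D * (8 * B / ε) ^ 2 * δ ^ 2 ≤ D * 1 := by linarith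
      have h5 : (8 * B / ε) ^ 2 * δ ^ 2 ≤ 1 := by
        have h6 : D * ((8 * B / ε) ^ 2 * δ ^ 2) ≤ D * 1 := by linarith
        exact le_of_mul_le_mul_left h6 hD
      have h7 : (8 * B / ε) ^ 2 * δ ^ 2 = (δ * B) ^ 2 / (ε / 8) ^ 2 := by
        field_simp
      rw [h7, div_le_one (by positivity)] at h5
      exact h5
    exact (abs_le_of_sq_le_sq' h1 (by positivity)).2
  -- the number of windows
  set K : ℕ := k / W with hK
  set l : ℕ := k % W with hl
  have hkKl : k = W * K + l := (Nat.div_add_mod k W).symm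
  have hlW : l < W := Nat.mod_lt _ hWpos
  have hKk : (K : ℝ) * W ≤ k := by
    have : K * W ≤ k := Nat.div_mul_le_self k W
    exact_mod_cast this
  have hKδ : (K : ℝ) * δ ^ 2 ≤ D / W := by
    rw [le_div_iff₀ hWR]
    calc (K : ℝ) * δ ^ 2 * W = (K * W) * δ ^ 2 := by ring
      _ ≤ k * δ ^ 2 := mul_le_mul_of_nonneg_right hKk (sq_nonneg _)
      _ ≤ D := hkδ
  have hδ2 : δ ^ 2 ≤ D / k := by
    rw [le_div_iff₀ hk1]
    linarith
  have hρT : (K : ℝ) * (Kmax * δ ^ 2 + CW * δ ^ 4) ≤ T := by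
    have h1 : (K : ℝ) * (Kmax * δ ^ 2) ≤ T / 2 := by
      calc (K : ℝ) * (Kmax * δ ^ 2) = Kmax * (K * δ ^ 2) := by ring
        _ ≤ Kmax * (D / W) := mul_le_mul_of_nonneg_left hKδ hKm
        _ ≤ T / 2 := hKD
    have h2 : (K : ℝ) * (CW * δ ^ 4) ≤ T / 2 := by
      have h3 : CW * (D / W) * D / (T / 2) ≤ k := by linarith
      rw [div_le_iff₀ (by positivity)] at h3
      calc (K : ℝ) * (CW * δ ^ 4) = CW * (K * δ ^ 2) * δ ^ 2 := by ring
        _ ≤ CW * (D / W) * (D / k) := by
            refine mul_le_mul (mul_le_mul_of_nonneg_left hKδ hCW0) hδ2 (sq_nonneg _)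
              (by positivity)
        _ = CW * (D / W) * D / k := by ring
        _ ≤ T / 2 := by
            rw [div_le_iff₀ hk1]
            linarith
    linarith
  have hmain := q9_main hq hP hR hc hη (W := W) (hvar W (by omega)) (hcov W (by omega)) hθ0 K
    hG.1 hG'.1 hρT (fun i => by
      obtain ⟨b, g, h⟩ := herr W (W * i) (W * (K - (i + 1))) δ hδ G hG
      refine ⟨b, g, h.trans ?_⟩
      have h1 : KP * δ ^ 2 ≤ Kmax * δ ^ 2 :=
        mul_le_mul_of_nonneg_right (by rw [hKmax]; linarith) (sq_nonneg _)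
      linarith) (fun i => by
      obtain ⟨b, g, h⟩ := herr' W (W * i) (W * (K - (i + 1))) δ hδ G' hG'
      refine ⟨b, g, h.trans ?_⟩
      have h1 : KR * δ ^ 2 ≤ Kmax * δ ^ 2 :=
        mul_le_mul_of_nonneg_right (by rw [hKmax]; linarith) (sq_nonneg _)
      linarith)
  have hfin : (η / (2 * c) + θ) * (4 + 4 * T) + (1 / θ + 1) * (2 * T) ≤
      3 * η / c + ε / 2 := by
    have h1 : (η / (2 * c) + θ) * (4 + 4 * T) ≤ (η / (2 * c) + θ) * 6 :=
      mul_le_mul_of_nonneg_left (by linarith) (by positivity)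
    have h2 : (η / (2 * c) + θ) * 6 = 3 * η / c + ε / 4 := by
      rw [hθ]
      field_simp
      ring
    linarith
  -- dropping the top digits
  have hdP := q9_drop hq he hP hdef hδ hG (W * K) l
  have hdR := q9_drop hq he hR hdef hδ hG' (W * K) l
  have hlW' : (l : ℝ) + 1 ≤ W + 1 := by
    have : (l : ℝ) ≤ W := by exact_mod_cast hlW.le
    linarith
  have hdB : δ * (d * (C * (l + 1) + 1 + K1 * C ^ 2)) ≤ δ * B := by
    rw [hB]
    gcongr
  have hclose := q9_cov_close hq (W * K + l) (fun n => G (e (P * n % q ^ (W * K + l))))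
    (fun n => G' (e (R * n % q ^ (W * K + l))))
    (fun n => G (e (P * (n % q ^ (W * K)) % q ^ (W * K))))
    (fun n => G' (e (R * (n % q ^ (W * K)) % q ^ (W * K))))
    (fun n => hG'.1 _) (fun n => hG.1 _)
  rw [q9_cov_low hq (W * K) l (fun n => G (e (P * n % q ^ (W * K))))
    (fun n => G' (e (R * n % q ^ (W * K))))] at hclose
  rw [hkKl]
  have h1 := abs_sub_abs_le_abs_sub
    (cov q (W * K + l) (fun n => G (e (P * n % q ^ (W * K + l))))
      (fun n => G' (e (R * n % q ^ (W * K + l)))))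
    (cov q (W * K) (fun n => G (e (P * n % q ^ (W * K)))) (fun n => G' (e (R * n % q ^ (W * K)))))
  linarith

end Pool.Agent.Lib.MP_3e612f_nt.QA
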