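import Pool.Agent.Lib.MP_3e612f_nt.QCov

/-!
Lower bound for the variance of a quasi-additive function.
-/

set_option autoImplicit false

namespace Pool.Agent.Lib.MP_3e612f_nt.QA

theorem q6_cov_cnd {q : ℕ} (hq : 2 ≤ q) (a l : ℕ) (U : ℕ → ℝ) :
    cov q a (cnd q l a U) (cnd q l a U) ≤ cov q (a + l) U U := by
  unfold cov
  rw [av_split q a l U, av_split q a l (fun n => U n * U n)]
  have h : av q a (fun n => cnd q l a U n * cnd q l a U n) ≤
      av q a (cnd q l a fun n => U n * U n) := by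
    apply av_mono
    intro n _
    have h1 := av_sq_le q hq l (fun y => U (q ^ a * y + n))
    unfold cnd
    calc av q l (fun y => U (q ^ a * y + n)) * av q l (fun y => U (q ^ a * y + n))
        = av q l (fun y => U (q ^ a * y + n)) ^ 2 := by ring
      _ ≤ av q l (fun y => U (q ^ a * y + n) ^ 2) := h1
      _ = _ := by
        congr 1
        funext y
        ring
  linarith

theorem q6_two_points {q : ℕ} (hq : 2 ≤ q) (w : ℕ) (u : ℕ → ℝ) (z : ℕ) (hz : z < q ^ w) :
    (u z - u 0) ^ 2 / (2 * q ^ w) ≤ cov q w u u := by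
  have hqw : (0 : ℝ) < (q : ℝ) ^ w := qpow_posR hq w
  by_cases hz0 : z = 0
  · subst hz0
    simpa using cov_self_nonneg hq w u
  rw [cov_eq hq]
  set μ := av q w u
  unfold av
  rw [div_le_div_iff₀ (by positivity) hqw]
  have h1 : (u z - μ) * (u z - μ) + (u 0 - μ) * (u 0 - μ) ≤
      ∑ n ∈ Finset.range (q ^ w), (u n - μ) * (u n - μ) := by
    have hsub : ({z, 0} : Finset ℕ) ⊆ Finset.range (q ^ w) := by
      intro x hx
      rw [Finset.mem_insert, Finset.mem_singleton] at hx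
      rw [Finset.mem_range]
      rcases hx with rfl | rfl
      · exact hz
      · exact qpow_pos hq w
    have h2 := Finset.sum_le_sum_of_subset_of_nonneg (f := fun n => (u n - μ) * (u n - μ)) hsub
      (fun _ _ _ => mul_self_nonneg _)
    rwa [Finset.sum_pair hz0] at h2
  have h3 : (u z - u 0) ^ 2 ≤ 2 * ((u z - μ) * (u z - μ) + (u 0 - μ) * (u 0 - μ)) := by
    nlinarith [sq_nonneg ((u z - μ) + (u 0 - μ))]
  calc (u z - u 0) ^ 2 * (q : ℝ) ^ w
      ≤ (2 * ∑ n ∈ Finset.range (q ^ w), (u n - μ) * (u n - μ)) * (q : ℝ) ^ w :=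
        mul_le_mul_of_nonneg_right (by linarith) hqw.le
    _ = (∑ n ∈ Finset.range (q ^ w), (u n - μ) * (u n - μ)) * (2 * (q : ℝ) ^ w) := by ring

/-- finitely many values control a linear functional -/
theorem q6_vec {d : ℕ} {e : ℕ → Fin d → ℤ} (hgen : AddSubgroup.closure (Set.range e) = ⊤)
    (v : Fin d → ℤ) : ∃ K : ℝ, 0 ≤ K ∧ ∃ X : ℕ, ∀ a : Fin d → ℝ,
      (∑ i, a i * (v i : ℝ)) ^ 2 ≤ K * ∑ x ∈ Finset.range X, lin a e x ^ 2 := by
  have hv : v ∈ AddSubgroup.closure (Set.range e) := by rw [hgen]; exact AddSubgroup.mem_top v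
  induction hv using AddSubgroup.closure_induction with
  | mem v hv =>
    obtain ⟨x, rfl⟩ := hv
    refine ⟨1, zero_le_one, x + 1, fun a => ?_⟩
    rw [one_mul]
    exact Finset.single_le_sum (f := fun x => lin a e x ^ 2) (fun _ _ => sq_nonneg _)
      (Finset.self_mem_range_succ x)
  | zero =>
    refine ⟨0, le_refl _, 0, fun a => ?_⟩
    simp
  | add v v' _ _ ih ih' =>
    obtain ⟨K, hK, X, h⟩ := ih
    obtain ⟨K', hK', X', h'⟩ := ih'
    refine ⟨2 * K + 2 * K', by positivity, max X X', fun a => ?_⟩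
    have h1 := h a
    have h2 := h' a
    have h3 : ∑ x ∈ Finset.range X, lin a e x ^ 2 ≤ ∑ x ∈ Finset.range (max X X'), lin a e x ^ 2 :=
      Finset.sum_le_sum_of_subset_of_nonneg
        (Finset.range_mono (le_max_left _ _)) (fun _ _ _ => sq_nonneg _)
    have h4 : ∑ x ∈ Finset.range X', lin a e x ^ 2 ≤ ∑ x ∈ Finset.range (max X X'), lin a e x ^ 2 :=
      Finset.sum_le_sum_of_subset_of_nonneg
        (Finset.range_mono (le_max_right _ _)) (fun _ _ _ => sq_nonneg _)
    have h5 : ∑ i, a i * (((v + v') i : ℤ) : ℝ) =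
        (∑ i, a i * (v i : ℝ)) + ∑ i, a i * (v' i : ℝ) := by
      rw [← Finset.sum_add_distrib]
      apply Finset.sum_congr rfl
      intro i _
      rw [Pi.add_apply]
      push_cast
      ring
    rw [h5]
    have h6 := mul_le_mul_of_nonneg_left h3 hK
    have h7 := mul_le_mul_of_nonneg_left h4 hK'
    nlinarith [sq_nonneg ((∑ i, a i * (v i : ℝ)) - ∑ i, a i * (v' i : ℝ))]
  | neg v _ ih =>
    obtain ⟨K, hK, X, h⟩ := ih
    refine ⟨K, hK, X, fun a => ?_⟩
    have h5 : ∑ i, a i * (((-v) i : ℤ) : ℝ) = -(∑ i, a i * (v i : ℝ)) := by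
      rw [← Finset.sum_neg_distrib]
      apply Finset.sum_congr rfl
      intro i _
      rw [Pi.neg_apply]
      push_cast
      ring
    rw [h5, neg_sq]
    exact h a

theorem q6_norm {d : ℕ} {e : ℕ → Fin d → ℤ} (hgen : AddSubgroup.closure (Set.range e) = ⊤) :
    ∃ K : ℝ, 0 < K ∧ ∃ X : ℕ, ∀ a : Fin d → ℝ,
      ∑ i, a i ^ 2 ≤ K * ∑ x ∈ Finset.range X, lin a e x ^ 2 := by
  have h := fun j : Fin d => q6_vec hgen (Pi.single j 1)
  choose K hK X hX using h
  refine ⟨1 + ∑ j, K j, by have := Finset.sum_nonneg fun j (_ : j ∈ Finset.univ) => hK j; linarith,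
    ∑ j, X j, fun a => ?_⟩
  set S := ∑ x ∈ Finset.range (∑ j, X j), lin a e x ^ 2 with hS
  have hS0 : 0 ≤ S := Finset.sum_nonneg fun _ _ => sq_nonneg _
  have h1 : ∀ j, a j ^ 2 ≤ K j * S := by
    intro j
    have h2 := hX j a
    have h3 : ∑ i, a i * (((Pi.single j 1 : Fin d → ℤ) i : ℤ) : ℝ) = a j := by
      rw [Finset.sum_eq_single j]
      · simp
      · intro b _ hb
        simp [Pi.single_eq_of_ne hb]
      · intro h
        exact absurd (Finset.mem_univ j) h
    rw [h3] at h2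
    refine h2.trans (mul_le_mul_of_nonneg_left ?_ (hK j))
    refine Finset.sum_le_sum_of_subset_of_nonneg (Finset.range_mono ?_) (fun _ _ _ => sq_nonneg _)
    exact Finset.single_le_sum (f := X) (fun _ _ => Nat.zero_le _) (Finset.mem_univ j)
  calc ∑ i, a i ^ 2 ≤ ∑ i, K i * S := Finset.sum_le_sum fun i _ => h1 i
    _ = (∑ i, K i) * S := by rw [Finset.sum_mul]
    _ ≤ (1 + ∑ j, K j) * S := by nlinarith

/-- the window inequality -/
theorem q6_window {q m : ℕ} (hq : 2 ≤ q) {F : ℕ → ℝ}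
    (hF : ∀ a y s : ℕ, s < q ^ a → F (q ^ (a + m) * y + s) = F y + F s) {w x : ℕ}
    (hx : q ^ m * x < q ^ (w - m)) (hmw : m ≤ w) (K r i : ℕ) (hi : i < K) (s : ℕ)
    (hs : s < q ^ (w * i)) (l : ℕ) :
    F x ^ 2 / (2 * q ^ w) ≤ cov q w
      (fun z => cnd q l (w * (i + 1)) (cnd q r (w * K) F) (q ^ (w * i) * z + s))
      (fun z => cnd q l (w * (i + 1)) (cnd q r (w * K) F) (q ^ (w * i) * z + s)) := by
  have hF0 : F 0 = 0 := by
    have := hF 0 0 0 (by positivity)
    simp at this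
    exact this
  have hpos : ∀ k, 0 < q ^ k := fun k => qpow_pos hq k
  -- value at a word
  have key : ∀ x' : ℕ, q ^ m * x' < q ^ (w - m) → ∀ y y' : ℕ,
      F (q ^ (w * K) * y' + (q ^ (w * (i + 1)) * y + (q ^ (w * i) * (q ^ m * x') + s))) =
        F (q ^ (w * (K - (i + 1))) * y' + y) + (F x' + F s) := by
    intro x' hx' y y'
    have hn : q ^ (w * i) * (q ^ m * x') + s < q ^ (w * i + (w - m)) := by
      rw [pow_add]
      calc q ^ (w * i) * (q ^ m * x') + s < q ^ (w * i) * (q ^ m * x') + q ^ (w * i) := by omega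
        _ = q ^ (w * i) * (q ^ m * x' + 1) := by ring
        _ ≤ q ^ (w * i) * q ^ (w - m) := Nat.mul_le_mul_left _ hx'
    have h1 := hF (w * i + (w - m)) (q ^ (w * (K - (i + 1))) * y' + y)
      (q ^ (w * i) * (q ^ m * x') + s) hn
    have h2 : w * i + (w - m) + m = w * (i + 1) := by
      rw [mul_add, mul_one]
      omega
    have h3 : q ^ (w * (i + 1)) * q ^ (w * (K - (i + 1))) = q ^ (w * K) := by
      rw [← pow_add, ← mul_add]
      congr 2
      omega
    rw [h2, mul_add, ← mul_assoc, h3, add_assoc] at h1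
    rw [h1]
    have h4 := hF (w * i) x' s hs
    have h5 : q ^ (w * i) * (q ^ m * x') + s = q ^ (w * i + m) * x' + s := by
      rw [pow_add]
      ring
    rw [h5, h4]
  have hval : ∀ x' : ℕ, q ^ m * x' < q ^ (w - m) →
      cnd q l (w * (i + 1)) (cnd q r (w * K) F) (q ^ (w * i) * (q ^ m * x') + s) =
        av q l (fun y => av q r (fun y' => F (q ^ (w * (K - (i + 1))) * y' + y))) +
          (F x' + F s) := by
    intro x' hx'
    unfold cnd
    simp only [key x' hx']
    simp only [av_add, av_const hq]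
  have h1 := q6_two_points hq w
    (fun z => cnd q l (w * (i + 1)) (cnd q r (w * K) F) (q ^ (w * i) * z + s)) (q ^ m * x)
    (lt_of_lt_of_le hx (Nat.pow_le_pow_right (by omega) (by omega)))
  have h2 : (fun z => cnd q l (w * (i + 1)) (cnd q r (w * K) F) (q ^ (w * i) * z + s)) (q ^ m * x) -
      (fun z => cnd q l (w * (i + 1)) (cnd q r (w * K) F) (q ^ (w * i) * z + s)) 0 = F x := by
    have h3 := hval x hx
    have h4 := hval 0 (by rw [mul_zero]; exact hpos _)
    rw [mul_zero] at h4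
    simp only
    rw [h3, h4, hF0]
    ring
  rw [h2] at h1
  exact h1

theorem var_ge {q m d : ℕ} (hq : 2 ≤ q) {e : ℕ → Fin d → ℤ} {C : ℝ} (he : QV q m e C)
    (hgen : AddSubgroup.closure (Set.range e) = ⊤) : ∃ c : ℝ, 0 < c ∧ ∃ W₀ : ℕ, ∀ W ≥ W₀,
      ∀ a : Fin d → ℝ, c * W * ∑ i, a i ^ 2 ≤ cov q W (lin a e) (lin a e) := by
  obtain ⟨K₀, hK₀, X, hX⟩ := q6_norm hgen
  -- window length
  set w : ℕ := m + (m + (X + 1)) with hw
  have hqw : (0 : ℝ) < (q : ℝ) ^ w := qpow_posR hq w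
  have hword : ∀ x < X, q ^ m * x < q ^ (w - m) := by
    intro x hx
    have h1 : w - m = m + (X + 1) := by omega
    rw [h1, pow_add]
    apply Nat.mul_lt_mul_of_pos_left _ (qpow_pos hq m)
    calc x < X + 1 := by omega
      _ < q ^ (X + 1) := Nat.lt_pow_self (by omega)
  have hXpos : (0 : ℝ) < (X : ℝ) + 1 := by positivity
  set c₁ : ℝ := 1 / (2 * q ^ w * ((X : ℝ) + 1) * K₀) with hc₁
  have hc₁pos : 0 < c₁ := by positivity
  have hw1 : 1 ≤ w := by omega
  refine ⟨c₁ / (2 * w), by positivity, w, fun W hW a => ?_⟩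
  set F := lin a e with hFdef
  have hgap : ∀ a' y s : ℕ, s < q ^ a' → F (q ^ (a' + m) * y + s) = F y + F s := by
    intro a' y s hs
    simp only [hFdef, lin]
    rw [← Finset.sum_add_distrib]
    apply Finset.sum_congr rfl
    intro i _
    rw [he.gap a' y s hs, Pi.add_apply]
    push_cast
    ring
  -- a good word
  have hgood : c₁ * ∑ i, a i ^ 2 ≤ 0 ∨ ∃ x < X, c₁ * ∑ i, a i ^ 2 ≤ F x ^ 2 / (2 * q ^ w) := by
    by_contra hcon
    push Not at hcon
    obtain ⟨h1, h2⟩ := hcon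
    have h3 := hX a
    have h4 : ∑ x ∈ Finset.range X, F x ^ 2 ≤
        ∑ x ∈ Finset.range X, (2 * q ^ w) * (c₁ * ∑ i, a i ^ 2) := by
      apply Finset.sum_le_sum
      intro x hx
      have h5 := h2 x (Finset.mem_range.1 hx)
      rw [div_lt_iff₀ (by positivity)] at h5
      linarith
    rw [Finset.sum_const, Finset.card_range, nsmul_eq_mul] at h4
    have h5 : ∑ i, a i ^ 2 ≤ K₀ * ((X : ℝ) * ((2 * q ^ w) * (c₁ * ∑ i, a i ^ 2))) :=
      h3.trans (mul_le_mul_of_nonneg_left h4 hK₀.le)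
    have h6 : K₀ * ((X : ℝ) * ((2 * q ^ w) * (c₁ * ∑ i, a i ^ 2))) =
        ((X : ℝ) / ((X : ℝ) + 1)) * ∑ i, a i ^ 2 := by
      rw [hc₁]
      field_simp
    rw [h6] at h5
    have h7 : 0 < ∑ i, a i ^ 2 := by
      by_contra h8
      push Not at h8
      have : c₁ * ∑ i, a i ^ 2 ≤ 0 := mul_nonpos_of_nonneg_of_nonpos hc₁pos.le h8
      linarith
    have h8 : (X : ℝ) / ((X : ℝ) + 1) < 1 := by
      rw [div_lt_one hXpos]
      linarith
    nlinarith
  set K := W / w with hKdef
  set r := W % w with hrdef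
  have hWK : W = w * K + r := (Nat.div_add_mod W w).symm
  have hK1 : 1 ≤ K := by
    rw [hKdef]
    exact (Nat.one_le_div_iff (by omega)).2 hW
  have hrw : r < w := Nat.mod_lt _ (by omega)
  have hmain : (K : ℝ) * (c₁ * ∑ i, a i ^ 2) ≤ cov q W F F := by
    rw [hWK]
    refine le_trans ?_ (q6_cov_cnd hq (w * K) r F)
    rw [cov_decomp hq w K]
    rcases hgood with hneg | ⟨x, hx, hxF⟩
    · have h1 : (K : ℝ) * (c₁ * ∑ i, a i ^ 2) ≤ 0 :=
        mul_nonpos_of_nonneg_of_nonpos (by positivity) hneg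
      refine h1.trans (Finset.sum_nonneg fun i _ => av_nonneg fun s _ => cov_self_nonneg hq _ _)
    · calc (K : ℝ) * (c₁ * ∑ i, a i ^ 2) = ∑ _i ∈ Finset.range K, c₁ * ∑ i, a i ^ 2 := by
            rw [Finset.sum_const, Finset.card_range, nsmul_eq_mul]
        _ ≤ _ := by
            apply Finset.sum_le_sum
            intro i hi
            have hi' := Finset.mem_range.1 hi
            have h1 : av q (w * i) (fun _ => c₁ * ∑ i, a i ^ 2) = c₁ * ∑ i, a i ^ 2 :=
              av_const hq _ _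
            rw [← h1]
            apply av_mono
            intro s hs
            exact hxF.trans (q6_window hq hgap (hword x hx) (by omega) K r i hi' s hs _)
  refine le_trans ?_ hmain
  have hS0 : 0 ≤ ∑ i, a i ^ 2 := Finset.sum_nonneg fun _ _ => sq_nonneg _
  have hWle : (W : ℝ) ≤ 2 * w * K := by
    have h1 : W ≤ 2 * w * K := by
      have h2 : w ≤ w * K := Nat.le_mul_of_pos_right w hK1
      calc W = w * K + r := hWK
        _ ≤ w * K + w := by omega
        _ ≤ w * K + w * K := by omega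
        _ = 2 * w * K := by ring
    exact_mod_cast h1
  have hwpos : (0 : ℝ) < w := by exact_mod_cast hw1
  calc c₁ / (2 * w) * W * ∑ i, a i ^ 2 ≤ c₁ / (2 * w) * (2 * w * K) * ∑ i, a i ^ 2 := by
        apply mul_le_mul_of_nonneg_right _ hS0
        exact mul_le_mul_of_nonneg_left hWle (by positivity)
    _ = (K : ℝ) * (c₁ * ∑ i, a i ^ 2) := by
        field_simp

end Pool.Agent.Lib.MP_3e612f_nt.QA
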