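import Pool.Agent.Lib.MP_3e612f_nt.QMean
import Pool.Agent.Lib.MP_3e612f_nt.QIndep
import Pool.Agent.Lib.MP_3e612f_nt.QCovUp
import Pool.Agent.Lib.MP_3e612f_nt.QVarLow

/-!
The values of a quasi-additive function at multiples of `n` by two primes are nearly independent.
-/

set_option autoImplicit false

namespace Pool.Agent.Lib.MP_3e612f_nt.QA

open Filter Topology

variable {d : ℕ}

/-- smoothing on the first side -/
theorem side_smooth₁ {q m P R : ℕ} (hq : 2 ≤ q) {e : ℕ → Fin d → ℤ}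
    (he : ∀ a y s : ℕ, s < q ^ a → e (q ^ (a + m) * y + s) = e y + e s)
    (hgen : AddSubgroup.closure (Set.range e) = ⊤)
    (hgood : ∀ v ∈ Lam e, Good q P R e v 0) :
    ∃ C : ℝ, 0 ≤ C ∧ ∀ L : ℕ, 1 ≤ L → ∀ h k y c d' z z' : ℕ, c ≤ P → d' ≤ R → z < q ^ h →
      z' < q ^ h → ∀ u : Fin d → ℤ,
      (∀ n, e (q ^ h * (P * (q ^ k * y + n) + c) + z) - u ∈ Lam e) →
      ∀ g f : (Fin d → ℤ) → ℝ, (∀ x, |g x| ≤ 1) → (∀ x, |f x| ≤ 1) →
        |Phi q P R e h k y c d' z z' (fun x x' => g x * f x') -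
          Phi q P R e h k y c d' z z' (fun x x' => smo L (ext e u g) x * f x')| ≤
          C * L / Real.sqrt (k + 1) := by
  obtain ⟨C, hC0, hC⟩ := lamv_cost hq he hgen (N := fun v c =>
      ∀ h k y c' d' z z' : ℕ, c' ≤ P → d' ≤ R → z < q ^ h → z' < q ^ h →
        ∀ g f : (Fin d → ℤ) → ℝ, (∀ x, |g x| ≤ 1) → (∀ x, |f x| ≤ 1) →
          |Phi q P R e h k y c' d' z z' (fun x x' => g x * f x') -
            Phi q P R e h k y c' d' z z' (fun x x' => g (x + v) * f x')| ≤
            c / Real.sqrt (k + 1))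
    (fun h k y c' d' z z' _ _ _ _ g f _ _ => by simp)
    (fun v w c c' hv hw h k y c'' d' z z' h1 h2 h3 h4 g f hg hf => by
      have b1 := hv h k y c'' d' z z' h1 h2 h3 h4 g f hg hf
      have b2 := hw h k y c'' d' z z' h1 h2 h3 h4 (fun x => g (x + v)) f (fun x => hg _) hf
      have e1 : (fun x x' => g (x + (v + w)) * f x') =
          fun x x' => (fun x => g (x + v)) (x + w) * f x' := by
        funext x x'
        dsimp only
        congr 2
        abel
      rw [e1, add_div]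
      exact (abs_sub_le _ _ _).trans (add_le_add b1 b2))
    (fun v c c' hv hcc h k y c'' d' z z' h1 h2 h3 h4 g f hg hf =>
      (hv h k y c'' d' z z' h1 h2 h3 h4 g f hg hf).trans
        (div_le_div_of_nonneg_right hcc (Real.sqrt_nonneg _)))
    (fun v hv => by
      obtain ⟨c, hc, hh⟩ := hgood v hv
      refine ⟨c, hc, fun h k y c' d' z z' h1 h2 h3 h4 g f hg hf => ?_⟩
      have := hh h k y c' d' z z' h1 h2 h3 h4 (fun x x' => g x * f x') (fun x x' => by
        rw [abs_mul]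
        exact mul_le_one₀ (hg _) (abs_nonneg _) (hf _))
      simpa only [add_zero] using this)
  refine ⟨C, hC0, fun L hL h k y c d' z z' h1 h2 h3 h4 u hu g f hg hf => ?_⟩
  unfold Phi
  refine smo_close (q := q) (k := k) hL
    (fun n => e (q ^ h * (P * (q ^ k * y + n) + c) + z))
    (fun n => f (e (q ^ h * (R * (q ^ k * y + n) + d') + z'))) (ext e u g) fun v hv0 hv1 => ?_
  have b1 := hC L hL v hv0 hv1 h k y c d' z z' h1 h2 h3 h4 g f hg hf
  unfold Phi at b1
  have e1 : (fun n => ext e u g (e (q ^ h * (P * (q ^ k * y + n) + c) + z) + v) *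
      f (e (q ^ h * (R * (q ^ k * y + n) + d') + z'))) =
      fun n => g (e (q ^ h * (P * (q ^ k * y + n) + c) + z) + lamv e v) *
      f (e (q ^ h * (R * (q ^ k * y + n) + d') + z')) := by
    funext n
    rw [ext_add (hu n)]
  rw [e1]
  exact b1

/-- smoothing on the second side -/
theorem side_smooth₂ {q m P R : ℕ} (hq : 2 ≤ q) {e : ℕ → Fin d → ℤ}
    (he : ∀ a y s : ℕ, s < q ^ a → e (q ^ (a + m) * y + s) = e y + e s)
    (hgen : AddSubgroup.closure (Set.range e) = ⊤)
    (hgood : ∀ v ∈ Lam e, Good q P R e 0 v) :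
    ∃ C : ℝ, 0 ≤ C ∧ ∀ L : ℕ, 1 ≤ L → ∀ h k y c d' z z' : ℕ, c ≤ P → d' ≤ R → z < q ^ h →
      z' < q ^ h → ∀ u : Fin d → ℤ,
      (∀ n, e (q ^ h * (R * (q ^ k * y + n) + d') + z') - u ∈ Lam e) →
      ∀ f g : (Fin d → ℤ) → ℝ, (∀ x, |f x| ≤ 1) → (∀ x, |g x| ≤ 1) →
        |Phi q P R e h k y c d' z z' (fun x x' => f x * g x') -
          Phi q P R e h k y c d' z z' (fun x x' => f x * smo L (ext e u g) x')| ≤
          C * L / Real.sqrt (k + 1) := by
  obtain ⟨C, hC0, hC⟩ := lamv_cost hq he hgen (N := fun v c =>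
      ∀ h k y c' d' z z' : ℕ, c' ≤ P → d' ≤ R → z < q ^ h → z' < q ^ h →
        ∀ f g : (Fin d → ℤ) → ℝ, (∀ x, |f x| ≤ 1) → (∀ x, |g x| ≤ 1) →
          |Phi q P R e h k y c' d' z z' (fun x x' => f x * g x') -
            Phi q P R e h k y c' d' z z' (fun x x' => f x * g (x' + v))| ≤
            c / Real.sqrt (k + 1))
    (fun h k y c' d' z z' _ _ _ _ g f _ _ => by simp)
    (fun v w c c' hv hw h k y c'' d' z z' h1 h2 h3 h4 f g hf hg => by
      have b1 := hv h k y c'' d' z z' h1 h2 h3 h4 f g hf hg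
      have b2 := hw h k y c'' d' z z' h1 h2 h3 h4 f (fun x => g (x + v)) hf (fun x => hg _)
      have e1 : (fun x x' => f x * g (x' + (v + w))) =
          fun x x' => f x * (fun x => g (x + v)) (x' + w) := by
        funext x x'
        dsimp only
        congr 2
        abel
      rw [e1, add_div]
      exact (abs_sub_le _ _ _).trans (add_le_add b1 b2))
    (fun v c c' hv hcc h k y c'' d' z z' h1 h2 h3 h4 g f hg hf =>
      (hv h k y c'' d' z z' h1 h2 h3 h4 g f hg hf).trans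
        (div_le_div_of_nonneg_right hcc (Real.sqrt_nonneg _)))
    (fun v hv => by
      obtain ⟨c, hc, hh⟩ := hgood v hv
      refine ⟨c, hc, fun h k y c' d' z z' h1 h2 h3 h4 f g hf hg => ?_⟩
      have := hh h k y c' d' z z' h1 h2 h3 h4 (fun x x' => f x * g x') (fun x x' => by
        rw [abs_mul]
        exact mul_le_one₀ (hf _) (abs_nonneg _) (hg _))
      simpa only [add_zero] using this)
  refine ⟨C, hC0, fun L hL h k y c d' z z' h1 h2 h3 h4 u hu f g hf hg => ?_⟩
  unfold Phi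
  have hcomm : ∀ G : (Fin d → ℤ) → ℝ,
      (fun n => f (e (q ^ h * (P * (q ^ k * y + n) + c) + z)) *
        G (e (q ^ h * (R * (q ^ k * y + n) + d') + z'))) =
      fun n => G (e (q ^ h * (R * (q ^ k * y + n) + d') + z')) *
        f (e (q ^ h * (P * (q ^ k * y + n) + c) + z)) := fun G => by
    funext n
    ring
  rw [hcomm, hcomm]
  refine smo_close (q := q) (k := k) hL
    (fun n => e (q ^ h * (R * (q ^ k * y + n) + d') + z'))
    (fun n => f (e (q ^ h * (P * (q ^ k * y + n) + c) + z))) (ext e u g) fun v hv0 hv1 => ?_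
  have b1 := hC L hL v hv0 hv1 h k y c d' z z' h1 h2 h3 h4 f g hf hg
  unfold Phi at b1
  rw [hcomm g, hcomm (fun x' => g (x' + lamv e v))] at b1
  have e1 : (fun n => ext e u g (e (q ^ h * (R * (q ^ k * y + n) + d') + z') + v) *
      f (e (q ^ h * (P * (q ^ k * y + n) + c) + z))) =
      fun n => g (e (q ^ h * (R * (q ^ k * y + n) + d') + z') + lamv e v) *
      f (e (q ^ h * (P * (q ^ k * y + n) + c) + z)) := by
    funext n
    rw [ext_add (hu n)]
  rw [e1]
  exact b1

theorem coset_mem {q m P : ℕ} (hq : 2 ≤ q) {e : ℕ → Fin d → ℤ}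
    (he : ∀ a y s : ℕ, s < q ^ a → e (q ^ (a + m) * y + s) = e y + e s) (h N c z : ℕ)
    (hP : (q - 1) ∣ P) :
    e (q ^ h * (P * N + c) + z) - (c + z) • e 1 ∈ Lam e := by
  have h1 : q ^ h * (P * N + c) + z ≡ c + z [MOD (q - 1)] := by
    have hq1 : q ≡ 1 [MOD (q - 1)] := by
      have h3 : q = 1 + (q - 1) := by omega
      have h4 : 1 + (q - 1) ≡ 1 [MOD (q - 1)] := by
        show (1 + (q - 1)) % (q - 1) = 1 % (q - 1)
        exact Nat.add_mod_right 1 (q - 1)
      rwa [← h3] at h4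
    have hqh : q ^ h ≡ 1 [MOD (q - 1)] := by
      have := hq1.pow h
      rwa [one_pow] at this
    have hP0 : P * N ≡ 0 [MOD (q - 1)] :=
      (Nat.modEq_zero_iff_dvd.mpr (hP.mul_right N))
    calc q ^ h * (P * N + c) + z ≡ 1 * (0 + c) + z [MOD (q - 1)] :=
          (hqh.mul (hP0.add_right c)).add_right z
      _ = c + z := by ring
  have h2 := lam_mod hq he h1
  have h3 := lam_nsmul e (c + z)
  have e1 : e (q ^ h * (P * N + c) + z) - (c + z) • e 1 =
      (e (q ^ h * (P * N + c) + z) - e (c + z)) + (e (c + z) - (c + z) • e 1) := by abel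
  rw [e1]
  exact AddSubgroup.add_mem _ h2 h3

theorem sum_abs_le (a : Fin d → ℝ) : ∑ i, |a i| ≤ Real.sqrt d * Real.sqrt (∑ i, a i ^ 2) := by
  have h := sq_sum_le_card_mul_sum_sq (s := (Finset.univ : Finset (Fin d))) (f := fun i => |a i|)
  simp only [Finset.card_univ, Fintype.card_fin, sq_abs] at h
  rw [← Real.sqrt_mul (Nat.cast_nonneg d)]
  exact Real.le_sqrt_of_sq_le h



theorem tendsto_div_sqrt (K : ℝ) :
    Tendsto (fun k : ℕ => K / Real.sqrt ((k : ℝ) + 1)) atTop (𝓝 0) := by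
  have h1 : Tendsto (fun k : ℕ => Real.sqrt ((k : ℝ) + 1)) atTop atTop := by
    refine Real.tendsto_sqrt_atTop.comp ?_
    exact tendsto_atTop_add_const_right _ _ tendsto_natCast_atTop_atTop
  exact tendsto_const_nhds.div_atTop h1

/-- the values at multiples of `n` by `p (q - 1)` and `r (q - 1)` are nearly independent -/
theorem pair_q {q m : ℕ} (hq : 2 ≤ q) {e : ℕ → Fin d → ℤ} {C : ℝ} (he : QV q m e C)
    (hgen : AddSubgroup.closure (Set.range e) = ⊤) {ε : ℝ} (hε : 0 < ε) :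
    ∃ r₀ : ℕ, ∀ p r : ℕ, 1 ≤ p → p.Coprime q → r.Coprime q → p.Coprime r → r₀ ≤ r →
      2 * q ^ m * p ≤ r → ∀ h Y : ℕ, ∀ᶠ k : ℕ in atTop, ∀ y ≤ Y, ∀ c ≤ p * (q - 1),
      ∀ d' ≤ r * (q - 1), ∀ z < q ^ h, ∀ z' < q ^ h, ∀ g g' : (Fin d → ℤ) → ℝ,
      (∀ x, |g x| ≤ 1) → (∀ x, |g' x| ≤ 1) →
        |Phi q (p * (q - 1)) (r * (q - 1)) e h k y c d' z z' (fun x x' => g x * g' x') -
          mean q k e g (c + z) * mean q k e g' (d' + z')| ≤ ε ∧
        |Phi q (p * (q - 1)) (r * (q - 1)) e h k y c d' z z' (fun x _ => g x) -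
          mean q k e g (c + z)| ≤ ε ∧
        |Phi q (p * (q - 1)) (r * (q - 1)) e h k y c d' z z' (fun _ x' => g' x') -
          mean q k e g' (d' + z')| ≤ ε := by
  obtain ⟨cv, hcv, W₀, hvar⟩ := var_ge hq he hgen
  set η : ℝ := cv * ε / 24 with hη
  have hη0 : 0 < η := by positivity
  have hetac : 3 * η / cv = ε / 8 := by
    rw [hη]
    field_simp
    norm_num
  set η' : ℝ := η / (2 * (C ^ 2 * d + 1)) with hη'
  have hCd : 0 ≤ C ^ 2 * d := by positivity
  have hη'0 : 0 < η' := by positivity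
  obtain ⟨r₀, hr₀⟩ := cov_small (q := q) (m := m) hq hη'0
  obtain ⟨Cm, hCm0, hCm⟩ := mean_smooth hq he.gap hgen
  refine ⟨r₀, fun p r hp1 hpq hrq hpr hr hpr2 h Y => ?_⟩
  have hsq : (q - 1).Coprime q := by
    have h1 : Nat.Coprime (q - 1) (q - 1 + 1) := by simp
    have h2 : q - 1 + 1 = q := by omega
    rwa [h2] at h1
  have hs1 : 1 ≤ q - 1 := by omega
  set P : ℕ := p * (q - 1) with hP
  set R : ℕ := r * (q - 1) with hR
  have hPq : P.Coprime q := Nat.Coprime.mul_left hpq hsq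
  have hRq : R.Coprime q := Nat.Coprime.mul_left hrq hsq
  have hP1 : 1 ≤ P := Nat.mul_pos hp1 hs1
  have hPR : 2 * q ^ m * P ≤ R := by
    rw [hP, hR, ← mul_assoc]
    exact Nat.mul_le_mul_right _ hpr2
  have hPd : (q - 1) ∣ P := Dvd.intro_left p rfl
  have hRd : (q - 1) ∣ R := Dvd.intro_left r rfl
  have hgood : ∀ v ∈ Lam e, ∀ v' ∈ Lam e, Good q P R e v v' := fun v hv v' hv' =>
    good_all hq he.gap hPq hRq hPR hP1 hv hv'
  obtain ⟨C₁, hC₁0, hC₁⟩ := side_smooth₁ hq he.gap hgen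
    (fun v hv => hgood v hv 0 (AddSubgroup.zero_mem _))
  obtain ⟨C₂, hC₂0, hC₂⟩ := side_smooth₂ hq he.gap hgen
    (fun v hv => hgood 0 (AddSubgroup.zero_mem _) v hv)
  obtain ⟨K₁, hK₁0, hK₁⟩ := drop_close hq he hPq h Y
  obtain ⟨K₂, hK₂0, hK₂⟩ := drop_close hq he hRq h Y
  -- the covariance hypothesis
  obtain ⟨Kc, hKc0, hKc⟩ := hr₀ p r (q - 1) hp1 hs1 hpq hrq hsq hpr hr
  set W₁ : ℕ := max W₀ ⌈Kc / η'⌉₊ with hW₁
  have hcov : ∀ W ≥ W₁, ∀ a b : Fin d → ℝ,
      |cov q W (fun n => lin a e (P * n % q ^ W)) (fun n => lin b e (R * n % q ^ W))| ≤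
        η * W * (Real.sqrt (∑ i, a i ^ 2) * Real.sqrt (∑ i, b i ^ 2)) := by
    intro W hW a b
    have h1 := hKc (lin a e) (lin b e) _ _ (he.lin a) (he.lin b) W
    have h2 : Kc ≤ η' * W := by
      have h3 : Kc / η' ≤ W := (Nat.le_ceil _).trans (by
        exact_mod_cast (le_max_right _ _).trans hW)
      rw [div_le_iff₀ hη'0] at h3
      linarith
    refine h1.trans ?_
    set A := Real.sqrt (∑ i, a i ^ 2) with hA
    set B := Real.sqrt (∑ i, b i ^ 2) with hB
    have hA0 : 0 ≤ A := Real.sqrt_nonneg _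
    have hB0 : 0 ≤ B := Real.sqrt_nonneg _
    have ha := sum_abs_le a
    have hb := sum_abs_le b
    have hC0 := he.nonneg
    have hW0 : (0 : ℝ) ≤ W := Nat.cast_nonneg W
    have h4 : C * ∑ i, |a i| ≤ C * (Real.sqrt d * A) := mul_le_mul_of_nonneg_left ha hC0
    have h5 : C * ∑ i, |b i| ≤ C * (Real.sqrt d * B) := mul_le_mul_of_nonneg_left hb hC0
    have h6 : 0 ≤ C * ∑ i, |a i| := mul_nonneg hC0 (Finset.sum_nonneg fun i _ => abs_nonneg _)
    have h7 : 0 ≤ C * ∑ i, |b i| := mul_nonneg hC0 (Finset.sum_nonneg fun i _ => abs_nonneg _)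
    have h8 : η' * W + Kc ≤ 2 * η' * W := by linarith
    have h9 : 0 ≤ 2 * η' * W := by positivity
    calc (η' * W + Kc) * (C * ∑ i, |a i|) * (C * ∑ i, |b i|)
        ≤ 2 * η' * W * (C * (Real.sqrt d * A)) * (C * (Real.sqrt d * B)) := by
          refine mul_le_mul (mul_le_mul h8 h4 h6 h9) h5 h7 (by positivity)
      _ = η' * (2 * (C ^ 2 * (Real.sqrt d * Real.sqrt d))) * W * (A * B) := by ring
      _ = η' * (2 * (C ^ 2 * d)) * W * (A * B) := by rw [Real.mul_self_sqrt (Nat.cast_nonneg d)]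
      _ ≤ η * W * (A * B) := by
          refine mul_le_mul_of_nonneg_right (mul_le_mul_of_nonneg_right ?_ hW0) (by positivity)
          rw [hη', div_mul_eq_mul_div, div_le_iff₀ (by positivity)]
          nlinarith
  have hvar' : ∀ W ≥ W₁, ∀ a : Fin d → ℝ, cv * W * ∑ i, a i ^ 2 ≤
      cov q W (lin a e) (lin a e) := fun W hW a => hvar W ((le_max_left _ _).trans hW) a
  -- the smoothing scale
  set C₀ : ℝ := C₁ + C₂ + 2 * Cm + 1 with hC₀
  have hC₀0 : 0 < C₀ := by positivity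
  set ε₁ : ℝ := ε / (8 * C₀) with hε₁
  have hε₁0 : 0 < ε₁ := by positivity
  have q1 : C₀ * ε₁ = ε / 8 := by
    rw [hε₁]
    field_simp
  set D : ℝ := (2 / ε₁) ^ 2 with hD
  have hD0 : 0 < D := by positivity
  have hind := indep hq he hPq hRq hcv hη0.le hvar' hcov (show (0 : ℝ) < ε / 8 by positivity) hD0
  set K : ℝ := C₀ + 2 / ε₁ * (d * K₁ + d * K₂) with hK
  filter_upwards [hind, (tendsto_div_sqrt K).eventually_le_const
    (show (0 : ℝ) < ε / 8 by positivity)] with k hk1 hk2 y hy c hc d' hd' z hz z' hz' g g' hg hg'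
  set w : ℝ := Real.sqrt ((k : ℝ) + 1) with hw
  have hw1 : 1 ≤ w := Real.one_le_sqrt.mpr (by linarith [(Nat.cast_nonneg k : (0 : ℝ) ≤ k)])
  have hw0 : 0 < w := by linarith
  have hw2 : w ^ 2 = (k : ℝ) + 1 := Real.sq_sqrt (by positivity)
  set L : ℕ := ⌈ε₁ * w⌉₊ with hLdef
  have hL1 : ε₁ * w ≤ L := Nat.le_ceil _
  have hL2 : (L : ℝ) ≤ ε₁ * w + 1 := (Nat.ceil_lt_add_one (by positivity)).le
  have hL : 1 ≤ L := Nat.one_le_iff_ne_zero.mpr (Nat.ceil_pos.mpr (by positivity)).ne'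
  have hLpos : (0 : ℝ) < L := by exact_mod_cast hL
  have hLw : (L : ℝ) / w ≤ ε₁ + 1 / w := by
    rw [div_le_iff₀ hw0, add_mul, one_div, inv_mul_cancel₀ hw0.ne']
    exact hL2
  set δ : ℝ := 2 / L with hδ
  have hδ0 : 0 ≤ δ := by positivity
  have hδ1 : δ ≤ 2 / ε₁ / w := by
    rw [hδ, div_div, div_le_div_iff_of_pos_left (by norm_num) hLpos (by positivity)]
    exact hL1
  have hkδ : k * δ ^ 2 ≤ D := by
    have h1 : δ ^ 2 ≤ (2 / ε₁ / w) ^ 2 := pow_le_pow_left₀ hδ0 hδ1 2
    have h2 : (2 / ε₁ / w) ^ 2 = D / w ^ 2 := by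
      rw [hD, div_pow (2 / ε₁) w]
    rw [h2, le_div_iff₀ (by positivity), hw2] at h1
    have h3 : 0 ≤ δ ^ 2 := sq_nonneg _
    nlinarith
  -- the cosets
  set u : Fin d → ℤ := (c + z) • e 1 with hu
  set u' : Fin d → ℤ := (d' + z') • e 1 with hu'
  have hX : ∀ n, e (q ^ h * (P * (q ^ k * y + n) + c) + z) - u ∈ Lam e := fun n =>
    coset_mem hq he.gap h _ c z hPd
  have hX' : ∀ n, e (q ^ h * (R * (q ^ k * y + n) + d') + z') - u' ∈ Lam e := fun n =>
    coset_mem hq he.gap h _ d' z' hRd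
  set G : (Fin d → ℤ) → ℝ := smo L (ext e u g) with hG
  set G' : (Fin d → ℤ) → ℝ := smo L (ext e u' g') with hG'
  have hGs : Slow δ G := smo_slow hL (fun x => ext_abs hg u x)
  have hGs' : Slow δ G' := smo_slow hL (fun x => ext_abs hg' u' x)
  have hone : Slow δ (fun _ : Fin d → ℤ => (1 : ℝ)) :=
    ⟨fun x => by simp, fun x i => by simpa using hδ0, fun x i j => by
      norm_num
      positivity⟩
  -- the steps for the pair
  have s1 := hC₁ L hL h k y c d' z z' hc hd' hz hz' u hX g g' hg hg'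
  have s2 := hC₂ L hL h k y c d' z z' hc hd' hz hz' u' hX' G g' hGs.1 hg'
  have s3 : |Phi q P R e h k y c d' z z' (fun x x' => G x * G' x') -
      av q k (fun n => G (e (P * n % q ^ k)) * G' (e (R * n % q ^ k)))| ≤
      δ * (d * K₁) + δ * (d * K₂) := by
    unfold Phi
    have t1 := slow_av_close hδ0 hGs (hK₁ k y c z hy hc hz)
      (f := fun n => G' (e (q ^ h * (R * (q ^ k * y + n) + d') + z'))) (fun n => hGs'.1 _)
    have t2 := slow_av_close hδ0 hGs' (hK₂ k y d' z' hy hd' hz')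
      (f := fun n => G (e (P * n % q ^ k))) (fun n => hGs.1 _)
    have e1 : (fun n => G' (e (q ^ h * (R * (q ^ k * y + n) + d') + z')) *
        G (e (P * n % q ^ k))) = fun n => G (e (P * n % q ^ k)) *
        G' (e (q ^ h * (R * (q ^ k * y + n) + d') + z')) := by
      funext n
      ring
    have e2 : (fun n => G' (e (R * n % q ^ k)) * G (e (P * n % q ^ k))) =
        fun n => G (e (P * n % q ^ k)) * G' (e (R * n % q ^ k)) := by
      funext n
      ring
    rw [e1, e2] at t2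
    exact (abs_sub_le _ _ _).trans (add_le_add t1 t2)
  have hperm : ∀ (S : ℕ) (hS : S.Coprime q) (F : (Fin d → ℤ) → ℝ),
      av q k (fun n => F (e (S * n % q ^ k))) = av q k (fun n => F (e n)) := by
    intro S hS F
    have := av_perm hq hS 0 k (fun n => F (e n))
    simpa only [add_zero] using this
  have s4 := hk1 δ hδ0 hkδ G G' hGs hGs'
  unfold cov at s4
  rw [hperm P hPq G, hperm R hRq G', hetac] at s4
  -- the means
  have m1 := hCm k L hL (ext e u g) (fun x => ext_abs hg u x)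
  have m2 := hCm k L hL (ext e u' g') (fun x => ext_abs hg' u' x)
  have hM1 : |av q k (fun n => G (e n))| ≤ 1 := abs_av_le hq fun n _ => hGs.1 _
  have hM2 : |mean q k e g' (d' + z')| ≤ 1 := mean_abs hq hg' _
  have s5 : |av q k (fun n => G (e n)) * av q k (fun n => G' (e n)) -
      mean q k e g (c + z) * mean q k e g' (d' + z')| ≤ 2 * (Cm * L / w) := by
    have e1 : av q k (fun n => G (e n)) * av q k (fun n => G' (e n)) -
        mean q k e g (c + z) * mean q k e g' (d' + z') =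
        av q k (fun n => G (e n)) * (av q k (fun n => G' (e n)) - mean q k e g' (d' + z')) +
        (av q k (fun n => G (e n)) - mean q k e g (c + z)) * mean q k e g' (d' + z') := by ring
    rw [e1]
    refine (abs_add_le _ _).trans ?_
    rw [abs_mul, abs_mul]
    have b1 : |av q k (fun n => G' (e n)) - mean q k e g' (d' + z')| ≤ Cm * L / w := by
      rw [abs_sub_comm]
      exact m2
    have b2 : |av q k (fun n => G (e n)) - mean q k e g (c + z)| ≤ Cm * L / w := by
      rw [abs_sub_comm]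
      exact m1
    have b3 := mul_le_of_le_one_left (abs_nonneg
      (av q k (fun n => G' (e n)) - mean q k e g' (d' + z'))) hM1
    have b4 := mul_le_of_le_one_right (abs_nonneg
      (av q k (fun n => G (e n)) - mean q k e g (c + z))) hM2
    linarith
  -- the total error
  have hkey : C₁ * L / w + C₂ * L / w + 2 * (Cm * L / w) + (δ * (d * K₁) + δ * (d * K₂)) ≤
      ε / 4 := by
    have a1 : C₁ * L / w + C₂ * L / w + 2 * (Cm * L / w) ≤ C₀ * (ε₁ + 1 / w) := by
      have e1 : C₁ * L / w + C₂ * L / w + 2 * (Cm * L / w) = (C₁ + C₂ + 2 * Cm) * (L / w) := by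
        ring
      rw [e1]
      refine mul_le_mul (by linarith) hLw (by positivity) hC₀0.le
    have a2 : δ * (d * K₁) + δ * (d * K₂) ≤ 2 / ε₁ / w * (d * K₁ + d * K₂) := by
      rw [← mul_add]
      exact mul_le_mul_of_nonneg_right hδ1 (by positivity)
    have a3 : K / w = C₀ * (1 / w) + 2 / ε₁ / w * (d * K₁ + d * K₂) := by
      rw [hK]
      ring
    have a4 : C₀ * (ε₁ + 1 / w) = C₀ * ε₁ + C₀ * (1 / w) := by ring
    linarith
  refine ⟨?_, ?_, ?_⟩
  · have t1 := abs_le.mp s1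
    have t2 := abs_le.mp s2
    have t3 := abs_le.mp s3
    have t4 := abs_le.mp s4
    have t5 := abs_le.mp s5
    rw [abs_le]
    constructor
    · linarith [t1.1, t2.1, t3.1, t4.1, t5.1]
    · linarith [t1.2, t2.2, t3.2, t4.2, t5.2]
  · have r1 := hC₁ L hL h k y c d' z z' hc hd' hz hz' u hX g (fun _ => 1) hg (fun _ => by simp)
    have r2 := slow_av_close hδ0 hGs (hK₁ k y c z hy hc hz) (f := fun _ => 1) (fun n => by simp)
    unfold Phi at r1 ⊢
    simp only [mul_one] at r1 r2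
    rw [hperm P hPq G] at r2
    have t1 := abs_le.mp r1
    have t2 := abs_le.mp r2
    have t3 := abs_le.mp m1
    have p1 : 0 ≤ C₂ * L / w := by positivity
    have p2 : 0 ≤ Cm * L / w := by positivity
    have p3 : 0 ≤ δ * (d * K₂) := by positivity
    have hmean : mean q k e g (c + z) = av q k (fun n => ext e u g (e n)) := rfl
    rw [hmean, abs_le]
    constructor
    · linarith [t1.1, t2.1, t3.2]
    · linarith [t1.2, t2.2, t3.1]
  · have r1 := hC₂ L hL h k y c d' z z' hc hd' hz hz' u' hX' (fun _ => 1) g' (fun _ => by simp) hg'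
    have r2 := slow_av_close hδ0 hGs' (hK₂ k y d' z' hy hd' hz') (f := fun _ => 1)
      (fun n => by simp)
    unfold Phi at r1 ⊢
    simp only [mul_one, one_mul] at r1 r2
    rw [hperm R hRq G'] at r2
    have t1 := abs_le.mp r1
    have t2 := abs_le.mp r2
    have t3 := abs_le.mp m2
    have p1 : 0 ≤ C₁ * L / w := by positivity
    have p2 : 0 ≤ Cm * L / w := by positivity
    have p3 : 0 ≤ δ * (d * K₁) := by positivity
    have hmean : mean q k e g' (d' + z') = av q k (fun n => ext e u' g' (e n)) := rfl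
    rw [hmean, abs_le]
    constructor
    · linarith [t1.1, t2.1, t3.2]
    · linarith [t1.2, t2.2, t3.1]

end Pool.Agent.Lib.MP_3e612f_nt.QA
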