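import Pool.Agent.Lib.MP_3e612f_nt.Defs

/-!
Hierarchical quantization: a sequence with few classes of segments is uniformly approximated by
one which takes finitely many values and has few aligned blocks.
-/

set_option autoImplicit false

namespace Pool.Agent.Lib.MP_3e612f_nt

open Filter Topology Set

/-- few classes of segments -/
def Seg {E : Type*} [PseudoMetricSpace E] (a : ℕ → E) : Prop :=
  ∀ ε > 0, ∀ δ > 0, ∀ᶠ L : ℕ in atTop, ∃ M : ℕ, Real.log M ≤ δ * L ∧ ∃ c : ℕ → Fin M,
    ∀ n n', c n = c n' → ∀ i < L, dist (a (n + i)) (a (n' + i)) < ε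

/-- one level of the quantization -/
theorem quant_step {E : Type*} [PseudoMetricSpace E] {a : ℕ → E} (h : Seg a) {ε δ : ℝ}
    (hε : 0 < ε) (hδ : 0 < δ) (L : ℕ) (hL : 1 ≤ L) :
    ∃ L' : ℕ, L ∣ L' ∧ 2 * L ≤ L' ∧ ∃ (M : ℕ) (R : ℕ → ℕ) (c : ℕ → Fin M) (rep : Fin M → ℕ),
      Real.log M ≤ δ * L' ∧ (∀ n, dist (a (R n)) (a n) < ε) ∧
      (∀ n, R n = rep (c (n / L')) * L' + n % L') := by
  classical
  obtain ⟨N, hN⟩ := eventually_atTop.mp (h ε hε δ hδ)
  obtain ⟨M, hM, c, hc⟩ := hN (L * (N + 2)) (by nlinarith)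
  set L' := L * (N + 2) with hL'
  have hL'pos : 0 < L' := by positivity
  have hrep : ∀ j : Fin M, ∃ r : ℕ, ∀ m, c (m * L') = j → c (r * L') = j := by
    intro j
    by_cases hj : ∃ m, c (m * L') = j
    · obtain ⟨m, hm⟩ := hj
      exact ⟨m, fun _ _ => hm⟩
    · exact ⟨0, fun m hm => absurd ⟨m, hm⟩ hj⟩
  choose rep hrep using hrep
  refine ⟨L', ⟨N + 2, rfl⟩, ?_, M, fun n => rep (c (n / L' * L')) * L' + n % L',
    fun m => c (m * L'), rep, hM, ?_, fun n => rfl⟩
  · rw [hL']
    nlinarith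
  · intro n
    have h1 := hc (rep (c (n / L' * L')) * L') (n / L' * L') (hrep _ (n / L') rfl) (n % L')
      (Nat.mod_lt _ hL'pos)
    have h2 : n / L' * L' + n % L' = n := Nat.div_add_mod' n L'
    rw [h2] at h1
    exact h1

theorem exists_level (Lh : ℕ → ℕ) (h0 : Lh 0 = 1) (hlt : ∀ k, Lh k < Lh (k + 1)) (n : ℕ)
    (hn : 1 ≤ n) : ∃ k, Lh k ≤ n ∧ n < Lh (k + 1) := by
  induction n, hn using Nat.le_induction with
  | base => exact ⟨0, h0.le, by have := hlt 0; omega⟩
  | succ n hn ih =>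
    obtain ⟨k, h1, h2⟩ := ih
    by_cases h3 : n + 1 < Lh (k + 1)
    · exact ⟨k, by omega, h3⟩
    · exact ⟨k + 1, by omega, by have := hlt (k + 1); omega⟩

theorem exists_quant {E : Type*} [PseudoMetricSpace E] {a : ℕ → E} (h : Seg a) {ε : ℝ}
    (hε : 0 < ε) : ∃ ρ : ℕ → ℕ, (∀ n, dist (a (ρ n)) (a n) ≤ ε) ∧ LowC ρ := by
  classical
  -- the lengths
  have hex : ∀ (k : ℕ) (L : ℕ), 1 ≤ L → ∃ L' : ℕ, L ∣ L' ∧ 2 * L ≤ L' ∧
      ∃ (M : ℕ) (R : ℕ → ℕ) (c : ℕ → Fin M) (rep : Fin M → ℕ),
      Real.log M ≤ (1 / ((k : ℝ) + 1)) * L' ∧ (∀ n, dist (a (R n)) (a n) < ε / 2 / 2 ^ k) ∧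
      (∀ n, R n = rep (c (n / L')) * L' + n % L') :=
    fun k L hL => quant_step h (by positivity) (by positivity) L hL
  choose! step hdiv h2 M R c rep hM hR hRe using hex
  let Lh : ℕ → ℕ := fun k => Nat.rec 1 (fun k L => step k L) k
  have hL0 : Lh 0 = 1 := rfl
  have hLs : ∀ k, Lh (k + 1) = step k (Lh k) := fun k => rfl
  have hLpos : ∀ k, 1 ≤ Lh k := by
    intro k
    induction k with
    | zero => exact le_rfl
    | succ k ih =>
      have := h2 k (Lh k) ih
      rw [hLs]
      omega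
  have hLdiv1 : ∀ k, Lh k ∣ Lh (k + 1) := fun k => hdiv k _ (hLpos k)
  have hL2 : ∀ k, 2 * Lh k ≤ Lh (k + 1) := fun k => h2 k _ (hLpos k)
  have hLlt : ∀ k, Lh k < Lh (k + 1) := fun k => by
    have := hL2 k
    have := hLpos k
    omega
  have hLmono : StrictMono Lh := strictMono_nat_of_lt_succ hLlt
  have hLdiv : ∀ {j k}, j ≤ k → Lh j ∣ Lh k := by
    intro j k hjk
    induction hjk with
    | refl => exact dvd_rfl
    | step _ ih => exact ih.trans (hLdiv1 _)
  have hLk : ∀ k, k + 1 ≤ Lh k := by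
    intro k
    induction k with
    | zero => exact le_rfl
    | succ k ih =>
      have := hL2 k
      omega
  -- the maps
  let Rk : ℕ → ℕ → ℕ := fun k => R k (Lh k)
  let S : ℕ → ℕ → ℕ := fun k => Nat.rec id (fun k S => S ∘ Rk k) k
  have hS0 : ∀ n, S 0 n = n := fun n => rfl
  have hSs : ∀ k n, S (k + 1) n = S k (Rk k n) := fun k n => rfl
  have hRk : ∀ k n, Rk k n =
      rep k (Lh k) (c k (Lh k) (hLpos k) (n / Lh (k + 1))) * Lh (k + 1) + n % Lh (k + 1) :=
    fun k n => hRe k (Lh k) (hLpos k) n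
  have hRd : ∀ k n, dist (a (Rk k n)) (a n) < ε / 2 / 2 ^ k := fun k n => hR k (Lh k) (hLpos k) n
  have hSd : ∀ k n, dist (a (S k n)) (a n) ≤ ε * (1 - 1 / 2 ^ k) := by
    intro k
    induction k with
    | zero => intro n; rw [hS0, dist_self]; simp
    | succ k ih =>
      intro n
      rw [hSs]
      have h1 := ih (Rk k n)
      have h3 := (hRd k n).le
      refine (dist_triangle _ (a (Rk k n)) _).trans ?_
      calc dist (a (S k (Rk k n))) (a (Rk k n)) + dist (a (Rk k n)) (a n)
          ≤ ε * (1 - 1 / 2 ^ k) + ε / 2 / 2 ^ k := add_le_add h1 h3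
        _ = ε * (1 - 1 / 2 ^ (k + 1)) := by
            rw [pow_succ]
            field_simp
            ring
  -- blocks are mapped to blocks
  have hRb : ∀ j k, k ≤ j → ∀ m, ∃ m', ∀ i < Lh (k + 1),
      Rk j (m * Lh (k + 1) + i) = m' * Lh (k + 1) + i := by
    intro j k hkj m
    obtain ⟨d, hd⟩ := hLdiv (Nat.succ_le_succ hkj)
    have hd' : Lh (j + 1) = Lh (k + 1) * d := hd
    have hLp := hLpos (k + 1)
    have hdpos : 0 < d := by
      rcases Nat.eq_zero_or_pos d with h0 | h0
      · have := hLpos (j + 1)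
        rw [hd', h0] at this
        omega
      · exact h0
    refine ⟨rep j (Lh j) (c j (Lh j) (hLpos j) (m / d)) * d + m % d, fun i hi => ?_⟩
    rw [hRk, hd']
    have e1 : (m * Lh (k + 1) + i) / (Lh (k + 1) * d) = m / d := by
      rw [← Nat.div_div_eq_div_mul]
      congr 1
      rw [mul_comm m, Nat.mul_add_div hLp, Nat.div_eq_of_lt hi, add_zero]
    have e2 : (m * Lh (k + 1) + i) % (Lh (k + 1) * d) = m % d * Lh (k + 1) + i := by
      have h3 := Nat.div_add_mod (m * Lh (k + 1) + i) (Lh (k + 1) * d)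
      rw [e1] at h3
      have h4 := Nat.div_add_mod m d
      have h5 : m * Lh (k + 1) = Lh (k + 1) * d * (m / d) + m % d * Lh (k + 1) := by
        calc m * Lh (k + 1) = (d * (m / d) + m % d) * Lh (k + 1) := by rw [h4]
          _ = _ := by ring
      omega
    rw [e1, e2]
    ring
  have hSb : ∀ k j, k + 1 ≤ j → ∀ m, ∃ m', ∀ i < Lh (k + 1),
      S j (m * Lh (k + 1) + i) = S (k + 1) (m' * Lh (k + 1) + i) := by
    intro k j hkj
    induction hkj with
    | refl => intro m; exact ⟨m, fun i _ => rfl⟩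
    | @step j hkj ih =>
      intro m
      obtain ⟨m1, hm1⟩ := hRb j k (by exact (Nat.le_succ k).trans hkj) m
      obtain ⟨m2, hm2⟩ := ih m1
      refine ⟨m2, fun i hi => ?_⟩
      rw [hSs, hm1 i hi, hm2 i hi]
  -- the level of an index
  have hκ : ∀ n : ℕ, ∃ k, 1 ≤ n → Lh k ≤ n ∧ n < Lh (k + 1) := by
    intro n
    by_cases hn : 1 ≤ n
    · obtain ⟨k, hk⟩ := exists_level Lh hL0 hLlt n hn
      exact ⟨k, fun _ => hk⟩
    · exact ⟨0, fun h => absurd h hn⟩
  choose κ hκ using hκ
  have hκu : ∀ n k, 1 ≤ n → Lh k ≤ n → n < Lh (k + 1) → κ n = k := by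
    intro n k hn h3 h4
    obtain ⟨h5, h6⟩ := hκ n hn
    apply le_antisymm
    · by_contra hc
      push Not at hc
      have := hLmono.monotone (Nat.succ_le_of_lt hc)
      exact absurd (lt_of_lt_of_le h4 this) (by omega)
    · by_contra hc
      push Not at hc
      have := hLmono.monotone (Nat.succ_le_of_lt hc)
      exact absurd (lt_of_lt_of_le h6 this) (by omega)
  refine ⟨fun n => S (κ n) n, fun n => ?_, ?_⟩
  · refine (hSd _ n).trans ?_
    have : (0 : ℝ) ≤ 1 / 2 ^ (κ n) := by positivity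
    nlinarith
  · intro δ hδ
    obtain ⟨k, hk⟩ := exists_nat_ge (2 / δ)
    set L := Lh (k + 1) with hL
    have hLp : 1 ≤ L := hLpos (k + 1)
    have hκb : ∀ m, 1 ≤ m → ∀ i < L, κ (m * L + i) = κ (m * L) ∧ k + 1 ≤ κ (m * L) := by
      intro m hm i hi
      have hmL : L ≤ m * L := Nat.le_mul_of_pos_left _ hm
      obtain ⟨h3, h4⟩ := hκ (m * L) (by omega)
      have h5 : k + 1 ≤ κ (m * L) := by
        by_contra hc
        push Not at hc
        have := hLmono.monotone (Nat.succ_le_of_lt hc)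
        have h6 : Lh (κ (m * L)).succ = Lh (κ (m * L) + 1) := rfl
        omega
      refine ⟨hκu _ _ (by omega) (by omega) ?_, h5⟩
      obtain ⟨d, hd⟩ := hLdiv (show k + 1 ≤ κ (m * L) + 1 by omega)
      rw [hd] at h4 ⊢
      rw [← hL] at h4 ⊢
      have h7 : m < d := by
        by_contra hc
        push Not at hc
        have := Nat.mul_le_mul_left L hc
        rw [mul_comm m L] at h4
        omega
      have h8 : L * (m + 1) ≤ L * d := Nat.mul_le_mul_left L h7
      have h9 : L * (m + 1) = m * L + L := by ring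
      omega
    have hcls : ∀ m, ∃ m', 1 ≤ m → ∀ i < L,
        S (κ (m * L + i)) (m * L + i) = S (k + 1) (m' * L + i) := by
      intro m
      by_cases hm : 1 ≤ m
      · obtain ⟨m', hm'⟩ := hSb k (κ (m * L)) (hκb m hm 0 hLp).2 m
        refine ⟨m', fun _ i hi => ?_⟩
        rw [(hκb m hm i hi).1]
        exact hm' i hi
      · exact ⟨0, fun h => absurd h hm⟩
    choose g hg using hcls
    refine ⟨L, hLp, M k (Lh k) + 1, ?_, fun m => if m = 0 then Fin.last _ else
      (c k (Lh k) (hLpos k) (g m)).castSucc, ?_⟩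
    · have h3 := hM k (Lh k) (hLpos k)
      have h4 : step k (Lh k) = L := rfl
      rw [h4] at h3
      have hMpos : 0 < M k (Lh k) := Fin.pos (c k (Lh k) (hLpos k) 0)
      have hMr : (1 : ℝ) ≤ M k (Lh k) := by exact_mod_cast hMpos
      have h5 : Real.log ((M k (Lh k) + 1 : ℕ) : ℝ) ≤ Real.log 2 + Real.log (M k (Lh k)) := by
        rw [← Real.log_mul (by norm_num) (by positivity)]
        apply Real.log_le_log (by positivity)
        push_cast
        linarith
      have h6 : Real.log 2 ≤ 1 := by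
        have := Real.log_le_sub_one_of_pos (show (0 : ℝ) < 2 by norm_num)
        linarith
      have hkL : (k : ℝ) + 1 ≤ L := by
        have := hLk (k + 1)
        have h7 : k + 1 ≤ L := by omega
        exact_mod_cast h7
      have h7 : 1 / ((k : ℝ) + 1) ≤ δ / 2 := by
        rw [div_le_iff₀ (by positivity)]
        rw [div_le_iff₀ hδ] at hk
        nlinarith
      have h8 : 1 ≤ δ / 2 * L := by
        rw [div_le_iff₀ hδ] at hk
        nlinarith
      have h9 : 1 / ((k : ℝ) + 1) * L ≤ δ / 2 * L :=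
        mul_le_mul_of_nonneg_right h7 (by positivity)
      linarith
    · intro m m' hmm i hi
      dsimp only at hmm
      by_cases h0 : m = 0
      · by_cases h0' : m' = 0
        · rw [h0, h0']
        · rw [if_pos h0, if_neg h0'] at hmm
          exact absurd hmm.symm (Fin.castSucc_lt_last _).ne
      · by_cases h0' : m' = 0
        · rw [if_neg h0, if_pos h0'] at hmm
          exact absurd hmm (Fin.castSucc_lt_last _).ne
        · rw [if_neg h0, if_neg h0'] at hmm
          have hmm' := Fin.castSucc_injective _ hmm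
          dsimp only
          rw [hg m (by omega) i hi, hg m' (by omega) i hi, hSs, hSs, hRk, hRk]
          have e : ∀ x, (x * L + i) / Lh (k + 1) = x := by
            intro x
            rw [← hL, mul_comm, Nat.mul_add_div hLp, Nat.div_eq_of_lt hi, add_zero]
          have e2 : ∀ x, (x * L + i) % Lh (k + 1) = i := by
            intro x
            rw [← hL, mul_comm, Nat.mul_add_mod, Nat.mod_eq_of_lt hi]
          rw [e, e, e2, e2, hmm']

end Pool.Agent.Lib.MP_3e612f_nt
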