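import Pool.Agent.Lib.MP_3e612f_nt.SStructAux
import Pool.Agent.Lib.MP_3e612f_nt.MuPNT

/-!
Functions of the top digits and the residue class are logarithmically orthogonal to the Möbius
function.
-/

set_option autoImplicit false

namespace Pool.Agent.Lib.MP_3e612f_nt.SA

open Filter Topology

theorem struct_tendsto {q Q a k₀ : ℕ} (hq : 2 ≤ q) (hQ : 1 ≤ Q) {M : ℕ → ℝ}
    (hM : ∀ n, |M n| ≤ 1) {Good : ℕ → Prop}
    (hcell : ∀ k Y s s' : ℕ, k₀ ≤ k → Good Y → s < q ^ k → s' < q ^ k →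
      (q ^ k * Y + s) % Q = a → (q ^ k * Y + s') % Q = a → M (q ^ k * Y + s) = M (q ^ k * Y + s'))
    (hdens : ∀ ε : ℝ, 0 < ε → ∃ t : ℕ,
      (Nat.card {Y : ℕ | q ^ t ≤ Y ∧ Y < q ^ (t + 1) ∧ ¬ Good Y} : ℝ) ≤ ε * q ^ t) :
    Tendsto (LogAvg fun n => mu n * (if n % Q = a then M n else 0)) atTop (𝓝 0) :=
  struct_of hq (mu_ap Q a hQ) hM hcell hdens

end Pool.Agent.Lib.MP_3e612f_nt.SA
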