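import Pool.Agent.Lib.MP_3e612f_nt.SPair
import Pool.Agent.Lib.MP_3e612f_nt.SReach
import Pool.Agent.Lib.MP_3e612f_nt.SStruct

/-!
Centred functions of the upper digits in a residue class: joint functions of a finite-state
function and a quasi-additive function.
-/

set_option autoImplicit false

namespace Pool.Agent.Lib.MP_3e612f_nt.SA

open Filter Topology QA

variable {S : Type*} [Monoid S] [Finite S] {d : ℕ}

/-- the centred function of the digits above `h` in a class modulo `q ^ h * (q - 1)` -/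
noncomputable def cs (q h a : ℕ) (β : ℕ → S) (ω : ℕ) (e : ℕ → Fin d → ℤ)
    (Λ : AddSubgroup (Fin d → ℤ)) (u : S → (Fin d → ℤ) ⧸ Λ) (B : S → (Fin d → ℤ) → ℝ)
    (n : ℕ) : ℝ :=
  if n % (q ^ h * (q - 1)) = a then B (β (n / q ^ h) * β ω) (e (n / q ^ h)) -
    mS q (Nat.log q (n / q ^ h)) β ω e Λ u B (β (n / q ^ h) * β ω) else 0

theorem abs_cs_le {q m h a : ℕ} (hq : 2 ≤ q) {β : ℕ → S} (hβ : QM q m β) {ω : ℕ}
    (hω : Core q β ω) {e : ℕ → Fin d → ℤ} {Λ : AddSubgroup (Fin d → ℤ)}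
    {u : S → (Fin d → ℤ) ⧸ Λ} {B : S → (Fin d → ℤ) → ℝ} (hB : ∀ x v, |B x v| ≤ 1) (n : ℕ) :
    |cs q h a β ω e Λ u B n| ≤ 2 := by
  unfold cs
  split_ifs
  · refine (abs_sub _ _).trans ?_
    have h1 := hB (β (n / q ^ h) * β ω) (e (n / q ^ h))
    have h2 := mS_abs (k := Nat.log q (n / q ^ h)) (e := e) (Λ := Λ) (u := u) hq hβ hω hB
      (β (n / q ^ h) * β ω)
    linarith
  · simp

/-- the logarithm of a point of a block -/
theorem log_side {q P c k t y n : ℕ} (hq : 2 ≤ q) (hP : 1 ≤ P) (hc : c ≤ P) (hy : q ^ t ≤ y)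
    (hy' : y < q ^ (t + 1)) (hn : n < q ^ k) :
    ∃ s ≤ t + P, Nat.log q (P * (q ^ k * y + n) + c) = k + s := by
  set N := P * (q ^ k * y + n) + c with hN
  have hlow : q ^ (k + t) ≤ N := by
    have h1 : q ^ (k + t) ≤ q ^ k * y := by
      rw [pow_add]
      exact Nat.mul_le_mul_left _ hy
    have h2 : q ^ k * y + n ≤ P * (q ^ k * y + n) := Nat.le_mul_of_pos_left _ hP
    omega
  have hup : N < q ^ (k + (t + P) + 1) := by
    have h1 : q ^ k * y + n + 1 ≤ q ^ (k + t + 1) := by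
      calc q ^ k * y + n + 1 ≤ q ^ k * y + q ^ k := by omega
        _ = q ^ k * (y + 1) := by ring
        _ ≤ q ^ k * q ^ (t + 1) := Nat.mul_le_mul_left _ hy'
        _ = q ^ (k + t + 1) := by ring
    have h3 : P < q ^ P := Nat.lt_pow_self (by omega)
    calc N ≤ P * (q ^ k * y + n + 1) := by
          rw [hN, Nat.mul_add P (q ^ k * y + n) 1]
          omega
      _ ≤ P * q ^ (k + t + 1) := Nat.mul_le_mul_left _ h1
      _ < q ^ P * q ^ (k + t + 1) := by
          have h4 : 0 < q ^ (k + t + 1) := by positivity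
          exact (Nat.mul_lt_mul_right h4).mpr h3
      _ = q ^ (k + (t + P) + 1) := by ring
  have hN0 : N ≠ 0 := by
    have : 0 < q ^ (k + t) := by positivity
    omega
  have l1 : k + t ≤ Nat.log q N := Nat.le_log_of_pow_le (by omega) hlow
  have l2 : Nat.log q N < k + (t + P) + 1 := Nat.log_lt_of_lt_pow hN0 hup
  exact ⟨Nat.log q N - k, by omega, by omega⟩

/-- the upper digits of a multiple of a point of a block -/
theorem side_div {q h p k y n i : ℕ} (hq : 2 ≤ q) :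
    (p * (q ^ h * (q - 1) * (q ^ k * y + n) + i)) / q ^ h =
      p * (q - 1) * (q ^ k * y + n) + p * i / q ^ h := by
  have h1 : p * (q ^ h * (q - 1) * (q ^ k * y + n) + i) =
      q ^ h * (p * (q - 1) * (q ^ k * y + n)) + p * i := by ring
  have hqh : 0 < q ^ h := by positivity
  rw [h1, Nat.mul_add_div hqh]

/-- the centred function at a multiple of a point of a block -/
theorem cs_block {q h a p i k t y n : ℕ} (hq : 2 ≤ q) {β : ℕ → S} {ω : ℕ}
    {e : ℕ → Fin d → ℤ} {Λ : AddSubgroup (Fin d → ℤ)} {u : S → (Fin d → ℤ) ⧸ Λ}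
    (hp : 1 ≤ p) (hy : q ^ t ≤ y) (hy' : y < q ^ (t + 1)) (hn : n < q ^ k)
    (hi : i < q ^ h * (q - 1)) (ha : (p * i) % (q ^ h * (q - 1)) = a)
    {B : S → (Fin d → ℤ) → ℝ} {ε : ℝ}
    (hmean : ∀ s ≤ t + p * (q - 1), ∀ x,
      |mS q (k + s) β ω e Λ u B x - mS q k β ω e Λ u B x| ≤ ε) :
    |cs q h a β ω e Λ u B (p * (q ^ h * (q - 1) * (q ^ k * y + n) + i)) -
      (B (β (p * (q - 1) * (q ^ k * y + n) + p * i / q ^ h) * β ω)
          (e (p * (q - 1) * (q ^ k * y + n) + p * i / q ^ h)) -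
        mS q k β ω e Λ u B (β (p * (q - 1) * (q ^ k * y + n) + p * i / q ^ h) * β ω))| ≤ ε := by
  have hqh : 0 < q ^ h := by positivity
  have hc : p * i / q ^ h ≤ p * (q - 1) := by
    refine Nat.div_le_of_le_mul ?_
    calc p * i ≤ p * (q ^ h * (q - 1)) := Nat.mul_le_mul_left _ hi.le
      _ = q ^ h * (p * (q - 1)) := by ring
  have hP : 1 ≤ p * (q - 1) := Nat.mul_pos hp (by omega)
  obtain ⟨s, hs, hlog⟩ := log_side hq hP hc hy hy' hn
  have e2 : (p * (q ^ h * (q - 1) * (q ^ k * y + n) + i)) % (q ^ h * (q - 1)) = a := by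
    have h1 : p * (q ^ h * (q - 1) * (q ^ k * y + n) + i) =
        p * i + q ^ h * (q - 1) * (p * (q ^ k * y + n)) := by ring
    rw [h1, Nat.add_mul_mod_self_left, ha]
  unfold cs
  rw [if_pos e2, side_div hq, hlog]
  set x : S := β (p * (q - 1) * (q ^ k * y + n) + p * i / q ^ h) * β ω with hx
  have e4 : B x (e (p * (q - 1) * (q ^ k * y + n) + p * i / q ^ h)) -
      mS q (k + s) β ω e Λ u B x -
      (B x (e (p * (q - 1) * (q ^ k * y + n) + p * i / q ^ h)) - mS q k β ω e Λ u B x) =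
      -(mS q (k + s) β ω e Λ u B x - mS q k β ω e Λ u B x) := by ring
  rw [e4, abs_neg]
  exact hmean s hs x

theorem cs_off {q h a p i N : ℕ} {β : ℕ → S} {ω : ℕ}
    {e : ℕ → Fin d → ℤ} {Λ : AddSubgroup (Fin d → ℤ)} {u : S → (Fin d → ℤ) ⧸ Λ}
    {B : S → (Fin d → ℤ) → ℝ} (ha : (p * i) % (q ^ h * (q - 1)) ≠ a) :
    cs q h a β ω e Λ u B (p * (q ^ h * (q - 1) * N + i)) = 0 := by
  unfold cs
  rw [if_neg]
  intro h1
  apply ha
  have e1 : p * (q ^ h * (q - 1) * N + i) = p * i + q ^ h * (q - 1) * (p * N) := by ring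
  rw [e1, Nat.add_mul_mod_self_left] at h1
  exact h1

/-- the mean of a centred function vanishes -/
theorem mS_centred {q m k : ℕ} (hq : 2 ≤ q) {β : ℕ → S} (hβ : QM q m β) {ω : ℕ} (hω : Core q β ω)
    {e : ℕ → Fin d → ℤ} {Λ : AddSubgroup (Fin d → ℤ)} {u : S → (Fin d → ℤ) ⧸ Λ}
    (B : S → (Fin d → ℤ) → ℝ) (x : S) :
    mS q k β ω e Λ u (fun x v => (B x v - mS q k β ω e Λ u B x) / 2) x = 0 := by
  have h1 : mS q k β ω e Λ u (fun x v => (B x v - mS q k β ω e Λ u B x) / 2) x =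
      (mS q k β ω e Λ u B x - AL q β ω (fun y => mS q k β ω e Λ u B y) x) / 2 := by
    unfold mS
    rw [← AL_sub, ← AL_div]
    congr 1
    funext y
    have h2 : (fun n => extL Λ (u y) (fun v => (B y v -
        AL q β ω (fun y => av q k fun n => extL Λ (u y) (B y) (e n)) y) / 2) (e n)) =
        fun n => (extL Λ (u y) (B y) (e n) -
          AL q β ω (fun y => av q k fun n => extL Λ (u y) (B y) (e n)) y) / 2 := rfl
    rw [h2, av_div, av_sub, av_const hq]
  have h2 : AL q β ω (fun y => mS q k β ω e Λ u B y) x = mS q k β ω e Λ u B x := by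
    have hc := card_LF_pos hβ hω
    have hc' : ((LF q β ω).card : ℝ) ≠ 0 := by positivity
    unfold AL
    rw [Finset.sum_congr rfl fun l hl => mS_shift hq hβ hω (mem_LF.mp hl) x, Finset.sum_const,
      nsmul_eq_mul, mul_div_cancel_left₀ _ hc']
  rw [h1, h2, sub_self, zero_div]

/-- the hypothesis of the Kátai criterion -/
theorem cs_katai {q m : ℕ} (hq : 2 ≤ q) {β : ℕ → S} (hβ : QM q m β) {ω : ℕ} (hω : Core q β ω)
    {e : ℕ → Fin d → ℤ} {C : ℝ} (he : QV q m e C) (hgen : AddSubgroup.closure (Set.range e) = ⊤)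
    {Λ : AddSubgroup (Fin d → ℤ)} {N' : ℕ} (hN : 1 ≤ N') (hΛ : ∀ v : Fin d → ℤ, N' • v ∈ Λ)
    {u : S → (Fin d → ℤ) ⧸ Λ} (hu : ∀ n, u (β n) = (e n : (Fin d → ℤ) ⧸ Λ))
    (huω : ∀ n, u (β n * β ω) = (e n : (Fin d → ℤ) ⧸ Λ))
    (hgood : ∀ P R : ℕ, P.Coprime q → R.Coprime q → 2 * q ^ m * P ≤ R → 1 ≤ P → (q - 1) ∣ P →
      (q - 1) ∣ R → ∀ v ∈ Λ, ∀ v' ∈ Λ, GoodS q P R β e v v')
    {K₀ : ℕ} (hK₀ : ∀ p r : ℕ, 1 ≤ p → p.Coprime q → r.Coprime q → p.Coprime (q - 1) →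
      r.Coprime (q - 1) → p.Coprime ω → r.Coprime ω → K₀ * p ≤ r →
      Rch q β ω (p * (q - 1)) (r * (q - 1)))
    (h a : ℕ) {B : S → (Fin d → ℤ) → ℝ} (hB : ∀ x v, |B x v| ≤ 1) {ε : ℝ} (hε : 0 < ε) :
    ∃ p₀ : ℕ, ∀ p r : ℕ, p.Prime → r.Prime → p₀ ≤ p → (K₀ + 2 * q ^ m) * p ≤ r → p < r →
      ∀ᶠ N : ℕ in atTop, |LogAvg (fun n => cs q h a β ω e Λ u B (p * n) *
        cs q h a β ω e Λ u B (r * n)) N| ≤ ε := by
  set ε' : ℝ := ε / (4 * q) with hε'
  have hqR : (2 : ℝ) ≤ q := by exact_mod_cast hq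
  have hε'0 : 0 < ε' := by positivity
  obtain ⟨r₀, hr₀⟩ := pair_s hq hβ hω he hgen hN hΛ hu huω (ε := ε' / 4) (by positivity)
  refine ⟨max r₀ (q + ω + 1), fun p r hp hr hp₀ hK hpr => ?_⟩
  have hp₁ : q + ω + 1 ≤ p := (le_max_right r₀ (q + ω + 1)).trans hp₀
  have hcop : ∀ s : ℕ, s.Prime → q + ω + 1 ≤ s → ∀ b : ℕ, 0 < b → b ≤ q + ω → s.Coprime b := by
    intro s hs hs1 b hb0 hb
    refine (Nat.Prime.coprime_iff_not_dvd hs).mpr fun hdvd => ?_
    have := Nat.le_of_dvd hb0 hdvd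
    omega
  have hω1 := hω.pos
  have hpr' : p.Coprime r := (Nat.coprime_primes hp hr).mpr hpr.ne
  have hr1 : r₀ ≤ r := (le_max_left _ _).trans (hp₀.trans hpr.le)
  have hrl : q + ω + 1 ≤ r := hp₁.trans hpr.le
  have hpq := hcop p hp hp₁ q (by omega) (by omega)
  have hrq := hcop r hr hrl q (by omega) (by omega)
  have hpq1 := hcop p hp hp₁ (q - 1) (by omega) (by omega)
  have hrq1 := hcop r hr hrl (q - 1) (by omega) (by omega)
  have hpω := hcop p hp hp₁ ω (by omega) (by omega)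
  have hrω := hcop r hr hrl ω (by omega) (by omega)
  have hK1 : K₀ * p ≤ r := le_trans (Nat.mul_le_mul_right _ (Nat.le_add_right _ _)) hK
  have hK2 : 2 * q ^ m * p ≤ r := le_trans (Nat.mul_le_mul_right _ (Nat.le_add_left _ _)) hK
  have hsq : (q - 1).Coprime q := by
    have h1 : Nat.Coprime (q - 1) (q - 1 + 1) := by simp
    have h2 : q - 1 + 1 = q := by omega
    rwa [h2] at h1
  have hP1 : 1 ≤ p * (q - 1) := Nat.mul_pos hp.pos (by omega)
  have hgood' := hgood (p * (q - 1)) (r * (q - 1)) (Nat.Coprime.mul_left hpq hsq)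
    (Nat.Coprime.mul_left hrq hsq) (by
      calc 2 * q ^ m * (p * (q - 1)) = 2 * q ^ m * p * (q - 1) := by ring
        _ ≤ r * (q - 1) := Nat.mul_le_mul_right _ hK2) hP1 (Dvd.intro_left p rfl)
    (Dvd.intro_left r rfl)
  have hpair := hr₀ p r hp.one_le hpq hrq hpr' hr1 hK2
    (hK₀ p r hp.one_le hpq hrq hpq1 hrq1 hpω hrω hK1) hgood'
  have hM : 1 ≤ q ^ h * (q - 1) := Nat.mul_pos (by positivity) (by omega)
  have hblock := block_log (q := q) (M := q ^ h * (q - 1)) hq hM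
    (u := fun n => cs q h a β ω e Λ u B (p * n) * cs q h a β ω e Λ u B (r * n)) (A := 4)
    (fun n => by
      rw [abs_mul]
      calc |cs q h a β ω e Λ u B (p * n)| * |cs q h a β ω e Λ u B (r * n)| ≤ 2 * 2 :=
            mul_le_mul (abs_cs_le hq hβ hω hB _) (abs_cs_le hq hβ hω hB _) (abs_nonneg _)
              (by norm_num)
        _ = 4 := by norm_num) (η := ε') hε'0.le (fun t ε₂ hε₂ => by
      have hmean := mS_slow hq hβ hω he hgen Λ u (t + r * (q - 1)) (ε := ε₂ / 4) (by positivity)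
      filter_upwards [hpair (q ^ (t + 1)), hmean] with k hk1 hk2 y hy1 hy2 i hi
      by_cases hpi : (p * i) % (q ^ h * (q - 1)) = a
      swap
      · have hz : ∀ n, cs q h a β ω e Λ u B (p * (q ^ h * (q - 1) * (q ^ k * y + n) + i)) = 0 :=
          fun n => cs_off hpi
        simp only [hz, zero_mul]
        rw [av_const hq, abs_zero]
        positivity
      by_cases hri : (r * i) % (q ^ h * (q - 1)) = a
      swap
      · have hz : ∀ n, cs q h a β ω e Λ u B (r * (q ^ h * (q - 1) * (q ^ k * y + n) + i)) = 0 :=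
          fun n => cs_off hri
        simp only [hz, mul_zero]
        rw [av_const hq, abs_zero]
        positivity
      -- the main case
      set c := p * i / q ^ h with hc
      set c' := r * i / q ^ h with hc'
      have hcp : c ≤ p * (q - 1) := by
        refine Nat.div_le_of_le_mul ?_
        calc p * i ≤ p * (q ^ h * (q - 1)) := Nat.mul_le_mul_left _ hi.le
          _ = q ^ h * (p * (q - 1)) := by ring
      have hcr : c' ≤ r * (q - 1) := by
        refine Nat.div_le_of_le_mul ?_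
        calc r * i ≤ r * (q ^ h * (q - 1)) := Nat.mul_le_mul_left _ hi.le
          _ = q ^ h * (r * (q - 1)) := by ring
      set m₀ : S → ℝ := mS q k β ω e Λ u B with hm₀
      have hm₀a : ∀ x, |m₀ x| ≤ 1 := fun x => mS_abs hq hβ hω hB x
      set Bh : S → (Fin d → ℤ) → ℝ := fun x v => (B x v - m₀ x) / 2 with hBh
      have hBh1 : ∀ x v, |Bh x v| ≤ 1 := by
        intro x v
        rw [hBh]
        simp only
        rw [abs_div, abs_of_pos (by norm_num : (0 : ℝ) < 2), div_le_iff₀ (by norm_num)]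
        have := abs_sub (B x v) (m₀ x)
        linarith [hB x v, hm₀a x]
      have hBh0 : ∀ x, mS q k β ω e Λ u Bh x = 0 := fun x => mS_centred hq hβ hω B x
      have k1 := hk1 y hy2.le c hcp c' hcr Bh Bh hBh1 hBh1
      simp only [hBh0, mul_zero, sub_zero] at k1
      set X : ℕ → ℕ := fun n => p * (q - 1) * (q ^ k * y + n) + c with hX
      set X' : ℕ → ℕ := fun n => r * (q - 1) * (q ^ k * y + n) + c' with hX'
      set Z : ℕ → ℝ := fun n => B (β (X n) * β ω) (e (X n)) - m₀ (β (X n) * β ω) with hZ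
      set Z' : ℕ → ℝ := fun n => B (β (X' n) * β ω) (e (X' n)) - m₀ (β (X' n) * β ω) with hZ'
      have hZa : ∀ n, |Z n| ≤ 2 := fun n => (abs_sub _ _).trans (by
        linarith [hB (β (X n) * β ω) (e (X n)), hm₀a (β (X n) * β ω)])
      have hZa' : ∀ n, |Z' n| ≤ 2 := fun n => (abs_sub _ _).trans (by
        linarith [hB (β (X' n) * β ω) (e (X' n)), hm₀a (β (X' n) * β ω)])
      have hclose : ∀ n < q ^ k, |cs q h a β ω e Λ u B (p * (q ^ h * (q - 1) * (q ^ k * y + n) +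
          i)) * cs q h a β ω e Λ u B (r * (q ^ h * (q - 1) * (q ^ k * y + n) + i)) -
          Z n * Z' n| ≤ ε₂ := by
        intro n hn
        have hpr1 : p * (q - 1) ≤ r * (q - 1) := Nat.mul_le_mul_right _ hpr.le
        have c1 := cs_block hq hp.one_le hy1 hy2 hn hi hpi (B := B) (β := β) (ω := ω) (e := e)
          (Λ := Λ) (u := u) (ε := ε₂ / 4) (fun s hs x => hk2 s (by omega) B hB x)
        have c2 := cs_block hq hr.one_le hy1 hy2 hn hi hri (B := B) (β := β) (ω := ω) (e := e)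
          (Λ := Λ) (u := u) (ε := ε₂ / 4) (fun s hs x => hk2 s hs B hB x)
        have c3 := abs_mul_sub_le (abs_cs_le hq hβ hω hB _) (hZa' n) c1 c2
        refine c3.trans (le_of_eq (by ring))
      have hmain : |av q k (fun n => Z n * Z' n)| ≤ ε' := by
        have e1 : av q k (fun n => Z n * Z' n) = 4 * av q k (fun n =>
            Bh (β (X n) * β ω) (e (X n)) * Bh (β (X' n) * β ω) (e (X' n))) := by
          rw [← av_const_mul]
          congr 1
          funext n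
          simp only [hZ, hZ', hBh]
          ring
        rw [e1, abs_mul, abs_of_pos (by norm_num : (0 : ℝ) < 4)]
        have : |av q k (fun n =>
            Bh (β (X n) * β ω) (e (X n)) * Bh (β (X' n) * β ω) (e (X' n)))| ≤ ε' / 4 := k1
        linarith
      have hcl := av_close hq hclose
      have t1 := abs_le.mp hcl
      have t2 := abs_le.mp hmain
      rw [abs_le]
      constructor
      · linarith [t1.1, t2.1]
      · linarith [t1.2, t2.2]) (ε := ε / 2) (by positivity)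
  filter_upwards [hblock] with N hN
  refine hN.trans (le_of_eq ?_)
  rw [hε']
  field_simp
  ring

/-- the structured part -/
theorem cs_struct {q m : ℕ} (hq : 2 ≤ q) {β : ℕ → S} (hβ : QM q m β) {ω : ℕ} (hω : Core q β ω)
    {e : ℕ → Fin d → ℤ} {Λ : AddSubgroup (Fin d → ℤ)} {u : S → (Fin d → ℤ) ⧸ Λ}
    (h a : ℕ) {B : S → (Fin d → ℤ) → ℝ} (hB : ∀ x v, |B x v| ≤ 1) :
    Tendsto (LogAvg fun n => mu n * (if n % (q ^ h * (q - 1)) = a then
      mS q (Nat.log q (n / q ^ h)) β ω e Λ u B (β (n / q ^ h) * β ω) else 0)) atTop (𝓝 0) := by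
  have hM : 1 ≤ q ^ h * (q - 1) := Nat.mul_pos (by positivity) (by omega)
  refine struct_tendsto (q := q) (Q := q ^ h * (q - 1)) (a := a) (k₀ := h) hq hM
    (M := fun n => mS q (Nat.log q (n / q ^ h)) β ω e Λ u B (β (n / q ^ h) * β ω))
    (Good := fun Y => 1 ≤ Y ∧ Gd q m ω 1 Y) (fun n => mS_abs hq hβ hω hB _) ?_ ?_
  · rintro k Y s s' hk ⟨hY1, hgd⟩ hs hs' h1 h2
    obtain ⟨b, c, Y₁, Y₂, hb, hc, hY⟩ := hgd
    obtain ⟨l, rfl⟩ : ∃ l, k = h + l := ⟨k - h, by omega⟩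
    have hqh : 0 < q ^ h := by positivity
    have key : ∀ s < q ^ (h + l), (q ^ (h + l) * Y + s) / q ^ h = q ^ l * Y + s / q ^ h ∧
        s / q ^ h < q ^ l := by
      intro s hs
      constructor
      · rw [pow_add, mul_assoc, Nat.mul_add_div hqh]
      · rw [Nat.div_lt_iff_lt_mul hqh]
        calc s < q ^ (h + l) := hs
          _ = q ^ l * q ^ h := by ring
    have hlog : ∀ s < q ^ l, Nat.log q (q ^ l * Y + s) = l + Nat.log q Y := by
      intro s hs
      have hY0 : Y ≠ 0 := by omega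
      have l1 : q ^ Nat.log q Y ≤ Y := Nat.pow_log_le_self q hY0
      have l2 : Y < q ^ (Nat.log q Y + 1) := Nat.lt_pow_succ_log_self (by omega) Y
      refine (Nat.log_eq_iff (Or.inr ⟨by omega, ?_⟩)).mpr ⟨?_, ?_⟩
      · have : 0 < q ^ l * Y := Nat.mul_pos (by positivity) hY1
        omega
      · calc q ^ (l + Nat.log q Y) = q ^ l * q ^ Nat.log q Y := pow_add _ _ _
          _ ≤ q ^ l * Y := Nat.mul_le_mul_left _ l1
          _ ≤ q ^ l * Y + s := Nat.le_add_right _ _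
      · calc q ^ l * Y + s < q ^ l * Y + q ^ l := by omega
          _ = q ^ l * (Y + 1) := by ring
          _ ≤ q ^ l * q ^ (Nat.log q Y + 1) := Nat.mul_le_mul_left _ l2
          _ = q ^ (l + Nat.log q Y + 1) := by ring
    obtain ⟨k1, k2⟩ := key s hs
    obtain ⟨k1', k2'⟩ := key s' hs'
    rw [k1, k1', hlog _ k2, hlog _ k2']
    -- the classes
    have hmod : q ^ l * Y + s / q ^ h ≡ q ^ l * Y + s' / q ^ h [MOD (q - 1)] := by
      have h3 : q ^ (h + l) * Y + s ≡ q ^ (h + l) * Y + s' [MOD (q ^ h * (q - 1))] := by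
        show _ % _ = _ % _
        rw [h1, h2]
      have h4 : s % q ^ h = s' % q ^ h := by
        have h5 : q ^ (h + l) * Y + s ≡ q ^ (h + l) * Y + s' [MOD (q ^ h)] := h3.of_mul_right _
        have h6 := Nat.ModEq.add_left_cancel' _ h5
        exact h6
      rw [← k1, ← k1']
      have h7 := Nat.div_add_mod (q ^ (h + l) * Y + s) (q ^ h)
      have h8 := Nat.div_add_mod (q ^ (h + l) * Y + s') (q ^ h)
      have h9 : (q ^ (h + l) * Y + s) % q ^ h = (q ^ (h + l) * Y + s') % q ^ h := by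
        exact h3.of_mul_right _
      rw [← h7, ← h8, h9] at h3
      have h10 := Nat.ModEq.add_right_cancel' _ h3
      exact Nat.ModEq.mul_left_cancel' (by positivity) h10
    rw [one_mul] at hY
    have h11 : ∃ x ∈ LL q β ω, β (q ^ l * Y + s' / q ^ h) * β ω =
        β (q ^ l * Y + s / q ^ h) * β ω * x := by
      rw [hY] at hmod ⊢
      exact arith hq hβ hω hb (by omega) (by omega) k2 k2' hmod
    obtain ⟨x, hx, hxe⟩ := h11
    rw [hxe]
    exact (mS_shift hq hβ hω hx _).symm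
  · intro ε hε
    obtain ⟨j₀, hj₀⟩ := gd_density (m := m) (ω := ω) (P := 1) hq (Nat.coprime_one_left q) le_rfl
      (ε := ε / q) (by positivity)
    refine ⟨j₀, ?_⟩
    have hfin : ∀ y : ℕ, {n : ℕ | n < q ^ j₀ ∧ ¬ Gd q m ω 1 (q ^ j₀ * y + n)}.Finite := fun y =>
      (Set.finite_lt_nat (q ^ j₀)).subset fun n hn => hn.1
    have hsub : {Y : ℕ | q ^ j₀ ≤ Y ∧ Y < q ^ (j₀ + 1) ∧ ¬ (1 ≤ Y ∧ Gd q m ω 1 Y)} ⊆
        ⋃ y ∈ Finset.range q, (fun n => q ^ j₀ * y + n) ''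
          {n : ℕ | n < q ^ j₀ ∧ ¬ Gd q m ω 1 (q ^ j₀ * y + n)} := by
      rintro Y ⟨hY1, hY2, hY3⟩
      have hq0 : 0 < q ^ j₀ := by positivity
      simp only [Set.mem_iUnion]
      refine ⟨Y / q ^ j₀, ?_, Y % q ^ j₀, ⟨Nat.mod_lt _ hq0, ?_⟩, Nat.div_add_mod _ _⟩
      · rw [Finset.mem_range, Nat.div_lt_iff_lt_mul hq0]
        calc Y < q ^ (j₀ + 1) := hY2
          _ = q * q ^ j₀ := by ring
      · rw [Nat.div_add_mod]
        intro h4
        exact hY3 ⟨by omega, h4⟩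
    rw [Nat.card_coe_set_eq]
    have h5 : (Set.ncard {Y : ℕ | q ^ j₀ ≤ Y ∧ Y < q ^ (j₀ + 1) ∧ ¬ (1 ≤ Y ∧ Gd q m ω 1 Y)} : ℝ) ≤
        ∑ y ∈ Finset.range q,
          (Set.ncard {n : ℕ | n < q ^ j₀ ∧ ¬ Gd q m ω 1 (q ^ j₀ * y + n)} : ℝ) := by
      have h6 : (⋃ y ∈ Finset.range q, (fun n => q ^ j₀ * y + n) ''
          {n : ℕ | n < q ^ j₀ ∧ ¬ Gd q m ω 1 (q ^ j₀ * y + n)}).Finite := by
        refine Set.Finite.biUnion (Finset.finite_toSet _) fun y _ => (hfin y).image _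
      have h7 := Set.ncard_le_ncard hsub h6
      have h8 : (⋃ y ∈ Finset.range q, (fun n => q ^ j₀ * y + n) ''
          {n : ℕ | n < q ^ j₀ ∧ ¬ Gd q m ω 1 (q ^ j₀ * y + n)}).ncard ≤
          ∑ y ∈ Finset.range q, ((fun n => q ^ j₀ * y + n) ''
            {n : ℕ | n < q ^ j₀ ∧ ¬ Gd q m ω 1 (q ^ j₀ * y + n)}).ncard :=
        Finset.set_ncard_biUnion_le _ _
      have h9 : ∑ y ∈ Finset.range q, ((fun n => q ^ j₀ * y + n) ''
            {n : ℕ | n < q ^ j₀ ∧ ¬ Gd q m ω 1 (q ^ j₀ * y + n)}).ncard ≤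
          ∑ y ∈ Finset.range q, {n : ℕ | n < q ^ j₀ ∧ ¬ Gd q m ω 1 (q ^ j₀ * y + n)}.ncard :=
        Finset.sum_le_sum fun y _ => Set.ncard_image_le (hfin y)
      exact_mod_cast h7.trans (h8.trans h9)
    refine h5.trans ?_
    have h10 : ∀ y ∈ Finset.range q,
        (Set.ncard {n : ℕ | n < q ^ j₀ ∧ ¬ Gd q m ω 1 (q ^ j₀ * y + n)} : ℝ) ≤
          ε / q * q ^ j₀ := by
      intro y _
      have := hj₀ j₀ le_rfl y
      rwa [Nat.card_coe_set_eq] at this
    refine (Finset.sum_le_sum h10).trans (le_of_eq ?_)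
    rw [Finset.sum_const, Finset.card_range, nsmul_eq_mul]
    have : (q : ℝ) ≠ 0 := by positivity
    field_simp

/-- functions of the upper digits in a class modulo `q ^ h * (q - 1)` -/
theorem class_s {q m : ℕ} (hq : 2 ≤ q) {β : ℕ → S} (hβ : QM q m β) {ω : ℕ} (hω : Core q β ω)
    {e : ℕ → Fin d → ℤ} {C : ℝ} (he : QV q m e C) (hgen : AddSubgroup.closure (Set.range e) = ⊤)
    {Λ : AddSubgroup (Fin d → ℤ)} {N' : ℕ} (hN : 1 ≤ N') (hΛ : ∀ v : Fin d → ℤ, N' • v ∈ Λ)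
    {u : S → (Fin d → ℤ) ⧸ Λ} (hu : ∀ n, u (β n) = (e n : (Fin d → ℤ) ⧸ Λ))
    (huω : ∀ n, u (β n * β ω) = (e n : (Fin d → ℤ) ⧸ Λ))
    (hgood : ∀ P R : ℕ, P.Coprime q → R.Coprime q → 2 * q ^ m * P ≤ R → 1 ≤ P → (q - 1) ∣ P →
      (q - 1) ∣ R → ∀ v ∈ Λ, ∀ v' ∈ Λ, GoodS q P R β e v v')
    (h a : ℕ) {B : S → (Fin d → ℤ) → ℝ} (hB : ∀ x v, |B x v| ≤ 1) :
    Tendsto (LogAvg fun n => mu n * (if n % (q ^ h * (q - 1)) = a then
      B (β (n / q ^ h) * β ω) (e (n / q ^ h)) else 0)) atTop (𝓝 0) := by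
  obtain ⟨K₀, _, hK₀⟩ := reach hq hβ hω
  have h1 : Tendsto (LogAvg fun n => mu n * cs q h a β ω e Λ u B n) atTop (𝓝 0) :=
    katai_log' (abs_cs_le hq hβ hω hB) (K := K₀ + 2 * q ^ m) fun ε hε =>
      cs_katai hq hβ hω he hgen hN hΛ hu huω hgood hK₀ h a hB hε
  have h2 := cs_struct (Λ := Λ) (u := u) (e := e) hq hβ hω h a hB
  have h3 := h1.add h2
  rw [add_zero] at h3
  refine h3.congr fun N => ?_
  rw [← LogAvg_add]
  refine LogAvg_congr fun n _ _ => ?_
  unfold cs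
  split_ifs
  · ring
  · ring

end Pool.Agent.Lib.MP_3e612f_nt.SA
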