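import Pool.Agent.Lib.MP_3e612f_nt.SCen
import Pool.Agent.Lib.MP_3e612f_nt.QFinal

/-!
Decomposition of the integers according to the first occurrence of a block of digits.
-/

set_option autoImplicit false

namespace Pool.Agent.Lib.MP_3e612f_nt.SA

open Filter Topology QA

/-- no block among the first `t` aligned blocks above the digit `h` is `g` -/
def Nob (q W g h t n : ℕ) : Prop := ∀ j < t, (n / q ^ (h + W * j)) % q ^ W ≠ g

theorem nob_succ {q W g h t n : ℕ} :
    Nob q W g h (t + 1) n ↔ Nob q W g h t n ∧ (n / q ^ (h + W * t)) % q ^ W ≠ g := by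
  unfold Nob
  constructor
  · intro h1
    exact ⟨fun j hj => h1 j (by omega), h1 t (by omega)⟩
  · rintro ⟨h1, h2⟩ j hj
    rcases Nat.lt_or_ge j t with h3 | h3
    · exact h1 j h3
    · have : j = t := by omega
      rwa [this]

theorem nob_zero {q W g h t n : ℕ} : Nob q W g h t n ↔ Nob q W g 0 t (n / q ^ h) := by
  unfold Nob
  refine forall_congr' fun j => forall_congr' fun _ => ?_
  rw [Nat.div_div_eq_div_mul, ← pow_add, zero_add]

theorem nob_low {q W g t n : ℕ} :
    Nob q W g 0 (t + 1) n ↔ n % q ^ W ≠ g ∧ Nob q W g 0 t (n / q ^ W) := by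
  unfold Nob
  constructor
  · intro h1
    refine ⟨?_, fun j hj => ?_⟩
    · have := h1 0 (by omega)
      simpa using this
    · have h2 := h1 (j + 1) (by omega)
      rw [Nat.div_div_eq_div_mul, ← pow_add]
      have e1 : W + (0 + W * j) = 0 + W * (j + 1) := by ring
      rwa [e1]
  · rintro ⟨h1, h2⟩ j hj
    rcases j with _ | j
    · simpa using h1
    · have h3 := h2 j (by omega)
      rw [Nat.div_div_eq_div_mul, ← pow_add] at h3
      have e1 : W + (0 + W * j) = 0 + W * (j + 1) := by ring
      rwa [e1] at h3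

/-- a block is determined by the residue class -/
theorem block_mod {q W i H n : ℕ} (h : i + W ≤ H) :
    ((n % q ^ H) / q ^ i) % q ^ W = (n / q ^ i) % q ^ W := by
  obtain ⟨x, rfl⟩ : ∃ x, H = i + (W + x) := ⟨H - i - W, by omega⟩
  rw [pow_add q i, Nat.mod_mul_right_div_self, pow_add q W,
    Nat.mod_mod_of_dvd _ (Dvd.intro _ rfl)]

theorem nob_mod {q W g h t H n : ℕ} (hH : h + W * t ≤ H) :
    Nob q W g h t (n % q ^ H) ↔ Nob q W g h t n := by
  unfold Nob
  refine forall_congr' fun j => forall_congr' fun hj => ?_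
  rw [block_mod]
  calc h + W * j + W = h + W * (j + 1) := by ring
    _ ≤ h + W * t := by
        have := Nat.mul_le_mul_left W (show j + 1 ≤ t by omega)
        omega
    _ ≤ H := hH

theorem av_div_low {q : ℕ} (hq : 2 ≤ q) (h k y : ℕ) (F : ℕ → ℝ) :
    av q (h + k) (fun n => F ((q ^ (h + k) * y + n) / q ^ h)) =
      av q k (fun n => F (q ^ k * y + n)) := by
  have hqh : 0 < q ^ h := by positivity
  rw [av_split]
  have h1 : ∀ s < q ^ h, cnd q k h (fun n => F ((q ^ (h + k) * y + n) / q ^ h)) s =
      av q k (fun n => F (q ^ k * y + n)) := by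
    intro s hs
    unfold cnd
    refine av_congr fun x _ => ?_
    have e1 : q ^ (h + k) * y + (q ^ h * x + s) = q ^ h * (q ^ k * y + x) + s := by
      rw [pow_add]
      ring
    beta_reduce
    rw [e1, Nat.mul_add_div hqh, Nat.div_eq_of_lt hs, add_zero]
  rw [av_congr h1, av_const hq]

theorem av_ne {q W g : ℕ} (hq : 2 ≤ q) (hg : g < q ^ W) :
    av q W (fun w => if w ≠ g then (1 : ℝ) else 0) = 1 - 1 / (q : ℝ) ^ W := by
  have h1 : (fun w => if w ≠ g then (1 : ℝ) else 0) = fun w => 1 - if w = g then (1 : ℝ) else 0 := by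
    funext w
    by_cases h : w = g
    · simp [h]
    · simp [h]
  rw [h1, av_sub, av_const hq]
  congr 1
  unfold av
  rw [Finset.sum_ite_eq' (Finset.range (q ^ W)) g (fun _ => (1 : ℝ)),
    if_pos (Finset.mem_range.mpr hg)]

open Classical in
theorem av_nob_zero {q W g : ℕ} (hq : 2 ≤ q) (hg : g < q ^ W) (t k y : ℕ) :
    av q (W * t + k) (fun n => if Nob q W g 0 t (q ^ (W * t + k) * y + n) then (1 : ℝ) else 0) =
      (1 - 1 / (q : ℝ) ^ W) ^ t := by
  induction t with
  | zero =>
    have h1 : ∀ n, Nob q W g 0 0 n := fun n j hj => by omega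
    simp only [h1, if_true, pow_zero]
    exact av_const hq _ _
  | succ t ih =>
    have hqW : 0 < q ^ W := by positivity
    have e0 : W * (t + 1) + k = W + (W * t + k) := by ring
    rw [e0, av_split]
    have h1 : ∀ s < q ^ W, cnd q (W * t + k) W (fun n => if Nob q W g 0 (t + 1)
        (q ^ (W + (W * t + k)) * y + n) then (1 : ℝ) else 0) s =
        (if s ≠ g then (1 : ℝ) else 0) * (1 - 1 / (q : ℝ) ^ W) ^ t := by
      intro s hs
      rw [← ih, ← av_const_mul]
      unfold cnd
      refine av_congr fun x _ => ?_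
      have e1 : q ^ (W + (W * t + k)) * y + (q ^ W * x + s) =
          q ^ W * (q ^ (W * t + k) * y + x) + s := by
        rw [pow_add q W]
        ring
      have e2 : (q ^ W * (q ^ (W * t + k) * y + x) + s) % q ^ W = s := by
        rw [Nat.mul_add_mod, Nat.mod_eq_of_lt hs]
      have e3 : (q ^ W * (q ^ (W * t + k) * y + x) + s) / q ^ W = q ^ (W * t + k) * y + x := by
        rw [Nat.mul_add_div hqW, Nat.div_eq_of_lt hs, add_zero]
      beta_reduce
      rw [e1]
      have e4 : Nob q W g 0 (t + 1) (q ^ W * (q ^ (W * t + k) * y + x) + s) ↔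
          s ≠ g ∧ Nob q W g 0 t (q ^ (W * t + k) * y + x) := by
        rw [nob_low, e2, e3]
      by_cases h3 : s ≠ g
      · rw [if_pos h3, one_mul]
        exact if_congr (by rw [e4]; exact and_iff_right h3) rfl rfl
      · rw [if_neg h3, zero_mul, if_neg]
        rw [e4]
        exact fun h => h3 h.1
    rw [av_congr h1, av_mul_const, av_ne hq hg, pow_succ]
    ring

open Classical in
theorem av_nob {q W g : ℕ} (hq : 2 ≤ q) (hg : g < q ^ W) (h t k y : ℕ) :
    av q (h + (W * t + k)) (fun n => if Nob q W g h t (q ^ (h + (W * t + k)) * y + n)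
      then (1 : ℝ) else 0) = (1 - 1 / (q : ℝ) ^ W) ^ t := by
  rw [← av_nob_zero hq hg t k y]
  rw [← av_div_low hq h (W * t + k) y (fun n => if Nob q W g 0 t n then (1 : ℝ) else 0)]
  refine av_congr fun n _ => ?_
  exact if_congr nob_zero rfl rfl

theorem mu_le_one (n : ℕ) : |mu n| ≤ 1 := by
  unfold mu
  exact_mod_cast ArithmeticFunction.abs_moebius_le_one

open Classical in
/-- reduction to the classes in which a block is `g` -/
theorem first_block {q W g h : ℕ} (hq : 2 ≤ q) (hg : g < q ^ W) {f : ℕ → ℝ}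
    (hf : ∀ n, |f n| ≤ 1)
    (hcl : ∀ t r : ℕ, r < q ^ (h + W * (t + 1)) → (r / q ^ (h + W * t)) % q ^ W = g →
      Tendsto (LogAvg fun n => mu n * (if n % q ^ (h + W * (t + 1)) = r then f n else 0))
        atTop (𝓝 0)) :
    Tendsto (LogAvg fun n => mu n * f n) atTop (𝓝 0) := by
  have hqR : (2 : ℝ) ≤ q := by exact_mod_cast hq
  -- the part where a block is `g`
  have h1 : ∀ t : ℕ, Tendsto (LogAvg fun n => mu n * (f n - if Nob q W g h t n then f n else 0))
      atTop (𝓝 0) := by
    intro t
    induction t with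
    | zero =>
      have e1 : ∀ n, Nob q W g h 0 n := fun n j hj => by omega
      have e2 : (fun n => mu n * (f n - if Nob q W g h 0 n then f n else 0)) = fun _ => 0 := by
        funext n
        rw [if_pos (e1 n)]
        ring
      rw [e2]
      have e3 : LogAvg (fun _ => (0 : ℝ)) = fun _ => 0 := by
        funext N
        unfold LogAvg
        simp
      rw [e3]
      exact tendsto_const_nhds
    | succ t ih =>
      have h2 := tendsto_finset ((Finset.range (q ^ (h + W * (t + 1)))).filter
        fun r => Nob q W g h t r ∧ (r / q ^ (h + W * t)) % q ^ W = g)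
        (fun r n => mu n * (if n % q ^ (h + W * (t + 1)) = r then f n else 0))
        (fun r hr => by
          rw [Finset.mem_filter, Finset.mem_range] at hr
          exact hcl t r hr.1 hr.2.2)
      have h3 := ih.add h2
      rw [add_zero] at h3
      refine h3.congr fun N => ?_
      rw [← LogAvg_add]
      refine LogAvg_congr fun n _ _ => ?_
      rw [← Finset.mul_sum, Finset.sum_ite_eq]
      have hqH : 0 < q ^ (h + W * (t + 1)) := by positivity
      have hmem : n % q ^ (h + W * (t + 1)) ∈ (Finset.range (q ^ (h + W * (t + 1)))).filter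
          (fun r => Nob q W g h t r ∧ (r / q ^ (h + W * t)) % q ^ W = g) ↔
          Nob q W g h t n ∧ (n / q ^ (h + W * t)) % q ^ W = g := by
        rw [Finset.mem_filter, Finset.mem_range, nob_mod (by
          have := Nat.mul_le_mul_left W (show t ≤ t + 1 by omega)
          omega), block_mod (by rw [Nat.mul_succ]; omega)]
        exact ⟨fun h => h.2, fun h => ⟨Nat.mod_lt _ hqH, h⟩⟩
      have hs := nob_succ (q := q) (W := W) (g := g) (h := h) (t := t) (n := n)
      by_cases a1 : Nob q W g h t n
      · by_cases a2 : (n / q ^ (h + W * t)) % q ^ W = g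
        · rw [if_pos a1, if_pos (hmem.mpr ⟨a1, a2⟩), if_neg (fun h => (hs.mp h).2 a2)]
          ring
        · rw [if_pos a1, if_neg (fun h => a2 (hmem.mp h).2), if_pos (hs.mpr ⟨a1, a2⟩)]
          ring
      · rw [if_neg a1, if_neg (fun h => a1 (hmem.mp h).1), if_neg (fun h => a1 (hs.mp h).1)]
        ring
  -- the rest is small
  set ρ : ℝ := 1 - 1 / (q : ℝ) ^ W with hρ
  have hqW : (1 : ℝ) ≤ (q : ℝ) ^ W := one_le_pow₀ (by linarith)
  have hρ0 : 0 ≤ ρ := by
    rw [hρ, sub_nonneg, div_le_one (by positivity)]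
    exact hqW
  have hρ1 : ρ < 1 := by
    rw [hρ]
    have : 0 < 1 / (q : ℝ) ^ W := by positivity
    linarith
  rw [Metric.tendsto_nhds]
  intro ε hε
  obtain ⟨t, ht⟩ : ∃ t : ℕ, 2 * q * ρ ^ t ≤ ε / 4 := by
    have h2 : Tendsto (fun t : ℕ => 2 * q * ρ ^ t) atTop (𝓝 (2 * q * 0)) :=
      (tendsto_pow_atTop_nhds_zero_of_lt_one hρ0 hρ1).const_mul _
    rw [mul_zero] at h2
    exact (h2.eventually_le_const (by positivity)).exists
  have h2 := Metric.tendsto_nhds.mp (h1 t) (ε / 4) (by positivity)
  have h3 := block_log (q := q) (M := 1) hq le_rfl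
    (u := fun n => if Nob q W g h t n then (1 : ℝ) else 0) (A := 1) (fun n => by
      split_ifs <;> simp) (η := ρ ^ t) (by positivity) (fun t' ε₂ hε₂ => by
      filter_upwards [eventually_ge_atTop (h + W * t)] with k hk y _ _ i hi
      have hi0 : i = 0 := by omega
      subst hi0
      obtain ⟨k', rfl⟩ : ∃ k', k = h + (W * t + k') := ⟨k - h - W * t, by omega⟩
      simp only [one_mul, add_zero]
      rw [av_nob hq hg, abs_of_nonneg (by positivity)]
      linarith) (ε := ε / 4) (by positivity)
  filter_upwards [h2, h3] with N hN1 hN2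
  rw [Real.dist_eq, sub_zero] at hN1 ⊢
  have e1 : LogAvg (fun n => mu n * f n) N =
      LogAvg (fun n => mu n * (f n - if Nob q W g h t n then f n else 0)) N +
      LogAvg (fun n => mu n * (if Nob q W g h t n then f n else 0)) N := by
    rw [← LogAvg_add]
    refine LogAvg_congr fun n _ _ => ?_
    ring
  have e2 : |LogAvg (fun n => mu n * (if Nob q W g h t n then f n else 0)) N| ≤
      LogAvg (fun n => if Nob q W g h t n then (1 : ℝ) else 0) N := by
    refine (DS.G_abs _ N).trans (LogAvg_mono fun n _ => ?_)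
    split_ifs
    · rw [abs_mul]
      exact mul_le_one₀ (mu_le_one n) (abs_nonneg _) (hf n)
    · simp
  rw [e1]
  refine (abs_add_le _ _).trans_lt ?_
  have e3 := le_abs_self (LogAvg (fun n => if Nob q W g h t n then (1 : ℝ) else 0) N)
  linarith

end Pool.Agent.Lib.MP_3e612f_nt.SA
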