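import Pool.Agent.Lib.MP_3e612f_nt.SDefs
import Pool.Agent.Lib.MP_3e612f_nt.QTwist

/-!
Irrational rotations, monoid-valued functions.
-/

set_option autoImplicit false

namespace Pool.Agent.Lib.MP_3e612f_nt.SA

open Filter Topology QA

/-- the value of `γ` on a special word -/
theorem t11_word {G : Type*} [Monoid G] {q m : ℕ} (hq : 2 ≤ q) {γ : ℕ → G}
    (hγ : ∀ a y s : ℕ, s < q ^ a → γ (q ^ (a + m) * y + s) = γ y * γ s)
    {P b W h k c z y n : ℕ} (hc : c ≤ P) (hz : z < q ^ h) (hb : P + 1 ≤ q ^ b)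
    (hW : P * q ^ (m + b) + P + 1 ≤ q ^ W) :
    γ (q ^ h * (P * (q ^ (W + m + k) * y + (q ^ (W + m) * n + q ^ (m + b))) + c) + z)
      = γ (P * (q ^ k * y + n)) * (γ P * γ (q ^ h * c + z)) := by
  have hh := qpow_pos hq h
  have e1 : q ^ h * (P * (q ^ (W + m + k) * y + (q ^ (W + m) * n + q ^ (m + b))) + c) + z
      = q ^ ((h + W) + m) * (P * (q ^ k * y + n)) + (q ^ h * (P * q ^ (m + b) + c) + z) := by
    ring
  have e2 : q ^ h * (P * q ^ (m + b) + c) + z = q ^ ((h + b) + m) * P + (q ^ h * c + z) := by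
    ring
  have l1 : q ^ h * (P * q ^ (m + b) + c) + z < q ^ (h + W) := by
    calc q ^ h * (P * q ^ (m + b) + c) + z < q ^ h * (P * q ^ (m + b) + c) + q ^ h := by omega
      _ = q ^ h * (P * q ^ (m + b) + c + 1) := by ring
      _ ≤ q ^ h * q ^ W := Nat.mul_le_mul_left _ (by omega)
      _ = q ^ (h + W) := (pow_add q h W).symm
  have l2 : q ^ h * c + z < q ^ (h + b) := by
    calc q ^ h * c + z < q ^ h * c + q ^ h := by omega
      _ = q ^ h * (c + 1) := by ring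
      _ ≤ q ^ h * q ^ b := Nat.mul_le_mul_left _ (by omega)
      _ = q ^ (h + b) := (pow_add q h b).symm
  rw [e1, hγ _ _ _ l1, e2, hγ _ _ _ l2]

/-- one window -/
theorem t11_step {G : Type*} [Monoid G] {q m : ℕ} (hq : 2 ≤ q) {γ : ℕ → G}
    (hγ : ∀ a y s : ℕ, s < q ^ a → γ (q ^ (a + m) * y + s) = γ y * γ s) {P R b W k : ℕ}
    (hbP : P + 1 ≤ q ^ b) (hbR : R + 1 ≤ q ^ b)
    (hWP : P * q ^ (m + (b + 1)) + P + 1 ≤ q ^ W) (hWR : R * q ^ (m + (b + 1)) + R + 1 ≤ q ^ W)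
    (hW : m + (b + 1) < W + m) {κ B : ℝ} (_ : 0 ≤ B)
    (hk : q15_Bd q P R γ k (κ * q ^ (W + m)) B) :
    q15_Bd q P R γ (W + m + k) κ ((1 - 2 / (q : ℝ) ^ (W + m) + 2 / (q : ℝ) ^ (W + m) *
      |Real.cos (Real.pi * (κ * (q ^ (m + b) * (q - 1))))|) * B) := by
  intro h y c d z z' hc hd hz hz' F hF θ
  rw [av_split]
  have hq1 : 1 ≤ q := by omega
  have hbb : q ^ b ≤ q ^ (b + 1) := Nat.pow_le_pow_right hq1 (by omega)
  have hmb : q ^ (m + b) ≤ q ^ (m + (b + 1)) := Nat.pow_le_pow_right hq1 (by omega)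
  have hPb := Nat.mul_le_mul_left P hmb
  have hRb := Nat.mul_le_mul_left R hmb
  -- the value at a special word
  set F' : G → G → ℝ := fun x x' => F (x * (γ P * γ (q ^ h * c + z))) (x' * (γ R * γ (q ^ h * d + z')))
    with hF'
  have hword : ∀ b' : ℕ, P + 1 ≤ q ^ b' → R + 1 ≤ q ^ b' → P * q ^ (m + b') + P + 1 ≤ q ^ W →
      R * q ^ (m + b') + R + 1 ≤ q ^ W →
      cnd q k (W + m) (fun n => Real.cos (2 * Real.pi * (κ * n + θ)) *
        F (γ (q ^ h * (P * (q ^ (W + m + k) * y + n) + c) + z))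
          (γ (q ^ h * (R * (q ^ (W + m + k) * y + n) + d) + z'))) (q ^ (m + b'))
      = av q k (fun n => Real.cos (2 * Real.pi * (κ * q ^ (W + m) * n + (κ * q ^ (m + b') + θ))) *
          F' (γ (P * (q ^ k * y + n))) (γ (R * (q ^ k * y + n)))) := by
    intro b' h1 h2 h3 h4
    unfold cnd
    refine av_congr fun n _ => ?_
    beta_reduce
    rw [t11_word hq hγ hc hz h1 h3, t11_word hq hγ hd hz' h2 h4]
    simp only [hF']
    congr 2
    push_cast
    ring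
  refine q15_avg hq (w := q ^ (m + b)) (w' := q ^ (m + (b + 1))) ?_ ?_ ?_ ?_ ?_
  · exact Nat.pow_lt_pow_right (by omega) (by omega)
  · exact Nat.pow_lt_pow_right (by omega) (by omega)
  · intro h0
    have := Nat.pow_right_injective hq h0
    omega
  · intro w hw
    unfold cnd
    have h1 := hk (h + (W + m)) y ((P * w + c) / q ^ (W + m)) ((R * w + d) / q ^ (W + m))
      (q ^ h * ((P * w + c) % q ^ (W + m)) + z) (q ^ h * ((R * w + d) % q ^ (W + m)) + z')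
      (q15_div hw hc) (q15_div hw hd) (q15_mod hq hz) (q15_mod hq hz') F hF (κ * w + θ)
    refine le_of_eq_of_le ?_ h1
    congr 1
    refine av_congr fun n _ => ?_
    beta_reduce
    rw [q15_nat, q15_nat]
    congr 2
    push_cast
    ring
  · rw [hword b hbP hbR (by omega) (by omega),
      hword (b + 1) (by omega) (by omega) hWP hWR, ← av_add]
    have h1 := hk 0 y 0 0 0 0 (Nat.zero_le _) (Nat.zero_le _) (by simp) (by simp) F'
      (fun x x' => hF _ _) (κ * (q ^ (m + b) + q ^ (m + (b + 1))) / 2 + θ)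
    have h2 : ∀ n : ℕ, Real.cos (2 * Real.pi * (κ * q ^ (W + m) * n + (κ * q ^ (m + b) + θ))) *
          F' (γ (P * (q ^ k * y + n))) (γ (R * (q ^ k * y + n)))
        + Real.cos (2 * Real.pi * (κ * q ^ (W + m) * n + (κ * q ^ (m + (b + 1)) + θ))) *
          F' (γ (P * (q ^ k * y + n))) (γ (R * (q ^ k * y + n)))
        = 2 * Real.cos (Real.pi * (κ * (q ^ (m + b) * (q - 1)))) *
          (Real.cos (2 * Real.pi * (κ * q ^ (W + m) * n +
            (κ * (q ^ (m + b) + q ^ (m + (b + 1))) / 2 + θ))) *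
            F' (γ (q ^ 0 * (P * (q ^ k * y + n) + 0) + 0))
              (γ (q ^ 0 * (R * (q ^ k * y + n) + 0) + 0))) := by
      intro n
      have h3 : (q ^ 0 * (P * (q ^ k * y + n) + 0) + 0) = P * (q ^ k * y + n) := by ring
      have h4 : (q ^ 0 * (R * (q ^ k * y + n) + 0) + 0) = R * (q ^ k * y + n) := by ring
      rw [h3, h4, ← add_mul, Real.cos_add_cos]
      have h5 : (2 * Real.pi * (κ * q ^ (W + m) * n + (κ * q ^ (m + b) + θ))
          + 2 * Real.pi * (κ * q ^ (W + m) * n + (κ * q ^ (m + (b + 1)) + θ))) / 2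
          = 2 * Real.pi * (κ * q ^ (W + m) * n +
            (κ * (q ^ (m + b) + q ^ (m + (b + 1))) / 2 + θ)) := by ring
      have h6 : (2 * Real.pi * (κ * q ^ (W + m) * n + (κ * q ^ (m + b) + θ))
          - 2 * Real.pi * (κ * q ^ (W + m) * n + (κ * q ^ (m + (b + 1)) + θ))) / 2
          = - (Real.pi * (κ * (q ^ (m + b) * (q - 1)))) := by ring
      rw [h5, h6, Real.cos_neg]
      ring
    rw [av_congr (fun n _ => h2 n), av_const_mul, abs_mul, abs_mul, abs_two]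
    have h7 := mul_le_mul_of_nonneg_left h1
      (mul_nonneg (by norm_num : (0 : ℝ) ≤ 2)
        (abs_nonneg (Real.cos (Real.pi * (κ * (q ^ (m + b) * (q - 1)))))))
    exact h7

theorem t11_prod {G : Type*} [Monoid G] {q m : ℕ} (hq : 2 ≤ q) {γ : ℕ → G}
    (hγ : ∀ a y s : ℕ, s < q ^ a → γ (q ^ (a + m) * y + s) = γ y * γ s) {P R b W : ℕ}
    (hbP : P + 1 ≤ q ^ b) (hbR : R + 1 ≤ q ^ b)
    (hWP : P * q ^ (m + (b + 1)) + P + 1 ≤ q ^ W) (hWR : R * q ^ (m + (b + 1)) + R + 1 ≤ q ^ W)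
    (hW : m + (b + 1) < W + m) (n : ℕ) : ∀ κ : ℝ,
    q15_Bd q P R γ ((W + m) * n) κ (∏ i ∈ Finset.range n,
      q15_fac q (W + m) (κ * q ^ ((W + m) * i) * (q ^ (m + b) * (q - 1)))) := by
  induction n with
  | zero =>
    intro κ
    simpa using q15_zero q P R γ κ
  | succ n ih =>
    intro κ
    have h1 := t11_step hq hγ hbP hbR hWP hWR hW
      (Finset.prod_nonneg fun i _ => q15_fac_nonneg hq (by omega) _) (ih (κ * q ^ (W + m)))
    have e1 : (W + m) * (n + 1) = W + m + (W + m) * n := by ring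
    rw [e1, Finset.prod_range_succ']
    have e2 : q15_fac q (W + m) (κ * q ^ ((W + m) * 0) * (q ^ (m + b) * (q - 1)))
        = 1 - 2 / (q : ℝ) ^ (W + m) + 2 / (q : ℝ) ^ (W + m) *
          |Real.cos (Real.pi * (κ * (q ^ (m + b) * (q - 1))))| := by
      unfold q15_fac
      simp
    have e3 : ∏ i ∈ Finset.range n,
        q15_fac q (W + m) (κ * q ^ ((W + m) * (i + 1)) * (q ^ (m + b) * (q - 1)))
        = ∏ i ∈ Finset.range n,
        q15_fac q (W + m) (κ * q ^ (W + m) * q ^ ((W + m) * i) * (q ^ (m + b) * (q - 1))) := by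
      refine Finset.prod_congr rfl fun i _ => ?_
      congr 1
      ring
    rw [e2, e3]
    rw [mul_comm (1 - 2 / (q : ℝ) ^ (W + m) + 2 / (q : ℝ) ^ (W + m) *
      |Real.cos (Real.pi * (κ * (q ^ (m + b) * (q - 1))))|)] at h1
    exact h1

theorem twistm {G : Type*} [Monoid G] {q m : ℕ} (hq : 2 ≤ q) {γ : ℕ → G}
    (hγ : ∀ a y s : ℕ, s < q ^ a → γ (q ^ (a + m) * y + s) = γ y * γ s) {P R : ℕ} (hP : 1 ≤ P)
    (hR : 1 ≤ R) {κ : ℝ} (hκ : Irrational κ) {ε : ℝ} (hε : 0 < ε) :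
    ∀ᶠ k : ℕ in atTop, ∀ y c d : ℕ, c ≤ P → d ≤ R → ∀ F : G → G → ℝ, (∀ x x', |F x x'| ≤ 1) →
      ∀ θ : ℝ, |av q k (fun n => Real.cos (2 * Real.pi * (κ * n + θ)) *
        F (γ (P * (q ^ k * y + n) + c)) (γ (R * (q ^ k * y + n) + d)))| ≤ ε := by
  have _ := hP
  have _ := hR
  -- parameters
  obtain ⟨b, hb⟩ : ∃ b, b = P + R := ⟨_, rfl⟩
  obtain ⟨W, hW⟩ : ∃ W, W = m + (b + 1) + (P + R + 1) := ⟨_, rfl⟩
  have hpw : ∀ t : ℕ, t + 1 ≤ q ^ t := fun t => Nat.lt_pow_self (by omega)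
  have hbP : P + 1 ≤ q ^ b := by
    have := hpw b
    omega
  have hbR : R + 1 ≤ q ^ b := by
    have := hpw b
    omega
  have hpos := qpow_pos hq (m + (b + 1))
  have hWW : q ^ (m + (b + 1)) * (P + R + 1 + 1) ≤ q ^ W := by
    rw [hW, pow_add q (m + (b + 1))]
    exact Nat.mul_le_mul_left _ (hpw (P + R + 1))
  have hX : P + R + 2 ≤ q ^ (m + (b + 1)) := by
    have := hpw (m + (b + 1))
    omega
  have hWP : P * q ^ (m + (b + 1)) + P + 1 ≤ q ^ W := by
    refine le_trans ?_ hWW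
    nlinarith
  have hWR : R * q ^ (m + (b + 1)) + R + 1 ≤ q ^ W := by
    refine le_trans ?_ hWW
    nlinarith
  have hWm : m + (b + 1) < W + m := by omega
  -- contraction
  obtain ⟨Q, hQ⟩ : ∃ Q, Q = q ^ (W + m) := ⟨_, rfl⟩
  have hQ2 : 2 ≤ Q := by
    have := hpw (W + m)
    omega
  obtain ⟨κ₁, hκ₁⟩ : ∃ κ₁ : ℝ, κ₁ = κ * (q ^ (m + b) * (q - 1)) := ⟨_, rfl⟩
  have hκi : Irrational κ₁ := by
    have h1 : ((q ^ (m + b) * (q - 1) : ℕ) : ℝ) = (q : ℝ) ^ (m + b) * (q - 1) := by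
      have : ((q - 1 : ℕ) : ℝ) = (q : ℝ) - 1 := by
        rw [Nat.cast_sub (by omega)]
        simp
      push_cast
      rw [this]
    rw [hκ₁, ← h1]
    refine hκ.mul_natCast ?_
    have h2 := qpow_pos hq (m + b)
    have h3 : 0 < q - 1 := by omega
    positivity
  obtain ⟨δ, hδ⟩ : ∃ δ : ℝ, δ = 1 / (2 * (Q : ℝ)) := ⟨_, rfl⟩
  have hQR : (2 : ℝ) ≤ Q := by exact_mod_cast hQ2
  have hδ0 : 0 < δ := by
    rw [hδ]
    positivity
  have hδ1 : δ ≤ 1 := by
    rw [hδ, div_le_one (by positivity)]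
    linarith
  obtain ⟨ρ, hρ⟩ : ∃ ρ : ℝ, ρ = 1 - 2 / (Q : ℝ) + 2 / (Q : ℝ) * Real.cos (Real.pi * δ) :=
    ⟨_, rfl⟩
  have hcos1 : Real.cos (Real.pi * δ) < 1 := by
    have h1 := Real.cos_lt_cos_of_nonneg_of_le_pi (x := 0) (y := Real.pi * δ) le_rfl
      (by nlinarith [Real.pi_pos]) (by positivity)
    rwa [Real.cos_zero] at h1
  have hcos0 : 0 ≤ Real.cos (Real.pi * δ) := by
    refine Real.cos_nonneg_of_mem_Icc ⟨?_, ?_⟩
    · nlinarith [Real.pi_pos]
    · have : δ ≤ 1 / 2 := by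
        rw [hδ]
        exact div_le_div_of_nonneg_left (by norm_num) (by norm_num) (by linarith)
      nlinarith [Real.pi_pos]
  have hρ0 : 0 ≤ ρ := by
    have h1 : 2 / (Q : ℝ) ≤ 1 := (div_le_one (by linarith)).2 hQR
    have h2 : 0 ≤ 2 / (Q : ℝ) * Real.cos (Real.pi * δ) := by positivity
    rw [hρ]
    linarith
  have hρ1 : ρ < 1 := by
    have h2 : 2 / (Q : ℝ) * Real.cos (Real.pi * δ) < 2 / (Q : ℝ) * 1 :=
      mul_lt_mul_of_pos_left hcos1 (by positivity)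
    rw [hρ]
    linarith
  have hQcast : (Q : ℝ) = (q : ℝ) ^ (W + m) := by
    rw [hQ]
    push_cast
    rfl
  obtain ⟨j, hj⟩ := exists_pow_lt_of_lt_one hε hρ1
  obtain ⟨n₀, hn₀⟩ := q15_tend hQ2 hκi (f := q15_fac q (W + m))
    (fun x => q15_fac_nonneg hq (by omega) x) (fun x => q15_fac_le_one x) hρ0
    (fun x hx => by
      unfold q15_fac
      rw [hρ, ← hQcast]
      rw [← hδ] at hx
      have := q15_cos hδ0.le hx
      have h2 : 2 / (Q : ℝ) * |Real.cos (Real.pi * x)| ≤ 2 / (Q : ℝ) * Real.cos (Real.pi * δ) :=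
        mul_le_mul_of_nonneg_left this (by positivity)
      linarith) j
  filter_upwards [eventually_ge_atTop ((W + m) * n₀)] with k hk y c d hc hd F hF θ
  -- split off the top digits
  obtain ⟨n, hn⟩ : ∃ n, n = k / (W + m) := ⟨_, rfl⟩
  have hWm0 : 0 < W + m := by omega
  have hnn : n₀ ≤ n := by
    rw [hn, Nat.le_div_iff_mul_le hWm0, Nat.mul_comm]
    exact hk
  obtain ⟨l, hl⟩ : ∃ l, k = (W + m) * n + l :=
    ⟨k % (W + m), by rw [hn]; exact (Nat.div_add_mod k (W + m)).symm⟩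
  have hbd := t11_prod hq hγ hbP hbR hWP hWR hWm n κ
  have hprod : ∏ i ∈ Finset.range n,
      q15_fac q (W + m) (κ * q ^ ((W + m) * i) * (q ^ (m + b) * (q - 1))) ≤ ε := by
    refine le_trans (le_of_eq ?_) ((hn₀ n hnn).trans hj.le)
    refine Finset.prod_congr rfl fun i _ => ?_
    congr 1
    rw [hκ₁, hQcast, ← pow_mul]
    ring
  rw [hl, av_split]
  unfold cnd
  rw [av_swap]
  refine abs_av_le hq fun t _ => ?_
  refine le_trans (le_of_eq ?_) ((hbd 0 (q ^ l * y + t) c d 0 0 hc hd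
    (by simp) (by simp) F hF (κ * q ^ ((W + m) * n) * t + θ)).trans hprod)
  congr 1
  refine av_congr fun s _ => ?_
  have e1 : q ^ 0 * (P * (q ^ ((W + m) * n) * (q ^ l * y + t) + s) + c) + 0
      = P * (q ^ ((W + m) * n + l) * y + (q ^ ((W + m) * n) * t + s)) + c := by
    rw [pow_add q ((W + m) * n) l]
    ring
  have e2 : q ^ 0 * (R * (q ^ ((W + m) * n) * (q ^ l * y + t) + s) + d) + 0
      = R * (q ^ ((W + m) * n + l) * y + (q ^ ((W + m) * n) * t + s)) + d := by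
    rw [pow_add q ((W + m) * n) l]
    ring
  have e3 : 2 * Real.pi * (κ * ((q ^ ((W + m) * n) * t + s : ℕ) : ℝ) + θ)
      = 2 * Real.pi * (κ * (s : ℝ) + (κ * q ^ ((W + m) * n) * t + θ)) := by
    push_cast
    ring
  beta_reduce
  rw [e1, e2, e3]

end Pool.Agent.Lib.MP_3e612f_nt.SA
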