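import Pool.Agent.Lib.MP_3e612f_nt.SFirst
import Pool.Agent.Lib.MP_3e612f_nt.STwist

/-!
Rotations: functions of the upper digits in a residue class, twisted by an arbitrary rotation.
-/

set_option autoImplicit false

namespace Pool.Agent.Lib.MP_3e612f_nt.SA

open Filter Topology QA

variable {S : Type*} [Monoid S] {d : ℕ}

/-- irrational rotations -/
theorem core_irr {q m : ℕ} (hq : 2 ≤ q) {β : ℕ → S} (hβ : QM q m β) {e : ℕ → Fin d → ℤ} {C : ℝ}
    (he : QV q m e C) {α : ℝ} (hα : Irrational α) (θ : ℝ) (h a ω : ℕ)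
    {B : S → (Fin d → ℤ) → ℝ} (hB : ∀ x v, |B x v| ≤ 1) :
    Tendsto (LogAvg fun n => mu n * (Real.cos (2 * Real.pi * (α * n + θ)) *
      (if n % q ^ h = a then B (β (n / q ^ h) * β ω) (e (n / q ^ h)) else 0))) atTop (𝓝 0) := by
  have hqR : (2 : ℝ) ≤ q := by exact_mod_cast hq
  have hqh : 0 < q ^ h := by positivity
  set g : ℕ → ℝ := fun n => if n % q ^ h = a then B (β (n / q ^ h) * β ω) (e (n / q ^ h)) else 0
    with hg
  have hg1 : ∀ n, |g n| ≤ 1 := by
    intro n
    rw [hg]
    simp only
    split_ifs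
    · exact hB _ _
    · simp
  set γ : ℕ → S × Multiplicative (Fin d → ℤ) := fun n => (β n, Multiplicative.ofAdd (e n)) with hγ
  have hγg : ∀ a y s : ℕ, s < q ^ a → γ (q ^ (a + m) * y + s) = γ y * γ s := by
    intro a y s hs
    simp only [hγ, Prod.mk_mul_mk]
    rw [hβ.gap a y s hs, he.gap a y s hs, ofAdd_add]
  refine katai_log' (K := 0) (b := fun n => Real.cos (2 * Real.pi * (α * n + θ)) * g n)
    (fun n => ?_) fun ε hε => ⟨1, fun p r hp hr _ _ hpr => ?_⟩
  · rw [abs_mul]
    have h1 := Real.abs_cos_le_one (2 * Real.pi * (α * n + θ))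
    have h2 := mul_le_one₀ h1 (abs_nonneg _) (hg1 n)
    linarith
  · have hβ₁ : Irrational (α * (((r - p) * q ^ h : ℕ) : ℝ)) :=
      hα.mul_natCast (Nat.mul_ne_zero (by omega) hqh.ne')
    have hβ₂ : Irrational (α * (((r + p) * q ^ h : ℕ) : ℝ)) :=
      hα.mul_natCast (Nat.mul_ne_zero (by omega) hqh.ne')
    have hblock := block_log (q := q) (M := q ^ h) hq hqh
      (u := fun n => (Real.cos (2 * Real.pi * (α * ((p * n : ℕ) : ℝ) + θ)) * g (p * n)) *
        (Real.cos (2 * Real.pi * (α * ((r * n : ℕ) : ℝ) + θ)) * g (r * n))) (A := 1)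
      (fun n => by
        rw [abs_mul, abs_mul, abs_mul]
        exact mul_le_one₀ (mul_le_one₀ (Real.abs_cos_le_one _) (abs_nonneg _) (hg1 _))
          (by positivity) (mul_le_one₀ (Real.abs_cos_le_one _) (abs_nonneg _) (hg1 _)))
      (η := 0) le_rfl (fun t ε₂ hε₂ => by
        filter_upwards [twistm hq hγg hp.one_le hr.one_le hβ₁ hε₂,
          twistm hq hγg hp.one_le hr.one_le hβ₂ hε₂] with k hk1 hk2 y _ _ i hi
        set F : S × Multiplicative (Fin d → ℤ) → S × Multiplicative (Fin d → ℤ) → ℝ :=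
          fun x x' => (if (p * i) % q ^ h = a then B (x.1 * β ω) (Multiplicative.toAdd x.2)
            else 0) * (if (r * i) % q ^ h = a then B (x'.1 * β ω) (Multiplicative.toAdd x'.2)
            else 0) with hF
        have hF1 : ∀ x x', |F x x'| ≤ 1 := by
          intro x x'
          rw [hF]
          simp only
          rw [abs_mul]
          refine mul_le_one₀ ?_ (abs_nonneg _) ?_
          · split_ifs
            · exact hB _ _
            · simp
          · split_ifs
            · exact hB _ _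
            · simp
        have hside : ∀ s : ℕ, 1 ≤ s → (s * i) / q ^ h ≤ s := by
          intro s _
          refine Nat.div_le_of_le_mul ?_
          calc s * i ≤ s * q ^ h := Nat.mul_le_mul_left _ hi.le
            _ = q ^ h * s := by ring
        have k1 := hk1 y (p * i / q ^ h) (r * i / q ^ h) (hside p hp.one_le)
          (hside r hr.one_le) F hF1
          (α * ((r - p : ℕ) : ℝ) * (q ^ h * (q ^ k * y) + i))
        have k2 := hk2 y (p * i / q ^ h) (r * i / q ^ h) (hside p hp.one_le)
          (hside r hr.one_le) F hF1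
          (α * ((r + p : ℕ) : ℝ) * (q ^ h * (q ^ k * y) + i) + 2 * θ)
        have hgs : ∀ s n : ℕ, g (s * (q ^ h * (q ^ k * y + n) + i)) =
            if (s * i) % q ^ h = a then
              B (β (s * (q ^ k * y + n) + s * i / q ^ h) * β ω)
                (e (s * (q ^ k * y + n) + s * i / q ^ h)) else 0 := by
          intro s n
          have e1 : s * (q ^ h * (q ^ k * y + n) + i) = q ^ h * (s * (q ^ k * y + n)) + s * i := by
            ring
          rw [hg]
          simp only
          rw [e1, Nat.mul_add_div hqh, Nat.mul_add_mod]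
        have e1 : (fun n : ℕ => (Real.cos (2 * Real.pi *
            (α * ((p * (q ^ h * (q ^ k * y + n) + i) : ℕ) : ℝ) + θ)) *
            g (p * (q ^ h * (q ^ k * y + n) + i))) *
            (Real.cos (2 * Real.pi * (α * ((r * (q ^ h * (q ^ k * y + n) + i) : ℕ) : ℝ) + θ)) *
              g (r * (q ^ h * (q ^ k * y + n) + i)))) = fun n : ℕ =>
            (Real.cos (2 * Real.pi * (α * (((r - p) * q ^ h : ℕ) : ℝ) * n +
              α * ((r - p : ℕ) : ℝ) * (q ^ h * (q ^ k * y) + i))) *
              F (γ (p * (q ^ k * y + n) + p * i / q ^ h)) (γ (r * (q ^ k * y + n) + r * i / q ^ h)) +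
            Real.cos (2 * Real.pi * (α * (((r + p) * q ^ h : ℕ) : ℝ) * n +
              (α * ((r + p : ℕ) : ℝ) * (q ^ h * (q ^ k * y) + i) + 2 * θ))) *
              F (γ (p * (q ^ k * y + n) + p * i / q ^ h))
                (γ (r * (q ^ k * y + n) + r * i / q ^ h))) / 2 := by
          funext n
          have hc : ∀ A B : ℝ, Real.cos A * Real.cos B =
              (Real.cos (B - A) + Real.cos (B + A)) / 2 := fun A B => by
            rw [Real.cos_sub, Real.cos_add]
            ring
          have hFg : F (γ (p * (q ^ k * y + n) + p * i / q ^ h))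
              (γ (r * (q ^ k * y + n) + r * i / q ^ h)) =
              g (p * (q ^ h * (q ^ k * y + n) + i)) * g (r * (q ^ h * (q ^ k * y + n) + i)) := by
            rw [hgs p n, hgs r n]
            simp only [hF, hγ, toAdd_ofAdd]
          rw [hFg, mul_mul_mul_comm, hc]
          have e2 : 2 * Real.pi * (α * ((r * (q ^ h * (q ^ k * y + n) + i) : ℕ) : ℝ) + θ) -
              2 * Real.pi * (α * ((p * (q ^ h * (q ^ k * y + n) + i) : ℕ) : ℝ) + θ) =
              2 * Real.pi * (α * (((r - p) * q ^ h : ℕ) : ℝ) * n +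
                α * ((r - p : ℕ) : ℝ) * (q ^ h * (q ^ k * y) + i)) := by
            rw [Nat.cast_mul (r - p), Nat.cast_sub hpr.le]
            push_cast
            ring
          have e3 : 2 * Real.pi * (α * ((r * (q ^ h * (q ^ k * y + n) + i) : ℕ) : ℝ) + θ) +
              2 * Real.pi * (α * ((p * (q ^ h * (q ^ k * y + n) + i) : ℕ) : ℝ) + θ) =
              2 * Real.pi * (α * (((r + p) * q ^ h : ℕ) : ℝ) * n +
                (α * ((r + p : ℕ) : ℝ) * (q ^ h * (q ^ k * y) + i) + 2 * θ)) := by
            push_cast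
            ring
          rw [e2, e3]
          ring
        rw [e1, av_div, av_add, abs_div, abs_of_pos (by norm_num : (0 : ℝ) < 2),
          div_le_iff₀ (by norm_num)]
        refine (abs_add_le _ _).trans ?_
        linarith) hε
    filter_upwards [hblock] with N hN
    rw [mul_zero, zero_add] at hN
    exact hN

/-- periodic factors -/
theorem core_per {Q h : ℕ} {q : ℕ} (hq : 2 ≤ q) (hdvd : Q ∣ q ^ h * (q - 1)) {G : ℕ → ℝ}
    (hcl : ∀ a, Tendsto (LogAvg fun n => mu n * (if n % (q ^ h * (q - 1)) = a then G n else 0))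
      atTop (𝓝 0)) (c : ℕ → ℝ) (hc : ∀ n, c (n % Q) = c n) (a : ℕ) :
    Tendsto (LogAvg fun n => mu n * (c n * (if n % q ^ h = a then G n else 0))) atTop (𝓝 0) := by
  have hM : 0 < q ^ h * (q - 1) := Nat.mul_pos (by positivity) (by omega)
  have h1 := tendsto_finset (Finset.range (q ^ h * (q - 1)))
    (fun b n => (c b * (if b % q ^ h = a then 1 else 0)) *
      (mu n * (if n % (q ^ h * (q - 1)) = b then G n else 0)))
    (fun b _ => by
      have h2 := (hcl b).const_mul (c b * (if b % q ^ h = a then 1 else 0))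
      rw [mul_zero] at h2
      refine h2.congr fun N => ?_
      rw [LogAvg_const_mul])
  refine h1.congr fun N => LogAvg_congr fun n _ _ => ?_
  have e1 : ∀ b : ℕ, (c b * (if b % q ^ h = a then 1 else 0)) *
      (mu n * (if n % (q ^ h * (q - 1)) = b then G n else 0)) =
      if n % (q ^ h * (q - 1)) = b then mu n * (c n * (if n % q ^ h = a then G n else 0)) else 0 := by
    intro b
    by_cases hb : n % (q ^ h * (q - 1)) = b
    · rw [if_pos hb, if_pos hb]
      have e2 : c b = c n := by
        rw [← hc b, ← hc n, ← hb, Nat.mod_mod_of_dvd _ hdvd]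
      have e3 : b % q ^ h = n % q ^ h := by
        rw [← hb, Nat.mod_mod_of_dvd _ (Dvd.intro _ rfl)]
      rw [e2, e3]
      by_cases ha : n % q ^ h = a
      · rw [if_pos ha, if_pos ha]
        ring
      · rw [if_neg ha, if_neg ha]
        ring
    · rw [if_neg hb, if_neg hb]
      ring
  rw [Finset.sum_congr rfl fun b _ => e1 b, Finset.sum_ite_eq,
    if_pos (Finset.mem_range.mpr (Nat.mod_lt _ hM))]

/-- rational rotations are periodic -/
theorem cos_per (α : ℚ) (θ : ℝ) (n : ℕ) :
    Real.cos (2 * Real.pi * (α * ((n % α.den : ℕ) : ℝ) + θ)) =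
      Real.cos (2 * Real.pi * (α * n + θ)) := by
  obtain ⟨b, hb⟩ : ∃ b : ℕ, b = n / α.den := ⟨_, rfl⟩
  obtain ⟨c, hc⟩ : ∃ c : ℕ, c = n % α.den := ⟨_, rfl⟩
  have h3 : (n : ℝ) = α.den * b + c := by
    have := Nat.div_add_mod n α.den
    rw [← hb, ← hc] at this
    exact_mod_cast this.symm
  have h4 : (α : ℝ) * α.den = α.num := by
    exact_mod_cast Rat.mul_den_eq_num α
  rw [← hc]
  have h5 : 2 * Real.pi * (α * n + θ) = 2 * Real.pi * (α * c + θ) +
      ((α.num * (b : ℤ) : ℤ) : ℝ) * (2 * Real.pi) := by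
    rw [h3]
    push_cast
    have : (α : ℝ) * (α.den * b + c) = (α * α.den) * b + α * c := by ring
    rw [this, h4]
    ring
  rw [h5, Real.cos_add_int_mul_two_pi]

end Pool.Agent.Lib.MP_3e612f_nt.SA
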