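import Pool.Agent.Lib.MP_3e612f_nt.SDefs
import Pool.Agent.Lib.MP_3e612f_nt.QWin

/-!
Windows for monoid-valued functions: the joint law of the two sides is nearly invariant under
left multiplication by central elements which come from a pair of words.
-/

set_option autoImplicit false

namespace Pool.Agent.Lib.MP_3e612f_nt.SA

open Filter Topology QA

section ops

variable {G : Type*} [Monoid G]

/-- the difference -/
noncomputable def t1_D (t t' : G) (F : G → G → ℝ) (x x' : G) : ℝ := F x x' - F (t * x) (t' * x')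

/-- the average -/
noncomputable def t1_B (t t' : G) (F : G → G → ℝ) (x x' : G) : ℝ :=
  (F x x' + F (t * x) (t' * x')) / 2

/-- the translation from the right -/
def t1_T (u u' : G) (F : G → G → ℝ) (x x' : G) : ℝ := F (x * u) (x' * u')

theorem t1_T_D (t t' u u' : G) (F : G → G → ℝ) :
    t1_T u u' (t1_D t t' F) = t1_D t t' (t1_T u u' F) := by
  funext x x'
  unfold t1_T t1_D
  beta_reduce
  rw [mul_assoc t x u, mul_assoc t' x' u']

theorem t1_T_B (t t' u u' : G) (F : G → G → ℝ) :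
    t1_T u u' (t1_B t t' F) = t1_B t t' (t1_T u u' F) := by
  funext x x'
  unfold t1_T t1_B
  beta_reduce
  rw [mul_assoc t x u, mul_assoc t' x' u']

theorem t1_T_Biter (t t' u u' : G) (j : ℕ) (F : G → G → ℝ) :
    t1_T u u' ((t1_B t t')^[j] F) = (t1_B t t')^[j] (t1_T u u' F) := by
  induction j with
  | zero => rfl
  | succ j ih => rw [Function.iterate_succ_apply', t1_T_B, ih, Function.iterate_succ_apply']

theorem t1_iter (t t' : G) (j : ℕ) (F : G → G → ℝ) (x x' : G) :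
    (t1_B t t')^[j] F x x' = DS.bin j (fun i => F (t ^ i * x) (t' ^ i * x')) := by
  induction j generalizing x x' with
  | zero => simp [DS.bin_zero]
  | succ j ih =>
    have e0 : ∀ K : G → G → ℝ, t1_B t t' K x x' = (K x x' + K (t * x) (t' * x')) / 2 :=
      fun _ => rfl
    rw [Function.iterate_succ_apply', DS.bin_succ, e0, ih, ih]
    have e : (fun i : ℕ => F (t ^ i * (t * x)) (t' ^ i * (t' * x'))) =
        fun i : ℕ => F (t ^ (i + 1) * x) (t' ^ (i + 1) * x') := by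
      funext i
      rw [← mul_assoc, ← mul_assoc, ← pow_succ, ← pow_succ]
    rw [e]

theorem t1_base {t t' : G} {F : G → G → ℝ} (hF : ∀ x x', |F x x'| ≤ 1) (j : ℕ) (x x' : G) :
    |(t1_B t t')^[j] (t1_D t t' F) x x'| ≤ 2 / Real.sqrt (j + 1) := by
  rw [t1_iter]
  have e : (fun i : ℕ => t1_D t t' F (t ^ i * x) (t' ^ i * x')) = fun i =>
      (fun i : ℕ => F (t ^ i * x) (t' ^ i * x')) i -
        (fun i : ℕ => F (t ^ i * x) (t' ^ i * x')) (i + 1) := by
    funext i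
    unfold t1_D
    rw [← mul_assoc t, ← mul_assoc t', ← pow_succ', ← pow_succ']
  rw [e, DS.bin_sub j (fun i : ℕ => F (t ^ i * x) (t' ^ i * x'))
    (fun i => (fun i : ℕ => F (t ^ i * x) (t' ^ i * x')) (i + 1))]
  exact DS.bin_shift (G := fun i : ℕ => F (t ^ i * x) (t' ^ i * x')) (fun i => hF _ _) j

end ops

section main

variable {G : Type*} [Monoid G] {q m : ℕ} {γ : ℕ → G}

/-- the output of a word which is short enough -/
theorem t1_word (hq : 2 ≤ q)
    (hγ : ∀ a y s : ℕ, s < q ^ a → γ (q ^ (a + m) * y + s) = γ y * γ s) {P b W h c z x M : ℕ}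
    (hb : m ≤ b) (hPb : P + 1 ≤ q ^ (b - m)) (hW : m ≤ W)
    (hPW : P * (q ^ b * x) + P + 1 ≤ q ^ (W - m)) (hc : c ≤ P) (hz : z < q ^ h) :
    γ (q ^ (h + W) * (M + (P * (q ^ b * x) + c) / q ^ W) +
      (q ^ h * ((P * (q ^ b * x) + c) % q ^ W) + z)) = γ M * (γ (P * x) * γ (q ^ h * c + z)) := by
  have hWm : q ^ (W - m) ≤ q ^ W := Nat.pow_le_pow_right (by omega) (Nat.sub_le _ _)
  have hlt : P * (q ^ b * x) + c < q ^ W := by omega
  rw [Nat.div_eq_of_lt hlt, Nat.mod_eq_of_lt hlt, add_zero]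
  have hs : ∀ {r B : ℕ}, r + 1 ≤ q ^ B → q ^ h * r + z < q ^ (h + B) := by
    intro r B hr
    calc q ^ h * r + z < q ^ h * r + q ^ h := by omega
      _ = q ^ h * (r + 1) := by ring
      _ ≤ q ^ h * q ^ B := Nat.mul_le_mul_left _ hr
      _ = q ^ (h + B) := by rw [pow_add]
  have h1 := hγ (h + (W - m)) M (q ^ h * (P * (q ^ b * x) + c) + z) (hs (by omega))
  have e1 : h + (W - m) + m = h + W := by omega
  rw [e1] at h1
  rw [h1]
  congr 1
  have h2 := hγ (h + (b - m)) (P * x) (q ^ h * c + z) (hs (by omega))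
  have e2 : h + (b - m) + m = h + b := by omega
  rw [e2] at h2
  rw [← h2]
  congr 1
  rw [pow_add]
  ring

theorem t1_windows (hq : 2 ≤ q)
    (hγ : ∀ a y s : ℕ, s < q ^ a → γ (q ^ (a + m) * y + s) = γ y * γ s) {P R b W v₀ v₁ : ℕ}
    {t t' : G} (ht : ∀ x, t * x = x * t) (ht' : ∀ x, t' * x = x * t')
    (hne : v₀ ≠ v₁) (h₁ : γ (P * v₁) = t * γ (P * v₀)) (h₂ : γ (R * v₁) = t' * γ (R * v₀))
    (hP : 1 ≤ P) (hb : m ≤ b) (hPb : P + 1 ≤ q ^ (b - m)) (hRb : R + 1 ≤ q ^ (b - m))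
    (hW : m ≤ W) (hPW0 : P * (q ^ b * v₀) + P + 1 ≤ q ^ (W - m))
    (hPW1 : P * (q ^ b * v₁) + P + 1 ≤ q ^ (W - m))
    (hRW0 : R * (q ^ b * v₀) + R + 1 ≤ q ^ (W - m))
    (hRW1 : R * (q ^ b * v₁) + R + 1 ≤ q ^ (W - m)) (N : ℕ) :
    ∀ (F : G → G → ℝ) (_ : ∀ x x', |F x x'| ≤ 1) (j h y c d z z' : ℕ), c ≤ P → d ≤ R → z < q ^ h →
      z' < q ^ h →
      |Phi q P R γ h (N * W) y c d z z' ((t1_B t t')^[j] (t1_D t t' F))| ≤
        2 * Real.sqrt (1 / (j + 1 + 2 / q ^ W * N / 2)) := by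
  have hWm : q ^ (W - m) ≤ q ^ W := Nat.pow_le_pow_right (by omega) (Nat.sub_le _ _)
  have hqx0 : q ^ b * v₀ < q ^ W := by
    have : q ^ b * v₀ ≤ P * (q ^ b * v₀) := Nat.le_mul_of_pos_left _ hP
    omega
  have hqx1 : q ^ b * v₁ < q ^ W := by
    have : q ^ b * v₁ ≤ P * (q ^ b * v₁) := Nat.le_mul_of_pos_left _ hP
    omega
  have hne' : q ^ b * v₀ ≠ q ^ b * v₁ := by
    intro h
    exact hne (Nat.eq_of_mul_eq_mul_left (qpow_pos hq b) h)
  have hW1 : 2 ≤ q ^ W := by omega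
  have hWr : (2 : ℝ) ≤ (q : ℝ) ^ W := by exact_mod_cast hW1
  have h0W : 0 < q ^ W := by omega
  induction N with
  | zero =>
    intro F hF j h y c d z z' _ _ _ _
    simp only [zero_mul, Nat.cast_zero, mul_zero, zero_div, add_zero]
    unfold Phi
    refine (abs_av_le hq fun n _ => t1_base hF j _ _).trans (le_of_eq ?_)
    rw [Real.sqrt_div zero_le_one, Real.sqrt_one]
    ring
  | succ N ih =>
    intro F hF j h y c d z z' hc hd hz hz'
    rw [Nat.succ_mul, add_comm (N * W) W, q1_split]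
    set g := (t1_B t t')^[j] (t1_D t t' F) with hg
    set D0 : ℝ := 1 / (j + 1 + 2 / q ^ W * N / 2) with hD0
    set D1 : ℝ := 1 / ((j + 1 : ℕ) + 1 + 2 / q ^ W * N / 2) with hD1
    have hD0n : 0 ≤ D0 := by positivity
    have hD1n : 0 ≤ D1 := by positivity
    set u : ℕ → ℝ := fun w => Phi q P R γ (h + W) (N * W) y ((P * w + c) / q ^ W)
      ((R * w + d) / q ^ W) (q ^ h * ((P * w + c) % q ^ W) + z)
      (q ^ h * ((R * w + d) % q ^ W) + z') g with hu
    -- the two special words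
    have hpair : |u (q ^ b * v₀) + u (q ^ b * v₁)| ≤ 2 * (2 * Real.sqrt D1) := by
      set U : G := γ (P * v₀) * γ (q ^ h * c + z) with hU
      set U' : G := γ (R * v₀) * γ (q ^ h * d + z') with hU'
      set F1 : G → G → ℝ := t1_T U U' F with hF1
      have hF1b : ∀ x x', |F1 x x'| ≤ 1 := fun x x' => hF _ _
      have e5 : u (q ^ b * v₀) + u (q ^ b * v₁) = 2 * Phi q P R γ 0 (N * W) y 0 0 0 0
          ((t1_B t t')^[j + 1] (t1_D t t' F1)) := by
        rw [hu]
        dsimp only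
        unfold Phi
        rw [← av_add, ← av_const_mul]
        refine av_congr fun n _ => ?_
        rw [t1_word (x := v₀) (M := P * (q ^ (N * W) * y + n)) hq hγ hb hPb hW hPW0 hc hz,
          t1_word (x := v₀) (M := R * (q ^ (N * W) * y + n)) hq hγ hb hRb hW hRW0 hd hz',
          t1_word (x := v₁) (M := P * (q ^ (N * W) * y + n)) hq hγ hb hPb hW hPW1 hc hz,
          t1_word (x := v₁) (M := R * (q ^ (N * W) * y + n)) hq hγ hb hRb hW hRW1 hd hz',
          h₁, h₂, mul_assoc t, mul_assoc t', ← hU, ← hU', ← mul_assoc _ t U, ← ht,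
          ← mul_assoc _ t' U', ← ht', mul_assoc t, mul_assoc t']
        simp only [pow_zero, one_mul, add_zero]
        rw [Function.iterate_succ_apply']
        have hgT : (t1_B t t')^[j] (t1_D t t' F1) = t1_T U U' g := by
          rw [hg, t1_T_Biter, t1_T_D]
        rw [hgT]
        unfold t1_B t1_T
        rw [mul_assoc t, mul_assoc t']
        ring
      rw [e5, abs_mul, abs_of_pos (by norm_num : (0 : ℝ) < 2)]
      exact mul_le_mul_of_nonneg_left (ih F1 hF1b (j + 1) 0 y 0 0 0 0 (Nat.zero_le _)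
        (Nat.zero_le _) (by simp) (by simp)) (by norm_num)
    have hother : ∀ w < q ^ W, |u w| ≤ 2 * Real.sqrt D0 := fun w hw =>
      ih F hF j _ _ _ _ _ _ (q1_carry hq hc hw) (q1_carry hq hd hw) (q1_low hq hz) (q1_low hq hz')
    have hsum : |∑ w ∈ Finset.range (q ^ W), u w| ≤
        2 * (2 * Real.sqrt D1) + ((q : ℝ) ^ W - 2) * (2 * Real.sqrt D0) := by
      have hm1 : q ^ b * v₀ ∈ Finset.range (q ^ W) := Finset.mem_range.mpr hqx0
      have hm2 : q ^ b * v₁ ∈ (Finset.range (q ^ W)).erase (q ^ b * v₀) :=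
        Finset.mem_erase.mpr ⟨hne'.symm, Finset.mem_range.mpr hqx1⟩
      rw [← Finset.add_sum_erase _ _ hm1, ← Finset.add_sum_erase _ _ hm2, ← add_assoc]
      refine (abs_add_le _ _).trans (add_le_add hpair ?_)
      refine (Finset.abs_sum_le_sum_abs _ _).trans ?_
      calc ∑ w ∈ ((Finset.range (q ^ W)).erase (q ^ b * v₀)).erase (q ^ b * v₁), |u w|
          ≤ ∑ w ∈ ((Finset.range (q ^ W)).erase (q ^ b * v₀)).erase (q ^ b * v₁),
              2 * Real.sqrt D0 := by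
            refine Finset.sum_le_sum fun w hw => hother w ?_
            exact Finset.mem_range.mp (Finset.mem_of_mem_erase (Finset.mem_of_mem_erase hw))
        _ = ((q : ℝ) ^ W - 2) * (2 * Real.sqrt D0) := by
            rw [Finset.sum_const, Finset.card_erase_of_mem hm2, Finset.card_erase_of_mem hm1,
              Finset.card_range, nsmul_eq_mul]
            congr 1
            have : q ^ W - 1 - 1 = q ^ W - 2 := by omega
            rw [this, Nat.cast_sub hW1]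
            push_cast
            ring
    have hpos : (0 : ℝ) < (q : ℝ) ^ W := by linarith
    have hav : |av q W u| ≤ 2 / (q : ℝ) ^ W * (2 * Real.sqrt D1) +
        (1 - 2 / (q : ℝ) ^ W) * (2 * Real.sqrt D0) := by
      unfold av
      rw [abs_div, abs_of_pos hpos, div_le_iff₀ hpos]
      refine hsum.trans (le_of_eq ?_)
      field_simp
    refine hav.trans ?_
    have hκ0 : (0 : ℝ) ≤ 2 / (q : ℝ) ^ W := by positivity
    have hκ1 : (2 : ℝ) / (q : ℝ) ^ W ≤ 1 := by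
      rw [div_le_one hpos]
      exact hWr
    have h3 := DS.A_concave hκ0 hκ1 hD1n hD0n
    have h4 : 2 / (q : ℝ) ^ W * D1 + (1 - 2 / (q : ℝ) ^ W) * D0 ≤
        1 / (j + 1 + 2 / (q : ℝ) ^ W * (N + 1 : ℕ) / 2) := by
      have h5 := DS.A_rat (κ := 2 / (q : ℝ) ^ W) (z := j + 1 + 2 / (q : ℝ) ^ W * N / 2) hκ0 (by
        have : (0 : ℝ) ≤ 2 / (q : ℝ) ^ W * N / 2 := by positivity
        have : (0 : ℝ) ≤ (j : ℝ) := Nat.cast_nonneg j
        linarith)
      refine le_trans (le_of_eq ?_) (h5.trans (le_of_eq ?_))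
      · rw [hD0, hD1]
        push_cast
        congr 3
        ring
      · push_cast
        congr 1
        ring
    calc 2 / (q : ℝ) ^ W * (2 * Real.sqrt D1) + (1 - 2 / (q : ℝ) ^ W) * (2 * Real.sqrt D0)
        = 2 * (2 / (q : ℝ) ^ W * Real.sqrt D1 + (1 - 2 / (q : ℝ) ^ W) * Real.sqrt D0) := by ring
      _ ≤ 2 * Real.sqrt (2 / (q : ℝ) ^ W * D1 + (1 - 2 / (q : ℝ) ^ W) * D0) :=
          mul_le_mul_of_nonneg_left h3 (by norm_num)
      _ ≤ _ := mul_le_mul_of_nonneg_left (Real.sqrt_le_sqrt h4) (by norm_num)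

theorem t1_Phi_sub (q P R : ℕ) (γ : ℕ → G) (h k y c d z z' : ℕ) (t t' : G) (F : G → G → ℝ) :
    Phi q P R γ h k y c d z z' F - Phi q P R γ h k y c d z z' (fun x x' => F (t * x) (t' * x')) =
      Phi q P R γ h k y c d z z' (t1_D t t' F) := by
  unfold Phi
  rw [← av_sub]
  rfl

end main

theorem goodm {G : Type*} [Monoid G] {q m : ℕ} (hq : 2 ≤ q) {γ : ℕ → G}
    (hγ : ∀ a y s : ℕ, s < q ^ a → γ (q ^ (a + m) * y + s) = γ y * γ s) {P R : ℕ} (hP : 1 ≤ P)
    (hR : 1 ≤ R) {t t' : G} (ht : ∀ x, t * x = x * t) (ht' : ∀ x, t' * x = x * t') {v₀ v₁ : ℕ}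
    (hne : v₀ ≠ v₁) (h₁ : γ (P * v₁) = t * γ (P * v₀)) (h₂ : γ (R * v₁) = t' * γ (R * v₀)) :
    ∃ C : ℝ, 0 ≤ C ∧ ∀ h k y c d z z' : ℕ, c ≤ P → d ≤ R → z < q ^ h → z' < q ^ h →
      ∀ F : G → G → ℝ, (∀ x x', |F x x'| ≤ 1) →
        |Phi q P R γ h k y c d z z' F -
          Phi q P R γ h k y c d z z' (fun x x' => F (t * x) (t' * x'))| ≤
          C / Real.sqrt (k + 1) := by
  obtain ⟨b0, hb0⟩ : ∃ b0, P + R + 1 ≤ q ^ b0 :=
    ⟨P + R + 1, (Nat.lt_pow_self (by omega)).le⟩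
  set b := b0 + m with hb
  have ebm : b - m = b0 := by omega
  obtain ⟨W0, hW0⟩ : ∃ W0, (P + R) * (q ^ b * (v₀ + v₁)) + (P + R) + 1 ≤ q ^ W0 :=
    ⟨(P + R) * (q ^ b * (v₀ + v₁)) + (P + R) + 1, (Nat.lt_pow_self (by omega)).le⟩
  set W := W0 + m with hW
  have eWm : W - m = W0 := by omega
  have hexp : (P + R) * (q ^ b * (v₀ + v₁)) = P * (q ^ b * v₀) + P * (q ^ b * v₁) +
      (R * (q ^ b * v₀) + R * (q ^ b * v₁)) := by ring
  rw [hexp] at hW0
  have hPW0 : P * (q ^ b * v₀) + P + 1 ≤ q ^ (W - m) := by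
    rw [eWm]
    omega
  have hPW1 : P * (q ^ b * v₁) + P + 1 ≤ q ^ (W - m) := by
    rw [eWm]
    omega
  have hRW0 : R * (q ^ b * v₀) + R + 1 ≤ q ^ (W - m) := by
    rw [eWm]
    omega
  have hRW1 : R * (q ^ b * v₁) + R + 1 ≤ q ^ (W - m) := by
    rw [eWm]
    omega
  have hWpos : 0 < W := by
    rcases Nat.eq_zero_or_pos W with h0 | h0
    · rw [h0] at hPW0
      simp only [zero_tsub, pow_zero] at hPW0
      omega
    · exact h0
  have hWr : (0 : ℝ) < W := by exact_mod_cast hWpos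
  have hqW := qpow_posR hq W
  refine ⟨2 * Real.sqrt ((q : ℝ) ^ W * W), by positivity, ?_⟩
  intro h k y c d z z' hc hd hz hz' F hF
  rw [t1_Phi_sub]
  have hk : k % W + k / W * W = k := Nat.mod_add_div' k W
  set N := k / W with hN
  have h1 : |Phi q P R γ h k y c d z z' (t1_D t t' F)| ≤
      2 * Real.sqrt (1 / ((0 : ℕ) + 1 + 2 / (q : ℝ) ^ W * N / 2)) := by
    rw [← hk, q1_split]
    refine abs_av_le hq fun w hw => ?_
    exact t1_windows hq hγ ht ht' hne h₁ h₂ hP (by omega) (by rw [ebm]; omega)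
      (by rw [ebm]; omega) (by omega) hPW0 hPW1 hRW0 hRW1 N F hF 0 _ _ _ _ _ _
      (q1_carry hq hc hw) (q1_carry hq hd hw) (q1_low hq hz) (q1_low hq hz')
  refine h1.trans ?_
  have e0 : 2 * Real.sqrt ((q : ℝ) ^ W * W) / Real.sqrt (k + 1) =
      2 * Real.sqrt ((q : ℝ) ^ W * W / (k + 1)) := by
    rw [Real.sqrt_div (by positivity), mul_div_assoc]
  rw [e0]
  refine mul_le_mul_of_nonneg_left (Real.sqrt_le_sqrt ?_) (by norm_num)
  have hlt : k < W * (N + 1) := Nat.lt_mul_div_succ k hWpos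
  have hk1 : (k : ℝ) + 1 ≤ W * (N + 1) := by exact_mod_cast hlt
  have h1W : (1 : ℝ) ≤ (q : ℝ) ^ W := by
    exact_mod_cast Nat.one_le_pow _ _ (by omega : 0 < q)
  rw [div_le_div_iff₀ (by positivity) (by positivity)]
  push_cast
  have e' : (q : ℝ) ^ W * W * (0 + 1 + 2 / (q : ℝ) ^ W * N / 2) = W * ((q : ℝ) ^ W + N) := by
    field_simp
    ring
  rw [e', one_mul]
  have h0N : (0 : ℝ) ≤ N := Nat.cast_nonneg N
  nlinarith

end Pool.Agent.Lib.MP_3e612f_nt.SA
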