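import Pool.Agent.Lib.MP_3e612f_nt.Common

/-!
Embedding of 0-1 sequences with few aligned blocks in smooth maps of the square of zero entropy.
-/

set_option autoImplicit false

namespace Pool.Agent.Lib.MP_3e612f_nt

open Filter Topology Set Dynamics
open scoped ContDiff

/-- the digit of a symbol -/
def dig (s : Bool) : ℝ := if s then 2 else 1

/-- the point coded by the sequence from the index `t` on -/
noncomputable def sqx (b : ℤ → Bool) (t : ℤ) : ℝ := ∑' i : ℕ, dig (b (t + i)) * (1 / 4) ^ (i + 1)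

theorem dig_mem (s : Bool) : 1 ≤ dig s ∧ dig s ≤ 2 := by
  unfold dig; split_ifs <;> norm_num

theorem sqx_summable (b : ℤ → Bool) (t : ℤ) :
    Summable fun i : ℕ => dig (b (t + i)) * (1 / 4 : ℝ) ^ (i + 1) := by
  have h1 : Summable fun i : ℕ => 2 * (1 / 4 : ℝ) ^ (i + 1) := by
    apply Summable.mul_left
    simp_rw [pow_succ]
    exact (summable_geometric_of_lt_one (by norm_num) (by norm_num)).mul_right _
  refine Summable.of_nonneg_of_le (fun i => ?_) (fun i => ?_) h1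
  · have := (dig_mem (b (t + i))).1
    positivity
  · exact mul_le_mul_of_nonneg_right (dig_mem _).2 (by positivity)

theorem sqx_rec (b : ℤ → Bool) (t : ℤ) : 4 * sqx b t = dig (b t) + sqx b (t + 1) := by
  unfold sqx
  rw [(sqx_summable b t).tsum_eq_zero_add]
  have h1 : (fun i : ℕ => dig (b (t + ((i + 1 : ℕ) : ℤ))) * (1 / 4 : ℝ) ^ (i + 1 + 1)) =
      fun i : ℕ => (1 / 4) * (dig (b (t + 1 + i)) * (1 / 4) ^ (i + 1)) := by
    funext i
    have e : t + ((i + 1 : ℕ) : ℤ) = t + 1 + i := by push_cast; ring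
    rw [e]
    ring
  rw [h1, tsum_mul_left]
  simp
  ring

theorem sqx_geom : ∑' i : ℕ, (1 / 4 : ℝ) ^ (i + 1) = 1 / 3 := by
  simp_rw [pow_succ]
  rw [tsum_mul_right, tsum_geometric_of_lt_one (by norm_num) (by norm_num)]
  norm_num

theorem sqx_summable_geom : Summable fun i : ℕ => (1 / 4 : ℝ) ^ (i + 1) := by
  simp_rw [pow_succ]
  exact (summable_geometric_of_lt_one (by norm_num) (by norm_num)).mul_right _

theorem sqx_mem (b : ℤ → Bool) (t : ℤ) : 1 / 3 ≤ sqx b t ∧ sqx b t ≤ 2 / 3 := by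
  constructor
  · calc (1 / 3 : ℝ) = ∑' i : ℕ, (1 / 4 : ℝ) ^ (i + 1) := sqx_geom.symm
      _ ≤ sqx b t := by
        refine Summable.tsum_le_tsum (fun i => ?_) sqx_summable_geom (sqx_summable b t)
        have := (dig_mem (b (t + i))).1
        nlinarith [pow_pos (show (0 : ℝ) < 1 / 4 by norm_num) (i + 1)]
  · calc sqx b t ≤ ∑' i : ℕ, 2 * (1 / 4 : ℝ) ^ (i + 1) := by
          refine Summable.tsum_le_tsum (fun i => ?_) (sqx_summable b t)
            (sqx_summable_geom.mul_left 2)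
          have := (dig_mem (b (t + i))).2
          nlinarith [pow_pos (show (0 : ℝ) < 1 / 4 by norm_num) (i + 1)]
      _ = 2 / 3 := by rw [tsum_mul_left, sqx_geom]; norm_num

theorem sqx_close (b : ℤ → Bool) (r : ℕ) : ∀ t t' : ℤ,
    (∀ i : ℕ, i < r → b (t + i) = b (t' + i)) → |sqx b t - sqx b t'| ≤ (1 / 4) ^ r := by
  induction r with
  | zero =>
    intro t t' _
    have h1 := sqx_mem b t
    have h2 := sqx_mem b t'
    rw [pow_zero, abs_le]
    constructor <;> linarith [h1.1, h1.2, h2.1, h2.2]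
  | succ r ih =>
    intro t t' h
    have h1 := ih (t + 1) (t' + 1) fun i hi => by
      have := h (i + 1) (by omega)
      push_cast at this
      rw [add_assoc, add_comm (1 : ℤ), add_assoc, add_comm (1 : ℤ)]
      exact this
    have h2 := h 0 (Nat.succ_pos r)
    simp only [Nat.cast_zero, add_zero] at h2
    have h3 := sqx_rec b t
    have h4 := sqx_rec b t'
    rw [h2] at h3
    have h5 : sqx b t - sqx b t' = (1 / 4) * (sqx b (t + 1) - sqx b (t' + 1)) := by linarith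
    rw [h5, abs_mul, pow_succ', abs_of_pos (by norm_num : (0 : ℝ) < 1 / 4)]
    exact mul_le_mul_of_nonneg_left h1 (by norm_num)

/-- bump function at the digit 1 -/
noncomputable def sqb0 : ContDiffBump (3 / 8 : ℝ) := ⟨1 / 24, 1 / 12, by norm_num, by norm_num⟩

/-- bump function at the digit 2 -/
noncomputable def sqb1 : ContDiffBump (5 / 8 : ℝ) := ⟨1 / 24, 1 / 12, by norm_num, by norm_num⟩

/-- the expanding map, centred at `1/2` -/
noncomputable def sqg (x : ℝ) : ℝ := 4 * (x - 3 / 8) * sqb0 x + 4 * (x - 5 / 8) * sqb1 x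

theorem sqg_contDiff : ContDiff ℝ ∞ sqg := by
  unfold sqg
  have h0 : ContDiff ℝ ∞ sqb0 := sqb0.contDiff
  have h1 : ContDiff ℝ ∞ sqb1 := sqb1.contDiff
  fun_prop

theorem sqg_term {c : ℝ} (f : ContDiffBump c) (hf : f.rOut = 1 / 12) (x : ℝ) :
    |4 * (x - c) * f x| ≤ 1 / 3 := by
  by_cases h : f.rOut ≤ dist x c
  · rw [f.zero_of_le_dist h]
    norm_num
  · rw [not_le, hf, Real.dist_eq] at h
    rw [abs_mul, abs_mul, abs_of_nonneg (f.nonneg' x), abs_of_pos (by norm_num : (0 : ℝ) < 4)]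
    have h1 := f.nonneg' x
    have h2 : f x ≤ 1 := f.le_one
    have h3 := abs_nonneg (x - c)
    nlinarith

theorem sqg_abs (x : ℝ) : |sqg x| ≤ 1 / 3 := by
  unfold sqg
  by_cases h : x < 1 / 2
  · have h1 : sqb1 x = 0 := by
      apply sqb1.zero_of_le_dist
      rw [Real.dist_eq, le_abs]
      right
      show (1 / 12 : ℝ) ≤ _
      linarith
    rw [h1, mul_zero, add_zero]
    exact sqg_term sqb0 rfl x
  · have h1 : sqb0 x = 0 := by
      apply sqb0.zero_of_le_dist
      rw [Real.dist_eq, le_abs]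
      left
      show (1 / 12 : ℝ) ≤ _
      linarith
    rw [h1, mul_zero, zero_add]
    exact sqg_term sqb1 rfl x

theorem sqg_sqx (b : ℤ → Bool) (t : ℤ) : 1 / 2 + sqg (sqx b t) = sqx b (t + 1) := by
  have h1 := sqx_rec b t
  have h2 := sqx_mem b (t + 1)
  unfold sqg
  unfold dig at h1
  split_ifs at h1 with hb
  · have e0 : sqb0 (sqx b t) = 0 := by
      apply sqb0.zero_of_le_dist
      rw [Real.dist_eq, le_abs]
      left
      show (1 / 12 : ℝ) ≤ _
      linarith [h2.1]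
    have e1 : sqb1 (sqx b t) = 1 := by
      apply sqb1.one_of_mem_closedBall
      rw [Metric.mem_closedBall, Real.dist_eq, abs_le]
      show -(1 / 24 : ℝ) ≤ _ ∧ _ ≤ (1 / 24 : ℝ)
      constructor <;> linarith [h2.1, h2.2]
    rw [e0, e1]
    linarith
  · have e1 : sqb1 (sqx b t) = 0 := by
      apply sqb1.zero_of_le_dist
      rw [Real.dist_eq, le_abs]
      right
      show (1 / 12 : ℝ) ≤ _
      linarith [h2.2]
    have e0 : sqb0 (sqx b t) = 1 := by
      apply sqb0.one_of_mem_closedBall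
      rw [Metric.mem_closedBall, Real.dist_eq, abs_le]
      show -(1 / 24 : ℝ) ≤ _ ∧ _ ≤ (1 / 24 : ℝ)
      constructor <;> linarith [h2.1, h2.2]
    rw [e0, e1]
    linarith

/-- every 0-1 sequence with few aligned blocks is coded by an orbit of a smooth self-map of the
square of zero entropy -/
theorem exists_square_map (b : ℕ → Bool) (hb : LowC b) :
    ∃ (T : ℝ × ℝ → ℝ × ℝ) (z : ℝ × ℝ), ContDiff ℝ ∞ T ∧
      MapsTo T (Icc 0 1 ×ˢ Icc 0 1) (Icc 0 1 ×ˢ Icc 0 1) ∧
      coverEntropy T (Icc 0 1 ×ˢ Icc 0 1) = 0 ∧ z ∈ Icc (0 : ℝ) 1 ×ˢ Icc (0 : ℝ) 1 ∧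
      T z ∈ Icc (0 : ℝ) 1 ×ˢ Icc (0 : ℝ) 1 ∧
      ∀ n, 4 * (T^[n] z).1 - (T^[n] (T z)).1 = dig (b n) := by
  classical
  set bz : ℤ → Bool := extZ false b with hbz
  have hbz' : LowCZ bz := hb.extZ false
  set A : Set ℤ := {t | 0 ≤ t} with hA
  set pt : ℤ → ℝ × ℝ := fun t => (sqx bz t, 0) with hpt
  set K : Set (ℝ × ℝ) := closure (pt '' A) with hK
  obtain ⟨ρ, hρs, hρ, hρr⟩ := IsOpen.exists_contDiff_support_eq (n := ⊤)
    (show IsOpen Kᶜ from isClosed_closure.isOpen_compl)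
  have hρ01 : ∀ z, 0 ≤ ρ z ∧ ρ z ≤ 1 := fun z => hρr (mem_range_self z)
  have hρ0 : ∀ z, ρ z = 0 ↔ z ∈ K := by
    intro z
    have : z ∈ Function.support ρ ↔ z ∈ Kᶜ := by rw [hρs]
    rw [Function.mem_support, mem_compl_iff] at this
    tauto
  set T : ℝ × ℝ → ℝ × ℝ :=
    fun z => (1 / 2 + sqg z.1 * (1 - z.2), z.2 + (1 - z.2) * ρ z / 2) with hT
  have hTs : ContDiff ℝ ∞ T := by
    have h1 := sqg_contDiff
    have h2 : ContDiff ℝ ∞ ρ := hρ
    rw [hT]
    fun_prop
  set F : Set (ℝ × ℝ) := Icc 0 1 ×ˢ Icc 0 1 with hF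
  have hFc : IsCompact F := isCompact_Icc.prod isCompact_Icc
  have hmaps : MapsTo T F F := by
    rintro ⟨x, y⟩ ⟨hx, hy⟩
    have h1 := abs_le.mp (sqg_abs x)
    have h2 := hρ01 (x, y)
    simp only [mem_Icc] at hx hy
    refine ⟨⟨?_, ?_⟩, ⟨?_, ?_⟩⟩
    · show 0 ≤ 1 / 2 + sqg x * (1 - y)
      nlinarith [h1.1, h1.2, hy.1, hy.2]
    · show 1 / 2 + sqg x * (1 - y) ≤ 1
      nlinarith [h1.1, h1.2, hy.1, hy.2]
    · show 0 ≤ y + (1 - y) * ρ (x, y) / 2
      nlinarith [h2.1, h2.2, hy.1, hy.2, mul_nonneg (sub_nonneg.mpr hy.2) h2.1]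
    · show y + (1 - y) * ρ (x, y) / 2 ≤ 1
      nlinarith [h2.1, h2.2, hy.1, hy.2, mul_nonneg (sub_nonneg.mpr hy.2) (sub_nonneg.mpr h2.2)]
  have hptK : ∀ t ∈ A, pt t ∈ K := fun t ht => subset_closure (mem_image_of_mem _ ht)
  have hTpt : ∀ t ∈ A, T (pt t) = pt (t + 1) := by
    intro t ht
    have h1 := (hρ0 _).mpr (hptK t ht)
    have h2 := sqg_sqx bz t
    rw [hT, hpt]
    dsimp only
    rw [show ρ (sqx bz t, 0) = 0 from h1]
    simp only [sub_zero, mul_one, one_mul, zero_add, zero_div]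
    rw [h2]
  have hA1 : ∀ t ∈ A, t + 1 ∈ A := by
    intro t ht
    have : (0 : ℤ) ≤ t := ht
    show (0 : ℤ) ≤ t + 1
    omega
  have hKcov : ZeroCov T K := by
    refine zeroCov_of_coding hTs.continuous hbz' A hA1 pt hTpt ?_
    intro ε hε
    obtain ⟨r, hr⟩ := exists_pow_lt_of_lt_one hε (by norm_num : (1 / 4 : ℝ) < 1)
    refine ⟨r, fun t _ t' _ h => ?_⟩
    have h1 := sqx_close bz r t t' fun i hi => h i (by omega) (by omega)
    rw [hpt]
    dsimp only
    rw [Prod.dist_eq, dist_self, Real.dist_eq]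
    exact max_lt (h1.trans_lt hr) hε
  have hKmaps : MapsTo T K K := by
    refine MapsTo.closure ?_ hTs.continuous
    rintro _ ⟨t, ht, rfl⟩
    rw [hTpt t ht]
    exact mem_image_of_mem _ (hA1 t ht)
  set Top : Set (ℝ × ℝ) := {z | z ∈ F ∧ z.2 = 1} with hTop
  have hTopT : ∀ z ∈ Top, T z = (1 / 2, 1) := by
    rintro ⟨x, y⟩ ⟨_, hy⟩
    have hy' : y = 1 := hy
    subst hy'
    simp [hT]
  have hTopmaps : MapsTo T Top Top := by
    intro z hz
    rw [hTopT z hz]
    refine ⟨⟨?_, ?_⟩, rfl⟩ <;> norm_num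
  have hTopcov : ZeroCov T Top := by
    refine zeroCov_of_nonexpanding hFc (fun z hz => hz.1) ?_
    intro x hx y hy k
    rcases k with _ | k
    · exact le_rfl
    · rw [Function.iterate_succ_apply, Function.iterate_succ_apply, hTopT x hx, hTopT y hy,
        dist_self]
      exact dist_nonneg
  have hFcov : ZeroCov T F := by
    refine zeroCov_of_lyapunov hFc hTs.continuous hmaps (fun z => z.2) continuous_snd ?_ ?_
    · rintro ⟨x, y⟩ ⟨hx, hy⟩
      have h2 := hρ01 (x, y)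
      show y ≤ y + (1 - y) * ρ (x, y) / 2
      simp only [mem_Icc] at hy
      nlinarith [mul_nonneg (sub_nonneg.mpr hy.2) h2.1]
    · refine ZeroCov.mono ?_ (zeroCov_union hKmaps hTopmaps hKcov hTopcov)
      rintro ⟨x, y⟩ ⟨hz, hconst⟩
      have h1 := hconst 1
      simp only [Function.iterate_one] at h1
      have h2 : y + (1 - y) * ρ (x, y) / 2 = y := h1
      have h3 : (1 - y) * ρ (x, y) = 0 := by linarith
      rcases mul_eq_zero.mp h3 with h4 | h4
      · right
        exact ⟨hz, by show y = 1; linarith⟩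
      · left
        exact (hρ0 _).mp h4
  have h0A : (0 : ℤ) ∈ A := show (0 : ℤ) ≤ 0 from le_rfl
  have hptF : ∀ t, pt t ∈ F := by
    intro t
    have := sqx_mem bz t
    refine ⟨⟨?_, ?_⟩, ⟨le_rfl, zero_le_one⟩⟩
    · show 0 ≤ sqx bz t; linarith [this.1]
    · show sqx bz t ≤ 1; linarith [this.2]
  refine ⟨T, pt 0, hTs, hmaps, ?_, hptF 0, by rw [hTpt 0 h0A]; exact hptF _, ?_⟩
  · exact le_antisymm (coverEntropy_le_zero hmaps hFcov)
      (coverEntropy_nonneg T ⟨pt 0, hptF 0⟩)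
  · intro n
    have hit : ∀ n : ℕ, ∀ t ∈ A, T^[n] (pt t) = pt (t + n) := by
      intro n
      induction n with
      | zero => intro t _; simp
      | succ n ih =>
        intro t ht
        rw [Function.iterate_succ_apply, hTpt t ht, ih _ (hA1 t ht)]
        congr 1
        push_cast
        ring
    rw [hTpt 0 h0A, hit n 0 h0A, hit n _ (hA1 0 h0A)]
    have h1 := sqx_rec bz n
    have h2 : bz n = b n := by rw [hbz, extZ_natCast]
    rw [h2] at h1
    show 4 * sqx bz (0 + n) - sqx bz (0 + 1 + n) = dig (b n)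
    have e1 : (0 : ℤ) + n = n := by ring
    have e2 : (0 : ℤ) + 1 + n = n + 1 := by ring
    rw [e1, e2]
    linarith

/-- the logarithmically averaged Sarnak conjecture for smooth self-maps of the square and the first
coordinate -/
def SquareSarnak : Prop :=
  ∀ T : ℝ × ℝ → ℝ × ℝ, ContDiff ℝ ∞ T →
    MapsTo T (Icc 0 1 ×ˢ Icc 0 1) (Icc 0 1 ×ˢ Icc 0 1) →
    coverEntropy T (Icc 0 1 ×ˢ Icc 0 1) = 0 → ∀ z ∈ Icc (0 : ℝ) 1 ×ˢ Icc (0 : ℝ) 1,
    Tendsto (logAvg fun n => ((T^[n] z).1 : ℂ)) atTop (𝓝 0)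

theorem logSarnak_iff_square : LogSarnak ↔ SquareSarnak := by
  constructor
  · intro h T hT hm hent z hz
    exact h.on_compact hT.continuous (isCompact_Icc.prod isCompact_Icc) hm hent
      (f := fun w : ℝ × ℝ => (w.1 : ℂ)) (by fun_prop) hz
  · intro h
    have hone : Tendsto (logAvg fun _ => (1 : ℂ)) atTop (𝓝 0) := by
      have hid : MapsTo (id : ℝ × ℝ → ℝ × ℝ) (Icc 0 1 ×ˢ Icc 0 1) (Icc 0 1 ×ˢ Icc 0 1) :=
        mapsTo_id _
      have h1 := h id contDiff_id hid (le_antisymm (coverEntropy_le_zero hid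
        (zeroCov_of_nonexpanding (isCompact_Icc.prod isCompact_Icc) Subset.rfl
          (fun x _ y _ k => by simp))) (coverEntropy_nonneg _ ⟨(1, 0), by simp⟩)) (1, 0) (by simp)
      simpa using h1
    apply logSarnak_of_lowC
    intro b hb
    obtain ⟨T, z, hT, hm, hent, hz, hTz, hdig⟩ := exists_square_map b hb
    have h1 := h T hT hm hent z hz
    have h2 := h T hT hm hent (T z) hTz
    have h3 := tendsto_logAvg_lin (tendsto_logAvg_lin h1 h2 4 (-1)) hone 1 (-1)
    refine h3.congr' (Eventually.of_forall fun N => ?_)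
    congr 1
    funext n
    have h4 : ((dig (b n) : ℝ) : ℂ) = 4 * ((T^[n] z).1 : ℂ) - ((T^[n] (T z)).1 : ℂ) := by
      rw [← hdig n]
      push_cast
      ring
    have h5 : ((dig (b n) : ℝ) : ℂ) = 1 + if b n then 1 else 0 := by
      unfold dig
      split_ifs <;> norm_num
    rw [h5] at h4
    linear_combination -h4

end Pool.Agent.Lib.MP_3e612f_nt
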