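import Pool.Agent.Lib.MP_3e612f_nt.Cov
import Pool.Agent.Lib.MP_3e612f_nt.Quant

/-!
Symbolic reduction: the logarithmically averaged Sarnak conjecture follows from its special case of
0-1 sequences with few aligned blocks.
-/

set_option autoImplicit false

namespace Pool.Agent.Lib.MP_3e612f_nt

open Filter Topology Set

theorem LowC.comp {α β : Type*} {b : ℕ → α} (h : LowC b) (g : α → β) : LowC fun n => g (b n) := by
  intro δ hδ
  obtain ⟨L, hL, M, hM, c, hc⟩ := h δ hδ
  exact ⟨L, hL, M, hM, c, fun m m' hmm i hi => congrArg g (hc m m' hmm i hi)⟩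

theorem LowC.finite_range {α : Type*} {b : ℕ → α} (h : LowC b) : (range b).Finite := by
  classical
  obtain ⟨L, hL, M, -, c, hc⟩ := h 1 one_pos
  have hrep : ∀ j : Fin M, ∃ r : ℕ, ∀ m, c m = j → c r = j := by
    intro j
    by_cases hj : ∃ m, c m = j
    · obtain ⟨m, hm⟩ := hj
      exact ⟨m, fun _ _ => hm⟩
    · exact ⟨0, fun m hm => absurd ⟨m, hm⟩ hj⟩
  choose rep hrep using hrep
  refine (Set.finite_range fun p : Fin M × Fin L => b (rep p.1 * L + p.2)).subset ?_
  rintro _ ⟨n, rfl⟩
  refine ⟨(c (n / L), ⟨n % L, Nat.mod_lt _ hL⟩), ?_⟩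
  dsimp only
  rw [hc _ _ (hrep (c (n / L)) (n / L) rfl) _ (Nat.mod_lt _ hL), Nat.div_add_mod']

theorem logAvg_congr_bound {a b : ℕ → ℂ} {ε : ℝ} (hab : ∀ n, ‖a n - b n‖ ≤ ε) {N : ℕ}
    (hN : 3 ≤ N) : ‖logAvg a N - logAvg b N‖ ≤ 2 * ε := by
  have hε : 0 ≤ ε := (norm_nonneg _).trans (hab 0)
  have hNr : (3 : ℝ) ≤ N := by exact_mod_cast hN
  have hlog : 1 ≤ Real.log N := by
    have h1 : Real.exp 1 ≤ N := by linarith [Real.exp_one_lt_d9]
    calc (1 : ℝ) = Real.log (Real.exp 1) := (Real.log_exp 1).symm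
      _ ≤ Real.log N := Real.log_le_log (Real.exp_pos 1) h1
  have hharm : ∑ n ∈ Finset.Icc 1 N, (1 : ℝ) / n ≤ 1 + Real.log N := by
    have h1 := harmonic_le_one_add_log N
    rw [harmonic_eq_sum_Icc] at h1
    push_cast at h1
    simpa [one_div] using h1
  unfold logAvg
  rw [← mul_sub, ← Finset.sum_sub_distrib, norm_mul]
  have h2 : ‖(1 / (Real.log (N : ℝ) : ℂ))‖ = 1 / Real.log N := by
    rw [norm_div, norm_one, Complex.norm_real, Real.norm_of_nonneg (by linarith)]
  have h3 : ‖∑ n ∈ Finset.Icc 1 N,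
      (a n * ((ArithmeticFunction.moebius n : ℤ) : ℂ) / (n : ℂ) -
        b n * ((ArithmeticFunction.moebius n : ℤ) : ℂ) / (n : ℂ))‖ ≤ ε * (1 + Real.log N) := by
    refine (norm_sum_le _ _).trans ?_
    calc ∑ n ∈ Finset.Icc 1 N, ‖(a n * ((ArithmeticFunction.moebius n : ℤ) : ℂ) / (n : ℂ) -
          b n * ((ArithmeticFunction.moebius n : ℤ) : ℂ) / (n : ℂ))‖
        ≤ ∑ n ∈ Finset.Icc 1 N, ε * (1 / n) := by
          refine Finset.sum_le_sum fun n hn => ?_
          have e : a n * ((ArithmeticFunction.moebius n : ℤ) : ℂ) / (n : ℂ) -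
              b n * ((ArithmeticFunction.moebius n : ℤ) : ℂ) / (n : ℂ) =
              (a n - b n) * (((ArithmeticFunction.moebius n : ℤ) : ℂ) / (n : ℂ)) := by ring
          rw [e, norm_mul]
          have h4 : ‖((ArithmeticFunction.moebius n : ℤ) : ℂ) / (n : ℂ)‖ ≤ 1 / n := by
            rw [norm_div, Complex.norm_natCast, Complex.norm_intCast]
            apply div_le_div_of_nonneg_right _ (by positivity)
            exact_mod_cast ArithmeticFunction.abs_moebius_le_one
          exact mul_le_mul (hab n) h4 (norm_nonneg _) hε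
      _ = ε * ∑ n ∈ Finset.Icc 1 N, (1 : ℝ) / n := by rw [Finset.mul_sum]
      _ ≤ ε * (1 + Real.log N) := mul_le_mul_of_nonneg_left hharm hε
  rw [h2]
  calc 1 / Real.log N * _ ≤ 1 / Real.log N * (ε * (1 + Real.log N)) :=
        mul_le_mul_of_nonneg_left h3 (by positivity)
    _ ≤ 2 * ε := by
        rw [one_div, inv_mul_le_iff₀ (by linarith)]
        nlinarith

theorem logAvg_sum {ι : Type*} (s : Finset ι) (v : ι → ℂ) (b : ι → ℕ → ℂ) (N : ℕ) :
    logAvg (fun n => ∑ j ∈ s, v j * b j n) N = ∑ j ∈ s, v j * logAvg (b j) N := by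
  unfold logAvg
  simp_rw [Finset.sum_mul, Finset.sum_div, Finset.mul_sum]
  rw [Finset.sum_comm]
  refine Finset.sum_congr rfl fun j _ => Finset.sum_congr rfl fun n _ => ?_
  ring

/-- it is enough to treat 0-1 sequences with few aligned blocks -/
theorem logSarnak_of_lowC
    (h : ∀ b : ℕ → Bool, LowC b → Tendsto (logAvg fun n => if b n then 1 else 0) atTop (𝓝 0)) :
    LogSarnak := by
  classical
  intro X _ _ T hT hent f hf x
  have hseg : Seg fun n => f (T^[n] x) := by
    intro ε hε δ hδ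
    obtain ⟨η, hη, hfη⟩ := Metric.uniformContinuous_iff.mp
      (CompactSpace.uniformContinuous_of_continuous hf) ε hε
    filter_upwards [eventually_pcov hent.le hη hδ] with L hL
    obtain ⟨M, hM, c, hc⟩ := hL
    refine ⟨M, hM, fun n => c (T^[n] x), fun n n' hnn i hi => ?_⟩
    have h1 := hc _ (mem_univ _) _ (mem_univ _) hnn i hi
    rw [← Function.iterate_add_apply, ← Function.iterate_add_apply, add_comm i n,
      add_comm i n'] at h1
    exact hfη h1
  rw [Metric.tendsto_atTop']
  intro ε hε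
  obtain ⟨ρ, hρ, hlow⟩ := exists_quant hseg (show (0 : ℝ) < ε / 4 by linarith)
  set b : ℕ → ℂ := fun n => f (T^[ρ n] x) with hb
  have hblow : LowC b := hlow.comp fun k => f (T^[k] x)
  set V : Finset ℂ := hblow.finite_range.toFinset with hV
  have hbsum : b = fun n => ∑ v ∈ V, v * (if decide (b n = v) = true then 1 else 0) := by
    funext n
    have hn : b n ∈ V := by
      rw [hV, Set.Finite.mem_toFinset]
      exact mem_range_self n
    rw [Finset.sum_eq_single_of_mem (b n) hn]
    · simp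
    · intro v _ hv
      simp [Ne.symm hv]
  have hb0 : Tendsto (logAvg b) atTop (𝓝 0) := by
    have h1 : logAvg b = fun N => ∑ v ∈ V, v * logAvg
        (fun n => if decide (b n = v) = true then 1 else 0) N := by
      funext N
      conv_lhs => rw [hbsum]
      exact logAvg_sum V (fun v => v) (fun v n => if decide (b n = v) = true then 1 else 0) N
    rw [h1]
    have h2 : Tendsto (fun N => ∑ v ∈ V, v * logAvg
        (fun n => if decide (b n = v) = true then 1 else 0) N) atTop (𝓝 (∑ v ∈ V, v * 0)) := by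
      refine tendsto_finsetSum _ fun v _ => ?_
      exact (h (fun n => decide (b n = v)) (hblow.comp fun z => decide (z = v))).const_mul v
    simpa using h2
  rw [Metric.tendsto_atTop'] at hb0
  obtain ⟨N, hN⟩ := hb0 (ε / 2) (by linarith)
  refine ⟨max N 3, fun n hn => ?_⟩
  have h1 := hN n (lt_of_le_of_lt (le_max_left _ _) hn)
  have h2 := logAvg_congr_bound (a := fun n => f (T^[n] x)) (b := b) (ε := ε / 4)
    (fun n => by
      have := hρ n
      rw [dist_comm, dist_eq_norm] at this
      exact this) (N := n) ((le_max_right _ _).trans hn.le)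
  rw [dist_zero_right] at h1 ⊢
  calc ‖logAvg (fun n => f (T^[n] x)) n‖ ≤
        ‖logAvg (fun n => f (T^[n] x)) n - logAvg b n‖ + ‖logAvg b n‖ := by
          simpa using norm_add_le (logAvg (fun n => f (T^[n] x)) n - logAvg b n) (logAvg b n)
    _ < ε := by linarith

end Pool.Agent.Lib.MP_3e612f_nt
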